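import Pool.Agent.CMFn.NDefs

/-! Project CMFn, module Kos: Koszul identities (helper71). -/

namespace Pool.Agent.CMFn

open Matrix

noncomputable section

section Kos

variable {r : ℕ} {M : Type} [AddCommGroup M] [Module ℂ M]

lemma kos_sum_apply {κ : Type} (s : Finset κ) {i : ℕ} (f : κ → KV r i M) (v : Fin i → Fin r → ℂ) :
    (∑ j ∈ s, f j) v = ∑ j ∈ s, f j v := by
  classical
  induction s using Finset.induction_on with
  | empty => rfl
  | insert a s ha ih => rw [Finset.sum_insert ha, Finset.sum_insert ha, AlternatingMap.add_apply, ih]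

lemma kd_apply (A : (Fin r → ℂ) →ₗ[ℂ] Module.End ℂ M) (i : ℕ) (ω : KV r i M)
    (v : Fin (i + 1) → Fin r → ℂ) :
    kd A i ω v = ∑ p : Fin (i + 1), (-1 : ℤ) ^ (p : ℕ) • A (v p) (ω (p.removeNth v)) := by
  show AlternatingMap.alternatizeUncurryFin (kdAux A ω) v = _
  rw [AlternatingMap.alternatizeUncurryFin_apply]
  rfl

lemma kh_apply (B : Fin r → Module.End ℂ M) (i : ℕ) (ω : KV r (i + 1) M)
    (v : Fin i → Fin r → ℂ) :
    kh B i ω v = ∑ j, B j (ω (vecCons (Pi.single j 1) v)) := by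
  show (∑ j, (B j).compAlternatingMap (ω.curryLeft (Pi.single j 1)) : KV r i M) v = _
  rw [kos_sum_apply]
  rfl

@[simp] lemma kmap_apply {M' : Type} [AddCommGroup M'] [Module ℂ M'] (f : M →ₗ[ℂ] M') (i : ℕ)
    (ω : KV r i M) (v : Fin i → Fin r → ℂ) : kmap f i ω v = f (ω v) := rfl

/-- `alternatizeUncurryFin_alternatizeUncurryFinLM_comp_of_symmetric`. -/
theorem kd_kd (A : (Fin r → ℂ) →ₗ[ℂ] Module.End ℂ M) (hA : ∀ v w, A v * A w = A w * A v) (i : ℕ)
    (ω : KV r i M) : kd A (i + 1) (kd A i ω) = 0 := by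
  let f : (Fin r → ℂ) →ₗ[ℂ] (Fin r → ℂ) →ₗ[ℂ] KV r i M :=
    { toFun := fun v =>
        { toFun := fun w => (A v * A w).compAlternatingMap ω
          map_add' := fun w w' => by ext x; simp
          map_smul' := fun c w => by ext x; simp }
      map_add' := fun v v' => by ext w x; simp
      map_smul' := fun c v => by ext w x; simp }
  have hf : ∀ x y, f x y = f y x := by
    intro x y
    show (A x * A y).compAlternatingMap ω = (A y * A x).compAlternatingMap ω
    rw [hA]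
  have h1 := AlternatingMap.alternatizeUncurryFin_alternatizeUncurryFinLM_comp_of_symmetric hf
  have h2 : AlternatingMap.alternatizeUncurryFinLM ∘ₗ f = kdAux A (kd A i ω) := by
    ext v x
    show AlternatingMap.alternatizeUncurryFin (f (Pi.single v 1)) x = A (Pi.single v 1) (kd A i ω x)
    rw [AlternatingMap.alternatizeUncurryFin_apply, kd_apply, map_sum]
    refine Finset.sum_congr rfl fun p _ => ?_
    rw [map_zsmul]
    rfl
  show AlternatingMap.alternatizeUncurryFin (kdAux A (kd A i ω)) = 0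
  rw [← h2]
  exact h1

theorem kh_kh (B : Fin r → Module.End ℂ M) (hB : ∀ j l, B j * B l = B l * B j) (i : ℕ)
    (ω : KV r (i + 2) M) : kh B i (kh B (i + 1) ω) = 0 := by
  ext v
  rw [kh_apply, AlternatingMap.zero_apply]
  have h1 : ∀ j, B j (kh B (i + 1) ω (vecCons (Pi.single j 1) v)) =
      ∑ l, B j (B l (ω (vecCons (Pi.single l 1) (vecCons (Pi.single j 1) v)))) := by
    intro j
    rw [kh_apply, map_sum]
  simp only [h1]
  set S : M := ∑ j, ∑ l, B j (B l (ω (vecCons (Pi.single l 1) (vecCons (Pi.single j 1) v)))) with hS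
  have h2 : ∀ x y : Fin r → ℂ, ω (vecCons x (vecCons y v)) = - ω (vecCons y (vecCons x v)) := by
    intro x y
    have h3 : vecCons x (vecCons y v) = (vecCons y (vecCons x v)) ∘ Equiv.swap (0 : Fin (i + 2)) 1 := by
      funext k
      refine Fin.cases ?_ (fun k => ?_) k
      · simp
      · refine Fin.cases ?_ (fun k => ?_) k
        · simp
        · rw [Function.comp_apply, Equiv.swap_apply_of_ne_of_ne]
          · simp
          · exact Fin.succ_ne_zero _
          · intro h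
            have := congrArg Fin.val h
            simp at this
    rw [h3, AlternatingMap.map_swap]
    exact Fin.zero_ne_one
  have h3 : S = -S := by
    calc S = ∑ j, ∑ l, B l (B j (ω (vecCons (Pi.single j 1) (vecCons (Pi.single l 1) v)))) := by
          rw [hS, Finset.sum_comm]
      _ = ∑ j, ∑ l, -(B j (B l (ω (vecCons (Pi.single l 1) (vecCons (Pi.single j 1) v))))) := by
          refine Finset.sum_congr rfl fun j _ => Finset.sum_congr rfl fun l _ => ?_
          rw [h2, map_neg, map_neg]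
          congr 1
          exact congrArg (fun T : Module.End ℂ M =>
            T (ω (vecCons (Pi.single l 1) (vecCons (Pi.single j 1) v)))) (hB l j)
      _ = -S := by
          simp only [Finset.sum_neg_distrib]
          rw [hS]
  have h4 : (2 : ℂ) • S = 0 := by
    rw [two_smul]
    nth_rewrite 2 [h3]
    exact add_neg_cancel S
  rcases smul_eq_zero.1 h4 with h | h
  · norm_num at h
  · exact h

/-- In degree `0`: `(h d ω)(-) = Σ_j B_j A(e_j) ω`. -/
theorem kh_kd_zero (A : (Fin r → ℂ) →ₗ[ℂ] Module.End ℂ M) (B : Fin r → Module.End ℂ M)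
    (ω : KV r 0 M) (v : Fin 0 → Fin r → ℂ) :
    kh B 0 (kd A 0 ω) v = ∑ j, B j (A (Pi.single j 1) (ω v)) := by
  rw [kh_apply]
  refine Finset.sum_congr rfl fun j _ => ?_
  rw [kd_apply, Fin.sum_univ_one]
  have h1 : (Fin.removeNth (0 : Fin 1) (vecCons (Pi.single j (1 : ℂ)) v) : Fin 0 → Fin r → ℂ) = v :=
    Subsingleton.elim _ _
  rw [h1]
  simp

/-- `(hd + dh) ω (v) = Σ_j B_j A(e_j) ω(v) + Σ_k Σ_j [A(v_k), B_j] ω(v_1, …, e_j, …, v_i)`
(`e_j` in place `k`). -/
theorem kh_kd (A : (Fin r → ℂ) →ₗ[ℂ] Module.End ℂ M) (B : Fin r → Module.End ℂ M) (i : ℕ)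
    (ω : KV r (i + 1) M) (v : Fin (i + 1) → Fin r → ℂ) :
    kh B (i + 1) (kd A (i + 1) ω) v + kd A i (kh B i ω) v =
      ∑ j, B j (A (Pi.single j 1) (ω v)) +
        ∑ k, ∑ j, (A (v k) * B j - B j * A (v k)) (ω (Function.update v k (Pi.single j 1))) := by
  have h1 : ∀ j : Fin r, kd A (i + 1) ω (vecCons (Pi.single j 1) v) =
      A (Pi.single j 1) (ω v) - ∑ k : Fin (i + 1), A (v k) (ω (Function.update v k (Pi.single j 1))) := by
    intro j
    rw [kd_apply, Fin.sum_univ_succ, sub_eq_add_neg, ← Finset.sum_neg_distrib]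
    congr 1
    · have h2 : (Fin.removeNth (0 : Fin (i + 2)) (vecCons (Pi.single j (1 : ℂ)) v) :
          Fin (i + 1) → Fin r → ℂ) = v := by
        rw [Fin.removeNth_zero]
        rfl
      rw [h2]
      simp
    · refine Finset.sum_congr rfl fun k _ => ?_
      have h2 : (Fin.removeNth k.succ (vecCons (Pi.single j (1 : ℂ)) v) :
          Fin (i + 1) → Fin r → ℂ) = vecCons (Pi.single j 1) (k.removeNth v) :=
        Fin.cons_comp_succ_succAbove _ _ _
      rw [h2, ← AlternatingMap.neg_one_pow_smul_map_insertNth, Fin.insertNth_removeNth, Matrix.cons_val_succ,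
        Fin.val_succ]
      have h3 : A (v k) ((-1 : ℤ) ^ (k : ℕ) • ω (Function.update v k (Pi.single j 1))) =
          (-1 : ℤ) ^ (k : ℕ) • A (v k) (ω (Function.update v k (Pi.single j 1))) := map_zsmul _ _ _
      rw [h3, smul_smul, ← pow_add]
      rw [show (k : ℕ) + 1 + k = 2 * k + 1 by ring, pow_succ, pow_mul]
      simp
  have h2 : ∀ k : Fin (i + 1), (-1 : ℤ) ^ (k : ℕ) • A (v k) (kh B i ω (k.removeNth v)) =
      ∑ j, A (v k) (B j (ω (Function.update v k (Pi.single j 1)))) := by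
    intro k
    rw [kh_apply, map_sum, Finset.smul_sum]
    refine Finset.sum_congr rfl fun j _ => ?_
    rw [← AlternatingMap.neg_one_pow_smul_map_insertNth, Fin.insertNth_removeNth]
    rw [map_zsmul, map_zsmul, smul_smul, ← pow_add, Even.neg_one_pow, one_smul]
    exact ⟨k, rfl⟩
  rw [kh_apply, kd_apply]
  simp only [h1, h2, map_sub, map_sum, Finset.sum_sub_distrib]
  rw [sub_add_eq_add_sub, add_sub_assoc]
  congr 1
  have h5 : ∑ j, ∑ k, B j (A (v k) (ω (Function.update v k (Pi.single j 1)))) =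
      ∑ k, ∑ j, B j (A (v k) (ω (Function.update v k (Pi.single j 1)))) := Finset.sum_comm
  rw [h5, ← Finset.sum_sub_distrib]
  refine Finset.sum_congr rfl fun k _ => ?_
  rw [← Finset.sum_sub_distrib]
  rfl

/-- Weyl algebra case: `[A(v), B_j] = v_j`. -/
theorem kh_kd_weyl (A : (Fin r → ℂ) →ₗ[ℂ] Module.End ℂ M) (B : Fin r → Module.End ℂ M)
    (hAB : ∀ v j, A v * B j - B j * A v = v j • 1) (i : ℕ)
    (ω : KV r (i + 1) M) :
    kh B (i + 1) (kd A (i + 1) ω) + kd A i (kh B i ω) =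
      kmap (∑ j, B j * A (Pi.single j 1)) (i + 1) ω + ((i : ℂ) + 1) • ω := by
  apply AlternatingMap.ext
  intro v
  rw [AlternatingMap.add_apply, AlternatingMap.add_apply, kh_kd, AlternatingMap.smul_apply,
    kmap_apply, LinearMap.sum_apply]
  congr 1
  have h1 : ∀ k : Fin (i + 1), ∑ j, (A (v k) * B j - B j * A (v k))
      (ω (Function.update v k (Pi.single j 1))) = ω v := by
    intro k
    simp only [hAB]
    have h2 : ∀ j, (v k j • (1 : Module.End ℂ M)) (ω (Function.update v k (Pi.single j 1))) =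
        ω (Function.update v k (v k j • Pi.single j (1 : ℂ))) := by
      intro j
      rw [AlternatingMap.map_update_smul]
      rfl
    simp only [h2]
    rw [← AlternatingMap.map_update_sum]
    congr 1
    have h3 : ∑ j, v k j • (Pi.single j (1 : ℂ) : Fin r → ℂ) = v k := by
      funext b
      simp [Finset.sum_apply, Pi.single_apply]
    rw [h3, Function.update_eq_self]
  simp only [h1, Finset.sum_const, Finset.card_univ, Fintype.card_fin]
  rw [← Nat.cast_smul_eq_nsmul ℂ]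
  congr 1
  push_cast
  ring

/-- A rank one endomorphism `u = ν ⊗ α`: `Σ_k ω(v_1, …, u v_k, …) = ω(v) - ω((1-u)v)`. -/
theorem sum_update_rank_one (i : ℕ) (ω : KV r i M) (ν α : Fin r → ℂ) (v : Fin i → Fin r → ℂ) :
    ∑ k, ω (Function.update v k ((α ⬝ᵥ v k) • ν)) =
      ω v - ω (fun k => v k - (α ⬝ᵥ v k) • ν) := by
  have h1 := ω.toMultilinearMap.map_add_eq_map_add_linearDeriv_add v (fun k => -((α ⬝ᵥ v k) • ν))
  have h2 : ω.toMultilinearMap (v + fun k => -((α ⬝ᵥ v k) • ν)) =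
      ω (fun k => v k - (α ⬝ᵥ v k) • ν) := by
    show ω _ = ω _
    congr 1
  have h3 : ∀ s ∈ (Finset.univ : Finset (Finset (Fin i))).filter (fun s => 2 ≤ s.card),
      ω.toMultilinearMap (s.piecewise (fun k => -((α ⬝ᵥ v k) • ν)) v) = 0 := by
    intro s hs
    rw [Finset.mem_filter] at hs
    obtain ⟨a, ha, b, hb, hab⟩ := Finset.one_lt_card.1 (by omega : 1 < s.card)
    show ω _ = 0
    set w : Fin i → Fin r → ℂ := s.piecewise (fun k => -((α ⬝ᵥ v k) • ν)) v with hw
    have hwa : w a = (-(α ⬝ᵥ v a)) • ν := by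
      rw [hw, Finset.piecewise_eq_of_mem _ _ _ ha, neg_smul]
    have hwb : w b = (-(α ⬝ᵥ v b)) • ν := by
      rw [hw, Finset.piecewise_eq_of_mem _ _ _ hb, neg_smul]
    have h4 : w = Function.update w a ((-(α ⬝ᵥ v a)) • ν) := by
      rw [← hwa, Function.update_eq_self]
    have h5 : Function.update w a ν = Function.update (Function.update w a ν) b ((-(α ⬝ᵥ v b)) • ν) := by
      have : (Function.update w a ν) b = (-(α ⬝ᵥ v b)) • ν := by
        rw [Function.update_of_ne hab.symm, hwb]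
      rw [← this, Function.update_eq_self]
    rw [h4, AlternatingMap.map_update_smul, h5, AlternatingMap.map_update_smul]
    have h6 : ω (Function.update (Function.update w a ν) b ν) = 0 := by
      apply AlternatingMap.map_eq_zero_of_eq _ _ (i := a) (j := b)
      · rw [Function.update_self, Function.update_of_ne hab, Function.update_self]
      · exact hab
    rw [h6, smul_zero, smul_zero]
  rw [h2, Finset.sum_eq_zero h3, add_zero, MultilinearMap.linearDeriv_apply] at h1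
  rw [h1]
  have h4 : ∑ k, ω.toMultilinearMap (Function.update v k (-((α ⬝ᵥ v k) • ν))) =
      -∑ k, ω (Function.update v k ((α ⬝ᵥ v k) • ν)) := by
    rw [← Finset.sum_neg_distrib]
    refine Finset.sum_congr rfl fun k _ => ?_
    show ω _ = _
    rw [AlternatingMap.map_update_neg]
  rw [h4]
  show _ = ω v - (ω v + -_)
  abel

theorem kd_kmap {M' : Type} [AddCommGroup M'] [Module ℂ M'] (f : M →ₗ[ℂ] M')
    (A : (Fin r → ℂ) →ₗ[ℂ] Module.End ℂ M) (A' : (Fin r → ℂ) →ₗ[ℂ] Module.End ℂ M')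
    (h : ∀ v m, f (A v m) = A' v (f m)) (i : ℕ) (ω : KV r i M) :
    kmap f (i + 1) (kd A i ω) = kd A' i (kmap f i ω) := by
  apply AlternatingMap.ext
  intro v
  rw [kmap_apply, kd_apply, kd_apply, map_sum]
  refine Finset.sum_congr rfl fun p _ => ?_
  rw [map_zsmul, h, kmap_apply]

variable {N : SG r} [Fintype N]

lemma gK_apply (T : N → Module.End ℂ M) (i : ℕ) (g : N) (ω : KV r i M)
    (v : Fin i → Fin r → ℂ) : gK T i g ω v = T g (ω fun k => (g⁻¹).1.1 *ᵥ v k) := rfl

lemma kos_mulVec_inv (g : N) (v : Fin r → ℂ) : g.1.1 *ᵥ ((g⁻¹).1.1 *ᵥ v) = v := by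
  rw [Matrix.mulVec_mulVec]
  have h1 : g.1.1 * (g⁻¹).1.1 = 1 := by
    have : ((g * g⁻¹ : N) : GL (Fin r) ℂ).1 = 1 := by rw [mul_inv_cancel]; rfl
    rw [← this]
    rfl
  rw [h1, Matrix.one_mulVec]

theorem gK_mul (T : N → Module.End ℂ M) (hT : ∀ g h, T (g * h) = T g * T h) (i : ℕ) (g h : N)
    (ω : KV r i M) : gK T i (g * h) ω = gK T i g (gK T i h ω) := by
  apply AlternatingMap.ext
  intro v
  rw [gK_apply, gK_apply, gK_apply, hT]
  show T g (T h _) = T g (T h _)
  congr 3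
  funext k
  rw [Matrix.mulVec_mulVec]
  congr 1

/-- `d` commutes with `N`, if `g A(v) g⁻¹ = A(g v)`. -/
theorem kd_gK (T : N → Module.End ℂ M) (A : (Fin r → ℂ) →ₗ[ℂ] Module.End ℂ M)
    (hTA : ∀ g v, T g * A v = A (g.1.1 *ᵥ v) * T g) (i : ℕ) (g : N) (ω : KV r i M) :
    kd A i (gK T i g ω) = gK T (i + 1) g (kd A i ω) := by
  apply AlternatingMap.ext
  intro v
  rw [gK_apply, kd_apply, kd_apply, map_sum]
  refine Finset.sum_congr rfl fun p _ => ?_
  rw [map_zsmul, gK_apply]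
  congr 1
  have h1 := congrArg (fun F : Module.End ℂ M => F (ω (fun k => (g⁻¹).1.1 *ᵥ p.removeNth v k)))
    (hTA g ((g⁻¹).1.1 *ᵥ v p))
  rw [kos_mulVec_inv] at h1
  exact h1.symm

/-- `h` commutes with `N`, if `g B_i = Σ_j (g⁻¹)_{ij} B_j g`. -/
theorem kh_gK (T : N → Module.End ℂ M) (B : Fin r → Module.End ℂ M)
    (hTB : ∀ g i, T g * B i = (∑ j, (g⁻¹).1.1 i j • B j) * T g) (i : ℕ) (g : N)
    (ω : KV r (i + 1) M) : kh B i (gK T (i + 1) g ω) = gK T i g (kh B i ω) := by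
  apply AlternatingMap.ext
  intro v
  rw [gK_apply, kh_apply, kh_apply, map_sum]
  have h1 : ∀ a : Fin r, T g (B a (ω (vecCons (Pi.single a 1) fun k => (g⁻¹).1.1 *ᵥ v k))) =
      ∑ j, B j (T g (ω (vecCons ((g⁻¹).1.1 a j • Pi.single a (1 : ℂ)) fun k => (g⁻¹).1.1 *ᵥ v k))) := by
    intro a
    have h2 := congrArg (fun F : Module.End ℂ M =>
      F (ω (vecCons (Pi.single a 1) fun k => (g⁻¹).1.1 *ᵥ v k))) (hTB g a)
    have h3 : T g (B a (ω (vecCons (Pi.single a 1) fun k => (g⁻¹).1.1 *ᵥ v k))) =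
        (∑ j, (g⁻¹).1.1 a j • B j) (T g (ω (vecCons (Pi.single a 1) fun k => (g⁻¹).1.1 *ᵥ v k))) := h2
    rw [h3, LinearMap.sum_apply]
    refine Finset.sum_congr rfl fun j _ => ?_
    rw [LinearMap.smul_apply, AlternatingMap.map_vecCons_smul, map_smul, map_smul]
  simp only [h1]
  rw [Finset.sum_comm]
  refine Finset.sum_congr rfl fun j _ => ?_
  rw [← map_sum, ← map_sum, gK_apply]
  congr 2
  have h4 : (fun k => (g⁻¹).1.1 *ᵥ (vecCons (Pi.single j (1 : ℂ)) v : Fin (i + 1) → Fin r → ℂ) k) =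
      vecCons (∑ a, (g⁻¹).1.1 a j • (Pi.single a (1 : ℂ) : Fin r → ℂ)) fun k => (g⁻¹).1.1 *ᵥ v k := by
    funext k
    refine Fin.cases ?_ (fun k => ?_) k
    · rw [Matrix.cons_val_zero, Matrix.cons_val_zero]
      funext b
      rw [Matrix.mulVec_single, Finset.sum_apply]
      simp [Pi.single_apply]
    · rw [Matrix.cons_val_succ, Matrix.cons_val_succ]
  rw [h4]
  have h5 : ∀ x : Fin r → ℂ, ω (vecCons x fun k => (g⁻¹).1.1 *ᵥ v k) =
      ω.curryLeft x (fun k => (g⁻¹).1.1 *ᵥ v k) := fun x => rfl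
  simp only [h5]
  rw [map_sum, kos_sum_apply]

/-! ### The isotypic projector -/

/-- Schur's lemma. -/
lemma kos_schur {ι : Type} [Fintype ι] [DecidableEq ι] (ρ : N →* Matrix ι ι ℂ)
    (hρ : Submodule.span ℂ (Set.range ρ) = ⊤) (M : Matrix ι ι ℂ)
    (h : ∀ g : N, M * ρ g = ρ g * M) : ∃ c : ℂ, M = c • (1 : Matrix ι ι ℂ) := by
  have h1 : ∀ X : Matrix ι ι ℂ, M * X = X * M := by
    intro X
    have hX : X ∈ Submodule.span ℂ (Set.range ρ) := by rw [hρ]; trivial
    induction hX using Submodule.span_induction with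
    | mem F hF =>
      obtain ⟨g, rfl⟩ := hF
      exact h g
    | zero => rw [mul_zero, zero_mul]
    | add x y _ _ hx hy => rw [mul_add, add_mul, hx, hy]
    | smul c x _ hx => rw [mul_smul_comm, smul_mul_assoc, hx]
  have h2 : M ∈ Set.range (Matrix.scalar ι) := by
    rw [Matrix.mem_range_scalar_iff_commute_single']
    intro i j
    exact (h1 _).symm
  obtain ⟨c, hc⟩ := h2
  refine ⟨c, ?_⟩
  rw [← hc]
  ext i j
  simp [Matrix.scalar, Matrix.diagonal_apply, Matrix.one_apply]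

/-- The isotypic projector acts as the identity. -/
lemma kos_proj_one {d : ℕ} (hd : 0 < d) (ρ : N →* Matrix (Fin d) (Fin d) ℂ)
    (hρ : Submodule.span ℂ (Set.range ρ) = ⊤) :
    ∑ g : N, (((d : ℂ) / (Fintype.card N : ℂ)) * (ρ g⁻¹).trace) • ρ g = 1 := by
  have : Nonempty (Fin d) := ⟨⟨0, hd⟩⟩
  have hd' : (d : ℂ) ≠ 0 := by
    rw [Nat.cast_ne_zero]; omega
  have hN : (Fintype.card N : ℂ) ≠ 0 := by
    rw [Nat.cast_ne_zero]; exact Fintype.card_ne_zero
  have h1 : ∀ M : Matrix (Fin d) (Fin d) ℂ, ∑ g : N, ρ g * M * ρ g⁻¹ =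
      ((Fintype.card N : ℂ) * M.trace / d) • (1 : Matrix (Fin d) (Fin d) ℂ) := by
    intro M
    obtain ⟨c, hc⟩ := kos_schur ρ hρ (∑ g : N, ρ g * M * ρ g⁻¹) (by
      intro h
      rw [Finset.sum_mul, Finset.mul_sum]
      refine Fintype.sum_equiv (Equiv.mulLeft h⁻¹) _ _ fun g => ?_
      show ρ g * M * ρ g⁻¹ * ρ h = ρ h * (ρ (h⁻¹ * g) * M * ρ (h⁻¹ * g)⁻¹)
      rw [_root_.mul_inv_rev, inv_inv, map_mul ρ g⁻¹ h, map_mul ρ h⁻¹ g]
      have h2 : ρ h * ρ h⁻¹ = 1 := by rw [← map_mul, mul_inv_cancel, map_one]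
      rw [show ρ h * (ρ h⁻¹ * ρ g * M * (ρ g⁻¹ * ρ h)) =
        (ρ h * ρ h⁻¹) * (ρ g * M * ρ g⁻¹ * ρ h) by noncomm_ring, h2, one_mul])
    have h3 := congrArg Matrix.trace hc
    rw [Matrix.trace_sum, Matrix.trace_smul, Matrix.trace_one, Fintype.card_fin, smul_eq_mul] at h3
    have h4 : ∀ g : N, (ρ g * M * ρ g⁻¹).trace = M.trace := by
      intro g
      rw [Matrix.trace_mul_comm, ← mul_assoc, ← map_mul, inv_mul_cancel, map_one, one_mul]
    simp only [h4, Finset.sum_const, Finset.card_univ, nsmul_eq_mul] at h3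
    rw [hc, h3]
    congr 1
    field_simp
  ext i j
  rw [Matrix.sum_apply]
  simp only [Matrix.smul_apply, smul_eq_mul]
  have h5 : ∀ a : Fin d, ∑ g : N, ρ g i j * ρ g⁻¹ a a =
      ((Fintype.card N : ℂ) * (if j = a then 1 else 0) / d) * (if i = a then 1 else 0) := by
    intro a
    have h6 := congrFun (congrFun (h1 (Matrix.single j a 1)) i) a
    rw [Matrix.sum_apply, Matrix.smul_apply, smul_eq_mul, Matrix.one_apply] at h6
    have h7 : ∀ g : N, (ρ g * Matrix.single j a (1 : ℂ) * ρ g⁻¹) i a = ρ g i j * ρ g⁻¹ a a := by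
      intro g
      rw [Matrix.mul_apply, Finset.sum_eq_single a]
      · simp
      · intro b _ hb
        rw [Matrix.mul_single_apply_of_ne]
        · rw [zero_mul]
        · exact hb
      · intro h
        exact absurd (Finset.mem_univ _) h
    simp only [h7] at h6
    rw [h6]
    congr 3
    rcases eq_or_ne j a with rfl | hja
    · rw [if_pos rfl, Matrix.trace_single_eq_same]
    · rw [if_neg hja, Matrix.trace_single_eq_of_ne _ _ _ hja]
  have h8 : ∀ g : N, (d : ℂ) / (Fintype.card N : ℂ) * (ρ g⁻¹).trace * ρ g i j =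
      ∑ a, (d : ℂ) / (Fintype.card N : ℂ) * (ρ g i j * ρ g⁻¹ a a) := by
    intro g
    rw [Matrix.trace, ← Finset.mul_sum, ← Finset.mul_sum]
    simp only [Matrix.diag_apply]
    ring
  simp only [h8]
  rw [Finset.sum_comm]
  simp only [← Finset.mul_sum, h5]
  rw [Matrix.one_apply, Finset.sum_eq_single j]
  · rw [if_pos rfl]
    split_ifs
    · field_simp
    · simp
  · intro b _ hb
    rw [if_neg hb.symm]
    simp
  · intro h
    exact absurd (Finset.mem_univ _) h

lemma pK_apply' (T : N → Module.End ℂ M) {d : ℕ} (ρ : N →* Matrix (Fin d) (Fin d) ℂ) (i : ℕ)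
    (ω : KV r i M) : pK T ρ i ω =
      ∑ g : N, ((d : ℂ) / (Fintype.card N : ℂ) * (ρ g⁻¹).trace) • gK T i g ω := by
  rw [pK, LinearMap.sum_apply]
  rfl

/-- `(Σ b(g) g) p_ρ = β p_ρ` if `Σ b(g) ρ(g) = β`. -/
lemma kos_sum_pK (T : N → Module.End ℂ M) (hT : ∀ g h, T (g * h) = T g * T h)
    {d : ℕ} (ρ : N →* Matrix (Fin d) (Fin d) ℂ) (b : N → ℂ) (β : ℂ)
    (hβ : ∑ g, b g • ρ g = β • (1 : Matrix (Fin d) (Fin d) ℂ)) (i : ℕ) (ω : KV r i M) :
    ∑ g, b g • gK T i g (pK T ρ i ω) = β • pK T ρ i ω := by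
  have h1 : ∀ g, b g • gK T i g (pK T ρ i ω) =
      ∑ x : N, (b g * ((d : ℂ) / (Fintype.card N : ℂ) * (ρ (x⁻¹ * g)).trace)) • gK T i x ω := by
    intro g
    rw [pK_apply', map_sum, Finset.smul_sum]
    refine Fintype.sum_equiv (Equiv.mulLeft g) _ _ fun h => ?_
    show b g • gK T i g (_ • gK T i h ω) =
      (b g * ((d : ℂ) / (Fintype.card N : ℂ) * (ρ ((g * h)⁻¹ * g)).trace)) • gK T i (g * h) ω
    rw [map_smul, smul_smul, gK_mul T hT, _root_.mul_inv_rev, inv_mul_cancel_right]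
  simp only [h1]
  rw [Finset.sum_comm, pK_apply', Finset.smul_sum]
  refine Finset.sum_congr rfl fun x _ => ?_
  rw [← Finset.sum_smul, smul_smul]
  congr 1
  have h2 : ∑ g, b g * (ρ (x⁻¹ * g)).trace = β * (ρ x⁻¹).trace := by
    have h3 := congrArg (fun X : Matrix (Fin d) (Fin d) ℂ => (ρ x⁻¹ * X).trace) hβ
    simp only [Finset.mul_sum, Matrix.trace_sum, mul_smul_comm, Matrix.trace_smul, smul_eq_mul,
      mul_one] at h3
    rw [← h3]
    refine Finset.sum_congr rfl fun g _ => ?_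
    rw [map_mul]
  calc ∑ g, b g * ((d : ℂ) / (Fintype.card N : ℂ) * (ρ (x⁻¹ * g)).trace)
      = (d : ℂ) / (Fintype.card N : ℂ) * ∑ g, b g * (ρ (x⁻¹ * g)).trace := by
        rw [Finset.mul_sum]
        refine Finset.sum_congr rfl fun g _ => ?_
        ring
    _ = β * ((d : ℂ) / (Fintype.card N : ℂ) * (ρ x⁻¹).trace) := by
        rw [h2]
        ring

/-- `p_ρ` is idempotent (`ρ` irreducible). -/
theorem pK_pK (T : N → Module.End ℂ M) (hT : ∀ g h, T (g * h) = T g * T h) (h1 : T 1 = 1)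
    {d : ℕ} (hd : 0 < d) (ρ : N →* Matrix (Fin d) (Fin d) ℂ)
    (hρ : Submodule.span ℂ (Set.range ρ) = ⊤) (i : ℕ) (ω : KV r i M) :
    pK T ρ i (pK T ρ i ω) = pK T ρ i ω := by
  have h2 := kos_sum_pK T hT ρ (fun g => (d : ℂ) / (Fintype.card N : ℂ) * (ρ g⁻¹).trace) 1
    (by rw [one_smul]; exact kos_proj_one hd ρ hρ) i ω
  rw [one_smul] at h2
  rw [pK_apply' T ρ i (pK T ρ i ω)]
  exact h2

/-- Central elements `Σ b(g) g` act on the `ρ`-isotypic part as on `ρ`. -/
theorem pK_central (T : N → Module.End ℂ M) (hT : ∀ g h, T (g * h) = T g * T h) (h1 : T 1 = 1)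
    {d : ℕ} (hd : 0 < d) (ρ : N →* Matrix (Fin d) (Fin d) ℂ)
    (hρ : Submodule.span ℂ (Set.range ρ) = ⊤) (b : N → ℂ) (hb : IsCls b) (β : ℂ)
    (hβ : ∑ g, b g • ρ g = β • (1 : Matrix (Fin d) (Fin d) ℂ)) (i : ℕ) (ω : KV r i M)
    (hω : pK T ρ i ω = ω) : ∑ g, b g • gK T i g ω = β • ω := by
  have h2 := kos_sum_pK T hT ρ b β hβ i ω
  rw [hω] at h2
  exact h2

end Kos

end

end Pool.Agent.CMFn
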