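import Pool.Agent.CMFn.CoA
import Pool.Agent.CMFn.Kos

/-! Project CMFn, module CoC: acyclicity of the Koszul complex of the coinduced module. -/

namespace Pool.Agent.CMFn

open Matrix

noncomputable section

namespace CoCX

variable {r : ℕ}

/-- `Y^b ↦ Y^b/(|b|+m)`. -/
def L (r m : ℕ) : MvPolynomial (Fin r) ℂ →ₗ[ℂ] MvPolynomial (Fin r) ℂ :=
  (MvPolynomial.basisMonomials (Fin r) ℂ).constr ℂ fun b =>
    MvPolynomial.monomial b (1 / ((b.degree : ℂ) + m))

lemma L_monomial (m : ℕ) (b : Fin r →₀ ℕ) (a : ℂ) :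
    L r m (MvPolynomial.monomial b a) = (1 / ((b.degree : ℂ) + m)) • MvPolynomial.monomial b a := by
  have h1 : MvPolynomial.monomial b a = a • (MvPolynomial.basisMonomials (Fin r) ℂ) b := by
    rw [MvPolynomial.coe_basisMonomials, MvPolynomial.smul_monomial, smul_eq_mul, mul_one]
  have h2 : L r m ((MvPolynomial.basisMonomials (Fin r) ℂ) b) =
      MvPolynomial.monomial b (1 / ((b.degree : ℂ) + m)) := by
    rw [L, Module.Basis.constr_basis]
  rw [h1, map_smul, h2, ← h1, MvPolynomial.smul_monomial, MvPolynomial.smul_monomial,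
    smul_eq_mul, smul_eq_mul, mul_comm]

lemma lin_ext {W : Type} [AddCommGroup W] [Module ℂ W]
    {P Q : MvPolynomial (Fin r) ℂ →ₗ[ℂ] W}
    (h : ∀ n p, p.IsHomogeneous n → P p = Q p) : P = Q := by
  refine (MvPolynomial.basisMonomials (Fin r) ℂ).ext fun b => ?_
  rw [MvPolynomial.coe_basisMonomials]
  exact h b.degree _ (MvPolynomial.isHomogeneous_monomial _ rfl)

lemma L_hom (m n : ℕ) (h : MvPolynomial (Fin r) ℂ) (hh : h.IsHomogeneous n) :
    L r m h = (1 / ((n : ℂ) + m)) • h := by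
  conv_lhs => rw [h.as_sum]
  conv_rhs => rw [h.as_sum]
  rw [map_sum, Finset.smul_sum]
  refine Finset.sum_congr rfl fun b hb => ?_
  have h1 : b.degree = n := by
    have := hh (MvPolynomial.mem_support_iff.1 hb)
    rw [← this, Finsupp.degree_eq_weight_one]
    rfl
  rw [L_monomial, h1]

lemma L_mul_X (m : ℕ) (h : MvPolynomial (Fin r) ℂ) (i : Fin r) :
    L r m (h * MvPolynomial.X i) = L r (m + 1) h * MvPolynomial.X i := by
  have key : (L r m) ∘ₗ (LinearMap.mulRight ℂ (MvPolynomial.X i)) =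
      (LinearMap.mulRight ℂ (MvPolynomial.X i)) ∘ₗ (L r (m + 1)) := by
    refine lin_ext fun n p hp => ?_
    simp only [LinearMap.comp_apply, LinearMap.mulRight_apply]
    rw [L_hom m (n + 1) _ (hp.mul (MvPolynomial.isHomogeneous_X _ i)), L_hom (m + 1) n p hp,
      smul_mul_assoc]
    congr 2
    push_cast
    ring
  exact LinearMap.congr_fun key h

lemma euler (m : ℕ) (h : MvPolynomial (Fin r) ℂ) :
    ∑ j, MvPolynomial.pderiv j (L r (m + 1) h) * MvPolynomial.X j +
      ((m : ℂ) + 1) • L r (m + 1) h = h := by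
  have key : (∑ j, (LinearMap.mulRight ℂ (MvPolynomial.X j)) ∘ₗ
      ((MvPolynomial.pderiv j).toLinearMap) ∘ₗ (L r (m + 1))) +
      ((m : ℂ) + 1) • L r (m + 1) = LinearMap.id := by
    refine lin_ext fun n p hp => ?_
    have h1 : ∑ j, MvPolynomial.pderiv j p * MvPolynomial.X j = (n : ℂ) • p := by
      have := hp.sum_X_mul_pderiv
      rw [← Nat.cast_smul_eq_nsmul ℂ] at this
      rw [← this]
      exact Finset.sum_congr rfl fun j _ => mul_comm _ _
    have hne : ((n : ℂ) + ((m + 1 : ℕ) : ℂ)) ≠ 0 := by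
      have : ((n + (m + 1) : ℕ) : ℂ) ≠ 0 := Nat.cast_ne_zero.2 (by omega)
      push_cast at this ⊢
      exact this
    simp only [LinearMap.add_apply, LinearMap.sum_apply, LinearMap.comp_apply,
      LinearMap.mulRight_apply, LinearMap.smul_apply, LinearMap.id_apply]
    rw [L_hom (m + 1) n p hp]
    simp only [map_smul, smul_mul_assoc]
    rw [← Finset.smul_sum]
    have h2 : ∑ j, (MvPolynomial.pderiv j).toLinearMap p * MvPolynomial.X j = (n : ℂ) • p := h1
    rw [h2, smul_smul, smul_smul, ← add_smul]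
    have h3 : 1 / ((n : ℂ) + ((m + 1 : ℕ) : ℂ)) * (n : ℂ) +
        ((m : ℂ) + 1) * (1 / ((n : ℂ) + ((m + 1 : ℕ) : ℂ))) = 1 := by
      have : ((m + 1 : ℕ) : ℂ) = (m : ℂ) + 1 := by push_cast; ring
      rw [this] at hne ⊢
      field_simp
    rw [h3, one_smul]
  have := LinearMap.congr_fun key h
  simp only [LinearMap.add_apply, LinearMap.sum_apply, LinearMap.comp_apply,
      LinearMap.mulRight_apply, LinearMap.smul_apply, LinearMap.id_apply] at this
  exact this

variable {N : SG r} [Fintype N] {c : N → ℂ} (hc : IsCls c) (M : Type) [AddCommGroup M] [Module ℂ M]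
  [Module (H0 N c) M] [IsScalarTower ℂ (H0 N c) M]

/-- `φ ↦ φ ∘ P`. -/
def opL (P : MvPolynomial (Fin r) ℂ →ₗ[ℂ] MvPolynomial (Fin r) ℂ)
    (hP : ∀ n h, h.IsHomogeneous (n + 1) → (P h).IsHomogeneous n ∨ (P h).IsHomogeneous (n + 1)) :
    Module.End ℂ (Co hc M) where
  toFun φ := (⟨φ.f ∘ₗ P, by
    obtain ⟨K, hK⟩ := φ.2
    refine ⟨K + 1, fun n hn h hh => ?_⟩
    obtain ⟨n, rfl⟩ : ∃ k, n = k + 1 := ⟨n - 1, by omega⟩
    rcases hP n h hh with h1 | h1
    · exact hK n (by omega) _ h1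
    · exact hK (n + 1) (by omega) _ h1⟩ : CoS r M)
  map_add' φ ψ := rfl
  map_smul' a φ := rfl

lemma opL_f (P : MvPolynomial (Fin r) ℂ →ₗ[ℂ] MvPolynomial (Fin r) ℂ)
    (hP : ∀ n h, h.IsHomogeneous (n + 1) → (P h).IsHomogeneous n ∨ (P h).IsHomogeneous (n + 1))
    (φ : Co hc M) (h : MvPolynomial (Fin r) ℂ) : (opL hc M P hP φ).f h = φ.f (P h) := rfl

/-- `R_m φ = φ ∘ L_m`. -/
def R (m : ℕ) : Module.End ℂ (Co hc M) := opL hc M (L r m) fun n h hh => Or.inr (by
  rw [L_hom m (n + 1) h hh, MvPolynomial.smul_eq_C_mul]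
  simpa using (MvPolynomial.isHomogeneous_C (Fin r) _).mul hh)

/-- `D_j φ = φ ∘ ∂_j`. -/
def D (j : Fin r) : Module.End ℂ (Co hc M) :=
  opL hc M (MvPolynomial.pderiv j).toLinearMap fun n h hh => Or.inl (hh.pderiv)

variable {hc M}

lemma R_f (m : ℕ) (φ : Co hc M) (h : MvPolynomial (Fin r) ℂ) :
    (R hc M m φ).f h = φ.f (L r m h) := rfl

lemma D_f (j : Fin r) (φ : Co hc M) (h : MvPolynomial (Fin r) ℂ) :
    (D hc M j φ).f h = φ.f (MvPolynomial.pderiv j h) := rfl

lemma co_ext {φ ψ : Co hc M} (h : ∀ p, φ.f p = ψ.f p) : φ = ψ :=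
  Subtype.ext (LinearMap.ext h)

lemma f_add (φ ψ : Co hc M) : (φ + ψ).f = φ.f + ψ.f := rfl
lemma f_smul (a : ℂ) (φ : Co hc M) : (a • φ).f = a • φ.f := rfl
lemma f_zero : (0 : Co hc M).f = 0 := rfl

lemma f_sum {κ : Type} (s : Finset κ) (F : κ → Co hc M) : (∑ i ∈ s, F i).f = ∑ i ∈ s, (F i).f := by
  classical
  induction s using Finset.induction_on with
  | empty => simp [f_zero]
  | insert a s ha ih => rw [Finset.sum_insert ha, Finset.sum_insert ha, f_add, ih]

lemma mY_f (v : Fin r → ℂ) (φ : Co hc M) (h : MvPolynomial (Fin r) ℂ) :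
    (mY c (Co hc M) v φ).f h = φ.f (∑ i, v i • (h * MvPolynomial.X i)) := by
  have h1 : mY c (Co hc M) v φ = ∑ i, v i • (rY c i • φ) := by
    rw [mY, LinearMap.sum_apply, LinearMap.sum_apply]
    rfl
  rw [h1, f_sum, LinearMap.sum_apply, map_sum]
  refine Finset.sum_congr rfl fun i _ => ?_
  rw [f_smul, LinearMap.smul_apply, co_Y, map_smul]

lemma comm (v : Fin r → ℂ) (j : Fin r) :
    mY c (Co hc M) v * D hc M j - D hc M j * mY c (Co hc M) v = v j • 1 := by
  refine LinearMap.ext fun φ => co_ext fun h => ?_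
  have h1 : ((mY c (Co hc M) v * D hc M j - D hc M j * mY c (Co hc M) v) φ) =
      mY c (Co hc M) v (D hc M j φ) + (-1 : ℂ) • D hc M j (mY c (Co hc M) v φ) := by
    rw [LinearMap.sub_apply, Module.End.mul_apply, Module.End.mul_apply, neg_one_smul, sub_eq_add_neg]
  rw [h1, f_add, f_smul, LinearMap.add_apply, LinearMap.smul_apply, mY_f, D_f, D_f, mY_f]
  rw [LinearMap.smul_apply, Module.End.one_apply, f_smul, LinearMap.smul_apply, ← map_smul,
    ← map_add, ← map_smul]
  congr 1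
  rw [map_sum, Finset.smul_sum, ← Finset.sum_add_distrib]
  have h2 : ∀ i : Fin r, MvPolynomial.pderiv j (v i • (h * MvPolynomial.X i)) +
      (-1 : ℂ) • v i • (MvPolynomial.pderiv j h * MvPolynomial.X i) =
      if i = j then v j • h else 0 := by
    intro i
    rw [(MvPolynomial.pderiv j).map_smul, MvPolynomial.pderiv_mul]
    by_cases hij : i = j
    · subst hij
      rw [if_pos rfl, MvPolynomial.pderiv_X_self, mul_one, smul_add, neg_one_smul]
      abel
    · rw [if_neg hij, MvPolynomial.pderiv_X_of_ne hij, mul_zero, add_zero, neg_one_smul]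
      abel
  rw [Finset.sum_congr rfl fun i _ => h2 i]
  simp

lemma R_mY (m : ℕ) (v : Fin r → ℂ) (φ : Co hc M) :
    R hc M (m + 1) (mY c (Co hc M) v φ) = mY c (Co hc M) v (R hc M m φ) := by
  refine co_ext fun h => ?_
  have h2 : ∑ i, v i • (L r (m + 1) h * MvPolynomial.X i) =
      L r m (∑ i, v i • (h * MvPolynomial.X i)) := by
    rw [map_sum]
    exact Finset.sum_congr rfl fun i _ => by rw [map_smul, L_mul_X]
  rw [R_f, mY_f, mY_f, R_f, h2]

lemma R_kd (i m : ℕ) (η : KV r i (Co hc M)) :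
    kmap (R hc M (m + 1)) (i + 1) (kd (mY c (Co hc M)) i η) =
      kd (mY c (Co hc M)) i (kmap (R hc M m) i η) := by
  apply AlternatingMap.ext
  intro v
  rw [kmap_apply, kd_apply, kd_apply, map_sum]
  refine Finset.sum_congr rfl fun p _ => ?_
  rw [map_zsmul, R_mY, kmap_apply]

lemma R_euler (m : ℕ) (φ : Co hc M) :
    R hc M (m + 1) ((∑ j, D hc M j * mY c (Co hc M) (Pi.single j 1)) φ + ((m : ℂ) + 1) • φ) = φ := by
  refine co_ext fun h => ?_
  rw [R_f, f_add, LinearMap.add_apply, f_smul, LinearMap.smul_apply, LinearMap.sum_apply, f_sum,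
    LinearMap.sum_apply]
  have h1 : ∀ j : Fin r, ((D hc M j * mY c (Co hc M) (Pi.single j 1)) φ).f (L r (m + 1) h) =
      φ.f (MvPolynomial.pderiv j (L r (m + 1) h) * MvPolynomial.X j) := by
    intro j
    rw [Module.End.mul_apply, D_f, mY_f]
    congr 1
    rw [Finset.sum_eq_single j]
    · rw [Pi.single_eq_same, one_smul]
    · intro b _ hb
      rw [Pi.single_eq_of_ne hb, zero_smul]
    · intro hj
      exact absurd (Finset.mem_univ j) hj
  rw [Finset.sum_congr rfl fun j _ => h1 j, ← map_sum, ← map_smul, ← map_add, euler]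

end CoCX

open CoCX

variable {r : ℕ} {N : SG r} [Fintype N]
variable {c : N → ℂ} (hc : IsCls c) (M : Type) [AddCommGroup M] [Module ℂ M]
  [Module (H0 N c) M] [IsScalarTower ℂ (H0 N c) M]

theorem co_acyclic (i : ℕ) (ω : KV r (i + 1) (Co hc M)) (h : kd (mY c (Co hc M)) (i + 1) ω = 0) :
    ∃ η : KV r i (Co hc M), kd (mY c (Co hc M)) i η = ω := by
  refine ⟨kmap (R hc M i) i (kh (D hc M) i ω), ?_⟩
  rw [← R_kd]
  have h1 := kh_kd_weyl (mY c (Co hc M)) (D hc M) comm i ω
  rw [h, map_zero, zero_add] at h1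
  rw [h1]
  apply AlternatingMap.ext
  intro v
  rw [kmap_apply, AlternatingMap.add_apply, AlternatingMap.smul_apply, kmap_apply]
  exact R_euler i (ω v)

end

end Pool.Agent.CMFn
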