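import Pool.Agent.CMFn.CoB
import Pool.Agent.CMFn.CoC

/-! Project CMFn (MP_4af2a6_al): every locally nilpotent module embeds into a locally nilpotent
module whose Koszul complex is acyclic in positive degrees. -/

namespace Pool.Agent.CMFn

open Matrix

noncomputable section

variable {r : ℕ} {N : SG r} [Fintype N]

theorem exists_co {c : N → ℂ} (hc : IsCls c) (M : Type) [AddCommGroup M] [Module ℂ M]
    [Module (H0 N c) M] [IsScalarTower ℂ (H0 N c) M] (hM : LN c M) :
    ∃ (M' : Type) (_ : AddCommGroup M') (_ : Module ℂ M') (_ : Module (H0 N c) M')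
      (_ : IsScalarTower ℂ (H0 N c) M') (ι : M →ₗ[H0 N c] M'), Function.Injective ι ∧ LN c M' ∧
      ∀ (i : ℕ) (ω : KV r (i + 1) M'), kd (mY c M') (i + 1) ω = 0 →
        ∃ η : KV r i M', kd (mY c M') i η = ω := by
  obtain ⟨ι, hι⟩ := exists_emb hc M hM
  exact ⟨Co hc M, inferInstance, inferInstance, inferInstance, inferInstance, ι, hι,
    LN_co hc M hM, co_acyclic hc M⟩

end

end Pool.Agent.CMFn
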