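import Pool.Agent.CMFn.CenA

/-! Project CMFn, module Split: splitting of locally nilpotent modules over `H_{0,c}` by an
element which is a central idempotent modulo the invariants. -/

namespace Pool.Agent.CMFn.SplitX

open Matrix Pool.Agent.CMFn

noncomputable section

section gen
variable {A : Type} [Ring A]

lemma g1 (w w' a : A) :
    (w - w') * a - a * (w - w') = (w * a - a * w) - (w' * a - a * w') := by noncomm_ring
lemma g2 (w w' a : A) :
    (w * w') * a - a * (w * w') = w * (w' * a - a * w') + (w * a - a * w) * w' := by noncomm_ring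
lemma g3 (z : A) : (1 - z) * (1 - z) - (1 - z) = z * z - z := by noncomm_ring
lemma g4 (z : A) : z * (1 - z) = -(z * z - z) := by noncomm_ring
lemma g5 (z : A) : Commute z (1 - z) := by
  show z * (1 - z) = (1 - z) * z
  noncomm_ring
lemma g6 (z : A) : 1 - (1 - z) = z := by noncomm_ring
end gen

variable {r : ℕ} {N : SG r} [Fintype N] {c : N → ℂ}

/-- The ideal of the invariants is two-sided. -/
lemma Iid_mul (hc : IsCls c) (u : H0 N c) (hu : u ∈ Iid c) (b : H0 N c) : u * b ∈ Iid c := by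
  unfold Iid at hu ⊢
  induction hu using Submodule.span_induction with
  | mem a ha =>
    rw [Inv_central hc a ha b]
    exact Ideal.mul_mem_left _ b (Ideal.subset_span ha)
  | zero => rw [zero_mul]; exact Submodule.zero_mem _
  | add x y _ _ hx hy => rw [add_mul]; exact Submodule.add_mem _ hx hy
  | smul a x _ hx =>
    rw [smul_eq_mul, mul_assoc]
    exact Ideal.mul_mem_left _ a hx

/-- Elements which commute with everything modulo the invariants. -/
def Cc (w : H0 N c) : Prop := ∀ a, w * a - a * w ∈ Iid c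

lemma Cc_one : Cc (1 : H0 N c) := fun a => by
  rw [one_mul, mul_one, sub_self]; exact Submodule.zero_mem _

lemma Cc_sub {w w' : H0 N c} (h : Cc w) (h' : Cc w') : Cc (w - w') := fun a => by
  rw [g1]
  exact Submodule.sub_mem _ (h a) (h' a)

lemma Cc_mul (hc : IsCls c) {w w' : H0 N c} (h : Cc w) (h' : Cc w') : Cc (w * w') := fun a => by
  rw [g2]
  exact Submodule.add_mem _ (Ideal.mul_mem_left _ w (h' a)) (Iid_mul hc _ (h a) w')

lemma Cc_pow (hc : IsCls c) {w : H0 N c} (h : Cc w) (n : ℕ) : Cc (w ^ n) := by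
  induction n with
  | zero => rw [pow_zero]; exact Cc_one
  | succ n ih => rw [pow_succ]; exact Cc_mul hc ih h

lemma isCI_one_sub {z : H0 N c} (hz : IsCI c z) : IsCI c (1 - z) where
  sq := by
    rw [g3]; exact hz.sq
  comm := Cc_sub Cc_one hz.comm

variable (M : Type) [AddCommGroup M] [Module (H0 N c) M]

lemma Kset_zero (n : ℕ) : (0 : M) ∈ Kset c M n := by
  induction n with
  | zero => rfl
  | succ n ih => intro a _; rw [smul_zero]; exact ih

lemma Kset_add (n : ℕ) : ∀ m m' : M, m ∈ Kset c M n → m' ∈ Kset c M n → m + m' ∈ Kset c M n := by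
  induction n with
  | zero =>
    intro m m' h h'
    have h1 : m = 0 := h
    have h2 : m' = 0 := h'
    rw [h1, h2, add_zero]; rfl
  | succ n ih =>
    intro m m' h h' a ha
    rw [smul_add]
    exact ih _ _ (h a ha) (h' a ha)

lemma Kset_smul (hc : IsCls c) (n : ℕ) : ∀ (b : H0 N c) (m : M), m ∈ Kset c M n →
    b • m ∈ Kset c M n := by
  induction n with
  | zero =>
    intro b m h
    have h1 : m = 0 := h
    rw [h1, smul_zero]; rfl
  | succ n ih =>
    intro b m h a ha
    rw [smul_smul, Inv_central hc a ha b, ← smul_smul]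
    exact ih b _ (h a ha)

lemma Kset_mono (n : ℕ) : ∀ m : M, m ∈ Kset c M n → m ∈ Kset c M (n + 1) := by
  induction n with
  | zero =>
    intro m h a _
    have h1 : m = 0 := h
    rw [h1, smul_zero]; rfl
  | succ n ih =>
    intro m h a ha
    exact ih _ (h a ha)

/-- Acting by an element of the ideal of the invariants. -/
lemma Iid_smul_mem (S : AddSubmonoid M) (u : H0 N c) (hu : u ∈ Iid c) (m : M)
    (h : ∀ a ∈ Inv c, ∀ b : H0 N c, b • (a • m) ∈ S) : u • m ∈ S := by
  have key : ∀ b : H0 N c, (b * u) • m ∈ S := by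
    unfold Iid at hu
    induction hu using Submodule.span_induction with
    | mem a ha => intro b; rw [mul_smul]; exact h a ha b
    | zero => intro b; rw [mul_zero, zero_smul]; exact S.zero_mem
    | add x y _ _ hx hy => intro b; rw [mul_add, add_smul]; exact S.add_mem (hx b) (hy b)
    | smul a x _ hx => intro b; rw [smul_eq_mul, ← mul_assoc]; exact hx (b * a)
  simpa using key 1

/-- `Kset n` as a submodule. -/
def KS (hc : IsCls c) (n : ℕ) : Submodule (H0 N c) M where
  carrier := Kset c M n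
  add_mem' h h' := Kset_add M n _ _ h h'
  zero_mem' := Kset_zero M n
  smul_mem' b m h := Kset_smul M hc n b m h

lemma Iid_lower (hc : IsCls c) (u : H0 N c) (hu : u ∈ Iid c) (n : ℕ) (m : M)
    (hm : m ∈ Kset c M (n + 1)) : u • m ∈ Kset c M n :=
  Iid_smul_mem M (KS M hc n).toAddSubmonoid u hu m fun a ha b =>
    (KS M hc n).smul_mem b (hm a ha)

lemma pow_Iid (hc : IsCls c) (w : H0 N c) (hw : w ∈ Iid c) (n : ℕ) : ∀ m ∈ Kset c M n,
    w ^ n • m = 0 := by
  induction n with
  | zero =>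
    intro m hm
    have h1 : m = 0 := hm
    rw [h1, smul_zero]
  | succ n ih =>
    intro m hm
    rw [pow_succ, mul_smul]
    exact ih _ (Iid_lower M hc w hw n m hm)

lemma zz_pow (hc : IsCls c) (z : H0 N c) (hz : IsCI c z) (n : ℕ) (m : M) (hm : m ∈ Kset c M n)
    (L : ℕ) (hL : n ≤ L) : (z ^ L * (1 - z) ^ L) • m = 0 := by
  have hcm : Commute z (1 - z) := g5 z
  have h1 : z * (1 - z) ∈ Iid c := by
    rw [g4]; exact Submodule.neg_mem _ hz.sq
  rw [← hcm.mul_pow]
  obtain ⟨k, rfl⟩ := Nat.exists_eq_add_of_le hL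
  rw [add_comm, pow_add, mul_smul, pow_Iid M hc _ h1 n m hm, smul_zero]

/-- `(1 - z^L)^L = G (1 - z)^L` with `G` commuting with `z`. -/
lemma exists_G (z : H0 N c) (L : ℕ) : ∃ G : H0 N c, Commute z G ∧
    (1 - z ^ L) ^ L = G * (1 - z) ^ L := by
  refine ⟨(∑ i ∈ Finset.range L, z ^ i) ^ L, ?_, ?_⟩
  · refine Commute.pow_right ?_ L
    exact Commute.sum_right _ _ _ fun i _ => (Commute.refl z).pow_right i
  · have hcm : Commute (∑ i ∈ Finset.range L, z ^ i) (1 - z) := by
      refine Commute.sub_right (Commute.one_right _) ?_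
      exact Commute.sum_left _ _ _ fun i _ => (Commute.refl z).pow_left i
    rw [← hcm.mul_pow, hcm.eq, mul_neg_geom_sum]

/-- `1 - (1 - z^L)^L = G z^L`. -/
lemma exists_G' (z : H0 N c) (L : ℕ) : ∃ G : H0 N c, Commute z G ∧
    1 - (1 - z ^ L) ^ L = G * z ^ L := by
  refine ⟨∑ i ∈ Finset.range L, (1 - z ^ L) ^ i, ?_, ?_⟩
  · refine Commute.sum_right _ _ _ fun i _ => Commute.pow_right ?_ i
    exact Commute.sub_right (Commute.one_right _) ((Commute.refl z).pow_right L)
  · have h := mul_neg_geom_sum (1 - z ^ L) L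
    rw [← h]
    rw [g6]
    refine (Commute.sum_right _ _ _ fun i _ => Commute.pow_right ?_ i).eq
    exact Commute.sub_right (Commute.one_right _) (Commute.refl _)

/-- Elements on which `z` is nilpotent. -/
def M0 (z : H0 N c) : AddSubmonoid M where
  carrier := {m | ∃ j : ℕ, z ^ j • m = 0}
  zero_mem' := ⟨0, smul_zero _⟩
  add_mem' := by
    rintro m m' ⟨i, hi⟩ ⟨j, hj⟩
    refine ⟨i + j, ?_⟩
    rw [smul_add]
    have h1 : z ^ (i + j) • m = 0 := by
      rw [add_comm, pow_add, mul_smul, hi, smul_zero]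
    have h2 : z ^ (i + j) • m' = 0 := by
      rw [pow_add, mul_smul, hj, smul_zero]
    rw [h1, h2, add_zero]

lemma M0_of_mul (z G : H0 N c) (hG : Commute z G) (m : M) (h : m ∈ M0 M z) : G • m ∈ M0 M z := by
  obtain ⟨j, hj⟩ := h
  refine ⟨j, ?_⟩
  rw [smul_smul, (hG.pow_left j).eq, ← smul_smul, hj, smul_zero]

/-- The decomposition of an element. -/
lemma decomp (hc : IsCls c) (z : H0 N c) (hz : IsCI c z) (n : ℕ) (m : M) (hm : m ∈ Kset c M n)
    (L : ℕ) (hL : n ≤ L) :
    (1 - z ^ L) ^ L • m ∈ M0 M z ∧ (1 - (1 - z ^ L) ^ L) • m ∈ M0 M (1 - z) := by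
  have hzz := zz_pow M hc z hz n m hm L hL
  have hcm : Commute z (1 - z) := g5 z
  constructor
  · obtain ⟨G, hG, e⟩ := exists_G z L
    refine ⟨L, ?_⟩
    rw [e, smul_smul, ← mul_assoc, (hG.pow_left L).eq, mul_assoc, ← smul_smul, hzz, smul_zero]
  · obtain ⟨G, hG, e⟩ := exists_G' z L
    refine ⟨L, ?_⟩
    have hG' : Commute (1 - z) G := Commute.sub_left (Commute.one_left _) hG
    rw [e, smul_smul, ← mul_assoc, (hG'.pow_left L).eq, mul_assoc,
      ← (hcm.pow_pow L L).eq, ← smul_smul, hzz, smul_zero]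

lemma M0_smul_aux (hc : IsCls c) (z : H0 N c) (hz : IsCI c z) (n : ℕ) : ∀ m ∈ Kset c M n,
    m ∈ M0 M z → ∀ b : H0 N c, b • m ∈ M0 M z := by
  induction n with
  | zero =>
    intro m hm _ b
    have h1 : m = 0 := hm
    rw [h1, smul_zero]
    exact (M0 M z).zero_mem
  | succ n ih =>
    intro m hm h0 b
    obtain ⟨j, hj⟩ := h0
    have hbm : b • m ∈ Kset c M (n + 1) := Kset_smul M hc (n + 1) b m hm
    obtain ⟨h1, _⟩ := decomp M hc z hz (n + 1) (b • m) hbm (max j (n + 1)) (le_max_right _ _)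
    set L := max j (n + 1) with hLdef
    set e := 1 - (1 - z ^ L) ^ L with he
    have hsplit : b • m = (1 - z ^ L) ^ L • (b • m) + e • (b • m) := by
      rw [← add_smul, he, add_sub_cancel, one_smul]
    have hem : e • m = 0 := by
      obtain ⟨G, hG, e'⟩ := exists_G' z L
      rw [he, e', mul_smul]
      have : z ^ L • m = 0 := by
        obtain ⟨k, hk⟩ := Nat.exists_eq_add_of_le (le_max_left j (n + 1))
        rw [hLdef, hk, add_comm, pow_add, mul_smul, hj, smul_zero]
      rw [this, smul_zero]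
    have hCe : Cc e := by
      rw [he]
      exact Cc_sub Cc_one (Cc_pow hc (Cc_sub Cc_one (Cc_pow hc hz.comm L)) L)
    have h2 : e • (b • m) = (e * b - b * e) • m := by
      rw [sub_smul (e * b), mul_smul, mul_smul, hem, smul_zero, sub_zero]
    have h3 : e • (b • m) ∈ M0 M z := by
      rw [h2]
      refine Iid_smul_mem M (M0 M z) _ (hCe b) m fun a ha b' => ?_
      refine ih (a • m) (hm a ha) ⟨j, ?_⟩ b'
      rw [smul_smul, ← Inv_central hc a ha, ← smul_smul, hj, smul_zero]
    rw [hsplit]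
    exact (M0 M z).add_mem h1 h3

/-- `M_0` as a submodule. -/
def M0S (hc : IsCls c) (z : H0 N c) (hz : IsCI c z) (hM : LN c M) : Submodule (H0 N c) M where
  carrier := M0 M z
  add_mem' h h' := (M0 M z).add_mem h h'
  zero_mem' := (M0 M z).zero_mem
  smul_mem' b m h := by
    obtain ⟨n, hn⟩ := hM m
    exact M0_smul_aux M hc z hz n m hn h b

lemma mem_M0S (hc : IsCls c) (z : H0 N c) (hz : IsCI c z) (hM : LN c M) (m : M) :
    m ∈ M0S M hc z hz hM ↔ ∃ j : ℕ, z ^ j • m = 0 := Iff.rfl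

lemma leftY0_smul (u : H0 N c) (hu : u ∈ leftY0 c) (m : M) (hm : ∀ i, rY c i • m = 0) :
    u • m = 0 := by
  unfold leftY0 at hu
  induction hu using Submodule.span_induction with
  | mem a ha => obtain ⟨i, rfl⟩ := ha; exact hm i
  | zero => exact zero_smul _ _
  | add x y _ _ hx hy => rw [add_smul, hx, hy, add_zero]
  | smul a x _ hx => rw [smul_eq_mul, mul_smul, hx, smul_zero]

end

end Pool.Agent.CMFn.SplitX

namespace Pool.Agent.CMFn

open Matrix SplitX

noncomputable section

variable {r : ℕ} {N : SG r} [Fintype N] {c : N → ℂ}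
variable (M : Type) [AddCommGroup M] [Module (H0 N c) M]

/-- Both `z` and `1 - z` nilpotent on `m`: `m = 0`. -/
theorem eq_zero_of_both (z : H0 N c) (m : M) (j j' : ℕ) (h : z ^ j • m = 0)
    (h' : (1 - z) ^ j' • m = 0) : m = 0 := by
  have hco : IsCoprime ((Polynomial.X : Polynomial ℤ) ^ j) ((1 - Polynomial.X) ^ j') := by
    refine IsCoprime.pow ⟨1, 1, ?_⟩
    ring
  obtain ⟨a, b, hab⟩ := hco
  have h2 := congrArg (Polynomial.aeval z) hab
  simp only [map_add, map_mul, map_pow, map_sub, map_one, Polynomial.aeval_X] at h2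
  have h3 : m = (Polynomial.aeval z a * z ^ j + Polynomial.aeval z b * (1 - z) ^ j') • m := by
    rw [h2, one_smul]
  rw [h3, add_smul, mul_smul, mul_smul, h, h', smul_zero, smul_zero, add_zero]

/-- Projection on `M_0 = {z^j m = 0}` along `M_1 = {(1-z)^j m = 0}`; it is linear. -/
theorem exists_split (hc : IsCls c) (z : H0 N c) (hz : IsCI c z) (hM : LN c M) :
    ∃ P : M →ₗ[H0 N c] M, (∀ m, P (P m) = P m) ∧ (∀ m, P m = m ↔ ∃ j : ℕ, z ^ j • m = 0) ∧
      ∀ m, P m = 0 ↔ ∃ j : ℕ, (1 - z) ^ j • m = 0 := by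
  set A := M0S M hc z hz hM with hA
  set B := M0S M hc (1 - z) (isCI_one_sub hz) hM with hB
  have hdisj : Disjoint A B := by
    rw [Submodule.disjoint_def]
    rintro m ⟨j, hj⟩ ⟨j', hj'⟩
    exact eq_zero_of_both M z m j j' hj hj'
  have hcod : Codisjoint A B := by
    rw [codisjoint_iff, eq_top_iff]
    intro m _
    obtain ⟨n, hn⟩ := hM m
    obtain ⟨h1, h2⟩ := decomp M hc z hz n m hn n le_rfl
    have e : m = (1 - z ^ n) ^ n • m + (1 - (1 - z ^ n) ^ n) • m := by
      rw [← add_smul, add_sub_cancel, one_smul]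
    rw [e]
    exact Submodule.add_mem_sup h1 h2
  have hcompl : IsCompl A B := ⟨hdisj, hcod⟩
  have hPA : ∀ m, ∃ a ∈ A, ∃ b ∈ B, a + b = m := by
    intro m
    have : m ∈ A ⊔ B := by rw [codisjoint_iff.1 hcod]; exact Submodule.mem_top
    exact Submodule.mem_sup.1 this
  choose f hf g hg hfg using hPA
  have huniq : ∀ a ∈ A, ∀ b ∈ B, f (a + b) = a := by
    intro a ha b hb
    have h1 : f (a + b) - a = b - g (a + b) := by
      have := hfg (a + b)
      rw [sub_eq_sub_iff_add_eq_add, this, add_comm]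
    have h2 : f (a + b) - a ∈ A := A.sub_mem (hf _) ha
    have h3 : f (a + b) - a ∈ B := by rw [h1]; exact B.sub_mem hb (hg _)
    exact sub_eq_zero.1 (Submodule.disjoint_def.1 hdisj _ h2 h3)
  refine ⟨{ toFun := f, map_add' := ?_, map_smul' := ?_ }, ?_, ?_, ?_⟩
  · intro m m'
    have e : m + m' = (f m + f m') + (g m + g m') := by
      conv_lhs => rw [← hfg m, ← hfg m']
      abel
    rw [e]
    exact huniq _ (A.add_mem (hf m) (hf m')) _ (B.add_mem (hg m) (hg m'))
  · intro b m
    have e : b • m = b • f m + b • g m := by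
      rw [← smul_add, hfg]
    rw [e]
    exact huniq _ (A.smul_mem b (hf m)) _ (B.smul_mem b (hg m))
  · intro m
    show f (f m) = f m
    have := huniq (f m) (hf m) 0 B.zero_mem
    rwa [add_zero] at this
  · intro m
    show f m = m ↔ _
    constructor
    · intro h
      rw [← h]
      exact hf m
    · intro h
      have := huniq m h 0 B.zero_mem
      rwa [add_zero] at this
  · intro m
    show f m = 0 ↔ _
    constructor
    · intro h
      have h1 := hfg m
      rw [h, zero_add] at h1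
      rw [← h1]
      exact hg m
    · intro h
      have := huniq 0 A.zero_mem m h
      rwa [zero_add] at this

lemma vac_aux (hc : IsCls c) {d : ℕ} (ρ : N →* Matrix (Fin d) (Fin d) ℂ) (z : H0 N c)
    (hz : IsCI c z) (hM : LN c M)
    (hw : ∀ u : M, (∀ i, rY c i • u = 0) → pR c ρ • u = u → ∃ α ∈ Iid c, z • u = α • u)
    (n : ℕ) : ∀ u ∈ Kset c M n, (∀ i, rY c i • u = 0) → pR c ρ • u = u →
      ∃ j : ℕ, z ^ j • u = 0 := by
  induction n with
  | zero =>
    intro u hu _ _
    have h1 : u = 0 := hu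
    exact ⟨0, by rw [h1, smul_zero]⟩
  | succ n ih =>
    intro u hu hy hp
    obtain ⟨α, hα, e⟩ := hw u hy hp
    have h1 : α • u ∈ M0S M hc z hz hM := by
      refine Iid_smul_mem M (M0S M hc z hz hM).toAddSubmonoid α hα u fun a ha b => ?_
      refine (M0S M hc z hz hM).smul_mem b ?_
      refine ih (a • u) (hu a ha) (fun i => ?_) ?_
      · rw [smul_smul, ← Inv_central hc a ha, ← smul_smul, hy i, smul_zero]
      · rw [smul_smul, ← Inv_central hc a ha, ← smul_smul, hp]
    rw [← e] at h1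
    obtain ⟨j, hj⟩ := h1
    exact ⟨j + 1, by rw [pow_succ, mul_smul, hj]⟩

theorem vac_one (hc : IsCls c) {d : ℕ} (ρ : N →* Matrix (Fin d) (Fin d) ℂ) (z : H0 N c)
    (hz : IsCI c z) (h1 : z * pR c ρ - pR c ρ ∈ Iid c ⊔ leftY0 c) (hM : LN c M) (u : M)
    (hu : ∀ i, rY c i • u = 0) (hp : pR c ρ • u = u) : ∃ j : ℕ, (1 - z) ^ j • u = 0 := by
  obtain ⟨n, hn⟩ := hM u
  refine vac_aux M hc ρ (1 - z) (isCI_one_sub hz) hM ?_ n u hn hu hp
  intro u hu hp
  obtain ⟨α, hα, β, hβ, e⟩ := Submodule.mem_sup.1 h1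
  refine ⟨-α, Submodule.neg_mem _ hα, ?_⟩
  have h2 : (z * pR c ρ - pR c ρ) • u = α • u := by
    rw [← e, add_smul, leftY0_smul M β hβ u hu, add_zero]
  have h3 : (z * pR c ρ - pR c ρ) • u = z • u - u := by
    rw [sub_smul, mul_smul, hp]
  rw [sub_smul, one_smul, neg_smul, ← h2, h3]
  abel

theorem nil_of_gen (hc : IsCls c) {d : ℕ} (σ : N →* Matrix (Fin d) (Fin d) ℂ) (z : H0 N c)
    (hz : IsCI c z) (h0 : z * pR c σ ∈ Iid c ⊔ leftY0 c) (hM : LN c M) (S : Set M)
    (hS : ∀ u ∈ S, (∀ i, rY c i • u = 0) ∧ pR c σ • u = u)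
    (hgen : Submodule.span (H0 N c) S = ⊤) : Nil0 c M z := by
  have h1 : S ⊆ (M0S M hc z hz hM : Set M) := by
    intro u hu
    obtain ⟨hy, hp⟩ := hS u hu
    obtain ⟨n, hn⟩ := hM u
    refine vac_aux M hc σ z hz hM ?_ n u hn hy hp
    intro u hu hp
    obtain ⟨α, hα, β, hβ, e⟩ := Submodule.mem_sup.1 h0
    refine ⟨α, hα, ?_⟩
    have h2 : (z * pR c σ) • u = α • u := by
      rw [← e, add_smul, leftY0_smul M β hβ u hu, add_zero]
    rw [← h2, mul_smul, hp]
  have h2 := Submodule.span_le.2 h1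
  rw [hgen] at h2
  intro m
  exact h2 Submodule.mem_top

end

end Pool.Agent.CMFn
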