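import Pool.Agent.CMFn.Kos
import Pool.Agent.CMFn.Split
import Pool.Agent.CMFn.Co

/-! Project CMFn (MP_4af2a6_al), module Acyc: the Koszul complex of a locally nilpotent module is
acyclic in the `ρ`-isotypic part (dimension shifting along coinduced modules). -/

namespace Pool.Agent.CMFn

open Matrix

noncomputable section

variable {r : ℕ} {N : SG r} [Fintype N]

namespace AcycX

variable {c : N → ℂ}

section basic

variable (M : Type) [AddCommGroup M] [Module ℂ M] [Module (H0 N c) M] [IsScalarTower ℂ (H0 N c) M]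

lemma mT_apply (g : N) (m : M) : mT c M g m = rT c g • m := rfl

lemma mY_apply (v : Fin r → ℂ) (m : M) : mY c M v m = ∑ i, v i • (rY c i • m) := by
  unfold mY
  rw [LinearMap.sum_apply, LinearMap.sum_apply]
  rfl

lemma rT_one : rT c (1 : N) = 1 := by
  have h := RingQuot.mkAlgHom_rel ℂ (HRel.one (N := N) (c := c))
  rw [map_one] at h
  exact h

lemma rT_mul (g h : N) : rT c (g * h) = rT c g * rT c h := by
  have h := RingQuot.mkAlgHom_rel ℂ (HRel.mul (N := N) (c := c) g h)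
  rw [map_mul] at h
  exact h

lemma rY_comm (i j : Fin r) : rY c i * rY c j = rY c j * rY c i := by
  have h := RingQuot.mkAlgHom_rel ℂ (HRel.YY (N := N) (c := c) i j)
  rw [map_mul, map_mul] at h
  exact h

lemma rT_rY (g : N) (i : Fin r) : rT c g * rY c i = (∑ j, g.1.1 j i • rY c j) * rT c g := by
  have h := RingQuot.mkAlgHom_rel ℂ (HRel.TY (N := N) (c := c) g i)
  rw [map_mul, map_mul, map_sum] at h
  refine h.trans ?_
  congr 1
  refine Finset.sum_congr rfl fun j _ => ?_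
  rw [map_mul, AlgHom.commutes, ← Algebra.smul_def]
  rfl

lemma mT_one : mT c M (1 : N) = 1 := by
  apply LinearMap.ext
  intro m
  rw [mT_apply, rT_one, one_smul]
  rfl

lemma mT_mul (g h : N) : mT c M (g * h) = mT c M g * mT c M h := by
  apply LinearMap.ext
  intro m
  rw [mT_apply, rT_mul, mul_smul]
  rfl

lemma mY_comm (v w : Fin r → ℂ) : mY c M v * mY c M w = mY c M w * mY c M v := by
  apply LinearMap.ext
  intro m
  rw [Module.End.mul_apply, Module.End.mul_apply, mY_apply, mY_apply, mY_apply, mY_apply]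
  have h : ∀ a b : Fin r → ℂ, (∑ i, a i • (rY c i • ∑ j, b j • (rY c j • m))) =
      ∑ i, ∑ j, (a i * b j) • ((rY c i * rY c j) • m) := by
    intro a b
    refine Finset.sum_congr rfl fun i _ => ?_
    rw [Finset.smul_sum, Finset.smul_sum]
    refine Finset.sum_congr rfl fun j _ => ?_
    rw [smul_comm (rY c i) (b j), smul_smul, smul_smul]
  rw [h, h, Finset.sum_comm]
  refine Finset.sum_congr rfl fun i _ => Finset.sum_congr rfl fun j _ => ?_
  rw [mul_comm (v j) (w i), rY_comm]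

lemma mT_mY (g : N) (v : Fin r → ℂ) : mT c M g * mY c M v = mY c M (g.1.1 *ᵥ v) * mT c M g := by
  apply LinearMap.ext
  intro m
  rw [Module.End.mul_apply, Module.End.mul_apply, mY_apply, mY_apply, mT_apply, mT_apply,
    Finset.smul_sum]
  have h : ∀ i, rT c g • v i • (rY c i • m) =
      ∑ j, (g.1.1 j i * v i) • (rY c j • (rT c g • m)) := by
    intro i
    rw [smul_comm (rT c g) (v i), smul_smul, rT_rY, mul_smul, Finset.sum_smul, Finset.smul_sum]
    refine Finset.sum_congr rfl fun j _ => ?_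
    rw [smul_assoc, smul_smul, mul_comm]
  rw [Finset.sum_congr rfl fun i _ => h i, Finset.sum_comm]
  refine Finset.sum_congr rfl fun j _ => ?_
  rw [← Finset.sum_smul]
  rfl

lemma sum_alt_apply {i : ℕ} {α : Type} (t : Finset α) (f : α → KV r i M)
    (v : Fin i → Fin r → ℂ) : (∑ a ∈ t, f a) v = ∑ a ∈ t, f a v := by
  classical
  induction t using Finset.induction_on with
  | empty => rw [Finset.sum_empty, Finset.sum_empty]; rfl
  | insert a t ha ih => rw [Finset.sum_insert ha, Finset.sum_insert ha, ← ih]; rfl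

/-- Value of the projector on `0`-forms. -/
lemma pK_zero_apply {d : ℕ} (ρ : N →* Matrix (Fin d) (Fin d) ℂ) (ω : KV r 0 M)
    (v : Fin 0 → Fin r → ℂ) : pK (mT c M) ρ 0 ω v = pR c ρ • ω v := by
  unfold pK pR
  rw [LinearMap.sum_apply, sum_alt_apply, Finset.sum_smul]
  refine Finset.sum_congr rfl fun g _ => ?_
  rw [LinearMap.smul_apply, AlternatingMap.smul_apply, smul_assoc]
  congr 1
  have e : (fun i => Matrix.toLin' (g⁻¹).1.1 (v i)) = v := Subsingleton.elim _ _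
  show rT c g • ω (fun i => Matrix.toLin' (g⁻¹).1.1 (v i)) = rT c g • ω v
  rw [e]

lemma kd_zero_apply (A : (Fin r → ℂ) →ₗ[ℂ] Module.End ℂ M) (ω : KV r 0 M)
    (u : Fin r → ℂ) (v : Fin 0 → Fin r → ℂ) : kd A 0 ω (fun _ => u) = A u (ω v) := by
  show AlternatingMap.alternatizeUncurryFin (kdAux A ω) (fun _ => u) = _
  rw [AlternatingMap.alternatizeUncurryFin_apply, Fin.sum_univ_one, Fin.val_zero, pow_zero,
    one_smul]
  have e : (Fin.removeNth (0 : Fin 1) (fun _ : Fin 1 => u) : Fin 0 → Fin r → ℂ) = v :=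
    Subsingleton.elim _ _
  rw [e]
  rfl

lemma kd_pK {d : ℕ} (ρ : N →* Matrix (Fin d) (Fin d) ℂ) (i : ℕ) (η : KV r i M) :
    kd (mY c M) i (pK (mT c M) ρ i η) = pK (mT c M) ρ (i + 1) (kd (mY c M) i η) := by
  unfold pK
  rw [LinearMap.sum_apply, LinearMap.sum_apply, map_sum]
  refine Finset.sum_congr rfl fun g _ => ?_
  rw [LinearMap.smul_apply, LinearMap.smul_apply, map_smul, kd_gK (mT c M) (mY c M) (mT_mY M)]

end basic

section maps

variable {M M' : Type} [AddCommGroup M] [Module ℂ M] [Module (H0 N c) M] [IsScalarTower ℂ (H0 N c) M]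
  [AddCommGroup M'] [Module ℂ M'] [Module (H0 N c) M'] [IsScalarTower ℂ (H0 N c) M']

omit [Module ℂ M] [IsScalarTower ℂ (H0 N c) M] [Module ℂ M'] [IsScalarTower ℂ (H0 N c) M'] in
lemma Kset_map (f : M →ₗ[H0 N c] M') : ∀ (n : ℕ) (m : M), m ∈ Kset c M n → f m ∈ Kset c M' n := by
  intro n
  induction n with
  | zero =>
    intro m hm
    have hm' : m = 0 := hm
    show f m = 0
    rw [hm', map_zero]
  | succ n ih =>
    intro m hm a ha
    rw [← map_smul]
    exact ih _ (hm a ha)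

omit [Module ℂ M] [IsScalarTower ℂ (H0 N c) M] [Module ℂ M'] [IsScalarTower ℂ (H0 N c) M'] in
lemma Kset_inj (f : M →ₗ[H0 N c] M') (hf : Function.Injective f) :
    ∀ (n : ℕ) (m : M), f m ∈ Kset c M' n → m ∈ Kset c M n := by
  intro n
  induction n with
  | zero =>
    intro m hm
    have hm' : f m = 0 := hm
    show m = 0
    exact hf (by rw [hm', map_zero])
  | succ n ih =>
    intro m hm a ha
    refine ih _ ?_
    rw [map_smul]
    exact hm a ha

lemma kd_map (f : M →ₗ[H0 N c] M') (i : ℕ) (ω : KV r i M) :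
    kmap (f.restrictScalars ℂ) (i + 1) (kd (mY c M) i ω) =
      kd (mY c M') i (kmap (f.restrictScalars ℂ) i ω) := by
  refine kd_kmap _ _ _ ?_ i ω
  intro v m
  rw [mY_apply, mY_apply, map_sum]
  refine Finset.sum_congr rfl fun j _ => ?_
  rw [map_smul]
  congr 1
  exact map_smul f _ _

lemma pK_map {d : ℕ} (ρ : N →* Matrix (Fin d) (Fin d) ℂ) (f : M →ₗ[H0 N c] M') (i : ℕ)
    (ω : KV r i M) :
    kmap (f.restrictScalars ℂ) i (pK (mT c M) ρ i ω) =
      pK (mT c M') ρ i (kmap (f.restrictScalars ℂ) i ω) := by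
  unfold pK
  rw [LinearMap.sum_apply, LinearMap.sum_apply, map_sum]
  refine Finset.sum_congr rfl fun g _ => ?_
  rw [LinearMap.smul_apply, LinearMap.smul_apply, map_smul]
  congr 1
  ext v
  exact map_smul f _ _

end maps

section lin

variable {M M' : Type} [AddCommGroup M] [Module ℂ M] [AddCommGroup M'] [Module ℂ M']

lemma kmap_apply (f : M →ₗ[ℂ] M') (i : ℕ) (ω : KV r i M) (v : Fin i → Fin r → ℂ) :
    kmap f i ω v = f (ω v) := rfl

lemma exists_kmap_surj (f : M →ₗ[ℂ] M') (hf : Function.Surjective f) (i : ℕ) (ω : KV r i M') :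
    ∃ η : KV r i M, kmap f i η = ω := by
  obtain ⟨s, hs⟩ := f.exists_rightInverse_of_surjective (LinearMap.range_eq_top.2 hf)
  refine ⟨kmap s i ω, ?_⟩
  ext v
  rw [kmap_apply, kmap_apply]
  exact LinearMap.congr_fun hs _

lemma exists_kmap_inj (f : M →ₗ[ℂ] M') (hf : Function.Injective f) (i : ℕ) (ω : KV r i M')
    (h : ∀ v, ∃ m, f m = ω v) : ∃ η : KV r i M, kmap f i η = ω := by
  obtain ⟨s, hs⟩ := f.exists_leftInverse_of_injective (LinearMap.ker_eq_bot.2 hf)
  refine ⟨kmap s i ω, ?_⟩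
  ext v
  rw [kmap_apply, kmap_apply]
  obtain ⟨m, hm⟩ := h v
  rw [← hm]
  congr 1
  exact LinearMap.congr_fun hs _

lemma kmap_injective (f : M →ₗ[ℂ] M') (hf : Function.Injective f) (i : ℕ) (ω η : KV r i M)
    (h : kmap f i ω = kmap f i η) : ω = η := by
  ext v
  apply hf
  have := congrArg (fun z : KV r i M' => z v) h
  exact this

end lin

/-- Embedding into a module which is acyclic in positive degrees, keeping `z` locally
nilpotent. -/
lemma embed (hc : IsCls c) (z : H0 N c) (hz : IsCI c z)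
    (M : Type) [AddCommGroup M] [Module ℂ M] [Module (H0 N c) M] [IsScalarTower ℂ (H0 N c) M]
    (hM : LN c M) (hN : Nil0 c M z) :
    ∃ (M' : Type) (_ : AddCommGroup M') (_ : Module ℂ M') (_ : Module (H0 N c) M')
      (_ : IsScalarTower ℂ (H0 N c) M') (ι : M →ₗ[H0 N c] M'), Function.Injective ι ∧ LN c M' ∧
      Nil0 c M' z ∧ ∀ (i : ℕ) (ω : KV r (i + 1) M'), kd (mY c M') (i + 1) ω = 0 →
        ∃ η : KV r i M', kd (mY c M') i η = ω := by
  obtain ⟨M₁, i1, i2, i3, i4, ι, hι, hL, hA⟩ := exists_co hc M hM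
  obtain ⟨P, hPP, hP0, -⟩ := exists_split M₁ hc z hz hL
  have hmem : ∀ m, ι m ∈ LinearMap.range P := by
    intro m
    obtain ⟨j, hj⟩ := hN m
    refine ⟨ι m, (hP0 _).2 ⟨j, ?_⟩⟩
    rw [← map_smul, hj, map_zero]
  have hfix : ∀ x : LinearMap.range P, P x.1 = x.1 := by
    rintro ⟨x, y, rfl⟩
    exact hPP y
  refine ⟨LinearMap.range P, inferInstance, inferInstance, inferInstance, inferInstance,
    LinearMap.codRestrict _ ι hmem, ?_, ?_, ?_, ?_⟩
  · intro a b hab
    exact hι (congrArg Subtype.val hab)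
  · intro x
    obtain ⟨n, hn⟩ := hL x.1
    exact ⟨n, Kset_inj (LinearMap.range P).subtype Subtype.val_injective n x hn⟩
  · intro x
    obtain ⟨j, hj⟩ := (hP0 x.1).1 (hfix x)
    exact ⟨j, Subtype.ext hj⟩
  · intro i ω hω
    obtain ⟨η, hη⟩ := hA i (kmap ((LinearMap.range P).subtype.restrictScalars ℂ) (i + 1) ω) (by
      rw [← kd_map, hω, map_zero])
    refine ⟨kmap (P.rangeRestrict.restrictScalars ℂ) i η, ?_⟩
    rw [← kd_map, hη]
    ext v
    exact hfix (ω v)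

/-- One step of the dimension shift. -/
lemma step (hc : IsCls c) {d : ℕ} (hd0 : 0 < d)
    (ρ : N →* Matrix (Fin d) (Fin d) ℂ) (hρ : Submodule.span ℂ (Set.range ρ) = ⊤)
    (z : H0 N c) (hz : IsCI c z) (i : ℕ)
    (M : Type) [AddCommGroup M] [Module ℂ M] [Module (H0 N c) M] [IsScalarTower ℂ (H0 N c) M]
    (hM : LN c M) (hN : Nil0 c M z) (ω : KV r (i + 1) M) (hp : pK (mT c M) ρ (i + 1) ω = ω)
    (hd : kd (mY c M) (i + 1) ω = 0) :
    ∃ (M' : Type) (_ : AddCommGroup M') (_ : Module ℂ M') (_ : Module (H0 N c) M')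
      (_ : IsScalarTower ℂ (H0 N c) M') (Q : Type) (_ : AddCommGroup Q) (_ : Module ℂ Q)
      (_ : Module (H0 N c) Q) (_ : IsScalarTower ℂ (H0 N c) Q)
      (ι : M →ₗ[H0 N c] M') (π : M' →ₗ[H0 N c] Q) (η : KV r i M'),
      Function.Injective ι ∧ Function.Surjective π ∧ (∀ m, π m = 0 → ∃ x, ι x = m) ∧
      kd (mY c M') i η = kmap (ι.restrictScalars ℂ) (i + 1) ω ∧
      LN c Q ∧ Nil0 c Q z ∧
      pK (mT c Q) ρ i (kmap (π.restrictScalars ℂ) i η) = kmap (π.restrictScalars ℂ) i η ∧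
      kd (mY c Q) i (kmap (π.restrictScalars ℂ) i η) = 0 := by
  obtain ⟨M', i1, i2, i3, i4, ι, hι, hL, hZ, hA⟩ := embed hc z hz M hM hN
  obtain ⟨η₀, hη₀⟩ := hA i (kmap (ι.restrictScalars ℂ) (i + 1) ω) (by
    rw [← kd_map, hd, map_zero])
  have hpp := pK_pK (mT c M') (mT_mul M') (mT_one M') hd0 ρ hρ i η₀
  have hkd : kd (mY c M') i (pK (mT c M') ρ i η₀) = kmap (ι.restrictScalars ℂ) (i + 1) ω := by
    rw [kd_pK, hη₀, ← pK_map, hp]
  refine ⟨M', i1, i2, i3, i4, M' ⧸ LinearMap.range ι, inferInstance, inferInstance, inferInstance,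
    inferInstance, ι, (LinearMap.range ι).mkQ, pK (mT c M') ρ i η₀, hι,
    Submodule.mkQ_surjective _, ?_, hkd, ?_, ?_, ?_, ?_⟩
  · intro m hm
    rw [Submodule.mkQ_apply, Submodule.Quotient.mk_eq_zero] at hm
    obtain ⟨x, hx⟩ := hm
    exact ⟨x, hx⟩
  · intro q
    obtain ⟨m, rfl⟩ := Submodule.mkQ_surjective _ q
    obtain ⟨n, hn⟩ := hL m
    exact ⟨n, Kset_map _ n m hn⟩
  · intro q
    obtain ⟨m, rfl⟩ := Submodule.mkQ_surjective _ q
    obtain ⟨j, hj⟩ := hZ m
    refine ⟨j, ?_⟩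
    rw [← map_smul, hj, map_zero]
  · rw [← pK_map, hpp]
  · rw [← kd_map, hkd]
    ext v
    show (LinearMap.range ι).mkQ (ι (ω v)) = 0
    rw [Submodule.mkQ_apply, Submodule.Quotient.mk_eq_zero]
    exact ⟨ω v, rfl⟩

lemma finish {M M' Q : Type} [AddCommGroup M] [Module ℂ M] [Module (H0 N c) M]
    [IsScalarTower ℂ (H0 N c) M] [AddCommGroup M'] [Module ℂ M'] [Module (H0 N c) M']
    [IsScalarTower ℂ (H0 N c) M'] [AddCommGroup Q] [Module ℂ Q] [Module (H0 N c) Q]
    [IsScalarTower ℂ (H0 N c) Q] (ι : M →ₗ[H0 N c] M') (hι : Function.Injective ι)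
    (π : M' →ₗ[H0 N c] Q) (hπ : ∀ m, π m = 0 → ∃ x, ι x = m) (i : ℕ)
    (ω : KV r (i + 1) M) (η : KV r i M')
    (hη : kd (mY c M') i η = kmap (ι.restrictScalars ℂ) (i + 1) ω)
    (h : kmap (π.restrictScalars ℂ) i η = 0) :
    ∃ ξ : KV r i M, kd (mY c M) i ξ = ω := by
  obtain ⟨ξ, hξ⟩ := exists_kmap_inj (ι.restrictScalars ℂ) hι i η (by
    intro v
    have h1 : π (η v) = 0 := congrArg (fun z : KV r i _ => z v) h
    exact hπ _ h1)
  refine ⟨ξ, kmap_injective (ι.restrictScalars ℂ) hι (i + 1) _ _ ?_⟩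
  rw [kd_map, hξ, hη]

end AcycX

open AcycX

theorem acyc_zero {c : N → ℂ} (hc : IsCls c) {d : ℕ} (ρ : N →* Matrix (Fin d) (Fin d) ℂ)
    (z : H0 N c) (hz : IsCI c z) (h1 : z * pR c ρ - pR c ρ ∈ Iid c ⊔ leftY0 c)
    (M : Type) [AddCommGroup M] [Module ℂ M] [Module (H0 N c) M] [IsScalarTower ℂ (H0 N c) M]
    (hM : LN c M) (hN : Nil0 c M z) (ω : KV r 0 M) (hp : pK (mT c M) ρ 0 ω = ω)
    (hd : kd (mY c M) 0 ω = 0) : ω = 0 := by
  ext v
  have hu : ∀ i, rY c i • ω v = 0 := by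
    intro i
    have h := kd_zero_apply M (mY c M) ω (Pi.single i 1) v
    rw [hd, AlternatingMap.zero_apply, mY_apply] at h
    rw [Finset.sum_eq_single i] at h
    · rw [Pi.single_eq_same, one_smul] at h
      exact h.symm
    · intro j _ hj
      rw [Pi.single_eq_of_ne hj, zero_smul]
    · intro h2
      exact absurd (Finset.mem_univ _) h2
  have hpr : pR c ρ • ω v = ω v := by
    rw [← pK_zero_apply, hp]
  obtain ⟨j, hj⟩ := vac_one M hc ρ z hz h1 hM (ω v) hu hpr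
  obtain ⟨j', hj'⟩ := hN (ω v)
  exact eq_zero_of_both M z (ω v) j' j hj' hj

theorem acyc_succ {c : N → ℂ} (hc : IsCls c) {d : ℕ} (hd : 0 < d)
    (ρ : N →* Matrix (Fin d) (Fin d) ℂ) (hρ : Submodule.span ℂ (Set.range ρ) = ⊤)
    (z : H0 N c) (hz : IsCI c z) (h1 : z * pR c ρ - pR c ρ ∈ Iid c ⊔ leftY0 c) (i : ℕ)
    (M : Type) [AddCommGroup M] [Module ℂ M] [Module (H0 N c) M] [IsScalarTower ℂ (H0 N c) M]
    (hM : LN c M) (hN : Nil0 c M z) (ω : KV r (i + 1) M) (hp : pK (mT c M) ρ (i + 1) ω = ω)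
    (hd : kd (mY c M) (i + 1) ω = 0) : ∃ η : KV r i M, kd (mY c M) i η = ω := by
  have hd0 : 0 < d := by assumption
  revert M
  induction i with
  | zero =>
    intro M _ _ _ _ hM hN ω hp hd
    obtain ⟨M', i1, i2, i3, i4, Q, j1, j2, j3, j4, ι, π, η, hι, hπs, hπ, hη, hQL, hQN, hπp, hπd⟩ :=
      AcycX.step hc hd0 ρ hρ z hz 0 M hM hN ω hp hd
    exact AcycX.finish ι hι π hπ 0 ω η hη (acyc_zero hc ρ z hz h1 Q hQL hQN _ hπp hπd)
  | succ i ih =>
    intro M _ _ _ _ hM hN ω hp hd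
    obtain ⟨M', i1, i2, i3, i4, Q, j1, j2, j3, j4, ι, π, η, hι, hπs, hπ, hη, hQL, hQN, hπp, hπd⟩ :=
      AcycX.step hc hd0 ρ hρ z hz (i + 1) M hM hN ω hp hd
    obtain ⟨ξ, hξ⟩ := ih Q hQL hQN _ hπp hπd
    obtain ⟨ξ', hξ'⟩ := AcycX.exists_kmap_surj (π.restrictScalars ℂ) hπs i ξ
    refine AcycX.finish ι hι π hπ (i + 1) ω (η - kd (mY c M') i ξ') ?_ ?_
    · rw [map_sub, hη, kd_kd (mY c M') (AcycX.mY_comm M'), sub_zero]
    · rw [map_sub, AcycX.kd_map, hξ', hξ, sub_self]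

end

end Pool.Agent.CMFn
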