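import Pool.Agent.CMFn.NDefs

/-!
CMFn, module CenA: invariants without constant term are central in `H_{0,c}`.
-/

namespace Pool.Agent.CMFn

open Matrix

noncomputable section

namespace CenAX

section Gen

variable {r : ℕ} {A : Type} [Ring A] [Algebra ℂ A]

/-- polynomials at commuting elements -/
lemma exists_evHom (a : Fin r → A) (h : ∀ i j, a i * a j = a j * a i) :
    ∃ φ : MvPolynomial (Fin r) ℂ →ₐ[ℂ] A, (∀ i, φ (MvPolynomial.X i) = a i) ∧
      ∀ p, evP a p = φ p := by
  have hc : ∀ x ∈ Set.range a, ∀ y ∈ Set.range a, x * y = y * x := by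
    rintro _ ⟨i, rfl⟩ _ ⟨j, rfl⟩
    exact h i j
  have hm := Algebra.isMulCommutative_adjoin ℂ hc
  let cr : CommRing (Algebra.adjoin ℂ (Set.range a)) :=
    { (inferInstance : Ring (Algebra.adjoin ℂ (Set.range a))) with
      mul_comm := hm.is_comm.comm }
  let ψ : MvPolynomial (Fin r) ℂ →ₐ[ℂ] Algebra.adjoin ℂ (Set.range a) :=
    MvPolynomial.aeval (fun i => ⟨a i, Algebra.subset_adjoin ⟨i, rfl⟩⟩)
  let φ : MvPolynomial (Fin r) ℂ →ₐ[ℂ] A := (Algebra.adjoin ℂ (Set.range a)).val.comp ψ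
  have h1 : ∀ i, φ (MvPolynomial.X i) = a i := by
    intro i; simp [φ, ψ]
  refine ⟨φ, h1, fun p => ?_⟩
  conv_rhs => rw [MvPolynomial.as_sum p, map_sum]
  unfold evP
  refine Finset.sum_congr rfl fun m _ => ?_
  rw [MvPolynomial.monomial_eq, Finsupp.prod_fintype _ _ (fun i => pow_zero _), map_mul]
  have h2 : (MvPolynomial.C (MvPolynomial.coeff m p) : MvPolynomial (Fin r) ℂ) =
    algebraMap ℂ _ (MvPolynomial.coeff m p) := rfl
  rw [h2, AlgHom.commutes, ← List.prod_ofFn, map_list_prod, List.map_ofFn]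
  congr 3
  funext i
  simp [h1]

omit r in
lemma neg_smul_eq (a b : ℂ) (x : A) (h : b = -a) : -(a • x) = b • x := by
  rw [h, neg_smul]

/-- the commutator of `y` with a polynomial in the `a_i` -/
lemma commutator_formula {S : Type} [Fintype S] (φ : MvPolynomial (Fin r) ℂ →ₐ[ℂ] A)
    (y : A) (T : S → A) (sub : S → MvPolynomial (Fin r) ℂ →ₐ[ℂ] MvPolynomial (Fin r) ℂ)
    (hT : ∀ s q, T s * φ q = φ (sub s q) * T s)
    (l : S → MvPolynomial (Fin r) ℂ) (γ : S → ℂ) (D : S → Fin r → ℂ)
    (hD : ∀ s, γ s ≠ 0 → ∀ j, l s * MvPolynomial.C (D s j) =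
      MvPolynomial.X j - sub s (MvPolynomial.X j))
    (hy : ∀ j, y * φ (MvPolynomial.X j) - φ (MvPolynomial.X j) * y =
      ∑ s, (γ s * D s j) • T s) (p : MvPolynomial (Fin r) ℂ) :
    ∃ E : S → MvPolynomial (Fin r) ℂ, (∀ s, γ s ≠ 0 → l s * E s = p - sub s p) ∧
      y * φ p - φ p * y = ∑ s, γ s • (φ (E s) * T s) := by
  induction p using MvPolynomial.induction_on with
  | C c =>
    refine ⟨fun _ => 0, ?_, ?_⟩
    · intro s _
      have h2 : (MvPolynomial.C c : MvPolynomial (Fin r) ℂ) = algebraMap ℂ _ c := rfl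
      rw [h2, AlgHom.commutes]; simp
    · have h2 : (MvPolynomial.C c : MvPolynomial (Fin r) ℂ) = algebraMap ℂ _ c := rfl
      rw [h2, AlgHom.commutes, Algebra.commutes]; simp
  | add p q hp hq =>
    obtain ⟨E, hE1, hE2⟩ := hp
    obtain ⟨E', hE1', hE2'⟩ := hq
    refine ⟨fun s => E s + E' s, ?_, ?_⟩
    · intro s hs
      rw [mul_add, hE1 s hs, hE1' s hs, map_add]; ring
    · have h3 : y * φ (p + q) - φ (p + q) * y =
          (y * φ p - φ p * y) + (y * φ q - φ q * y) := by
        rw [map_add]; noncomm_ring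
      rw [h3, hE2, hE2', ← Finset.sum_add_distrib]
      apply Finset.sum_congr rfl
      intro s _
      rw [map_add, add_mul, smul_add]
  | mul_X p j hp =>
    obtain ⟨E, hE1, hE2⟩ := hp
    refine ⟨fun s => E s * sub s (MvPolynomial.X j) + p * MvPolynomial.C (D s j), ?_, ?_⟩
    · intro s hs
      have h1 := hE1 s hs
      have h2 := hD s hs j
      rw [map_mul]
      linear_combination (sub s (MvPolynomial.X j)) * h1 + p * h2
    · have h3 : y * φ (p * MvPolynomial.X j) - φ (p * MvPolynomial.X j) * y =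
          (y * φ p - φ p * y) * φ (MvPolynomial.X j) +
            φ p * (y * φ (MvPolynomial.X j) - φ (MvPolynomial.X j) * y) := by
        rw [map_mul]; noncomm_ring
      rw [h3, hE2, hy, Finset.sum_mul, Finset.mul_sum, ← Finset.sum_add_distrib]
      apply Finset.sum_congr rfl
      intro s _
      have h4 : (MvPolynomial.C (D s j) : MvPolynomial (Fin r) ℂ) = algebraMap ℂ _ (D s j) := rfl
      rw [map_add, map_mul, map_mul, h4, AlgHom.commutes, add_mul, smul_add, smul_mul_assoc,
        mul_assoc (φ (E s)) (T s), hT, ← mul_assoc]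
      congr 1
      rw [mul_smul_comm, mul_smul, ← Algebra.commutes, ← Algebra.smul_def, smul_mul_assoc]

/-- invariants commute with `y` -/
lemma commute_of_inv {S : Type} [Fintype S] (φ : MvPolynomial (Fin r) ℂ →ₐ[ℂ] A)
    (y : A) (T : S → A) (sub : S → MvPolynomial (Fin r) ℂ →ₐ[ℂ] MvPolynomial (Fin r) ℂ)
    (hT : ∀ s q, T s * φ q = φ (sub s q) * T s)
    (l : S → MvPolynomial (Fin r) ℂ) (γ : S → ℂ) (D : S → Fin r → ℂ)
    (hl : ∀ s, γ s ≠ 0 → l s ≠ 0)
    (hD : ∀ s, γ s ≠ 0 → ∀ j, l s * MvPolynomial.C (D s j) =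
      MvPolynomial.X j - sub s (MvPolynomial.X j))
    (hy : ∀ j, y * φ (MvPolynomial.X j) - φ (MvPolynomial.X j) * y =
      ∑ s, (γ s * D s j) • T s) (p : MvPolynomial (Fin r) ℂ) (hp : ∀ s, sub s p = p) :
    y * φ p = φ p * y := by
  obtain ⟨E, hE1, hE2⟩ := commutator_formula φ y T sub hT l γ D hD hy p
  rw [← sub_eq_zero, hE2]
  apply Finset.sum_eq_zero
  intro s _
  by_cases hs : γ s = 0
  · rw [hs, zero_smul]
  · have h1 := hE1 s hs
    rw [hp, sub_self] at h1
    have h2 : E s = 0 := by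
      rcases mul_eq_zero.1 h1 with h | h
      · exact absurd h (hl s hs)
      · exact h
    rw [h2, map_zero, zero_mul, smul_zero]

end Gen

/-- a matrix of rank one -/
lemma rank_one {r : ℕ} (M : Matrix (Fin r) (Fin r) ℂ) (h : M.rank = 1) :
    ∃ ν a : Fin r → ℂ, ν ≠ 0 ∧ a ≠ 0 ∧ ∀ i j, M i j = ν i * a j := by
  have h1 : Module.finrank ℂ (LinearMap.range M.mulVecLin) = 1 := h
  obtain ⟨v, hv0, hv⟩ := finrank_eq_one_iff'.1 h1
  have h2 : ∀ j, ∃ c : ℂ, c • v.1 = M.mulVec (Pi.single j 1) := by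
    intro j
    obtain ⟨c, hc⟩ := hv ⟨M.mulVecLin (Pi.single j 1), ⟨_, rfl⟩⟩
    exact ⟨c, congrArg Subtype.val hc⟩
  choose a ha using h2
  have hM : ∀ i j, M i j = v.1 i * a j := by
    intro i j
    have h3 := congrFun (ha j) i
    rw [Matrix.mulVec_single_one] at h3
    simp only [Pi.smul_apply, smul_eq_mul, Matrix.col_apply] at h3
    rw [← h3]; ring
  refine ⟨v.1, a, fun h0 => hv0 (Subtype.ext h0), ?_, hM⟩
  intro ha0
  have : M = 0 := by
    ext i j
    rw [hM, ha0]; simp
  rw [this, Matrix.rank_zero] at h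
  exact absurd h (by norm_num)

variable {r : ℕ} {N : SG r} [Fintype N] {c : N → ℂ}

/-- relations hold in the quotient -/
lemma h0_rel {x y : FA ℂ r N} (h : HRel N c x y) : h0 N c x = h0 N c y :=
  RingQuot.mkAlgHom_rel ℂ h

lemma rX_comm (i j : Fin r) : rX c i * rX c j = rX c j * rX c i := by
  unfold rX
  rw [← map_mul, ← map_mul]
  exact h0_rel (HRel.XX i j)

lemma rY_comm (i j : Fin r) : rY c i * rY c j = rY c j * rY c i := by
  unfold rY
  rw [← map_mul, ← map_mul]
  exact h0_rel (HRel.YY i j)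

lemma rT_X (g : N) (i : Fin r) : rT c g * rX c i = (∑ j, ((g⁻¹).1.1 i j) • rX c j) * rT c g := by
  unfold rT rX
  rw [← map_mul, h0_rel (HRel.TX g i), map_mul, map_sum]
  congr 1
  apply Finset.sum_congr rfl
  intro j _
  rw [map_mul, AlgHom.commutes, ← Algebra.smul_def]

lemma rT_Y (g : N) (i : Fin r) : rT c g * rY c i = (∑ j, (g.1.1 j i) • rY c j) * rT c g := by
  unfold rT rY
  rw [← map_mul, h0_rel (HRel.TY g i), map_mul, map_sum]
  congr 1
  apply Finset.sum_congr rfl
  intro j _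
  rw [map_mul, AlgHom.commutes, ← Algebra.smul_def]

open Classical in
lemma rY_X (i j : Fin r) : rY c i * rX c j - rX c j * rY c i =
    ∑ s : N, (if IsRefl s.1 then c s * ((1 - s.1.1) j i / (1 - s.1.1.det)) else 0) • rT c s := by
  unfold rT rX rY
  rw [← map_mul, h0_rel (HRel.YX i j), map_add, map_mul, add_sub_cancel_left, map_sum]
  apply Finset.sum_congr rfl
  intro s _
  rw [map_mul, AlgHom.commutes, ← Algebra.smul_def]

/-- substitution in the `x` variables -/
def subX (g : N) : MvPolynomial (Fin r) ℂ →ₐ[ℂ] MvPolynomial (Fin r) ℂ :=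
  MvPolynomial.bind₁ (fun i => ∑ j, MvPolynomial.C ((g⁻¹).1.1 i j) * MvPolynomial.X j)

/-- substitution in the `y` variables -/
def subY (g : N) : MvPolynomial (Fin r) ℂ →ₐ[ℂ] MvPolynomial (Fin r) ℂ :=
  MvPolynomial.bind₁ (fun i => ∑ j, MvPolynomial.C (g.1.1 j i) * MvPolynomial.X j)

lemma T_sub (φ : MvPolynomial (Fin r) ℂ →ₐ[ℂ] H0 N c) (g : N)
    (sub : MvPolynomial (Fin r) ℂ →ₐ[ℂ] MvPolynomial (Fin r) ℂ)
    (h : ∀ i, rT c g * φ (MvPolynomial.X i) = φ (sub (MvPolynomial.X i)) * rT c g)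
    (q : MvPolynomial (Fin r) ℂ) : rT c g * φ q = φ (sub q) * rT c g := by
  induction q using MvPolynomial.induction_on with
  | C a =>
    have h2 : (MvPolynomial.C a : MvPolynomial (Fin r) ℂ) = algebraMap ℂ _ a := rfl
    rw [h2, AlgHom.commutes, AlgHom.commutes, AlgHom.commutes, Algebra.commutes]
  | add p q hp hq => rw [map_add, map_add, map_add, mul_add, add_mul, hp, hq]
  | mul_X p i hp =>
    rw [map_mul, map_mul, map_mul, ← mul_assoc, hp, mul_assoc, h, mul_assoc]

/-- an element commuting with the generators is central -/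
lemma central_of_gen (a : H0 N c) (hX : ∀ i, a * rX c i = rX c i * a)
    (hY : ∀ i, a * rY c i = rY c i * a) (hT : ∀ g, a * rT c g = rT c g * a) (b : H0 N c) :
    a * b = b * a := by
  obtain ⟨w, rfl⟩ := RingQuot.mkAlgHom_surjective ℂ (HRel N c) b
  induction w using FreeAlgebra.induction with
  | grade0 t => rw [AlgHom.commutes]; exact (Algebra.commutes _ _).symm
  | grade1 x =>
    cases x with
    | X i => exact hX i
    | Y i => exact hY i
    | T g => exact hT g
  | mul x y hx hy => rw [map_mul, ← mul_assoc, hx, mul_assoc, hy, mul_assoc]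
  | add x y hx hy => rw [map_add, mul_add, add_mul, hx, hy]

omit [Fintype N] in
/-- data of a reflection: `1 - s = ν ⊗ a`, `s⁻¹ ν = δ' ν` -/
lemma refl_data (s : N) (hs : IsRefl s.1) : ∃ (ν a : Fin r → ℂ) (δ : ℂ), ν ≠ 0 ∧ a ≠ 0 ∧ δ ≠ 0 ∧
    (∀ i j, (1 - s.1.1) i j = ν i * a j) ∧ ∀ i j, (1 - (s⁻¹).1.1) i j = δ * ν i * a j := by
  obtain ⟨ν, a, hν, ha, hM⟩ := rank_one _ hs
  have hinv : s.1.1 * (s⁻¹).1.1 = 1 := by
    have : s.1.1 * (s⁻¹).1.1 = (s * s⁻¹).1.1 := rfl
    rw [this, mul_inv_cancel]; rfl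
  have hinv' : (s⁻¹).1.1 * s.1.1 = 1 := by
    have : (s⁻¹).1.1 * s.1.1 = (s⁻¹ * s).1.1 := rfl
    rw [this, inv_mul_cancel]; rfl
  -- `s ν = (1 + a ν) ν`
  set t : ℂ := 1 + a ⬝ᵥ ν with ht
  have hsv : s.1.1 *ᵥ ν = t • ν := by
    have h1 : s.1.1 = 1 + (s.1.1 - 1) := by abel
    have h2 : (s.1.1 - 1) *ᵥ ν = (a ⬝ᵥ ν) • ν := by
      ext i
      simp only [Matrix.mulVec, dotProduct, hM, Pi.smul_apply, smul_eq_mul, Finset.sum_mul]
      apply Finset.sum_congr rfl
      intro j _; ring
    rw [h1, Matrix.add_mulVec, Matrix.one_mulVec, h2, ht, add_smul, one_smul]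
  have ht0 : t ≠ 0 := by
    intro h0
    rw [h0, zero_smul] at hsv
    apply hν
    have h1 : (s⁻¹).1.1 *ᵥ (s.1.1 *ᵥ ν) = ν := by
      rw [Matrix.mulVec_mulVec, hinv', Matrix.one_mulVec]
    rw [← h1, hsv, Matrix.mulVec_zero]
  have hsi : (s⁻¹).1.1 *ᵥ ν = t⁻¹ • ν := by
    have h1 : (s⁻¹).1.1 *ᵥ (s.1.1 *ᵥ ν) = ν := by
      rw [Matrix.mulVec_mulVec, hinv', Matrix.one_mulVec]
    rw [hsv, Matrix.mulVec_smul] at h1
    rw [← h1, smul_smul, inv_mul_cancel₀ ht0, one_smul, h1]
  have hM' : ∀ i j, (1 - s.1.1) i j = (-ν i) * a j := by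
    intro i j
    have h1 : (1 - s.1.1) i j = - (s.1.1 - 1) i j := by
      rw [← neg_sub, Matrix.neg_apply]
    rw [h1, hM]; ring
  refine ⟨-ν, a, -t⁻¹, neg_ne_zero.2 hν, ha, neg_ne_zero.2 (inv_ne_zero ht0), ?_, ?_⟩
  · intro i j; exact hM' i j
  · intro i j
    -- `1 - s⁻¹ = s⁻¹ (s - 1)`
    have h1 : 1 - (s⁻¹).1.1 = (s⁻¹).1.1 * (s.1.1 - 1) := by
      rw [mul_sub, hinv', mul_one]
    rw [h1, Matrix.mul_apply]
    have h2 : ∑ k, (s⁻¹).1.1 i k * (s.1.1 - 1) k j = ((s⁻¹).1.1 *ᵥ ν) i * a j := by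
      simp only [Matrix.mulVec, dotProduct, Finset.sum_mul]
      apply Finset.sum_congr rfl
      intro k _
      rw [hM]; ring
    rw [h2, hsi]
    simp only [Pi.smul_apply, smul_eq_mul, Pi.neg_apply]
    ring

/-- a nonzero linear form is a nonzero polynomial -/
lemma form_ne {r : ℕ} (a : Fin r → ℂ) (ha : a ≠ 0) :
    (∑ k, MvPolynomial.C (a k) * MvPolynomial.X k : MvPolynomial (Fin r) ℂ) ≠ 0 := by
  intro h
  apply ha
  ext j
  have h1 := congrArg (MvPolynomial.eval (Pi.single j (1 : ℂ))) h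
  rw [map_sum, map_zero, Finset.sum_eq_single j] at h1
  · simpa using h1
  · intro k _ hk
    simp [hk]
  · intro h; exact absurd (Finset.mem_univ _) h

end CenAX

open CenAX in
/-- Invariants without constant term are central. -/
theorem Inv_central {r : ℕ} {N : SG r} [Fintype N] {c : N → ℂ} (hc : IsCls c) (a : H0 N c)
    (ha : a ∈ Inv c) (b : H0 N c) : a * b = b * a := by
  classical
  rcases ha with ⟨p, hp, rfl⟩ | ⟨p, hp, rfl⟩
  · -- invariants in the `x_i`
    obtain ⟨φ, hφ, hev⟩ := exists_evHom (rX c) rX_comm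
    rw [hev]
    have hsub : ∀ g : N, subX g p = p := fun g => hp.2 _ (g⁻¹).2
    have hT : ∀ (g : N) (q : MvPolynomial (Fin r) ℂ),
        rT c g * φ q = φ (subX g q) * rT c g := by
      intro g q
      apply T_sub φ g (subX g) _ q
      intro i
      rw [hφ, rT_X]
      congr 1
      unfold subX
      rw [MvPolynomial.bind₁_X_right, map_sum]
      apply Finset.sum_congr rfl
      intro j _
      have h4 : (MvPolynomial.C ((g⁻¹).1.1 i j) : MvPolynomial (Fin r) ℂ) =
        algebraMap ℂ _ ((g⁻¹).1.1 i j) := rfl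
      rw [map_mul, h4, AlgHom.commutes, hφ, ← Algebra.smul_def]
    apply central_of_gen
    · intro i
      rw [← hφ, ← map_mul, ← map_mul, mul_comm]
    · intro i
      symm
      -- the commutator with `y_i`
      have hdata : ∀ s : N, ∃ (ν α : Fin r → ℂ) (δ : ℂ), IsRefl s.1 → (α ≠ 0 ∧ δ ≠ 0 ∧
          (∀ i j, (1 - s.1.1) i j = ν i * α j) ∧ ∀ i j, (1 - (s⁻¹).1.1) i j = δ * ν i * α j) := by
        intro s
        by_cases hs : IsRefl s.1
        · obtain ⟨ν, α, δ, _, hα, hδ, h1, h2⟩ := refl_data s hs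
          exact ⟨ν, α, δ, fun _ => ⟨hα, hδ, h1, h2⟩⟩
        · exact ⟨0, 0, 0, fun h => absurd h hs⟩
      choose ν α δ hd using hdata
      have hγ : ∀ s : N, (if IsRefl s.1 then c s * α s i / ((1 - s.1.1.det) * δ s) else 0) ≠ 0 →
          IsRefl s.1 := by
        intro s hs
        by_contra h
        exact hs (if_neg h)
      apply commute_of_inv φ (rY c i) (fun s : N => rT c s) (fun s => subX s) (fun s q => hT s q)
        (fun s => ∑ k, MvPolynomial.C (α s k) * MvPolynomial.X k)
        (fun s => if IsRefl s.1 then c s * α s i / ((1 - s.1.1.det) * δ s) else 0)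
        (fun s j => δ s * ν s j)
        (fun s hs => form_ne _ (hd s (hγ s hs)).1) _ _ p (fun s => hsub s)
      · intro s hs j
        obtain ⟨_, _, _, h2⟩ := hd s (hγ s hs)
        unfold subX
        rw [MvPolynomial.bind₁_X_right, Finset.sum_mul]
        have h3 : (MvPolynomial.X j : MvPolynomial (Fin r) ℂ) =
            ∑ k, MvPolynomial.C ((1 : Matrix (Fin r) (Fin r) ℂ) j k) * MvPolynomial.X k := by
          rw [Finset.sum_eq_single j]
          · simp
          · intro k _ hk; simp [Matrix.one_apply_ne' hk]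
          · intro h; exact absurd (Finset.mem_univ _) h
        rw [h3, ← Finset.sum_sub_distrib]
        apply Finset.sum_congr rfl
        intro k _
        have h4 := congrArg (MvPolynomial.C : ℂ → MvPolynomial (Fin r) ℂ) (h2 j k)
        rw [Matrix.sub_apply, MvPolynomial.C_sub] at h4
        have h5 : (MvPolynomial.C (δ s * ν s j * α s k) : MvPolynomial (Fin r) ℂ) =
            MvPolynomial.C (α s k) * MvPolynomial.C (δ s * ν s j) := by
          rw [← MvPolynomial.C_mul]; congr 1; ring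
        rw [h5] at h4
        linear_combination -(MvPolynomial.X k) * h4
      · intro j
        rw [hφ, rY_X]
        apply Finset.sum_congr rfl
        intro s _
        congr 1
        by_cases h : IsRefl s.1
        · rw [if_pos h, if_pos h]
          obtain ⟨_, hδ, h1, _⟩ := hd s h
          rw [h1 j i]
          by_cases hd : 1 - s.1.1.det = 0
          · simp [hd]
          · field_simp
        · rw [if_neg h, if_neg h, zero_mul]
    · intro g
      rw [hT, hsub]
  · -- invariants in the `y_i`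
    obtain ⟨φ, hφ, hev⟩ := exists_evHom (rY c) rY_comm
    rw [hev]
    have hsub : ∀ g : N, subY g p = p := fun g => hp.2 _ g.2
    have hT : ∀ (g : N) (q : MvPolynomial (Fin r) ℂ),
        rT c g * φ q = φ (subY g q) * rT c g := by
      intro g q
      apply T_sub φ g (subY g) _ q
      intro i
      rw [hφ, rT_Y]
      congr 1
      unfold subY
      rw [MvPolynomial.bind₁_X_right, map_sum]
      apply Finset.sum_congr rfl
      intro j _
      have h4 : (MvPolynomial.C (g.1.1 j i) : MvPolynomial (Fin r) ℂ) =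
        algebraMap ℂ _ (g.1.1 j i) := rfl
      rw [map_mul, h4, AlgHom.commutes, hφ, ← Algebra.smul_def]
    apply central_of_gen
    · intro j
      symm
      -- the commutator with `x_j`
      have hdata : ∀ s : N, ∃ (ν α : Fin r → ℂ), IsRefl s.1 → (ν ≠ 0 ∧
          (∀ i j, (1 - s.1.1) i j = ν i * α j)) := by
        intro s
        by_cases hs : IsRefl s.1
        · obtain ⟨ν, α, δ, hν, _, _, h1, _⟩ := refl_data s hs
          exact ⟨ν, α, fun _ => ⟨hν, h1⟩⟩
        · exact ⟨0, 0, fun h => absurd h hs⟩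
      choose ν α hd using hdata
      have hγ : ∀ s : N, (if IsRefl s.1 then -(c s * ν s j / (1 - s.1.1.det)) else 0) ≠ 0 →
          IsRefl s.1 := by
        intro s hs
        by_contra h
        exact hs (if_neg h)
      apply commute_of_inv φ (rX c j) (fun s : N => rT c s) (fun s => subY s) (fun s q => hT s q)
        (fun s => ∑ k, MvPolynomial.C (ν s k) * MvPolynomial.X k)
        (fun s => if IsRefl s.1 then -(c s * ν s j / (1 - s.1.1.det)) else 0)
        (fun s i => α s i)
        (fun s hs => form_ne _ (hd s (hγ s hs)).1) _ _ p (fun s => hsub s)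
      · intro s hs i
        obtain ⟨_, h2⟩ := hd s (hγ s hs)
        unfold subY
        rw [MvPolynomial.bind₁_X_right, Finset.sum_mul]
        have h3 : (MvPolynomial.X i : MvPolynomial (Fin r) ℂ) =
            ∑ k, MvPolynomial.C ((1 : Matrix (Fin r) (Fin r) ℂ) k i) * MvPolynomial.X k := by
          rw [Finset.sum_eq_single i]
          · simp
          · intro k _ hk; simp [Matrix.one_apply_ne hk]
          · intro h; exact absurd (Finset.mem_univ _) h
        rw [h3, ← Finset.sum_sub_distrib]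
        apply Finset.sum_congr rfl
        intro k _
        have h4 := congrArg (MvPolynomial.C : ℂ → MvPolynomial (Fin r) ℂ) (h2 k i)
        rw [Matrix.sub_apply, MvPolynomial.C_sub, MvPolynomial.C_mul] at h4
        linear_combination -(MvPolynomial.X k) * h4
      · intro i
        rw [hφ, ← neg_sub, rY_X, ← Finset.sum_neg_distrib]
        apply Finset.sum_congr rfl
        intro s _
        apply neg_smul_eq
        by_cases h : IsRefl s.1
        · rw [if_pos h, if_pos h]
          obtain ⟨_, h1⟩ := hd s h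
          rw [h1 j i]
          ring
        · rw [if_neg h, if_neg h, zero_mul, neg_zero]
    · intro i
      rw [← hφ, ← map_mul, ← map_mul, mul_comm]
    · intro g
      rw [hT, hsub]

end

end Pool.Agent.CMFn
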