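import Pool.Agent.CMFn.HDefs

/-! Project CMFn: the group structure of the braid group. -/

namespace Pool.Agent.CMFn

open unitInterval Matrix

noncomputable section

section Braid

variable {r : ℕ} {G : SG r} {v₀ : VReg G}

namespace BraidX

/-- Criterion for the relation through homotopic paths with arbitrary end points. -/
lemma rel_of {a b : BPath G v₀} (h : a.g = b.g) {x y : VReg G} (p q : Path x y)
    (hp : ∀ t, a.f t = p t) (hq : ∀ t, b.f t = q t) (hpq : p.Homotopic q) : a ≈ b := by
  have h1 : a.f = p.toContinuousMap := ContinuousMap.ext hp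
  have h2 : b.f = q.toContinuousMap := ContinuousMap.ext hq
  refine ⟨h, ?_⟩
  rw [h1, h2]
  exact hpq

/-- Equal group elements and homotopic paths from a relation. -/
lemma homotopic_of {g : G} {p q : Path v₀ (g • v₀)}
    (h : BPath.ofPath g p ≈ BPath.ofPath g q) : p.Homotopic q := h.2

lemma mul_f (a b : BPath G v₀) (t : I) :
    (a.mul b).f t = (a.toPath.trans (b.toPath.map (continuous_const_smul a.g))) t := rfl

lemma inv_f (a : BPath G v₀) (t : I) : (a.inv).f t = a.g⁻¹ • a.f (σ t) := rfl

end BraidX

open BraidX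

theorem bmul_rel (a a' : BPath G v₀) (h : a ≈ a') (b b' : BPath G v₀) (h' : b ≈ b') :
    a.mul b ≈ a'.mul b' := by
  obtain ⟨g, f, h0, h1⟩ := a
  obtain ⟨g', f', h0', h1'⟩ := a'
  obtain ⟨k, e, k0, k1⟩ := b
  obtain ⟨k', e', k0', k1'⟩ := b'
  obtain ⟨hg, hf⟩ := h
  obtain ⟨hk, he⟩ := h'
  simp only at hg hf hk he
  subst hg hk
  have hp : (BPath.toPath ⟨g, f, h0, h1⟩).Homotopic (BPath.toPath ⟨g, f', h0', h1'⟩) := hf
  have hq : (BPath.toPath ⟨k, e, k0, k1⟩).Homotopic (BPath.toPath ⟨k, e', k0', k1'⟩) := he
  have hq' : ((BPath.toPath ⟨k, e, k0, k1⟩).map (continuous_const_smul g)).Homotopic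
      ((BPath.toPath ⟨k, e', k0', k1'⟩).map (continuous_const_smul g)) :=
    hq.map ⟨fun v => g • v, continuous_const_smul g⟩
  exact rel_of rfl _ _ (fun t => mul_f _ _ t) (fun t => mul_f _ _ t) (hp.hcomp hq')

theorem binv_rel (a a' : BPath G v₀) (h : a ≈ a') : a.inv ≈ a'.inv := by
  obtain ⟨g, f, h0, h1⟩ := a
  obtain ⟨g', f', h0', h1'⟩ := a'
  obtain ⟨hg, hf⟩ := h
  simp only at hg hf
  subst hg
  have hp : (BPath.toPath ⟨g, f, h0, h1⟩).Homotopic (BPath.toPath ⟨g, f', h0', h1'⟩) := hf
  have hq : (((BPath.toPath ⟨g, f, h0, h1⟩).symm).map (continuous_const_smul g⁻¹)).Homotopic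
      (((BPath.toPath ⟨g, f', h0', h1'⟩).symm).map (continuous_const_smul g⁻¹)) :=
    hp.symm₂.map ⟨fun v => g⁻¹ • v, continuous_const_smul g⁻¹⟩
  exact rel_of rfl _ _ (fun t => rfl) (fun t => rfl) hq

namespace BraidX

lemma mul_assoc' (a b c : BPath G v₀) : (a.mul b).mul c ≈ a.mul (b.mul c) := by
  let p : Path v₀ (a.g • v₀) := a.toPath
  let q : Path (a.g • v₀) (a.g • b.g • v₀) := b.toPath.map (continuous_const_smul a.g)
  let r : Path (a.g • b.g • v₀) (a.g • b.g • c.g • v₀) :=
    (c.toPath.map (continuous_const_smul b.g)).map (continuous_const_smul a.g)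
  refine rel_of (mul_assoc _ _ _) ((p.trans q).trans r) (p.trans (q.trans r)) ?_ ?_
    ⟨Path.Homotopy.transAssoc p q r⟩
  · intro t
    rw [mul_f, Path.trans_apply, Path.trans_apply]
    split_ifs with h
    · rfl
    · exact mul_smul a.g b.g (c.f _)
  · intro t
    rw [mul_f, Path.trans_apply, Path.trans_apply]
    split_ifs with h
    · rfl
    · show a.g • (b.mul c).f _ = _
      rw [mul_f, Path.trans_apply, Path.trans_apply]
      split_ifs with h'
      · rfl
      · rfl

lemma one_mul' (a : BPath G v₀) : (BPath.one G v₀).mul a ≈ a := by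
  refine rel_of (one_mul _) ((Path.refl v₀).trans a.toPath) a.toPath ?_ (fun t => rfl)
    ⟨Path.Homotopy.reflTrans a.toPath⟩
  intro t
  rw [mul_f, Path.trans_apply, Path.trans_apply]
  split_ifs with h
  · rfl
  · exact one_smul G (a.f _)

lemma mul_one' (a : BPath G v₀) : a.mul (BPath.one G v₀) ≈ a := by
  refine rel_of (mul_one _) (a.toPath.trans (Path.refl _)) a.toPath ?_ (fun t => rfl)
    ⟨Path.Homotopy.transRefl a.toPath⟩
  intro t
  rw [mul_f, Path.trans_apply, Path.trans_apply]
  split_ifs with h
  · rfl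
  · rfl

lemma inv_mul_cancel' (a : BPath G v₀) : a.inv.mul a ≈ BPath.one G v₀ := by
  let r : Path (a.g⁻¹ • v₀) (a.g⁻¹ • a.g • v₀) := a.toPath.map (continuous_const_smul a.g⁻¹)
  refine rel_of (inv_mul_cancel _) (r.symm.trans r) (Path.refl _) ?_ ?_
    ⟨(Path.Homotopy.reflSymmTrans r).symm⟩
  · intro t
    rw [mul_f, Path.trans_apply, Path.trans_apply]
    split_ifs with h
    · rfl
    · rfl
  · intro t
    show v₀ = a.g⁻¹ • a.g • v₀
    exact (inv_smul_smul _ _).symm

end BraidX

instance : Group (Braid G v₀) where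
  mul := Quotient.map₂ BPath.mul (fun a a' h b b' h' => bmul_rel a a' h b b' h')
  one := Quotient.mk _ (BPath.one G v₀)
  inv := Quotient.map BPath.inv (fun a a' h => binv_rel a a' h)
  mul_assoc := by
    intro a b c
    induction a using Quotient.inductionOn with
    | h a =>
      induction b using Quotient.inductionOn with
      | h b =>
        induction c using Quotient.inductionOn with
        | h c => exact Quotient.sound (mul_assoc' a b c)
  one_mul := by
    intro a
    induction a using Quotient.inductionOn with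
    | h a => exact Quotient.sound (one_mul' a)
  mul_one := by
    intro a
    induction a using Quotient.inductionOn with
    | h a => exact Quotient.sound (mul_one' a)
  inv_mul_cancel := by
    intro a
    induction a using Quotient.inductionOn with
    | h a => exact Quotient.sound (inv_mul_cancel' a)

/-- The projection `B(G) → G`. -/
def Braid.proj : Braid G v₀ →* G where
  toFun := Quotient.lift BPath.g (fun _ _ h => h.1)
  map_one' := rfl
  map_mul' := by
    intro a b
    induction a using Quotient.inductionOn with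
    | h a =>
      induction b using Quotient.inductionOn with
      | h b => rfl

end Braid

end

end Pool.Agent.CMFn
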