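import Pool.Agent.CMFn.DunA
import Pool.Agent.CMFn.Braid

/-! Project CMF, module Conn: topology of `V^reg` and distinguished reflections. -/

namespace Pool.Agent.CMFn

open Matrix

noncomputable section

variable {r : ℕ} {N : SG r} [Fintype N]

namespace ConnX

/-- The parameters `z` for which `v + z (w - v)` lies on a reflecting line. -/
def bad (N : SG r) (v w : Fin r → ℂ) : Set ℂ :=
  ⋃ H : Arr N, {z : ℂ | lf H.1 ⬝ᵥ (v + z • (w - v)) = 0}

lemma bad_finite (v w : VReg N) : (bad N v.1 w.1).Finite := by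
  refine Set.finite_iUnion fun H => ?_
  have hv : lf H.1 ⬝ᵥ v.1 ≠ 0 := (vreg_iff v.1).1 v.2 H
  refine Set.Subsingleton.finite ?_
  intro z hz z' hz'
  have h1 : lf H.1 ⬝ᵥ v.1 + z * (lf H.1 ⬝ᵥ (w.1 - v.1)) = 0 := by
    have h := hz
    rw [Set.mem_ofPred_eq, dotProduct_add, dotProduct_smul, smul_eq_mul] at h
    exact h
  have h2 : lf H.1 ⬝ᵥ v.1 + z' * (lf H.1 ⬝ᵥ (w.1 - v.1)) = 0 := by
    have h := hz'
    rw [Set.mem_ofPred_eq, dotProduct_add, dotProduct_smul, smul_eq_mul] at h
    exact h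
  have hb : lf H.1 ⬝ᵥ (w.1 - v.1) ≠ 0 := by
    intro h0
    rw [h0, mul_zero, add_zero] at h1
    exact hv h1
  apply mul_right_cancel₀ hb
  linear_combination h1 - h2

lemma mem_compl_iff (v w : Fin r → ℂ) (z : ℂ) : z ∈ (bad N v w)ᶜ ↔
    ∀ H : Arr N, lf H.1 ⬝ᵥ (v + z • (w - v)) ≠ 0 := by
  simp only [bad, Set.mem_compl_iff, Set.mem_iUnion, Set.mem_ofPred_eq, not_exists, ne_eq]

lemma joined (v w : VReg N) : JoinedIn (bad N v.1 w.1)ᶜ (0 : ℂ) 1 := by
  have h : IsPathConnected (bad N v.1 w.1)ᶜ := by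
    refine (bad_finite v w).countable.isPathConnected_compl_of_one_lt_rank ?_
    rw [Complex.rank_real_complex]
    exact Cardinal.one_lt_two
  refine h.joinedIn 0 ?_ 1 ?_
  · rw [mem_compl_iff]
    intro H
    rw [zero_smul, add_zero]
    exact (vreg_iff v.1).1 v.2 H
  · rw [mem_compl_iff]
    intro H
    rw [one_smul, add_sub_cancel]
    exact (vreg_iff w.1).1 w.2 H

lemma path_vreg (v w : VReg N) : Nonempty (Path v w) := by
  obtain ⟨γ, hγ⟩ := joined v w
  refine ⟨{ toFun := fun t => ⟨v.1 + γ t • (w.1 - v.1), ?_⟩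
            continuous_toFun := ?_
            source' := ?_
            target' := ?_ }⟩
  · exact (vreg_iff _).2 ((mem_compl_iff _ _ _).1 (hγ t))
  · refine Continuous.subtype_mk ?_ _
    exact continuous_const.add (γ.continuous.smul continuous_const)
  · apply Subtype.ext
    show v.1 + γ 0 • (w.1 - v.1) = v.1
    rw [γ.source, zero_smul, add_zero]
  · apply Subtype.ext
    show v.1 + γ 1 • (w.1 - v.1) = w.1
    rw [γ.target, one_smul, add_sub_cancel]

/-- The pointwise stabiliser of a line, as a subgroup of `N`. -/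
def st (H : Arr N) : Subgroup N where
  carrier := {g | ∀ v ∈ H.1, g.1.1 *ᵥ v = v}
  one_mem' := by
    intro v _
    show (1 : Matrix (Fin r) (Fin r) ℂ) *ᵥ v = v
    rw [Matrix.one_mulVec]
  mul_mem' := by
    intro g h hg hh v hv
    show (g.1.1 * h.1.1) *ᵥ v = v
    rw [← Matrix.mulVec_mulVec, hh v hv, hg v hv]
  inv_mem' := by
    intro g hg v hv
    show (g⁻¹).1.1 *ᵥ v = v
    have e : (g⁻¹).1.1 * g.1.1 = 1 := by
      have h3 : g⁻¹ * g = 1 := inv_mul_cancel g
      exact congrArg (fun z : N => z.1.1) h3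
    have h4 := hg v hv
    conv_lhs => rw [← h4]
    rw [Matrix.mulVec_mulVec, e, Matrix.one_mulVec]

lemma card_st (H : Arr N) : Nat.card (st H) = eH N H.1 := by
  unfold eH
  refine Nat.card_congr
    { toFun := fun g => ⟨g.1.1, g.1.2, g.2⟩
      invFun := fun g => ⟨⟨g.1, g.2.1⟩, g.2.2⟩
      left_inv := fun g => rfl
      right_inv := fun g => rfl }

/-- The determinants of the elements fixing `H` pointwise are all the `e_H`-th roots of unity. -/
lemma det_surj (H : Arr N) (z : ℂ) (hz : z ^ eH N H.1 = 1) : ∃ s : st H, s.1.1.1.det = z := by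
  classical
  have hpos := eH_pos N H
  have : Fintype (st H) := Fintype.ofFinite _
  have hcard : Fintype.card (st H) = eH N H.1 := by
    rw [← card_st H, Nat.card_eq_fintype_card]
  have hinj : Function.Injective (fun s : st H => s.1.1.1.det) := by
    intro s s' hs
    apply Subtype.ext
    exact refl_ext H s.1 s'.1 s.2 s'.2 hs
  have hsub : (Finset.univ.image (fun s : st H => s.1.1.1.det)) ⊆
      Polynomial.nthRootsFinset (eH N H.1) (1 : ℂ) := by
    intro x hx
    rw [Finset.mem_image] at hx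
    obtain ⟨s, _, rfl⟩ := hx
    rw [Polynomial.mem_nthRootsFinset hpos]
    show s.1.1.1.det ^ eH N H.1 = 1
    rw [← Matrix.det_pow]
    have h1 : s ^ eH N H.1 = 1 := by
      rw [← hcard]
      exact pow_card_eq_one
    have h2 : s.1.1.1 ^ eH N H.1 = 1 := by
      have h3 := congrArg (fun y : st H => y.1.1.1) h1
      have h4 : (s ^ eH N H.1).1.1.1 = s.1.1.1 ^ eH N H.1 := by simp
      rw [← h4]
      exact h3
    rw [h2, Matrix.det_one]
  have hprim := Complex.isPrimitiveRoot_exp (eH N H.1) hpos.ne'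
  have heq : (Finset.univ.image (fun s : st H => s.1.1.1.det)) =
      Polynomial.nthRootsFinset (eH N H.1) (1 : ℂ) := by
    refine Finset.eq_of_subset_of_card_le hsub ?_
    rw [Finset.card_image_of_injective _ hinj, Finset.card_univ, hcard,
      hprim.card_nthRootsFinset]
  have hmem : z ∈ Polynomial.nthRootsFinset (eH N H.1) (1 : ℂ) := by
    rw [Polynomial.mem_nthRootsFinset hpos]
    exact hz
  rw [← heq, Finset.mem_image] at hmem
  obtain ⟨s, _, hs⟩ := hmem
  exact ⟨s, hs⟩

end ConnX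

open ConnX

theorem vreg_path (hN : ∃ s ∈ N, IsRefl s) (v w : VReg N) : Nonempty (Path v w) :=
  path_vreg v w

/-- The projection `B(N) → N` is surjective. -/
theorem proj_surj (hN : ∃ s ∈ N, IsRefl s) (v₀ : VReg N) :
    Function.Surjective (Braid.proj : Braid N v₀ →* N) := by
  intro g
  obtain ⟨p⟩ := vreg_path hN v₀ (g • v₀)
  exact ⟨Quotient.mk _ (BPath.ofPath g p), rfl⟩

/-- The distinguished reflection of a reflecting line: every line has one. -/
theorem exists_dist (H : Arr N) : ∃ s : N, (∀ v ∈ H.1, s.1.1 *ᵥ v = v) ∧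
    s.1.1.det = Complex.exp (2 * Real.pi * Complex.I / eH N H.1) := by
  have hpos := eH_pos N H
  obtain ⟨s, hs⟩ := det_surj H (Complex.exp (2 * Real.pi * Complex.I / eH N H.1))
    (Complex.isPrimitiveRoot_exp (eH N H.1) hpos.ne').pow_eq_one
  exact ⟨s.1, s.2, hs⟩

end

end Pool.Agent.CMFn
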