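import Pool.Agent.CMFn.Defs

/-! Project CMFn, block C: definitions (virtual characters, class operators, linking). -/

namespace Pool.Agent.CMFn

open Matrix

noncomputable section

variable {G : Type} [Group G]

/-- Virtual characters of `G`. -/
def VC (G : Type) [Group G] : AddSubgroup (G → ℂ) :=
  AddSubgroup.closure
    {f | ∃ (d : ℕ) (ρ : G →* Matrix (Fin d) (Fin d) ℂ), f = fun g => (ρ g).trace}

/-- The class operator `(T f)(g) = Σ_i f(s_i g)` of a finite family. -/
def clOp {m : ℕ} (s : Fin m → G) (f : G → ℂ) : G → ℂ := fun g => ∑ i, f (s i * g)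

/-- The family `s` is stable under conjugation (with multiplicities). -/
def ConjFam {m : ℕ} (s : Fin m → G) : Prop :=
  ∀ g : G, ∃ e : Equiv.Perm (Fin m), ∀ i, g * s i * g⁻¹ = s (e i)

/-- A matrix representation of any degree. -/
abbrev MRep (G : Type) [Group G] := Σ d : ℕ, G →* Matrix (Fin d) (Fin d) ℂ

/-- Equal generic Euler values: `χ(s)/χ(1) = ψ(s)/ψ(1)` for all reflections `s`. -/
def SameLevel {r : ℕ} (V : G →* Matrix (Fin r) (Fin r) ℂ) (a b : MRep G) : Prop :=
  ∀ g, (V g - 1).rank = 1 → (a.2 g).trace * (b.1 : ℂ) = (b.2 g).trace * (a.1 : ℂ)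

/-- `a` and `b` are irreducible, of the same level, and `N_m(a,b) ≠ 0` for some `m ≥ 1`. -/
def Lk {r : ℕ} [Fintype G] (V : G →* Matrix (Fin r) (Fin r) ℂ) (a b : MRep G) : Prop :=
  IsIrr a.2 ∧ IsIrr b.2 ∧ SameLevel V a b ∧
    ∃ m : ℕ, 0 < m ∧ ∑ g : G, (a.2 g⁻¹).trace * (b.2 g).trace * ((V g⁻¹) ^ m).trace ≠ 0

/-- Every level is connected by links. -/
def Conn {r : ℕ} [Fintype G] (V : G →* Matrix (Fin r) (Fin r) ℂ) : Prop :=
  ∀ a b : MRep G, IsIrr a.2 → IsIrr b.2 → SameLevel V a b → Relation.EqvGen (Lk V) a b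

end

end Pool.Agent.CMFn
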