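import Pool.Agent.CMFn.FinA
import Pool.Agent.CMFn.CDefs

/-! Project CMFn: a set `F_e` is a union of classes of linked representations (helper75). -/

namespace Pool.Agent.CMFn

open Matrix

noncomputable section

variable {r : ℕ} {N : SG r} [Fintype N]

/-- The inclusion `N → GL_r(ℂ) → M_r(ℂ)`. -/
def inclN (N : SG r) : N →* Matrix (Fin r) (Fin r) ℂ :=
  (Units.coeHom (Matrix (Fin r) (Fin r) ℂ)).comp N.subtype

omit [Fintype N] in
@[simp] lemma inclN_apply (g : N) : inclN N g = g.1.1 := rfl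

/-- Linked representations: `e` acts by the same scalar. -/
theorem inF_of_lk (k : Idx N → ℂ) (e : Hbar N (cK k)) (he : e * e = e)
    (hc : ∀ a, e * a = a * e) (a b : MRep N) (h : Lk (inclN N) a b) :
    InF k e a.2 ↔ InF k e b.2 := by
  obtain ⟨⟨⟨i⟩, ha⟩, ⟨⟨j⟩, hb⟩, hl, m, hm, hne⟩ := h
  have hd : 0 < a.1 := i.pos
  have hd' : 0 < b.1 := j.pos
  have hl' : ∀ w : N, IsRefl w.1 → (a.2 w).trace * (b.1 : ℂ) = (b.2 w).trace * (a.1 : ℂ) :=
    fun w hw => hl w hw
  by_contra hcon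
  rcases Classical.em (InF k e a.2) with h1 | h1
  · have h2 : ¬ InF k e b.2 := fun h2 => hcon ⟨fun _ => h2, fun _ => h1⟩
    exact hne (inF_links k e he hc hd hd' a.2 b.2 ha hb hl' h1 h2 m hm)
  · have h2 : InF k e b.2 := by
      by_contra h2
      exact hcon ⟨fun h3 => absurd h3 h1, fun h3 => absurd h3 h2⟩
    exact hne (inF_links' k e he hc hd hd' a.2 b.2 ha hb hl' h1 h2 m hm)

theorem inF_of_eqvGen (k : Idx N → ℂ) (e : Hbar N (cK k)) (he : e * e = e)
    (hc : ∀ a, e * a = a * e) (a b : MRep N) (h : Relation.EqvGen (Lk (inclN N)) a b) :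
    InF k e a.2 ↔ InF k e b.2 := by
  induction h with
  | rel x y hxy => exact inF_of_lk k e he hc x y hxy
  | refl x => exact Iff.rfl
  | symm x y _ ih => exact ih.symm
  | trans x y z _ _ ih1 ih2 => exact ih1.trans ih2

end

end Pool.Agent.CMFn
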