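import Pool.Agent.CMFn.G3
import Pool.Agent.CMFn.G7bB

/-! Project CMF, Glue 3: the full twist. -/

namespace Pool.Agent.CMFn

open Matrix unitInterval

noncomputable section

namespace G3

open G1

variable {r : ℕ} {G : Type} [Group G] {V : G → Matrix (Fin r) (Fin r) ℂ}

/-- The pair of the full twist is mapped to the full twist. -/
theorem br_piBP (hV : CMFP.IsRep V) {v₀ : Fin r → ℂ} (v : VReg (img hV)) (hv : v.1 = v₀)
    (h1 : V 1 = 1) (hr : CMFP.Reg V v₀) : br hV v hv (piBP h1 hr) = piB v := by
  refine br_eq_of hV v hv _ _ ?_ ?_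
  · exact el_one hV
  · intro t
    subst hv
    rfl

end G3

end

end Pool.Agent.CMFn
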