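import Pool.Agent.CMFn.PP
import Pool.Agent.CMFn.Braid

/-! Project CMF: the monodromy representation of the braid group. -/

namespace Pool.Agent.CMFn

open Pool.Agent.CMF

open Matrix

noncomputable section

variable {r : ℕ} {N : SG r} [Fintype N] {ι : Type} [Fintype ι] [DecidableEq ι]

variable (hN : ∃ s ∈ N, IsRefl s)

variable {v₀ : VReg N}

namespace KZX

/-- The value of the monodromy on a pair `(g, γ)`. -/
def val (hN : ∃ s ∈ N, IsRefl s) (ρ : N →* Matrix ι ι ℂ) (k : Idx N → ℂ)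
    (a : BPath N v₀) : Matrix ι ι ℂ := (PP hN ρ k a.f)⁻¹ * ρ a.g

theorem val_rel (ρ : N →* Matrix ι ι ℂ) (k : Idx N → ℂ) (a b : BPath N v₀) (h : a ≈ b) :
    val hN ρ k a = val hN ρ k b := by
  have h1 : a.g = b.g := h.1
  have h2 : a.f.HomotopicRel b.f {0, 1} := h.2
  unfold val
  rw [h1, PP_homotopic hN ρ k a.f b.f h2]

omit [Fintype N] in
theorem rho_inv (ρ : N →* Matrix ι ι ℂ) (g : N) : (ρ g)⁻¹ = ρ g⁻¹ := by
  apply Matrix.inv_eq_right_inv
  rw [← map_mul]
  simp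

omit [Fintype N] in
theorem rho_inv_mul (ρ : N →* Matrix ι ι ℂ) (g : N) : ρ g⁻¹ * ρ g = 1 := by
  rw [← map_mul]
  simp

theorem val_mul (ρ : N →* Matrix ι ι ℂ) (k : Idx N → ℂ) (a b : BPath N v₀) :
    val hN ρ k (a.mul b) = val hN ρ k a * val hN ρ k b := by
  have h1 : PP hN ρ k (a.mul b).f =
      (ρ a.g * PP hN ρ k b.f * ρ a.g⁻¹) * PP hN ρ k a.f := by
    have e1 : (a.mul b).f =
        (a.toPath.trans (b.toPath.map (continuous_const_smul a.g))).toContinuousMap := by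
      ext t
      rfl
    rw [e1, PP_trans]
    congr 1
    exact PP_smul hN ρ k a.g b.f _ (fun t => rfl)
  have h2 : (a.mul b).g = a.g * b.g := rfl
  unfold val
  rw [h1, h2, map_mul, Matrix.mul_inv_rev, Matrix.mul_inv_rev, Matrix.mul_inv_rev,
    rho_inv, rho_inv, inv_inv]
  have h3 := rho_inv_mul ρ a.g
  calc (PP hN ρ k a.f)⁻¹ * (ρ a.g * ((PP hN ρ k b.f)⁻¹ * ρ a.g⁻¹)) * (ρ a.g * ρ b.g)
      = (PP hN ρ k a.f)⁻¹ * ρ a.g * (PP hN ρ k b.f)⁻¹ * (ρ a.g⁻¹ * ρ a.g) * ρ b.g := by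
        simp only [Matrix.mul_assoc]
    _ = (PP hN ρ k a.f)⁻¹ * ρ a.g * ((PP hN ρ k b.f)⁻¹ * ρ b.g) := by
        rw [h3, Matrix.mul_one, Matrix.mul_assoc]

theorem pp_const (ρ : N →* Matrix ι ι ℂ) (k : Idx N → ℂ) (v : VReg N) :
    PP hN ρ k (ContinuousMap.const _ v) = 1 := by
  have h1 := PP_trans hN ρ k (Path.refl v) (Path.refl v)
  have e1 : ((Path.refl v).trans (Path.refl v)).toContinuousMap =
      (ContinuousMap.const _ v : C(unitInterval, VReg N)) := by
    rw [Path.refl_trans_refl]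
    rfl
  have e2 : (Path.refl v).toContinuousMap =
      (ContinuousMap.const _ v : C(unitInterval, VReg N)) := rfl
  rw [e1, e2] at h1
  have hu := PP_unit hN ρ k (ContinuousMap.const _ v)
  have h2 : PP hN ρ k (ContinuousMap.const _ v) * 1 =
      PP hN ρ k (ContinuousMap.const _ v) * PP hN ρ k (ContinuousMap.const _ v) := by
    rw [Matrix.mul_one]
    exact h1
  exact (hu.mul_left_cancel h2).symm

theorem val_one (ρ : N →* Matrix ι ι ℂ) (k : Idx N → ℂ) :
    val hN ρ k (BPath.one N v₀) = 1 := by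
  have h1 : PP hN ρ k (BPath.one N v₀).f = 1 := pp_const hN ρ k v₀
  have h2 : ρ (BPath.one N v₀).g = 1 := map_one ρ
  unfold val
  rw [h1, h2]
  simp

/-- A linear combination of `LineHol` functions. -/
theorem lineHol_comb {P : Type} [NormedAddCommGroup P] [NormedSpace ℂ P] {J : Type} [Fintype J]
    (f : J → P → ℂ) (c : J → ℂ) (hf : ∀ j, LineHol (f j)) :
    LineHol (fun x => ∑ j, f j x * c j) := by
  refine ⟨?_, ?_⟩
  · exact continuous_finsetSum _ (fun j _ => (hf j).1.mul continuous_const)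
  · intro k k'
    have h1 : (fun s : ℂ => ∑ j, f j (k + s • k') * c j) =
        fun s => ∑ j ∈ Finset.univ, (fun s : ℂ => f j (k + s • k') * c j) s := rfl
    rw [h1]
    exact Differentiable.fun_sum (fun j _ => ((hf j).2 k k').mul_const _)

end KZX

/-- Monodromy representation of the braid group. -/
def KZ (hN : ∃ s ∈ N, IsRefl s) (ρ : N →* Matrix ι ι ℂ) (k : Idx N → ℂ) :
    Braid N v₀ →* Matrix ι ι ℂ where
  toFun := Quotient.lift (KZX.val hN ρ k) (KZX.val_rel hN ρ k)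
  map_one' := KZX.val_one hN ρ k
  map_mul' a b := by
    induction a using Quotient.inductionOn with
    | h a =>
      induction b using Quotient.inductionOn with
      | h b => exact KZX.val_mul hN ρ k a b

theorem KZ_mk (ρ : N →* Matrix ι ι ℂ) (k : Idx N → ℂ) (a : BPath N v₀) :
    KZ hN ρ k (Quotient.mk _ a : Braid N v₀) = (PP hN ρ k a.f)⁻¹ * ρ a.g := rfl

theorem KZ_zero (ρ : N →* Matrix ι ι ℂ) (b : Braid N v₀) :
    KZ hN ρ 0 b = ρ (Braid.proj b) := by
  induction b using Quotient.inductionOn with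
  | h a =>
    rw [KZ_mk, PP_zero]
    have h1 : (Braid.proj (Quotient.mk _ a : Braid N v₀)) = a.g := rfl
    rw [h1]
    simp

theorem KZ_lineHol (ρ : N →* Matrix ι ι ℂ) (b : Braid N v₀) (p q : ι) :
    LineHol (fun k => KZ hN ρ k b p q) := by
  induction b using Quotient.inductionOn with
  | h a =>
    have h1 : (fun k => KZ hN ρ k (Quotient.mk _ a : Braid N v₀) p q) =
        fun k => ∑ j, (PP hN ρ k a.f)⁻¹ p j * ρ a.g j q := by
      funext k
      rw [KZ_mk, Matrix.mul_apply]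
    rw [h1]
    exact KZX.lineHol_comb (fun j k => (PP hN ρ k a.f)⁻¹ p j) (fun j => ρ a.g j q)
      (fun j => (PP_lineHol hN ρ a.f p j).2)

theorem KZ_intertwine {ι' : Type} [Fintype ι'] [DecidableEq ι'] (ρ : N →* Matrix ι ι ℂ)
    (ρ' : N →* Matrix ι' ι' ℂ) (k : Idx N → ℂ) (P : Matrix ι' ι ℂ)
    (h : ∀ g, P * ρ g = ρ' g * P) (b : Braid N v₀) :
    P * KZ hN ρ k b = KZ hN ρ' k b * P := by
  induction b using Quotient.inductionOn with
  | h a =>
    rw [KZ_mk, KZ_mk]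
    have h1 := PP_intertwine hN ρ ρ' k P h a.f
    have hu := (Matrix.isUnit_iff_isUnit_det _).mp (PP_unit hN ρ k a.f)
    have hu' := (Matrix.isUnit_iff_isUnit_det _).mp (PP_unit hN ρ' k a.f)
    have h2 : P * (PP hN ρ k a.f)⁻¹ = (PP hN ρ' k a.f)⁻¹ * P := by
      calc P * (PP hN ρ k a.f)⁻¹
          = ((PP hN ρ' k a.f)⁻¹ * PP hN ρ' k a.f) * (P * (PP hN ρ k a.f)⁻¹) := by
            rw [Matrix.nonsing_inv_mul _ hu', Matrix.one_mul]
        _ = (PP hN ρ' k a.f)⁻¹ * ((PP hN ρ' k a.f * P) * (PP hN ρ k a.f)⁻¹) := by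
            simp only [Matrix.mul_assoc]
        _ = (PP hN ρ' k a.f)⁻¹ * P := by
            rw [← h1, Matrix.mul_assoc P, Matrix.mul_nonsing_inv _ hu, Matrix.mul_one]
    rw [← Matrix.mul_assoc, h2, Matrix.mul_assoc, h, ← Matrix.mul_assoc]

end

end Pool.Agent.CMFn
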