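import Pool.Agent.CMFn.GRep
import Pool.Agent.CMF.GS3b
import Pool.Agent.CMF.G7a
import Pool.Agent.CMF.I2
import Pool.Agent.CMFn.KZ

/-! Project CMFn (every rank), glue G7c: the representations `P κ` of the generic Hecke algebra: entries holomorphic
in `κ`, values at `κ = 0`. -/

namespace Pool.Agent.CMFn

open Matrix Pool.Agent.CMF

noncomputable section

namespace G4

open G1

/-- Induction on the elements of the Hecke algebra. -/
theorem hk_induction {G : Type} [Group G] {n : ℕ} {V : G → Matrix (Fin n) (Fin n) ℂ}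
    (hV : CMFP.IsRep V) {v₀ : Fin n → ℂ} (hv₀ : CMFP.Reg V v₀) {Z : Type} [CommRing Z]
    [Algebra Z ℂ] {R : Type} [CommRing R] [Algebra Z R] (u : CMFP.Idx V → R)
    (p : CMFP.Hk Z V v₀ u → Prop) (h0 : p 0) (hT : ∀ b, p (CMFP.hT Z u b))
    (hadd : ∀ x y, p x → p y → p (x + y)) (hsmul : ∀ (a : R) x, p x → p (a • x)) (h) : p h := by
  have h1 : h ∈ Submodule.span R (Set.range fun b : CMFP.BP V v₀ => CMFP.hT Z u b) := by
    rw [CMFG.G3bX.span_hT' Z u hV hv₀]
    trivial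
  refine Submodule.span_induction (p := fun x _ => p x) ?_ h0 ?_ ?_ h1
  · rintro _ ⟨b, rfl⟩
    exact hT b
  · intro x y _ _ hx hy
    exact hadd x y hx hy
  · intro a x _ hx
    exact hsmul a x hx

variable {r : ℕ} {G : Type} [Group G] {V : G → Matrix (Fin r) (Fin r) ℂ} (hV : CMFP.IsRep V)
  (hi : Function.Injective V)

lemma evLaur_zero {Z : Type} [CommRing Z] [Algebra Z ℂ] {ι : Type} (M : ℕ)
    (a : CMFP.Laur Z ι) : evLaur Z M (0 : ι → ℂ) a = algebraMap Z ℂ (CMFP.atOne Z a) := by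
  show AddMonoidAlgebra.lift Z ℂ (ι →₀ ℤ) (expChar M 0) a =
    algebraMap Z ℂ (AddMonoidAlgebra.lift Z Z (ι →₀ ℤ) 1 a)
  have h2 : ∀ a : AddMonoidAlgebra Z (ι →₀ ℤ),
      AddMonoidAlgebra.lift Z ℂ (ι →₀ ℤ) (expChar M (0 : ι → ℂ)) a =
      algebraMap Z ℂ (AddMonoidAlgebra.lift Z Z (ι →₀ ℤ) 1 a) := by
    intro a
    induction a using AddMonoidAlgebra.induction_linear with
    | zero => simp
    | add f g hf hg => rw [map_add, map_add, map_add, hf, hg]
    | single a z =>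
      rw [AddMonoidAlgebra.lift_single, AddMonoidAlgebra.lift_single]
      have h3 : expChar M (0 : ι → ℂ) (Multiplicative.ofAdd a) = 1 := by
        show Complex.exp (-(2 * Real.pi * Complex.I / M) * pairC a (0 : ι → ℂ)) = 1
        simp [pairC, pair]
      rw [h3, MonoidHom.one_apply, Algebra.smul_def, mul_one, smul_eq_mul, mul_one]
  exact h2 a

lemma kN_zero : kN hV hi (0 : CMFP.Idx V → ℂ) = 0 := rfl

/-- `κ ↦ k` as a linear map. -/
def kLin : (CMFP.Idx V → ℂ) →ₗ[ℂ] (Idx (img hV) → ℂ) where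
  toFun := kN hV hi
  map_add' _ _ := rfl
  map_smul' _ _ := rfl

variable [Fintype G] {d : ℕ} (ρ : G → Matrix (Fin d) (Fin d) ℂ) (hρ : CMFP.IsRep ρ)
    (hN : ∃ s ∈ img hV, IsRefl s) {v₀ : Fin r → ℂ} (hv₀ : CMFP.Reg V v₀) {v : VReg (img hV)}
    (Φ : CMFP.BP V v₀ → Braid (img hV) v) (Z : Type) [CommRing Z] [Algebra Z ℂ]
    (P : (CMFP.Idx V → ℂ) → CMFP.Hk Z V v₀ (CMFP.var Z) →+* Matrix (Fin d) (Fin d) ℂ)
    (hP : ∀ κ (a : CMFP.Laur Z (CMFP.Idx V)) (h : CMFP.Hk Z V v₀ (CMFP.var Z)),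
      P κ (a • h) = evLaur Z (CMFP.mu Z) κ a • P κ h)
    (hP' : ∀ κ b, P κ (CMFP.hT Z (CMFP.var Z) b) =
      KZ hN (repN hV hi ρ hρ) (kN hV hi κ) (Φ b))

include hv₀ hP hP' in
/-- The entries are entire functions of the parameters. -/
theorem rho_hol [Fintype (CMFP.Idx V)] [IsDomain Z] (h : CMFP.Hk Z V v₀ (CMFP.var Z))
    (p q : Fin d) : LineHol (fun κ : CMFP.Idx V → ℂ => P κ h p q) := by
  refine hk_induction hV hv₀ (CMFP.var Z)
    (fun h => LineHol (fun κ : CMFP.Idx V → ℂ => P κ h p q)) ?_ ?_ ?_ ?_ h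
  · have : (fun κ : CMFP.Idx V → ℂ => P κ 0 p q) = fun _ => 0 := by
      funext κ
      rw [map_zero, Matrix.zero_apply]
    rw [this]
    exact LineHol.const 0
  · intro b
    have h1 := (KZ_lineHol hN (repN hV hi ρ hρ) (Φ b) p q).comp_affine
      (LinearMap.toContinuousLinearMap (kLin hV hi)) 0
    have h2 : (fun κ : CMFP.Idx V → ℂ => P κ (CMFP.hT Z (CMFP.var Z) b) p q) =
        fun κ => KZ hN (repN hV hi ρ hρ)
          (LinearMap.toContinuousLinearMap (kLin hV hi) κ + 0) (Φ b) p q := by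
      funext κ
      rw [hP', add_zero]
      rfl
    rw [h2]
    exact h1
  · intro x y hx hy
    have : (fun κ : CMFP.Idx V → ℂ => P κ (x + y) p q) =
        fun κ => P κ x p q + P κ y p q := by
      funext κ
      rw [map_add, Matrix.add_apply]
    rw [this]
    exact hx.add hy
  · intro a x hx
    have : (fun κ : CMFP.Idx V → ℂ => P κ (a • x) p q) =
        fun κ => evL Z (CMFP.mu Z) κ a * P κ x p q := by
      funext κ
      rw [hP, Matrix.smul_apply, smul_eq_mul]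
      rfl
    rw [this]
    exact (evL_hol (Z := Z) (ι := CMFP.Idx V) a).mul hx

include hP' in
/-- At `κ = 0` the braids act through `G`. -/
theorem rho_zero (hproj : ∀ b, Braid.proj (Φ b) = iso hV hi b.g) (b : CMFP.BP V v₀) :
    P 0 (CMFP.hT Z (CMFP.var Z) b) = ρ b.g := by
  rw [hP', kN_zero, KZ_zero, hproj, repN_iso]

include hv₀ hP hP' in
/-- The character at `κ = 0`. -/
theorem rho_tr0 (hproj : ∀ b, Braid.proj (Φ b) = iso hV hi b.g)
    (X : CMFP.Hk Z V v₀ (CMFP.var Z) →ₗ[CMFP.Laur Z (CMFP.Idx V)] CMFP.Laur Z (CMFP.Idx V))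
    (hX : ∀ b, algebraMap Z ℂ (CMFP.atOne Z (X (CMFP.hT Z (CMFP.var Z) b))) = (ρ b.g).trace)
    (h : CMFP.Hk Z V v₀ (CMFP.var Z)) :
    (P 0 h).trace = evLaur Z (CMFP.mu Z) 0 (X h) := by
  refine hk_induction hV hv₀ (CMFP.var Z)
    (fun h => (P 0 h).trace = evLaur Z (CMFP.mu Z) 0 (X h)) ?_ ?_ ?_ ?_ h
  · rw [map_zero, map_zero, map_zero, Matrix.trace_zero]
  · intro b
    rw [rho_zero hV hi ρ hρ hN Φ Z P hP' hproj b, evLaur_zero, hX]
  · intro x y hx hy
    rw [map_add, map_add, map_add, Matrix.trace_add, hx, hy]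
  · intro a x hx
    rw [hP, map_smul, Matrix.trace_smul, hx, smul_eq_mul, smul_eq_mul, map_mul]

end G4

end

end Pool.Agent.CMFn
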