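import Pool.Agent.CMFn.DDefs

/-! Project CMF, every rank, module DunA: geometry of reflections. -/

namespace Pool.Agent.CMFn

open Matrix

noncomputable section

namespace DunAX

variable {r : ℕ}

/-- A matrix of rank one. -/
lemma exists_vecMulVec (M : Matrix (Fin r) (Fin r) ℂ) (h : M.rank = 1) :
    ∃ ν a : Fin r → ℂ, ν ≠ 0 ∧ a ≠ 0 ∧ M = vecMulVec ν a := by
  have h1 : Module.finrank ℂ (LinearMap.range M.mulVecLin) = 1 := h
  obtain ⟨⟨ν, hν⟩, hν0, hs⟩ := finrank_eq_one_iff'.1 h1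
  have hs' : ∀ j : Fin r, ∃ c : ℂ, c • ν = M *ᵥ Pi.single j 1 := by
    intro j
    obtain ⟨c, hc⟩ := hs ⟨M *ᵥ Pi.single j 1, ⟨Pi.single j 1, rfl⟩⟩
    exact ⟨c, congrArg Subtype.val hc⟩
  choose c hc using hs'
  have hM : M = vecMulVec ν c := by
    ext i j
    have h2 := congrFun (hc j) i
    rw [Matrix.mulVec_single_one, Pi.smul_apply, smul_eq_mul] at h2
    rw [vecMulVec_apply, mul_comm]
    exact h2.symm
  refine ⟨ν, c, ?_, ?_, hM⟩
  · rintro rfl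
    exact hν0 rfl
  · rintro rfl
    rw [hM] at h
    rw [vecMulVec_zero, Matrix.rank_zero] at h
    exact zero_ne_one h

lemma vecMulVec_mulVec' (ν a v : Fin r → ℂ) : vecMulVec ν a *ᵥ v = (a ⬝ᵥ v) • ν := by
  funext i
  rw [Pi.smul_apply, smul_eq_mul]
  show (fun j => ν i * a j) ⬝ᵥ v = _
  unfold dotProduct
  rw [Finset.sum_mul]
  exact Finset.sum_congr rfl fun j _ => by ring

/-- The determinant of `1 + ν ⊗ a`. -/
lemma det_one_add_vec (ν a : Fin r → ℂ) : (1 + vecMulVec ν a).det = 1 + a ⬝ᵥ ν := by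
  rw [Matrix.vecMulVec_eq Unit, Matrix.det_one_add_replicateCol_mul_replicateRow]

lemma mem_fixL {g : GL (Fin r) ℂ} {v : Fin r → ℂ} : v ∈ fixL g ↔ g.1 *ᵥ v = v := by
  show Matrix.toLin' (g.1 - 1) v = 0 ↔ _
  rw [Matrix.toLin'_apply, Matrix.sub_mulVec, Matrix.one_mulVec, sub_eq_zero]

lemma exists_form (M : Matrix (Fin r) (Fin r) ℂ) (h : M.rank = 1) :
    ∃ a : Fin r → ℂ, a ≠ 0 ∧ ∀ v, M *ᵥ v = 0 ↔ a ⬝ᵥ v = 0 := by
  obtain ⟨ν, a, hν, ha, rfl⟩ := exists_vecMulVec M h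
  refine ⟨a, ha, fun v => ?_⟩
  rw [vecMulVec_mulVec', smul_eq_zero]
  exact ⟨fun h => h.resolve_right hν, Or.inl⟩

lemma exists_lf (H : Submodule ℂ (Fin r → ℂ)) (s : GL (Fin r) ℂ) (hs : IsRefl s)
    (hH : H = fixL s) : ∃ a : Fin r → ℂ, a ≠ 0 ∧ ∀ v, v ∈ H ↔ a ⬝ᵥ v = 0 := by
  obtain ⟨a, ha, hav⟩ := exists_form (s.1 - 1) hs
  refine ⟨a, ha, ?_⟩
  intro v
  rw [← hav v, hH]
  show Matrix.toLin' (s.1 - 1) v = 0 ↔ _
  rw [Matrix.toLin'_apply]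

/-- A vector on which a nonzero form has the value `1`. -/
lemma exists_one (a : Fin r → ℂ) (ha : a ≠ 0) : ∃ p : Fin r → ℂ, a ⬝ᵥ p = 1 := by
  obtain ⟨i, hi⟩ := Function.ne_iff.1 ha
  refine ⟨Pi.single i (a i)⁻¹, ?_⟩
  rw [dotProduct_single]
  exact mul_inv_cancel₀ hi

/-- A matrix fixing the hyperplane `a = 0` pointwise is `1 + ν ⊗ a`. -/
lemma exists_vec (a : Fin r → ℂ) (ha : a ≠ 0) (W : Matrix (Fin r) (Fin r) ℂ)
    (hw : ∀ v, a ⬝ᵥ v = 0 → W *ᵥ v = v) : ∃ ν : Fin r → ℂ, W = 1 + vecMulVec ν a := by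
  obtain ⟨p, hp⟩ := exists_one a ha
  refine ⟨W *ᵥ p - p, ?_⟩
  apply Matrix.ext_of_mulVec_single
  intro j
  have h1 : a ⬝ᵥ (Pi.single j 1 - (a ⬝ᵥ Pi.single j 1) • p) = 0 := by
    rw [dotProduct_sub, dotProduct_smul, hp, smul_eq_mul, mul_one, sub_self]
  have h2 := hw _ h1
  rw [Matrix.mulVec_sub, Matrix.mulVec_smul] at h2
  rw [Matrix.add_mulVec, Matrix.one_mulVec, vecMulVec_mulVec', smul_sub]
  have h3 : W *ᵥ Pi.single j 1 = W *ᵥ Pi.single j 1 - (a ⬝ᵥ Pi.single j 1) • W *ᵥ p +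
      (a ⬝ᵥ Pi.single j 1) • W *ᵥ p := by abel
  rw [h3, h2]
  abel

/-- Key computation: if `w` fixes the hyperplane `a = 0` pointwise then `a ∘ w = det w * a`. -/
lemma form_mul (a : Fin r → ℂ) (ha : a ≠ 0) (W : Matrix (Fin r) (Fin r) ℂ)
    (hw : ∀ v, a ⬝ᵥ v = 0 → W *ᵥ v = v) (v : Fin r → ℂ) :
    a ⬝ᵥ (W *ᵥ v) = W.det * (a ⬝ᵥ v) := by
  obtain ⟨ν, rfl⟩ := exists_vec a ha W hw
  rw [det_one_add_vec, Matrix.add_mulVec, Matrix.one_mulVec, vecMulVec_mulVec', dotProduct_add,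
    dotProduct_smul, smul_eq_mul]
  ring

end DunAX

open DunAX

variable {r : ℕ} {N : SG r} [Fintype N]

omit [Fintype N] in
/-- The fixed space of a reflection is a hyperplane, cut out by `lf`. -/
theorem lf_spec (H : Arr N) : lf H.1 ≠ 0 ∧ ∀ v, v ∈ H.1 ↔ lf H.1 ⬝ᵥ v = 0 := by
  obtain ⟨H, s, hsN, hs, hH⟩ := H
  have h := exists_lf H s hs hH
  show lf H ≠ 0 ∧ ∀ v, v ∈ H ↔ lf H ⬝ᵥ v = 0
  unfold lf
  rw [dif_pos h]
  exact h.choose_spec

omit [Fintype N] in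
/-- `α_H(w v) = det(w) α_H(v)` for `w` fixing `H` pointwise. -/
theorem lf_mul (H : Arr N) (w : N) (hw : ∀ v ∈ H.1, w.1.1 *ᵥ v = v) (v : Fin r → ℂ) :
    lf H.1 ⬝ᵥ (w.1.1 *ᵥ v) = w.1.1.det * (lf H.1 ⬝ᵥ v) := by
  have h := lf_spec H
  exact form_mul _ h.1 _ (fun v hv => hw v ((h.2 v).2 hv)) v

omit [Fintype N] in
/-- An element fixing `H` pointwise is `1 + ν ⊗ α_H`, with `det = 1 + α_H(ν)`. -/
theorem exists_root (H : Arr N) (w : N) (hw : ∀ v ∈ H.1, w.1.1 *ᵥ v = v) :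
    ∃ ν : Fin r → ℂ, (∀ v, w.1.1 *ᵥ v = v + (lf H.1 ⬝ᵥ v) • ν) ∧
      w.1.1.det = 1 + lf H.1 ⬝ᵥ ν := by
  have h := lf_spec H
  obtain ⟨ν, hν⟩ := exists_vec (lf H.1) h.1 w.1.1 (fun v hv => hw v ((h.2 v).2 hv))
  refine ⟨ν, fun v => ?_, ?_⟩
  · rw [hν, Matrix.add_mulVec, Matrix.one_mulVec, vecMulVec_mulVec']
  · rw [hν, det_one_add_vec]

namespace DunAX

lemma gl_ext {g h : GL (Fin r) ℂ} (e : g.1 = h.1) : g = h := Units.ext e

/-- An element of a finite subgroup of determinant one which fixes a hyperplane is trivial. -/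
lemma eq_one_of_fix {N : SG r} [Fintype N] (g : N) (a : Fin r → ℂ) (ha : a ≠ 0)
    (hf : ∀ v, a ⬝ᵥ v = 0 → g.1.1 *ᵥ v = v) (hd : g.1.1.det = 1) : g = 1 := by
  obtain ⟨ν, hν⟩ := exists_vec a ha g.1.1 hf
  have hs : a ⬝ᵥ ν = 0 := by
    rw [hν, det_one_add_vec] at hd
    exact add_eq_left.1 hd
  have hsq : vecMulVec ν a * vecMulVec ν a = 0 := by
    apply Matrix.ext_of_mulVec_single
    intro j
    rw [← Matrix.mulVec_mulVec, vecMulVec_mulVec', vecMulVec_mulVec', dotProduct_smul, hs,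
      smul_zero, zero_smul, Matrix.zero_mulVec]
  have hpow : ∀ n : ℕ, g.1.1 ^ n = 1 + (n : ℂ) • vecMulVec ν a := by
    intro n
    induction n with
    | zero => simp
    | succ n ih =>
      rw [pow_succ, ih, hν]
      rw [mul_add, mul_one, add_mul, one_mul, smul_mul_assoc, hsq, smul_zero, add_zero,
        Nat.cast_succ, add_smul, one_smul, add_assoc]
  have hord : g ^ Fintype.card N = 1 := pow_card_eq_one
  have hc : ∀ n : ℕ, (g ^ n).1.1 = g.1.1 ^ n := by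
    intro n
    simp
  have h1 : g.1.1 ^ Fintype.card N = 1 := by
    rw [← hc, hord]
    rfl
  rw [hpow] at h1
  have h2 : (Fintype.card N : ℂ) • vecMulVec ν a = 0 := by
    simpa using h1
  have h3 : (Fintype.card N : ℂ) ≠ 0 := by
    exact_mod_cast Fintype.card_ne_zero
  have h4 : vecMulVec ν a = 0 := (smul_eq_zero.1 h2).resolve_left h3
  apply Subtype.ext
  apply gl_ext
  show g.1.1 = 1
  rw [hν, h4, add_zero]

end DunAX

/-- Elements with the same fixed hyperplane and the same determinant coincide. -/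
theorem refl_ext (H : Arr N) (w w' : N) (hw : ∀ v ∈ H.1, w.1.1 *ᵥ v = v)
    (hw' : ∀ v ∈ H.1, w'.1.1 *ᵥ v = v) (h : w.1.1.det = w'.1.1.det) : w = w' := by
  have hs := lf_spec H
  have e : (w'⁻¹).1.1 * w'.1.1 = 1 := by
    have h3 : w'⁻¹ * w' = 1 := inv_mul_cancel w'
    exact congrArg (fun z : N => z.1.1) h3
  have key : w'⁻¹ * w = 1 := by
    apply eq_one_of_fix (w'⁻¹ * w) (lf H.1) hs.1
    · intro v hv
      have hu : v ∈ H.1 := (hs.2 v).2 hv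
      show ((w'⁻¹).1.1 * w.1.1) *ᵥ _ = _
      rw [← Matrix.mulVec_mulVec, hw _ hu]
      have := hw' _ hu
      conv_lhs => rw [← this]
      rw [Matrix.mulVec_mulVec, e, Matrix.one_mulVec]
    · show ((w'⁻¹).1.1 * w.1.1).det = 1
      rw [Matrix.det_mul, h, ← Matrix.det_mul, e, Matrix.det_one]
  exact (inv_mul_eq_one.1 key).symm

omit [Fintype N] in
theorem vreg_iff (v : Fin r → ℂ) : (∀ g ∈ N, IsRefl g → g.1 *ᵥ v ≠ v) ↔
    ∀ H : Arr N, lf H.1 ⬝ᵥ v ≠ 0 := by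
  constructor
  · intro h H h0
    have hm : v ∈ H.1 := ((lf_spec H).2 v).2 h0
    obtain ⟨H, s, hsN, hs, hH⟩ := H
    have hm' : v ∈ fixL s := by rw [← hH]; exact hm
    exact h s hsN hs (mem_fixL.1 hm')
  · intro h g hg hr h0
    exact h ⟨fixL g, g, hg, hr, rfl⟩ (((lf_spec (N := N) ⟨fixL g, g, hg, hr, rfl⟩).2 v).1
      (mem_fixL.2 h0))

end

end Pool.Agent.CMFn
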