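import Pool.Agent.CMF.I7

/-! Project CMF in rank `r` (MP_4af2a6_al), module Easy (helper77): Theorem S at parameters where
the exponents of the full twist are separated. -/

set_option linter.unusedSectionVars false

namespace Pool.Agent.CMF

open Matrix Polynomial

noncomputable section

variable {Z : Type} [CommRing Z] [IsDomain Z] [Algebra Z ℂ] {ι : Type} {n : ℕ}

/-- The affine map `x ↦ Σ x_j B_j + r l`. -/
def affMap [Fintype ι] (B : Fin n → ι → ℂ) : (Fin n → ℂ) →L[ℂ] (ι → ℂ) :=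
  ∑ j, (ContinuousLinearMap.proj (R := ℂ) (φ := fun _ : Fin n => ℂ) j).smulRight (B j)

lemma affMap_apply [Fintype ι] (B : Fin n → ι → ℂ) (x : Fin n → ℂ) :
    affMap B x = ∑ j, x j • B j := by
  simp [affMap]

lemma pairC_sub' [Fintype ι] (a b : ι →₀ ℤ) (κ : ι → ℂ) :
    pairC (a - b) κ = pairC a κ - pairC b κ := by
  rw [pairC_eq_sum, pairC_eq_sum, pairC_eq_sum, ← Finset.sum_sub_distrib]
  refine Finset.sum_congr rfl fun i _ => ?_
  simp only [Finsupp.coe_sub, Pi.sub_apply]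
  push_cast
  ring

/-- A value on the line at which `v^a - v^{a'}` does not vanish. -/
lemma exists_ne [Fintype ι] {M : ℕ} (hM : 0 < M) (a a' : ι →₀ ℤ) (κ₀ κ₁ : ι → ℂ)
    (h : pairC (a - a') κ₀ ≠ 0) :
    ∃ t : ℂ, evL Z M (t • κ₀ + κ₁) (mon a - mon a') ≠ 0 := by
  set c : ℂ := -(2 * Real.pi * Complex.I / M) with hc
  have hc0 : c ≠ 0 := by
    have hpi : (Real.pi : ℂ) ≠ 0 := Complex.ofReal_ne_zero.2 Real.pi_ne_zero
    have hM' : (M : ℂ) ≠ 0 := by exact_mod_cast hM.ne'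
    rw [hc]
    exact neg_ne_zero.2 (div_ne_zero (mul_ne_zero (mul_ne_zero two_ne_zero hpi)
      Complex.I_ne_zero) hM')
  refine ⟨(Real.pi * Complex.I / c - pairC (a - a') κ₁) / pairC (a - a') κ₀, ?_⟩
  set t : ℂ := (Real.pi * Complex.I / c - pairC (a - a') κ₁) / pairC (a - a') κ₀ with ht
  rw [map_sub, evL_mon, evL_mon, ← hc]
  intro h0
  have h1 : c * pairC a (t • κ₀ + κ₁) = c * pairC a' (t • κ₀ + κ₁) +
      c * pairC (a - a') (t • κ₀ + κ₁) := by
    rw [pairC_sub']; ring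
  have h2 : c * pairC (a - a') (t • κ₀ + κ₁) = Real.pi * Complex.I := by
    rw [pairC_add, pairC_smul, ht]
    field_simp
    ring
  rw [h1, h2, Complex.exp_add, Complex.exp_pi_mul_I] at h0
  have h3 : Complex.exp (c * pairC a' (t • κ₀ + κ₁)) ≠ 0 := Complex.exp_ne_zero _
  apply h3
  linear_combination (-(1 : ℂ) / 2) * h0

/-- Theorem S is trivial when the exponents of the full twist are separated at `κ₀`. -/
theorem thmS_easy [Fintype ι] {D : HData Z ι} {M : ℕ} (hM : 0 < M) (Q : KZData D M)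
    (F : D.Λ → Prop) [DecidablePred F] (hF : ∀ l m, Q.a l = Q.a m → (F l ↔ F m)) (κ₀ : ι → ℂ)
    (h0 : ∀ l m, Q.a l ≠ Q.a m → pairC (Q.a l - Q.a m) κ₀ ≠ 0) : ThmS D Q F κ₀ := by
  classical
  intro n B x₀ hx₀ l r
  -- the function
  have hf : LineHol (fun x : Fin n → ℂ => evL Z M ((∑ j, x j • B j) + r • l) Q.Bden) := by
    have := (evL_hol (Z := Z) (M := M) Q.Bden).comp_affine (affMap B) (r • l)
    simpa only [affMap_apply] using this
  refine ⟨fun _ x => evL Z M ((∑ j, x j • B j) + r • l) Q.Bden, fun _ => hf, fun _ => ?_, ?_⟩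
  · -- non-vanishing
    have hne : ∀ p : {p // p ∈ Q.T.offDiag}, ∃ t : ℂ,
        evL Z M (t • κ₀ + r • l) (mon p.1.1 - mon p.1.2) ≠ 0 := by
      rintro ⟨⟨a, a'⟩, hp⟩
      rw [Finset.mem_offDiag] at hp
      obtain ⟨ha, ha', hne⟩ := hp
      simp only [KZData.T, Finset.mem_image, Finset.mem_univ, true_and] at ha ha'
      obtain ⟨l1, rfl⟩ := ha
      obtain ⟨l2, rfl⟩ := ha'
      exact exists_ne hM _ _ _ _ (h0 l1 l2 hne)
    have hhol : ∀ p : {p // p ∈ Q.T.offDiag}, LineHol (fun t : ℂ =>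
        evL Z M (t • κ₀ + r • l) (mon p.1.1 - mon p.1.2)) := by
      intro p
      exact (evL_hol (Z := Z) (M := M) (mon p.1.1 - mon p.1.2)).comp_affine
        ((ContinuousLinearMap.id ℂ ℂ).smulRight κ₀) (r • l)
    obtain ⟨t, ht⟩ := (dense_generic _ hhol hne).nonempty
    refine ⟨fun j => t * x₀ j, ?_⟩
    have e1 : (∑ j, (t * x₀ j) • B j) = t • κ₀ := by
      rw [← hx₀, Finset.smul_sum]
      exact Finset.sum_congr rfl fun j _ => mul_smul _ _ _
    simp only [e1]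
    have e2 : Q.Bden = ∏ a ∈ Q.T, ∏ a' ∈ Q.T.erase a, (mon a - mon a' : Lau Z ι) := rfl
    rw [e2, map_prod, Finset.prod_ne_zero_iff]
    intro a ha
    rw [map_prod, Finset.prod_ne_zero_iff]
    intro a' ha'
    rw [Finset.mem_erase] at ha'
    exact ht ⟨(a, a'), Finset.mem_offDiag.2 ⟨ha, ha'.2, Ne.symm ha'.1⟩⟩
  · intro x hx
    set κ : ι → ℂ := (∑ j, x j • B j) + r • l with hκ
    have hx0 : evL Z M κ Q.Bden ≠ 0 := hx 0
    refine ⟨fun i => (evL Z M κ Q.Bden)⁻¹ * evL Z M κ (D.b.repr (Q.XF F) i), fun l' => ?_⟩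
    have h1 := Q.ρ_XF F hF κ l'
    rw [I5X.ρ_eq Q κ l' (Q.XF F)] at h1
    calc ∑ i, ((evL Z M κ Q.Bden)⁻¹ * evL Z M κ (D.b.repr (Q.XF F) i)) • Q.ρ κ l' (D.b i)
        = (evL Z M κ Q.Bden)⁻¹ • ∑ i, evL Z M κ (D.b.repr (Q.XF F) i) • Q.ρ κ l' (D.b i) := by
          rw [Finset.smul_sum]
          exact Finset.sum_congr rfl fun i _ => mul_smul _ _ _
      _ = _ := by
          rw [h1]
          split_ifs
          · rw [smul_smul, inv_mul_cancel₀ hx0, one_smul]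
          · rw [smul_zero]

end

end Pool.Agent.CMF
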