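import Pool.Agent.CMFn.I8g
import Pool.Agent.CMFn.Easy

/-! Project CMF in rank `r` (MP_4af2a6_al), module IsInt (helper77): sets of characters whose
idempotent becomes integral after multiplication by a product of differences of monomials. -/

set_option linter.unusedSectionVars false

namespace Pool.Agent.CMF

open Matrix Polynomial

noncomputable section

variable {Z : Type} [CommRing Z] [IsDomain Z] [Algebra Z ℂ] {ι : Type}

lemma dlt_sum {J J' : Type} [Fintype J] [Fintype J'] (P : J → (ι →₀ ℤ) × (ι →₀ ℤ))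
    (P' : J' → (ι →₀ ℤ) × (ι →₀ ℤ)) :
    dlt Z (Sum.elim P P') = dlt Z P * dlt Z P' := by
  simp [dlt, Fintype.prod_sum_type]

variable [Fintype ι] {D : HData Z ι} {M : ℕ} (Q : KZData D M)

/-- `X` acts as `δ` on the characters in `F` and as `0` on the others, where `δ` is a product of
differences `v^a - v^{a'}` with `a ≠ a'` and `C (a - a')`. -/
structure IntData (C : (ι →₀ ℤ) → Prop) (F : D.Λ → Prop) where
  J : Type
  [fin : Fintype J]
  P : J → (ι →₀ ℤ) × (ι →₀ ℤ)
  ne : ∀ j, (P j).1 ≠ (P j).2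
  cond : ∀ j, C ((P j).1 - (P j).2)
  X : D.H
  pos : ∀ κ l, F l → Q.ρ κ l X = evL Z M κ (dlt Z P) • 1
  neg : ∀ κ l, ¬ F l → Q.ρ κ l X = 0

attribute [instance] IntData.fin

/-- The set `F` is integral. -/
def IsInt (C : (ι →₀ ℤ) → Prop) (F : D.Λ → Prop) : Prop := Nonempty (IntData Q C F)

variable {Q} {C : (ι →₀ ℤ) → Prop} {F F' : D.Λ → Prop}

theorem IsInt.congr (h : IsInt Q C F) (hF : ∀ l, F l ↔ F' l) : IsInt Q C F' := by
  have : F = F' := funext fun l => propext (hF l)
  rwa [← this]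

theorem IsInt.mono {C' : (ι →₀ ℤ) → Prop} (h : IsInt Q C F) (hC : ∀ a, C a → C' a) :
    IsInt Q C' F := by
  obtain ⟨h⟩ := h
  exact ⟨{ h with cond := fun j => hC _ (h.cond j) }⟩

theorem IsInt.compl (h : IsInt Q C F) : IsInt Q C (fun l => ¬ F l) := by
  obtain ⟨h⟩ := h
  refine ⟨{ J := h.J, P := h.P, ne := h.ne, cond := h.cond, X := dlt Z h.P • 1 - h.X,
            pos := fun κ l hl => ?_, neg := fun κ l hl => ?_ }⟩
  · rw [map_sub, Q.ρ_smul, map_one, h.neg κ l hl, sub_zero]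
  · rw [map_sub, Q.ρ_smul, map_one, h.pos κ l (not_not.1 hl), sub_self]

theorem IsInt.inter (h : IsInt Q C F) (h' : IsInt Q C F') :
    IsInt Q C (fun l => F l ∧ F' l) := by
  obtain ⟨h⟩ := h
  obtain ⟨h'⟩ := h'
  refine ⟨{ J := h.J ⊕ h'.J, P := Sum.elim h.P h'.P, ne := ?_, cond := ?_, X := h.X * h'.X,
            pos := fun κ l hl => ?_, neg := fun κ l hl => ?_ }⟩
  · rintro (j | j)
    · exact h.ne j
    · exact h'.ne j
  · rintro (j | j)
    · exact h.cond j
    · exact h'.cond j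
  · rw [map_mul, h.pos κ l hl.1, h'.pos κ l hl.2, dlt_sum, map_mul, smul_mul_smul_comm, one_mul]
  · rw [map_mul]
    by_cases h1 : F l
    · rw [h'.neg κ l (fun h2 => hl ⟨h1, h2⟩), mul_zero]
    · rw [h.neg κ l h1, zero_mul]

theorem IsInt.union (h : IsInt Q C F) (h' : IsInt Q C F') :
    IsInt Q C (fun l => F l ∨ F' l) := by
  refine (h.compl.inter h'.compl).compl.congr fun l => ?_
  by_cases h1 : F l <;> by_cases h2 : F' l <;> simp [h1, h2]

theorem isInt_true : IsInt Q C (fun _ : D.Λ => True) :=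
  ⟨{ J := Empty, P := Empty.elim, ne := fun j => j.elim, cond := fun j => j.elim, X := 1,
     pos := fun κ l _ => by rw [map_one, dlt, Finset.univ_eq_empty, Finset.prod_empty, map_one,
       one_smul],
     neg := fun κ l h => absurd trivial h }⟩

theorem isInt_false : IsInt Q C (fun _ : D.Λ => False) :=
  (isInt_true (Q := Q) (C := C)).compl.congr fun l => by simp

/-- Finite unions. -/
theorem isInt_iUnion {I : Type} (s : Finset I) (G : I → D.Λ → Prop)
    (h : ∀ i ∈ s, IsInt Q C (G i)) : IsInt Q C (fun l => ∃ i ∈ s, G i l) := by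
  classical
  induction s using Finset.induction_on with
  | empty => exact isInt_false.congr fun l => by simp
  | insert a s _ ih =>
    refine ((h a (Finset.mem_insert_self a s)).union
      (ih fun i hi => h i (Finset.mem_insert_of_mem hi))).congr fun l => ?_
    simp

/-- A set is integral if it is a union of integral sets. -/
theorem isInt_of_cover (h : ∀ l, F l → ∃ G : D.Λ → Prop, G l ∧ (∀ l', G l' → F l') ∧
    IsInt Q C G) : IsInt Q C F := by
  classical
  choose! G h1 h2 h3 using h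
  refine (isInt_iUnion (Finset.univ.filter F) G fun i hi => h3 i (Finset.mem_filter.1 hi).2).congr
    fun l => ⟨?_, fun hl => ⟨l, Finset.mem_filter.2 ⟨Finset.mem_univ l, hl⟩, h1 l hl⟩⟩
  rintro ⟨i, hi, hl⟩
  exact h2 i (Finset.mem_filter.1 hi).2 l hl

open Classical in
/-- Unions of classes of the exponents of the full twist are integral. -/
theorem isInt_class (hF : ∀ l m, Q.a l = Q.a m → (F l ↔ F m))
    (hC : ∀ l m, Q.a l ≠ Q.a m → C (Q.a l - Q.a m)) : IsInt Q C F := by
  have hmem : ∀ a, a ∈ Q.T ↔ ∃ l, Q.a l = a := by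
    intro a
    simp [KZData.T]
  refine ⟨{ J := {p // p ∈ Q.T.offDiag}, P := fun p => p.1,
            ne := fun p => (Finset.mem_offDiag.1 p.2).2.2,
            cond := ?_, X := Q.XF F, pos := fun κ l hl => ?_, neg := fun κ l hl => ?_ }⟩
  · rintro ⟨⟨a, a'⟩, hp⟩
    obtain ⟨h1, h2, h3⟩ := Finset.mem_offDiag.1 hp
    obtain ⟨l, rfl⟩ := (hmem a).1 h1
    obtain ⟨m, rfl⟩ := (hmem a').1 h2
    exact hC l m h3
  · have hB : Q.Bden = dlt Z (fun p : {p // p ∈ Q.T.offDiag} => p.1) := by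
      have h2 : ∀ a ∈ Q.T, Q.P a =
          ∏ a' ∈ Q.T, if a ≠ a' then (mon a - mon a' : Lau Z ι) else 1 := by
        intro a _
        rw [KZData.P, ← Finset.prod_filter]
        apply Finset.prod_congr _ (fun _ _ => rfl)
        ext a'
        simp only [Finset.mem_erase, Finset.mem_filter]
        exact ⟨fun h => ⟨h.2, Ne.symm h.1⟩, fun h => ⟨Ne.symm h.2, h.1⟩⟩
      rw [KZData.Bden, Finset.prod_congr rfl h2,
        ← Finset.prod_product' Q.T Q.T (fun a a' => if a ≠ a' then (mon a - mon a' : Lau Z ι) else 1),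
        ← Finset.prod_filter, dlt, Finset.prod_coe_sort Q.T.offDiag
          (fun p => (mon p.1 - mon p.2 : Lau Z ι))]
      apply Finset.prod_congr _ (fun _ _ => rfl)
      ext p
      simp only [Finset.mem_filter, Finset.mem_product, Finset.mem_offDiag]
      tauto
    rw [Q.ρ_XF F hF, if_pos hl, hB]
  · rw [Q.ρ_XF F hF, if_neg hl]

/-- The block idempotent for an integral set. -/
theorem IsInt.final (h : IsInt Q C F) [DecidablePred F] (hZ : Countable Z)
    (hinj : Function.Injective (algebraMap Z ℂ)) (hM : 0 < M) (Φ : SchurFac D)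
    (κ₀ : ι → ℂ) (m : ι → ℤ) (hess : SameEss Φ κ₀ m) (hS : ThmS D Q F κ₀) :
    ∃ e : D.J → Oy Z,
      (∀ k, ∑ i, ∑ j, e i * e j * spec Z m (D.b.repr (D.b i * D.b j) k) = e k) ∧
      (∀ j k, ∑ i, e i * spec Z m (D.b.repr (D.b i * D.b j) k) =
        ∑ i, e i * spec Z m (D.b.repr (D.b j * D.b i) k)) ∧
      ∀ μ, ∑ i, e i * spec Z m (D.X μ (D.b i)) = if F μ then (D.d μ : Oy Z) else 0 := by
  obtain ⟨h⟩ := h
  refine HData.final_gen hZ hinj D hM Q Φ F h.P h.ne h.X (fun κ l => ?_) κ₀ m hess hS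
  split_ifs with hl
  · exact h.pos κ l hl
  · exact h.neg κ l hl

/-- Theorem S for an integral set whose denominators do not vanish at `κ₀`. -/
theorem IsInt.thmS {κ₀ : ι → ℂ} (h : IsInt Q (fun a => pairC a κ₀ ≠ 0) F) [DecidablePred F]
    (hM : 0 < M) : ThmS D Q F κ₀ := by
  classical
  obtain ⟨h⟩ := h
  intro n B x₀ hx₀ l r
  have hf : LineHol (fun x : Fin n → ℂ => evL Z M ((∑ j, x j • B j) + r • l) (dlt Z h.P)) := by
    have := (evL_hol (Z := Z) (M := M) (dlt Z h.P)).comp_affine (affMap B) (r • l)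
    simpa only [affMap_apply] using this
  refine ⟨fun _ x => evL Z M ((∑ j, x j • B j) + r • l) (dlt Z h.P), fun _ => hf,
    fun _ => ?_, ?_⟩
  · have hne : ∀ j : h.J, ∃ t : ℂ,
        evL Z M (t • κ₀ + r • l) (mon (h.P j).1 - mon (h.P j).2) ≠ 0 :=
      fun j => exists_ne hM _ _ _ _ (h.cond j)
    have hhol : ∀ j : h.J, LineHol (fun t : ℂ =>
        evL Z M (t • κ₀ + r • l) (mon (h.P j).1 - mon (h.P j).2)) := by
      intro j
      exact (evL_hol (Z := Z) (M := M) (mon (h.P j).1 - mon (h.P j).2)).comp_affine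
        ((ContinuousLinearMap.id ℂ ℂ).smulRight κ₀) (r • l)
    obtain ⟨t, ht⟩ := (dense_generic _ hhol hne).nonempty
    refine ⟨fun j => t * x₀ j, ?_⟩
    have e1 : (∑ j, (t * x₀ j) • B j) = t • κ₀ := by
      rw [← hx₀, Finset.smul_sum]
      exact Finset.sum_congr rfl fun j _ => mul_smul _ _ _
    simp only [e1]
    rw [dlt, map_prod, Finset.prod_ne_zero_iff]
    intro j _
    exact ht j
  · intro x hx
    set κ : ι → ℂ := (∑ j, x j • B j) + r • l with hκ
    have hx0 : evL Z M κ (dlt Z h.P) ≠ 0 := hx 0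
    refine ⟨fun i => (evL Z M κ (dlt Z h.P))⁻¹ * evL Z M κ (D.b.repr h.X i), fun l' => ?_⟩
    have h0 : Q.ρ κ l' h.X = if F l' then evL Z M κ (dlt Z h.P) • 1 else 0 := by
      split_ifs with hl
      · exact h.pos κ l' hl
      · exact h.neg κ l' hl
    rw [I5X.ρ_eq Q κ l' h.X] at h0
    calc ∑ i, ((evL Z M κ (dlt Z h.P))⁻¹ * evL Z M κ (D.b.repr h.X i)) • Q.ρ κ l' (D.b i)
        = (evL Z M κ (dlt Z h.P))⁻¹ • ∑ i, evL Z M κ (D.b.repr h.X i) • Q.ρ κ l' (D.b i) := by
          rw [Finset.smul_sum]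
          exact Finset.sum_congr rfl fun i _ => mul_smul _ _ _
      _ = _ := by
          rw [h0]
          split_ifs
          · rw [smul_smul, inv_mul_cancel₀ hx0, one_smul]
          · rw [smul_zero]

/-! ### Criteria -/

open Classical in
/-- Isolation of a single character by Bezout: elements `f_i` with character values `m_i δ_i` at
`l` and `0` elsewhere, the integers `m_i` being coprime. -/
theorem isInt_of_bezout (l : D.Λ) {I : Type} [Fintype I] (f : I → D.H) (m u : I → ℤ)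
    (J : I → Type) [∀ i, Fintype (J i)] (P : ∀ i, J i → (ι →₀ ℤ) × (ι →₀ ℤ))
    (hne : ∀ i j, (P i j).1 ≠ (P i j).2) (hC : ∀ i j, C ((P i j).1 - (P i j).2))
    (hf : ∀ i, D.X l (f i) = (m i : Lau Z ι) * dlt Z (P i))
    (hf' : ∀ i μ, μ ≠ l → D.X μ (f i) = 0) (hu : ∑ i, u i * m i = 1) :
    IsInt Q C (fun μ => μ = l) := by
  have hs : ∏ μ ∈ Finset.univ.erase l, D.s μ ≠ 0 :=
    Finset.prod_ne_zero_iff.2 fun μ _ => D.s_ne μ
  have h1 : ∀ i, D.s l * D.τ (f i) = (m i : Lau Z ι) * dlt Z (P i) := by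
    intro i
    apply mul_left_cancel₀ hs
    have h2 := D.schur (f i)
    rw [Finset.sum_eq_single l] at h2
    · rw [hf, ← Finset.prod_erase_mul _ _ (Finset.mem_univ l)] at h2
      rw [← h2]; ring
    · intro μ _ hμ
      rw [hf' i μ hμ, mul_zero]
    · intro h; exact absurd (Finset.mem_univ l) h
  refine ⟨{ J := Σ i, J i, P := fun p => P p.1 p.2, ne := fun p => hne p.1 p.2,
            cond := fun p => hC p.1 p.2,
            X := (∑ i, (u i : Lau Z ι) * D.τ (f i) *
              ∏ j ∈ Finset.univ.erase i, dlt Z (P j)) • D.C l,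
            pos := fun κ μ hμ => ?_, neg := fun κ μ hμ => ?_ }⟩
  · subst hμ
    rw [Q.ρ_smul, Q.ρ_C, if_pos rfl, smul_smul, ← map_mul]
    congr 2
    have h3 : dlt Z (fun p : Σ i, J i => P p.1 p.2) = ∏ i, dlt Z (P i) := by
      simp only [dlt]
      rw [Fintype.prod_sigma]
    rw [h3, Finset.sum_mul]
    have h4 : ∀ i, (u i : Lau Z ι) * D.τ (f i) *
        (∏ j ∈ Finset.univ.erase i, dlt Z (P j)) * D.s μ =
        ((u i * m i : ℤ) : Lau Z ι) * ∏ j, dlt Z (P j) := by
      intro i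
      rw [← Finset.mul_prod_erase _ _ (Finset.mem_univ i)]
      calc (u i : Lau Z ι) * D.τ (f i) * (∏ j ∈ Finset.univ.erase i, dlt Z (P j)) * D.s μ
          = (u i : Lau Z ι) * (D.s μ * D.τ (f i)) *
            (∏ j ∈ Finset.univ.erase i, dlt Z (P j)) := by ring
        _ = _ := by rw [h1 i]; push_cast; ring
    rw [Finset.sum_congr rfl fun i _ => h4 i, ← Finset.sum_mul, ← Int.cast_sum, hu, Int.cast_one,
      one_mul]
  · rw [Q.ρ_smul, Q.ρ_C, if_neg hμ, smul_zero]

open Classical in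
/-- Paths: elements `f_i` with sum `δ` on the set `E`, each of them being zero on `F` or on
`E ∖ F`. -/
theorem isInt_of_paths {E : D.Λ → Prop} (hE : IsInt Q C E) (hFE : ∀ l, F l → E l) {I : Type}
    [Fintype I] (f : I → D.H) {J : Type} [Fintype J] (P : J → (ι →₀ ℤ) × (ι →₀ ℤ))
    (hne : ∀ j, (P j).1 ≠ (P j).2) (hC : ∀ j, C ((P j).1 - (P j).2))
    (hsum : ∀ κ l, E l → ∑ i, Q.ρ κ l (f i) = evL Z M κ (dlt Z P) • 1)
    (hz : ∀ i, (∀ κ l, F l → Q.ρ κ l (f i) = 0) ∨
      (∀ κ l, E l → ¬ F l → Q.ρ κ l (f i) = 0)) : IsInt Q C F := by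
  obtain ⟨h⟩ := hE
  set s : Finset I := Finset.univ.filter (fun i => ¬ ∀ κ l, F l → Q.ρ κ l (f i) = 0) with hs
  refine ⟨{ J := h.J ⊕ J, P := Sum.elim h.P P, ne := ?_, cond := ?_, X := h.X * ∑ i ∈ s, f i,
            pos := fun κ l hl => ?_, neg := fun κ l hl => ?_ }⟩
  · rintro (j | j)
    · exact h.ne j
    · exact hne j
  · rintro (j | j)
    · exact h.cond j
    · exact hC j
  · have h1 : ∑ i ∈ s, Q.ρ κ l (f i) = ∑ i, Q.ρ κ l (f i) := by
      apply Finset.sum_subset (Finset.subset_univ s)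
      intro i _ hi
      rw [hs, Finset.mem_filter] at hi
      push Not at hi
      exact hi (Finset.mem_univ i) κ l hl
    rw [map_mul, map_sum, h1, hsum κ l (hFE l hl), h.pos κ l (hFE l hl), dlt_sum, map_mul,
      smul_mul_smul_comm, one_mul]
  · rw [map_mul]
    by_cases hEl : E l
    · have h1 : Q.ρ κ l (∑ i ∈ s, f i) = 0 := by
        rw [map_sum]
        apply Finset.sum_eq_zero
        intro i hi
        rcases hz i with h2 | h2
        · exact absurd h2 (Finset.mem_filter.1 hi).2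
        · exact h2 κ l hEl hl
      rw [h1, mul_zero]
    · rw [h.neg κ l hEl, zero_mul]

end

end Pool.Agent.CMF
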