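import Pool.Agent.CMF.G9
import Pool.Agent.CMFn.IsInt

/-! Project CMF in rank `r` (MP_4af2a6_al), glue G9 in general form (helper77): Rouquier
separation from an integral set of characters. -/

namespace Pool.Agent.CMF

open Matrix Pool.Agent.CMFP

noncomputable section

variable {G : Type} [Group G] [Fintype G] {n : ℕ} {V : G → Matrix (Fin n) (Fin n) ℂ}
  {v₀ : Fin n → ℂ} {F : Type} [Field F] [Algebra F ℂ] {Λ : Type} [Fintype Λ] {d : Λ → ℕ}

open Classical in
/-- The final step: separation in the specialised Hecke algebra. -/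
theorem rouSep_gen (D : StdHk F V v₀ d) (hd : ∀ l, 0 < d l) (S : SchurForm F D.schurElt)
    [Fintype (Idx V)] (hZ : Countable (NumberField.RingOfIntegers F))
    (hinj : Function.Injective (algebraMap (NumberField.RingOfIntegers F) ℂ))
    {M : ℕ} (hM : 0 < M) (Q : KZData (stdHData D hd) M) (P : (stdHData D hd).Λ → Prop)
    [DecidablePred P] (C : (Idx V →₀ ℤ) → Prop) (hP : IsInt Q C P) (κ₀ : Idx V → ℂ)
    (m : Idx V → ℤ) (hm : SameEssential S κ₀ m) (hS : ThmS (stdHData D hd) Q P κ₀) (χ ψ : Λ)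
    (hχ : P χ) (hψ : ¬ P ψ) : D.RouSep m χ ψ := by
  obtain ⟨e, h1, h2, h3⟩ := hP.final hZ hinj hM (schurFac D hd S) κ₀ m
    (sameEss_of D hd S κ₀ m hm) hS
  let _ : Algebra (Laur (NumberField.RingOfIntegers F) (Idx V))
    (CMFP.Oy (NumberField.RingOfIntegers F)) :=
    (specialHom (NumberField.RingOfIntegers F) m).toAlgebra
  have _ : IsScalarTower (NumberField.RingOfIntegers F)
      (Laur (NumberField.RingOfIntegers F) (Idx V)) (CMFP.Oy (NumberField.RingOfIntegers F)) :=
    IsScalarTower.of_algebraMap_eq (specialHom_algebraMap _ m)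
  have h4 := h3 χ
  have h5 := h3 ψ
  rw [if_pos hχ] at h4
  rw [if_neg hψ] at h5
  exact blockSep_of_coord (O := CMFP.Oy (NumberField.RingOfIntegers F))
    (var (NumberField.RingOfIntegers F)) (Std.b D) e h1 h2 (Std.X D χ) (Std.X D ψ) (d χ) h4 h5

end

end Pool.Agent.CMF
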