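import Mathlib

/-! Project CMFn, block C: digits of packed natural numbers. -/

namespace Pool.Agent.CMFn

/-- The `k`-th digit of width `W`. -/
def dg (W z k : Nat) : Nat := Nat.mod (Nat.shiftRight z (Nat.mul W k)) (Nat.pow 2 W)

theorem dg_lt (W z k : ℕ) : dg W z k < 2 ^ W := Nat.mod_lt _ (Nat.two_pow_pos W)

theorem dg_eq (W z k : ℕ) : dg W z k = z / 2 ^ (W * k) % 2 ^ W := by
  show z >>> (W * k) % 2 ^ W = _
  rw [Nat.shiftRight_eq_div_pow]

theorem dg_zero (W k : ℕ) : dg W 0 k = 0 := by
  rw [dg_eq, Nat.zero_div, Nat.zero_mod]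

/-- The digits of a sum of digits. -/
theorem dg_sum {W K : ℕ} {c : ℕ → ℕ} (hc : ∀ k < K, c k < 2 ^ W) :
    ∀ k < K, dg W (∑ i ∈ Finset.range K, c i * 2 ^ (W * i)) k = c k := by
  induction K generalizing c with
  | zero => intro k hk; exact absurd hk (Nat.not_lt_zero k)
  | succ K ih =>
    intro k hk
    rw [Finset.sum_range_succ']
    have h1 : ∑ i ∈ Finset.range K, c (i + 1) * 2 ^ (W * (i + 1)) =
        2 ^ W * ∑ i ∈ Finset.range K, c (i + 1) * 2 ^ (W * i) := by
      rw [Finset.mul_sum]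
      refine Finset.sum_congr rfl fun i _ => ?_
      rw [Nat.mul_add, pow_add, Nat.mul_one]
      ring
    have h0 : c 0 < 2 ^ W := hc 0 (Nat.succ_pos K)
    rw [h1, Nat.mul_zero, pow_zero, Nat.mul_one, dg_eq]
    cases k with
    | zero =>
      rw [Nat.mul_zero, pow_zero, Nat.div_one, Nat.mul_add_mod, Nat.mod_eq_of_lt h0]
    | succ k =>
      rw [Nat.mul_add, Nat.mul_one, add_comm (W * k) W, pow_add, ← Nat.div_div_eq_div_mul,
        Nat.mul_add_div (Nat.two_pow_pos W), Nat.div_eq_of_lt h0, Nat.add_zero, ← dg_eq]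
      exact ih (c := fun i => c (i + 1)) (fun j hj => hc (j + 1) (Nat.succ_lt_succ hj)) k
        (Nat.lt_of_succ_lt_succ hk)

/-- A number is the sum of its digits. -/
theorem dg_repr {W K z : ℕ} (hz : z < 2 ^ (W * K)) :
    z = ∑ i ∈ Finset.range K, dg W z i * 2 ^ (W * i) := by
  induction K generalizing z with
  | zero =>
    rw [Nat.mul_zero, pow_zero] at hz
    rw [Finset.range_zero, Finset.sum_empty]
    omega
  | succ K ih =>
    rw [Finset.sum_range_succ']
    have hz1 : z / 2 ^ W < 2 ^ (W * K) := by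
      rw [Nat.div_lt_iff_lt_mul (Nat.two_pow_pos W), ← pow_add]
      rw [Nat.mul_add, Nat.mul_one] at hz
      exact hz
    have h1 : ∑ i ∈ Finset.range K, dg W z (i + 1) * 2 ^ (W * (i + 1)) =
        2 ^ W * ∑ i ∈ Finset.range K, dg W (z / 2 ^ W) i * 2 ^ (W * i) := by
      rw [Finset.mul_sum]
      refine Finset.sum_congr rfl fun i _ => ?_
      have h2 : dg W z (i + 1) = dg W (z / 2 ^ W) i := by
        rw [dg_eq, dg_eq, Nat.div_div_eq_div_mul, ← pow_add, Nat.mul_add, Nat.mul_one,
          add_comm (W * i) W]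
      rw [h2, Nat.mul_add, pow_add, Nat.mul_one]
      ring
    rw [h1, ← ih hz1, Nat.mul_zero, pow_zero, Nat.mul_one]
    have h3 : dg W z 0 = z % 2 ^ W := by
      rw [dg_eq, Nat.mul_zero, pow_zero, Nat.div_one]
    rw [h3]
    exact (Nat.div_add_mod z (2 ^ W)).symm

/-- Equal digits: equal numbers. -/
theorem dg_inj {W K z z' : ℕ} (hz : z < 2 ^ (W * K)) (hz' : z' < 2 ^ (W * K))
    (h : ∀ k < K, dg W z k = dg W z' k) : z = z' := by
  rw [dg_repr hz, dg_repr hz']
  refine Finset.sum_congr rfl fun i hi => ?_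
  rw [h i (Finset.mem_range.1 hi)]

/-- Digits of a small linear combination. -/
theorem dg_lin {W K D : ℕ} (l : List (ℕ × ℕ)) (hl : ∀ p ∈ l, p.2 < 2 ^ (W * K))
    (hd : ∀ p ∈ l, ∀ k < K, dg W p.2 k < D) (hs : (l.map Prod.fst).sum * D ≤ 2 ^ W) :
    ∀ k < K, dg W ((l.map fun p => p.1 * p.2).sum) k = (l.map fun p => p.1 * dg W p.2 k).sum := by
  have h1 : (l.map fun p => p.1 * p.2).sum =
      ∑ i ∈ Finset.range K, (l.map fun p => p.1 * dg W p.2 i).sum * 2 ^ (W * i) := by
    clear hs hd
    induction l with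
    | nil => simp
    | cons a l ih =>
      rw [List.map_cons, List.sum_cons, ih fun p hp => hl p (List.mem_cons_of_mem a hp)]
      have h2 := dg_repr (hl a List.mem_cons_self)
      have h3 : a.1 * a.2 = ∑ i ∈ Finset.range K, a.1 * dg W a.2 i * 2 ^ (W * i) := by
        conv_lhs => rw [h2]
        rw [Finset.mul_sum]
        refine Finset.sum_congr rfl fun i _ => ?_
        ring
      rw [h3, ← Finset.sum_add_distrib]
      refine Finset.sum_congr rfl fun i _ => ?_
      rw [List.map_cons, List.sum_cons]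
      ring
  have h2 : ∀ k < K, ∀ l' : List (ℕ × ℕ), (∀ p ∈ l', dg W p.2 k < D) →
      (l'.map fun p => p.1 * dg W p.2 k).sum ≤ (l'.map Prod.fst).sum * (D - 1) := by
    intro k _ l'
    induction l' with
    | nil => intro _; simp
    | cons a l' ih =>
      intro h
      rw [List.map_cons, List.sum_cons, List.map_cons, List.sum_cons, Nat.add_mul]
      refine Nat.add_le_add (Nat.mul_le_mul_left _ ?_) (ih fun p hp => h p (List.mem_cons_of_mem a hp))
      have := h a List.mem_cons_self
      omega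
  intro k hk
  rcases Nat.eq_zero_or_pos D with hD | hD
  · cases l with
    | nil =>
      rw [List.map_nil, List.map_nil, List.sum_nil, dg_zero]
    | cons a l =>
      have h4 := hd a List.mem_cons_self k hk
      omega
  rw [h1]
  refine dg_sum (c := fun i => (l.map fun p => p.1 * dg W p.2 i).sum) ?_ k hk
  intro i hi
  have h3 := h2 i hi l fun p hp => hd p hp i hi
  rcases Nat.eq_zero_or_pos (l.map Prod.fst).sum with h4 | h4
  · rw [h4, Nat.zero_mul] at h3
    exact lt_of_le_of_lt h3 (Nat.two_pow_pos W)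
  · refine lt_of_le_of_lt h3 (lt_of_lt_of_le ?_ hs)
    exact Nat.mul_lt_mul_of_pos_left (by omega) h4

/-- Expansions in base `B` are unique. -/
theorem pow_sum_inj {B K : ℕ} {a b : ℕ → ℕ} (ha : ∀ k < K, a k < B) (hb : ∀ k < K, b k < B)
    (h : ∑ k ∈ Finset.range K, a k * B ^ k = ∑ k ∈ Finset.range K, b k * B ^ k) :
    ∀ k < K, a k = b k := by
  induction K generalizing a b with
  | zero => intro k hk; exact absurd hk (Nat.not_lt_zero k)
  | succ K ih =>
    have hB : 0 < B := lt_of_le_of_lt (Nat.zero_le _) (ha 0 (Nat.succ_pos K))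
    have key : ∀ c : ℕ → ℕ, ∑ k ∈ Finset.range (K + 1), c k * B ^ k =
        B * ∑ k ∈ Finset.range K, c (k + 1) * B ^ k + c 0 := by
      intro c
      rw [Finset.sum_range_succ', Finset.mul_sum, pow_zero, Nat.mul_one]
      congr 1
      refine Finset.sum_congr rfl fun i _ => ?_
      rw [pow_succ]
      ring
    rw [key a, key b] at h
    have h0 : a 0 = b 0 := by
      have := congrArg (fun x => x % B) h
      beta_reduce at this
      rw [Nat.mul_add_mod, Nat.mul_add_mod, Nat.mod_eq_of_lt (ha 0 (Nat.succ_pos K)),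
        Nat.mod_eq_of_lt (hb 0 (Nat.succ_pos K))] at this
      exact this
    have h1 : ∑ k ∈ Finset.range K, a (k + 1) * B ^ k = ∑ k ∈ Finset.range K, b (k + 1) * B ^ k := by
      rw [h0] at h
      exact Nat.eq_of_mul_eq_mul_left hB (Nat.add_right_cancel h)
    intro k hk
    cases k with
    | zero => exact h0
    | succ k =>
      exact ih (a := fun i => a (i + 1)) (b := fun i => b (i + 1))
        (fun j hj => ha (j + 1) (Nat.succ_lt_succ hj)) (fun j hj => hb (j + 1) (Nat.succ_lt_succ hj))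
        h1 k (Nat.lt_of_succ_lt_succ hk)

end Pool.Agent.CMFn
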