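import Pool.Agent.CMFn.CRDefs
import Pool.Agent.CMFn.CDig

/-! Project CMFn, block C: the checker (definitions only).  helper62. -/

namespace Pool.Agent.CMFn

noncomputable section

/-- Binary trees of numbers. -/
inductive Tr : Type
  | lf (v : ℕ)
  | nd (l r : Tr)

/-- The entry `i` (binary digits from below). -/
def Tr.get (t : Tr) : ℕ → ℕ :=
  Tr.rec (fun v _ => v)
    (fun _ _ fl fr i => cond (Nat.beq (Nat.mod i 2) 0) (fl (Nat.div i 2)) (fr (Nat.div i 2))) t

def allN (n : ℕ) (f : ℕ → Bool) : Bool := Nat.rec true (fun i acc => cond acc (f i) false) n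

def anyN (n : ℕ) (f : ℕ → Bool) : Bool := Nat.rec false (fun i acc => cond acc true (f i)) n

def sumN (n : ℕ) (f : ℕ → ℕ) : ℕ := Nat.rec 0 (fun i acc => Nat.add acc (f i)) n

/-- The letters of a word (digits `letter + 1` in base 256). -/
def wd (f : ℕ) : ℕ → List ℕ :=
  Nat.rec (fun _ => []) (fun _ ih w => cond (Nat.beq w 0) []
    (List.cons (Nat.pred (Nat.mod w 256)) (ih (Nat.div w 256)))) f

def allL (l : List ℕ) (f : ℕ → Bool) : Bool :=
  List.rec true (fun a _ ih => cond (f a) ih false) l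

/-- A class operator. -/
structure OD where
  m : ℕ
  s : ℕ
  gen : ℕ
  cj : Tr
  ci : Tr
  par : ℕ
  D : Tr
  lam : ℕ

/-- Derivation steps. -/
inductive St : Type
  | one (t : ℕ)
  | vv (t : ℕ)
  | dual (a t : ℕ)
  | prod (a b N : ℕ) (ts : List ℕ)

/-- The data of a group. -/
structure GD (α : Type) where
  c : CR α
  r : ℕ
  n : ℕ
  b : ℕ
  ng : ℕ
  A : ℕ
  mats : List (List (List α))
  piv : List (ℕ × ℕ)
  rts : Tr
  wr : ℕ
  offr : ℕ
  tab : Tr
  wds : Tr
  nc : ℕ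
  K : ℕ
  rep : ℕ
  wD : ℕ
  nu : ℕ
  wn : ℕ
  inv : ℕ
  W : ℕ
  off : ℕ
  row : Tr
  col : Tr
  dim : ℕ
  ops : List OD
  tm : List (ℕ × ℕ)
  rf : ℕ
  steps : List St
  lab : ℕ
  par : ℕ
  hgt : ℕ
  lu : ℕ

variable {α : Type}

namespace GD

variable (d : GD α)

def mat (a i j : ℕ) : α := ((d.mats.getD a []).getD i []).getD j (d.c.nat 0)

def crd (x y : ℕ) : α :=
  d.c.dec d.offr (fun k => dg d.wr (d.rts.get x) (Nat.add (Nat.mul d.c.q y) k))

def tb (l x : ℕ) : ℕ := dg d.b (d.tab.get l) x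

def sum (n : ℕ) (f : ℕ → α) : α := Nat.rec (d.c.nat 0) (fun i acc => d.c.add acc (f i)) n

def pow (x : α) (n : ℕ) : α := Nat.rec (d.c.nat 1) (fun _ acc => d.c.mul acc x) n

/-- The action of a word on a root. -/
def actw (l : List ℕ) (x : ℕ) : ℕ := List.rec x (fun a _ ih => d.tb a ih) l

def X (i j : ℕ) : α :=
  d.c.dec d.off (fun k => dg d.W (d.row.get i) (Nat.add (Nat.mul d.c.q j) k))

def nuv (j : ℕ) : ℕ := dg d.wn d.nu j

def lamv (o : OD) (i : ℕ) : α :=
  d.c.dec d.off (fun k => dg d.W o.lam (Nat.add (Nat.mul d.c.q i) k))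

def kk (o : OD) (i j : ℕ) : ℕ := Nat.mod (dg d.wD (o.D.get j) i) 256

def kw (o : OD) (i j : ℕ) : List ℕ := wd 24 (Nat.div (dg d.wD (o.D.get j) i) 256)

def ik (j : ℕ) : ℕ := Nat.mod (dg d.wD d.inv j) 256

def iw (j : ℕ) : List ℕ := wd 24 (Nat.div (dg d.wD d.inv j) 256)

/-- Roots: the first `r` roots are the basis. -/
def chkBase : Bool :=
  cond (Nat.ble d.r d.n) (cond (Nat.ble (Nat.add d.rep d.nc) d.A)
    (cond (Nat.ble 1 d.nc) (cond (Nat.ble 1 d.r)
      (allN d.r fun x => allN d.r fun y =>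
        d.c.eq (d.crd x y) (d.c.nat (cond (Nat.beq x y) 1 0))) false) false) false) false

def chkGen (a : ℕ) : Bool :=
  allN d.n fun x => cond (Nat.blt (d.tb a x) d.n)
    (allN d.r fun i => d.c.eq (d.sum d.r fun j => d.c.mul (d.mat a i j) (d.crd x j))
      (d.crd (d.tb a x) i)) false

/-- Entries of `V(γ_a) - 1`. -/
def nm (a i j : ℕ) : α := d.c.add (d.mat a i j) (d.c.neg (d.c.nat (cond (Nat.beq i j) 1 0)))

/-- `V(γ_a) - 1` has rank one. -/
def chkPiv (a : ℕ) : Bool :=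
  cond (Nat.blt (d.piv.getD a (0, 0)).1 d.r) (cond (Nat.blt (d.piv.getD a (0, 0)).2 d.r)
    (cond (Bool.not (d.c.eq (d.nm a (d.piv.getD a (0, 0)).1 (d.piv.getD a (0, 0)).2) (d.c.nat 0)))
      (allN d.r fun i => allN d.r fun j =>
        d.c.eq (d.c.mul (d.nm a i j) (d.nm a (d.piv.getD a (0, 0)).1 (d.piv.getD a (0, 0)).2))
          (d.c.mul (d.nm a i (d.piv.getD a (0, 0)).2) (d.nm a (d.piv.getD a (0, 0)).1 j)))
      false) false) false

def chkGenI (a : ℕ) : Bool :=
  allN d.n fun x => cond (Nat.blt (d.tb (Nat.add d.ng a) x) d.n)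
    (Nat.beq (d.tb a (d.tb (Nat.add d.ng a) x)) x) false

/-- Letter `l`, `2 ng ≤ l`. -/
def chkLet (l : ℕ) : Bool :=
  cond (allL (wd 64 (d.wds.get l)) fun a => Nat.blt a l)
    (allN d.n fun x => Nat.beq (d.tb l x) (d.actw (wd 64 (d.wds.get l)) x)) false

def chkConj (o : OD) : Bool :=
  cond (Nat.ble (Nat.add o.s o.m) d.A)
  (allN d.ng fun a => allN o.m fun i =>
    cond (Nat.blt (dg 8 (o.cj.get a) i) o.m)
      (cond (Nat.beq (dg 8 (o.ci.get a) (dg 8 (o.cj.get a) i)) i)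
        (allN d.r fun x => Nat.beq (d.tb a (d.tb (Nat.add o.s i) x))
          (d.tb (Nat.add o.s (dg 8 (o.cj.get a) i)) (d.tb a x))) false) false) false

/-- The family consists of conjugates of the generator `o.gen`. -/
def chkPar (o : OD) : Bool :=
  cond (Nat.blt o.gen d.ng)
    (cond (allN d.r fun x => Nat.beq (d.tb o.s x) (d.tb o.gen x))
      (allN o.m fun i => cond (Nat.beq i 0) true
        (cond (Nat.blt (Nat.mod (dg 16 o.par i) 256) i)
          (cond (Nat.blt (Nat.div (dg 16 o.par i) 256) d.ng)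
            (Nat.beq (dg 8 (o.cj.get (Nat.div (dg 16 o.par i) 256))
              (Nat.mod (dg 16 o.par i) 256)) i) false) false)) false) false

def chkCls (o : OD) (j : ℕ) : Bool :=
  allN o.m fun i => cond (Nat.blt (d.kk o i j) d.nc)
    (cond (allL (d.kw o i j) fun a => Nat.blt a d.A)
      (allN d.r fun x => Nat.beq
        (d.tb (Nat.add o.s i) (d.tb (Nat.add d.rep j) (d.actw (d.kw o i j) x)))
        (d.actw (d.kw o i j) (d.tb (Nat.add d.rep (d.kk o i j)) x))) false) false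

def chkInv (j : ℕ) : Bool :=
  cond (Nat.blt (d.ik j) d.nc)
    (cond (allL (d.iw j) fun a => Nat.blt a d.A)
      (allN d.r fun x => Nat.beq
        (d.tb (Nat.add d.rep j) (d.actw (d.iw j) (d.tb (Nat.add d.rep (d.ik j)) x)))
        (d.actw (d.iw j) x)) false) false

/-- Generators occur in the families. -/
def chkGenOp (L : List OD) (a : ℕ) : Bool :=
  L.any fun o => anyN o.m fun i => allN d.r fun x =>
    Nat.beq (d.tb (Nat.add o.s i) x) (d.tb a x)

def tot : ℕ := sumN d.nc d.nuv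

/-- The balance of the measure. -/
def chkBal (o : OD) : Bool :=
  cond (Nat.blt (Nat.mul d.tot o.m) (Nat.pow 2 d.wn))
    (Nat.beq (sumN d.nc fun j => Nat.mul (d.nuv j)
      (sumN o.m fun i => Nat.pow 2 (Nat.mul d.wn (d.kk o i j))))
      (Nat.mul o.m (sumN d.nc fun j => Nat.mul (d.nuv j) (Nat.pow 2 (Nat.mul d.wn j))))) false

/-- `g_0 = 1`, `ν_0 = 1`. -/
def chkOne : Bool :=
  cond (Nat.beq (d.nuv 0) 1) (allN d.r fun x => Nat.beq (d.tb d.rep x) x) false

/-- Rows and columns. -/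
def chkRC (i : ℕ) : Bool :=
  cond (Nat.blt (d.row.get i) (Nat.pow 2 (Nat.mul d.W (Nat.mul d.c.q d.nc))))
    (allN d.nc fun j => allN d.c.q fun k =>
      cond (Nat.beq (dg d.W (d.row.get i) (Nat.add (Nat.mul d.c.q j) k))
          (dg d.W (d.col.get j) (Nat.add (Nat.mul d.c.q i) k)))
        (Nat.blt (dg d.W (d.row.get i) (Nat.add (Nat.mul d.c.q j) k)) (Nat.mul 2 d.off)) false)
    false

def chkCol : Bool :=
  allN d.nc fun j =>
    Nat.blt (d.col.get j) (Nat.pow 2 (Nat.mul d.W (Nat.mul d.c.q d.K)))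

def chkEig (o : OD) (j : ℕ) : Bool :=
  cond (Nat.ble (Nat.mul o.m (Nat.mul 2 d.off)) (Nat.pow 2 d.W))
    ((fun S => allN d.K fun i =>
      d.c.eq (d.c.dec (Nat.mul o.m d.off) (fun k => dg d.W S (Nat.add (Nat.mul d.c.q i) k)))
        (d.c.mul (d.lamv o i) (d.X i j)))
      (sumN o.m fun t => d.col.get (d.kk o t j))) false

/-- The trace of `V(g_j)^p`. -/
def tr (j p : ℕ) : α :=
  d.sum d.r fun x => d.crd (Nat.rec x (fun _ y => d.tb (Nat.add d.rep j) y) p) x

def bit (k i : ℕ) : Bool := Nat.beq (dg 1 k i) 1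

/-- The identity of a derivation step. -/
def stOK : St → Bool
  | St.one t => cond (Nat.blt t d.K) (allN d.nc fun j => d.c.eq (d.X t j) (d.c.nat 1)) false
  | St.vv t => cond (Nat.blt t d.K) (allN d.nc fun j => d.c.eq (d.X t j) (d.tr j 1)) false
  | St.dual a t => cond (Nat.blt t d.K)
      (allN d.nc fun j => d.c.eq (d.X t j) (d.X a (d.ik j))) false
  | St.prod a b N _ =>
      cond (Nat.ble (Nat.mul (sumN d.K fun i => dg 16 N i) (Nat.mul 2 d.off)) (Nat.pow 2 d.W))
        ((fun S => allN d.nc fun j =>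
          d.c.eq (d.c.dec (Nat.mul (sumN d.K fun i => dg 16 N i) d.off)
            (fun k => dg d.W S (Nat.add (Nat.mul d.c.q j) k)))
            (d.c.mul (d.X a j) (d.X b j)))
          (sumN d.K fun i => Nat.mul (dg 16 N i) (d.row.get i))) false

/-- One target. -/
def tgt (N : ℕ) (k t : ℕ) : ℕ :=
  cond (cond (Nat.blt t d.K) (cond (Nat.beq (dg 16 N t) 1)
    (allN d.K fun i => cond (Nat.beq (dg 16 N i) 0) true (cond (Nat.beq i t) true
      (cond (bit k i) true (d.ops.any fun o => Bool.not (d.c.eq (d.lamv o i) (d.lamv o t))))))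
      false) false) (Nat.lor k (Nat.pow 2 t)) k

/-- The set of known characters after a step. -/
def run1 (k : ℕ) : St → ℕ
  | St.one t => Nat.lor k (Nat.pow 2 t)
  | St.vv t => Nat.lor k (Nat.pow 2 t)
  | St.dual a t => cond (bit k a) (Nat.lor k (Nat.pow 2 t)) k
  | St.prod a b N ts => cond (cond (bit k a) (bit k b) false)
      (List.rec k (fun t _ ih => d.tgt N ih t) ts) k

def run (l : List St) : ℕ := l.foldl d.run1 0

def chkRun : Bool := allN d.K fun i => bit (d.run d.steps) i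

def chkNorm (i : ℕ) : Bool :=
  d.c.eq (d.sum d.nc fun j => d.c.mul (d.c.nat (d.nuv j)) (d.c.mul (d.X i j) (d.X i (d.ik j))))
    (d.c.nat d.tot)

def dimv (i : ℕ) : ℕ := dg 16 d.dim i

def chkDim : Bool :=
  cond (allN d.K fun i => cond (Nat.ble 1 (d.dimv i)) (d.c.eq (d.X i 0) (d.c.nat (d.dimv i))) false)
    (Nat.beq (sumN d.K fun i => Nat.mul (d.dimv i) (d.dimv i)) d.tot) false

def chkDist (i : ℕ) : Bool :=
  allN i fun i' => anyN d.nc fun j => Bool.not (d.c.eq (d.X i j) (d.X i' j))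

/-- The table of traces of powers. -/
def tv (T : ℕ) (j : ℕ) : α :=
  d.c.dec d.off (fun k => dg d.W T (Nat.add (Nat.mul d.c.q j) k))

def chkT : Bool :=
  d.tm.all fun p => cond (Nat.ble 1 p.1) (allN d.nc fun j => d.c.eq (d.tr j p.1) (d.tv p.2 j)) false

/-- `t - (r - 1)`. -/
def sh (t : α) : α := d.c.add t (d.c.neg (d.c.nat (Nat.pred d.r)))

/-- Class `j` is listed in `rf` or does not consist of reflections; `g_j ≠ 1` for `j > 0`. -/
def chkRf (j : ℕ) : Bool :=
  cond (cond (bit d.rf j) true (d.tm.any fun p =>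
      Bool.not (d.c.eq (d.sh (d.tv p.2 j)) (d.pow (d.sh (d.tr j 1)) p.1))))
    (cond (Nat.beq j 0) true (Bool.not (d.c.eq (d.tr j 1) (d.c.nat d.r)))) false

def lt (u j : ℕ) : α := d.tv (d.tm.getD u (0, 0)).2 j

def lnk (a b u : ℕ) : Bool :=
  cond (Nat.ble 1 (d.tm.getD u (0, 0)).1)
    (cond (allN d.nc fun j => cond (bit d.rf j)
        (d.c.eq (d.c.mul (d.X a j) (d.X b 0)) (d.c.mul (d.X b j) (d.X a 0))) true)
      (Bool.not (d.c.eq (d.sum d.nc fun j => d.c.mul (d.c.nat (d.nuv j))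
        (d.c.mul (d.c.mul (d.X a (d.ik j)) (d.X b j)) (d.lt u (d.ik j)))) (d.c.nat 0))) false) false

def labv (i : ℕ) : ℕ := dg 16 d.lab i

def chkLink (i : ℕ) : Bool :=
  cond (cond (Nat.beq (dg 16 d.par i) i) (Nat.beq (d.labv i) i) false) true
    (cond (Nat.blt (dg 16 d.hgt (dg 16 d.par i)) (dg 16 d.hgt i))
      (cond (Nat.beq (d.labv (dg 16 d.par i)) (d.labv i))
        (cond (Nat.blt (dg 16 d.par i) d.K) (d.lnk (dg 16 d.par i) i (dg 16 d.lu i)) false) false)
      false)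

/-- Equal eigenvalues imply equal labels (unsplit groups). -/
def chkLab (i : ℕ) : Bool :=
  allN i fun i' => cond (Nat.beq (d.labv i) (d.labv i')) true
    (d.ops.any fun o => cond (Nat.blt o.gen d.ng)
      (Bool.not (d.c.eq (d.lamv o i) (d.lamv o i'))) false)

end GD

end

end Pool.Agent.CMFn
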