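import Pool.Agent.CMFn.DDefs
import Pool.Agent.CMFn.DunA

/-! Project CMF, every rank, module DunC: existence and uniqueness of the Dunkl operators. -/

namespace Pool.Agent.CMFn

open Matrix

noncomputable section

namespace DunCX

variable {r : ℕ}

/-- The linear form `Σ_b a_b X_b` as a polynomial. -/
def lin (a : Fin r → ℂ) : MvPolynomial (Fin r) ℂ := ∑ b, MvPolynomial.C (a b) * MvPolynomial.X b

lemma eval_lin (a v : Fin r → ℂ) : MvPolynomial.eval v (lin a) = a ⬝ᵥ v := by
  simp [lin, dotProduct]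

lemma lin_ne_zero {a : Fin r → ℂ} (ha : a ≠ 0) : lin a ≠ 0 := by
  intro h
  apply ha
  funext b
  have h1 := congrArg (MvPolynomial.eval (Pi.single b 1)) h
  rw [eval_lin] at h1
  simpa using h1

lemma lin_add (a b : Fin r → ℂ) : lin (a + b) = lin a + lin b := by
  simp [lin, add_mul, Finset.sum_add_distrib]

lemma lin_smul (c : ℂ) (a : Fin r → ℂ) : lin (c • a) = MvPolynomial.C c * lin a := by
  rw [lin, lin, Finset.mul_sum]
  refine Finset.sum_congr rfl fun b _ => ?_
  rw [Pi.smul_apply, smul_eq_mul, map_mul, mul_assoc]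

/-- Substitution of a linear map. -/
def sub (W : Matrix (Fin r) (Fin r) ℂ) : MvPolynomial (Fin r) ℂ →ₐ[ℂ] MvPolynomial (Fin r) ℂ :=
  MvPolynomial.bind₁ (fun a => lin (W a))

lemma eval_sub (W : Matrix (Fin r) (Fin r) ℂ) (v : Fin r → ℂ) (f : MvPolynomial (Fin r) ℂ) :
    MvPolynomial.eval v (sub W f) = MvPolynomial.eval (W *ᵥ v) f := by
  have h : (MvPolynomial.aeval v : MvPolynomial (Fin r) ℂ →ₐ[ℂ] ℂ).comp (sub W) =
      MvPolynomial.aeval (W *ᵥ v) := by
    apply MvPolynomial.algHom_ext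
    intro i
    have h0 : MvPolynomial.aeval v (lin (W i)) = W i ⬝ᵥ v := by
      rw [MvPolynomial.aeval_eq_eval]
      exact eval_lin _ _
    rw [AlgHom.comp_apply, sub, MvPolynomial.bind₁_X_right, h0, MvPolynomial.aeval_X]
    rfl
  have h1 := congrArg (fun φ => φ f) h
  simpa [MvPolynomial.aeval_eq_eval] using h1

/-- A linear form vanishing on the hyperplane `a = 0` is a multiple of `a`. -/
lemma multiple {a b : Fin r → ℂ} (ha : a ≠ 0) (h : ∀ v, a ⬝ᵥ v = 0 → b ⬝ᵥ v = 0) :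
    ∃ c : ℂ, b = c • a := by
  obtain ⟨p, hp⟩ := DunAX.exists_one a ha
  refine ⟨b ⬝ᵥ p, ?_⟩
  funext i
  have h1 : a ⬝ᵥ (Pi.single i 1 - (a i) • p) = 0 := by
    rw [dotProduct_sub, dotProduct_smul, hp, dotProduct_single, mul_one, smul_eq_mul, mul_one,
      sub_self]
  have h2 := h _ h1
  rw [dotProduct_sub, dotProduct_smul, dotProduct_single, mul_one, smul_eq_mul, sub_eq_zero] at h2
  rw [h2, Pi.smul_apply, smul_eq_mul, mul_comm]

/-- If `W` fixes the hyperplane `a = 0` pointwise, `f ∘ W - f` is divisible by `a`. -/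
lemma dvd_sub (a : Fin r → ℂ) (ha : a ≠ 0) (W : Matrix (Fin r) (Fin r) ℂ)
    (hW : ∀ v, a ⬝ᵥ v = 0 → W *ᵥ v = v) (f : MvPolynomial (Fin r) ℂ) :
    lin a ∣ sub W f - f := by
  induction f using MvPolynomial.induction_on with
  | C c => simp [sub]
  | add f g hf hg =>
    have : sub W (f + g) - (f + g) = (sub W f - f) + (sub W g - g) := by
      rw [map_add]; ring
    rw [this]
    exact dvd_add hf hg
  | mul_X f i hf =>
    have h1 : lin a ∣ sub W (MvPolynomial.X i) - MvPolynomial.X i := by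
      obtain ⟨c, hc⟩ := multiple (b := W i - Pi.single i 1) ha (by
        intro v hv
        have := congrFun (hW v hv) i
        rw [sub_dotProduct, single_dotProduct, one_mul]
        exact sub_eq_zero.2 this)
      have h2 : sub W (MvPolynomial.X i) - MvPolynomial.X i = lin (W i - Pi.single i 1) := by
        have h3 : lin (Pi.single i 1) = MvPolynomial.X i := by
          unfold lin
          rw [Finset.sum_eq_single i]
          · simp
          · intro b _ hb
            simp [hb]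
          · simp
        have h4 : sub W (MvPolynomial.X i) = lin (W i) := by
          simp [sub]
        rw [h4]
        have h5 : W i = (W i - Pi.single i 1) + Pi.single i 1 := by simp
        conv_lhs => rw [h5, lin_add, h3]
        ring
      rw [h2, hc, lin_smul]
      exact dvd_mul_left _ _
    have : sub W (f * MvPolynomial.X i) - f * MvPolynomial.X i =
        (sub W f - f) * sub W (MvPolynomial.X i) +
          f * (sub W (MvPolynomial.X i) - MvPolynomial.X i) := by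
      rw [map_mul]; ring
    rw [this]
    exact dvd_add (hf.mul_right _) (h1.mul_left _)

/-- The linear operator `f ↦ (f ∘ W - f)/a`. -/
def quo (a : Fin r → ℂ) (ha : a ≠ 0) (W : Matrix (Fin r) (Fin r) ℂ)
    (hW : ∀ v, a ⬝ᵥ v = 0 → W *ᵥ v = v) :
    MvPolynomial (Fin r) ℂ →ₗ[ℂ] MvPolynomial (Fin r) ℂ where
  toFun f := (dvd_sub a ha W hW f).choose
  map_add' f g := by
    apply mul_left_cancel₀ (lin_ne_zero ha)
    rw [mul_add, ← (dvd_sub a ha W hW f).choose_spec, ← (dvd_sub a ha W hW g).choose_spec,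
      ← (dvd_sub a ha W hW (f + g)).choose_spec, map_add]
    ring
  map_smul' c f := by
    apply mul_left_cancel₀ (lin_ne_zero ha)
    rw [RingHom.id_apply, mul_smul_comm, ← (dvd_sub a ha W hW f).choose_spec,
      ← (dvd_sub a ha W hW (c • f)).choose_spec, map_smul, smul_sub]

lemma lin_mul_quo (a : Fin r → ℂ) (ha : a ≠ 0) (W : Matrix (Fin r) (Fin r) ℂ)
    (hW : ∀ v, a ⬝ᵥ v = 0 → W *ᵥ v = v) (f : MvPolynomial (Fin r) ℂ) :
    lin a * quo a ha W hW f = sub W f - f :=
  (dvd_sub a ha W hW f).choose_spec.symm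

lemma eval_quo (a : Fin r → ℂ) (ha : a ≠ 0) (W : Matrix (Fin r) (Fin r) ℂ)
    (hW : ∀ v, a ⬝ᵥ v = 0 → W *ᵥ v = v) (f : MvPolynomial (Fin r) ℂ) (v : Fin r → ℂ)
    (hv : a ⬝ᵥ v ≠ 0) :
    MvPolynomial.eval v (quo a ha W hW f) =
      (MvPolynomial.eval (W *ᵥ v) f - MvPolynomial.eval v f) / (a ⬝ᵥ v) := by
  have h := congrArg (MvPolynomial.eval v) (lin_mul_quo a ha W hW f)
  rw [map_mul, eval_lin, map_sub, eval_sub] at h
  rw [eq_div_iff hv, mul_comm]
  exact h

end DunCX

open DunCX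

variable {r : ℕ} {N : SG r} [Fintype N]

/-- A polynomial vector is determined by its values on `V^reg`. -/
theorem evE_ext {ι : Type} (f f' : PolE r ι) (h : ∀ v : VReg N, evE f v.1 = evE f' v.1) :
    f = f' := by
  funext i
  have hq : (∏ H : Arr N, lin (lf H.1)) ≠ 0 :=
    Finset.prod_ne_zero_iff.2 fun H _ => lin_ne_zero (lf_spec H).1
  have h1 : (f i - f' i) * (∏ H : Arr N, lin (lf H.1)) = 0 := by
    apply MvPolynomial.funext
    intro v
    rw [map_mul, map_zero, map_prod]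
    by_cases hv : ∀ H : Arr N, lf H.1 ⬝ᵥ v ≠ 0
    · have h2 := congrFun (h ⟨v, (vreg_iff v).2 hv⟩) i
      have h3 : MvPolynomial.eval v (f i) = MvPolynomial.eval v (f' i) := h2
      rw [map_sub, h3, sub_self, zero_mul]
    · push Not at hv
      obtain ⟨H, hH⟩ := hv
      rw [Finset.prod_eq_zero (Finset.mem_univ H), mul_zero]
      rw [eval_lin, hH]
  rcases mul_eq_zero.1 h1 with h2 | h2
  · exact sub_eq_zero.1 h2
  · exact absurd h2 hq

namespace DunCX

/-- The reflecting hyperplane of a reflection in `N`. -/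
def arrOf (w : N) (h : IsRefl w.1) : Arr N := ⟨fixL w.1, w.1, w.2, h, rfl⟩

lemma inv_fix (w : N) (h : IsRefl w.1) (v : Fin r → ℂ) (hv : lf (fixL w.1) ⬝ᵥ v = 0) :
    (w⁻¹).1.1 *ᵥ v = v := by
  have h1 : v ∈ fixL w.1 := ((lf_spec (arrOf w h)).2 v).2 hv
  have h2 : w.1.1 *ᵥ v = v := DunAX.mem_fixL.1 h1
  have h3 : (w⁻¹).1.1 *ᵥ (w.1.1 *ᵥ v) = v := by
    rw [Matrix.mulVec_mulVec]
    have : (w⁻¹).1.1 * w.1.1 = 1 := by
      have h4 : (w⁻¹).1 * w.1 = 1 := by
        rw [InvMemClass.coe_inv]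
        exact inv_mul_cancel _
      rw [← Units.val_mul, h4, Units.val_one]
    rw [this, Matrix.one_mulVec]
  rwa [h2] at h3

open Classical in
/-- The divided difference operator attached to `w` (zero if `w` is not a reflection). -/
def dd (w : N) : MvPolynomial (Fin r) ℂ →ₗ[ℂ] MvPolynomial (Fin r) ℂ :=
  if h : IsRefl w.1 then
    quo (lf (fixL w.1)) (lf_spec (arrOf w h)).1 (w⁻¹).1.1 (inv_fix w h)
  else 0

lemma eval_dd (w : N) (h : IsRefl w.1) (f : MvPolynomial (Fin r) ℂ) (v : VReg N) :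
    MvPolynomial.eval v.1 (dd w f) =
      (MvPolynomial.eval ((w⁻¹).1.1 *ᵥ v.1) f - MvPolynomial.eval v.1 f) /
        (lf (fixL w.1) ⬝ᵥ v.1) := by
  unfold dd
  rw [dif_pos h]
  exact eval_quo _ _ _ _ _ _ ((vreg_iff v.1).1 v.2 (arrOf w h))

/-- The Dunkl operator. -/
def op {ι : Type} [Fintype ι] [DecidableEq ι] (ρ : N →* Matrix ι ι ℂ) (t : ℂ)
    (k : Idx N → ℂ) (y : Fin r → ℂ) : Module.End ℂ (PolE r ι) where
  toFun f := fun i => t • (∑ a, y a • MvPolynomial.pderiv a (f i)) +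
    ∑ w : N, (cr k w * (lf (fixL w.1) ⬝ᵥ y)) • ∑ j, ρ w i j • dd w (f j)
  map_add' f g := by
    funext i
    simp only [Pi.add_apply, map_add, smul_add, Finset.sum_add_distrib]
    ring
  map_smul' c f := by
    funext i
    simp only [Pi.smul_apply, map_smul, RingHom.id_apply, smul_add, Finset.smul_sum]
    congr 1
    · refine Finset.sum_congr rfl fun a _ => ?_
      rw [Derivation.map_smul]
      simp only [smul_smul]
      congr 1
      ring
    · refine Finset.sum_congr rfl fun w _ => Finset.sum_congr rfl fun j _ => ?_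
      simp only [smul_smul]
      congr 1
      ring

lemma isDunkl_op {ι : Type} [Fintype ι] [DecidableEq ι] (ρ : N →* Matrix ι ι ℂ) (t : ℂ)
    (k : Idx N → ℂ) (y : Fin r → ℂ) : IsDunkl ρ t k y (op ρ t k y) := by
  intro f v
  funext i
  have h1 : evE (op ρ t k y f) v.1 i = t * (∑ a, y a * MvPolynomial.eval v.1
      (MvPolynomial.pderiv a (f i))) + ∑ w : N, (cr k w * (lf (fixL w.1) ⬝ᵥ y)) *
        ∑ j, ρ w i j * MvPolynomial.eval v.1 (dd w (f j)) := by
    simp only [evE, op, LinearMap.coe_mk, AddHom.coe_mk, map_add, MvPolynomial.smul_eval, map_sum]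
  rw [h1]
  simp only [Pi.add_apply, Pi.smul_apply, Finset.sum_apply, smul_eq_mul]
  congr 1
  refine Finset.sum_congr rfl fun w _ => ?_
  by_cases hw : IsRefl w.1
  · have h2 : ∀ j, MvPolynomial.eval v.1 (dd w (f j)) =
        (evE f ((w⁻¹).1.1 *ᵥ v.1) - evE f v.1) j / (lf (fixL w.1) ⬝ᵥ v.1) :=
      fun j => eval_dd w hw (f j) v
    have h3 : (ρ w *ᵥ (evE f ((w⁻¹).1.1 *ᵥ v.1) - evE f v.1)) i =
        ∑ j, ρ w i j * (evE f ((w⁻¹).1.1 *ᵥ v.1) - evE f v.1) j := rfl
    rw [h3]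
    simp only [h2, rat]
    generalize lf (fixL w.1) ⬝ᵥ y = A
    generalize lf (fixL w.1) ⬝ᵥ v.1 = B
    rw [Finset.mul_sum, Finset.mul_sum]
    refine Finset.sum_congr rfl fun j _ => ?_
    ring
  · have h2 : cr k w = 0 := by
      unfold cr
      rw [dif_neg hw]
    rw [h2]
    simp

end DunCX

/-- Existence of the Dunkl operators. -/
theorem dunkl_spec {ι : Type} [Fintype ι] [DecidableEq ι] (ρ : N →* Matrix ι ι ℂ) (t : ℂ)
    (k : Idx N → ℂ) (y : Fin r → ℂ) : IsDunkl ρ t k y (dunkl ρ t k y) := by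
  have h : ∃ D, IsDunkl ρ t k y D := ⟨op ρ t k y, isDunkl_op ρ t k y⟩
  unfold dunkl
  rw [dif_pos h]
  exact h.choose_spec

theorem dunkl_unique {ι : Type} [Fintype ι] [DecidableEq ι] (ρ : N →* Matrix ι ι ℂ) (t : ℂ)
    (k : Idx N → ℂ) (y : Fin r → ℂ) (D : Module.End ℂ (PolE r ι)) (h : IsDunkl ρ t k y D) :
    D = dunkl ρ t k y := by
  apply LinearMap.ext
  intro f
  apply evE_ext (N := N)
  intro v
  rw [h f v, dunkl_spec ρ t k y f v]

end

end Pool.Agent.CMFn
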