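import Pool.Agent.CMFn.CSemC

/-! Project CMFn, block C: the last two irreducible characters of a character table.  helper15. -/

namespace Pool.Agent.CMFn

open Matrix

noncomputable section

namespace CPairX

variable {G : Type} [Group G]

/-- A virtual character of norm two is a sum of two signed irreducible characters. -/
theorem vc_two [Fintype G] {u : G → ℂ} (hu : u ∈ VC G)
    (h2 : ∑ g : G, u g * u g⁻¹ = 2 * Fintype.card G) :
    ∃ (x y : MRep G) (m n : ℤ), IsIrr x.2 ∧ IsIrr y.2 ∧ (∃ g, (x.2 g).trace ≠ (y.2 g).trace) ∧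
      m ^ 2 = 1 ∧ n ^ 2 = 1 ∧ ∀ g, u g = m * (x.2 g).trace + n * (y.2 g).trace := by
  classical
  obtain ⟨k, a, m, ha, rfl⟩ := vc_irr_comb hu
  have hcG : (Fintype.card G : ℂ) ≠ 0 := by exact_mod_cast Fintype.card_ne_zero
  set X : Fin k → G → ℂ := fun i g => ((a i).2 g).trace with hX
  set S : Finset (G → ℂ) := Finset.univ.image X with hS
  set N : (G → ℂ) → ℤ := fun f => ∑ i ∈ Finset.univ.filter (fun i => X i = f), m i with hN
  have hu' : ∀ g, ∑ i, (m i : ℂ) * ((a i).2 g).trace = ∑ f ∈ S, (N f : ℂ) * f g := by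
    intro g
    rw [← Finset.sum_fiberwise_of_maps_to (s := Finset.univ) (t := S) (g := X)
      (fun i _ => Finset.mem_image_of_mem _ (Finset.mem_univ _))]
    refine Finset.sum_congr rfl fun f _ => ?_
    rw [hN]
    push_cast
    rw [Finset.sum_mul]
    refine Finset.sum_congr rfl fun i hi => ?_
    rw [← (Finset.mem_filter.1 hi).2]
  have hrep : ∀ f ∈ S, ∃ i, X i = f := by
    intro f hf
    obtain ⟨i, _, hi⟩ := Finset.mem_image.1 hf
    exact ⟨i, hi⟩
  have horth : ∀ f ∈ S, ∀ f' ∈ S, ∑ g : G, f g * f' g⁻¹ =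
      if f = f' then (Fintype.card G : ℂ) else 0 := by
    intro f hf f' hf'
    obtain ⟨i, rfl⟩ := hrep f hf
    obtain ⟨j, rfl⟩ := hrep f' hf'
    rcases irr_orth (a i) (a j) (ha i) (ha j) with ⟨h, h'⟩ | ⟨h, g, h'⟩
    · rw [if_pos (funext h')]; exact h
    · rw [if_neg (fun h3 => h' (congrFun h3 g))]; exact h
  have hsq : ∑ f ∈ S, (N f) ^ 2 = 2 := by
    have h3 : ∑ g : G, (∑ i, (m i : ℂ) * ((a i).2 g).trace) *
        (∑ i, (m i : ℂ) * ((a i).2 g⁻¹).trace) =
        ∑ f ∈ S, ((N f : ℂ)) ^ 2 * Fintype.card G := by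
      have h4 : ∀ g : G, (∑ i, (m i : ℂ) * ((a i).2 g).trace) *
          (∑ i, (m i : ℂ) * ((a i).2 g⁻¹).trace) =
          ∑ f ∈ S, ∑ f' ∈ S, (N f : ℂ) * (N f' : ℂ) * (f g * f' g⁻¹) := by
        intro g
        rw [hu' g, hu' g⁻¹, Finset.sum_mul_sum]
        refine Finset.sum_congr rfl fun f _ => Finset.sum_congr rfl fun f' _ => by ring
      rw [Finset.sum_congr rfl fun g _ => h4 g, Finset.sum_comm]
      refine Finset.sum_congr rfl fun f hf => ?_
      rw [Finset.sum_comm]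
      have h5 : ∀ f' ∈ S, ∑ g : G, (N f : ℂ) * (N f' : ℂ) * (f g * f' g⁻¹) =
          if f = f' then (N f : ℂ) ^ 2 * Fintype.card G else 0 := by
        intro f' hf'
        rw [← Finset.mul_sum, horth f hf f' hf']
        by_cases h6 : f = f'
        · rw [if_pos h6, if_pos h6, h6]; ring
        · rw [if_neg h6, if_neg h6, mul_zero]
      rw [Finset.sum_congr rfl h5, Finset.sum_ite_eq, if_pos hf]
    rw [h3, ← Finset.sum_mul] at h2
    have h5 := mul_right_cancel₀ hcG h2
    exact_mod_cast h5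
  -- two constituents
  obtain ⟨f1, hf1, hn1⟩ : ∃ f ∈ S, N f ≠ 0 := by
    by_contra hc
    push Not at hc
    rw [Finset.sum_eq_zero (fun f hf => by rw [hc f hf]; rfl)] at hsq
    exact absurd hsq (by decide)
  have hle : ∀ f ∈ S, (N f) ^ 2 ≤ 2 := fun f hf =>
    hsq ▸ Finset.single_le_sum (f := fun f => (N f) ^ 2) (fun f _ => sq_nonneg _) hf
  have hone : ∀ f ∈ S, N f ≠ 0 → (N f) ^ 2 = 1 := by
    intro f hf h0
    have h4 := hle f hf
    have h5 : N f ≤ 1 := by nlinarith
    have h6 : -1 ≤ N f := by nlinarith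
    have h7 : N f = 1 ∨ N f = -1 := by omega
    rcases h7 with h7 | h7 <;> rw [h7] <;> norm_num
  have h1 := hone f1 hf1 hn1
  have hrest : ∑ f ∈ S.erase f1, (N f) ^ 2 = 1 := by
    have := Finset.add_sum_erase S (fun f => (N f) ^ 2) hf1
    rw [hsq, h1] at this
    linarith
  obtain ⟨f2, hf2, hn2⟩ : ∃ f ∈ S.erase f1, N f ≠ 0 := by
    by_contra hc
    push Not at hc
    rw [Finset.sum_eq_zero (fun f hf => by rw [hc f hf]; rfl)] at hrest
    exact absurd hrest (by decide)
  have hf2S : f2 ∈ S := Finset.mem_of_mem_erase hf2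
  have hne : f2 ≠ f1 := Finset.ne_of_mem_erase hf2
  have h2' := hone f2 hf2S hn2
  have hz : ∀ f ∈ S, f ≠ f1 → f ≠ f2 → N f = 0 := by
    intro f hf hf1' hf2'
    have h3 : ∑ f ∈ (S.erase f1).erase f2, (N f) ^ 2 = 0 := by
      have := Finset.add_sum_erase (S.erase f1) (fun f => (N f) ^ 2) hf2
      rw [hrest, h2'] at this
      linarith
    have h4 := (Finset.sum_eq_zero_iff_of_nonneg (fun f _ => sq_nonneg (N f))).1 h3 f
      (Finset.mem_erase.2 ⟨hf2', Finset.mem_erase.2 ⟨hf1', hf⟩⟩)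
    exact pow_eq_zero_iff (by decide) |>.1 h4
  obtain ⟨i, hi⟩ := hrep f1 hf1
  obtain ⟨j, hj⟩ := hrep f2 hf2S
  refine ⟨a i, a j, N f1, N f2, ha i, ha j, ?_, h1, h2', fun g => ?_⟩
  · by_contra hc
    push Not at hc
    apply hne
    rw [← hi, ← hj]
    exact (funext hc).symm
  · show ∑ i, (m i : ℂ) * ((a i).2 g).trace = _
    rw [hu' g, ← Finset.add_sum_erase S _ hf1, ← Finset.add_sum_erase (S.erase f1) _ hf2,
      Finset.sum_eq_zero, add_zero]
    · rw [← hi, ← hj]
    · intro f hf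
      have h5 := Finset.mem_erase.1 hf
      have h6 := Finset.mem_erase.1 h5.2
      rw [hz f h6.2 h6.1 h5.1]
      simp

variable {nc : ℕ} {g : ℕ → G} {ν inv : ℕ → ℕ} {L : List (Op G)}

/-- The bilinear form on the representatives. -/
def bil (nc : ℕ) (ν inv : ℕ → ℕ) (x y : ℕ → ℂ) : ℂ :=
  ∑ j ∈ Finset.range nc, (ν j : ℂ) * (x j * y (inv j))

lemma bil_vc [Fintype G] (H : ClsOK nc g ν inv L) {u v : G → ℂ} (hu : u ∈ VC G) (hv : v ∈ VC G)
    {x y : ℕ → ℂ} (hx : ∀ j < nc, u (g j) = x j) (hy : ∀ j < nc, v (g j) = y j) :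
    ∑ h : G, u h * v h⁻¹ = bil nc ν inv x y := by
  rw [sum_cls H (fun h => u h * v h⁻¹)]
  · refine Finset.sum_congr rfl fun j hj => ?_
    have hj' := Finset.mem_range.1 hj
    rw [hx j hj', vc_cls hv (H.invCj j hj'), hy _ (H.invLt j hj')]
  · intro x h
    rw [conj_inv', vc_conj hu, vc_conj hv]

/-- The expansion of a function in orthogonal rows. -/
lemma expand {X : ℕ → ℕ → ℂ} {t : ℂ} (ht : t ≠ 0)
    (hX : ∀ i < nc, ∀ i' < nc, bil nc ν inv (X i) (X i') = if i = i' then t else 0)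
    (w : ℕ → ℂ) : ∀ j < nc, t * w j =
      ∑ i ∈ Finset.range nc, bil nc ν inv w (X i) * X i j := by
  classical
  set M : Matrix (Fin nc) (Fin nc) ℂ := Matrix.of fun i j => X i j with hM
  set Q : Matrix (Fin nc) (Fin nc) ℂ := Matrix.of fun j i => t⁻¹ * ((ν j : ℂ) * X i (inv j))
    with hQ
  have h1 : M * Q = 1 := by
    ext i i'
    rw [Matrix.mul_apply, Matrix.one_apply]
    have h2 : ∑ j, M i j * Q j i' = t⁻¹ * bil nc ν inv (X i) (X i') := by
      unfold bil
      rw [Finset.mul_sum, Finset.sum_range]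
      refine Finset.sum_congr rfl fun j _ => ?_
      simp only [hM, hQ, Matrix.of_apply]
      ring
    rw [h2, hX i i.2 i' i'.2]
    by_cases h : i = i'
    · subst h
      simp [ht]
    · rw [if_neg (fun h3 => h (Fin.ext h3)), if_neg h, mul_zero]
  have h2 : Q * M = 1 := mul_eq_one_comm.1 h1
  intro j hj
  have h3 : (fun j' : Fin nc => w j') ᵥ* (Q * M) = fun j' : Fin nc => w j' := by
    rw [h2, Matrix.vecMul_one]
  have h4 := congrFun h3 ⟨j, hj⟩
  rw [← Matrix.vecMul_vecMul] at h4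
  simp only at h4
  rw [← h4]
  simp only [Matrix.vecMul, dotProduct]
  rw [Finset.mul_sum, Finset.sum_range]
  refine Finset.sum_congr rfl fun i _ => ?_
  have h5 : ∑ j' : Fin nc, w j' * Q j' i = t⁻¹ * bil nc ν inv w (X i) := by
    unfold bil
    rw [Finset.mul_sum, Finset.sum_range]
    refine Finset.sum_congr rfl fun j' _ => ?_
    simp only [hQ, Matrix.of_apply]
    ring
  have h6 : M i ⟨j, hj⟩ = X i j := rfl
  rw [h5, h6]
  field_simp

lemma bil_add_left (x x' y : ℕ → ℂ) :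
    bil nc ν inv (fun j => x j + x' j) y = bil nc ν inv x y + bil nc ν inv x' y := by
  unfold bil
  rw [← Finset.sum_add_distrib]
  exact Finset.sum_congr rfl fun j _ => by ring

lemma bil_add_right (x y y' : ℕ → ℂ) :
    bil nc ν inv x (fun j => y j + y' j) = bil nc ν inv x y + bil nc ν inv x y' := by
  unfold bil
  rw [← Finset.sum_add_distrib]
  exact Finset.sum_congr rfl fun j _ => by ring

lemma bil_lin (H : ∀ j < nc, inv j < nc) (α β : ℂ) (x y w : ℕ → ℂ)
    (hw : ∀ j < nc, w j = α * x j + β * y j) :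
    bil nc ν inv w w = α ^ 2 * bil nc ν inv x x + α * β * bil nc ν inv x y +
      α * β * bil nc ν inv y x + β ^ 2 * bil nc ν inv y y := by
  unfold bil
  rw [Finset.mul_sum, Finset.mul_sum, Finset.mul_sum, Finset.mul_sum, ← Finset.sum_add_distrib,
    ← Finset.sum_add_distrib, ← Finset.sum_add_distrib]
  refine Finset.sum_congr rfl fun j hj => ?_
  have hj' := Finset.mem_range.1 hj
  rw [hw j hj', hw _ (H j hj')]
  ring

end CPairX

open CPairX

/-- The last two rows of a character table, known only through their sum. -/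
theorem vv_pair {G : Type} [Group G] [Fintype G] {nc : ℕ} {g : ℕ → G} {ν inv : ℕ → ℕ}
    {L : List (Op G)} (H : ClsOK nc g ν inv L) (X : ℕ → ℕ → ℂ) {p q : ℕ} (hp : p < nc)
    (hq : q < nc) (hpq : p ≠ q) (d : ℕ → ℕ) (hd : ∀ i < nc, 0 < d i)
    (hX0 : ∀ i < nc, X i 0 = d i)
    (hv : ∀ i < nc, i ≠ p → i ≠ q → VV nc g (X i))
    (hY : VV nc g (fun j => X p j + X q j))
    (hnorm : ∀ i < nc, ∑ j ∈ Finset.range nc, (ν j : ℂ) * (X i j * X i (inv j)) =
      ∑ j ∈ Finset.range nc, (ν j : ℂ))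
    (hop : ∀ i < nc, i ≠ p → ∑ j ∈ Finset.range nc, (ν j : ℂ) * (X p j * X i (inv j)) = 0)
    (hoq : ∀ i < nc, i ≠ q → ∑ j ∈ Finset.range nc, (ν j : ℂ) * (X q j * X i (inv j)) = 0)
    (hne : ∀ i < nc, ∀ i' < nc, i ≠ i' → ∃ j < nc, X i j ≠ X i' j) :
    VV nc g (X p) ∧ VV nc g (X q) := by
  classical
  have hcard := card_eq H
  have hcG : (Fintype.card G : ℂ) ≠ 0 := by exact_mod_cast Fintype.card_ne_zero
  set t : ℂ := ∑ j ∈ Finset.range nc, (ν j : ℂ) with ht
  have ht0 : t ≠ 0 := by rw [← hcard]; exact hcG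
  have hnorm' : ∀ i < nc, bil nc ν inv (X i) (X i) = t := hnorm
  have hop' : ∀ i < nc, i ≠ p → bil nc ν inv (X p) (X i) = 0 := hop
  have hoq' : ∀ i < nc, i ≠ q → bil nc ν inv (X q) (X i) = 0 := hoq
  obtain ⟨u, huV, hux⟩ := hY
  -- the known rows
  have h1 : ∀ i < nc, i ≠ p → i ≠ q → ∃ ρ : G →* Matrix (Fin (d i)) (Fin (d i)) ℂ, IsIrr ρ ∧
      ∀ j < nc, (ρ (g j)).trace = X i j := by
    intro i hi hia hib
    obtain ⟨v, hvV, hvx⟩ := hv i hi hia hib
    obtain ⟨ρ, hρ, hρv⟩ := vc_irr hvV (hd i hi) (by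
      have := hvx 0 H.pos
      rw [H.g0] at this
      rw [this, hX0 i hi]) (by
      rw [bil_vc H hvV hvV hvx hvx, hnorm' i hi, hcard])
    exact ⟨ρ, hρ, fun j hj => by rw [hρv, hvx j hj]⟩
  choose! ρ hρ using h1
  -- the norm of `u`
  have hnu : ∑ h : G, u h * u h⁻¹ = 2 * Fintype.card G := by
    rw [bil_vc H huV huV hux hux, bil_add_left, bil_add_right, bil_add_right, hnorm' p hp,
      hnorm' q hq, hop' q hq hpq.symm, hoq' p hp hpq, hcard]
    ring
  obtain ⟨x, y, m, n, hx, hy, ⟨h0, hxy⟩, hm, hn, hu2⟩ := vc_two huV hnu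
  have hm' : (m : ℂ) ^ 2 = 1 := by exact_mod_cast hm
  have hn' : (n : ℂ) ^ 2 = 1 := by exact_mod_cast hn
  have hxx : ∑ h : G, (x.2 h).trace * (x.2 h⁻¹).trace = Fintype.card G := by
    rcases irr_orth x x hx hx with ⟨h, _⟩ | ⟨_, h, h'⟩
    · exact h
    · exact absurd rfl h'
  have hyy : ∑ h : G, (y.2 h).trace * (y.2 h⁻¹).trace = Fintype.card G := by
    rcases irr_orth y y hy hy with ⟨h, _⟩ | ⟨_, h, h'⟩
    · exact h
    · exact absurd rfl h'
  have hxy0 : ∑ h : G, (x.2 h).trace * (y.2 h⁻¹).trace = 0 := by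
    rcases irr_orth x y hx hy with ⟨_, h⟩ | ⟨h, _⟩
    · exact absurd (h h0) hxy
    · exact h
  have hyx0 : ∑ h : G, (y.2 h).trace * (x.2 h⁻¹).trace = 0 := by
    rcases irr_orth y x hy hx with ⟨_, h⟩ | ⟨h, _⟩
    · exact absurd (h h0).symm hxy
    · exact h
  -- `x` and `y` are new
  have hnew : ∀ i < nc, i ≠ p → i ≠ q → (∃ h, (x.2 h).trace ≠ ((ρ i) h).trace) ∧
      ∃ h, (y.2 h).trace ≠ ((ρ i) h).trace := by
    intro i hi hia hib
    obtain ⟨hi1, hi2⟩ := hρ i hi hia hib
    have hui : ∑ h : G, u h * ((ρ i) h⁻¹).trace = 0 := by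
      rw [bil_vc H huV (vc_tr (ρ i)) hux hi2, bil_add_left, hop' i hi hia, hoq' i hi hib,
        add_zero]
    have e1 : ∑ h : G, u h * ((ρ i) h⁻¹).trace =
        m * ∑ h : G, (x.2 h).trace * ((ρ i) h⁻¹).trace +
          n * ∑ h : G, (y.2 h).trace * ((ρ i) h⁻¹).trace := by
      rw [Finset.mul_sum, Finset.mul_sum, ← Finset.sum_add_distrib]
      refine Finset.sum_congr rfl fun h _ => ?_
      rw [hu2]; ring
    constructor
    · by_contra hc
      push Not at hc
      have e2 : ∑ h : G, (x.2 h).trace * ((ρ i) h⁻¹).trace = Fintype.card G := by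
        rw [← hxx]; exact Finset.sum_congr rfl fun h _ => by rw [hc h⁻¹]
      have e3 : ∑ h : G, (y.2 h).trace * ((ρ i) h⁻¹).trace = 0 := by
        rw [← hyx0]; exact Finset.sum_congr rfl fun h _ => by rw [hc h⁻¹]
      rw [e1, e2, e3, mul_zero, add_zero] at hui
      rcases mul_eq_zero.1 hui with h | h
      · rw [h] at hm'; norm_num at hm'
      · exact hcG h
    · by_contra hc
      push Not at hc
      have e2 : ∑ h : G, (y.2 h).trace * ((ρ i) h⁻¹).trace = Fintype.card G := by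
        rw [← hyy]; exact Finset.sum_congr rfl fun h _ => by rw [hc h⁻¹]
      have e3 : ∑ h : G, (x.2 h).trace * ((ρ i) h⁻¹).trace = 0 := by
        rw [← hxy0]; exact Finset.sum_congr rfl fun h _ => by rw [hc h⁻¹]
      rw [e1, e2, e3, mul_zero, zero_add] at hui
      rcases mul_eq_zero.1 hui with h | h
      · rw [h] at hn'; norm_num at hn'
      · exact hcG h
  -- the complete set of irreducible characters
  set c : ℕ → MRep G := fun i => if i = p then x else if i = q then y else ⟨d i, ρ i⟩ with hc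
  have hcp : c p = x := by rw [hc]; simp
  have hcq : c q = y := by rw [hc]; simp [hpq.symm]
  have hci : ∀ i, i ≠ p → i ≠ q → c i = ⟨d i, ρ i⟩ := by
    intro i h1 h2
    rw [hc]; simp [h1, h2]
  have hcirr : ∀ i < nc, IsIrr (c i).2 := by
    intro i hi
    by_cases h1 : i = p
    · subst h1; rw [hcp]; exact hx
    by_cases h2 : i = q
    · subst h2; rw [hcq]; exact hy
    rw [hci i h1 h2]; exact (hρ i hi h1 h2).1
  have hcne : ∀ i < nc, ∀ i' < nc, i ≠ i' → ∃ h, ((c i).2 h).trace ≠ ((c i').2 h).trace := by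
    intro i hi i' hi' hii
    by_cases h1 : i = p
    · subst h1
      by_cases h2 : i' = q
      · subst h2; rw [hcp, hcq]; exact ⟨h0, hxy⟩
      · rw [hcp, hci i' (Ne.symm hii) h2]
        exact (hnew i' hi' (Ne.symm hii) h2).1
    by_cases h2 : i = q
    · subst h2
      by_cases h3 : i' = p
      · subst h3; rw [hcp, hcq]; exact ⟨h0, hxy.symm⟩
      · rw [hcq, hci i' h3 (Ne.symm hii)]
        exact (hnew i' hi' h3 (Ne.symm hii)).2
    rw [hci i h1 h2]
    by_cases h3 : i' = p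
    · subst h3
      rw [hcp]
      obtain ⟨h, hh⟩ := (hnew i hi h1 h2).1
      exact ⟨h, hh.symm⟩
    by_cases h4 : i' = q
    · subst h4
      rw [hcq]
      obtain ⟨h, hh⟩ := (hnew i hi h1 h2).2
      exact ⟨h, hh.symm⟩
    rw [hci i' h3 h4]
    obtain ⟨j, hj, hj'⟩ := hne i hi i' hi' hii
    refine ⟨g j, ?_⟩
    rw [(hρ i hi h1 h2).2 j hj, (hρ i' hi' h3 h4).2 j hj]
    exact hj'
  set Y : ℕ → ℕ → ℂ := fun i j => ((c i).2 (g j)).trace with hYdef
  have hYY : ∀ i < nc, ∀ i' < nc, bil nc ν inv (Y i) (Y i') = if i = i' then t else 0 := by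
    intro i hi i' hi'
    rw [← bil_vc H (vc_tr (c i).2) (vc_tr (c i').2) (fun j _ => rfl) (fun j _ => rfl)]
    rcases irr_orth (c i) (c i') (hcirr i hi) (hcirr i' hi') with ⟨h, h'⟩ | ⟨h, h1, h'⟩
    · by_cases hii : i = i'
      · rw [if_pos hii, h, hcard]
      · obtain ⟨h2, h3⟩ := hcne i hi i' hi' hii
        exact absurd (h' h2) h3
    · rw [if_neg (by rintro rfl; exact h' rfl)]
      exact h
  -- the expansion of `X p`
  set α : ℂ := t⁻¹ * bil nc ν inv (X p) (Y p) with hα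
  set β : ℂ := t⁻¹ * bil nc ν inv (X p) (Y q) with hβ
  have hXp : ∀ j < nc, X p j = α * Y p j + β * Y q j := by
    intro j hj
    have h3 := expand ht0 hYY (X p) j hj
    have h4 : ∑ i ∈ Finset.range nc, bil nc ν inv (X p) (Y i) * Y i j =
        bil nc ν inv (X p) (Y p) * Y p j + bil nc ν inv (X p) (Y q) * Y q j := by
      rw [← Finset.add_sum_erase _ _ (Finset.mem_range.2 hp),
        ← Finset.add_sum_erase _ _ (Finset.mem_erase.2 ⟨hpq.symm, Finset.mem_range.2 hq⟩),
        Finset.sum_eq_zero, add_zero]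
      intro i hi
      have h5 := Finset.mem_erase.1 hi
      have h6 := Finset.mem_erase.1 h5.2
      have hi' := Finset.mem_range.1 h6.2
      have h7 : bil nc ν inv (X p) (Y i) = bil nc ν inv (X p) (X i) := by
        unfold bil
        refine Finset.sum_congr rfl fun k hk => ?_
        have h8 : Y i (inv k) = X i (inv k) := by
          rw [hYdef]
          simp only
          rw [hci i h6.1 h5.1]
          exact (hρ i hi' h6.1 h5.1).2 _ (H.invLt k (Finset.mem_range.1 hk))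
        rw [h8]
      rw [h7, hop' i hi' h6.1, zero_mul]
    rw [h4] at h3
    rw [hα, hβ]
    field_simp
    linear_combination h3
  have hYp : ∀ j, Y p j = (x.2 (g j)).trace := fun j => by rw [hYdef]; simp only; rw [hcp]
  have hYq : ∀ j, Y q j = (y.2 (g j)).trace := fun j => by rw [hYdef]; simp only; rw [hcq]
  have hXq : ∀ j < nc, X q j = (m - α) * Y p j + (n - β) * Y q j := by
    intro j hj
    have h3 : u (g j) = X p j + X q j := hux j hj
    rw [hu2, ← hYp, ← hYq, hXp j hj] at h3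
    linear_combination -h3
  have hpp := hYY p hp p hp
  have hqq := hYY q hq q hq
  have hpq' := hYY p hp q hq
  have hqp' := hYY q hq p hp
  rw [if_pos rfl] at hpp hqq
  rw [if_neg hpq] at hpq'
  rw [if_neg hpq.symm] at hqp'
  have n1 : α ^ 2 + β ^ 2 = 1 := by
    have h3 := bil_lin (ν := ν) H.invLt α β (Y p) (Y q) (X p) hXp
    rw [hnorm' p hp, hpp, hqq, hpq', hqp'] at h3
    have h4 : (α ^ 2 + β ^ 2 - 1) * t = 0 := by linear_combination -h3
    rcases mul_eq_zero.1 h4 with h5 | h5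
    · exact sub_eq_zero.1 h5
    · exact absurd h5 ht0
  have n2 : (m - α) ^ 2 + (n - β) ^ 2 = 1 := by
    have h3 := bil_lin (ν := ν) H.invLt (m - α) (n - β) (Y p) (Y q) (X q) hXq
    rw [hnorm' q hq, hpp, hqq, hpq', hqp'] at h3
    have h4 : ((m - α) ^ 2 + (n - β) ^ 2 - 1) * t = 0 := by linear_combination -h3
    rcases mul_eq_zero.1 h4 with h5 | h5
    · exact sub_eq_zero.1 h5
    · exact absurd h5 ht0
  have n3 : m * α + n * β = 1 := by linear_combination (hm' + hn' + n1 - n2) / 2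
  have n4 : (m * α) * (n * β) = 0 := by
    linear_combination (n3 * (m * α + n * β + 1) - hm' * α ^ 2 - hn' * β ^ 2 - n1) / 2
  have hxV : (fun h => (m : ℂ) * (x.2 h).trace) ∈ VC G := by
    have h := (VC G).zsmul_mem (vc_tr x.2) m
    have e : (m • fun h => (x.2 h).trace) = fun h => (m : ℂ) * (x.2 h).trace := by
      funext h; simp
    rwa [e] at h
  have hyV : (fun h => (n : ℂ) * (y.2 h).trace) ∈ VC G := by
    have h := (VC G).zsmul_mem (vc_tr y.2) n
    have e : (n • fun h => (y.2 h).trace) = fun h => (n : ℂ) * (y.2 h).trace := by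
      funext h; simp
    rwa [e] at h
  rcases mul_eq_zero.1 n4 with h | h
  · -- `α = 0`, `β = n`
    have hα0 : α = 0 := by
      linear_combination m * h - α * hm'
    have hβn : β = n := by
      linear_combination n * n3 - n * h - β * hn'
    refine ⟨⟨_, hyV, fun j hj => ?_⟩, ⟨_, hxV, fun j hj => ?_⟩⟩
    · rw [hXp j hj, hα0, hβn, hYq]; ring
    · rw [hXq j hj, hα0, hβn, hYp]; ring
  · have hβ0 : β = 0 := by
      linear_combination n * h - β * hn'
    have hαm : α = m := by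
      linear_combination m * n3 - m * h - α * hm'
    refine ⟨⟨_, hxV, fun j hj => ?_⟩, ⟨_, hyV, fun j hj => ?_⟩⟩
    · rw [hXp j hj, hβ0, hαm, hYp]; ring
    · rw [hXq j hj, hβ0, hαm, hYq]; ring

end

end Pool.Agent.CMFn
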