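import Pool.Agent.CMFn.CQP

/-! Project CMFn, blocks C and Q: class data of parabolic subgroups (definitions and checks).
helper28. -/

namespace Pool.Agent.CMFn

open Matrix

noncomputable section

/-- Data of the subgroup `W` generated by the reflections which fix a vector `p`, relative to the
data `d` of the whole group and its family `o` of reflections:
* `p`: the vector; `fx`: the set of the indices `i < o.m` of the reflections which fix `p` (bits);
* `mJ`, `fl`: their number and their increasing list (width 8);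
* `nc`, `rw`: the number of classes of `W` and representatives `g_c` (words in the letters of `W`,
  digits `letter + 1` in base 256), `g_0 = 1`;
* `D`: for every class `c` the digits (width `wD`) `k + 256 * word`, for `t < mJ`, with
  `s_t g_c = h g_k h⁻¹`, `h` a word in the letters of `W`;
* `fus`: for every class `c` the number `k + 256 * word`, with `g_c = h g_k h⁻¹`, `g_k` the
  representative of class `k` of the whole group;
* `N`, `ev`: for every eigenvalue `ep - en` of the sum of the reflections of `W` the triple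
  `(ep, en, T)`, where `T` has the digits (width `wA`) `B c + off`, with
  `∑_c B c #{t | k(t, c) = l} = (ep - en) B l`, and with `∑_ev B c = N` for `c = 0`, else `0`. -/
structure PJ (α : Type) where
  p : List α
  fx : ℕ
  mJ : ℕ
  fl : ℕ
  nc : ℕ
  rw : Tr
  wD : ℕ
  D : Tr
  fus : Tr
  N : ℕ
  off : ℕ
  wA : ℕ
  wQ : ℕ
  ev : List (ℕ × ℕ × ℕ)

namespace PJ

variable {α : Type} (P : PJ α) (d : GD α) (o : OD)

/-- The vector `p`, as a record of `CQB`. -/
def toPD : PD α := ⟨0, P.p, 0, [], .lf 0, [], 0, .lf 0, 0, 0⟩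

def fi (t : ℕ) : ℕ := dg 8 P.fl t

def kj (t c : ℕ) : ℕ := Nat.mod (dg P.wD (P.D.get c) t) 256

def wj (t c : ℕ) : List ℕ := wd 24 (Nat.div (dg P.wD (P.D.get c) t) 256)

def rj (c : ℕ) : List ℕ := wd 24 (P.rw.get c)

def kf (c : ℕ) : ℕ := Nat.mod (P.fus.get c) 256

def wf (c : ℕ) : List ℕ := wd 24 (Nat.div (P.fus.get c) 256)

/-- The letter `a` is a reflection of `W`. -/
def inJ (a : ℕ) : Bool :=
  cond (Nat.ble o.s a) (cond (Nat.blt a (Nat.add o.s o.m)) (GD.bit P.fx (Nat.sub a o.s)) false)
    false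

/-- The reflections which fix `p`. -/
def chkFx (i : ℕ) : Bool :=
  cond (P.toPD.fix d o i)
    (cond (GD.bit P.fx i) (anyN P.mJ fun t => Nat.beq (P.fi t) i) false)
    (Bool.not (GD.bit P.fx i))

def chkFl (t : ℕ) : Bool :=
  cond (Nat.blt (P.fi t) o.m) (cond (GD.bit P.fx (P.fi t))
    (cond (Nat.beq t 0) true (Nat.blt (P.fi (Nat.pred t)) (P.fi t))) false) false

/-- The family `o` has no repetitions, and `g_0 = 1`. -/
def chkHd : Bool :=
  cond (Nat.blt 0 P.nc) (cond (Nat.beq (P.rw.get 0) 0) (cond (Nat.blt 0 P.N)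
    (Nat.beq (d.nuv (d.kk o 0 0)) o.m) false) false) false

/-- The row of the class `c`. -/
def chkD (c : ℕ) : Bool :=
  cond (allL (P.rj c) fun a => P.inJ o a)
    (allN P.mJ fun t => cond (Nat.blt (P.kj t c) P.nc)
      (cond (allL (P.wj t c) fun a => P.inJ o a)
        (allN d.r fun x => Nat.beq
          (d.tb (Nat.add o.s (P.fi t)) (d.actw (P.rj c) (d.actw (P.wj t c) x)))
          (d.actw (P.wj t c) (d.actw (P.rj (P.kj t c)) x))) false) false) false

def chkFu (c : ℕ) : Bool :=
  cond (Nat.blt (P.kf c) d.nc) (cond (allL (P.wf c) fun a => Nat.blt a d.A)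
    (allN d.r fun x => Nat.beq (d.actw (P.rj c) (d.actw (P.wf c) x))
      (d.actw (P.wf c) (d.tb (Nat.add d.rep (P.kf c)) x))) false) false

def evg (u : ℕ) : ℕ × ℕ × ℕ := P.ev.getD u (0, 0, 0)

/-- `B c + off`. -/
def bb (u c : ℕ) : ℕ := dg P.wA (P.evg u).2.2 c

/-- `∑_t 2 ^ (wQ * k(t, c))`. -/
def qc (c : ℕ) : ℕ := sumN P.mJ fun t => Nat.pow 2 (Nat.mul P.wQ (P.kj t c))

/-- The eigenvector equation of number `u`. -/
def chkEv (u : ℕ) : Bool :=
  cond (Nat.ble (Nat.mul (Nat.mul 2 P.off) (Nat.add (Nat.mul P.nc P.mJ)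
      (Nat.succ (Nat.add (P.evg u).1 (P.evg u).2.1)))) (Nat.pow 2 P.wQ))
    (cond (allN P.nc fun c => Nat.blt (P.bb u c) (Nat.mul 2 P.off))
      (Nat.beq
        (sumN P.nc fun c => Nat.add (Nat.mul (P.bb u c) (P.qc c))
          (Nat.mul (Nat.add (Nat.mul (P.evg u).2.1 (P.bb u c)) (Nat.mul (P.evg u).1 P.off))
            (Nat.pow 2 (Nat.mul P.wQ c))))
        (sumN P.nc fun c => Nat.add (Nat.mul P.off (P.qc c))
          (Nat.mul (Nat.add (Nat.mul (P.evg u).1 (P.bb u c)) (Nat.mul (P.evg u).2.1 P.off))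
            (Nat.pow 2 (Nat.mul P.wQ c))))) false) false

/-- The sum of the weights of the class `c`. -/
def chkSum (c : ℕ) : Bool :=
  Nat.beq (sumN P.ev.length fun u => P.bb u c)
    (Nat.add (Nat.mul P.ev.length P.off) (cond (Nat.beq c 0) P.N 0))

/-- The eigenvalue of number `u` differs from the earlier ones. -/
def chkDst (u : ℕ) : Bool :=
  allN u fun v => Bool.not (Nat.beq (Nat.add (P.evg u).1 (P.evg v).2.1)
    (Nat.add (P.evg v).1 (P.evg u).2.1))

/-- All the checks for the subgroup. -/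
structure Ck : Prop where
  all : PD.chkAll d o = true
  fx : ∀ i < o.m, P.chkFx d o i = true
  fl : ∀ t < P.mJ, P.chkFl o t = true
  hd : P.chkHd d o = true
  dd : ∀ c < P.nc, P.chkD d o c = true
  fu : ∀ c < P.nc, P.chkFu d c = true
  ev : ∀ u < P.ev.length, P.chkEv u = true
  sum : ∀ c < P.nc, P.chkSum c = true
  dst : ∀ u < P.ev.length, P.chkDst u = true

/-- `B c` in the ring of the data. -/
def bw (u c : ℕ) : α := d.c.add (d.c.nat (P.bb u c)) (d.c.neg (d.c.nat P.off))

/-- The eigenvalue of number `u` has multiplicity `m` in the representation `i`. -/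
def chkRk (u i m : ℕ) : Bool :=
  cond (Nat.blt u P.ev.length)
    (d.c.eq (d.sum P.nc fun c => d.c.mul (P.bw d u c) (d.X i (P.kf c))) (d.c.nat (Nat.mul P.N m)))
    false

end PJ

section

variable {G : Type} [Group G] {r : ℕ}

open Classical in
/-- The sum of the reflections which fix `p`, in the representation `a`. -/
def ZP [Fintype G] (V : G →* Matrix (Fin r) (Fin r) ℂ) (p : Fin r → ℂ) (a : MRep G) :
    Matrix (Fin a.1) (Fin a.1) ℂ := ∑ g : G, if g ∈ PR V p then a.2 g else 0

/-- The multiplicity of the eigenvalue `κ` of `ZP V p a`. -/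
def rkE [Fintype G] (V : G →* Matrix (Fin r) (Fin r) ℂ) (p : Fin r → ℂ) (κ : ℂ) (a : MRep G) :
    ℕ := Module.finrank ℂ (Module.End.eigenspace (Matrix.toLin' (ZP V p a)) κ)

end

end

end Pool.Agent.CMFn
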