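import Pool.Agent.CMFn.CParA
import Pool.Agent.CMFn.CParD

/-! Project CMFn, blocks C and Q: multiplicities of the eigenvalues of sums of reflections of
parabolic subgroups, soundness of the checks of CParD.  helper28. -/

namespace Pool.Agent.CMFn

open Matrix

noncomputable section

namespace PJ

variable {α : Type} (P : PJ α) {d : GD α} {o : OD}

/-- The number of `t` with `k(t, c) = l`. -/
def cnt (c l : ℕ) : ℕ := ((List.range P.mJ).map fun t => P.kj t c).count l

lemma cnt_le (c l : ℕ) : P.cnt c l ≤ P.mJ := by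
  refine (List.count_le_length).trans ?_
  simp

variable {P}

lemma qc_eq {c : ℕ} (hk : ∀ t < P.mJ, P.kj t c < P.nc) :
    P.qc c = ∑ l ∈ Finset.range P.nc, P.cnt c l * (2 ^ P.wQ) ^ l := by
  have h1 := GD.sum_count' (fun t => P.kj t c) hk (fun l => (2 ^ P.wQ) ^ l)
  rw [show P.qc c = ∑ t ∈ Finset.range P.mJ, (2 ^ P.wQ) ^ (P.kj t c) by
    unfold qc
    rw [sumN_eq]
    refine Finset.sum_congr rfl fun t _ => ?_
    rw [← pow_mul]
    rfl]
  exact h1

/-- The eigenvector equation. -/
lemma ev_of {u : ℕ} (hk : ∀ c < P.nc, ∀ t < P.mJ, P.kj t c < P.nc) (h : P.chkEv u = true) :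
    ∀ l < P.nc, ∑ c ∈ Finset.range P.nc, P.bb u c * P.cnt c l +
      ((P.evg u).2.1 * P.bb u l + (P.evg u).1 * P.off) =
      ∑ c ∈ Finset.range P.nc, P.off * P.cnt c l +
      ((P.evg u).1 * P.bb u l + (P.evg u).2.1 * P.off) := by
  unfold chkEv at h
  simp only [cond_iff, ble_iff, allN_iff, blt_iff, beq_iff, sumN_eq] at h
  obtain ⟨h1, h2, h3⟩ := h
  set a := (P.evg u).1 with ha
  set b := (P.evg u).2.1 with hb
  have h1' : 2 * P.off * (P.nc * P.mJ + (a + b + 1)) ≤ 2 ^ P.wQ := h1
  have hlt : ∀ c < P.nc, P.bb u c < 2 * P.off := h2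
  refine pow_sum_inj (B := 2 ^ P.wQ) (fun l hl => ?_) (fun l hl => ?_) ?_
  · refine lt_of_lt_of_le ?_ h1'
    have e1 : ∑ c ∈ Finset.range P.nc, P.bb u c * P.cnt c l ≤ P.nc * (2 * P.off * P.mJ) := by
      refine (Finset.sum_le_sum fun c hc => Nat.mul_le_mul (hlt c (Finset.mem_range.1 hc)).le
        (P.cnt_le c l)).trans ?_
      simp
    have e2 : b * P.bb u l ≤ b * (2 * P.off) := Nat.mul_le_mul_left _ (hlt l hl).le
    have e3 : a * P.off ≤ a * (2 * P.off) := Nat.mul_le_mul_left _ (by omega)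
    have e4 : 0 < 2 * P.off := by have := hlt l hl; omega
    nlinarith [e1, e2, e3, e4]
  · refine lt_of_lt_of_le ?_ h1'
    have e1 : ∑ c ∈ Finset.range P.nc, P.off * P.cnt c l ≤ P.nc * (2 * P.off * P.mJ) := by
      refine (Finset.sum_le_sum fun c hc => Nat.mul_le_mul (show P.off ≤ 2 * P.off by omega)
        (P.cnt_le c l)).trans ?_
      simp
    have e2 : a * P.bb u l ≤ a * (2 * P.off) := Nat.mul_le_mul_left _ (hlt l hl).le
    have e3 : b * P.off ≤ b * (2 * P.off) := Nat.mul_le_mul_left _ (by omega)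
    have e4 : 0 < 2 * P.off := by have := hlt l hl; omega
    nlinarith [e1, e2, e3, e4]
  · have key : ∀ f : ℕ → ℕ, ∀ q : ℕ → ℕ,
        ∑ c ∈ Finset.range P.nc, (f c * P.qc c + q c * 2 ^ (P.wQ * c)) =
        ∑ l ∈ Finset.range P.nc, (∑ c ∈ Finset.range P.nc, f c * P.cnt c l + q l) *
          (2 ^ P.wQ) ^ l := by
      intro f q
      simp only [add_mul, Finset.sum_add_distrib]
      congr 1
      · rw [Finset.sum_congr rfl fun c hc => by
          rw [qc_eq (hk c (Finset.mem_range.1 hc)), Finset.mul_sum], Finset.sum_comm]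
        refine Finset.sum_congr rfl fun l _ => ?_
        rw [Finset.sum_mul]
        refine Finset.sum_congr rfl fun c _ => ?_
        ring
      · refine Finset.sum_congr rfl fun l _ => ?_
        rw [← pow_mul]
    rw [← key (fun c => P.bb u c) (fun c => b * P.bb u c + a * P.off),
      ← key (fun _ => P.off) (fun c => a * P.bb u c + b * P.off)]
    exact h3

end PJ

variable {G : Type} [Group G] {α : Type}

namespace GD

variable {d : GD α} {φ : α → ℂ} {r : ℕ} {V : G →* Matrix (Fin r) (Fin r) ℂ} {e : ℕ → ℂ}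
  {γ : ℕ → G}

/-- A family which is a whole class of the right size has no repetitions. -/
lemma fam_inj [Fintype G] {lt : ℕ → G} {o : OD}
    (H : ClsOK d.nc (fun j => lt (d.rep + j)) d.nuv d.ik (d.ops.map (d.toOp lt)))
    (ho : o ∈ d.ops) (hm : 0 < o.m) (h : d.nuv (d.kk o 0 0) = o.m) {i j : ℕ} (hi : i < o.m)
    (hj : j < o.m) (hij : lt (o.s + i) = lt (o.s + j)) : i = j := by
  classical
  have hop := H.ops _ (List.mem_map.2 ⟨o, ho, rfl⟩)
  have h1 := hop.cj 0 hm 0 H.pos
  rw [H.g0, mul_one] at h1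
  have hk0 := hop.lt 0 hm 0 H.pos
  set g0 : G := lt (d.rep + d.kk o 0 0) with hg0
  have h1' : Cj (lt (o.s + 0)) g0 := h1
  have hk0' : d.kk o 0 0 < d.nc := hk0
  have h2 := sum_cls H (fun x => if Cj x g0 then (1 : ℂ) else 0) (by
    intro x y
    have : Cj (y * x * y⁻¹) g0 ↔ Cj x g0 := by
      constructor
      · intro h3
        exact Cj.trans ⟨y⁻¹, by group⟩ h3
      · intro h3
        exact Cj.trans ⟨y, rfl⟩ h3
    simp only [this])
  have h3 : (Finset.univ.filter fun x : G => Cj x g0).card =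
      ∑ j ∈ Finset.range d.nc, d.nuv j * if Cj (lt (d.rep + j)) g0 then 1 else 0 := by
    have h4 : (((Finset.univ.filter fun x : G => Cj x g0).card : ℕ) : ℂ) =
        ((∑ j ∈ Finset.range d.nc, d.nuv j * if Cj (lt (d.rep + j)) g0 then 1 else 0 : ℕ) : ℂ) := by
      push_cast
      rw [← h2, Finset.sum_boole]
    exact_mod_cast h4
  have h5 : o.m ≤ (Finset.univ.filter fun x : G => Cj x g0).card := by
    rw [h3, ← h]
    refine le_trans ?_ (Finset.single_le_sum (f := fun j => d.nuv j *
      if Cj (lt (d.rep + j)) g0 then 1 else 0) (fun _ _ => Nat.zero_le _)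
      (Finset.mem_range.2 hk0'))
    rw [if_pos (Cj.refl _), mul_one]
  have h6 : (Finset.univ.filter fun x : G => Cj x g0) ⊆
      (Finset.range o.m).image fun i => lt (o.s + i) := by
    intro x hx
    rw [Finset.mem_filter] at hx
    obtain ⟨y, hy⟩ := hx.2.trans h1'.symm
    obtain ⟨q, hq⟩ := hop.conj y
    have h7 := hq ⟨0, hm⟩
    rw [Finset.mem_image]
    exact ⟨q ⟨0, hm⟩, Finset.mem_range.2 (q ⟨0, hm⟩).2, (hy.trans h7).symm⟩
  have h7 := h5.trans (Finset.card_le_card h6)
  have h8 : ((Finset.range o.m).image fun i => lt (o.s + i)).card = (Finset.range o.m).card := by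
    refine le_antisymm Finset.card_image_le ?_
    rw [Finset.card_range]
    exact h7
  have h9 := Finset.card_image_iff.1 h8
  exact h9 (by simpa using hi) (by simpa using hj) hij

variable {P : PJ α} {o : OD}

open Classical in
/-- Multiplicities of the eigenvalues of `ZP` in every representation. -/
theorem rk_form [Fintype G] (hc : CRS d.c φ e) (hG : Gp d φ V γ) (CA : CkA d)
    (tt : d.chkT = true) {lt : ℕ → G} {a : ℕ → MRep G} (O : Out d φ V γ lt a) (ho : o ∈ d.ops)
    (hg : o.gen < d.ng) (C : P.Ck d o) {u : ℕ} (hu : u < P.ev.length) (b : MRep G) :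
    (P.N : ℂ) * (rkE V (P.toPD.vec d φ r) ((P.evg u).1 - (P.evg u).2.1) b : ℂ) =
      ∑ c ∈ Finset.range P.nc, ((P.bb u c : ℂ) - P.off) *
        (b.2 (lt (d.rep + P.kf c))).trace := by
  have hB := bas_of hc hG CA.base
  have hL := O.ltr
  have hbase := CA.base
  unfold chkBase at hbase
  simp only [cond_iff, ble_iff, allN_iff] at hbase
  have hrep : d.rep + d.nc ≤ d.A := hbase.2.1
  have hoA : o.s + o.m ≤ d.A := by
    have := CA.conj o ho
    unfold chkConj at this
    simp only [cond_iff, ble_iff] at this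
    exact this.1
  have hm : 0 < o.m := by
    have := C.all
    unfold PD.chkAll at this
    simp only [cond_iff, blt_iff] at this
    exact this.1
  have hhd := C.hd
  unfold PJ.chkHd at hhd
  simp only [cond_iff, blt_iff, beq_iff] at hhd
  obtain ⟨hnc, hw0, hN, hnu⟩ := hhd
  set p := P.toPD.vec d φ r with hp
  set S := PR V p with hS
  set W := Subgroup.closure S with hW
  -- the family
  have hfam : ∀ x : G, (V x - 1).rank = 1 → ∃ i < o.m, x = lt (o.s + i) := fun x hx =>
    (mem_familyP hc hG CA tt O ho C.all hx).1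
  have hinj : ∀ i < o.m, ∀ j < o.m, lt (o.s + i) = lt (o.s + j) → i = j := fun i hi j hj h =>
    fam_inj O.cls ho hm hnu hi hj h
  have hfx : ∀ i < o.m, (bit P.fx i = true ↔ lt (o.s + i) ∈ S) := by
    intro i hi
    have h1 := C.fx i hi
    unfold PJ.chkFx at h1
    have h2 := fix_iff (P := P.toPD) hc hG hB hL hoA hi
    constructor
    · intro h3
      rw [h3] at h1
      cases h4 : P.toPD.fix d o i with
      | true => exact ⟨O.refl o ho hg i hi, h2.1 h4⟩
      | false => rw [h4] at h1; simp at h1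
    · intro h3
      rw [h2.2 h3.2, cond_true] at h1
      rw [cond_iff] at h1
      exact h1.1
  have hfl : ∀ i < o.m, bit P.fx i = true → ∃ t < P.mJ, P.fi t = i := by
    intro i hi h3
    have h1 := C.fx i hi
    unfold PJ.chkFx at h1
    have h2 := fix_iff (P := P.toPD) hc hG hB hL hoA hi
    rw [h2.2 ((hfx i hi).1 h3).2, cond_true, cond_iff, anyN_iff] at h1
    obtain ⟨t, ht, h4⟩ := h1.2
    exact ⟨t, ht, beq_iff.1 h4⟩
  have hft : ∀ t < P.mJ, P.fi t < o.m ∧ bit P.fx (P.fi t) = true := by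
    intro t ht
    have h1 := C.fl t ht
    unfold PJ.chkFl at h1
    simp only [cond_iff, blt_iff] at h1
    exact ⟨h1.1, h1.2.1⟩
  have hmono : ∀ t, ∀ t' < P.mJ, t < t' → P.fi t < P.fi t' := by
    intro t t'
    induction t' with
    | zero => intro _ h; omega
    | succ t' ih =>
      intro h1 h2
      have h3 := C.fl (t' + 1) h1
      unfold PJ.chkFl at h3
      simp only [cond_iff, blt_iff] at h3
      have h4 : Nat.beq (t' + 1) 0 = false := by
        rw [← Bool.not_eq_true, beq_iff]; omega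
      have h5 := h3.2.2
      rw [h4, cond_false, blt_iff] at h5
      have h6 : P.fi t' < P.fi (t' + 1) := h5
      rcases Nat.lt_or_ge t t' with h7 | h7
      · exact (ih (by omega) h7).trans h6
      · have : t = t' := by omega
        rw [this]; exact h6
  have hfinj : ∀ t < P.mJ, ∀ t' < P.mJ, P.fi t = P.fi t' → t = t' := by
    intro t ht t' ht' h
    rcases Nat.lt_trichotomy t t' with h1 | h1 | h1
    · have := hmono t t' ht' h1; omega
    · exact h1
    · have := hmono t' t ht h1; omega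
  have hinJ : ∀ x, P.inJ o x = true → x < d.A ∧ lt x ∈ S := by
    intro x hx
    unfold PJ.inJ at hx
    simp only [cond_iff, ble_iff, blt_iff] at hx
    obtain ⟨h1, h2, h3⟩ := hx
    have h2' : x < o.s + o.m := h2
    have h4 := (hfx (x - o.s) (by omega)).1 h3
    rw [show o.s + (x - o.s) = x by omega] at h4
    exact ⟨by omega, h4⟩
  have hword : ∀ w : List ℕ, (allL w fun x => P.inJ o x) = true →
      (w.map lt).prod ∈ W ∧ d.Tb φ V (w.map lt).prod (d.actw w) := by
    intro w hw
    rw [allL_iff] at hw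
    refine ⟨Subgroup.list_prod_mem _ ?_, actw_tb hL.tb w fun x hx => (hinJ x (hw x hx)).1⟩
    intro x hx
    obtain ⟨y, hy, rfl⟩ := List.mem_map.1 hx
    exact Subgroup.subset_closure (hinJ y (hw y hy)).2
  -- the elements of the subgroup
  have hdd := C.dd
  have hgw : ∀ c < P.nc, ((P.rj c).map lt).prod ∈ W ∧
      d.Tb φ V ((P.rj c).map lt).prod (d.actw (P.rj c)) := by
    intro c hc'
    have h1 := hdd c hc'
    unfold PJ.chkD at h1
    rw [cond_iff] at h1
    exact hword _ h1.1
  let gW : ℕ → W := fun c => if h : c < P.nc then ⟨((P.rj c).map lt).prod, (hgw c h).1⟩ else 1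
  have hgW : ∀ c < P.nc, (gW c : G) = ((P.rj c).map lt).prod := by
    intro c h
    simp only [gW, dif_pos h]
  let sW : ℕ → W := fun t => if h : t < P.mJ then
    ⟨lt (o.s + P.fi t), Subgroup.subset_closure ((hfx _ (hft t h).1).1 (hft t h).2)⟩ else 1
  have hsW : ∀ t < P.mJ, (sW t : G) = lt (o.s + P.fi t) := by
    intro t h
    simp only [sW, dif_pos h]
  have hkk : ∀ t < P.mJ, ∀ c < P.nc, P.kj t c < P.nc ∧ Cj (sW t * gW c) (gW (P.kj t c)) := by
    intro t ht c hc'
    have h1 := hdd c hc'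
    unfold PJ.chkD at h1
    simp only [cond_iff, allN_iff, blt_iff, beq_iff, hG.hr] at h1
    obtain ⟨-, h2⟩ := h1
    obtain ⟨h3, h4, h5⟩ := h2 t ht
    obtain ⟨h6, h7⟩ := hword _ h4
    refine ⟨h3, ⟨((P.wj t c).map lt).prod, h6⟩, ?_⟩
    rw [eq_mul_inv_iff_mul_eq]
    apply Subtype.ext
    show ((sW t : G) * (gW c : G)) * ((P.wj t c).map lt).prod =
      ((P.wj t c).map lt).prod * (gW (P.kj t c) : G)
    rw [hsW t ht, hgW c hc', hgW _ h3]
    exact Tb.ext hB hG.inj (((hL.tb (o.s + P.fi t) (by have := (hft t ht).1; omega)).mul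
      (hgw c hc').2).mul h7) (h7.mul (hgw _ h3).2) h5
  -- conjugation
  have hWp : ∀ x ∈ W, V x *ᵥ p = p := by
    intro x hx
    induction hx using Subgroup.closure_induction with
    | mem x hx => exact hx.2
    | one => rw [map_one, Matrix.one_mulVec]
    | mul x y _ _ hx hy => rw [map_mul, ← Matrix.mulVec_mulVec, hy, hx]
    | inv x _ hx =>
      have h1 : V x⁻¹ *ᵥ (V x *ᵥ p) = p := by
        rw [Matrix.mulVec_mulVec, ← map_mul, inv_mul_cancel, map_one, Matrix.one_mulVec]
      rwa [hx] at h1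
  have hS' : ∀ x : G, x ∈ S ↔ ∃ t < P.mJ, x = lt (o.s + P.fi t) := by
    intro x
    constructor
    · intro hx
      obtain ⟨i, hi, rfl⟩ := hfam x hx.1
      obtain ⟨t, ht, h1⟩ := hfl i hi ((hfx i hi).2 hx)
      exact ⟨t, ht, by rw [h1]⟩
    · rintro ⟨t, ht, rfl⟩
      exact (hfx _ (hft t ht).1).1 (hft t ht).2
  have hcf : ConjFam (fun t : Fin P.mJ => sW t) := by
    intro h
    have h1 : ∀ t : Fin P.mJ, ∃ t' : Fin P.mJ, h * sW t * h⁻¹ = sW t' := by
      intro t
      have h2 : (h : G) * lt (o.s + P.fi t) * (h : G)⁻¹ ∈ S := by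
        have h3 := (hS' _).2 ⟨t, t.2, rfl⟩
        refine ⟨?_, ?_⟩
        · rw [rank_conj]; exact h3.1
        · have h4 := hWp _ h.2
          have h5 := hWp _ (W.inv_mem h.2)
          rw [map_mul, map_mul, ← Matrix.mulVec_mulVec, ← Matrix.mulVec_mulVec, h5, h3.2, h4]
      obtain ⟨t', ht', h3⟩ := (hS' _).1 h2
      refine ⟨⟨t', ht'⟩, Subtype.ext ?_⟩
      show (h : G) * (sW t : G) * (h : G)⁻¹ = (sW t' : G)
      rw [hsW _ t.2, hsW t' ht', h3]
    choose f hf using h1
    have hfi : Function.Injective f := by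
      intro t t' htt
      have h2 := (hf t).trans ((congrArg (fun x : Fin P.mJ => sW x) htt).trans (hf t').symm)
      have h3 : sW t = sW t' := mul_left_cancel (mul_right_cancel h2)
      have h4 := congrArg (Subtype.val : W → G) h3
      rw [hsW _ t.2, hsW _ t'.2] at h4
      exact Fin.ext (hfinj t t.2 t' t'.2 (hinj _ (hft t t.2).1 _ (hft t' t'.2).1 h4))
    exact ⟨Equiv.ofBijective f (Finite.injective_iff_bijective.1 hfi), hf⟩
  -- the representation
  have hZ : ZP V p b = ∑ t ∈ Finset.range P.mJ, (b.2.comp W.subtype) (sW t) := by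
    unfold ZP
    rw [← Finset.sum_filter]
    have h1 : (Finset.univ.filter fun x : G => x ∈ PR V p) =
        (Finset.range P.mJ).image fun t => lt (o.s + P.fi t) := by
      ext x
      rw [Finset.mem_filter, Finset.mem_image]
      constructor
      · rintro ⟨-, hx⟩
        obtain ⟨t, ht, h2⟩ := (hS' x).1 hx
        exact ⟨t, Finset.mem_range.2 ht, h2.symm⟩
      · rintro ⟨t, ht, h2⟩
        exact ⟨Finset.mem_univ _, (hS' x).2 ⟨t, Finset.mem_range.1 ht, h2.symm⟩⟩
    rw [h1, Finset.sum_image]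
    · refine Finset.sum_congr rfl fun t ht => ?_
      show b.2 (lt (o.s + P.fi t)) = b.2 (sW t : G)
      rw [hsW t (Finset.mem_range.1 ht)]
    · intro t ht t' ht' h2
      have ht1 : t < P.mJ := by simpa using ht
      have ht2 : t' < P.mJ := by simpa using ht'
      exact hfinj t ht1 t' ht2 (hinj _ (hft t ht1).1 _ (hft t' ht2).1 h2)
  have hkc : ∀ c < P.nc, ∀ t < P.mJ, P.kj t c < P.nc := fun c hc' t ht => (hkk t ht c hc').1
  have h0 : gW 0 = 1 := by
    apply Subtype.ext
    rw [hgW 0 hnc]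
    have h1 : P.rj 0 = [] := by
      unfold PJ.rj
      rw [hw0]
      rfl
    rw [h1]
    rfl
  have main := spec_rank (W := W) (b.2.comp W.subtype) (m := P.mJ) (nc := P.nc) (U := P.ev.length)
    (s := sW) (g := gW) (k := P.kj) (B := fun u c => (P.bb u c : ℂ) - P.off)
    (ev := fun u => ((P.evg u).1 : ℂ) - (P.evg u).2.1) (N := P.N) hcf h0 hnc hkk
    (by exact_mod_cast hN.ne') (by
      intro v hv l hl
      have h1 := PJ.ev_of hkc (C.ev v hv) l hl
      have h2 : ((∑ c ∈ Finset.range P.nc, P.bb v c * P.cnt c l +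
        ((P.evg v).2.1 * P.bb v l + (P.evg v).1 * P.off) : ℕ) : ℂ) =
        ((∑ c ∈ Finset.range P.nc, P.off * P.cnt c l +
        ((P.evg v).1 * P.bb v l + (P.evg v).2.1 * P.off) : ℕ) : ℂ) := by rw [h1]
      push_cast at h2
      have h3 : ∑ c ∈ Finset.range P.nc, ((P.bb v c : ℂ) - P.off) *
          (((List.range P.mJ).map fun t => P.kj t c).count l : ℕ) =
          ∑ c ∈ Finset.range P.nc, (P.bb v c : ℂ) * (P.cnt c l : ℂ) -
          ∑ c ∈ Finset.range P.nc, (P.off : ℂ) * (P.cnt c l : ℂ) := by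
        rw [← Finset.sum_sub_distrib]
        refine Finset.sum_congr rfl fun c _ => ?_
        rw [← sub_mul]
        rfl
      rw [h3]
      linear_combination h2) (by
      intro c hc'
      have h1 := C.sum c hc'
      unfold PJ.chkSum at h1
      rw [beq_iff, sumN_eq] at h1
      have h2 : ((∑ i ∈ Finset.range P.ev.length, P.bb i c : ℕ) : ℂ) =
        ((P.ev.length * P.off + (cond (Nat.beq c 0) P.N 0) : ℕ) : ℂ) := by
        exact congrArg _ h1
      push_cast at h2
      rw [Finset.sum_sub_distrib, h2, Finset.sum_const, Finset.card_range, nsmul_eq_mul]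
      by_cases hc0 : c = 0
      · subst hc0; simp
      · have : Nat.beq c 0 = false := by
          rw [← Bool.not_eq_true, beq_iff]; exact hc0
        rw [this, if_neg hc0]; simp) (by
      intro v hv v' hv' h1
      have h2 := C.dst v hv
      unfold PJ.chkDst at h2
      rw [allN_iff] at h2
      have h3 := h2 v' hv'
      rw [Bool.not_eq_true', ← Bool.not_eq_true, beq_iff] at h3
      apply h3
      have h4 : (((P.evg v).1 + (P.evg v').2.1 : ℕ) : ℂ) = (((P.evg v').1 + (P.evg v).2.1 : ℕ) : ℂ) := by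
        push_cast
        linear_combination h1
      exact_mod_cast h4) hu
  unfold rkE
  rw [hZ]
  refine main.trans (Finset.sum_congr rfl fun c hc' => ?_)
  have hc1 := Finset.mem_range.1 hc'
  congr 1
  show (b.2 (gW c : G)).trace = _
  rw [hgW c hc1]
  have h1 := C.fu c hc1
  unfold PJ.chkFu at h1
  simp only [cond_iff, blt_iff, allL_iff, allN_iff, beq_iff, hG.hr] at h1
  obtain ⟨h2, h3, h4⟩ := h1
  have h5 := actw_tb hL.tb _ h3
  have h6 : ((P.rj c).map lt).prod * ((P.wf c).map lt).prod =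
      ((P.wf c).map lt).prod * lt (d.rep + P.kf c) :=
    Tb.ext hB hG.inj ((hgw c hc1).2.mul h5) (h5.mul (hL.tb (d.rep + P.kf c) (by omega))) h4
  rw [← eq_mul_inv_iff_mul_eq] at h6
  rw [h6, map_mul, Matrix.trace_mul_comm, ← map_mul, inv_mul_cancel_left]

/-- The multiplicities of the eigenvalues in the irreducible representations of the table. -/
theorem rk_cert [Fintype G] (hc : CRS d.c φ e) (hG : Gp d φ V γ) (CA : CkA d)
    (tt : d.chkT = true) {lt : ℕ → G} {a : ℕ → MRep G} (O : Out d φ V γ lt a) (ho : o ∈ d.ops)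
    (hg : o.gen < d.ng) (C : P.Ck d o) {u i m : ℕ} (h : P.chkRk d u i m = true) (hi : i < d.K) :
    rkE V (P.toPD.vec d φ r) ((P.evg u).1 - (P.evg u).2.1) (a i) = m := by
  unfold PJ.chkRk at h
  simp only [cond_iff, blt_iff, hc.eq, hc.nat, d.sum_eq φ hc, hc.mul] at h
  obtain ⟨hu, h⟩ := h
  have hN : (P.N : ℂ) ≠ 0 := by
    have hhd := C.hd
    unfold PJ.chkHd at hhd
    simp only [cond_iff, blt_iff] at hhd
    exact_mod_cast hhd.2.2.1.ne'
  have h1 := rk_form hc hG CA tt O ho hg C hu (a i)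
  have h2 : ∑ c ∈ Finset.range P.nc, ((P.bb u c : ℂ) - P.off) *
      ((a i).2 (lt (d.rep + P.kf c))).trace = P.N * m := by
    have h3 : ((Nat.mul P.N m : ℕ) : ℂ) = P.N * m := by
      show ((P.N * m : ℕ) : ℂ) = _
      push_cast; ring
    rw [← h3, ← h]
    refine Finset.sum_congr rfl fun c hc' => ?_
    have hk : P.kf c < d.nc := by
      have h4 := C.fu c (Finset.mem_range.1 hc')
      unfold PJ.chkFu at h4
      simp only [cond_iff, blt_iff] at h4
      exact h4.1
    rw [(O.irr i hi).2.2 _ hk]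
    unfold PJ.bw
    rw [hc.add, hc.neg, hc.nat, hc.nat]
    ring
  rw [h2] at h1
  exact_mod_cast mul_left_cancel₀ hN h1

end GD

end

end Pool.Agent.CMFn
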