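import Pool.Agent.CMFn.CSem

/-! Project CMFn, blocks C and Q: spectral projections of a sum over a conjugation-stable family,
from weights on classes.  helper28. -/

namespace Pool.Agent.CMFn

open Matrix

noncomputable section

lemma sum_countM {M : Type*} [AddCommMonoid M] {m : ℕ} (k : ℕ → ℕ) {nc : ℕ}
    (hk : ∀ i < m, k i < nc) (f : ℕ → M) :
    ∑ i ∈ Finset.range m, f (k i) =
      ∑ c ∈ Finset.range nc, ((List.range m).map k).count c • f c := by
  induction m with
  | zero => simp
  | succ m ih =>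
    rw [Finset.sum_range_succ, ih (fun i hi => hk i (by omega)), List.range_succ]
    simp only [List.map_append, List.map_cons, List.map_nil, List.count_append,
      List.count_singleton, add_smul, Finset.sum_add_distrib]
    congr 1
    rw [Finset.sum_eq_single (k m)]
    · simp
    · intro b _ hb
      have : ¬ (k m = b) := fun h => hb h.symm
      simp [this]
    · intro h
      exact absurd (Finset.mem_range.2 (hk m (by omega))) h

section avg

variable {W : Type} [Group W] [Fintype W] {n : ℕ} (ρ : W →* Matrix (Fin n) (Fin n) ℂ)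

/-- The sum of the conjugates of `x`. -/
def avg (x : W) : Matrix (Fin n) (Fin n) ℂ := ∑ h : W, ρ (h * x * h⁻¹)

lemma avg_conj (x y : W) : avg ρ (y * x * y⁻¹) = avg ρ x := by
  unfold avg
  refine Fintype.sum_equiv (Equiv.mulRight y) _ _ fun h => ?_
  simp only [Equiv.coe_mulRight]
  congr 1
  group

lemma avg_cj {x y : W} (h : Cj x y) : avg ρ x = avg ρ y := by
  obtain ⟨a, rfl⟩ := h
  exact avg_conj ρ y a

lemma avg_one : avg ρ 1 = (Fintype.card W : ℂ) • (1 : Matrix (Fin n) (Fin n) ℂ) := by
  unfold avg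
  simp only [mul_one, mul_inv_cancel, map_one, Finset.sum_const, Finset.card_univ]
  rw [Nat.cast_smul_eq_nsmul]

lemma avg_trace (x : W) : (avg ρ x).trace = Fintype.card W * (ρ x).trace := by
  unfold avg
  rw [Matrix.trace_sum]
  have h1 : ∀ h : W, (ρ (h * x * h⁻¹)).trace = (ρ x).trace := by
    intro h
    rw [map_mul, Matrix.trace_mul_comm, ← map_mul, inv_mul_cancel_left]
  simp only [h1, Finset.sum_const, Finset.card_univ, nsmul_eq_mul]

lemma avg_comm (x y : W) : ρ y * avg ρ x = avg ρ x * ρ y := by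
  unfold avg
  rw [Finset.mul_sum, Finset.sum_mul]
  refine Fintype.sum_equiv (Equiv.mulLeft y) _ _ fun h => ?_
  simp only [Equiv.coe_mulLeft]
  rw [← map_mul, ← map_mul]
  congr 1
  group

lemma sum_avg {m : ℕ} {s : Fin m → W} (hs : ConjFam s) (x : W) :
    (∑ t, ρ (s t)) * avg ρ x = ∑ t, avg ρ (s t * x) := by
  unfold avg
  rw [Finset.mul_sum, Finset.sum_comm]
  refine Finset.sum_congr rfl fun h _ => ?_
  rw [Finset.sum_mul]
  obtain ⟨p, hp⟩ := hs h
  symm
  refine Fintype.sum_equiv p _ _ fun t => ?_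
  rw [← hp t, ← map_mul]
  congr 1
  group

variable {m nc U : ℕ} {s : ℕ → W} {g : ℕ → W} {k : ℕ → ℕ → ℕ} {B : ℕ → ℕ → ℂ} {ev : ℕ → ℂ} {N : ℂ}

/-- The rank of the spectral projections. -/
theorem spec_rank (hs : ConjFam (fun t : Fin m => s t)) (h0 : g 0 = 1) (hnc : 0 < nc)
    (hk : ∀ t < m, ∀ c < nc, k t c < nc ∧ Cj (s t * g c) (g (k t c)))
    (hN : N ≠ 0)
    (hB : ∀ u < U, ∀ l < nc, ∑ c ∈ Finset.range nc,
      B u c * (((List.range m).map fun t => k t c).count l : ℕ) = ev u * B u l)
    (hS : ∀ c < nc, ∑ u ∈ Finset.range U, B u c = if c = 0 then N else 0)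
    (hd : ∀ u < U, ∀ v < u, ev u ≠ ev v) {u : ℕ} (hu : u < U) :
    N * (Module.finrank ℂ (Module.End.eigenspace
      (Matrix.toLin' (∑ t ∈ Finset.range m, ρ (s t))) (ev u)) : ℂ) =
      ∑ c ∈ Finset.range nc, B u c * (ρ (g c)).trace := by
  classical
  have hW : (Fintype.card W : ℂ) ≠ 0 := by simp [Fintype.card_ne_zero]
  set Z : Matrix (Fin n) (Fin n) ℂ := ∑ t ∈ Finset.range m, ρ (s t) with hZ
  have hZ' : Z = ∑ t : Fin m, ρ (s t) := by rw [hZ, Finset.sum_range]
  set E : ℕ → Matrix (Fin n) (Fin n) ℂ := fun u => ∑ c ∈ Finset.range nc, B u c • avg ρ (g c)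
    with hE
  have hZE : ∀ u < U, Z * E u = ev u • E u := by
    intro u hu
    have h1 : ∀ c ∈ Finset.range nc, Z * avg ρ (g c) = ∑ l ∈ Finset.range nc,
        ((List.range m).map fun t => k t c).count l • avg ρ (g l) := by
      intro c hc
      have hc' := Finset.mem_range.1 hc
      rw [hZ', sum_avg ρ hs, ← sum_countM (fun t => k t c) (fun t ht => (hk t ht c hc').1)
        (fun l => avg ρ (g l)), Finset.sum_range]
      exact Finset.sum_congr rfl fun t _ => avg_cj ρ (hk t t.2 c hc').2
    simp only [hE]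
    rw [Finset.mul_sum, Finset.smul_sum]
    have h2 : ∀ c ∈ Finset.range nc, Z * B u c • avg ρ (g c) = ∑ l ∈ Finset.range nc,
        (B u c * (((List.range m).map fun t => k t c).count l : ℕ)) • avg ρ (g l) := by
      intro c hc
      rw [Matrix.mul_smul, h1 c hc, Finset.smul_sum]
      refine Finset.sum_congr rfl fun l _ => ?_
      rw [← Nat.cast_smul_eq_nsmul ℂ, smul_smul]
    rw [Finset.sum_congr rfl h2, Finset.sum_comm]
    refine Finset.sum_congr rfl fun l hl => ?_
    rw [← Finset.sum_smul, hB u hu l (Finset.mem_range.1 hl), smul_smul]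
  have hZc : ∀ u, Z * E u = E u * Z := by
    intro u
    simp only [hE]
    rw [Finset.mul_sum, Finset.sum_mul]
    refine Finset.sum_congr rfl fun c _ => ?_
    rw [Matrix.mul_smul, Matrix.smul_mul, hZ', Finset.sum_mul, Finset.mul_sum]
    congr 1
    exact Finset.sum_congr rfl fun t _ => avg_comm ρ _ _
  have hsum : ∑ u ∈ Finset.range U, E u = (N * Fintype.card W) • (1 : Matrix (Fin n) (Fin n) ℂ) := by
    simp only [hE]
    rw [Finset.sum_comm]
    simp only [← Finset.sum_smul]
    rw [Finset.sum_congr rfl fun c hc => by rw [hS c (Finset.mem_range.1 hc)]]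
    rw [Finset.sum_eq_single 0]
    · rw [if_pos rfl, h0, avg_one, smul_smul]
    · intro c _ hc
      rw [if_neg hc, zero_smul]
    · intro h
      exact absurd (Finset.mem_range.2 hnc) h
  have hNW : N * (Fintype.card W : ℂ) ≠ 0 := mul_ne_zero hN hW
  set F : ℕ → Matrix (Fin n) (Fin n) ℂ := fun u => (N * Fintype.card W)⁻¹ • E u with hF
  have hFs : ∑ u ∈ Finset.range U, F u = 1 := by
    simp only [hF]
    rw [← Finset.smul_sum, hsum, smul_smul, inv_mul_cancel₀ hNW, one_smul]
  have hZF : ∀ u < U, Z * F u = ev u • F u := by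
    intro u hu
    simp only [hF]
    rw [Matrix.mul_smul, hZE u hu, smul_comm]
  have hFZ : ∀ u < U, F u * Z = ev u • F u := by
    intro u hu
    rw [← hZF u hu]
    simp only [hF]
    rw [Matrix.mul_smul, Matrix.smul_mul, hZc]
  have hproj : LinearMap.IsProj (Module.End.eigenspace (Matrix.toLin' Z) (ev u))
      (Matrix.toLin' (F u)) := by
    refine ⟨fun x => ?_, fun x hx => ?_⟩
    · rw [Module.End.mem_eigenspace_iff, Matrix.toLin'_apply, Matrix.toLin'_apply,
        Matrix.mulVec_mulVec, hZF u hu, Matrix.smul_mulVec]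
    · rw [Module.End.mem_eigenspace_iff, Matrix.toLin'_apply] at hx
      have h1 : ∀ v < U, v ≠ u → F v *ᵥ x = 0 := by
        intro v hv hvu
        have h2 : F v *ᵥ (Z *ᵥ x) = ev v • F v *ᵥ x := by
          rw [Matrix.mulVec_mulVec, hFZ v hv, Matrix.smul_mulVec]
        rw [hx, Matrix.mulVec_smul] at h2
        have h3 : (ev u - ev v) • F v *ᵥ x = 0 := by rw [sub_smul, h2, sub_self]
        rcases smul_eq_zero.1 h3 with h4 | h4
        · exfalso
          rcases Nat.lt_or_gt_of_ne hvu with h5 | h5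
          · exact hd u hu v h5 (sub_eq_zero.1 h4)
          · exact hd v hv u h5 (sub_eq_zero.1 h4).symm
        · exact h4
      have h2 : ∑ v ∈ Finset.range U, F v *ᵥ x = x := by
        rw [← Matrix.sum_mulVec, hFs, Matrix.one_mulVec]
      rw [Matrix.toLin'_apply]
      conv_rhs => rw [← h2]
      rw [Finset.sum_eq_single u]
      · intro v hv hvu
        exact h1 v (Finset.mem_range.1 hv) hvu
      · intro h
        exact absurd (Finset.mem_range.2 hu) h
  have htr := hproj.trace
  rw [Matrix.trace_toLin'_eq] at htr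
  rw [← htr]
  simp only [hF, hE]
  rw [Matrix.trace_smul, Matrix.trace_sum, smul_eq_mul]
  simp only [Matrix.trace_smul, avg_trace, smul_eq_mul]
  rw [mul_inv, Finset.mul_sum, Finset.mul_sum]
  refine Finset.sum_congr rfl fun c _ => ?_
  field_simp

end avg

end

end Pool.Agent.CMFn
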