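import Pool.Agent.CMFn.IsolDefs

/-! Project CMF, block Q (every rank): isolation of characters for reflections of order three. -/

namespace Pool.Agent.CMFn

open Matrix

noncomputable section

variable {G : Type} [Group G] [Fintype G] {r : ℕ}

open Classical in
/-- The sum of `det(g)^j tr b(g)` over the group generated by the reflections which fix `p`. -/
def psum3 (V : G →* Matrix (Fin r) (Fin r) ℂ) (p : Fin r → ℂ) (j : ℕ) (b : MRep G) : ℂ :=
  ∑ g : G, if g ∈ WP V p then (V g).det ^ j * (b.2 g).trace else 0

/-- `a` is isolated in its level by an integral combination of multiplicities of the powers of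
the determinant in the restrictions to the groups `WP V (p i)`. -/
def IsolC3 (V : G →* Matrix (Fin r) (Fin r) ℂ) (a : MRep G) : Prop :=
  ∃ (m : ℕ) (p : Fin m → Fin r → ℂ) (j : Fin m → Fin 3) (u : Fin m → ℤ),
    ∑ i, (u i : ℂ) * (psum3 V (p i) (j i).1 a / Nat.card (WP V (p i))) = 1 ∧
    ∀ b : MRep G, IsIrr b.2 → SameLevel V a b →
      ∑ i, (u i : ℂ) * (psum3 V (p i) (j i).1 b / Nat.card (WP V (p i))) = 0 ∨
        ∀ g, (b.2 g).trace = (a.2 g).trace

end

end Pool.Agent.CMFn
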