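import Pool.Agent.CMFn.CQC
import Pool.Agent.CMFn.CQA3
import Pool.Agent.CMFn.Q3Defs

/-! Project CMFn, blocks C and Q: certificates for sums over parabolic subgroups generated by
reflections of order three.  helper22 (after CQB, CQC of helper5). -/

namespace Pool.Agent.CMFn

open Matrix

noncomputable section

namespace PD

variable {α : Type} (P : PD α) (d : GD α) (o : OD)

/-- All reflections are in the family, or inverse to elements of the family; the elements of the
family have order three; `w` is their determinant. -/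
def chkAll3 (w : α) : Bool :=
  cond (Nat.blt 0 o.m)
    (cond (allN d.nc fun j => cond (GD.bit d.rf j) (cond (Nat.beq j 0) true
      (cond (Nat.beq j (d.kk o 0 0)) true (Nat.beq j (d.ik (d.kk o 0 0))))) true)
      (cond (allN d.r fun x => Nat.beq (d.tb o.s (d.tb o.s (d.tb o.s x))) x)
        (d.c.eq w (d.sh (d.tr (d.kk o 0 0) 1))) false) false) false

def chkMv3 (a : ℕ) : Bool :=
  allN P.n fun i => cond (Nat.blt (P.m a i) P.n) (cond (Nat.beq (P.m a (P.m a (P.m a i))) i)
    (allN d.r fun x => Nat.beq (P.e d (P.m a i) x) (d.tb (Nat.add o.s (P.g a)) (P.e d i x)))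
    false) false

/-- Exponents of the determinant. -/
def ex (i : ℕ) : ℕ := dg 2 P.sg i

def chkEx (i : ℕ) : Bool :=
  cond (Nat.beq i 0) (Nat.beq (P.ex 0) 0) (Nat.beq (P.ex i) (Nat.mod (Nat.add (P.ex (P.pj i)) 1) 3))

/-- `w^k` for `k < 3`. -/
def pw3 (w : α) (k : ℕ) : α :=
  cond (Nat.beq k 0) (d.c.nat 1) (cond (Nat.beq k 1) w (d.c.mul w w))

/-- `Σ_i det(w_i)^j X_μ(class of w_i)`. -/
def qs3 (w : α) (j μ : ℕ) : α :=
  d.sum P.n fun i => d.c.mul (pw3 d w (Nat.mod (Nat.mul (P.ex i) j) 3)) (d.X μ (P.cl i))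

/-- All the checks, for the subgroup. -/
structure Ck3 (w : α) : Prop where
  all : chkAll3 d o w = true
  zero : P.chkZero d = true
  ne : ∀ i < P.n, P.chkNe d i = true
  mv : ∀ a < P.ns, P.chkMv3 d o a = true
  pr : ∀ i < P.n, P.chkPr i = true
  cl : ∀ i < P.n, P.chkCl d i = true
  loc : ∀ i < o.m, P.chkLoc d o i = true
  gs : ∀ a < P.ns, P.chkGs d o a = true
  ex : ∀ i < P.n, P.chkEx i = true

end PD

variable {G : Type} [Group G] {α : Type}

/-- The determinant of a reflection. -/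
lemma det_of_rank_one {r : ℕ} (A : Matrix (Fin r) (Fin r) ℂ) (h : (A - 1).rank = 1) :
    A.det = A.trace - (r - 1) := by
  classical
  set N := A - 1 with hN
  have hA : A = 1 + N := by rw [hN]; abel
  have h1 : Module.finrank ℂ (LinearMap.range N.mulVecLin) = 1 := h
  obtain ⟨u, hu0, hu⟩ := finrank_eq_one_iff'.1 h1
  have h2 : ∀ j, ∃ c : ℂ, ∀ i, N i j = c * u.1 i := by
    intro j
    obtain ⟨c, hc⟩ := hu ⟨N.mulVecLin (Pi.single j 1), ⟨_, rfl⟩⟩
    refine ⟨c, fun i => ?_⟩
    have h3 := congrFun (congrArg Subtype.val hc) i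
    simp only [Submodule.coe_smul, Pi.smul_apply, smul_eq_mul, Matrix.mulVecLin_apply,
      Matrix.mulVec_single_one] at h3
    rw [h3]; rfl
  choose c hc using h2
  have hNv : N = Matrix.vecMulVec u.1 c := by
    ext i j
    rw [Matrix.vecMulVec_apply, hc j i, mul_comm]
  have hdet : (1 + N).det = 1 + N.trace := by
    rw [hNv, Matrix.vecMulVec_eq Unit, Matrix.det_one_add_mul_comm]
    rw [Matrix.det_unique, Matrix.add_apply, Matrix.one_apply_eq, Matrix.mul_apply]
    congr 1
    rw [Matrix.trace]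
    refine Finset.sum_congr rfl fun i _ => ?_
    simp [Matrix.diag, Matrix.mul_apply, mul_comm]
  rw [hA, hdet, Matrix.trace_add, Matrix.trace_one, Fintype.card_fin]
  ring

namespace GD

variable {d : GD α} {φ : α → ℂ} {r : ℕ} {V : G →* Matrix (Fin r) (Fin r) ℂ} {e : ℕ → ℂ}
  {γ : ℕ → G}

lemma det_conj (V : G →* Matrix (Fin r) (Fin r) ℂ) (x y : G) :
    (V (y * x * y⁻¹)).det = (V x).det := by
  have h1 : (V y).det * (V y⁻¹).det = 1 := by
    rw [← Matrix.det_mul, ← map_mul, mul_inv_cancel, map_one, Matrix.det_one]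
  rw [map_mul, map_mul, Matrix.det_mul, Matrix.det_mul]
  linear_combination (V x).det * h1

/-- Every reflection or its inverse is in the family. -/
lemma mem_family3 [Fintype G] (hc : CRS d.c φ e) (hG : Gp d φ V γ) (CA : CkA d) (CB : CkB d)
    {lt : ℕ → G} {a : ℕ → MRep G} (O : Out d φ V γ lt a) {o : OD} (ho : o ∈ d.ops)
    (hg : o.gen < d.ng) {w : α} (h : PD.chkAll3 d o w = true) :
    (∀ x : G, (V x - 1).rank = 1 → ∃ i < o.m, lt (o.s + i) = x ∨ lt (o.s + i) = x⁻¹) ∧
    ∀ i < o.m, lt (o.s + i) * (lt (o.s + i) * lt (o.s + i)) = 1 ∧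
      (V (lt (o.s + i))).det = φ w := by
  have hB := bas_of hc hG CA.base
  have hbase := CA.base
  unfold chkBase at hbase
  simp only [cond_iff, ble_iff, allN_iff] at hbase
  have hrep : d.rep + d.nc ≤ d.A := hbase.2.1
  have hr1 : 1 ≤ r := by
    have := hbase.2.2.2.1
    rwa [hG.hr] at this
  have hoA : o.s + o.m ≤ d.A := by
    have := CA.conj o ho
    unfold chkConj at this
    simp only [cond_iff, ble_iff] at this
    exact this.1
  unfold PD.chkAll3 at h
  simp only [cond_iff, blt_iff, allN_iff] at h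
  obtain ⟨hm, h1, hcu, hw⟩ := h
  have hop := O.cls.ops _ (List.mem_map.2 ⟨o, ho, rfl⟩)
  -- the class of the family
  have h4 := hop.cj 0 hm 0 O.cls.pos
  rw [O.cls.g0, mul_one] at h4
  have hk0 : d.kk o 0 0 < d.nc := hop.lt 0 hm 0 O.cls.pos
  have h5 : Cj (lt (o.s + 0)) (lt (d.rep + d.kk o 0 0)) := h4
  have hfam : ∀ x, Cj x (lt (o.s + 0)) → ∃ i < o.m, x = lt (o.s + i) := by
    rintro x ⟨y, hy⟩
    obtain ⟨q, hq⟩ := hop.conj y
    exact ⟨q ⟨0, hm⟩, (q ⟨0, hm⟩).2, hy.trans (hq ⟨0, hm⟩)⟩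
  have hcj : ∀ i < o.m, Cj (lt (o.s + i)) (lt (o.s + 0)) := by
    intro i hi
    have hp := CB.par o ho hg
    have hcj := (conjFam_of hB hG O.ltr (CA.conj o ho)).2
    unfold chkPar at hp
    simp only [cond_iff, blt_iff, allN_iff, beq_iff, hG.hr] at hp
    obtain ⟨_, _, h3⟩ := hp
    induction i using Nat.strong_induction_on with
    | _ i ih =>
      cases hi0 : Nat.beq i 0 with
      | true =>
        rw [beq_iff] at hi0
        subst hi0
        exact Cj.refl _
      | false =>
        have h4 := h3 i hi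
        rw [hi0, cond_false] at h4
        simp only [cond_iff, blt_iff, beq_iff] at h4
        obtain ⟨h5, h6, h7⟩ := h4
        have h8 := hcj (Nat.div (dg 16 o.par i) 256) h6 (Nat.mod (dg 16 o.par i) 256) (by omega)
        rw [h7] at h8
        refine Cj.trans ⟨γ (Nat.div (dg 16 o.par i) 256), h8.2.symm⟩ (ih _ h5 (by omega))
  refine ⟨fun x hx => ?_, fun i hi => ?_⟩
  · obtain ⟨j, hj, hxj⟩ := cover O.cls x
    have hxj' : Cj x (lt (d.rep + j)) := hxj
    have h2 : bit d.rf j = true := by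
      refine rf_of hc hG CA CB O hj ?_
      obtain ⟨y, hy⟩ := hxj.symm
      rw [hy, rank_conj]
      exact hx
    have h3 := h1 j hj
    have hj0 : Nat.beq j 0 = false := by
      rw [← Bool.not_eq_true, beq_iff]
      rintro rfl
      obtain ⟨y, hy⟩ := hxj
      rw [O.cls.g0, mul_one, mul_inv_cancel] at hy
      rw [hy, map_one, sub_self, Matrix.rank_zero] at hx
      exact absurd hx (by decide)
    rw [h2, cond_true, hj0, cond_false] at h3
    cases h6 : Nat.beq j (d.kk o 0 0) with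
    | true =>
      rw [beq_iff] at h6
      rw [h6] at hxj'
      obtain ⟨i, hi, h7⟩ := hfam x (hxj'.trans h5.symm)
      exact ⟨i, hi, Or.inl h7.symm⟩
    | false =>
      rw [h6, cond_false, beq_iff] at h3
      have h8 : Cj (lt (d.rep + d.kk o 0 0))⁻¹ (lt (d.rep + d.ik (d.kk o 0 0))) :=
        O.cls.invCj _ hk0
      rw [← h3] at h8
      have h9 : Cj x⁻¹ (lt (d.rep + d.kk o 0 0)) := by
        obtain ⟨y, hy⟩ := hxj'.trans h8.symm
        exact ⟨y, by rw [hy]; group⟩
      obtain ⟨i, hi, h7⟩ := hfam x⁻¹ (h9.trans h5.symm)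
      exact ⟨i, hi, Or.inr h7.symm⟩
  · have h7 : lt (o.s + 0) * (lt (o.s + 0) * lt (o.s + 0)) = 1 := by
      have h8 := O.ltr.tb (o.s + 0) (by omega)
      refine Tb.ext hB hG.inj (h8.mul (h8.mul h8)) Tb.one fun x hx => ?_
      rw [hG.hr] at hcu
      exact beq_iff.1 (hcu x hx)
    have hdet0 : (V (lt (o.s + 0))).det = φ w := by
      have hrk : (V (lt (d.rep + d.kk o 0 0)) - 1).rank = 1 := by
        obtain ⟨y, hy⟩ := h5.symm
        rw [hy, rank_conj]
        exact O.refl o ho hg 0 hm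
      obtain ⟨y, hy⟩ := h5
      rw [hy, det_conj, det_of_rank_one _ hrk]
      rw [hc.eq] at hw
      rw [hw]
      unfold sh
      rw [hc.add, hc.neg, hc.nat, tr_eq hc hB hG.hr O.ltr hrep hk0, pow_one, hG.hr]
      have hcast : ((Nat.pred r : ℕ) : ℂ) = (r : ℂ) - 1 := by
        obtain ⟨s, rfl⟩ : ∃ s, r = s + 1 := ⟨r - 1, by omega⟩
        simp
      rw [hcast]
      ring
    obtain ⟨y, hy⟩ := hcj i hi
    constructor
    · rw [hy]
      calc y * lt (o.s + 0) * y⁻¹ * (y * lt (o.s + 0) * y⁻¹ * (y * lt (o.s + 0) * y⁻¹))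
          = y * (lt (o.s + 0) * (lt (o.s + 0) * lt (o.s + 0))) * y⁻¹ := by group
        _ = 1 := by rw [h7]; group
    · rw [hy, det_conj, hdet0]

/-- All reflections have order three and are conjugate up to inversion. -/
theorem one_class3 [Fintype G] (hc : CRS d.c φ e) (hG : Gp d φ V γ) (CA : CkA d) (CB : CkB d)
    {lt : ℕ → G} {a : ℕ → MRep G} (O : Out d φ V γ lt a) {o : OD} (ho : o ∈ d.ops)
    (hg : o.gen < d.ng) {w : α} (h : PD.chkAll3 d o w = true) :
    (∀ s : G, (V s - 1).rank = 1 → s ^ 3 = 1) ∧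
    ∀ s t : G, (V s - 1).rank = 1 → (V t - 1).rank = 1 →
      ∃ g : G, g * s * g⁻¹ = t ∨ g * s * g⁻¹ = t ^ 2 := by
  obtain ⟨h1, h2⟩ := mem_family3 hc hG CA CB O ho hg h
  have hB := bas_of hc hG CA.base
  have hcj : ∀ i < o.m, Cj (lt (o.s + i)) (lt (o.s + 0)) := by
    intro i hi
    have hp := CB.par o ho hg
    have hcj := (conjFam_of hB hG O.ltr (CA.conj o ho)).2
    unfold chkPar at hp
    simp only [cond_iff, blt_iff, allN_iff, beq_iff, hG.hr] at hp
    obtain ⟨_, _, h3⟩ := hp
    induction i using Nat.strong_induction_on with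
    | _ i ih =>
      cases hi0 : Nat.beq i 0 with
      | true =>
        rw [beq_iff] at hi0
        subst hi0
        exact Cj.refl _
      | false =>
        have h4 := h3 i hi
        rw [hi0, cond_false] at h4
        simp only [cond_iff, blt_iff, beq_iff] at h4
        obtain ⟨h5, h6, h7⟩ := h4
        have h8 := hcj (Nat.div (dg 16 o.par i) 256) h6 (Nat.mod (dg 16 o.par i) 256) (by omega)
        rw [h7] at h8
        refine Cj.trans ⟨γ (Nat.div (dg 16 o.par i) 256), h8.2.symm⟩ (ih _ h5 (by omega))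
  have h3 : ∀ s : G, (V s - 1).rank = 1 → s ^ 3 = 1 := by
    intro s hs
    obtain ⟨i, hi, hx | hx⟩ := h1 s hs
    · rw [← hx, pow_succ', pow_two]
      exact (h2 i hi).1
    · have h4 := (h2 i hi).1
      rw [hx] at h4
      have h5 : (s ^ 3)⁻¹ = 1 := by
        rw [← h4]; group
      exact inv_eq_one.1 h5
  refine ⟨h3, fun s t hs ht => ?_⟩
  have hinv : ∀ x : G, x ^ 3 = 1 → x⁻¹ = x ^ 2 := by
    intro x hx
    rw [inv_eq_iff_mul_eq_one, ← pow_succ', hx]
  have hCi : ∀ x y : G, Cj x y → Cj x⁻¹ y⁻¹ := by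
    rintro x y ⟨g, rfl⟩
    exact ⟨g, by group⟩
  have hfin : Cj t s ∨ Cj t⁻¹ s := by
    obtain ⟨i, hi, hx⟩ := h1 s hs
    obtain ⟨k, hk, hy⟩ := h1 t ht
    have h6 : Cj (lt (o.s + k)) (lt (o.s + i)) := (hcj k hk).trans (hcj i hi).symm
    rcases hx with hx | hx <;> rcases hy with hy | hy
    · rw [hx, hy] at h6
      exact Or.inl h6
    · rw [hx, hy] at h6
      exact Or.inr h6
    · rw [hx, hy] at h6
      have := hCi _ _ h6
      rw [inv_inv] at this
      exact Or.inr this
    · rw [hx, hy] at h6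
      have := hCi _ _ h6
      rw [inv_inv, inv_inv] at this
      exact Or.inl this
  rcases hfin with ⟨g, hg'⟩ | ⟨g, hg'⟩
  · exact ⟨g, Or.inl hg'.symm⟩
  · exact ⟨g, Or.inr (by rw [← hg', hinv t (h3 t ht)])⟩

variable {P : PD α} {o : OD}

open Classical in
/-- The sums over the subgroup generated by the reflections which fix `p`. -/
theorem psum3_cert [Fintype G] (hc : CRS d.c φ e) (hG : Gp d φ V γ) (CA : CkA d) (CB : CkB d)
    {lt : ℕ → G} {a : ℕ → MRep G} (O : Out d φ V γ lt a) (ho : o ∈ d.ops) (hg : o.gen < d.ng)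
    {wv : α} (C : P.Ck3 d o wv) :
    Nat.card (WP V (P.vec d φ r)) = P.n ∧
    ∀ j, ∀ i < d.K, psum3 V (P.vec d φ r) j (a i) = φ (P.qs3 d wv j i) := by
  have hB := bas_of hc hG CA.base
  have hL := O.ltr
  have hbase := CA.base
  unfold chkBase at hbase
  simp only [cond_iff, ble_iff, allN_iff] at hbase
  have hrep : d.rep + d.nc ≤ d.A := hbase.2.1
  have hr0 : 0 < r := O.r0
  have hoA : o.s + o.m ≤ d.A := by
    have := CA.conj o ho
    unfold chkConj at this
    simp only [cond_iff, ble_iff] at this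
    exact this.1
  obtain ⟨hfam1, hfam2⟩ := mem_family3 hc hG CA CB O ho hg C.all
  have hz := C.zero
  unfold PD.chkZero at hz
  simp only [cond_iff, blt_iff, allN_iff, beq_iff, hG.hr] at hz
  obtain ⟨hn, hz⟩ := hz
  have hmv := C.mv
  unfold PD.chkMv3 at hmv
  simp only [cond_iff, blt_iff, allN_iff, beq_iff, hG.hr] at hmv
  have hgs := C.gs
  unfold PD.chkGs at hgs
  simp only [cond_iff, blt_iff] at hgs
  have hpr : ∀ i < P.n, 0 < i → P.pj i < i ∧ P.pa i < P.ns ∧ P.m (P.pa i) (P.pj i) = i := by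
    intro i hi h0
    have h1 := C.pr i hi
    unfold PD.chkPr at h1
    have h2 : Nat.beq i 0 = false := by
      rw [← Bool.not_eq_true, beq_iff]; omega
    rw [h2, cond_false] at h1
    simp only [cond_iff, blt_iff, beq_iff] at h1
    exact h1
  -- the elements
  have hex : ∀ i < P.n, ∃ x : G, ∀ y < r, P.e d i y < d.n ∧
      V x *ᵥ d.root φ r y = d.root φ r (P.e d i y) := by
    intro i
    induction i using Nat.strong_induction_on with
    | _ i ih =>
      intro hi
      rcases Nat.eq_zero_or_pos i with h0 | h0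
      · subst h0
        refine ⟨1, fun y hy => ?_⟩
        rw [hz y hy, map_one, Matrix.one_mulVec]
        exact ⟨by have := hB.1; omega, rfl⟩
      · obtain ⟨h1, h2, h3⟩ := hpr i hi h0
        obtain ⟨x, hx⟩ := ih _ h1 (by omega)
        refine ⟨lt (o.s + P.g (P.pa i)) * x, fun y hy => ?_⟩
        have h4 := (hmv _ h2 (P.pj i) (by omega)).2.2 y hy
        rw [h3] at h4
        have h5 := hL.tb (o.s + P.g (P.pa i)) (by have := (hgs _ h2).1; omega) _ (hx y hy).1
        have h6 : P.e d i y = d.tb (o.s + P.g (P.pa i)) (P.e d (P.pj i) y) := h4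
        rw [h6]
        refine ⟨h5.1, ?_⟩
        rw [map_mul, ← Matrix.mulVec_mulVec, (hx y hy).2, h5.2]
  choose! w hw using hex
  have hw0 : w 0 = 1 := by
    refine root_ext hB hG.inj fun x hx => ?_
    rw [(hw 0 hn x hx).2, hz x hx, map_one, Matrix.one_mulVec]
  have hwm : ∀ b < P.ns, ∀ i < P.n, w (P.m b i) = lt (o.s + P.g b) * w i := by
    intro b hb i hi
    obtain ⟨h1, h2, h3⟩ := hmv b hb i hi
    refine root_ext hB hG.inj fun x hx => ?_
    rw [(hw _ h1 x hx).2, map_mul, ← Matrix.mulVec_mulVec, (hw i hi x hx).2,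
      (hL.tb (o.s + P.g b) (by have := (hgs _ hb).1; omega) _ (hw i hi x hx).1).2]
    exact congrArg _ (h3 x hx)
  set S := PR V (P.vec d φ r) with hS
  have hsS : ∀ b < P.ns, lt (o.s + P.g b) ∈ S := by
    intro b hb
    obtain ⟨h1, h2⟩ := hgs b hb
    exact ⟨O.refl o ho hg _ h1, (fix_iff hc hG hB hL hoA h1).1 h2⟩
  obtain ⟨E, hE⟩ := enum_equiv3 (S := S) (ns := P.ns) (n := P.n)
    (s := fun b => lt (o.s + P.g b)) (w := w) (f := P.m) (f' := fun b i => P.m b (P.m b i))
    hn hw0 (by
      intro i h0 hi h1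
      have h2 := C.ne i hi
      unfold PD.chkNe at h2
      have h3 : Nat.beq i 0 = false := by
        rw [← Bool.not_eq_true, beq_iff]; omega
      rw [h3, cond_false, anyN_iff] at h2
      obtain ⟨x, hx, h4⟩ := h2
      cases h5 : Nat.beq (P.e d i x) x with
      | true => rw [h5] at h4; simp at h4
      | false =>
        rw [h5, cond_false, anyN_iff] at h4
        obtain ⟨y, hy, h6⟩ := h4
        rw [Bool.not_eq_true', ← Bool.not_eq_true, hc.eq, hc.nat] at h6
        rw [hG.hr] at hx hy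
        apply h6
        have h7 := (hw i hi x hx).2
        rw [h1, map_one, Matrix.one_mulVec] at h7
        have h8 := congrFun h7 ⟨y, hy⟩
        unfold root at h8
        simp only at h8
        rw [← h8, hB.2 x hx y hy]
        by_cases hxy : x = y
        · subst hxy; simp
        · have : Nat.beq x y = false := by
            rw [← Bool.not_eq_true, beq_iff]; exact hxy
          rw [this]; simp [hxy])
    hsS (by
      intro b hb i hi
      exact ⟨(hmv b hb i hi).1, (hmv b hb i hi).2.1, hwm b hb i hi⟩) (by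
      intro i h0 hi
      obtain ⟨h1, h2, h3⟩ := hpr i hi h0
      refine ⟨_, h1, _, h2, ?_⟩
      have h4 := hwm _ h2 _ (show P.pj i < P.n by omega)
      rw [h3] at h4
      exact h4) (by
      rintro x ⟨hx1, hx2⟩
      obtain ⟨i, hi, hix⟩ := hfam1 x hx1
      have hfx : V (lt (o.s + i)) *ᵥ P.vec d φ r = P.vec d φ r := by
        rcases hix with h | h
        · rw [h]; exact hx2
        · rw [h]
          conv_lhs => rw [← hx2]
          rw [Matrix.mulVec_mulVec, ← map_mul, inv_mul_cancel, map_one, Matrix.one_mulVec]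
      have h1 := C.loc i hi
      unfold PD.chkLoc at h1
      rw [(fix_iff (P := P) hc hG hB hL hoA hi).2 hfx, cond_true] at h1
      simp only [cond_iff, blt_iff, allN_iff, beq_iff, hG.hr] at h1
      have h2 : w (P.lc i) = lt (o.s + i) := by
        refine root_ext hB hG.inj fun x hx => ?_
        rw [(hw _ h1.1 x hx).2, (hL.tb (o.s + i) (by omega) x (by have := hB.1; omega)).2]
        exact congrArg _ (h1.2 x hx)
      exact ⟨_, h1.1, by rw [h2]; exact hix⟩)
  have hWP : WP V (P.vec d φ r) = Subgroup.closure S := rfl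
  refine ⟨?_, fun j i hi => ?_⟩
  · rw [hWP, ← Nat.card_congr E, Nat.card_fin]
  -- determinants
  have hφw3 : φ wv ^ 3 = 1 := by
    have hm : 0 < o.m := by
      have h := C.all
      unfold PD.chkAll3 at h
      simp only [cond_iff, blt_iff] at h
      exact h.1
    obtain ⟨h1, h2⟩ := hfam2 0 hm
    rw [← h2, ← Matrix.det_pow, ← map_pow]
    have h3 : lt (o.s + 0) ^ 3 = 1 := by rw [pow_succ', pow_two]; exact h1
    rw [h3, map_one, Matrix.det_one]
  have hdet : ∀ k < P.n, (V (w k)).det = φ wv ^ P.ex k := by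
    intro k
    induction k using Nat.strong_induction_on with
    | _ k ih =>
      intro hk
      have hs := C.ex k hk
      unfold PD.chkEx at hs
      rcases Nat.eq_zero_or_pos k with h0 | h0
      · subst h0
        have h2 : Nat.beq 0 0 = true := rfl
        rw [h2, cond_true, beq_iff] at hs
        rw [hw0, map_one, Matrix.det_one, hs, pow_zero]
      · obtain ⟨h1, h2, h3⟩ := hpr k hk h0
        have hj : P.pj k < P.n := by omega
        have h6 : Nat.beq k 0 = false := by
          rw [← Bool.not_eq_true, beq_iff]; omega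
        rw [h6, cond_false, beq_iff] at hs
        have h5 := hwm _ h2 _ hj
        rw [h3] at h5
        have hs' : P.ex k = (P.ex (P.pj k) + 1) % 3 := hs
        rw [h5, map_mul, Matrix.det_mul, ih _ h1 hj, (hfam2 _ (hgs _ h2).1).2, hs', ← pow_succ']
        conv_lhs => rw [← Nat.div_add_mod (P.ex (P.pj k) + 1) 3]
        rw [pow_add, pow_mul, hφw3, one_pow, one_mul]
  have hcl : ∀ k : Fin P.n, ((a i).2 (E k : G)).trace = φ (d.X i (P.cl k)) := by
    intro k
    have h1 := C.cl k k.2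
    unfold PD.chkCl at h1
    simp only [cond_iff, blt_iff, allL_iff, allN_iff, beq_iff, hG.hr] at h1
    obtain ⟨h2, h3, h4⟩ := h1
    rw [← (O.irr i hi).2.2 _ h2]
    have hwd := actw_tb hL.tb _ h3
    have h5 : ((P.w k).map lt).prod * (w k) = lt (d.rep + P.cl k) * ((P.w k).map lt).prod := by
      refine root_ext hB hG.inj fun x hx => ?_
      rw [map_mul, map_mul, ← Matrix.mulVec_mulVec, ← Matrix.mulVec_mulVec, (hw k k.2 x hx).2,
        (hwd _ (hw k k.2 x hx).1).2, (hwd x (by have := hB.1; omega)).2,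
        (hL.tb (d.rep + P.cl k) (by omega) _ (hwd x (by have := hB.1; omega)).1).2]
      exact congrArg _ (h4 x hx)
    refine tr_cls _ ⟨(((P.w k).map lt).prod)⁻¹, ?_⟩
    rw [hE, inv_inv, mul_assoc, ← h5]
    group
  have h1 : φ (P.qs3 d wv j i) = ∑ k ∈ Finset.range P.n,
      φ wv ^ (P.ex k * j % 3) * φ (d.X i (P.cl k)) := by
    unfold PD.qs3
    rw [d.sum_eq φ hc]
    refine Finset.sum_congr rfl fun k _ => ?_
    rw [hc.mul]
    congr 1
    have hlt : P.ex k * j % 3 < 3 := Nat.mod_lt _ (by norm_num)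
    show φ (PD.pw3 d wv (P.ex k * j % 3)) = _
    generalize P.ex k * j % 3 = t at hlt
    unfold PD.pw3
    have ht : t = 0 ∨ t = 1 ∨ t = 2 := by omega
    rcases ht with rfl | rfl | rfl
    · have e1 : Nat.beq 0 0 = true := rfl
      rw [e1, cond_true, hc.nat]
      simp
    · have e1 : Nat.beq 1 0 = false := rfl
      have e2 : Nat.beq 1 1 = true := rfl
      rw [e1, cond_false, e2, cond_true, pow_one]
    · have e1 : Nat.beq 2 0 = false := rfl
      have e2 : Nat.beq 2 1 = false := rfl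
      rw [e1, cond_false, e2, cond_false, hc.mul, pow_two]
  unfold psum3
  rw [← Finset.sum_filter]
  rw [Finset.sum_subtype (p := fun g => g ∈ Subgroup.closure S)
    (Finset.univ.filter (fun g => g ∈ WP V (P.vec d φ r))) (by
      intro x
      rw [Finset.mem_filter]
      exact ⟨fun h => h.2, fun h => ⟨Finset.mem_univ _, h⟩⟩)]
  rw [h1, Finset.sum_range, ← E.sum_comp]
  refine Finset.sum_congr rfl fun k _ => ?_
  rw [hcl, hE, hdet k k.2]
  congr 1
  rw [← pow_mul]
  conv_lhs => rw [← Nat.div_add_mod (P.ex k * j) 3]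
  rw [pow_add, pow_mul, hφw3, one_pow, one_mul]

end GD

lemma psum3_congr {r : ℕ} {V : G →* Matrix (Fin r) (Fin r) ℂ} [Fintype G] (p : Fin r → ℂ) (j : ℕ)
    {a b : MRep G} (h : ∀ g, (a.2 g).trace = (b.2 g).trace) : psum3 V p j a = psum3 V p j b := by
  classical
  unfold psum3
  refine Finset.sum_congr rfl fun g _ => ?_
  rw [h g]

lemma isolC3_congr {r : ℕ} {V : G →* Matrix (Fin r) (Fin r) ℂ} [Fintype G] {a b : MRep G}
    (h1 : a.1 = b.1) (h2 : ∀ g, (a.2 g).trace = (b.2 g).trace) (h : IsolC3 V a) : IsolC3 V b := by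
  obtain ⟨m, p, j, u, h3, h4⟩ := h
  refine ⟨m, p, j, u, ?_, fun c hc hl => ?_⟩
  · rw [← h3]
    refine Finset.sum_congr rfl fun i _ => ?_
    rw [psum3_congr (p i) (j i).1 h2]
  · rcases h4 c hc (sameLevel_left h1.symm (fun g => (h2 g).symm) hl) with h5 | h5
    · left; exact h5
    · right
      intro g
      rw [h5 g, h2 g]

namespace GD

variable {d : GD α} {φ : α → ℂ} {r : ℕ} {V : G →* Matrix (Fin r) (Fin r) ℂ} {e : ℕ → ℂ}
  {γ : ℕ → G}

/-- The character `μ` is isolated by the difference of the normalised sums for `(P, j)` and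
`(P', j')`. -/
def chkIso3 (d : GD α) (w : α) (P P' : PD α) (j j' μ : ℕ) : Bool :=
  cond (Nat.blt 0 (Nat.mul P.n P'.n))
    (allN d.K fun i => cond (d.difE μ i) true
      (d.c.eq (d.c.mul (d.c.nat P'.n) (P.qs3 d w j i))
        (d.c.add (d.c.mul (d.c.nat P.n) (P'.qs3 d w j' i))
          (d.c.nat (cond (Nat.beq i μ) (Nat.mul P.n P'.n) 0))))) false

theorem isolC3_cert [Fintype G] (hc : CRS d.c φ e) (hG : Gp d φ V γ) (CA : CkA d) (CB : CkB d)
    {lt : ℕ → G} {a : ℕ → MRep G} (O : Out d φ V γ lt a) {o : OD} (ho : o ∈ d.ops)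
    (hg : o.gen < d.ng) {w : α} {P P' : PD α} (C : P.Ck3 d o w) (C' : P'.Ck3 d o w)
    (j j' : Fin 3) {μ : ℕ} (hμ : μ < d.K) (h : d.chkIso3 w P P' j.1 j'.1 μ = true) :
    IsolC3 V (a μ) := by
  obtain ⟨h1, h2⟩ := psum3_cert hc hG CA CB O ho hg C
  obtain ⟨h1', h2'⟩ := psum3_cert hc hG CA CB O ho hg C'
  unfold chkIso3 at h
  simp only [cond_iff, blt_iff, allN_iff] at h
  obtain ⟨hpos, h⟩ := h
  have hpos' : 0 < P.n * P'.n := hpos
  have hP0 : (P.n : ℂ) ≠ 0 := by
    rw [Nat.cast_ne_zero]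
    rintro h0
    rw [h0, zero_mul] at hpos'
    exact absurd hpos' (lt_irrefl 0)
  have hP0' : (P'.n : ℂ) ≠ 0 := by
    rw [Nat.cast_ne_zero]
    rintro h0
    rw [h0, mul_zero] at hpos'
    exact absurd hpos' (lt_irrefl 0)
  have key : ∀ i < d.K, d.difE μ i = false →
      ∑ k : Fin 2, ((![1, -1] : Fin 2 → ℤ) k : ℂ) *
        (psum3 V ((![P.vec d φ r, P'.vec d φ r] : Fin 2 → Fin r → ℂ) k)
          ((![j, j'] : Fin 2 → Fin 3) k).1 (a i) /
          Nat.card (WP V ((![P.vec d φ r, P'.vec d φ r] : Fin 2 → Fin r → ℂ) k))) =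
        if i = μ then 1 else 0 := by
    intro i hi hd
    have h3 := h i hi
    rw [hd, cond_false, hc.eq, hc.mul, hc.add, hc.mul, hc.nat, hc.nat, hc.nat] at h3
    rw [Fin.sum_univ_two]
    simp only [Matrix.cons_val_zero, Matrix.cons_val_one, Matrix.cons_val_fin_one]
    rw [h1, h1', h2 _ i hi, h2' _ i hi]
    have h4 : ((cond (Nat.beq i μ) (Nat.mul P.n P'.n) 0 : ℕ) : ℂ) =
        (if i = μ then 1 else 0) * ((P.n : ℂ) * P'.n) := by
      by_cases hiμ : i = μ
      · have : Nat.beq i μ = true := beq_iff.2 hiμ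
        rw [this, cond_true, if_pos hiμ, one_mul]
        exact Nat.cast_mul P.n P'.n
      · have : Nat.beq i μ = false := by
          rw [← Bool.not_eq_true, beq_iff]; exact hiμ
        rw [this, cond_false, if_neg hiμ, zero_mul, Nat.cast_zero]
    rw [h4] at h3
    push_cast
    field_simp
    linear_combination h3
  have hself : d.difE μ μ = false := by
    cases h3 : d.difE μ μ with
    | false => rfl
    | true => exact absurd (fun g _ => rfl) (difE_of hc O hμ hμ h3)
  refine ⟨2, ![P.vec d φ r, P'.vec d φ r], ![j, j'], ![1, -1], ?_, fun b hb hS => ?_⟩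
  · rw [key μ hμ hself, if_pos rfl]
  · obtain ⟨i, hi, hbi, hbt⟩ := O.compl b hb
    have hS' : SameLevel V (a μ) (a i) :=
      sameLevel_symm (sameLevel_left hbi hbt (sameLevel_symm hS))
    by_cases hiμ : i = μ
    · right
      rw [hiμ] at hbt
      exact hbt
    · left
      have hd : d.difE μ i = false := by
        cases h3 : d.difE μ i with
        | false => rfl
        | true => exact absurd hS' (difE_of hc O hμ hi h3)
      have h5 := key i hi hd
      rw [if_neg hiμ] at h5
      rw [← h5]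
      refine Finset.sum_congr rfl fun k _ => ?_
      rw [psum3_congr _ _ hbt]

/-- The case `X = IsolC3 V` of `Out.connX`. -/
theorem Out.connIsolC3 [Fintype G] (hc : CRS d.c φ e) {lt : ℕ → G} {a : ℕ → MRep G}
    (O : Out d φ V γ lt a) {I : ℕ} (hI : ∀ i < d.K, bit I i = true → IsolC3 V (a i))
    (hlab : ∀ i < d.K, d.chkLabX I i = true) :
    ∀ x y : MRep G, IsIrr x.2 → IsIrr y.2 → SameLevel V x y → ¬ IsolC3 V x → ¬ IsolC3 V y →
      Relation.EqvGen (Lk V) x y :=
  O.connX hc (IsolC3 V) (fun _ _ h1 h2 h => isolC3_congr h1 h2 h) hI hlab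

end GD

end

end Pool.Agent.CMFn
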