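import Mathlib

/-! Project CMFn, block C/Q: enumeration of a subgroup generated by involutions.  helper5. -/

namespace Pool.Agent.CMFn

noncomputable section

/-- A list `w_0 = 1, w_1, …` on which involutions `s_a ∈ S` act by left multiplication, which is
connected under them, in which `1` occurs only once and which contains `S`, is an enumeration
without repetition of the subgroup generated by `S`. -/
theorem enum_equiv {G : Type*} [Group G] {S : Set G} {ns n : ℕ} {s w : ℕ → G} {f : ℕ → ℕ → ℕ}
    (hn : 0 < n) (h0 : w 0 = 1) (hne : ∀ i, 0 < i → i < n → w i ≠ 1)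
    (hs : ∀ a < ns, s a ∈ S)
    (hf : ∀ a < ns, ∀ i < n, f a i < n ∧ f a (f a i) = i ∧ w (f a i) = s a * w i)
    (hp : ∀ i, 0 < i → i < n → ∃ j < i, ∃ a < ns, w i = s a * w j)
    (hS : ∀ x ∈ S, ∃ i < n, w i = x) :
    ∃ e : Fin n ≃ Subgroup.closure S, ∀ i, (e i : G) = w i := by
  -- the involutions
  have hsq : ∀ a < ns, s a * s a = 1 := by
    intro a ha
    obtain ⟨h1, h2, h3⟩ := hf a ha 0 hn
    obtain ⟨h4, h5, h6⟩ := hf a ha _ h1
    rw [h2, h3, h0, mul_one] at h6
    exact h6.symm
  have hinv : ∀ a < ns, (s a)⁻¹ = s a := fun a ha => inv_eq_of_mul_eq_one_right (hsq a ha)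
  set T : Set G := {x | ∃ a < ns, x = s a} with hT
  have hmem : ∀ i < n, w i ∈ Subgroup.closure T := by
    intro i
    induction i using Nat.strong_induction_on with
    | _ i ih =>
      intro hi
      rcases Nat.eq_zero_or_pos i with h | h
      · rw [h, h0]; exact Subgroup.one_mem _
      · obtain ⟨j, hj, a, ha, h1⟩ := hp i h hi
        rw [h1]
        exact Subgroup.mul_mem _ (Subgroup.subset_closure ⟨a, ha, rfl⟩) (ih j hj (by omega))
  have hTS : Subgroup.closure S = Subgroup.closure T := by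
    apply le_antisymm
    · rw [Subgroup.closure_le]
      intro x hx
      obtain ⟨i, hi, rfl⟩ := hS x hx
      exact hmem i hi
    · rw [Subgroup.closure_le]
      rintro x ⟨a, ha, rfl⟩
      exact Subgroup.subset_closure (hs a ha)
  -- surjectivity
  have hsurj : ∀ x ∈ Subgroup.closure T, ∃ i < n, w i = x := by
    intro x hx
    induction hx using Subgroup.closure_induction_left with
    | one => exact ⟨0, hn, h0⟩
    | mul_left y hy z _ ih =>
      obtain ⟨a, ha, rfl⟩ := hy
      obtain ⟨i, hi, rfl⟩ := ih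
      exact ⟨f a i, (hf a ha i hi).1, (hf a ha i hi).2.2⟩
    | inv_mul_cancel y hy z _ ih =>
      obtain ⟨a, ha, rfl⟩ := hy
      obtain ⟨i, hi, rfl⟩ := ih
      rw [hinv a ha]
      exact ⟨f a i, (hf a ha i hi).1, (hf a ha i hi).2.2⟩
  -- injectivity
  have hinj : ∀ x ∈ Subgroup.closure T, ∀ i < n, ∀ j < n, w i = x → w j = x → i = j := by
    intro x hx
    induction hx using Subgroup.closure_induction_left with
    | one =>
      intro i hi j hj h1 h2
      have e1 : i = 0 := by
        by_contra h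
        exact hne i (by omega) hi h1
      have e2 : j = 0 := by
        by_contra h
        exact hne j (by omega) hj h2
      rw [e1, e2]
    | mul_left y hy z _ ih =>
      obtain ⟨a, ha, rfl⟩ := hy
      intro i hi j hj h1 h2
      obtain ⟨a1, a2, a3⟩ := hf a ha i hi
      obtain ⟨b1, b2, b3⟩ := hf a ha j hj
      have h3 := ih (f a i) a1 (f a j) b1 (by rw [a3, h1, ← mul_assoc, hsq a ha, one_mul])
        (by rw [b3, h2, ← mul_assoc, hsq a ha, one_mul])
      rw [← a2, ← b2, h3]
    | inv_mul_cancel y hy z _ ih =>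
      obtain ⟨a, ha, rfl⟩ := hy
      intro i hi j hj h1 h2
      rw [hinv a ha] at h1 h2
      obtain ⟨a1, a2, a3⟩ := hf a ha i hi
      obtain ⟨b1, b2, b3⟩ := hf a ha j hj
      have h3 := ih (f a i) a1 (f a j) b1 (by rw [a3, h1, ← mul_assoc, hsq a ha, one_mul])
        (by rw [b3, h2, ← mul_assoc, hsq a ha, one_mul])
      rw [← a2, ← b2, h3]
  rw [hTS]
  refine ⟨Equiv.ofBijective (fun i : Fin n => ⟨w i, hmem i i.2⟩) ⟨?_, ?_⟩, fun i => rfl⟩
  · intro i j hij
    have h1 : w i = w j := congrArg Subtype.val hij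
    exact Fin.ext (hinj (w j) (hmem j j.2) i i.2 j j.2 h1 rfl)
  · rintro ⟨x, hx⟩
    obtain ⟨i, hi, h1⟩ := hsurj x hx
    exact ⟨⟨i, hi⟩, Subtype.ext h1⟩

end

end Pool.Agent.CMFn
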