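import Pool.Agent.CMFn.CDefs

/-! Project CMFn, block Q: isolated irreducible representations (definitions).  helper48. -/

namespace Pool.Agent.CMFn

open Matrix

noncomputable section

variable {G : Type} [Group G]

/-- The subgroup generated by the reflections which fix the vector `p`. -/
def WP {r : ℕ} (V : G →* Matrix (Fin r) (Fin r) ℂ) (p : Fin r → ℂ) : Subgroup G :=
  Subgroup.closure {s | (V s - 1).rank = 1 ∧ V s *ᵥ p = p}

open Classical in
/-- The sum of the character of `a` over `WP V p`, weighted by the determinant of `V`
(`σ = true`) or not (`σ = false`). -/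
def psum {r : ℕ} [Fintype G] (V : G →* Matrix (Fin r) (Fin r) ℂ) (p : Fin r → ℂ) (σ : Bool)
    (a : MRep G) : ℂ :=
  ∑ g : G, if g ∈ WP V p then (if σ then (V g).det else 1) * (a.2 g).trace else 0

/-- `a` contains an extreme character of some `WP V p` with multiplicity one, and no other
irreducible representation of the level of `a` contains it. -/
def Isol {r : ℕ} [Fintype G] (V : G →* Matrix (Fin r) (Fin r) ℂ) (a : MRep G) : Prop :=
  ∃ (p : Fin r → ℂ) (σ : Bool), psum V p σ a = (Nat.card (WP V p) : ℂ) ∧
    ∀ b : MRep G, IsIrr b.2 → SameLevel V a b →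
      psum V p σ b = 0 ∨ ∀ g, (b.2 g).trace = (a.2 g).trace

end

end Pool.Agent.CMFn
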