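import Pool.Agent.CMFn.CSndC
import Pool.Agent.CMFn.CQA
import Pool.Agent.CMFn.IsolDefs

/-! Project CMFn, blocks C and Q: certificates for sums over parabolic subgroups.  helper5. -/

namespace Pool.Agent.CMFn

open Matrix

noncomputable section

/-- Data of the subgroup generated by the reflections which fix a vector `p`: the list of its
elements (images of the basis roots, width `b`), the involutive generators (indices in the family
of reflections), their action on the list by left multiplication (width 16), parents (width 24: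
index, then generator), class indices and conjugating words, signs, and the positions of the
reflections fixing `p` in the list (width 16). -/
structure PD (α : Type) where
  n : ℕ
  p : List α
  ns : ℕ
  gs : List ℕ
  el : Tr
  mv : List ℕ
  par : ℕ
  cw : Tr
  sg : ℕ
  loc : ℕ

/-- The reflections which fix `p`. -/
def PR {G : Type} [Group G] {r : ℕ} (V : G →* Matrix (Fin r) (Fin r) ℂ) (p : Fin r → ℂ) : Set G :=
  {s | (V s - 1).rank = 1 ∧ V s *ᵥ p = p}

namespace PD

variable {α : Type} (P : PD α) (d : GD α) (o : OD)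

def pc (y : ℕ) : α := P.p.getD y (d.c.nat 0)

/-- The vector `p`. -/
def vec (φ : α → ℂ) (r : ℕ) : Fin r → ℂ := fun y => φ (P.pc d y)

def e (i x : ℕ) : ℕ := dg d.b (P.el.get i) x

def g (a : ℕ) : ℕ := P.gs.getD a 0

def m (a i : ℕ) : ℕ := dg 16 (P.mv.getD a 0) i

def pj (i : ℕ) : ℕ := Nat.mod (dg 24 P.par i) 65536

def pa (i : ℕ) : ℕ := Nat.div (dg 24 P.par i) 65536

def cl (i : ℕ) : ℕ := Nat.mod (P.cw.get i) 256

def w (i : ℕ) : List ℕ := wd 24 (Nat.div (P.cw.get i) 256)

def lc (i : ℕ) : ℕ := dg 16 P.loc i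

/-- Reflection `i` of the family fixes `p`. -/
def fix (i : ℕ) : Bool :=
  allN d.r fun y => d.c.eq
    (d.sum d.r fun x => d.c.mul (d.crd (d.tb (Nat.add o.s i) x) y) (P.pc d x)) (P.pc d y)

/-- All reflections are in the family, and they are involutions. -/
def chkAll : Bool :=
  cond (Nat.blt 0 o.m)
    (cond (allN d.nc fun j => cond (GD.bit d.rf j) (cond (Nat.beq j 0) true
      (Nat.beq j (d.kk o 0 0))) true)
      (allN d.r fun x => Nat.beq (d.tb o.s (d.tb o.s x)) x) false) false

def chkZero : Bool :=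
  cond (Nat.blt 0 P.n) (allN d.r fun x => Nat.beq (P.e d 0 x) x) false

def chkNe (i : ℕ) : Bool :=
  cond (Nat.beq i 0) true (anyN d.r fun x => cond (Nat.beq (P.e d i x) x) false
    (anyN d.r fun y => Bool.not (d.c.eq (d.crd (P.e d i x) y) (d.c.nat (cond (Nat.beq x y) 1 0)))))

def chkMv (a : ℕ) : Bool :=
  allN P.n fun i => cond (Nat.blt (P.m a i) P.n) (cond (Nat.beq (P.m a (P.m a i)) i)
    (allN d.r fun x => Nat.beq (P.e d (P.m a i) x) (d.tb (Nat.add o.s (P.g a)) (P.e d i x)))
    false) false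

def chkPr (i : ℕ) : Bool :=
  cond (Nat.beq i 0) true (cond (Nat.blt (P.pj i) i) (cond (Nat.blt (P.pa i) P.ns)
    (Nat.beq (P.m (P.pa i) (P.pj i)) i) false) false)

def chkCl (i : ℕ) : Bool :=
  cond (Nat.blt (P.cl i) d.nc) (cond (allL (P.w i) fun a => Nat.blt a d.A)
    (allN d.r fun x => Nat.beq (d.actw (P.w i) (P.e d i x))
      (d.tb (Nat.add d.rep (P.cl i)) (d.actw (P.w i) x))) false) false

def chkLoc (i : ℕ) : Bool :=
  cond (P.fix d o i) (cond (Nat.blt (P.lc i) P.n)
    (allN d.r fun x => Nat.beq (P.e d (P.lc i) x) (d.tb (Nat.add o.s i) x)) false) true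

def chkGs (a : ℕ) : Bool :=
  cond (Nat.blt (P.g a) o.m) (P.fix d o (P.g a)) false

/-- Signs: `tw` tells whether the generators change the sign. -/
def chkSg (tw : Bool) (i : ℕ) : Bool :=
  cond (Nat.beq i 0) (Bool.not (GD.bit P.sg 0))
    (cond tw (cond (GD.bit P.sg (P.pj i)) (Bool.not (GD.bit P.sg i)) (GD.bit P.sg i))
      (cond (GD.bit P.sg (P.pj i)) (GD.bit P.sg i) (Bool.not (GD.bit P.sg i))))

/-- `Σ_i ± X_μ(class of w_i)`. -/
def qs (μ : ℕ) : α :=
  d.sum P.n fun i => cond (GD.bit P.sg i) (d.c.neg (d.X μ (P.cl i))) (d.X μ (P.cl i))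

/-- All the checks, for the subgroup. -/
structure Ck (tw : Bool) : Prop where
  all : chkAll d o = true
  zero : P.chkZero d = true
  ne : ∀ i < P.n, P.chkNe d i = true
  mv : ∀ a < P.ns, P.chkMv d o a = true
  pr : ∀ i < P.n, P.chkPr i = true
  cl : ∀ i < P.n, P.chkCl d i = true
  loc : ∀ i < o.m, P.chkLoc d o i = true
  gs : ∀ a < P.ns, P.chkGs d o a = true
  sg : ∀ i < P.n, P.chkSg tw i = true

end PD

variable {G : Type} [Group G] {α : Type}

namespace GD

variable {d : GD α} {φ : α → ℂ} {r : ℕ} {V : G →* Matrix (Fin r) (Fin r) ℂ} {e : ℕ → ℂ}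
  {γ : ℕ → G}

lemma root_ext (hB : d.Bas φ r) (hV : Function.Injective V) {h h' : G}
    (H : ∀ x < r, V h *ᵥ d.root φ r x = V h' *ᵥ d.root φ r x) : h = h' := by
  apply hV
  ext y x
  rw [← Bas.col hB (V h) x y, ← Bas.col hB (V h') x y, H x x.2]

/-- Reflections are in the listed classes. -/
lemma rf_of [Fintype G] (hc : CRS d.c φ e) (hG : Gp d φ V γ) (CA : CkA d) (CB : CkB d)
    {lt : ℕ → G} {a : ℕ → MRep G} (O : Out d φ V γ lt a) {j : ℕ} (hj : j < d.nc)
    (h : (V (lt (d.rep + j)) - 1).rank = 1) : bit d.rf j = true := by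
  have hB := bas_of hc hG CA.base
  have hbase := CA.base
  unfold chkBase at hbase
  simp only [cond_iff, ble_iff, allN_iff] at hbase
  have hrep : d.rep + d.nc ≤ d.A := hbase.2.1
  have hr0 : 0 < r := by
    have := hbase.2.2.2.1
    rw [hG.hr] at this
    exact this
  have hT : ∀ p ∈ d.tm, ∀ j < d.nc, φ (d.tv p.2 j) = ((V (lt (d.rep + j))) ^ p.1).trace := by
    intro p hp j hj
    have h1 := List.all_eq_true.1 CB.tt p hp
    simp only [cond_iff, ble_iff, allN_iff, hc.eq] at h1
    rw [← h1.2 j hj, tr_eq hc hB hG.hr O.ltr hrep hj]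
  rcases lt_rank hc hG.hr hr0 hB O.ltr hrep hT hj (CA.rf j hj) with h1 | h1
  · exact h1
  · exact absurd h h1

/-- If only one class is listed, every reflection is in the family. -/
lemma mem_family [Fintype G] (hc : CRS d.c φ e) (hG : Gp d φ V γ) (CA : CkA d) (CB : CkB d)
    {lt : ℕ → G} {a : ℕ → MRep G} (O : Out d φ V γ lt a) {o : OD} (ho : o ∈ d.ops)
    (h : PD.chkAll d o = true) {x : G} (hx : (V x - 1).rank = 1) :
    (∃ i < o.m, x = lt (o.s + i)) ∧ x * x = 1 := by
  have hB := bas_of hc hG CA.base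
  have hoA : o.s + o.m ≤ d.A := by
    have := CA.conj o ho
    unfold chkConj at this
    simp only [cond_iff, ble_iff] at this
    exact this.1
  unfold PD.chkAll at h
  simp only [cond_iff, blt_iff, allN_iff] at h
  obtain ⟨hm, h1, hsq⟩ := h
  obtain ⟨j, hj, hxj⟩ := cover O.cls x
  have hop := O.cls.ops _ (List.mem_map.2 ⟨o, ho, rfl⟩)
  have h2 : bit d.rf j = true := by
    refine rf_of hc hG CA CB O hj ?_
    obtain ⟨y, hy⟩ := hxj.symm
    rw [hy, rank_conj]
    exact hx
  have h3 := h1 j hj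
  have hj0 : Nat.beq j 0 = false := by
    rw [← Bool.not_eq_true, beq_iff]
    rintro rfl
    obtain ⟨y, hy⟩ := hxj
    rw [O.cls.g0, mul_one, mul_inv_cancel] at hy
    rw [hy, map_one, sub_self, Matrix.rank_zero] at hx
    exact absurd hx (by decide)
  rw [h2, cond_true, hj0, cond_false, beq_iff] at h3
  have h4 := hop.cj 0 hm 0 O.cls.pos
  rw [O.cls.g0, mul_one] at h4
  have h5 : Cj x (lt (o.s + 0)) := by
    refine hxj.trans ?_
    rw [h3]
    exact h4.symm
  obtain ⟨y, hy⟩ := h5
  obtain ⟨q, hq⟩ := hop.conj y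
  have h6 := hq ⟨0, hm⟩
  refine ⟨⟨q ⟨0, hm⟩, (q ⟨0, hm⟩).2, hy.trans h6⟩, ?_⟩
  have h7 : lt (o.s + 0) * lt (o.s + 0) = 1 := by
    have h8 := O.ltr.tb (o.s + 0) (by omega)
    refine Tb.ext hB hG.inj (h8.mul h8) Tb.one fun x hx => ?_
    rw [hG.hr] at hsq
    exact beq_iff.1 (hsq x hx)
  rw [hy]
  calc y * lt (o.s + 0) * y⁻¹ * (y * lt (o.s + 0) * y⁻¹)
      = y * (lt (o.s + 0) * lt (o.s + 0)) * y⁻¹ := by group
    _ = 1 := by rw [h7]; group

variable {P : PD α} {o : OD}

lemma fix_iff (hc : CRS d.c φ e) (hG : Gp d φ V γ) (hB : d.Bas φ r) {lt : ℕ → G}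
    (hL : Lt d φ V γ lt) (ho : o.s + o.m ≤ d.A) {i : ℕ} (hi : i < o.m) :
    P.fix d o i = true ↔ V (lt (o.s + i)) *ᵥ P.vec d φ r = P.vec d φ r := by
  have h1 : ∀ y : Fin r, (V (lt (o.s + i)) *ᵥ P.vec d φ r) y =
      ∑ x ∈ Finset.range r, φ (d.crd (d.tb (o.s + i) x) y) * φ (P.pc d x) := by
    intro y
    rw [Matrix.mulVec, dotProduct, Finset.sum_range]
    refine Finset.sum_congr rfl fun x _ => ?_
    rw [← Bas.col hB (V (lt (o.s + i))) x y,
      (hL.tb (o.s + i) (by omega) x (by have := hB.1; omega)).2]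
    rfl
  unfold PD.fix
  simp only [allN_iff, hc.eq, hG.hr, d.sum_eq φ hc, hc.mul]
  constructor
  · intro h
    funext y
    rw [h1 y]
    exact h y y.2
  · intro h y hy
    have h2 := congrFun h ⟨y, hy⟩
    rw [h1 ⟨y, hy⟩] at h2
    exact h2

open Classical in
/-- The sum over the subgroup generated by the reflections which fix `p`. -/
theorem par_cert [Fintype G] (hc : CRS d.c φ e) (hG : Gp d φ V γ) (CA : CkA d) (CB : CkB d)
    {lt : ℕ → G} {a : ℕ → MRep G} (O : Out d φ V γ lt a) (ho : o ∈ d.ops) (hg : o.gen < d.ng)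
    {tw : Bool} (C : P.Ck d o tw) :
    Nat.card (Subgroup.closure (PR V (P.vec d φ r))) = P.n ∧
    ∀ θ : Subgroup.closure (PR V (P.vec d φ r)) →* ℂ,
      (∀ (s : G) (hs : s ∈ PR V (P.vec d φ r)),
        θ ⟨s, Subgroup.subset_closure hs⟩ = if tw then -1 else 1) →
      (∀ i < d.K, ∑ x : Subgroup.closure (PR V (P.vec d φ r)), θ x * ((a i).2 x).trace =
        φ (P.qs d i)) := by
  have hB := bas_of hc hG CA.base
  have hL := O.ltr
  have hbase := CA.base
  unfold chkBase at hbase
  simp only [cond_iff, ble_iff, allN_iff] at hbase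
  have hrep : d.rep + d.nc ≤ d.A := hbase.2.1
  have hr0 : 0 < r := O.r0
  have hoA : o.s + o.m ≤ d.A := by
    have := CA.conj o ho
    unfold chkConj at this
    simp only [cond_iff, ble_iff] at this
    exact this.1
  have hz := C.zero
  unfold PD.chkZero at hz
  simp only [cond_iff, blt_iff, allN_iff, beq_iff, hG.hr] at hz
  obtain ⟨hn, hz⟩ := hz
  have hmv := C.mv
  unfold PD.chkMv at hmv
  simp only [cond_iff, blt_iff, allN_iff, beq_iff, hG.hr] at hmv
  have hgs := C.gs
  unfold PD.chkGs at hgs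
  simp only [cond_iff, blt_iff] at hgs
  have hpr : ∀ i < P.n, 0 < i → P.pj i < i ∧ P.pa i < P.ns ∧ P.m (P.pa i) (P.pj i) = i := by
    intro i hi h0
    have h1 := C.pr i hi
    unfold PD.chkPr at h1
    have h2 : Nat.beq i 0 = false := by
      rw [← Bool.not_eq_true, beq_iff]; omega
    rw [h2, cond_false] at h1
    simp only [cond_iff, blt_iff, beq_iff] at h1
    exact h1
  -- the elements
  have hex : ∀ i < P.n, ∃ x : G, ∀ y < r, P.e d i y < d.n ∧
      V x *ᵥ d.root φ r y = d.root φ r (P.e d i y) := by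
    intro i
    induction i using Nat.strong_induction_on with
    | _ i ih =>
      intro hi
      rcases Nat.eq_zero_or_pos i with h0 | h0
      · subst h0
        refine ⟨1, fun y hy => ?_⟩
        rw [hz y hy, map_one, Matrix.one_mulVec]
        exact ⟨by have := hB.1; omega, rfl⟩
      · obtain ⟨h1, h2, h3⟩ := hpr i hi h0
        obtain ⟨x, hx⟩ := ih _ h1 (by omega)
        refine ⟨lt (o.s + P.g (P.pa i)) * x, fun y hy => ?_⟩
        have h4 := (hmv _ h2 (P.pj i) (by omega)).2.2 y hy
        rw [h3] at h4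
        have h5 := hL.tb (o.s + P.g (P.pa i)) (by have := (hgs _ h2).1; omega) _ (hx y hy).1
        have h6 : P.e d i y = d.tb (o.s + P.g (P.pa i)) (P.e d (P.pj i) y) := h4
        rw [h6]
        refine ⟨h5.1, ?_⟩
        rw [map_mul, ← Matrix.mulVec_mulVec, (hx y hy).2, h5.2]
  choose! w hw using hex
  have hw0 : w 0 = 1 := by
    refine root_ext hB hG.inj fun x hx => ?_
    rw [(hw 0 hn x hx).2, hz x hx, map_one, Matrix.one_mulVec]
  have hwm : ∀ b < P.ns, ∀ i < P.n, w (P.m b i) = lt (o.s + P.g b) * w i := by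
    intro b hb i hi
    obtain ⟨h1, h2, h3⟩ := hmv b hb i hi
    refine root_ext hB hG.inj fun x hx => ?_
    rw [(hw _ h1 x hx).2, map_mul, ← Matrix.mulVec_mulVec, (hw i hi x hx).2,
      (hL.tb (o.s + P.g b) (by have := (hgs _ hb).1; omega) _ (hw i hi x hx).1).2]
    exact congrArg _ (h3 x hx)
  set S := PR V (P.vec d φ r) with hS
  have hsS : ∀ b < P.ns, lt (o.s + P.g b) ∈ S := by
    intro b hb
    obtain ⟨h1, h2⟩ := hgs b hb
    exact ⟨O.refl o ho hg _ h1, (fix_iff hc hG hB hL hoA h1).1 h2⟩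
  obtain ⟨E, hE⟩ := enum_equiv (S := S) (ns := P.ns) (n := P.n) (s := fun b => lt (o.s + P.g b))
    (w := w) (f := P.m) hn hw0 (by
      intro i h0 hi h1
      have h2 := C.ne i hi
      unfold PD.chkNe at h2
      have h3 : Nat.beq i 0 = false := by
        rw [← Bool.not_eq_true, beq_iff]; omega
      rw [h3, cond_false, anyN_iff] at h2
      obtain ⟨x, hx, h4⟩ := h2
      cases h5 : Nat.beq (P.e d i x) x with
      | true => rw [h5] at h4; simp at h4
      | false =>
        rw [h5, cond_false, anyN_iff] at h4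
        obtain ⟨y, hy, h6⟩ := h4
        rw [Bool.not_eq_true', ← Bool.not_eq_true, hc.eq, hc.nat] at h6
        rw [hG.hr] at hx hy
        apply h6
        have h7 := (hw i hi x hx).2
        rw [h1, map_one, Matrix.one_mulVec] at h7
        have h8 := congrFun h7 ⟨y, hy⟩
        unfold root at h8
        simp only at h8
        rw [← h8, hB.2 x hx y hy]
        by_cases hxy : x = y
        · subst hxy; simp
        · have : Nat.beq x y = false := by
            rw [← Bool.not_eq_true, beq_iff]; exact hxy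
          rw [this]; simp [hxy])
    hsS (by
      intro b hb i hi
      exact ⟨(hmv b hb i hi).1, (hmv b hb i hi).2.1, hwm b hb i hi⟩) (by
      intro i h0 hi
      obtain ⟨h1, h2, h3⟩ := hpr i hi h0
      refine ⟨_, h1, _, h2, ?_⟩
      have h4 := hwm _ h2 _ (show P.pj i < P.n by omega)
      rw [h3] at h4
      exact h4) (by
      rintro x ⟨hx1, hx2⟩
      obtain ⟨i, hi, rfl⟩ := (mem_family hc hG CA CB O ho C.all hx1).1
      have h1 := C.loc i hi
      unfold PD.chkLoc at h1
      rw [(fix_iff (P := P) hc hG hB hL hoA hi).2 hx2, cond_true] at h1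
      simp only [cond_iff, blt_iff, allN_iff, beq_iff, hG.hr] at h1
      refine ⟨_, h1.1, root_ext hB hG.inj fun x hx => ?_⟩
      rw [(hw _ h1.1 x hx).2, (hL.tb (o.s + i) (by omega) x (by have := hB.1; omega)).2]
      exact congrArg _ (h1.2 x hx))
  refine ⟨?_, fun θ hθ i hi => ?_⟩
  · rw [← Nat.card_congr E, Nat.card_fin]
  -- the sum
  have hθw : ∀ i : Fin P.n, θ (E i) = if bit P.sg i then -1 else 1 := by
    have key : ∀ i (hi : i < P.n), θ (E ⟨i, hi⟩) = if bit P.sg i then -1 else 1 := by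
      intro i
      induction i using Nat.strong_induction_on with
      | _ i ih =>
        intro hi
        have hs := C.sg i hi
        unfold PD.chkSg at hs
        rcases Nat.eq_zero_or_pos i with h0 | h0
        · subst h0
          have h1 : E ⟨0, hi⟩ = 1 := Subtype.ext (by rw [hE]; exact hw0)
          have h2 : Nat.beq 0 0 = true := rfl
          rw [h2, cond_true, Bool.not_eq_true'] at hs
          rw [h1, map_one, hs]
          simp
        · obtain ⟨h1, h2, h3⟩ := hpr i hi h0
          have hj : P.pj i < P.n := by omega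
          have h4 : E ⟨i, hi⟩ = ⟨_, Subgroup.subset_closure (hsS _ h2)⟩ * E ⟨P.pj i, hj⟩ := by
            apply Subtype.ext
            rw [hE]
            show w i = lt (o.s + P.g (P.pa i)) * (E ⟨P.pj i, hj⟩ : G)
            rw [hE]
            have h5 := hwm _ h2 _ hj
            rw [h3] at h5
            exact h5
          rw [h4, map_mul, hθ _ (hsS _ h2), ih _ h1 hj]
          have h6 : Nat.beq i 0 = false := by
            rw [← Bool.not_eq_true, beq_iff]; omega
          rw [h6, cond_false] at hs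
          cases tw <;> cases hb : bit P.sg (P.pj i) <;> rw [hb] at hs <;> simp at hs <;> simp [hs]
    exact fun i => key i i.2
  rw [← E.sum_comp]
  have hcl : ∀ j : Fin P.n, ((a i).2 (E j : G)).trace = φ (d.X i (P.cl j)) := by
    intro j
    have h1 := C.cl j j.2
    unfold PD.chkCl at h1
    simp only [cond_iff, blt_iff, allL_iff, allN_iff, beq_iff, hG.hr] at h1
    obtain ⟨h2, h3, h4⟩ := h1
    rw [← (O.irr i hi).2.2 _ h2]
    have hwd := actw_tb hL.tb _ h3
    have h5 : ((P.w j).map lt).prod * (w j) = lt (d.rep + P.cl j) * ((P.w j).map lt).prod := by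
      refine root_ext hB hG.inj fun x hx => ?_
      rw [map_mul, map_mul, ← Matrix.mulVec_mulVec, ← Matrix.mulVec_mulVec, (hw j j.2 x hx).2,
        (hwd _ (hw j j.2 x hx).1).2, (hwd x (by have := hB.1; omega)).2,
        (hL.tb (d.rep + P.cl j) (by omega) _ (hwd x (by have := hB.1; omega)).1).2]
      exact congrArg _ (h4 x hx)
    refine tr_cls _ ⟨(((P.w j).map lt).prod)⁻¹, ?_⟩
    rw [hE, inv_inv, mul_assoc, ← h5]
    group
  have h1 : φ (P.qs d i) = ∑ j ∈ Finset.range P.n,
      (if bit P.sg j then -1 else 1) * φ (d.X i (P.cl j)) := by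
    unfold PD.qs
    rw [d.sum_eq φ hc]
    refine Finset.sum_congr rfl fun j _ => ?_
    cases bit P.sg j with
    | true => rw [cond_true, hc.neg]; simp
    | false => rw [cond_false]; simp
  rw [h1, Finset.sum_range]
  refine Finset.sum_congr rfl fun j _ => ?_
  rw [hθw, hcl]

end GD

end

end Pool.Agent.CMFn
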