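import Pool.Agent.CMFn.CQB

/-! Project CMFn, blocks C and Q: certificates for isolated characters and for the connectedness
of the rest of the levels.  helper5. -/

namespace Pool.Agent.CMFn

open Matrix

noncomputable section

variable {G : Type} [Group G] {r : ℕ} {V : G →* Matrix (Fin r) (Fin r) ℂ}

/-- The determinant of an involutive reflection. -/
lemma det_invol {s : G} (h : (V s - 1).rank = 1) (hs : s * s = 1) : (V s).det = -1 := by
  classical
  set N := V s - 1 with hN
  have hA : V s = 1 + N := by rw [hN]; abel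
  have h1 : Module.finrank ℂ (LinearMap.range N.mulVecLin) = 1 := h
  obtain ⟨u, hu0, hu⟩ := finrank_eq_one_iff'.1 h1
  have h2 : ∀ j, ∃ c : ℂ, ∀ i, N i j = c * u.1 i := by
    intro j
    obtain ⟨c, hc⟩ := hu ⟨N.mulVecLin (Pi.single j 1), ⟨_, rfl⟩⟩
    refine ⟨c, fun i => ?_⟩
    have h3 := congrFun (congrArg Subtype.val hc) i
    simp only [Submodule.coe_smul, Pi.smul_apply, smul_eq_mul, Matrix.mulVecLin_apply,
      Matrix.mulVec_single_one] at h3
    rw [h3]; rfl
  choose c hc using h2
  have hNv : N = Matrix.vecMulVec u.1 c := by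
    ext i j
    rw [Matrix.vecMulVec_apply, hc j i, mul_comm]
  have hNN : N * N = N.trace • N := by
    ext i j
    simp only [Matrix.mul_apply, Matrix.trace, Matrix.diag, Matrix.smul_apply, smul_eq_mul,
      Finset.sum_mul]
    refine Finset.sum_congr rfl fun k _ => ?_
    rw [hc k i, hc j k, hc k k, hc j i]; ring
  have hsq : V s * V s = 1 := by rw [← map_mul, hs, map_one]
  have htr : N.trace = -2 := by
    have h4 : (2 + N.trace) • N = 0 := by
      rw [hA, mul_add, add_mul, add_mul, hNN] at hsq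
      simp only [mul_one, one_mul] at hsq
      rw [add_smul, two_smul]
      have h5 : N + N + N.trace • N = 1 + N + (N + N.trace • N) - 1 := by abel
      rw [h5, hsq, sub_self]
    rcases smul_eq_zero.1 h4 with h5 | h5
    · linear_combination h5
    · rw [h5, Matrix.rank_zero] at h
      exact absurd h (by decide)
  have hdet : (1 + N).det = 1 + N.trace := by
    rw [hNv, Matrix.vecMulVec_eq Unit, Matrix.det_one_add_mul_comm]
    rw [Matrix.det_unique, Matrix.add_apply, Matrix.one_apply_eq, Matrix.mul_apply]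
    congr 1
    rw [Matrix.trace]
    refine Finset.sum_congr rfl fun i _ => ?_
    simp [Matrix.diag, Matrix.mul_apply, mul_comm]
  rw [hA, hdet, htr]
  norm_num

lemma psum_congr [Fintype G] (p : Fin r → ℂ) (σ : Bool) {a b : MRep G}
    (h : ∀ g, (a.2 g).trace = (b.2 g).trace) : psum V p σ a = psum V p σ b := by
  classical
  unfold psum
  refine Finset.sum_congr rfl fun g _ => ?_
  rw [h g]

lemma sameLevel_left {a b c : MRep G} (h1 : a.1 = b.1) (h2 : ∀ g, (a.2 g).trace = (b.2 g).trace)
    (h : SameLevel V a c) : SameLevel V b c := by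
  intro g hg
  have h3 := h g hg
  rw [h2 g, h1] at h3
  exact h3

lemma sameLevel_symm {a b : MRep G} (h : SameLevel V a b) : SameLevel V b a :=
  fun g hg => (h g hg).symm

lemma isol_congr [Fintype G] {a b : MRep G} (h1 : a.1 = b.1)
    (h2 : ∀ g, (a.2 g).trace = (b.2 g).trace) (h : Isol V a) : Isol V b := by
  obtain ⟨p, σ, h3, h4⟩ := h
  refine ⟨p, σ, ?_, fun c hc hl => ?_⟩
  · rw [← psum_congr p σ h2, h3]
  · rcases h4 c hc (sameLevel_left h1.symm (fun g => (h2 g).symm) hl) with h5 | h5
    · left; exact h5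
    · right
      intro g
      rw [h5 g, h2 g]

variable {α : Type} {d : GD α} {φ : α → ℂ} {e : ℕ → ℂ} {γ : ℕ → G}

namespace GD

variable {P : PD α} {o : OD}

/-- All reflections are involutions conjugate to one generator. -/
theorem one_class [Fintype G] (hc : CRS d.c φ e) (hG : Gp d φ V γ) (CA : CkA d) (CB : CkB d)
    {lt : ℕ → G} {a : ℕ → MRep G} (O : Out d φ V γ lt a) (ho : o ∈ d.ops) (hg : o.gen < d.ng)
    (h : PD.chkAll d o = true) {x : G} (hx : (V x - 1).rank = 1) :
    x * x = 1 ∧ ∃ y, x = y * γ o.gen * y⁻¹ := by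
  have hB := bas_of hc hG CA.base
  have hL := O.ltr
  have hoA : o.s + o.m ≤ d.A := by
    have := CA.conj o ho
    unfold chkConj at this
    simp only [cond_iff, ble_iff] at this
    exact this.1
  obtain ⟨⟨i, hi, hxi⟩, hsq⟩ := mem_family hc hG CA CB O ho h hx
  refine ⟨hsq, ?_⟩
  rw [hxi]
  clear hxi hx hsq x
  have hp := CB.par o ho hg
  have hcj := (conjFam_of hB hG hL (CA.conj o ho)).2
  unfold chkPar at hp
  simp only [cond_iff, blt_iff, allN_iff, beq_iff, hG.hr] at hp
  obtain ⟨h1, h2, h3⟩ := hp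
  induction i using Nat.strong_induction_on with
  | _ i ih =>
    cases hi0 : Nat.beq i 0 with
    | true =>
      rw [beq_iff] at hi0
      subst hi0
      refine ⟨1, ?_⟩
      rw [one_mul, inv_one, mul_one, ← hL.gen _ h1]
      exact Tb.ext hB hG.inj (hL.tb (o.s + 0) (by omega))
        (hL.tb o.gen (by have := hL.ng; omega)) h2
    | false =>
      have h4 := h3 i hi
      rw [hi0, cond_false] at h4
      simp only [cond_iff, blt_iff, beq_iff] at h4
      obtain ⟨h5, h6, h7⟩ := h4
      have h8 := hcj (Nat.div (dg 16 o.par i) 256) h6 (Nat.mod (dg 16 o.par i) 256) (by omega)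
      rw [h7] at h8
      obtain ⟨y, hy⟩ := ih _ h5 (by omega)
      refine ⟨γ (Nat.div (dg 16 o.par i) 256) * y, ?_⟩
      rw [← h8.2, hy]
      group

/-- The sums over `W_p`. -/
theorem psum_cert [Fintype G] (hc : CRS d.c φ e) (hG : Gp d φ V γ) (CA : CkA d) (CB : CkB d)
    {lt : ℕ → G} {a : ℕ → MRep G} (O : Out d φ V γ lt a) (ho : o ∈ d.ops) (hg : o.gen < d.ng)
    {tw : Bool} (C : P.Ck d o tw) :
    Nat.card (WP V (P.vec d φ r)) = P.n ∧
    ∀ i < d.K, psum V (P.vec d φ r) tw (a i) = φ (P.qs d i) := by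
  classical
  obtain ⟨h1, h2⟩ := par_cert hc hG CA CB O ho hg C
  refine ⟨h1, fun i hi => ?_⟩
  set θ : Subgroup.closure (PR V (P.vec d φ r)) →* ℂ :=
    (if tw = true then Matrix.detMonoidHom.comp V else 1).comp
      (Subgroup.closure (PR V (P.vec d φ r))).subtype with hθ
  have h3 : ∀ x : Subgroup.closure (PR V (P.vec d φ r)), θ x =
      if tw = true then (V x.1).det else 1 := by
    intro x
    rw [hθ]
    cases tw <;> rfl
  rw [← h2 θ (by
    intro s hs
    rw [h3]
    cases tw with
    | false => rfl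
    | true =>
      simp only [if_true]
      exact det_invol hs.1 (mem_family hc hG CA CB O ho C.all hs.1).2) i hi]
  unfold psum
  rw [← Finset.sum_filter]
  rw [Finset.sum_subtype (p := fun g => g ∈ Subgroup.closure (PR V (P.vec d φ r)))
    (Finset.univ.filter (fun g => g ∈ WP V (P.vec d φ r))) (by
      intro x
      rw [Finset.mem_filter]
      exact ⟨fun h => h.2, fun h => ⟨Finset.mem_univ _, h⟩⟩)]
  refine Finset.sum_congr rfl fun x _ => ?_
  rw [h3 x]

/-- Some eigenvalues of `i` and `i'` are different. -/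
def difE (d : GD α) (i i' : ℕ) : Bool :=
  d.ops.any fun o => cond (Nat.blt o.gen d.ng) (Bool.not (d.c.eq (d.lamv o i) (d.lamv o i'))) false

/-- The character `μ` is isolated by the data `P`. -/
def chkIso (d : GD α) (P : PD α) (μ : ℕ) : Bool :=
  cond (d.c.eq (P.qs d μ) (d.c.nat P.n))
    (allN d.K fun i => cond (Nat.beq i μ) true (cond (d.difE μ i) true
      (d.c.eq (P.qs d i) (d.c.nat 0)))) false

lemma difE_of [Fintype G] (hc : CRS d.c φ e) {lt : ℕ → G} {a : ℕ → MRep G} (O : Out d φ V γ lt a)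
    {i i' : ℕ} (hi : i < d.K) (hi' : i' < d.K) (h : d.difE i i' = true) :
    ¬ SameLevel V (a i) (a i') := by
  intro hS
  unfold difE at h
  obtain ⟨o, ho, h4⟩ := List.any_eq_true.1 h
  simp only [cond_iff, blt_iff] at h4
  obtain ⟨h5, h6⟩ := h4
  rw [Bool.not_eq_true', ← Bool.not_eq_true, hc.eq] at h6
  apply h6
  have hpos : ∀ x : MRep G, IsIrr x.2 → 0 < x.1 := by
    intro x hx
    obtain ⟨i⟩ := hx.1
    exact i.pos
  have hp : (d.toOp lt o, fun i => φ (d.lamv o i)) ∈ d.opL φ lt :=
    List.mem_map.2 ⟨o, ho, rfl⟩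
  exact eig_of_sameLevel V O.cls.pos O.cls.g0 (fun i j => φ (d.X i j)) _ (O.eig _ hp)
    (fun t ht => O.refl o ho h5 t ht) (a i) (a i') hi hi' (O.irr i hi).2.2
    (O.irr i' hi').2.2 (hpos _ (O.irr i hi).1) (hpos _ (O.irr i' hi').1) hS

theorem isol_cert [Fintype G] (hc : CRS d.c φ e) (hG : Gp d φ V γ) (CA : CkA d) (CB : CkB d)
    {lt : ℕ → G} {a : ℕ → MRep G} (O : Out d φ V γ lt a) (ho : o ∈ d.ops) (hg : o.gen < d.ng)
    {tw : Bool} (C : P.Ck d o tw) {μ : ℕ} (hμ : μ < d.K) (h : d.chkIso P μ = true) :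
    Isol V (a μ) := by
  obtain ⟨h1, h2⟩ := psum_cert hc hG CA CB O ho hg C
  unfold chkIso at h
  simp only [cond_iff, allN_iff, hc.eq, hc.nat] at h
  obtain ⟨h3, h4⟩ := h
  refine ⟨P.vec d φ r, tw, ?_, fun b hb hS => ?_⟩
  · rw [h2 μ hμ, h3, h1]
  · obtain ⟨i, hi, hbi, hbt⟩ := O.compl b hb
    have hS' : SameLevel V (a μ) (a i) :=
      sameLevel_symm (sameLevel_left hbi hbt (sameLevel_symm hS))
    have h5 := h4 i hi
    cases h6 : Nat.beq i μ with
    | true =>
      right
      rw [beq_iff] at h6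
      rw [h6] at hbt
      exact hbt
    | false =>
      rw [h6, cond_false] at h5
      cases h7 : d.difE μ i with
      | true => exact absurd hS' (difE_of hc O hμ hi h7)
      | false =>
        rw [h7, cond_false, hc.eq, hc.nat, Nat.cast_zero] at h5
        left
        rw [psum_congr _ _ hbt, h2 i hi, h5]

/-- Equal eigenvalues imply equal labels, up to the characters listed in `I`. -/
def chkLabX (d : GD α) (I i : ℕ) : Bool :=
  cond (bit I i) true (allN i fun i' => cond (bit I i') true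
    (cond (Nat.beq (d.labv i) (d.labv i')) true (d.difE i i')))

/-- Every level is connected, up to the representations in `X`. -/
theorem Out.connX [Fintype G] (hc : CRS d.c φ e) {lt : ℕ → G} {a : ℕ → MRep G}
    (O : Out d φ V γ lt a) (X : MRep G → Prop)
    (hX : ∀ x y : MRep G, x.1 = y.1 → (∀ g, (x.2 g).trace = (y.2 g).trace) → X x → X y)
    {I : ℕ} (hI : ∀ i < d.K, bit I i = true → X (a i))
    (hlab : ∀ i < d.K, d.chkLabX I i = true) :
    ∀ x y : MRep G, IsIrr x.2 → IsIrr y.2 → SameLevel V x y → ¬ X x → ¬ X y →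
      Relation.EqvGen (Lk V) x y := by
  have key : ∀ i < d.K, ∀ i' < i, bit I i = false → bit I i' = false →
      SameLevel V (a i) (a i') → d.labv i = d.labv i' := by
    intro i hi i' hi' hb hb' hS
    have h1 := hlab i hi
    unfold chkLabX at h1
    rw [hb, cond_false, allN_iff] at h1
    have h2 := h1 i' hi'
    rw [hb', cond_false] at h2
    cases h3 : Nat.beq (d.labv i) (d.labv i') with
    | true => exact beq_iff.1 h3
    | false =>
      rw [h3, cond_false] at h2
      exact absurd hS (difE_of hc O hi (by omega) h2)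
  intro x y hx hy hS hnx hny
  obtain ⟨i, hi, hxi, hxi'⟩ := O.compl x hx
  obtain ⟨i', hi', hyi, hyi'⟩ := O.compl y hy
  have hb : ∀ j < d.K, ∀ z : MRep G, z.1 = (a j).1 → (∀ g, (z.2 g).trace = ((a j).2 g).trace) →
      ¬ X z → bit I j = false := by
    intro j hj z h1 h2 hz
    cases h3 : bit I j with
    | false => rfl
    | true => exact absurd (hX _ _ h1.symm (fun g => (h2 g).symm) (hI j hj h3)) hz
  have hbi := hb i hi x hxi hxi' hnx
  have hbi' := hb i' hi' y hyi hyi' hny
  have hS' : SameLevel V (a i) (a i') :=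
    sameLevel_symm (sameLevel_left hyi hyi' (sameLevel_symm (sameLevel_left hxi hxi' hS)))
  have hl : d.labv i = d.labv i' := by
    rcases Nat.lt_trichotomy i i' with h | h | h
    · exact (key i' hi' i h hbi' hbi (sameLevel_symm hS')).symm
    · rw [h]
    · exact key i hi i' h hbi hbi' hS'
  have e1 : Relation.EqvGen (Lk V) x (a i) :=
    Relation.EqvGen.rel _ _ (lk_of_eq O.r0 V x (a i) hx (O.irr i hi).1 hxi hxi')
  have e2 : Relation.EqvGen (Lk V) y (a i') :=
    Relation.EqvGen.rel _ _ (lk_of_eq O.r0 V y (a i') hy (O.irr i' hi').1 hyi hyi')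
  have e3 := (O.link i hi).1
  have e4 := (O.link i' hi').1
  rw [← hl] at e4
  exact e1.trans _ _ _ (e3.trans _ _ _ ((e4.symm _ _).trans _ _ _ (e2.symm _ _)))

/-- The case `X = Isol V`. -/
theorem Out.connIsol [Fintype G] (hc : CRS d.c φ e) {lt : ℕ → G} {a : ℕ → MRep G}
    (O : Out d φ V γ lt a) {I : ℕ} (hI : ∀ i < d.K, bit I i = true → Isol V (a i))
    (hlab : ∀ i < d.K, d.chkLabX I i = true) :
    ∀ x y : MRep G, IsIrr x.2 → IsIrr y.2 → SameLevel V x y → ¬ Isol V x → ¬ Isol V y →
      Relation.EqvGen (Lk V) x y :=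
  O.connX hc (Isol V) (fun _ _ h1 h2 h => isol_congr h1 h2 h) hI hlab

end GD

end

end Pool.Agent.CMFn
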