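import Pool.Agent.CMFn.CSndC

/-! Project CMFn, block C: assembling range checks.  helper62. -/

namespace Pool.Agent.CMFn

noncomputable section

/-- `f` holds on `a, …, a + n - 1`. -/
def allR (a n : ℕ) (f : ℕ → Bool) : Bool := allN n fun i => f (Nat.add a i)

lemma allR_iff {a n : ℕ} {f : ℕ → Bool} :
    allR a n f = true ↔ ∀ i, a ≤ i → i < a + n → f i = true := by
  unfold allR
  rw [allN_iff]
  constructor
  · intro h i h1 h2
    have h3 := h (i - a) (by omega)
    have h4 : Nat.add a (i - a) = i := by
      show a + (i - a) = i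
      omega
    rwa [h4] at h3
  · intro h i hi
    exact h (a + i) (by omega) (by omega)

lemma of_allR {n : ℕ} {f : ℕ → Bool} (h : allR 0 n f = true) : ∀ i < n, f i = true :=
  fun i hi => allR_iff.1 h i (by omega) (by omega)

lemma allR_join {a n m b k : ℕ} {f : ℕ → Bool} (h : allR a n f = true) (h' : allR b m f = true)
    (hb : b = a + n) (hk : k = n + m) : allR a k f = true := by
  subst hb hk
  rw [allR_iff] at *
  intro i h1 h2
  rcases Nat.lt_or_ge i (a + n) with h3 | h3
  · exact h i h1 h3
  · exact h' i h3 (by omega)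

end

end Pool.Agent.CMFn
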