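import Pool.Agent.CMFn.CQC
import Pool.Agent.CMFn.CUse

/-! Project CMFn, blocks C and Q: the trivial character of a parabolic subgroup; assembling the
certificates.  helper48. -/

namespace Pool.Agent.CMFn

open Matrix

noncomputable section

variable {α : Type}

/-- The same data without signs. -/
def PD.tv (P : PD α) : PD α := { P with sg := 0 }

lemma PD.Ck.tv {P : PD α} {d : GD α} {o : OD} {tw : Bool} (C : P.Ck d o tw) :
    P.tv.Ck d o false where
  all := C.all
  zero := C.zero
  ne := C.ne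
  mv := C.mv
  pr := C.pr
  cl := C.cl
  loc := C.loc
  gs := C.gs
  sg := by
    intro i _
    have h : ∀ j, GD.bit P.tv.sg j = false := by
      intro j
      show GD.bit 0 j = false
      rw [← Bool.not_eq_true, GD.bit_iff, Nat.zero_testBit]
      decide
    unfold PD.chkSg
    rw [h, h, h]
    cases Nat.beq i 0 <;> rfl

/-- The bits of `I` below `K` are in the list `L`. -/
def GD.chkI (d : GD α) (I : ℕ) (L : List ℕ) : Bool :=
  allN d.K fun i => cond (GD.bit I i) (L.any fun j => Nat.beq i j) true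

variable {G : Type} [Group G] {r : ℕ} {V : G →* Matrix (Fin r) (Fin r) ℂ}
  {d : GD α} {φ : α → ℂ} {e : ℕ → ℂ} {γ : ℕ → G}

/-- Assembling. -/
theorem GD.Out.connX_list [Fintype G] (hc : CRS d.c φ e) {lt : ℕ → G} {a : ℕ → MRep G}
    (O : GD.Out d φ V γ lt a) {I : ℕ} {L : List ℕ} (hL : ∀ i ∈ L, Isol V (a i))
    (hI : d.chkI I L = true) (hlab : ∀ i < d.K, d.chkLabX I i = true) :
    ∀ x y : MRep G, IsIrr x.2 → IsIrr y.2 → SameLevel V x y → ¬ Isol V x → ¬ Isol V y →
      Relation.EqvGen (Lk V) x y := by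
  refine O.connIsol hc (I := I) (fun i hi hb => hL i ?_) hlab
  unfold GD.chkI at hI
  have h1 := allN_iff.1 hI i hi
  rw [hb, cond_true, List.any_eq_true] at h1
  obtain ⟨j, hj, h2⟩ := h1
  rw [beq_iff] at h2
  rwa [h2]

end

end Pool.Agent.CMFn
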