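import Pool.Agent.CMFn.CDefs

/-! Project CMFn, blocks C and Q: characters isolated by the sign or the trivial character of a
parabolic subgroup (definitions). -/

namespace Pool.Agent.CMFn

open Matrix

noncomputable section

variable {G : Type} [Group G] {r : ℕ}

/-- The reflections which fix `p`. -/
def PR (V : G →* Matrix (Fin r) (Fin r) ℂ) (p : Fin r → ℂ) : Set G :=
  {s | (V s - 1).rank = 1 ∧ V s *ᵥ p = p}

/-- The subgroup generated by the reflections which fix `p`. -/
def WP (V : G →* Matrix (Fin r) (Fin r) ℂ) (p : Fin r → ℂ) : Subgroup G :=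
  Subgroup.closure (PR V p)

open Classical in
/-- `Σ_(g ∈ W_p) θ(g) tr a(g)`, `θ = det` (`σ = true`) or `1` (`σ = false`). -/
def psum [Fintype G] (V : G →* Matrix (Fin r) (Fin r) ℂ) (p : Fin r → ℂ) (σ : Bool) (a : MRep G) :
    ℂ :=
  ∑ g : G, if g ∈ WP V p then (if σ = true then (V g).det else 1) * (a.2 g).trace else 0

/-- For some `p`, the character `θ` of `W_p` occurs once in `a` and in no other irreducible
representation of the same level. -/
def Isol [Fintype G] (V : G →* Matrix (Fin r) (Fin r) ℂ) (a : MRep G) : Prop :=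
  ∃ (p : Fin r → ℂ) (σ : Bool), psum V p σ a = Nat.card (WP V p) ∧
    ∀ b : MRep G, IsIrr b.2 → SameLevel V a b →
      psum V p σ b = 0 ∨ ∀ g, (b.2 g).trace = (a.2 g).trace

end

end Pool.Agent.CMFn
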