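import Pool.Agent.CMFn.IsolDefs
import Pool.Agent.CMFn.CDefs

/-! Project CMFn: levels which are cut into two parts by the multiplicities of an extreme
character of a parabolic subgroup and by the dimensions (definitions).  helper86. -/

namespace Pool.Agent.CMFn

open Matrix

noncomputable section

variable {G : Type} [Group G] [Fintype G] {r : ℕ}

/-- Every level which meets `Y` is cut by `Y` as by the multiplicity of an extreme character of
some `WP V p`, the members of `Y` in the level have the same dimension `δ`, and the modules of the
specialisations on which the full twist acts as in the level have at least this dimension: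
`t` is the trace of the reflections. -/
def DimY (V : G →* Matrix (Fin r) (Fin r) ℂ) (Y : MRep G → Prop) : Prop :=
  ∀ a : MRep G, IsIrr a.2 → Y a → ∃ (p : Fin r → ℂ) (σ : Bool) (t : ℤ),
    (∀ s : G, (V s - 1).rank = 1 → (a.2 s).trace = t) ∧
    (∀ m e : ℕ, 0 < m → e ≤ m → (m : ℤ) * (a.1 + t) = 2 * a.1 * e → a.1 ≤ m) ∧
    ∀ b : MRep G, IsIrr b.2 → SameLevel V a b →
      (psum V p σ b ≠ 0 ↔ Y b) ∧ (Y b → b.1 = a.1)

/-- The part of every level inside `Y` and the part outside `Y` are connected by links, up to the
representations in `X`. -/
def ConnXY (V : G →* Matrix (Fin r) (Fin r) ℂ) (X Y : MRep G → Prop) : Prop :=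
  ∀ a b : MRep G, IsIrr a.2 → IsIrr b.2 → SameLevel V a b → (Y a ↔ Y b) → ¬ X a → ¬ X b →
    Relation.EqvGen (Lk V) a b

end

end Pool.Agent.CMFn
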