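import Pool.Agent.CMFn.QIsol

/-! Project CMF, block Q (every rank): isolation of a character by an integral combination of
spectral elements. -/

namespace Pool.Agent.CMF

open Matrix Polynomial

noncomputable section

variable {Z : Type} [CommRing Z] [IsDomain Z] [Algebra Z ℂ] {ι : Type} [Fintype ι]
  {D : HData Z ι} {M : ℕ} {Q : KZData D M} {C : (ι →₀ ℤ) → Prop} {E₀ : D.Λ → Prop}

/-- Isolation of a character by an integral combination: elements `f_i` with character values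
`m_i(μ) δ_i` in `E₀`, and integers `u_i` with `Σ_i u_i m_i(μ) = [μ = l]` in `E₀`. -/
theorem isInt_of_comb (hinj : Function.Injective (algebraMap Z ℂ)) (hM : 0 < M) (l : D.Λ)
    (hE : IsInt Q C E₀) (hl : E₀ l) {I : Type} [Fintype I] (f : I → D.H) (m : I → D.Λ → ℤ)
    (u : I → ℤ) (J : I → Type) [∀ i, Fintype (J i)] (P : ∀ i, J i → (ι →₀ ℤ) × (ι →₀ ℤ))
    (hne : ∀ i j, (P i j).1 ≠ (P i j).2) (hC : ∀ i j, C ((P i j).1 - (P i j).2))
    (hf : ∀ i μ, E₀ μ → D.X μ (f i) = (m i μ : Lau Z ι) * dlt Z (P i))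
    (hu : ∀ μ, E₀ μ → ∑ i, u i * m i μ = if μ = l then 1 else 0) :
    IsInt Q C (fun μ => μ = l) := by
  classical
  obtain ⟨h⟩ := hE
  set y : D.H := ∑ i, ((u i : Lau Z ι) * ∏ j ∈ Finset.univ.erase i, dlt Z (P j)) • f i with hy
  have hXy : ∀ μ, E₀ μ → D.X μ y = if μ = l then ∏ j, dlt Z (P j) else 0 := by
    intro μ hμ
    rw [hy, map_sum]
    have h1 : ∀ i, D.X μ (((u i : Lau Z ι) * ∏ j ∈ Finset.univ.erase i, dlt Z (P j)) • f i) =
        ((u i * m i μ : ℤ) : Lau Z ι) * ∏ j, dlt Z (P j) := by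
      intro i
      rw [map_smul, smul_eq_mul, hf i μ hμ, ← Finset.mul_prod_erase _ _ (Finset.mem_univ i)]
      push_cast
      ring
    rw [Finset.sum_congr rfl fun i _ => h1 i, ← Finset.sum_mul, ← Int.cast_sum, hu μ hμ]
    split_ifs <;> simp
  have hP : dlt Z (Sum.elim h.P (fun p : Σ i, J i => P p.1 p.2)) =
      dlt Z h.P * ∏ j, dlt Z (P j) := by
    rw [dlt_sum]
    congr 1
    simp only [dlt]
    rw [Fintype.prod_sigma]
  refine isInt_of_bezout l (I := Unit) (fun _ => h.X * y) (fun _ => 1) (fun _ => 1)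
    (fun _ => h.J ⊕ (Σ i, J i)) (fun _ => Sum.elim h.P (fun p => P p.1 p.2)) ?_ ?_ ?_ ?_ ?_
  · rintro _ (j | ⟨i, j⟩)
    · exact h.ne j
    · exact hne i j
  · rintro _ (j | ⟨i, j⟩)
    · exact h.cond j
    · exact hC i j
  · intro _
    rw [(X_IntData hinj hM h l _).1 hl, hXy l hl, if_pos rfl, hP, Int.cast_one, one_mul]
  · intro _ μ hμ
    by_cases hEμ : E₀ μ
    · rw [(X_IntData hinj hM h μ _).1 hEμ, hXy μ hEμ, if_neg hμ, mul_zero]
    · exact (X_IntData hinj hM h μ _).2 hEμ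
  · rw [Fintype.sum_unique, one_mul]

open Classical in
/-- The same for joint spectral elements of commuting twists; `rk` are the ranks. -/
theorem isInt_comb_of_tw (hinj : Function.Injective (algebraMap Z ℂ)) (hM : 0 < M) (l : D.Λ)
    (hE : IsInt Q C E₀) (hl : E₀ l) {I : Type} [Fintype I] (n : I → ℕ)
    (T : ∀ i, TwFam Q (n i)) (e : ∀ i, Fin (n i) → (ι →₀ ℤ)) (he : ∀ i j, e i j ∈ (T i).E j)
    (hC : ∀ i j, ∀ a ∈ (T i).E j, ∀ a' ∈ (T i).E j, a ≠ a' → C (a - a')) (κ : I → ι → ℂ)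
    (hκ : ∀ i, (T i).Gen (κ i)) (u : I → ℤ)
    (hu : ∀ μ, E₀ μ → ∑ i, (u i : ℂ) * (T i).rk (e i) (κ i) μ = if μ = l then 1 else 0) :
    IsInt Q C (fun μ => μ = l) := by
  choose k hk hX using fun i μ => (T i).X_f hinj hM (e i) (he i) (κ i) (hκ i) μ
  refine isInt_of_comb hinj hM l hE hl (fun i => (T i).f (e i)) (fun i μ => (k i μ : ℤ)) u
    (fun i => (Σ j : Fin (n i), {a // a ∈ ((T i).E j).erase (e i j)}))
    (fun i p => (e i p.1, p.2.1)) ?_ ?_ ?_ ?_
  · rintro i ⟨j, a, ha⟩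
    exact (Finset.ne_of_mem_erase ha).symm
  · rintro i ⟨j, a, ha⟩
    exact hC i j _ (he i j) _ (Finset.mem_of_mem_erase ha) (Finset.ne_of_mem_erase ha).symm
  · intro i μ _
    rw [hX, (T i).del_dlt (e i), Int.cast_natCast]
  · intro μ hμ
    have h1 := hu μ hμ
    have h2 : ((∑ i, u i * (k i μ : ℤ) : ℤ) : ℂ) = ((if μ = l then 1 else 0 : ℤ) : ℂ) := by
      push_cast
      rw [← h1]
      refine Finset.sum_congr rfl fun i _ => ?_
      rw [hk]
    exact_mod_cast h2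

end

end Pool.Agent.CMF

namespace Pool.Agent.CMFn

open Matrix Polynomial G1 G4 Pool.Agent QFinX
open Pool.Agent.CMF (HData KZData Lau mon pair pairC evL TwFam IsInt stdHData)

noncomputable section

section R2

variable {r : ℕ} {N : SG r} [Fintype N] {Z : Type} [CommRing Z] [IsDomain Z] [Algebra Z ℂ]
  {ι : Type} [Fintype ι] {D : HData Z ι} {M : ℕ} {Q : KZData D M} {i₀ i₁ : ι}
  {C' : (ι →₀ ℤ) → Prop} {E₀ : D.Λ → Prop}

/-- Isolation of the character `l` in `E₀` by an integral combination of spectral elements of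
the sums of the reflections at the points `p i`. -/
theorem Refl2.isInt_comb (R : Refl2 N Q i₀ i₁) (hinj : Function.Injective (algebraMap Z ℂ))
    (hM : 0 < M) (hC : ∀ z : ℤ, z ≠ 0 → C' (z • (Finsupp.single i₀ 1 - Finsupp.single i₁ 1)))
    (hE : IsInt Q C' E₀) (l : D.Λ) (hl : E₀ l) {I : Type} [Fintype I] (p : I → Fin r → ℂ)
    (Cs : I → Finset ℤ) (c : I → ℤ) (hc : ∀ i, c i ∈ Cs i)
    (hCs : ∀ i l, aeval (zP (R.ρ l) (p i)) (∏ c ∈ Cs i, (X - C (c : ℂ))) = 0)
    (m : I → D.Λ → ℂ) (u : I → ℤ)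
    (hm : ∀ i μ, E₀ μ →
      (aeval (zP (R.ρ μ) (p i)) (∏ c' ∈ (Cs i).erase (c i), (X - C (c' : ℂ)))).trace =
      m i μ * ∏ c' ∈ (Cs i).erase (c i), ((c i : ℂ) - c'))
    (hu1 : ∑ i, (u i : ℂ) * m i l = 1)
    (hu0 : ∀ μ, E₀ μ → μ ≠ l → ∑ i, (u i : ℂ) * m i μ = 0) :
    IsInt Q C' (fun μ => μ = l) := by
  classical
  choose T hE' hG hr using fun i => R.exists_tw hM (p i) (Cs i) (hCs i)
  have hne : ∀ i, (∏ c' ∈ (Cs i).erase (c i), ((c i : ℂ) - c')) ≠ 0 := by
    intro i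
    rw [Finset.prod_ne_zero_iff]
    intro c' hc' h
    have h1 : (c i : ℂ) = c' := sub_eq_zero.1 h
    have h2 : c i = c' := by exact_mod_cast h1
    exact (Finset.ne_of_mem_erase hc') h2.symm
  have hrk : ∀ i μ, E₀ μ → (T i).rk (fun _ => exq M (nP N (p i)) i₀ i₁ (c i))
      (Pi.single i₀ 1) μ = m i μ := by
    intro i μ hμ
    rw [hr i (c i) (hc i), hm i μ hμ, mul_comm, mul_assoc, mul_inv_cancel₀ (hne i), mul_one]
  refine CMF.isInt_comb_of_tw hinj hM l hE hl (fun _ => 1) T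
    (fun i _ => exq M (nP N (p i)) i₀ i₁ (c i)) ?_ ?_ (fun _ => Pi.single i₀ 1) hG u ?_
  · intro i j
    rw [hE']
    exact Finset.mem_image_of_mem _ (hc i)
  · intro i j a ha a' ha' hne'
    rw [hE', Finset.mem_image] at ha ha'
    obtain ⟨x, _, rfl⟩ := ha
    obtain ⟨y, _, rfl⟩ := ha'
    rw [exq_sub]
    refine hC _ (mul_ne_zero (by exact_mod_cast hM.ne') (sub_ne_zero.2 fun h => hne' (by rw [h])))
  · intro μ hμ
    rw [Finset.sum_congr rfl fun i _ => by rw [hrk i μ hμ]]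
    by_cases h1 : μ = l
    · subst h1
      rw [if_pos rfl, hu1]
    · rw [if_neg h1, hu0 μ hμ h1]

end R2

section defs

variable {G : Type} [Group G] [Fintype G]

/-- `a` is isolated in its level by an integral combination of multiplicities of extreme
characters of the groups `WP V (p i)`. -/
def IsolC {r : ℕ} (V : G →* Matrix (Fin r) (Fin r) ℂ) (a : MRep G) : Prop :=
  ∃ (m : ℕ) (p : Fin m → Fin r → ℂ) (σ : Fin m → Bool) (u : Fin m → ℤ),
    ∑ i, (u i : ℂ) * (psum V (p i) (σ i) a / Nat.card (WP V (p i))) = 1 ∧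
    ∀ b : MRep G, IsIrr b.2 → SameLevel V a b →
      ∑ i, (u i : ℂ) * (psum V (p i) (σ i) b / Nat.card (WP V (p i))) = 0 ∨
        ∀ g, (b.2 g).trace = (a.2 g).trace

end defs

variable {n : ℕ} {G : Type} [Group G] [Fintype G] {V : G → Matrix (Fin n) (Fin n) ℂ}
  {Λ : Type} [Fintype Λ] {d : Λ → ℕ} {ρ : ∀ l, G → Matrix (Fin (d l)) (Fin (d l)) ℂ}
  {hV : CMFP.IsReflGroup V} {hρ : CMFP.IsIrrFam d ρ} {F : Type} [Field F] [Algebra F ℂ]
  {v₀ : Fin n → ℂ} {hv₀ : CMFP.Reg V v₀} {D : CMFP.StdHk F V v₀ d}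
  {hN : ∃ s ∈ img hV.1, IsRefl s} [Fintype (CMFP.Idx V)]

/-- The traces of the extreme spectral elements at `p`. -/
theorem exists_ext (hV : CMFP.IsReflGroup V) (hρ : CMFP.IsIrrFam d ρ) {s₀ : G} (h : OneClass V s₀)
    (p : Fin n → ℂ) (σ : Bool) : ∃ (Cs : Finset ℤ) (c : ℤ), c ∈ Cs ∧
      (∀ μ : Λ, aeval (zP (rN hV hρ μ) p) (∏ c ∈ Cs, (X - C (c : ℂ))) = 0) ∧
      ∀ μ : Λ, (aeval (zP (rN hV hρ μ) p) (∏ c' ∈ Cs.erase c, (X - C (c' : ℂ)))).trace =
        psum (repHom hV.1) p σ (mr hρ μ) / Nat.card (WP (repHom hV.1) p) *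
          ∏ c' ∈ Cs.erase c, ((c : ℂ) - c') := by
  classical
  set S : Finset G := Finset.univ.filter (fun s => CMFP.IsRefl V s ∧ V s *ᵥ p = p) with hS
  have hSm : ∀ s, s ∈ S ↔ CMFP.IsRefl V s ∧ V s *ᵥ p = p := fun s => by
    rw [hS, Finset.mem_filter]
    exact ⟨fun h => h.2, fun h => ⟨Finset.mem_univ _, h⟩⟩
  have hSc : (S : Set G) = {s | (repHom hV.1 s - 1).rank = 1 ∧ repHom hV.1 s *ᵥ p = p} := by
    ext s
    rw [Finset.mem_coe, hSm]
    exact Iff.rfl
  set W : Finset G := Finset.univ.filter (fun w => w ∈ WP (repHom hV.1) p) with hW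
  have hWm : ∀ w, w ∈ W ↔ w ∈ Subgroup.closure (S : Set G) := fun w => by
    rw [hW, Finset.mem_filter, hSc]
    exact ⟨fun h => h.2, fun h => ⟨Finset.mem_univ _, h⟩⟩
  have hWc : Nat.card (WP (repHom hV.1) p) = W.card := by
    have : Fintype (WP (repHom hV.1) p) := Fintype.ofFinite _
    rw [Nat.card_eq_fintype_card, ← Finset.card_univ]
    refine Finset.card_bij (fun w _ => (w : G)) (fun w _ => ?_)
      (fun a _ b _ h => Subtype.ext h) (fun w hw => ⟨⟨w, ?_⟩, Finset.mem_univ _, rfl⟩)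
    · rw [hW, Finset.mem_filter]
      exact ⟨Finset.mem_univ _, w.2⟩
    · rw [hW, Finset.mem_filter] at hw
      exact hw.2
  set τ : ℤ := if σ then -1 else 1 with hτ
  have hτ' : τ = 1 ∨ τ = -1 := by
    rw [hτ]
    cases σ
    · left; rfl
    · right; rfl
  have hps : ∀ m : Λ, psum (repHom hV.1) p σ (mr hρ m) =
      ∑ w ∈ W, thS V τ w * (ρ m w).trace := by
    intro m
    unfold psum
    rw [hW, Finset.sum_filter]
    refine Finset.sum_congr rfl fun g _ => ?_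
    have h3 : (if σ then (repHom hV.1 g).det else 1) = thS V τ g := by
      unfold thS
      cases σ
      · rw [hτ]
        simp
      · rw [hτ]
        simp only [if_true]
        rw [if_neg (by norm_num)]
        rfl
    rw [h3]
    rfl
  have hdet : ∀ s, CMFP.IsRefl V s → (V s).det = -1 := by
    intro s hs
    exact det_two (iso hV.1 hV.2.1 s) ((isRefl_iso hV.1 hV.2.1 s).2 hs)
      (sq_img hV h _ ((isRefl_iso hV.1 hV.2.1 s).2 hs))
  have hfix : ∀ g ∈ Subgroup.closure (S : Set G), V g *ᵥ p = p := by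
    intro g hg
    induction hg using Subgroup.closure_induction with
    | mem x hx => exact ((hSm x).1 hx).2
    | one => rw [hV.1.1, Matrix.one_mulVec]
    | mul x y _ _ hx hy => rw [hV.1.2, ← Matrix.mulVec_mulVec, hy, hx]
    | inv x _ hx =>
      conv_lhs => rw [← hx]
      rw [Matrix.mulVec_mulVec, ← hV.1.2, inv_mul_cancel, hV.1.1, Matrix.one_mulVec]
  have hconj : ∀ g ∈ Subgroup.closure (S : Set G), ∀ s ∈ S, g * s * g⁻¹ ∈ S := by
    intro g hg s hs
    have h1 := (hSm s).1 hs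
    refine (hSm _).2 ⟨?_, ?_⟩
    · have h2 : IsRefl (toGL hV.1 (g * s * g⁻¹)) := by
        rw [map_mul, map_mul, map_inv]
        exact isRefl_conj (G := img hV.1) ((isRefl_iff hV.1 s).2 h1.1)
      exact (isRefl_iff hV.1 _).1 h2
    · exact hfix _ (mul_mem (mul_mem hg (Subgroup.subset_closure hs)) (inv_mem hg))
  have key := fun (μ : Λ) => trace_extreme (rG hρ μ) S
    (fun s hs => h.sq s ((hSm s).1 hs).1) hconj W hWm τ hτ' (thS V τ)
    (by
      unfold thS
      split_ifs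
      · rfl
      · rw [hV.1.1, Matrix.det_one])
    (fun a _ b _ => by
      unfold thS
      split_ifs
      · rw [one_mul]
      · rw [hV.1.2, Matrix.det_mul])
    (fun s hs => by
      unfold thS
      rcases hτ' with h1 | h1
      · rw [if_pos h1, h1, Int.cast_one]
      · rw [if_neg (by rw [h1]; norm_num), h1, hdet s ((hSm s).1 hs).1]
        norm_num)
  have hz : ∀ μ : Λ, zP (rN hV hρ μ) p = ∑ s ∈ S, rG hρ μ s := fun μ => zP_eq μ p S hSm
  refine ⟨Finset.Icc (-(S.card : ℤ)) S.card, τ * S.card, ?_, ?_, ?_⟩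
  · rw [Finset.mem_Icc]
    have h1 : (0 : ℤ) ≤ S.card := Int.natCast_nonneg _
    rcases hτ' with h2 | h2 <;> rw [h2] <;> constructor <;> linarith
  · intro μ
    rw [hz]
    exact (key μ).1
  · intro μ
    rw [hz, (key μ).2, hps, hWc, mul_comm]
    congr 1
    rw [div_eq_inv_mul]
    rfl

/-- Representations isolated by a combination are integral. -/
theorem Asm.isInt_isolC (A : Asm hV hρ F v₀ hv₀ D hN)
    (hM : 0 < CMFP.mu (NumberField.RingOfIntegers F))
    (hsq : ∀ s, CMFP.IsRefl V s → s * s = 1)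
    (hone : ∀ s t, CMFP.IsRefl V s → CMFP.IsRefl V t → ∃ g : G, g * s * g⁻¹ = t) (l : Λ)
    (hl : IsolC (repHom hV.1) (mr hρ l)) :
    IsInt A.Q (fun _ => True) (fun m : Λ => m = l) := by
  classical
  obtain ⟨s₀, h⟩ := exists_oneClass hV hN hsq hone
  obtain ⟨m, p, σ, u, h1, h2⟩ := hl
  choose Cs c hc hCs hm using fun i => exists_ext hV hρ h (p i) (σ i)
  refine (A.refl2 hM h).isInt_comb CMF.inj_int hM (fun _ _ => trivial) (A.isInt_a l) l rfl
    p Cs c hc (fun i μ => hCs i μ)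
    (fun i (μ : Λ) => psum (repHom hV.1) (p i) (σ i) (mr hρ μ) /
      Nat.card (WP (repHom hV.1) (p i))) u (fun i μ _ => hm i μ) h1 ?_
  intro (μ : Λ) hμ hμl
  rcases h2 (mr hρ μ) (isIrr_mr hρ μ) (A.level hM l μ hμ) with h3 | h3
  · exact h3
  · exact absurd (irr_char_inj hρ μ l h3) hμl

end

end Pool.Agent.CMFn
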