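import Pool.Agent.CMFn.CQD
import Pool.Agent.CMFn.QComb
import Pool.Agent.CMFn.MDimDefs

/-! Project CMFn, blocks C and Q: certificates for characters isolated by combinations, and for
levels which are cut by a parabolic subgroup and the dimensions.  helper86. -/

namespace Pool.Agent.CMFn

open Matrix

noncomputable section

variable {G : Type} [Group G] {r : ℕ} {V : G →* Matrix (Fin r) (Fin r) ℂ}

lemma isolC_congr [Fintype G] {a b : MRep G} (h1 : a.1 = b.1)
    (h2 : ∀ g, (a.2 g).trace = (b.2 g).trace) (h : IsolC V a) : IsolC V b := by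
  obtain ⟨m, p, σ, u, h3, h4⟩ := h
  refine ⟨m, p, σ, u, ?_, fun c hc hl => ?_⟩
  · rw [← h3]
    exact Finset.sum_congr rfl fun i _ => by rw [psum_congr (p i) (σ i) h2]
  · rcases h4 c hc (sameLevel_left h1.symm (fun g => (h2 g).symm) hl) with h5 | h5
    · exact Or.inl h5
    · right
      intro g
      rw [h5 g, h2 g]

/-- A term `± (u / |W_p|) Σ_{w ∈ W_p} …` of a combination; `k / N = u / |W_p|`. -/
structure CT (α : Type) where
  P : PD α
  tw : Bool
  neg : Bool
  u : ℕ
  k : ℕ

variable {α : Type}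

/-- The value of a term, times `N`. -/
def CT.val (c : CT α) (d : GD α) (i : ℕ) : α :=
  cond c.neg (d.c.neg (d.c.mul (d.c.nat c.k) (c.P.qs d i))) (d.c.mul (d.c.nat c.k) (c.P.qs d i))

namespace GD

/-- The value of a combination, times `N`. -/
def comb (d : GD α) (L : List (CT α)) (i : ℕ) : α :=
  L.foldr (fun c z => d.c.add (c.val d i) z) (d.c.nat 0)

/-- The character `μ` is isolated by the combination `L`. -/
def chkIsoC (d : GD α) (L : List (CT α)) (N μ : ℕ) : Bool :=
  cond (Nat.blt 0 N) (cond (L.all fun c => Nat.beq (Nat.mul c.k c.P.n) (Nat.mul c.u N))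
    (cond (d.c.eq (d.comb L μ) (d.c.nat N))
      (allN d.K fun i => cond (Nat.beq i μ) true (cond (d.difE μ i) true
        (d.c.eq (d.comb L i) (d.c.nat 0)))) false) false) false

variable {d : GD α} {φ : α → ℂ} {e : ℕ → ℂ} {γ : ℕ → G} {o : OD}

lemma comb_val (hc : CRS d.c φ e) (L : List (CT α)) (i : ℕ) :
    φ (d.comb L i) = (L.map fun c => φ (c.val d i)).sum := by
  unfold comb
  induction L with
  | nil => rw [List.foldr_nil, hc.nat, Nat.cast_zero, List.map_nil, List.sum_nil]
  | cons c L ih => rw [List.foldr_cons, hc.add, ih, List.map_cons, List.sum_cons]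

theorem isolC_cert [Fintype G] (hc : CRS d.c φ e) (hG : Gp d φ V γ) (CA : CkA d) (CB : CkB d)
    {lt : ℕ → G} {a : ℕ → MRep G} (O : Out d φ V γ lt a) (ho : o ∈ d.ops) (hg : o.gen < d.ng)
    {L : List (CT α)} (hL : ∀ c ∈ L, c.P.Ck d o c.tw) {N μ : ℕ} (hμ : μ < d.K)
    (h : d.chkIsoC L N μ = true) : IsolC V (a μ) := by
  unfold chkIsoC at h
  simp only [cond_iff, blt_iff, allN_iff, hc.eq, hc.nat, List.all_eq_true, beq_iff] at h
  obtain ⟨hN, h1, h2, h3⟩ := h
  have hN0 : (N : ℂ) ≠ 0 := Nat.cast_ne_zero.2 hN.ne'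
  -- the terms
  have hterm : ∀ c ∈ L, ∀ (b : MRep G) (i : ℕ), i < d.K →
      (∀ g, (b.2 g).trace = ((a i).2 g).trace) →
      (((if c.neg then -(c.u : ℤ) else c.u : ℤ) : ℤ) : ℂ) *
        (psum V (c.P.vec d φ r) c.tw b / Nat.card (WP V (c.P.vec d φ r))) =
      φ (c.val d i) / N := by
    intro c hcL b i hi hb
    obtain ⟨h4, h5⟩ := psum_cert hc hG CA CB O ho hg (hL c hcL)
    have hn : (c.P.n : ℂ) ≠ 0 := by
      rw [← h4]
      have : Nat.card (WP V (c.P.vec d φ r)) ≠ 0 := Nat.card_pos.ne'
      exact Nat.cast_ne_zero.2 this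
    have hk : (c.k : ℂ) * c.P.n = c.u * N := by
      have h6 : c.k * c.P.n = c.u * N := h1 c hcL
      exact_mod_cast h6
    rw [psum_congr _ _ hb, h5 i hi, h4]
    unfold CT.val
    cases c.neg with
    | true =>
      rw [cond_true, hc.neg, hc.mul, hc.nat]
      simp only [if_true]
      push_cast
      field_simp
      linear_combination φ (c.P.qs d i) * hk
    | false =>
      rw [cond_false, hc.mul, hc.nat]
      simp only [Bool.false_eq_true, if_false]
      push_cast
      field_simp
      linear_combination (-φ (c.P.qs d i)) * hk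
  have hsum : ∀ (b : MRep G) (i : ℕ), i < d.K → (∀ g, (b.2 g).trace = ((a i).2 g).trace) →
      ∑ j : Fin L.length, (((if (L.get j).neg then -((L.get j).u : ℤ) else (L.get j).u : ℤ) : ℤ) : ℂ) *
        (psum V ((L.get j).P.vec d φ r) (L.get j).tw b /
          Nat.card (WP V ((L.get j).P.vec d φ r))) = φ (d.comb L i) / N := by
    intro b i hi hb
    rw [Finset.sum_congr rfl fun j _ => hterm (L.get j) (List.get_mem L j) b i hi hb,
      comb_val hc, ← Finset.sum_div]
    congr 1
    rw [← List.sum_ofFn]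
    congr 1
    exact List.ofFn_getElem_eq_map L (fun c => φ (c.val d i))
  refine ⟨L.length, fun j => (L.get j).P.vec d φ r, fun j => (L.get j).tw,
    fun j => if (L.get j).neg then -((L.get j).u : ℤ) else (L.get j).u, ?_, fun b hb hS => ?_⟩
  · rw [hsum (a μ) μ hμ fun _ => rfl, h2, div_self hN0]
  · obtain ⟨i, hi, hbi, hbt⟩ := O.compl b hb
    have hS' : SameLevel V (a μ) (a i) :=
      sameLevel_symm (sameLevel_left hbi hbt (sameLevel_symm hS))
    have h5 := h3 i hi
    cases h6 : Nat.beq i μ with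
    | true =>
      right
      rw [beq_iff] at h6
      rw [h6] at hbt
      exact hbt
    | false =>
      rw [h6, cond_false] at h5
      cases h7 : d.difE μ i with
      | true => exact absurd hS' (difE_of hc O hμ hi h7)
      | false =>
        rw [h7, cond_false, hc.eq, hc.nat, Nat.cast_zero] at h5
        left
        rw [hsum b i hi hbt, h5, zero_div]

/-- Reflections are conjugate to the representative of their class. -/
theorem cj_refl [Fintype G] (hc : CRS d.c φ e) (hG : Gp d φ V γ) (CA : CkA d) (CB : CkB d)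
    {lt : ℕ → G} {a : ℕ → MRep G} (O : Out d φ V γ lt a)
    (h : PD.chkAll d o = true) {x : G} (hx : (V x - 1).rank = 1) :
    d.kk o 0 0 < d.nc ∧ Cj x (lt (d.rep + d.kk o 0 0)) := by
  unfold PD.chkAll at h
  simp only [cond_iff, blt_iff, allN_iff] at h
  obtain ⟨hm, h1, hsq⟩ := h
  obtain ⟨j, hj, hxj⟩ := cover O.cls x
  have h2 : bit d.rf j = true := by
    refine rf_of hc hG CA CB O hj ?_
    obtain ⟨y, hy⟩ := hxj.symm
    rw [hy, rank_conj]
    exact hx
  have h3 := h1 j hj
  have hj0 : Nat.beq j 0 = false := by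
    rw [← Bool.not_eq_true, beq_iff]
    rintro rfl
    obtain ⟨y, hy⟩ := hxj
    rw [O.cls.g0, mul_one, mul_inv_cancel] at hy
    rw [hy, map_one, sub_self, Matrix.rank_zero] at hx
    exact absurd hx (by decide)
  rw [h2, cond_true, hj0, cond_false, beq_iff] at h3
  rw [← h3]
  exact ⟨hj, hxj⟩

/-- The trace `t` (its absolute value and its sign) of the reflections on the character `i`. -/
def chkTr (d : GD α) (o : OD) (i t : ℕ) (s : Bool) : Bool :=
  d.c.eq (d.X i (d.kk o 0 0)) (cond s (d.c.neg (d.c.nat t)) (d.c.nat t))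

/-- In the level of the character `i`, the multiplicity of the extreme character of `P` is not
zero exactly on the characters listed in `M`, and these have the same dimension. -/
def chkYs (d : GD α) (P : PD α) (M i : ℕ) : Bool :=
  allN d.K fun j => cond (d.difE i j) true (cond (bit M j)
    (cond (d.c.eq (P.qs d j) (d.c.nat 0)) false (Nat.beq (d.dimv j) (d.dimv i)))
    (d.c.eq (P.qs d j) (d.c.nat 0)))

/-- The representations listed in `M`. -/
def YM (d : GD α) (a : ℕ → MRep G) (M : ℕ) (b : MRep G) : Prop :=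
  ∃ i < d.K, bit M i = true ∧ b.1 = (a i).1 ∧ ∀ g, (b.2 g).trace = ((a i).2 g).trace

theorem dimY_cert [Fintype G] (hc : CRS d.c φ e) (hG : Gp d φ V γ) (CA : CkA d) (CB : CkB d)
    {lt : ℕ → G} {a : ℕ → MRep G} (O : Out d φ V γ lt a) (ho : o ∈ d.ops) (hg : o.gen < d.ng)
    (hall : PD.chkAll d o = true) {M : ℕ}
    (H : ∀ i < d.K, bit M i = true → ∃ (P : PD α) (tw : Bool) (t : ℕ) (s : Bool),
      P.Ck d o tw ∧ d.chkTr o i t s = true ∧ d.chkYs P M i = true ∧
      ∀ m e : ℕ, 0 < m → e ≤ m →
        (m : ℤ) * (d.dimv i + (if s then -(t : ℤ) else t)) = 2 * d.dimv i * e → d.dimv i ≤ m) :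
    DimY V (d.YM a M) := by
  rintro b hb ⟨i, hi, hMi, hbi, hbt⟩
  obtain ⟨P, tw, t, s, hP, ht, hs, hd⟩ := H i hi hMi
  obtain ⟨-, h5⟩ := psum_cert hc hG CA CB O ho hg hP
  have hdi : b.1 = d.dimv i := by rw [hbi, (O.irr i hi).2.1]
  have hdif : ∀ (c : MRep G) (j : ℕ), j < d.K → SameLevel V b c → c.1 = (a j).1 →
      (∀ g, (c.2 g).trace = ((a j).2 g).trace) → d.difE i j = false := by
    intro c j hj hS hcj hct
    have hS' : SameLevel V (a i) (a j) :=
      sameLevel_left hbi hbt (sameLevel_symm (sameLevel_left hcj hct (sameLevel_symm hS)))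
    cases h7 : d.difE i j with
    | true => exact absurd hS' (difE_of hc O hi hj h7)
    | false => rfl
  unfold chkYs at hs
  rw [allN_iff] at hs
  have hin : ∀ j < d.K, d.difE i j = false → bit M j = true →
      φ (P.qs d j) ≠ 0 ∧ d.dimv j = d.dimv i := by
    intro j hj h1 h2
    have h3 := hs j hj
    rw [h1, cond_false, h2, cond_true] at h3
    cases h4 : d.c.eq (P.qs d j) (d.c.nat 0) with
    | true => rw [h4, cond_true] at h3; exact absurd h3 (by decide)
    | false =>
      rw [h4, cond_false, beq_iff] at h3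
      refine ⟨fun h6 => ?_, h3⟩
      rw [← Bool.not_eq_true, hc.eq, hc.nat, Nat.cast_zero] at h4
      exact h4 h6
  have hout : ∀ j < d.K, d.difE i j = false → bit M j = false → φ (P.qs d j) = 0 := by
    intro j hj h1 h2
    have h3 := hs j hj
    rw [h1, cond_false, h2, cond_false, hc.eq, hc.nat, Nat.cast_zero] at h3
    exact h3
  refine ⟨P.vec d φ r, tw, if s then -(t : ℤ) else t, ?_, ?_, ?_⟩
  · intro x hx
    obtain ⟨h1, h2⟩ := cj_refl hc hG CA CB O hall hx
    rw [hbt, tr_cls (a i).2 h2, (O.irr i hi).2.2 _ h1]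
    unfold chkTr at ht
    rw [hc.eq] at ht
    rw [ht]
    cases s with
    | true => simp [hc.neg, hc.nat]
    | false => simp [hc.nat]
  · intro m e hm he h1
    rw [hdi] at h1 ⊢
    exact hd m e hm he h1
  · intro c hcI hS
    obtain ⟨j, hj, hcj, hct⟩ := O.compl c hcI
    have h1 := hdif c j hj hS hcj hct
    have hps : psum V (P.vec d φ r) tw c = φ (P.qs d j) := by
      rw [psum_congr _ _ hct, h5 j hj]
    refine ⟨?_, ?_⟩
    · rw [hps]
      constructor
      · intro h2
        cases h3 : bit M j with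
        | true => exact ⟨j, hj, h3, hcj, hct⟩
        | false => exact absurd (hout j hj h1 h3) h2
      · rintro ⟨j', hj', h3, hcj', hct'⟩
        have h4 := (hin j' hj' (hdif c j' hj' hS hcj' hct') h3).1
        rw [← h5 j' hj', ← psum_congr _ _ hct', psum_congr _ _ hct, h5 j hj] at h4
        exact h4
    · rintro ⟨j', hj', h3, hcj', hct'⟩
      rw [hcj', (O.irr j' hj').2.1, (hin j' hj' (hdif c j' hj' hS hcj' hct') h3).2, hdi]

/-- Equal eigenvalues imply equal labels, up to the characters listed in `I`, inside and outside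
of `M`. -/
def chkLabIM (d : GD α) (I M i : ℕ) : Bool :=
  cond (bit I i) true (allN i fun i' => cond (bit I i') true
    (cond (Bool.xor (bit M i) (bit M i')) true
      (cond (Nat.beq (d.labv i) (d.labv i')) true (d.difE i i'))))

/-- Different indices have different characters. -/
theorem Out.inj [Fintype G] (hc : CRS d.c φ e) (CB : CkB d) {lt : ℕ → G} {a : ℕ → MRep G}
    (O : Out d φ V γ lt a) {i i' : ℕ} (hi : i < d.K) (hi' : i' < d.K)
    (h : ∀ g, ((a i).2 g).trace = ((a i').2 g).trace) : i = i' := by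
  have key : ∀ i < d.K, ∀ i' < i, ¬ ∀ g, ((a i).2 g).trace = ((a i').2 g).trace := by
    intro i hi i' hi' h
    have h1 := CB.dist i hi
    unfold chkDist at h1
    rw [allN_iff] at h1
    obtain ⟨j, hj, h2⟩ := anyN_iff.1 (h1 i' hi')
    rw [Bool.not_eq_true', ← Bool.not_eq_true, hc.eq] at h2
    apply h2
    rw [← (O.irr i hi).2.2 j hj, ← (O.irr i' (by omega)).2.2 j hj, h]
  rcases Nat.lt_trichotomy i i' with h1 | h1 | h1
  · exact absurd (fun g => (h g).symm) (key i' hi' i h1)
  · exact h1
  · exact absurd h (key i hi i' h1)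

theorem Out.connIM [Fintype G] (hc : CRS d.c φ e) (CB : CkB d) {lt : ℕ → G} {a : ℕ → MRep G}
    (O : Out d φ V γ lt a) {I M : ℕ} (hI : ∀ i < d.K, bit I i = true → IsolC V (a i))
    (hlab : ∀ i < d.K, d.chkLabIM I M i = true) : ConnXY V (IsolC V) (d.YM a M) := by
  have key : ∀ i < d.K, ∀ i' < i, bit I i = false → bit I i' = false → bit M i = bit M i' →
      SameLevel V (a i) (a i') → d.labv i = d.labv i' := by
    intro i hi i' hi' hb hb' hM hS
    have h1 := hlab i hi
    unfold chkLabIM at h1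
    rw [hb, cond_false, allN_iff] at h1
    have h2 := h1 i' hi'
    rw [hb', cond_false, hM, Bool.xor_self, cond_false] at h2
    cases h3 : Nat.beq (d.labv i) (d.labv i') with
    | true => exact beq_iff.1 h3
    | false =>
      rw [h3, cond_false] at h2
      exact absurd hS (difE_of hc O hi (by omega) h2)
  intro x y hx hy hS hY hnx hny
  obtain ⟨i, hi, hxi, hxi'⟩ := O.compl x hx
  obtain ⟨i', hi', hyi, hyi'⟩ := O.compl y hy
  have hb : ∀ j < d.K, ∀ z : MRep G, z.1 = (a j).1 → (∀ g, (z.2 g).trace = ((a j).2 g).trace) →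
      ¬ IsolC V z → bit I j = false := by
    intro j hj z h1 h2 hz
    cases h3 : bit I j with
    | false => rfl
    | true => exact absurd (isolC_congr h1.symm (fun g => (h2 g).symm) (hI j hj h3)) hz
  have hYM : ∀ j < d.K, ∀ z : MRep G, z.1 = (a j).1 →
      (∀ g, (z.2 g).trace = ((a j).2 g).trace) → (d.YM a M z ↔ bit M j = true) := by
    intro j hj z h1 h2
    constructor
    · rintro ⟨j', hj', h3, _, h4⟩
      have h5 : j = j' := O.inj hc CB hj hj' fun g => by rw [← h2 g, h4 g]
      rw [h5]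
      exact h3
    · intro h3
      exact ⟨j, hj, h3, h1, h2⟩
  have hbM : bit M i = bit M i' := by
    rw [Bool.eq_iff_iff, ← hYM i hi x hxi hxi', ← hYM i' hi' y hyi hyi']
    exact hY
  have hbi := hb i hi x hxi hxi' hnx
  have hbi' := hb i' hi' y hyi hyi' hny
  have hS' : SameLevel V (a i) (a i') :=
    sameLevel_symm (sameLevel_left hyi hyi' (sameLevel_symm (sameLevel_left hxi hxi' hS)))
  have hl : d.labv i = d.labv i' := by
    rcases Nat.lt_trichotomy i i' with h | h | h
    · exact (key i' hi' i h hbi' hbi hbM.symm (sameLevel_symm hS')).symm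
    · rw [h]
    · exact key i hi i' h hbi hbi' hbM hS'
  have e1 : Relation.EqvGen (Lk V) x (a i) :=
    Relation.EqvGen.rel _ _ (lk_of_eq O.r0 V x (a i) hx (O.irr i hi).1 hxi hxi')
  have e2 : Relation.EqvGen (Lk V) y (a i') :=
    Relation.EqvGen.rel _ _ (lk_of_eq O.r0 V y (a i') hy (O.irr i' hi').1 hyi hyi')
  have e3 := (O.link i hi).1
  have e4 := (O.link i' hi').1
  rw [← hl] at e4
  exact e1.trans _ _ _ (e3.trans _ _ _ ((e4.symm _ _).trans _ _ _ (e2.symm _ _)))

end GD

end

end Pool.Agent.CMFn
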