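import Pool.Agent.CMFn.CQC

/-! Project CMFn, blocks C and Q: connectedness of the levels up to isolated characters and up to a
second property.  helper15. -/

namespace Pool.Agent.CMFn

open Matrix

noncomputable section

variable {G : Type} [Group G] {r : ℕ} {V : G →* Matrix (Fin r) (Fin r) ℂ}
variable {α : Type} {d : GD α} {φ : α → ℂ} {e : ℕ → ℂ} {γ : ℕ → G}

namespace GD

/-- Equal eigenvalues imply equal labels, up to the characters listed in `I`, for characters which
are both in `J` or both outside `J`. -/
def chkLabXY (d : GD α) (I J i : ℕ) : Bool :=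
  cond (bit I i) true (allN i fun i' => cond (bit I i') true
    (cond (Nat.beq (d.labv i) (d.labv i')) true
      (cond (bit J i) (cond (bit J i') (d.difE i i') true)
        (cond (bit J i') true (d.difE i i')))))

/-- Every level is connected, up to the representations in `X` and the partition by `Y`. -/
theorem Out.connXY [Fintype G] (hc : CRS d.c φ e) {lt : ℕ → G} {a : ℕ → MRep G}
    (O : Out d φ V γ lt a) (X : MRep G → Prop)
    (hX : ∀ x y : MRep G, x.1 = y.1 → (∀ g, (x.2 g).trace = (y.2 g).trace) → X x → X y)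
    (Y : MRep G → Prop)
    (hY : ∀ x y : MRep G, x.1 = y.1 → (∀ g, (x.2 g).trace = (y.2 g).trace) → Y x → Y y)
    {I J : ℕ} (hI : ∀ i < d.K, bit I i = true → X (a i))
    (hJ : ∀ i < d.K, bit J i = true ↔ Y (a i))
    (hlab : ∀ i < d.K, d.chkLabXY I J i = true) :
    ∀ x y : MRep G, IsIrr x.2 → IsIrr y.2 → SameLevel V x y → ¬ X x → ¬ X y → (Y x ↔ Y y) →
      Relation.EqvGen (Lk V) x y := by
  have key : ∀ i < d.K, ∀ i' < i, bit I i = false → bit I i' = false →
      (bit J i = true ↔ bit J i' = true) → SameLevel V (a i) (a i') → d.labv i = d.labv i' := by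
    intro i hi i' hi' hb hb' hJJ hS
    have h1 := hlab i hi
    unfold chkLabXY at h1
    rw [hb, cond_false, allN_iff] at h1
    have h2 := h1 i' hi'
    rw [hb', cond_false] at h2
    cases h3 : Nat.beq (d.labv i) (d.labv i') with
    | true => exact beq_iff.1 h3
    | false =>
      rw [h3, cond_false] at h2
      cases h4 : bit J i with
      | true =>
        rw [h4, cond_true, hJJ.1 h4, cond_true] at h2
        exact absurd hS (difE_of hc O hi (by omega) h2)
      | false =>
        have h5 : bit J i' = false := by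
          rw [← Bool.not_eq_true]
          intro h6
          rw [hJJ.2 h6] at h4
          exact absurd h4 (by decide)
        rw [h4, cond_false, h5, cond_false] at h2
        exact absurd hS (difE_of hc O hi (by omega) h2)
  intro x y hx hy hS hnx hny hYY
  obtain ⟨i, hi, hxi, hxi'⟩ := O.compl x hx
  obtain ⟨i', hi', hyi, hyi'⟩ := O.compl y hy
  have hb : ∀ j < d.K, ∀ z : MRep G, z.1 = (a j).1 → (∀ g, (z.2 g).trace = ((a j).2 g).trace) →
      ¬ X z → bit I j = false := by
    intro j hj z h1 h2 hz
    cases h3 : bit I j with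
    | false => rfl
    | true => exact absurd (hX _ _ h1.symm (fun g => (h2 g).symm) (hI j hj h3)) hz
  have hbi := hb i hi x hxi hxi' hnx
  have hbi' := hb i' hi' y hyi hyi' hny
  have hYi : bit J i = true ↔ Y x := by
    rw [hJ i hi]
    exact ⟨hY _ _ hxi.symm (fun g => (hxi' g).symm), hY _ _ hxi hxi'⟩
  have hYi' : bit J i' = true ↔ Y y := by
    rw [hJ i' hi']
    exact ⟨hY _ _ hyi.symm (fun g => (hyi' g).symm), hY _ _ hyi hyi'⟩
  have hJJ : bit J i = true ↔ bit J i' = true := by rw [hYi, hYi', hYY]
  have hS' : SameLevel V (a i) (a i') :=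
    sameLevel_symm (sameLevel_left hyi hyi' (sameLevel_symm (sameLevel_left hxi hxi' hS)))
  have hl : d.labv i = d.labv i' := by
    rcases Nat.lt_trichotomy i i' with h | h | h
    · exact (key i' hi' i h hbi' hbi hJJ.symm (sameLevel_symm hS')).symm
    · rw [h]
    · exact key i hi i' h hbi hbi' hJJ hS'
  have e1 : Relation.EqvGen (Lk V) x (a i) :=
    Relation.EqvGen.rel _ _ (lk_of_eq O.r0 V x (a i) hx (O.irr i hi).1 hxi hxi')
  have e2 : Relation.EqvGen (Lk V) y (a i') :=
    Relation.EqvGen.rel _ _ (lk_of_eq O.r0 V y (a i') hy (O.irr i' hi').1 hyi hyi')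
  have e3 := (O.link i hi).1
  have e4 := (O.link i' hi').1
  rw [← hl] at e4
  exact e1.trans _ _ _ (e3.trans _ _ _ ((e4.symm _ _).trans _ _ _ (e2.symm _ _)))

end GD

end

end Pool.Agent.CMFn
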