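import Mathlib

/-! Project CMFn, block C: computational rings (definitions).  helper62. -/

namespace Pool.Agent.CMFn

noncomputable section

/-- A computable ring whose elements are given by `q` integer coordinates. -/
structure CR (α : Type) where
  q : ℕ
  dec : ℕ → (ℕ → ℕ) → α
  nat : ℕ → α
  neg : α → α
  add : α → α → α
  mul : α → α → α
  eq : α → α → Bool

/-- `φ` embeds the ring into `ℂ`, with basis `e`. -/
structure CRS {α : Type} (c : CR α) (φ : α → ℂ) (e : ℕ → ℂ) : Prop where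
  nat : ∀ n, φ (c.nat n) = n
  neg : ∀ x, φ (c.neg x) = - φ x
  add : ∀ x y, φ (c.add x y) = φ x + φ y
  mul : ∀ x y, φ (c.mul x y) = φ x * φ y
  eq : ∀ x y, c.eq x y = true ↔ φ x = φ y
  dec : ∀ off d, φ (c.dec off d) = ∑ k ∈ Finset.range c.q, ((d k : ℂ) - off) * e k

/-- Integers as differences. -/
structure PN where
  p : ℕ
  n : ℕ

/-- The ring `ℤ`. -/
def cz : CR PN where
  q := 1
  dec off d := ⟨d 0, off⟩
  nat n := ⟨n, 0⟩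
  neg x := ⟨x.n, x.p⟩
  add x y := ⟨Nat.add x.p y.p, Nat.add x.n y.n⟩
  mul x y := ⟨Nat.add (Nat.mul x.p y.p) (Nat.mul x.n y.n),
    Nat.add (Nat.mul x.p y.n) (Nat.mul x.n y.p)⟩
  eq x y := Nat.beq (Nat.add x.p y.n) (Nat.add x.n y.p)

/-- The embedding of `ℤ`. -/
def fz (x : PN) : ℂ := (x.p : ℂ) - x.n

/-- Pairs `re + im θ`. -/
structure Qd (α : Type) where
  re : α
  im : α

/-- The ring `R[θ]`, `θ² = aθ + b`. -/
def cq {α : Type} (c : CR α) (a b : α) : CR (Qd α) where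
  q := Nat.mul 2 c.q
  dec off d := ⟨c.dec off d, c.dec off (fun k => d (Nat.add c.q k))⟩
  nat n := ⟨c.nat n, c.nat 0⟩
  neg x := ⟨c.neg x.re, c.neg x.im⟩
  add x y := ⟨c.add x.re y.re, c.add x.im y.im⟩
  mul x y := ⟨c.add (c.mul x.re y.re) (c.mul b (c.mul x.im y.im)),
    c.add (c.add (c.mul x.re y.im) (c.mul x.im y.re)) (c.mul a (c.mul x.im y.im))⟩
  eq x y := cond (c.eq x.re y.re) (c.eq x.im y.im) false

/-- The embedding of `R[θ]`. -/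
def fq {α : Type} (φ : α → ℂ) (θ : ℂ) (x : Qd α) : ℂ := φ x.re + φ x.im * θ

/-- The golden section `(1 + √5)/2`. -/
def zTau : ℂ := (1 + (Real.sqrt 5 : ℂ)) / 2

/-- `(1 + √-7)/2`. -/
def zAl : ℂ := (1 + (Real.sqrt 7 : ℂ) * Complex.I) / 2

/-- `(-1 + √-3)/2`. -/
def zOm : ℂ := (-1 + (Real.sqrt 3 : ℂ) * Complex.I) / 2

def cTau : CR (Qd PN) := cq cz ⟨1, 0⟩ ⟨1, 0⟩
def cAl : CR (Qd PN) := cq cz ⟨1, 0⟩ ⟨0, 2⟩
def cI : CR (Qd PN) := cq cz ⟨0, 0⟩ ⟨0, 1⟩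
def cOm : CR (Qd PN) := cq cz ⟨0, 1⟩ ⟨0, 1⟩
def cTO : CR (Qd (Qd PN)) := cq cTau ⟨⟨0, 1⟩, ⟨0, 0⟩⟩ ⟨⟨0, 1⟩, ⟨0, 0⟩⟩

def fTau : Qd PN → ℂ := fq fz zTau
def fAl : Qd PN → ℂ := fq fz zAl
def fI : Qd PN → ℂ := fq fz Complex.I
def fOm : Qd PN → ℂ := fq fz zOm
def fTO : Qd (Qd PN) → ℂ := fq fTau zOm

end

end Pool.Agent.CMFn
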