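import Pool.Agent.CMFn.CRDefs

/-! Project CMFn, block C: computational rings, proofs. -/

namespace Pool.Agent.CMFn

noncomputable section

namespace CRingX

lemma fz_int (x : PN) : ∃ a : ℤ, fz x = (a : ℂ) := ⟨(x.p : ℤ) - x.n, by unfold fz; push_cast; ring⟩

lemma fz_real (x : PN) : ∃ a : ℝ, fz x = (a : ℂ) := ⟨(x.p : ℝ) - x.n, by unfold fz; push_cast; ring⟩

lemma fTau_real (x : Qd PN) : ∃ a : ℝ, fTau x = (a : ℂ) := by
  obtain ⟨a, ha⟩ := fz_real x.re
  obtain ⟨b, hb⟩ := fz_real x.im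
  refine ⟨a + b * ((1 + Real.sqrt 5) / 2), ?_⟩
  unfold fTau fq zTau
  rw [ha, hb]; push_cast; ring

/-- independence from a non-zero imaginary part -/
lemma indep_im (a b : ℝ) (θ : ℂ) (hθ : θ.im ≠ 0) (h : (a : ℂ) + (b : ℂ) * θ = 0) :
    (a : ℂ) = 0 ∧ (b : ℂ) = 0 := by
  have h1 := congrArg Complex.im h
  simp only [Complex.add_im, Complex.ofReal_im, Complex.mul_im, Complex.ofReal_re, zero_mul,
    add_zero, zero_add, Complex.zero_im] at h1
  have hb : b = 0 := by
    rcases mul_eq_zero.1 h1 with h2 | h2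
    · exact h2
    · exact absurd h2 hθ
  subst hb
  simp at h
  constructor
  · exact_mod_cast h
  · simp

lemma im_al : zAl.im ≠ 0 := by
  have h1 : zAl.im = Real.sqrt 7 / 2 := by
    unfold zAl
    simp
  rw [h1]
  have : 0 < Real.sqrt 7 := Real.sqrt_pos.2 (by norm_num)
  positivity

lemma im_om : zOm.im ≠ 0 := by
  have h1 : zOm.im = Real.sqrt 3 / 2 := by
    unfold zOm
    simp
  rw [h1]
  have : 0 < Real.sqrt 3 := Real.sqrt_pos.2 (by norm_num)
  positivity

lemma sq5 : (Real.sqrt 5 : ℂ) ^ 2 = 5 := by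
  rw [← Complex.ofReal_pow, Real.sq_sqrt (by norm_num)]; norm_num

lemma sq7 : (Real.sqrt 7 : ℂ) ^ 2 = 7 := by
  rw [← Complex.ofReal_pow, Real.sq_sqrt (by norm_num)]; norm_num

lemma sq3 : (Real.sqrt 3 : ℂ) ^ 2 = 3 := by
  rw [← Complex.ofReal_pow, Real.sq_sqrt (by norm_num)]; norm_num

lemma indep_tau (x y : PN) (h : fz x + fz y * zTau = 0) : fz x = 0 ∧ fz y = 0 := by
  obtain ⟨a, ha⟩ := fz_int x
  obtain ⟨b, hb⟩ := fz_int y
  rw [ha, hb] at h ⊢
  have hb0 : b = 0 := by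
    by_contra hb0
    have hirr : Irrational (Real.sqrt 5) := Nat.Prime.irrational_sqrt (by norm_num)
    have h1 : (a : ℝ) + (b : ℝ) * ((1 + Real.sqrt 5) / 2) = 0 := by
      have h2 : (((a : ℝ) + (b : ℝ) * ((1 + Real.sqrt 5) / 2) : ℝ) : ℂ) = 0 := by
        push_cast
        unfold zTau at h
        exact h
      exact_mod_cast h2
    apply hirr
    refine ⟨-(2 * (a : ℚ) + b) / b, ?_⟩
    have hb1 : (b : ℝ) ≠ 0 := by exact_mod_cast hb0
    push_cast
    field_simp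
    linarith
  subst hb0
  simp at h
  exact ⟨by exact_mod_cast h, by simp⟩

end CRingX

open CRingX

theorem crs_z : CRS cz fz (fun _ => 1) where
  nat n := by simp [cz, fz]
  neg x := by simp [cz, fz]
  add x y := by simp [cz, fz]; ring
  mul x y := by simp [cz, fz]; ring
  eq x y := by
    show Nat.beq (Nat.add x.p y.n) (Nat.add x.n y.p) = true ↔ _
    rw [Nat.beq_eq]
    show x.p + y.n = x.n + y.p ↔ (x.p : ℂ) - x.n = (y.p : ℂ) - y.n
    constructor
    · intro h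
      have h1 : (x.p : ℂ) + y.n = x.n + y.p := by exact_mod_cast h
      linear_combination h1
    · intro h
      have h1 : (x.p : ℂ) + y.n = x.n + y.p := by linear_combination h
      exact_mod_cast h1
  dec off d := by simp [cz, fz]

theorem crs_q {α : Type} {c : CR α} {φ : α → ℂ} {e : ℕ → ℂ} (h : CRS c φ e) (a b : α) {θ : ℂ}
    (hθ : θ ^ 2 = φ a * θ + φ b)
    (hind : ∀ x y : α, φ x + φ y * θ = 0 → φ x = 0 ∧ φ y = 0) :
    CRS (cq c a b) (fq φ θ) (fun k => if k < c.q then e k else e (k - c.q) * θ) where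
  nat n := by
    show φ (c.nat n) + φ (c.nat 0) * θ = n
    rw [h.nat, h.nat]; simp
  neg x := by
    show φ (c.neg x.re) + φ (c.neg x.im) * θ = -(φ x.re + φ x.im * θ)
    rw [h.neg, h.neg]; ring
  add x y := by
    show φ (c.add x.re y.re) + φ (c.add x.im y.im) * θ =
      (φ x.re + φ x.im * θ) + (φ y.re + φ y.im * θ)
    rw [h.add, h.add]; ring
  mul x y := by
    show φ (c.add (c.mul x.re y.re) (c.mul b (c.mul x.im y.im))) +
      φ (c.add (c.add (c.mul x.re y.im) (c.mul x.im y.re)) (c.mul a (c.mul x.im y.im))) * θ =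
      (φ x.re + φ x.im * θ) * (φ y.re + φ y.im * θ)
    simp only [h.add, h.mul]
    linear_combination (-(φ x.im * φ y.im)) * hθ
  eq x y := by
    show cond (c.eq x.re y.re) (c.eq x.im y.im) false = true ↔
      φ x.re + φ x.im * θ = φ y.re + φ y.im * θ
    have h1 : cond (c.eq x.re y.re) (c.eq x.im y.im) false = true ↔
        c.eq x.re y.re = true ∧ c.eq x.im y.im = true := by
      cases c.eq x.re y.re <;> simp
    rw [h1, h.eq, h.eq]
    constructor
    · rintro ⟨h2, h3⟩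
      rw [h2, h3]
    · intro h2
      have h3 := hind (c.add x.re (c.neg y.re)) (c.add x.im (c.neg y.im)) (by
        rw [h.add, h.neg, h.add, h.neg]
        linear_combination h2)
      rw [h.add, h.neg, h.add, h.neg] at h3
      exact ⟨by linear_combination h3.1, by linear_combination h3.2⟩
  dec off d := by
    show φ (c.dec off d) + φ (c.dec off (fun k => d (Nat.add c.q k))) * θ =
      ∑ k ∈ Finset.range (Nat.mul 2 c.q), ((d k : ℂ) - off) *
        (if k < c.q then e k else e (k - c.q) * θ)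
    have h1 : Nat.mul 2 c.q = c.q + c.q := by
      show 2 * c.q = c.q + c.q
      ring
    rw [h1, Finset.sum_range_add, h.dec, h.dec, Finset.sum_mul]
    congr 1
    · apply Finset.sum_congr rfl
      intro k hk
      rw [if_pos (Finset.mem_range.1 hk)]
    · apply Finset.sum_congr rfl
      intro k _
      rw [if_neg (by omega), Nat.add_sub_cancel_left]
      show ((d (c.q + k) : ℂ) - off) * e k * θ = ((d (c.q + k) : ℂ) - off) * (e k * θ)
      ring

theorem crs_tau : ∃ e, CRS cTau fTau e := by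
  refine ⟨_, crs_q crs_z ⟨1, 0⟩ ⟨1, 0⟩ (θ := zTau) ?_ indep_tau⟩
  simp only [fz, zTau]
  push_cast
  linear_combination (1 / 4 : ℂ) * sq5

theorem crs_al : ∃ e, CRS cAl fAl e := by
  refine ⟨_, crs_q crs_z ⟨1, 0⟩ ⟨0, 2⟩ (θ := zAl) ?_ ?_⟩
  · simp only [fz, zAl]
    push_cast
    linear_combination (1 / 4 : ℂ) * (Complex.I ^ 2 * sq7 + 7 * Complex.I_sq)
  · intro x y h
    obtain ⟨a, ha⟩ := fz_real x
    obtain ⟨b, hb⟩ := fz_real y
    rw [ha, hb] at h ⊢
    exact indep_im a b _ im_al h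

theorem crs_i : ∃ e, CRS cI fI e := by
  refine ⟨_, crs_q crs_z ⟨0, 0⟩ ⟨0, 1⟩ (θ := Complex.I) ?_ ?_⟩
  · simp [fz]
  · intro x y h
    obtain ⟨a, ha⟩ := fz_real x
    obtain ⟨b, hb⟩ := fz_real y
    rw [ha, hb] at h ⊢
    exact indep_im a b _ (by simp) h

theorem om_sq : zOm ^ 2 = -zOm - 1 := by
  unfold zOm
  linear_combination (1 / 4 : ℂ) * (Complex.I ^ 2 * sq3 + 3 * Complex.I_sq)

theorem crs_om : ∃ e, CRS cOm fOm e := by
  refine ⟨_, crs_q crs_z ⟨0, 1⟩ ⟨0, 1⟩ (θ := zOm) ?_ ?_⟩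
  · rw [om_sq]
    simp [fz]
    ring
  · intro x y h
    obtain ⟨a, ha⟩ := fz_real x
    obtain ⟨b, hb⟩ := fz_real y
    rw [ha, hb] at h ⊢
    exact indep_im a b _ im_om h

theorem crs_to : ∃ e, CRS cTO fTO e := by
  obtain ⟨e, he⟩ := crs_tau
  refine ⟨_, crs_q he ⟨⟨0, 1⟩, ⟨0, 0⟩⟩ ⟨⟨0, 1⟩, ⟨0, 0⟩⟩ (θ := zOm) ?_ ?_⟩
  · rw [om_sq]
    simp [fTau, fq, fz]
    ring
  · intro x y h
    obtain ⟨a, ha⟩ := fTau_real x
    obtain ⟨b, hb⟩ := fTau_real y
    rw [ha, hb] at h ⊢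
    exact indep_im a b _ im_om h

end

end Pool.Agent.CMFn
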