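import Pool.Agent.CMFn.CDefs
import Pool.Agent.helper75.Burnside

/-! Project CMFn, module VC2: complete reducibility of characters, class operators. -/

namespace Pool.Agent.CMFn

open Matrix

noncomputable section

variable {G : Type} [Group G]

namespace VC2X

/-- If the image does not span, there is a proper non-zero invariant subspace. -/
theorem exists_inv {d : ℕ} (hd : 0 < d) (ρ : G →* Matrix (Fin d) (Fin d) ℂ)
    (h : Submodule.span ℂ (Set.range ρ) ≠ ⊤) :
    ∃ W : Submodule ℂ (Fin d → ℂ), W ≠ ⊥ ∧ W ≠ ⊤ ∧ ∀ g, ∀ v ∈ W, ρ g *ᵥ v ∈ W := by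
  by_contra hc
  push Not at hc
  apply h
  have : Nonempty (Fin d) := ⟨⟨0, hd⟩⟩
  have hA : Algebra.adjoin ℂ (Set.range ρ) = ⊤ := by
    apply Pool.Agent.helper75.Burnside.burnside_matrix
    intro W hW
    by_contra h2
    rw [not_or] at h2
    obtain ⟨g, v, hv, hgv⟩ := hc W h2.1 h2.2
    exact hgv (hW (ρ g) (Algebra.subset_adjoin ⟨g, rfl⟩) v hv)
  have hcl : (Submonoid.closure (Set.range ρ) : Set (Matrix (Fin d) (Fin d) ℂ)) =
      Set.range ρ := by
    have : Set.range ρ = (MonoidHom.mrange ρ : Set (Matrix (Fin d) (Fin d) ℂ)) := by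
      rw [MonoidHom.coe_mrange]
    rw [this, Submonoid.closure_eq]
  have h3 := Algebra.adjoin_eq_span ℂ (Set.range ρ)
  rw [hA, hcl] at h3
  rw [← h3]
  rfl

/-- The trace of a representation is the sum of the traces on an invariant subspace and on the
quotient. -/
theorem exists_split {d : ℕ} (ρ : G →* Matrix (Fin d) (Fin d) ℂ)
    (W : Submodule ℂ (Fin d → ℂ)) (h0 : W ≠ ⊥) (h1 : W ≠ ⊤) (hW : ∀ g, ∀ v ∈ W, ρ g *ᵥ v ∈ W) :
    ∃ (a c : ℕ) (_ : a < d) (_ : c < d) (ρ₁ : G →* Matrix (Fin a) (Fin a) ℂ)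
      (ρ₂ : G →* Matrix (Fin c) (Fin c) ℂ),
      ∀ g, (ρ g).trace = (ρ₁ g).trace + (ρ₂ g).trace := by
  obtain ⟨C, hC⟩ := W.exists_isCompl
  obtain ⟨a, ha⟩ : ∃ a, a = Module.finrank ℂ W := ⟨_, rfl⟩
  obtain ⟨c, hc⟩ : ∃ c, c = Module.finrank ℂ C := ⟨_, rfl⟩
  have hac : a + c = d := by
    rw [ha, hc, Submodule.finrank_add_eq_of_isCompl hC, Module.finrank_fin_fun]
  have ha0 : 0 < a := by
    rw [ha, Nat.pos_iff_ne_zero]
    intro h
    exact h0 (Submodule.finrank_eq_zero.1 h)
  have hc0 : 0 < c := by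
    rw [Nat.pos_iff_ne_zero]
    intro h
    have h2 : a = d := by omega
    apply h1
    apply Submodule.eq_top_of_finrank_eq
    rw [← ha, h2, Module.finrank_fin_fun]
  let bW : Module.Basis (Fin a) ℂ W := Module.finBasisOfFinrankEq ℂ W ha.symm
  let bC : Module.Basis (Fin c) ℂ C := Module.finBasisOfFinrankEq ℂ C hc.symm
  let b : Module.Basis (Fin a ⊕ Fin c) ℂ (Fin d → ℂ) :=
    (bW.prod bC).map (W.prodEquivOfIsCompl C hC)
  let M : G → Matrix (Fin a ⊕ Fin c) (Fin a ⊕ Fin c) ℂ := fun g =>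
    LinearMap.toMatrix b b (Matrix.toLin' (ρ g))
  have hM1 : M 1 = 1 := by
    show LinearMap.toMatrix b b (Matrix.toLin' (ρ 1)) = 1
    rw [map_one, Matrix.toLin'_one, LinearMap.toMatrix_id]
  have hMm : ∀ g h, M (g * h) = M g * M h := by
    intro g h
    show LinearMap.toMatrix b b (Matrix.toLin' (ρ (g * h))) = _
    rw [map_mul, Matrix.toLin'_mul, LinearMap.toMatrix_comp b b b]
  have hMt : ∀ g, (ρ g).trace = (M g).trace := by
    intro g
    show (ρ g).trace = (LinearMap.toMatrix b b (Matrix.toLin' (ρ g))).trace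
    rw [← LinearMap.trace_eq_matrix_trace ℂ b, Matrix.trace_toLin'_eq]
  have hb : ∀ i : Fin a, b (Sum.inl i) = (bW i : Fin d → ℂ) := by
    intro i
    show (W.prodEquivOfIsCompl C hC) ((bW.prod bC) (Sum.inl i)) = _
    rw [Submodule.coe_prodEquivOfIsCompl', Module.Basis.prod_apply]
    simp
  have hz : ∀ g, (M g).toBlocks₂₁ = 0 := by
    intro g
    ext j i
    show LinearMap.toMatrix b b (Matrix.toLin' (ρ g)) (Sum.inr j) (Sum.inl i) = 0
    rw [LinearMap.toMatrix_apply, Matrix.toLin'_apply, hb]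
    have h2 := hW g _ (bW i).2
    show (bW.prod bC).repr ((W.prodEquivOfIsCompl C hC).symm (ρ g *ᵥ (bW i : Fin d → ℂ)))
      (Sum.inr j) = 0
    rw [Module.Basis.prod_repr_inr]
    have h3 := (Submodule.prodEquivOfIsCompl_symm_apply_snd_eq_zero W C hC).2 h2
    rw [h3]
    simp
  have hblk : ∀ g, M g = Matrix.fromBlocks (M g).toBlocks₁₁ (M g).toBlocks₁₂ 0
      (M g).toBlocks₂₂ := by
    intro g
    rw [← hz g, Matrix.fromBlocks_toBlocks]
  have h11 : ∀ g h, (M (g * h)).toBlocks₁₁ = (M g).toBlocks₁₁ * (M h).toBlocks₁₁ := by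
    intro g h
    rw [hMm, hblk g, hblk h, Matrix.fromBlocks_multiply]
    simp
  have h22 : ∀ g h, (M (g * h)).toBlocks₂₂ = (M g).toBlocks₂₂ * (M h).toBlocks₂₂ := by
    intro g h
    rw [hMm, hblk g, hblk h, Matrix.fromBlocks_multiply]
    simp
  refine ⟨a, c, by omega, by omega,
    { toFun := fun g => (M g).toBlocks₁₁
      map_one' := ?_
      map_mul' := h11 },
    { toFun := fun g => (M g).toBlocks₂₂
      map_one' := ?_
      map_mul' := h22 }, ?_⟩
  · show (M 1).toBlocks₁₁ = 1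
    rw [hM1, ← Matrix.fromBlocks_one, Matrix.toBlocks_fromBlocks₁₁]
  · show (M 1).toBlocks₂₂ = 1
    rw [hM1, ← Matrix.fromBlocks_one, Matrix.toBlocks_fromBlocks₂₂]
  · intro g
    show (ρ g).trace = (M g).toBlocks₁₁.trace + (M g).toBlocks₂₂.trace
    rw [hMt, Matrix.trace, Fintype.sum_sum_type]
    rfl

/-- Characters are sums of irreducible characters. -/
theorem exists_irr (d : ℕ) : ∀ ρ : G →* Matrix (Fin d) (Fin d) ℂ,
    ∃ (k : ℕ) (a : Fin k → MRep G), (∀ i, IsIrr (a i).2) ∧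
      ∀ g, (ρ g).trace = ∑ i, ((a i).2 g).trace := by
  induction d using Nat.strong_induction_on with
  | _ d ih =>
    intro ρ
    rcases Nat.eq_zero_or_pos d with hd | hd
    · subst hd
      exact ⟨0, fun i => i.elim0, fun i => i.elim0, fun g => by simp [Matrix.trace]⟩
    by_cases h : Submodule.span ℂ (Set.range ρ) = ⊤
    · refine ⟨1, fun _ => ⟨d, ρ⟩, fun _ => ⟨⟨⟨0, hd⟩⟩, h⟩, fun g => by simp⟩
    · obtain ⟨W, h0, h1, hW⟩ := exists_inv hd ρ h
      obtain ⟨a, c, ha, hc, ρ₁, ρ₂, htr⟩ := exists_split ρ W h0 h1 hW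
      obtain ⟨k, A, hA, hA'⟩ := ih a ha ρ₁
      obtain ⟨l, B, hB, hB'⟩ := ih c hc ρ₂
      refine ⟨k + l, Fin.append A B, ?_, ?_⟩
      · intro i
        refine Fin.addCases (fun i => ?_) (fun i => ?_) i
        · rw [Fin.append_left]; exact hA i
        · rw [Fin.append_right]; exact hB i
      · intro g
        rw [htr, hA', hB', Fin.sum_univ_add]
        congr 1
        · exact Finset.sum_congr rfl fun i _ => by rw [Fin.append_left]
        · exact Finset.sum_congr rfl fun i _ => by rw [Fin.append_right]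

/-- A matrix commuting with an irreducible representation is scalar. -/
theorem scalar_of_comm {d : ℕ} (ρ : G →* Matrix (Fin d) (Fin d) ℂ) (hρ : IsIrr ρ)
    (M : Matrix (Fin d) (Fin d) ℂ) (hM : ∀ g, M * ρ g = ρ g * M) :
    M = (M.trace / (d : ℂ)) • (1 : Matrix (Fin d) (Fin d) ℂ) := by
  obtain ⟨hne, hs⟩ := hρ
  have hcomm : ∀ A : Matrix (Fin d) (Fin d) ℂ, A * M = M * A := by
    intro A
    have hA : A ∈ Submodule.span ℂ (Set.range ρ) := by rw [hs]; trivial
    induction hA using Submodule.span_induction with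
    | mem x hx =>
      obtain ⟨g, rfl⟩ := hx
      exact (hM g).symm
    | zero => simp
    | add x y _ _ hx hy => rw [add_mul, mul_add, hx, hy]
    | smul c x _ hx => rw [Matrix.smul_mul, Matrix.mul_smul, hx]
  have h1 : M ∈ Set.range (Matrix.scalar (Fin d)) := by
    rw [Matrix.mem_range_scalar_iff_commute_single']
    intro i j
    exact hcomm _
  obtain ⟨c, hc⟩ := h1
  have hd : (d : ℂ) ≠ 0 := by
    have : 0 < d := Fin.pos_iff_nonempty.2 hne
    exact_mod_cast this.ne'
  have h2 : M = c • (1 : Matrix (Fin d) (Fin d) ℂ) := by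
    rw [← hc, Matrix.smul_one_eq_diagonal]
    rfl
  have h3 : M.trace = c * d := by
    rw [h2, Matrix.trace_smul, Matrix.trace_one, Fintype.card_fin, smul_eq_mul]
  rw [h3, mul_div_assoc, div_self hd, mul_one]
  exact h2

end VC2X

open VC2X

/-- Every virtual character is an integer combination of irreducible characters. -/
theorem vc_irr_comb [Fintype G] {u : G → ℂ} (hu : u ∈ VC G) :
    ∃ (k : ℕ) (a : Fin k → MRep G) (n : Fin k → ℤ), (∀ i, IsIrr (a i).2) ∧
      u = fun g => ∑ i, (n i : ℂ) * ((a i).2 g).trace := by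
  refine AddSubgroup.closure_induction (p := fun u _ => ∃ (k : ℕ) (a : Fin k → MRep G)
    (n : Fin k → ℤ), (∀ i, IsIrr (a i).2) ∧
      u = fun g => ∑ i, (n i : ℂ) * ((a i).2 g).trace) ?_ ?_ ?_ ?_ hu
  · rintro f ⟨d, ρ, rfl⟩
    obtain ⟨k, a, ha, ha'⟩ := exists_irr d ρ
    refine ⟨k, a, fun _ => 1, ha, ?_⟩
    funext g
    rw [ha']
    simp
  · exact ⟨0, fun i => i.elim0, fun i => i.elim0, fun i => i.elim0, by funext g; simp⟩
  · rintro x y _ _ ⟨k, A, n, hA, rfl⟩ ⟨l, B, m, hB, rfl⟩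
    refine ⟨k + l, Fin.append A B, Fin.append n m, ?_, ?_⟩
    · intro i
      refine Fin.addCases (fun i => ?_) (fun i => ?_) i
      · rw [Fin.append_left]; exact hA i
      · rw [Fin.append_right]; exact hB i
    · funext g
      rw [Fin.sum_univ_add]
      refine congrArg₂ (fun p q : ℂ => p + q) ?_ ?_
      · exact Finset.sum_congr rfl fun i _ => by rw [Fin.append_left, Fin.append_left]
      · exact Finset.sum_congr rfl fun i _ => by rw [Fin.append_right, Fin.append_right]
  · rintro x _ ⟨k, A, n, hA, rfl⟩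
    refine ⟨k, A, fun i => -n i, hA, ?_⟩
    funext g
    show -_ = _
    rw [← Finset.sum_neg_distrib]
    exact Finset.sum_congr rfl fun i _ => by push_cast; ring

/-- A class operator acts on an irreducible character by a scalar. -/
theorem clOp_irr [Fintype G] {m : ℕ} {s : Fin m → G} (hs : ConjFam s) {d : ℕ}
    (ρ : G →* Matrix (Fin d) (Fin d) ℂ) (hρ : IsIrr ρ) :
    clOp s (fun g => (ρ g).trace) =
      fun g => ((∑ i, (ρ (s i)).trace) / (d : ℂ)) * (ρ g).trace := by
  obtain ⟨M, hM⟩ : ∃ M, M = ∑ i, ρ (s i) := ⟨_, rfl⟩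
  have hcomm : ∀ g, M * ρ g = ρ g * M := by
    intro g
    obtain ⟨e, he⟩ := hs g
    have h1 : ρ g * M * ρ g⁻¹ = M := by
      rw [hM, Finset.mul_sum, Finset.sum_mul]
      rw [← Equiv.sum_comp e (fun i => ρ (s i))]
      apply Finset.sum_congr rfl
      intro i _
      rw [← map_mul, ← map_mul, he]
    have h2 : ρ g⁻¹ * ρ g = 1 := by rw [← map_mul, inv_mul_cancel, map_one]
    calc M * ρ g = ρ g * M * ρ g⁻¹ * ρ g := by rw [h1]
      _ = ρ g * M * (ρ g⁻¹ * ρ g) := by rw [mul_assoc]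
      _ = ρ g * M := by rw [h2, mul_one]
  have hsc := scalar_of_comm ρ hρ M hcomm
  have htr : M.trace = ∑ i, (ρ (s i)).trace := by rw [hM, Matrix.trace_sum]
  funext g
  show ∑ i, (ρ (s i * g)).trace = _
  have h3 : ∑ i, (ρ (s i * g)).trace = (M * ρ g).trace := by
    rw [hM, Finset.sum_mul, Matrix.trace_sum]
    exact Finset.sum_congr rfl fun i _ => by rw [map_mul]
  rw [h3, ← htr]
  conv_lhs => rw [hsc]
  rw [Matrix.smul_mul, one_mul, Matrix.trace_smul, smul_eq_mul]

/-- Decomposition of a virtual character into eigenfunctions of a class operator. -/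
theorem vc_comp [Fintype G] {m : ℕ} {s : Fin m → G} (hs : ConjFam s) {u : G → ℂ} (hu : u ∈ VC G) :
    ∃ (C : Finset ℂ) (w : ℂ → G → ℂ),
      (∀ c ∈ C, w c ∈ VC G ∧ clOp s (w c) = fun g => c * w c g) ∧
      u = fun g => ∑ c ∈ C, w c g := by
  classical
  obtain ⟨k, a, n, ha, hu'⟩ := vc_irr_comb hu
  obtain ⟨c, hc⟩ : ∃ c : Fin k → ℂ, c = fun i => (∑ j, ((a i).2 (s j)).trace) / ((a i).1 : ℂ) :=
    ⟨_, rfl⟩
  have hcl : ∀ i g, ∑ j, ((a i).2 (s j * g)).trace = c i * ((a i).2 g).trace := by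
    intro i g
    have h := congrFun (clOp_irr hs (a i).2 (ha i)) g
    rw [hc]
    exact h
  refine ⟨Finset.univ.image c, fun z g => ∑ i ∈ Finset.univ.filter (fun i => c i = z),
    (n i : ℂ) * ((a i).2 g).trace, ?_, ?_⟩
  · intro z _
    constructor
    · have h1 : (fun g => ∑ i ∈ Finset.univ.filter (fun i => c i = z),
          (n i : ℂ) * ((a i).2 g).trace) =
          ∑ i ∈ Finset.univ.filter (fun i => c i = z), (n i) • fun g => ((a i).2 g).trace := by
        funext g
        rw [Finset.sum_apply]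
        exact Finset.sum_congr rfl fun i _ => by simp
      show (fun g => ∑ i ∈ Finset.univ.filter (fun i => c i = z),
          (n i : ℂ) * ((a i).2 g).trace) ∈ VC G
      rw [h1]
      apply AddSubgroup.sum_mem
      intro i _
      apply AddSubgroup.zsmul_mem
      exact AddSubgroup.subset_closure ⟨_, (a i).2, rfl⟩
    · funext g
      show ∑ j, ∑ i ∈ Finset.univ.filter (fun i => c i = z),
        (n i : ℂ) * ((a i).2 (s j * g)).trace = z * ∑ i ∈ Finset.univ.filter (fun i => c i = z),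
          (n i : ℂ) * ((a i).2 g).trace
      rw [Finset.sum_comm, Finset.mul_sum]
      apply Finset.sum_congr rfl
      intro i hi
      rw [← Finset.mul_sum, hcl, (Finset.mem_filter.1 hi).2]
      ring
  · rw [hu']
    funext g
    exact (Finset.sum_fiberwise_of_maps_to (fun i _ => Finset.mem_image_of_mem c
      (Finset.mem_univ i)) _).symm

end

end Pool.Agent.CMFn
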