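import Pool.Agent.CMFn.VC2

set_option linter.unusedSectionVars false

/-! Project CMFn, block C: orthogonality relations for matrix representations, characters of norm
one, completeness. -/

namespace Pool.Agent.CMFn

open Matrix

noncomputable section

variable {G : Type} [Group G]

namespace VC3X

section schur

variable {ι κ : Type} [Fintype ι] [DecidableEq ι] [Fintype κ] [DecidableEq κ]

lemma exists_mulVec (v : ι → ℂ) (hv : v ≠ 0) (w : ι → ℂ) : ∃ B : Matrix ι ι ℂ, B *ᵥ v = w := by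
  obtain ⟨i, hi⟩ := Function.ne_iff.1 hv
  refine ⟨Matrix.of fun a b => w a * (Pi.single i (v i)⁻¹ : ι → ℂ) b, ?_⟩
  funext a
  have e : ∀ b, (Matrix.of fun a b => w a * (Pi.single i (v i)⁻¹ : ι → ℂ) b) a b * v b =
      if b = i then w a else 0 := by
    intro b
    by_cases hb : b = i
    · subst hb
      rw [if_pos rfl, Matrix.of_apply, Pi.single_eq_same, mul_assoc, inv_mul_cancel₀ hi, mul_one]
    · rw [if_neg hb, Matrix.of_apply, Pi.single_eq_of_ne hb, mul_zero, zero_mul]
  rw [Matrix.mulVec, dotProduct, Finset.sum_congr rfl fun b _ => e b,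
    Finset.sum_ite_eq' Finset.univ i, if_pos (Finset.mem_univ _)]

lemma inj_of_int (ρ : G →* Matrix ι ι ℂ) (σ : G →* Matrix κ κ ℂ) (hσ : IsIrr σ)
    (P : Matrix ι κ ℂ) (hP : ∀ g, ρ g * P = P * σ g) (h0 : P ≠ 0) (v : κ → ℂ)
    (hv : P *ᵥ v = 0) : v = 0 := by
  by_contra hne
  apply h0
  have h1 : ∀ B : Matrix κ κ ℂ, P *ᵥ (B *ᵥ v) = 0 := by
    intro B
    have hB : B ∈ Submodule.span ℂ (Set.range σ) := by rw [hσ.2]; trivial
    induction hB using Submodule.span_induction with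
    | mem x hx =>
      obtain ⟨g, rfl⟩ := hx
      rw [Matrix.mulVec_mulVec, ← hP g, ← Matrix.mulVec_mulVec, hv, Matrix.mulVec_zero]
    | zero => rw [Matrix.zero_mulVec, Matrix.mulVec_zero]
    | add x y _ _ hx hy => rw [Matrix.add_mulVec, Matrix.mulVec_add, hx, hy, add_zero]
    | smul a x _ hx => rw [Matrix.smul_mulVec, Matrix.mulVec_smul, hx, smul_zero]
  ext i j
  obtain ⟨B, hB⟩ := exists_mulVec v hne (Pi.single j 1)
  have h2 := h1 B
  rw [hB] at h2
  have h3 := congrFun h2 i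
  rw [Matrix.mulVec_single_one] at h3
  exact h3

lemma inj_of_int' (ρ : G →* Matrix ι ι ℂ) (σ : G →* Matrix κ κ ℂ) (hρ : IsIrr ρ)
    (P : Matrix ι κ ℂ) (hP : ∀ g, ρ g * P = P * σ g) (h0 : P ≠ 0) (v : ι → ℂ)
    (hv : Pᵀ *ᵥ v = 0) : v = 0 := by
  by_contra hne
  apply h0
  have h1 : ∀ B : Matrix ι ι ℂ, Pᵀ *ᵥ (Bᵀ *ᵥ v) = 0 := by
    intro B
    have hB : B ∈ Submodule.span ℂ (Set.range ρ) := by rw [hρ.2]; trivial
    induction hB using Submodule.span_induction with
    | mem x hx =>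
      obtain ⟨g, rfl⟩ := hx
      rw [Matrix.mulVec_mulVec, ← Matrix.transpose_mul, hP g, Matrix.transpose_mul,
        ← Matrix.mulVec_mulVec, hv, Matrix.mulVec_zero]
    | zero => rw [Matrix.transpose_zero, Matrix.zero_mulVec, Matrix.mulVec_zero]
    | add x y _ _ hx hy =>
      rw [Matrix.transpose_add, Matrix.add_mulVec, Matrix.mulVec_add, hx, hy, add_zero]
    | smul a x _ hx =>
      rw [Matrix.transpose_smul, Matrix.smul_mulVec, Matrix.mulVec_smul, hx, smul_zero]
  ext i j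
  obtain ⟨B, hB⟩ := exists_mulVec v hne (Pi.single i 1)
  have h2 := h1 Bᵀ
  rw [Matrix.transpose_transpose, hB] at h2
  have h3 := congrFun h2 j
  rw [Matrix.mulVec_single_one] at h3
  exact h3

/-- Schur: a non-zero intertwiner between irreducible representations gives equal characters. -/
lemma int_zero_or (ρ : G →* Matrix ι ι ℂ) (σ : G →* Matrix κ κ ℂ) (hρ : IsIrr ρ) (hσ : IsIrr σ)
    (P : Matrix ι κ ℂ) (hP : ∀ g, ρ g * P = P * σ g) :
    P = 0 ∨ ∀ g, (ρ g).trace = (σ g).trace := by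
  by_cases h0 : P = 0
  · exact Or.inl h0
  · right
    have i1 : Function.Injective (Matrix.toLin' P) := by
      rw [← LinearMap.ker_eq_bot, LinearMap.ker_eq_bot']
      intro v hv
      exact inj_of_int ρ σ hσ P hP h0 v (by rw [← Matrix.toLin'_apply]; exact hv)
    have i2 : Function.Injective (Matrix.toLin' Pᵀ) := by
      rw [← LinearMap.ker_eq_bot, LinearMap.ker_eq_bot']
      intro v hv
      exact inj_of_int' ρ σ hρ P hP h0 v (by rw [← Matrix.toLin'_apply]; exact hv)
    have d1 := LinearMap.finrank_le_finrank_of_injective i1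
    have d2 := LinearMap.finrank_le_finrank_of_injective i2
    have hd := le_antisymm d1 d2
    let e := LinearEquiv.ofInjectiveOfFinrankEq (Matrix.toLin' P) i1 hd
    have hePt : (e : (κ → ℂ) →ₗ[ℂ] (ι → ℂ)) = Matrix.toLin' P := by
      ext1 v
      rfl
    have hP' : P = LinearMap.toMatrix' (e : (κ → ℂ) →ₗ[ℂ] (ι → ℂ)) := by
      rw [hePt, LinearMap.toMatrix'_toLin']
    set Q : Matrix κ ι ℂ := LinearMap.toMatrix' (e.symm : (ι → ℂ) →ₗ[ℂ] (κ → ℂ)) with hQ
    have hPQ : P * Q = 1 := by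
      rw [hP', hQ, ← LinearMap.toMatrix'_comp]
      have : (e : (κ → ℂ) →ₗ[ℂ] (ι → ℂ)).comp (e.symm : (ι → ℂ) →ₗ[ℂ] (κ → ℂ)) =
          LinearMap.id := by
        ext v : 1
        simp
      rw [this, LinearMap.toMatrix'_id]
    have hQP : Q * P = 1 := by
      rw [hP', hQ, ← LinearMap.toMatrix'_comp]
      have : (e.symm : (ι → ℂ) →ₗ[ℂ] (κ → ℂ)).comp (e : (κ → ℂ) →ₗ[ℂ] (ι → ℂ)) =
          LinearMap.id := by
        ext v : 1
        simp
      rw [this, LinearMap.toMatrix'_id]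
    intro g
    calc (ρ g).trace = (ρ g * (P * Q)).trace := by rw [hPQ, mul_one]
      _ = ((ρ g * P) * Q).trace := by rw [Matrix.mul_assoc]
      _ = ((P * σ g) * Q).trace := by rw [hP]
      _ = (Q * (P * σ g)).trace := Matrix.trace_mul_comm _ _
      _ = (σ g).trace := by rw [← Matrix.mul_assoc, hQP, Matrix.one_mul]

variable [Fintype G]

/-- The averaged intertwiner. -/
lemma avg_int (ρ : G →* Matrix ι ι ℂ) (σ : G →* Matrix κ κ ℂ) (M : Matrix ι κ ℂ) (h : G) :
    ρ h * (∑ g : G, ρ g * M * σ g⁻¹) = (∑ g : G, ρ g * M * σ g⁻¹) * σ h := by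
  rw [Matrix.mul_sum, Matrix.sum_mul]
  refine Fintype.sum_equiv (Equiv.mulLeft h) _ _ fun g => ?_
  show ρ h * (ρ g * M * σ g⁻¹) = ρ (h * g) * M * σ (h * g)⁻¹ * σ h
  have e1 : σ (h * g)⁻¹ * σ h = σ g⁻¹ := by
    rw [← map_mul]
    congr 1
    group
  rw [Matrix.mul_assoc _ (σ (h * g)⁻¹), e1, map_mul, Matrix.mul_assoc (ρ h), Matrix.mul_assoc (ρ h)]

lemma avg_apply (ρ : G →* Matrix ι ι ℂ) (σ : G →* Matrix κ κ ℂ) (p q : ι) (r s : κ) :
    ∑ g : G, ρ g p q * σ g⁻¹ r s = (∑ g : G, ρ g * Matrix.single q r (1 : ℂ) * σ g⁻¹) p s := by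
  rw [Matrix.sum_apply]
  refine Finset.sum_congr rfl fun g _ => ?_
  rw [Matrix.mul_apply]
  have e : ∀ j, (ρ g * Matrix.single q r (1 : ℂ)) p j * σ g⁻¹ j s =
      if j = r then ρ g p q * σ g⁻¹ r s else 0 := by
    intro j
    by_cases hj : j = r
    · subst hj
      rw [if_pos rfl, Matrix.mul_single_apply_same, mul_one]
    · rw [if_neg hj, Matrix.mul_single_apply_of_ne _ _ _ _ _ hj, zero_mul]
  rw [Finset.sum_congr rfl fun j _ => e j, Finset.sum_ite_eq' Finset.univ r,
    if_pos (Finset.mem_univ _)]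

lemma schur_ne (ρ : G →* Matrix ι ι ℂ) (σ : G →* Matrix κ κ ℂ) (hρ : IsIrr ρ) (hσ : IsIrr σ)
    (hne : ∃ g, (ρ g).trace ≠ (σ g).trace) (p q : ι) (r s : κ) :
    ∑ g : G, ρ g p q * σ g⁻¹ r s = 0 := by
  rw [avg_apply]
  rcases int_zero_or ρ σ hρ hσ _ (avg_int ρ σ (Matrix.single q r (1 : ℂ))) with h | h
  · rw [h]; rfl
  · obtain ⟨g, hg⟩ := hne
    exact absurd (h g) hg

lemma schur_eq (ρ : G →* Matrix ι ι ℂ) (hρ : IsIrr ρ) (p q r s : ι) :
    ∑ g : G, ρ g p q * ρ g⁻¹ r s =
      if p = s ∧ q = r then (Fintype.card G : ℂ) / Fintype.card ι else 0 := by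
  have hne : Nonempty ι := hρ.1
  have hc : (Fintype.card ι : ℂ) ≠ 0 := by
    exact_mod_cast Fintype.card_ne_zero
  rw [avg_apply]
  set P := ∑ g : G, ρ g * Matrix.single q r (1 : ℂ) * ρ g⁻¹ with hP
  have hcomm : ∀ B : Matrix ι ι ℂ, Commute B P := by
    intro B
    have hB : B ∈ Submodule.span ℂ (Set.range ρ) := by rw [hρ.2]; trivial
    induction hB using Submodule.span_induction with
    | mem x hx =>
      obtain ⟨g, rfl⟩ := hx
      exact avg_int ρ ρ _ g
    | zero => exact Commute.zero_left _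
    | add x y _ _ hx hy => exact hx.add_left hy
    | smul a x _ hx => exact hx.smul_left a
  obtain ⟨c, hcP⟩ : ∃ c : ℂ, P = Matrix.scalar ι c := by
    have h1 := Matrix.mem_range_scalar_of_commute_single (M := P) (fun i j _ => (hcomm _))
    obtain ⟨c, hc⟩ := h1
    exact ⟨c, hc.symm⟩
  have htr : P.trace = if q = r then (Fintype.card G : ℂ) else 0 := by
    rw [hP, Matrix.trace_sum]
    have e : ∀ g : G, (ρ g * Matrix.single q r (1 : ℂ) * ρ g⁻¹).trace = if q = r then 1 else 0 := by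
      intro g
      rw [Matrix.trace_mul_comm, ← Matrix.mul_assoc, ← map_mul, inv_mul_cancel, map_one,
        Matrix.one_mul]
      by_cases hqr : q = r
      · subst hqr
        rw [if_pos rfl, Matrix.trace_single_eq_same]
      · rw [if_neg hqr, Matrix.trace_single_eq_of_ne _ _ _ hqr]
    rw [Finset.sum_congr rfl fun g _ => e g]
    by_cases hqr : q = r
    · simp only [if_pos hqr]
      simp
    · simp only [if_neg hqr]
      simp
  have htr2 : P.trace = Fintype.card ι * c := by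
    rw [hcP]
    simp [Matrix.trace]
  have hc2 : c = if q = r then (Fintype.card G : ℂ) / Fintype.card ι else 0 := by
    have h3 : (Fintype.card ι : ℂ) * c = if q = r then (Fintype.card G : ℂ) else 0 := by
      rw [← htr2, htr]
    by_cases hqr : q = r
    · rw [if_pos hqr] at h3 ⊢
      rw [eq_div_iff hc, mul_comm, h3]
    · rw [if_neg hqr] at h3 ⊢
      exact (mul_eq_zero.1 h3).resolve_left hc
  rw [hcP]
  by_cases hps : p = s
  · subst hps
    rw [Matrix.scalar_apply, Matrix.diagonal_apply_eq, hc2]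
    simp
  · rw [Matrix.scalar_apply, Matrix.diagonal_apply_ne _ hps, if_neg (fun h => hps h.1)]

lemma tr_eq (ρ : G →* Matrix ι ι ℂ) (σ : G →* Matrix κ κ ℂ) :
    ∑ g : G, (ρ g).trace * (σ g⁻¹).trace =
      ∑ p : ι, ∑ r : κ, ∑ g : G, ρ g p p * σ g⁻¹ r r := by
  have e : ∀ g : G, (ρ g).trace * (σ g⁻¹).trace = ∑ p : ι, ∑ r : κ, ρ g p p * σ g⁻¹ r r := by
    intro g
    rw [Matrix.trace, Matrix.trace, Finset.sum_mul_sum]
    rfl
  rw [Finset.sum_congr rfl fun g _ => e g, Finset.sum_comm]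
  refine Finset.sum_congr rfl fun p _ => ?_
  rw [Finset.sum_comm]

lemma orth_ne (ρ : G →* Matrix ι ι ℂ) (σ : G →* Matrix κ κ ℂ) (hρ : IsIrr ρ) (hσ : IsIrr σ)
    (hne : ∃ g, (ρ g).trace ≠ (σ g).trace) : ∑ g : G, (ρ g).trace * (σ g⁻¹).trace = 0 := by
  rw [tr_eq]
  refine Finset.sum_eq_zero fun p _ => Finset.sum_eq_zero fun r _ => ?_
  exact schur_ne ρ σ hρ hσ hne p p r r

lemma orth_self (ρ : G →* Matrix ι ι ℂ) (hρ : IsIrr ρ) :
    ∑ g : G, (ρ g).trace * (ρ g⁻¹).trace = Fintype.card G := by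
  have hne : Nonempty ι := hρ.1
  have hc : (Fintype.card ι : ℂ) ≠ 0 := by
    exact_mod_cast Fintype.card_ne_zero
  rw [tr_eq]
  have e : ∀ p : ι, ∑ r : ι, ∑ g : G, ρ g p p * ρ g⁻¹ r r =
      (Fintype.card G : ℂ) / Fintype.card ι := by
    intro p
    have e2 : ∀ r : ι, ∑ g : G, ρ g p p * ρ g⁻¹ r r =
        if r = p then (Fintype.card G : ℂ) / Fintype.card ι else 0 := by
      intro r
      rw [schur_eq ρ hρ]
      by_cases h : r = p
      · subst h; simp
      · rw [if_neg h, if_neg (fun h' => h h'.1.symm)]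
    rw [Finset.sum_congr rfl fun r _ => e2 r, Finset.sum_ite_eq' Finset.univ p,
      if_pos (Finset.mem_univ _)]
  rw [Finset.sum_congr rfl fun p _ => e p, Finset.sum_const, Finset.card_univ, nsmul_eq_mul,
    mul_div_cancel₀ _ hc]

end schur

end VC3X

open VC3X

/-- Orthogonality relations, for two irreducible matrix representations. -/
theorem irr_orth [Fintype G] (a b : MRep G) (ha : IsIrr a.2) (hb : IsIrr b.2) :
    (∑ g : G, (a.2 g).trace * (b.2 g⁻¹).trace = Fintype.card G ∧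
      ∀ g, (a.2 g).trace = (b.2 g).trace) ∨
    (∑ g : G, (a.2 g).trace * (b.2 g⁻¹).trace = 0 ∧ ∃ g, (a.2 g).trace ≠ (b.2 g).trace) := by
  by_cases h : ∀ g, (a.2 g).trace = (b.2 g).trace
  · left
    refine ⟨?_, h⟩
    rw [← orth_self a.2 ha]
    exact Finset.sum_congr rfl fun g _ => by rw [h g⁻¹]
  · right
    push Not at h
    exact ⟨orth_ne a.2 b.2 ha hb h, h⟩

/-- A virtual character of norm one and positive degree is an irreducible character. -/
theorem vc_irr [Fintype G] {u : G → ℂ} (hu : u ∈ VC G) {n : ℕ} (hn : 0 < n) (h1 : u 1 = n)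
    (h2 : ∑ g : G, u g * u g⁻¹ = Fintype.card G) :
    ∃ ρ : G →* Matrix (Fin n) (Fin n) ℂ, IsIrr ρ ∧ ∀ g, (ρ g).trace = u g := by
  classical
  obtain ⟨k, a, m, ha, rfl⟩ := vc_irr_comb hu
  have hcG : (Fintype.card G : ℂ) ≠ 0 := by exact_mod_cast Fintype.card_ne_zero
  -- characters
  set X : Fin k → G → ℂ := fun i g => ((a i).2 g).trace with hX
  set S : Finset (G → ℂ) := Finset.univ.image X with hS
  set N : (G → ℂ) → ℤ := fun f => ∑ i ∈ Finset.univ.filter (fun i => X i = f), m i with hN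
  have hu' : ∀ g, ∑ i, (m i : ℂ) * ((a i).2 g).trace = ∑ f ∈ S, (N f : ℂ) * f g := by
    intro g
    rw [← Finset.sum_fiberwise_of_maps_to (s := Finset.univ) (t := S) (g := X)
      (fun i _ => Finset.mem_image_of_mem _ (Finset.mem_univ _))]
    refine Finset.sum_congr rfl fun f _ => ?_
    rw [hN]
    push_cast
    rw [Finset.sum_mul]
    refine Finset.sum_congr rfl fun i hi => ?_
    rw [← (Finset.mem_filter.1 hi).2]
  have hor : ∀ f ∈ S, ∀ f' ∈ S, ∑ g : G, f g * f' g⁻¹ =
      if f = f' then (Fintype.card G : ℂ) else 0 := by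
    intro f hf f' hf'
    obtain ⟨i, -, rfl⟩ := Finset.mem_image.1 hf
    obtain ⟨j, -, rfl⟩ := Finset.mem_image.1 hf'
    rcases irr_orth (a i) (a j) (ha i) (ha j) with ⟨h, h'⟩ | ⟨h, h'⟩
    · rw [if_pos (funext h')]
      exact h
    · rw [if_neg (fun hc => ?_)]
      · exact h
      · obtain ⟨g, hg⟩ := h'
        exact hg (congrFun hc g)
  have hsq : ∑ f ∈ S, (N f) ^ 2 = 1 := by
    have h3 : (∑ f ∈ S, (N f : ℂ) ^ 2) * Fintype.card G = 1 * Fintype.card G := by
      rw [one_mul]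
      conv_rhs => rw [← h2]
      have e : ∀ g : G, (∑ i, (m i : ℂ) * ((a i).2 g).trace) *
          (∑ i, (m i : ℂ) * ((a i).2 g⁻¹).trace) =
          ∑ f ∈ S, ∑ f' ∈ S, ((N f : ℂ) * N f') * (f g * f' g⁻¹) := by
        intro g
        rw [hu' g, hu' g⁻¹, Finset.sum_mul_sum]
        refine Finset.sum_congr rfl fun f _ => Finset.sum_congr rfl fun f' _ => ?_
        ring
      beta_reduce
      rw [Finset.sum_congr rfl fun g _ => e g, Finset.sum_comm, Finset.sum_mul]
      refine Finset.sum_congr rfl fun f hf => ?_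
      rw [Finset.sum_comm (s := Finset.univ) (t := S)]
      have e2 : ∀ f' ∈ S, ∑ g : G, ((N f : ℂ) * N f') * (f g * f' g⁻¹) =
          if f' = f then (N f : ℂ) ^ 2 * Fintype.card G else 0 := by
        intro f' hf'
        rw [← Finset.mul_sum, hor f hf f' hf']
        by_cases h : f = f'
        · subst h
          rw [if_pos rfl, if_pos rfl]
          ring
        · rw [if_neg h, if_neg (fun h' => h h'.symm), mul_zero]
      rw [Finset.sum_congr rfl e2, Finset.sum_ite_eq' S f, if_pos hf]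
    have h4 := mul_right_cancel₀ hcG h3
    exact_mod_cast h4
  -- exactly one
  obtain ⟨f, hf, hf0⟩ : ∃ f ∈ S, N f ≠ 0 := by
    by_contra hc
    push Not at hc
    rw [Finset.sum_eq_zero (fun f hf => by rw [hc f hf]; rfl)] at hsq
    exact zero_ne_one hsq
  have hsplit := Finset.add_sum_erase S (fun f => (N f) ^ 2) hf
  rw [hsq] at hsplit
  have hpos : 0 < (N f) ^ 2 := by positivity
  have hrest : 0 ≤ ∑ x ∈ S.erase f, (N x) ^ 2 := Finset.sum_nonneg fun x _ => sq_nonneg _
  have hf1 : (N f) ^ 2 = 1 := by omega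
  have hrest0 : ∑ x ∈ S.erase f, (N x) ^ 2 = 0 := by omega
  have hz : ∀ x ∈ S, x ≠ f → N x = 0 := by
    intro x hx hxf
    have := (Finset.sum_eq_zero_iff_of_nonneg (fun x _ => sq_nonneg (N x))).1 hrest0 x
      (Finset.mem_erase.2 ⟨hxf, hx⟩)
    exact pow_eq_zero_iff (two_ne_zero) |>.1 this
  have hu2 : ∀ g, ∑ i, (m i : ℂ) * ((a i).2 g).trace = (N f : ℂ) * f g := by
    intro g
    rw [hu' g]
    refine Finset.sum_eq_single_of_mem f hf fun x hx hxf => ?_
    rw [hz x hx hxf, Int.cast_zero, zero_mul]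
  obtain ⟨i, -, hi⟩ := Finset.mem_image.1 hf
  have hfi : ∀ g, f g = ((a i).2 g).trace := fun g => by rw [← hi]
  have hf1' : f 1 = (a i).1 := by
    rw [hfi, map_one, Matrix.trace_one, Fintype.card_fin]
  have hmain : (N f : ℂ) * ((a i).1 : ℂ) = n := by
    have h := hu2 1
    rw [hf1'] at h
    rw [← h]
    exact h1
  have hmainZ : N f * ((a i).1 : ℤ) = n := by exact_mod_cast hmain
  have hN1 : N f = 1 := by
    rcases sq_eq_one_iff.1 hf1 with h | h
    · exact h
    · exfalso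
      rw [h] at hmainZ
      omega
  have hdn : (a i).1 = n := by
    rw [hN1, one_mul] at hmainZ
    exact_mod_cast hmainZ
  have hfin : ∀ g, ((a i).2 g).trace = ∑ i, (m i : ℂ) * ((a i).2 g).trace := by
    intro g
    rw [hu2 g, hN1, Int.cast_one, one_mul, hfi g]
  generalize hai : a i = ai at *
  obtain ⟨d, ρ⟩ := ai
  subst hdn
  refine ⟨ρ, ?_, hfin⟩
  have := ha i
  rw [hai] at this
  exact this

/-- Irreducible representations with pairwise different characters and `Σ n_i² = |G|` are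
complete. -/
theorem irr_complete [Fintype G] {k : ℕ} (a : Fin k → MRep G) (ha : ∀ i, IsIrr (a i).2)
    (hne : ∀ i j, i ≠ j → ∃ g, ((a i).2 g).trace ≠ ((a j).2 g).trace)
    (hsum : ∑ i, (a i).1 ^ 2 = Fintype.card G) (b : MRep G) (hb : IsIrr b.2) :
    ∃ i, ∀ g, (b.2 g).trace = ((a i).2 g).trace := by
  classical
  by_contra hc
  push Not at hc
  have hcG : (Fintype.card G : ℂ) ≠ 0 := by exact_mod_cast Fintype.card_ne_zero
  let c : Option (Fin k) → MRep G := fun o => o.elim b a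
  have hirr : ∀ o, IsIrr (c o).2 := by
    intro o
    cases o with
    | none => exact hb
    | some i => exact ha i
  have hdiff : ∀ o o', o ≠ o' → ∃ g, ((c o).2 g).trace ≠ ((c o').2 g).trace := by
    intro o o' h
    cases o with
    | none =>
      cases o' with
      | none => exact absurd rfl h
      | some j => exact hc j
    | some i =>
      cases o' with
      | none =>
        obtain ⟨g, hg⟩ := hc i
        exact ⟨g, fun h => hg h.symm⟩
      | some j => exact hne i j (fun hij => h (congrArg some hij))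
  let w : (Σ o : Option (Fin k), Fin (c o).1 × Fin (c o).1) → G → ℂ :=
    fun x g => (c x.1).2 g x.2.1 x.2.2
  have hli : LinearIndependent ℂ w := by
    rw [Fintype.linearIndependent_iff]
    intro z hz
    rintro ⟨o, p, q⟩
    have h1 : ∑ g : G, (∑ x, z x • w x) g * (c o).2 g⁻¹ q p = 0 := by
      rw [hz]
      simp
    have h2 : ∑ g : G, (∑ x, z x • w x) g * (c o).2 g⁻¹ q p =
        ∑ x : (Σ o : Option (Fin k), Fin (c o).1 × Fin (c o).1),
          z x * ∑ g : G, w x g * (c o).2 g⁻¹ q p := by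
      have e : ∀ g : G, (∑ x, z x • w x) g * (c o).2 g⁻¹ q p =
          ∑ x : (Σ o : Option (Fin k), Fin (c o).1 × Fin (c o).1),
            z x * (w x g * (c o).2 g⁻¹ q p) := by
        intro g
        rw [Finset.sum_apply, Finset.sum_mul]
        refine Finset.sum_congr rfl fun x _ => ?_
        rw [Pi.smul_apply, smul_eq_mul, mul_assoc]
      rw [Finset.sum_congr rfl fun g _ => e g, Finset.sum_comm]
      refine Finset.sum_congr rfl fun x _ => ?_
      rw [Finset.mul_sum]
    have h3 : ∀ x : (Σ o : Option (Fin k), Fin (c o).1 × Fin (c o).1), x ≠ ⟨o, p, q⟩ →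
        ∑ g : G, w x g * (c o).2 g⁻¹ q p = 0 := by
      rintro ⟨o', p', q'⟩ hx
      by_cases ho : o' = o
      · subst ho
        show ∑ g : G, (c o').2 g p' q' * (c o').2 g⁻¹ q p = 0
        rw [schur_eq (c o').2 (hirr o'), if_neg]
        rintro ⟨h, h'⟩
        exact hx (by rw [h, h'])
      · exact schur_ne (c o').2 (c o).2 (hirr o') (hirr o) (hdiff o' o ho) p' q' q p
    have h4 : ∑ g : G, w ⟨o, p, q⟩ g * (c o).2 g⁻¹ q p =
        (Fintype.card G : ℂ) / Fintype.card (Fin (c o).1) := by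
      show ∑ g : G, (c o).2 g p q * (c o).2 g⁻¹ q p = _
      rw [schur_eq (c o).2 (hirr o), if_pos ⟨rfl, rfl⟩]
    have hne' : Nonempty (Fin (c o).1) := (hirr o).1
    have hd : (Fintype.card (Fin (c o).1) : ℂ) ≠ 0 := by
      exact_mod_cast Fintype.card_ne_zero
    rw [h2, Finset.sum_eq_single_of_mem _ (Finset.mem_univ ⟨o, p, q⟩)
      (fun x _ hx => by rw [h3 x hx, mul_zero]), h4] at h1
    exact (mul_eq_zero.1 h1).resolve_right (div_ne_zero hcG hd)
  have hcard := hli.fintype_card_le_finrank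
  rw [Module.finrank_fintype_fun_eq_card, Fintype.card_sigma, Fintype.sum_option] at hcard
  have e1 : ∀ i : Fin k, Fintype.card (Fin (c (some i)).1 × Fin (c (some i)).1) = (a i).1 ^ 2 := by
    intro i
    rw [Fintype.card_prod, Fintype.card_fin, sq]
    rfl
  rw [Finset.sum_congr rfl fun i _ => e1 i, hsum] at hcard
  have hb1 : Nonempty (Fin b.1) := hb.1
  have hpos : 0 < Fintype.card (Fin (c none).1 × Fin (c none).1) :=
    Fintype.card_pos_iff.2 ⟨(hb1.some, hb1.some)⟩
  omega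

end

end Pool.Agent.CMFn
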