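import Pool.Agent.CMFn.VC1
import Pool.Agent.CMFn.VC2
import Pool.Agent.CMFn.VC3

/-! Project CMFn, block C: soundness of class data (semantic layer).  helper62. -/

namespace Pool.Agent.CMFn

open Matrix

noncomputable section

variable {G : Type} [Group G]

/-- A finite family `s_0, …, s_{m-1}` and a table of class indices. -/
structure Op (G : Type) where
  m : ℕ
  s : ℕ → G
  k : ℕ → ℕ → ℕ

/-- Conjugacy. -/
def Cj (x y : G) : Prop := ∃ h : G, x = h * y * h⁻¹

lemma Cj.refl (x : G) : Cj x x := ⟨1, by simp⟩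

lemma Cj.trans {x y z : G} (h1 : Cj x y) (h2 : Cj y z) : Cj x z := by
  obtain ⟨a, rfl⟩ := h1
  obtain ⟨b, rfl⟩ := h2
  exact ⟨a * b, by group⟩

lemma Cj.symm {x y : G} (h1 : Cj x y) : Cj y x := by
  obtain ⟨a, rfl⟩ := h1
  exact ⟨a⁻¹, by group⟩

/-- The properties of an operator relative to representatives `g_0, …, g_{nc-1}`. -/
structure OpOK (nc : ℕ) (g : ℕ → G) (o : Op G) : Prop where
  conj : ConjFam (fun i : Fin o.m => o.s i)
  lt : ∀ i < o.m, ∀ j < nc, o.k i j < nc
  cj : ∀ i < o.m, ∀ j < nc, Cj (o.s i * g j) (g (o.k i j))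

/-- Class data with a valid measure. -/
structure ClsOK (nc : ℕ) (g : ℕ → G) (ν inv : ℕ → ℕ) (L : List (Op G)) : Prop where
  pos : 0 < nc
  g0 : g 0 = 1
  ne1 : ∀ j, 0 < j → j < nc → g j ≠ 1
  ν0 : ν 0 = 1
  ops : ∀ o ∈ L, OpOK nc g o
  gen : Subgroup.closure {x | ∃ o ∈ L, ∃ i < o.m, x = o.s i} = ⊤
  bal : ∀ o ∈ L, ∀ k < nc,
    ∑ j ∈ Finset.range nc, ν j * ((List.range o.m).map fun i => o.k i j).count k = o.m * ν k
  invLt : ∀ j < nc, inv j < nc
  invCj : ∀ j < nc, Cj (g j)⁻¹ (g (inv j))

section sums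

variable {nc : ℕ} {g : ℕ → G} {ν inv : ℕ → ℕ} {L : List (Op G)}

lemma cover_step (H : ClsOK nc g ν inv L) {o : Op G} (ho : o ∈ L) {i : ℕ} (hi : i < o.m) {z : G}
    (ih : ∃ j < nc, Cj z (g j)) : ∃ j < nc, Cj (o.s i * z) (g j) := by
  obtain ⟨j, hj, h, rfl⟩ := ih
  obtain ⟨e, he⟩ := (H.ops o ho).conj h⁻¹
  have h1 := he ⟨i, hi⟩
  simp only [inv_inv] at h1
  refine ⟨o.k (e ⟨i, hi⟩) j, (H.ops o ho).lt _ (e ⟨i, hi⟩).2 j hj, ?_⟩
  refine Cj.trans ⟨h, ?_⟩ ((H.ops o ho).cj _ (e ⟨i, hi⟩).2 j hj)
  rw [← h1]; group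

lemma cover [Finite G] (H : ClsOK nc g ν inv L) (x : G) : ∃ j < nc, Cj x (g j) := by
  have hx : x ∈ Subgroup.closure {x | ∃ o ∈ L, ∃ i < o.m, x = o.s i} := by
    rw [H.gen]; trivial
  induction hx using Subgroup.closure_induction_left with
  | one => exact ⟨0, H.pos, by rw [H.g0]; exact Cj.refl 1⟩
  | mul_left y hy z _ ih =>
    obtain ⟨o, ho, i, hi, rfl⟩ := hy
    exact cover_step H ho hi ih
  | inv_mul_cancel y hy z _ ih =>
    obtain ⟨o, ho, i, hi, rfl⟩ := hy
    have h1 : (o.s i)⁻¹ = (o.s i) ^ (orderOf (o.s i) - 1) := by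
      rw [inv_eq_iff_mul_eq_one, ← pow_succ', Nat.sub_add_cancel (orderOf_pos (o.s i)),
        pow_orderOf_eq_one]
    rw [h1]
    have h2 : ∀ n : ℕ, ∃ j < nc, Cj (o.s i ^ n * z) (g j) := by
      intro n
      induction n with
      | zero => simpa using ih
      | succ n ihn =>
        rw [pow_succ', mul_assoc]
        exact cover_step H ho hi ihn
    exact h2 _

lemma cls_apply {f : G → ℂ} (hf : ∀ x h, f (h * x * h⁻¹) = f x) {x y : G} (h : Cj x y) :
    f x = f y := by
  obtain ⟨a, rfl⟩ := h
  exact hf _ _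

/-- A function which is an average of its translates is invariant under these translates. -/
lemma harmonic [Fintype G] {m : ℕ} (s : ℕ → G) (W : G → ℂ)
    (hW : ∀ x, ∑ i ∈ Finset.range m, W (s i * x) = m * W x) (i : ℕ) (hi : i < m) (x : G) :
    W (s i * x) = W x := by
  classical
  have h0 : ∑ x : G, ∑ i ∈ Finset.range m, Complex.normSq (W (s i * x) - W x) = 0 := by
    have h1 : ∀ i, ∑ x : G, Complex.normSq (W (s i * x)) = ∑ x : G, Complex.normSq (W x) :=
      fun i => Fintype.sum_equiv (Equiv.mulLeft (s i)) _ _ (fun x => rfl)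
    have h2 : ∑ x : G, ∑ i ∈ Finset.range m, (W (s i * x) * (starRingEnd ℂ) (W x)).re
        = m * ∑ x : G, Complex.normSq (W x) := by
      rw [Finset.mul_sum]
      refine Finset.sum_congr rfl fun x _ => ?_
      rw [← Complex.re_sum, ← Finset.sum_mul, hW, mul_assoc, Complex.mul_conj]
      simp
    have h3 : ∀ x, ∀ i, Complex.normSq (W (s i * x) - W x) = Complex.normSq (W (s i * x)) +
        Complex.normSq (W x) - 2 * (W (s i * x) * (starRingEnd ℂ) (W x)).re := by
      intro x i
      rw [Complex.normSq_sub]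
    simp only [h3, Finset.sum_sub_distrib, Finset.sum_add_distrib, ← Finset.mul_sum]
    rw [h2, Finset.sum_comm]
    simp only [h1, Finset.sum_const, Finset.card_range, nsmul_eq_mul]
    rw [← Finset.mul_sum]
    ring
  have h4 := (Finset.sum_eq_zero_iff_of_nonneg (fun x _ => Finset.sum_nonneg
    (fun i _ => Complex.normSq_nonneg _))).1 h0 x (Finset.mem_univ x)
  have h5 := (Finset.sum_eq_zero_iff_of_nonneg (fun i _ => Complex.normSq_nonneg _)).1 h4 i
    (Finset.mem_range.2 hi)
  exact sub_eq_zero.1 (Complex.normSq_eq_zero.1 h5)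

lemma sum_count {m : ℕ} (k : ℕ → ℕ) {nc : ℕ} (hk : ∀ i < m, k i < nc) (f : ℕ → ℂ) :
    ∑ i ∈ Finset.range m, f (k i) =
      ∑ c ∈ Finset.range nc, (((List.range m).map k).count c : ℂ) * f c := by
  induction m with
  | zero => simp
  | succ m ih =>
    rw [Finset.sum_range_succ, ih (fun i hi => hk i (by omega)), List.range_succ]
    simp only [List.map_append, List.map_cons, List.map_nil, List.count_append,
      List.count_singleton, Nat.cast_add, add_mul, Finset.sum_add_distrib]
    congr 1
    rw [Finset.sum_eq_single (k m)]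
    · simp
    · intro b _ hb
      have : ¬ (k m = b) := fun h => hb h.symm
      simp [this]
    · intro h
      exact absurd (Finset.mem_range.2 (hk m (by omega))) h

/-- Sums over the group of class functions. -/
theorem sum_cls [Fintype G] (H : ClsOK nc g ν inv L) (f : G → ℂ)
    (hf : ∀ x h, f (h * x * h⁻¹) = f x) :
    ∑ x : G, f x = ∑ j ∈ Finset.range nc, (ν j : ℂ) * f (g j) := by
  classical
  have hG : (Fintype.card G : ℂ) ≠ 0 := by
    simp [Fintype.card_ne_zero]
  -- the weight
  set W : G → ℂ := fun x => ∑ j ∈ Finset.range nc, (ν j : ℂ) *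
    ((∑ h : G, if h * g j * h⁻¹ = x then (1 : ℂ) else 0) / Fintype.card G) with hWdef
  have hpair : ∀ F : G → ℂ, ∑ x : G, W x * F x = ∑ j ∈ Finset.range nc, (ν j : ℂ) *
      ((∑ h : G, F (h * g j * h⁻¹)) / Fintype.card G) := by
    intro F
    simp only [hWdef, Finset.sum_mul]
    rw [Finset.sum_comm]
    refine Finset.sum_congr rfl fun j _ => ?_
    simp only [mul_assoc, ← Finset.mul_sum]
    congr 1
    simp only [div_mul_eq_mul_div, Finset.sum_mul, ← Finset.sum_div, ite_mul, one_mul, zero_mul]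
    rw [Finset.sum_comm]
    simp
  -- class average
  have havg : ∀ F : G → ℂ, ∀ o ∈ L, ∑ x : G, W x * (∑ i ∈ Finset.range o.m, F (o.s i * x)) =
      o.m * ∑ x : G, W x * F x := by
    intro F o ho
    set A : G → ℂ := fun x => (∑ h : G, F (h * x * h⁻¹)) / Fintype.card G with hA
    have hAc : ∀ x h, A (h * x * h⁻¹) = A x := by
      intro x h
      simp only [hA]
      congr 1
      refine Fintype.sum_equiv (Equiv.mulRight h) _ _ (fun t => ?_)
      simp only [Equiv.coe_mulRight]
      congr 1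
      group
    have h1 : ∀ x, (∑ h : G, ∑ i ∈ Finset.range o.m, F (o.s i * (h * x * h⁻¹))) / Fintype.card G =
        ∑ i ∈ Finset.range o.m, A (o.s i * x) := by
      intro x
      simp only [hA]
      rw [← Finset.sum_div, Finset.sum_comm' (t' := Finset.univ) (s' := fun _ => Finset.range o.m)
        (by simp)]
      congr 1
      refine Finset.sum_congr rfl fun h _ => ?_
      obtain ⟨e, he⟩ := (H.ops o ho).conj h
      rw [← Fin.sum_univ_eq_sum_range (fun i => F (o.s i * (h * x * h⁻¹))) o.m,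
        ← Fin.sum_univ_eq_sum_range (fun i => F (h * (o.s i * x) * h⁻¹)) o.m]
      symm
      refine Fintype.sum_equiv e _ _ (fun i => ?_)
      have := he i
      simp only at this
      rw [← this]
      congr 1
      group
    rw [hpair, hpair]
    simp only [h1]
    have h2 : ∀ j ∈ Finset.range nc, ∑ i ∈ Finset.range o.m, A (o.s i * g j) =
        ∑ c ∈ Finset.range nc, ((((List.range o.m).map fun i => o.k i j).count c : ℕ) : ℂ) *
          A (g c) := by
      intro j hj
      have hj' := Finset.mem_range.1 hj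
      rw [← sum_count (fun i => o.k i j) (fun i hi => (H.ops o ho).lt i hi j hj')
        (fun c => A (g c))]
      refine Finset.sum_congr rfl fun i hi => ?_
      exact cls_apply hAc ((H.ops o ho).cj i (Finset.mem_range.1 hi) j hj')
    rw [Finset.sum_congr rfl (fun j hj => by rw [h2 j hj])]
    simp only [Finset.mul_sum]
    rw [Finset.sum_comm]
    refine Finset.sum_congr rfl fun c hc => ?_
    have h3 := H.bal o ho c (Finset.mem_range.1 hc)
    have h4 : (∑ j ∈ Finset.range nc, (ν j : ℂ) *
        (((List.range o.m).map fun i => o.k i j).count c : ℕ)) = (o.m : ℂ) * ν c := by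
      exact_mod_cast h3
    rw [← mul_assoc, ← h4, Finset.sum_mul]
    refine Finset.sum_congr rfl fun j _ => ?_
    ring
  -- harmonicity
  have hharm : ∀ o ∈ L, ∀ i < o.m, ∀ x, W ((o.s i)⁻¹ * x) = W x := by
    intro o ho
    refine fun i hi x => harmonic (m := o.m) (fun i => (o.s i)⁻¹) W (fun y => ?_) i hi x
    have h5 := havg (fun x => if x = y then 1 else 0) o ho
    simp only [mul_ite, mul_one, mul_zero, Finset.sum_ite_eq', Finset.mem_univ, if_true] at h5
    rw [← h5]
    have h6 : ∀ x, W x * ∑ i ∈ Finset.range o.m, (if o.s i * x = y then (1 : ℂ) else 0) =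
        ∑ i ∈ Finset.range o.m, (if x = (o.s i)⁻¹ * y then W x else 0) := by
      intro x
      rw [Finset.mul_sum]
      refine Finset.sum_congr rfl fun i _ => ?_
      by_cases h : o.s i * x = y
      · have : x = (o.s i)⁻¹ * y := by rw [← h]; group
        rw [if_pos h, if_pos this, mul_one]
      · have : ¬ x = (o.s i)⁻¹ * y := fun h' => h (by rw [h']; group)
        rw [if_neg h, if_neg this, mul_zero]
    simp only [h6]
    clear_value W
    rw [Finset.sum_comm]
    refine Finset.sum_congr rfl fun i _ => ?_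
    rw [Finset.sum_ite_eq' Finset.univ ((o.s i)⁻¹ * y) W]
    simp
  have hconst : ∀ x, W x = W 1 := by
    intro x
    have hx : x ∈ Subgroup.closure {x | ∃ o ∈ L, ∃ i < o.m, x = o.s i} := by
      rw [H.gen]; trivial
    induction hx using Subgroup.closure_induction_left with
    | one => rfl
    | mul_left y hy z _ ih =>
      obtain ⟨o, ho, i, hi, rfl⟩ := hy
      rw [← ih, ← hharm o ho i hi (o.s i * z)]
      congr 1; group
    | inv_mul_cancel y hy z _ ih =>
      obtain ⟨o, ho, i, hi, rfl⟩ := hy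
      rw [hharm o ho i hi z, ih]
  have hW1 : W 1 = 1 := by
    simp only [hWdef]
    rw [Finset.sum_eq_single 0]
    · rw [H.ν0, H.g0]
      simp only [mul_one, mul_inv_cancel, if_true, Finset.sum_const, Finset.card_univ,
        nsmul_eq_mul, Nat.cast_one, one_mul]
      field_simp
    · intro j hj hj0
      have h7 : ∀ h : G, ¬ (h * g j * h⁻¹ = 1) := by
        intro h hh
        apply H.ne1 j (Nat.pos_of_ne_zero hj0) (Finset.mem_range.1 hj)
        have : g j = h⁻¹ * (h * g j * h⁻¹) * h := by group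
        rw [this, hh]; group
      simp [h7]
    · intro h
      exact absurd (Finset.mem_range.2 H.pos) h
  have h8 := hpair f
  simp only [hconst, hW1, one_mul, hf] at h8
  rw [h8]
  refine Finset.sum_congr rfl fun j _ => ?_
  simp only [Finset.sum_const, Finset.card_univ, nsmul_eq_mul]
  field_simp

end sums

end

end Pool.Agent.CMFn
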