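import Pool.Agent.CMFn.CSem

/-! Project CMFn, block C: derivation of characters by products and components (semantic layer).
helper62. -/

namespace Pool.Agent.CMFn

open Matrix

noncomputable section

variable {G : Type} [Group G]

/-- Independence of eigenvectors. -/
lemma eig_zero {E : Type} [AddCommGroup E] [Module ℂ E] (M : E →ₗ[ℂ] E) (S : Finset ℂ)
    (v : ℂ → E) (hv : ∀ c ∈ S, M (v c) = c • v c) (h0 : ∑ c ∈ S, v c = 0) :
    ∀ c ∈ S, v c = 0 := by
  classical
  induction S using Finset.induction_on generalizing v with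
  | empty => simp
  | insert a S ha ih =>
    have h1 : ∀ c ∈ S, (c - a) • v c = 0 := by
      apply ih (fun c => (c - a) • v c)
      · intro c hc
        rw [map_smul, hv c (Finset.mem_insert_of_mem hc), smul_comm]
      · have h2 := congrArg M h0
        rw [map_sum, map_zero, Finset.sum_congr rfl hv] at h2
        have h3 : ∑ c ∈ insert a S, (c - a) • v c = 0 := by
          simp only [sub_smul, Finset.sum_sub_distrib]
          rw [h2, ← Finset.smul_sum, h0]
          simp
        rw [Finset.sum_insert ha] at h3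
        simpa using h3
    have h4 : ∀ c ∈ S, v c = 0 := by
      intro c hc
      rcases smul_eq_zero.1 (h1 c hc) with h | h
      · exfalso
        rw [sub_eq_zero] at h
        subst h
        exact ha hc
      · exact h
    intro c hc
    rcases Finset.mem_insert.1 hc with rfl | hc
    · rw [Finset.sum_insert ha, Finset.sum_eq_zero h4, add_zero] at h0
      exact h0
    · exact h4 c hc

lemma vc_cls {u : G → ℂ} (hu : u ∈ VC G) {x y : G} (h : Cj x y) : u x = u y := by
  obtain ⟨a, rfl⟩ := h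
  exact vc_conj hu _ _

/-- Functions on the representatives coming from virtual characters. -/
def VV (nc : ℕ) (g : ℕ → G) (w : ℕ → ℂ) : Prop := ∃ u ∈ VC G, ∀ j < nc, u (g j) = w j

section vv

variable {nc : ℕ} {g : ℕ → G}

lemma VV.congr {w w' : ℕ → ℂ} (h : VV nc g w) (hw : ∀ j < nc, w j = w' j) : VV nc g w' := by
  obtain ⟨u, hu, h1⟩ := h
  exact ⟨u, hu, fun j hj => by rw [h1 j hj, hw j hj]⟩

lemma VV.zero : VV nc g (fun _ => 0) := ⟨0, (VC G).zero_mem, fun _ _ => rfl⟩

lemma VV.one : VV nc g (fun _ => 1) := ⟨_, vc_one, fun _ _ => rfl⟩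

lemma VV.tr {d : ℕ} (ρ : G →* Matrix (Fin d) (Fin d) ℂ) : VV nc g (fun j => (ρ (g j)).trace) :=
  ⟨_, vc_tr ρ, fun _ _ => rfl⟩

lemma VV.add {w w' : ℕ → ℂ} (h : VV nc g w) (h' : VV nc g w') : VV nc g (fun j => w j + w' j) := by
  obtain ⟨u, hu, h1⟩ := h
  obtain ⟨u', hu', h1'⟩ := h'
  exact ⟨u + u', (VC G).add_mem hu hu', fun j hj => by simp [h1 j hj, h1' j hj]⟩

lemma VV.neg {w : ℕ → ℂ} (h : VV nc g w) : VV nc g (fun j => - w j) := by
  obtain ⟨u, hu, h1⟩ := h
  exact ⟨-u, (VC G).neg_mem hu, fun j hj => by simp [h1 j hj]⟩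

lemma VV.zsmul {w : ℕ → ℂ} (h : VV nc g w) (n : ℤ) : VV nc g (fun j => (n : ℂ) * w j) := by
  obtain ⟨u, hu, h1⟩ := h
  exact ⟨n • u, (VC G).zsmul_mem hu n, fun j hj => by simp [h1 j hj]⟩

lemma VV.mul {w w' : ℕ → ℂ} (h : VV nc g w) (h' : VV nc g w') : VV nc g (fun j => w j * w' j) := by
  obtain ⟨u, hu, h1⟩ := h
  obtain ⟨u', hu', h1'⟩ := h'
  exact ⟨_, vc_mul hu hu', fun j hj => by simp [h1 j hj, h1' j hj]⟩

lemma VV.inv {inv : ℕ → ℕ} (hlt : ∀ j < nc, inv j < nc) (hcj : ∀ j < nc, Cj (g j)⁻¹ (g (inv j)))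
    {w : ℕ → ℂ} (h : VV nc g w) : VV nc g (fun j => w (inv j)) := by
  obtain ⟨u, hu, h1⟩ := h
  exact ⟨_, vc_inv hu, fun j hj => by rw [vc_cls hu (hcj j hj), h1 _ (hlt j hj)]⟩

lemma VV.sum {K : ℕ} {w : ℕ → ℕ → ℂ} (h : ∀ i < K, VV nc g (w i)) :
    VV nc g (fun j => ∑ i ∈ Finset.range K, w i j) := by
  induction K with
  | zero => simpa using VV.zero
  | succ K ih =>
    simp only [Finset.sum_range_succ]
    exact (ih fun i hi => h i (by omega)).add (h K (by omega))

/-- The component of a virtual character with a given eigenvalue of one class operator. -/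
lemma comp1 [Fintype G] {o : Op G} (ho : OpOK nc g o) {K : ℕ} (X : ℕ → ℕ → ℂ) (lam : ℕ → ℂ)
    (eig : ∀ i < K, ∀ j < nc, ∑ t ∈ Finset.range o.m, X i (o.k t j) = lam i * X i j)
    (n : ℕ → ℤ) (hu : VV nc g (fun j => ∑ i ∈ Finset.range K, (n i : ℂ) * X i j)) (c : ℂ) :
    VV nc g (fun j => ∑ i ∈ Finset.range K, ((if lam i = c then n i else 0 : ℤ) : ℂ) * X i j) := by
  classical
  obtain ⟨u, hu, h1⟩ := hu
  obtain ⟨C, w, hw, huw⟩ := vc_comp ho.conj hu
  -- the operator on functions on representatives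
  let M : (Fin nc → ℂ) →ₗ[ℂ] (Fin nc → ℂ) :=
    { toFun := fun f j => ∑ t ∈ (Finset.range o.m).attach, f ⟨o.k t.1 j,
        ho.lt t.1 (Finset.mem_range.1 t.2) j j.2⟩
      map_add' := by intro f f'; ext j; simp [Finset.sum_add_distrib]
      map_smul' := by intro a f; ext j; simp [Finset.mul_sum] }
  have hM : ∀ (f : ℕ → ℂ) (j : Fin nc), M (fun j => f j) j = ∑ t ∈ Finset.range o.m, f (o.k t j) := by
    intro f j
    exact Finset.sum_attach (Finset.range o.m) (fun t => f (o.k t j))
  set S : Finset ℂ := C ∪ (Finset.range K).image lam with hS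
  set Y : ℂ → ℕ → ℂ := fun a j =>
    ∑ i ∈ Finset.range K, ((if lam i = a then n i else 0 : ℤ) : ℂ) * X i j with hY
  have hYM : ∀ a, M (fun j => Y a j) = a • (fun j : Fin nc => Y a j) := by
    intro a
    ext j
    rw [hM]
    simp only [hY, Pi.smul_apply, smul_eq_mul]
    rw [Finset.sum_comm, Finset.mul_sum]
    refine Finset.sum_congr rfl fun i hi => ?_
    rw [← Finset.mul_sum, eig i (Finset.mem_range.1 hi) j j.2]
    split_ifs with h
    · rw [h]; ring
    · simp
  set v : ℂ → (Fin nc → ℂ) := fun a j => (if a ∈ C then w a (g j) else 0) - Y a j with hv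
  have hvM : ∀ a ∈ S, M (v a) = a • v a := by
    intro a _
    have h2 : v a = (fun j : Fin nc => (if a ∈ C then w a (g j) else 0)) -
        (fun j : Fin nc => Y a j) := rfl
    rw [h2, map_sub, smul_sub, hYM]
    congr 1
    by_cases ha : a ∈ C
    · simp only [ha, if_true]
      ext j
      rw [hM (fun j => w a (g j))]
      have h3 := congrFun (hw a ha).2 (g j)
      simp only [clOp] at h3
      rw [Pi.smul_apply, smul_eq_mul, ← h3, Finset.sum_range]
      refine Finset.sum_congr rfl fun t _ => ?_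
      exact (vc_cls (hw a ha).1 (ho.cj t t.2 j j.2)).symm
    · simp only [ha, if_false]
      have : (fun _ : Fin nc => (0 : ℂ)) = 0 := rfl
      rw [this]; simp
  have hsum : ∑ a ∈ S, v a = 0 := by
    ext j
    simp only [Finset.sum_apply, hv, Finset.sum_sub_distrib, Pi.zero_apply]
    have h4 : ∑ a ∈ S, (if a ∈ C then w a (g j) else 0) = ∑ a ∈ C, w a (g j) := by
      rw [← Finset.sum_filter]
      refine Finset.sum_congr ?_ fun _ _ => rfl
      ext a
      simp only [Finset.mem_filter, hS, Finset.mem_union]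
      tauto
    have h5 : ∑ a ∈ S, Y a j = ∑ i ∈ Finset.range K, (n i : ℂ) * X i j := by
      simp only [hY]
      rw [Finset.sum_comm]
      refine Finset.sum_congr rfl fun i hi => ?_
      rw [← Finset.sum_mul]
      congr 1
      have h6 : lam i ∈ S := by
        rw [hS]
        exact Finset.mem_union_right _ (Finset.mem_image_of_mem _ hi)
      rw [Finset.sum_eq_single (lam i)]
      · simp
      · intro b _ hb
        simp [Ne.symm hb]
      · intro h; exact absurd h6 h
    have h1' := h1 j j.2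
    simp only [huw] at h1'
    rw [h4, h5, h1', sub_self]
  have hz := eig_zero M S v hvM hsum
  by_cases hcC : c ∈ C
  · refine ⟨w c, (hw c hcC).1, fun j hj => ?_⟩
    have h7 := congrFun (hz c (by rw [hS]; exact Finset.mem_union_left _ hcC)) ⟨j, hj⟩
    simp only [hv, hcC, if_true, Pi.zero_apply, sub_eq_zero] at h7
    exact h7
  · by_cases hcS : c ∈ S
    · refine VV.zero.congr fun j hj => ?_
      have h7 := congrFun (hz c hcS) ⟨j, hj⟩
      simp only [hv, hcC, if_false, Pi.zero_apply, zero_sub, neg_eq_zero] at h7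
      exact h7.symm
    · refine VV.zero.congr fun j hj => ?_
      symm
      refine Finset.sum_eq_zero fun i hi => ?_
      have h8 : ¬ (lam i = c) := by
        intro h
        apply hcS
        rw [hS, ← h]
        exact Finset.mem_union_right _ (Finset.mem_image_of_mem _ hi)
      simp [h8]

/-- Operators with their eigenvalues on `X`. -/
structure EigOK (nc : ℕ) (g : ℕ → G) (K : ℕ) (X : ℕ → ℕ → ℂ) (p : Op G × (ℕ → ℂ)) : Prop where
  op : OpOK nc g p.1
  eig : ∀ i < K, ∀ j < nc, ∑ t ∈ Finset.range p.1.m, X i (p.1.k t j) = p.2 i * X i j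

open Classical in
lemma compL [Fintype G] {K : ℕ} (X : ℕ → ℕ → ℂ) (L : List (Op G × (ℕ → ℂ)))
    (hL : ∀ p ∈ L, EigOK nc g K X p)
    (n : ℕ → ℤ) (hu : VV nc g (fun j => ∑ i ∈ Finset.range K, (n i : ℂ) * X i j)) (i0 : ℕ) :
    VV nc g (fun j => ∑ i ∈ Finset.range K,
      ((if ∀ p ∈ L, p.2 i = p.2 i0 then n i else 0 : ℤ) : ℂ) * X i j) := by
  induction L generalizing n with
  | nil => simpa using hu
  | cons p L ih =>
    have h1 := comp1 (hL p (by simp)).op X p.2 (hL p (by simp)).eig n hu (p.2 i0)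
    have h2 := ih (fun q hq => hL q (by simp [hq])) _ h1
    refine h2.congr fun j _ => Finset.sum_congr rfl fun i _ => ?_
    congr 2
    by_cases h3 : p.2 i = p.2 i0
    · simp [h3]
    · simp [h3]

/-- One derivation step. -/
lemma vv_step [Fintype G] {K : ℕ} (X : ℕ → ℕ → ℂ) (L : List (Op G × (ℕ → ℂ)))
    (hL : ∀ p ∈ L, EigOK nc g K X p) {a b : ℕ} (ha : VV nc g (X a)) (hb : VV nc g (X b))
    (n : ℕ → ℤ) (hn : ∀ j < nc, X a j * X b j = ∑ i ∈ Finset.range K, (n i : ℂ) * X i j)
    {t : ℕ} (ht : t < K) (hnt : n t = 1 ∨ n t = -1)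
    (hk : ∀ i < K, n i = 0 ∨ i = t ∨ VV nc g (X i) ∨ ∃ p ∈ L, p.2 i ≠ p.2 t) :
    VV nc g (X t) := by
  classical
  have h1 : VV nc g (fun j => ∑ i ∈ Finset.range K, (n i : ℂ) * X i j) :=
    (ha.mul hb).congr hn
  have h2 := compL X L hL n h1 t
  set c : ℕ → ℤ := fun i => if ∀ p ∈ L, p.2 i = p.2 t then n i else 0 with hc
  have h3 : VV nc g (fun j => ∑ i ∈ Finset.range K, (if i = t then 0 else (c i : ℂ) * X i j)) := by
    refine VV.sum fun i hi => ?_
    by_cases hit : i = t
    · simpa [hit] using VV.zero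
    · simp only [hit, if_false]
      rcases hk i hi with h | h | h | ⟨p, hp, h⟩
      · refine VV.zero.congr fun j _ => ?_
        simp [hc, h]
      · exact absurd h hit
      · exact h.zsmul _
      · refine VV.zero.congr fun j _ => ?_
        have h4 : ¬ ∀ p ∈ L, p.2 i = p.2 t := fun h5 => h (h5 p hp)
        simp only [hc, h4, if_false]
        simp
  have h5 : VV nc g (fun j => (c t : ℂ) * X t j) := by
    refine (h2.add h3.neg).congr fun j _ => ?_
    rw [← sub_eq_add_neg, ← Finset.sum_sub_distrib, Finset.sum_eq_single t]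
    · simp only [if_true, hc, sub_zero]
    · intro i _ hit
      simp only [hit, if_false, hc, sub_self]
    · intro h; exact absurd (Finset.mem_range.2 ht) h
  have h6 : c t = n t := by simp [hc]
  rw [h6] at h5
  rcases hnt with h | h
  · simpa [h] using h5
  · have := h5.neg
    simpa [h] using this

end vv

end

end Pool.Agent.CMFn
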