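import Pool.Agent.CMFn.CSemB

/-! Project CMFn, block C: irreducible characters, completeness, links (semantic layer).
helper62. -/

namespace Pool.Agent.CMFn

open Matrix

noncomputable section

variable {G : Type} [Group G]

/-- Powers of a matrix `1 + N` with `N` of rank one. -/
lemma trace_pow_of_rank_one {r : ℕ} (A : Matrix (Fin r) (Fin r) ℂ) (h : (A - 1).rank = 1) (p : ℕ) :
    (A ^ p).trace = (r - 1) + (1 + (A.trace - r)) ^ p := by
  classical
  set N := A - 1 with hN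
  have hA : A = 1 + N := by rw [hN]; abel
  have h1 : Module.finrank ℂ (LinearMap.range N.mulVecLin) = 1 := h
  obtain ⟨u, _, hu⟩ := finrank_eq_one_iff'.1 h1
  have h2 : ∀ j, ∃ c : ℂ, ∀ i, N i j = c * u.1 i := by
    intro j
    obtain ⟨c, hc⟩ := hu ⟨N.mulVecLin (Pi.single j 1), ⟨_, rfl⟩⟩
    refine ⟨c, fun i => ?_⟩
    have h3 := congrFun (congrArg Subtype.val hc) i
    simp only [Submodule.coe_smul, Pi.smul_apply, smul_eq_mul, Matrix.mulVecLin_apply,
      Matrix.mulVec_single_one] at h3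
    rw [h3]; rfl
  choose c hc using h2
  have hNN : N * N = N.trace • N := by
    ext i j
    simp only [Matrix.mul_apply, Matrix.trace, Matrix.diag, Matrix.smul_apply, smul_eq_mul,
      Finset.sum_mul]
    refine Finset.sum_congr rfl fun k _ => ?_
    rw [hc k i, hc j k, hc k k, hc j i]; ring
  have htr : A.trace - r = N.trace := by
    rw [hA, Matrix.trace_add, Matrix.trace_one]; simp
  rw [htr]
  have h4 : ∀ p : ℕ, ∃ x : ℂ, A ^ p = 1 + x • N ∧ N.trace * x = (1 + N.trace) ^ p - 1 := by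
    intro p
    induction p with
    | zero => exact ⟨0, by simp, by simp⟩
    | succ p ih =>
      obtain ⟨x, hx, hx'⟩ := ih
      refine ⟨x * (1 + N.trace) + 1, ?_, ?_⟩
      · rw [pow_succ, hx, hA]
        have e1 : (1 + x • N) * (1 + N) = 1 + N + x • N + x • (N * N) := by
          rw [add_mul, mul_add, smul_mul_assoc, mul_add, smul_add]
          simp only [one_mul, mul_one]
          abel
        rw [e1, hNN, smul_smul, mul_add, mul_one, add_smul, add_smul, one_smul]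
        abel
      · rw [mul_add, ← mul_assoc, hx']; ring
  obtain ⟨x, hx, hx'⟩ := h4 p
  rw [hx, Matrix.trace_add, Matrix.trace_one, Matrix.trace_smul, smul_eq_mul, mul_comm x, hx']
  simp; ring

lemma tr_cls {d : ℕ} (ρ : G →* Matrix (Fin d) (Fin d) ℂ) {x y : G} (h : Cj x y) :
    (ρ x).trace = (ρ y).trace := vc_cls (vc_tr ρ) h

lemma tr_conj {d : ℕ} (ρ : G →* Matrix (Fin d) (Fin d) ℂ) (x h : G) :
    (ρ (h * x * h⁻¹)).trace = (ρ x).trace := tr_cls ρ ⟨h, rfl⟩

lemma trpow_conj {d : ℕ} (ρ : G →* Matrix (Fin d) (Fin d) ℂ) (x h : G) (m : ℕ) :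
    ((ρ (h * x * h⁻¹)) ^ m).trace = ((ρ x) ^ m).trace := by
  rw [← map_pow, ← map_pow, conj_pow]
  exact tr_conj ρ _ _

lemma trpow_cls {d : ℕ} (ρ : G →* Matrix (Fin d) (Fin d) ℂ) {x y : G} (h : Cj x y) (m : ℕ) :
    ((ρ x) ^ m).trace = ((ρ y) ^ m).trace := by
  obtain ⟨a, rfl⟩ := h
  exact trpow_conj ρ _ _ _

lemma conj_inv' (x h : G) : (h * x * h⁻¹)⁻¹ = h * x⁻¹ * h⁻¹ := by group

section

variable {nc : ℕ} {g : ℕ → G} {ν inv : ℕ → ℕ} {L : List (Op G)}

lemma card_eq [Fintype G] (H : ClsOK nc g ν inv L) :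
    (Fintype.card G : ℂ) = ∑ j ∈ Finset.range nc, (ν j : ℂ) := by
  have := sum_cls H (fun _ => 1) (fun _ _ => rfl)
  simpa using this

/-- Existence and completeness of the irreducible representations. -/
theorem irr_exists [Fintype G] (H : ClsOK nc g ν inv L) {K : ℕ} (X : ℕ → ℕ → ℂ) (d : ℕ → ℕ)
    (hd : ∀ i < K, 0 < d i) (hX0 : ∀ i < K, X i 0 = d i) (hv : ∀ i < K, VV nc g (X i))
    (hnorm : ∀ i < K, ∑ j ∈ Finset.range nc, (ν j : ℂ) * (X i j * X i (inv j)) =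
      ∑ j ∈ Finset.range nc, (ν j : ℂ))
    (hne : ∀ i < K, ∀ i' < K, i ≠ i' → ∃ j < nc, X i j ≠ X i' j)
    (hsum : ∑ i ∈ Finset.range K, d i ^ 2 = ∑ j ∈ Finset.range nc, ν j) :
    ∃ a : ℕ → MRep G, (∀ i < K, IsIrr (a i).2 ∧ (a i).1 = d i ∧
      ∀ j < nc, ((a i).2 (g j)).trace = X i j) ∧
      ∀ b : MRep G, IsIrr b.2 → ∃ i < K, b.1 = (a i).1 ∧
        ∀ x, (b.2 x).trace = ((a i).2 x).trace := by
  classical
  have h1 : ∀ i < K, ∃ ρ : G →* Matrix (Fin (d i)) (Fin (d i)) ℂ, IsIrr ρ ∧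
      ∀ j < nc, (ρ (g j)).trace = X i j := by
    intro i hi
    obtain ⟨u, hu, hux⟩ := hv i hi
    obtain ⟨ρ, hρ, hρu⟩ := vc_irr hu (hd i hi) (by
      have := hux 0 H.pos
      rw [H.g0] at this
      rw [this, hX0 i hi]) (by
      rw [sum_cls H (fun x => u x * u x⁻¹), card_eq H, ← hnorm i hi]
      · refine Finset.sum_congr rfl fun j hj => ?_
        have hj' := Finset.mem_range.1 hj
        rw [hux j hj', vc_cls hu (H.invCj j hj'), hux _ (H.invLt j hj')]
      · intro x h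
        rw [conj_inv', vc_conj hu, vc_conj hu])
    exact ⟨ρ, hρ, fun j hj => by rw [hρu, hux j hj]⟩
  choose! ρ hρ using h1
  set a : ℕ → MRep G := fun i => ⟨d i, ρ i⟩ with ha
  refine ⟨a, fun i hi => ⟨(hρ i hi).1, rfl, (hρ i hi).2⟩, fun b hb => ?_⟩
  have h2 := irr_complete (k := K) (fun i : Fin K => a i) (fun i => (hρ i i.2).1) (by
    intro i j hij
    obtain ⟨c, hc, hcc⟩ := hne i i.2 j j.2 (fun h => hij (Fin.ext h))
    refine ⟨g c, ?_⟩
    rw [(hρ i i.2).2 c hc, (hρ j j.2).2 c hc]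
    exact hcc) (by
    have h3 := card_eq H
    have h4 : (∑ i : Fin K, (a i).1 ^ 2) = ∑ j ∈ Finset.range nc, ν j := by
      rw [← hsum, ← Fin.sum_univ_eq_sum_range (fun i => d i ^ 2) K]
    rw [h4]
    exact_mod_cast h3.symm) b hb
  obtain ⟨i, hi⟩ := h2
  refine ⟨i, i.2, ?_, hi⟩
  have h5 := hi 1
  simp only [map_one, Matrix.trace_one, Fintype.card_fin] at h5
  exact_mod_cast h5

/-- The link sum on representatives. -/
lemma link_sum [Fintype G] (H : ClsOK nc g ν inv L) {r : ℕ} (V : G →* Matrix (Fin r) (Fin r) ℂ)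
    (a b : MRep G) (m : ℕ) :
    ∑ x : G, (a.2 x⁻¹).trace * (b.2 x).trace * ((V x⁻¹) ^ m).trace =
      ∑ j ∈ Finset.range nc, (ν j : ℂ) * ((a.2 (g (inv j))).trace * (b.2 (g j)).trace *
        ((V (g (inv j))) ^ m).trace) := by
  rw [sum_cls H (fun x => (a.2 x⁻¹).trace * (b.2 x).trace * ((V x⁻¹) ^ m).trace)]
  · refine Finset.sum_congr rfl fun j hj => ?_
    have hj' := Finset.mem_range.1 hj
    rw [tr_cls a.2 (H.invCj j hj'), trpow_cls V (H.invCj j hj')]
  · intro x h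
    rw [conj_inv', tr_conj, tr_conj, trpow_conj]

/-- Equality of levels on representatives. -/
lemma sameLevel_of [Fintype G] (H : ClsOK nc g ν inv L) {r : ℕ}
    (V : G →* Matrix (Fin r) (Fin r) ℂ) (a b : MRep G)
    (h : ∀ j < nc, (V (g j) - 1).rank ≠ 1 ∨
      (a.2 (g j)).trace * (b.1 : ℂ) = (b.2 (g j)).trace * (a.1 : ℂ)) : SameLevel V a b := by
  intro x hx
  obtain ⟨j, hj, h1⟩ := cover H x
  rw [tr_cls a.2 h1, tr_cls b.2 h1]
  rcases h j hj with h2 | h2
  · exfalso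
    apply h2
    obtain ⟨y, rfl⟩ := h1
    have h3 : V (g j) - 1 = V y⁻¹ * (V (y * g j * y⁻¹) - 1) * V y := by
      have e1 : V y⁻¹ * V y = 1 := by rw [← map_mul]; simp
      have e2 : V (g j) = V y⁻¹ * V (y * g j * y⁻¹) * V y := by
        rw [← map_mul, ← map_mul]; congr 1; group
      rw [mul_sub, sub_mul, ← e2, mul_one, e1]
    have hu : IsUnit (V y).det := by
      have e1 : V y * V y⁻¹ = 1 := by rw [← map_mul]; simp
      exact (Matrix.isUnit_iff_isUnit_det _).1 (IsUnit.of_mul_eq_one _ e1)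
    have hu' : IsUnit (V y⁻¹).det := by
      have e1 : V y⁻¹ * V y = 1 := by rw [← map_mul]; simp
      exact (Matrix.isUnit_iff_isUnit_det _).1 (IsUnit.of_mul_eq_one _ e1)
    rw [h3, Matrix.rank_mul_eq_left_of_isUnit_det _ _ hu,
      Matrix.rank_mul_eq_right_of_isUnit_det _ _ hu', hx]
  · exact h2

lemma sameLevel_of_eq {r : ℕ} (V : G →* Matrix (Fin r) (Fin r) ℂ) (a b : MRep G)
    (h1 : a.1 = b.1) (h : ∀ x, (a.2 x).trace = (b.2 x).trace) : SameLevel V a b := by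
  intro x _
  rw [h x, h1]

/-- Two irreducible representations with the same character are linked. -/
lemma lk_of_eq [Fintype G] {r : ℕ} (hr : 0 < r) (V : G →* Matrix (Fin r) (Fin r) ℂ) (a b : MRep G)
    (ha : IsIrr a.2) (hb : IsIrr b.2) (h1 : a.1 = b.1)
    (h : ∀ x, (a.2 x).trace = (b.2 x).trace) : Lk V a b := by
  refine ⟨ha, hb, sameLevel_of_eq V a b h1 h, Fintype.card G, Fintype.card_pos, ?_⟩
  have h2 : ∀ x : G, ((V x⁻¹) ^ Fintype.card G).trace = r := by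
    intro x
    rw [← map_pow, pow_card_eq_one, map_one, Matrix.trace_one, Fintype.card_fin]
  simp only [h2, ← Finset.sum_mul]
  have h3 : ∑ x : G, (a.2 x⁻¹).trace * (b.2 x).trace =
      ∑ x : G, (b.2 x).trace * (b.2 x⁻¹).trace :=
    Finset.sum_congr rfl fun x _ => by rw [h x⁻¹, mul_comm]
  rw [h3]
  rcases irr_orth b b hb hb with ⟨h4, _⟩ | ⟨_, x, hx⟩
  · rw [h4]
    have : (Fintype.card G : ℂ) ≠ 0 := by simp [Fintype.card_ne_zero]
    have hr' : (r : ℂ) ≠ 0 := by exact_mod_cast hr.ne'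
    exact mul_ne_zero this hr'
  · exact absurd rfl hx

/-- Equal levels have the same eigenvalues. -/
lemma eig_of_sameLevel [Fintype G] {r : ℕ} (V : G →* Matrix (Fin r) (Fin r) ℂ)
    (hnc : 0 < nc) (hg0 : g 0 = 1)
    {K : ℕ} (X : ℕ → ℕ → ℂ) (p : Op G × (ℕ → ℂ)) (hp : EigOK nc g K X p)
    (hrefl : ∀ t < p.1.m, (V (p.1.s t) - 1).rank = 1) (a b : MRep G) {i i' : ℕ} (hi : i < K)
    (hi' : i' < K) (ha : ∀ j < nc, (a.2 (g j)).trace = X i j)
    (hb : ∀ j < nc, (b.2 (g j)).trace = X i' j) (ha0 : 0 < a.1) (hb0 : 0 < b.1)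
    (h : SameLevel V a b) : p.2 i = p.2 i' := by
  have ha0' : (a.1 : ℂ) ≠ 0 := by exact_mod_cast ha0.ne'
  have hb0' : (b.1 : ℂ) ≠ 0 := by exact_mod_cast hb0.ne'
  have key : ∀ (c : MRep G) (q : ℕ), q < K → (∀ j < nc, (c.2 (g j)).trace = X q j) →
      ∑ t ∈ Finset.range p.1.m, (c.2 (p.1.s t)).trace = p.2 q * c.1 := by
    intro c q hq hc
    have h1 := hp.eig q hq 0 hnc
    rw [← hc 0 hnc, hg0, map_one, Matrix.trace_one, Fintype.card_fin] at h1
    rw [← h1]
    refine Finset.sum_congr rfl fun t ht => ?_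
    have ht' := Finset.mem_range.1 ht
    rw [← hc _ (hp.op.lt t ht' 0 hnc)]
    have h2 := tr_cls c.2 (hp.op.cj t ht' 0 hnc)
    rwa [hg0, mul_one] at h2
  have e1 := key a i hi ha
  have e2 := key b i' hi' hb
  have e3 : (∑ t ∈ Finset.range p.1.m, (a.2 (p.1.s t)).trace) * b.1 =
      (∑ t ∈ Finset.range p.1.m, (b.2 (p.1.s t)).trace) * a.1 := by
    rw [Finset.sum_mul, Finset.sum_mul]
    exact Finset.sum_congr rfl fun t ht => h _ (hrefl t (Finset.mem_range.1 ht))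
  rw [e1, e2] at e3
  have e4 : (p.2 i - p.2 i') * ((a.1 : ℂ) * b.1) = 0 := by linear_combination e3
  rcases mul_eq_zero.1 e4 with h5 | h5
  · exact sub_eq_zero.1 h5
  · exact absurd h5 (mul_ne_zero ha0' hb0')

end

end

end Pool.Agent.CMFn
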