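import Pool.Agent.CMFn.CChk
import Pool.Agent.CMFn.CSemC

/-! Project CMFn, block C: soundness of the checker, part A (tables, letters, operators).
helper62. -/

namespace Pool.Agent.CMFn

open Matrix

noncomputable section

lemma allN_iff {n : ℕ} {f : ℕ → Bool} : allN n f = true ↔ ∀ i < n, f i = true := by
  induction n with
  | zero => simp [allN]
  | succ n ih =>
    have h : allN (n + 1) f = cond (allN n f) (f n) false := rfl
    rw [h]
    constructor
    · intro h1 i hi
      cases h2 : allN n f with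
      | false => rw [h2] at h1; simp at h1
      | true =>
        rw [h2] at h1
        rcases Nat.lt_succ_iff_lt_or_eq.1 hi with h3 | h3
        · exact ih.1 h2 i h3
        · rw [h3]; exact h1
    · intro h1
      rw [ih.2 fun i hi => h1 i (by omega)]
      exact h1 n (by omega)

lemma anyN_iff {n : ℕ} {f : ℕ → Bool} : anyN n f = true ↔ ∃ i < n, f i = true := by
  induction n with
  | zero => simp [anyN]
  | succ n ih =>
    have h : anyN (n + 1) f = cond (anyN n f) true (f n) := rfl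
    rw [h]
    constructor
    · intro h1
      cases h2 : anyN n f with
      | false => rw [h2] at h1; exact ⟨n, by omega, h1⟩
      | true =>
        obtain ⟨i, hi, h3⟩ := ih.1 h2
        exact ⟨i, by omega, h3⟩
    · rintro ⟨i, hi, h1⟩
      rcases Nat.lt_succ_iff_lt_or_eq.1 hi with h3 | h3
      · rw [ih.2 ⟨i, h3, h1⟩]; rfl
      · cases h2 : anyN n f with
        | false => rw [← h3]; exact h1
        | true => rfl

lemma sumN_eq (n : ℕ) (f : ℕ → ℕ) : sumN n f = ∑ i ∈ Finset.range n, f i := by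
  induction n with
  | zero => rfl
  | succ n ih =>
    rw [Finset.sum_range_succ, ← ih]; rfl

lemma allL_iff {l : List ℕ} {f : ℕ → Bool} : allL l f = true ↔ ∀ a ∈ l, f a = true := by
  induction l with
  | nil => simp [allL]
  | cons a l ih =>
    have h : allL (a :: l) f = cond (f a) (allL l f) false := rfl
    rw [h]
    cases h2 : f a with
    | false => simp [h2]
    | true =>
      simp only [cond_true, List.mem_cons, forall_eq_or_imp, h2, true_and]
      exact ih

lemma cond_iff {a b : Bool} : (cond a b false) = true ↔ a = true ∧ b = true := by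
  cases a <;> simp

lemma blt_iff {a b : ℕ} : Nat.blt a b = true ↔ a < b := by
  rw [Nat.blt_eq]

lemma ble_iff {a b : ℕ} : Nat.ble a b = true ↔ a ≤ b := by rw [Nat.ble_eq]

lemma beq_iff {a b : ℕ} : Nat.beq a b = true ↔ a = b := by rw [Nat.beq_eq]

variable {G : Type} [Group G] {α : Type}

namespace GD

variable (d : GD α) (φ : α → ℂ)

/-- The root `x` as a vector. -/
def root (r : ℕ) (x : ℕ) : Fin r → ℂ := fun y => φ (d.crd x y)

/-- `h` permutes the roots by `f`. -/
def Tb {r : ℕ} (V : G →* Matrix (Fin r) (Fin r) ℂ) (h : G) (f : ℕ → ℕ) : Prop :=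
  ∀ x < d.n, f x < d.n ∧ V h *ᵥ d.root φ r x = d.root φ r (f x)

variable {d φ} {r : ℕ} {V : G →* Matrix (Fin r) (Fin r) ℂ}

lemma Tb.mul {h h' : G} {f f' : ℕ → ℕ} (H : d.Tb φ V h f) (H' : d.Tb φ V h' f') :
    d.Tb φ V (h * h') (fun x => f (f' x)) := by
  intro x hx
  obtain ⟨h1, h2⟩ := H' x hx
  obtain ⟨h3, h4⟩ := H _ h1
  exact ⟨h3, by rw [map_mul, ← Matrix.mulVec_mulVec, h2, h4]⟩

lemma Tb.one : d.Tb φ V (1 : G) (fun x => x) := by
  intro x hx
  exact ⟨hx, by simp⟩

lemma Tb.inv {h : G} {f f' : ℕ → ℕ} (H : d.Tb φ V h f) (h' : ∀ x < d.n, f' x < d.n ∧ f (f' x) = x) :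
    d.Tb φ V h⁻¹ f' := by
  intro x hx
  obtain ⟨h1, h2⟩ := h' x hx
  refine ⟨h1, ?_⟩
  have h3 := (H _ h1).2
  rw [h2] at h3
  rw [← h3, Matrix.mulVec_mulVec, ← map_mul]
  simp

lemma Tb.congr {h : G} {f f' : ℕ → ℕ} (H : d.Tb φ V h f) (h' : ∀ x < d.n, f' x = f x) :
    d.Tb φ V h f' := by
  intro x hx
  rw [h' x hx]
  exact H x hx

/-- The basic assumptions: the first roots are the basis. -/
def Bas (d : GD α) (φ : α → ℂ) (r : ℕ) : Prop :=
  r ≤ d.n ∧ ∀ x < r, ∀ y < r, φ (d.crd x y) = if x = y then 1 else 0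

lemma Bas.col (hB : d.Bas φ r) (M : Matrix (Fin r) (Fin r) ℂ) (x y : Fin r) :
    (M *ᵥ d.root φ r x) y = M y x := by
  have h1 : d.root φ r x = Pi.single x 1 := by
    ext z
    have := hB.2 x x.2 z z.2
    simp only [root, this, Pi.single_apply]
    by_cases h : z = x
    · subst h; simp
    · rw [if_neg h, if_neg]
      intro h'
      exact h (Fin.ext h'.symm)
  rw [h1, Matrix.mulVec_single_one]
  rfl

lemma Tb.ext (hB : d.Bas φ r) (hV : Function.Injective V) {h h' : G} {f f' : ℕ → ℕ}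
    (H : d.Tb φ V h f) (H' : d.Tb φ V h' f') (hf : ∀ x < r, f x = f' x) : h = h' := by
  apply hV
  ext y x
  rw [← Bas.col hB (V h) x y, ← Bas.col hB (V h') x y, (H x (by have := hB.1; omega)).2,
    (H' x (by have := hB.1; omega)).2, hf x x.2]

/-- Trace through the tables. -/
lemma Tb.trace (hB : d.Bas φ r) {h : G} {f : ℕ → ℕ} (H : d.Tb φ V h f) :
    (V h).trace = ∑ x ∈ Finset.range r, φ (d.crd (f x) x) := by
  rw [Finset.sum_range, Matrix.trace]
  refine Finset.sum_congr rfl fun x _ => ?_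
  rw [Matrix.diag_apply, ← Bas.col hB (V h) x x, (H x (by have := hB.1; omega)).2]
  rfl

lemma Tb.pow {h : G} {f : ℕ → ℕ} (H : d.Tb φ V h f) (p : ℕ) :
    d.Tb φ V (h ^ p) (fun x => Nat.rec x (fun _ y => f y) p) := by
  induction p with
  | zero => simpa using Tb.one
  | succ p ih =>
    rw [pow_succ']
    exact H.mul ih

variable (d φ)

lemma sum_eq {e : ℕ → ℂ} (hc : CRS d.c φ e) (n : ℕ) (f : ℕ → α) :
    φ (d.sum n f) = ∑ i ∈ Finset.range n, φ (f i) := by
  induction n with
  | zero =>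
    have h := hc.nat 0
    rw [Nat.cast_zero] at h
    rw [Finset.range_zero, Finset.sum_empty]
    exact h
  | succ n ih =>
    rw [Finset.sum_range_succ, ← ih, ← hc.add]; rfl

lemma pow_eq {e : ℕ → ℂ} (hc : CRS d.c φ e) (x : α) (n : ℕ) :
    φ (d.pow x n) = φ x ^ n := by
  induction n with
  | zero =>
    have h := hc.nat 1
    rw [Nat.cast_one] at h
    rw [pow_zero]
    exact h
  | succ n ih =>
    rw [pow_succ, ← ih, ← hc.mul]; rfl

variable {d φ}

lemma actw_tb {lt : ℕ → G} {A : ℕ} (hT : ∀ l < A, d.Tb φ V (lt l) (d.tb l)) (w : List ℕ)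
    (hw : ∀ a ∈ w, a < A) : d.Tb φ V (w.map lt).prod (d.actw w) := by
  induction w with
  | nil => exact Tb.one
  | cons a w ih =>
    rw [List.map_cons, List.prod_cons]
    exact (hT a (hw a (by simp))).mul (ih fun b hb => hw b (by simp [hb]))

/-- The hypotheses on the group. -/
structure Gp (d : GD α) (φ : α → ℂ) {r : ℕ} (V : G →* Matrix (Fin r) (Fin r) ℂ) (γ : ℕ → G) :
    Prop where
  hr : d.r = r
  inj : Function.Injective V
  cl : Subgroup.closure {x | ∃ a < d.ng, x = γ a} = ⊤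
  mat : ∀ a < d.ng, V (γ a) = Matrix.of fun i j : Fin r => φ (d.mat a i j)

variable {e : ℕ → ℂ} {γ : ℕ → G}

lemma bas_of (hc : CRS d.c φ e) (hG : Gp d φ V γ) (h : d.chkBase = true) : d.Bas φ r := by
  unfold chkBase at h
  simp only [cond_iff, ble_iff, allN_iff, hc.eq, hc.nat, hG.hr] at h
  refine ⟨h.1, fun x hx y hy => ?_⟩
  rw [h.2.2.2.2 x hx y hy]
  by_cases hxy : x = y
  · subst hxy; simp
  · have : Nat.beq x y = false := by
      rw [← Bool.not_eq_true, beq_iff]; exact hxy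
    rw [this]; simp [hxy]

lemma tb_gen (hc : CRS d.c φ e) (hG : Gp d φ V γ) {a : ℕ} (ha : a < d.ng)
    (h : d.chkGen a = true) : d.Tb φ V (γ a) (d.tb a) := by
  unfold chkGen at h
  simp only [cond_iff, blt_iff, allN_iff, hc.eq, hG.hr, d.sum_eq φ hc, hc.mul] at h
  intro x hx
  refine ⟨(h x hx).1, ?_⟩
  ext y
  rw [hG.mat a ha]
  have h1 := (h x hx).2 y y.2
  rw [Finset.sum_range] at h1
  exact h1

/-- Existence of the letters. -/
lemma exists_letters (hc : CRS d.c φ e) (hG : Gp d φ V γ) (h1 : ∀ a < d.ng, d.chkGen a = true)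
    (h2 : ∀ a < d.ng, d.chkGenI a = true)
    (h3 : ∀ l, 2 * d.ng ≤ l → l < d.A → d.chkLet l = true) :
    ∃ lt : ℕ → G, (∀ a < d.ng, lt a = γ a) ∧ ∀ l < d.A, d.Tb φ V (lt l) (d.tb l) := by
  have key : ∀ A' ≤ d.A, ∃ lt : ℕ → G, (∀ a < d.ng, lt a = γ a) ∧
      ∀ l < A', d.Tb φ V (lt l) (d.tb l) := by
    intro A'
    induction A' with
    | zero => intro _; exact ⟨γ, fun _ _ => rfl, fun l hl => absurd hl (Nat.not_lt_zero l)⟩
    | succ A' ih =>
      intro hA
      obtain ⟨lt, hlt, hT⟩ := ih (by omega)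
      by_cases c1 : A' < d.ng
      · refine ⟨lt, hlt, fun l hl => ?_⟩
        rcases Nat.lt_succ_iff_lt_or_eq.1 hl with h | h
        · exact hT l h
        · rw [h, hlt A' c1]
          exact tb_gen hc hG c1 (h1 A' c1)
      · have hnew : ∃ h : G, d.Tb φ V h (d.tb A') := by
          by_cases c2 : A' < 2 * d.ng
          · refine ⟨(γ (A' - d.ng))⁻¹, ?_⟩
            have ha : A' - d.ng < d.ng := by omega
            refine (tb_gen hc hG ha (h1 _ ha)).inv ?_
            have h4 := h2 _ ha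
            unfold chkGenI at h4
            simp only [cond_iff, blt_iff, allN_iff, beq_iff] at h4
            have h5 : Nat.add d.ng (A' - d.ng) = A' := by
              show d.ng + (A' - d.ng) = A'
              omega
            rw [h5] at h4
            exact h4
          · have h4 := h3 A' (by omega) (by omega)
            unfold chkLet at h4
            simp only [cond_iff, blt_iff, allN_iff, beq_iff, allL_iff] at h4
            exact ⟨_, (actw_tb hT _ h4.1).congr h4.2⟩
        obtain ⟨h, hh⟩ := hnew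
        refine ⟨Function.update lt A' h, fun a ha => ?_, fun l hl => ?_⟩
        · rw [Function.update_of_ne (by omega), hlt a ha]
        · rcases Nat.lt_succ_iff_lt_or_eq.1 hl with h' | h'
          · rw [Function.update_of_ne (by omega)]
            exact hT l h'
          · rw [h', Function.update_self]
            exact hh
  exact key d.A le_rfl

/-- The operator of a datum. -/
def toOp (d : GD α) (lt : ℕ → G) (o : OD) : Op G := ⟨o.m, fun i => lt (o.s + i), d.kk o⟩

/-- The letters are correct. -/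
structure Lt (d : GD α) (φ : α → ℂ) {r : ℕ} (V : G →* Matrix (Fin r) (Fin r) ℂ) (γ : ℕ → G)
    (lt : ℕ → G) : Prop where
  gen : ∀ a < d.ng, lt a = γ a
  tb : ∀ l < d.A, d.Tb φ V (lt l) (d.tb l)
  ng : d.ng ≤ d.A

lemma conjFam_of (hB : d.Bas φ r) (hG : Gp d φ V γ) {lt : ℕ → G} (hL : Lt d φ V γ lt) {o : OD}
    (h : d.chkConj o = true) :
    (∀ g : G, ∃ p : Equiv.Perm (Fin o.m), ∀ i : Fin o.m,
      g * lt (o.s + i) * g⁻¹ = lt (o.s + p i)) ∧
    ∀ a < d.ng, ∀ i < o.m, dg 8 (o.cj.get a) i < o.m ∧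
      γ a * lt (o.s + i) * (γ a)⁻¹ = lt (o.s + dg 8 (o.cj.get a) i) := by
  unfold chkConj at h
  simp only [cond_iff, blt_iff, ble_iff, allN_iff, beq_iff, hG.hr] at h
  obtain ⟨hA, h⟩ := h
  have hA' : o.s + o.m ≤ d.A := hA
  have h1 : ∀ a < d.ng, ∀ i < o.m, γ a * lt (o.s + i) * (γ a)⁻¹ =
      lt (o.s + dg 8 (o.cj.get a) i) := by
    intro a ha i hi
    obtain ⟨h2, h3, h4⟩ := h a ha i hi
    rw [mul_inv_eq_iff_eq_mul, ← hL.gen a ha]
    have haA : a < d.A := by have := hL.ng; omega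
    exact Tb.ext hB hG.inj ((hL.tb a haA).mul (hL.tb (o.s + i) (by omega)))
      ((hL.tb (o.s + dg 8 (o.cj.get a) i) (by omega)).mul (hL.tb a haA)) h4
  refine ⟨fun g => ?_, fun a ha i hi => ⟨(h a ha i hi).1, h1 a ha i hi⟩⟩
  have hg : g ∈ Subgroup.closure {x | ∃ a < d.ng, x = γ a} := by rw [hG.cl]; trivial
  induction hg using Subgroup.closure_induction with
  | mem x hx =>
    obtain ⟨a, ha, rfl⟩ := hx
    let f : Fin o.m → Fin o.m := fun i => ⟨dg 8 (o.cj.get a) i, (h a ha i i.2).1⟩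
    have hf : Function.Injective f := by
      intro i j hij
      have e1 := (h a ha i i.2).2.1
      have e2 := (h a ha j j.2).2.1
      have e3 : dg 8 (o.cj.get a) i = dg 8 (o.cj.get a) j := congrArg Fin.val hij
      rw [e3, e2] at e1
      exact Fin.ext e1.symm
    refine ⟨Equiv.ofBijective f (Finite.injective_iff_bijective.1 hf), fun i => ?_⟩
    exact h1 a ha i i.2
  | one => exact ⟨1, fun i => by simp⟩
  | mul x y _ _ hx hy =>
    obtain ⟨p, hp⟩ := hx
    obtain ⟨q, hq⟩ := hy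
    refine ⟨p * q, fun i => ?_⟩
    rw [Equiv.Perm.mul_apply, ← hp, ← hq]; group
  | inv x _ hx =>
    obtain ⟨p, hp⟩ := hx
    refine ⟨p⁻¹, fun i => ?_⟩
    have h5 := hp (p⁻¹ i)
    have h6 : p (p⁻¹ i) = i := Equiv.apply_symm_apply p i
    rw [h6] at h5
    rw [← h5]; group

lemma lt_cls (hB : d.Bas φ r) (hG : Gp d φ V γ) {lt : ℕ → G} (hL : Lt d φ V γ lt)
    (hrep : d.rep + d.nc ≤ d.A) {o : OD} (ho : o.s + o.m ≤ d.A) {j : ℕ} (hj : j < d.nc)
    (h : d.chkCls o j = true) : ∀ i < o.m, d.kk o i j < d.nc ∧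
      Cj (lt (o.s + i) * lt (d.rep + j)) (lt (d.rep + d.kk o i j)) := by
  unfold chkCls at h
  simp only [cond_iff, blt_iff, allN_iff, beq_iff, allL_iff, hG.hr] at h
  intro i hi
  obtain ⟨h1, h2, h3⟩ := h i hi
  refine ⟨h1, ((d.kw o i j).map lt).prod, ?_⟩
  rw [eq_mul_inv_iff_mul_eq]
  have hw := actw_tb hL.tb _ h2
  refine Tb.ext hB hG.inj (((hL.tb (o.s + i) (by omega)).mul
    (hL.tb (d.rep + j) (by omega))).mul hw) (hw.mul (hL.tb (d.rep + d.kk o i j) (by omega))) h3

lemma lt_inv (hB : d.Bas φ r) (hG : Gp d φ V γ) {lt : ℕ → G} (hL : Lt d φ V γ lt)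
    (hrep : d.rep + d.nc ≤ d.A) {j : ℕ} (hj : j < d.nc)
    (h : d.chkInv j = true) : d.ik j < d.nc ∧
      Cj (lt (d.rep + j))⁻¹ (lt (d.rep + d.ik j)) := by
  unfold chkInv at h
  simp only [cond_iff, blt_iff, allN_iff, beq_iff, allL_iff, hG.hr] at h
  obtain ⟨h1, h2, h3⟩ := h
  refine ⟨h1, ((d.iw j).map lt).prod, ?_⟩
  have hw := actw_tb hL.tb _ h2
  have h4 := Tb.ext hB hG.inj ((hL.tb (d.rep + j) (by omega)).mul
    (hw.mul (hL.tb (d.rep + d.ik j) (by omega)))) hw h3
  rw [eq_mul_inv_iff_mul_eq, inv_mul_eq_iff_eq_mul]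
  exact h4.symm

lemma sum_count' {m : ℕ} (k : ℕ → ℕ) {nc : ℕ} (hk : ∀ i < m, k i < nc) (f : ℕ → ℕ) :
    ∑ i ∈ Finset.range m, f (k i) =
      ∑ c ∈ Finset.range nc, ((List.range m).map k).count c * f c := by
  have h := sum_count k hk (fun i => (f i : ℂ))
  exact_mod_cast h

lemma bal_of {o : OD} (hlt : ∀ i < o.m, ∀ j < d.nc, d.kk o i j < d.nc)
    (h : d.chkBal o = true) : ∀ k < d.nc, ∑ j ∈ Finset.range d.nc,
      d.nuv j * ((List.range o.m).map fun i => d.kk o i j).count k = o.m * d.nuv k := by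
  unfold chkBal at h
  simp only [cond_iff, blt_iff, beq_iff, tot, sumN_eq] at h
  obtain ⟨h1, h2⟩ := h
  have h1' : (∑ i ∈ Finset.range d.nc, d.nuv i) * o.m < 2 ^ d.wn := h1
  have hm : ∀ k, ∀ j, ((List.range o.m).map fun i => d.kk o i j).count k ≤ o.m := by
    intro k j
    refine (List.count_le_length).trans ?_
    simp
  refine pow_sum_inj (B := 2 ^ d.wn) (fun k hk => ?_) (fun k hk => ?_) ?_
  · refine lt_of_le_of_lt ?_ h1'
    rw [Finset.sum_mul]
    exact Finset.sum_le_sum fun j _ => Nat.mul_le_mul_left _ (hm k j)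
  · refine lt_of_le_of_lt ?_ h1'
    rw [Nat.mul_comm]
    exact Nat.mul_le_mul_right _ (Finset.single_le_sum (f := d.nuv) (fun _ _ => Nat.zero_le _)
      (Finset.mem_range.2 hk))
  · have h3 : ∑ j ∈ Finset.range d.nc, d.nuv j *
        ∑ i ∈ Finset.range o.m, (2 ^ d.wn) ^ (d.kk o i j) =
        o.m * ∑ j ∈ Finset.range d.nc, d.nuv j * (2 ^ d.wn) ^ j := by
      simp only [← pow_mul]
      exact h2
    have h4 : ∀ j ∈ Finset.range d.nc, d.nuv j *
        ∑ i ∈ Finset.range o.m, (2 ^ d.wn) ^ (d.kk o i j) = ∑ c ∈ Finset.range d.nc,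
          d.nuv j * ((List.range o.m).map fun i => d.kk o i j).count c * (2 ^ d.wn) ^ c := by
      intro j hj
      rw [sum_count' (fun i => d.kk o i j) (fun i hi => hlt i hi j (Finset.mem_range.1 hj))
        (fun c => (2 ^ d.wn) ^ c), Finset.mul_sum]
      refine Finset.sum_congr rfl fun c _ => ?_
      ring
    rw [Finset.sum_congr rfl h4, Finset.sum_comm, Finset.mul_sum] at h3
    simp only [Finset.sum_mul]
    rw [h3]
    refine Finset.sum_congr rfl fun j _ => ?_
    ring

/-- All the checks concerning classes. -/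
structure CkA (d : GD α) : Prop where
  base : d.chkBase = true
  gen : ∀ a < d.ng, d.chkGen a = true
  genI : ∀ a < d.ng, d.chkGenI a = true
  let' : ∀ l, 2 * d.ng ≤ l → l < d.A → d.chkLet l = true
  ngA : d.ng ≤ d.A
  conj : ∀ o ∈ d.ops, d.chkConj o = true
  cls : ∀ o ∈ d.ops, ∀ j < d.nc, d.chkCls o j = true
  inv : ∀ j < d.nc, d.chkInv j = true
  genOp : ∀ a < d.ng, d.chkGenOp d.ops a = true
  bal : ∀ o ∈ d.ops, d.chkBal o = true
  one : d.chkOne = true
  rf : ∀ j < d.nc, d.chkRf j = true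

lemma tr_eq (hc : CRS d.c φ e) (hB : d.Bas φ r) (hr : d.r = r) {lt : ℕ → G}
    (hL : Lt d φ V γ lt) (hrep : d.rep + d.nc ≤ d.A) {j : ℕ} (hj : j < d.nc) (p : ℕ) :
    φ (d.tr j p) = ((V (lt (d.rep + j))) ^ p).trace := by
  rw [← map_pow, ((hL.tb (d.rep + j) (by omega)).pow p).trace hB]
  unfold tr
  rw [d.sum_eq φ hc, hr]
  rfl

/-- The class data. -/
theorem cls_of (hc : CRS d.c φ e) (hG : Gp d φ V γ) (C : CkA d) :
    ∃ lt : ℕ → G, Lt d φ V γ lt ∧
      ClsOK d.nc (fun j => lt (d.rep + j)) d.nuv d.ik (d.ops.map (d.toOp lt)) := by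
  have hB := bas_of hc hG C.base
  obtain ⟨lt, hl1, hl2⟩ := exists_letters hc hG C.gen C.genI C.let'
  have hL : Lt d φ V γ lt := ⟨hl1, hl2, C.ngA⟩
  have hbase := C.base
  unfold chkBase at hbase
  simp only [cond_iff, ble_iff, allN_iff] at hbase
  have hrep : d.rep + d.nc ≤ d.A := hbase.2.1
  have hpos : 0 < d.nc := hbase.2.2.1
  have hone := C.one
  unfold chkOne at hone
  simp only [cond_iff, beq_iff, allN_iff, hG.hr] at hone
  refine ⟨lt, hL, ?_⟩
  have hcj : ∀ o ∈ d.ops, o.s + o.m ≤ d.A := by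
    intro o ho
    have := C.conj o ho
    unfold chkConj at this
    simp only [cond_iff, ble_iff] at this
    exact this.1
  exact {
    pos := hpos
    g0 := Tb.ext hB hG.inj (hL.tb (d.rep + 0) (by omega)) Tb.one hone.2
    ne1 := by
      intro j hj0 hj h1
      have h2 := C.rf j hj
      unfold chkRf at h2
      simp only [cond_iff] at h2
      have h3 := h2.2
      have hj0' : Nat.beq j 0 = false := by
        rw [← Bool.not_eq_true, beq_iff]; omega
      rw [hj0', cond_false, Bool.not_eq_true', ← Bool.not_eq_true, hc.eq,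
        tr_eq hc hB hG.hr hL hrep hj 1, hc.nat, pow_one, h1, map_one, Matrix.trace_one,
        Fintype.card_fin, hG.hr] at h3
      exact h3 rfl
    ν0 := hone.1
    ops := by
      intro o ho
      obtain ⟨o', ho', rfl⟩ := List.mem_map.1 ho
      exact {
        conj := by
          intro g
          obtain ⟨p, hp⟩ := (conjFam_of hB hG hL (C.conj o' ho')).1 g
          exact ⟨p, hp⟩
        lt := fun i hi j hj => (lt_cls hB hG hL hrep (hcj o' ho') hj (C.cls o' ho' j hj) i hi).1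
        cj := fun i hi j hj =>
          (lt_cls hB hG hL hrep (hcj o' ho') hj (C.cls o' ho' j hj) i hi).2 }
    gen := by
      rw [eq_top_iff, ← hG.cl, Subgroup.closure_le]
      rintro x ⟨a, ha, rfl⟩
      apply Subgroup.subset_closure
      have h4 := C.genOp a ha
      unfold chkGenOp at h4
      obtain ⟨o, ho, h5⟩ := List.any_eq_true.1 h4
      simp only [anyN_iff, allN_iff, beq_iff, hG.hr] at h5
      obtain ⟨i, hi, h6⟩ := h5
      refine ⟨d.toOp lt o, List.mem_map.2 ⟨o, ho, rfl⟩, i, hi, ?_⟩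
      rw [← hL.gen a ha]
      have := hcj o ho
      exact (Tb.ext hB hG.inj (hL.tb (o.s + i) (by omega)) (hL.tb a (by have := C.ngA; omega))
        h6).symm
    bal := by
      intro o ho
      obtain ⟨o', ho', rfl⟩ := List.mem_map.1 ho
      exact bal_of (fun i hi j hj =>
        (lt_cls hB hG hL hrep (hcj o' ho') hj (C.cls o' ho' j hj) i hi).1) (C.bal o' ho')
    invLt := fun j hj => (lt_inv hB hG hL hrep hj (C.inv j hj)).1
    invCj := fun j hj => (lt_inv hB hG hL hrep hj (C.inv j hj)).2 }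

end GD

end

end Pool.Agent.CMFn
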