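import Pool.Agent.CMFn.CSndA

/-! Project CMFn, block C: soundness of the checker, part B (characters).  helper62. -/

namespace Pool.Agent.CMFn

open Matrix

noncomputable section

lemma dg_fsum {W K D m : ℕ} (n z : ℕ → ℕ) (hz : ∀ t < m, z t < 2 ^ (W * K))
    (hd : ∀ t < m, ∀ k < K, dg W (z t) k < D)
    (hs : (∑ t ∈ Finset.range m, n t) * D ≤ 2 ^ W) :
    ∀ k < K, dg W (∑ t ∈ Finset.range m, n t * z t) k =
      ∑ t ∈ Finset.range m, n t * dg W (z t) k := by
  intro k hk
  have e : ∀ f : ℕ → ℕ, ((List.range m).map f).sum = ∑ t ∈ Finset.range m, f t := by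
    intro f
    induction m with
    | zero => simp
    | succ m ih =>
      rw [List.range_succ, List.map_append, List.sum_append, ih (fun t ht => hz t (by omega))
        (fun t ht => hd t (by omega)) ((Nat.mul_le_mul_right _ (by
          rw [Finset.sum_range_succ]; omega)).trans hs), Finset.sum_range_succ]
      simp
  have h := dg_lin (W := W) (K := K) (D := D) ((List.range m).map fun t => (n t, z t))
    (by
      intro p hp
      obtain ⟨t, ht, rfl⟩ := List.mem_map.1 hp
      exact hz t (List.mem_range.1 ht))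
    (by
      intro p hp
      obtain ⟨t, ht, rfl⟩ := List.mem_map.1 hp
      exact hd t (List.mem_range.1 ht))
    (by
      rw [List.map_map]
      have : (Prod.fst ∘ fun t => (n t, z t)) = n := rfl
      rw [this, e]
      exact hs) k hk
  rw [List.map_map, List.map_map] at h
  have e1 : ((fun p : ℕ × ℕ => p.1 * p.2) ∘ fun t => (n t, z t)) = fun t => n t * z t := rfl
  have e2 : ((fun p : ℕ × ℕ => p.1 * dg W p.2 k) ∘ fun t => (n t, z t)) =
      fun t => n t * dg W (z t) k := rfl
  rw [e1, e2, e, e] at h
  exact h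

variable {G : Type} [Group G] {α : Type}

namespace GD

variable {d : GD α} {φ : α → ℂ} {r : ℕ} {V : G →* Matrix (Fin r) (Fin r) ℂ} {e : ℕ → ℂ}
  {γ : ℕ → G}

lemma bit_iff {k i : ℕ} : bit k i = true ↔ Nat.testBit k i = true := by
  unfold bit
  rw [beq_iff, dg_eq, Nat.testBit_eq_decide_div_mod_eq]
  simp

lemma bit_lor {k t i : ℕ} (h : bit (Nat.lor k (Nat.pow 2 t)) i = true) :
    bit k i = true ∨ i = t := by
  rw [bit_iff] at h
  have h1 : Nat.testBit (k ||| 2 ^ t) i = true := h
  rw [Nat.testBit_or, Bool.or_eq_true, Nat.testBit_two_pow] at h1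
  rcases h1 with h1 | h1
  · exact Or.inl (bit_iff.2 h1)
  · right
    exact (of_decide_eq_true h1).symm

lemma bit_cond {c : Bool} {x y i : ℕ} (h : bit (cond c x y) i = true) :
    (c = true ∧ bit x i = true) ∨ (c = false ∧ bit y i = true) := by
  cases c
  · exact Or.inr ⟨rfl, h⟩
  · exact Or.inl ⟨rfl, h⟩

/-- Rows and columns agree. -/
structure RC (d : GD α) : Prop where
  row : ∀ i < d.K, d.row.get i < 2 ^ (d.W * (d.c.q * d.nc))
  col : ∀ j < d.nc, d.col.get j < 2 ^ (d.W * (d.c.q * d.K))
  eq : ∀ i < d.K, ∀ j < d.nc, ∀ k < d.c.q, dg d.W (d.row.get i) (d.c.q * j + k) =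
    dg d.W (d.col.get j) (d.c.q * i + k)
  lt : ∀ i < d.K, ∀ j < d.nc, ∀ k < d.c.q, dg d.W (d.row.get i) (d.c.q * j + k) < 2 * d.off

lemma rc_of (h1 : ∀ i < d.K, d.chkRC i = true) (h2 : d.chkCol = true) : RC d := by
  unfold chkCol at h2
  simp only [allN_iff, blt_iff] at h2
  unfold chkRC at h1
  simp only [cond_iff, allN_iff, blt_iff, beq_iff] at h1
  exact ⟨fun i hi => (h1 i hi).1, h2, fun i hi j hj k hk => ((h1 i hi).2 j hj k hk).1,
    fun i hi j hj k hk => ((h1 i hi).2 j hj k hk).2⟩

lemma RC.rowLt (R : RC d) {i : ℕ} (hi : i < d.K) {k : ℕ} (hk : k < d.c.q * d.nc) :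
    dg d.W (d.row.get i) k < 2 * d.off := by
  have hq : 0 < d.c.q := Nat.pos_of_ne_zero (by rintro h; rw [h] at hk; omega)
  have h1 : k / d.c.q < d.nc := Nat.div_lt_of_lt_mul hk
  have h2 : k % d.c.q < d.c.q := Nat.mod_lt _ hq
  have h3 := R.lt i hi _ h1 _ h2
  rwa [Nat.div_add_mod] at h3

lemma RC.colLt (R : RC d) {j : ℕ} (hj : j < d.nc) {k : ℕ} (hk : k < d.c.q * d.K) :
    dg d.W (d.col.get j) k < 2 * d.off := by
  have hq : 0 < d.c.q := Nat.pos_of_ne_zero (by rintro h; rw [h] at hk; omega)
  have h1 : k / d.c.q < d.K := Nat.div_lt_of_lt_mul hk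
  have h2 : k % d.c.q < d.c.q := Nat.mod_lt _ hq
  have h3 := R.lt _ h1 j hj _ h2
  rw [R.eq _ h1 j hj _ h2] at h3
  rwa [Nat.div_add_mod] at h3

lemma X_eq (hc : CRS d.c φ e) (i j : ℕ) : φ (d.X i j) = ∑ k ∈ Finset.range d.c.q,
    ((dg d.W (d.row.get i) (d.c.q * j + k) : ℂ) - d.off) * e k := by
  unfold X
  rw [hc.dec]
  rfl

lemma idx_lt {q a n k : ℕ} (ha : a < n) (hk : k < q) : q * a + k < q * n := by
  have : q * (a + 1) ≤ q * n := Nat.mul_le_mul_left _ ha
  rw [Nat.mul_add, Nat.mul_one] at this
  omega

lemma eig_of (hc : CRS d.c φ e) (R : RC d) {o : OD} {j : ℕ} (hj : j < d.nc)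
    (hk : ∀ t < o.m, d.kk o t j < d.nc) (h : d.chkEig o j = true) : ∀ i < d.K,
    ∑ t ∈ Finset.range o.m, φ (d.X i (d.kk o t j)) = φ (d.lamv o i) * φ (d.X i j) := by
  unfold chkEig at h
  simp only [cond_iff, ble_iff, allN_iff, hc.eq, hc.mul, sumN_eq] at h
  obtain ⟨h1, h2⟩ := h
  intro i hi
  rw [← h2 i hi, hc.dec]
  have h3 : ∀ k < d.c.q, dg d.W (∑ t ∈ Finset.range o.m, d.col.get (d.kk o t j))
      (Nat.add (Nat.mul d.c.q i) k) =
      ∑ t ∈ Finset.range o.m, dg d.W (d.row.get i) (d.c.q * d.kk o t j + k) := by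
    intro k hk'
    have h4 := dg_fsum (W := d.W) (K := d.c.q * d.K) (D := 2 * d.off) (m := o.m) (fun _ => 1)
      (fun t => d.col.get (d.kk o t j)) (fun t ht => R.col _ (hk t ht))
      (fun t ht k hk => R.colLt (hk := hk) (hj := by
        exact ‹∀ t < o.m, d.kk o t j < d.nc› t ht)) (by
        simp only [Finset.sum_const, Finset.card_range, smul_eq_mul, mul_one]
        exact h1) (d.c.q * i + k) (idx_lt hi hk')
    simp only [one_mul] at h4
    refine h4.trans ?_
    refine Finset.sum_congr rfl fun t ht => ?_
    rw [R.eq i hi _ (hk t (Finset.mem_range.1 ht)) k hk']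
  have h5 : ∀ k ∈ Finset.range d.c.q, ((dg d.W (∑ t ∈ Finset.range o.m, d.col.get (d.kk o t j))
      (Nat.add (Nat.mul d.c.q i) k) : ℂ) - (Nat.mul o.m d.off : ℕ)) * e k =
      ∑ t ∈ Finset.range o.m, ((dg d.W (d.row.get i) (d.c.q * d.kk o t j + k) : ℂ) - d.off) *
        e k := by
    intro k hk'
    rw [h3 k (Finset.mem_range.1 hk')]
    have : ((Nat.mul o.m d.off : ℕ) : ℂ) = o.m * d.off := by
      show ((o.m * d.off : ℕ) : ℂ) = _
      push_cast; ring
    rw [this, ← Finset.sum_mul]
    push_cast
    rw [Finset.sum_sub_distrib]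
    simp
  rw [Finset.sum_congr rfl h5, Finset.sum_comm]
  refine Finset.sum_congr rfl fun t _ => ?_
  rw [X_eq hc]

lemma prod_of (hc : CRS d.c φ e) (R : RC d) {a b N : ℕ} {ts : List ℕ}
    (h : d.stOK (St.prod a b N ts) = true) : ∀ j < d.nc,
    φ (d.X a j) * φ (d.X b j) =
      ∑ i ∈ Finset.range d.K, (((dg 16 N i : ℕ) : ℤ) : ℂ) * φ (d.X i j) := by
  unfold stOK at h
  simp only [cond_iff, ble_iff, allN_iff, hc.eq, hc.mul, sumN_eq] at h
  obtain ⟨h1, h2⟩ := h
  intro j hj
  rw [← h2 j hj, hc.dec]
  have h3 : ∀ k < d.c.q, dg d.W (∑ i ∈ Finset.range d.K, Nat.mul (dg 16 N i) (d.row.get i))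
      (Nat.add (Nat.mul d.c.q j) k) =
      ∑ i ∈ Finset.range d.K, dg 16 N i * dg d.W (d.row.get i) (d.c.q * j + k) := by
    intro k hk'
    exact dg_fsum (W := d.W) (K := d.c.q * d.nc) (D := 2 * d.off) (m := d.K) (fun i => dg 16 N i)
      (fun i => d.row.get i) (fun i hi => R.row i hi) (fun i hi k hk => R.rowLt hi hk) h1
      (d.c.q * j + k) (idx_lt hj hk')
  have h5 : ∀ k ∈ Finset.range d.c.q, ((dg d.W
      (∑ i ∈ Finset.range d.K, Nat.mul (dg 16 N i) (d.row.get i))
      (Nat.add (Nat.mul d.c.q j) k) : ℂ) -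
        (Nat.mul (∑ i ∈ Finset.range d.K, dg 16 N i) d.off : ℕ)) * e k =
      ∑ i ∈ Finset.range d.K, (((dg 16 N i : ℕ) : ℤ) : ℂ) *
        (((dg d.W (d.row.get i) (d.c.q * j + k) : ℂ) - d.off) * e k) := by
    intro k hk'
    rw [h3 k (Finset.mem_range.1 hk')]
    have : ((Nat.mul (∑ i ∈ Finset.range d.K, dg 16 N i) d.off : ℕ) : ℂ) =
        (∑ i ∈ Finset.range d.K, (dg 16 N i : ℂ)) * d.off := by
      show (((∑ i ∈ Finset.range d.K, dg 16 N i) * d.off : ℕ) : ℂ) = _
      push_cast; ring
    rw [this, Finset.sum_mul]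
    push_cast
    rw [← Finset.sum_sub_distrib, Finset.sum_mul]
    refine Finset.sum_congr rfl fun i _ => ?_
    ring
  rw [Finset.sum_congr rfl h5, Finset.sum_comm]
  refine Finset.sum_congr rfl fun i _ => ?_
  rw [X_eq hc, Finset.mul_sum]

/-- The list of operators with eigenvalues. -/
def opL (d : GD α) (φ : α → ℂ) (lt : ℕ → G) : List (Op G × (ℕ → ℂ)) :=
  d.ops.map fun o => (d.toOp lt o, fun i => φ (d.lamv o i))

lemma run_sound [Fintype G] (hc : CRS d.c φ e) (R : RC d) {lt : ℕ → G} (hB : d.Bas φ r)
    (hr : d.r = r) (hL : Lt d φ V γ lt) (hrep : d.rep + d.nc ≤ d.A)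
    (H : ClsOK d.nc (fun j => lt (d.rep + j)) d.nuv d.ik (d.ops.map (d.toOp lt)))
    (hE : ∀ p ∈ d.opL φ lt, EigOK d.nc (fun j => lt (d.rep + j)) d.K (fun i j => φ (d.X i j)) p)
    (l : List St) (hl : ∀ s ∈ l, d.stOK s = true) (k : ℕ)
    (hk : ∀ i, bit k i = true → VV d.nc (fun j => lt (d.rep + j)) (fun j => φ (d.X i j))) :
    ∀ i, bit (l.foldl d.run1 k) i = true →
      VV d.nc (fun j => lt (d.rep + j)) (fun j => φ (d.X i j)) := by
  induction l generalizing k with
  | nil => exact hk
  | cons s l ih =>
    rw [List.foldl_cons]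
    refine ih (fun s hs => hl s (by simp [hs])) _ ?_
    have hs := hl s (by simp)
    intro i hi
    cases s with
    | one t =>
      rcases bit_lor hi with h | h
      · exact hk i h
      · subst h
        unfold stOK at hs
        simp only [cond_iff, blt_iff, allN_iff, hc.eq, hc.nat] at hs
        refine VV.one.congr fun j hj => ?_
        rw [hs.2 j hj]; simp
    | vv t =>
      rcases bit_lor hi with h | h
      · exact hk i h
      · subst h
        unfold stOK at hs
        simp only [cond_iff, blt_iff, allN_iff, hc.eq] at hs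
        refine (VV.tr V).congr fun j hj => ?_
        rw [hs.2 j hj, tr_eq hc hB hr hL hrep hj, pow_one]
    | dual a t =>
      change bit (cond (bit k a) (Nat.lor k (Nat.pow 2 t)) k) i = true at hi
      cases h1 : bit k a with
      | false => rw [h1] at hi; exact hk i hi
      | true =>
        rw [h1] at hi
        rcases bit_lor hi with h | h
        · exact hk i h
        · subst h
          unfold stOK at hs
          simp only [cond_iff, blt_iff, allN_iff, hc.eq] at hs
          refine (VV.inv H.invLt H.invCj (hk a h1)).congr fun j hj => ?_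
          rw [hs.2 j hj]
    | prod a b N ts =>
      change bit (cond (cond (bit k a) (bit k b) false)
        (List.rec (motive := fun _ => ℕ) k (fun t _ ih => d.tgt N ih t) ts) k) i = true at hi
      cases h1 : bit k a with
      | false => rw [h1] at hi; exact hk i hi
      | true =>
        cases h2 : bit k b with
        | false => rw [h1, h2] at hi; exact hk i hi
        | true =>
          rw [h1, h2] at hi
          simp only [cond_true] at hi
          have key : ∀ ts : List ℕ, ∀ i, bit (List.rec (motive := fun _ => ℕ) k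
              (fun t _ ih => d.tgt N ih t) ts) i = true →
              VV d.nc (fun j => lt (d.rep + j)) (fun j => φ (d.X i j)) := by
            intro ts
            induction ts with
            | nil => exact hk
            | cons t ts iht =>
              intro i hi
              simp only at hi
              set k' : ℕ := List.rec (motive := fun _ => ℕ) k (fun t _ ih => d.tgt N ih t) ts
              unfold tgt at hi
              rcases bit_cond hi with ⟨h3, hi⟩ | ⟨_, hi⟩
              · rcases bit_lor hi with h | h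
                · exact iht i h
                · subst h
                  simp only [cond_iff, blt_iff, allN_iff, beq_iff] at h3
                  obtain ⟨h4, h5, h6⟩ := h3
                  refine vv_step (fun i j => φ (d.X i j)) (d.opL φ lt) hE (hk a h1) (hk b h2)
                    (fun i => ((dg 16 N i : ℕ) : ℤ)) (prod_of hc R hs) h4 (Or.inl (by
                      rw [h5]; rfl)) ?_
                  intro i' hi'
                  have h7 := h6 i' hi'
                  cases c1 : Nat.beq (dg 16 N i') 0 with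
                  | true =>
                    left
                    rw [beq_iff.1 c1]; rfl
                  | false =>
                    rw [c1, cond_false] at h7
                    cases c2 : Nat.beq i' i with
                    | true => right; left; exact beq_iff.1 c2
                    | false =>
                      rw [c2, cond_false] at h7
                      cases c3 : bit k' i' with
                      | true => right; right; left; exact iht i' c3
                      | false =>
                        rw [c3, cond_false] at h7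
                        right; right; right
                        obtain ⟨o, ho, h8⟩ := List.any_eq_true.1 h7
                        refine ⟨_, List.mem_map.2 ⟨o, ho, rfl⟩, ?_⟩
                        intro h9
                        rw [Bool.not_eq_true', ← Bool.not_eq_true, hc.eq] at h8
                        exact h8 h9
              · exact iht i hi
          exact key ts i hi

end GD

end

end Pool.Agent.CMFn
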