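import Pool.Agent.CMFn.CSndB

/-! Project CMFn, block C: soundness of the checker, part C (irreducible representations, links,
levels).  helper62. -/

namespace Pool.Agent.CMFn

open Matrix

noncomputable section

variable {G : Type} [Group G] {α : Type}

namespace GD

variable {d : GD α} {φ : α → ℂ} {r : ℕ} {V : G →* Matrix (Fin r) (Fin r) ℂ} {e : ℕ → ℂ}
  {γ : ℕ → G}

/-- All the checks concerning characters. -/
structure CkB (d : GD α) : Prop where
  rc : ∀ i < d.K, d.chkRC i = true
  col : d.chkCol = true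
  eig : ∀ o ∈ d.ops, ∀ j < d.nc, d.chkEig o j = true
  st : ∀ s ∈ d.steps, d.stOK s = true
  run : d.chkRun = true
  norm : ∀ i < d.K, d.chkNorm i = true
  dim : d.chkDim = true
  dist : ∀ i < d.K, d.chkDist i = true
  tt : d.chkT = true
  link : ∀ i < d.K, d.chkLink i = true
  piv : ∀ a < d.ng, d.chkPiv a = true
  par : ∀ o ∈ d.ops, o.gen < d.ng → d.chkPar o = true

/-- The results for a group: representatives `g_j = lt (rep + j)`, irreducible representations
`a_i` with characters `X_i` on the representatives. -/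
structure Out [Fintype G] (d : GD α) (φ : α → ℂ) {r : ℕ} (V : G →* Matrix (Fin r) (Fin r) ℂ)
    (γ : ℕ → G) (lt : ℕ → G) (a : ℕ → MRep G) : Prop where
  ltr : Lt d φ V γ lt
  cls : ClsOK d.nc (fun j => lt (d.rep + j)) d.nuv d.ik (d.ops.map (d.toOp lt))
  irr : ∀ i < d.K, IsIrr (a i).2 ∧ (a i).1 = d.dimv i ∧
    ∀ j < d.nc, ((a i).2 (lt (d.rep + j))).trace = φ (d.X i j)
  compl : ∀ b : MRep G, IsIrr b.2 → ∃ i < d.K, b.1 = (a i).1 ∧
    ∀ x, (b.2 x).trace = ((a i).2 x).trace
  eig : ∀ p ∈ d.opL φ lt, EigOK d.nc (fun j => lt (d.rep + j)) d.K (fun i j => φ (d.X i j)) p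
  refl : ∀ o ∈ d.ops, o.gen < d.ng → ∀ i < o.m, (V (lt (o.s + i)) - 1).rank = 1
  link : ∀ i < d.K, Relation.EqvGen (Lk V) (a i) (a (d.labv i)) ∧ d.labv i < d.K
  r0 : 0 < r

lemma rank_one_of {n : ℕ} (N : Matrix (Fin n) (Fin n) ℂ) (i0 j0 : Fin n) (h0 : N i0 j0 ≠ 0)
    (h : ∀ i j, N i j * N i0 j0 = N i j0 * N i0 j) : N.rank = 1 := by
  have h1 : N = Matrix.vecMulVec (fun i => N i j0 / N i0 j0) (fun j => N i0 j) := by
    ext i j
    rw [Matrix.vecMulVec_apply, div_mul_eq_mul_div, eq_div_iff h0]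
    exact h i j
  have h2 : N.rank ≤ 1 := by
    rw [h1]
    exact Matrix.rank_vecMulVec_le _ _
  have h3 : N.rank ≠ 0 := by
    intro h4
    have h5 : Module.finrank ℂ (LinearMap.range N.mulVecLin) = 0 := h4
    rw [Submodule.finrank_eq_zero] at h5
    have h6 : N *ᵥ Pi.single j0 1 = 0 := by
      have : N.mulVecLin (Pi.single j0 1) ∈ LinearMap.range N.mulVecLin := ⟨_, rfl⟩
      rw [h5, Submodule.mem_bot] at this
      exact this
    have h7 := congrFun h6 i0
    rw [Matrix.mulVec_single_one] at h7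
    exact h0 h7
  omega

lemma rank_conj (V : G →* Matrix (Fin r) (Fin r) ℂ) (x y : G) :
    (V (y * x * y⁻¹) - 1).rank = (V x - 1).rank := by
  have e1 : V y * V y⁻¹ = 1 := by rw [← map_mul]; simp
  have e3 : V y⁻¹ * V y = 1 := by rw [← map_mul]; simp
  have e2 : V (y * x * y⁻¹) - 1 = V y * (V x - 1) * V y⁻¹ := by
    rw [mul_sub, sub_mul, mul_one, e1, map_mul, map_mul]
  have hu : IsUnit (V y).det := (Matrix.isUnit_iff_isUnit_det _).1 (IsUnit.of_mul_eq_one _ e1)
  have hu' : IsUnit (V y⁻¹).det := (Matrix.isUnit_iff_isUnit_det _).1 (IsUnit.of_mul_eq_one _ e3)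
  rw [e2, Matrix.rank_mul_eq_left_of_isUnit_det _ _ hu',
    Matrix.rank_mul_eq_right_of_isUnit_det _ _ hu]

lemma piv_of (hc : CRS d.c φ e) (hG : Gp d φ V γ) {a : ℕ} (ha : a < d.ng)
    (h : d.chkPiv a = true) : (V (γ a) - 1).rank = 1 := by
  unfold chkPiv at h
  simp only [cond_iff, blt_iff, allN_iff, hc.eq, hc.mul, hG.hr] at h
  obtain ⟨h1, h2, h3, h4⟩ := h
  rw [Bool.not_eq_true', ← Bool.not_eq_true, hc.eq, hc.nat] at h3
  have hN : ∀ i j : Fin r, (V (γ a) - 1) i j = φ (d.nm a i j) := by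
    intro i j
    rw [hG.mat a ha, Matrix.sub_apply, Matrix.of_apply]
    unfold nm
    rw [hc.add, hc.neg, hc.nat, Matrix.one_apply, sub_eq_add_neg]
    congr 2
    by_cases hij : i = j
    · subst hij
      have : Nat.beq i.1 i.1 = true := by rw [beq_iff]
      rw [this]; simp
    · have : Nat.beq i.1 j.1 = false := by
        rw [← Bool.not_eq_true, beq_iff]
        exact fun h => hij (Fin.ext h)
      rw [this]; simp [hij]
  refine rank_one_of _ ⟨_, h1⟩ ⟨_, h2⟩ ?_ ?_
  · rw [hN]
    exact_mod_cast h3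
  · intro i j
    rw [hN, hN, hN, hN]
    exact h4 i i.2 j j.2

lemma refl_of (hB : d.Bas φ r) (hG : Gp d φ V γ) {lt : ℕ → G} (hL : Lt d φ V γ lt)
    (hpiv : ∀ a < d.ng, (V (γ a) - 1).rank = 1) {o : OD} (hconj : d.chkConj o = true)
    (h : d.chkPar o = true) : ∀ i < o.m, (V (lt (o.s + i)) - 1).rank = 1 := by
  have hcj := (conjFam_of hB hG hL hconj).2
  unfold chkConj at hconj
  simp only [cond_iff, ble_iff] at hconj
  have hA' : o.s + o.m ≤ d.A := hconj.1
  unfold chkPar at h
  simp only [cond_iff, blt_iff, allN_iff, beq_iff, hG.hr] at h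
  obtain ⟨h1, h2, h3⟩ := h
  intro i
  induction i using Nat.strong_induction_on with
  | _ i ih =>
    intro hi
    cases hi0 : Nat.beq i 0 with
    | true =>
      rw [beq_iff] at hi0
      subst hi0
      have h5 : lt (o.s + 0) = lt o.gen := by
        refine Tb.ext hB hG.inj (hL.tb (o.s + 0) (by omega))
          (hL.tb o.gen (by have := hL.ng; omega)) ?_
        exact h2
      rw [h5, hL.gen _ h1]
      exact hpiv _ h1
    | false =>
      have h4 := h3 i hi
      rw [hi0, cond_false] at h4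
      simp only [cond_iff, blt_iff, beq_iff] at h4
      obtain ⟨h5, h6, h7⟩ := h4
      have h8 := hcj (Nat.div (dg 16 o.par i) 256) h6 (Nat.mod (dg 16 o.par i) 256) (by omega)
      rw [h7] at h8
      rw [← h8.2, rank_conj]
      exact ih _ h5 (by omega)

lemma lt_rank [Fintype G] (hc : CRS d.c φ e) (hr : d.r = r) (hr0 : 0 < r) {lt : ℕ → G}
    (hB : d.Bas φ r)
    (hL : Lt d φ V γ lt) (hrep : d.rep + d.nc ≤ d.A)
    (hT : ∀ p ∈ d.tm, ∀ j < d.nc, φ (d.tv p.2 j) = ((V (lt (d.rep + j))) ^ p.1).trace)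
    {j : ℕ} (hj : j < d.nc) (h : d.chkRf j = true) :
    bit d.rf j = true ∨ (V (lt (d.rep + j)) - 1).rank ≠ 1 := by
  unfold chkRf at h
  simp only [cond_iff] at h
  have h1 := h.1
  cases hb : bit d.rf j with
  | true => left; rfl
  | false =>
    rw [hb, cond_false] at h1
    right
    intro h2
    obtain ⟨p, hp, h3⟩ := List.any_eq_true.1 h1
    rw [Bool.not_eq_true', ← Bool.not_eq_true, hc.eq] at h3
    apply h3
    have hsh : ∀ t, φ (d.sh t) = φ t - (r - 1) := by
      intro t
      unfold sh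
      rw [hc.add, hc.neg, hc.nat, hr, sub_eq_add_neg]
      congr 2
      obtain ⟨s, rfl⟩ : ∃ s, r = s + 1 := ⟨r - 1, by omega⟩
      simp
    rw [d.pow_eq φ hc, hsh, hsh, hT p hp j hj, tr_eq hc hB hr hL hrep hj, pow_one,
      trace_pow_of_rank_one _ h2 p.1]
    ring

/-- The main theorem of block C. -/
theorem cert [Fintype G] (hc : CRS d.c φ e) (hG : Gp d φ V γ) (CA : CkA d) (CB : CkB d) :
    ∃ (lt : ℕ → G) (a : ℕ → MRep G), Out d φ V γ lt a := by
  have hB := bas_of hc hG CA.base
  obtain ⟨lt, hL, H⟩ := cls_of hc hG CA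
  have hbase := CA.base
  unfold chkBase at hbase
  simp only [cond_iff, ble_iff, allN_iff] at hbase
  have hrep : d.rep + d.nc ≤ d.A := hbase.2.1
  have hr0 : 0 < r := by
    have := hbase.2.2.2.1
    rw [hG.hr] at this
    exact this
  have R := rc_of CB.rc CB.col
  have hE : ∀ p ∈ d.opL φ lt,
      EigOK d.nc (fun j => lt (d.rep + j)) d.K (fun i j => φ (d.X i j)) p := by
    intro p hp
    obtain ⟨o, ho, rfl⟩ := List.mem_map.1 hp
    have h1 : OpOK d.nc (fun j => lt (d.rep + j)) (d.toOp lt o) :=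
      H.ops _ (List.mem_map.2 ⟨o, ho, rfl⟩)
    refine ⟨h1, fun i hi j hj => ?_⟩
    exact eig_of hc R hj (fun t ht => h1.lt t ht j hj) (CB.eig o ho j hj) i hi
  have hVV : ∀ i < d.K, VV d.nc (fun j => lt (d.rep + j)) (fun j => φ (d.X i j)) := by
    intro i hi
    have h1 := CB.run
    unfold chkRun run at h1
    rw [allN_iff] at h1
    refine run_sound hc R hB hG.hr hL hrep H hE d.steps CB.st 0 (fun i hi => ?_) i (h1 i hi)
    exfalso
    unfold bit at hi
    rw [dg_zero] at hi
    exact absurd hi (by decide)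
  have htot : ((d.tot : ℕ) : ℂ) = ∑ j ∈ Finset.range d.nc, (d.nuv j : ℂ) := by
    unfold tot
    rw [sumN_eq]; push_cast; rfl
  have hdim := CB.dim
  unfold chkDim at hdim
  simp only [cond_iff, ble_iff, allN_iff, hc.eq, hc.nat, sumN_eq, beq_iff] at hdim
  obtain ⟨a, ha, hcompl⟩ := irr_exists H (K := d.K) (fun i j => φ (d.X i j)) d.dimv
    (fun i hi => (hdim.1 i hi).1) (fun i hi => (hdim.1 i hi).2) hVV (fun i hi => by
      have h1 := CB.norm i hi
      unfold chkNorm at h1
      rw [hc.eq, d.sum_eq φ hc, hc.nat, htot] at h1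
      rw [← h1]
      refine Finset.sum_congr rfl fun j _ => ?_
      rw [hc.mul, hc.mul, hc.nat]) (by
      have key : ∀ i < d.K, ∀ i' < i, ∃ j < d.nc, φ (d.X i j) ≠ φ (d.X i' j) := by
        intro i hi i' hi'
        have h1 := CB.dist i hi
        unfold chkDist at h1
        rw [allN_iff] at h1
        obtain ⟨j, hj, h2⟩ := anyN_iff.1 (h1 i' hi')
        rw [Bool.not_eq_true', ← Bool.not_eq_true, hc.eq] at h2
        exact ⟨j, hj, h2⟩
      intro i hi i' hi' hne
      rcases Nat.lt_or_gt_of_ne hne with h | h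
      · obtain ⟨j, hj, h2⟩ := key i' hi' i h
        exact ⟨j, hj, fun h3 => h2 h3.symm⟩
      · exact key i hi i' h) (by
      have h1 : ∑ i ∈ Finset.range d.K, d.dimv i * d.dimv i = d.tot := hdim.2
      simp only [pow_two]
      rw [h1]
      unfold tot
      rw [sumN_eq])
  have hT : ∀ p ∈ d.tm, 1 ≤ p.1 ∧ ∀ j < d.nc,
      φ (d.tv p.2 j) = ((V (lt (d.rep + j))) ^ p.1).trace := by
    intro p hp
    have h1 := List.all_eq_true.1 CB.tt p hp
    simp only [cond_iff, ble_iff, allN_iff, hc.eq] at h1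
    refine ⟨h1.1, fun j hj => ?_⟩
    rw [← h1.2 j hj, tr_eq hc hB hG.hr hL hrep hj]
  have hpiv : ∀ a < d.ng, (V (γ a) - 1).rank = 1 := fun a ha => piv_of hc hG ha (CB.piv a ha)
  have hdimC : ∀ i < d.K, ((a i).1 : ℂ) = φ (d.X i 0) := by
    intro i hi
    rw [(ha i hi).2.1, (hdim.1 i hi).2]
  have hlink : ∀ i < d.K, Relation.EqvGen (Lk V) (a i) (a (d.labv i)) ∧ d.labv i < d.K := by
    have key : ∀ h : ℕ, ∀ i < d.K, dg 16 d.hgt i = h →
        Relation.EqvGen (Lk V) (a i) (a (d.labv i)) ∧ d.labv i < d.K := by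
      intro h
      induction h using Nat.strong_induction_on with
      | _ h ih =>
        intro i hi hh
        have h1 := CB.link i hi
        unfold chkLink at h1
        cases h2 : (cond (Nat.beq (dg 16 d.par i) i) (Nat.beq (d.labv i) i) false) with
        | true =>
          rw [cond_iff] at h2
          have h3 := beq_iff.1 h2.2
          rw [h3]
          exact ⟨Relation.EqvGen.refl _, hi⟩
        | false =>
          rw [h2, cond_false] at h1
          simp only [cond_iff, blt_iff, beq_iff] at h1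
          obtain ⟨h3, h4, h5, h6⟩ := h1
          obtain ⟨h7, h8⟩ := ih (dg 16 d.hgt (dg 16 d.par i)) (by omega) _ h5 rfl
          rw [h4] at h7 h8
          refine ⟨?_, h8⟩
          refine Relation.EqvGen.trans _ _ _ (Relation.EqvGen.symm _ _
            (Relation.EqvGen.rel _ _ ?_)) h7
          set b := dg 16 d.par i with hb
          unfold lnk at h6
          simp only [cond_iff, ble_iff, allN_iff] at h6
          obtain ⟨h9, h10, h11⟩ := h6
          have hu : d.tm.getD (dg 16 d.lu i) (0, 0) ∈ d.tm := by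
            rcases Nat.lt_or_ge (dg 16 d.lu i) d.tm.length with h12 | h12
            · rw [List.getD_eq_getElem _ _ h12]
              exact List.getElem_mem h12
            · rw [List.getD_eq_default _ _ h12] at h9
              exact absurd h9 (by decide)
          refine ⟨(ha b h5).1, (ha i hi).1, ?_, _, h9, ?_⟩
          · refine sameLevel_of H V _ _ fun j hj => ?_
            rcases lt_rank hc hG.hr hr0 hB hL hrep (fun p hp => (hT p hp).2) hj
              (CA.rf j hj) with h12 | h12
            · right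
              have h13 := h10 j hj
              rw [h12, cond_true, hc.eq, hc.mul, hc.mul] at h13
              rw [(ha b h5).2.2 j hj, (ha i hi).2.2 j hj, hdimC i hi, hdimC b h5]
              exact h13
            · left; exact h12
          · rw [link_sum H]
            rw [Bool.not_eq_true', ← Bool.not_eq_true, hc.eq, d.sum_eq φ hc, hc.nat,
              Nat.cast_zero] at h11
            intro h12
            apply h11
            rw [← h12]
            refine Finset.sum_congr rfl fun j hj => ?_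
            have hj' := Finset.mem_range.1 hj
            have hij := H.invLt j hj'
            rw [hc.mul, hc.mul, hc.mul, hc.nat, (ha b h5).2.2 _ hij, (ha i hi).2.2 j hj']
            have h13 := (hT _ hu).2 _ hij
            unfold GD.lt
            rw [h13]
    intro i hi
    exact key _ i hi rfl
  exact ⟨lt, a, hL, H, ha, hcompl, hE, fun o ho hg =>
    refl_of hB hG hL hpiv (CA.conj o ho) (CB.par o ho hg), hlink, hr0⟩

/-- Every level is connected, if equal eigenvalues imply equal labels. -/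
theorem Out.conn [Fintype G] (hc : CRS d.c φ e) {lt : ℕ → G} {a : ℕ → MRep G}
    (O : Out d φ V γ lt a) (hlab : ∀ i < d.K, d.chkLab i = true) : Conn V := by
  have hpos : ∀ x : MRep G, IsIrr x.2 → 0 < x.1 := by
    intro x hx
    obtain ⟨i⟩ := hx.1
    exact i.pos
  have key : ∀ i < d.K, ∀ i' < i, SameLevel V (a i) (a i') → d.labv i = d.labv i' := by
    intro i hi i' hi' hS
    have h1 := hlab i hi
    unfold chkLab at h1
    rw [allN_iff] at h1
    have h2 := h1 i' hi'
    cases h3 : Nat.beq (d.labv i) (d.labv i') with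
    | true => exact beq_iff.1 h3
    | false =>
      exfalso
      rw [h3, cond_false] at h2
      obtain ⟨o, ho, h4⟩ := List.any_eq_true.1 h2
      simp only [cond_iff, blt_iff] at h4
      obtain ⟨h5, h6⟩ := h4
      rw [Bool.not_eq_true', ← Bool.not_eq_true, hc.eq] at h6
      apply h6
      have hp : (d.toOp lt o, fun i => φ (d.lamv o i)) ∈ d.opL φ lt :=
        List.mem_map.2 ⟨o, ho, rfl⟩
      have hi'' : i' < d.K := by omega
      exact eig_of_sameLevel V O.cls.pos O.cls.g0 (fun i j => φ (d.X i j)) _ (O.eig _ hp)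
        (fun t ht => O.refl o ho h5 t ht) (a i) (a i') hi hi'' (O.irr i hi).2.2
        (O.irr i' hi'').2.2 (hpos _ (O.irr i hi).1) (hpos _ (O.irr i' hi'').1) hS
  have hsymm : ∀ x y : MRep G, SameLevel V x y → SameLevel V y x :=
    fun x y h g hg => (h g hg).symm
  have htrans : ∀ x x' y : MRep G, x.1 = x'.1 → (∀ g, (x.2 g).trace = (x'.2 g).trace) →
      SameLevel V x y → SameLevel V x' y := by
    intro x x' y h1 h2 h g hg
    have h3 := h g hg
    have h4 : (x.1 : ℂ) = x'.1 := by rw [h1]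
    rw [h2 g, h4] at h3
    exact h3
  intro x y hx hy hS
  obtain ⟨i, hi, hxi, hxi'⟩ := O.compl x hx
  obtain ⟨i', hi', hyi, hyi'⟩ := O.compl y hy
  have hS' : SameLevel V (a i) (a i') :=
    hsymm _ _ (htrans _ _ _ hyi hyi' (hsymm _ _ (htrans _ _ _ hxi hxi' hS)))
  have hl : d.labv i = d.labv i' := by
    rcases Nat.lt_trichotomy i i' with h | h | h
    · exact (key i' hi' i h (hsymm _ _ hS')).symm
    · rw [h]
    · exact key i hi i' h hS'
  have e1 : Relation.EqvGen (Lk V) x (a i) :=
    Relation.EqvGen.rel _ _ (lk_of_eq O.r0 V x (a i) hx (O.irr i hi).1 hxi hxi')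
  have e2 : Relation.EqvGen (Lk V) y (a i') :=
    Relation.EqvGen.rel _ _ (lk_of_eq O.r0 V y (a i') hy (O.irr i' hi').1 hyi hyi')
  have e3 := (O.link i hi).1
  have e4 := (O.link i' hi').1
  rw [← hl] at e4
  exact e1.trans _ _ _ (e3.trans _ _ _ ((e4.symm _ _).trans _ _ _ (e2.symm _ _)))

end GD

end

end Pool.Agent.CMFn
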