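import Pool.Agent.CMFn.CSndC
import Pool.Agent.CMFn.CPair

/-! Project CMFn, block C: soundness of the checker, part D (data with one pair of characters known
through their sum).  helper62. -/

namespace Pool.Agent.CMFn

open Matrix

noncomputable section

section

variable {G : Type} [Group G] {nc : ℕ} {g : ℕ → G}

/-- A component with two unknown characters. -/
lemma vv_comp_pair [Fintype G] {K : ℕ} (X : ℕ → ℕ → ℂ) (L : List (Op G × (ℕ → ℂ)))
    (hL : ∀ p ∈ L, EigOK nc g K X p) {a b : ℕ} (ha : VV nc g (X a)) (hb : VV nc g (X b))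
    (n : ℕ → ℤ) (hn : ∀ j < nc, X a j * X b j = ∑ i ∈ Finset.range K, (n i : ℂ) * X i j)
    {p q : ℕ} (hp : p < K) (hq : q < K) (hpq : p ≠ q) (hnp : n p = 1) (hnq : n q = 1)
    (hlev : ∀ o ∈ L, o.2 q = o.2 p)
    (hk : ∀ i < K, n i = 0 ∨ i = p ∨ i = q ∨ VV nc g (X i) ∨ ∃ o ∈ L, o.2 i ≠ o.2 p) :
    VV nc g (fun j => X p j + X q j) := by
  classical
  have h1 : VV nc g (fun j => ∑ i ∈ Finset.range K, (n i : ℂ) * X i j) :=
    (ha.mul hb).congr hn
  have h2 := compL X L hL n h1 p
  set c : ℕ → ℤ := fun i => if ∀ o ∈ L, o.2 i = o.2 p then n i else 0 with hc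
  have h3 : VV nc g (fun j => ∑ i ∈ Finset.range K,
      (if i = p then 0 else if i = q then 0 else (c i : ℂ) * X i j)) := by
    refine VV.sum fun i hi => ?_
    by_cases hip : i = p
    · simpa [hip] using VV.zero
    · by_cases hiq : i = q
      · simpa [hiq] using VV.zero
      · simp only [hip, hiq, if_false]
        rcases hk i hi with h | h | h | h | ⟨o, ho, h⟩
        · refine VV.zero.congr fun j _ => ?_
          simp [hc, h]
        · exact absurd h hip
        · exact absurd h hiq
        · exact h.zsmul _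
        · refine VV.zero.congr fun j _ => ?_
          have h4 : ¬ ∀ o ∈ L, o.2 i = o.2 p := fun h5 => h (h5 o ho)
          simp only [hc, h4, if_false]
          simp
  refine (h2.add h3.neg).congr fun j _ => ?_
  have hcp : c p = 1 := by simp [hc, hnp]
  have hcq : c q = 1 := by
    show (if ∀ o ∈ L, o.2 q = o.2 p then n q else 0) = 1
    rw [if_pos hlev, hnq]
  rw [← sub_eq_add_neg, ← Finset.sum_sub_distrib]
  have h5 : ∀ i ∈ Finset.range K, (((c i : ℤ) : ℂ) * X i j -
      (if i = p then 0 else if i = q then 0 else (c i : ℂ) * X i j)) =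
      (if i = p then X p j else 0) + (if i = q then X q j else 0) := by
    intro i _
    by_cases hip : i = p
    · subst hip
      simp [hpq, hcp]
    · by_cases hiq : i = q
      · subst hiq
        simp [hip, hcq]
      · simp [hip, hiq]
  rw [Finset.sum_congr rfl h5, Finset.sum_add_distrib, Finset.sum_ite_eq', Finset.sum_ite_eq',
    if_pos (Finset.mem_range.2 hp), if_pos (Finset.mem_range.2 hq)]

end

namespace GD

section

variable {α : Type} (d : GD α)

/-- The sum of the characters `p` and `q` is a component of `X_a X_b`. -/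
def chkPair (a b N p q : ℕ) : Bool :=
  cond (d.stOK (St.prod a b N [])) (cond (bit (d.run d.steps) a) (cond (bit (d.run d.steps) b)
    (cond (Nat.beq (dg 16 N p) 1) (cond (Nat.beq (dg 16 N q) 1)
      (cond (Nat.blt p d.K) (cond (Nat.blt q d.K) (cond (Bool.not (Nat.beq p q))
        (cond (Nat.beq d.K d.nc)
          (cond (allN d.K fun i => cond (Nat.beq (dg 16 N i) 0) true (cond (Nat.beq i p) true
            (cond (Nat.beq i q) true (cond (bit (d.run d.steps) i) true
              (d.ops.any fun o => Bool.not (d.c.eq (d.lamv o i) (d.lamv o p)))))))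
            (d.ops.all fun o => d.c.eq (d.lamv o q) (d.lamv o p)) false)
        false) false) false) false) false) false) false) false) false

def chkRunP (p q : ℕ) : Bool :=
  allN d.K fun i => cond (Nat.beq i p) true (cond (Nat.beq i q) true (bit (d.run d.steps) i))

/-- Orthogonality of `X_p` and `X_i`. -/
def chkOrth (p i : ℕ) : Bool :=
  cond (Nat.beq i p) true (d.c.eq (d.sum d.nc fun j =>
    d.c.mul (d.c.nat (d.nuv j)) (d.c.mul (d.X p j) (d.X i (d.ik j)))) (d.c.nat 0))

end

variable {G : Type} [Group G] {α : Type}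
variable {d : GD α} {φ : α → ℂ} {r : ℕ} {V : G →* Matrix (Fin r) (Fin r) ℂ} {e : ℕ → ℂ}
  {γ : ℕ → G}

/-- The checks for data with a pair. -/
structure CkP (d : GD α) (a b N p q : ℕ) : Prop where
  rc : ∀ i < d.K, d.chkRC i = true
  col : d.chkCol = true
  eig : ∀ o ∈ d.ops, ∀ j < d.nc, d.chkEig o j = true
  st : ∀ s ∈ d.steps, d.stOK s = true
  run : d.chkRunP p q = true
  pair : d.chkPair a b N p q = true
  orp : ∀ i < d.K, d.chkOrth p i = true
  orq : ∀ i < d.K, d.chkOrth q i = true
  norm : ∀ i < d.K, d.chkNorm i = true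
  dim : d.chkDim = true
  dist : ∀ i < d.K, d.chkDist i = true

/-- All rows are virtual characters. -/
theorem vv_of_pair [Fintype G] (hc : CRS d.c φ e) (hG : Gp d φ V γ) (CA : CkA d)
    {a b N p q : ℕ} (C : CkP d a b N p q) {lt : ℕ → G} (hL : Lt d φ V γ lt)
    (H : ClsOK d.nc (fun j => lt (d.rep + j)) d.nuv d.ik (d.ops.map (d.toOp lt))) :
    ∀ i < d.K, VV d.nc (fun j => lt (d.rep + j)) (fun j => φ (d.X i j)) := by
  have hB := bas_of hc hG CA.base
  have hbase := CA.base
  unfold chkBase at hbase
  simp only [cond_iff, ble_iff, allN_iff] at hbase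
  have hrep : d.rep + d.nc ≤ d.A := hbase.2.1
  have R := rc_of C.rc C.col
  have hE : ∀ p ∈ d.opL φ lt,
      EigOK d.nc (fun j => lt (d.rep + j)) d.K (fun i j => φ (d.X i j)) p := by
    intro p hp
    obtain ⟨o, ho, rfl⟩ := List.mem_map.1 hp
    have h1 : OpOK d.nc (fun j => lt (d.rep + j)) (d.toOp lt o) :=
      H.ops _ (List.mem_map.2 ⟨o, ho, rfl⟩)
    refine ⟨h1, fun i hi j hj => ?_⟩
    exact eig_of hc R hj (fun t ht => h1.lt t ht j hj) (C.eig o ho j hj) i hi
  have hrun : ∀ i, bit (d.run d.steps) i = true →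
      VV d.nc (fun j => lt (d.rep + j)) (fun j => φ (d.X i j)) := by
    unfold run
    refine run_sound hc R hB hG.hr hL hrep H hE d.steps C.st 0 (fun i hi => ?_)
    exfalso
    unfold bit at hi
    rw [dg_zero] at hi
    exact absurd hi (by decide)
  have hdim := C.dim
  unfold chkDim at hdim
  simp only [cond_iff, ble_iff, allN_iff, hc.eq, hc.nat, sumN_eq, beq_iff] at hdim
  have hpair := C.pair
  unfold chkPair at hpair
  simp only [cond_iff, beq_iff, blt_iff, allN_iff, List.all_eq_true] at hpair
  obtain ⟨p1, p2, p3, p4, p5, p6, p7, p8, p9, p10, p11⟩ := hpair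
  have hpq : p ≠ q := by
    rw [Bool.not_eq_true', ← Bool.not_eq_true, beq_iff] at p8
    exact p8
  have hY : VV d.nc (fun j => lt (d.rep + j)) (fun j => φ (d.X p j) + φ (d.X q j)) := by
    refine vv_comp_pair (fun i j => φ (d.X i j)) (d.opL φ lt) hE (hrun a p2) (hrun b p3)
      (fun i => ((dg 16 N i : ℕ) : ℤ)) (prod_of hc R p1) p6 p7 hpq (by rw [p4]; rfl)
      (by rw [p5]; rfl) ?_ ?_
    · intro o ho
      obtain ⟨o', ho', rfl⟩ := List.mem_map.1 ho
      have h1 := p11 o' ho'
      rw [hc.eq] at h1
      exact h1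
    · intro i hi
      have h7 := p10 i hi
      cases c1 : Nat.beq (dg 16 N i) 0 with
      | true =>
        left
        rw [beq_iff.1 c1]; rfl
      | false =>
        rw [c1, cond_false] at h7
        cases c2 : Nat.beq i p with
        | true => right; left; exact beq_iff.1 c2
        | false =>
          rw [c2, cond_false] at h7
          cases c4 : Nat.beq i q with
          | true => right; right; left; exact beq_iff.1 c4
          | false =>
            rw [c4, cond_false] at h7
            cases c3 : bit (d.run d.steps) i with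
            | true => right; right; right; left; exact hrun i c3
            | false =>
              rw [c3, cond_false] at h7
              right; right; right; right
              obtain ⟨o, ho, h8⟩ := List.any_eq_true.1 h7
              refine ⟨_, List.mem_map.2 ⟨o, ho, rfl⟩, ?_⟩
              intro h9
              rw [Bool.not_eq_true', ← Bool.not_eq_true, hc.eq] at h8
              exact h8 h9
  have htot : ((d.tot : ℕ) : ℂ) = ∑ j ∈ Finset.range d.nc, (d.nuv j : ℂ) := by
    unfold tot
    rw [sumN_eq]; push_cast; rfl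
  have horth : ∀ s, (∀ i < d.K, d.chkOrth s i = true) → ∀ i < d.nc, i ≠ s →
      ∑ j ∈ Finset.range d.nc, (d.nuv j : ℂ) * (φ (d.X s j) * φ (d.X i (d.ik j))) = 0 := by
    intro s hs i hi his
    have h1 := hs i (by omega)
    unfold chkOrth at h1
    have h2 : Nat.beq i s = false := by
      rw [← Bool.not_eq_true, beq_iff]; exact his
    rw [h2, cond_false, hc.eq, d.sum_eq φ hc, hc.nat, Nat.cast_zero] at h1
    rw [← h1]
    refine Finset.sum_congr rfl fun j _ => ?_
    rw [hc.mul, hc.mul, hc.nat]
  have hrest : ∀ i < d.nc, i ≠ p → i ≠ q →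
      VV d.nc (fun j => lt (d.rep + j)) (fun j => φ (d.X i j)) := by
    intro i hi hip hiq
    have h1 := C.run
    unfold chkRunP at h1
    rw [allN_iff] at h1
    have h2 := h1 i (by omega)
    have h3 : Nat.beq i p = false := by
      rw [← Bool.not_eq_true, beq_iff]; exact hip
    have h4 : Nat.beq i q = false := by
      rw [← Bool.not_eq_true, beq_iff]; exact hiq
    rw [h3, h4, cond_false, cond_false] at h2
    exact hrun i h2
  have key := vv_pair H (fun i j => φ (d.X i j)) (p := p) (q := q) (by omega) (by omega) hpq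
    d.dimv (fun i hi => (hdim.1 i (by omega)).1) (fun i hi => (hdim.1 i (by omega)).2) hrest hY
    (fun i hi => by
      have h1 := C.norm i (by omega)
      unfold chkNorm at h1
      rw [hc.eq, d.sum_eq φ hc, hc.nat, htot] at h1
      rw [← h1]
      refine Finset.sum_congr rfl fun j _ => ?_
      rw [hc.mul, hc.mul, hc.nat])
    (fun i hi hne => horth p C.orp i hi hne) (fun i hi hne => horth q C.orq i hi hne)
    (by
      have key : ∀ i < d.K, ∀ i' < i, ∃ j < d.nc, φ (d.X i j) ≠ φ (d.X i' j) := by
        intro i hi i' hi'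
        have h1 := C.dist i hi
        unfold chkDist at h1
        rw [allN_iff] at h1
        obtain ⟨j, hj, h2⟩ := anyN_iff.1 (h1 i' hi')
        rw [Bool.not_eq_true', ← Bool.not_eq_true, hc.eq] at h2
        exact ⟨j, hj, h2⟩
      intro i hi i' hi' hne
      rcases Nat.lt_or_gt_of_ne hne with h | h
      · obtain ⟨j, hj, h2⟩ := key i' (by omega) i h
        exact ⟨j, hj, fun h3 => h2 h3.symm⟩
      · exact key i (by omega) i' h)
  intro i hi
  by_cases hip : i = p
  · rw [hip]; exact key.1
  · by_cases hiq : i = q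
    · rw [hiq]; exact key.2
    · exact hrest i (by omega) hip hiq

/-- The main theorem of block C, for data with a pair. -/
theorem certP [Fintype G] (hc : CRS d.c φ e) (hG : Gp d φ V γ) (CA : CkA d) {a₀ b₀ N₀ p₀ q₀ : ℕ}
    (CB : CkP d a₀ b₀ N₀ p₀ q₀) (tt : d.chkT = true) (lk : ∀ i < d.K, d.chkLink i = true)
    (pv : ∀ a < d.ng, d.chkPiv a = true)
    (pr : ∀ o ∈ d.ops, o.gen < d.ng → d.chkPar o = true) :
    ∃ (lt : ℕ → G) (a : ℕ → MRep G), Out d φ V γ lt a := by
  have hB := bas_of hc hG CA.base
  obtain ⟨lt, hL, H⟩ := cls_of hc hG CA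
  have hbase := CA.base
  unfold chkBase at hbase
  simp only [cond_iff, ble_iff, allN_iff] at hbase
  have hrep : d.rep + d.nc ≤ d.A := hbase.2.1
  have hr0 : 0 < r := by
    have := hbase.2.2.2.1
    rw [hG.hr] at this
    exact this
  have R := rc_of CB.rc CB.col
  have hE : ∀ p ∈ d.opL φ lt,
      EigOK d.nc (fun j => lt (d.rep + j)) d.K (fun i j => φ (d.X i j)) p := by
    intro p hp
    obtain ⟨o, ho, rfl⟩ := List.mem_map.1 hp
    have h1 : OpOK d.nc (fun j => lt (d.rep + j)) (d.toOp lt o) :=
      H.ops _ (List.mem_map.2 ⟨o, ho, rfl⟩)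
    refine ⟨h1, fun i hi j hj => ?_⟩
    exact eig_of hc R hj (fun t ht => h1.lt t ht j hj) (CB.eig o ho j hj) i hi
  have hVV : ∀ i < d.K, VV d.nc (fun j => lt (d.rep + j)) (fun j => φ (d.X i j)) := by
    exact vv_of_pair hc hG CA CB hL H
  have htot : ((d.tot : ℕ) : ℂ) = ∑ j ∈ Finset.range d.nc, (d.nuv j : ℂ) := by
    unfold tot
    rw [sumN_eq]; push_cast; rfl
  have hdim := CB.dim
  unfold chkDim at hdim
  simp only [cond_iff, ble_iff, allN_iff, hc.eq, hc.nat, sumN_eq, beq_iff] at hdim
  obtain ⟨a, ha, hcompl⟩ := irr_exists H (K := d.K) (fun i j => φ (d.X i j)) d.dimv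
    (fun i hi => (hdim.1 i hi).1) (fun i hi => (hdim.1 i hi).2) hVV (fun i hi => by
      have h1 := CB.norm i hi
      unfold chkNorm at h1
      rw [hc.eq, d.sum_eq φ hc, hc.nat, htot] at h1
      rw [← h1]
      refine Finset.sum_congr rfl fun j _ => ?_
      rw [hc.mul, hc.mul, hc.nat]) (by
      have key : ∀ i < d.K, ∀ i' < i, ∃ j < d.nc, φ (d.X i j) ≠ φ (d.X i' j) := by
        intro i hi i' hi'
        have h1 := CB.dist i hi
        unfold chkDist at h1
        rw [allN_iff] at h1
        obtain ⟨j, hj, h2⟩ := anyN_iff.1 (h1 i' hi')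
        rw [Bool.not_eq_true', ← Bool.not_eq_true, hc.eq] at h2
        exact ⟨j, hj, h2⟩
      intro i hi i' hi' hne
      rcases Nat.lt_or_gt_of_ne hne with h | h
      · obtain ⟨j, hj, h2⟩ := key i' hi' i h
        exact ⟨j, hj, fun h3 => h2 h3.symm⟩
      · exact key i hi i' h) (by
      have h1 : ∑ i ∈ Finset.range d.K, d.dimv i * d.dimv i = d.tot := hdim.2
      simp only [pow_two]
      rw [h1]
      unfold tot
      rw [sumN_eq])
  have hT : ∀ p ∈ d.tm, 1 ≤ p.1 ∧ ∀ j < d.nc,
      φ (d.tv p.2 j) = ((V (lt (d.rep + j))) ^ p.1).trace := by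
    intro p hp
    have h1 := List.all_eq_true.1 tt p hp
    simp only [cond_iff, ble_iff, allN_iff, hc.eq] at h1
    refine ⟨h1.1, fun j hj => ?_⟩
    rw [← h1.2 j hj, tr_eq hc hB hG.hr hL hrep hj]
  have hpiv : ∀ a < d.ng, (V (γ a) - 1).rank = 1 := fun a ha => piv_of hc hG ha (pv a ha)
  have hdimC : ∀ i < d.K, ((a i).1 : ℂ) = φ (d.X i 0) := by
    intro i hi
    rw [(ha i hi).2.1, (hdim.1 i hi).2]
  have hlink : ∀ i < d.K, Relation.EqvGen (Lk V) (a i) (a (d.labv i)) ∧ d.labv i < d.K := by
    have key : ∀ h : ℕ, ∀ i < d.K, dg 16 d.hgt i = h →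
        Relation.EqvGen (Lk V) (a i) (a (d.labv i)) ∧ d.labv i < d.K := by
      intro h
      induction h using Nat.strong_induction_on with
      | _ h ih =>
        intro i hi hh
        have h1 := lk i hi
        unfold chkLink at h1
        cases h2 : (cond (Nat.beq (dg 16 d.par i) i) (Nat.beq (d.labv i) i) false) with
        | true =>
          rw [cond_iff] at h2
          have h3 := beq_iff.1 h2.2
          rw [h3]
          exact ⟨Relation.EqvGen.refl _, hi⟩
        | false =>
          rw [h2, cond_false] at h1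
          simp only [cond_iff, blt_iff, beq_iff] at h1
          obtain ⟨h3, h4, h5, h6⟩ := h1
          obtain ⟨h7, h8⟩ := ih (dg 16 d.hgt (dg 16 d.par i)) (by omega) _ h5 rfl
          rw [h4] at h7 h8
          refine ⟨?_, h8⟩
          refine Relation.EqvGen.trans _ _ _ (Relation.EqvGen.symm _ _
            (Relation.EqvGen.rel _ _ ?_)) h7
          set b := dg 16 d.par i with hb
          unfold lnk at h6
          simp only [cond_iff, ble_iff, allN_iff] at h6
          obtain ⟨h9, h10, h11⟩ := h6
          have hu : d.tm.getD (dg 16 d.lu i) (0, 0) ∈ d.tm := by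
            rcases Nat.lt_or_ge (dg 16 d.lu i) d.tm.length with h12 | h12
            · rw [List.getD_eq_getElem _ _ h12]
              exact List.getElem_mem h12
            · rw [List.getD_eq_default _ _ h12] at h9
              exact absurd h9 (by decide)
          refine ⟨(ha b h5).1, (ha i hi).1, ?_, _, h9, ?_⟩
          · refine sameLevel_of H V _ _ fun j hj => ?_
            rcases lt_rank hc hG.hr hr0 hB hL hrep (fun p hp => (hT p hp).2) hj
              (CA.rf j hj) with h12 | h12
            · right
              have h13 := h10 j hj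
              rw [h12, cond_true, hc.eq, hc.mul, hc.mul] at h13
              rw [(ha b h5).2.2 j hj, (ha i hi).2.2 j hj, hdimC i hi, hdimC b h5]
              exact h13
            · left; exact h12
          · rw [link_sum H]
            rw [Bool.not_eq_true', ← Bool.not_eq_true, hc.eq, d.sum_eq φ hc, hc.nat,
              Nat.cast_zero] at h11
            intro h12
            apply h11
            rw [← h12]
            refine Finset.sum_congr rfl fun j hj => ?_
            have hj' := Finset.mem_range.1 hj
            have hij := H.invLt j hj'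
            rw [hc.mul, hc.mul, hc.mul, hc.nat, (ha b h5).2.2 _ hij, (ha i hi).2.2 j hj']
            have h13 := (hT _ hu).2 _ hij
            unfold GD.lt
            rw [h13]
    intro i hi
    exact key _ i hi rfl
  exact ⟨lt, a, hL, H, ha, hcompl, hE, fun o ho hg =>
    refl_of hB hG hL hpiv (CA.conj o ho) (pr o ho hg), hlink, hr0⟩

end GD

end

end Pool.Agent.CMFn
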