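import Pool.Agent.CMFn.CenA

/-! Project CMFn, block N, Cen: lifting from the restricted algebra to `H_{0,c}`. -/

namespace Pool.Agent.CMFn

open Matrix

noncomputable section

variable {r : ℕ} {N : SG r} [Fintype N] {c : N → ℂ}

namespace CenX

/-- Algebra homomorphisms commute with the evaluation of polynomials. -/
lemma map_evP {K A B : Type} [Field K] [Ring A] [Algebra K A] [Ring B] [Algebra K B] {r : ℕ}
    (f : A →ₐ[K] B) (a : Fin r → A) (p : MvPolynomial (Fin r) K) :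
    f (evP a p) = evP (fun i => f (a i)) p := by
  unfold evP
  rw [map_sum]
  refine Finset.sum_congr rfl fun m _ => ?_
  rw [map_mul, AlgHom.commutes, map_list_prod, List.map_ofFn]
  congr 3
  funext i
  simp

lemma Iid_mul (hc : IsCls c) {x : H0 N c} (hx : x ∈ Iid c) (b : H0 N c) : x * b ∈ Iid c := by
  refine Submodule.span_induction (p := fun x _ => x * b ∈ Iid c) ?_ ?_ ?_ ?_ hx
  · intro a ha
    rw [Inv_central hc a ha b]
    exact (Iid c).mul_mem_left b (Submodule.subset_span ha)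
  · rw [zero_mul]; exact (Iid c).zero_mem
  · intro x y _ _ h1 h2
    rw [add_mul]; exact (Iid c).add_mem h1 h2
  · intro a x _ h
    rw [smul_eq_mul, mul_assoc]
    exact (Iid c).mul_mem_left a h

lemma twoSided (hc : IsCls c) : (Iid c).IsTwoSided := ⟨fun b h => Iid_mul hc h b⟩

lemma h0_surj (a : H0 N c) : ∃ w : FA ℂ r N, h0 N c w = a :=
  RingQuot.mkAlgHom_surjective ℂ (HRel N c) a

lemma hq_surj (a : Hbar N c) : ∃ w : FA ℂ r N, hq N c w = a :=
  RingQuot.mkAlgHom_surjective ℂ (HbRel N c) a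

end CenX

open CenX

/-- A word that vanishes in `H̄` lies in the ideal of the invariants. (Map `H̄ → H₀/Iid`.) -/
theorem lift_zero (hc : IsCls c) (w : FA ℂ r N) (hw : hq N c w = 0) : h0 N c w ∈ Iid c := by
  have := twoSided (N := N) hc
  let q : H0 N c →ₐ[ℂ] (H0 N c ⧸ Iid c) := Ideal.Quotient.mkₐ ℂ (Iid c)
  have hrel : ∀ ⦃a b : FA ℂ r N⦄, HbRel N c a b → (q.comp (h0 N c)) a = (q.comp (h0 N c)) b := by
    intro a b hab
    show q (h0 N c a) = q (h0 N c b)
    cases hab with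
    | base _ _ h =>
      rw [RingQuot.mkAlgHom_rel ℂ h]
    | invX p hp =>
      rw [map_zero, map_zero]
      refine Ideal.Quotient.eq_zero_iff_mem.2 (Submodule.subset_span (Or.inl ⟨p, hp, ?_⟩))
      exact map_evP _ _ _
    | invY p hp =>
      rw [map_zero, map_zero]
      refine Ideal.Quotient.eq_zero_iff_mem.2 (Submodule.subset_span (Or.inr ⟨p, hp, ?_⟩))
      exact map_evP _ _ _
  have h1 : (RingQuot.liftAlgHom ℂ ⟨q.comp (h0 N c), hrel⟩) (hq N c w) = q (h0 N c w) :=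
    RingQuot.liftAlgHom_mkAlgHom_apply ℂ _ hrel w
  rw [hw, map_zero] at h1
  exact Ideal.Quotient.eq_zero_iff_mem.1 h1.symm

namespace CenX

/-- Elements of the left ideal generated by `V` lift. -/
lemma lift_leftY (hc : IsCls c) (w : FA ℂ r N) (hw : hq N c w ∈ leftY N c) :
    h0 N c w ∈ Iid c ⊔ leftY0 c := by
  have key : ∀ x ∈ leftY N c, ∃ w' : FA ℂ r N, hq N c w' = x ∧ h0 N c w' ∈ leftY0 c := by
    intro x hx
    refine Submodule.span_induction
      (p := fun x _ => ∃ w' : FA ℂ r N, hq N c w' = x ∧ h0 N c w' ∈ leftY0 c) ?_ ?_ ?_ ?_ hx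
    · rintro _ ⟨i, rfl⟩
      exact ⟨fY i, rfl, Submodule.subset_span ⟨i, rfl⟩⟩
    · exact ⟨0, map_zero _, by rw [map_zero]; exact (leftY0 c).zero_mem⟩
    · rintro x y _ _ ⟨w1, h1, h1'⟩ ⟨w2, h2, h2'⟩
      exact ⟨w1 + w2, by rw [map_add, h1, h2], by rw [map_add]; exact (leftY0 c).add_mem h1' h2'⟩
    · rintro a x _ ⟨w1, h1, h1'⟩
      obtain ⟨u, rfl⟩ := hq_surj a
      exact ⟨u * w1, by rw [map_mul, h1, smul_eq_mul], by
        rw [map_mul]; exact (leftY0 c).mul_mem_left _ h1'⟩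
  obtain ⟨w', h1, h2⟩ := key _ hw
  have h3 : h0 N c (w - w') ∈ Iid c := lift_zero hc _ (by rw [map_sub, h1, sub_self])
  have h4 : h0 N c w = h0 N c (w - w') + h0 N c w' := by rw [map_sub, sub_add_cancel]
  rw [h4]
  exact Submodule.add_mem_sup h3 h2

/-- `p_ρ` as a word. -/
def pF {d : ℕ} (ρ : N →* Matrix (Fin d) (Fin d) ℂ) : FA ℂ r N :=
  ∑ g : N, ((d : ℂ) / (Fintype.card N : ℂ) * (ρ g⁻¹).trace) • fT g

lemma h0_pF {d : ℕ} (ρ : N →* Matrix (Fin d) (Fin d) ℂ) : h0 N c (pF ρ) = pR c ρ := by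
  unfold pF pR
  rw [map_sum]
  exact Finset.sum_congr rfl fun g _ => map_smul _ _ _

lemma hq_pF {d : ℕ} (ρ : N →* Matrix (Fin d) (Fin d) ℂ) : hq N c (pF ρ) = pRep N c ρ := by
  unfold pF pRep
  rw [map_sum]
  refine Finset.sum_congr rfl fun g _ => ?_
  rw [map_smul, Algebra.smul_def]

end CenX

/-- From `CMSep` to an element of `H_{0,c}`. -/
theorem exists_sep (hc : IsCls c) {d d' : ℕ} (ρ : N →* Matrix (Fin d) (Fin d) ℂ)
    (σ : N →* Matrix (Fin d') (Fin d') ℂ) (h : CMSep N c ρ σ) :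
    ∃ z : H0 N c, IsCI c z ∧ z * pR c ρ - pR c ρ ∈ Iid c ⊔ leftY0 c ∧
      z * pR c σ ∈ Iid c ⊔ leftY0 c := by
  obtain ⟨e, he, hcen, h1, h2⟩ := h
  obtain ⟨w, rfl⟩ := hq_surj e
  refine ⟨h0 N c w, ⟨?_, ?_⟩, ?_, ?_⟩
  · rw [← map_mul, ← map_sub]
    exact lift_zero hc _ (by rw [map_sub, map_mul, he, sub_self])
  · intro a
    obtain ⟨u, rfl⟩ := h0_surj a
    rw [← map_mul, ← map_mul, ← map_sub]
    exact lift_zero hc _ (by rw [map_sub, map_mul, map_mul, hcen, sub_self])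
  · rw [← h0_pF, ← map_mul, ← map_sub]
    refine lift_leftY hc _ ?_
    rw [map_sub, map_mul, hq_pF]
    exact h1
  · rw [← h0_pF, ← map_mul]
    refine lift_leftY hc _ ?_
    rw [map_mul, hq_pF]
    exact h2

end

end Pool.Agent.CMFn
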