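import Pool.Agent.CMFn.DatG25
import Pool.Agent.CMFn.CUse
import Pool.Agent.CMFn.CRing

/-! Project CMFn, block C: the group G25. -/

namespace Pool.Agent.CMFn.G25

open GD

noncomputable section

theorem ck_base : dat.chkBase = true := by decide +kernel

theorem ck_gen : allR 0 3 dat.chkGen = true := by decide +kernel

theorem ck_genI : allR 0 3 dat.chkGenI = true := by decide +kernel

theorem ck_lets : allR 6 36 dat.chkLet = true := by decide +kernel

theorem ck_conj0 : dat.chkConj op0 = true := by decide +kernel

theorem ck_cls0 : allR 0 24 (dat.chkCls op0) = true := by decide +kernel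

theorem ck_inv : allR 0 24 dat.chkInv = true := by decide +kernel

theorem ck_genOp : allR 0 3 (dat.chkGenOp dat.ops) = true := by decide +kernel

theorem ck_bal0 : dat.chkBal op0 = true := by decide +kernel

theorem ck_one : dat.chkOne = true := by decide +kernel

theorem ck_rf : allR 0 24 dat.chkRf = true := by decide +kernel

theorem ck_rc : allR 0 24 dat.chkRC = true := by decide +kernel

theorem ck_col : dat.chkCol = true := by decide +kernel

theorem ck_eig0 : allR 0 24 (dat.chkEig op0) = true := by decide +kernel

theorem ck_st : (dat.steps.all dat.stOK) = true := by decide +kernel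

theorem ck_run : dat.chkRun = true := by decide +kernel

theorem ck_norm : allR 0 24 dat.chkNorm = true := by decide +kernel

theorem ck_dim : dat.chkDim = true := by decide +kernel

theorem ck_dist : allR 0 24 dat.chkDist = true := by decide +kernel

theorem ck_tt : dat.chkT = true := by decide +kernel

theorem ck_link : allR 0 24 dat.chkLink = true := by decide +kernel

theorem ck_piv : allR 0 3 dat.chkPiv = true := by decide +kernel

theorem ck_par0 : dat.chkPar op0 = true := by decide +kernel

theorem ck_lab : allR 0 24 dat.chkLab = true := by decide +kernel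

theorem ckA : CkA dat where
  base := ck_base
  gen := of_allR ck_gen
  genI := of_allR ck_genI
  let' := fun l h1 h2 => allR_iff.1 ck_lets l h1 (by
    have h3 : l < 42 := h2
    omega)
  ngA := by decide
  conj := List.forall_mem_cons.2 ⟨ck_conj0, List.forall_mem_nil _⟩
  cls := List.forall_mem_cons.2 ⟨of_allR ck_cls0, List.forall_mem_nil _⟩
  inv := of_allR ck_inv
  genOp := of_allR ck_genOp
  bal := List.forall_mem_cons.2 ⟨ck_bal0, List.forall_mem_nil _⟩
  one := ck_one
  rf := of_allR ck_rf

theorem ckB : CkB dat where
  rc := of_allR ck_rc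
  col := ck_col
  eig := List.forall_mem_cons.2 ⟨of_allR ck_eig0, List.forall_mem_nil _⟩
  st := List.all_eq_true.1 ck_st
  run := ck_run
  norm := of_allR ck_norm
  dim := ck_dim
  dist := of_allR ck_dist
  tt := ck_tt
  link := of_allR ck_link
  piv := of_allR ck_piv
  par := List.forall_mem_cons.2 ⟨fun _ => ck_par0, List.forall_mem_nil _⟩

theorem main {G : Type} [Group G] [Fintype G] {V : G →* Matrix (Fin 3) (Fin 3) ℂ} {γ : ℕ → G}
    (hG : Gp dat fOm V γ) : ∃ (lt : ℕ → G) (a : ℕ → MRep G), Out dat fOm V γ lt a := by
  obtain ⟨e, hc⟩ := crs_om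
  exact cert hc hG ckA ckB

theorem conn {G : Type} [Group G] [Fintype G] {V : G →* Matrix (Fin 3) (Fin 3) ℂ} {γ : ℕ → G}
    (hG : Gp dat fOm V γ) : Conn V := by
  obtain ⟨e, hc⟩ := crs_om
  obtain ⟨lt, a, O⟩ := main hG
  exact O.conn hc (of_allR ck_lab)

end

end Pool.Agent.CMFn.G25
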