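import Pool.Agent.CMFn.DatG34
import Pool.Agent.CMFn.CUse
import Pool.Agent.CMFn.CSndD

/-! Project CMFn, block C: the group G34, checks A. -/

namespace Pool.Agent.CMFn.G34

open GD

noncomputable section

theorem ck_cls0_0 : allR 0 13 (dat.chkCls op0) = true := by decide +kernel

theorem ck_cls0_1 : allR 13 13 (dat.chkCls op0) = true := by decide +kernel

theorem ck_cls0_2 : allR 26 13 (dat.chkCls op0) = true := by decide +kernel

theorem ck_cls0_3 : allR 39 13 (dat.chkCls op0) = true := by decide +kernel

theorem ck_cls0_4 : allR 52 13 (dat.chkCls op0) = true := by decide +kernel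

theorem ck_cls0_5 : allR 65 13 (dat.chkCls op0) = true := by decide +kernel

theorem ck_cls0_6 : allR 78 13 (dat.chkCls op0) = true := by decide +kernel

end

end Pool.Agent.CMFn.G34
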