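import Pool.Agent.CMFn.DatG34
import Pool.Agent.CMFn.CUse
import Pool.Agent.CMFn.CSndD

/-! Project CMFn, block C: the group G34, checks B. -/

namespace Pool.Agent.CMFn.G34

open GD

noncomputable section

theorem ck_cls0_7 : allR 91 13 (dat.chkCls op0) = true := by decide +kernel

theorem ck_cls0_8 : allR 104 13 (dat.chkCls op0) = true := by decide +kernel

theorem ck_cls0_9 : allR 117 13 (dat.chkCls op0) = true := by decide +kernel

theorem ck_cls0_10 : allR 130 13 (dat.chkCls op0) = true := by decide +kernel

theorem ck_cls0_11 : allR 143 13 (dat.chkCls op0) = true := by decide +kernel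

theorem ck_cls0_12 : allR 156 13 (dat.chkCls op0) = true := by decide +kernel

end

end Pool.Agent.CMFn.G34
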