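import Pool.Agent.CMFn.DatG34
import Pool.Agent.CMFn.CUse
import Pool.Agent.CMFn.CSndD

/-! Project CMFn, block C: the group G34, checks C. -/

namespace Pool.Agent.CMFn.G34

open GD

noncomputable section

theorem ck_st : (dat.steps.all dat.stOK) = true := by decide +kernel

theorem ck_dist_0 : allR 0 26 dat.chkDist = true := by decide +kernel

theorem ck_dist_1 : allR 26 26 dat.chkDist = true := by decide +kernel

theorem ck_dist_2 : allR 52 26 dat.chkDist = true := by decide +kernel

theorem ck_dist_3 : allR 78 26 dat.chkDist = true := by decide +kernel

theorem ck_dist_4 : allR 104 26 dat.chkDist = true := by decide +kernel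

theorem ck_dist_5 : allR 130 26 dat.chkDist = true := by decide +kernel

theorem ck_dist_6 : allR 156 13 dat.chkDist = true := by decide +kernel

end

end Pool.Agent.CMFn.G34
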