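import Pool.Agent.CMFn.DatG34
import Pool.Agent.CMFn.CUse
import Pool.Agent.CMFn.CSndD

/-! Project CMFn, block C: the group G34, checks D. -/

namespace Pool.Agent.CMFn.G34

open GD

noncomputable section

/-- Multiplicities in the product which contains the pair. -/
def pN : ℕ := 0x100000000000000000000000000000001000100000000000000000000000000000000000000000000000000000000000000000000000000000000000000000000000000000000000000000000000000000000000000000000000000000000000000000001000000000001000000000000000000000000000000000000000000000000000000000000000000000000000000000000000000000000000000000000000000000000000000000000000000000000000000000000000000000000000000000000000000000000000000000000000000000000000000000000000000000000000000000001000100000000000000000000000000000000000000000000000000000000000000000000000000000000000000000000000000000000000000000000000000000000000000000000000000000000000000000000000000000000000000000000000000000000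

theorem ck_inv : allR 0 169 dat.chkInv = true := by decide +kernel

theorem ck_rc_0 : allR 0 26 dat.chkRC = true := by decide +kernel

theorem ck_rc_1 : allR 26 26 dat.chkRC = true := by decide +kernel

theorem ck_rc_2 : allR 52 26 dat.chkRC = true := by decide +kernel

theorem ck_rc_3 : allR 78 26 dat.chkRC = true := by decide +kernel

theorem ck_rc_4 : allR 104 26 dat.chkRC = true := by decide +kernel

theorem ck_rc_5 : allR 130 26 dat.chkRC = true := by decide +kernel

theorem ck_rc_6 : allR 156 13 dat.chkRC = true := by decide +kernel

theorem ck_col : dat.chkCol = true := by decide +kernel

theorem ck_eig0_0 : allR 0 26 (dat.chkEig op0) = true := by decide +kernel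

theorem ck_eig0_1 : allR 26 26 (dat.chkEig op0) = true := by decide +kernel

theorem ck_eig0_2 : allR 52 26 (dat.chkEig op0) = true := by decide +kernel

theorem ck_eig0_3 : allR 78 26 (dat.chkEig op0) = true := by decide +kernel

theorem ck_eig0_4 : allR 104 26 (dat.chkEig op0) = true := by decide +kernel

theorem ck_eig0_5 : allR 130 26 (dat.chkEig op0) = true := by decide +kernel

theorem ck_eig0_6 : allR 156 13 (dat.chkEig op0) = true := by decide +kernel

theorem ck_run : dat.chkRunP 50 51 = true := by decide +kernel

theorem ck_pair : dat.chkPair 3 137 pN 50 51 = true := by decide +kernel

theorem ck_dim : dat.chkDim = true := by decide +kernel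

end

end Pool.Agent.CMFn.G34
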