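import Pool.Agent.CMFn.DatG34
import Pool.Agent.CMFn.CUse
import Pool.Agent.CMFn.CSndD

/-! Project CMFn, block C: the group G34, checks E. -/

namespace Pool.Agent.CMFn.G34

open GD

noncomputable section

theorem ck_norm_0 : allR 0 26 dat.chkNorm = true := by decide +kernel

theorem ck_norm_1 : allR 26 26 dat.chkNorm = true := by decide +kernel

theorem ck_norm_2 : allR 52 26 dat.chkNorm = true := by decide +kernel

theorem ck_norm_3 : allR 78 26 dat.chkNorm = true := by decide +kernel

theorem ck_norm_4 : allR 104 26 dat.chkNorm = true := by decide +kernel

theorem ck_norm_5 : allR 130 26 dat.chkNorm = true := by decide +kernel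

theorem ck_norm_6 : allR 156 13 dat.chkNorm = true := by decide +kernel

theorem ck_link_0 : allR 0 26 dat.chkLink = true := by decide +kernel

theorem ck_link_1 : allR 26 26 dat.chkLink = true := by decide +kernel

theorem ck_link_2 : allR 52 26 dat.chkLink = true := by decide +kernel

theorem ck_link_3 : allR 78 26 dat.chkLink = true := by decide +kernel

theorem ck_link_4 : allR 104 26 dat.chkLink = true := by decide +kernel

theorem ck_link_5 : allR 130 26 dat.chkLink = true := by decide +kernel

theorem ck_link_6 : allR 156 13 dat.chkLink = true := by decide +kernel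

end

end Pool.Agent.CMFn.G34
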