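import Pool.Agent.CMFn.DatG34
import Pool.Agent.CMFn.CUse
import Pool.Agent.CMFn.CSndD

/-! Project CMFn, block C: the group G34, checks F. -/

namespace Pool.Agent.CMFn.G34

open GD

noncomputable section

theorem ck_rf : allR 0 169 dat.chkRf = true := by decide +kernel

theorem ck_orp : allR 0 169 (dat.chkOrth 50) = true := by decide +kernel

theorem ck_orq : allR 0 169 (dat.chkOrth 51) = true := by decide +kernel

theorem ck_tt : dat.chkT = true := by decide +kernel

end

end Pool.Agent.CMFn.G34
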