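import Pool.Agent.CMFn.DatG34
import Pool.Agent.CMFn.CUse
import Pool.Agent.CMFn.CSndD

/-! Project CMFn, block C: the group G34, checks G. -/

namespace Pool.Agent.CMFn.G34

open GD

noncomputable section

theorem ck_lets_0 : allR 12 52 dat.chkLet = true := by decide +kernel

theorem ck_lets_1 : allR 64 52 dat.chkLet = true := by decide +kernel

theorem ck_lets_2 : allR 116 52 dat.chkLet = true := by decide +kernel

theorem ck_lets_3 : allR 168 52 dat.chkLet = true := by decide +kernel

theorem ck_lets_4 : allR 220 52 dat.chkLet = true := by decide +kernel

theorem ck_lets_5 : allR 272 35 dat.chkLet = true := by decide +kernel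

end

end Pool.Agent.CMFn.G34
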