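import Pool.Agent.CMFn.DatG34
import Pool.Agent.CMFn.CUse
import Pool.Agent.CMFn.CSndD

/-! Project CMFn, block C: the group G34, checks H. -/

namespace Pool.Agent.CMFn.G34

open GD

noncomputable section

theorem ck_gen : allR 0 6 dat.chkGen = true := by decide +kernel

theorem ck_genI : allR 0 6 dat.chkGenI = true := by decide +kernel

theorem ck_conj0 : dat.chkConj op0 = true := by decide +kernel

theorem ck_genOp : allR 0 6 (dat.chkGenOp dat.ops) = true := by decide +kernel

theorem ck_bal0 : dat.chkBal op0 = true := by decide +kernel

end

end Pool.Agent.CMFn.G34
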