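import Pool.Agent.CMFn.DatG34
import Pool.Agent.CMFn.CUse
import Pool.Agent.CMFn.CRing
import Pool.Agent.CMFn.CSndD
import Pool.Agent.CMFn.CkG34H
import Pool.Agent.CMFn.CkG34G
import Pool.Agent.CMFn.CkG34A
import Pool.Agent.CMFn.CkG34B
import Pool.Agent.CMFn.CkG34D
import Pool.Agent.CMFn.CkG34F
import Pool.Agent.CMFn.CkG34C
import Pool.Agent.CMFn.CkG34E

/-! Project CMFn, block C: the group G34. -/

namespace Pool.Agent.CMFn.G34

open GD

noncomputable section

theorem ck_base : dat.chkBase = true := by decide +kernel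

theorem ck_lets : allR 12 295 dat.chkLet = true :=
  allR_join (k := 295) (allR_join (k := 260) (allR_join (k := 208) (allR_join (k := 156) (allR_join (k := 104) (ck_lets_0) ck_lets_1 rfl rfl) ck_lets_2 rfl rfl) ck_lets_3 rfl rfl) ck_lets_4 rfl rfl) ck_lets_5 rfl rfl

theorem ck_cls0 : allR 0 169 (dat.chkCls op0) = true :=
  allR_join (k := 169) (allR_join (k := 156) (allR_join (k := 143) (allR_join (k := 130) (allR_join (k := 117) (allR_join (k := 104) (allR_join (k := 91) (allR_join (k := 78) (allR_join (k := 65) (allR_join (k := 52) (allR_join (k := 39) (allR_join (k := 26) (ck_cls0_0) ck_cls0_1 rfl rfl) ck_cls0_2 rfl rfl) ck_cls0_3 rfl rfl) ck_cls0_4 rfl rfl) ck_cls0_5 rfl rfl) ck_cls0_6 rfl rfl) ck_cls0_7 rfl rfl) ck_cls0_8 rfl rfl) ck_cls0_9 rfl rfl) ck_cls0_10 rfl rfl) ck_cls0_11 rfl rfl) ck_cls0_12 rfl rfl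

theorem ck_one : dat.chkOne = true := by decide +kernel

theorem ck_rc : allR 0 169 dat.chkRC = true :=
  allR_join (k := 169) (allR_join (k := 156) (allR_join (k := 130) (allR_join (k := 104) (allR_join (k := 78) (allR_join (k := 52) (ck_rc_0) ck_rc_1 rfl rfl) ck_rc_2 rfl rfl) ck_rc_3 rfl rfl) ck_rc_4 rfl rfl) ck_rc_5 rfl rfl) ck_rc_6 rfl rfl

theorem ck_eig0 : allR 0 169 (dat.chkEig op0) = true :=
  allR_join (k := 169) (allR_join (k := 156) (allR_join (k := 130) (allR_join (k := 104) (allR_join (k := 78) (allR_join (k := 52) (ck_eig0_0) ck_eig0_1 rfl rfl) ck_eig0_2 rfl rfl) ck_eig0_3 rfl rfl) ck_eig0_4 rfl rfl) ck_eig0_5 rfl rfl) ck_eig0_6 rfl rfl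

theorem ck_norm : allR 0 169 dat.chkNorm = true :=
  allR_join (k := 169) (allR_join (k := 156) (allR_join (k := 130) (allR_join (k := 104) (allR_join (k := 78) (allR_join (k := 52) (ck_norm_0) ck_norm_1 rfl rfl) ck_norm_2 rfl rfl) ck_norm_3 rfl rfl) ck_norm_4 rfl rfl) ck_norm_5 rfl rfl) ck_norm_6 rfl rfl

theorem ck_dist : allR 0 169 dat.chkDist = true :=
  allR_join (k := 169) (allR_join (k := 156) (allR_join (k := 130) (allR_join (k := 104) (allR_join (k := 78) (allR_join (k := 52) (ck_dist_0) ck_dist_1 rfl rfl) ck_dist_2 rfl rfl) ck_dist_3 rfl rfl) ck_dist_4 rfl rfl) ck_dist_5 rfl rfl) ck_dist_6 rfl rfl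

theorem ck_link : allR 0 169 dat.chkLink = true :=
  allR_join (k := 169) (allR_join (k := 156) (allR_join (k := 130) (allR_join (k := 104) (allR_join (k := 78) (allR_join (k := 52) (ck_link_0) ck_link_1 rfl rfl) ck_link_2 rfl rfl) ck_link_3 rfl rfl) ck_link_4 rfl rfl) ck_link_5 rfl rfl) ck_link_6 rfl rfl

theorem ck_piv : allR 0 6 dat.chkPiv = true := by decide +kernel

theorem ck_par0 : dat.chkPar op0 = true := by decide +kernel

theorem ckA : CkA dat where
  base := ck_base
  gen := of_allR ck_gen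
  genI := of_allR ck_genI
  let' := fun l h1 h2 => allR_iff.1 ck_lets l h1 (by
    have h3 : l < 307 := h2
    omega)
  ngA := by decide
  conj := List.forall_mem_cons.2 ⟨ck_conj0, List.forall_mem_nil _⟩
  cls := List.forall_mem_cons.2 ⟨of_allR ck_cls0, List.forall_mem_nil _⟩
  inv := of_allR ck_inv
  genOp := of_allR ck_genOp
  bal := List.forall_mem_cons.2 ⟨ck_bal0, List.forall_mem_nil _⟩
  one := ck_one
  rf := of_allR ck_rf

theorem ckP : CkP dat 3 137 pN 50 51 where
  rc := of_allR ck_rc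
  col := ck_col
  eig := List.forall_mem_cons.2 ⟨of_allR ck_eig0, List.forall_mem_nil _⟩
  st := List.all_eq_true.1 ck_st
  run := ck_run
  pair := ck_pair
  orp := of_allR ck_orp
  orq := of_allR ck_orq
  norm := of_allR ck_norm
  dim := ck_dim
  dist := of_allR ck_dist

theorem main {G : Type} [Group G] [Fintype G] {V : G →* Matrix (Fin 6) (Fin 6) ℂ} {γ : ℕ → G}
    (hG : Gp dat fOm V γ) : ∃ (lt : ℕ → G) (a : ℕ → MRep G), Out dat fOm V γ lt a := by
  obtain ⟨e, hc⟩ := crs_om
  exact certP hc hG ckA ckP ck_tt (of_allR ck_link) (of_allR ck_piv)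
    (List.forall_mem_cons.2 ⟨fun _ => ck_par0, List.forall_mem_nil _⟩)

end

end Pool.Agent.CMFn.G34
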