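import Pool.Agent.CMFn.DatPG34

/-! Project CMFn: checks for the parabolic subgroups of the group G34.  helper66. -/

namespace Pool.Agent.CMFn.G34

open GD

noncomputable section

theorem p_all : PD.chkAll dat op0 = true := by decide +kernel

theorem p_fxG33 : allN 126 (PJ.chkFx pjG33 dat op0) = true := by decide +kernel

theorem p_flG33 : allN 45 (PJ.chkFl pjG33 op0) = true := by decide +kernel

theorem p_hdG33 : PJ.chkHd pjG33 dat op0 = true := by decide +kernel

theorem p_ddG33 : allN 40 (PJ.chkD pjG33 dat op0) = true := by decide +kernel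

theorem p_fuG33 : allN 40 (PJ.chkFu pjG33 dat) = true := by decide +kernel

theorem p_evG33 : allN 15 (PJ.chkEv pjG33) = true := by decide +kernel

theorem p_sumG33 : allN 40 (PJ.chkSum pjG33) = true := by decide +kernel

theorem p_dstG33 : allN 15 (PJ.chkDst pjG33) = true := by decide +kernel

theorem p_ckG33 : PJ.Ck pjG33 dat op0 where
  all := p_all
  fx := allN_iff.1 p_fxG33
  fl := allN_iff.1 p_flG33
  hd := p_hdG33
  dd := allN_iff.1 p_ddG33
  fu := allN_iff.1 p_fuG33
  ev := allN_iff.1 p_evG33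
  sum := allN_iff.1 p_sumG33
  dst := allN_iff.1 p_dstG33

theorem p_fxG335 : allN 126 (PJ.chkFx pjG335 dat op0) = true := by decide +kernel

theorem p_flG335 : allN 30 (PJ.chkFl pjG335 op0) = true := by decide +kernel

theorem p_hdG335 : PJ.chkHd pjG335 dat op0 = true := by decide +kernel

theorem p_ddG335 : allN 36 (PJ.chkD pjG335 dat op0) = true := by decide +kernel

theorem p_fuG335 : allN 36 (PJ.chkFu pjG335 dat) = true := by decide +kernel

theorem p_evG335 : allN 15 (PJ.chkEv pjG335) = true := by decide +kernel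

theorem p_sumG335 : allN 36 (PJ.chkSum pjG335) = true := by decide +kernel

theorem p_dstG335 : allN 15 (PJ.chkDst pjG335) = true := by decide +kernel

theorem p_ckG335 : PJ.Ck pjG335 dat op0 where
  all := p_all
  fx := allN_iff.1 p_fxG335
  fl := allN_iff.1 p_flG335
  hd := p_hdG335
  dd := allN_iff.1 p_ddG335
  fu := allN_iff.1 p_fuG335
  ev := allN_iff.1 p_evG335
  sum := allN_iff.1 p_sumG335
  dst := allN_iff.1 p_dstG335

theorem p_fxA5 : allN 126 (PJ.chkFx pjA5 dat op0) = true := by decide +kernel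

theorem p_flA5 : allN 15 (PJ.chkFl pjA5 op0) = true := by decide +kernel

theorem p_hdA5 : PJ.chkHd pjA5 dat op0 = true := by decide +kernel

theorem p_ddA5 : allN 11 (PJ.chkD pjA5 dat op0) = true := by decide +kernel

theorem p_fuA5 : allN 11 (PJ.chkFu pjA5 dat) = true := by decide +kernel

theorem p_evA5 : allN 9 (PJ.chkEv pjA5) = true := by decide +kernel

theorem p_sumA5 : allN 11 (PJ.chkSum pjA5) = true := by decide +kernel

theorem p_dstA5 : allN 9 (PJ.chkDst pjA5) = true := by decide +kernel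

theorem p_ckA5 : PJ.Ck pjA5 dat op0 where
  all := p_all
  fx := allN_iff.1 p_fxA5
  fl := allN_iff.1 p_flA5
  hd := p_hdA5
  dd := allN_iff.1 p_ddA5
  fu := allN_iff.1 p_fuA5
  ev := allN_iff.1 p_evA5
  sum := allN_iff.1 p_sumA5
  dst := allN_iff.1 p_dstA5

theorem p_fxA2A3 : allN 126 (PJ.chkFx pjA2A3 dat op0) = true := by decide +kernel

theorem p_flA2A3 : allN 9 (PJ.chkFl pjA2A3 op0) = true := by decide +kernel

theorem p_hdA2A3 : PJ.chkHd pjA2A3 dat op0 = true := by decide +kernel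

theorem p_ddA2A3 : allN 15 (PJ.chkD pjA2A3 dat op0) = true := by decide +kernel

theorem p_fuA2A3 : allN 15 (PJ.chkFu pjA2A3 dat) = true := by decide +kernel

theorem p_evA2A3 : allN 13 (PJ.chkEv pjA2A3) = true := by decide +kernel

theorem p_sumA2A3 : allN 15 (PJ.chkSum pjA2A3) = true := by decide +kernel

theorem p_dstA2A3 : allN 13 (PJ.chkDst pjA2A3) = true := by decide +kernel

theorem p_ckA2A3 : PJ.Ck pjA2A3 dat op0 where
  all := p_all
  fx := allN_iff.1 p_fxA2A3
  fl := allN_iff.1 p_flA2A3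
  hd := p_hdA2A3
  dd := allN_iff.1 p_ddA2A3
  fu := allN_iff.1 p_fuA2A3
  ev := allN_iff.1 p_evA2A3
  sum := allN_iff.1 p_sumA2A3
  dst := allN_iff.1 p_dstA2A3

theorem p_fxA1A4 : allN 126 (PJ.chkFx pjA1A4 dat op0) = true := by decide +kernel

theorem p_flA1A4 : allN 11 (PJ.chkFl pjA1A4 op0) = true := by decide +kernel

theorem p_hdA1A4 : PJ.chkHd pjA1A4 dat op0 = true := by decide +kernel

theorem p_ddA1A4 : allN 14 (PJ.chkD pjA1A4 dat op0) = true := by decide +kernel

theorem p_fuA1A4 : allN 14 (PJ.chkFu pjA1A4 dat) = true := by decide +kernel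

theorem p_evA1A4 : allN 12 (PJ.chkEv pjA1A4) = true := by decide +kernel

theorem p_sumA1A4 : allN 14 (PJ.chkSum pjA1A4) = true := by decide +kernel

theorem p_dstA1A4 : allN 12 (PJ.chkDst pjA1A4) = true := by decide +kernel

theorem p_ckA1A4 : PJ.Ck pjA1A4 dat op0 where
  all := p_all
  fx := allN_iff.1 p_fxA1A4
  fl := allN_iff.1 p_flA1A4
  hd := p_hdA1A4
  dd := allN_iff.1 p_ddA1A4
  fu := allN_iff.1 p_fuA1A4
  ev := allN_iff.1 p_evA1A4
  sum := allN_iff.1 p_sumA1A4
  dst := allN_iff.1 p_dstA1A4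

theorem p_fxA1G333 : allN 126 (PJ.chkFx pjA1G333 dat op0) = true := by decide +kernel

theorem p_flA1G333 : allN 10 (PJ.chkFl pjA1G333 op0) = true := by decide +kernel

theorem p_hdA1G333 : PJ.chkHd pjA1G333 dat op0 = true := by decide +kernel

theorem p_ddA1G333 : allN 20 (PJ.chkD pjA1G333 dat op0) = true := by decide +kernel

theorem p_fuA1G333 : allN 20 (PJ.chkFu pjA1G333 dat) = true := by decide +kernel

theorem p_evA1G333 : allN 10 (PJ.chkEv pjA1G333) = true := by decide +kernel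

theorem p_sumA1G333 : allN 20 (PJ.chkSum pjA1G333) = true := by decide +kernel

theorem p_dstA1G333 : allN 10 (PJ.chkDst pjA1G333) = true := by decide +kernel

theorem p_ckA1G333 : PJ.Ck pjA1G333 dat op0 where
  all := p_all
  fx := allN_iff.1 p_fxA1G333
  fl := allN_iff.1 p_flA1G333
  hd := p_hdA1G333
  dd := allN_iff.1 p_ddA1G333
  fu := allN_iff.1 p_fuA1G333
  ev := allN_iff.1 p_evA1G333
  sum := allN_iff.1 p_sumA1G333
  dst := allN_iff.1 p_dstA1G333

theorem c_rkG335_m18_p6 : (List.zip lvm18 rkG335_m18_p6).all (fun x => PJ.chkRk pjG335 dat 9 x.1 x.2) = true := by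
  decide +kernel

theorem c_rkG335_m18_p3 : (List.zip lvm18 rkG335_m18_p3).all (fun x => PJ.chkRk pjG335 dat 8 x.1 x.2) = true := by
  decide +kernel

theorem c_rkG335_m18_m15 : (List.zip lvm18 rkG335_m18_m15).all (fun x => PJ.chkRk pjG335 dat 2 x.1 x.2) = true := by
  decide +kernel

theorem c_rkA2A3_m18_p9 : (List.zip lvm18 rkA2A3_m18_p9).all (fun x => PJ.chkRk pjA2A3 dat 12 x.1 x.2) = true := by
  decide +kernel

theorem c_rkA1A4_m12_p11 : (List.zip lvm12 rkA1A4_m12_p11).all (fun x => PJ.chkRk pjA1A4 dat 11 x.1 x.2) = true := by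
  decide +kernel

theorem c_rkA1G333_m12_p8 : (List.zip lvm12 rkA1G333_m12_p8).all (fun x => PJ.chkRk pjA1G333 dat 8 x.1 x.2) = true := by
  decide +kernel

theorem c_rkG33_m6_p9 : (List.zip lvm6 rkG33_m6_p9).all (fun x => PJ.chkRk pjG33 dat 10 x.1 x.2) = true := by
  decide +kernel

theorem c_rkG33_m6_m15 : (List.zip lvm6 rkG33_m6_m15).all (fun x => PJ.chkRk pjG33 dat 3 x.1 x.2) = true := by
  decide +kernel

theorem c_rkG335_m6_p12 : (List.zip lvm6 rkG335_m6_p12).all (fun x => PJ.chkRk pjG335 dat 11 x.1 x.2) = true := by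
  decide +kernel

theorem c_rkG335_m6_p9 : (List.zip lvm6 rkG335_m6_p9).all (fun x => PJ.chkRk pjG335 dat 10 x.1 x.2) = true := by
  decide +kernel

theorem c_rkG335_m6_m15 : (List.zip lvm6 rkG335_m6_m15).all (fun x => PJ.chkRk pjG335 dat 2 x.1 x.2) = true := by
  decide +kernel

theorem c_rkG33_0_m15 : (List.zip lv0 rkG33_0_m15).all (fun x => PJ.chkRk pjG33 dat 3 x.1 x.2) = true := by
  decide +kernel

theorem c_rkG33_0_m9 : (List.zip lv0 rkG33_0_m9).all (fun x => PJ.chkRk pjG33 dat 4 x.1 x.2) = true := by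
  decide +kernel

theorem c_rkG335_0_m15 : (List.zip lv0 rkG335_0_m15).all (fun x => PJ.chkRk pjG335 dat 2 x.1 x.2) = true := by
  decide +kernel

theorem c_rkG335_0_m12 : (List.zip lv0 rkG335_0_m12).all (fun x => PJ.chkRk pjG335 dat 3 x.1 x.2) = true := by
  decide +kernel

theorem c_rkA5_0_m15 : (List.zip lv0 rkA5_0_m15).all (fun x => PJ.chkRk pjA5 dat 0 x.1 x.2) = true := by
  decide +kernel

theorem c_rkA5_0_p15 : (List.zip lv0 rkA5_0_p15).all (fun x => PJ.chkRk pjA5 dat 8 x.1 x.2) = true := by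
  decide +kernel

theorem c_rkG33_p6_m9 : (List.zip lvp6 rkG33_p6_m9).all (fun x => PJ.chkRk pjG33 dat 4 x.1 x.2) = true := by
  decide +kernel

theorem c_rkG33_p6_p15 : (List.zip lvp6 rkG33_p6_p15).all (fun x => PJ.chkRk pjG33 dat 11 x.1 x.2) = true := by
  decide +kernel

theorem c_rkG335_p6_m12 : (List.zip lvp6 rkG335_p6_m12).all (fun x => PJ.chkRk pjG335 dat 3 x.1 x.2) = true := by
  decide +kernel

theorem c_rkG335_p6_m9 : (List.zip lvp6 rkG335_p6_m9).all (fun x => PJ.chkRk pjG335 dat 4 x.1 x.2) = true := by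
  decide +kernel

theorem c_rkG335_p6_p15 : (List.zip lvp6 rkG335_p6_p15).all (fun x => PJ.chkRk pjG335 dat 12 x.1 x.2) = true := by
  decide +kernel

theorem c_rkA1A4_p12_m11 : (List.zip lvp12 rkA1A4_p12_m11).all (fun x => PJ.chkRk pjA1A4 dat 0 x.1 x.2) = true := by
  decide +kernel

theorem c_rkA1G333_p12_m8 : (List.zip lvp12 rkA1G333_p12_m8).all (fun x => PJ.chkRk pjA1G333 dat 1 x.1 x.2) = true := by
  decide +kernel

theorem c_rkG335_p18_m6 : (List.zip lvp18 rkG335_p18_m6).all (fun x => PJ.chkRk pjG335 dat 5 x.1 x.2) = true := by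
  decide +kernel

theorem c_rkG335_p18_m3 : (List.zip lvp18 rkG335_p18_m3).all (fun x => PJ.chkRk pjG335 dat 6 x.1 x.2) = true := by
  decide +kernel

theorem c_rkG335_p18_p15 : (List.zip lvp18 rkG335_p18_p15).all (fun x => PJ.chkRk pjG335 dat 12 x.1 x.2) = true := by
  decide +kernel

theorem c_rkA2A3_p18_m9 : (List.zip lvp18 rkA2A3_p18_m9).all (fun x => PJ.chkRk pjA2A3 dat 0 x.1 x.2) = true := by
  decide +kernel

end

end Pool.Agent.CMFn.G34
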