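import Pool.Agent.CMFn.DatQE6
import Pool.Agent.CMFn.CkE6

/-! Project CMFn, blocks C and Q: isolated characters of the group E6. -/

namespace Pool.Agent.CMFn.E6

open GD

noncomputable section

theorem q_all : PD.chkAll dat op0 = true := by decide +kernel

theorem q_ne0 : allN 24 (PD.chkNe pd0 dat) = true := by decide +kernel

theorem q_mv0 : allN 4 (PD.chkMv pd0 dat op0) = true := by decide +kernel

theorem q_pr0 : allN 24 (PD.chkPr pd0) = true := by decide +kernel

theorem q_cl0 : allN 24 (PD.chkCl pd0 dat) = true := by decide +kernel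

theorem q_loc0 : allN 36 (PD.chkLoc pd0 dat op0) = true := by decide +kernel

theorem q_gs0 : allN 4 (PD.chkGs pd0 dat op0) = true := by decide +kernel

theorem q_sg0 : allN 24 (PD.chkSg pd0 false) = true := by decide +kernel

theorem q_zero0 : PD.chkZero pd0 dat = true := by decide +kernel

theorem q_ck0 : PD.Ck pd0 dat op0 false where
  all := q_all
  zero := q_zero0
  ne := allN_iff.1 q_ne0
  mv := allN_iff.1 q_mv0
  pr := allN_iff.1 q_pr0
  cl := allN_iff.1 q_cl0
  loc := allN_iff.1 q_loc0
  gs := allN_iff.1 q_gs0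
  sg := allN_iff.1 q_sg0

theorem q_ne0s : allN 24 (PD.chkNe pd0s dat) = true := by decide +kernel

theorem q_mv0s : allN 4 (PD.chkMv pd0s dat op0) = true := by decide +kernel

theorem q_pr0s : allN 24 (PD.chkPr pd0s) = true := by decide +kernel

theorem q_cl0s : allN 24 (PD.chkCl pd0s dat) = true := by decide +kernel

theorem q_loc0s : allN 36 (PD.chkLoc pd0s dat op0) = true := by decide +kernel

theorem q_gs0s : allN 4 (PD.chkGs pd0s dat op0) = true := by decide +kernel

theorem q_sg0s : allN 24 (PD.chkSg pd0s true) = true := by decide +kernel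

theorem q_zero0s : PD.chkZero pd0s dat = true := by decide +kernel

theorem q_ck0s : PD.Ck pd0s dat op0 true where
  all := q_all
  zero := q_zero0s
  ne := allN_iff.1 q_ne0s
  mv := allN_iff.1 q_mv0s
  pr := allN_iff.1 q_pr0s
  cl := allN_iff.1 q_cl0s
  loc := allN_iff.1 q_loc0s
  gs := allN_iff.1 q_gs0s
  sg := allN_iff.1 q_sg0s

theorem q_iso17 : dat.chkIso pd0s 17 = true := by decide +kernel

theorem q_iso18 : dat.chkIso pd0 18 = true := by decide +kernel

/-- The isolated characters. -/
def iso : ℕ := 0x60000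

theorem q_lab : allN dat.K (dat.chkLabX iso) = true := by decide +kernel

theorem q_iso : allN dat.K (fun i => cond (bit iso i) (List.any [17, 18] fun j => Nat.beq i j) true) = true := by
  decide +kernel

theorem connIsol {G : Type} [Group G] [Fintype G] {V : G →* Matrix (Fin 6) (Fin 6) ℂ} {γ : ℕ → G}
    (hG : Gp dat fz V γ) : ∀ x y : MRep G, IsIrr x.2 → IsIrr y.2 → SameLevel V x y →
      ¬ Isol V x → ¬ Isol V y → Relation.EqvGen (Lk V) x y := by
  obtain ⟨e, hc⟩ := (⟨_, crs_z⟩ : ∃ e, CRS cz fz e)
  obtain ⟨lt, a, O⟩ := cert hc hG ckA ckB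
  have h17 : Isol V (a 17) := isol_cert hc hG ckA ckB O (by simp [dat]) (by decide) q_ck0s (by decide) q_iso17
  have h18 : Isol V (a 18) := isol_cert hc hG ckA ckB O (by simp [dat]) (by decide) q_ck0 (by decide) q_iso18
  refine O.connIsol hc (I := iso) (fun i hi hb => ?_) (allN_iff.1 q_lab)
  have h := allN_iff.1 q_iso i hi
  rw [hb, cond_true] at h
  obtain ⟨j, hj, hij⟩ := List.any_eq_true.1 h
  rw [beq_iff] at hij
  subst hij
  simp only [List.mem_cons, List.not_mem_nil, or_false] at hj
  rcases hj with rfl | rfl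
  · exact h17
  · exact h18

end

end Pool.Agent.CMFn.E6
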