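import Pool.Agent.CMFn.QE7
import Pool.Agent.CMFn.CkE7

/-! Project CMFn, block Q: the levels of E7 are connected up to isolated characters.  helper48. -/

namespace Pool.Agent.CMFn.E7

open GD

noncomputable section

theorem connIsol {G : Type} [Group G] [Fintype G] {V : G →* Matrix (Fin 7) (Fin 7) ℂ} {γ : ℕ → G}
    (hG : Gp dat fz V γ) : ∀ x y : MRep G, IsIrr x.2 → IsIrr y.2 → SameLevel V x y →
      ¬ Isol V x → ¬ Isol V y → Relation.EqvGen (Lk V) x y := by
  have hc := crs_z
  obtain ⟨lt, a, O⟩ := main hG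
  have ho : op0 ∈ dat.ops := List.mem_cons_self
  have hg : op0.gen < dat.ng := by decide
  exact O.connX_list hc (List.forall_mem_cons.2 ⟨
    isol_cert hc hG ckA ckB O ho hg q0 (by decide) i0, List.forall_mem_cons.2 ⟨
    isol_cert hc hG ckA ckB O ho hg q0.tv (by decide) j0, List.forall_mem_cons.2 ⟨
    isol_cert hc hG ckA ckB O ho hg q1 (by decide) i1, List.forall_mem_cons.2 ⟨
    isol_cert hc hG ckA ckB O ho hg q1.tv (by decide) j1, List.forall_mem_cons.2 ⟨
    isol_cert hc hG ckA ckB O ho hg q2 (by decide) i2, List.forall_mem_cons.2 ⟨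
    isol_cert hc hG ckA ckB O ho hg q2.tv (by decide) j2, List.forall_mem_cons.2 ⟨
    isol_cert hc hG ckA ckB O ho hg q3 (by decide) i3, List.forall_mem_cons.2 ⟨
    isol_cert hc hG ckA ckB O ho hg q3.tv (by decide) j3, List.forall_mem_nil _⟩⟩⟩⟩⟩⟩⟩⟩) q_I (of_allR q_lab)

end

end Pool.Agent.CMFn.E7
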