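import Pool.Agent.CMFn.DatQG29
import Pool.Agent.CMFn.CkG29
import Pool.Agent.CMFn.CQP

/-! Project CMFn, blocks C and Q: isolated characters of the group G29. -/

namespace Pool.Agent.CMFn.G29

open GD

noncomputable section

theorem q_all : PD.chkAll dat op0 = true := by decide +kernel

theorem q_ne0 : allN 12 (PD.chkNe pd0 dat) = true := by decide +kernel

theorem q_mv0 : allN 3 (PD.chkMv pd0 dat op0) = true := by decide +kernel

theorem q_pr0 : allN 12 (PD.chkPr pd0) = true := by decide +kernel

theorem q_cl0 : allN 12 (PD.chkCl pd0 dat) = true := by decide +kernel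

theorem q_loc0 : allN 40 (PD.chkLoc pd0 dat op0) = true := by decide +kernel

theorem q_gs0 : allN 3 (PD.chkGs pd0 dat op0) = true := by decide +kernel

theorem q_sg0 : allN 12 (PD.chkSg pd0 false) = true := by decide +kernel

theorem q_zero0 : PD.chkZero pd0 dat = true := by decide +kernel

theorem q_ck0 : PD.Ck pd0 dat op0 false where
  all := q_all
  zero := q_zero0
  ne := allN_iff.1 q_ne0
  mv := allN_iff.1 q_mv0
  pr := allN_iff.1 q_pr0
  cl := allN_iff.1 q_cl0
  loc := allN_iff.1 q_loc0
  gs := allN_iff.1 q_gs0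
  sg := allN_iff.1 q_sg0

theorem q_ne0s : allN 12 (PD.chkNe pd0s dat) = true := by decide +kernel

theorem q_mv0s : allN 3 (PD.chkMv pd0s dat op0) = true := by decide +kernel

theorem q_pr0s : allN 12 (PD.chkPr pd0s) = true := by decide +kernel

theorem q_cl0s : allN 12 (PD.chkCl pd0s dat) = true := by decide +kernel

theorem q_loc0s : allN 40 (PD.chkLoc pd0s dat op0) = true := by decide +kernel

theorem q_gs0s : allN 3 (PD.chkGs pd0s dat op0) = true := by decide +kernel

theorem q_sg0s : allN 12 (PD.chkSg pd0s true) = true := by decide +kernel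

theorem q_zero0s : PD.chkZero pd0s dat = true := by decide +kernel

theorem q_ck0s : PD.Ck pd0s dat op0 true where
  all := q_all
  zero := q_zero0s
  ne := allN_iff.1 q_ne0s
  mv := allN_iff.1 q_mv0s
  pr := allN_iff.1 q_pr0s
  cl := allN_iff.1 q_cl0s
  loc := allN_iff.1 q_loc0s
  gs := allN_iff.1 q_gs0s
  sg := allN_iff.1 q_sg0s

theorem q_iso19 : dat.chkIso pd0s 19 = true := by decide +kernel

theorem q_iso21 : dat.chkIso pd0 21 = true := by decide +kernel

/-- The isolated characters. -/
def iso : ℕ := 0x280000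

theorem q_lab : allN dat.K (dat.chkLabX iso) = true := by decide +kernel

theorem q_iso : allN dat.K (fun i => cond (bit iso i) (List.any [19, 21] fun j => Nat.beq i j) true) = true := by
  decide +kernel

theorem connIsol {G : Type} [Group G] [Fintype G] {V : G →* Matrix (Fin 4) (Fin 4) ℂ} {γ : ℕ → G}
    (hG : Gp dat fI V γ) : ∀ x y : MRep G, IsIrr x.2 → IsIrr y.2 → SameLevel V x y →
      ¬ Isol V x → ¬ Isol V y → Relation.EqvGen (Lk V) x y := by
  obtain ⟨e, hc⟩ := crs_i
  obtain ⟨lt, a, O⟩ := main hG
  have h19 : Isol V (a 19) := isol_certP hc hG ckA ck_tt O (by simp [dat]) (by decide) q_ck0s (by decide) q_iso19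
  have h21 : Isol V (a 21) := isol_certP hc hG ckA ck_tt O (by simp [dat]) (by decide) q_ck0 (by decide) q_iso21
  refine O.connIsol hc (I := iso) (fun i hi hb => ?_) (allN_iff.1 q_lab)
  have h := allN_iff.1 q_iso i hi
  rw [hb, cond_true] at h
  obtain ⟨j, hj, hij⟩ := List.any_eq_true.1 h
  rw [beq_iff] at hij
  subst hij
  simp only [List.mem_cons, List.not_mem_nil, or_false] at hj
  rcases hj with rfl | rfl
  · exact h19
  · exact h21

end

end Pool.Agent.CMFn.G29
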