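import Pool.Agent.CMFn.DatQG32
import Pool.Agent.CMFn.CkG32

/-! Project CMFn, blocks C and Q: isolated characters of the group G32.  helper22. -/

namespace Pool.Agent.CMFn.G32

open GD

noncomputable section

/-- The determinant of the generators. -/
def qw : Qd PN := ⟨⟨0, 0⟩, ⟨1, 0⟩⟩

theorem q_all : PD.chkAll3 dat op0 qw = true := by decide +kernel

theorem q_ne0 : allN 72 (PD.chkNe pd0 dat) = true := by decide +kernel

theorem q_mv0 : allN 3 (PD.chkMv3 pd0 dat op0) = true := by decide +kernel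

theorem q_pr0 : allN 72 (PD.chkPr pd0) = true := by decide +kernel

theorem q_cl0 : allN 72 (PD.chkCl pd0 dat) = true := by decide +kernel

theorem q_loc0 : allN 40 (PD.chkLoc pd0 dat op0) = true := by decide +kernel

theorem q_gs0 : allN 3 (PD.chkGs pd0 dat op0) = true := by decide +kernel

theorem q_ex0 : allN 72 (PD.chkEx pd0) = true := by decide +kernel

theorem q_zero0 : PD.chkZero pd0 dat = true := by decide +kernel

theorem q_ck0 : PD.Ck3 pd0 dat op0 qw where
  all := q_all
  zero := q_zero0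
  ne := allN_iff.1 q_ne0
  mv := allN_iff.1 q_mv0
  pr := allN_iff.1 q_pr0
  cl := allN_iff.1 q_cl0
  loc := allN_iff.1 q_loc0
  gs := allN_iff.1 q_gs0
  ex := allN_iff.1 q_ex0

theorem q_ne1 : allN 24 (PD.chkNe pd1 dat) = true := by decide +kernel

theorem q_mv1 : allN 2 (PD.chkMv3 pd1 dat op0) = true := by decide +kernel

theorem q_pr1 : allN 24 (PD.chkPr pd1) = true := by decide +kernel

theorem q_cl1 : allN 24 (PD.chkCl pd1 dat) = true := by decide +kernel

theorem q_loc1 : allN 40 (PD.chkLoc pd1 dat op0) = true := by decide +kernel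

theorem q_gs1 : allN 2 (PD.chkGs pd1 dat op0) = true := by decide +kernel

theorem q_ex1 : allN 24 (PD.chkEx pd1) = true := by decide +kernel

theorem q_zero1 : PD.chkZero pd1 dat = true := by decide +kernel

theorem q_ck1 : PD.Ck3 pd1 dat op0 qw where
  all := q_all
  zero := q_zero1
  ne := allN_iff.1 q_ne1
  mv := allN_iff.1 q_mv1
  pr := allN_iff.1 q_pr1
  cl := allN_iff.1 q_cl1
  loc := allN_iff.1 q_loc1
  gs := allN_iff.1 q_gs1
  ex := allN_iff.1 q_ex1

theorem q_iso51 : dat.chkIso3 qw pd0 pd1 0 1 51 = true := by decide +kernel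

theorem q_iso54 : dat.chkIso3 qw pd0 pd1 1 0 54 = true := by decide +kernel

theorem q_iso56 : dat.chkIso3 qw pd0 pd1 2 0 56 = true := by decide +kernel

/-- The isolated characters. -/
def iso : ℕ := 0x148000000000000

theorem q_lab : allN dat.K (dat.chkLabX iso) = true := by decide +kernel

theorem q_iso : allN dat.K (fun i => cond (bit iso i) (List.any [51, 54, 56] fun j => Nat.beq i j) true) = true := by
  decide +kernel

theorem connIsolC3 {G : Type} [Group G] [Fintype G] {V : G →* Matrix (Fin 4) (Fin 4) ℂ}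
    {γ : ℕ → G} (hG : Gp dat fOm V γ) : ∀ x y : MRep G, IsIrr x.2 → IsIrr y.2 → SameLevel V x y →
      ¬ IsolC3 V x → ¬ IsolC3 V y → Relation.EqvGen (Lk V) x y := by
  obtain ⟨e, hc⟩ := crs_om
  obtain ⟨lt, a, O⟩ := cert hc hG ckA ckB
  have h51 : IsolC3 V (a 51) :=
    isolC3_cert hc hG ckA ckB O (by simp [dat]) (by decide) q_ck0 q_ck1 0 1 (by decide) q_iso51
  have h54 : IsolC3 V (a 54) :=
    isolC3_cert hc hG ckA ckB O (by simp [dat]) (by decide) q_ck0 q_ck1 1 0 (by decide) q_iso54
  have h56 : IsolC3 V (a 56) :=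
    isolC3_cert hc hG ckA ckB O (by simp [dat]) (by decide) q_ck0 q_ck1 2 0 (by decide) q_iso56
  refine O.connIsolC3 hc (I := iso) (fun i hi hb => ?_) (allN_iff.1 q_lab)
  have h := allN_iff.1 q_iso i hi
  rw [hb, cond_true] at h
  obtain ⟨j, hj, hij⟩ := List.any_eq_true.1 h
  rw [beq_iff] at hij
  subst hij
  simp only [List.mem_cons, List.not_mem_nil, or_false] at hj
  rcases hj with rfl | rfl | rfl
  · exact h51
  · exact h54
  · exact h56

/-- The reflections have order three and are conjugate up to inversion. -/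
theorem oneClass3 {G : Type} [Group G] [Fintype G] {V : G →* Matrix (Fin 4) (Fin 4) ℂ}
    {γ : ℕ → G} (hG : Gp dat fOm V γ) :
    (∀ s : G, (V s - 1).rank = 1 → s ^ 3 = 1) ∧
    ∀ s t : G, (V s - 1).rank = 1 → (V t - 1).rank = 1 →
      ∃ g : G, g * s * g⁻¹ = t ∨ g * s * g⁻¹ = t ^ 2 := by
  obtain ⟨e, hc⟩ := crs_om
  obtain ⟨lt, a, O⟩ := cert hc hG ckA ckB
  exact one_class3 hc hG ckA ckB O (by simp [dat]) (by decide) q_all

end

end Pool.Agent.CMFn.G32
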