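import Pool.Agent.CMFn.DatQG34
import Pool.Agent.CMFn.CkG34
import Pool.Agent.CMFn.CQP
import Pool.Agent.CMFn.CQY

/-! Project CMFn, blocks C and Q: isolated characters of the group G34. -/

namespace Pool.Agent.CMFn.G34

open GD

noncomputable section

theorem q_all : PD.chkAll dat op0 = true := by decide +kernel

theorem q_ne0 : allN 54 (PD.chkNe pd0 dat) = true := by decide +kernel

theorem q_mv0 : allN 3 (PD.chkMv pd0 dat op0) = true := by decide +kernel

theorem q_pr0 : allN 54 (PD.chkPr pd0) = true := by decide +kernel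

theorem q_cl0 : allN 54 (PD.chkCl pd0 dat) = true := by decide +kernel

theorem q_loc0 : allN 126 (PD.chkLoc pd0 dat op0) = true := by decide +kernel

theorem q_gs0 : allN 3 (PD.chkGs pd0 dat op0) = true := by decide +kernel

theorem q_sg0 : allN 54 (PD.chkSg pd0 false) = true := by decide +kernel

theorem q_zero0 : PD.chkZero pd0 dat = true := by decide +kernel

theorem q_ck0 : PD.Ck pd0 dat op0 false where
  all := q_all
  zero := q_zero0
  ne := allN_iff.1 q_ne0
  mv := allN_iff.1 q_mv0
  pr := allN_iff.1 q_pr0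
  cl := allN_iff.1 q_cl0
  loc := allN_iff.1 q_loc0
  gs := allN_iff.1 q_gs0
  sg := allN_iff.1 q_sg0

theorem q_ne0s : allN 54 (PD.chkNe pd0s dat) = true := by decide +kernel

theorem q_mv0s : allN 3 (PD.chkMv pd0s dat op0) = true := by decide +kernel

theorem q_pr0s : allN 54 (PD.chkPr pd0s) = true := by decide +kernel

theorem q_cl0s : allN 54 (PD.chkCl pd0s dat) = true := by decide +kernel

theorem q_loc0s : allN 126 (PD.chkLoc pd0s dat op0) = true := by decide +kernel

theorem q_gs0s : allN 3 (PD.chkGs pd0s dat op0) = true := by decide +kernel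

theorem q_sg0s : allN 54 (PD.chkSg pd0s true) = true := by decide +kernel

theorem q_zero0s : PD.chkZero pd0s dat = true := by decide +kernel

theorem q_ck0s : PD.Ck pd0s dat op0 true where
  all := q_all
  zero := q_zero0s
  ne := allN_iff.1 q_ne0s
  mv := allN_iff.1 q_mv0s
  pr := allN_iff.1 q_pr0s
  cl := allN_iff.1 q_cl0s
  loc := allN_iff.1 q_loc0s
  gs := allN_iff.1 q_gs0s
  sg := allN_iff.1 q_sg0s

theorem q_ne1 : allN 192 (PD.chkNe pd1 dat) = true := by decide +kernel

theorem q_mv1 : allN 4 (PD.chkMv pd1 dat op0) = true := by decide +kernel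

theorem q_pr1 : allN 192 (PD.chkPr pd1) = true := by decide +kernel

theorem q_cl1 : allN 192 (PD.chkCl pd1 dat) = true := by decide +kernel

theorem q_loc1 : allN 126 (PD.chkLoc pd1 dat op0) = true := by decide +kernel

theorem q_gs1 : allN 4 (PD.chkGs pd1 dat op0) = true := by decide +kernel

theorem q_sg1 : allN 192 (PD.chkSg pd1 false) = true := by decide +kernel

theorem q_zero1 : PD.chkZero pd1 dat = true := by decide +kernel

theorem q_ck1 : PD.Ck pd1 dat op0 false where
  all := q_all
  zero := q_zero1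
  ne := allN_iff.1 q_ne1
  mv := allN_iff.1 q_mv1
  pr := allN_iff.1 q_pr1
  cl := allN_iff.1 q_cl1
  loc := allN_iff.1 q_loc1
  gs := allN_iff.1 q_gs1
  sg := allN_iff.1 q_sg1

theorem q_ne1s : allN 192 (PD.chkNe pd1s dat) = true := by decide +kernel

theorem q_mv1s : allN 4 (PD.chkMv pd1s dat op0) = true := by decide +kernel

theorem q_pr1s : allN 192 (PD.chkPr pd1s) = true := by decide +kernel

theorem q_cl1s : allN 192 (PD.chkCl pd1s dat) = true := by decide +kernel

theorem q_loc1s : allN 126 (PD.chkLoc pd1s dat op0) = true := by decide +kernel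

theorem q_gs1s : allN 4 (PD.chkGs pd1s dat op0) = true := by decide +kernel

theorem q_sg1s : allN 192 (PD.chkSg pd1s true) = true := by decide +kernel

theorem q_zero1s : PD.chkZero pd1s dat = true := by decide +kernel

theorem q_ck1s : PD.Ck pd1s dat op0 true where
  all := q_all
  zero := q_zero1s
  ne := allN_iff.1 q_ne1s
  mv := allN_iff.1 q_mv1s
  pr := allN_iff.1 q_pr1s
  cl := allN_iff.1 q_cl1s
  loc := allN_iff.1 q_loc1s
  gs := allN_iff.1 q_gs1s
  sg := allN_iff.1 q_sg1s

theorem q_iso26 : dat.chkIso pd0s 26 = true := by decide +kernel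

theorem q_iso31 : dat.chkIso pd0 31 = true := by decide +kernel

theorem q_iso67 : dat.chkIso pd1s 67 = true := by decide +kernel

theorem q_iso72 : dat.chkIso pd1 72 = true := by decide +kernel

/-- The isolated characters. -/
def iso : ℕ := 0x1080000000084000000

/-- The characters 140, 420, 560 of the levels 0, 18, -18 and 630, 630' of the levels 6, -6, 12,
-12. -/
def yset : ℕ := 0x1ede4008480000000007000000000000000

theorem q_lab : allN dat.K (dat.chkLabXY iso yset) = true := by decide +kernel

theorem q_iso : allN dat.K (fun i => cond (bit iso i) (List.any [26, 31, 67, 72] fun j => Nat.beq i j) true) = true := by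
  decide +kernel

theorem isol {G : Type} [Group G] [Fintype G] {V : G →* Matrix (Fin 6) (Fin 6) ℂ} {γ : ℕ → G}
    (hG : Gp dat fOm V γ) {lt : ℕ → G} {a : ℕ → MRep G} (O : Out dat fOm V γ lt a) :
    ∀ i < dat.K, bit iso i = true → Isol V (a i) := by
  obtain ⟨e, hc⟩ := crs_om
  have h26 : Isol V (a 26) :=
    isol_certP hc hG ckA ck_tt O (by simp [dat]) (by decide) q_ck0s (by decide) q_iso26
  have h31 : Isol V (a 31) :=
    isol_certP hc hG ckA ck_tt O (by simp [dat]) (by decide) q_ck0 (by decide) q_iso31
  have h67 : Isol V (a 67) :=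
    isol_certP hc hG ckA ck_tt O (by simp [dat]) (by decide) q_ck1s (by decide) q_iso67
  have h72 : Isol V (a 72) :=
    isol_certP hc hG ckA ck_tt O (by simp [dat]) (by decide) q_ck1 (by decide) q_iso72
  intro i hi hb
  have h := allN_iff.1 q_iso i hi
  rw [hb, cond_true] at h
  obtain ⟨j, hj, hij⟩ := List.any_eq_true.1 h
  rw [beq_iff] at hij
  subst hij
  simp only [List.mem_cons, List.not_mem_nil, or_false] at hj
  rcases hj with rfl | rfl | rfl | rfl
  · exact h26
  · exact h31
  · exact h67
  · exact h72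

/-- The levels are connected, up to the isolated characters and up to a property `Y` which holds
exactly for the characters in `yset`. -/
theorem connXY {G : Type} [Group G] [Fintype G] {V : G →* Matrix (Fin 6) (Fin 6) ℂ} {γ : ℕ → G}
    (hG : Gp dat fOm V γ) {lt : ℕ → G} {a : ℕ → MRep G} (O : Out dat fOm V γ lt a)
    (Y : MRep G → Prop)
    (hY : ∀ x y : MRep G, x.1 = y.1 → (∀ g, (x.2 g).trace = (y.2 g).trace) → Y x → Y y)
    (hJ : ∀ i < dat.K, bit yset i = true ↔ Y (a i)) :
    ∀ x y : MRep G, IsIrr x.2 → IsIrr y.2 → SameLevel V x y → ¬ Isol V x → ¬ Isol V y →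
      (Y x ↔ Y y) → Relation.EqvGen (Lk V) x y := by
  obtain ⟨e, hc⟩ := crs_om
  exact O.connXY hc (Isol V) (fun _ _ h1 h2 h => isol_congr h1 h2 h) Y hY (isol hG O) hJ
    (allN_iff.1 q_lab)

end

end Pool.Agent.CMFn.G34
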