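import Pool.Agent.CMFn.NDefs

/-! Project CMFn, module CoA: the coinduced module (operators and relations). -/

namespace Pool.Agent.CMFn

open scoped Matrix

noncomputable section

namespace CoAX

variable {r : ℕ}

/-- a matrix of rank one is `ν ⊗ α` -/
lemma rank_one_form (A : Matrix (Fin r) (Fin r) ℂ) (h : A.rank = 1) :
    ∃ ν α : Fin r → ℂ, ν ≠ 0 ∧ ∀ j i, A j i = ν j * α i := by
  unfold Matrix.rank at h
  obtain ⟨⟨ν, hν⟩, h0, h1⟩ := finrank_eq_one_iff'.1 h
  have h2 : ∀ i : Fin r, ∃ a : ℂ, ∀ j, A j i = ν j * a := by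
    intro i
    obtain ⟨a, ha⟩ := h1 ⟨A.mulVecLin (Pi.single i 1), LinearMap.mem_range_self _ _⟩
    refine ⟨a, fun j => ?_⟩
    have h3 := congrFun (congrArg Subtype.val ha) j
    simp at h3
    rw [mul_comm, h3]
  choose α hα using h2
  refine ⟨ν, α, fun h => h0 (Subtype.ext h), fun j i => hα i j⟩

/-- the linear form `Σ ν_j Y_j` -/
def lin (ν : Fin r → ℂ) : MvPolynomial (Fin r) ℂ := ∑ j, MvPolynomial.C (ν j) * MvPolynomial.X j

lemma lin_ne_zero {ν : Fin r → ℂ} (h : ν ≠ 0) : lin ν ≠ 0 := by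
  intro h0
  apply h
  funext j
  have h1 := congrArg (MvPolynomial.coeff (Finsupp.single j 1)) h0
  rw [lin, MvPolynomial.coeff_sum] at h1
  simp only [MvPolynomial.coeff_C_mul, MvPolynomial.coeff_X', MvPolynomial.coeff_zero] at h1
  rw [Finset.sum_eq_single j] at h1
  · simpa using h1
  · intro b _ hb
    rw [if_neg, mul_zero]
    intro h2
    exact hb ((Finsupp.single_left_inj one_ne_zero).1 h2)
  · simp

lemma exists_Q (ν α : Fin r → ℂ) (hν : ν ≠ 0)
    (σ : MvPolynomial (Fin r) ℂ →ₐ[ℂ] MvPolynomial (Fin r) ℂ)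
    (hσ : ∀ i, σ (MvPolynomial.X i) = MvPolynomial.X i - MvPolynomial.C (α i) * lin ν)
    (hσ' : ∀ n h, h.IsHomogeneous n → (σ h).IsHomogeneous n) :
    ∃ Q : MvPolynomial (Fin r) ℂ →ₗ[ℂ] MvPolynomial (Fin r) ℂ, Q 1 = 0 ∧
      (∀ h i, Q (h * MvPolynomial.X i) = Q h * MvPolynomial.X i +
        MvPolynomial.C (α i) * σ h) ∧
      ∀ n h, h.IsHomogeneous (n + 1) → (Q h).IsHomogeneous n := by
  have hL := lin_ne_zero hν
  have hex : ∀ h : MvPolynomial (Fin r) ℂ, ∃ q, h - σ h = lin ν * q := by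
    intro h
    induction h using MvPolynomial.induction_on with
    | C a => exact ⟨0, by rw [mul_zero, ← MvPolynomial.algebraMap_eq, σ.commutes, sub_self]⟩
    | add p q hp hq =>
      obtain ⟨u, hu⟩ := hp
      obtain ⟨v, hv⟩ := hq
      refine ⟨u + v, ?_⟩
      rw [map_add, mul_add, ← hu, ← hv]; ring
    | mul_X p i hp =>
      obtain ⟨u, hu⟩ := hp
      refine ⟨u * MvPolynomial.X i + MvPolynomial.C (α i) * σ p, ?_⟩
      rw [map_mul, hσ]
      linear_combination MvPolynomial.X i * hu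
  choose q hq using hex
  have huniq : ∀ h u, h - σ h = lin ν * u → q h = u := by
    intro h u hu
    exact mul_left_cancel₀ hL ((hq h).symm.trans hu)
  let Q : MvPolynomial (Fin r) ℂ →ₗ[ℂ] MvPolynomial (Fin r) ℂ :=
    { toFun := q
      map_add' := fun a b => huniq _ _ (by rw [map_add, mul_add, ← hq, ← hq]; ring)
      map_smul' := fun a b => huniq _ _ (by
        rw [map_smul, RingHom.id_apply, ← smul_sub, hq, mul_smul_comm]) }
  have hQ1 : Q 1 = 0 := huniq 1 0 (by rw [map_one, sub_self, mul_zero])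
  have hQX : ∀ h i, Q (h * MvPolynomial.X i) = Q h * MvPolynomial.X i +
        MvPolynomial.C (α i) * σ h := by
    intro h i
    refine huniq _ _ ?_
    have h1 : h - σ h = lin ν * Q h := hq h
    rw [map_mul, hσ]
    linear_combination MvPolynomial.X i * h1
  refine ⟨Q, hQ1, hQX, ?_⟩
  -- homogeneity on monomials
  have hmon : ∀ (n : ℕ) (b : Fin r →₀ ℕ), b.degree = n + 1 →
      (Q (MvPolynomial.monomial b 1)).IsHomogeneous n := by
    intro n
    induction n with
    | zero =>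
      intro b hb
      obtain ⟨i, hi⟩ : ∃ i, b i ≠ 0 := by
        by_contra h
        push_neg at h
        have : b = 0 := Finsupp.ext h
        rw [this] at hb; simp at hb
      have hb' : b = (b - Finsupp.single i 1) + Finsupp.single i 1 := by
        rw [tsub_add_cancel_of_le]
        rw [Finsupp.single_le_iff]; omega
      have hdeg : (b - Finsupp.single i 1).degree = 0 := by
        have := congrArg Finsupp.degree hb'
        rw [map_add, Finsupp.degree_single] at this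
        omega
      have h0 : b - Finsupp.single i 1 = 0 := Finsupp.degree_eq_zero_iff _ |>.1 hdeg
      rw [hb', h0, zero_add]
      have : (MvPolynomial.monomial (Finsupp.single i 1) (1 : ℂ)) = 1 * MvPolynomial.X i := by
        rw [one_mul]; rfl
      rw [this, hQX, hQ1, zero_mul, zero_add, map_one, mul_one]
      exact MvPolynomial.isHomogeneous_C _ _
    | succ n ih =>
      intro b hb
      obtain ⟨i, hi⟩ : ∃ i, b i ≠ 0 := by
        by_contra h
        push_neg at h
        have : b = 0 := Finsupp.ext h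
        rw [this] at hb; simp at hb
      have hb' : b = (b - Finsupp.single i 1) + Finsupp.single i 1 := by
        rw [tsub_add_cancel_of_le]
        rw [Finsupp.single_le_iff]; omega
      have hdeg : (b - Finsupp.single i 1).degree = n + 1 := by
        have := congrArg Finsupp.degree hb'
        rw [map_add, Finsupp.degree_single] at this
        omega
      have h1 : MvPolynomial.monomial b (1 : ℂ) =
          MvPolynomial.monomial (b - Finsupp.single i 1) 1 * MvPolynomial.X i := by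
        conv_lhs => rw [hb']
        rw [MvPolynomial.X, MvPolynomial.monomial_mul, one_mul]
      rw [h1, hQX]
      refine MvPolynomial.IsHomogeneous.add ?_ ?_
      · exact (ih _ hdeg).mul (MvPolynomial.isHomogeneous_X _ _)
      · have h2 := (MvPolynomial.isHomogeneous_C (Fin r) (α i)).mul
          (hσ' (n + 1) (MvPolynomial.monomial (b - Finsupp.single i 1) 1)
            (MvPolynomial.isHomogeneous_monomial _ hdeg))
        rwa [zero_add] at h2
  intro n h hh
  rw [MvPolynomial.as_sum h, map_sum]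
  refine MvPolynomial.IsHomogeneous.sum _ _ _ fun b hb => ?_
  have h1 : MvPolynomial.monomial b (MvPolynomial.coeff b h) =
      MvPolynomial.coeff b h • MvPolynomial.monomial b (1 : ℂ) := by
    rw [MvPolynomial.smul_monomial, smul_eq_mul, mul_one]
  rw [h1, map_smul, MvPolynomial.smul_eq_C_mul]
  have h2 := (MvPolynomial.isHomogeneous_C (Fin r) (MvPolynomial.coeff b h)).mul
    (hmon n b ?_)
  · rwa [zero_add] at h2
  · have h3 := hh (MvPolynomial.mem_support_iff.1 hb)
    rw [← h3]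
    rw [Finsupp.degree_eq_weight_one (R := ℕ)]
    rfl

end CoAX

variable {r : ℕ} {N : SG r} [Fintype N]

/-- `σ_g Y_i = Σ_j g_{ji} Y_j`. -/
def sg (g : N) : MvPolynomial (Fin r) ℂ →ₐ[ℂ] MvPolynomial (Fin r) ℂ :=
  MvPolynomial.bind₁ fun i => ∑ j, MvPolynomial.C (g.1.1 j i) * MvPolynomial.X j

open Classical in
/-- The coefficient of `s` in `[y_i, x_j]`. -/
def gam (c : N → ℂ) (s : N) (i j : Fin r) : ℂ :=
  if IsRefl s.1 then c s * ((1 - s.1.1) j i / (1 - s.1.1.det)) else 0

namespace CoAX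

lemma sg_X (g : N) (i : Fin r) : sg g (MvPolynomial.X i) =
    ∑ j, MvPolynomial.C (g.1.1 j i) * MvPolynomial.X j := by
  rw [sg, MvPolynomial.bind₁_X_right]

lemma sg_mul (g h : N) : sg (g * h) = (sg g).comp (sg h) := by
  apply MvPolynomial.algHom_ext
  intro i
  rw [AlgHom.comp_apply, sg_X, sg_X, map_sum]
  have h1 : ∀ j, sg g (MvPolynomial.C (h.1.1 j i) * MvPolynomial.X j) =
      ∑ k, MvPolynomial.C (g.1.1 k j * h.1.1 j i) * MvPolynomial.X k := by
    intro j
    rw [map_mul, sg_X, ← MvPolynomial.algebraMap_eq, AlgHom.commutes, Finset.mul_sum]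
    refine Finset.sum_congr rfl fun k _ => ?_
    rw [MvPolynomial.algebraMap_eq, ← mul_assoc, ← MvPolynomial.C_mul, mul_comm (h.1.1 j i)]
  rw [Finset.sum_congr rfl fun j _ => h1 j, Finset.sum_comm]
  refine Finset.sum_congr rfl fun k _ => ?_
  rw [← Finset.sum_mul, ← map_sum]
  congr 2

lemma sg_one : sg (1 : N) = AlgHom.id ℂ _ := by
  apply MvPolynomial.algHom_ext
  intro i
  rw [sg_X, AlgHom.id_apply, Finset.sum_eq_single i]
  · have : ((1 : N).1.1 : Matrix (Fin r) (Fin r) ℂ) i i = 1 := Matrix.one_apply_eq i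
    rw [this, MvPolynomial.C_1, one_mul]
  · intro j _ hj
    have : ((1 : N).1.1 : Matrix (Fin r) (Fin r) ℂ) j i = 0 := Matrix.one_apply_ne hj
    rw [this, MvPolynomial.C_0, zero_mul]
  · simp

lemma sg_hom (g : N) (n : ℕ) (h : MvPolynomial (Fin r) ℂ) (hh : h.IsHomogeneous n) :
    (sg g h).IsHomogeneous n := by
  have h1 := hh.aeval (fun i => ∑ j, MvPolynomial.C (g.1.1 j i) * MvPolynomial.X j) (n := 1)
    (fun i => by
      refine MvPolynomial.IsHomogeneous.sum _ _ _ fun j _ => ?_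
      have := (MvPolynomial.isHomogeneous_C (Fin r) (g.1.1 j i)).mul
        (MvPolynomial.isHomogeneous_X ℂ j)
      rwa [zero_add] at this)
  rw [one_mul] at h1
  exact h1

/-- `1 - s` and `s⁻¹ - 1` for a reflection. -/
lemma refl_form (s : N) (hs : IsRefl s.1) : ∃ ν α : Fin r → ℂ, ν ≠ 0 ∧ s.1.1.det ≠ 0 ∧
    (∀ j i, (1 - s.1.1) j i = - (ν j * α i)) ∧
    ∀ j i, (s⁻¹).1.1 j i = (1 : Matrix (Fin r) (Fin r) ℂ) j i - (s.1.1.det)⁻¹ * (ν j * α i) := by
  obtain ⟨ν, α, hν, hA⟩ := rank_one_form (s.1.1 - 1) hs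
  have hs1 : s.1.1 = 1 + Matrix.vecMulVec ν α := by
    ext j i
    have := hA j i
    rw [Matrix.sub_apply] at this
    rw [Matrix.add_apply, Matrix.vecMulVec_apply]
    linear_combination this
  have hd0 : s.1.1.det ≠ 0 := by
    have := (Matrix.isUnit_iff_isUnit_det _).1 s.1.isUnit
    exact this.ne_zero
  have hd : s.1.1.det = 1 + α ⬝ᵥ ν := by
    rw [hs1, Matrix.vecMulVec_eq Unit, Matrix.det_one_add_replicateCol_mul_replicateRow]
  refine ⟨ν, α, hν, hd0, fun j i => ?_, ?_⟩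
  · have := hA j i
    rw [Matrix.sub_apply] at this ⊢
    linear_combination -this
  · have h1 : s.1.1 * ((1 : Matrix (Fin r) (Fin r) ℂ) - (s.1.1.det)⁻¹ • Matrix.vecMulVec ν α) = 1 := by
      have h2 : Matrix.vecMulVec ν α * Matrix.vecMulVec ν α = (α ⬝ᵥ ν) • Matrix.vecMulVec ν α := by
        rw [Matrix.vecMulVec_mul_vecMulVec, Matrix.vecMulVec_smul]
      nth_rewrite 1 [hs1]
      rw [add_mul, one_mul, mul_sub, mul_one, mul_smul_comm, h2, smul_smul]
      have h3 : (s.1.1.det)⁻¹ * (α ⬝ᵥ ν) = 1 - (s.1.1.det)⁻¹ := by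
        rw [hd]
        rw [hd] at hd0
        field_simp
        ring
      rw [h3, sub_smul, one_smul]
      abel
    have h2 : (s⁻¹).1.1 = (1 : Matrix (Fin r) (Fin r) ℂ) - (s.1.1.det)⁻¹ • Matrix.vecMulVec ν α := by
      have h3 : (s⁻¹).1.1 * s.1.1 = 1 := by
        have : (s⁻¹).1 * s.1 = 1 := by
          rw [← Subgroup.coe_mul, inv_mul_cancel, Subgroup.coe_one]
        have h4 := congrArg Units.val this
        rwa [Units.val_mul, Units.val_one] at h4
      calc (s⁻¹).1.1 = (s⁻¹).1.1 * (s.1.1 * ((1 : Matrix (Fin r) (Fin r) ℂ) -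
            (s.1.1.det)⁻¹ • Matrix.vecMulVec ν α)) := by rw [h1, mul_one]
        _ = _ := by rw [← mul_assoc, h3, one_mul]
    intro j i
    rw [h2, Matrix.sub_apply, Matrix.smul_apply, Matrix.vecMulVec_apply, smul_eq_mul]

end CoAX

open CoAX

/-- Twisted divided difference (`= const (h - σ_{s⁻¹} h)/ν_s`, `1 - s = ν_s ⊗ α_s`). -/
theorem exists_dd (c : N → ℂ) (s : N) (j : Fin r) :
    ∃ D : MvPolynomial (Fin r) ℂ →ₗ[ℂ] MvPolynomial (Fin r) ℂ, D 1 = 0 ∧
      (∀ h i, D (h * MvPolynomial.X i) = D h * MvPolynomial.X i +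
        MvPolynomial.C (gam c s i j) * sg s⁻¹ h) ∧
      ∀ n h, h.IsHomogeneous (n + 1) → (D h).IsHomogeneous n := by
  by_cases hs : IsRefl s.1
  · obtain ⟨ν, α, hν, hd0, h1, h2⟩ := refl_form s hs
    obtain ⟨Q, hQ1, hQX, hQh⟩ := exists_Q ν (fun i => (s.1.1.det)⁻¹ * α i) hν (sg s⁻¹) (by
      intro i
      rw [sg_X]
      have h3 : ∀ j, MvPolynomial.C ((s⁻¹).1.1 j i) * (MvPolynomial.X j : MvPolynomial (Fin r) ℂ) =
          (MvPolynomial.C ((1 : Matrix (Fin r) (Fin r) ℂ) j i) * MvPolynomial.X j) -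
          MvPolynomial.C ((s.1.1.det)⁻¹ * α i) * (MvPolynomial.C (ν j) * MvPolynomial.X j) := by
        intro j
        rw [h2, MvPolynomial.C_sub, sub_mul, ← mul_assoc (MvPolynomial.C ((s.1.1.det)⁻¹ * α i)),
          ← MvPolynomial.C_mul]
        congr 3
        ring
      rw [Finset.sum_congr rfl fun j _ => h3 j, Finset.sum_sub_distrib, ← Finset.mul_sum]
      congr 1
      rw [Finset.sum_eq_single i]
      · rw [Matrix.one_apply_eq, MvPolynomial.C_1, one_mul]
      · intro j _ hj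
        rw [Matrix.one_apply_ne hj, MvPolynomial.C_0, zero_mul]
      · simp) (fun n h => sg_hom _ n h)
    refine ⟨(-(c s) * s.1.1.det * ν j / (1 - s.1.1.det)) • Q, ?_, ?_, ?_⟩
    · rw [LinearMap.smul_apply, hQ1, smul_zero]
    · intro h i
      rw [LinearMap.smul_apply, LinearMap.smul_apply, hQX, smul_add, smul_mul_assoc]
      congr 1
      rw [MvPolynomial.smul_eq_C_mul, ← mul_assoc, ← MvPolynomial.C_mul]
      congr 2
      rw [gam, if_pos hs, h1]
      field_simp
    · intro n h hh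
      rw [LinearMap.smul_apply, MvPolynomial.smul_eq_C_mul]
      have := (MvPolynomial.isHomogeneous_C (Fin r) (-(c s) * s.1.1.det * ν j / (1 - s.1.1.det))).mul
        (hQh n h hh)
      rwa [zero_add] at this
  · refine ⟨0, rfl, fun h i => ?_, fun n h _ => MvPolynomial.isHomogeneous_zero _ _ _⟩
    rw [gam, if_neg hs]
    simp

/-- The operators `D_{s,j}`. -/
def dd (c : N → ℂ) (s : N) (j : Fin r) : MvPolynomial (Fin r) ℂ →ₗ[ℂ] MvPolynomial (Fin r) ℂ :=
  (exists_dd c s j).choose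

lemma dd_one (c : N → ℂ) (s : N) (j : Fin r) : dd c s j 1 = 0 := (exists_dd c s j).choose_spec.1

lemma dd_X (c : N → ℂ) (s : N) (j : Fin r) (h : MvPolynomial (Fin r) ℂ) (i : Fin r) :
    dd c s j (h * MvPolynomial.X i) = dd c s j h * MvPolynomial.X i +
        MvPolynomial.C (gam c s i j) * sg s⁻¹ h := (exists_dd c s j).choose_spec.2.1 h i

lemma dd_hom (c : N → ℂ) (s : N) (j : Fin r) (n : ℕ) (h : MvPolynomial (Fin r) ℂ)
    (hh : h.IsHomogeneous (n + 1)) : (dd c s j h).IsHomogeneous n :=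
  (exists_dd c s j).choose_spec.2.2 n h hh

/-- Linear maps vanishing in large degrees. -/
def CoS (r : ℕ) (M : Type) [AddCommGroup M] [Module ℂ M] :
    Submodule ℂ (MvPolynomial (Fin r) ℂ →ₗ[ℂ] M) where
  carrier := {φ | ∃ L, ∀ n, L ≤ n → ∀ h : MvPolynomial (Fin r) ℂ, h.IsHomogeneous n → φ h = 0}
  add_mem' := by
    rintro φ ψ ⟨L, hL⟩ ⟨L', hL'⟩
    refine ⟨max L L', fun n hn h hh => ?_⟩
    rw [LinearMap.add_apply, hL n (le_trans (le_max_left _ _) hn) h hh,
      hL' n (le_trans (le_max_right _ _) hn) h hh, add_zero]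
  zero_mem' := ⟨0, fun _ _ _ _ => rfl⟩
  smul_mem' := by
    rintro a φ ⟨L, hL⟩
    exact ⟨L, fun n hn h hh => by rw [LinearMap.smul_apply, hL n hn h hh, smul_zero]⟩

namespace CoAX

section ops

variable (c : N → ℂ) (M : Type) [AddCommGroup M] [Module ℂ M]
  [Module (H0 N c) M] [IsScalarTower ℂ (H0 N c) M]

/-- the action of an element of `H₀` on `M` as a linear map -/
def sm (a : H0 N c) : M →ₗ[ℂ] M := Module.toModuleEnd ℂ (S := H0 N c) M a

lemma sm_apply (a : H0 N c) (m : M) : sm c M a m = a • m := rfl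

/-- `(y_i φ)(h) = φ(h Y_i)` -/
def oY (i : Fin r) : Module.End ℂ (CoS r M) where
  toFun φ := ⟨φ.1 ∘ₗ LinearMap.mulRight ℂ (MvPolynomial.X i), by
    obtain ⟨φ, L, hL⟩ := φ
    exact ⟨L, fun n hn h hh => hL (n + 1) (by omega) _ (hh.mul (MvPolynomial.isHomogeneous_X _ _))⟩⟩
  map_add' φ ψ := rfl
  map_smul' a φ := rfl

lemma oY_apply (i : Fin r) (φ : CoS r M) (h : MvPolynomial (Fin r) ℂ) :
    (oY M i φ).1 h = φ.1 (h * MvPolynomial.X i) := rfl

/-- `(g φ)(h) = g φ(σ_{g⁻¹} h)` -/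
def oT (g : N) : Module.End ℂ (CoS r M) where
  toFun φ := ⟨sm c M (rT c g) ∘ₗ φ.1 ∘ₗ (sg g⁻¹).toLinearMap, by
    obtain ⟨φ, L, hL⟩ := φ
    refine ⟨L, fun n hn h hh => ?_⟩
    show sm c M (rT c g) (φ (sg g⁻¹ h)) = 0
    rw [hL n hn _ (sg_hom _ n h hh), map_zero]⟩
  map_add' φ ψ := by
    apply Subtype.ext; apply LinearMap.ext; intro h
    show sm c M (rT c g) ((φ.1 + ψ.1) (sg g⁻¹ h)) = _
    rw [LinearMap.add_apply, map_add]; rfl
  map_smul' a φ := by
    apply Subtype.ext; apply LinearMap.ext; intro h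
    show sm c M (rT c g) ((a • φ.1) (sg g⁻¹ h)) = _
    rw [LinearMap.smul_apply, map_smul]; rfl

lemma oT_apply (g : N) (φ : CoS r M) (h : MvPolynomial (Fin r) ℂ) :
    (oT c M g φ).1 h = rT c g • φ.1 (sg g⁻¹ h) := rfl

/-- `(x_j φ)(h) = x_j φ(h) + Σ_s s φ(D_{s,j} h)` -/
def oX (j : Fin r) : Module.End ℂ (CoS r M) where
  toFun φ := ⟨sm c M (rX c j) ∘ₗ φ.1 + ∑ s : N, sm c M (rT c s) ∘ₗ φ.1 ∘ₗ dd c s j, by
    obtain ⟨φ, L, hL⟩ := φ
    refine ⟨L + 1, fun n hn h hh => ?_⟩
    rw [LinearMap.add_apply, LinearMap.comp_apply, hL n (by omega) h hh, map_zero, zero_add,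
      LinearMap.sum_apply]
    refine Finset.sum_eq_zero fun s _ => ?_
    obtain ⟨n, rfl⟩ : ∃ k, n = k + 1 := ⟨n - 1, by omega⟩
    show sm c M (rT c s) (φ (dd c s j h)) = 0
    rw [hL n (by omega) _ (dd_hom c s j n h hh), map_zero]⟩
  map_add' φ ψ := by
    apply Subtype.ext; apply LinearMap.ext; intro h
    simp only [Submodule.coe_add, LinearMap.add_apply, LinearMap.comp_apply, LinearMap.sum_apply,
      map_add, Finset.sum_add_distrib]
    abel
  map_smul' a φ := by
    apply Subtype.ext; apply LinearMap.ext; intro h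
    simp only [Submodule.coe_smul, LinearMap.add_apply, LinearMap.comp_apply, LinearMap.sum_apply,
      LinearMap.smul_apply, map_smul, smul_add, Finset.smul_sum, RingHom.id_apply]

lemma oX_apply (j : Fin r) (φ : CoS r M) (h : MvPolynomial (Fin r) ℂ) :
    (oX c M j φ).1 h = rX c j • φ.1 h + ∑ s : N, rT c s • φ.1 (dd c s j h) := by
  show (sm c M (rX c j) ∘ₗ φ.1 + ∑ s : N, sm c M (rT c s) ∘ₗ φ.1 ∘ₗ dd c s j) h = _
  rw [LinearMap.add_apply, LinearMap.sum_apply]
  rfl

lemma oX_one (j : Fin r) (φ : CoS r M) : (oX c M j φ).1 1 = rX c j • φ.1 1 := by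
  rw [oX_apply]
  rw [Finset.sum_eq_zero, add_zero]
  intro s _
  rw [dd_one, map_zero, smul_zero]

lemma oT_one (g : N) (φ : CoS r M) : (oT c M g φ).1 1 = rT c g • φ.1 1 := by
  rw [oT_apply, map_one]

/-- uniqueness trick -/
lemma uniq (A : Module.End ℂ (CoS r M)) (h1 : ∀ φ, (A φ).1 1 = 0)
    (h2 : ∀ k, ∃ B : Module.End ℂ (CoS r M), oY M k * A = A * B) : A = 0 := by
  have h3 : ∀ (h : MvPolynomial (Fin r) ℂ) (φ : CoS r M), (A φ).1 h = 0 := by
    intro h
    induction h using MvPolynomial.induction_on with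
    | C a =>
      intro φ
      have : (MvPolynomial.C a : MvPolynomial (Fin r) ℂ) = a • 1 := by
        rw [MvPolynomial.smul_eq_C_mul, mul_one]
      rw [this, map_smul, h1, smul_zero]
    | add p q hp hq => intro φ; rw [map_add, hp, hq, add_zero]
    | mul_X p i hp =>
      intro φ
      obtain ⟨B, hB⟩ := h2 i
      have h4 : (oY M i (A φ)).1 p = (A φ).1 (p * MvPolynomial.X i) := rfl
      have h5 : oY M i (A φ) = A (B φ) := LinearMap.congr_fun hB φ
      rw [← h4, h5, hp]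
  apply LinearMap.ext
  intro φ
  apply Subtype.ext
  apply LinearMap.ext
  intro h
  exact h3 h φ

end ops

/-! ### Relations in `H₀` -/

section rel

variable (c : N → ℂ)

lemma rT_one : rT c 1 = 1 := by
  have := RingQuot.mkAlgHom_rel ℂ (HRel.one (N := N) (c := c))
  rw [map_one] at this
  exact this

lemma rT_mul (g h : N) : rT c (g * h) = rT c g * rT c h := by
  have := RingQuot.mkAlgHom_rel ℂ (HRel.mul (c := c) g h)
  rw [map_mul] at this
  exact this

lemma rTX (g : N) (i : Fin r) : rT c g * rX c i = (∑ j, (g⁻¹).1.1 i j • rX c j) * rT c g := by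
  have := RingQuot.mkAlgHom_rel ℂ (HRel.TX (c := c) g i)
  rw [map_mul, map_mul, map_sum] at this
  simp only [map_mul, AlgHom.commutes] at this
  simp only [Algebra.smul_def]
  exact this

lemma rTY (g : N) (i : Fin r) : rT c g * rY c i = (∑ j, g.1.1 j i • rY c j) * rT c g := by
  have := RingQuot.mkAlgHom_rel ℂ (HRel.TY (c := c) g i)
  rw [map_mul, map_mul, map_sum] at this
  simp only [map_mul, AlgHom.commutes] at this
  simp only [Algebra.smul_def]
  exact this

lemma rXX (i j : Fin r) : rX c i * rX c j = rX c j * rX c i := by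
  have := RingQuot.mkAlgHom_rel ℂ (HRel.XX (N := N) (c := c) i j)
  rw [map_mul, map_mul] at this
  exact this

lemma rYY (i j : Fin r) : rY c i * rY c j = rY c j * rY c i := by
  have := RingQuot.mkAlgHom_rel ℂ (HRel.YY (N := N) (c := c) i j)
  rw [map_mul, map_mul] at this
  exact this

lemma rYX (i j : Fin r) : rY c i * rX c j = rX c j * rY c i + ∑ s : N, gam c s i j • rT c s := by
  have := RingQuot.mkAlgHom_rel ℂ (HRel.YX (N := N) (c := c) i j)
  rw [map_mul, map_add, map_mul, map_sum] at this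
  simp only [map_mul, AlgHom.commutes] at this
  simp only [Algebra.smul_def]
  exact this

end rel

/-! ### Abstract computations in a ring -/

section abs

lemma inv_mat_mul (g : N) : (g⁻¹).1.1 * g.1.1 = (1 : Matrix (Fin r) (Fin r) ℂ) := by
  have : (g⁻¹).1 * g.1 = 1 := by
    rw [← Subgroup.coe_mul, inv_mul_cancel, Subgroup.coe_one]
  have h4 := congrArg Units.val this
  rwa [Units.val_mul, Units.val_one] at h4

lemma mat_mul_inv (g : N) : g.1.1 * (g⁻¹).1.1 = (1 : Matrix (Fin r) (Fin r) ℂ) := by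
  have : g.1 * (g⁻¹).1 = 1 := by
    rw [← Subgroup.coe_mul, mul_inv_cancel, Subgroup.coe_one]
  have h4 := congrArg Units.val this
  rwa [Units.val_mul, Units.val_one] at h4


variable (c : N → ℂ)

lemma gam_symm (s : N) (k i j l : Fin r) :
    gam c s k j * ((1 : Matrix (Fin r) (Fin r) ℂ) i l - (s⁻¹).1.1 i l) =
      gam c s k i * ((1 : Matrix (Fin r) (Fin r) ℂ) j l - (s⁻¹).1.1 j l) := by
  by_cases hs : IsRefl s.1
  · obtain ⟨ν, α, hν, hd0, h1, h2⟩ := refl_form s hs
    rw [gam, gam, if_pos hs, if_pos hs, h1, h1, h2, h2]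
    ring
  · rw [gam, gam, if_neg hs, if_neg hs, zero_mul, zero_mul]

lemma isRefl_conj' (g s : N) : IsRefl (g * s * g⁻¹ : N).1 ↔ IsRefl s.1 := by
  constructor
  · intro h
    have h1 := isRefl_conj (G := N) (g := (g⁻¹).1) h
    have h2 : (g⁻¹).1 * (g * s * g⁻¹ : N).1 * ((g⁻¹).1)⁻¹ = s.1 := by
      have h3 : (g⁻¹ * (g * s * g⁻¹) * (g⁻¹)⁻¹ : N) = s := by group
      exact congrArg Subtype.val h3
    rwa [h2] at h1
  · intro h
    exact isRefl_conj (G := N) (g := g.1) h

lemma gam_conj (hc : IsCls c) (g s : N) (i k : Fin r) :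
    ∑ l, (g⁻¹).1.1 l k * gam c s l i = ∑ j, (g⁻¹).1.1 i j * gam c (g * s * g⁻¹) k j := by
  by_cases hs : IsRefl s.1
  · have hs' := (isRefl_conj' g s).2 hs
    have hm : (g * s * g⁻¹ : N).1.1 = g.1.1 * s.1.1 * (g⁻¹).1.1 := rfl
    have hdet : (g * s * g⁻¹ : N).1.1.det = s.1.1.det := by
      rw [hm, Matrix.det_mul, Matrix.det_mul]
      have h1 := congrArg Matrix.det (mat_mul_inv g)
      rw [Matrix.det_mul, Matrix.det_one] at h1
      linear_combination s.1.1.det * h1
    have hl : ∀ l, (g⁻¹).1.1 l k * gam c s l i =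
        c s / (1 - s.1.1.det) * ((1 - s.1.1) i l * (g⁻¹).1.1 l k) := by
      intro l
      rw [gam, if_pos hs]; ring
    have hr : ∀ j, (g⁻¹).1.1 i j * gam c (g * s * g⁻¹) k j =
        c s / (1 - s.1.1.det) * ((g⁻¹).1.1 i j * (1 - g.1.1 * s.1.1 * (g⁻¹).1.1) j k) := by
      intro j
      rw [gam, if_pos hs', hc, hdet, hm]; ring
    rw [Finset.sum_congr rfl fun l _ => hl l, Finset.sum_congr rfl fun j _ => hr j,
      ← Finset.mul_sum, ← Finset.mul_sum, ← Matrix.mul_apply, ← Matrix.mul_apply]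
    congr 2
    rw [Matrix.sub_mul, Matrix.mul_sub, Matrix.one_mul, Matrix.mul_one, ← Matrix.mul_assoc,
      ← Matrix.mul_assoc, inv_mat_mul, Matrix.one_mul]
  · have hs' : ¬ IsRefl (g * s * g⁻¹ : N).1 := fun h => hs ((isRefl_conj' g s).1 h)
    have h1 : ∀ l, (g⁻¹).1.1 l k * gam c s l i = 0 := fun l => by rw [gam, if_neg hs, mul_zero]
    have h2 : ∀ j, (g⁻¹).1.1 i j * gam c (g * s * g⁻¹) k j = 0 := fun j => by
      rw [gam, if_neg hs', mul_zero]
    rw [Finset.sum_eq_zero fun l _ => h1 l, Finset.sum_eq_zero fun l _ => h2 l]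


variable {E : Type} [Ring E] [Algebra ℂ E] (X Y : Fin r → E) (T : N → E)

lemma abs_TX (hc : IsCls c) (hT : ∀ g h, T (g * h) = T g * T h)
    (hYX : ∀ k j, Y k * X j = X j * Y k + ∑ s : N, gam c s k j • T s)
    (hYT : ∀ k (g : N), Y k * T g = T g * ∑ l, ((g⁻¹).1.1 l k) • Y l) (g : N) (i k : Fin r) :
    Y k * (T g * X i - (∑ j, ((g⁻¹).1.1 i j) • X j) * T g) =
      (T g * X i - (∑ j, ((g⁻¹).1.1 i j) • X j) * T g) * ∑ l, ((g⁻¹).1.1 l k) • Y l := by
  have h1 : Y k * (T g * X i) =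
      T g * X i * (∑ l, ((g⁻¹).1.1 l k) • Y l) +
        ∑ s : N, (∑ l, (g⁻¹).1.1 l k * gam c s l i) • T (g * s) := by
    rw [← mul_assoc, hYT, mul_assoc, Finset.sum_mul]
    have h2 : ∀ l, (((g⁻¹).1.1 l k) • Y l) * X i =
        X i * (((g⁻¹).1.1 l k) • Y l) +
          ∑ s : N, ((g⁻¹).1.1 l k * gam c s l i) • T s := by
      intro l
      rw [smul_mul_assoc, hYX, smul_add, mul_smul_comm, Finset.smul_sum]
      simp only [smul_smul]
    have h6 : T g * ∑ l, ∑ s : N, ((g⁻¹).1.1 l k * gam c s l i) • T s =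
        ∑ s : N, (∑ l, (g⁻¹).1.1 l k * gam c s l i) • T (g * s) := by
      rw [Finset.sum_comm, Finset.mul_sum]
      refine Finset.sum_congr rfl fun s _ => ?_
      rw [← Finset.sum_smul, mul_smul_comm, ← hT]
    rw [Finset.sum_congr rfl fun l _ => h2 l, Finset.sum_add_distrib, mul_add,
      ← Finset.mul_sum, ← mul_assoc, h6]
  have h3 : Y k * ((∑ j, ((g⁻¹).1.1 i j) • X j) * T g) =
      (∑ j, ((g⁻¹).1.1 i j) • X j) * T g * (∑ l, ((g⁻¹).1.1 l k) • Y l) +
        ∑ s : N, (∑ j, (g⁻¹).1.1 i j * gam c s k j) • T (s * g) := by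
    rw [← mul_assoc, Finset.mul_sum]
    have h4 : ∀ j, Y k * (((g⁻¹).1.1 i j) • X j) =
        (((g⁻¹).1.1 i j) • X j) * Y k +
          ∑ s : N, ((g⁻¹).1.1 i j * gam c s k j) • T s := by
      intro j
      rw [mul_smul_comm, hYX, smul_add, smul_mul_assoc, Finset.smul_sum]
      simp only [smul_smul]
    have h6 : (∑ j, ∑ s : N, ((g⁻¹).1.1 i j * gam c s k j) • T s) * T g =
        ∑ s : N, (∑ j, (g⁻¹).1.1 i j * gam c s k j) • T (s * g) := by
      rw [Finset.sum_comm, Finset.sum_mul]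
      refine Finset.sum_congr rfl fun s _ => ?_
      rw [← Finset.sum_smul, smul_mul_assoc, ← hT]
    rw [Finset.sum_congr rfl fun j _ => h4 j, Finset.sum_add_distrib, add_mul,
      ← Finset.sum_mul, mul_assoc, hYT, ← mul_assoc, h6]
  rw [mul_sub, sub_mul, h1, h3, add_sub_add_comm, add_eq_left, sub_eq_zero]
  refine Fintype.sum_equiv (MulAut.conj g).toEquiv _ _ fun s => ?_
  have h5 : (MulAut.conj g).toEquiv s = g * s * g⁻¹ := rfl
  rw [h5, gam_conj c hc, inv_mul_cancel_right]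

lemma abs_XX (hYX : ∀ k j, Y k * X j = X j * Y k + ∑ s : N, gam c s k j • T s)
    (hTX : ∀ (g : N) i, T g * X i = (∑ j, ((g⁻¹).1.1 i j) • X j) * T g) (i j k : Fin r) :
    Y k * (X i * X j - X j * X i) = (X i * X j - X j * X i) * Y k := by
  have h1 : ∀ i j : Fin r, Y k * (X i * X j) = X i * X j * Y k +
      ∑ s : N, (gam c s k j • (X i * T s) +
        gam c s k i • ((∑ l, ((s⁻¹).1.1 j l) • X l) * T s)) := by
    intro i j
    rw [← mul_assoc, hYX, add_mul, mul_assoc, hYX, mul_add, ← mul_assoc, Finset.mul_sum,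
      Finset.sum_mul, add_assoc, ← Finset.sum_add_distrib]
    congr 1
    refine Finset.sum_congr rfl fun s _ => ?_
    rw [mul_smul_comm, smul_mul_assoc, hTX]
  rw [mul_sub, sub_mul, h1, h1, add_sub_add_comm, add_eq_left, ← Finset.sum_sub_distrib]
  refine Finset.sum_eq_zero fun s _ => ?_
  have h2 : ∀ i : Fin r, X i = ∑ l, ((1 : Matrix (Fin r) (Fin r) ℂ) i l) • X l := by
    intro i
    rw [Finset.sum_eq_single i]
    · rw [Matrix.one_apply_eq, one_smul]
    · intro l _ hl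
      rw [Matrix.one_apply_ne (Ne.symm hl), zero_smul]
    · simp
  have h3 : gam c s k j • (X i * T s) -
      gam c s k j • ((∑ l, ((s⁻¹).1.1 i l) • X l) * T s) =
      gam c s k i • (X j * T s) -
      gam c s k i • ((∑ l, ((s⁻¹).1.1 j l) • X l) * T s) := by
    rw [← smul_sub, ← smul_sub, ← sub_mul, ← sub_mul]
    nth_rewrite 1 [h2 i]
    nth_rewrite 1 [h2 j]
    rw [← Finset.sum_sub_distrib, ← Finset.sum_sub_distrib, Finset.sum_mul, Finset.sum_mul,
      Finset.smul_sum, Finset.smul_sum]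
    refine Finset.sum_congr rfl fun l _ => ?_
    rw [← sub_smul, ← sub_smul, smul_mul_assoc, smul_mul_assoc, smul_smul, smul_smul,
      gam_symm]
  have h4 := h3
  rw [sub_eq_iff_eq_add] at h4
  rw [h4]
  abel

end abs

/-! ### Relations of the operators -/

section oprel

variable (c : N → ℂ) (M : Type) [AddCommGroup M] [Module ℂ M]
  [Module (H0 N c) M] [IsScalarTower ℂ (H0 N c) M]

lemma oT_mul (g h : N) : oT c M (g * h) = oT c M g * oT c M h := by
  apply LinearMap.ext; intro φ; apply Subtype.ext; apply LinearMap.ext; intro p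
  show (oT c M (g * h) φ).1 p = (oT c M g (oT c M h φ)).1 p
  rw [oT_apply, oT_apply, oT_apply, rT_mul, mul_smul, _root_.mul_inv_rev, sg_mul]
  rfl

lemma oT_one' : oT c M (1 : N) = 1 := by
  apply LinearMap.ext; intro φ; apply Subtype.ext; apply LinearMap.ext; intro p
  show (oT c M 1 φ).1 p = φ.1 p
  rw [oT_apply, rT_one, one_smul, inv_one, sg_one]
  rfl

lemma oYY (i j : Fin r) : oY (r := r) M i * oY M j = oY M j * oY M i := by
  apply LinearMap.ext; intro φ; apply Subtype.ext; apply LinearMap.ext; intro p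
  show φ.1 (p * MvPolynomial.X i * MvPolynomial.X j) = φ.1 (p * MvPolynomial.X j * MvPolynomial.X i)
  rw [mul_right_comm]

lemma oYX (k j : Fin r) : oY M k * oX c M j = oX c M j * oY M k +
    ∑ s : N, gam c s k j • oT c M s := by
  apply LinearMap.ext; intro φ; apply Subtype.ext; apply LinearMap.ext; intro p
  show (oX c M j φ).1 (p * MvPolynomial.X k) = _
  rw [oX_apply, LinearMap.add_apply, Submodule.coe_add, LinearMap.add_apply]
  have h1 : (((oX c M j * oY M k) φ).1 p) = rX c j • φ.1 (p * MvPolynomial.X k) +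
      ∑ s : N, rT c s • φ.1 (dd c s j p * MvPolynomial.X k) := oX_apply c M j (oY M k φ) p
  have h2 : (((∑ s : N, gam c s k j • oT c M s) φ).1 p) =
      ∑ s : N, gam c s k j • (rT c s • φ.1 (sg s⁻¹ p)) := by
    rw [LinearMap.sum_apply, Submodule.coe_sum, LinearMap.sum_apply]
    rfl
  rw [h1, h2, add_assoc, ← Finset.sum_add_distrib]
  congr 1
  refine Finset.sum_congr rfl fun s _ => ?_
  rw [dd_X, map_add, smul_add, ← MvPolynomial.smul_eq_C_mul, map_smul, smul_comm]

lemma sum_oY_apply (a : Fin r → ℂ) (φ : CoS r M) (p : MvPolynomial (Fin r) ℂ) :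
    ((∑ l, a l • oY M l) φ).1 p = φ.1 (p * ∑ l, MvPolynomial.C (a l) * MvPolynomial.X l) := by
  rw [LinearMap.sum_apply, Submodule.coe_sum, LinearMap.sum_apply, Finset.mul_sum, map_sum]
  refine Finset.sum_congr rfl fun l _ => ?_
  have h1 : ((a l • oY M l) φ).1 p = a l • φ.1 (p * MvPolynomial.X l) := rfl
  rw [h1, ← map_smul]
  congr 1
  rw [MvPolynomial.smul_eq_C_mul]
  ring

lemma oYT (k : Fin r) (g : N) : oY M k * oT c M g =
    oT c M g * ∑ l, ((g⁻¹).1.1 l k) • oY M l := by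
  apply LinearMap.ext; intro φ; apply Subtype.ext; apply LinearMap.ext; intro p
  have h1 : ((oY M k * oT c M g) φ).1 p = rT c g • φ.1 (sg g⁻¹ (p * MvPolynomial.X k)) := rfl
  have h2 : ((oT c M g * ∑ l, ((g⁻¹).1.1 l k) • oY M l) φ).1 p =
    rT c g • ((∑ l, ((g⁻¹).1.1 l k) • oY M l) φ).1 (sg g⁻¹ p) := rfl
  rw [h1, h2, sum_oY_apply, map_mul, sg_X]

lemma oTY (g : N) (i : Fin r) : oT c M g * oY M i = (∑ j, g.1.1 j i • oY M j) * oT c M g := by
  have h1 : (∑ j, g.1.1 j i • oY M j) * oT c M g =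
      oT c M g * ∑ l, (∑ j, g.1.1 j i * (g⁻¹).1.1 l j) • oY M l := by
    rw [Finset.sum_mul]
    have h2 : ∀ j, (g.1.1 j i • oY M j) * oT c M g =
        oT c M g * ∑ l, (g.1.1 j i * (g⁻¹).1.1 l j) • oY M l := by
      intro j
      rw [smul_mul_assoc, oYT, ← mul_smul_comm, Finset.smul_sum]
      simp only [smul_smul]
    rw [Finset.sum_congr rfl fun j _ => h2 j, ← Finset.mul_sum, Finset.sum_comm]
    simp only [Finset.sum_smul]
  rw [h1]
  congr 1
  have h3 : ∀ l, (∑ j, g.1.1 j i * (g⁻¹).1.1 l j) = (1 : Matrix (Fin r) (Fin r) ℂ) l i := by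
    intro l
    rw [← inv_mat_mul g, Matrix.mul_apply]
    exact Finset.sum_congr rfl fun j _ => mul_comm _ _
  simp only [h3]
  rw [Finset.sum_eq_single i]
  · rw [Matrix.one_apply_eq, one_smul]
  · intro l _ hl
    rw [Matrix.one_apply_ne hl, zero_smul]
  · simp

lemma oTX (hc : IsCls c) (g : N) (i : Fin r) :
    oT c M g * oX c M i = (∑ j, ((g⁻¹).1.1 i j) • oX c M j) * oT c M g := by
  refine sub_eq_zero.1 (uniq M _ (fun φ => ?_) (fun k => ⟨∑ l, ((g⁻¹).1.1 l k) • oY M l, ?_⟩))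
  · have h1 : ((oT c M g * oX c M i - (∑ j, ((g⁻¹).1.1 i j) • oX c M j) * oT c M g) φ).1 1 =
        (oT c M g (oX c M i φ)).1 1 - (((∑ j, ((g⁻¹).1.1 i j) • oX c M j) (oT c M g φ)).1 1) := rfl
    have h2 : (((∑ j, ((g⁻¹).1.1 i j) • oX c M j) (oT c M g φ)).1 1) =
        (∑ j, ((g⁻¹).1.1 i j) • rX c j) • (rT c g • φ.1 1) := by
      rw [LinearMap.sum_apply, Submodule.coe_sum, LinearMap.sum_apply, Finset.sum_smul]
      refine Finset.sum_congr rfl fun j _ => ?_
      have h3 : ((((g⁻¹).1.1 i j) • oX c M j) (oT c M g φ)).1 1 =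
        ((g⁻¹).1.1 i j) • (oX c M j (oT c M g φ)).1 1 := rfl
      rw [h3, oX_one, oT_one, smul_assoc]
    rw [h1, h2, oT_one, oX_one, ← mul_smul, ← mul_smul, rTX, sub_self]
  · exact abs_TX c (oX c M) (oY M) (oT c M) hc (oT_mul c M) (oYX c M) (oYT c M) g i k

lemma oXX (hc : IsCls c) (i j : Fin r) : oX c M i * oX c M j = oX c M j * oX c M i := by
  refine sub_eq_zero.1 (uniq M _ (fun φ => ?_) (fun k => ⟨oY M k, ?_⟩))
  · have h1 : ((oX c M i * oX c M j - oX c M j * oX c M i) φ).1 1 =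
      (oX c M i (oX c M j φ)).1 1 - (oX c M j (oX c M i φ)).1 1 := rfl
    rw [h1, oX_one, oX_one, oX_one, oX_one, ← mul_smul, ← mul_smul, rXX, sub_self]
  · exact abs_XX c (oX c M) (oY M) (oT c M) (oYX c M) (oTX c M hc) i j k

end oprel

/-- The action of `H₀` on the coinduced module. -/
def Psi (c : N → ℂ) (hc : IsCls c) (M : Type) [AddCommGroup M] [Module ℂ M]
    [Module (H0 N c) M] [IsScalarTower ℂ (H0 N c) M] :
    H0 N c →ₐ[ℂ] Module.End ℂ (CoS r M) :=
  RingQuot.liftAlgHom ℂ ⟨FreeAlgebra.lift ℂ fun a => match a with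
    | Gen.X i => oX c M i
    | Gen.Y i => oY M i
    | Gen.T g => oT c M g, by
    intro a b hab
    induction hab with
    | one =>
      rw [fT, FreeAlgebra.lift_ι_apply, map_one]
      exact oT_one' c M
    | mul g h =>
      rw [map_mul]
      simp only [fT, FreeAlgebra.lift_ι_apply]
      exact oT_mul c M g h
    | TY g i =>
      rw [map_mul, map_mul, map_sum]
      simp only [map_mul, AlgHom.commutes]
      simp only [fT, fY, FreeAlgebra.lift_ι_apply]
      simp only [← Algebra.smul_def]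
      exact oTY c M g i
    | TX g i =>
      rw [map_mul, map_mul, map_sum]
      simp only [map_mul, AlgHom.commutes]
      simp only [fT, fX, FreeAlgebra.lift_ι_apply]
      simp only [← Algebra.smul_def]
      exact oTX c M hc g i
    | XX i j =>
      rw [map_mul, map_mul]
      simp only [fX, FreeAlgebra.lift_ι_apply]
      exact oXX c M hc i j
    | YY i j =>
      rw [map_mul, map_mul]
      simp only [fY, FreeAlgebra.lift_ι_apply]
      exact oYY M i j
    | YX i j =>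
      rw [map_mul, map_add, map_mul, map_sum]
      simp only [map_mul, AlgHom.commutes]
      simp only [fX, fY, fT, FreeAlgebra.lift_ι_apply]
      simp only [← Algebra.smul_def]
      exact oYX c M i j⟩

section

variable (c : N → ℂ) (hc : IsCls c) (M : Type) [AddCommGroup M] [Module ℂ M]
    [Module (H0 N c) M] [IsScalarTower ℂ (H0 N c) M]

lemma Psi_X (j : Fin r) : Psi c hc M (rX c j) = oX c M j := by
  rw [Psi, rX, h0, RingQuot.liftAlgHom_mkAlgHom_apply, fX, FreeAlgebra.lift_ι_apply]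

lemma Psi_Y (j : Fin r) : Psi c hc M (rY c j) = oY M j := by
  rw [Psi, rY, h0, RingQuot.liftAlgHom_mkAlgHom_apply, fY, FreeAlgebra.lift_ι_apply]

lemma Psi_T (g : N) : Psi c hc M (rT c g) = oT c M g := by
  rw [Psi, rT, h0, RingQuot.liftAlgHom_mkAlgHom_apply, fT, FreeAlgebra.lift_ι_apply]

end

end CoAX

variable {c : N → ℂ} (hc : IsCls c) (M : Type) [AddCommGroup M] [Module ℂ M]
  [Module (H0 N c) M] [IsScalarTower ℂ (H0 N c) M]

/-- The coinduced module. -/
@[nolint unusedArguments]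
def Co (_ : IsCls c) (M : Type) [AddCommGroup M] [Module ℂ M] : Type := CoS r M

instance : AddCommGroup (Co hc M) := inferInstanceAs (AddCommGroup (CoS r M))
instance : Module ℂ (Co hc M) := inferInstanceAs (Module ℂ (CoS r M))

variable {M} in
/-- The underlying linear map. -/
def Co.f {hc : IsCls c} (φ : Co hc M) : MvPolynomial (Fin r) ℂ →ₗ[ℂ] M := Subtype.val φ

instance : Module (H0 N c) (Co hc M) :=
  Module.compHom (CoS r M) (Psi c hc M).toRingHom

instance : IsScalarTower ℂ (H0 N c) (Co hc M) where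
  smul_assoc a b φ := by
    show Psi c hc M (a • b) φ = a • (Psi c hc M b φ)
    rw [map_smul]
    rfl

theorem co_X (j : Fin r) (φ : Co hc M) (h : MvPolynomial (Fin r) ℂ) :
    (rX c j • φ).f h = rX c j • φ.f h + ∑ s : N, rT c s • φ.f (dd c s j h) := by
  have h1 : (rX c j • φ) = (Psi c hc M (rX c j) : CoS r M → CoS r M) φ := rfl
  rw [h1, Psi_X]
  exact oX_apply c M j φ h

theorem co_Y (i : Fin r) (φ : Co hc M) (h : MvPolynomial (Fin r) ℂ) :
    (rY c i • φ).f h = φ.f (h * MvPolynomial.X i) := by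
  have h1 : (rY c i • φ) = (Psi c hc M (rY c i) : CoS r M → CoS r M) φ := rfl
  rw [h1, Psi_Y]
  rfl

theorem co_T (g : N) (φ : Co hc M) (h : MvPolynomial (Fin r) ℂ) :
    (rT c g • φ).f h = rT c g • φ.f (sg g⁻¹ h) := by
  have h1 : (rT c g • φ) = (Psi c hc M (rT c g) : CoS r M → CoS r M) φ := rfl
  rw [h1, Psi_T]
  exact oT_apply c M g φ h

end

end Pool.Agent.CMFn
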