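import Pool.Agent.CMFn.CoA
import Pool.Agent.CMFn.CenA

/-! Project CMFn: the coinduced module, part B: embedding and local nilpotence. -/

namespace Pool.Agent.CMFn

open Matrix

noncomputable section

namespace CoBX

/-! ### Evaluation of polynomials at commuting elements -/

theorem exists_ev {A : Type} [Ring A] [Algebra ℂ A] {r : ℕ} (y : Fin r → A)
    (hy : ∀ i j, y i * y j = y j * y i) :
    ∃ e : MvPolynomial (Fin r) ℂ →ₐ[ℂ] A, (∀ i, e (MvPolynomial.X i) = y i) ∧
      ∀ p, evP y p = e p := by
  have hcomm : ∀ a ∈ Set.range y, ∀ b ∈ Set.range y, a * b = b * a := by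
    rintro _ ⟨i, rfl⟩ _ ⟨j, rfl⟩
    exact hy i j
  let inst : CommRing (Algebra.adjoin ℂ (Set.range y)) := Algebra.adjoinCommRingOfComm ℂ hcomm
  let yS : Fin r → Algebra.adjoin ℂ (Set.range y) :=
    fun i => ⟨y i, Algebra.subset_adjoin ⟨i, rfl⟩⟩
  let e1 : MvPolynomial (Fin r) ℂ →ₐ[ℂ] Algebra.adjoin ℂ (Set.range y) :=
    MvPolynomial.aeval yS
  refine ⟨(Algebra.adjoin ℂ (Set.range y)).val.comp e1, ?_, ?_⟩
  · intro i
    show ((e1 (MvPolynomial.X i) : Algebra.adjoin ℂ (Set.range y)) : A) = y i
    rw [MvPolynomial.aeval_X]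
  · intro p
    show evP y p = ((e1 p : Algebra.adjoin ℂ (Set.range y)) : A)
    have h1 : e1 p = ∑ m ∈ p.support, algebraMap ℂ (Algebra.adjoin ℂ (Set.range y)) (p.coeff m) *
        (List.ofFn fun i => yS i ^ m i).prod := by
      rw [MvPolynomial.aeval_def, MvPolynomial.eval₂_eq']
      refine Finset.sum_congr rfl fun m _ => ?_
      rw [List.prod_ofFn]
    rw [h1]
    have h2 : ∀ z : Algebra.adjoin ℂ (Set.range y),
        (z : A) = (Algebra.adjoin ℂ (Set.range y)).val z := fun _ => rfl
    rw [h2, map_sum]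
    unfold evP
    refine Finset.sum_congr rfl fun m _ => ?_
    rw [map_mul, map_list_prod, List.map_ofFn, AlgHom.commutes]
    congr 2
    
/-! ### The invariant ideal of `ℂ[Y]` -/

variable {r : ℕ} {N : SG r} [Fintype N]

lemma sg_X (g : N) (i : Fin r) : sg g (MvPolynomial.X i) =
    ∑ j, MvPolynomial.C (g.1.1 j i) * MvPolynomial.X j := by
  unfold sg
  rw [MvPolynomial.bind₁_X_right]

lemma sg_mul (g h : N) (p : MvPolynomial (Fin r) ℂ) : sg (g * h) p = sg g (sg h p) := by
  have h1 : sg (g * h) = (sg g).comp (sg h) := by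
    apply MvPolynomial.algHom_ext
    intro i
    rw [AlgHom.comp_apply, sg_X, sg_X, map_sum]
    have h2 : ∀ j, sg g (MvPolynomial.C (h.1.1 j i) * MvPolynomial.X j) =
        ∑ k, MvPolynomial.C (g.1.1 k j * h.1.1 j i) * MvPolynomial.X k := by
      intro j
      rw [map_mul, sg_X, MvPolynomial.algHom_C, MvPolynomial.algebraMap_eq, Finset.mul_sum]
      refine Finset.sum_congr rfl fun k _ => ?_
      rw [MvPolynomial.C_mul]
      ring
    rw [Finset.sum_congr rfl fun j _ => h2 j, Finset.sum_comm]
    refine Finset.sum_congr rfl fun k _ => ?_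
    rw [← Finset.sum_mul, ← map_sum]
    congr 2
  rw [h1, AlgHom.comp_apply]

lemma sg_one (p : MvPolynomial (Fin r) ℂ) : sg (1 : N) p = p := by
  have h1 : sg (1 : N) = AlgHom.id ℂ _ := by
    apply MvPolynomial.algHom_ext
    intro i
    rw [sg_X, AlgHom.id_apply, Finset.sum_eq_single i]
    · simp
    · intro j _ hj
      have : ((1 : N).1.1 : Matrix (Fin r) (Fin r) ℂ) j i = 0 := by
        show (1 : Matrix (Fin r) (Fin r) ℂ) j i = 0
        exact Matrix.one_apply_ne hj
      rw [this]
      simp
    · intro h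
      exact absurd (Finset.mem_univ _) h
  rw [h1, AlgHom.id_apply]

lemma constCoeff_sg (g : N) (p : MvPolynomial (Fin r) ℂ) :
    MvPolynomial.constantCoeff (sg g p) = MvPolynomial.constantCoeff p := by
  have h1 : (MvPolynomial.constantCoeff (R := ℂ)).comp (sg g).toRingHom =
      MvPolynomial.constantCoeff (σ := Fin r) := by
    apply MvPolynomial.ringHom_ext
    · intro a
      show MvPolynomial.constantCoeff (sg g (MvPolynomial.C a)) = _
      rw [MvPolynomial.algHom_C, MvPolynomial.algebraMap_eq]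
    · intro i
      show MvPolynomial.constantCoeff (sg g (MvPolynomial.X i)) = _
      rw [sg_X, map_sum, MvPolynomial.constantCoeff_X]
      refine Finset.sum_eq_zero fun j _ => ?_
      rw [map_mul, MvPolynomial.constantCoeff_X, mul_zero]
  exact RingHom.congr_fun h1 p

variable (N) in
/-- The ideal of the invariants without constant term. -/
def JY : Ideal (MvPolynomial (Fin r) ℂ) := Ideal.span {p | InvY N p}

lemma pow_mem_JY (j : Fin r) : (MvPolynomial.X j : MvPolynomial (Fin r) ℂ) ^ (Fintype.card N) ∈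
    JY N := by
  classical
  let F : Polynomial (MvPolynomial (Fin r) ℂ) :=
    ∏ g : N, (Polynomial.X - Polynomial.C (sg g (MvPolynomial.X j)))
  have hdeg : F.natDegree = Fintype.card N := by
    have := Polynomial.natDegree_finsetProd_X_sub_C_eq_card (Finset.univ : Finset N)
      (fun g => sg g (MvPolynomial.X j : MvPolynomial (Fin r) ℂ))
    rw [this, Finset.card_univ]
  have hmon : F.Monic := Polynomial.monic_prod_of_monic _ _ fun g _ => Polynomial.monic_X_sub_C _
  have hroot : F.eval (MvPolynomial.X j) = 0 := by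
    show (∏ g : N, (Polynomial.X - Polynomial.C (sg g (MvPolynomial.X j)))).eval _ = 0
    rw [Polynomial.eval_prod]
    refine Finset.prod_eq_zero (Finset.mem_univ (1 : N)) ?_
    rw [sg_one]
    simp
  have hinv : ∀ (h : N), F.map (sg h).toRingHom = F := by
    intro h
    show (∏ g : N, (Polynomial.X - Polynomial.C (sg g (MvPolynomial.X j)))).map _ =
      ∏ g : N, (Polynomial.X - Polynomial.C (sg g (MvPolynomial.X j)))
    rw [Polynomial.map_prod]
    refine Fintype.prod_equiv (Equiv.mulLeft h) _ _ fun g => ?_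
    rw [Polynomial.map_sub, Polynomial.map_X, Polynomial.map_C]
    show Polynomial.X - Polynomial.C (sg h (sg g (MvPolynomial.X j))) =
      Polynomial.X - Polynomial.C (sg (h * g) (MvPolynomial.X j))
    rw [sg_mul]
  have hconst : F.map MvPolynomial.constantCoeff = Polynomial.X ^ (Fintype.card N) := by
    show (∏ g : N, (Polynomial.X - Polynomial.C (sg g (MvPolynomial.X j)))).map _ = _
    rw [Polynomial.map_prod]
    rw [Finset.prod_congr rfl fun g _ => show (Polynomial.X -
      Polynomial.C (sg g (MvPolynomial.X j))).map MvPolynomial.constantCoeff = Polynomial.X by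
        rw [Polynomial.map_sub, Polynomial.map_X, Polynomial.map_C, constCoeff_sg,
          MvPolynomial.constantCoeff_X, Polynomial.C_0, sub_zero]]
    rw [Finset.prod_const, Finset.card_univ]
  have hco : ∀ k, k < Fintype.card N → F.coeff k ∈ JY N := by
    intro k hk
    refine Ideal.subset_span ⟨?_, ?_⟩
    · have := congrArg (fun q => Polynomial.coeff q k) hconst
      beta_reduce at this
      rw [Polynomial.coeff_map, Polynomial.coeff_X_pow, if_neg (by omega)] at this
      exact this
    · intro g hg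
      have := congrArg (fun q => Polynomial.coeff q k) (hinv ⟨g, hg⟩)
      beta_reduce at this
      rw [Polynomial.coeff_map] at this
      exact this
  rw [Polynomial.eval_eq_sum_range, hdeg, Finset.sum_range_succ] at hroot
  have hlead : F.coeff (Fintype.card N) = 1 := by
    have := hmon.coeff_natDegree
    rwa [hdeg] at this
  rw [hlead, one_mul] at hroot
  have h2 : (MvPolynomial.X j : MvPolynomial (Fin r) ℂ) ^ (Fintype.card N) =
      -∑ k ∈ Finset.range (Fintype.card N), F.coeff k * MvPolynomial.X j ^ k := by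
    linear_combination hroot
  rw [h2]
  refine (JY N).neg_mem (Ideal.sum_mem _ fun k hk => ?_)
  exact Ideal.mul_mem_right _ _ (hco k (Finset.mem_range.1 hk))

lemma homog_mem_pow (n d : ℕ) (hd : n * (r * Fintype.card N) + 1 ≤ d)
    (h : MvPolynomial (Fin r) ℂ) (hh : h.IsHomogeneous d) : h ∈ JY N ^ n := by
  classical
  rw [h.as_sum]
  refine Ideal.sum_mem _ fun m hm => ?_
  have hm1 : m.degree = d := by
    have := hh (MvPolynomial.mem_support_iff.1 hm)
    rw [← this]
    rw [Finsupp.degree_eq_weight_one]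
    rfl
  have hex : ∃ j : Fin r, n * Fintype.card N ≤ m j := by
    by_contra hcon
    push Not at hcon
    have h1 : m.degree ≤ ∑ _j : Fin r, n * Fintype.card N := by
      rw [Finsupp.degree_eq_sum]
      exact Finset.sum_le_sum fun j _ => (hcon j).le
    rw [Finset.sum_const, Finset.card_univ, Fintype.card_fin, smul_eq_mul] at h1
    have h2 : r * (n * Fintype.card N) = n * (r * Fintype.card N) := by ring
    omega
  obtain ⟨j, hj⟩ := hex
  have h3 : MvPolynomial.monomial m (h.coeff m) =
      MvPolynomial.monomial (m - Finsupp.single j (n * Fintype.card N)) (h.coeff m) *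
        (MvPolynomial.X j ^ (Fintype.card N)) ^ n := by
    have h4 : m - Finsupp.single j (n * Fintype.card N) + Finsupp.single j (n * Fintype.card N) =
        m := by
      refine tsub_add_cancel_of_le ?_
      rw [Finsupp.single_le_iff]
      exact hj
    rw [← pow_mul, MvPolynomial.X_pow_eq_monomial, MvPolynomial.monomial_mul, mul_one,
      mul_comm (Fintype.card N) n, h4]
  rw [h3]
  exact Ideal.mul_mem_left _ _ (Ideal.pow_mem_pow (pow_mem_JY j) n)


/-! ### The algebra -/

variable {c : N → ℂ}

lemma rel_eq {a b : FA ℂ r N} (h : HRel N c a b) : h0 N c a = h0 N c b :=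
  RingQuot.mkAlgHom_rel ℂ h

lemma YY (i j : Fin r) : rY c i * rY c j = rY c j * rY c i := by
  have := rel_eq (HRel.YY (N := N) (c := c) i j)
  rwa [map_mul, map_mul] at this

lemma TY (g : N) (i : Fin r) : rT c g * rY c i =
    (∑ j, algebraMap ℂ (H0 N c) (g.1.1 j i) * rY c j) * rT c g := by
  have := rel_eq (HRel.TY (N := N) (c := c) g i)
  rw [map_mul, map_mul, map_sum] at this
  rw [show rT c g * rY c i = h0 N c (fT g) * h0 N c (fY i) from rfl, this]
  congr 1
  refine Finset.sum_congr rfl fun j _ => ?_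
  rw [map_mul, AlgHom.commutes]
  rfl

lemma YX (i j : Fin r) : rY c i * rX c j =
    rX c j * rY c i + ∑ s : N, algebraMap ℂ (H0 N c) (gam c s i j) * rT c s := by
  have := rel_eq (HRel.YX (N := N) (c := c) i j)
  rw [map_mul, map_add, map_mul, map_sum] at this
  rw [show rY c i * rX c j = h0 N c (fY i) * h0 N c (fX j) from rfl, this]
  congr 1
  refine Finset.sum_congr rfl fun s _ => ?_
  rw [map_mul, AlgHom.commutes]
  rfl

/-- `h ↦ h(y)`. -/
def ev (c : N → ℂ) : MvPolynomial (Fin r) ℂ →ₐ[ℂ] H0 N c :=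
  (exists_ev (rY c) (fun i j => YY i j)).choose

lemma ev_X (i : Fin r) : ev c (MvPolynomial.X i) = rY c i :=
  (exists_ev (rY c) (fun i j => YY i j)).choose_spec.1 i

lemma evP_eq (p : MvPolynomial (Fin r) ℂ) : evP (rY c) p = ev c p :=
  (exists_ev (rY c) (fun i j => YY i j)).choose_spec.2 p

lemma T_ev (g : N) (h : MvPolynomial (Fin r) ℂ) : rT c g * ev c h = ev c (sg g h) * rT c g := by
  induction h using MvPolynomial.induction_on with
  | C a =>
    rw [MvPolynomial.algHom_C, MvPolynomial.algHom_C, AlgHom.commutes, Algebra.commutes]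
  | add p q hp hq => rw [map_add, map_add, map_add, mul_add, add_mul, hp, hq]
  | mul_X p i hp =>
    rw [map_mul, map_mul, map_mul, ← mul_assoc, hp, mul_assoc, ev_X, TY, ← mul_assoc]
    congr 2
    rw [sg_X, map_sum]
    refine Finset.sum_congr rfl fun j _ => ?_
    rw [map_mul, ev_X, MvPolynomial.algHom_C]

lemma ev_T (s : N) (h : MvPolynomial (Fin r) ℂ) :
    ev c h * rT c s = rT c s * ev c (sg s⁻¹ h) := by
  rw [T_ev, ← sg_mul, mul_inv_cancel, sg_one]

lemma dd_one (s : N) (j : Fin r) : dd c s j 1 = 0 := (exists_dd c s j).choose_spec.1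

lemma dd_mul_X (s : N) (j : Fin r) (h : MvPolynomial (Fin r) ℂ) (i : Fin r) :
    dd c s j (h * MvPolynomial.X i) = dd c s j h * MvPolynomial.X i +
      MvPolynomial.C (gam c s i j) * sg s⁻¹ h := (exists_dd c s j).choose_spec.2.1 h i

lemma ev_x (j : Fin r) (h : MvPolynomial (Fin r) ℂ) :
    ev c h * rX c j = rX c j * ev c h + ∑ s : N, rT c s * ev c (dd c s j h) := by
  induction h using MvPolynomial.induction_on with
  | C a =>
    have h1 : ∀ s : N, dd c s j (MvPolynomial.C a) = 0 := by
      intro s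
      rw [show (MvPolynomial.C a : MvPolynomial (Fin r) ℂ) = a • 1 by
        rw [MvPolynomial.smul_eq_C_mul, mul_one], map_smul, dd_one, smul_zero]
    rw [Finset.sum_eq_zero (fun s _ => by rw [h1, map_zero, mul_zero]), add_zero,
      MvPolynomial.algHom_C, Algebra.commutes]
  | add p q hp hq =>
    rw [map_add, add_mul, mul_add, hp, hq]
    have h1 : ∑ s : N, rT c s * ev c (dd c s j (p + q)) =
        ∑ s : N, rT c s * ev c (dd c s j p) + ∑ s : N, rT c s * ev c (dd c s j q) := by
      rw [← Finset.sum_add_distrib]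
      refine Finset.sum_congr rfl fun s _ => ?_
      rw [map_add, map_add, mul_add]
    rw [h1]
    abel
  | mul_X p i hp =>
    rw [map_mul, ev_X, mul_assoc, YX, mul_add, ← mul_assoc, hp, add_mul, mul_assoc, add_assoc]
    congr 1
    rw [Finset.sum_mul, Finset.mul_sum, ← Finset.sum_add_distrib]
    refine Finset.sum_congr rfl fun s _ => ?_
    rw [dd_mul_X, map_add, map_mul, ev_X, map_mul, MvPolynomial.algHom_C, mul_add, mul_assoc]
    congr 1
    rw [← mul_assoc, ← Algebra.commutes (gam c s i j) (ev c p), mul_assoc, ev_T, ← mul_assoc,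
      ← mul_assoc, Algebra.commutes (gam c s i j) (rT c s)]

/-! ### Locally nilpotent modules -/

section Mod

variable {M : Type} [AddCommGroup M] [Module (H0 N c) M]

lemma Kset_zero_mem (n : ℕ) : (0 : M) ∈ Kset c M n := by
  induction n with
  | zero => exact rfl
  | succ n ih => intro a _; rw [smul_zero]; exact ih

lemma Kset_add (n : ℕ) : ∀ m m' : M, m ∈ Kset c M n → m' ∈ Kset c M n → m + m' ∈ Kset c M n := by
  induction n with
  | zero =>
    intro m m' h h'
    have h1 : m = 0 := h
    have h2 : m' = 0 := h'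
    rw [h1, h2, add_zero]
    exact rfl
  | succ n ih =>
    intro m m' h h' a ha
    rw [smul_add]
    exact ih _ _ (h a ha) (h' a ha)

lemma Kset_succ (n : ℕ) : ∀ m : M, m ∈ Kset c M n → m ∈ Kset c M (n + 1) := by
  induction n with
  | zero =>
    intro m h a _
    have h1 : m = 0 := h
    rw [h1, smul_zero]
    exact rfl
  | succ n ih =>
    intro m h a ha
    exact ih _ (h a ha)

lemma Kset_mono {n n' : ℕ} (h : n ≤ n') (m : M) (hm : m ∈ Kset c M n) : m ∈ Kset c M n' := by
  induction n', h using Nat.le_induction with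
  | base => exact hm
  | succ k _ ih => exact Kset_succ k m ih

lemma Kset_sum {α : Type} (s : Finset α) (n : ℕ) (f : α → M) (h : ∀ i ∈ s, f i ∈ Kset c M n) :
    ∑ i ∈ s, f i ∈ Kset c M n := by
  classical
  induction s using Finset.induction_on with
  | empty => rw [Finset.sum_empty]; exact Kset_zero_mem n
  | insert a s ha ih =>
    rw [Finset.sum_insert ha]
    exact Kset_add n _ _ (h a (Finset.mem_insert_self a s))
      (ih fun i hi => h i (Finset.mem_insert_of_mem hi))

lemma ev_pow_kill (n : ℕ) : ∀ (m : M), m ∈ Kset c M n → ∀ p ∈ JY N ^ n, ev c p • m = 0 := by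
  induction n with
  | zero =>
    intro m hm p _
    have h1 : m = 0 := hm
    rw [h1, smul_zero]
  | succ n ih =>
    intro m hm p hp
    rw [pow_succ] at hp
    refine Submodule.mul_induction_on hp ?_ ?_
    · intro a ha b hb
      unfold JY at hb
      have key : ∀ a ∈ JY N ^ n, ev c (a * b) • m = 0 := by
        refine Submodule.span_induction (p := fun b _ => ∀ a ∈ JY N ^ n, ev c (a * b) • m = 0)
          ?_ ?_ ?_ ?_ hb
        · intro u hu a ha
          rw [map_mul, mul_smul]
          refine ih _ ?_ a ha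
          refine hm _ (Or.inr ⟨u, hu, ?_⟩)
          rw [evP_eq]
        · intro a _
          rw [mul_zero, map_zero, zero_smul]
        · intro x y _ _ hx hy a ha
          rw [mul_add, map_add, add_smul, hx a ha, hy a ha, add_zero]
        · intro t x _ hx a ha
          rw [smul_eq_mul, ← mul_assoc]
          exact hx _ (Ideal.mul_mem_right _ _ ha)
      exact key a ha
    · intro x y hx hy
      rw [map_add, add_smul, hx, hy, add_zero]

end Mod

section Co

variable (hc : IsCls c) {M : Type} [AddCommGroup M] [Module ℂ M]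
  [Module (H0 N c) M] [IsScalarTower ℂ (H0 N c) M]

lemma smul_comm' (t : ℂ) (a : H0 N c) (m : M) : a • (t • m) = t • (a • m) := by
  rw [← algebraMap_smul (H0 N c) t m, ← algebraMap_smul (H0 N c) t (a • m), ← mul_smul,
    ← mul_smul, Algebra.commutes]

omit [Module (H0 N c) M] [IsScalarTower ℂ (H0 N c) M] in
lemma co_ext {φ ψ : Co hc M} (h : ∀ p, φ.f p = ψ.f p) : φ = ψ :=
  Subtype.ext (LinearMap.ext h)

omit [Module (H0 N c) M] [IsScalarTower ℂ (H0 N c) M] in
lemma co_add (φ ψ : Co hc M) (p : MvPolynomial (Fin r) ℂ) : (φ + ψ).f p = φ.f p + ψ.f p := rfl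

omit [Module (H0 N c) M] [IsScalarTower ℂ (H0 N c) M] in
lemma co_smul (t : ℂ) (φ : Co hc M) (p : MvPolynomial (Fin r) ℂ) : (t • φ).f p = t • φ.f p := rfl

omit [Module (H0 N c) M] [IsScalarTower ℂ (H0 N c) M] in
lemma co_zero (p : MvPolynomial (Fin r) ℂ) : (0 : Co hc M).f p = 0 := rfl

lemma co_alg (t : ℂ) (φ : Co hc M) (p : MvPolynomial (Fin r) ℂ) :
    (algebraMap ℂ (H0 N c) t • φ).f p = t • φ.f p := by
  rw [algebraMap_smul, co_smul]

/-- `(q(y) φ)(h) = φ(h q)`. -/
lemma co_ev (q : MvPolynomial (Fin r) ℂ) : ∀ (φ : Co hc M) (h : MvPolynomial (Fin r) ℂ),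
    (ev c q • φ).f h = φ.f (h * q) := by
  induction q using MvPolynomial.induction_on with
  | C a =>
    intro φ h
    rw [MvPolynomial.algHom_C, co_alg, mul_comm, ← MvPolynomial.smul_eq_C_mul, map_smul]
  | add p q hp hq =>
    intro φ h
    rw [map_add, add_smul, co_add, hp, hq, mul_add, map_add]
  | mul_X p i hp =>
    intro φ h
    rw [map_mul, mul_smul, hp, ev_X, co_Y, mul_assoc]

/-- Elements acting on the value at `1` through `M`. -/
def atOne : Subalgebra ℂ (H0 N c) where
  carrier := {a | ∀ φ : Co hc M, (a • φ).f 1 = a • φ.f 1}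
  mul_mem' := by
    intro a b ha hb φ
    rw [mul_smul, ha, hb, mul_smul]
  add_mem' := by
    intro a b ha hb φ
    rw [add_smul, co_add, ha, hb, add_smul]
  algebraMap_mem' := by
    intro t φ
    rw [co_alg, algebraMap_smul]

lemma evP_atOne (p : MvPolynomial (Fin r) ℂ) : evP (rX c) p ∈ atOne hc (M := M) := by
  unfold evP
  refine Subalgebra.sum_mem _ fun m _ => ?_
  refine Subalgebra.mul_mem _ (Subalgebra.algebraMap_mem _ _) ?_
  refine Subalgebra.list_prod_mem _ ?_
  intro x hx
  rw [List.mem_ofFn] at hx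
  obtain ⟨i, rfl⟩ := hx
  refine Subalgebra.pow_mem _ ?_ _
  intro φ
  rw [co_X]
  rw [Finset.sum_eq_zero (fun s _ => by rw [dd_one, map_zero, smul_zero]), add_zero]

/-- `(p(x) φ)(h) = p(x) φ(h)` for an invariant `p`. -/
lemma co_invX (p : MvPolynomial (Fin r) ℂ) (hp : InvX N p) (φ : Co hc M)
    (h : MvPolynomial (Fin r) ℂ) : (evP (rX c) p • φ).f h = evP (rX c) p • φ.f h := by
  have h1 : ∀ ψ : Co hc M, ψ.f h = (ev c h • ψ).f 1 := by
    intro ψ
    rw [co_ev, one_mul]
  rw [h1, ← mul_smul, ← Inv_central hc _ (Or.inl ⟨p, hp, rfl⟩) (ev c h), mul_smul,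
    evP_atOne hc p, ← h1]

lemma Kset_smul (n : ℕ) : ∀ (t : ℂ) (m : M), m ∈ Kset c M n → t • m ∈ Kset c M n := by
  induction n with
  | zero =>
    intro t m h
    have h1 : m = 0 := h
    rw [h1, smul_zero]
    exact rfl
  | succ n ih =>
    intro t m h a ha
    rw [smul_comm']
    exact ih _ _ (h a ha)

lemma Kset_Co (k : ℕ) : ∀ (L n : ℕ), L + n ≤ k → ∀ φ : Co hc M,
    (∀ d, L ≤ d → ∀ h : MvPolynomial (Fin r) ℂ, h.IsHomogeneous d → φ.f h = 0) →
    (∀ h, φ.f h ∈ Kset c M n) → φ ∈ Kset c (Co hc M) k := by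
  induction k with
  | zero =>
    intro L n hk φ h1 _
    have hL : L = 0 := by omega
    subst hL
    show φ = 0
    refine co_ext hc fun p => ?_
    rw [co_zero, ← MvPolynomial.sum_homogeneousComponent p, map_sum]
    refine Finset.sum_eq_zero fun i _ => ?_
    exact h1 i (Nat.zero_le _) _ (MvPolynomial.homogeneousComponent_isHomogeneous _ _)
  | succ k ih =>
    intro L n hk φ h1 h2 a ha
    by_cases hz : φ = 0
    · rw [hz, smul_zero]
      exact Kset_zero_mem k
    have hL : L ≠ 0 := by
      rintro rfl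
      apply hz
      refine co_ext hc fun p => ?_
      rw [co_zero, ← MvPolynomial.sum_homogeneousComponent p, map_sum]
      refine Finset.sum_eq_zero fun i _ => ?_
      exact h1 i (Nat.zero_le _) _ (MvPolynomial.homogeneousComponent_isHomogeneous _ _)
    have hn : n ≠ 0 := by
      rintro rfl
      apply hz
      refine co_ext hc fun p => ?_
      have h3 : φ.f p = 0 := h2 p
      rw [h3, co_zero]
    rcases ha with ⟨p, hp, rfl⟩ | ⟨q, hq, rfl⟩
    · refine ih L (n - 1) (by omega) _ ?_ ?_
      · intro d hd h hh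
        rw [co_invX hc p hp, h1 d hd h hh, smul_zero]
      · intro h
        rw [co_invX hc p hp]
        obtain ⟨n', rfl⟩ := Nat.exists_eq_succ_of_ne_zero hn
        exact h2 h _ (Or.inl ⟨p, hp, rfl⟩)
    · refine ih (L - 1) n (by omega) _ ?_ ?_
      · intro d hd h hh
        rw [evP_eq, co_ev]
        have hq0 : MvPolynomial.homogeneousComponent 0 q = 0 := by
          rw [MvPolynomial.homogeneousComponent_zero]
          have h4 : MvPolynomial.coeff 0 q = 0 := hq.1
          rw [h4, MvPolynomial.C_0]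
        rw [← MvPolynomial.sum_homogeneousComponent q, Finset.mul_sum, map_sum]
        refine Finset.sum_eq_zero fun i _ => ?_
        by_cases hi : i = 0
        · rw [hi, hq0, mul_zero, map_zero]
        · exact h1 (d + i) (by omega) _
            (hh.mul (MvPolynomial.homogeneousComponent_isHomogeneous _ _))
      · intro h
        rw [evP_eq, co_ev]
        exact h2 _

end Co

end CoBX

open CoBX

variable {r : ℕ} {N : SG r} [Fintype N]

/-- `m ↦ (h ↦ h(y) m)` is an embedding. -/
theorem exists_emb {c : N → ℂ} (hc : IsCls c) (M : Type) [AddCommGroup M] [Module ℂ M]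
    [Module (H0 N c) M] [IsScalarTower ℂ (H0 N c) M] (hM : LN c M) :
    ∃ ι : M →ₗ[H0 N c] Co hc M, Function.Injective ι := by
  let φ0 : M → (MvPolynomial (Fin r) ℂ →ₗ[ℂ] M) := fun m =>
    { toFun := fun h => ev c h • m
      map_add' := fun h h' => by rw [map_add, add_smul]
      map_smul' := fun t h => by rw [map_smul, RingHom.id_apply, smul_assoc] }
  have hφ0 : ∀ m, φ0 m ∈ CoS r M := by
    intro m
    obtain ⟨n, hn⟩ := hM m
    refine ⟨n * (r * Fintype.card N) + 1, fun d hd h hh => ?_⟩
    exact ev_pow_kill n m hn h (homog_mem_pow n d hd h hh)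
  let i0 : M → Co hc M := fun m => ⟨φ0 m, hφ0 m⟩
  have i0f : ∀ m h, (i0 m).f h = ev c h • m := fun _ _ => rfl
  have hadd : ∀ m m', i0 (m + m') = i0 m + i0 m' := by
    intro m m'
    refine co_ext hc fun p => ?_
    rw [co_add, i0f, i0f, i0f, smul_add]
  have hsm : ∀ (a : H0 N c) (m : M), i0 (a • m) = a • i0 m := by
    intro a
    obtain ⟨w, rfl⟩ := RingQuot.mkAlgHom_surjective ℂ (HRel N c) a
    induction w using FreeAlgebra.induction with
    | grade0 t =>
      intro m
      refine co_ext hc fun p => ?_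
      rw [AlgHom.commutes, co_alg, i0f, i0f, algebraMap_smul, smul_comm']
    | grade1 x =>
      intro m
      refine co_ext hc fun p => ?_
      cases x with
      | X j =>
        show (i0 (rX c j • m)).f p = (rX c j • i0 m).f p
        rw [co_X, i0f, i0f, ← mul_smul, ev_x, add_smul, mul_smul, Finset.sum_smul]
        congr 1
        refine Finset.sum_congr rfl fun s _ => ?_
        rw [i0f, mul_smul]
      | Y i =>
        show (i0 (rY c i • m)).f p = (rY c i • i0 m).f p
        rw [co_Y, i0f, i0f, map_mul, ev_X, mul_smul]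
      | T g =>
        show (i0 (rT c g • m)).f p = (rT c g • i0 m).f p
        rw [co_T, i0f, i0f, ← mul_smul, ← mul_smul, ev_T]
    | mul a b ha hb =>
      intro m
      rw [map_mul, mul_smul, ha, hb, mul_smul]
    | add a b ha hb =>
      intro m
      rw [map_add, add_smul, hadd, ha, hb, add_smul]
  refine ⟨{ toFun := i0, map_add' := hadd, map_smul' := hsm }, ?_⟩
  intro m m' h
  have h1 : (i0 m).f 1 = (i0 m').f 1 := by
    have h2 : i0 m = i0 m' := h
    rw [h2]
  rwa [i0f, i0f, map_one, one_smul, one_smul] at h1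

/-- The coinduced module is locally nilpotent. -/
theorem LN_co {c : N → ℂ} (hc : IsCls c) (M : Type) [AddCommGroup M] [Module ℂ M]
    [Module (H0 N c) M] [IsScalarTower ℂ (H0 N c) M] (hM : LN c M) : LN c (Co hc M) := by
  classical
  intro φ
  obtain ⟨L, hL⟩ := φ.2
  choose n hn using fun m : Fin r →₀ ℕ => hM (φ.f (MvPolynomial.monomial m 1))
  let S : Finset (Fin r →₀ ℕ) := Finset.Iic (Finsupp.equivFunOnFinite.symm fun _ => L)
  have hS : ∀ m : Fin r →₀ ℕ, m ∉ S → φ.f (MvPolynomial.monomial m 1) = 0 := by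
    intro m hm
    refine hL m.degree ?_ _ (MvPolynomial.isHomogeneous_monomial _ rfl)
    by_contra hcon
    apply hm
    rw [Finset.mem_Iic]
    intro i
    show m i ≤ L
    exact (Finsupp.le_degree i m).trans (by omega)
  refine ⟨L + S.sup n, Kset_Co hc _ L (S.sup n) le_rfl φ hL ?_⟩
  intro h
  rw [h.as_sum, map_sum]
  refine Kset_sum _ _ _ fun m _ => ?_
  have h1 : MvPolynomial.monomial m (h.coeff m) = h.coeff m • MvPolynomial.monomial m (1 : ℂ) := by
    rw [MvPolynomial.smul_monomial, smul_eq_mul, mul_one]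
  rw [h1, map_smul]
  refine Kset_smul _ _ _ ?_
  by_cases hm : m ∈ S
  · exact Kset_mono (Finset.le_sup hm) _ (hn m)
  · rw [hS m hm]
    exact Kset_zero_mem _

end

end Pool.Agent.CMFn
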