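import Pool.Agent.CMFn.CDefs

/-! Project CMFn, module ConnT: transport of the connectedness of levels. -/

namespace Pool.Agent.CMFn

open Matrix

noncomputable section

namespace ConnTX

/-- Functoriality of the generated equivalence relation. -/
lemma eqvGen_map {α β : Type*} {r : α → α → Prop} {s : β → β → Prop} (f : α → β)
    (h : ∀ a b, r a b → s (f a) (f b)) {a b : α} (hab : Relation.EqvGen r a b) :
    Relation.EqvGen s (f a) (f b) := by
  induction hab with
  | rel x y hxy => exact Relation.EqvGen.rel _ _ (h x y hxy)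
  | refl x => exact Relation.EqvGen.refl _
  | symm x y _ ih => exact Relation.EqvGen.symm _ _ ih
  | trans x y z _ _ ih1 ih2 => exact Relation.EqvGen.trans _ _ _ ih1 ih2

section conj

variable {G : Type} [Group G] {r : ℕ} {V V' : G →* Matrix (Fin r) (Fin r) ℂ}
  {P : Matrix (Fin r) (Fin r) ℂ}

lemma rank_conj (hP : IsUnit P) (h : ∀ g, V' g = P * V g * P⁻¹) (g : G) :
    (V' g - 1).rank = (V g - 1).rank := by
  have hd : IsUnit P.det := (Matrix.isUnit_iff_isUnit_det _).1 hP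
  have hd' : IsUnit (P⁻¹).det := Matrix.isUnit_nonsing_inv_det _ hd
  have h1 : V' g - 1 = P * (V g - 1) * P⁻¹ := by
    rw [h, mul_sub, sub_mul, mul_one, Matrix.mul_nonsing_inv _ hd]
  rw [h1, Matrix.rank_mul_eq_left_of_isUnit_det _ _ hd', Matrix.rank_mul_eq_right_of_isUnit_det _ _ hd]

lemma pow_conj (hP : IsUnit P) (h : ∀ g, V' g = P * V g * P⁻¹) (g : G) (m : ℕ) :
    (V' g) ^ m = P * (V g) ^ m * P⁻¹ := by
  have hd : IsUnit P.det := (Matrix.isUnit_iff_isUnit_det _).1 hP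
  induction m with
  | zero => rw [pow_zero, pow_zero, mul_one, Matrix.mul_nonsing_inv _ hd]
  | succ m ih =>
    rw [pow_succ, ih, h, pow_succ]
    calc P * V g ^ m * P⁻¹ * (P * V g * P⁻¹)
        = P * V g ^ m * (P⁻¹ * P) * V g * P⁻¹ := by simp only [mul_assoc]
      _ = P * (V g ^ m * V g) * P⁻¹ := by
        rw [Matrix.nonsing_inv_mul _ hd, mul_one]; simp only [mul_assoc]

lemma trace_conj (hP : IsUnit P) (h : ∀ g, V' g = P * V g * P⁻¹) (g : G) (m : ℕ) :
    ((V' g) ^ m).trace = ((V g) ^ m).trace := by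
  have hd : IsUnit P.det := (Matrix.isUnit_iff_isUnit_det _).1 hP
  rw [pow_conj hP h, Matrix.trace_mul_comm, ← mul_assoc, Matrix.nonsing_inv_mul _ hd, one_mul]

lemma sameLevel_conj (hP : IsUnit P) (h : ∀ g, V' g = P * V g * P⁻¹) (a b : MRep G) :
    SameLevel V' a b ↔ SameLevel V a b := by
  unfold SameLevel
  simp only [rank_conj hP h]

lemma lk_conj [Fintype G] (hP : IsUnit P) (h : ∀ g, V' g = P * V g * P⁻¹) (a b : MRep G) :
    Lk V' a b ↔ Lk V a b := by
  unfold Lk
  simp only [sameLevel_conj hP h, trace_conj hP h]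

end conj

section equiv

variable {G G' : Type} [Group G] [Group G'] (e : G' ≃* G)

/-- Pull back of a representation. -/
def pb (a : MRep G) : MRep G' := ⟨a.1, a.2.comp e.toMonoidHom⟩

lemma pb_symm (a : MRep G) : pb e.symm (pb e a) = a := by
  obtain ⟨d, ρ⟩ := a
  show (⟨d, (ρ.comp e.toMonoidHom).comp e.symm.toMonoidHom⟩ : MRep G) = ⟨d, ρ⟩
  congr 1
  ext g
  simp

lemma isIrr_pb (a : MRep G) (ha : IsIrr a.2) : IsIrr (pb e a).2 := by
  refine ⟨ha.1, ?_⟩
  have h1 : Set.range (pb e a).2 = Set.range a.2 := by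
    ext M
    constructor
    · rintro ⟨g, rfl⟩
      exact ⟨e g, rfl⟩
    · rintro ⟨g, rfl⟩
      refine ⟨e.symm g, ?_⟩
      show a.2 (e (e.symm g)) = a.2 g
      rw [e.apply_symm_apply]
  rw [h1]
  exact ha.2

variable {r : ℕ} (V : G →* Matrix (Fin r) (Fin r) ℂ)

lemma sameLevel_pb (a b : MRep G) (h : SameLevel V a b) :
    SameLevel (V.comp e.toMonoidHom) (pb e a) (pb e b) := fun g hg => h (e g) hg

lemma lk_pb [Fintype G] [Fintype G'] (a b : MRep G) (h : Lk V a b) :
    Lk (V.comp e.toMonoidHom) (pb e a) (pb e b) := by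
  obtain ⟨h1, h2, h3, m, hm, h4⟩ := h
  refine ⟨isIrr_pb e a h1, isIrr_pb e b h2, sameLevel_pb e V a b h3, m, hm, ?_⟩
  have h5 : (∑ g : G', ((pb e a).2 g⁻¹).trace * ((pb e b).2 g).trace *
      ((V.comp e.toMonoidHom g⁻¹) ^ m).trace) =
      ∑ g : G, (a.2 g⁻¹).trace * (b.2 g).trace * ((V g⁻¹) ^ m).trace := by
    refine Fintype.sum_equiv e.toEquiv _ _ fun g => ?_
    show (a.2 (e g⁻¹)).trace * (b.2 (e g)).trace * ((V (e g⁻¹)) ^ m).trace =
      (a.2 (e g)⁻¹).trace * (b.2 (e g)).trace * ((V (e g)⁻¹) ^ m).trace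
    rw [map_inv]
  rw [h5]
  exact h4

end equiv

end ConnTX

open ConnTX

/-- Conjugation of the reflection representation. -/
theorem conn_of_conj {G : Type} [Group G] [Fintype G] {r : ℕ} {V V' : G →* Matrix (Fin r) (Fin r) ℂ}
    {P : Matrix (Fin r) (Fin r) ℂ} (hP : IsUnit P) (h : ∀ g, V' g = P * V g * P⁻¹)
    (hc : Conn V') : Conn V := by
  intro a b ha hb hab
  exact eqvGen_map id (fun x y hxy => (lk_conj hP h x y).1 hxy)
    (hc a b ha hb ((sameLevel_conj hP h a b).2 hab))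

/-- Change of the group. -/
theorem conn_of_equiv {G G' : Type} [Group G] [Group G'] [Fintype G] [Fintype G'] (e : G' ≃* G)
    {r : ℕ} {V : G →* Matrix (Fin r) (Fin r) ℂ} (hc : Conn V) : Conn (V.comp e.toMonoidHom) := by
  intro a b ha hb hab
  have h1 : SameLevel V (pb e.symm a) (pb e.symm b) := by
    intro g hg
    refine hab (e.symm g) ?_
    show (V (e (e.symm g)) - 1).rank = 1
    rw [e.apply_symm_apply]
    exact hg
  have h2 := eqvGen_map (pb e) (fun x y hxy => lk_pb e V x y hxy)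
    (hc _ _ (isIrr_pb e.symm a ha) (isIrr_pb e.symm b hb) h1)
  have h3 : ∀ a : MRep G', pb e (pb e.symm a) = a := fun a => pb_symm e.symm a
  rwa [h3, h3] at h2

/-- Both together: `V' (e g) = P V(g) P⁻¹`. -/
theorem conn_of_equiv_conj {G G' : Type} [Group G] [Group G'] [Fintype G] [Fintype G'] (e : G' ≃* G)
    {r : ℕ} {V : G →* Matrix (Fin r) (Fin r) ℂ} {V' : G' →* Matrix (Fin r) (Fin r) ℂ}
    {P : Matrix (Fin r) (Fin r) ℂ} (hP : IsUnit P) (h : ∀ g, V (e g) = P * V' g * P⁻¹)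
    (hc : Conn V) : Conn V' :=
  conn_of_conj hP h (conn_of_equiv e hc)

end

end Pool.Agent.CMFn
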