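import Pool.Agent.CMFn.DDefs
import Pool.Agent.CMFn.DunA

/-! Project CMF, every rank, module DunB: equivariance of the KZ form and of the Gaudin operators. -/

namespace Pool.Agent.CMFn

open Matrix

noncomputable section

namespace DunBX

variable {r : ℕ}

/-- Two linear forms with the same kernel are proportional. -/
lemma prop_form (a b : Fin r → ℂ) (ha : a ≠ 0) (h : ∀ v, a ⬝ᵥ v = 0 ↔ b ⬝ᵥ v = 0) :
    ∃ c : ℂ, c ≠ 0 ∧ b = c • a := by
  obtain ⟨p, hp⟩ := DunAX.exists_one a ha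
  refine ⟨b ⬝ᵥ p, ?_, ?_⟩
  · intro h0
    have h1 := (h p).2 h0
    rw [hp] at h1
    exact one_ne_zero h1
  · funext j
    have h1 : a ⬝ᵥ (Pi.single j 1 - (a ⬝ᵥ Pi.single j 1) • p) = 0 := by
      rw [dotProduct_sub, dotProduct_smul, hp, smul_eq_mul, mul_one, sub_self]
    have h2 := (h _).1 h1
    rw [dotProduct_sub, dotProduct_smul, dotProduct_single, dotProduct_single, mul_one, mul_one,
      smul_eq_mul, sub_eq_zero] at h2
    rw [Pi.smul_apply, smul_eq_mul, h2, mul_comm]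

variable {N : SG r}

lemma inv_mulVec (g : GL (Fin r) ℂ) (v : Fin r → ℂ) : (g⁻¹).1 *ᵥ (g.1 *ᵥ v) = v := by
  rw [Matrix.mulVec_mulVec, ← Units.val_mul, inv_mul_cancel, Units.val_one, Matrix.one_mulVec]

lemma mulVec_inv (g : GL (Fin r) ℂ) (v : Fin r → ℂ) : g.1 *ᵥ ((g⁻¹).1 *ᵥ v) = v := by
  rw [Matrix.mulVec_mulVec, ← Units.val_mul, mul_inv_cancel, Units.val_one, Matrix.one_mulVec]

lemma mem_mapL {g : GL (Fin r) ℂ} {H : Submodule ℂ (Fin r → ℂ)} {v : Fin r → ℂ} :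
    v ∈ mapL g H ↔ (g⁻¹).1 *ᵥ v ∈ H := by
  unfold mapL
  rw [Submodule.mem_map]
  constructor
  · rintro ⟨u, hu, rfl⟩
    rw [Matrix.toLin'_apply, inv_mulVec]
    exact hu
  · intro h
    exact ⟨_, h, by rw [Matrix.toLin'_apply, mulVec_inv]⟩

lemma mapL_mapL (g h : GL (Fin r) ℂ) (H : Submodule ℂ (Fin r → ℂ)) :
    mapL g (mapL h H) = mapL (g * h) H := by
  ext v
  rw [mem_mapL, mem_mapL, mem_mapL, _root_.mul_inv_rev, Units.val_mul, ← Matrix.mulVec_mulVec]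

lemma mapL_one (H : Submodule ℂ (Fin r → ℂ)) : mapL 1 H = H := by
  ext v
  rw [mem_mapL, inv_one, Units.val_one, Matrix.one_mulVec]

lemma fixL_conj (g s : GL (Fin r) ℂ) : fixL (g * s * g⁻¹) = mapL g (fixL s) := by
  ext v
  rw [mem_mapL, DunAX.mem_fixL, DunAX.mem_fixL]
  constructor
  · intro h
    have h1 : (g⁻¹).1 *ᵥ ((g * s * g⁻¹).1 *ᵥ v) = (g⁻¹).1 *ᵥ v :=
      congrArg (fun u => (g⁻¹).1 *ᵥ u) h
    rw [Units.val_mul, Units.val_mul, ← Matrix.mulVec_mulVec, ← Matrix.mulVec_mulVec,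
      inv_mulVec] at h1
    exact h1
  · intro h
    rw [Units.val_mul, Units.val_mul, ← Matrix.mulVec_mulVec, ← Matrix.mulVec_mulVec, h,
      mulVec_inv]

lemma det_conj (g s : GL (Fin r) ℂ) : (g * s * g⁻¹).1.det = s.1.det := by
  have h : g.1.det * (g⁻¹).1.det = 1 := by
    rw [← Matrix.det_mul, ← Units.val_mul, mul_inv_cancel, Units.val_one, Matrix.det_one]
  rw [Units.val_mul, Units.val_mul, Matrix.det_mul, Matrix.det_mul]
  linear_combination s.1.det * h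

lemma isRefl_conj {g s : GL (Fin r) ℂ} (hs : IsRefl s) : IsRefl (g * s * g⁻¹) :=
  Pool.Agent.CMFn.isRefl_conj (G := (⊤ : SG r)) hs

lemma isRefl_conj_iff {g s : GL (Fin r) ℂ} : IsRefl (g * s * g⁻¹) ↔ IsRefl s := by
  refine ⟨fun h => ?_, isRefl_conj⟩
  have h1 := isRefl_conj (g := g⁻¹) h
  have h2 : g⁻¹ * (g * s * g⁻¹) * (g⁻¹)⁻¹ = s := by group
  rw [h2] at h1
  exact h1

/-- The action on the lines. -/
def actH (g : N) (H : Arr N) : Arr N :=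
  ⟨mapL g.1 H.1, by
    obtain ⟨H, s, hs, hr, hH⟩ := H
    refine ⟨g.1 * s * g.1⁻¹, N.mul_mem (N.mul_mem g.2 hs) (N.inv_mem g.2), isRefl_conj hr, ?_⟩
    exact (congrArg (mapL g.1) hH).trans (fixL_conj g.1 s).symm⟩

/-- The action on the lines, as a permutation. -/
def eqvH (g : N) : Arr N ≃ Arr N where
  toFun := actH g
  invFun := actH g⁻¹
  left_inv H := by
    apply Subtype.ext
    show mapL (g⁻¹).1 (mapL g.1 H.1) = H.1
    rw [mapL_mapL, ← Subgroup.coe_mul, inv_mul_cancel, Subgroup.coe_one, mapL_one]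
  right_inv H := by
    apply Subtype.ext
    show mapL g.1 (mapL (g⁻¹).1 H.1) = H.1
    rw [mapL_mapL, ← Subgroup.coe_mul, mul_inv_cancel, Subgroup.coe_one, mapL_one]

lemma idx_act (g : N) (H : Arr N) (j : ℤ) : idx (actH g H) j = idx H j := by
  refine (Quot.sound ⟨⟨g.1, g.2, rfl⟩, ?_⟩).symm
  show (eH N H.1 : ℤ) ∣ j - j
  rw [sub_self]
  exact dvd_zero _

lemma ptStab_conj {g : GL (Fin r) ℂ} (hg : g ∈ N) {H : Submodule ℂ (Fin r → ℂ)}
    {w : GL (Fin r) ℂ} (hw : w ∈ ptStab N H) : g * w * g⁻¹ ∈ ptStab N (mapL g H) := by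
  refine ⟨N.mul_mem (N.mul_mem hg hw.1) (N.inv_mem hg), ?_⟩
  intro v hv
  rw [Units.val_mul, Units.val_mul, ← Matrix.mulVec_mulVec, ← Matrix.mulVec_mulVec,
    hw.2 _ (mem_mapL.1 hv), mulVec_inv]

lemma eH_act (g : N) (H : Submodule ℂ (Fin r → ℂ)) : eH N (mapL g.1 H) = eH N H := by
  unfold eH
  refine (Nat.card_congr ?_).symm
  refine ⟨fun w => ⟨g.1 * w.1 * g.1⁻¹, ptStab_conj g.2 w.2⟩,
    fun w => ⟨g.1⁻¹ * w.1 * g.1⁻¹⁻¹, ?_⟩, ?_, ?_⟩
  · have h1 := ptStab_conj (N.inv_mem g.2) w.2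
    rw [mapL_mapL, inv_mul_cancel, mapL_one] at h1
    exact h1
  · intro w
    apply Subtype.ext
    show g.1⁻¹ * (g.1 * w.1 * g.1⁻¹) * g.1⁻¹⁻¹ = w.1
    group
  · intro w
    apply Subtype.ext
    show g.1 * (g.1⁻¹ * w.1 * g.1⁻¹⁻¹) * g.1⁻¹ = w.1
    group

lemma cs_act (k : Idx N → ℂ) (g : N) (H : Arr N) : cs k (actH g H) = cs k H := by
  unfold cs
  have h : eH N (actH g H).1 = eH N H.1 := eH_act g H.1
  rw [h]
  exact Finset.sum_congr rfl fun j _ => by rw [idx_act]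

lemma cf_act (k : Idx N → ℂ) (g : N) (H : Arr N) (w w' : GL (Fin r) ℂ)
    (hw : w'.1.det = w.1.det) : cf k (actH g H) w' = cf k H w := by
  unfold cf
  have h : eH N (actH g H).1 = eH N H.1 := eH_act g H.1
  rw [h]
  exact Finset.sum_congr rfl fun j _ => by rw [idx_act, hw]

lemma cr_conj (k : Idx N → ℂ) (g w : N) : cr k (g * w * g⁻¹) = cr k w := by
  have hiff : IsRefl (g * w * g⁻¹).1 ↔ IsRefl w.1 := isRefl_conj_iff (g := g.1) (s := w.1)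
  unfold cr
  by_cases h : IsRefl w.1
  · rw [dif_pos h, dif_pos (hiff.2 h)]
    have e : (⟨fixL (g * w * g⁻¹).1, (g * w * g⁻¹).1, (g * w * g⁻¹).2, hiff.2 h, rfl⟩ : Arr N) =
        actH g ⟨fixL w.1, w.1, w.2, h, rfl⟩ := by
      apply Subtype.ext
      exact fixL_conj g.1 w.1
    rw [e]
    exact cf_act k g _ _ _ (det_conj g.1 w.1)
  · rw [dif_neg h, dif_neg (fun h' => h (hiff.1 h'))]

end DunBX

open DunBX

variable {r : ℕ} {N : SG r} [Fintype N]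

namespace DunBX

omit [Fintype N] in
lemma rat_act (g : N) (H : Arr N) (y v : Fin r → ℂ) :
    rat (mapL g.1 H.1) (g.1.1 *ᵥ y) (g.1.1 *ᵥ v) = rat H.1 y v := by
  have h1 := lf_spec H
  have h2 := lf_spec (actH g H)
  have h3 : ∀ u, lf (mapL g.1 H.1) ⬝ᵥ (g.1.1 *ᵥ u) = (lf (mapL g.1 H.1) ᵥ* g.1.1) ⬝ᵥ u :=
    fun u => Matrix.dotProduct_mulVec _ _ _
  obtain ⟨c, hc, hb⟩ := prop_form (lf H.1) (lf (mapL g.1 H.1) ᵥ* g.1.1) h1.1 (by
    intro u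
    rw [← h3 u, ← h1.2 u]
    have h4 := h2.2 (g.1.1 *ᵥ u)
    have h5 : g.1.1 *ᵥ u ∈ mapL g.1 H.1 ↔ u ∈ H.1 := by
      rw [mem_mapL, inv_mulVec]
    exact h5.symm.trans h4)
  unfold rat
  rw [h3, h3, hb, smul_dotProduct, smul_dotProduct, smul_eq_mul, smul_eq_mul,
    mul_div_mul_left _ _ hc]

lemma term_conj (k : Idx N → ℂ) (g w : N) (v y : Fin r → ℂ) :
    cr k (g * w * g⁻¹) * rat (fixL (g * w * g⁻¹).1) (g.1.1 *ᵥ y) (g.1.1 *ᵥ v) =
      cr k w * rat (fixL w.1) y v := by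
  rw [cr_conj]
  by_cases h : IsRefl w.1
  · have e : fixL (g * w * g⁻¹).1 = mapL g.1 (fixL w.1) := fixL_conj g.1 w.1
    rw [e]
    have := rat_act g ⟨fixL w.1, w.1, w.2, h, rfl⟩ y v
    rw [this]
  · have h0 : cr k w = 0 := by
      unfold cr
      rw [dif_neg h]
    rw [h0, zero_mul, zero_mul]

end DunBX

/-- Equivariance of the KZ form and of the Gaudin operators. -/
theorem gau_equiv {ι : Type} [Fintype ι] [DecidableEq ι] (ρ : N →* Matrix ι ι ℂ)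
    (k : Idx N → ℂ) (g : N) (v y : Fin r → ℂ) :
    ρ g * gau ρ k v y * ρ g⁻¹ = gau ρ k (g.1.1 *ᵥ v) (g.1.1 *ᵥ y) := by
  unfold gau
  rw [Finset.mul_sum, Finset.sum_mul]
  rw [← Equiv.sum_comp (MulAut.conj g).toEquiv (fun w =>
    (cr k w * rat (fixL w.1) (g.1.1 *ᵥ y) (g.1.1 *ᵥ v)) • ρ w)]
  refine Finset.sum_congr rfl fun w _ => ?_
  show ρ g * ((cr k w * rat (fixL w.1) y v) • ρ w) * ρ g⁻¹ =
    (cr k (g * w * g⁻¹) * rat (fixL (g * w * g⁻¹).1) (g.1.1 *ᵥ y) (g.1.1 *ᵥ v)) •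
      ρ (g * w * g⁻¹)
  rw [term_conj, map_mul, map_mul, Matrix.mul_smul, Matrix.smul_mul]

theorem om_equiv {ι : Type} [Fintype ι] [DecidableEq ι] (ρ : N →* Matrix ι ι ℂ)
    (k : Idx N → ℂ) (g : N) (v y : Fin r → ℂ) :
    ρ g * om ρ k v y * ρ g⁻¹ = om ρ k (g.1.1 *ᵥ v) (g.1.1 *ᵥ y) := by
  unfold om
  rw [mul_add, add_mul, gau_equiv]
  congr 1
  have h1 : ρ g * ρ g⁻¹ = 1 := by rw [← map_mul, mul_inv_cancel, map_one]
  rw [Matrix.mul_smul, Matrix.smul_mul, mul_one, h1]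
  congr 1
  rw [← Equiv.sum_comp (eqvH g) (fun H => cs k H * rat H.1 (g.1.1 *ᵥ y) (g.1.1 *ᵥ v))]
  refine Finset.sum_congr rfl fun H _ => ?_
  show cs k H * rat H.1 y v =
    cs k (actH g H) * rat (mapL g.1 H.1) (g.1.1 *ᵥ y) (g.1.1 *ᵥ v)
  rw [cs_act, rat_act]

end

end Pool.Agent.CMFn
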