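import Pool.Agent.CMFn.DunA
import Pool.Agent.CMFn.DunB

/-! Project CMF, every rank, module Flat: the KZ connection is flat.  The operators `om(v, y)`,
`v` regular, commute (Hurwitz move and Arnold relation), and the derivative of `om(·, y)` in the
direction `l` is symmetric in `y` and `l`. -/

namespace Pool.Agent.CMFn

open Matrix

noncomputable section

namespace FlatX

variable {r : ℕ} {N : SG r} [Fintype N]

/-- The linear form of `w`. -/
def al (w : N) (u : Fin r → ℂ) : ℂ := lf (fixL w.1) ⬝ᵥ u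

/-- The two-form of a pair. -/
def DD (p : N × N) (a b : Fin r → ℂ) : ℂ := al p.1 a * al p.2 b - al p.1 b * al p.2 a

omit [Fintype N] in
lemma al_ne (v : VReg N) (w : N) (h : IsRefl w.1) : al w v.1 ≠ 0 :=
  (vreg_iff v.1).1 v.2 ⟨fixL w.1, w.1, w.2, h, rfl⟩

omit [Fintype N] in
/-- The form of a conjugate. -/
lemma al_conj (w w' : N) (h : IsRefl w.1) (h' : IsRefl w'.1) :
    ∃ c κ : ℂ, c ≠ 0 ∧ ∀ u, al (w * w' * w⁻¹) u = c * (al w' u + κ * al w u) := by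
  have hH' := lf_spec (⟨fixL w'.1, w'.1, w'.2, h', rfl⟩ : Arr N)
  have hH'' := lf_spec (DunBX.actH w (⟨fixL w'.1, w'.1, w'.2, h', rfl⟩ : Arr N))
  have e : fixL (w * w' * w⁻¹).1 = mapL w.1 (fixL w'.1) := DunBX.fixL_conj w.1 w'.1
  have h3 : ∀ u, lf (mapL w.1 (fixL w'.1)) ⬝ᵥ (w.1.1 *ᵥ u) =
      (lf (mapL w.1 (fixL w'.1)) ᵥ* w.1.1) ⬝ᵥ u :=
    fun u => Matrix.dotProduct_mulVec _ _ _
  obtain ⟨c, hc, hb⟩ := DunBX.prop_form (lf (fixL w'.1))
    (lf (mapL w.1 (fixL w'.1)) ᵥ* w.1.1) hH'.1 (by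
    intro u
    rw [← h3 u, ← hH'.2 u]
    have h4 := hH''.2 (w.1.1 *ᵥ u)
    have h5 : w.1.1 *ᵥ u ∈ mapL w.1 (fixL w'.1) ↔ u ∈ fixL w'.1 := by
      rw [DunBX.mem_mapL, DunBX.inv_mulVec]
    exact h5.symm.trans h4)
  obtain ⟨ν, hν, -⟩ := exists_root (⟨fixL w.1, w.1, w.2, h, rfl⟩ : Arr N) w⁻¹ (by
    intro u hu
    have h1 : w.1.1 *ᵥ u = u := DunAX.mem_fixL.1 hu
    have h2 : (w⁻¹).1.1 *ᵥ (w.1.1 *ᵥ u) = u := DunBX.inv_mulVec w.1 u
    rw [h1] at h2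
    exact h2)
  refine ⟨c, lf (fixL w'.1) ⬝ᵥ ν, hc, fun u => ?_⟩
  have h6 : w.1.1 *ᵥ ((w⁻¹).1.1 *ᵥ u) = u := DunBX.mulVec_inv w.1 u
  have h7 : al (w * w' * w⁻¹) u = c * (lf (fixL w'.1) ⬝ᵥ ((w⁻¹).1.1 *ᵥ u)) := by
    unfold al
    rw [e]
    conv_lhs => rw [← h6]
    rw [h3, hb, smul_dotProduct, smul_eq_mul]
  rw [h7, hν u, dotProduct_add, dotProduct_smul, smul_eq_mul]
  unfold al
  ring

omit [Fintype N] in
lemma DD_hur (p : N × N) (h : IsRefl p.1.1) (h' : IsRefl p.2.1) :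
    ∃ c : ℂ, c ≠ 0 ∧ ∀ a b, DD (p.1 * p.2 * p.1⁻¹, p.1) a b = c * DD p a b := by
  obtain ⟨c, κ, hc, hu⟩ := al_conj p.1 p.2 h h'
  refine ⟨-c, neg_ne_zero.2 hc, fun a b => ?_⟩
  unfold DD
  show al (p.1 * p.2 * p.1⁻¹) a * al p.1 b - al (p.1 * p.2 * p.1⁻¹) b * al p.1 a = _
  rw [hu, hu]
  ring

open Classical in
/-- The potential. -/
def pot (v y l : Fin r → ℂ) (p : N × N) (w : N) : ℂ :=
  if DD p y v ≠ 0 then DD p y l / DD p y v * rat (fixL w.1) y v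
  else if DD p l v ≠ 0 then DD p y l / DD p l v * rat (fixL w.1) l v
  else 0

omit [Fintype N] in
lemma pot_hur (v y l : Fin r → ℂ) (p : N × N) (h : IsRefl p.1.1) (h' : IsRefl p.2.1) (w : N) :
    pot v y l (p.1 * p.2 * p.1⁻¹, p.1) w = pot v y l p w := by
  obtain ⟨c, hc, hD⟩ := DD_hur p h h'
  unfold pot
  simp only [hD]
  have e1 : ∀ a b : ℂ, c * a / (c * b) = a / b := fun a b => mul_div_mul_left a b hc
  have e2 : ∀ a : ℂ, (c * a ≠ 0) ↔ (a ≠ 0) := fun a => mul_ne_zero_iff_left hc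
  rw [e1, e1]
  simp only [e2]

lemma scal {a b D E x y : ℂ} (ha : a ≠ 0) (hb : b ≠ 0) (hE : E ≠ 0) (he : x * b - a * y = E) :
    D / (a * b) = D / E * (x / a) - D / E * (y / b) := by
  have h1 : x / a - y / b = E / (a * b) := by
    rw [← he]
    field_simp
  rw [← mul_sub, h1]
  field_simp

omit [Fintype N] in
/-- The Arnold relation. -/
lemma arnold (v : VReg N) (y l : Fin r → ℂ) (p : N × N) (h : IsRefl p.1.1) (h' : IsRefl p.2.1) :
    rat (fixL p.1.1) y v.1 * rat (fixL p.2.1) l v.1 -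
      rat (fixL p.1.1) l v.1 * rat (fixL p.2.1) y v.1 =
    pot v.1 y l p p.1 - pot v.1 y l p p.2 := by
  have h1 := al_ne v p.1 h
  have h2 := al_ne v p.2 h'
  have hr : ∀ (w : N) u, rat (fixL w.1) u v.1 = al w u / al w v.1 := fun w u => rfl
  unfold pot
  simp only [hr]
  have h4 : al p.1 y / al p.1 v.1 * (al p.2 l / al p.2 v.1) -
      al p.1 l / al p.1 v.1 * (al p.2 y / al p.2 v.1) =
      DD p y l / (al p.1 v.1 * al p.2 v.1) := by
    unfold DD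
    field_simp
  rw [h4]
  by_cases hA : DD p y v.1 ≠ 0
  · rw [if_pos hA, if_pos hA]
    exact scal h1 h2 hA rfl
  · rw [if_neg hA, if_neg hA]
    by_cases hB : DD p l v.1 ≠ 0
    · rw [if_pos hB, if_pos hB]
      exact scal h1 h2 hB rfl
    · rw [if_neg hB, if_neg hB, sub_zero]
      rw [not_not] at hA hB
      have h3 : DD p y l = 0 := by
        apply mul_right_cancel₀ h2
        rw [zero_mul]
        unfold DD at hA hB ⊢
        linear_combination al p.2 l * hA - al p.2 y * hB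
      rw [h3, zero_div]

/-- The Hurwitz move. -/
def hur (N : SG r) : N × N ≃ N × N where
  toFun p := (p.1 * p.2 * p.1⁻¹, p.1)
  invFun p := (p.2, p.2⁻¹ * p.1 * p.2)
  left_inv p := by
    apply Prod.ext
    · rfl
    · show p.1⁻¹ * (p.1 * p.2 * p.1⁻¹) * p.1 = p.2
      group
  right_inv p := by
    apply Prod.ext
    · show p.2 * (p.2⁻¹ * p.1 * p.2) * p.2⁻¹ = p.1
      group
    · rfl

omit [Fintype N] in
lemma cr_zero (k : Idx N → ℂ) (w : N) (h : ¬ IsRefl w.1) : cr k w = 0 := by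
  unfold cr
  rw [dif_neg h]

variable {ι : Type} [Fintype ι] [DecidableEq ι]

lemma gau_mul (ρ : N →* Matrix ι ι ℂ) (k : Idx N → ℂ) (v y l : Fin r → ℂ) :
    gau ρ k v y * gau ρ k v l = ∑ p : N × N, (cr k p.1 * cr k p.2 *
      (rat (fixL p.1.1) y v * rat (fixL p.2.1) l v)) • ρ (p.1 * p.2) := by
  unfold gau
  rw [Finset.sum_mul_sum, ← Finset.univ_product_univ, Finset.sum_product]
  refine Finset.sum_congr rfl fun w _ => Finset.sum_congr rfl fun w' _ => ?_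
  rw [smul_mul_smul_comm, map_mul]
  congr 1
  ring

lemma gau_comm (ρ : N →* Matrix ι ι ℂ) (k : Idx N → ℂ) (v : VReg N) (y l : Fin r → ℂ) :
    gau ρ k v.1 y * gau ρ k v.1 l = gau ρ k v.1 l * gau ρ k v.1 y := by
  rw [← sub_eq_zero, gau_mul, gau_mul, ← Finset.sum_sub_distrib]
  have h1 : ∀ p : N × N, (cr k p.1 * cr k p.2 *
      (rat (fixL p.1.1) y v.1 * rat (fixL p.2.1) l v.1)) • ρ (p.1 * p.2) -
      (cr k p.1 * cr k p.2 *
      (rat (fixL p.1.1) l v.1 * rat (fixL p.2.1) y v.1)) • ρ (p.1 * p.2) =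
      (cr k p.1 * cr k p.2 * pot v.1 y l p p.1) • ρ (p.1 * p.2) -
      (cr k p.1 * cr k p.2 * pot v.1 y l p p.2) • ρ (p.1 * p.2) := by
    intro p
    rw [← sub_smul, ← sub_smul, ← mul_sub, ← mul_sub]
    by_cases h : IsRefl p.1.1
    · by_cases h' : IsRefl p.2.1
      · rw [arnold v y l p h h']
      · rw [cr_zero k p.2 h']
        simp
    · rw [cr_zero k p.1 h]
      simp
  rw [Finset.sum_congr rfl fun p _ => h1 p, Finset.sum_sub_distrib, sub_eq_zero]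
  rw [← Equiv.sum_comp (hur N) (fun p : N × N =>
    (cr k p.1 * cr k p.2 * pot v.1 y l p p.2) • ρ (p.1 * p.2))]
  refine Finset.sum_congr rfl fun p _ => ?_
  show _ = (cr k (p.1 * p.2 * p.1⁻¹) * cr k p.1 *
    pot v.1 y l (p.1 * p.2 * p.1⁻¹, p.1) p.1) • ρ (p.1 * p.2 * p.1⁻¹ * p.1)
  rw [DunBX.cr_conj]
  have e : p.1 * p.2 * p.1⁻¹ * p.1 = p.1 * p.2 := by group
  rw [e]
  by_cases h : IsRefl p.1.1
  · by_cases h' : IsRefl p.2.1
    · rw [pot_hur v.1 y l p h h', mul_comm (cr k p.2)]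
    · rw [cr_zero k p.2 h']
      simp
  · rw [cr_zero k p.1 h]
    simp

/-- The continuous linear form `a`. -/
def frm (a : Fin r → ℂ) : (Fin r → ℂ) →L[ℂ] ℂ :=
  ∑ i, a i • ContinuousLinearMap.proj (R := ℂ) (φ := fun _ : Fin r => ℂ) i

omit [Fintype N] in
lemma frm_apply (a v : Fin r → ℂ) : frm a v = a ⬝ᵥ v := by
  unfold frm
  rw [_root_.sum_apply]
  rfl

omit [Fintype N] in
lemma rat_hasFDerivAt (H : Submodule ℂ (Fin r → ℂ)) (y v : Fin r → ℂ) (hv : lf H ⬝ᵥ v ≠ 0) :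
    HasFDerivAt (fun v => rat H y v)
      ((-((lf H ⬝ᵥ y) / (lf H ⬝ᵥ v) ^ 2)) • frm (lf H)) v := by
  have h1 : HasFDerivAt (fun v => frm (lf H) v) (frm (lf H)) v := (frm (lf H)).hasFDerivAt
  have hv' : frm (lf H) v ≠ 0 := by rw [frm_apply]; exact hv
  have h2 := (hasDerivAt_inv hv').comp_hasFDerivAt v h1
  have h3 := h2.const_mul (lf H ⬝ᵥ y)
  have e : (fun v => rat H y v) = fun u => (lf H ⬝ᵥ y) * ((fun x : ℂ => x⁻¹) ∘ fun v => frm (lf H) v) u := by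
    funext u
    show (lf H ⬝ᵥ y) / (lf H ⬝ᵥ u) = (lf H ⬝ᵥ y) * (frm (lf H) u)⁻¹
    rw [frm_apply, div_eq_mul_inv]
  rw [e]
  refine h3.congr_fderiv ?_
  rw [smul_smul, frm_apply]
  congr 1
  ring

end FlatX

open FlatX

variable {r : ℕ} {N : SG r} [Fintype N] {ι : Type} [Fintype ι] [DecidableEq ι]

/-- The values of the KZ form at a regular vector commute. -/
theorem om_comm (ρ : N →* Matrix ι ι ℂ) (k : Idx N → ℂ) (v : VReg N) (y l : Fin r → ℂ) :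
    om ρ k v.1 y * om ρ k v.1 l = om ρ k v.1 l * om ρ k v.1 y := by
  unfold om
  rw [add_mul, add_mul, mul_add, mul_add, mul_add, mul_add, gau_comm ρ k v y l,
    smul_mul_assoc, one_mul, mul_smul_comm, mul_one, smul_mul_assoc, one_mul, mul_smul_comm,
    mul_one, smul_mul_assoc, one_mul, smul_mul_assoc, one_mul, smul_smul, smul_smul,
    mul_comm (∑ H : Arr N, cs k H * rat H.1 y v.1)]
  abel

/-- The same, for vectors off the reflecting hyperplanes. -/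
theorem om_flat (ρ : N →* Matrix ι ι ℂ) (k : Idx N → ℂ) (v : Fin r → ℂ)
    (hv : ∀ H : Arr N, lf H.1 ⬝ᵥ v ≠ 0) (y y' : Fin r → ℂ) :
    om ρ k v y * om ρ k v y' = om ρ k v y' * om ρ k v y :=
  om_comm ρ k (⟨v, (vreg_iff v).2 hv⟩ : VReg N) y y'

/-- The derivative of `om(·, y)` at `v` in the direction `l`. -/
def omD (ρ : N →* Matrix ι ι ℂ) (k : Idx N → ℂ) (v y l : Fin r → ℂ) : Matrix ι ι ℂ :=
  (∑ w : N, (cr k w * (-((lf (fixL w.1) ⬝ᵥ y) * (lf (fixL w.1) ⬝ᵥ l) /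
      (lf (fixL w.1) ⬝ᵥ v) ^ 2))) • ρ w) +
    (∑ H : Arr N, cs k H * (-((lf H.1 ⬝ᵥ y) * (lf H.1 ⬝ᵥ l) / (lf H.1 ⬝ᵥ v) ^ 2))) •
      (1 : Matrix ι ι ℂ)

theorem omD_symm (ρ : N →* Matrix ι ι ℂ) (k : Idx N → ℂ) (v y l : Fin r → ℂ) :
    omD ρ k v y l = omD ρ k v l y := by
  unfold omD
  congr 1
  · exact Finset.sum_congr rfl fun w _ => by rw [mul_comm (lf (fixL w.1) ⬝ᵥ y)]
  · congr 1
    exact Finset.sum_congr rfl fun H _ => by rw [mul_comm (lf H.1 ⬝ᵥ y)]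

theorem om_hasFDerivAt (ρ : N →* Matrix ι ι ℂ) (k : Idx N → ℂ) (v : VReg N) (y : Fin r → ℂ)
    (p q : ι) : ∃ L : (Fin r → ℂ) →L[ℂ] ℂ,
      HasFDerivAt (fun v => om ρ k v y p q) L v.1 ∧ ∀ l, L l = omD ρ k v.1 y l p q := by
  have e : (fun v => om ρ k v y p q) = fun v => (∑ w : N, (cr k w * rat (fixL w.1) y v) *
      ρ w p q) + (∑ H : Arr N, cs k H * rat H.1 y v) * (1 : Matrix ι ι ℂ) p q := by
    funext v
    unfold om gau
    rw [Matrix.add_apply, Matrix.sum_apply]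
    rfl
  have h1 : ∀ w : N, ∃ L : (Fin r → ℂ) →L[ℂ] ℂ,
      HasFDerivAt (fun v => (cr k w * rat (fixL w.1) y v) * ρ w p q) L v.1 ∧
      ∀ l, L l = (cr k w * (-((lf (fixL w.1) ⬝ᵥ y) * (lf (fixL w.1) ⬝ᵥ l) /
        (lf (fixL w.1) ⬝ᵥ v.1) ^ 2))) * ρ w p q := by
    intro w
    by_cases h : IsRefl w.1
    · have h2 := rat_hasFDerivAt (fixL w.1) y v.1 (al_ne v w h)
      refine ⟨_, (h2.const_mul (cr k w)).mul_const (ρ w p q), fun l => ?_⟩
      show (ρ w p q) * ((cr k w) * ((-((lf (fixL w.1) ⬝ᵥ y) / (lf (fixL w.1) ⬝ᵥ v.1) ^ 2)) *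
        frm (lf (fixL w.1)) l)) = _
      rw [frm_apply]
      ring
    · refine ⟨0, ?_, fun l => ?_⟩
      · rw [cr_zero k w h]
        simp only [zero_mul]
        exact hasFDerivAt_const _ _
      · rw [cr_zero k w h]
        simp
  have h3 : ∀ H : Arr N, ∃ L : (Fin r → ℂ) →L[ℂ] ℂ,
      HasFDerivAt (fun v => cs k H * rat H.1 y v) L v.1 ∧
      ∀ l, L l = cs k H * (-((lf H.1 ⬝ᵥ y) * (lf H.1 ⬝ᵥ l) / (lf H.1 ⬝ᵥ v.1) ^ 2)) := by
    intro H
    have h2 := rat_hasFDerivAt H.1 y v.1 ((vreg_iff v.1).1 v.2 H)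
    refine ⟨_, h2.const_mul (cs k H), fun l => ?_⟩
    show (cs k H) * ((-((lf H.1 ⬝ᵥ y) / (lf H.1 ⬝ᵥ v.1) ^ 2)) * frm (lf H.1) l) = _
    rw [frm_apply]
    ring
  choose L hL hL' using h1
  choose M hM hM' using h3
  refine ⟨(∑ w : N, L w) + ((1 : Matrix ι ι ℂ) p q) • ∑ H : Arr N, M H, ?_, fun l => ?_⟩
  · rw [e]
    refine HasFDerivAt.add (HasFDerivAt.fun_sum fun w _ => hL w) ?_
    exact (HasFDerivAt.fun_sum fun H _ => hM H).mul_const _
  · rw [_root_.add_apply, _root_.smul_apply,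
      _root_.sum_apply, _root_.sum_apply]
    unfold omD
    rw [Matrix.add_apply, Matrix.sum_apply]
    simp only [hL', hM', Matrix.smul_apply, smul_eq_mul]
    ring

/-- Linearity of the KZ form. -/
theorem om_add (ρ : N →* Matrix ι ι ℂ) (k : Idx N → ℂ) (v y l : Fin r → ℂ) :
    om ρ k v (y + l) = om ρ k v y + om ρ k v l := by
  have hr : ∀ H : Submodule ℂ (Fin r → ℂ), rat H (y + l) v = rat H y v + rat H l v := by
    intro H
    unfold rat
    rw [dotProduct_add, add_div]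
  unfold om gau
  simp only [hr, mul_add, add_smul, Finset.sum_add_distrib]
  abel

theorem om_smul (ρ : N →* Matrix ι ι ℂ) (k : Idx N → ℂ) (v : Fin r → ℂ) (c : ℂ)
    (y : Fin r → ℂ) : om ρ k v (c • y) = c • om ρ k v y := by
  have hr : ∀ H : Submodule ℂ (Fin r → ℂ), rat H (c • y) v = c * rat H y v := by
    intro H
    unfold rat
    rw [dotProduct_smul, smul_eq_mul, mul_div_assoc]
  unfold om gau
  simp only [hr, smul_add, Finset.smul_sum, smul_smul, Finset.mul_sum]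
  congr 1
  · refine Finset.sum_congr rfl fun w _ => ?_
    congr 1
    ring
  · congr 1
    refine Finset.sum_congr rfl fun H _ => ?_
    ring

end

end Pool.Agent.CMFn
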