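import Mathlib

/-! Project CMF, every rank, module Frob (used by FrameB): local integrability of a flat
connection with logarithmic coefficients, in a Banach algebra.  The solution along the rays is
differentiable in the direction (comparison by the inequality of Gronwall). -/

namespace Pool.Agent.CMFn

open Set

noncomputable section

namespace FrobX

variable {E : Type} [NormedAddCommGroup E] [NormedSpace ℂ E] {J : Type} [Fintype J]
  {A : Type} [NormedRing A] [NormedAlgebra ℂ A]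

/-- The connection form at `s u` in the direction `y`. -/
def bb {A : Type} [AddCommMonoid A] [Module ℂ A] (x : J → E →L[ℂ] ℂ) (a : J → A) (s : ℂ)
    (u y : E) : A :=
  ∑ j, (x j y / (1 + s * x j u)) • a j

/-- Derivative of `bb` in `s`. -/
def bd {A : Type} [AddCommMonoid A] [Module ℂ A] (x : J → E →L[ℂ] ℂ) (a : J → A) (s : ℂ)
    (u y : E) : A :=
  ∑ j, (-(x j y * x j u) / (1 + s * x j u) ^ 2) • a j

lemma norm_sum_smul_le (c : J → ℂ) (a : J → A) (M : ℝ) (h : ∀ j, ‖c j‖ ≤ M) :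
    ‖∑ j, c j • a j‖ ≤ M * ∑ j, ‖a j‖ := by
  refine (norm_sum_le _ _).trans ?_
  rw [Finset.mul_sum]
  refine Finset.sum_le_sum fun j _ => ?_
  rw [norm_smul]
  exact mul_le_mul_of_nonneg_right (h j) (norm_nonneg _)

lemma half_le (t z : ℂ) (ht : ‖t‖ ≤ 1) (hz : ‖z‖ ≤ 1 / 2) : 1 / 2 ≤ ‖1 + t * z‖ := by
  have h1 : ‖t * z‖ ≤ 1 / 2 := by
    rw [norm_mul]
    calc ‖t‖ * ‖z‖ ≤ 1 * (1 / 2) := mul_le_mul ht hz (norm_nonneg _) zero_le_one
      _ = 1 / 2 := one_mul _
  have h2 : ‖(1 : ℂ)‖ ≤ ‖1 + t * z‖ + ‖t * z‖ := by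
    have := norm_sub_le (1 + t * z) (t * z)
    rwa [add_sub_cancel_right] at this
  rw [norm_one] at h2
  linarith

lemma ne_zero_of_half {z : ℂ} (h : 1 / 2 ≤ ‖z‖) : z ≠ 0 := by
  intro h0
  rw [h0, norm_zero] at h
  linarith

lemma bb_deriv (x : J → E →L[ℂ] ℂ) (a : J → A) (s : ℂ) (u y : E)
    (h : ∀ j, 1 + s * x j u ≠ 0) : HasDerivAt (fun s => bb x a s u y) (bd x a s u y) s := by
  unfold bb bd
  refine HasDerivAt.fun_sum fun j _ => ?_
  have h1 : HasDerivAt (fun s : ℂ => 1 + s * x j u) (x j u) s := by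
    simpa using ((hasDerivAt_id s).mul_const (x j u)).const_add 1
  have h2 := ((hasDerivAt_const s (x j y)).div h1 (h j)).smul_const (a j)
  have e : (0 * (1 + s * x j u) - x j y * x j u) / (1 + s * x j u) ^ 2 =
      -(x j y * x j u) / (1 + s * x j u) ^ 2 := by ring
  rw [e] at h2
  exact h2

/-- Second order expansion of the connection form. -/
lemma exp2 (t z w : ℂ) (ht : ‖t‖ ≤ 1) (h1 : 1 / 2 ≤ ‖1 + t * z‖)
    (h2 : 1 / 2 ≤ ‖1 + t * (z + w)‖) :
    ‖(z + w) / (1 + t * (z + w)) - z / (1 + t * z) - w / (1 + t * z) -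
      t * (-(w * z) / (1 + t * z) ^ 2)‖ ≤ 8 * ‖w‖ ^ 2 := by
  have n1 := ne_zero_of_half h1
  have n2 := ne_zero_of_half h2
  have e : (z + w) / (1 + t * (z + w)) - z / (1 + t * z) - w / (1 + t * z) -
      t * (-(w * z) / (1 + t * z) ^ 2) =
      -(t * w ^ 2) / ((1 + t * z) ^ 2 * (1 + t * (z + w))) := by
    clear h1 h2
    obtain ⟨D, hD⟩ : ∃ D : ℂ, D = 1 + t * z := ⟨_, rfl⟩
    obtain ⟨G, hG⟩ : ∃ G : ℂ, G = 1 + t * (z + w) := ⟨_, rfl⟩
    rw [← hD] at n1
    rw [← hG] at n2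
    rw [← hD, ← hG]
    field_simp
    rw [hD, hG]
    ring
  rw [e, norm_div, norm_neg, norm_mul, norm_mul, norm_pow, norm_pow]
  have h3 : (1 : ℝ) / 8 ≤ ‖1 + t * z‖ ^ 2 * ‖1 + t * (z + w)‖ := by
    have h4 : (1 : ℝ) / 4 ≤ ‖1 + t * z‖ ^ 2 := by nlinarith
    nlinarith
  rw [div_le_iff₀ (by linarith)]
  have h5 : ‖t‖ * ‖w‖ ^ 2 ≤ 1 * ‖w‖ ^ 2 := mul_le_mul_of_nonneg_right ht (sq_nonneg _)
  have h6 : 0 ≤ ‖w‖ ^ 2 := sq_nonneg _
  nlinarith

/-- First order expansion. -/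
lemma exp1 (t z w : ℂ) (h1 : 1 / 2 ≤ ‖1 + t * z‖) (h2 : 1 / 2 ≤ ‖1 + t * (z + w)‖) :
    ‖(z + w) / (1 + t * (z + w)) - z / (1 + t * z)‖ ≤ 4 * ‖w‖ := by
  have n1 := ne_zero_of_half h1
  have n2 := ne_zero_of_half h2
  have e : (z + w) / (1 + t * (z + w)) - z / (1 + t * z) =
      w / ((1 + t * z) * (1 + t * (z + w))) := by
    clear h1 h2
    obtain ⟨D, hD⟩ : ∃ D : ℂ, D = 1 + t * z := ⟨_, rfl⟩
    obtain ⟨G, hG⟩ : ∃ G : ℂ, G = 1 + t * (z + w) := ⟨_, rfl⟩
    rw [← hD] at n1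
    rw [← hG] at n2
    rw [← hD, ← hG]
    field_simp
    rw [hD, hG]
    ring
  rw [e, norm_div, norm_mul]
  have h3 : (1 : ℝ) / 4 ≤ ‖1 + t * z‖ * ‖1 + t * (z + w)‖ := by nlinarith
  rw [div_le_iff₀ (by linarith)]
  have h6 : 0 ≤ ‖w‖ := norm_nonneg _
  nlinarith

lemma exp0 (t z w : ℂ) (h1 : 1 / 2 ≤ ‖1 + t * z‖) : ‖w / (1 + t * z)‖ ≤ 2 * ‖w‖ := by
  rw [norm_div, div_le_iff₀ (by linarith)]
  have h6 : 0 ≤ ‖w‖ := norm_nonneg _
  nlinarith

/-- **Local integrability.** -/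
theorem frob (x : J → E →L[ℂ] ℂ) (a : J → A) (ε : ℝ)
    (hx : ∀ u ∈ Metric.ball (0 : E) ε, ∀ j, ‖x j u‖ ≤ 1 / 2)
    (hcomm : ∀ u ∈ Metric.ball (0 : E) ε, ∀ y l,
      bb x a 1 u y * bb x a 1 u l = bb x a 1 u l * bb x a 1 u y)
    (X : E → ℂ → A) (hX0 : ∀ u ∈ Metric.ball (0 : E) ε, X u 0 = 1)
    (hX : ∀ u ∈ Metric.ball (0 : E) ε, ∀ s ∈ Metric.ball (0 : ℂ) (3 / 2),
      HasDerivAt (X u) (bb x a s u u * X u s) s)
    (u : E) (hu : u ∈ Metric.ball (0 : E) ε) :
    ∃ C : ℝ, ∀ h : E, u + h ∈ Metric.ball (0 : E) ε →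
      ‖X (u + h) 1 - X u 1 - bb x a 1 u h * X u 1‖ ≤ C * ‖h‖ ^ 2 := by
  set A0 : ℝ := ∑ j, ‖a j‖ with hA0
  have hA0n : 0 ≤ A0 := Finset.sum_nonneg fun j _ => norm_nonneg _
  set ρ : ℝ := ∑ j, ‖x j‖ with hρ
  have hρn : 0 ≤ ρ := Finset.sum_nonneg fun j _ => norm_nonneg _
  have hxj : ∀ j (h : E), ‖x j h‖ ≤ ρ * ‖h‖ := fun j h =>
    ((x j).le_opNorm h).trans (mul_le_mul_of_nonneg_right
      (Finset.single_le_sum (f := fun j => ‖x j‖) (fun i _ => norm_nonneg _) (Finset.mem_univ j))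
      (norm_nonneg _))
  -- the solution at `u` is bounded on the interval
  have hmem : ∀ t ∈ Icc (0 : ℝ) 1, (t : ℂ) ∈ Metric.ball (0 : ℂ) (3 / 2) := by
    intro t ht
    rw [mem_ball_zero_iff, Complex.norm_real, Real.norm_of_nonneg ht.1]
    linarith [ht.2]
  have hcont : ∀ v ∈ Metric.ball (0 : E) ε, ContinuousOn (fun t : ℝ => X v t) (Icc 0 1) := by
    intro v hv t ht
    exact ((hX v hv t (hmem t ht)).continuousAt.comp
      Complex.continuous_ofReal.continuousAt).continuousWithinAt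
  obtain ⟨M, hM⟩ := isCompact_Icc.exists_bound_of_continuousOn (hcont u hu)
  have hMn : 0 ≤ M := (norm_nonneg _).trans (hM 0 ⟨le_refl _, zero_le_one⟩)
  set C0 : ℝ := (8 * ρ ^ 2 * A0 + 4 * ρ * A0 * (2 * ρ * A0)) * M with hC0
  refine ⟨C0 / (A0 + 1) * (Real.exp ((A0 + 1) * (1 - 0)) - 1), fun h hh => ?_⟩
  -- the difference of the two approximate solutions
  set f : ℝ → A := fun t => X (u + h) t - X u t - (t : ℂ) • (bb x a t u h * X u t) with hf
  set f' : ℝ → A := fun t => bb x a t (u + h) (u + h) * X (u + h) t - bb x a t u u * X u t -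
    (bb x a t u h * X u t + (t : ℂ) • (bd x a t u h * X u t +
      bb x a t u h * (bb x a t u u * X u t))) with hf'
  have hnorm : ∀ t ∈ Icc (0 : ℝ) 1, ‖(t : ℂ)‖ ≤ 1 := by
    intro t ht
    rw [Complex.norm_real, Real.norm_of_nonneg ht.1]
    exact ht.2
  have hD : ∀ v ∈ Metric.ball (0 : E) ε, ∀ t ∈ Icc (0 : ℝ) 1, ∀ j,
      1 / 2 ≤ ‖1 + (t : ℂ) * x j v‖ := fun v hv t ht j => half_le _ _ (hnorm t ht) (hx v hv j)
  have hder : ∀ t ∈ Icc (0 : ℝ) 1, HasDerivAt f (f' t) t := by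
    intro t ht
    have h1 := hX (u + h) hh t (hmem t ht)
    have h2 := hX u hu t (hmem t ht)
    have h3 := bb_deriv x a t u h fun j => ne_zero_of_half (hD u hu t ht j)
    have h4 : HasDerivAt (fun s : ℂ => s • (bb x a s u h * X u s))
        ((t : ℂ) • (bd x a t u h * X u t + bb x a t u h * (bb x a t u u * X u t)) +
          (1 : ℂ) • (bb x a t u h * X u t)) (t : ℂ) :=
      (hasDerivAt_id (t : ℂ)).smul (h3.mul h2)
    have h5 := ((h1.sub h2).sub h4).scomp t Complex.ofRealCLM.hasDerivAt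
    have e : (Complex.ofRealCLM 1 : ℂ) • (bb x a t (u + h) (u + h) * X (u + h) t -
        bb x a t u u * X u t - ((t : ℂ) • (bd x a t u h * X u t +
          bb x a t u h * (bb x a t u u * X u t)) + (1 : ℂ) • (bb x a t u h * X u t))) = f' t := by
      rw [hf', Complex.ofRealCLM_apply, Complex.ofReal_one, one_smul, one_smul]
      abel_nf
    rw [← e]
    exact h5
  have hb : ∀ t ∈ Icc (0 : ℝ) 1, ‖f' t‖ ≤ (A0 + 1) * ‖f t‖ + C0 * ‖h‖ ^ 2 := by
    intro t ht
    have htn := hnorm t ht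
    -- commutation at `t u`
    have hc : bb x a t u h * bb x a t u u = bb x a t u u * bb x a t u h := by
      have hm : (t : ℂ) • u ∈ Metric.ball (0 : E) ε := by
        rw [mem_ball_zero_iff] at hu ⊢
        rw [norm_smul]
        calc ‖(t : ℂ)‖ * ‖u‖ ≤ 1 * ‖u‖ := mul_le_mul_of_nonneg_right htn (norm_nonneg _)
          _ = ‖u‖ := one_mul _
          _ < ε := hu
      have e : ∀ y, bb x a t u y = bb x a 1 ((t : ℂ) • u) y := by
        intro y
        unfold bb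
        refine Finset.sum_congr rfl fun j _ => ?_
        rw [map_smul, smul_eq_mul, one_mul]
      rw [e, e]
      exact hcomm _ hm _ _
    have hk : f' t = bb x a t (u + h) (u + h) * f t +
        ((bb x a t (u + h) (u + h) - bb x a t u u - bb x a t u h - (t : ℂ) • bd x a t u h) *
          X u t + (t : ℂ) • ((bb x a t (u + h) (u + h) - bb x a t u u) * bb x a t u h * X u t)) := by
      have hc' : bb x a t u h * (bb x a t u u * X u t) = bb x a t u u * bb x a t u h * X u t := by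
        rw [← mul_assoc, hc]
      simp only [hf, hf']
      rw [hc']
      simp only [mul_sub, sub_mul, smul_add, smul_sub, mul_smul_comm, smul_mul_assoc, mul_assoc]
      abel_nf
    have hB1 : ‖bb x a t (u + h) (u + h)‖ ≤ 1 * A0 := by
      refine norm_sum_smul_le _ _ _ fun j => ?_
      have := exp0 (t : ℂ) (x j (u + h)) (x j (u + h)) (hD _ hh t ht j)
      have h2 := hx _ hh j
      linarith
    have hB2 : ‖bb x a t (u + h) (u + h) - bb x a t u u - bb x a t u h -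
        (t : ℂ) • bd x a t u h‖ ≤ 8 * (ρ * ‖h‖) ^ 2 * A0 := by
      have e : bb x a t (u + h) (u + h) - bb x a t u u - bb x a t u h - (t : ℂ) • bd x a t u h =
          ∑ j, ((x j u + x j h) / (1 + (t : ℂ) * (x j u + x j h)) - x j u / (1 + (t : ℂ) * x j u) -
            x j h / (1 + (t : ℂ) * x j u) - (t : ℂ) * (-(x j h * x j u) /
              (1 + (t : ℂ) * x j u) ^ 2)) • a j := by
        unfold bb bd
        rw [Finset.smul_sum, ← Finset.sum_sub_distrib, ← Finset.sum_sub_distrib,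
          ← Finset.sum_sub_distrib]
        refine Finset.sum_congr rfl fun j _ => ?_
        rw [map_add, smul_smul, sub_smul, sub_smul, sub_smul]
      rw [e]
      refine norm_sum_smul_le _ _ _ fun j => ?_
      have h2 := hD _ hh t ht j
      rw [map_add] at h2
      refine (exp2 _ _ _ htn (hD _ hu t ht j) h2).trans ?_
      have h3 := hxj j h
      have h4 : ‖x j h‖ ^ 2 ≤ (ρ * ‖h‖) ^ 2 := pow_le_pow_left₀ (norm_nonneg _) h3 2
      linarith
    have hB3 : ‖bb x a t (u + h) (u + h) - bb x a t u u‖ ≤ 4 * (ρ * ‖h‖) * A0 := by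
      have e : bb x a t (u + h) (u + h) - bb x a t u u =
          ∑ j, ((x j u + x j h) / (1 + (t : ℂ) * (x j u + x j h)) -
            x j u / (1 + (t : ℂ) * x j u)) • a j := by
        unfold bb
        rw [← Finset.sum_sub_distrib]
        refine Finset.sum_congr rfl fun j _ => ?_
        rw [map_add, sub_smul]
      rw [e]
      refine norm_sum_smul_le _ _ _ fun j => ?_
      have h2 := hD _ hh t ht j
      rw [map_add] at h2
      refine (exp1 _ _ _ (hD _ hu t ht j) h2).trans ?_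
      have h3 := hxj j h
      linarith
    have hB4 : ‖bb x a t u h‖ ≤ 2 * (ρ * ‖h‖) * A0 := by
      refine norm_sum_smul_le _ _ _ fun j => ?_
      refine (exp0 _ _ _ (hD _ hu t ht j)).trans ?_
      have h3 := hxj j h
      linarith
    have hMt := hM t ht
    have h1 : ‖bb x a t (u + h) (u + h) * f t‖ ≤ A0 * ‖f t‖ := by
      refine (norm_mul_le _ _).trans ?_
      rw [one_mul] at hB1
      exact mul_le_mul_of_nonneg_right hB1 (norm_nonneg _)
    have h2 : ‖(bb x a t (u + h) (u + h) - bb x a t u u - bb x a t u h - (t : ℂ) • bd x a t u h) *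
        X u t‖ ≤ 8 * (ρ * ‖h‖) ^ 2 * A0 * M := by
      refine (norm_mul_le _ _).trans ?_
      exact mul_le_mul hB2 hMt (norm_nonneg _) (by positivity)
    have h3 : ‖(t : ℂ) • ((bb x a t (u + h) (u + h) - bb x a t u u) * bb x a t u h * X u t)‖ ≤
        4 * (ρ * ‖h‖) * A0 * (2 * (ρ * ‖h‖) * A0) * M := by
      rw [norm_smul]
      have h4 : ‖(bb x a t (u + h) (u + h) - bb x a t u u) * bb x a t u h * X u t‖ ≤
          4 * (ρ * ‖h‖) * A0 * (2 * (ρ * ‖h‖) * A0) * M := by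
        refine (norm_mul_le _ _).trans ?_
        refine mul_le_mul ((norm_mul_le _ _).trans ?_) hMt (norm_nonneg _) (by positivity)
        exact mul_le_mul hB3 hB4 (norm_nonneg _) (by positivity)
      calc _ ≤ 1 * _ := mul_le_mul htn h4 (norm_nonneg _) zero_le_one
        _ = _ := one_mul _
    rw [hk]
    refine (norm_add_le _ _).trans ?_
    refine (add_le_add h1 ((norm_add_le _ _).trans (add_le_add h2 h3))).trans ?_
    have e : 8 * (ρ * ‖h‖) ^ 2 * A0 * M + 4 * (ρ * ‖h‖) * A0 * (2 * (ρ * ‖h‖) * A0) * M =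
        C0 * ‖h‖ ^ 2 := by
      rw [hC0]; ring
    rw [e]
    have h5 : 0 ≤ ‖f t‖ := norm_nonneg _
    linarith
  have hf0 : ‖f 0‖ ≤ 0 := by
    simp only [hf]
    rw [Complex.ofReal_zero, hX0 _ hh, hX0 _ hu]
    simp
  have hG := norm_le_gronwallBound_of_norm_deriv_right_le (f := f) (f' := f') (δ := 0)
    (K := A0 + 1) (ε := C0 * ‖h‖ ^ 2) (a := 0) (b := 1)
    (fun t ht => (hder t ht).continuousAt.continuousWithinAt)
    (fun t ht => (hder t ⟨ht.1, ht.2.le⟩).hasDerivWithinAt) hf0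
    (fun t ht => hb t ⟨ht.1, ht.2.le⟩) 1 ⟨zero_le_one, le_refl _⟩
  rw [gronwallBound_of_K_ne_0 (by linarith : A0 + 1 ≠ 0)] at hG
  simp only [hf, Complex.ofReal_one, one_smul] at hG
  refine hG.trans (le_of_eq ?_)
  ring

end FrobX

end

end Pool.Agent.CMFn
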