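import Pool.Agent.CMF.BaireA
import Pool.Agent.CMF.ODE1
import Pool.Agent.CMF.ODE2
import Pool.Agent.CMFn.DunA
import Pool.Agent.CMFn.DunB
import Pool.Agent.CMFn.FrameA
import Pool.Agent.CMFn.Flat
import Pool.Agent.CMFn.Frob

/-!
Project CMF, every rank, module FrameB: local horizontal frames of the KZ connection.  The frame
is the solution along the rays through the base point.
-/

set_option linter.unusedSectionVars false

namespace Pool.Agent.CMFn

open Pool.Agent.CMF (LineHol LineHol.const LineHol.sum LineHol.mul LineHol.add LineHol.clm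
  exists_ode_param ode_unique)

open Matrix

noncomputable section

variable {r : ℕ} {N : SG r} [Fintype N] {ι : Type} [Fintype ι] [DecidableEq ι]

namespace FrameBX

/-- The linear form `y ↦ a · y`, divided by `c`. -/
def dotL (a : Fin r → ℂ) (c : ℂ) : (Fin r → ℂ) →L[ℂ] ℂ :=
  ∑ i, (c⁻¹ * a i) • ContinuousLinearMap.proj (R := ℂ) (φ := fun _ : Fin r => ℂ) i

lemma dotL_apply (a : Fin r → ℂ) (c : ℂ) (y : Fin r → ℂ) : dotL a c y = (a ⬝ᵥ y) / c := by
  unfold dotL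
  rw [_root_.sum_apply]
  simp only [_root_.smul_apply, ContinuousLinearMap.proj_apply, smul_eq_mul]
  rw [dotProduct, div_eq_inv_mul, Finset.mul_sum]
  exact Finset.sum_congr rfl fun i _ => by ring

open Classical in
/-- The normalised linear forms. -/
def xJ (v : Fin r → ℂ) : (N ⊕ Arr N) → (Fin r → ℂ) →L[ℂ] ℂ
  | Sum.inl g => if IsRefl g.1 then dotL (lf (fixL g.1)) (lf (fixL g.1) ⬝ᵥ v) else 0
  | Sum.inr H => dotL (lf H.1) (lf H.1 ⬝ᵥ v)

/-- The coefficient matrices. -/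
def aJ (ρ : N →* Matrix ι ι ℂ) : (N ⊕ Arr N) → (Idx N → ℂ) → Matrix ι ι ℂ
  | Sum.inl g => fun k => cr k g • ρ g
  | Sum.inr H => fun k => cs k H • (1 : Matrix ι ι ℂ)

lemma cr_zero (k : Idx N → ℂ) (g : N) (h : ¬ IsRefl g.1) : cr k g = 0 := by
  unfold cr
  rw [dif_neg h]

lemma refl_arr (g : N) (h : IsRefl g.1) : ∃ H : Arr N, H.1 = fixL g.1 :=
  ⟨⟨fixL g.1, g.1, g.2, h, rfl⟩, rfl⟩

lemma rat_eq (a v u y : Fin r → ℂ) (hv : a ⬝ᵥ v ≠ 0) :
    (a ⬝ᵥ y) / (a ⬝ᵥ (v + u)) = dotL a (a ⬝ᵥ v) y / (1 + 1 * dotL a (a ⬝ᵥ v) u) := by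
  rw [dotL_apply, dotL_apply, dotProduct_add, one_mul, div_div, mul_add, mul_one,
    mul_div_cancel₀ _ hv]

/-- The KZ form near a regular vector. -/
lemma om_eq (ρ : N →* Matrix ι ι ℂ) (k : Idx N → ℂ) (v : VReg N) (u y : Fin r → ℂ) :
    om ρ k (v.1 + u) y = FrobX.bb (xJ (N := N) v.1) (fun x => aJ ρ x k) 1 u y := by
  have hreg : ∀ H : Arr N, lf H.1 ⬝ᵥ v.1 ≠ 0 := (vreg_iff v.1).1 v.2
  unfold om gau FrobX.bb
  rw [Fintype.sum_sum_type, Finset.sum_smul]
  congr 1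
  · refine Finset.sum_congr rfl fun g _ => ?_
    by_cases hg : IsRefl g.1
    · obtain ⟨H, hH⟩ := refl_arr g hg
      simp only [xJ, aJ, if_pos hg]
      unfold rat
      rw [rat_eq _ v.1 u y (by rw [← hH]; exact hreg H), smul_smul, mul_comm]
    · simp only [xJ, aJ, if_neg hg, cr_zero k g hg, zero_mul, zero_smul, smul_zero]
  · refine Finset.sum_congr rfl fun H _ => ?_
    simp only [xJ, aJ]
    unfold rat
    rw [rat_eq _ v.1 u y (hreg H), smul_smul, mul_comm]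

lemma lh_coord (x : Idx N) : LineHol (fun k : Idx N → ℂ => k x) :=
  LineHol.clm (ContinuousLinearMap.proj (R := ℂ) (φ := fun _ : Idx N => ℂ) x)

lemma lh_cf (H : Arr N) (g : GL (Fin r) ℂ) : LineHol (fun k : Idx N → ℂ => cf k H g) := by
  unfold cf
  exact LineHol.sum _ fun j _ => LineHol.mul (lh_coord _) (LineHol.const _)

lemma lh_cr (g : N) : LineHol (fun k : Idx N → ℂ => cr k g) := by
  by_cases hg : IsRefl g.1
  · have e : (fun k : Idx N → ℂ => cr k g) = fun k => cf k ⟨fixL g.1, g.1, g.2, hg, rfl⟩ g.1 := by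
      funext k
      unfold cr
      rw [dif_pos hg]
    rw [e]
    exact lh_cf _ _
  · have e : (fun k : Idx N → ℂ => cr k g) = fun _ => 0 := by
      funext k
      exact cr_zero k g hg
    rw [e]
    exact LineHol.const _

lemma lh_cs (H : Arr N) : LineHol (fun k : Idx N → ℂ => cs k H) := by
  unfold cs
  exact LineHol.sum _ fun j _ => lh_coord _

lemma lh_aJ (ρ : N →* Matrix ι ι ℂ) (x : N ⊕ Arr N) (p q : ι) : LineHol (fun k => aJ ρ x k p q) := by
  cases x with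
  | inl g => exact LineHol.mul (lh_cr g) (LineHol.const (ρ g p q))
  | inr H => exact LineHol.mul (lh_cs H) (LineHol.const ((1 : Matrix ι ι ℂ) p q))

section Mat

attribute [local instance] Matrix.linftyOpNormedRing Matrix.linftyOpNormedAlgebra

lemma norm_entry_le (M : Matrix ι ι ℂ) (p q : ι) : ‖M p q‖ ≤ ‖M‖ := by
  rw [Matrix.linfty_opNorm_def]
  have h1 : ‖M p q‖₊ ≤ ∑ j, ‖M p j‖₊ :=
    Finset.single_le_sum (f := fun j => ‖M p j‖₊) (fun _ _ => zero_le) (Finset.mem_univ q)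
  have h2 : ∑ j, ‖M p j‖₊ ≤ Finset.univ.sup fun i => ∑ j, ‖M i j‖₊ :=
    Finset.le_sup (f := fun i => ∑ j, ‖M i j‖₊) (Finset.mem_univ p)
  exact_mod_cast h1.trans h2

lemma hasDerivAt_mat {f : ℂ → Matrix ι ι ℂ} {f' : Matrix ι ι ℂ} {z : ℂ}
    (h : ∀ p q, HasDerivAt (fun z => f z p q) (f' p q) z) : HasDerivAt f f' z := by
  have h1 : HasDerivAt (fun z => ∑ p, ∑ q, f z p q • Matrix.single p q (1 : ℂ))
      (∑ p, ∑ q, f' p q • Matrix.single p q (1 : ℂ)) z :=
    HasDerivAt.fun_sum fun p _ => HasDerivAt.fun_sum fun q _ => (h p q).smul_const _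
  have e : ∀ M : Matrix ι ι ℂ, ∑ p, ∑ q, M p q • Matrix.single p q (1 : ℂ) = M := by
    intro M
    conv_rhs => rw [Matrix.matrix_eq_sum_single M]
    refine Finset.sum_congr rfl fun i _ => Finset.sum_congr rfl fun j _ => ?_
    rw [Matrix.smul_single, smul_eq_mul, mul_one]
  simp only [e] at h1
  exact h1

/-- Matrix version of the local integrability theorem. -/
theorem frob_mat {E : Type} [NormedAddCommGroup E] [NormedSpace ℂ E] {J : Type} [Fintype J]
    (x : J → E →L[ℂ] ℂ) (a : J → Matrix ι ι ℂ) (ε : ℝ)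
    (hx : ∀ u ∈ Metric.ball (0 : E) ε, ∀ j, ‖x j u‖ ≤ 1 / 2)
    (hcomm : ∀ u ∈ Metric.ball (0 : E) ε, ∀ y l,
      FrobX.bb x a 1 u y * FrobX.bb x a 1 u l = FrobX.bb x a 1 u l * FrobX.bb x a 1 u y)
    (X : E → ℂ → Matrix ι ι ℂ) (hX0 : ∀ u ∈ Metric.ball (0 : E) ε, X u 0 = 1)
    (hX : ∀ u ∈ Metric.ball (0 : E) ε, ∀ s ∈ Metric.ball (0 : ℂ) (3 / 2), ∀ p q,
      HasDerivAt (fun s => X u s p q) ((FrobX.bb x a s u u * X u s) p q) s)
    (u : E) (hu : u ∈ Metric.ball (0 : E) ε) (p q : ι) :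
    ∃ L : E →L[ℂ] ℂ, HasFDerivAt (fun u => X u 1 p q) L u ∧
      ∀ y, L y = (FrobX.bb x a 1 u y * X u 1) p q := by
  obtain ⟨C, hC⟩ := FrobX.frob x a ε hx hcomm X hX0
    (fun u hu s hs => hasDerivAt_mat (hX u hu s hs)) u hu
  set L : E →L[ℂ] ℂ := ∑ j, ((1 + 1 * x j u)⁻¹ * (a j * X u 1) p q) • x j with hL
  have hLy : ∀ y, L y = (FrobX.bb x a 1 u y * X u 1) p q := by
    intro y
    rw [hL, _root_.sum_apply]
    unfold FrobX.bb
    rw [Finset.sum_mul, Matrix.sum_apply]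
    refine Finset.sum_congr rfl fun j _ => ?_
    rw [_root_.smul_apply, smul_mul_assoc, Matrix.smul_apply, smul_eq_mul, smul_eq_mul]
    ring
  refine ⟨L, ?_, hLy⟩
  rw [hasFDerivAt_iff_isLittleO_nhds_zero]
  have hO : (fun h : E => X (u + h) 1 p q - X u 1 p q - L h) =O[nhds 0] fun h : E => ‖h‖ ^ 2 := by
    refine Asymptotics.IsBigO.of_bound C ?_
    have hc : ContinuousAt (fun h : E => u + h) 0 := by fun_prop
    have hev : ∀ᶠ h in nhds (0 : E), u + h ∈ Metric.ball (0 : E) ε :=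
      hc.eventually_mem (Metric.isOpen_ball.mem_nhds (by rw [add_zero]; exact hu))
    filter_upwards [hev] with h hh
    have h1 := hC h hh
    have h2 := norm_entry_le (X (u + h) 1 - X u 1 - FrobX.bb x a 1 u h * X u 1) p q
    rw [Matrix.sub_apply, Matrix.sub_apply, ← hLy] at h2
    rw [norm_pow, norm_norm]
    exact h2.trans h1
  exact hO.trans_isLittleO (Asymptotics.isLittleO_norm_pow_id one_lt_two)

end Mat

end FrameBX

open FrameBX

/-- Local horizontal frames. -/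
theorem exists_frame (hN : ∃ s ∈ N, IsRefl s) (ρ : N →* Matrix ι ι ℂ) (v : VReg N) :
    ∃ (ε : ℝ) (F : (Idx N → ℂ) → (Fin r → ℂ) → Matrix ι ι ℂ), 0 < ε ∧
      (∀ w ∈ Metric.ball v.1 ε, ∀ g ∈ N, IsRefl g → g.1 *ᵥ w ≠ w) ∧
      (∀ k, F k v.1 = 1) ∧ (∀ k, Horiz ρ k (Metric.ball v.1 ε) (F k)) ∧
      ∀ w ∈ Metric.ball v.1 ε, ∀ p q,
        LineHol (fun k => F k w p q) ∧ LineHol (fun k => (F k w)⁻¹ p q) := by
  have hreg : ∀ H : Arr N, lf H.1 ⬝ᵥ v.1 ≠ 0 := (vreg_iff v.1).1 v.2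
  -- the ball
  have hev : ∀ᶠ u in nhds (0 : Fin r → ℂ), ∀ x : N ⊕ Arr N, ‖xJ v.1 x u‖ ≤ 1 / 2 := by
    rw [Filter.eventually_all]
    intro x
    have hc : ContinuousAt (fun u => ‖xJ v.1 x u‖) 0 := (xJ v.1 x).continuous.norm.continuousAt
    have h0 : ‖xJ v.1 x 0‖ < 1 / 2 := by
      rw [map_zero, norm_zero]; norm_num
    exact (hc.eventually_lt continuousAt_const h0).mono fun u hu => hu.le
  obtain ⟨ε, hε, hb⟩ := Metric.eventually_nhds_iff_ball.1 hev
  -- solutions along the rays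
  have hex : ∀ u : Fin r → ℂ, ∃ X : (Idx N → ℂ) → ℂ → Matrix ι ι ℂ,
      u ∈ Metric.ball (0 : Fin r → ℂ) ε → (∀ k, X k 0 = 1) ∧
      (∀ k, ∀ z ∈ Metric.ball (0 : ℂ) (3 / 2), ∀ p q, HasDerivAt (fun z => X k z p q)
        (((∑ j, (xJ (N := N) v.1 j u / (1 + z * xJ v.1 j u)) • aJ ρ j k) * X k z) p q) z) ∧
      (∀ k, ∀ z ∈ Metric.ball (0 : ℂ) (3 / 2), IsUnit (X k z)) ∧
      (∀ z ∈ Metric.ball (0 : ℂ) (3 / 2), ∀ p q, LineHol (fun k => X k z p q)) ∧
      (∀ z ∈ Metric.ball (0 : ℂ) (3 / 2), ∀ p q, LineHol (fun k => (X k z)⁻¹ p q)) := by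
    intro u
    by_cases hu : u ∈ Metric.ball (0 : Fin r → ℂ) ε
    · obtain ⟨X, hX⟩ := exists_ode_param (P := Idx N → ℂ) (J := N ⊕ Arr N) (n := ι)
        (Metric.ball (0 : ℂ) (3 / 2)) Metric.isOpen_ball (convex_ball _ _) 0
        (Metric.mem_ball_self (by norm_num)) (fun j z => xJ v.1 j u / (1 + z * xJ v.1 j u))
        (fun j => by
          refine DifferentiableOn.div (differentiableOn_const _) (by fun_prop) ?_
          intro z hz h0
          have h1 := hb u hu j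
          have h2 : ‖z * xJ v.1 j u‖ < 1 := by
            rw [norm_mul]
            rw [mem_ball_zero_iff] at hz
            have := norm_nonneg (xJ v.1 j u)
            nlinarith [norm_nonneg z]
          have h3 : z * xJ v.1 j u = -1 := by linear_combination h0
          rw [h3, norm_neg, norm_one] at h2
          exact lt_irrefl _ h2) (aJ ρ) (fun x p q => lh_aJ ρ x p q)
      exact ⟨X, fun _ => hX⟩
    · exact ⟨fun _ _ => 1, fun h => absurd h hu⟩
  choose X hX using hex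
  have hmem : ∀ w ∈ Metric.ball v.1 ε, w - v.1 ∈ Metric.ball (0 : Fin r → ℂ) ε := by
    intro w hw
    rw [mem_ball_zero_iff]
    rwa [mem_ball_iff_norm] at hw
  have h1mem : (1 : ℂ) ∈ Metric.ball (0 : ℂ) (3 / 2) := by
    rw [mem_ball_zero_iff, norm_one]; norm_num
  have h0mem : (0 : ℂ) ∈ Metric.ball (0 : ℂ) (3 / 2) := Metric.mem_ball_self (by norm_num)
  -- the vectors of the ball are regular
  have hregb : ∀ w ∈ Metric.ball v.1 ε, ∀ g ∈ N, IsRefl g → g.1 *ᵥ w ≠ w := by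
    intro w hw
    refine (vreg_iff w).2 fun H h0 => ?_
    have h1 := hb _ (hmem w hw) (Sum.inr H)
    have h2 : xJ v.1 (Sum.inr H : N ⊕ Arr N) (w - v.1) = -1 := by
      simp only [xJ]
      rw [dotL_apply, dotProduct_sub, h0, zero_sub, neg_div, div_self (hreg H)]
    rw [h2, norm_neg, norm_one] at h1
    norm_num at h1
  refine ⟨ε, fun k w => X (w - v.1) k 1, hε, hregb, ?_, ?_, ?_⟩
  · intro k
    show X (v.1 - v.1) k 1 = 1
    rw [sub_self]
    obtain ⟨h0, hd, hu, -, -⟩ := hX 0 (Metric.mem_ball_self hε)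
    have h2 := ode_unique (Metric.ball (0 : ℂ) (3 / 2)) Metric.isOpen_ball (convex_ball _ _)
      (fun z => ∑ j, (xJ (N := N) v.1 j 0 / (1 + z * xJ v.1 j 0)) • aJ ρ j k) (X 0 k)
      (fun _ => 1) (fun z hz p q => hd k z hz p q)
      (fun z hz p q => by
        have e : (∑ j, (xJ (N := N) v.1 j 0 / (1 + z * xJ v.1 j 0)) • aJ ρ j k) = 0 :=
          Finset.sum_eq_zero fun j _ => by rw [map_zero, zero_div, zero_smul]
        show HasDerivAt (fun _ => (1 : Matrix ι ι ℂ) p q)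
          (((∑ j, (xJ (N := N) v.1 j 0 / (1 + z * xJ v.1 j 0)) • aJ ρ j k) *
            (1 : Matrix ι ι ℂ)) p q) z
        rw [e, Matrix.zero_mul]
        exact hasDerivAt_const z _) (fun z hz => hu k z hz) 1 h1mem 0 h0mem
    simp only [Matrix.mul_one, h0, inv_one] at h2
    have h3 : IsUnit (X 0 k 1).det := (Matrix.isUnit_iff_isUnit_det _).1 (hu k 1 h1mem)
    calc X 0 k 1 = X 0 k 1 * (X 0 k 1)⁻¹ := by rw [h2, Matrix.mul_one]
      _ = 1 := Matrix.mul_nonsing_inv _ h3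
  · intro k w hw
    have hu := hmem w hw
    obtain ⟨h0, hd, hun, -, -⟩ := hX _ hu
    refine ⟨hun k 1 h1mem, fun p q => ?_⟩
    obtain ⟨L, hL, hLy⟩ := frob_mat (xJ (N := N) v.1) (fun x => aJ ρ x k) ε (fun u hu j => hb u hu j)
      (fun u hu y l => by
        have hw' : v.1 + u ∈ Metric.ball v.1 ε := by
          rw [mem_ball_iff_norm, add_sub_cancel_left]
          rwa [mem_ball_zero_iff] at hu
        have h2 := om_comm ρ k (⟨v.1 + u, hregb _ hw'⟩ : VReg N) y l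
        rw [om_eq, om_eq] at h2
        exact h2)
      (fun u => X u k) (fun u hu => (hX u hu).1 k)
      (fun u hu s hs p q => (hX u hu).2.1 k s hs p q) (w - v.1) hu p q
    have hd2 : HasFDerivAt (fun w => X (w - v.1) k 1 p q)
        (L.comp (ContinuousLinearMap.id ℂ (Fin r → ℂ))) w :=
      HasFDerivAt.comp (g := fun u => X u k 1 p q) (f := fun w => w - v.1) w hL
        ((hasFDerivAt_id w).sub_const v.1)
    refine ⟨hd2.differentiableAt, fun y => ?_⟩
    rw [hd2.fderiv]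
    have e : w = v.1 + (w - v.1) := by abel
    have e2 : om ρ k w y = FrobX.bb (xJ (N := N) v.1) (fun x => aJ ρ x k) 1 (w - v.1) y := by
      conv_lhs => rw [e]
      exact om_eq ρ k v (w - v.1) y
    rw [e2]
    exact hLy y
  · intro w hw p q
    obtain ⟨-, -, -, hL, hL'⟩ := hX _ (hmem w hw)
    exact ⟨hL 1 h1mem p q, hL' 1 h1mem p q⟩

end

end Pool.Agent.CMFn
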