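import Pool.Agent.CMF.Top
import Pool.Agent.CMF.BaireA
import Pool.Agent.CMFn.DunB
import Pool.Agent.CMFn.FrameA
import Pool.Agent.CMFn.FrameB

/-! CMFn-PP: parallel transport of the KZ connection. -/

namespace Pool.Agent.CMFn

open Pool.Agent.CMF (LineHol LocSys)

open Matrix

noncomputable section

variable {r : ℕ} {N : SG r} [Fintype N] {ι : Type} [Fintype ι] [DecidableEq ι]

namespace PPX

omit [Fintype N] in
theorem val_continuous : Continuous (fun v : VReg N => v.1) := continuous_subtype_val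

/-- A matrix as a unit (`1` if it is not invertible). -/
def toU (M : Matrix ι ι ℂ) : (Matrix ι ι ℂ)ˣ :=
  open Classical in if h : IsUnit M then h.unit else 1

theorem toU_val {M : Matrix ι ι ℂ} (h : IsUnit M) : (toU M).1 = M := by
  unfold toU
  rw [dif_pos h]
  exact h.unit_spec

theorem toU_unit (u : (Matrix ι ι ℂ)ˣ) : toU u.1 = u := Units.ext (toU_val u.isUnit)

theorem inv_val (u : (Matrix ι ι ℂ)ˣ) : (u⁻¹).1 = (u.1)⁻¹ := Matrix.coe_units_inv u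

/-- Frames at a fixed parameter, on convex open sets. -/
structure Fr (ρ : N →* Matrix ι ι ℂ) (k : Idx N → ℂ) where
  U : Set (Fin r → ℂ)
  F : (Fin r → ℂ) → Matrix ι ι ℂ
  op : IsOpen U
  cv : Convex ℝ U
  hz : Horiz ρ k U F

theorem Horiz.mono {ρ : N →* Matrix ι ι ℂ} {k : Idx N → ℂ} {U V : Set (Fin r → ℂ)}
    {F : (Fin r → ℂ) → Matrix ι ι ℂ} (h : Horiz ρ k U F) (hV : V ⊆ U) : Horiz ρ k V F :=
  fun v hv => h v (hV hv)

theorem Fr.unit {ρ : N →* Matrix ι ι ℂ} {k : Idx N → ℂ} (i : Fr ρ k) {v : Fin r → ℂ}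
    (hv : v ∈ i.U) : (toU (i.F v)).1 = i.F v := toU_val (i.hz v hv).1

/-- Comparison of two frames (units). -/
theorem compat_aux {ρ : N →* Matrix ι ι ℂ} {k : Idx N → ℂ} {U V : Set (Fin r → ℂ)}
    {F G : (Fin r → ℂ) → Matrix ι ι ℂ} (hU : IsOpen U) (hcU : Convex ℝ U) (hV : IsOpen V)
    (hcV : Convex ℝ V) (hF : Horiz ρ k U F) (hG : Horiz ρ k V G) (x y : Fin r → ℂ)
    (hx : x ∈ U) (hx' : x ∈ V) (hy : y ∈ U) (hy' : y ∈ V) :
    toU (F y) * (toU (F x))⁻¹ = toU (G y) * (toU (G x))⁻¹ := by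
  have h := horiz_unique ρ k (U ∩ V) (hU.inter hV) (hcU.inter hcV) F G
    (Horiz.mono hF Set.inter_subset_left)
    (fun v hv => fun p q => (hG v hv.2).2 p q) x ⟨hx, hx'⟩ y ⟨hy, hy'⟩
  have h2 : (toU (F x))⁻¹ * toU (G x) = (toU (F y))⁻¹ * toU (G y) := by
    apply Units.ext
    rw [Units.val_mul, Units.val_mul, inv_val, inv_val, toU_val (hF x hx).1,
      toU_val (hG x hx').1, toU_val (hF y hy).1, toU_val (hG y hy').1]
    exact h
  calc toU (F y) * (toU (F x))⁻¹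
      = toU (F y) * ((toU (F x))⁻¹ * toU (G x)) * (toU (G x))⁻¹ := by group
    _ = toU (F y) * ((toU (F y))⁻¹ * toU (G y)) * (toU (G x))⁻¹ := by rw [h2]
    _ = toU (G y) * (toU (G x))⁻¹ := by group

/-- The local system at a fixed parameter. -/
def LS (hN : ∃ s ∈ N, IsRefl s) (ρ : N →* Matrix ι ι ℂ) (k : Idx N → ℂ) :
    LocSys (VReg N) (Matrix ι ι ℂ)ˣ where
  ι := Fr ρ k
  U i := {x | x.1 ∈ i.U}
  F i x := toU (i.F x.1)
  isOpen i := i.op.preimage val_continuous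
  cover x := by
    obtain ⟨r, F, hr, -, -, hz, -⟩ := exists_frame hN ρ x
    exact ⟨⟨Metric.ball x.1 r, F k, Metric.isOpen_ball, convex_ball _ _, hz k⟩,
      Metric.mem_ball_self hr⟩
  compat i j x y hxi hxj hyi hyj :=
    compat_aux i.op i.cv j.op j.cv i.hz j.hz x.1 y.1 hxi hxj hyi hyj

/-- Frames with parameters. -/
structure FrP (ρ : N →* Matrix ι ι ℂ) where
  U : Set (Fin r → ℂ)
  F : (Idx N → ℂ) → (Fin r → ℂ) → Matrix ι ι ℂ
  op : IsOpen U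
  cv : Convex ℝ U
  hz : ∀ k, Horiz ρ k U (F k)
  lh : ∀ w ∈ U, ∀ p q, LineHol (fun k => F k w p q) ∧ LineHol (fun k => (F k w)⁻¹ p q)

/-- The local system over all parameters. -/
def LSP (hN : ∃ s ∈ N, IsRefl s) (ρ : N →* Matrix ι ι ℂ) :
    LocSys (VReg N) ((Idx N → ℂ) → (Matrix ι ι ℂ)ˣ) where
  ι := FrP ρ
  U i := {x | x.1 ∈ i.U}
  F i x := fun k => toU (i.F k x.1)
  isOpen i := i.op.preimage val_continuous
  cover x := by
    obtain ⟨r, F, hr, -, -, hz, hl⟩ := exists_frame hN ρ x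
    exact ⟨⟨Metric.ball x.1 r, F, Metric.isOpen_ball, convex_ball _ _, hz, hl⟩,
      Metric.mem_ball_self hr⟩
  compat i j x y hxi hxj hyi hyj := by
    funext k
    exact compat_aux i.op i.cv j.op j.cv (i.hz k) (j.hz k) x.1 y.1 hxi hxj hyi hyj

/-- Invertible matrix functions with `LineHol` entries. -/
def LHS {r : ℕ} (N : SG r) [Fintype N] (ι : Type) [Fintype ι] [DecidableEq ι] :
    Subgroup ((Idx N → ℂ) → (Matrix ι ι ℂ)ˣ) where
  carrier := {g | ∀ p q, LineHol (fun k => (g k).1 p q) ∧ LineHol (fun k => ((g k)⁻¹).1 p q)}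
  mul_mem' := by
    intro a b ha hb p q
    constructor
    · have h : (fun k => ((a * b) k).1 p q) = fun k => ∑ r, (a k).1 p r * (b k).1 r q := by
        funext k
        rw [Pi.mul_apply, Units.val_mul, Matrix.mul_apply]
      rw [h]
      exact LineHol.sum _ fun r _ => LineHol.mul (ha p r).1 (hb r q).1
    · have h : (fun k => (((a * b) k)⁻¹).1 p q) =
          fun k => ∑ r, ((b k)⁻¹).1 p r * ((a k)⁻¹).1 r q := by
        funext k
        rw [Pi.mul_apply, _root_.mul_inv_rev, Units.val_mul, Matrix.mul_apply]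
      rw [h]
      exact LineHol.sum _ fun r _ => LineHol.mul (hb p r).2 (ha r q).2
  one_mem' := by
    intro p q
    constructor
    · exact LineHol.const _
    · have h : (fun k : Idx N → ℂ => (((1 : (Idx N → ℂ) → (Matrix ι ι ℂ)ˣ) k)⁻¹).1 p q) =
          fun _ => (1 : Matrix ι ι ℂ) p q := by
        funext k
        rw [Pi.one_apply, inv_one, Units.val_one]
      rw [h]
      exact LineHol.const _
  inv_mem' := by
    intro a ha p q
    constructor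
    · exact (ha p q).2
    · have h : (fun k => (((a⁻¹) k)⁻¹).1 p q) = fun k => (a k).1 p q := by
        funext k
        rw [Pi.inv_apply, inv_inv]
      rw [h]
      exact (ha p q).1

/-- Change of coefficients, same space. -/
theorem tr_hom {X Γ Γ' : Type} [TopologicalSpace X] [Group Γ] [Group Γ'] (L : LocSys X Γ)
    (L' : LocSys X Γ') (θ : Γ →* Γ')
    (h : ∀ i, ∃ j, (∀ y ∈ L.U i, y ∈ L'.U j) ∧
      ∀ y ∈ L.U i, ∀ z ∈ L.U i, L'.F j z * (L'.F j y)⁻¹ = θ (L.F i z * (L.F i y)⁻¹))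
    (γ : C(unitInterval, X)) : L'.tr γ = θ (L.tr γ) := by
  have := LocSys.tr_map L L' (ContinuousMap.id X) θ (fun x => by
    obtain ⟨i, hi⟩ := L.cover x
    obtain ⟨j, hj1, hj2⟩ := h i
    exact ⟨L.U i, L.isOpen i, hi, i, j, subset_rfl, hj1, hj2⟩) γ
  rwa [ContinuousMap.id_comp] at this

theorem tr_eval (hN : ∃ s ∈ N, IsRefl s) (ρ : N →* Matrix ι ι ℂ) (k : Idx N → ℂ)
    (γ : C(unitInterval, VReg N)) : (LS hN ρ k).tr γ = (LSP hN ρ).tr γ k := by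
  refine tr_hom (LSP hN ρ) (LS hN ρ k) (Pi.evalMonoidHom _ k) (fun i => ?_) γ
  refine ⟨⟨i.U, i.F k, i.op, i.cv, i.hz k⟩, fun y hy => hy, fun y hy z hz => ?_⟩
  rfl

theorem LSP_mem (hN : ∃ s ∈ N, IsRefl s) (ρ : N →* Matrix ι ι ℂ)
    (γ : C(unitInterval, VReg N)) : (LSP hN ρ).tr γ ∈ LHS N ι := by
  have hmem : ∀ (i : FrP ρ) (x : VReg N), x.1 ∈ i.U →
      (fun k => toU (i.F k x.1)) ∈ LHS N ι := by
    intro i x hx p q
    have h1 : (fun k => (toU (i.F k x.1)).1 p q) = fun k => i.F k x.1 p q := by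
      funext k
      rw [toU_val ((i.hz k) x.1 hx).1]
    have h2 : (fun k => ((toU (i.F k x.1))⁻¹).1 p q) = fun k => (i.F k x.1)⁻¹ p q := by
      funext k
      rw [inv_val, toU_val ((i.hz k) x.1 hx).1]
    exact ⟨by rw [h1]; exact (i.lh x.1 hx p q).1, by rw [h2]; exact (i.lh x.1 hx p q).2⟩
  refine LocSys.tr_mem (LSP hN ρ) (LHS N ι) (fun i x hx y hy => ?_) γ
  exact (LHS N ι).mul_mem (hmem i y hy) ((LHS N ι).inv_mem (hmem i x hx))

end PPX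

open PPX

/-- Parallel transport of the KZ connection along `γ`. -/
def PP (hN : ∃ s ∈ N, IsRefl s) (ρ : N →* Matrix ι ι ℂ) (k : Idx N → ℂ)
    (γ : C(unitInterval, VReg N)) : Matrix ι ι ℂ := ((LS hN ρ k).tr γ).1

variable (hN : ∃ s ∈ N, IsRefl s)

theorem PP_unit (ρ : N →* Matrix ι ι ℂ) (k : Idx N → ℂ) (γ : C(unitInterval, VReg N)) :
    IsUnit (PP hN ρ k γ) := ((LS hN ρ k).tr γ).isUnit

theorem PP_local (ρ : N →* Matrix ι ι ℂ) (k : Idx N → ℂ) (U : Set (Fin r → ℂ))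
    (hU : IsOpen U) (hc : Convex ℝ U) (F : (Fin r → ℂ) → Matrix ι ι ℂ) (hF : Horiz ρ k U F)
    (γ : C(unitInterval, VReg N)) (h : ∀ t, (γ t).1 ∈ U) :
    PP hN ρ k γ = F (γ 1).1 * (F (γ 0).1)⁻¹ := by
  have h1 := LocSys.tr_local (LS hN ρ k) γ (⟨U, F, hU, hc, hF⟩ : Fr ρ k) h
  unfold PP
  rw [h1, Units.val_mul, inv_val]
  show (toU (F (γ 1).1)).1 * ((toU (F (γ 0).1)).1)⁻¹ = _
  rw [toU_val (hF _ (h 1)).1, toU_val (hF _ (h 0)).1]

theorem PP_trans (ρ : N →* Matrix ι ι ℂ) (k : Idx N → ℂ) {x y z : VReg N} (p : Path x y)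
    (q : Path y z) : PP hN ρ k (p.trans q).toContinuousMap =
      PP hN ρ k q.toContinuousMap * PP hN ρ k p.toContinuousMap := by
  unfold PP
  rw [LocSys.tr_trans, Units.val_mul]

theorem PP_symm (ρ : N →* Matrix ι ι ℂ) (k : Idx N → ℂ) {x y : VReg N} (p : Path x y) :
    PP hN ρ k p.symm.toContinuousMap = (PP hN ρ k p.toContinuousMap)⁻¹ := by
  unfold PP
  rw [LocSys.tr_symm, inv_val]

theorem PP_homotopic (ρ : N →* Matrix ι ι ℂ) (k : Idx N → ℂ)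
    (γ γ' : C(unitInterval, VReg N)) (h : γ.HomotopicRel γ' {0, 1}) :
    PP hN ρ k γ = PP hN ρ k γ' := by
  unfold PP
  rw [LocSys.tr_homotopic _ γ γ' h]

/-! ### Equivariance -/

namespace PPX

/-- Multiplication by `g⁻¹` on `ℂ^r`. -/
def mulL (g : GL (Fin r) ℂ) : (Fin r → ℂ) →L[ℂ] (Fin r → ℂ) :=
  LinearMap.toContinuousLinearMap (Matrix.toLin' g.1)

theorem mulL_apply (g : GL (Fin r) ℂ) (v : Fin r → ℂ) : mulL g v = g.1 *ᵥ v := rfl

theorem gg_inv (g : GL (Fin r) ℂ) (v : Fin r → ℂ) : g.1 *ᵥ ((g⁻¹).1 *ᵥ v) = v := by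
  rw [Matrix.mulVec_mulVec, ← Units.val_mul, mul_inv_cancel, Units.val_one, Matrix.one_mulVec]

theorem ginv_g (g : GL (Fin r) ℂ) (v : Fin r → ℂ) : (g⁻¹).1 *ᵥ (g.1 *ᵥ v) = v := by
  rw [Matrix.mulVec_mulVec, ← Units.val_mul, inv_mul_cancel, Units.val_one, Matrix.one_mulVec]

/-- Entries of a left multiple by a constant matrix. -/
theorem hasDeriv_left {m n l : Type} [Fintype m] (P : Matrix l m ℂ)
    (F : (Fin r → ℂ) → Matrix m n ℂ) (v : Fin r → ℂ) (q : n)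
    (hd : ∀ r, DifferentiableAt ℂ (fun v => F v r q) v) (p : l) :
    DifferentiableAt ℂ (fun v => (P * F v) p q) v ∧
      ∀ y, fderiv ℂ (fun v => (P * F v) p q) v y =
        ∑ r, P p r * fderiv ℂ (fun v => F v r q) v y := by
  have h1 : (fun v => (P * F v) p q) = fun v => ∑ r, P p r * F v r q := by
    funext v
    rw [Matrix.mul_apply]
  have h2 : HasFDerivAt (fun v => ∑ r, P p r * F v r q)
      (∑ r, P p r • fderiv ℂ (fun v => F v r q) v) v := by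
    refine HasFDerivAt.fun_sum fun r _ => ?_
    exact (hd r).hasFDerivAt.const_mul (P p r)
  rw [h1]
  refine ⟨h2.differentiableAt, fun y => ?_⟩
  rw [h2.fderiv]
  simp

theorem horiz_smul (ρ : N →* Matrix ι ι ℂ) (k : Idx N → ℂ) (g : N) (U : Set (Fin r → ℂ))
    (F : (Fin r → ℂ) → Matrix ι ι ℂ) (hF : Horiz ρ k U F) :
    Horiz ρ k ((fun v => (g⁻¹).1.1 *ᵥ v) ⁻¹' U) (fun v => ρ g * F ((g⁻¹).1.1 *ᵥ v)) := by
  intro v hv
  have hv' : (g⁻¹).1.1 *ᵥ v ∈ U := hv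
  obtain ⟨hu, hd⟩ := hF _ hv'
  have hρ : IsUnit (ρ g) := (Group.isUnit g).map ρ
  refine ⟨hρ.mul hu, fun p q => ?_⟩
  have hd1 : ∀ r, HasFDerivAt (fun v => F ((g⁻¹).1.1 *ᵥ v) r q)
      ((fderiv ℂ (fun v => F v r q) ((g⁻¹).1.1 *ᵥ v)).comp (mulL (g⁻¹).1)) v := by
    intro r
    have hm : HasFDerivAt (fun v => mulL (g⁻¹).1 v) (mulL (g⁻¹).1) v :=
      (mulL (g⁻¹).1).hasFDerivAt
    have hF1 : HasFDerivAt (fun v => F v r q)
        (fderiv ℂ (fun v => F v r q) ((g⁻¹).1.1 *ᵥ v)) (mulL (g⁻¹).1 v) :=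
      (hd r q).1.hasFDerivAt
    exact hF1.comp v hm
  obtain ⟨h1, h2⟩ := hasDeriv_left (ρ g) (fun v => F ((g⁻¹).1.1 *ᵥ v)) v q
    (fun r => (hd1 r).differentiableAt) p
  refine ⟨h1, fun y => ?_⟩
  rw [h2 y]
  have h3 : ∀ r, fderiv ℂ (fun v => F ((g⁻¹).1.1 *ᵥ v) r q) v y =
      (om ρ k ((g⁻¹).1.1 *ᵥ v) ((g⁻¹).1.1 *ᵥ y) * F ((g⁻¹).1.1 *ᵥ v)) r q := by
    intro r
    rw [(hd1 r).fderiv, ContinuousLinearMap.comp_apply, mulL_apply]
    exact (hd r q).2 _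
  have h4 : om ρ k v y = ρ g * om ρ k ((g⁻¹).1.1 *ᵥ v) ((g⁻¹).1.1 *ᵥ y) * ρ g⁻¹ := by
    rw [om_equiv ρ k g ((g⁻¹).1.1 *ᵥ v) ((g⁻¹).1.1 *ᵥ y)]
    have e1 : g.1.1 *ᵥ ((g⁻¹).1.1 *ᵥ v) = v := gg_inv g.1 v
    have e2 : g.1.1 *ᵥ ((g⁻¹).1.1 *ᵥ y) = y := gg_inv g.1 y
    rw [e1, e2]
  have h5 : om ρ k v y * (ρ g * F ((g⁻¹).1.1 *ᵥ v)) =
      ρ g * (om ρ k ((g⁻¹).1.1 *ᵥ v) ((g⁻¹).1.1 *ᵥ y) * F ((g⁻¹).1.1 *ᵥ v)) := by
    rw [h4]
    have h6 : ρ g⁻¹ * ρ g = 1 := by rw [← map_mul, inv_mul_cancel, map_one]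
    calc ρ g * om ρ k ((g⁻¹).1.1 *ᵥ v) ((g⁻¹).1.1 *ᵥ y) * ρ g⁻¹ *
          (ρ g * F ((g⁻¹).1.1 *ᵥ v))
        = ρ g * om ρ k ((g⁻¹).1.1 *ᵥ v) ((g⁻¹).1.1 *ᵥ y) * (ρ g⁻¹ * ρ g) *
          F ((g⁻¹).1.1 *ᵥ v) := by simp only [Matrix.mul_assoc]
      _ = _ := by rw [h6, mul_one, Matrix.mul_assoc]
  show _ = (om ρ k v y * (ρ g * F ((g⁻¹).1.1 *ᵥ v))) p q
  rw [h5, Matrix.mul_apply]
  exact Finset.sum_congr rfl fun r _ => by rw [h3 r]

/-- The unit `ρ(g)`. -/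
def rU (ρ : N →* Matrix ι ι ℂ) (g : N) : (Matrix ι ι ℂ)ˣ :=
  ⟨ρ g, ρ g⁻¹, by rw [← map_mul, mul_inv_cancel, map_one],
    by rw [← map_mul, inv_mul_cancel, map_one]⟩

theorem toU_mul {A B : Matrix ι ι ℂ} (hA : IsUnit A) (hB : IsUnit B) :
    toU (A * B) = toU A * toU B := by
  apply Units.ext
  rw [Units.val_mul, toU_val hA, toU_val hB, toU_val (hA.mul hB)]

end PPX

theorem PP_smul (ρ : N →* Matrix ι ι ℂ) (k : Idx N → ℂ) (g : N)
    (γ γ' : C(unitInterval, VReg N)) (h : ∀ t, γ' t = g • γ t) :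
    PP hN ρ k γ' = ρ g * PP hN ρ k γ * ρ g⁻¹ := by
  have hc : Continuous (fun v : VReg N => g • v) := continuous_const_smul g
  have hγ : γ' = (⟨fun v : VReg N => g • v, hc⟩ : C(VReg N, VReg N)).comp γ := by
    ext1 t
    exact h t
  have hm := LocSys.tr_map (LS hN ρ k) (LS hN ρ k)
    (⟨fun v : VReg N => g • v, hc⟩ : C(VReg N, VReg N)) (MulAut.conj (rU ρ g)).toMonoidHom
    (fun x => by
      obtain ⟨i, hi⟩ := (LS hN ρ k).cover x
      change Fr ρ k at i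
      have hcont : Continuous (fun v : Fin r → ℂ => (g⁻¹).1.1 *ᵥ v) :=
        (mulL (g⁻¹).1).continuous
      have hconv : Convex ℝ ((fun v => (g⁻¹).1.1 *ᵥ v) ⁻¹' i.U) :=
        i.cv.linear_preimage (((mulL (g⁻¹).1).toLinearMap).restrictScalars ℝ)
      refine ⟨_, (LS hN ρ k).isOpen i, hi, i,
        (⟨_, _, i.op.preimage hcont, hconv, horiz_smul ρ k g i.U i.F i.hz⟩ : Fr ρ k),
        subset_rfl, ?_, ?_⟩
      · intro y hy
        show (g⁻¹).1.1 *ᵥ (g.1.1 *ᵥ y.1) ∈ i.U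
        have e1 : (g⁻¹).1.1 *ᵥ (g.1.1 *ᵥ y.1) = y.1 := ginv_g g.1 y.1
        rw [e1]
        exact hy
      · intro y hy z hz
        show toU (ρ g * i.F ((g⁻¹).1.1 *ᵥ (g.1.1 *ᵥ z.1))) *
          (toU (ρ g * i.F ((g⁻¹).1.1 *ᵥ (g.1.1 *ᵥ y.1))))⁻¹ =
          rU ρ g * (toU (i.F z.1) * (toU (i.F y.1))⁻¹) * (rU ρ g)⁻¹
        have e1 : (g⁻¹).1.1 *ᵥ (g.1.1 *ᵥ y.1) = y.1 := ginv_g g.1 y.1
        have e2 : (g⁻¹).1.1 *ᵥ (g.1.1 *ᵥ z.1) = z.1 := ginv_g g.1 z.1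
        have hρ : IsUnit (ρ g) := (Group.isUnit g).map ρ
        have hr : toU (ρ g) = rU ρ g := toU_unit (rU ρ g)
        rw [e1, e2, toU_mul hρ (i.hz _ hz).1, toU_mul hρ (i.hz _ hy).1, hr]
        group) γ
  unfold PP
  rw [hγ, hm]
  rfl

theorem PP_lineHol (ρ : N →* Matrix ι ι ℂ) (γ : C(unitInterval, VReg N)) (p q : ι) :
    LineHol (fun k => PP hN ρ k γ p q) ∧ LineHol (fun k => (PP hN ρ k γ)⁻¹ p q) := by
  have h := LSP_mem hN ρ γ p q
  have h1 : (fun k => PP hN ρ k γ p q) = fun k => ((LSP hN ρ).tr γ k).1 p q := by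
    funext k
    unfold PP
    rw [tr_eval]
  have h2 : (fun k => (PP hN ρ k γ)⁻¹ p q) = fun k => (((LSP hN ρ).tr γ k)⁻¹).1 p q := by
    funext k
    unfold PP
    rw [tr_eval, inv_val]
  rw [h1, h2]
  exact h

/-! ### Intertwining -/

namespace PPX

theorem om_intertwine {ι' : Type} [Fintype ι'] [DecidableEq ι'] (ρ : N →* Matrix ι ι ℂ)
    (ρ' : N →* Matrix ι' ι' ℂ) (k : Idx N → ℂ) (P : Matrix ι' ι ℂ)
    (h : ∀ g, P * ρ g = ρ' g * P) (v y : Fin r → ℂ) :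
    P * om ρ k v y = om ρ' k v y * P := by
  unfold om gau
  rw [Matrix.mul_add, Matrix.add_mul, Matrix.mul_sum, Matrix.sum_mul, Matrix.mul_smul,
    Matrix.smul_mul, Matrix.mul_one, Matrix.one_mul]
  congr 1
  refine Finset.sum_congr rfl fun w _ => ?_
  rw [Matrix.mul_smul, Matrix.smul_mul, h]

theorem inter_const {ι' : Type} [Fintype ι'] [DecidableEq ι'] (ρ : N →* Matrix ι ι ℂ)
    (ρ' : N →* Matrix ι' ι' ℂ) (k : Idx N → ℂ) (P : Matrix ι' ι ℂ)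
    (h : ∀ g, P * ρ g = ρ' g * P) (U : Set (Fin r → ℂ)) (hU : IsOpen U) (hc : Convex ℝ U)
    (F : (Fin r → ℂ) → Matrix ι ι ℂ) (F' : (Fin r → ℂ) → Matrix ι' ι' ℂ)
    (hF : Horiz ρ k U F) (hF' : Horiz ρ' k U F') (v w : Fin r → ℂ) (hv : v ∈ U) (hw : w ∈ U) :
    (F' v)⁻¹ * (P * F v) = (F' w)⁻¹ * (P * F w) := by
  ext p q
  have hG : ∀ v ∈ U, ∀ a b, DifferentiableAt ℂ
      (fun v => (Matrix.of fun a (_ : ι') => (P * F v) a q) a b) v ∧
      ∀ y, fderiv ℂ (fun v => (Matrix.of fun a (_ : ι') => (P * F v) a q) a b) v y =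
        (om ρ' k v y * (Matrix.of fun a (_ : ι') => (P * F v) a q)) a b := by
    intro v hv a b
    obtain ⟨h1, h2⟩ := hasDeriv_left P F v q (fun r => ((hF v hv).2 r q).1) a
    refine ⟨h1, fun y => ?_⟩
    have h3 : (om ρ' k v y * (Matrix.of fun a (_ : ι') => (P * F v) a q)) a b =
        (om ρ' k v y * (P * F v)) a q := by
      rw [Matrix.mul_apply, Matrix.mul_apply]
      rfl
    rw [h3]
    refine (h2 y).trans ?_
    rw [← Matrix.mul_assoc, ← om_intertwine ρ ρ' k P h v y, Matrix.mul_assoc, Matrix.mul_apply]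
    exact Finset.sum_congr rfl fun r _ => by rw [((hF v hv).2 r q).2 y]
  have h4 := horiz_unique ρ' k U hU hc F'
    (fun v => Matrix.of fun a (_ : ι') => (P * F v) a q) hF' hG v hv w hw
  have h5 := congrFun (congrFun h4 p) p
  rw [Matrix.mul_apply, Matrix.mul_apply] at h5
  rw [Matrix.mul_apply, Matrix.mul_apply]
  exact h5

/-- Pairs of frames. -/
structure Fr2 {ι' : Type} [Fintype ι'] [DecidableEq ι'] (ρ : N →* Matrix ι ι ℂ)
    (ρ' : N →* Matrix ι' ι' ℂ) (k : Idx N → ℂ) where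
  U : Set (Fin r → ℂ)
  F : (Fin r → ℂ) → Matrix ι ι ℂ
  F' : (Fin r → ℂ) → Matrix ι' ι' ℂ
  op : IsOpen U
  cv : Convex ℝ U
  hz : Horiz ρ k U F
  hz' : Horiz ρ' k U F'

/-- The product local system. -/
def LS2 {ι' : Type} [Fintype ι'] [DecidableEq ι'] (hN : ∃ s ∈ N, IsRefl s)
    (ρ : N →* Matrix ι ι ℂ) (ρ' : N →* Matrix ι' ι' ℂ) (k : Idx N → ℂ) :
    LocSys (VReg N) ((Matrix ι ι ℂ)ˣ × (Matrix ι' ι' ℂ)ˣ) where
  ι := Fr2 ρ ρ' k
  U i := {x | x.1 ∈ i.U}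
  F i x := (toU (i.F x.1), toU (i.F' x.1))
  isOpen i := i.op.preimage val_continuous
  cover x := by
    obtain ⟨r, F, hr, -, -, hz, -⟩ := exists_frame hN ρ x
    obtain ⟨r', F', hr', -, -, hz', -⟩ := exists_frame hN ρ' x
    exact ⟨⟨Metric.ball x.1 r ∩ Metric.ball x.1 r', F k, F' k,
      Metric.isOpen_ball.inter Metric.isOpen_ball, (convex_ball _ _).inter (convex_ball _ _),
      Horiz.mono (hz k) Set.inter_subset_left, Horiz.mono (hz' k) Set.inter_subset_right⟩,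
      Metric.mem_ball_self hr, Metric.mem_ball_self hr'⟩
  compat i j x y hxi hxj hyi hyj :=
    Prod.ext (compat_aux i.op i.cv j.op j.cv i.hz j.hz x.1 y.1 hxi hxj hyi hyj)
      (compat_aux i.op i.cv j.op j.cv i.hz' j.hz' x.1 y.1 hxi hxj hyi hyj)

/-- Pairs intertwined by `P`. -/
def IntS {ι' : Type} [Fintype ι'] [DecidableEq ι'] (P : Matrix ι' ι ℂ) :
    Subgroup ((Matrix ι ι ℂ)ˣ × (Matrix ι' ι' ℂ)ˣ) where
  carrier := {a | P * a.1.1 = a.2.1 * P}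
  mul_mem' := by
    intro a b ha hb
    show P * (a.1.1 * b.1.1) = (a.2.1 * b.2.1) * P
    have ha' : P * a.1.1 = a.2.1 * P := ha
    have hb' : P * b.1.1 = b.2.1 * P := hb
    rw [← Matrix.mul_assoc, ha', Matrix.mul_assoc, hb', Matrix.mul_assoc]
  one_mem' := by
    show P * (1 : Matrix ι ι ℂ) = (1 : Matrix ι' ι' ℂ) * P
    rw [Matrix.mul_one, Matrix.one_mul]
  inv_mem' := by
    intro a ha
    have ha' : P * a.1.1 = a.2.1 * P := ha
    show P * (a.1⁻¹).1 = (a.2⁻¹).1 * P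
    have e1 : a.1.1 * (a.1⁻¹).1 = 1 := a.1.mul_inv
    have e2 : (a.2⁻¹).1 * a.2.1 = 1 := a.2.inv_mul
    calc P * (a.1⁻¹).1 = (a.2⁻¹).1 * a.2.1 * P * (a.1⁻¹).1 := by rw [e2, Matrix.one_mul]
      _ = (a.2⁻¹).1 * (a.2.1 * P) * (a.1⁻¹).1 := by rw [Matrix.mul_assoc (a.2⁻¹).1]
      _ = (a.2⁻¹).1 * (P * a.1.1) * (a.1⁻¹).1 := by rw [ha']
      _ = (a.2⁻¹).1 * P * (a.1.1 * (a.1⁻¹).1) := by simp only [Matrix.mul_assoc]
      _ = (a.2⁻¹).1 * P := by rw [e1, Matrix.mul_one]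

end PPX

theorem PP_intertwine {ι' : Type} [Fintype ι'] [DecidableEq ι'] (ρ : N →* Matrix ι ι ℂ)
    (ρ' : N →* Matrix ι' ι' ℂ) (k : Idx N → ℂ) (P : Matrix ι' ι ℂ)
    (h : ∀ g, P * ρ g = ρ' g * P) (γ : C(unitInterval, VReg N)) :
    P * PP hN ρ k γ = PP hN ρ' k γ * P := by
  have h1 : (LS hN ρ k).tr γ = ((LS2 hN ρ ρ' k).tr γ).1 :=
    tr_hom (LS2 hN ρ ρ' k) (LS hN ρ k) (MonoidHom.fst _ _) (fun i =>
      ⟨⟨i.U, i.F, i.op, i.cv, i.hz⟩, fun y hy => hy, fun y hy z hz => rfl⟩) γ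
  have h2 : (LS hN ρ' k).tr γ = ((LS2 hN ρ ρ' k).tr γ).2 :=
    tr_hom (LS2 hN ρ ρ' k) (LS hN ρ' k) (MonoidHom.snd _ _) (fun i =>
      ⟨⟨i.U, i.F', i.op, i.cv, i.hz'⟩, fun y hy => hy, fun y hy z hz => rfl⟩) γ
  have h3 : (LS2 hN ρ ρ' k).tr γ ∈ IntS P := by
    refine LocSys.tr_mem (LS2 hN ρ ρ' k) (IntS P) (fun i x hx y hy => ?_) γ
    change Fr2 ρ ρ' k at i
    have hx' : x.1 ∈ i.U := hx
    have hy' : y.1 ∈ i.U := hy
    have hk := inter_const ρ ρ' k P h i.U i.op i.cv i.F i.F' i.hz i.hz' y.1 x.1 hy' hx'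
    show P * ((toU (i.F y.1)).1 * ((toU (i.F x.1))⁻¹).1) =
      (toU (i.F' y.1)).1 * ((toU (i.F' x.1))⁻¹).1 * P
    have ex : (toU (i.F x.1)).1 = i.F x.1 := toU_val (i.hz _ hx').1
    have ey : (toU (i.F y.1)).1 = i.F y.1 := toU_val (i.hz _ hy').1
    have ex' : (toU (i.F' x.1)).1 = i.F' x.1 := toU_val (i.hz' _ hx').1
    have ey' : (toU (i.F' y.1)).1 = i.F' y.1 := toU_val (i.hz' _ hy').1
    rw [← ex, ← ey, ← ex', ← ey', ← inv_val, ← inv_val] at hk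
    generalize toU (i.F x.1) = a at hk ⊢
    generalize toU (i.F y.1) = b at hk ⊢
    generalize toU (i.F' x.1) = a' at hk ⊢
    generalize toU (i.F' y.1) = b' at hk ⊢
    have e1 : a.1 * (a⁻¹).1 = 1 := a.mul_inv
    have e2 : b'.1 * (b'⁻¹).1 = 1 := b'.mul_inv
    calc P * (b.1 * (a⁻¹).1) = (b'.1 * (b'⁻¹).1) * P * (b.1 * (a⁻¹).1) := by
          rw [e2, Matrix.one_mul]
      _ = b'.1 * ((b'⁻¹).1 * (P * b.1)) * (a⁻¹).1 := by simp only [Matrix.mul_assoc]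
      _ = b'.1 * ((a'⁻¹).1 * (P * a.1)) * (a⁻¹).1 := by rw [hk]
      _ = b'.1 * (a'⁻¹).1 * P * (a.1 * (a⁻¹).1) := by simp only [Matrix.mul_assoc]
      _ = b'.1 * (a'⁻¹).1 * P := by rw [e1, Matrix.mul_one]
  unfold PP
  rw [h1, h2]
  exact h3

/-! ### Recognition -/

/-- Recognition of the transport. -/
theorem PP_lift (ρ : N →* Matrix ι ι ℂ) (k : Idx N → ℂ) (γ : C(unitInterval, VReg N))
    (Q : unitInterval → Matrix ι ι ℂ) (h0 : Q 0 = 1)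
    (h : ∀ t₀, ∃ (U : Set (Fin r → ℂ)) (F : (Fin r → ℂ) → Matrix ι ι ℂ), IsOpen U ∧
      (γ t₀).1 ∈ U ∧ Horiz ρ k U F ∧
      ∀ᶠ t in nhds t₀, Q t = F (γ t).1 * (F (γ t₀).1)⁻¹ * Q t₀) :
    PP hN ρ k γ = Q 1 := by
  have hγc : Continuous (fun t => (γ t).1) := val_continuous.comp γ.continuous
  have hev : ∀ t₀, ∀ᶠ t in nhds t₀, (IsUnit (Q t) ↔ IsUnit (Q t₀)) := by
    intro t₀
    obtain ⟨U, F, hU, hm, hF, he⟩ := h t₀
    have hUe : ∀ᶠ t in nhds t₀, (γ t).1 ∈ U := hγc.continuousAt.eventually (hU.mem_nhds hm)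
    filter_upwards [he, hUe] with t ht htU
    have hu : IsUnit (F (γ t).1 * (F (γ t₀).1)⁻¹) :=
      (hF _ htU).1.mul (Matrix.isUnit_nonsing_inv_iff.2 (hF _ hm).1)
    rw [ht]
    constructor
    · intro hq
      obtain ⟨u, hu'⟩ := hu
      have : Q t₀ = (u⁻¹).1 * (F (γ t).1 * (F (γ t₀).1)⁻¹ * Q t₀) := by
        rw [← hu', ← Matrix.mul_assoc, u.inv_mul, Matrix.one_mul]
      rw [this]
      exact (u⁻¹).isUnit.mul hq
    · intro hq
      exact hu.mul hq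
  have hcl : IsClopen {t | IsUnit (Q t)} := by
    constructor
    · rw [← isOpen_compl_iff, isOpen_iff_mem_nhds]
      intro t ht
      filter_upwards [hev t] with s hs
      exact fun hq => ht (hs.1 hq)
    · rw [isOpen_iff_mem_nhds]
      intro t ht
      filter_upwards [hev t] with s hs
      exact hs.2 ht
  have hall : ∀ t, IsUnit (Q t) := by
    have := hcl.eq_univ ⟨0, by show IsUnit (Q 0); rw [h0]; exact isUnit_one⟩
    intro t
    have ht : t ∈ {t | IsUnit (Q t)} := by rw [this]; trivial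
    exact ht
  have key := LocSys.tr_eq_of_lift (LS hN ρ k) γ (fun t => toU (Q t))
    (by
      show toU (Q 0) = 1
      rw [h0]
      exact toU_unit 1)
    (fun t₀ => by
      obtain ⟨U, F, hU, hm, hF, he⟩ := h t₀
      obtain ⟨r, hr, hb⟩ := Metric.isOpen_iff.1 hU _ hm
      refine ⟨(⟨Metric.ball (γ t₀).1 r, F, Metric.isOpen_ball, convex_ball _ _,
        Horiz.mono hF hb⟩ : Fr ρ k), Metric.mem_ball_self hr, ?_⟩
      have hUe : ∀ᶠ t in nhds t₀, (γ t).1 ∈ U :=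
        hγc.continuousAt.eventually (hU.mem_nhds hm)
      filter_upwards [he, hUe] with t ht htU
      show toU (Q t) = toU (F (γ t).1) * (toU (F (γ t₀).1))⁻¹ * toU (Q t₀)
      apply Units.ext
      rw [Units.val_mul, Units.val_mul, inv_val, toU_val (hall t), toU_val (hall t₀),
        toU_val (hF _ htU).1, toU_val (hF _ hm).1]
      exact ht)
  unfold PP
  rw [key]
  exact toU_val (hall 1)

namespace PPX

theorem om_zero (ρ : N →* Matrix ι ι ℂ) (v y : Fin r → ℂ) : om ρ 0 v y = 0 := by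
  have h1 : ∀ w : N, cr (0 : Idx N → ℂ) w = 0 := by
    intro w
    unfold cr
    split_ifs with h
    · unfold cf
      simp
    · rfl
  have h2 : ∀ H : Arr N, cs (0 : Idx N → ℂ) H = 0 := by
    intro H
    unfold cs
    simp
  unfold om gau
  simp [h1, h2]

end PPX

theorem PP_zero (ρ : N →* Matrix ι ι ℂ) (γ : C(unitInterval, VReg N)) :
    PP hN ρ 0 γ = 1 := by
  refine PP_lift hN ρ 0 γ (fun _ => 1) rfl fun t₀ =>
    ⟨Set.univ, fun _ => 1, isOpen_univ, trivial, ?_, ?_⟩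
  · intro v _
    refine ⟨isUnit_one, fun p q => ⟨differentiableAt_const _, fun y => ?_⟩⟩
    rw [om_zero, Matrix.zero_mul]
    simp
  · filter_upwards with t
    rw [inv_one, mul_one, mul_one]

end

end Pool.Agent.CMFn
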