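import Pool.Agent.CMF.ODE2
import Pool.Agent.CMFn.PP

/-! Project CMFn, module Curve: parallel transport along holomorphic curves (every rank). -/

namespace Pool.Agent.CMFn

open Matrix
open Pool.Agent.CMF (ode_unique)

noncomputable section

theorem PP_curve {r : ℕ} {N : SG r} [Fintype N] {ι : Type} [Fintype ι] [DecidableEq ι]
    (hN : ∃ s ∈ N, IsRefl s) (ρ : N →* Matrix ι ι ℂ) (k : Idx N → ℂ)
    (U : Set ℂ) (_hU : IsOpen U) (_hc : Convex ℝ U) (g g' : ℂ → Fin r → ℂ)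
    (hg : ∀ w ∈ U, ∀ a, HasDerivAt (fun w => g w a) (g' w a) w)
    (_hv : ∀ w ∈ U, ∀ s ∈ N, IsRefl s → s.1 *ᵥ g w ≠ g w)
    (Φ : ℂ → Matrix ι ι ℂ)
    (hΦ : ∀ w ∈ U, ∀ p q, HasDerivAt (fun w => Φ w p q) ((om ρ k (g w) (g' w) * Φ w) p q) w)
    (hu : ∀ w ∈ U, IsUnit (Φ w)) (γ : C(unitInterval, VReg N)) (c : C(unitInterval, ℂ))
    (hγ : ∀ t, c t ∈ U ∧ (γ t).1 = g (c t)) :
    PP hN ρ k γ = Φ (c 1) * (Φ (c 0))⁻¹ := by
  have hud : ∀ w ∈ U, IsUnit (Φ w).det := fun w hw => (Matrix.isUnit_iff_isUnit_det _).1 (hu w hw)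
  refine PP_lift hN ρ k γ (fun t => Φ (c t) * (Φ (c 0))⁻¹)
    (Matrix.mul_nonsing_inv _ (hud _ (hγ 0).1)) ?_
  intro t₀
  obtain ⟨r', F, hr, hreg, h1, hF, -⟩ := exists_frame hN ρ (γ t₀)
  have hgd : ∀ w ∈ U, HasDerivAt g (g' w) w := fun w hw => hasDerivAt_pi.2 (hg w hw)
  have hw₀ : c t₀ ∈ U := (hγ t₀).1
  have hmem : ∀ᶠ w in nhds (c t₀), w ∈ U ∧ g w ∈ Metric.ball (γ t₀).1 r' := by
    refine Filter.Eventually.and (_hU.mem_nhds hw₀) ?_
    have hcont : ContinuousAt g (c t₀) := (hgd _ hw₀).continuousAt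
    have : g (c t₀) ∈ Metric.ball (γ t₀).1 r' := by
      rw [← (hγ t₀).2]; exact Metric.mem_ball_self hr
    exact hcont.eventually (Metric.isOpen_ball.mem_nhds this)
  obtain ⟨ε, hε, hball⟩ := Metric.eventually_nhds_iff_ball.1 hmem
  have hG : ∀ w ∈ Metric.ball (c t₀) ε, ∀ p q,
      HasDerivAt (fun w => F k (g w) p q) ((om ρ k (g w) (g' w) * F k (g w)) p q) w := by
    intro w hw p q
    obtain ⟨hwU, hwb⟩ := hball w hw
    obtain ⟨hd, hfd⟩ := (hF k (g w) hwb).2 p q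
    have h3 := hd.hasFDerivAt.comp_hasDerivAt w (hgd w hwU)
    rw [hfd] at h3
    exact h3
  have huq := ode_unique (Metric.ball (c t₀) ε) Metric.isOpen_ball (convex_ball _ _)
    (fun w => om ρ k (g w) (g' w)) (fun w => F k (g w)) Φ hG
    (fun w hw => hΦ w (hball w hw).1) (fun w hw => (hF k (g w) (hball w hw).2).1)
  refine ⟨Metric.ball (γ t₀).1 r', F k, Metric.isOpen_ball, Metric.mem_ball_self hr, hF k, ?_⟩
  have hct : ∀ᶠ t in nhds t₀, c t ∈ Metric.ball (c t₀) ε :=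
    c.continuous.continuousAt.eventually (Metric.ball_mem_nhds _ hε)
  filter_upwards [hct] with t ht
  have h4 := huq (c t) ht (c t₀) (Metric.mem_ball_self hε)
  have h5 : IsUnit (F k (g (c t))).det :=
    (Matrix.isUnit_iff_isUnit_det _).1 (hF k (g (c t)) (hball _ ht).2).1
  have h6 : Φ (c t) = F k (g (c t)) * ((F k (g (c t₀)))⁻¹ * Φ (c t₀)) := by
    rw [← h4, ← Matrix.mul_assoc, Matrix.mul_nonsing_inv _ h5, Matrix.one_mul]
  show Φ (c t) * (Φ (c 0))⁻¹ = F k (γ t).1 * (F k (γ t₀).1)⁻¹ * (Φ (c t₀) * (Φ (c 0))⁻¹)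
  rw [(hγ t).2, (hγ t₀).2]
  conv_lhs => rw [h6]
  simp only [Matrix.mul_assoc]

end

end Pool.Agent.CMFn
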