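import Pool.Agent.CMFn.HDefs
import Pool.Agent.CMF.LDefs

/-! Project CMF: Dunkl operators, words, KZ form, families of irreducible representations. -/

namespace Pool.Agent.CMFn

open Matrix unitInterval

noncomputable section

section fin

variable {K : Type} [Field K] {r : ℕ} (N : Subgroup (GL (Fin r) K))

lemma finite_arr [Finite N] : Finite (Arr N) := by
  have : Finite {s : N // IsRefl s.1} := inferInstance
  refine Finite.of_surjective (fun s : {s : N // IsRefl s.1} =>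
    (⟨fixL s.1.1, s.1.1, s.1.2, s.2, rfl⟩ : Arr N)) ?_
  rintro ⟨H, s, hs, hr, rfl⟩
  exact ⟨⟨⟨s, hs⟩, hr⟩, rfl⟩

instance [Finite N] : Finite (Arr N) := finite_arr N

instance [Fintype N] : Fintype (Arr N) := Fintype.ofFinite _

lemma eH_pos [Finite N] (H : Arr N) : 0 < eH N H.1 := by
  have : Finite (ptStab N H.1) := by
    refine Finite.of_injective (fun g : ptStab N H.1 => (⟨g.1, g.2.1⟩ : N)) ?_
    intro a b h
    exact Subtype.ext (congrArg (fun z : N => z.1) h)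
  have : Nonempty (ptStab N H.1) := ⟨⟨1, N.one_mem, fun v _ => by simp⟩⟩
  exact Nat.card_pos

lemma idx_emod [Finite N] (H : Arr N) (j : ℤ) : idx H (j % (eH N H.1 : ℤ)) = idx H j := by
  refine Quot.sound ⟨⟨1, N.one_mem, ?_⟩, ?_⟩
  · show H.1 = mapL 1 H.1
    simp [mapL]
  · show (eH N H.1 : ℤ) ∣ j - j % (eH N H.1 : ℤ)
    exact Int.dvd_self_sub_emod

lemma finite_idx [Finite N] : Finite (Idx N) := by
  have h : Finite (Σ H : Arr N, Fin (eH N H.1)) := inferInstance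
  refine Finite.of_surjective
    (fun a : (Σ H : Arr N, Fin (eH N H.1)) => idx a.1 ((a.2 : ℕ) : ℤ)) ?_
  intro q
  induction q using Quot.inductionOn with
  | h a =>
    obtain ⟨H, j⟩ := a
    have hpos := eH_pos N H
    have h1 : 0 ≤ j % (eH N H.1 : ℤ) := Int.emod_nonneg _ (by omega)
    have h2 : j % (eH N H.1 : ℤ) < eH N H.1 := Int.emod_lt_of_pos _ (by omega)
    refine ⟨⟨H, ⟨(j % (eH N H.1 : ℤ)).toNat, by omega⟩⟩, ?_⟩
    show idx H _ = idx H j
    rw [← idx_emod N H j]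
    congr 1
    simp [Int.toNat_of_nonneg h1]

instance [Finite N] : Finite (Idx N) := finite_idx N

instance [Fintype N] : Fintype (Idx N) := Fintype.ofFinite _

end fin

variable {r : ℕ} {N : SG r} [Fintype N]

/-- A linear form with kernel `H`. -/
def lf (H : Submodule ℂ (Fin r → ℂ)) : Fin r → ℂ :=
  open Classical in if h : ∃ a : Fin r → ℂ, a ≠ 0 ∧ ∀ v, v ∈ H ↔ a ⬝ᵥ v = 0 then h.choose else 0

/-- `α_H(y)/α_H(v)`. -/
def rat (H : Submodule ℂ (Fin r → ℂ)) (y v : Fin r → ℂ) : ℂ := (lf H ⬝ᵥ y) / (lf H ⬝ᵥ v)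

/-- `cf_k(w)` for a reflection `w`, zero otherwise. -/
def cr (k : Idx N → ℂ) (w : N) : ℂ :=
  open Classical in if h : IsRefl w.1 then cf k ⟨fixL w.1, w.1, w.2, h, rfl⟩ w.1 else 0

/-- `cf_k(1) = Σ_j k_{H,j}`. -/
def cs (k : Idx N → ℂ) (H : Arr N) : ℂ := ∑ j ∈ Finset.range (eH N H.1), k (idx H j)

/-- Gaudin operator `Σ_w cf_k(w) α_w(y)/α_w(v) ρ(w)`, over the reflections `w`. -/
def gau {ι : Type} [Fintype ι] [DecidableEq ι] (ρ : N →* Matrix ι ι ℂ) (k : Idx N → ℂ)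
    (v y : Fin r → ℂ) : Matrix ι ι ℂ :=
  ∑ w : N, (cr k w * rat (fixL w.1) y v) • ρ w

/-- The KZ form `Σ_H α_H(y)/α_H(v) a_H(k)`, `a_H(k) = Σ_{w ∈ G_H} cf_k(w) ρ(w)`. -/
def om {ι : Type} [Fintype ι] [DecidableEq ι] (ρ : N →* Matrix ι ι ℂ) (k : Idx N → ℂ)
    (v y : Fin r → ℂ) : Matrix ι ι ℂ :=
  gau ρ k v y + (∑ H : Arr N, cs k H * rat H.1 y v) • (1 : Matrix ι ι ℂ)

/-- `E`-valued polynomials, `E = ℂ^ι`. -/
abbrev PolE (r : ℕ) (ι : Type) := ι → MvPolynomial (Fin r) ℂ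

/-- Evaluation. -/
def evE {ι : Type} (f : PolE r ι) (v : Fin r → ℂ) : ι → ℂ := fun i => MvPolynomial.eval v (f i)

/-- Directional derivative of a polynomial, evaluated. -/
def dirD {ι : Type} (f : PolE r ι) (y v : Fin r → ℂ) : ι → ℂ :=
  fun i => ∑ a, y a * MvPolynomial.eval v (MvPolynomial.pderiv a (f i))

/-- The defining property of the Dunkl operator `D_y^{t,k}`:
`D_y f(v) = t ∂_y f(v) + Σ_w cf_k(w) α_w(y)/α_w(v) ρ(w)(f(w⁻¹v) - f(v))` on `V^reg`. -/
def IsDunkl {ι : Type} [Fintype ι] [DecidableEq ι] (ρ : N →* Matrix ι ι ℂ) (t : ℂ)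
    (k : Idx N → ℂ) (y : Fin r → ℂ) (D : Module.End ℂ (PolE r ι)) : Prop :=
  ∀ f : PolE r ι, ∀ v : VReg N, evE (D f) v.1 = t • dirD f y v.1 +
    ∑ w : N, (cr k w * rat (fixL w.1) y v.1) •
      (ρ w *ᵥ (evE f ((w⁻¹).1.1 *ᵥ v.1) - evE f v.1))

/-- The Dunkl operator. -/
def dunkl {ι : Type} [Fintype ι] [DecidableEq ι] (ρ : N →* Matrix ι ι ℂ) (t : ℂ)
    (k : Idx N → ℂ) (y : Fin r → ℂ) : Module.End ℂ (PolE r ι) :=
  open Classical in if h : ∃ D, IsDunkl ρ t k y D then h.choose else 0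

/-- `(g f)(v) = ρ(g) f(g⁻¹ v)`. -/
def gAct {ι : Type} [Fintype ι] [DecidableEq ι] (ρ : N →* Matrix ι ι ℂ) (g : N) :
    Module.End ℂ (PolE r ι) where
  toFun f := fun i => ∑ j, MvPolynomial.C (ρ g i j) * MvPolynomial.bind₁
    (fun a => ∑ b, MvPolynomial.C ((g⁻¹).1.1 a b) * MvPolynomial.X b) (f j)
  map_add' f f' := by
    funext i; simp [mul_add, Finset.sum_add_distrib]
  map_smul' c f := by
    funext i
    simp only [Pi.smul_apply, map_smul, RingHom.id_apply, Finset.smul_sum, mul_smul_comm]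

/-- Multiplication by `x_a`. -/
def xAct (ι : Type) (a : Fin r) : Module.End ℂ (PolE r ι) where
  toFun f := fun i => MvPolynomial.X a * f i
  map_add' f f' := by funext i; simp [mul_add]
  map_smul' c f := by funext i; simp

/-- Action of words on `E`-valued polynomials (parameters `t`, `k`). -/
def act {ι : Type} [Fintype ι] [DecidableEq ι] (ρ : N →* Matrix ι ι ℂ) (t : ℂ)
    (k : Idx N → ℂ) : FA ℂ r N →ₐ[ℂ] Module.End ℂ (PolE r ι) :=
  FreeAlgebra.lift ℂ fun a => match a with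
    | Gen.X i => xAct ι i
    | Gen.Y i => dunkl ρ t k (Pi.single i 1)
    | Gen.T g => gAct ρ g

/-- Homogeneous `E`-valued polynomials of degree `n`. -/
def homE (r : ℕ) (ι : Type) (n : ℕ) : Submodule ℂ (PolE r ι) where
  carrier := {f | ∀ i, (f i).IsHomogeneous n}
  add_mem' h h' i := (h i).add (h' i)
  zero_mem' _ := MvPolynomial.isHomogeneous_zero _ _ _
  smul_mem' c f h i := by
    have := (MvPolynomial.isHomogeneous_C (Fin r) c).mul (h i)
    simpa [MvPolynomial.smul_eq_C_mul] using this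

/-- `E`-valued polynomials of degree at most `n`. -/
def degE (r : ℕ) (ι : Type) (n : ℕ) : Submodule ℂ (PolE r ι) where
  carrier := {f | ∀ i, (f i).totalDegree ≤ n}
  add_mem' h h' i := (MvPolynomial.totalDegree_add _ _).trans (max_le (h i) (h' i))
  zero_mem' _ := by simp
  smul_mem' c f h i := (MvPolynomial.totalDegree_smul_le _ _).trans (h i)

/-- A complete family of irreducible matrix representations of `N`:
`ℂN → ∏_l M_{d_l}(ℂ)` is bijective. -/
structure IrrFam (N : SG r) [Fintype N] where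
  Λ : Type
  [fin : Fintype Λ]
  [dec : DecidableEq Λ]
  d : Λ → ℕ
  pos : ∀ l, 0 < d l
  ρ : ∀ l, N →* Matrix (Fin (d l)) (Fin (d l)) ℂ
  bij : Function.Bijective
    (fun (a : MonoidAlgebra ℂ N) (l : Λ) => MonoidAlgebra.lift ℂ _ N (ρ l) a)

attribute [instance] IrrFam.fin IrrFam.dec

/-- A word of degree `0` which separates the set `Ft` of irreducible representations from the
others at the parameter `(0, k₀)`. -/
structure SepWord (Φ : IrrFam N) (k₀ : Idx N → ℂ) (Ft : Φ.Λ → Prop) [DecidablePred Ft]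
    (z : FA ℂ r N) : Prop where
  deg : ∀ (t : ℂ) (k : Idx N → ℂ) (l : Φ.Λ) (n : ℕ), ∀ f ∈ homE r (Fin (Φ.d l)) n,
    act (Φ.ρ l) t k z f ∈ homE r (Fin (Φ.d l)) n
  sep : ∀ (l : Φ.Λ) (n : ℕ), ∀ f ∈ homE r (Fin (Φ.d l)) n,
    ((act (Φ.ρ l) 0 k₀ z - if Ft l then 1 else 0) ^ (n + 1)) f = 0

/-- At `(1, k')` there are words acting, up to any given degree, as `1` on the polynomial
modules of `l ∈ Ft` and as `0` on the others. -/
def SplitAt (Φ : IrrFam N) (k' : Idx N → ℂ) (Ft : Φ.Λ → Prop) [DecidablePred Ft] : Prop :=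
  ∀ n : ℕ, ∃ z : FA ℂ r N, ∀ l : Φ.Λ, ∀ f ∈ degE r (Fin (Φ.d l)) n,
    act (Φ.ρ l) 1 k' z f = if Ft l then f else 0

/-- `F` is an invertible horizontal matrix function on `U` for the KZ connection. -/
def Horiz {ι : Type} [Fintype ι] [DecidableEq ι] (ρ : N →* Matrix ι ι ℂ) (k : Idx N → ℂ)
    (U : Set (Fin r → ℂ)) (F : (Fin r → ℂ) → Matrix ι ι ℂ) : Prop :=
  ∀ v ∈ U, IsUnit (F v) ∧ ∀ p q, DifferentiableAt ℂ (fun v => F v p q) v ∧
    ∀ y, fderiv ℂ (fun v => F v p q) v y = (om ρ k v y * F v) p q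

end

end Pool.Agent.CMFn
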