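import Pool.Agent.CMFn.CQC
import Pool.Agent.CMFn.DatE6

/-! Project CMFn, blocks C and Q: data of parabolic subgroups of the group E6 (generated; checked in
the file CkQE6). -/

namespace Pool.Agent.CMFn.E6

noncomputable section

def el0 : Tr :=
  (.nd (.nd (.nd (.nd (.nd (.lf 0x2840608080) (.lf 0x49028d9f2f)) (.lf 0x161028308af)) (.nd (.nd (.lf 0x19c006d0080) (.lf 0x54033080af)) (.lf 0x160432ac0af))) (.nd (.nd (.nd (.lf 0x10103e088a2) (.lf 0x1d9e3e2df22)) (.lf 0x79e3ed08a2)) (.nd (.nd (.lf 0x171d2ed9e00) (.lf 0x181e2821f2f)) (.lf 0x7c44b08da2)))) (.nd (.nd (.nd (.nd (.lf 0x29d2e30d80) (.lf 0x51e28988af)) (.lf 0x3903ea5f22)) (.nd (.nd (.lf 0x101d4aacda2) (.lf 0x1dc44a9de22)) (.lf 0x39d4b19e22))) (.nd (.nd (.nd (.lf 0x170406a5900) (.lf 0x484331992f)) (.lf 0x23c0062d900)) (.nd (.nd (.lf 0x19c42e98d80) (.lf 0x1840329d92f)) (.lf 0x23c42e21e00)))))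

def cw0 : Tr :=
  (.nd (.nd (.nd (.nd (.nd (.lf 0x0) (.lf 0x2e242104)) (.lf 0x25100d03)) (.nd (.nd (.lf 0x260e01) (.lf 0x1e1b1002)) (.lf 0x2101))) (.nd (.nd (.nd (.lf 0x1a01) (.lf 0x22120e05)) (.lf 0x26130e02)) (.nd (.nd (.lf 0x2c1d1302) (.lf 0x2b1c1008)) (.lf 0x2b181104)))) (.nd (.nd (.nd (.nd (.lf 0x110e01) (.lf 0x2b1c1004)) (.lf 0x2c1302)) (.nd (.nd (.lf 0x251003) (.lf 0x2b1c100d08)) (.lf 0x2c251004))) (.nd (.nd (.nd (.lf 0x220e01) (.lf 0x242102)) (.lf 0x22120e02)) (.nd (.nd (.lf 0x18110e02) (.lf 0x1e191005)) (.lf 0x2c18110e05)))))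

/-- 24 elements, 5 reflections. -/
def pd0 : PD PN where
  n := 24
  p := [⟨4, 0⟩, ⟨0, 5⟩, ⟨0, 2⟩, ⟨0, 3⟩, ⟨1, 0⟩, ⟨3, 0⟩]
  ns := 4
  gs := [8, 10, 26, 29]
  el := el0
  mv := [0x1500120017000e000d0016000a0009000b001400130005000f00110010000200040003000c00070006000800000001, 0x160017000f00110010000b001400130015000700060008001200040003000c000e000d0001000a0009000000050002, 0x140011000e0017000c000a0016000800070015000500130004001200020010000f0001000d000b0000000900060003, 0x130010000d000c0017000900080016000600050015001400030002001200110001000f000e0000000b000a00070004]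
  par := 0x3001303001003000d03000c02000c030009030008020008030006030005020005000005030003030002020002000002030001020001010001030000020000010000000000000000
  cw := cw0
  sg := 0
  loc := 0x4000000000003000000000000000000000000000000000000000c0000000000000000000000020000000100000000000000000000000000000000

def pd0s : PD PN := { pd0 with sg := 0x87f01e }

end

end Pool.Agent.CMFn.E6
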