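import Pool.Agent.CMFn.CQC
import Pool.Agent.CMFn.DatG29

/-! Project CMFn, blocks C and Q: data of parabolic subgroups of the group G29 (generated; checked in
the file CkQG29). -/

namespace Pool.Agent.CMFn.G29

noncomputable section

def el0 : Tr :=
  (.nd (.nd (.nd (.nd (.lf 0x3020100) (.lf 0x5a3c5544)) (.lf 0x413c3372)) (.nd (.nd (.lf 0x3274a72) (.lf 0x3a85332e)) (.lf 0x52854a44))) (.nd (.nd (.nd (.lf 0x41210d00) (.lf 0x4602879f)) (.lf 0x5a218796)) (.nd (.nd (.lf 0x52300196) (.lf 0x4627552e)) (.lf 0x3a300d9f))))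

def cw0 : Tr :=
  (.nd (.nd (.nd (.nd (.lf 0x0) (.lf 0x1d1206)) (.lf 0xf0a03)) (.nd (.nd (.lf 0x1d01) (.lf 0x1d06)) (.lf 0x1d03))) (.nd (.nd (.nd (.lf 0xf0a01) (.lf 0x2701)) (.lf 0x2e0d02)) (.nd (.nd (.lf 0x1e01) (.lf 0x210d03)) (.lf 0x2b1002))))

/-- 12 elements, 4 reflections. -/
def pd0 : PD (Qd PN) where
  n := 12
  p := [⟨⟨0, 1⟩, ⟨1, 0⟩⟩, ⟨⟨0, 1⟩, ⟨0, 1⟩⟩, ⟨⟨0, 3⟩, ⟨0, 1⟩⟩, ⟨⟨0, 2⟩, ⟨0, 0⟩⟩]
  ns := 3
  gs := [11, 13, 28]
  el := el0
  mv := [0x800060005000b0003000a000900020007000400000001, 0x90007000b0005000a0003000800010006000000040002, 0xa000b0007000400090002000100080000000600050003]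
  par := 0x8000006000005020004000003020002020001010001020000010000000000000000
  cw := cw0
  sg := 0
  loc := 0x900000000000000000000000000030000000000000000000000000000000000000000000000000000000000020000000100000000000000000000000000000000000000000000

def pd0s : PD (Qd PN) := { pd0 with sg := 0x70e }

end

end Pool.Agent.CMFn.G29
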