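import Pool.Agent.CMFn.Defs

/-! Project CMFn, module Dich: a central idempotent of the restricted rational Cherednik algebra
acts on a Verma module as `0` or as `1`. -/

namespace Pool.Agent.CMFn

open Matrix

noncomputable section

namespace DichX

variable {K : Type} [Field K] {r : ℕ}

/-- Evaluation at commuting elements is an algebra homomorphism. -/
lemma exists_evHom {A : Type} [Ring A] [Algebra K A] (a : Fin r → A)
    (h : ∀ i j, a i * a j = a j * a i) :
    ∃ φ : MvPolynomial (Fin r) K →ₐ[K] A, (∀ i, φ (MvPolynomial.X i) = a i) ∧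
      ∀ p, evP a p = φ p := by
  have hc : ∀ x ∈ Set.range a, ∀ y ∈ Set.range a, x * y = y * x := by
    rintro _ ⟨i, rfl⟩ _ ⟨j, rfl⟩
    exact h i j
  have hm := Algebra.isMulCommutative_adjoin K hc
  let cr : CommRing (Algebra.adjoin K (Set.range a)) :=
    { (inferInstance : Ring (Algebra.adjoin K (Set.range a))) with
      mul_comm := hm.is_comm.comm }
  let ψ : MvPolynomial (Fin r) K →ₐ[K] Algebra.adjoin K (Set.range a) :=
    MvPolynomial.aeval (fun i => ⟨a i, Algebra.subset_adjoin ⟨i, rfl⟩⟩)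
  let φ : MvPolynomial (Fin r) K →ₐ[K] A := (Algebra.adjoin K (Set.range a)).val.comp ψ
  have h1 : ∀ i, φ (MvPolynomial.X i) = a i := by
    intro i; simp [φ, ψ]
  refine ⟨φ, h1, fun p => ?_⟩
  conv_rhs => rw [MvPolynomial.as_sum p, map_sum]
  unfold evP
  refine Finset.sum_congr rfl fun m _ => ?_
  have h2 : (m.prod fun n e => (MvPolynomial.X n : MvPolynomial (Fin r) K) ^ e) =
      (List.ofFn fun i => (MvPolynomial.X i : MvPolynomial (Fin r) K) ^ m i).prod := by
    rw [Finsupp.prod_fintype _ _ (fun i => pow_zero _), List.prod_ofFn]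
  rw [MvPolynomial.monomial_eq, h2, map_mul, map_list_prod, List.map_ofFn]
  have h3 : (φ ∘ fun i => (MvPolynomial.X i : MvPolynomial (Fin r) K) ^ m i) =
      fun i => a i ^ m i := by
    funext i
    rw [Function.comp_apply, map_pow, h1]
  rw [h3]
  congr 1
  have : (MvPolynomial.C (MvPolynomial.coeff m p) : MvPolynomial (Fin r) K) =
    algebraMap K _ (MvPolynomial.coeff m p) := rfl
  rw [this, AlgHom.commutes]

lemma evP_map {A B : Type} [Ring A] [Algebra K A] [Ring B] [Algebra K B]
    (φ : A →ₐ[K] B) (a : Fin r → A) (p : MvPolynomial (Fin r) K) :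
    φ (evP a p) = evP (fun i => φ (a i)) p := by
  unfold evP
  rw [map_sum]
  refine Finset.sum_congr rfl fun m _ => ?_
  rw [map_mul, map_list_prod, List.map_ofFn, AlgHom.commutes]
  congr 3
  funext i
  rw [Function.comp_apply, map_pow]

variable (N : Subgroup (GL (Fin r) K)) [Fintype N] (c : N → K)

/-- The letters in the restricted algebra. -/
abbrev x (i : Fin r) : Hbar N c := hq N c (fX i)
@[inherit_doc x] abbrev y (i : Fin r) : Hbar N c := hq N c (fY i)
@[inherit_doc x] abbrev T (g : N) : Hbar N c := hq N c (fT g)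

lemma rel {a b : FA K r N} (h : HRel N c a b) : hq N c a = hq N c b :=
  RingQuot.mkAlgHom_rel K (HbRel.base a b h)

lemma T_one : T N c 1 = 1 := by
  have := rel N c HRel.one
  rwa [map_one] at this

lemma T_mul (g h : N) : T N c (g * h) = T N c g * T N c h := by
  have := rel N c (HRel.mul g h)
  rwa [map_mul] at this

lemma T_y (g : N) (i : Fin r) : T N c g * y N c i = (∑ j, g.1.1 j i • y N c j) * T N c g := by
  have := rel N c (HRel.TY g i)
  rw [map_mul, map_mul, map_sum] at this
  rw [this]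
  congr 1
  refine Finset.sum_congr rfl fun j _ => ?_
  rw [map_mul, AlgHom.commutes, ← Algebra.smul_def]

lemma T_x (g : N) (i : Fin r) :
    T N c g * x N c i = (∑ j, (g⁻¹).1.1 i j • x N c j) * T N c g := by
  have := rel N c (HRel.TX g i)
  rw [map_mul, map_mul, map_sum] at this
  rw [this]
  congr 1
  refine Finset.sum_congr rfl fun j _ => ?_
  rw [map_mul, AlgHom.commutes, ← Algebra.smul_def]

lemma x_x (i j : Fin r) : x N c i * x N c j = x N c j * x N c i := by
  have := rel N c (HRel.XX i j)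
  rwa [map_mul, map_mul] at this

/-- Coefficients of the commutator of `y_i` and `x_j`. -/
lemma y_x (i j : Fin r) : ∃ q : N → K, y N c i * x N c j =
    x N c j * y N c i + ∑ s, q s • T N c s := by
  classical
  have := rel N c (HRel.YX i j)
  rw [map_mul, map_add, map_mul, map_sum] at this
  refine ⟨fun s => if IsRefl s.1 then c s * ((1 - s.1.1) j i / (1 - s.1.1.det)) else 0, ?_⟩
  rw [this]
  congr 1
  refine Finset.sum_congr rfl fun s _ => ?_
  rw [map_mul, AlgHom.commutes, ← Algebra.smul_def]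

/-- The group algebra in the restricted algebra. -/
def τ : MonoidAlgebra K N →ₐ[K] Hbar N c :=
  MonoidAlgebra.lift K _ N
    { toFun := T N c
      map_one' := T_one N c
      map_mul' := T_mul N c }

lemma τ_single (g : N) (a : K) : τ N c (MonoidAlgebra.single g a) = a • T N c g := by
  unfold τ
  rw [MonoidAlgebra.lift_single]
  rfl

lemma y_T (g : N) (i : Fin r) : y N c i * T N c g = T N c g * ∑ j, (g⁻¹).1.1 j i • y N c j := by
  have h1 := T_y N c g⁻¹ i
  have h2 : T N c g * T N c g⁻¹ = 1 := by rw [← T_mul, mul_inv_cancel, T_one]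
  have h3 : T N c g⁻¹ * T N c g = 1 := by rw [← T_mul, inv_mul_cancel, T_one]
  calc y N c i * T N c g = T N c g * (T N c g⁻¹ * y N c i) * T N c g := by
        rw [← mul_assoc, h2, one_mul]
    _ = T N c g * ∑ j, (g⁻¹).1.1 j i • y N c j := by
        rw [h1]
        simp only [mul_assoc]
        rw [h3, mul_one]

/-! ### The left ideal generated by the `y_i` -/

lemma J_mul_T (g : N) {a : Hbar N c} (ha : a ∈ leftY N c) : a * T N c g ∈ leftY N c := by
  unfold leftY Ideal.span at ha
  induction ha using Submodule.span_induction with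
  | mem F hF =>
    obtain ⟨i, rfl⟩ := hF
    show y N c i * T N c g ∈ leftY N c
    rw [y_T]
    refine Ideal.mul_mem_left _ _ (Submodule.sum_mem _ fun j _ => ?_)
    rw [Algebra.smul_def]
    exact Ideal.mul_mem_left _ _ (Ideal.subset_span ⟨j, rfl⟩)
  | zero => rw [zero_mul]; exact Submodule.zero_mem _
  | add a b _ _ ha hb => rw [add_mul]; exact Submodule.add_mem _ ha hb
  | smul b a _ ha =>
    rw [smul_eq_mul, mul_assoc]
    exact Ideal.mul_mem_left _ _ ha

/-- `J` as a `K`-subspace. -/
def Jk : Submodule K (Hbar N c) := (leftY N c).restrictScalars K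

lemma mem_Jk {a : Hbar N c} : a ∈ Jk N c ↔ a ∈ leftY N c := Iff.rfl

lemma J_mul_τ (u : MonoidAlgebra K N) {a : Hbar N c} (ha : a ∈ Jk N c) :
    a * τ N c u ∈ Jk N c := by
  induction u using MonoidAlgebra.induction_on with
  | of g =>
    have : τ N c (MonoidAlgebra.of K N g) = T N c g := by
      rw [MonoidAlgebra.of_apply, τ_single, one_smul]
    rw [this]
    exact J_mul_T N c g ha
  | add u v hu hv => rw [map_add, mul_add]; exact Submodule.add_mem _ hu hv
  | smul k u hu => rw [map_smul, mul_smul_comm]; exact Submodule.smul_mem _ _ hu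

lemma mul_J (b : Hbar N c) {a : Hbar N c} (ha : a ∈ Jk N c) : b * a ∈ Jk N c :=
  Ideal.mul_mem_left _ _ ha

lemma y_mem (i : Fin r) : y N c i ∈ Jk N c := Ideal.subset_span ⟨i, rfl⟩

/-! ### The filtration -/

/-- The ideal of the polynomials without constant term. -/
def mI (K : Type) [Field K] (r : ℕ) : Ideal (MvPolynomial (Fin r) K) :=
  Ideal.span (Set.range MvPolynomial.X)

variable (φ : MvPolynomial (Fin r) K →ₐ[K] Hbar N c) (hφ : ∀ i, φ (MvPolynomial.X i) = x N c i)
  (p : MonoidAlgebra K N)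

/-- `F_j`. -/
def Fj (j : ℕ) : Submodule K (Hbar N c) :=
  Submodule.span K {u | ∃ q ∈ mI K r ^ j, ∃ g : N, u = φ q * T N c g * τ N c p} ⊔ Jk N c

lemma J_le (j : ℕ) : Jk N c ≤ Fj N c φ p j := le_sup_right

lemma gen_mem (j : ℕ) {q : MvPolynomial (Fin r) K} (hq : q ∈ mI K r ^ j) (g : N) :
    φ q * T N c g * τ N c p ∈ Fj N c φ p j :=
  Submodule.mem_sup_left (Submodule.subset_span ⟨q, hq, g, rfl⟩)

/-- Induction principle. -/
lemma Fj_induction (j : ℕ) (S : Submodule K (Hbar N c))
    (h1 : ∀ q ∈ mI K r ^ j, ∀ g : N, φ q * T N c g * τ N c p ∈ S) (h2 : Jk N c ≤ S) :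
    Fj N c φ p j ≤ S := by
  refine sup_le (Submodule.span_le.2 ?_) h2
  rintro u ⟨q, hq, g, rfl⟩
  exact h1 q hq g

lemma Fj_anti (j : ℕ) : Fj N c φ p (j + 1) ≤ Fj N c φ p j :=
  Fj_induction N c φ p _ _ (fun _ hq g => gen_mem N c φ p j (Ideal.pow_le_pow_right (Nat.le_succ j) hq) g)
    (J_le N c φ p j)

lemma φ_Fj (i j : ℕ) {q : MvPolynomial (Fin r) K} (hq : q ∈ mI K r ^ i) {u : Hbar N c}
    (hu : u ∈ Fj N c φ p j) : φ q * u ∈ Fj N c φ p (i + j) := by
  have h : Fj N c φ p j ≤ (Fj N c φ p (i + j)).comap (LinearMap.mulLeft K (φ q)) := by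
    refine Fj_induction N c φ p _ _ (fun q' hq' g => ?_) (fun a ha => ?_)
    · rw [Submodule.mem_comap, LinearMap.mulLeft_apply, ← mul_assoc, ← mul_assoc, ← map_mul]
      exact gen_mem N c φ p _ (by rw [pow_add]; exact Ideal.mul_mem_mul hq hq') g
    · rw [Submodule.mem_comap, LinearMap.mulLeft_apply]
      exact J_le N c φ p _ (mul_J N c _ ha)
  exact h hu

/-- Substitution. -/
def sub (g : N) : MvPolynomial (Fin r) K →ₐ[K] MvPolynomial (Fin r) K :=
  MvPolynomial.aeval fun i => ∑ j, (g⁻¹).1.1 i j • MvPolynomial.X j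

include hφ in
lemma T_φ (g : N) (q : MvPolynomial (Fin r) K) : T N c g * φ q = φ (sub N g q) * T N c g := by
  induction q using MvPolynomial.induction_on with
  | C a =>
    have h1 : (MvPolynomial.C a : MvPolynomial (Fin r) K) = algebraMap K _ a := rfl
    rw [h1, AlgHom.commutes, AlgHom.commutes, AlgHom.commutes]
    exact (Algebra.commutes a (T N c g)).symm
  | add q q' h h' => rw [map_add, map_add, map_add, mul_add, h, h', add_mul]
  | mul_X q i h =>
    have h1 : T N c g * x N c i = φ (sub N g (MvPolynomial.X i)) * T N c g := by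
      unfold sub
      rw [T_x, MvPolynomial.aeval_X, map_sum]
      congr 1
      refine Finset.sum_congr rfl fun j _ => ?_
      rw [map_smul, hφ]
    rw [map_mul, hφ, ← mul_assoc, h, mul_assoc, h1, map_mul, map_mul, mul_assoc]

lemma sub_mem (g : N) (j : ℕ) {q : MvPolynomial (Fin r) K} (hq : q ∈ mI K r ^ j) :
    sub N g q ∈ mI K r ^ j := by
  have h1 : Ideal.map (sub N g) (mI K r) ≤ mI K r := by
    unfold mI
    rw [Ideal.map_span, Ideal.span_le]
    rintro _ ⟨_, ⟨i, rfl⟩, rfl⟩
    unfold sub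
    rw [SetLike.mem_coe, MvPolynomial.aeval_X]
    refine Submodule.sum_mem _ fun k _ => ?_
    rw [MvPolynomial.smul_eq_C_mul]
    exact Ideal.mul_mem_left _ _ (Ideal.subset_span ⟨k, rfl⟩)
  have h2 : Ideal.map (sub N g) (mI K r ^ j) ≤ mI K r ^ j := by
    rw [Ideal.map_pow]
    exact Ideal.pow_right_mono h1 j
  exact h2 (Ideal.mem_map_of_mem _ hq)

include hφ in
lemma T_Fj (g : N) (j : ℕ) {u : Hbar N c} (hu : u ∈ Fj N c φ p j) :
    T N c g * u ∈ Fj N c φ p j := by
  have h : Fj N c φ p j ≤ (Fj N c φ p j).comap (LinearMap.mulLeft K (T N c g)) := by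
    refine Fj_induction N c φ p _ _ (fun q' hq' h => ?_) (fun a ha => ?_)
    · rw [Submodule.mem_comap, LinearMap.mulLeft_apply, ← mul_assoc, ← mul_assoc,
        T_φ N c φ hφ, mul_assoc (φ _), ← T_mul]
      exact gen_mem N c φ p _ (sub_mem N g j hq') (g * h)
    · rw [Submodule.mem_comap, LinearMap.mulLeft_apply]
      exact J_le N c φ p _ (mul_J N c _ ha)
  exact h hu

include hφ in
lemma x_Fj (i : Fin r) (j : ℕ) {u : Hbar N c} (hu : u ∈ Fj N c φ p j) :
    x N c i * u ∈ Fj N c φ p j := by
  rw [← hφ]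
  have := φ_Fj N c φ p 0 j (q := MvPolynomial.X i) (by simp) hu
  rwa [zero_add] at this

include hφ in
lemma y_F0 (i : Fin r) {u : Hbar N c} (hu : u ∈ Fj N c φ p 0) : y N c i * u ∈ Fj N c φ p 0 := by
  have key : ∀ (q : MvPolynomial (Fin r) K) (g : N),
      y N c i * (φ q * T N c g * τ N c p) ∈ Fj N c φ p 0 := by
    intro q g
    induction q using MvPolynomial.induction_on with
    | C a =>
      have h1 : (MvPolynomial.C a : MvPolynomial (Fin r) K) = algebraMap K _ a := rfl
      rw [h1, AlgHom.commutes, ← Algebra.smul_def, smul_mul_assoc, mul_smul_comm, ← mul_assoc]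
      exact Submodule.smul_mem _ _ (J_le N c φ p _ (J_mul_τ N c p (J_mul_T N c g (y_mem N c i))))
    | add q q' h h' =>
      rw [map_add, add_mul, add_mul, mul_add]
      exact Submodule.add_mem _ h h'
    | mul_X q j h =>
      obtain ⟨b, hb⟩ := y_x N c i j
      rw [mul_comm, map_mul, hφ]
      have h1 : y N c i * (x N c j * φ q * T N c g * τ N c p) =
          x N c j * (y N c i * (φ q * T N c g * τ N c p)) +
            ∑ s, b s • (T N c s * (φ q * T N c g * τ N c p)) := by
        have h2 : y N c i * (x N c j * φ q * T N c g * τ N c p) =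
            (y N c i * x N c j) * (φ q * T N c g * τ N c p) := by
          simp only [mul_assoc]
        rw [h2, hb, add_mul, Finset.sum_mul, mul_assoc]
        simp only [smul_mul_assoc]
      rw [h1]
      refine Submodule.add_mem _ (x_Fj N c φ hφ p j 0 h) (Submodule.sum_mem _ fun s _ => ?_)
      refine Submodule.smul_mem _ _ (T_Fj N c φ hφ p s 0 (gen_mem N c φ p 0 ?_ g))
      simp
  have h : Fj N c φ p 0 ≤ (Fj N c φ p 0).comap (LinearMap.mulLeft K (y N c i)) := by
    refine Fj_induction N c φ p _ _ (fun q' _ g => key q' g) (fun a ha => ?_)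
    rw [Submodule.mem_comap, LinearMap.mulLeft_apply]
    exact J_le N c φ p _ (mul_J N c _ ha)
  exact h hu

include hφ in
/-- `F_0` is a left ideal. -/
lemma mul_F0 (b : Hbar N c) {u : Hbar N c} (hu : u ∈ Fj N c φ p 0) : b * u ∈ Fj N c φ p 0 := by
  obtain ⟨z, rfl⟩ := RingQuot.mkAlgHom_surjective K (HbRel N c) b
  induction z using FreeAlgebra.induction generalizing u with
  | grade0 a =>
    rw [AlgHom.commutes, ← Algebra.smul_def]
    exact Submodule.smul_mem _ _ hu
  | grade1 a =>
    cases a with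
    | X i => exact x_Fj N c φ hφ p i 0 hu
    | Y i => exact y_F0 N c φ hφ p i hu
    | T g => exact T_Fj N c φ hφ p g 0 hu
  | mul a b ha hb => rw [map_mul, mul_assoc]; exact ha (hb hu)
  | add a b ha hb => rw [map_add, add_mul]; exact Submodule.add_mem _ (ha hu) (hb hu)

lemma p_mem : τ N c p ∈ Fj N c φ p 0 := by
  have := gen_mem N c φ p 0 (q := 1) (by simp) 1
  rwa [map_one, one_mul, T_one, one_mul] at this

end DichX

namespace DichX

variable {K : Type} [Field K] {r : ℕ}
variable (N : Subgroup (GL (Fin r) K)) [Fintype N] (c : N → K)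
variable (φ : MvPolynomial (Fin r) K →ₐ[K] Hbar N c) (hφ : ∀ i, φ (MvPolynomial.X i) = x N c i)
  (p : MonoidAlgebra K N)

/-! ### Nilpotency -/

/-- The polynomial with the roots `g x_i`. -/
def orb (i : Fin r) : Polynomial (MvPolynomial (Fin r) K) :=
  ∏ g : N, (Polynomial.X - Polynomial.C (sub N g (MvPolynomial.X i)))

lemma orb_monic (i : Fin r) : (orb N i).Monic :=
  Polynomial.monic_prod_of_monic _ _ fun _ _ => Polynomial.monic_X_sub_C _

lemma orb_natDegree (i : Fin r) : (orb N i).natDegree = Fintype.card N := by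
  unfold orb
  rw [Polynomial.natDegree_prod_of_monic _ _ fun _ _ => Polynomial.monic_X_sub_C _]
  simp

lemma orb_root (i : Fin r) : (orb N i).eval (MvPolynomial.X i) = 0 := by
  unfold orb
  rw [Polynomial.eval_prod]
  refine Finset.prod_eq_zero (Finset.mem_univ (1 : N)) ?_
  unfold sub
  rw [Polynomial.eval_sub, Polynomial.eval_X, Polynomial.eval_C, MvPolynomial.aeval_X]
  rw [sub_eq_zero]
  rw [Finset.sum_eq_single i]
  · simp
  · intro j _ hj
    have : ((1 : N)⁻¹).1.1 i j = 0 := by
      simp [Matrix.one_apply_ne hj.symm]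
    rw [this, zero_smul]
  · intro h
    exact absurd (Finset.mem_univ _) h

lemma orb_inv (i : Fin r) (k : ℕ) (hk : k < Fintype.card N) : InvX N ((orb N i).coeff k) := by
  constructor
  · have h1 : (orb N i).map (MvPolynomial.constantCoeff : MvPolynomial (Fin r) K →+* K) =
        Polynomial.X ^ Fintype.card N := by
      unfold orb
      rw [Polynomial.map_prod]
      have h2 : ∀ g : N, ((Polynomial.X - Polynomial.C (sub N g (MvPolynomial.X i))).map
          (MvPolynomial.constantCoeff : MvPolynomial (Fin r) K →+* K)) = Polynomial.X := by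
        intro g
        rw [Polynomial.map_sub, Polynomial.map_X, Polynomial.map_C]
        have h3 : MvPolynomial.constantCoeff (sub N g (MvPolynomial.X i)) = 0 := by
          unfold sub
          rw [MvPolynomial.aeval_X, map_sum]
          refine Finset.sum_eq_zero fun j _ => ?_
          rw [MvPolynomial.smul_eq_C_mul, map_mul, MvPolynomial.constantCoeff_X, mul_zero]
        rw [h3, map_zero, sub_zero]
      simp only [h2, Finset.prod_const, Finset.card_univ]
    have h4 := congrArg (fun q => q.coeff k) h1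
    simp only [Polynomial.coeff_map, Polynomial.coeff_X_pow] at h4
    rw [h4, if_neg hk.ne]
  · intro h hh
    set B := MvPolynomial.bind₁ (fun i => ∑ j, MvPolynomial.C (h.1 i j) * MvPolynomial.X j :
      Fin r → MvPolynomial (Fin r) K) with hB
    have h1 : (orb N i).map (B : MvPolynomial (Fin r) K →+* MvPolynomial (Fin r) K) = orb N i := by
      unfold orb
      rw [Polynomial.map_prod]
      refine Fintype.prod_equiv (Equiv.mulLeft (⟨h, hh⟩ : N)⁻¹) _ _ fun g => ?_
      rw [Polynomial.map_sub, Polynomial.map_X, Polynomial.map_C]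
      congr 2
      show B (sub N g (MvPolynomial.X i)) = sub N ((⟨h, hh⟩ : N)⁻¹ * g) (MvPolynomial.X i)
      unfold sub
      rw [MvPolynomial.aeval_X, MvPolynomial.aeval_X, map_sum]
      have h2 : ∀ k, (((⟨h, hh⟩ : N)⁻¹ * g)⁻¹).1.1 i k = ∑ j, (g⁻¹).1.1 i j * h.1 j k := by
        intro k
        have : (((⟨h, hh⟩ : N)⁻¹ * g)⁻¹).1.1 = (g⁻¹).1.1 * h.1 := by
          rw [_root_.mul_inv_rev, inv_inv]
          rfl
        rw [this, Matrix.mul_apply]
      simp only [h2, Finset.sum_smul]
      rw [Finset.sum_comm]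
      refine Finset.sum_congr rfl fun j _ => ?_
      rw [map_smul, hB, MvPolynomial.bind₁_X_right, Finset.smul_sum]
      refine Finset.sum_congr rfl fun k _ => ?_
      rw [MvPolynomial.smul_eq_C_mul, MvPolynomial.smul_eq_C_mul, map_mul]
      ring
    have h4 := congrArg (fun q => q.coeff k) h1
    simp only [Polynomial.coeff_map] at h4
    exact h4

include hφ in
lemma φ_inv (hev : ∀ q, evP (x N c) q = φ q) {q : MvPolynomial (Fin r) K} (hq' : InvX N q) :
    φ q = 0 := by
  have h1 : hq N c (evP fX q) = 0 := by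
    have := RingQuot.mkAlgHom_rel K (HbRel.invX (c := c) q hq')
    rwa [map_zero] at this
  rw [← hev, ← h1, evP_map]

include hφ in
lemma φ_pow (hev : ∀ q, evP (x N c) q = φ q) (i : Fin r) :
    φ (MvPolynomial.X i ^ Fintype.card N) = 0 := by
  have h1 := orb_root N i
  rw [Polynomial.eval_eq_sum_range, orb_natDegree, Finset.sum_range_succ] at h1
  have h2 : (orb N i).coeff (Fintype.card N) = 1 := by
    have := orb_monic N i
    rwa [Polynomial.Monic, Polynomial.leadingCoeff, orb_natDegree] at this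
  rw [h2, one_mul] at h1
  have h3 := congrArg φ h1
  rw [map_add, map_zero, map_sum, Finset.sum_eq_zero, zero_add] at h3
  · exact h3
  · intro k hk
    rw [map_mul, φ_inv N c φ hφ hev (orb_inv N i k (Finset.mem_range.1 hk)), zero_mul]

include hφ in
lemma exists_nil (hev : ∀ q, evP (x N c) q = φ q) : ∃ L : ℕ, ∀ q ∈ mI K r ^ L, φ q = 0 := by
  have h1 : mI K r ≤ (RingHom.ker (φ : MvPolynomial (Fin r) K →+* Hbar N c)).radical := by
    unfold mI
    rw [Ideal.span_le]
    rintro _ ⟨i, rfl⟩
    exact ⟨Fintype.card N, φ_pow N c φ hφ hev i⟩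
  obtain ⟨L, hL⟩ := Ideal.exists_pow_le_of_le_radical_of_fg h1
    (Submodule.fg_span (Set.finite_range _))
  exact ⟨L, fun q hq => hL hq⟩

/-! ### Conjugation and Schur -/

variable (hp : ∀ g : N, MonoidAlgebra.single g 1 * p = p * MonoidAlgebra.single g 1)

include hp in
lemma T_p (g : N) : T N c g * τ N c p = τ N c p * T N c g := by
  have h1 : T N c g = τ N c (MonoidAlgebra.single g 1) := by rw [τ_single, one_smul]
  rw [h1, ← map_mul, ← map_mul, hp]

include hp in
lemma Fj_T (g : N) (j : ℕ) {u : Hbar N c} (hu : u ∈ Fj N c φ p j) :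
    u * T N c g ∈ Fj N c φ p j := by
  have h : Fj N c φ p j ≤ (Fj N c φ p j).comap (LinearMap.mulRight K (T N c g)) := by
    refine Fj_induction N c φ p _ _ (fun q' hq' h => ?_) (fun a ha => ?_)
    · rw [Submodule.mem_comap, LinearMap.mulRight_apply, mul_assoc, ← T_p N c p hp g,
        ← mul_assoc, mul_assoc (φ _), ← T_mul]
      exact gen_mem N c φ p _ hq' (h * g)
    · rw [Submodule.mem_comap, LinearMap.mulRight_apply]
      exact J_le N c φ p _ (J_mul_T N c g ha)
  exact h hu

lemma sub_C_mem (q : MvPolynomial (Fin r) K) :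
    q - MvPolynomial.C (MvPolynomial.constantCoeff q) ∈ mI K r := by
  induction q using MvPolynomial.induction_on with
  | C a => simp
  | add q q' h h' =>
    rw [map_add, map_add]
    have : q + q' - (MvPolynomial.C (MvPolynomial.constantCoeff q) +
        MvPolynomial.C (MvPolynomial.constantCoeff q')) =
      (q - MvPolynomial.C (MvPolynomial.constantCoeff q)) +
        (q' - MvPolynomial.C (MvPolynomial.constantCoeff q')) := by ring
    rw [this]
    exact Submodule.add_mem _ h h'
  | mul_X q i _ =>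
    rw [map_mul, MvPolynomial.constantCoeff_X, mul_zero, map_zero, sub_zero]
    exact Ideal.mul_mem_left _ _ (Ideal.subset_span ⟨i, rfl⟩)

/-- `F_0 = (KN) p + F_1`. -/
lemma F0_decomp {u : Hbar N c} (hu : u ∈ Fj N c φ p 0) :
    ∃ a : MonoidAlgebra K N, u - τ N c a * τ N c p ∈ Fj N c φ p 1 := by
  have h : Fj N c φ p 0 ≤ (LinearMap.range ((LinearMap.mulRight K (τ N c p)).comp
      (τ N c).toLinearMap)) ⊔ Fj N c φ p 1 := by
    refine Fj_induction N c φ p _ _ (fun q _ g => ?_) (fun a ha => ?_)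
    · have h1 : φ q * T N c g * τ N c p =
          τ N c (MonoidAlgebra.single g (MvPolynomial.constantCoeff q)) * τ N c p +
            φ (q - MvPolynomial.C (MvPolynomial.constantCoeff q)) * T N c g * τ N c p := by
        have h2 : φ (MvPolynomial.C (MvPolynomial.constantCoeff q)) =
            algebraMap K _ (MvPolynomial.constantCoeff q) := φ.commutes _
        rw [τ_single, map_sub, h2, Algebra.smul_def, sub_mul, sub_mul]
        abel
      rw [h1]
      refine Submodule.add_mem _ (Submodule.mem_sup_left ⟨_, rfl⟩) (Submodule.mem_sup_right ?_)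
      exact gen_mem N c φ p 1 (by rw [pow_one]; exact sub_C_mem q) g
    · exact Submodule.mem_sup_right (J_le N c φ p 1 ha)
  obtain ⟨v, ⟨a, rfl⟩, w, hw, rfl⟩ := Submodule.mem_sup.1 (h hu)
  refine ⟨a, ?_⟩
  have : ((LinearMap.mulRight K (τ N c p)).comp (τ N c).toLinearMap) a + w -
      τ N c a * τ N c p = w := by
    show τ N c a * τ N c p + w - τ N c a * τ N c p = w
    abel
  rw [this]
  exact hw

include hp in
/-- Averaging. -/
lemma average (hN : (Fintype.card N : K) ≠ 0) (e : Hbar N c) (he : ∀ a, e * a = a * e)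
    (a : MonoidAlgebra K N) (ha : e * τ N c p - τ N c a * τ N c p ∈ Fj N c φ p 1)
    (hφ : ∀ i, φ (MvPolynomial.X i) = x N c i) :
    e * τ N c p - τ N c ((Fintype.card N : K)⁻¹ • ∑ g : N, MonoidAlgebra.single g 1 * a *
      MonoidAlgebra.single g⁻¹ 1) * τ N c p ∈ Fj N c φ p 1 := by
  have h1 : ∀ g : N, T N c g * (e * τ N c p - τ N c a * τ N c p) * T N c g⁻¹ ∈ Fj N c φ p 1 :=
    fun g => Fj_T N c φ p hp g⁻¹ 1 (T_Fj N c φ hφ p g 1 ha)
  have h2 : ∀ g : N, T N c g * (e * τ N c p - τ N c a * τ N c p) * T N c g⁻¹ =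
      e * τ N c p - τ N c (MonoidAlgebra.single g 1 * a * MonoidAlgebra.single g⁻¹ 1) *
        τ N c p := by
    intro g
    have h3 : T N c g * T N c g⁻¹ = 1 := by rw [← T_mul, mul_inv_cancel, T_one]
    rw [map_mul, map_mul, τ_single, τ_single, one_smul, one_smul, mul_sub, sub_mul]
    congr 1
    · rw [← mul_assoc, ← he, mul_assoc, ← T_p N c p hp g⁻¹, mul_assoc, ← mul_assoc (T N c g), h3,
        one_mul]
    · rw [mul_assoc, mul_assoc, ← T_p N c p hp, ← mul_assoc, ← mul_assoc]
  have h4 : e * τ N c p - τ N c ((Fintype.card N : K)⁻¹ • ∑ g : N, MonoidAlgebra.single g 1 * a *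
      MonoidAlgebra.single g⁻¹ 1) * τ N c p = (Fintype.card N : K)⁻¹ •
        ∑ g : N, T N c g * (e * τ N c p - τ N c a * τ N c p) * T N c g⁻¹ := by
    simp only [h2]
    rw [Finset.sum_sub_distrib, Finset.sum_const, Finset.card_univ, smul_sub, ← Finset.sum_mul,
      ← map_sum, map_smul, smul_mul_assoc]
    congr 1
    rw [← Nat.cast_smul_eq_nsmul K, smul_smul, inv_mul_cancel₀ hN, one_smul]
  rw [h4]
  exact Submodule.smul_mem _ _ (Submodule.sum_mem _ fun g _ => h1 g)


/-! ### The isotypic projector -/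

variable {d : ℕ} (ρ : N →* Matrix (Fin d) (Fin d) K)

/-- The isotypic projector in the group algebra. -/
def p0 : MonoidAlgebra K N :=
  ∑ g : N, MonoidAlgebra.single g (((d : K) / (Fintype.card N : K)) * (ρ g⁻¹).trace)

lemma τ_p0 : τ N c (p0 N ρ) = pRep N c ρ := by
  unfold p0 pRep
  rw [map_sum]
  refine Finset.sum_congr rfl fun g _ => ?_
  rw [τ_single, Algebra.smul_def]

lemma p0_comm (h : N) : MonoidAlgebra.single h 1 * p0 N ρ = p0 N ρ * MonoidAlgebra.single h 1 := by
  unfold p0
  rw [Finset.mul_sum, Finset.sum_mul]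
  refine Fintype.sum_equiv ((Equiv.mulLeft h).trans (Equiv.mulRight h⁻¹)) _ _ fun g => ?_
  rw [MonoidAlgebra.single_mul_single, MonoidAlgebra.single_mul_single, one_mul, mul_one]
  show MonoidAlgebra.single (h * g) _ = MonoidAlgebra.single (h * g * h⁻¹ * h) _
  rw [inv_mul_cancel_right]
  congr 2
  show _ = (ρ (h * g * h⁻¹)⁻¹).trace
  rw [_root_.mul_inv_rev, _root_.mul_inv_rev, inv_inv, map_mul, map_mul, ← Matrix.trace_mul_comm,
    mul_assoc, ← map_mul, inv_mul_cancel, map_one, mul_one]

/-- `a p_ρ` depends only on `ρ(a)`. -/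
lemma mul_p0 (a : MonoidAlgebra K N) : a * p0 N ρ = ∑ h : N, MonoidAlgebra.single h
    (((d : K) / (Fintype.card N : K)) * (MonoidAlgebra.lift K _ N ρ a * ρ h⁻¹).trace) := by
  induction a using MonoidAlgebra.induction_on with
  | of k =>
    rw [MonoidAlgebra.of_apply, MonoidAlgebra.lift_single, one_smul]
    unfold p0
    rw [Finset.mul_sum]
    refine Fintype.sum_equiv (Equiv.mulLeft k) _ _ fun g => ?_
    rw [MonoidAlgebra.single_mul_single, one_mul]
    show MonoidAlgebra.single (k * g) _ = MonoidAlgebra.single (k * g)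
      (((d : K) / (Fintype.card N : K)) * (ρ k * ρ (k * g)⁻¹).trace)
    rw [_root_.mul_inv_rev, map_mul, Matrix.trace_mul_comm, mul_assoc, ← map_mul, inv_mul_cancel,
      map_one, mul_one]
  | add a b ha hb =>
    rw [add_mul, ha, hb, ← Finset.sum_add_distrib]
    refine Finset.sum_congr rfl fun h _ => ?_
    rw [← MonoidAlgebra.single_add, map_add, add_mul, Matrix.trace_add, mul_add]
  | smul k a ha =>
    rw [smul_mul_assoc, ha, Finset.smul_sum]
    refine Finset.sum_congr rfl fun h _ => ?_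
    rw [MonoidAlgebra.smul_single, map_smul, smul_mul_assoc, Matrix.trace_smul, smul_eq_mul,
      smul_eq_mul, mul_left_comm]

lemma mul_p0_scalar (a : MonoidAlgebra K N) (κ : K)
    (h : MonoidAlgebra.lift K _ N ρ a = κ • (1 : Matrix (Fin d) (Fin d) K)) :
    a * p0 N ρ = κ • p0 N ρ := by
  have h1 := mul_p0 N ρ a
  have h2 := mul_p0 N ρ (κ • 1)
  rw [smul_mul_assoc, one_mul] at h2
  rw [h1, h2, h, map_smul, map_one]

/-- A linear map commuting with an irreducible representation is scalar. -/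
lemma schur (hρ : Submodule.span K (Set.range ρ) = ⊤)
    (M : Matrix (Fin d) (Fin d) K) (h : ∀ g, M * ρ g = ρ g * M) :
    ∃ κ : K, M = κ • (1 : Matrix (Fin d) (Fin d) K) := by
  rcases isEmpty_or_nonempty (Fin d) with he | hne
  · exact ⟨0, Subsingleton.elim _ _⟩
  have h1 : ∀ X : Matrix (Fin d) (Fin d) K, M * X = X * M := by
    intro X
    have hX : X ∈ Submodule.span K (Set.range ρ) := by rw [hρ]; trivial
    induction hX using Submodule.span_induction with
    | mem F hF =>
      obtain ⟨g, rfl⟩ := hF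
      exact h g
    | zero => rw [mul_zero, zero_mul]
    | add x y _ _ hx hy => rw [mul_add, add_mul, hx, hy]
    | smul c x _ hx => rw [mul_smul_comm, smul_mul_assoc, hx]
  have h2 : M ∈ Set.range (Matrix.scalar (Fin d)) := by
    rw [Matrix.mem_range_scalar_iff_commute_single']
    intro i j
    exact (h1 _).symm
  obtain ⟨κ, hc⟩ := h2
  refine ⟨κ, ?_⟩
  rw [← hc]
  ext i j
  simp [Matrix.scalar, Matrix.diagonal_apply, Matrix.one_apply]

lemma avg_scalar (hρ : Submodule.span K (Set.range ρ) = ⊤) (a : MonoidAlgebra K N) :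
    ∃ κ : K, ((Fintype.card N : K)⁻¹ • ∑ g : N, MonoidAlgebra.single g 1 * a *
      MonoidAlgebra.single g⁻¹ 1) * p0 N ρ = κ • p0 N ρ := by
  obtain ⟨κ, hκ⟩ := schur N ρ hρ (MonoidAlgebra.lift K _ N ρ ((Fintype.card N : K)⁻¹ •
    ∑ g : N, MonoidAlgebra.single g 1 * a * MonoidAlgebra.single g⁻¹ 1)) (by
    intro h
    rw [map_smul, map_sum, smul_mul_assoc, mul_smul_comm, Finset.sum_mul, Finset.mul_sum]
    congr 1
    refine Fintype.sum_equiv (Equiv.mulLeft h⁻¹) _ _ fun g => ?_
    simp only [map_mul, MonoidAlgebra.lift_single, one_smul]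
    show ρ g * _ * ρ g⁻¹ * ρ h = ρ h * (ρ (h⁻¹ * g) * _ * ρ (h⁻¹ * g)⁻¹)
    rw [_root_.mul_inv_rev, inv_inv, map_mul, map_mul]
    have h2 : ρ h * ρ h⁻¹ = 1 := by rw [← map_mul, mul_inv_cancel, map_one]
    simp only [← mul_assoc]
    rw [h2, one_mul])
  exact ⟨κ, mul_p0_scalar N ρ _ κ hκ⟩

/-- The last step: a central idempotent raising the filtration kills `p` modulo `J`. -/
lemma kill (L : ℕ) (hL : ∀ q ∈ mI K r ^ L, φ q = 0) (hφ : ∀ i, φ (MvPolynomial.X i) = x N c i)
    (f : Hbar N c) (hf : f * f = f) (hc : ∀ a, f * a = a * f)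
    (h1 : f * τ N c p ∈ Fj N c φ p 1) : f * τ N c p ∈ Jk N c := by
  have h2 : ∀ j : ℕ, ∀ u ∈ Fj N c φ p j, f * u ∈ Fj N c φ p (j + 1) := by
    intro j
    have h : Fj N c φ p j ≤ (Fj N c φ p (j + 1)).comap (LinearMap.mulLeft K f) := by
      refine Fj_induction N c φ p _ _ (fun q hq' g => ?_) (fun a ha => ?_)
      · rw [Submodule.mem_comap, LinearMap.mulLeft_apply]
        have h3 : f * (φ q * T N c g * τ N c p) = φ q * (T N c g * (f * τ N c p)) := by
          rw [← mul_assoc f, hc (φ q * T N c g)]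
          simp only [mul_assoc]
        rw [h3]
        exact φ_Fj N c φ p j 1 hq' (T_Fj N c φ hφ p g 1 h1)
      · rw [Submodule.mem_comap, LinearMap.mulLeft_apply]
        exact J_le N c φ p _ (mul_J N c _ ha)
    exact fun u hu => h hu
  have h3 : ∀ j : ℕ, f * τ N c p ∈ Fj N c φ p (j + 1) := by
    intro j
    induction j with
    | zero => exact h1
    | succ j ih =>
      have := h2 _ _ ih
      rwa [← mul_assoc, hf] at this
  have h4 : Fj N c φ p L ≤ Jk N c := by
    refine Fj_induction N c φ p _ _ (fun q hq' g => ?_) le_rfl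
    rw [hL q hq', zero_mul, zero_mul]
    exact Submodule.zero_mem _
  exact h4 (Fj_anti N c φ p L (h3 L))

end DichX

/-- A central idempotent of the restricted algebra acts on the Verma module of an irreducible
representation as `1` or as `0`. -/
theorem dich {K : Type} [Field K] [CharZero K] {r : ℕ} (N : Subgroup (GL (Fin r) K)) [Fintype N]
    (c : N → K) (e : Hbar N c) (he : e * e = e) (hc : ∀ a, e * a = a * e) {d : ℕ} (hd : 0 < d)
    (ρ : N →* Matrix (Fin d) (Fin d) K) (hρ : Submodule.span K (Set.range ρ) = ⊤) :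
    e * pRep N c ρ - pRep N c ρ ∈ leftY N c ∨ e * pRep N c ρ ∈ leftY N c := by
  have hN : (Fintype.card N : K) ≠ 0 := by
    rw [Nat.cast_ne_zero]; exact Fintype.card_ne_zero
  obtain ⟨φ, hφ, hev⟩ := DichX.exists_evHom (K := K) (DichX.x N c) (DichX.x_x N c)
  obtain ⟨L, hL⟩ := DichX.exists_nil N c φ hφ hev
  have hp := DichX.p0_comm N ρ
  rw [← DichX.τ_p0]
  set p := DichX.p0 N ρ
  -- the scalar
  obtain ⟨a, ha⟩ := DichX.F0_decomp N c φ p (DichX.mul_F0 N c φ hφ p e (DichX.p_mem N c φ p))
  have h1 := DichX.average N c φ p hp hN e hc a ha hφ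
  obtain ⟨κ, hκ⟩ := DichX.avg_scalar N ρ hρ a
  rw [← map_mul, hκ, map_smul] at h1
  set P := DichX.τ N c p
  have hF1 : ∀ u ∈ DichX.Fj N c φ p 1, e * u ∈ DichX.Fj N c φ p 1 := by
    have h : DichX.Fj N c φ p 1 ≤ (DichX.Fj N c φ p 1).comap (LinearMap.mulLeft K e) := by
      refine DichX.Fj_induction N c φ p _ _ (fun q hq' g => ?_) (fun b hb => ?_)
      · rw [Submodule.mem_comap, LinearMap.mulLeft_apply]
        have h3 : e * (φ q * DichX.T N c g * P) = φ q * (DichX.T N c g * (e * P)) := by
          rw [← mul_assoc e, hc (φ q * DichX.T N c g)]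
          simp only [mul_assoc]
        rw [h3]
        have h4 : e * P ∈ DichX.Fj N c φ p 0 :=
          DichX.mul_F0 N c φ hφ p e (DichX.p_mem N c φ p)
        exact DichX.φ_Fj N c φ p 1 0 hq' (DichX.T_Fj N c φ hφ p g 0 h4)
      · rw [Submodule.mem_comap, LinearMap.mulLeft_apply]
        exact DichX.J_le N c φ p _ (DichX.mul_J N c _ hb)
    exact fun u hu => h hu
  -- `κ² = κ` or `p ∈ F_1`
  have h2 : (κ - κ * κ) • P ∈ DichX.Fj N c φ p 1 := by
    have h3 := hF1 _ h1
    rw [mul_sub, ← mul_assoc, he, mul_smul_comm] at h3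
    have h4 : (κ - κ * κ) • P = (e * P - κ • (e * P)) - (e * P - κ • P) + κ • (e * P - κ • P) := by
      simp only [Algebra.smul_def, map_sub, map_mul, mul_sub, sub_mul, mul_assoc]
      abel
    rw [h4]
    exact Submodule.add_mem _ (Submodule.sub_mem _ h3 h1) (Submodule.smul_mem _ _ h1)
  by_cases hκ0 : κ - κ * κ = 0
  · have h3 : κ * (κ - 1) = 0 := by
      have : κ * (κ - 1) = -(κ - κ * κ) := by ring
      rw [this, hκ0, neg_zero]
    rcases mul_eq_zero.1 h3 with h4 | h4
    · right
      rw [h4, zero_smul, sub_zero] at h1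
      exact DichX.kill N c φ p L hL hφ e he hc h1
    · left
      rw [sub_eq_zero] at h4
      rw [h4, one_smul] at h1
      have h5 : (1 - e) * P ∈ DichX.Fj N c φ p 1 := by
        have : (1 - e) * P = -(e * P - P) := by rw [sub_mul, one_mul]; abel
        rw [this]
        exact Submodule.neg_mem _ h1
      have h6 := DichX.kill N c φ p L hL hφ (1 - e) (by
        rw [mul_sub, sub_mul, sub_mul, one_mul, mul_one, he]; simp) (fun b => by
        rw [sub_mul, mul_sub, hc, one_mul, mul_one]) h5
      have h7 : e * P - P = -((1 - e) * P) := by rw [sub_mul, one_mul]; abel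
      rw [h7]
      exact (leftY N c).neg_mem h6
  · right
    have h3 : (1 : Hbar N c) * P ∈ DichX.Fj N c φ p 1 := by
      have := Submodule.smul_mem _ (κ - κ * κ)⁻¹ h2
      rwa [smul_smul, inv_mul_cancel₀ hκ0, one_smul, ← one_mul P] at this
    have h4 := DichX.kill N c φ p L hL hφ 1 (mul_one 1) (fun b => by rw [one_mul, mul_one]) h3
    rw [one_mul] at h4
    exact DichX.mul_J N c e h4

end

end Pool.Agent.CMFn
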