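import Pool.Agent.CMFn.DDefs

/-! Project CMF: the action of the group on vector valued polynomials. -/

namespace Pool.Agent.CMFn

open Matrix

noncomputable section

namespace DunDX

lemma eval_bind {r : ℕ} (v : Fin r → ℂ) (F : Fin r → MvPolynomial (Fin r) ℂ) (p : MvPolynomial (Fin r) ℂ) :
    MvPolynomial.eval v (MvPolynomial.bind₁ F p) =
      MvPolynomial.eval (fun a => MvPolynomial.eval v (F a)) p := by
  induction p using MvPolynomial.induction_on with
  | C a => simp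
  | add p q hp hq => simp [hp, hq]
  | mul_X p i hp => simp [hp]

lemma ext_eval {r : ℕ} {ι : Type} (f f' : PolE r ι) (h : ∀ v, evE f v = evE f' v) : f = f' := by
  funext i
  exact MvPolynomial.funext fun v => congrFun (h v) i

end DunDX

open DunDX

variable {r : ℕ} {N : SG r} [Fintype N]

theorem evE_gAct {ι : Type} [Fintype ι] [DecidableEq ι] (ρ : N →* Matrix ι ι ℂ) (g : N)
    (f : PolE r ι) (v : Fin r → ℂ) :
    evE (gAct ρ g f) v = ρ g *ᵥ evE f ((g⁻¹).1.1 *ᵥ v) := by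
  have hv : (fun a => MvPolynomial.eval v (∑ b : Fin r, MvPolynomial.C ((g⁻¹).1.1 a b) *
      MvPolynomial.X b)) = (g⁻¹).1.1 *ᵥ v := by
    funext a
    rw [map_sum]
    simp only [Matrix.mulVec, dotProduct]
    refine Finset.sum_congr rfl fun b _ => ?_
    rw [map_mul, MvPolynomial.eval_C, MvPolynomial.eval_X]
  funext i
  have h1 : evE (gAct ρ g f) v i = MvPolynomial.eval v (∑ j, MvPolynomial.C (ρ g i j) *
    MvPolynomial.bind₁
      (fun a => ∑ b, MvPolynomial.C ((g⁻¹).1.1 a b) * MvPolynomial.X b) (f j)) := rfl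
  rw [h1, map_sum]
  simp only [Matrix.mulVec, dotProduct, evE]
  refine Finset.sum_congr rfl fun j _ => ?_
  rw [map_mul, MvPolynomial.eval_C, eval_bind, hv]

lemma DunDX.evE_xAct {ι : Type} (a : Fin r) (f : PolE r ι) (v : Fin r → ℂ) :
    evE (xAct ι a f) v = v a • evE f v := by
  funext i
  simp [evE, xAct]

lemma DunDX.evE_sum {ι : Type} (F : Fin r → PolE r ι) (v : Fin r → ℂ) :
    evE (∑ b, F b) v = ∑ b, evE (F b) v := by
  funext i
  simp [evE, Finset.sum_apply, map_sum]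

lemma DunDX.evE_smul {ι : Type} (c : ℂ) (f : PolE r ι) (v : Fin r → ℂ) :
    evE (c • f) v = c • evE f v := by
  funext i
  simp [evE]

theorem gAct_mul {ι : Type} [Fintype ι] [DecidableEq ι] (ρ : N →* Matrix ι ι ℂ) (g h : N) :
    gAct ρ (g * h) = gAct ρ g * gAct ρ h := by
  refine LinearMap.ext fun f => ext_eval _ _ fun v => ?_
  have h1 : (((g * h)⁻¹ : N)).1.1 = (h⁻¹).1.1 * (g⁻¹).1.1 := by
    rw [_root_.mul_inv_rev]
    rfl
  rw [Module.End.mul_apply, evE_gAct, evE_gAct, evE_gAct, map_mul, Matrix.mulVec_mulVec,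
    Matrix.mulVec_mulVec, h1]

theorem gAct_one {ι : Type} [Fintype ι] [DecidableEq ι] (ρ : N →* Matrix ι ι ℂ) :
    gAct ρ (1 : N) = 1 := by
  refine LinearMap.ext fun f => ext_eval _ _ fun v => ?_
  have h1 : (((1 : N)⁻¹ : N)).1.1 = (1 : Matrix (Fin r) (Fin r) ℂ) := by
    rw [inv_one]
    rfl
  rw [evE_gAct, map_one, Matrix.one_mulVec, h1, Matrix.one_mulVec]
  rfl

theorem gAct_x {ι : Type} [Fintype ι] [DecidableEq ι] (ρ : N →* Matrix ι ι ℂ) (g : N)
    (a : Fin r) (f : PolE r ι) : gAct ρ g (xAct ι a f) =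
      ∑ b, ((g⁻¹).1.1 a b) • xAct ι b (gAct ρ g f) := by
  refine ext_eval _ _ fun v => ?_
  rw [evE_gAct, evE_xAct, evE_sum, Matrix.mulVec_smul]
  simp only [evE_smul, evE_xAct, evE_gAct, smul_smul]
  rw [← Finset.sum_smul]
  rfl

end

end Pool.Agent.CMFn
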