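import Pool.Agent.CMFn.DDefs
import Pool.Agent.CMFn.DunA
import Pool.Agent.CMFn.DunC
import Pool.Agent.CMFn.DunD

/-! Project CMFn (every rank), module DunE: linearity, degree, equivariance of the Dunkl operators. -/

namespace Pool.Agent.CMFn

open Matrix

noncomputable section

variable {r : ℕ}

namespace DunEX

section basic

variable {ι : Type}

lemma evE_add (f f' : PolE r ι) (v : Fin r → ℂ) : evE (f + f') v = evE f v + evE f' v := by
  funext i; simp [evE]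

lemma evE_smul (c : ℂ) (f : PolE r ι) (v : Fin r → ℂ) : evE (c • f) v = c • evE f v := by
  funext i; simp [evE]

lemma dirD_smul_add (f : PolE r ι) (a : ℂ) (y y' v : Fin r → ℂ) :
    dirD f (a • y + y') v = a • dirD f y v + dirD f y' v := by
  funext i
  simp only [dirD, Pi.add_apply, Pi.smul_apply, smul_eq_mul, Finset.mul_sum]
  rw [← Finset.sum_add_distrib]
  exact Finset.sum_congr rfl fun j _ => by ring

lemma rat_smul_add (H : Submodule ℂ (Fin r → ℂ)) (a : ℂ) (y y' v : Fin r → ℂ) :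
    rat H (a • y + y') v = a * rat H y v + rat H y' v := by
  simp only [rat, dotProduct_add, dotProduct_smul, smul_eq_mul]
  ring

end basic

variable {N : SG r} [Fintype N]

omit [Fintype N] in
lemma cf_smul_add (a : ℂ) (k k' : Idx N → ℂ) (H : Arr N) (w : GL (Fin r) ℂ) :
    cf (a • k + k') H w = a * cf k H w + cf k' H w := by
  simp only [cf, Pi.add_apply, Pi.smul_apply, smul_eq_mul, Finset.mul_sum]
  rw [← Finset.sum_add_distrib]
  exact Finset.sum_congr rfl fun j _ => by ring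

omit [Fintype N] in
lemma cr_smul_add (a : ℂ) (k k' : Idx N → ℂ) (w : N) :
    cr (a • k + k') w = a * cr k w + cr k' w := by
  unfold cr
  by_cases h : IsRefl w.1
  · rw [dif_pos h, dif_pos h, dif_pos h]
    exact cf_smul_add a k k' _ _
  · rw [dif_neg h, dif_neg h, dif_neg h]; simp

end DunEX

open DunEX

variable {N : SG r} [Fintype N]

/-- Dependence on the parameters is linear. -/
theorem dunkl_lin {ι : Type} [Fintype ι] [DecidableEq ι] (ρ : N →* Matrix ι ι ℂ) (a t t' : ℂ)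
    (k k' : Idx N → ℂ) (y : Fin r → ℂ) :
    dunkl ρ (a * t + t') (a • k + k') y = a • dunkl ρ t k y + dunkl ρ t' k' y := by
  symm
  apply dunkl_unique
  intro f v
  have h1 := dunkl_spec ρ t k y f v
  have h2 := dunkl_spec ρ t' k' y f v
  have e : (a • dunkl ρ t k y + dunkl ρ t' k' y) f =
      a • (dunkl ρ t k y f) + dunkl ρ t' k' y f := rfl
  rw [e, evE_add, evE_smul, h1, h2, smul_add, Finset.smul_sum]
  have e2 : ∀ w : N, (cr (a • k + k') w * rat (fixL w.1) y v.1) •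
      (ρ w *ᵥ (evE f ((w⁻¹).1.1 *ᵥ v.1) - evE f v.1)) =
      a • ((cr k w * rat (fixL w.1) y v.1) •
        (ρ w *ᵥ (evE f ((w⁻¹).1.1 *ᵥ v.1) - evE f v.1))) +
      (cr k' w * rat (fixL w.1) y v.1) •
        (ρ w *ᵥ (evE f ((w⁻¹).1.1 *ᵥ v.1) - evE f v.1)) := by
    intro w
    rw [cr_smul_add, smul_smul, ← add_smul]
    congr 1
    ring
  rw [Finset.sum_congr rfl fun w _ => e2 w, Finset.sum_add_distrib, add_smul, mul_smul]
  abel

/-- Dependence on `y` is linear; the operators lower the degree by one. -/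
theorem dunkl_liny {ι : Type} [Fintype ι] [DecidableEq ι] (ρ : N →* Matrix ι ι ℂ) (t : ℂ)
    (k : Idx N → ℂ) (a : ℂ) (y y' : Fin r → ℂ) :
    dunkl ρ t k (a • y + y') = a • dunkl ρ t k y + dunkl ρ t k y' := by
  symm
  apply dunkl_unique
  intro f v
  have h1 := dunkl_spec ρ t k y f v
  have h2 := dunkl_spec ρ t k y' f v
  have e : (a • dunkl ρ t k y + dunkl ρ t k y') f =
      a • (dunkl ρ t k y f) + dunkl ρ t k y' f := rfl
  rw [e, evE_add, evE_smul, h1, h2, smul_add, Finset.smul_sum]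
  have e2 : ∀ w : N, (cr k w * rat (fixL w.1) (a • y + y') v.1) •
      (ρ w *ᵥ (evE f ((w⁻¹).1.1 *ᵥ v.1) - evE f v.1)) =
      a • ((cr k w * rat (fixL w.1) y v.1) •
        (ρ w *ᵥ (evE f ((w⁻¹).1.1 *ᵥ v.1) - evE f v.1))) +
      (cr k w * rat (fixL w.1) y' v.1) •
        (ρ w *ᵥ (evE f ((w⁻¹).1.1 *ᵥ v.1) - evE f v.1)) := by
    intro w
    rw [rat_smul_add, smul_smul, ← add_smul]
    congr 1
    ring
  rw [Finset.sum_congr rfl fun w _ => e2 w, Finset.sum_add_distrib, dirD_smul_add, smul_add,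
    smul_comm t a]
  abel

namespace DunEX

/-! ### Scaling -/

/-- `2 v` as a regular vector. -/
def dbl (v : VReg N) : VReg N := ⟨(2 : ℂ) • v.1, fun g hg hr h => by
  refine v.2 g hg hr ?_
  rw [Matrix.mulVec_smul] at h
  exact smul_right_injective _ (two_ne_zero' ℂ) h⟩

omit [Fintype N] in
lemma dbl_val (v : VReg N) : (dbl v).1 = (2 : ℂ) • v.1 := rfl

/-- Substitution `X_a ↦ 2 X_a`. -/
def sc (p : MvPolynomial (Fin r) ℂ) : MvPolynomial (Fin r) ℂ :=
  MvPolynomial.bind₁ (fun a => MvPolynomial.C 2 * MvPolynomial.X a) p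

lemma eval_sc (p : MvPolynomial (Fin r) ℂ) (v : Fin r → ℂ) :
    MvPolynomial.eval v (sc p) = MvPolynomial.eval ((2 : ℂ) • v) p := by
  unfold sc
  rw [← MvPolynomial.coe_aeval_eq_eval, RingHom.coe_coe, MvPolynomial.aeval_bind₁,
    ← MvPolynomial.coe_aeval_eq_eval, RingHom.coe_coe]
  congr 2
  funext a
  simp

lemma coeff_sc (p : MvPolynomial (Fin r) ℂ) (m : Fin r →₀ ℕ) :
    MvPolynomial.coeff m (sc p) = 2 ^ (Finsupp.degree m) * MvPolynomial.coeff m p := by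
  induction p using MvPolynomial.induction_on' with
  | monomial u a =>
    unfold sc
    rw [MvPolynomial.bind₁_monomial]
    have : (∏ i ∈ u.support, (MvPolynomial.C 2 * MvPolynomial.X i : MvPolynomial (Fin r) ℂ) ^ u i)
        = MvPolynomial.monomial u (2 ^ (Finsupp.degree u)) := by
      rw [MvPolynomial.monomial_eq]
      simp only [mul_pow, Finset.prod_mul_distrib]
      congr 1
      rw [Finset.prod_pow_eq_pow_sum, ← map_pow]
      rfl
    rw [this, MvPolynomial.C_mul_monomial, MvPolynomial.coeff_monomial,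
      MvPolynomial.coeff_monomial]
    split_ifs with h
    · rw [h]; ring
    · simp
  | add p q hp hq =>
    have : sc (p + q) = sc p + sc q := by unfold sc; rw [map_add]
    rw [this, MvPolynomial.coeff_add, MvPolynomial.coeff_add, hp, hq]; ring

/-- If `p(2v) = 2^n p(v)` as polynomials then `p` is homogeneous of degree `n`. -/
lemma hom_of_sc (p : MvPolynomial (Fin r) ℂ) (n : ℕ)
    (h : sc p = MvPolynomial.C (2 ^ n) * p) : p.IsHomogeneous n := by
  intro m hm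
  have h1 := coeff_sc p m
  rw [h, MvPolynomial.coeff_C_mul] at h1
  have h2 : (2 : ℂ) ^ n = 2 ^ (Finsupp.degree m) := mul_right_cancel₀ hm h1
  have h3 : (2 : ℕ) ^ n = 2 ^ (Finsupp.degree m) := by exact_mod_cast h2
  have h4 := Nat.pow_right_injective (le_refl 2) h3
  rw [h4, Finsupp.degree_eq_weight_one]
  rfl

lemma eval_hom (p : MvPolynomial (Fin r) ℂ) (n : ℕ) (h : p.IsHomogeneous n)
    (c : ℂ) (v : Fin r → ℂ) :
    MvPolynomial.eval (c • v) p = c ^ n * MvPolynomial.eval v p := by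
  rw [MvPolynomial.eval_eq, MvPolynomial.eval_eq, Finset.mul_sum]
  refine Finset.sum_congr rfl fun m hm => ?_
  have hd : Finsupp.degree m = n := by
    rw [Finsupp.degree_eq_weight_one]
    exact h (MvPolynomial.mem_support_iff.1 hm)
  have : ∏ i ∈ m.support, (c • v) i ^ m i = c ^ n * ∏ i ∈ m.support, v i ^ m i := by
    simp only [Pi.smul_apply, smul_eq_mul, mul_pow, Finset.prod_mul_distrib]
    congr 1
    rw [Finset.prod_pow_eq_pow_sum, ← hd]
    rfl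
  rw [this]; ring

lemma evE_smul_hom {ι : Type} (f : PolE r ι) (n : ℕ) (hf : f ∈ homE r ι n) (c : ℂ)
    (v : Fin r → ℂ) : evE f (c • v) = c ^ n • evE f v := by
  funext i
  exact eval_hom (f i) n (hf i) c v

lemma dirD_smul_hom {ι : Type} (f : PolE r ι) (n : ℕ) (hf : f ∈ homE r ι (n + 1)) (c : ℂ)
    (y v : Fin r → ℂ) : dirD f y (c • v) = c ^ n • dirD f y v := by
  funext i
  simp only [dirD, Pi.smul_apply, smul_eq_mul, Finset.mul_sum]
  refine Finset.sum_congr rfl fun a _ => ?_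
  rw [eval_hom (MvPolynomial.pderiv a (f i)) n ?_ c v]
  · ring
  · have := (hf i).pderiv (i := a)
    simpa using this

lemma rat_smul (H : Submodule ℂ (Fin r → ℂ)) (c : ℂ) (y v : Fin r → ℂ) :
    rat H y (c • v) = c⁻¹ * rat H y v := by
  simp only [rat, dotProduct_smul, smul_eq_mul]
  rw [div_eq_mul_inv, mul_inv, div_eq_mul_inv]
  ring

end DunEX

theorem dunkl_deg {ι : Type} [Fintype ι] [DecidableEq ι] (ρ : N →* Matrix ι ι ℂ) (t : ℂ)
    (k : Idx N → ℂ) (y : Fin r → ℂ) (n : ℕ) (f : PolE r ι) (hf : f ∈ homE r ι (n + 1)) :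
    dunkl ρ t k y f ∈ homE r ι n := by
  have key : (fun i => sc (dunkl ρ t k y f i)) = ((2 : ℂ) ^ n) • dunkl ρ t k y f := by
    apply evE_ext (N := N)
    intro v
    have h1 := dunkl_spec ρ t k y f v
    have h2 := dunkl_spec ρ t k y f (dbl v)
    have e1 : evE (fun i => sc (dunkl ρ t k y f i)) v.1 = evE (dunkl ρ t k y f) (dbl v).1 := by
      funext i
      exact eval_sc _ _
    rw [e1, h2, evE_smul, h1, dbl_val, dirD_smul_hom f n hf, smul_add, smul_comm t,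
      Finset.smul_sum]
    congr 1
    refine Finset.sum_congr rfl fun w _ => ?_
    rw [Matrix.mulVec_smul, evE_smul_hom f (n + 1) hf, evE_smul_hom f (n + 1) hf, ← smul_sub,
      Matrix.mulVec_smul, rat_smul, smul_smul, smul_smul]
    congr 1
    rw [pow_succ]
    field_simp
  intro i
  apply hom_of_sc
  have := congrFun key i
  rw [MvPolynomial.C_mul']
  exact this

theorem dunkl_deg0 {ι : Type} [Fintype ι] [DecidableEq ι] (ρ : N →* Matrix ι ι ℂ) (t : ℂ)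
    (k : Idx N → ℂ) (y : Fin r → ℂ) (f : PolE r ι) (hf : f ∈ homE r ι 0) :
    dunkl ρ t k y f = 0 := by
  apply evE_ext (N := N)
  intro v
  rw [dunkl_spec ρ t k y f v]
  have hc : ∀ i, ∃ c : ℂ, f i = MvPolynomial.C c := fun i =>
    ⟨_, MvPolynomial.totalDegree_eq_zero_iff_eq_C.1 (Nat.le_zero.1 (hf i).totalDegree_le)⟩
  have h1 : dirD f y v.1 = 0 := by
    funext i
    obtain ⟨c, hc⟩ := hc i
    simp [dirD, hc]
  have h2 : ∀ u u' : Fin r → ℂ, evE f u = evE f u' := by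
    intro u u'
    funext i
    obtain ⟨c, hc⟩ := hc i
    simp [evE, hc]
  rw [h1, smul_zero, zero_add]
  have h3 : evE (0 : PolE r ι) v.1 = 0 := by funext i; simp [evE]
  rw [h3]
  refine Finset.sum_eq_zero fun w _ => ?_
  rw [h2 _ v.1, sub_self, Matrix.mulVec_zero, smul_zero]

/-- At `t = 0` the Dunkl operators commute with multiplication by invariant polynomials. -/
theorem dunkl_inv {ι : Type} [Fintype ι] [DecidableEq ι] (ρ : N →* Matrix ι ι ℂ)
    (k : Idx N → ℂ) (y : Fin r → ℂ) (p : MvPolynomial (Fin r) ℂ)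
    (hp : ∀ g ∈ N, ∀ v : Fin r → ℂ, MvPolynomial.eval (g.1 *ᵥ v) p = MvPolynomial.eval v p)
    (f : PolE r ι) : dunkl ρ 0 k y (fun i => p * f i) = fun i => p * dunkl ρ 0 k y f i := by
  have hm : ∀ (f : PolE r ι) (u : Fin r → ℂ),
      evE (fun i => p * f i) u = MvPolynomial.eval u p • evE f u := by
    intro f u
    funext i
    simp [evE]
  apply evE_ext (N := N)
  intro v
  have e1 := dunkl_spec ρ 0 k y (fun i => p * f i) v
  have e2 := dunkl_spec ρ 0 k y f v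
  have e3 := hm (dunkl ρ 0 k y f) v.1
  rw [e1]
  refine Eq.trans ?_ e3.symm
  rw [e2, zero_smul, zero_add, zero_smul, zero_add, Finset.smul_sum]
  refine Finset.sum_congr rfl fun w _ => ?_
  have hw : MvPolynomial.eval ((w⁻¹).1.1 *ᵥ v.1) p = MvPolynomial.eval v.1 p :=
    hp (w⁻¹).1 (w⁻¹).2 v.1
  rw [hm, hm, hw, ← smul_sub, Matrix.mulVec_smul, smul_comm]

namespace DunEX

/-! ### Conjugation -/

lemma fixL_conj (g w : GL (Fin r) ℂ) : fixL (g * w * g⁻¹) = mapL g (fixL w) := by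
  have hgi : g⁻¹.1 * g.1 = 1 := by
    rw [← Units.val_mul]; simp
  have hgi' : g.1 * g⁻¹.1 = 1 := by
    rw [← Units.val_mul]; simp
  have hmem : ∀ (s : GL (Fin r) ℂ) (v : Fin r → ℂ), v ∈ fixL s ↔ s.1 *ᵥ v = v := by
    intro s v
    show Matrix.toLin' (s.1 - 1) v = 0 ↔ _
    rw [Matrix.toLin'_apply, Matrix.sub_mulVec, Matrix.one_mulVec, sub_eq_zero]
  ext v
  rw [hmem]
  constructor
  · intro h
    refine ⟨g⁻¹.1 *ᵥ v, ?_, ?_⟩
    · show g⁻¹.1 *ᵥ v ∈ fixL w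
      rw [hmem]
      have h1 : g⁻¹.1 *ᵥ ((g * w * g⁻¹).1 *ᵥ v) = g⁻¹.1 *ᵥ v := by rw [h]
      have h2 : g⁻¹.1 * (g * w * g⁻¹).1 = w.1 * g⁻¹.1 := by
        have : (g * w * g⁻¹).1 = g.1 * w.1 * g⁻¹.1 := rfl
        rw [this, ← mul_assoc, ← mul_assoc, hgi, one_mul]
      rw [Matrix.mulVec_mulVec, h2, ← Matrix.mulVec_mulVec] at h1
      exact h1
    · rw [Matrix.toLin'_apply, Matrix.mulVec_mulVec, hgi', Matrix.one_mulVec]
  · rintro ⟨u, hu, rfl⟩
    have hu' : w.1 *ᵥ u = u := (hmem w u).1 hu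
    rw [Matrix.toLin'_apply, Matrix.mulVec_mulVec]
    have h2 : (g * w * g⁻¹).1 * g.1 = g.1 * w.1 := by
      have : (g * w * g⁻¹).1 = g.1 * w.1 * g⁻¹.1 := rfl
      rw [this, mul_assoc, hgi, mul_one]
    rw [h2, ← Matrix.mulVec_mulVec, hu']

lemma mem_mapL (g : GL (Fin r) ℂ) (H : Submodule ℂ (Fin r → ℂ)) (u : Fin r → ℂ) (hu : u ∈ H) :
    g.1 *ᵥ u ∈ mapL g H := ⟨u, hu, by rw [Matrix.toLin'_apply]⟩

lemma mem_mapL_iff (g : GL (Fin r) ℂ) (H : Submodule ℂ (Fin r → ℂ)) (u : Fin r → ℂ) :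
    u ∈ mapL g H ↔ g⁻¹.1 *ᵥ u ∈ H := by
  have hgi : g⁻¹.1 * g.1 = 1 := by
    rw [← Units.val_mul]; simp
  have hgi' : g.1 * g⁻¹.1 = 1 := by
    rw [← Units.val_mul]; simp
  constructor
  · rintro ⟨x, hx, rfl⟩
    rw [Matrix.toLin'_apply, Matrix.mulVec_mulVec, hgi, Matrix.one_mulVec]
    exact hx
  · intro h
    refine ⟨_, h, ?_⟩
    rw [Matrix.toLin'_apply, Matrix.mulVec_mulVec, hgi', Matrix.one_mulVec]

omit [Fintype N] in
lemma ptStab_mapL (g : N) (H : Submodule ℂ (Fin r → ℂ)) (w : GL (Fin r) ℂ) :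
    w ∈ ptStab N H ↔ g.1 * w * g.1⁻¹ ∈ ptStab N (mapL g.1 H) := by
  have hgi : g.1⁻¹.1 * g.1.1 = 1 := by
    rw [← Units.val_mul]; simp
  constructor
  · rintro ⟨h1, h2⟩
    refine ⟨N.mul_mem (N.mul_mem g.2 h1) (N.inv_mem g.2), ?_⟩
    rintro v ⟨u, hu, rfl⟩
    rw [Matrix.toLin'_apply, Matrix.mulVec_mulVec]
    have : (g.1 * w * g.1⁻¹).1 = g.1.1 * w.1 * g.1⁻¹.1 := rfl
    rw [this, mul_assoc, hgi, mul_one, ← Matrix.mulVec_mulVec, h2 u hu]
  · rintro ⟨h1, h2⟩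
    have hw : w = g.1⁻¹ * (g.1 * w * g.1⁻¹) * g.1 := by group
    refine ⟨?_, ?_⟩
    · rw [hw]
      exact N.mul_mem (N.mul_mem (N.inv_mem g.2) h1) g.2
    · intro u hu
      have h3 := h2 _ (mem_mapL g.1 H u hu)
      have e : w.1 = g.1⁻¹.1 * (g.1 * w * g.1⁻¹).1 * g.1.1 := congrArg (fun z : GL (Fin r) ℂ => z.1) hw
      rw [e, ← Matrix.mulVec_mulVec, ← Matrix.mulVec_mulVec, h3, Matrix.mulVec_mulVec, hgi,
        Matrix.one_mulVec]

omit [Fintype N] in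
lemma eH_mapL (g : N) (H : Submodule ℂ (Fin r → ℂ)) : eH N (mapL g.1 H) = eH N H := by
  unfold eH
  refine (Nat.card_congr (Equiv.ofBijective
    (fun w : ptStab N H => (⟨g.1 * w.1 * g.1⁻¹, (ptStab_mapL g H w.1).1 w.2⟩ :
      ptStab N (mapL g.1 H))) ⟨?_, ?_⟩)).symm
  · intro a b h
    have h1 : g.1 * a.1 * g.1⁻¹ = g.1 * b.1 * g.1⁻¹ := congrArg (fun z => z.1) h
    apply Subtype.ext
    exact mul_left_cancel (mul_right_cancel h1)
  · intro b
    have e : g.1 * (g.1⁻¹ * b.1 * g.1) * g.1⁻¹ = b.1 := by group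
    refine ⟨⟨g.1⁻¹ * b.1 * g.1, (ptStab_mapL g H _).2 ?_⟩, ?_⟩
    · rw [e]; exact b.2
    · apply Subtype.ext
      exact e

lemma isRefl_conj_iff (g w : GL (Fin r) ℂ) : IsRefl (g * w * g⁻¹) ↔ IsRefl w := by
  constructor
  · intro h
    have := isRefl_conj (G := (⊤ : SG r)) (g := g⁻¹) h
    have e : g⁻¹ * (g * w * g⁻¹) * g⁻¹⁻¹ = w := by group
    rw [e] at this
    exact this
  · exact isRefl_conj (G := (⊤ : SG r))

lemma det_conj (g w : GL (Fin r) ℂ) : (g * w * g⁻¹).1.det = w.1.det := by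
  have hgi' : g.1 * g⁻¹.1 = 1 := by
    rw [← Units.val_mul]; simp
  have : (g * w * g⁻¹).1 = g.1 * w.1 * g⁻¹.1 := rfl
  have h2 : g.1.det * g⁻¹.1.det = 1 := by rw [← Matrix.det_mul, hgi', Matrix.det_one]
  rw [this, Matrix.det_mul, Matrix.det_mul]
  linear_combination w.1.det * h2

omit [Fintype N] in
/-- `cf_k` only depends on the orbit. -/
lemma cf_mapL (k : Idx N → ℂ) (g : N) (H H' : Arr N) (hH : H'.1 = mapL g.1 H.1)
    (w w' : GL (Fin r) ℂ) (hw : w'.1.det = w.1.det) : cf k H' w' = cf k H w := by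
  have he : eH N H'.1 = eH N H.1 := by rw [hH, eH_mapL]
  unfold cf
  rw [he, hw]
  refine Finset.sum_congr rfl fun j _ => ?_
  have : idx H' (j : ℤ) = idx H (j : ℤ) := by
    symm
    refine Quot.sound ⟨⟨g.1, g.2, hH⟩, ?_⟩
    show (eH N H.1 : ℤ) ∣ (j : ℤ) - (j : ℤ)
    rw [sub_self]
    exact dvd_zero _
  rw [this]

omit [Fintype N] in
lemma cr_conj (k : Idx N → ℂ) (g w : N) : cr k (g * w * g⁻¹) = cr k w := by
  unfold cr
  by_cases h : IsRefl w.1
  · have h' : IsRefl (g * w * g⁻¹).1 := (isRefl_conj_iff g.1 w.1).2 h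
    rw [dif_pos h, dif_pos h']
    exact cf_mapL k g _ _ (fixL_conj g.1 w.1) _ _ (det_conj g.1 w.1)
  · have h' : ¬ IsRefl (g * w * g⁻¹).1 := fun h2 => h ((isRefl_conj_iff g.1 w.1).1 h2)
    rw [dif_neg h, dif_neg h']

/-- A linear form vanishing on the kernel of `a ≠ 0` is a multiple of `a`. -/
lemma form_prop (a b : Fin r → ℂ) (ha : a ≠ 0) (hb : b ≠ 0)
    (h : ∀ v, a ⬝ᵥ v = 0 → b ⬝ᵥ v = 0) : ∃ c : ℂ, c ≠ 0 ∧ ∀ v, b ⬝ᵥ v = c * (a ⬝ᵥ v) := by
  obtain ⟨j, hj⟩ := Function.ne_iff.1 ha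
  have hj' : a j ≠ 0 := hj
  have hu : a ⬝ᵥ (Pi.single j (a j)⁻¹) = 1 := by
    rw [dotProduct_single, mul_inv_cancel₀ hj']
  have hc : ∀ v : Fin r → ℂ, b ⬝ᵥ v = (b ⬝ᵥ (Pi.single j (a j)⁻¹)) * (a ⬝ᵥ v) := by
    intro v
    have h1 := h (v - (a ⬝ᵥ v) • Pi.single j (a j)⁻¹) (by
      rw [dotProduct_sub, dotProduct_smul, hu, smul_eq_mul, mul_one, sub_self])
    rw [dotProduct_sub, dotProduct_smul, smul_eq_mul, sub_eq_zero] at h1
    rw [h1, mul_comm]
  refine ⟨_, ?_, hc⟩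
  intro h0
  apply hb
  funext i
  have := hc (Pi.single i 1)
  rw [h0, zero_mul] at this
  simpa using this

lemma rat_conj (g w : N) (hw : IsRefl w.1) (y v : Fin r → ℂ) :
    rat (fixL (g * w * g⁻¹).1) (g.1.1 *ᵥ y) v = rat (fixL w.1) y ((g⁻¹).1.1 *ᵥ v) := by
  have hgi : (g⁻¹).1.1 * g.1.1 = 1 := by
    have h3 : g⁻¹ * g = 1 := inv_mul_cancel g
    exact congrArg (fun z : N => z.1.1) h3
  have hgi' : g.1.1 * (g⁻¹).1.1 = 1 := by
    have h3 : g * g⁻¹ = 1 := mul_inv_cancel g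
    exact congrArg (fun z : N => z.1.1) h3
  have h' : IsRefl (g * w * g⁻¹).1 := (isRefl_conj_iff g.1 w.1).2 hw
  have s1 := lf_spec (N := N) ⟨fixL w.1, w.1, w.2, hw, rfl⟩
  have s2 := lf_spec (N := N) ⟨fixL (g * w * g⁻¹).1, (g * w * g⁻¹).1, (g * w * g⁻¹).2, h', rfl⟩
  have s1a : lf (fixL w.1) ≠ 0 := s1.1
  have s1b : ∀ v, v ∈ fixL w.1 ↔ lf (fixL w.1) ⬝ᵥ v = 0 := s1.2
  have s2a : lf (fixL (g * w * g⁻¹).1) ≠ 0 := s2.1
  have s2b : ∀ v, v ∈ fixL (g * w * g⁻¹).1 ↔ lf (fixL (g * w * g⁻¹).1) ⬝ᵥ v = 0 := s2.2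
  have hfx : fixL (g * w * g⁻¹).1 = mapL g.1 (fixL w.1) := fixL_conj g.1 w.1
  have hb0 : Matrix.vecMul (lf (fixL (g * w * g⁻¹).1)) g.1.1 ≠ 0 := by
    intro h0
    apply s2a
    have : Matrix.vecMul (Matrix.vecMul (lf (fixL (g * w * g⁻¹).1)) g.1.1) (g⁻¹).1.1 = 0 := by
      rw [h0, Matrix.zero_vecMul]
    rw [Matrix.vecMul_vecMul, hgi', Matrix.vecMul_one] at this
    exact this
  obtain ⟨c, hc0, hc⟩ := form_prop (lf (fixL w.1))
    (Matrix.vecMul (lf (fixL (g * w * g⁻¹).1)) g.1.1) s1a hb0 (by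
      intro u hu
      rw [← Matrix.dotProduct_mulVec]
      apply (s2b _).1
      rw [hfx]
      exact mem_mapL g.1 _ u ((s1b u).2 hu))
  have hv : lf (fixL (g * w * g⁻¹).1) ⬝ᵥ v =
      c * (lf (fixL w.1) ⬝ᵥ ((g⁻¹).1.1 *ᵥ v)) := by
    rw [← hc, ← Matrix.dotProduct_mulVec, Matrix.mulVec_mulVec, hgi', Matrix.one_mulVec]
  have hy : lf (fixL (g * w * g⁻¹).1) ⬝ᵥ (g.1.1 *ᵥ y) = c * (lf (fixL w.1) ⬝ᵥ y) := by
    rw [← hc, ← Matrix.dotProduct_mulVec]
  unfold rat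
  rw [hv, hy, mul_div_mul_left _ _ hc0]

/-! ### The chain rule -/

/-- Directional derivative of a polynomial, evaluated. -/
def dP (p : MvPolynomial (Fin r) ℂ) (y v : Fin r → ℂ) : ℂ :=
  ∑ a, y a * MvPolynomial.eval v (MvPolynomial.pderiv a p)

/-- Linear substitution. -/
def ls (M : Matrix (Fin r) (Fin r) ℂ) : MvPolynomial (Fin r) ℂ →ₐ[ℂ] MvPolynomial (Fin r) ℂ :=
  MvPolynomial.bind₁ (fun a => ∑ b, MvPolynomial.C (M a b) * MvPolynomial.X b)

lemma eval_ls (M : Matrix (Fin r) (Fin r) ℂ) (p : MvPolynomial (Fin r) ℂ) (v : Fin r → ℂ) :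
    MvPolynomial.eval v (ls M p) = MvPolynomial.eval (M *ᵥ v) p := by
  unfold ls
  rw [← MvPolynomial.coe_aeval_eq_eval, RingHom.coe_coe, MvPolynomial.aeval_bind₁,
    ← MvPolynomial.coe_aeval_eq_eval, RingHom.coe_coe]
  congr 2
  funext a
  simp [Matrix.mulVec, dotProduct]

lemma dP_add (p q : MvPolynomial (Fin r) ℂ) (y v : Fin r → ℂ) :
    dP (p + q) y v = dP p y v + dP q y v := by
  simp only [dP, map_add, mul_add, Finset.sum_add_distrib]

lemma dP_mul (p q : MvPolynomial (Fin r) ℂ) (y v : Fin r → ℂ) :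
    dP (p * q) y v = dP p y v * MvPolynomial.eval v q + MvPolynomial.eval v p * dP q y v := by
  simp only [dP, Derivation.leibniz, smul_eq_mul, map_add, map_mul, Finset.sum_mul,
    Finset.mul_sum]
  rw [← Finset.sum_add_distrib]
  exact Finset.sum_congr rfl fun a _ => by ring

lemma dP_C (c : ℂ) (y v : Fin r → ℂ) : dP (MvPolynomial.C c) y v = 0 := by
  simp [dP]

lemma dP_X (i : Fin r) (y v : Fin r → ℂ) : dP (MvPolynomial.X i) y v = y i := by
  unfold dP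
  rw [Finset.sum_eq_single i]
  · rw [MvPolynomial.pderiv_X_self, map_one, mul_one]
  · intro a _ ha
    rw [MvPolynomial.pderiv_X_of_ne ha.symm, map_zero, mul_zero]
  · intro h
    exact absurd (Finset.mem_univ i) h

lemma dP_sum {κ : Type} (s : Finset κ) (p : κ → MvPolynomial (Fin r) ℂ) (y v : Fin r → ℂ) :
    dP (∑ j ∈ s, p j) y v = ∑ j ∈ s, dP (p j) y v := by
  classical
  induction s using Finset.induction_on with
  | empty =>
    rw [Finset.sum_empty, Finset.sum_empty]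
    have := dP_C 0 y v
    simpa using this
  | insert a s ha ih => rw [Finset.sum_insert ha, Finset.sum_insert ha, dP_add, ih]

lemma dP_ls (M : Matrix (Fin r) (Fin r) ℂ) (p : MvPolynomial (Fin r) ℂ) (y v : Fin r → ℂ) :
    dP (ls M p) y v = dP p (M *ᵥ y) (M *ᵥ v) := by
  induction p using MvPolynomial.induction_on with
  | C a =>
    have : ls M (MvPolynomial.C a) = MvPolynomial.C a := by
      unfold ls; rw [MvPolynomial.bind₁_C_right]
    rw [this, dP_C, dP_C]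
  | add p q hp hq => rw [map_add, dP_add, dP_add, hp, hq]
  | mul_X p i hp =>
    have hX : ls M (MvPolynomial.X i) = ∑ b, MvPolynomial.C (M i b) * MvPolynomial.X b := by
      unfold ls; rw [MvPolynomial.bind₁_X_right]
    rw [map_mul, dP_mul, dP_mul, hp, eval_ls, eval_ls, dP_X, hX, dP_sum]
    congr 2
    simp only [Matrix.mulVec, dotProduct]
    refine Finset.sum_congr rfl fun b _ => ?_
    rw [dP_mul, dP_C, dP_X]
    simp

omit [Fintype N] in
lemma dirD_gAct {ι : Type} [Fintype ι] [DecidableEq ι] (ρ : N →* Matrix ι ι ℂ) (g : N)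
    (f : PolE r ι) (y v : Fin r → ℂ) :
    dirD (gAct ρ g f) (g.1.1 *ᵥ y) v = ρ g *ᵥ dirD f y ((g⁻¹).1.1 *ᵥ v) := by
  have hgi : (g⁻¹).1.1 * g.1.1 = 1 := by
    have h3 : g⁻¹ * g = 1 := inv_mul_cancel g
    exact congrArg (fun z : N => z.1.1) h3
  funext i
  show dP (∑ j, MvPolynomial.C (ρ g i j) * ls (g⁻¹).1.1 (f j)) (g.1.1 *ᵥ y) v =
    ∑ j, ρ g i j * dP (f j) y ((g⁻¹).1.1 *ᵥ v)
  rw [dP_sum]
  refine Finset.sum_congr rfl fun j _ => ?_
  rw [dP_mul, dP_C, dP_ls, Matrix.mulVec_mulVec, hgi, Matrix.one_mulVec]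
  simp

end DunEX

theorem gAct_dunkl {ι : Type} [Fintype ι] [DecidableEq ι] (ρ : N →* Matrix ι ι ℂ) (t : ℂ)
    (k : Idx N → ℂ) (y : Fin r → ℂ) (g : N) :
    gAct ρ g * dunkl ρ t k y = dunkl ρ t k (g.1.1 *ᵥ y) * gAct ρ g := by
  apply LinearMap.ext
  intro f
  show gAct ρ g (dunkl ρ t k y f) = dunkl ρ t k (g.1.1 *ᵥ y) (gAct ρ g f)
  apply evE_ext (N := N)
  intro v
  have e1 := dunkl_spec ρ t k y f (g⁻¹ • v)
  have e2 := dunkl_spec ρ t k (g.1.1 *ᵥ y) (gAct ρ g f) v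
  rw [smul_val] at e1
  rw [evE_gAct, e1, e2, dirD_gAct, Matrix.mulVec_add, Matrix.mulVec_smul, Matrix.mulVec_sum]
  congr 1
  refine Eq.trans ?_ (Equiv.sum_comp (MulAut.conj g).toEquiv _)
  refine Finset.sum_congr rfl fun w _ => ?_
  have hc : (MulAut.conj g).toEquiv w = g * w * g⁻¹ := rfl
  rw [hc, cr_conj]
  by_cases h : IsRefl w.1
  · have h1 : g * w * g⁻¹ * g = g * w := by group
    have h2 : (w⁻¹).1.1 * (g⁻¹).1.1 = (g⁻¹).1.1 * ((g * w * g⁻¹)⁻¹).1.1 := by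
      have h3 : w⁻¹ * g⁻¹ = g⁻¹ * (g * w * g⁻¹)⁻¹ := by group
      exact congrArg (fun z : N => z.1.1) h3
    have h4 : (w⁻¹).1.1 *ᵥ ((g⁻¹).1.1 *ᵥ v.1) =
        (g⁻¹).1.1 *ᵥ (((g * w * g⁻¹)⁻¹).1.1 *ᵥ v.1) := by
      rw [Matrix.mulVec_mulVec, Matrix.mulVec_mulVec, h2]
    have h5 : ∀ u : ι → ℂ, ρ g *ᵥ (ρ w *ᵥ u) = ρ (g * w * g⁻¹) *ᵥ (ρ g *ᵥ u) := by
      intro u
      rw [Matrix.mulVec_mulVec, Matrix.mulVec_mulVec, ← map_mul, ← map_mul, h1]
    rw [rat_conj g w h, Matrix.mulVec_smul, evE_gAct, evE_gAct, ← Matrix.mulVec_sub, h4, h5]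
  · have : cr k w = 0 := by
      unfold cr
      rw [dif_neg h]
    rw [this]
    simp

end

end Pool.Agent.CMFn
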