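import Pool.Agent.CMFn.DDefs
import Pool.Agent.CMFn.DunA
import Pool.Agent.CMFn.DunC
import Pool.Agent.CMFn.DunD
import Pool.Agent.CMFn.DunE

/-! Project CMF, module DunF: the relations between the Dunkl operators, the coordinate
functions and each other (paper: store file cmf_h33.md, section 1). -/

namespace Pool.Agent.CMFn

open Matrix

noncomputable section

variable {r : ℕ} {N : SG r} [Fintype N]

namespace DunFX

/-- The reflecting line of a reflection. -/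
def lin (w : N) (h : IsRefl w.1) : Arr N := ⟨fixL w.1, w.1, w.2, h, rfl⟩

omit [Fintype N] in
lemma mem_fixL (w : GL (Fin r) ℂ) (v : Fin r → ℂ) : v ∈ fixL w ↔ w.1 *ᵥ v = v := by
  unfold fixL
  rw [LinearMap.mem_ker, Matrix.toLin'_apply, Matrix.sub_mulVec, Matrix.one_mulVec, sub_eq_zero]

lemma det_ne_zero (w : GL (Fin r) ℂ) : w.1.det ≠ 0 := by
  have h : IsUnit w.1.det := (Matrix.isUnit_iff_isUnit_det w.1).1 w.isUnit
  exact h.ne_zero

lemma det_ne_one (w : N) (h : IsRefl w.1) : w.1.1.det ≠ 1 := by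
  intro hd
  have h1 : w = 1 := by
    refine refl_ext (lin w h) w 1 ?_ ?_ ?_
    · intro v hv
      exact (mem_fixL w.1 v).1 hv
    · intro v _
      show (1 : Matrix (Fin r) (Fin r) ℂ) *ᵥ v = v
      simp
    · rw [hd]
      show 1 = (1 : Matrix (Fin r) (Fin r) ℂ).det
      simp
  rw [h1] at h
  have h2 : (((1 : N).1.1 : Matrix (Fin r) (Fin r) ℂ) - 1).rank = 1 := h
  have h3 : ((1 : N).1.1 : Matrix (Fin r) (Fin r) ℂ) - 1 = 0 := sub_self _
  rw [h3, Matrix.rank_zero] at h2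
  exact absurd h2 zero_ne_one

/-- A reflection has the form `u ↦ u + α(u) β`. -/
lemma exists_beta (w : N) (h : IsRefl w.1) : ∃ β : Fin r → ℂ,
    (∀ u, w.1.1 *ᵥ u = u + (lf (fixL w.1) ⬝ᵥ u) • β) ∧
    (∀ u, (w⁻¹).1.1 *ᵥ u = u - (w.1.1.det⁻¹ * (lf (fixL w.1) ⬝ᵥ u)) • β) := by
  obtain ⟨h0, hs⟩ := lf_spec (lin w h)
  have hs' : ∀ v, w.1.1 *ᵥ v = v ↔ lf (fixL w.1) ⬝ᵥ v = 0 := fun v =>
    (mem_fixL w.1 v).symm.trans (hs v)
  have hm : ∀ u, lf (fixL w.1) ⬝ᵥ (w.1.1 *ᵥ u) = w.1.1.det * (lf (fixL w.1) ⬝ᵥ u) := fun u =>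
    lf_mul (lin w h) w (fun v hv => (mem_fixL w.1 v).1 hv) u
  obtain ⟨u₀, hu₀⟩ : ∃ u₀, lf (fixL w.1) ⬝ᵥ u₀ ≠ 0 := by
    by_contra hcon
    push Not at hcon
    apply h0
    show lf (fixL w.1) = 0
    funext i
    have := hcon (Pi.single i 1)
    simpa using this
  set α := lf (fixL w.1) with hα
  have hd0 := det_ne_zero w.1
  set d := w.1.1.det with hd
  set β : Fin r → ℂ := (α ⬝ᵥ u₀)⁻¹ • (w.1.1 *ᵥ u₀ - u₀) with hβ
  have hw : ∀ u, w.1.1 *ᵥ u = u + (α ⬝ᵥ u) • β := by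
    intro u
    have h1 : α ⬝ᵥ (u - ((α ⬝ᵥ u) * (α ⬝ᵥ u₀)⁻¹) • u₀) = 0 := by
      rw [dotProduct_sub, dotProduct_smul, smul_eq_mul]
      field_simp
      ring
    have h2 := (hs' _).2 h1
    rw [Matrix.mulVec_sub, Matrix.mulVec_smul] at h2
    have h3 : w.1.1 *ᵥ u = ((α ⬝ᵥ u) * (α ⬝ᵥ u₀)⁻¹) • (w.1.1 *ᵥ u₀) +
        (u - ((α ⬝ᵥ u) * (α ⬝ᵥ u₀)⁻¹) • u₀) := by
      rw [← h2]; abel
    rw [h3, hβ, smul_smul, smul_sub]
    abel
  have hαβ : α ⬝ᵥ β = d - 1 := by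
    have h1 := hm u₀
    rw [hw u₀, dotProduct_add, dotProduct_smul, smul_eq_mul] at h1
    have h2 : (α ⬝ᵥ u₀) * (α ⬝ᵥ β) = (α ⬝ᵥ u₀) * (d - 1) := by linear_combination h1
    exact mul_left_cancel₀ hu₀ h2
  refine ⟨β, hw, fun u => ?_⟩
  have h1 : w.1.1 *ᵥ (u - (d⁻¹ * (α ⬝ᵥ u)) • β) = u := by
    rw [hw, dotProduct_sub, dotProduct_smul, smul_eq_mul, hαβ]
    funext i
    simp only [Pi.add_apply, Pi.sub_apply, Pi.smul_apply, smul_eq_mul]
    field_simp
    ring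
  have h2 : (w⁻¹).1.1 * w.1.1 = 1 := by
    have : (w⁻¹ * w : N) = 1 := inv_mul_cancel w
    have h3 := congrArg (fun z : N => z.1.1) this
    exact h3
  calc (w⁻¹).1.1 *ᵥ u = (w⁻¹).1.1 *ᵥ (w.1.1 *ᵥ (u - (d⁻¹ * (α ⬝ᵥ u)) • β)) := by rw [h1]
    _ = _ := by rw [Matrix.mulVec_mulVec, h2, Matrix.one_mulVec]

omit [Fintype N] in
/-- The pointwise stabiliser as a subgroup. -/
def ptSub (N : SG r) (H : Submodule ℂ (Fin r → ℂ)) : Subgroup (GL (Fin r) ℂ) where
  carrier := ptStab N H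
  mul_mem' := by
    rintro a b ⟨ha, ha'⟩ ⟨hb, hb'⟩
    refine ⟨N.mul_mem ha hb, fun v hv => ?_⟩
    show (a.1 * b.1) *ᵥ v = v
    rw [← Matrix.mulVec_mulVec, hb' v hv, ha' v hv]
  one_mem' := ⟨N.one_mem, fun v _ => by simp⟩
  inv_mem' := by
    rintro a ⟨ha, ha'⟩
    refine ⟨N.inv_mem ha, fun v hv => ?_⟩
    have h2 : (a⁻¹).1 * a.1 = 1 := by
      rw [← Units.val_mul, inv_mul_cancel]; rfl
    calc (a⁻¹).1 *ᵥ v = (a⁻¹).1 *ᵥ (a.1 *ᵥ v) := by rw [ha' v hv]
      _ = v := by rw [Matrix.mulVec_mulVec, h2, Matrix.one_mulVec]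

omit [Fintype N] in
lemma det_pow (w : N) (H : Submodule ℂ (Fin r → ℂ)) (hw : ∀ v ∈ H, w.1.1 *ᵥ v = v) :
    w.1.1.det ^ eH N H = 1 := by
  have h1 : (⟨w.1, w.2, hw⟩ : ptSub N H) ^ Nat.card (ptSub N H) = 1 := pow_card_eq_one'
  have h2 : ((⟨w.1, w.2, hw⟩ : ptSub N H) ^ Nat.card (ptSub N H)).1.1.det =
      (1 : ptSub N H).1.1.det := by rw [h1]
  have h3 : ((⟨w.1, w.2, hw⟩ : ptSub N H) ^ Nat.card (ptSub N H)).1.1 =
      w.1.1 ^ Nat.card (ptSub N H) := by
    rw [SubmonoidClass.coe_pow, Units.val_pow_eq_pow_val]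
  have h4 : (1 : ptSub N H).1.1 = (1 : Matrix (Fin r) (Fin r) ℂ) := rfl
  rw [h3, h4, Matrix.det_pow, Matrix.det_one] at h2
  exact h2

omit [Fintype N] in
lemma cr_eq (k : Idx N → ℂ) (w : N) (h : IsRefl w.1) :
    cr k w = ∑ j ∈ Finset.range (eH N (fixL w.1)), k (idx (lin w h) j) * w.1.1.det ^ j := by
  unfold cr
  rw [dif_pos h]
  rfl

/-- `c_k(w) = (det(w)⁻¹ - 1) cf_k(w)`. -/
lemma cK_eq (k : Idx N → ℂ) (w : N) : cK k w = (w.1.1.det⁻¹ - 1) * cr k w := by
  by_cases h : IsRefl w.1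
  · have hd0 := det_ne_zero w.1
    have hfix : ∀ v ∈ fixL w.1, w.1.1 *ᵥ v = v := fun v hv => (mem_fixL w.1 v).1 hv
    have hp := det_pow w (fixL w.1) hfix
    rw [cr_eq k w h]
    unfold cK
    rw [dif_pos h]
    show ∑ j ∈ Finset.range (eH N (fixL w.1)), w.1.1.det ^ j *
      (k (idx (lin w h) (j + 1)) - k (idx (lin w h) j)) = _
    set e := eH N (fixL w.1) with he
    set d := w.1.1.det with hd
    set H := lin w h with hH
    let g : ℕ → ℂ := fun j => k (idx H (j : ℤ)) * d ^ j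
    have hper : k (idx H (e : ℤ)) = k (idx H 0) := by
      have h1 := idx_emod N H (e : ℤ)
      have h2 : (e : ℤ) % (eH N H.1 : ℤ) = 0 := by
        show (e : ℤ) % (e : ℤ) = 0
        exact Int.emod_self
      rw [← h1, h2]
    have hsum : ∑ j ∈ Finset.range e, g (j + 1) = ∑ j ∈ Finset.range e, g j := by
      have h1 := Finset.sum_range_succ' g e
      have h2 := Finset.sum_range_succ g e
      have h3 : g e = g 0 := by
        show k (idx H (e : ℤ)) * d ^ e = k (idx H ((0 : ℕ) : ℤ)) * d ^ 0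
        rw [hper, hp]; simp
      rw [h2, h3] at h1
      exact (add_right_cancel h1).symm
    have hL : ∑ j ∈ Finset.range e, d ^ j * (k (idx H ((j : ℤ) + 1)) - k (idx H (j : ℤ))) =
        d⁻¹ * ∑ j ∈ Finset.range e, g (j + 1) - ∑ j ∈ Finset.range e, g j := by
      rw [Finset.mul_sum, ← Finset.sum_sub_distrib]
      refine Finset.sum_congr rfl fun j _ => ?_
      show d ^ j * (k (idx H ((j : ℤ) + 1)) - k (idx H (j : ℤ))) =
        d⁻¹ * (k (idx H (((j + 1 : ℕ)) : ℤ)) * d ^ (j + 1)) - k (idx H (j : ℤ)) * d ^ j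
      have hc : (((j + 1 : ℕ)) : ℤ) = (j : ℤ) + 1 := by push_cast; ring
      rw [hc, pow_succ]
      field_simp
    rw [hL, hsum]
    show _ = (d⁻¹ - 1) * ∑ j ∈ Finset.range e, g j
    ring
  · unfold cK cr
    rw [dif_neg h, dif_neg h, mul_zero]

omit [Fintype N] in
lemma cK_zero (k : Idx N → ℂ) (w : N) (h : ¬ IsRefl w.1) : cK k w = 0 := by
  unfold cK
  rw [dif_neg h]

lemma xAct_apply {ι : Type} (a : Fin r) (f : PolE r ι) (i : ι) :
    xAct ι a f i = MvPolynomial.X a * f i := rfl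

lemma evE_apply {ι : Type} (f : PolE r ι) (v : Fin r → ℂ) (i : ι) :
    evE f v i = MvPolynomial.eval v (f i) := rfl

lemma dirD_apply {ι : Type} (f : PolE r ι) (y v : Fin r → ℂ) (i : ι) :
    dirD f y v i = ∑ a, y a * MvPolynomial.eval v (MvPolynomial.pderiv a (f i)) := rfl

lemma evE_xAct {ι : Type} (a : Fin r) (f : PolE r ι) (v : Fin r → ℂ) :
    evE (xAct ι a f) v = v a • evE f v := by
  funext i
  rw [Pi.smul_apply, evE_apply, evE_apply, xAct_apply, map_mul, MvPolynomial.eval_X, smul_eq_mul]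

lemma dirD_xAct {ι : Type} (a : Fin r) (f : PolE r ι) (y v : Fin r → ℂ) :
    dirD (xAct ι a f) y v = y a • evE f v + v a • dirD f y v := by
  funext i
  rw [Pi.add_apply, Pi.smul_apply, Pi.smul_apply, dirD_apply, dirD_apply, evE_apply, xAct_apply,
    smul_eq_mul, smul_eq_mul]
  have h : ∀ b, y b * MvPolynomial.eval v (MvPolynomial.pderiv b (MvPolynomial.X a * f i)) =
      v a * (y b * MvPolynomial.eval v (MvPolynomial.pderiv b (f i))) +
        (if b = a then y b * MvPolynomial.eval v (f i) else 0) := by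
    intro b
    rw [Derivation.leibniz]
    rcases eq_or_ne b a with rfl | hb
    · simp
      ring
    · simp [MvPolynomial.pderiv_X_of_ne hb.symm, hb]
      ring
  rw [Finset.sum_congr rfl (fun b _ => h b), Finset.sum_add_distrib, Finset.mul_sum]
  simp
  ring

lemma evE_add {ι : Type} (f g : PolE r ι) (v : Fin r → ℂ) : evE (f + g) v = evE f v + evE g v := by
  funext i
  rw [Pi.add_apply, evE_apply, evE_apply, evE_apply, Pi.add_apply, map_add]

lemma evE_smul {ι : Type} (c : ℂ) (f : PolE r ι) (v : Fin r → ℂ) :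
    evE (c • f) v = c • evE f v := by
  funext i
  rw [Pi.smul_apply, evE_apply, evE_apply, Pi.smul_apply, MvPolynomial.smul_eval, smul_eq_mul]

lemma evE_sum {ι J : Type} (s : Finset J) (f : J → PolE r ι) (v : Fin r → ℂ) :
    evE (∑ j ∈ s, f j) v = ∑ j ∈ s, evE (f j) v := by
  funext i
  simp [evE]

/-- The scalar identity behind `dunkl_x`. -/
lemma key_scalar (k : Idx N → ℂ) (w : N) (y : Fin r → ℂ) (v : VReg N) (a : Fin r) :
    cr k w * rat (fixL w.1) y v.1 * (((w⁻¹).1.1 *ᵥ v.1) a - v.1 a) =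
      cK k w * (((1 - w.1.1) *ᵥ y) a / (1 - w.1.1.det)) := by
  by_cases h : IsRefl w.1
  · obtain ⟨β, h1, h2⟩ := exists_beta w h
    have hd0 := det_ne_zero w.1
    have hd1 := det_ne_one w h
    have hd1' : 1 - w.1.1.det ≠ 0 := sub_ne_zero.2 (Ne.symm hd1)
    have hv : lf (fixL w.1) ⬝ᵥ v.1 ≠ 0 := (vreg_iff v.1).1 v.2 (lin w h)
    rw [cK_eq, h2, Matrix.sub_mulVec, h1, Matrix.one_mulVec]
    unfold rat
    simp only [Pi.add_apply, Pi.sub_apply, Pi.smul_apply, smul_eq_mul]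
    field_simp
    ring
  · rw [cK_zero k w h]
    unfold cr
    rw [dif_neg h]
    ring

end DunFX

open DunFX

/-- Relations. `c_k` is `cK k`. -/
theorem dunkl_x {ι : Type} [Fintype ι] [DecidableEq ι] (ρ : N →* Matrix ι ι ℂ) (t : ℂ)
    (k : Idx N → ℂ) (y : Fin r → ℂ) (a : Fin r) (f : PolE r ι) :
    dunkl ρ t k y (xAct ι a f) = xAct ι a (dunkl ρ t k y f) + (t * y a) • f +
      ∑ w : N, (cK k w * (((1 - w.1.1) *ᵥ y) a / (1 - w.1.1.det))) • gAct ρ w f := by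
  refine evE_ext (N := N) _ _ fun v => ?_
  rw [dunkl_spec ρ t k y (xAct ι a f) v, evE_add, evE_add, evE_smul, evE_sum,
    evE_xAct a (dunkl ρ t k y f), dunkl_spec ρ t k y f v, dirD_xAct]
  have h : ∀ w : N, (cr k w * rat (fixL w.1) y v.1) •
      (ρ w *ᵥ (evE (xAct ι a f) ((w⁻¹).1.1 *ᵥ v.1) - evE (xAct ι a f) v.1)) =
      v.1 a • ((cr k w * rat (fixL w.1) y v.1) •
        (ρ w *ᵥ (evE f ((w⁻¹).1.1 *ᵥ v.1) - evE f v.1))) +
      evE ((cK k w * (((1 - w.1.1) *ᵥ y) a / (1 - w.1.1.det))) • gAct ρ w f) v.1 := by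
    intro w
    rw [evE_smul, evE_gAct, ← key_scalar k w y v a, evE_xAct, evE_xAct, Matrix.mulVec_sub,
      Matrix.mulVec_sub, Matrix.mulVec_smul, Matrix.mulVec_smul]
    funext i
    simp only [Pi.add_apply, Pi.sub_apply, Pi.smul_apply, smul_eq_mul]
    ring
  rw [Finset.sum_congr rfl (fun w _ => h w), Finset.sum_add_distrib, ← Finset.smul_sum]
  funext i
  simp only [Pi.add_apply, Pi.smul_apply, smul_eq_mul]
  ring

namespace DunFX

/-- The coefficient of `w` in `[D_y, x_a]`. -/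
def cc (k : Idx N → ℂ) (w : N) (y : Fin r → ℂ) (a : Fin r) : ℂ :=
  cK k w * (((1 - w.1.1) *ᵥ y) a / (1 - w.1.1.det))

variable {ι : Type} [Fintype ι] [DecidableEq ι] (ρ : N →* Matrix ι ι ℂ) (t : ℂ) (k : Idx N → ℂ)

lemma dunkl_sub (y y' : Fin r → ℂ) (f : PolE r ι) :
    dunkl ρ t k (y - y') f = dunkl ρ t k y f - dunkl ρ t k y' f := by
  have h := dunkl_liny ρ t k (-1) y' y
  have h1 : (-1 : ℂ) • y' + y = y - y' := by
    rw [neg_smul, one_smul]; abel
  rw [h1] at h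
  rw [h]
  rw [LinearMap.add_apply, LinearMap.smul_apply, neg_smul, one_smul]
  abel

lemma dunkl_smul (c : ℂ) (y : Fin r → ℂ) (f : PolE r ι) :
    dunkl ρ t k (c • y) f = c • dunkl ρ t k y f := by
  have h0 : dunkl ρ t k 0 f = 0 := by
    have h := dunkl_sub ρ t k 0 0 f
    rw [sub_self, sub_self] at h
    exact h
  have h := dunkl_liny ρ t k c y 0
  rw [add_zero] at h
  rw [h, LinearMap.add_apply, LinearMap.smul_apply, h0, add_zero]

lemma dunkl_gAct (w : N) (y : Fin r → ℂ) (f : PolE r ι) :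
    dunkl ρ t k y (gAct ρ w f) = gAct ρ w (dunkl ρ t k ((w⁻¹).1.1 *ᵥ y) f) := by
  have h := gAct_dunkl ρ t k ((w⁻¹).1.1 *ᵥ y) w
  have h2 : w.1.1 *ᵥ ((w⁻¹).1.1 *ᵥ y) = y := by
    have h3 : w.1.1 * (w⁻¹).1.1 = 1 := by
      have h4 : (w * w⁻¹ : N) = 1 := mul_inv_cancel w
      exact congrArg (fun z : N => z.1.1) h4
    rw [Matrix.mulVec_mulVec, h3, Matrix.one_mulVec]
  rw [h2] at h
  have h5 := congrArg (fun D : Module.End ℂ (PolE r ι) => D f) h
  exact h5.symm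

/-- The antisymmetric part of the group terms vanishes, for each `w`. -/
lemma cc_sym (w : N) (y y' : Fin r → ℂ) (a : Fin r) (f : PolE r ι) :
    cc k w y a • gAct ρ w (dunkl ρ t k y' f) + cc k w y' a • dunkl ρ t k y (gAct ρ w f) =
    cc k w y' a • gAct ρ w (dunkl ρ t k y f) + cc k w y a • dunkl ρ t k y' (gAct ρ w f) := by
  by_cases h : IsRefl w.1
  · obtain ⟨β, h1, h2⟩ := exists_beta w h
    rw [dunkl_gAct, dunkl_gAct, h2, h2, dunkl_sub, dunkl_sub, dunkl_smul, dunkl_smul, map_sub,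
      map_sub, map_smul, map_smul]
    have hc : ∀ u : Fin r → ℂ, cc k w u a =
        -(cK k w * (β a / (1 - w.1.1.det))) * (lf (fixL w.1) ⬝ᵥ u) := by
      intro u
      unfold cc
      rw [Matrix.sub_mulVec, h1, Matrix.one_mulVec]
      simp only [Pi.add_apply, Pi.sub_apply, Pi.smul_apply, smul_eq_mul]
      ring
    rw [hc y, hc y']
    generalize gAct ρ w (dunkl ρ t k β f) = A
    generalize gAct ρ w (dunkl ρ t k y f) = B
    generalize gAct ρ w (dunkl ρ t k y' f) = C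
    rw [smul_sub, smul_sub, smul_smul, smul_smul]
    have h3 : -(cK k w * (β a / (1 - w.1.1.det))) * (lf (fixL w.1) ⬝ᵥ y') *
        ((w.1.1.det)⁻¹ * (lf (fixL w.1) ⬝ᵥ y)) =
        -(cK k w * (β a / (1 - w.1.1.det))) * (lf (fixL w.1) ⬝ᵥ y) *
        ((w.1.1.det)⁻¹ * (lf (fixL w.1) ⬝ᵥ y')) := by ring
    rw [h3]
    abel
  · unfold cc
    rw [cK_zero k w h]
    simp

lemma dunkl_xc (y : Fin r → ℂ) (a : Fin r) (f : PolE r ι) :
    dunkl ρ t k y (xAct ι a f) = xAct ι a (dunkl ρ t k y f) + (t * y a) • f +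
      ∑ w : N, cc k w y a • gAct ρ w f := dunkl_x ρ t k y a f

lemma two_x (y y' : Fin r → ℂ) (a : Fin r) (f : PolE r ι) :
    dunkl ρ t k y (dunkl ρ t k y' (xAct ι a f)) =
      xAct ι a (dunkl ρ t k y (dunkl ρ t k y' f)) +
      ((t * y a) • dunkl ρ t k y' f + (t * y' a) • dunkl ρ t k y f) +
      ∑ w : N, (cc k w y a • gAct ρ w (dunkl ρ t k y' f) +
        cc k w y' a • dunkl ρ t k y (gAct ρ w f)) := by
  rw [dunkl_xc ρ t k y' a f, map_add, map_add, dunkl_xc ρ t k y a (dunkl ρ t k y' f), map_smul,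
    map_sum, Finset.sum_add_distrib]
  rw [Finset.sum_congr rfl (fun w _ => map_smul (dunkl ρ t k y) (cc k w y' a) (gAct ρ w f))]
  abel

/-- A submodule stable under the coordinate functions and containing the constants is the
whole space. -/
lemma top_of_stable (M : Submodule ℂ (PolE r ι)) (h0 : ∀ f ∈ homE r ι 0, f ∈ M)
    (hx : ∀ a, ∀ f ∈ M, xAct ι a f ∈ M) (f : PolE r ι) : f ∈ M := by
  have h1 : ∀ (i : ι) (p : MvPolynomial (Fin r) ℂ), (Pi.single i p : PolE r ι) ∈ M := by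
    intro i p
    induction p using MvPolynomial.induction_on with
    | C c =>
      refine h0 _ fun j => ?_
      rcases eq_or_ne j i with rfl | hj
      · rw [Pi.single_eq_same]
        exact MvPolynomial.isHomogeneous_C _ _
      · rw [Pi.single_eq_of_ne hj]
        exact MvPolynomial.isHomogeneous_zero _ _ _
    | add p q hp hq =>
      rw [Pi.single_add]
      exact M.add_mem hp hq
    | mul_X p a hp =>
      have h2 : (Pi.single i (p * MvPolynomial.X a) : PolE r ι) = xAct ι a (Pi.single i p) := by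
        funext j
        rw [xAct_apply]
        rcases eq_or_ne j i with rfl | hj
        · rw [Pi.single_eq_same, Pi.single_eq_same, mul_comm]
        · rw [Pi.single_eq_of_ne hj, Pi.single_eq_of_ne hj, mul_zero]
      rw [h2]
      exact hx a _ hp
  have h2 : f = ∑ i, (Pi.single i (f i) : PolE r ι) := (Finset.univ_sum_single f).symm
  rw [h2]
  exact M.sum_mem fun i _ => h1 i (f i)

end DunFX

theorem dunkl_comm {ι : Type} [Fintype ι] [DecidableEq ι] (ρ : N →* Matrix ι ι ℂ) (t : ℂ)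
    (k : Idx N → ℂ) (y y' : Fin r → ℂ) :
    dunkl ρ t k y * dunkl ρ t k y' = dunkl ρ t k y' * dunkl ρ t k y := by
  let T : Module.End ℂ (PolE r ι) :=
    dunkl ρ t k y * dunkl ρ t k y' - dunkl ρ t k y' * dunkl ρ t k y
  have hT : ∀ f, T f = dunkl ρ t k y (dunkl ρ t k y' f) - dunkl ρ t k y' (dunkl ρ t k y f) :=
    fun f => rfl
  have hTx : ∀ a f, T (xAct ι a f) = xAct ι a (T f) := by
    intro a f
    rw [hT, hT, two_x, two_x, map_sub,
      Finset.sum_congr rfl (fun w _ => cc_sym ρ t k w y y' a f)]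
    abel
  have hT0 : ∀ f ∈ homE r ι 0, T f = 0 := by
    intro f hf
    rw [hT, dunkl_deg0 ρ t k y' f hf, dunkl_deg0 ρ t k y f hf, map_zero, map_zero, sub_zero]
  have hz : ∀ f, T f = 0 := by
    intro f
    have h := top_of_stable (LinearMap.ker T)
      (fun f hf => LinearMap.mem_ker.2 (hT0 f hf))
      (fun a f hf => by
        rw [LinearMap.mem_ker] at hf ⊢
        rw [hTx, hf, map_zero]) f
    exact LinearMap.mem_ker.1 h
  refine LinearMap.ext fun f => ?_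
  have h := hz f
  rw [hT] at h
  exact sub_eq_zero.1 h

end

end Pool.Agent.CMFn
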