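import Pool.Agent.CMFn.NDefs

/-! Project CMFn: the Verma modules and their complexes of homogeneous forms. -/

namespace Pool.Agent.CMFn

open Matrix

noncomputable section

variable {r : ℕ} {N : SG r} [Fintype N]

/-- `Φ` is an action of `H_{0,c}` on `P = ℂ[V] ⊗ ℂ^{d'}` by Dunkl operators. -/
structure IsVerma (c : N → ℂ) {d' : ℕ} (σ : N →* Matrix (Fin d') (Fin d') ℂ)
    (Φ : H0 N c →ₐ[ℂ] Module.End ℂ (PolE r (Fin d'))) : Prop where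
  X : ∀ j, Φ (rX c j) = xAct _ j
  T : ∀ g, Φ (rT c g) = gAct σ g
  Ydeg : ∀ i n, ∀ f ∈ homE r (Fin d') (n + 1), Φ (rY c i) f ∈ homE r (Fin d') n
  Y0 : ∀ i, ∀ f ∈ homE r (Fin d') 0, Φ (rY c i) f = 0

/-- The operators `y_v`. -/
def vY {c : N → ℂ} {d' : ℕ} (Φ : H0 N c →ₐ[ℂ] Module.End ℂ (PolE r (Fin d'))) :
    (Fin r → ℂ) →ₗ[ℂ] Module.End ℂ (PolE r (Fin d')) :=
  ∑ i, (LinearMap.proj i : (Fin r → ℂ) →ₗ[ℂ] ℂ).smulRight (Φ (rY c i))

/-- Forms of degree `i` with homogeneous values of degree `a`, of type `ρ`. -/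
def Kia {d d' : ℕ} (ρ : N →* Matrix (Fin d) (Fin d) ℂ) (σ : N →* Matrix (Fin d') (Fin d') ℂ)
    (i a : ℕ) : Submodule ℂ (KV r i (PolE r (Fin d'))) where
  carrier := {ω | (∀ v, ω v ∈ homE r (Fin d') a) ∧ pK (fun g => gAct σ g) ρ i ω = ω}
  add_mem' h h' := ⟨fun v => (homE r (Fin d') a).add_mem (h.1 v) (h'.1 v), by
    rw [map_add, h.2, h'.2]⟩
  zero_mem' := ⟨fun v => (homE r (Fin d') a).zero_mem, map_zero _⟩
  smul_mem' c _ h := ⟨fun v => (homE r (Fin d') a).smul_mem c (h.1 v), by rw [map_smul, h.2]⟩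

end

end Pool.Agent.CMFn
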