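import Pool.Agent.CMFn.Kos
import Pool.Agent.CMFn.VDefs

/-! Project CMFn: `dh + hd = β_ρ - β_σ` on the Koszul complex of a Verma module. -/

namespace Pool.Agent.CMFn

open Matrix

noncomputable section

variable {r : ℕ} {N : SG r} [Fintype N]

/-- `b(s) = c(s) det(s)/(1 - det s)`. -/
def bb (c : N → ℂ) (s : N) : ℂ :=
  open Classical in if IsRefl s.1 then c s * s.1.1.det / (1 - s.1.1.det) else 0

namespace EuX

/-! ### Relations -/

section rel

variable (c : N → ℂ)

lemma rT_one : rT c 1 = 1 := by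
  have h := RingQuot.mkAlgHom_rel ℂ (HRel.one (N := N) (c := c))
  rw [map_one] at h
  exact h

lemma rT_mul (g h : N) : rT c (g * h) = rT c g * rT c h := by
  have h := RingQuot.mkAlgHom_rel ℂ (HRel.mul (N := N) (c := c) g h)
  rw [map_mul] at h
  exact h

/-- Coefficient of `s` in `[y_i, x_j]`, as a function of the matrix entry. -/
def cc (s : N) : ℂ := open Classical in if IsRefl s.1 then c s / (1 - s.1.1.det) else 0

lemma rYX (i j : Fin r) : rY c i * rX c j =
    rX c j * rY c i + ∑ s : N, (cc c s * (1 - s.1.1) j i) • rT c s := by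
  have h := RingQuot.mkAlgHom_rel ℂ (HRel.YX (N := N) (c := c) i j)
  rw [map_mul, map_add, map_mul, map_sum] at h
  refine h.trans ?_
  congr 1
  refine Finset.sum_congr rfl fun s _ => ?_
  rw [map_mul, AlgHom.commutes, ← Algebra.smul_def]
  unfold cc
  by_cases hs : IsRefl s.1
  · rw [if_pos hs, if_pos hs]
    congr 1
    ring
  · rw [if_neg hs, if_neg hs, zero_mul, zero_smul, zero_smul]

lemma rTX (g : N) (i : Fin r) : rT c g * rX c i =
    (∑ j, (g⁻¹).1.1 i j • rX c j) * rT c g := by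
  have h := RingQuot.mkAlgHom_rel ℂ (HRel.TX (N := N) (c := c) g i)
  rw [map_mul, map_mul, map_sum] at h
  refine h.trans ?_
  congr 1
  refine Finset.sum_congr rfl fun j _ => ?_
  rw [map_mul, AlgHom.commutes, ← Algebra.smul_def]
  rfl

end rel

/-! ### Reflections -/

/-- A rank one matrix is `ν ⊗ α`. -/
lemma exists_rank_one (A : Matrix (Fin r) (Fin r) ℂ) (hA : A.rank = 1) :
    ∃ ν α : Fin r → ℂ, A = vecMulVec ν α := by
  have h1 : Module.finrank ℂ (LinearMap.range A.mulVecLin) = 1 := hA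
  obtain ⟨ν, -, hν⟩ := finrank_eq_one_iff'.1 h1
  have h2 : ∀ j, ∃ c : ℂ, c • ν.1 = A *ᵥ Pi.single j 1 := fun j => by
    obtain ⟨c, hc⟩ := hν ⟨A *ᵥ Pi.single j 1, ⟨Pi.single j 1, rfl⟩⟩
    exact ⟨c, congrArg Subtype.val hc⟩
  choose α hα using h2
  refine ⟨ν.1, α, ?_⟩
  ext i j
  have h3 := congrFun (hα j) i
  rw [Matrix.mulVec_single_one] at h3
  rw [vecMulVec_apply, mul_comm]
  exact h3.symm

lemma det_one_sub (ν α : Fin r → ℂ) : (1 - vecMulVec ν α).det = 1 - α ⬝ᵥ ν := by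
  rw [Matrix.vecMulVec_eq Unit, det_one_sub_mul_comm, det_unique, Matrix.sub_apply,
    Matrix.one_apply_eq]
  rfl

omit [Fintype N] in
lemma refl_data (s : N) (hs : IsRefl s.1) : ∃ ν α : Fin r → ℂ,
    1 - s.1.1 = vecMulVec ν α ∧ (1 - (s⁻¹).1.1) = -(s.1.1.det)⁻¹ • vecMulVec ν α := by
  obtain ⟨ν', α, h1⟩ := exists_rank_one _ hs
  obtain ⟨ν, hν⟩ : ∃ ν, ν = -ν' := ⟨_, rfl⟩
  have h2 : 1 - s.1.1 = vecMulVec ν α := by
    rw [hν, Matrix.neg_vecMulVec, ← h1]
    abel
  refine ⟨ν, α, h2, ?_⟩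
  have h3 : s.1.1 = 1 - vecMulVec ν α := by rw [← h2]; abel
  have h4 : s.1.1.det = 1 - α ⬝ᵥ ν := by
    rw [← det_one_sub, ← h3]
  have h5 : s.1.1 * vecMulVec ν α = s.1.1.det • vecMulVec ν α := by
    rw [h4]
    nth_rewrite 1 [h3]
    rw [sub_mul, one_mul, Matrix.vecMulVec_mul_vecMulVec, sub_smul, one_smul]
    congr 1
    ext i j
    simp [vecMulVec_apply]
    ring
  have hd : s.1.1.det ≠ 0 := ((Matrix.isUnit_iff_isUnit_det _).1 (Units.isUnit s.1)).ne_zero
  have h6 : (s⁻¹).1.1 * s.1.1 = 1 := by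
    rw [← Units.val_mul, ← Subgroup.coe_mul, inv_mul_cancel]; rfl
  have h7 : (s⁻¹).1.1 * vecMulVec ν α = (s.1.1.det)⁻¹ • vecMulVec ν α := by
    calc (s⁻¹).1.1 * vecMulVec ν α
        = (s⁻¹).1.1 * ((s.1.1.det)⁻¹ • (s.1.1 * vecMulVec ν α)) := by
          rw [h5, smul_smul, inv_mul_cancel₀ hd, one_smul]
      _ = (s.1.1.det)⁻¹ • vecMulVec ν α := by
          rw [Matrix.mul_smul, ← mul_assoc, h6, one_mul]
  calc 1 - (s⁻¹).1.1 = -((s⁻¹).1.1 * (1 - s.1.1)) := by rw [mul_sub, h6]; simp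
    _ = -(s.1.1.det)⁻¹ • vecMulVec ν α := by rw [h2, h7, neg_smul]

omit [Fintype N] in
lemma isCls_bb {c : N → ℂ} (hc : IsCls c) : IsCls (bb c) := by
  intro g s
  have h1 : ∀ g s : N, IsRefl s.1 → IsRefl (g * s * g⁻¹).1 := fun g s hs =>
    isRefl_conj (G := N) (g := g.1) hs
  have h2 : IsRefl (g * s * g⁻¹).1 ↔ IsRefl s.1 := by
    refine ⟨fun h => ?_, h1 g s⟩
    have h3 := h1 g⁻¹ _ h
    have h4 : g⁻¹ * (g * s * g⁻¹) * g⁻¹⁻¹ = s := by group
    rwa [h4] at h3
  have h3 : (g * s * g⁻¹).1.1.det = s.1.1.det := by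
    have h4 : (g * s * g⁻¹).1.1 = g.1.1 * s.1.1 * (g⁻¹).1.1 := rfl
    have h5 : g.1.1 * (g⁻¹).1.1 = 1 := by
      rw [← Units.val_mul, ← Subgroup.coe_mul, mul_inv_cancel]; rfl
    rw [h4, Matrix.det_mul_right_comm, h5, one_mul]
  unfold bb
  by_cases hs : IsRefl s.1
  · rw [if_pos hs, if_pos (h2.2 hs), hc, h3]
  · rw [if_neg hs, if_neg (fun h => hs (h2.1 h))]

/-! ### The Euler element -/

section eu

variable (c : N → ℂ)

/-- `Σ_j x_j y_j - Σ_s b(s) s`. -/
def eu : H0 N c := ∑ j, rX c j * rY c j - ∑ s : N, bb c s • rT c s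

lemma eu_comm (l : Fin r) : eu c * rX c l = rX c l * eu c := by
  have hXX : ∀ i j, rX c i * rX c j = rX c j * rX c i := fun i j => by
    have h := RingQuot.mkAlgHom_rel ℂ (HRel.XX (N := N) (c := c) i j)
    rw [map_mul, map_mul] at h
    exact h
  have h1 : (∑ j, rX c j * rY c j) * rX c l = rX c l * (∑ j, rX c j * rY c j) +
      ∑ s : N, ∑ j, (cc c s * (1 - s.1.1) l j) • (rX c j * rT c s) := by
    rw [Finset.sum_comm, Finset.sum_mul, Finset.mul_sum, ← Finset.sum_add_distrib]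
    refine Finset.sum_congr rfl fun j _ => ?_
    rw [mul_assoc, rYX, mul_add, ← mul_assoc, ← mul_assoc, hXX j l, Finset.mul_sum]
    congr 1
    exact Finset.sum_congr rfl fun s _ => by rw [mul_smul_comm]
  have h2 : (∑ s : N, bb c s • rT c s) * rX c l = rX c l * (∑ s : N, bb c s • rT c s) +
      ∑ s : N, ∑ j, (cc c s * (1 - s.1.1) l j) • (rX c j * rT c s) := by
    rw [Finset.sum_mul, Finset.mul_sum, ← Finset.sum_add_distrib]
    refine Finset.sum_congr rfl fun s _ => ?_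
    rw [smul_mul_assoc, rTX, mul_smul_comm]
    by_cases hs : IsRefl s.1
    · have hb : bb c s = c s * s.1.1.det / (1 - s.1.1.det) := by
        unfold bb; rw [if_pos hs]
      have hcc : cc c s = c s / (1 - s.1.1.det) := by
        unfold cc; rw [if_pos hs]
      have hd : s.1.1.det ≠ 0 := ((Matrix.isUnit_iff_isUnit_det _).1 (Units.isUnit s.1)).ne_zero
      obtain ⟨ν, α, h3, h4⟩ := refl_data s hs
      have h5 : ∀ j, (s⁻¹).1.1 l j = (1 : Matrix (Fin r) (Fin r) ℂ) l j +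
          (s.1.1.det)⁻¹ * (1 - s.1.1) l j := fun j => by
        have h6 := congrFun (congrFun h4 l) j
        rw [← h3, Matrix.sub_apply, Matrix.smul_apply, smul_eq_mul] at h6
        linear_combination -h6
      have h6 : (∑ j, (s⁻¹).1.1 l j • rX c j) = rX c l +
          ∑ j, ((s.1.1.det)⁻¹ * (1 - s.1.1) l j) • rX c j := by
        simp_rw [h5, add_smul]
        rw [Finset.sum_add_distrib]
        congr 1
        rw [Finset.sum_eq_single l]
        · rw [Matrix.one_apply_eq, one_smul]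
        · intro j _ hj
          rw [Matrix.one_apply_ne (Ne.symm hj), zero_smul]
        · intro h; exact absurd (Finset.mem_univ _) h
      rw [h6, add_mul, smul_add, Finset.sum_mul, Finset.smul_sum]
      congr 1
      refine Finset.sum_congr rfl fun j _ => ?_
      rw [smul_mul_assoc, smul_smul]
      congr 1
      rw [hb, hcc]
      field_simp
    · have hb : bb c s = 0 := by unfold bb; rw [if_neg hs]
      have hcc : cc c s = 0 := by unfold cc; rw [if_neg hs]
      simp [hb, hcc]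
  unfold eu
  rw [sub_mul, mul_sub, h1, h2]
  abel

end eu

/-! ### The Euler element on the Verma module -/

section verma

variable {c : N → ℂ} {d' : ℕ} (σ : N →* Matrix (Fin d') (Fin d') ℂ)
  (Φ : H0 N c →ₐ[ℂ] Module.End ℂ (PolE r (Fin d')))

lemma vY_apply (v : Fin r → ℂ) : vY Φ v = ∑ i, v i • Φ (rY c i) := by
  unfold vY
  rw [LinearMap.sum_apply]
  exact Finset.sum_congr rfl fun i _ => rfl

lemma vY_single (j : Fin r) : vY Φ (Pi.single j 1) = Φ (rY c j) := by
  rw [vY_apply, Finset.sum_eq_single j]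
  · rw [Pi.single_eq_same, one_smul]
  · intro i _ hi
    rw [Pi.single_eq_of_ne hi, zero_smul]
  · intro h; exact absurd (Finset.mem_univ _) h

omit [Fintype N] in
lemma gAct_const (g : N) (i : Fin d') (a : ℂ) :
    gAct σ g (Pi.single i (MvPolynomial.C a)) = fun i' => MvPolynomial.C (σ g i' i * a) := by
  funext i'
  show ∑ j, MvPolynomial.C (σ g i' j) * MvPolynomial.bind₁ _
    ((Pi.single i (MvPolynomial.C a) : PolE r (Fin d')) j) = _
  rw [Finset.sum_eq_single i]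
  · rw [Pi.single_eq_same, MvPolynomial.bind₁_C_right, ← MvPolynomial.C_mul]
  · intro j _ hj
    rw [Pi.single_eq_of_ne hj, map_zero, mul_zero]
  · intro h; exact absurd (Finset.mem_univ _) h

lemma const_mem (i : Fin d') (a : ℂ) :
    (Pi.single i (MvPolynomial.C a) : PolE r (Fin d')) ∈ homE r (Fin d') 0 := by
  intro i'
  by_cases h : i' = i
  · subst h
    rw [Pi.single_eq_same]
    exact MvPolynomial.isHomogeneous_C _ _
  · rw [Pi.single_eq_of_ne h]
    exact MvPolynomial.isHomogeneous_zero _ _ _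

lemma Phi_eu (hΦ : IsVerma c σ Φ) (β : ℂ)
    (hβ' : ∑ g, bb c g • σ g = β • (1 : Matrix (Fin d') (Fin d') ℂ)) (f : PolE r (Fin d')) :
    Φ (eu c) f = -(β • f) := by
  have hX : ∀ l f, Φ (eu c) (xAct _ l f) = xAct _ l (Φ (eu c) f) := fun l f => by
    rw [← hΦ.X l, ← Module.End.mul_apply, ← Module.End.mul_apply, ← map_mul, ← map_mul, eu_comm]
  have h0 : ∀ i a, Φ (eu c) (Pi.single i (MvPolynomial.C a)) =
      -(β • (Pi.single i (MvPolynomial.C a) : PolE r (Fin d'))) := fun i a => by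
    unfold eu
    rw [map_sub, map_sum, map_sum, LinearMap.sub_apply, LinearMap.sum_apply, LinearMap.sum_apply]
    have h1 : ∀ j, Φ (rX c j * rY c j) (Pi.single i (MvPolynomial.C a)) = 0 := fun j => by
      rw [map_mul, Module.End.mul_apply, hΦ.Y0 j _ (const_mem i a), map_zero]
    rw [Finset.sum_eq_zero fun j _ => h1 j, zero_sub, neg_inj]
    have h2 : ∀ g : N, Φ (bb c g • rT c g) (Pi.single i (MvPolynomial.C a)) =
        fun i' => MvPolynomial.C ((bb c g • σ g) i' i * a) := fun g => by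
      rw [map_smul, hΦ.T, LinearMap.smul_apply, gAct_const]
      funext i'
      rw [Pi.smul_apply, MvPolynomial.smul_eq_C_mul, ← MvPolynomial.C_mul, Matrix.smul_apply,
        smul_eq_mul, mul_assoc]
    rw [Finset.sum_congr rfl fun g _ => h2 g]
    funext i'
    rw [Finset.sum_apply]
    have h3 := congrFun (congrFun hβ' i') i
    rw [Matrix.sum_apply] at h3
    rw [← map_sum, ← Finset.sum_mul, h3, Matrix.smul_apply, Matrix.one_apply, Pi.smul_apply]
    by_cases h : i' = i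
    · subst h
      rw [Pi.single_eq_same, if_pos rfl, MvPolynomial.smul_eq_C_mul, ← MvPolynomial.C_mul]
      simp
    · rw [Pi.single_eq_of_ne h, if_neg h]
      simp
  have h1 : ∀ i (p : MvPolynomial (Fin r) ℂ), Φ (eu c) (Pi.single i p) =
      -(β • (Pi.single i p : PolE r (Fin d'))) := fun i p => by
    induction p using MvPolynomial.induction_on with
    | C a => exact h0 i a
    | add p q hp hq => rw [Pi.single_add, map_add, hp, hq, smul_add, neg_add]
    | mul_X p l hp =>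
      have h2 : (Pi.single i (p * MvPolynomial.X l) : PolE r (Fin d')) =
          xAct _ l (Pi.single i p) := by
        funext i'
        show _ = MvPolynomial.X l * (Pi.single i p : PolE r (Fin d')) i'
        by_cases h : i' = i
        · subst h
          rw [Pi.single_eq_same, Pi.single_eq_same, mul_comm]
        · rw [Pi.single_eq_of_ne h, Pi.single_eq_of_ne h, mul_zero]
      rw [h2, hX, hp, map_neg, map_smul]
  have h2 : f = ∑ i, Pi.single i (f i) := by
    rw [Finset.univ_sum_single]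
  rw [h2, map_sum, Finset.smul_sum, ← Finset.sum_neg_distrib]
  exact Finset.sum_congr rfl fun i _ => h1 i _

/-- `Σ_j x_j y_j = Σ_s b(s) s - β`. -/
lemma sum_xy (hΦ : IsVerma c σ Φ) (β : ℂ)
    (hβ' : ∑ g, bb c g • σ g = β • (1 : Matrix (Fin d') (Fin d') ℂ)) (f : PolE r (Fin d')) :
    ∑ j, xAct (Fin d') j (vY Φ (Pi.single j 1) f) = ∑ s, bb c s • gAct σ s f - β • f := by
  have h := Phi_eu σ Φ hΦ β hβ' f
  unfold eu at h
  rw [map_sub, map_sum, map_sum, LinearMap.sub_apply, LinearMap.sum_apply,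
    LinearMap.sum_apply] at h
  have h1 : ∑ j, Φ (rX c j * rY c j) f = ∑ j, xAct (Fin d') j (vY Φ (Pi.single j 1) f) :=
    Finset.sum_congr rfl fun j _ => by
      rw [map_mul, Module.End.mul_apply, hΦ.X, vY_single]
  have h2 : ∑ s, Φ (bb c s • rT c s) f = ∑ s, bb c s • gAct σ s f :=
    Finset.sum_congr rfl fun s _ => by
      rw [map_smul, hΦ.T, LinearMap.smul_apply]
  rw [h1, h2] at h
  rw [sub_eq_iff_eq_add] at h
  rw [h]
  abel

/-- `[y_v, x_j] = Σ_s c_s/(1 - det s) ((1-s)v)_j s`. -/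
lemma comm_yx (hΦ : IsVerma c σ Φ) (v : Fin r → ℂ) (j : Fin r) :
    vY Φ v * xAct (Fin d') j - xAct (Fin d') j * vY Φ v =
      ∑ s : N, (cc c s * ((1 - s.1.1) *ᵥ v) j) • gAct σ s := by
  have h1 : ∀ i, Φ (rY c i) * xAct (Fin d') j = xAct (Fin d') j * Φ (rY c i) +
      ∑ s : N, (cc c s * (1 - s.1.1) j i) • gAct σ s := fun i => by
    rw [← hΦ.X j, ← map_mul, rYX, map_add, map_mul, map_sum]
    congr 1
    exact Finset.sum_congr rfl fun s _ => by rw [map_smul, hΦ.T]
  rw [vY_apply, Finset.sum_mul, Finset.mul_sum]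
  have h2 : ∀ i, (v i • Φ (rY c i)) * xAct (Fin d') j = xAct (Fin d') j * (v i • Φ (rY c i)) +
      ∑ s : N, (cc c s * ((1 - s.1.1) j i * v i)) • gAct σ s := fun i => by
    rw [smul_mul_assoc, h1, smul_add, mul_smul_comm, Finset.smul_sum]
    congr 1
    refine Finset.sum_congr rfl fun s _ => ?_
    rw [smul_smul]
    congr 1
    ring
  rw [Finset.sum_congr rfl fun i _ => h2 i, Finset.sum_add_distrib, add_sub_cancel_left,
    Finset.sum_comm]
  refine Finset.sum_congr rfl fun s _ => ?_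
  rw [← Finset.sum_smul, ← Finset.mul_sum]
  rfl

lemma gAct_one (hΦ : IsVerma c σ Φ) : gAct σ (1 : N) = 1 := by
  rw [← hΦ.T 1, rT_one, map_one]

lemma gAct_mul (hΦ : IsVerma c σ Φ) (g h : N) : gAct σ (g * h) = gAct σ g * gAct σ h := by
  rw [← hΦ.T, ← hΦ.T, ← hΦ.T, rT_mul, map_mul]

end verma

/-! ### Alternating forms -/

section alt

variable {M : Type} [AddCommGroup M] [Module ℂ M]

lemma sum_ap {i : ℕ} {S : Type} [Fintype S] (ω : S → KV r i M)
    (v : Fin i → Fin r → ℂ) : (∑ s, ω s) v = ∑ s, ω s v :=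
  map_sum (⟨⟨fun η => η v, rfl⟩, fun _ _ => rfl⟩ : KV r i M →+ M) ω Finset.univ

lemma upd_sum {i : ℕ} (ω : KV r i M) (v : Fin i → Fin r → ℂ) (k : Fin i) (w : Fin r → ℂ) :
    ∑ j, w j • ω (Function.update v k (Pi.single j 1)) = ω (Function.update v k w) := by
  have h : w = ∑ j, w j • (Pi.single j 1 : Fin r → ℂ) := by
    funext l
    rw [Finset.sum_apply, Finset.sum_eq_single l]
    · simp
    · intro j _ hj
      rw [Pi.smul_apply, Pi.single_eq_of_ne (Ne.symm hj), smul_zero]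
    · intro h; exact absurd (Finset.mem_univ _) h
  conv_rhs => rw [h]
  rw [AlternatingMap.map_update_sum]
  exact Finset.sum_congr rfl fun j _ => by rw [AlternatingMap.map_update_smul]

omit [Fintype N] in
lemma refl_sum {i : ℕ} (ω : KV r i M) (v : Fin i → Fin r → ℂ) (s : N) (hs : IsRefl s.1) :
    ∑ k, ω (Function.update v k ((1 - s.1.1) *ᵥ v k)) =
      -s.1.1.det • (ω v - ω (fun k => (s⁻¹).1.1 *ᵥ v k)) := by
  obtain ⟨ν, α, h1, h2⟩ := refl_data s hs
  have hd : s.1.1.det ≠ 0 := ((Matrix.isUnit_iff_isUnit_det _).1 (Units.isUnit s.1)).ne_zero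
  have h3 := sum_update_rank_one i ω ν (-(s.1.1.det)⁻¹ • α) v
  have h4 : ∀ k, v k - ((-(s.1.1.det)⁻¹ • α) ⬝ᵥ v k) • ν = (s⁻¹).1.1 *ᵥ v k := fun k => by
    have h5 : (s⁻¹).1.1 = 1 - (-(s.1.1.det)⁻¹ • vecMulVec ν α) := by rw [← h2]; abel
    rw [h5, Matrix.sub_mulVec, Matrix.one_mulVec, Matrix.smul_mulVec, Matrix.vecMulVec_mulVec,
      smul_dotProduct, smul_eq_mul, mul_smul]
    congr 2
    ext l
    simp [mul_comm]
  simp_rw [h4] at h3
  rw [← h3, Finset.smul_sum]
  refine Finset.sum_congr rfl fun k _ => ?_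
  rw [← AlternatingMap.map_update_smul]
  congr 2
  rw [h1, Matrix.vecMulVec_mulVec, smul_smul, smul_dotProduct, smul_eq_mul]
  have h5 : -s.1.1.det * (-(s.1.1.det)⁻¹ * (α ⬝ᵥ v k)) = α ⬝ᵥ v k := by
    field_simp
  rw [h5]
  ext l
  simp [mul_comm]

end alt

end EuX

section Verma

variable {c : N → ℂ} {d d' : ℕ} (ρ : N →* Matrix (Fin d) (Fin d) ℂ)
  (σ : N →* Matrix (Fin d') (Fin d') ℂ) (Φ : H0 N c →ₐ[ℂ] Module.End ℂ (PolE r (Fin d')))

theorem verma_dh0 (hc : IsCls c) (hd : 0 < d) (hd' : 0 < d')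
    (hρ : Submodule.span ℂ (Set.range ρ) = ⊤) (hΦ : IsVerma c σ Φ) (β : ℂ)
    (hβ : ∑ g, bb c g • ρ g = β • (1 : Matrix (Fin d) (Fin d) ℂ))
    (hβ' : ∑ g, bb c g • σ g = β • (1 : Matrix (Fin d') (Fin d') ℂ)) (a : ℕ)
    (ω : KV r 0 (PolE r (Fin d'))) (h : ω ∈ Kia ρ σ 0 a) :
    kh (fun j => xAct (Fin d') j) 0 (kd (vY Φ) 0 ω) = 0 := by
  have h1 := pK_central (fun g => gAct σ g) (EuX.gAct_mul σ Φ hΦ) (EuX.gAct_one σ Φ hΦ) hd ρ hρ
    (bb c) (EuX.isCls_bb hc) β hβ 0 ω h.2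
  refine AlternatingMap.ext fun v => ?_
  rw [kh_kd_zero, EuX.sum_xy σ Φ hΦ β hβ', AlternatingMap.zero_apply, sub_eq_zero]
  have h2 := congrArg (fun η : KV r 0 (PolE r (Fin d')) => η v) h1
  simp only [AlternatingMap.smul_apply] at h2
  rw [← h2, EuX.sum_ap]
  refine Finset.sum_congr rfl fun s _ => ?_
  rw [AlternatingMap.smul_apply]
  congr 1
  show gAct σ s (ω v) = gAct σ s (ω _)
  congr 2
  exact Subsingleton.elim _ _

theorem verma_dh (hc : IsCls c) (hd : 0 < d) (hd' : 0 < d')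
    (hρ : Submodule.span ℂ (Set.range ρ) = ⊤) (hΦ : IsVerma c σ Φ) (β : ℂ)
    (hβ : ∑ g, bb c g • ρ g = β • (1 : Matrix (Fin d) (Fin d) ℂ))
    (hβ' : ∑ g, bb c g • σ g = β • (1 : Matrix (Fin d') (Fin d') ℂ)) (i a : ℕ)
    (ω : KV r (i + 1) (PolE r (Fin d'))) (h : ω ∈ Kia ρ σ (i + 1) a) :
    kd (vY Φ) i (kh (fun j => xAct (Fin d') j) i ω) +
      kh (fun j => xAct (Fin d') j) (i + 1) (kd (vY Φ) (i + 1) ω) = 0 := by
  have h1 := pK_central (fun g => gAct σ g) (EuX.gAct_mul σ Φ hΦ) (EuX.gAct_one σ Φ hΦ) hd ρ hρ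
    (bb c) (EuX.isCls_bb hc) β hβ (i + 1) ω h.2
  refine AlternatingMap.ext fun v => ?_
  rw [AlternatingMap.add_apply, add_comm, kh_kd, EuX.sum_xy σ Φ hΦ β hβ',
    AlternatingMap.zero_apply]
  have h2 := congrArg (fun η : KV r (i + 1) (PolE r (Fin d')) => η v) h1
  simp only [AlternatingMap.smul_apply] at h2
  rw [EuX.sum_ap] at h2
  have h3 : ∑ k, ∑ j, (vY Φ (v k) * xAct (Fin d') j - xAct (Fin d') j * vY Φ (v k) :
      Module.End ℂ (PolE r (Fin d'))) (ω (Function.update v k (Pi.single j 1))) =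
      ∑ s : N, EuX.cc c s • gAct σ s (∑ k, ω (Function.update v k ((1 - s.1.1) *ᵥ v k))) := by
    simp_rw [EuX.comm_yx σ Φ hΦ, LinearMap.sum_apply, LinearMap.smul_apply]
    have h4 : ∀ k : Fin (i + 1), ∑ j, ∑ s : N, (EuX.cc c s * ((1 - s.1.1) *ᵥ v k) j) •
        gAct σ s (ω (Function.update v k (Pi.single j 1))) =
        ∑ s : N, EuX.cc c s • gAct σ s (ω (Function.update v k ((1 - s.1.1) *ᵥ v k))) :=
      fun k => by
        rw [Finset.sum_comm]
        refine Finset.sum_congr rfl fun s _ => ?_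
        rw [← EuX.upd_sum, map_sum, Finset.smul_sum]
        refine Finset.sum_congr rfl fun j _ => ?_
        rw [map_smul, smul_smul]
    rw [Finset.sum_congr rfl fun k _ => h4 k, Finset.sum_comm]
    refine Finset.sum_congr rfl fun s _ => ?_
    rw [map_sum, Finset.smul_sum]
  rw [h3, ← h2, sub_add_eq_add_sub, ← Finset.sum_add_distrib, sub_eq_zero]
  refine Finset.sum_congr rfl fun s _ => ?_
  rw [AlternatingMap.smul_apply]
  have h4 : (gK (fun g => gAct σ g) (i + 1) s ω) v =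
      gAct σ s (ω (fun k => (s⁻¹).1.1 *ᵥ v k)) := by
    show gAct σ s (ω _) = _
    congr 2
  rw [h4]
  by_cases hs : IsRefl s.1
  · have hb : bb c s = EuX.cc c s * s.1.1.det := by
      unfold bb EuX.cc; rw [if_pos hs, if_pos hs]; ring
    rw [EuX.refl_sum ω v s hs, hb, map_smul, map_sub, smul_smul, mul_neg, neg_smul, smul_sub]
    abel
  · have hb : bb c s = 0 := by unfold bb; rw [if_neg hs]
    have hcc : EuX.cc c s = 0 := by unfold EuX.cc; rw [if_neg hs]
    rw [hb, hcc, zero_smul, zero_smul, zero_smul, add_zero]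

end Verma

end

end Pool.Agent.CMFn
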