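import Pool.Agent.CMFn.ExcDefs
import Pool.Agent.CMFn.ConnT

/-! Project CMFn: an irreducible reflection group with a given Cartan matrix is conjugate to the
standard one. -/

namespace Pool.Agent.CMFP

open Matrix

noncomputable section

namespace ExcX

section

variable {G : Type} {n m : ℕ} {W : G → Matrix (Fin n) (Fin n) ℂ}
  {C : Matrix (Fin m) (Fin m) ℂ} {s : Fin m → G} {a b : Fin m → Fin n → ℂ}

lemma act (hs : ∀ i, W (s i) = 1 - vecMulVec (a i) (b i)) (i : Fin m) (v : Fin n → ℂ) :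
    W (s i) *ᵥ v = v - (b i ⬝ᵥ v) • a i := by
  rw [hs, sub_mulVec, one_mulVec, vecMulVec_mulVec]
  congr 1
  ext x
  simp [mul_comm]

end

variable {G : Type} [Group G] {n m : ℕ} {W : G → Matrix (Fin n) (Fin n) ℂ}
  {C : Matrix (Fin m) (Fin m) ℂ} {s : Fin m → G} {a b : Fin m → Fin n → ℂ}

/-- A property of the images of `v` which is stable under the generators. -/
lemma ind (hR : IsRep W) [Finite G] (hcl : Subgroup.closure (Set.range s) = ⊤)
    (U : Submodule ℂ (Fin n → ℂ)) (hU : ∀ i, ∀ v ∈ U, W (s i) *ᵥ v ∈ U) (g : G) :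
    ∀ v ∈ U, W g *ᵥ v ∈ U := by
  have hg' : g ∈ Submonoid.closure (Set.range s) := by
    rw [← Subgroup.closure_toSubmonoid_of_finite, hcl]
    trivial
  induction hg' using Submonoid.closure_induction with
  | mem x hx =>
    obtain ⟨i, rfl⟩ := hx
    exact hU i
  | one =>
    intro v hv
    rw [hR.1, one_mulVec]
    exact hv
  | mul x y _ _ hx hy =>
    intro v hv
    rw [hR.2, ← mulVec_mulVec]
    exact hx _ (hy v hv)

/-- The roots span. -/
lemma span_roots [Finite G] (hW : IsReflGroup W) (hcl : Subgroup.closure (Set.range s) = ⊤)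
    (hs : ∀ i, W (s i) = 1 - vecMulVec (a i) (b i)) {i : Fin m} (hi : a i ≠ 0) :
    Submodule.span ℂ (Set.range a) = ⊤ := by
  have h1 := ind hW.1 hcl (Submodule.span ℂ (Set.range a)) fun j v hv => by
    rw [act hs]
    exact Submodule.sub_mem _ hv (Submodule.smul_mem _ _ (Submodule.subset_span ⟨j, rfl⟩))
  rw [eq_top_iff, ← hW.2.2.2 (a i) hi, Submodule.span_le]
  rintro _ ⟨g, rfl⟩
  exact h1 g _ (Submodule.subset_span ⟨i, rfl⟩)

/-- The coroots separate the points. -/
lemma sep_coroots [Finite G] (hW : IsReflGroup W) (hcl : Subgroup.closure (Set.range s) = ⊤)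
    (hs : ∀ i, W (s i) = 1 - vecMulVec (a i) (b i)) (hC : ∀ i j, b i ⬝ᵥ a j = C i j)
    {i : Fin m} {j : Fin m} (hij : C i j ≠ 0) (v : Fin n → ℂ) (hv : ∀ i, b i ⬝ᵥ v = 0) :
    v = 0 := by
  by_contra hv0
  have h1 := ind hW.1 hcl (Submodule.span ℂ {v}) fun k u hu => by
    obtain ⟨c, rfl⟩ := Submodule.mem_span_singleton.1 hu
    rw [act hs, dotProduct_smul, hv, smul_zero, zero_smul, sub_zero]
    exact hu
  have h2 : Submodule.span ℂ {v} = ⊤ := by
    rw [eq_top_iff, ← hW.2.2.2 v hv0, Submodule.span_le]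
    rintro _ ⟨g, rfl⟩
    exact h1 g _ (Submodule.mem_span_singleton_self v)
  have h3 : a j ∈ Submodule.span ℂ {v} := by rw [h2]; trivial
  obtain ⟨c, hc⟩ := Submodule.mem_span_singleton.1 h3
  apply hij
  rw [← hC, ← hc, dotProduct_smul, hv, smul_zero]

end ExcX

open ExcX

/-- `W` is conjugate to the group given by the coordinates `X` of the roots in the basis of roots
`a_(ι k)`. -/
theorem exists_conj {G : Type} [Group G] [Finite G] {n m r : ℕ}
    {W : G → Matrix (Fin n) (Fin n) ℂ} {C : Matrix (Fin m) (Fin m) ℂ} (hW : IsReflGroup W)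
    (hC : HasCartan W C) (hr : 0 < r) (ι : Fin r → Fin m) (X : Fin m → Fin r → ℂ)
    (hX : ∀ i j, ∑ k, C j (ι k) * X i k = C j i) (hd : (C.submatrix ι ι).det ≠ 0) :
    ∃ (hn : r = n) (s : Fin m → G) (P : Matrix (Fin r) (Fin r) ℂ),
      Subgroup.closure (Set.range s) = ⊤ ∧ IsUnit P ∧
      ∀ i, (hn ▸ W) (s i) = P * (1 - vecMulVec (X i) (fun k => C i (ι k))) * P⁻¹ := by
  obtain ⟨s, a, b, hcl, hs, hCab⟩ := hC
  obtain ⟨k₀, l₀, hkl⟩ : ∃ k l, C (ι k) (ι l) ≠ 0 := by
    by_contra hcon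
    push Not at hcon
    apply hd
    have : C.submatrix ι ι = 0 := by
      ext k l
      exact hcon k l
    have h0 : Nonempty (Fin r) := ⟨⟨0, hr⟩⟩
    rw [this, Matrix.det_zero]
  have hsep := sep_coroots hW hcl hs hCab hkl
  have ha : a (ι l₀) ≠ 0 := by
    intro h
    apply hkl
    rw [← hCab, h, dotProduct_zero]
  have hspan := span_roots hW hcl hs ha
  -- the matrix with columns a_(ι k)
  set Q : Matrix (Fin n) (Fin r) ℂ := Matrix.of fun x k => a (ι k) x with hQ
  have hQv : ∀ v, Q *ᵥ v = ∑ k, v k • a (ι k) := by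
    intro v
    ext x
    simp [hQ, mulVec, dotProduct, mul_comm]
  have hbQ : ∀ j v, b j ⬝ᵥ (Q *ᵥ v) = ∑ k, C j (ι k) * v k := by
    intro j v
    rw [hQv, dotProduct_sum]
    refine Finset.sum_congr rfl fun k _ => ?_
    rw [dotProduct_smul, hCab, smul_eq_mul, mul_comm]
  have hQX : ∀ i, Q *ᵥ X i = a i := by
    intro i
    rw [← sub_eq_zero]
    apply hsep
    intro j
    rw [dotProduct_sub, hbQ, hX, hCab, sub_self]
  have hinj : Function.Injective Q.mulVec := by
    rw [← Matrix.coe_mulVecLin, ← LinearMap.ker_eq_bot, LinearMap.ker_eq_bot']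
    intro v hv
    rw [Matrix.mulVecLin_apply] at hv
    have h1 : (C.submatrix ι ι) *ᵥ v = 0 := by
      ext k
      have h2 := hbQ (ι k) v
      rw [hv, dotProduct_zero] at h2
      exact h2.symm
    exact Matrix.eq_zero_of_mulVec_eq_zero hd h1
  have hsurj : Function.Surjective Q.mulVec := by
    rw [← Matrix.coe_mulVecLin, ← LinearMap.range_eq_top, eq_top_iff, ← hspan, Submodule.span_le]
    rintro _ ⟨i, rfl⟩
    exact ⟨X i, hQX i⟩
  have hn : r = n := by
    have h1 : Function.Bijective Q.mulVecLin := ⟨hinj, hsurj⟩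
    have h2 := (LinearEquiv.ofBijective Q.mulVecLin h1).finrank_eq
    simpa using h2
  subst hn
  have hQu : IsUnit Q := Matrix.mulVec_injective_iff_isUnit.1 hinj
  have hQd : IsUnit Q.det := (Matrix.isUnit_iff_isUnit_det _).1 hQu
  refine ⟨rfl, s, Q, hcl, hQu, fun i => ?_⟩
  show W (s i) = _
  have h1 : W (s i) * Q = Q * (1 - vecMulVec (X i) (fun k => C i (ι k))) := by
    rw [hs, sub_mul, one_mul, mul_sub, mul_one]
    congr 1
    have h2 : vecMulVec (a i) (b i) * Q = vecMulVec (a i) (b i ᵥ* Q) := by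
      rw [Matrix.vecMulVec_mul]
    have h3 : Q * vecMulVec (X i) (fun k => C i (ι k)) = vecMulVec (Q *ᵥ X i) (fun k => C i (ι k)) := by
      rw [Matrix.mul_vecMulVec]
    rw [h2, h3, hQX]
    congr 1
    ext k
    have h4 := hCab i (ι k)
    rw [← h4]
    simp [vecMul, hQ, dotProduct]
  rw [← h1, mul_assoc, Matrix.mul_nonsing_inv _ hQd, mul_one]

/-- A representation as a homomorphism. -/
def homOf {G : Type} [Group G] {n : ℕ} {W : G → Matrix (Fin n) (Fin n) ℂ} (hW : IsRep W) :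
    G →* Matrix (Fin n) (Fin n) ℂ where
  toFun := W
  map_one' := hW.1
  map_mul' := hW.2

/-- Transport of a property `R` of representations, invariant under conjugation, from the standard
form to any group with the Cartan matrix `C`. -/
theorem prop_of_cartan {G : Type} [Group G] [Finite G] {n m r : ℕ}
    {W : G → Matrix (Fin n) (Fin n) ℂ} {C : Matrix (Fin m) (Fin m) ℂ} (hW : IsReflGroup W)
    (hC : HasCartan W C) (hr : 0 < r) (ι : Fin r → Fin m) (X : Fin m → Fin r → ℂ)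
    (hX : ∀ i j, ∑ k, C j (ι k) * X i k = C j i) (hd : (C.submatrix ι ι).det ≠ 0)
    (R : ∀ k : ℕ, (G →* Matrix (Fin k) (Fin k) ℂ) → Prop)
    (hR : ∀ (V V' : G →* Matrix (Fin r) (Fin r) ℂ) (P : Matrix (Fin r) (Fin r) ℂ), IsUnit P →
      (∀ g, V' g = P * V g * P⁻¹) → R r V' → R r V)
    (H : ∀ V : G →* Matrix (Fin r) (Fin r) ℂ, Function.Injective V → ∀ γ : Fin m → G,
      Subgroup.closure (Set.range γ) = ⊤ →
      (∀ i, V (γ i) = 1 - vecMulVec (X i) (fun k => C i (ι k))) → R r V) :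
    r = n ∧ R n (homOf hW.1) := by
  obtain ⟨rfl, s, P, hcl, hP, hs⟩ := exists_conj hW hC hr ι X hX hd
  refine ⟨rfl, ?_⟩
  have hPd : IsUnit P.det := (Matrix.isUnit_iff_isUnit_det _).1 hP
  have hP1 : P⁻¹ * P = 1 := Matrix.nonsing_inv_mul _ hPd
  have hP2 : P * P⁻¹ = 1 := Matrix.mul_nonsing_inv _ hPd
  have hPi : IsUnit (P⁻¹) := ⟨⟨P⁻¹, P, hP1, hP2⟩, rfl⟩
  have hPii : P⁻¹⁻¹ = P := Matrix.nonsing_inv_nonsing_inv P hPd
  -- the conjugate representation
  let V : G →* Matrix (Fin r) (Fin r) ℂ :=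
    { toFun := fun g => P⁻¹ * W g * P
      map_one' := by rw [hW.1.1, mul_one, hP1]
      map_mul' := fun g h => by
        rw [hW.1.2]
        calc P⁻¹ * (W g * W h) * P = P⁻¹ * W g * (P * P⁻¹) * W h * P := by
              rw [hP2]; simp only [mul_assoc, one_mul]
          _ = P⁻¹ * W g * P * (P⁻¹ * W h * P) := by simp only [mul_assoc] }
  have hV : ∀ g, V g = P⁻¹ * W g * P := fun _ => rfl
  refine hR (homOf hW.1) V P⁻¹ hPi (fun g => ?_) (H V ?_ s hcl fun i => ?_)
  · rw [hV, hPii]; rfl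
  · intro g h hgh
    apply hW.2.1
    have h1 : P * V g * P⁻¹ = P * V h * P⁻¹ := by rw [hgh]
    have h2 : ∀ x, P * V x * P⁻¹ = W x := fun x => by
      rw [hV]
      calc P * (P⁻¹ * W x * P) * P⁻¹ = (P * P⁻¹) * W x * (P * P⁻¹) := by simp only [mul_assoc]
        _ = W x := by rw [hP2, one_mul, mul_one]
    rwa [h2, h2] at h1
  · have hsi : W (s i) = P * (1 - vecMulVec (X i) (fun k => C i (ι k))) * P⁻¹ := hs i
    rw [hV, hsi]
    calc P⁻¹ * (P * (1 - vecMulVec (X i) fun k => C i (ι k)) * P⁻¹) * P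
        = (P⁻¹ * P) * (1 - vecMulVec (X i) fun k => C i (ι k)) * (P⁻¹ * P) := by
          simp only [mul_assoc]
      _ = _ := by rw [hP1, one_mul, mul_one]

/-- The case of linearly independent roots. -/
theorem prop_of_cartan' {G : Type} [Group G] [Finite G] {n r : ℕ}
    {W : G → Matrix (Fin n) (Fin n) ℂ} {C : Matrix (Fin r) (Fin r) ℂ} (hW : IsReflGroup W)
    (hC : HasCartan W C) (hr : 0 < r) (hd : C.det ≠ 0)
    (R : ∀ k : ℕ, (G →* Matrix (Fin k) (Fin k) ℂ) → Prop)
    (hR : ∀ (V V' : G →* Matrix (Fin r) (Fin r) ℂ) (P : Matrix (Fin r) (Fin r) ℂ), IsUnit P →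
      (∀ g, V' g = P * V g * P⁻¹) → R r V' → R r V)
    (H : ∀ V : G →* Matrix (Fin r) (Fin r) ℂ, Function.Injective V → ∀ γ : Fin r → G,
      Subgroup.closure (Set.range γ) = ⊤ →
      (∀ a i j, V (γ a) i j = (if i = j then 1 else 0) - (if i = a then C a j else 0)) →
      R r V) :
    r = n ∧ R n (homOf hW.1) := by
  refine prop_of_cartan hW hC hr id (fun i => Pi.single i 1) (fun i j => ?_) ?_ R hR
    fun V hV γ hcl hm => H V hV γ hcl fun a i j => ?_
  · simp [Pi.single_apply]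
  · simpa using hd
  · rw [hm]
    simp only [Matrix.sub_apply, vecMulVec_apply, Pi.single_apply, Matrix.one_apply, id]
    by_cases hia : i = a <;> simp [hia]

/-- Connectedness of the levels from the Cartan matrix. -/
theorem conn_of_cartan {G : Type} [Group G] [Fintype G] {n m r : ℕ}
    {W : G → Matrix (Fin n) (Fin n) ℂ} {C : Matrix (Fin m) (Fin m) ℂ} (hW : IsReflGroup W)
    (hC : HasCartan W C) (hr : 0 < r) (ι : Fin r → Fin m) (X : Fin m → Fin r → ℂ)
    (hX : ∀ i j, ∑ k, C j (ι k) * X i k = C j i) (hd : (C.submatrix ι ι).det ≠ 0)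
    (H : ∀ V : G →* Matrix (Fin r) (Fin r) ℂ, Function.Injective V → ∀ γ : Fin m → G,
      Subgroup.closure (Set.range γ) = ⊤ →
      (∀ i, V (γ i) = 1 - vecMulVec (X i) (fun k => C i (ι k))) → CMFn.Conn V) :
    r = n ∧ CMFn.Conn (homOf hW.1) :=
  prop_of_cartan hW hC hr ι X hX hd (fun _ V => CMFn.Conn V)
    (fun _ _ _ hP h hc => CMFn.conn_of_conj hP h hc) H

/-- The case of linearly independent roots. -/
theorem conn_of_cartan' {G : Type} [Group G] [Fintype G] {n r : ℕ}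
    {W : G → Matrix (Fin n) (Fin n) ℂ} {C : Matrix (Fin r) (Fin r) ℂ} (hW : IsReflGroup W)
    (hC : HasCartan W C) (hr : 0 < r) (hd : C.det ≠ 0)
    (H : ∀ V : G →* Matrix (Fin r) (Fin r) ℂ, Function.Injective V → ∀ γ : Fin r → G,
      Subgroup.closure (Set.range γ) = ⊤ →
      (∀ a i j, V (γ a) i j = (if i = j then 1 else 0) - (if i = a then C a j else 0)) →
      CMFn.Conn V) :
    r = n ∧ CMFn.Conn (homOf hW.1) :=
  prop_of_cartan' hW hC hr hd (fun _ V => CMFn.Conn V)
    (fun _ _ _ hP h hc => CMFn.conn_of_conj hP h hc) H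

end

end Pool.Agent.CMFP
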