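import Pool.Agent.CMF.Pres

/-! Project CMFn (MP_4af2a6_al): the exceptional groups, given by Cartan matrices. -/

namespace Pool.Agent.CMFP

open Matrix

noncomputable section

/-- `G` is generated by elements `s_i` acting as `v ↦ v - b_i(v) a_i` with `b_i(a_j) = C_ij`. -/
def HasCartan {G : Type} [Group G] {n m : ℕ} (W : G → Matrix (Fin n) (Fin n) ℂ)
    (C : Matrix (Fin m) (Fin m) ℂ) : Prop :=
  ∃ (s : Fin m → G) (a b : Fin m → Fin n → ℂ), Subgroup.closure (Set.range s) = ⊤ ∧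
    (∀ i, W (s i) = 1 - vecMulVec (a i) (b i)) ∧ ∀ i j, b i ⬝ᵥ a j = C i j

/-- The golden section `τ = (1 + √5)/2`. -/
def gold : ℂ := (1 + (Real.sqrt 5 : ℂ)) / 2

/-- `α = (1 + √-7)/2`. -/
def alph : ℂ := (1 + (Real.sqrt 7 : ℂ) * Complex.I) / 2

/-- `ω = (-1 + √-3)/2`. -/
def omeg : ℂ := (-1 + (Real.sqrt 3 : ℂ) * Complex.I) / 2

/-- The Cartan matrix of `G23 = W(H3)`. -/
def cH3 : Matrix (Fin 3) (Fin 3) ℂ := !![2, -gold, 0; -gold, 2, -1; 0, -1, 2]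

/-- The Cartan matrix of `G24`. -/
def cG24 : Matrix (Fin 3) (Fin 3) ℂ := !![2, -1, -1; -1, 2, 1 - alph; -1, alph, 2]

/-- The Cartan matrix of `G25`. -/
def cG25 : Matrix (Fin 3) (Fin 3) ℂ :=
  !![1 - omeg, -1, 0; omeg, 1 - omeg, -1; 0, omeg, 1 - omeg]

/-- The Cartan matrix of `G26`. -/
def cG26 : Matrix (Fin 3) (Fin 3) ℂ :=
  !![2, -1, 0; omeg - 1, 1 - omeg, -1; 0, omeg, 1 - omeg]

/-- The Cartan matrix of `G27`. -/
def cG27 : Matrix (Fin 3) (Fin 3) ℂ :=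
  !![2, -1, -1; -1, 2, 1 - gold - gold * omeg; -1, 1 + gold * omeg, 2]

/-- The Cartan matrix of `G30 = W(H4)`. -/
def cH4 : Matrix (Fin 4) (Fin 4) ℂ :=
  !![2, -gold, 0, 0; -gold, 2, -1, 0; 0, -1, 2, -1; 0, 0, -1, 2]

/-- The Cartan matrix of `G28 = W(F4)`. -/
def cF4 : Matrix (Fin 4) (Fin 4) ℂ := CartanMatrix.F₄.map (Int.cast : ℤ → ℂ)

/-- The Cartan matrix of `G29`. -/
def cG29 : Matrix (Fin 4) (Fin 4) ℂ :=
  !![2, -1, 0, 0; -1, 2, -1, -Complex.I; 0, -1, 2, -1; 0, Complex.I, -1, 2]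

/-- The Cartan matrix of five generating reflections of `G31` (its rank is `4`). -/
def cG31 : Matrix (Fin 5) (Fin 5) ℂ :=
  !![2, -1, 0, 0, -1;
     -1, 2, -1, -Complex.I, 0;
     0, -1, 2, -1, 0;
     0, Complex.I, -1, 2, 0;
     -1, 0, 0, 0, 2]

/-- The Cartan matrix of `G32`. -/
def cG32 : Matrix (Fin 4) (Fin 4) ℂ :=
  !![1 - omeg, -1, 0, 0; omeg, 1 - omeg, -1, 0; 0, omeg, 1 - omeg, -1; 0, 0, omeg, 1 - omeg]

/-- The Cartan matrix of `G33`. -/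
def cG33 : Matrix (Fin 5) (Fin 5) ℂ :=
  !![2, -1, 0, 0, 0;
     -1, 2, -1, -omeg, 0;
     0, -1, 2, -1, 0;
     0, 1 + omeg, -1, 2, -1;
     0, 0, 0, -1, 2]

/-- The Cartan matrix of `G34`. -/
def cG34 : Matrix (Fin 6) (Fin 6) ℂ :=
  !![2, -1, 0, 0, 0, 0;
     -1, 2, -1, -omeg, 0, 0;
     0, -1, 2, -1, 0, 0;
     0, 1 + omeg, -1, 2, -1, 0;
     0, 0, 0, -1, 2, -1;
     0, 0, 0, 0, -1, 2]

/-- The Cartan matrix of `G35 = W(E6)`. -/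
def cE6 : Matrix (Fin 6) (Fin 6) ℂ := CartanMatrix.E₆.map (Int.cast : ℤ → ℂ)

/-- The Cartan matrix of `G36 = W(E7)`. -/
def cE7 : Matrix (Fin 7) (Fin 7) ℂ := CartanMatrix.E₇.map (Int.cast : ℤ → ℂ)

/-- The Cartan matrix of `G37 = W(E8)`. -/
def cE8 : Matrix (Fin 8) (Fin 8) ℂ := CartanMatrix.E₈.map (Int.cast : ℤ → ℂ)

end

end Pool.Agent.CMFP
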