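import Pool.Agent.CMFn.FTrC

/-! Project CMF, every rank, block F, module FTr: the trace formula for the braid group of a
parabolic subgroup. -/

namespace Pool.Agent.CMFn

open unitInterval Matrix Filter Topology
open Pool.Agent.CMF

noncomputable section

namespace FTrX

/-- The affine map `I → I` from `s` to `t`. -/
def phi (s t : I) : C(I, I) :=
  ⟨fun u => ⟨(1 - (u : ℝ)) * s + u * t, by
    have h1 := s.2
    have h2 := t.2
    have h3 := u.2
    refine ⟨?_, ?_⟩
    · exact add_nonneg (mul_nonneg (sub_nonneg.2 h3.2) h1.1) (mul_nonneg h3.1 h2.1)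
    · have h4 := mul_le_mul_of_nonneg_left h1.2 (sub_nonneg.2 h3.2)
      have h5 := mul_le_mul_of_nonneg_left h2.2 h3.1
      linarith⟩, by
    refine Continuous.subtype_mk ?_ _
    fun_prop⟩

lemma phi_zero (s t : I) : phi s t 0 = s := by
  apply Subtype.ext
  show (1 - ((0 : I) : ℝ)) * s + ((0 : I) : ℝ) * t = s
  rw [Set.Icc.coe_zero]
  ring

lemma phi_one (s t : I) : phi s t 1 = t := by
  apply Subtype.ext
  show (1 - ((1 : I) : ℝ)) * s + ((1 : I) : ℝ) * t = t
  rw [Set.Icc.coe_one]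
  ring

lemma phi_near (s t t₀ : I) (ε : ℝ) (hs : |(s : ℝ) - t₀| < ε) (ht : |(t : ℝ) - t₀| < ε) (u : I) :
    |((phi s t u : I) : ℝ) - t₀| < ε := by
  have e : ((phi s t u : I) : ℝ) - t₀ = (1 - (u : ℝ)) * (s - t₀) + u * (t - t₀) := by
    show (1 - (u : ℝ)) * s + u * t - t₀ = _
    ring
  have hu := u.2
  rw [e]
  have h1 : |(1 - (u : ℝ)) * (s - t₀) + u * (t - t₀)| ≤
      (1 - (u : ℝ)) * |(s : ℝ) - t₀| + u * |(t : ℝ) - t₀| := by
    refine (abs_add_le _ _).trans ?_
    rw [abs_mul, abs_mul, abs_of_nonneg (sub_nonneg.2 hu.2), abs_of_nonneg hu.1]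
  refine h1.trans_lt ?_
  have h2 := mul_le_mul_of_nonneg_left (le_max_left |(s : ℝ) - t₀| |(t : ℝ) - t₀|)
    (sub_nonneg.2 hu.2)
  have h3 := mul_le_mul_of_nonneg_left (le_max_right |(s : ℝ) - t₀| |(t : ℝ) - t₀|) hu.1
  have h4 : max |(s : ℝ) - t₀| |(t : ℝ) - t₀| < ε := max_lt hs ht
  nlinarith

section glob

variable {r : ℕ} {N' N : SG r} [Fintype N'] [Fintype N] {p : Fin r → ℂ}
variable {ι : Type} [Fintype ι] [DecidableEq ι]

/-- The limit, for all paths. -/
theorem tendsto_PP (h : IsPar N' N p) (hN : ∃ s ∈ N, IsRefl s) (hN' : ∃ s ∈ N', IsRefl s)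
    (ρ : N →* Matrix ι ι ℂ) (k : Idx N → ℂ) (γ : C(I, VReg N')) (i j : ι) :
    Tendsto (fun n => PP hN ρ k ((Rn h n).comp γ) i j) atTop
      (𝓝 (PP hN' (ρ.comp (LocX.inc h)) (fun i => k (incI h i)) γ i j)) := by
  obtain ⟨P, hP0, hP⟩ := TopX.exists_lift
    (PPX.LS hN' (ρ.comp (LocX.inc h)) (fun i => k (incI h i))) γ
  have hex : ∀ n, ∃ Pn : I → (Matrix ι ι ℂ)ˣ, Pn 0 = 1 ∧
      TopX.IsLift (PPX.LS hN ρ k) ((Rn h n).comp γ) Pn := fun n =>
    TopX.exists_lift (PPX.LS hN ρ k) ((Rn h n).comp γ)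
  choose Pn hPn0 hPn using hex
  have hseg : ∀ s t : I, PP hN' (ρ.comp (LocX.inc h)) (fun i => k (incI h i))
      (γ.comp (phi s t)) = (P t * (P s)⁻¹).1 := by
    intro s t
    have h1 := TopX.tr_of_lift (hP.comp (phi s t))
    beta_reduce at h1
    rw [phi_zero, phi_one] at h1
    exact congrArg Units.val h1
  have hsegn : ∀ (n : ℕ) (s t : I), PP hN ρ k ((Rn h n).comp (γ.comp (phi s t))) =
      (Pn n t * (Pn n s)⁻¹).1 := by
    intro n s t
    have h1 := TopX.tr_of_lift ((hPn n).comp (phi s t))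
    beta_reduce at h1
    rw [phi_zero, phi_one] at h1
    exact congrArg Units.val h1
  set S : Set I := {t | ∀ i j, Tendsto (fun n => (Pn n t).1 i j) atTop (𝓝 ((P t).1 i j))} with hS
  -- one step
  have hstep : ∀ s t : I, s ∈ S → (∀ i j, Tendsto (fun n => (Pn n t * (Pn n s)⁻¹).1 i j) atTop
      (𝓝 ((P t * (P s)⁻¹).1 i j))) → t ∈ S := by
    intro s t hs hst i j
    have e1 : ∀ n, (Pn n t).1 i j = ∑ l, (Pn n t * (Pn n s)⁻¹).1 i l * (Pn n s).1 l j := by
      intro n
      rw [← Matrix.mul_apply, ← Units.val_mul, inv_mul_cancel_right]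
    have e2 : (P t).1 i j = ∑ l, (P t * (P s)⁻¹).1 i l * (P s).1 l j := by
      rw [← Matrix.mul_apply, ← Units.val_mul, inv_mul_cancel_right]
    simp only [e1, e2]
    exact tendsto_finsetSum _ fun l _ => (hst i l).mul (hs l j)
  have hloc : ∀ t₀ : I, ∀ᶠ t in 𝓝 t₀, (t ∈ S ↔ t₀ ∈ S) := by
    intro t₀
    obtain ⟨δ, hδ, hl⟩ := loc_lim h hN hN' ρ k (γ t₀)
    have hc : Continuous fun t => (γ t).1 := continuous_subtype_val.comp γ.continuous
    have h1 : ∀ᶠ t in 𝓝 t₀, (γ t).1 ∈ Metric.ball (γ t₀).1 δ :=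
      hc.continuousAt.eventually (Metric.ball_mem_nhds _ hδ)
    obtain ⟨ε, hε, hb⟩ := Metric.eventually_nhds_iff_ball.1 h1
    have hb' : ∀ t : I, |(t : ℝ) - t₀| < ε → (γ t).1 ∈ Metric.ball (γ t₀).1 δ := by
      intro t ht
      refine hb t ?_
      rw [Metric.mem_ball, Subtype.dist_eq, Real.dist_eq]
      exact ht
    have hlim : ∀ s t : I, |(s : ℝ) - t₀| < ε → |(t : ℝ) - t₀| < ε → ∀ i j,
        Tendsto (fun n => (Pn n t * (Pn n s)⁻¹).1 i j) atTop (𝓝 ((P t * (P s)⁻¹).1 i j)) := by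
      intro s t hs ht i j
      have h2 := hl (γ.comp (phi s t)) (fun u => hb' _ (phi_near s t t₀ ε hs ht u)) i j
      rw [hseg] at h2
      simp only [hsegn] at h2
      exact h2
    have h00 : |(t₀ : ℝ) - t₀| < ε := by rw [sub_self, abs_zero]; exact hε
    filter_upwards [Metric.ball_mem_nhds t₀ hε] with t ht
    rw [Metric.mem_ball, Subtype.dist_eq, Real.dist_eq] at ht
    exact ⟨fun hts => hstep t t₀ hts (hlim t t₀ ht h00), fun hts => hstep t₀ t hts (hlim t₀ t h00 ht)⟩
  have hcl : IsClopen S := by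
    constructor
    · rw [← isOpen_compl_iff, isOpen_iff_mem_nhds]
      intro t ht
      filter_upwards [hloc t] with s hs
      exact fun hq => ht (hs.1 hq)
    · rw [isOpen_iff_mem_nhds]
      intro t ht
      filter_upwards [hloc t] with s hs
      exact hs.2 ht
  have h0 : (0 : I) ∈ S := by
    intro i j
    simp only [hPn0, hP0]
    exact tendsto_const_nhds
  have h1 : (1 : I) ∈ S := by
    rw [hcl.eq_univ ⟨0, h0⟩]
    trivial
  have h2 := h1 i j
  have e1 : PP hN' (ρ.comp (LocX.inc h)) (fun i => k (incI h i)) γ = (P 1).1 := by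
    have h3 := TopX.tr_of_lift hP
    rw [hP0, inv_one, mul_one] at h3
    exact congrArg Units.val h3
  have e2 : ∀ n, PP hN ρ k ((Rn h n).comp γ) = (Pn n 1).1 := by
    intro n
    have h3 := TopX.tr_of_lift (hPn n)
    rw [hPn0, inv_one, mul_one] at h3
    exact congrArg Units.val h3
  rw [e1]
  simp only [e2]
  exact h2

end glob

section chg

open T4X

variable {r : ℕ} {N : SG r} [Fintype N] {ι : Type} [Fintype ι] [DecidableEq ι]
  {v₀ x y : VReg N}

/-- The monodromy of a pair with another base point. -/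
theorem KZ_chg (hN : ∃ s ∈ N, IsRefl s) (ρ : N →* Matrix ι ι ℂ) (k : Idx N → ℂ) (q : Path v₀ x)
    (g : N) (hy : y = g • x) (γ : Path x y) :
    KZ hN ρ k (chg (Path.Homotopic.Quotient.mk q) g hy (Path.Homotopic.Quotient.mk γ)) =
      (PP hN ρ k q.toContinuousMap)⁻¹ * ((PP hN ρ k γ.toContinuousMap)⁻¹ * ρ g) *
        PP hN ρ k q.toContinuousMap := by
  subst hy
  rw [chg_mk, KZ_mk]
  have e1 : PP hN ρ k (BPath.ofPath g
      ((q.trans γ).trans ((q.symm).map (continuous_const_smul g)))).f =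
      (ρ g * (PP hN ρ k q.toContinuousMap)⁻¹ * ρ g⁻¹) *
        (PP hN ρ k γ.toContinuousMap * PP hN ρ k q.toContinuousMap) := by
    show PP hN ρ k ((q.trans γ).trans ((q.symm).map (continuous_const_smul g))).toContinuousMap = _
    rw [PP_trans, PP_trans, ← PP_symm]
    congr 1
    exact PP_smul hN ρ k g q.symm.toContinuousMap _ (fun t => rfl)
  have e2 : (BPath.ofPath g
      ((q.trans γ).trans ((q.symm).map (continuous_const_smul g)))).g = g := rfl
  rw [e1, e2]
  have hq : IsUnit (PP hN ρ k q.toContinuousMap).det :=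
    (Matrix.isUnit_iff_isUnit_det _).1 (PP_unit hN ρ k _)
  rw [Matrix.mul_inv_rev, Matrix.mul_inv_rev, Matrix.mul_inv_rev, Matrix.mul_inv_rev,
    KZX.rho_inv, KZX.rho_inv, inv_inv, Matrix.nonsing_inv_nonsing_inv _ hq]
  have h3 := KZX.rho_inv_mul ρ g
  simp only [Matrix.mul_assoc]
  rw [h3, Matrix.mul_one]

theorem KZ_chg_trace (hN : ∃ s ∈ N, IsRefl s) (ρ : N →* Matrix ι ι ℂ) (k : Idx N → ℂ)
    (q : PQ v₀ x) (g : N) (hy : y = g • x) (γ : Path x y) :
    (KZ hN ρ k (chg q g hy (Path.Homotopic.Quotient.mk γ))).trace =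
      ((PP hN ρ k γ.toContinuousMap)⁻¹ * ρ g).trace := by
  induction q using Path.Homotopic.Quotient.ind with
  | mk q =>
    rw [KZ_chg, Matrix.trace_mul_comm, ← Matrix.mul_assoc,
      Matrix.mul_nonsing_inv _ ((Matrix.isUnit_iff_isUnit_det _).1 (PP_unit hN ρ k _)),
      Matrix.one_mul]

omit [Fintype N] in
lemma mk_eq_chg (a : BPath N x) : (Quotient.mk _ a : Braid N x) =
    chg (Path.Homotopic.Quotient.mk (Path.refl x)) a.g rfl
      (Path.Homotopic.Quotient.mk a.toPath) := by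
  rw [chg_mk]
  have e : ((Path.refl x).symm.map (continuous_const_smul a.g)) = Path.refl (a.g • x) := by
    apply Path.ext
    funext t
    rfl
  have h1 : (((Path.refl x).trans a.toPath).trans
      ((Path.refl x).symm.map (continuous_const_smul a.g))).Homotopic a.toPath := by
    rw [e]
    exact Path.Homotopic.trans ⟨Path.Homotopy.transRefl _⟩ ⟨Path.Homotopy.reflTrans _⟩
  exact Quotient.sound (BraidX.rel_of rfl a.toPath _ (fun _ => rfl) (fun _ => rfl) h1.symm)

end chg

end FTrX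

section main

open FTrX T4X

variable {r : ℕ} {N' N : SG r} [Fintype N'] [Fintype N] {p : Fin r → ℂ} {v₀ x : VReg N}
variable {ι : Type} [Fintype ι] [DecidableEq ι]

/-- The trace formula: the monodromy of `N` on a braid of the parabolic subgroup `N'` has the
trace of the monodromy of `N'`. -/
theorem KZ_locB_trace (h : IsPar N' N p) (hx : IsTw p x) (q : PQ v₀ x)
    (hN : ∃ s ∈ N, IsRefl s) (hN' : ∃ s ∈ N', IsRefl s) (ρ : N →* Matrix ι ι ℂ)
    (k : Idx N → ℂ) (b : Braid N' (LocX.loc h x)) :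
    (KZ hN ρ k (LocX.locB h hx q b)).trace =
      (KZ hN' (ρ.comp (LocX.inc h)) (fun i => k (incI h i)) b).trace := by
  induction b using Quotient.inductionOn with
  | h a =>
    -- a lower bound of the factors
    have hc : Continuous fun t : I => LocX.eta h (a.f t) :=
      (LocX.continuous_eta h).comp a.f.continuous
    obtain ⟨t₀, -, ht₀⟩ := isCompact_univ.exists_isMinOn (Set.univ_nonempty (α := I))
      hc.continuousOn
    have hmin : ∀ t, LocX.eta h (a.f t₀) ≤ LocX.eta h (a.f t) := fun t => ht₀ (Set.mem_univ t)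
    have hev : ∀ᶠ n in atTop, un n ≤ LocX.eta h (a.f t₀) :=
      (un_lim.eventually_lt_const (LocX.eta_pos h _)).mono fun n hn => hn.le
    -- the trace along the shrunk paths
    have hconst : ∀ᶠ n in atTop, ((PP hN ρ k ((Rn h n).comp a.f))⁻¹ *
        ρ (LocX.inc h a.g)).trace =
        (KZ hN ρ k (LocX.locB h hx q (Quotient.mk _ a))).trace := by
      filter_upwards [hev] with n hn
      have hval : ∀ t, ((Rn h n) (a.f t)).1 = p + (un n : ℂ) • ((a.f t).1 - p) := fun t =>
        Rn_val h n _ (hn.trans (hmin t))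
      have hz₁ : Rn h n (a.g • LocX.loc h x) = LocX.inc h a.g • Rn h n (LocX.loc h x) := by
        apply Subtype.ext
        have e1 := hval 1
        have e0 := hval 0
        rw [a.h1] at e1
        rw [a.h0] at e0
        rw [e1]
        show _ = a.g.1.1 *ᵥ (Rn h n (LocX.loc h x)).1
        rw [e0, LocX.act_shift h a.g.1 a.g.2]
        rfl
      obtain ⟨q₁, hq₁⟩ := LocX.locB_chg h hx q
        (Path.Homotopic.Quotient.mk (Path.refl (LocX.loc h x))) a.g rfl a.toPath (un n)
        (un_pos n) (by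
          intro t
          exact (mul_le_mul_of_nonneg_right (hn.trans (hmin t)) (LocX.nrm_nonneg _ _)).trans_lt
            (LocX.eta_lt h (a.f t))) (a.toPath.map (Rn h n).continuous) (fun t => hval t) hz₁
      rw [mk_eq_chg a, hq₁, KZ_chg_trace]
      rfl
    -- the limit
    have hlim : Tendsto (fun n => ((PP hN ρ k ((Rn h n).comp a.f))⁻¹ *
        ρ (LocX.inc h a.g)).trace) atTop
        (𝓝 (KZ hN' (ρ.comp (LocX.inc h)) (fun i => k (incI h i)) (Quotient.mk _ a)).trace) := by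
      rw [KZ_mk]
      have e1 : ∀ n, (PP hN ρ k ((Rn h n).comp a.f))⁻¹ =
          PP hN ρ k ((Rn h n).comp a.toPath.symm.toContinuousMap) := by
        intro n
        have h1 := PP_symm hN ρ k (a.toPath.map (Rn h n).continuous)
        have e3 : (a.toPath.map (Rn h n).continuous).toContinuousMap = (Rn h n).comp a.f := rfl
        have e4 : (a.toPath.map (Rn h n).continuous).symm.toContinuousMap =
            (Rn h n).comp a.toPath.symm.toContinuousMap := rfl
        rw [e3, e4] at h1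
        exact h1.symm
      have e2 : (PP hN' (ρ.comp (LocX.inc h)) (fun i => k (incI h i)) a.f)⁻¹ =
          PP hN' (ρ.comp (LocX.inc h)) (fun i => k (incI h i)) a.toPath.symm.toContinuousMap :=
        (PP_symm hN' (ρ.comp (LocX.inc h)) (fun i => k (incI h i)) a.toPath).symm
      rw [e2]
      simp only [e1]
      have ht : ∀ M : Matrix ι ι ℂ, (M * ρ (LocX.inc h a.g)).trace =
          ∑ i, ∑ j, M i j * ρ (LocX.inc h a.g) j i := by
        intro M
        rfl
      have ht' : (ρ.comp (LocX.inc h)) a.g = ρ (LocX.inc h a.g) := rfl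
      rw [ht', ht]
      simp only [ht]
      exact tendsto_finsetSum _ fun i _ => tendsto_finsetSum _ fun j _ =>
        (tendsto_PP h hN hN' ρ k _ i j).mul_const _
    have hc2 : Tendsto (fun n : ℕ => ((PP hN ρ k ((Rn h n).comp a.f))⁻¹ *
        ρ (LocX.inc h a.g)).trace) atTop
        (𝓝 (KZ hN ρ k (LocX.locB h hx q (Quotient.mk _ a))).trace) :=
      tendsto_const_nhds.congr' (hconst.mono fun n hn => hn.symm)
    exact tendsto_nhds_unique hc2 hlim

end main

end

end Pool.Agent.CMFn
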