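import Pool.Agent.CMFn.LocBr

/-! Project CMF, every rank, local braid groups, module LocBrB: images of the full twist, of
twists and of braid reflections of a parabolic subgroup. -/

namespace Pool.Agent.CMFn

open unitInterval Matrix

noncomputable section

variable {r : ℕ}

namespace LocX

open T4X

section

variable {N' N : SG r} {p : Fin r → ℂ}

lemma shift_fixC (h : IsPar N' N p) (g : GL (Fin r) ℂ) (hg : g ∈ N') (z : ℂ) (y : Fin r → ℂ)
    (h0 : z ≠ 0) (he : g.1 *ᵥ (p + z • (y - p)) = p + z • (y - p)) : g.1 *ᵥ y = y := by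
  rw [act_shift h g hg] at he
  have h1 := add_left_cancel he
  have h2 : g.1 *ᵥ y - p = y - p := smul_right_injective _ h0 h1
  exact sub_left_injective h2

/-- Every regular vector of `N'` is the base point of a twist at `p`. -/
theorem isTw_loc (h : IsPar N' N p) (y : VReg N') : IsTw (N := N') p y := by
  intro z hz _ g hg hr he
  exact y.2 g hg hr (shift_fixC h g hg z y.1 (norm_pos_iff.1 hz) he)

end

/-! ### The full twist -/

section full

variable {N' N : SG r} [Fintype N'] [Fintype N] {p : Fin r → ℂ} {v₀ x : VReg N}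

/-- The homotopy between the rotations around `0` and around `p`. -/
def mvP (h : IsPar N' N p) (y : VReg N') : C(ℝ × ℝ, VReg N') where
  toFun s := ⟨((Set.projIcc (0 : ℝ) 1 zero_le_one s.1 : ℝ) : ℂ) • p +
      Complex.exp (2 * Real.pi * Complex.I * (s.2 : ℝ)) •
        (y.1 - ((Set.projIcc (0 : ℝ) 1 zero_le_one s.1 : ℝ) : ℂ) • p), by
    intro g hg hr he
    rw [Matrix.mulVec_add, Matrix.mulVec_smul, Matrix.mulVec_smul, Matrix.mulVec_sub,
      Matrix.mulVec_smul, h.fix g hg] at he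
    have h1 := add_left_cancel he
    have h2 := smul_right_injective _ (Complex.exp_ne_zero _) h1
    exact y.2 g hg hr (sub_left_injective h2)⟩
  continuous_toFun := by
    refine Continuous.subtype_mk ?_ _
    have h1 : Continuous fun s : ℝ × ℝ => ((Set.projIcc (0 : ℝ) 1 zero_le_one s.1 : ℝ) : ℂ) :=
      Complex.continuous_ofReal.comp
        (continuous_subtype_val.comp (continuous_projIcc.comp continuous_fst))
    have h2 : Continuous fun s : ℝ × ℝ => Complex.exp (2 * Real.pi * Complex.I * (s.2 : ℝ)) :=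
      Complex.continuous_exp.comp
        (continuous_const.mul (Complex.continuous_ofReal.comp continuous_snd))
    exact (h1.smul continuous_const).add (h2.smul (continuous_const.sub (h1.smul continuous_const)))

/-- The full twist of `N'` is the twist at `p`. -/
theorem piB_eq_tw (h : IsPar N' N p) (y : VReg N') :
    piB y = tw (isTw_loc h y) (Path.refl y) := by
  have e0 : piB y = tw (TopDX.isTw_zero y) (Path.refl y) := by
    rw [TopEX.piB_eq_lb, ← TopEX.lb_refl_trans]
    rfl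
  rw [e0, tw_eq_chg, tw_eq_chg]
  have hF : ∀ s, mvP h y (s, 1) = (1 : N') • mvP h y (s, 0) := by
    intro s
    rw [one_smul]
    apply Subtype.ext
    show _ + Complex.exp (2 * Real.pi * Complex.I * ((1 : ℝ) : ℂ)) • _ =
      _ + Complex.exp (2 * Real.pi * Complex.I * ((0 : ℝ) : ℂ)) • _
    rw [Complex.ofReal_one, mul_one, Complex.exp_two_pi_mul_I, Complex.ofReal_zero, mul_zero,
      Complex.exp_zero]
  have hp0 : (Set.projIcc (0 : ℝ) 1 zero_le_one 0 : I) = 0 := Set.projIcc_left _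
  have hp1 : (Set.projIcc (0 : ℝ) 1 zero_le_one 1 : I) = 1 := Set.projIcc_right _
  have e1 : ∀ t : I, twLoop (TopDX.isTw_zero y) t = mvP h y (0, (t : ℝ)) := by
    intro t
    apply Subtype.ext
    show 0 + Complex.exp (2 * Real.pi * Complex.I * (t : ℝ)) • (y.1 - 0) =
      (((Set.projIcc (0 : ℝ) 1 zero_le_one 0 : I) : ℝ) : ℂ) • p +
        Complex.exp (2 * Real.pi * Complex.I * (t : ℝ)) •
          (y.1 - (((Set.projIcc (0 : ℝ) 1 zero_le_one 0 : I) : ℝ) : ℂ) • p)
    rw [hp0, Set.Icc.coe_zero, Complex.ofReal_zero, zero_smul]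
  have e2 : ∀ t : I, twLoop (isTw_loc h y) t = mvP h y (1, (t : ℝ)) := by
    intro t
    apply Subtype.ext
    show p + Complex.exp (2 * Real.pi * Complex.I * (t : ℝ)) • (y.1 - p) =
      (((Set.projIcc (0 : ℝ) 1 zero_le_one 1 : I) : ℝ) : ℂ) • p +
        Complex.exp (2 * Real.pi * Complex.I * (t : ℝ)) •
          (y.1 - (((Set.projIcc (0 : ℝ) 1 zero_le_one 1 : I) : ℝ) : ℂ) • p)
    rw [hp1, Set.Icc.coe_one, Complex.ofReal_one, one_smul]
  have ec : ∀ t : I, (Path.refl y) t = mvP h y ((t : ℝ), 0) := by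
    intro t
    apply Subtype.ext
    show y.1 = _ + Complex.exp (2 * Real.pi * Complex.I * ((0 : ℝ) : ℂ)) • (y.1 - _)
    rw [Complex.ofReal_zero, mul_zero, Complex.exp_zero, one_smul]
    abel
  rw [chg_sq (mvP h y) 1 hF _ (one_smul N' y).symm _ (twLoop (isTw_loc h y)) (Path.refl y) e1 e2 ec]
  congr 1
  rw [← Path.Homotopic.Quotient.mk_trans, Path.Homotopic.Quotient.mk_trans,
    Path.Homotopic.Quotient.mk_refl, Path.Homotopic.Quotient.trans_refl]

/-- The square between a twist and its shrunk form. -/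
def mvR (h : IsPar N' N p) (hx : IsTw p x) : C(ℝ × ℝ, VReg N) where
  toFun s := ⟨p + ((((1 - (Set.projIcc (0 : ℝ) 1 zero_le_one s.1 : ℝ)) +
      (Set.projIcc (0 : ℝ) 1 zero_le_one s.1 : ℝ) * eta h (loc h x) : ℝ) : ℂ) *
        Complex.exp (2 * Real.pi * Complex.I * (s.2 : ℝ))) • (x.1 - p), by
    have h1 := eta_pos h (loc h x)
    have h2 := eta_le h (loc h x)
    obtain ⟨h3, h4⟩ := (Set.projIcc (0 : ℝ) 1 zero_le_one s.1).2
    set t : ℝ := (Set.projIcc (0 : ℝ) 1 zero_le_one s.1 : ℝ) with ht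
    have h5 : 0 < (1 - t) + t * eta h (loc h x) := by
      rcases h3.eq_or_lt with h6 | h6
      · rw [← h6]; linarith
      · have := mul_pos h6 h1
        linarith
    have h6 : (1 - t) + t * eta h (loc h x) ≤ 1 := by
      have := mul_le_mul_of_nonneg_left h2 h3
      linarith
    have h7 : ‖(((1 - t) + t * eta h (loc h x) : ℝ) : ℂ) *
        Complex.exp (2 * Real.pi * Complex.I * (s.2 : ℝ))‖ = (1 - t) + t * eta h (loc h x) := by
      rw [norm_mul, Complex.norm_real, Real.norm_of_nonneg h5.le, Complex.norm_exp]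
      simp
    exact hx _ (by rw [h7]; exact h5) (by rw [h7]; exact h6)⟩
  continuous_toFun := by
    refine Continuous.subtype_mk ?_ _
    have h1 : Continuous fun s : ℝ × ℝ => (Set.projIcc (0 : ℝ) 1 zero_le_one s.1 : ℝ) :=
      continuous_subtype_val.comp (continuous_projIcc.comp continuous_fst)
    have h2 : Continuous fun s : ℝ × ℝ => Complex.exp (2 * Real.pi * Complex.I * (s.2 : ℝ)) :=
      Complex.continuous_exp.comp
        (continuous_const.mul (Complex.continuous_ofReal.comp continuous_snd))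
    exact continuous_const.add (((Complex.continuous_ofReal.comp
      ((continuous_const.sub h1).add (h1.mul continuous_const))).mul h2).smul continuous_const)

/-- The full twist of the parabolic subgroup is the twist at `p`. -/
theorem locB_piB (h : IsPar N' N p) (hx : IsTw p x) (q : Path v₀ x) :
    locB h hx (Path.Homotopic.Quotient.mk q) (piB (loc h x)) = tw hx q := by
  have hz' : R h (loc h x) = inc h 1 • R h (loc h x) := by rw [map_one, one_smul]
  rw [piB_eq_tw h (loc h x), tw_eq_chg, tw_eq_chg]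
  unfold locB
  rw [mapB_chg (inc h) (R h) (R_act h) _ _ 1 _ _ hz']
  have e0 : Path.Homotopic.Quotient.map (Path.Homotopic.Quotient.mk (Path.refl (loc h x))) (R h) =
      Path.Homotopic.Quotient.refl (R h (loc h x)) := rfl
  rw [e0, Path.Homotopic.Quotient.trans_refl]
  have hF : ∀ s, mvR h hx (s, 1) = (1 : N) • mvR h hx (s, 0) := by
    intro s
    rw [one_smul]
    apply Subtype.ext
    show p + (_ * Complex.exp (2 * Real.pi * Complex.I * ((1 : ℝ) : ℂ))) • _ =
      p + (_ * Complex.exp (2 * Real.pi * Complex.I * ((0 : ℝ) : ℂ))) • _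
    rw [Complex.ofReal_one, mul_one, Complex.exp_two_pi_mul_I, Complex.ofReal_zero, mul_zero,
      Complex.exp_zero]
  have hp0 : (Set.projIcc (0 : ℝ) 1 zero_le_one 0 : I) = 0 := Set.projIcc_left _
  have hp1 : (Set.projIcc (0 : ℝ) 1 zero_le_one 1 : I) = 1 := Set.projIcc_right _
  have e1 : ∀ t : I, twLoop hx t = mvR h hx (0, (t : ℝ)) := by
    intro t
    apply Subtype.ext
    show p + Complex.exp (2 * Real.pi * Complex.I * (t : ℝ)) • (x.1 - p) =
      p + ((((1 - ((Set.projIcc (0 : ℝ) 1 zero_le_one 0 : I) : ℝ)) +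
        ((Set.projIcc (0 : ℝ) 1 zero_le_one 0 : I) : ℝ) * eta h (loc h x) : ℝ) : ℂ) *
        Complex.exp (2 * Real.pi * Complex.I * (t : ℝ))) • (x.1 - p)
    rw [hp0, Set.Icc.coe_zero, sub_zero, zero_mul, add_zero, Complex.ofReal_one, one_mul]
  have e2 : ∀ t : I, ((twLoop (isTw_loc h (loc h x))).map (R h).continuous) t =
      mvR h hx (1, (t : ℝ)) := by
    intro t
    apply Subtype.ext
    have h1 : eta h (twLoop (isTw_loc h (loc h x)) t) = eta h (loc h x) := by
      unfold eta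
      have h2 : (twLoop (isTw_loc h (loc h x)) t).1 - p =
          Complex.exp (2 * Real.pi * Complex.I * (t : ℝ)) • (x.1 - p) := by
        show p + Complex.exp (2 * Real.pi * Complex.I * (t : ℝ)) • (x.1 - p) - p = _
        rw [add_sub_cancel_left]
      have h3 : ‖Complex.exp (2 * Real.pi * Complex.I * (t : ℝ))‖ = 1 := by
        rw [Complex.norm_exp]
        simp
      rw [h2, nrm_smul, h3, one_mul]
      rfl
    show p + (eta h (twLoop (isTw_loc h (loc h x)) t) : ℂ) •
        ((p + Complex.exp (2 * Real.pi * Complex.I * (t : ℝ)) • (x.1 - p)) - p) =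
      p + ((((1 - ((Set.projIcc (0 : ℝ) 1 zero_le_one 1 : I) : ℝ)) +
        ((Set.projIcc (0 : ℝ) 1 zero_le_one 1 : I) : ℝ) * eta h (loc h x) : ℝ) : ℂ) *
        Complex.exp (2 * Real.pi * Complex.I * (t : ℝ))) • (x.1 - p)
    rw [h1, add_sub_cancel_left, smul_smul, hp1, Set.Icc.coe_one, sub_self, one_mul, zero_add]
  have ec : ∀ t : I, (ray h hx) t = mvR h hx ((t : ℝ), 0) := by
    intro t
    apply Subtype.ext
    show p + (((1 - (t : ℝ)) + (t : ℝ) * eta h (loc h x) : ℝ) : ℂ) • (x.1 - p) =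
      p + ((((1 - ((Set.projIcc (0 : ℝ) 1 zero_le_one (t : ℝ) : I) : ℝ)) +
        ((Set.projIcc (0 : ℝ) 1 zero_le_one (t : ℝ) : I) : ℝ) * eta h (loc h x) : ℝ) : ℂ) *
        Complex.exp (2 * Real.pi * Complex.I * ((0 : ℝ) : ℂ))) • (x.1 - p)
    rw [Set.projIcc_val, Complex.ofReal_zero, mul_zero, Complex.exp_zero, mul_one]
  symm
  rw [chg_sq (mvR h hx) 1 hF _ (one_smul N _).symm _
    ((twLoop (isTw_loc h (loc h x))).map (R h).continuous) (ray h hx) e1 e2 ec]
  refine chg_congr _ (map_one _).symm _ _ _ _ ?_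
  rw [← Path.Homotopic.Quotient.mk_cast]
  rfl

/-- The twist at `p` commutes with the image of the local braid group. -/
theorem locB_comm (h : IsPar N' N p) (hx : IsTw p x) (q : Path v₀ x)
    (b : Braid N' (loc h x)) : tw hx q * locB h hx (Path.Homotopic.Quotient.mk q) b =
      locB h hx (Path.Homotopic.Quotient.mk q) b * tw hx q := by
  rw [← locB_piB h hx q, ← map_mul, ← map_mul, piB_central]

end full

/-! ### Twists -/

section twist

variable {N' N : SG r} [Fintype N'] [Fintype N] {p : Fin r → ℂ} {v₀ x : VReg N}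

/-- Twists of `N'` are mapped to twists of `N`. -/
theorem locB_tw (h : IsPar N' N p) (hx : IsTw p x) (q : PQ v₀ x) {p' : Fin r → ℂ} {y : VReg N'}
    (hy : IsTw p' y) (q' : Path (loc h x) y) (ε : ℝ) (hε : 0 < ε)
    (hc : ε * (nrm N' (p' - p) + nrm N' (y.1 - p')) < rad h) :
    ∃ (y₁ : VReg N) (h₁ : IsTw (p + (ε : ℂ) • (p' - p)) y₁) (q₁ : Path v₀ y₁),
      y₁.1 = p + (ε : ℂ) • (y.1 - p) ∧ locB h hx q (tw hy q') = tw h₁ q₁ := by
  have hn : ∀ z : ℂ, ‖z‖ ≤ 1 → ε * nrm N' (p' + z • (y.1 - p') - p) < rad h := by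
    intro z hz
    have h1 : p' + z • (y.1 - p') - p = (p' - p) + z • (y.1 - p') := by abel
    have h2 : nrm N' (p' + z • (y.1 - p') - p) ≤ nrm N' (p' - p) + nrm N' (y.1 - p') := by
      rw [h1]
      refine (nrm_add_le N' _ _).trans (add_le_add_right ?_ _)
      rw [nrm_smul]
      exact mul_le_of_le_one_left (nrm_nonneg _ _) hz
    exact (mul_le_mul_of_nonneg_left h2 hε.le).trans_lt hc
  have hv : ∀ z : ℂ, (p + (ε : ℂ) • (p' - p)) +
      z • ((p + (ε : ℂ) • (y.1 - p)) - (p + (ε : ℂ) • (p' - p))) =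
      p + (ε : ℂ) • ((p' + z • (y.1 - p')) - p) := by
    intro z
    module
  have hy1 : ε * nrm N' (y.1 - p) < rad h := by
    have h1 := hn 1 (by simp)
    rw [one_smul, add_sub_cancel] at h1
    exact h1
  let y₁ : VReg N := ⟨p + (ε : ℂ) • (y.1 - p), sc_mem h ε y hε hy1⟩
  have h₁ : IsTw (p + (ε : ℂ) • (p' - p)) y₁ := by
    intro z hz hz' g hg hr
    show g.1 *ᵥ ((p + (ε : ℂ) • (p' - p)) +
      z • ((p + (ε : ℂ) • (y.1 - p)) - (p + (ε : ℂ) • (p' - p)))) ≠
      (p + (ε : ℂ) • (p' - p)) + z • ((p + (ε : ℂ) • (y.1 - p)) - (p + (ε : ℂ) • (p' - p)))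
    rw [hv]
    exact sc_mem' h ε _ (hy z hz hz') hε (hn z hz') g hg hr
  have hexp : ∀ t : ℝ, ‖Complex.exp (2 * Real.pi * Complex.I * (t : ℝ))‖ = 1 := by
    intro t
    rw [Complex.norm_exp]
    simp
  obtain ⟨q₁, hq₁⟩ := locB_chg h hx q (Path.Homotopic.Quotient.mk q') 1 (one_smul N' y).symm
    (twLoop hy) ε hε (fun t => hn _ (hexp t).le) (twLoop h₁) (fun t => hv _)
    (by rw [map_one, one_smul])
  induction q₁ using Path.Homotopic.Quotient.ind with
  | mk q₁ =>
    refine ⟨y₁, h₁, q₁, rfl, ?_⟩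
    rw [tw_eq_chg hy q', tw_eq_chg h₁ q₁, hq₁]
    refine chg_congr _ (map_one _) _ _ _ _ ?_
    rw [Path.Homotopic.Quotient.cast_rfl_rfl]

/-- The reflections which fix the shrunk centre. -/
theorem fix_iff (h : IsPar N' N p) (p' : Fin r → ℂ) (ε : ℝ) (hε : 0 < ε)
    (hc : ε * nrm N' (p' - p) < rad h) (g : GL (Fin r) ℂ) (hr : IsRefl g) :
    (g ∈ N ∧ g.1 *ᵥ (p + (ε : ℂ) • (p' - p)) = p + (ε : ℂ) • (p' - p)) ↔
      (g ∈ N' ∧ g.1 *ᵥ p' = p') := by
  constructor
  · rintro ⟨hg, he⟩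
    have h1 := mem_of_fix h g hg hr ε p' hε hc he
    exact ⟨h1, shift_fix h g h1 ε p' hε he⟩
  · rintro ⟨hg, he⟩
    refine ⟨h.le hg, ?_⟩
    rw [act_shift h g hg, he]

end twist

/-! ### Braid reflections -/

section refl

variable {N' N : SG r} [Fintype N'] [Fintype N] {p : Fin r → ℂ} {v₀ x : VReg N}

/-- A reflecting hyperplane of `N'` as a reflecting hyperplane of `N`. -/
def incA (h : IsPar N' N p) (H : Arr N') : Arr N :=
  ⟨H.1, by
    obtain ⟨H, s, hs, hr, he⟩ := H
    exact ⟨s, h.le hs, hr, he⟩⟩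

omit [Fintype N'] [Fintype N] in
lemma p_mem (h : IsPar N' N p) (H : Arr N') : p ∈ H.1 := by
  obtain ⟨H, s, hs, hr, rfl⟩ := H
  exact LocMonX.mem_fixL'.2 (h.fix s hs)

omit [Fintype N'] in
lemma ptStab_eq (h : IsPar N' N p) (H : Arr N') : ptStab N H.1 = ptStab N' H.1 := by
  ext g
  constructor
  · rintro ⟨hg, hf⟩
    refine ⟨?_, hf⟩
    by_cases h1 : g = 1
    · rw [h1]; exact N'.one_mem
    · have h2 : (⟨g, hg⟩ : N) ≠ 1 := fun h3 => h1 (congrArg Subtype.val h3)
      have h3 : fixL g = H.1 := LocMonX.fixL_eq (incA h H) ⟨g, hg⟩ hf h2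
      have h4 : IsRefl g := by
        obtain ⟨H', s, hs, hr, rfl⟩ := H
        have h5 := LocMonX.rank_eq_of_fixL_eq g s h3
        unfold IsRefl
        rw [h5]
        exact hr
      exact h.all g hg h4 (hf p (p_mem h H))
  · rintro ⟨hg, hf⟩
    exact ⟨h.le hg, hf⟩

omit [Fintype N'] in
lemma eH_eq (h : IsPar N' N p) (H : Arr N') : eH N H.1 = eH N' H.1 := by
  unfold eH
  rw [ptStab_eq h H]

/-- Braid reflections of `N'` are mapped to braid reflections of `N`. -/
theorem locB_brefl (h : IsPar N' N p) (hx : IsTw p x) (q : PQ v₀ x) (H : Arr N')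
    (b : Braid N' (loc h x)) (hb : IsBraidRefl H b) :
    IsBraidRefl (incA h H) (locB h hx q b) := by
  obtain ⟨s, hs, hdet, hh, ν, hmem, huniq, hsν, y, hy, hdisc, pth, a, ha, rfl⟩ := hb
  obtain ⟨ε, hε, hcε⟩ : ∃ ε : ℝ, 0 < ε ∧ ε * (nrm N' (hh - p) + nrm N' ν) < rad h := by
    have h1 := rad_pos h
    have h2 := nrm_nonneg N' (hh - p)
    have h3 := nrm_nonneg N' ν
    refine ⟨rad h / (nrm N' (hh - p) + nrm N' ν + 1), by positivity, ?_⟩
    rw [div_mul_eq_mul_div, div_lt_iff₀ (by linarith)]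
    nlinarith
  have hn : ∀ z : ℂ, ‖z‖ ≤ 1 → ε * nrm N' (hh + z • ν - p) < rad h := by
    intro z hz
    have h1 : hh + z • ν - p = (hh - p) + z • ν := by abel
    have h2 : nrm N' (hh + z • ν - p) ≤ nrm N' (hh - p) + nrm N' ν := by
      rw [h1]
      refine (nrm_add_le N' _ _).trans (add_le_add_right ?_ _)
      rw [nrm_smul]
      exact mul_le_of_le_one_left (nrm_nonneg _ _) hz
    exact (mul_le_mul_of_nonneg_left h2 hε.le).trans_lt hcε
  have heH := eH_eq h H
  set e : ℕ := eH N' H.1 with he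
  have hexp : ∀ t : ℝ, ‖Complex.exp (2 * Real.pi * Complex.I * (t : ℝ) / e)‖ = 1 := by
    intro t
    have h1 : 2 * Real.pi * Complex.I * (t : ℝ) / (e : ℂ) = ((2 * Real.pi * t / e : ℝ) : ℂ) * Complex.I := by
      push_cast
      ring
    rw [h1, Complex.norm_exp_ofReal_mul_I]
  have hv : ∀ z : ℂ, (p + (ε : ℂ) • (hh - p)) + z • ((ε : ℂ) • ν) =
      p + (ε : ℂ) • ((hh + z • ν) - p) := by
    intro z
    module
  have hy1 : ε * nrm N' (y.1 - p) < rad h := by
    have h1 := hn 1 (by simp)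
    rw [one_smul, ← hy] at h1
    exact h1
  let y₁ : VReg N := ⟨p + (ε : ℂ) • (y.1 - p), sc_mem h ε y hε hy1⟩
  have hga : ∀ t, ε * nrm N' ((a t).1 - p) < rad h := by
    intro t
    rw [ha t]
    exact hn _ (hexp t).le
  let a₁ : Path y₁ (inc h s • y₁) :=
    { toFun := fun t => ⟨p + (ε : ℂ) • ((a t).1 - p), sc_mem h ε (a t) hε (hga t)⟩
      continuous_toFun := by
        refine Continuous.subtype_mk ?_ _
        exact continuous_const.add ((continuous_const (y := (ε : ℂ))).smul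
          ((continuous_subtype_val.comp a.continuous).sub continuous_const))
      source' := by
        apply Subtype.ext
        show p + (ε : ℂ) • ((a 0).1 - p) = p + (ε : ℂ) • (y.1 - p)
        rw [a.source]
      target' := by
        apply Subtype.ext
        show p + (ε : ℂ) • ((a 1).1 - p) = s.1.1 *ᵥ (p + (ε : ℂ) • (y.1 - p))
        rw [a.target, act_shift h s.1 s.2]
        rfl }
  obtain ⟨q₁, hq₁⟩ := locB_chg h hx q (Path.Homotopic.Quotient.mk pth) s rfl a ε hε hga a₁
    (fun t => rfl) rfl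
  induction q₁ using Path.Homotopic.Quotient.ind with
  | mk q₁ =>
    rw [chg_mk, chg_mk] at hq₁
    refine ⟨inc h s, hs, ?_, p + (ε : ℂ) • (hh - p), (ε : ℂ) • ν, ?_, ?_, ?_, y₁, ?_, ?_, q₁, a₁,
      ?_, hq₁⟩
    · show s.1.1.det = _
      rw [hdet]
      show _ = Complex.exp (2 * Real.pi * Complex.I / (eH N H.1 : ℕ))
      rw [heH]
    · exact Submodule.add_mem _ (p_mem h H) (Submodule.smul_mem _ _
        (Submodule.sub_mem _ hmem (p_mem h H)))
    · intro g hg hr hfix
      have h2 : ε * nrm N' (hh - p) < rad h := by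
        have h1 := hn 0 (by simp)
        rw [zero_smul, add_zero] at h1
        exact h1
      obtain ⟨h3, h4⟩ := (fix_iff h hh ε hε h2 g hr).1 ⟨hg, hfix⟩
      exact huniq g h3 hr h4
    · show s.1.1 *ᵥ ((ε : ℂ) • ν) =
        Complex.exp (2 * Real.pi * Complex.I / (eH N H.1 : ℕ)) • ((ε : ℂ) • ν)
      rw [heH, Matrix.mulVec_smul, hsν, smul_comm]
    · show p + (ε : ℂ) • (y.1 - p) = p + (ε : ℂ) • (hh - p) + (ε : ℂ) • ν
      rw [hy]
      module
    · intro z hz hz' g hg hr
      rw [hv]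
      exact sc_mem' h ε _ (hdisc z hz hz') hε (hn z hz') g hg hr
    · intro t
      show p + (ε : ℂ) • ((a t).1 - p) = p + (ε : ℂ) • (hh - p) +
        Complex.exp (2 * Real.pi * Complex.I * (t : ℝ) / (eH N H.1 : ℕ)) • ((ε : ℂ) • ν)
      rw [ha t, heH]
      module

/-- Transitivity of parabolic subgroups. -/
theorem isPar_trans {N'' : SG r} (h : IsPar N' N p) {p' : Fin r → ℂ} (h' : IsPar N'' N' p')
    (ε : ℝ) (hε : 0 < ε) (hc : ε * nrm N' (p' - p) < rad h) :
    IsPar N'' N (p + (ε : ℂ) • (p' - p)) where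
  le := h'.le.trans h.le
  fix g hg := by rw [act_shift h g (h'.le hg), h'.fix g hg]
  all g hg hr he := by
    obtain ⟨h1, h2⟩ := (fix_iff h p' ε hε hc g hr).1 ⟨hg, he⟩
    exact h'.all g h1 hr h2

end refl

end LocX

end

end Pool.Agent.CMFn
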