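import Pool.Agent.CMFn.Curve
import Pool.Agent.CMFn.LocBrB

/-! Project CMF, every rank, block F, module FTrA: a linear differential equation which depends
on a parameter, and parallel transport along segments. -/

namespace Pool.Agent.CMFn

open unitInterval Matrix Filter Topology

noncomputable section

namespace FTrX

section ode

variable {A : Type} [NormedRing A] [NormedAlgebra ℝ A]

/-- Solutions of linear differential equations depend continuously on the coefficients. -/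
theorem ode_lim (C : ℝ → A) (Cn : ℕ → ℝ → A) (Y : ℝ → A) (Yn : ℕ → ℝ → A) (K : ℝ)
    (hK : ∀ s ∈ Set.Icc (0 : ℝ) 1, ‖C s‖ ≤ K)
    (hC : Tendsto (fun x : ℕ × ℝ => Cn x.1 x.2 - C x.2) (atTop ×ˢ 𝓟 (Set.Icc (0 : ℝ) 1)) (𝓝 0))
    (hY : ∀ s ∈ Set.Icc (0 : ℝ) 1, HasDerivAt Y (C s * Y s) s)
    (hYn : ∀ᶠ n in atTop, ∀ s ∈ Set.Icc (0 : ℝ) 1, HasDerivAt (Yn n) (Cn n s * Yn n s) s)
    (h0 : ∀ᶠ n in atTop, Yn n 0 = Y 0) : Tendsto (fun n => Yn n 1) atTop (𝓝 (Y 1)) := by
  obtain ⟨M, hM⟩ := (isCompact_Icc (a := (0 : ℝ)) (b := 1)).exists_bound_of_continuousOn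
    (f := Y) (fun s hs => (hY s hs).continuousAt.continuousWithinAt)
  have hM0 : 0 ≤ M := (norm_nonneg _).trans (hM 0 ⟨le_rfl, zero_le_one⟩)
  rw [tendsto_iff_norm_sub_tendsto_zero, Metric.tendsto_nhds]
  intro η hη
  have hg : ContinuousAt (fun δ : ℝ => gronwallBound 0 (K + 1) (δ * M) 1) 0 :=
    ((gronwallBound_continuous_ε 0 (K + 1) 1).comp (continuous_id.mul continuous_const)).continuousAt
  have hg0 : gronwallBound 0 (K + 1) ((0 : ℝ) * M) 1 = 0 := by
    rw [zero_mul, gronwallBound_ε0_δ0]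
  have h1 : ∀ᶠ δ : ℝ in 𝓝 0, gronwallBound 0 (K + 1) (δ * M) 1 < η := by
    refine hg.eventually_lt continuousAt_const ?_
    show gronwallBound 0 (K + 1) ((0 : ℝ) * M) 1 < η
    rw [hg0]
    exact hη
  obtain ⟨δ₀, hδ₀, hball⟩ := Metric.eventually_nhds_iff_ball.1 h1
  set δ : ℝ := min (δ₀ / 2) 1 with hδ
  have hδ0 : 0 < δ := lt_min (by linarith) one_pos
  have hδη : gronwallBound 0 (K + 1) (δ * M) 1 < η := by
    refine hball δ ?_
    rw [Metric.mem_ball, dist_zero_right, Real.norm_of_nonneg hδ0.le]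
    exact (min_le_left _ _).trans_lt (by linarith)
  have h2 : ∀ᶠ x : ℕ × ℝ in atTop ×ˢ 𝓟 (Set.Icc (0 : ℝ) 1), ‖Cn x.1 x.2 - C x.2‖ < δ := by
    have := hC.norm
    rw [norm_zero] at this
    exact this.eventually_lt_const hδ0
  rw [eventually_prod_principal_iff] at h2
  filter_upwards [h2, hYn, h0] with n hn hdn h0n
  rw [dist_zero_right, norm_norm]
  have h3 := norm_le_gronwallBound_of_norm_deriv_right_le (f := fun s => Yn n s - Y s)
    (f' := fun s => Cn n s * Yn n s - C s * Y s) (δ := 0) (K := K + 1) (ε := δ * M)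
    (a := 0) (b := 1)
    (fun s hs => ((hdn s hs).sub (hY s hs)).continuousAt.continuousWithinAt)
    (fun s hs => ((hdn s ⟨hs.1, hs.2.le⟩).sub (hY s ⟨hs.1, hs.2.le⟩)).hasDerivWithinAt)
    (by beta_reduce; rw [h0n, sub_self, norm_zero]) (by
      intro s hs
      have hs' : s ∈ Set.Icc (0 : ℝ) 1 := ⟨hs.1, hs.2.le⟩
      have e : Cn n s * Yn n s - C s * Y s = Cn n s * (Yn n s - Y s) + (Cn n s - C s) * Y s := by
        noncomm_ring
      rw [e]
      have hc1 : ‖Cn n s‖ ≤ K + 1 := by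
        have e1 : Cn n s = (Cn n s - C s) + C s := by abel
        rw [e1]
        refine (norm_add_le _ _).trans ?_
        have := hn s hs'
        have := hK s hs'
        have : δ ≤ 1 := min_le_right _ _
        linarith
      refine (norm_add_le _ _).trans (add_le_add ?_ ?_)
      · exact (norm_mul_le _ _).trans (mul_le_mul_of_nonneg_right hc1 (norm_nonneg _))
      · exact (norm_mul_le _ _).trans (mul_le_mul (hn s hs').le (hM s hs') (norm_nonneg _) hδ0.le))
    1 ⟨zero_le_one, le_rfl⟩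
  rw [sub_zero] at h3
  exact h3.trans_lt hδη

end ode

end FTrX

end

end Pool.Agent.CMFn
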