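import Pool.Agent.CMFn.FTrA

/-! Project CMF, every rank, block F, module FTrB: parallel transport along segments; the KZ form
near a point which is fixed by a parabolic subgroup. -/

namespace Pool.Agent.CMFn

open unitInterval Matrix Filter Topology
open Pool.Agent.CMF (exists_ode)

noncomputable section

namespace FTrX

section line

variable {r : ℕ} {N : SG r} [Fintype N] {ι : Type} [Fintype ι] [DecidableEq ι]

lemma lf_line (K : Submodule ℂ (Fin r → ℂ)) (a w : Fin r → ℂ) (z : ℂ) :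
    lf K ⬝ᵥ (a + z • w) = lf K ⬝ᵥ a + z * (lf K ⬝ᵥ w) := by
  rw [dotProduct_add, dotProduct_smul, smul_eq_mul]

lemma rat_diff (H : Submodule ℂ (Fin r → ℂ)) (a w y : Fin r → ℂ) (U : Set ℂ)
    (hU : ∀ z ∈ U, lf H ⬝ᵥ (a + z • w) ≠ 0) :
    DifferentiableOn ℂ (fun z => rat H y (a + z • w)) U := by
  unfold rat
  refine DifferentiableOn.div (differentiableOn_const _) ?_ hU
  have e : (fun z : ℂ => lf H ⬝ᵥ (a + z • w)) = fun z => lf H ⬝ᵥ a + z * (lf H ⬝ᵥ w) := by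
    funext z
    exact lf_line H a w z
  rw [e]
  fun_prop

lemma om_apply (ρ : N →* Matrix ι ι ℂ) (k : Idx N → ℂ) (v y : Fin r → ℂ) (i j : ι) :
    om ρ k v y i j = ∑ g : N, cr k g * rat (fixL g.1) y v * ρ g i j +
      (∑ H : Arr N, cs k H * rat H.1 y v) * (1 : Matrix ι ι ℂ) i j := by
  unfold om gau
  rw [Matrix.add_apply, Matrix.sum_apply, Matrix.smul_apply, smul_eq_mul]
  rfl

/-- The KZ form is holomorphic along complex lines. -/
lemma om_diff (ρ : N →* Matrix ι ι ℂ) (k : Idx N → ℂ) (a w y : Fin r → ℂ) (U : Set ℂ)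
    (hreg : ∀ z ∈ U, ∀ g ∈ N, IsRefl g → g.1 *ᵥ (a + z • w) ≠ a + z • w) (i j : ι) :
    DifferentiableOn ℂ (fun z => om ρ k (a + z • w) y i j) U := by
  have hH : ∀ (H : Arr N) (z : ℂ), z ∈ U → lf H.1 ⬝ᵥ (a + z • w) ≠ 0 := fun H z hz =>
    (vreg_iff (N := N) (a + z • w)).1 (hreg z hz) H
  have e : (fun z : ℂ => om ρ k (a + z • w) y i j) = fun z =>
      ∑ g : N, cr k g * rat (fixL g.1) y (a + z • w) * ρ g i j +
      (∑ H : Arr N, cs k H * rat H.1 y (a + z • w)) * (1 : Matrix ι ι ℂ) i j := by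
    funext z
    exact om_apply ρ k _ _ i j
  rw [e]
  refine DifferentiableOn.add ?_ ?_
  · refine DifferentiableOn.fun_sum fun g _ => ?_
    by_cases hg : IsRefl g.1
    · exact ((differentiableOn_const _).mul
        (rat_diff _ a w y U (hH ⟨fixL g.1, g.1, g.2, hg, rfl⟩))).mul_const _
    · rw [show cr k g = 0 from FrameBX.cr_zero k g hg]
      simp only [zero_mul]
      exact differentiableOn_const _
  · refine DifferentiableOn.mul_const ?_ _
    refine DifferentiableOn.fun_sum fun H _ => ?_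
    exact (differentiableOn_const _).mul (rat_diff _ a w y U (hH H))

/-- Parallel transport along a segment. -/
theorem PP_line (hN : ∃ s ∈ N, IsRefl s) (ρ : N →* Matrix ι ι ℂ) (k : Idx N → ℂ)
    (a w : Fin r → ℂ) (U : Set ℂ) (hU : IsOpen U) (hc : Convex ℝ U)
    (h01 : ∀ t : I, ((t : ℝ) : ℂ) ∈ U)
    (hreg : ∀ z ∈ U, ∀ g ∈ N, IsRefl g → g.1 *ᵥ (a + z • w) ≠ a + z • w)
    (γ : C(I, VReg N)) (hγ : ∀ t, (γ t).1 = a + ((t : ℝ) : ℂ) • w) :
    ∃ Y : ℂ → Matrix ι ι ℂ, Y 0 = 1 ∧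
      (∀ z ∈ U, ∀ i j, HasDerivAt (fun z => Y z i j) ((om ρ k (a + z • w) w * Y z) i j) z) ∧
      PP hN ρ k γ = Y 1 := by
  have h0 : (0 : ℂ) ∈ U := by
    have := h01 0
    rwa [Set.Icc.coe_zero, Complex.ofReal_zero] at this
  obtain ⟨Y, hY0, hYd, hYu⟩ := exists_ode U hU hc 0 h0 (fun z => om ρ k (a + z • w) w)
    (om_diff ρ k a w w U hreg)
  refine ⟨Y, hY0, hYd, ?_⟩
  have hcont : Continuous (fun t : I => ((t : ℝ) : ℂ)) := by fun_prop
  have h1 := PP_curve hN ρ k U hU hc (fun z => a + z • w) (fun _ => w) (by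
      intro z _ b
      have h2 : HasDerivAt (fun z : ℂ => a b + z * w b) (1 * w b) z :=
        ((hasDerivAt_id z).mul_const (w b)).const_add (a b)
      rw [one_mul] at h2
      exact h2) hreg Y hYd hYu γ ⟨_, hcont⟩ (fun t => ⟨h01 t, hγ t⟩)
  rw [h1]
  have e1 : (⟨fun t : I => ((t : ℝ) : ℂ), hcont⟩ : C(I, ℂ)) 1 = 1 := by
    show (((1 : I) : ℝ) : ℂ) = 1
    simp
  have e0 : (⟨fun t : I => ((t : ℝ) : ℂ), hcont⟩ : C(I, ℂ)) 0 = 0 := by
    show (((0 : I) : ℝ) : ℂ) = 0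
    simp
  rw [e1, e0, hY0, inv_one, mul_one]

end line

end FTrX

/-- The indices of a parabolic subgroup. -/
def incI {r : ℕ} {N' N : SG r} [Fintype N'] [Fintype N] {p : Fin r → ℂ} (h : IsPar N' N p) :
    Idx N' → Idx N :=
  Quot.map (fun a => (LocX.incA h a.1, a.2)) (by
    rintro ⟨H, i⟩ ⟨H', j⟩ ⟨⟨g, hg, h1⟩, h2⟩
    refine ⟨⟨g, h.le hg, h1⟩, ?_⟩
    show (eH N H.1 : ℤ) ∣ j - i
    rw [LocX.eH_eq h]
    exact h2)

namespace FTrX

section par

variable {r : ℕ} {N' N : SG r} [Fintype N'] [Fintype N] {p : Fin r → ℂ}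

lemma incI_idx (h : IsPar N' N p) (H : Arr N') (j : ℤ) :
    incI h (idx H j) = idx (LocX.incA h H) j := rfl

lemma cr_inc (h : IsPar N' N p) (k : Idx N → ℂ) (g : N') :
    cr (fun i => k (incI h i)) g = cr k (LocX.inc h g) := by
  unfold cr
  have e : (LocX.inc h g).1 = g.1 := rfl
  by_cases hg : IsRefl g.1
  · rw [dif_pos hg, dif_pos (by rw [e]; exact hg)]
    unfold cf
    rw [← LocX.eH_eq h]
    rfl
  · rw [dif_neg hg, dif_neg (by rw [e]; exact hg)]

lemma cs_inc (h : IsPar N' N p) (k : Idx N → ℂ) (H : Arr N') :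
    cs (fun i => k (incI h i)) H = cs k (LocX.incA h H) := by
  unfold cs
  rw [← LocX.eH_eq h]
  rfl

/-- A reflecting hyperplane through `p` is one of `N'`. -/
lemma exists_arr (h : IsPar N' N p) (H : Arr N) (hp : p ∈ H.1) :
    ∃ H' : Arr N', LocX.incA h H' = H := by
  obtain ⟨H, s, hs, hr, rfl⟩ := H
  have h1 : s ∈ N' := h.all s hs hr (LocMonX.mem_fixL'.1 hp)
  exact ⟨⟨fixL s, s, h1, hr, rfl⟩, rfl⟩

lemma incA_inj (h : IsPar N' N p) : Function.Injective (LocX.incA h) := by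
  intro H H' he
  exact Subtype.ext (congrArg (fun H : Arr N => H.1) he)

lemma inc_inj (h : IsPar N' N p) : Function.Injective (LocX.inc h) :=
  Subgroup.inclusion_injective h.le

lemma rat_shift (K : Submodule ℂ (Fin r → ℂ)) (hp : lf K ⬝ᵥ p = 0) (ε : ℂ) (hε : ε ≠ 0)
    (y w : Fin r → ℂ) : rat K (ε • w) (p + ε • (y - p)) = rat K w y := by
  unfold rat
  rw [dotProduct_smul, lf_line, dotProduct_sub, hp, zero_add, sub_zero, smul_eq_mul,
    mul_div_mul_left _ _ hε]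

variable {ι : Type} [Fintype ι] [DecidableEq ι]

open Classical in
/-- The part of the KZ form which vanishes at `ε = 0`. -/
def rem (ρ : N →* Matrix ι ι ℂ) (k : Idx N → ℂ) (p : Fin r → ℂ) (ε : ℂ) (y w : Fin r → ℂ) :
    Matrix ι ι ℂ :=
  ∑ g : N, (if p ∈ fixL g.1 then 0 else cr k g * rat (fixL g.1) (ε • w) (p + ε • (y - p))) • ρ g +
    (∑ H : Arr N, if p ∈ H.1 then 0 else cs k H * rat H.1 (ε • w) (p + ε • (y - p))) •
      (1 : Matrix ι ι ℂ)

/-- The KZ form near `p`. -/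
theorem om_split (h : IsPar N' N p) (ρ : N →* Matrix ι ι ℂ) (k : Idx N → ℂ) (ε : ℂ) (hε : ε ≠ 0)
    (y w : Fin r → ℂ) : om ρ k (p + ε • (y - p)) (ε • w) =
      om (ρ.comp (LocX.inc h)) (fun i => k (incI h i)) y w + rem ρ k p ε y w := by
  classical
  have e1 : ∑ g : N, (cr k g * rat (fixL g.1) (ε • w) (p + ε • (y - p))) • ρ g =
      ∑ g : N', (cr (fun i => k (incI h i)) g * rat (fixL g.1) w y) • (ρ.comp (LocX.inc h)) g +
      ∑ g : N, (if p ∈ fixL g.1 then 0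
        else cr k g * rat (fixL g.1) (ε • w) (p + ε • (y - p))) • ρ g := by
    have e2 : ∑ g : N', (cr (fun i => k (incI h i)) g * rat (fixL g.1) w y) •
        (ρ.comp (LocX.inc h)) g = ∑ g : N, (if p ∈ fixL g.1 then
          cr k g * rat (fixL g.1) (ε • w) (p + ε • (y - p)) else 0) • ρ g := by
      refine Finset.sum_of_injOn (LocX.inc h) ((inc_inj h).injOn) (fun _ _ => Finset.mem_univ _)
        ?_ ?_
      · intro g _ hg
        by_cases hp : p ∈ fixL g.1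
        · by_cases hr : IsRefl g.1
          · exfalso
            apply hg
            exact ⟨⟨g.1, h.all g.1 g.2 hr (LocMonX.mem_fixL'.1 hp)⟩, Finset.mem_coe.2
              (Finset.mem_univ _), rfl⟩
          · rw [if_pos hp, FrameBX.cr_zero k g hr, zero_mul, zero_smul]
        · rw [if_neg hp, zero_smul]
      · intro g _
        have hp : p ∈ fixL (LocX.inc h g).1 := LocMonX.mem_fixL'.2 (h.fix g.1 g.2)
        rw [if_pos hp, cr_inc h k g]
        by_cases hr : IsRefl g.1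
        · have h0 : lf (fixL g.1) ⬝ᵥ p = 0 :=
            ((lf_spec (N := N') ⟨fixL g.1, g.1, g.2, hr, rfl⟩).2 p).1 hp
          have e3 : rat (fixL (LocX.inc h g).1) (ε • w) (p + ε • (y - p)) =
              rat (fixL g.1) w y := rat_shift _ h0 ε hε y w
          rw [e3]
          rfl
        · have e3 : cr k (LocX.inc h g) = 0 := FrameBX.cr_zero k _ hr
          rw [e3, zero_mul, zero_mul, zero_smul, zero_smul]
    rw [e2, ← Finset.sum_add_distrib]
    refine Finset.sum_congr rfl fun g _ => ?_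
    rw [← add_smul]
    congr 1
    split_ifs <;> simp
  have e4 : ∑ H : Arr N, cs k H * rat H.1 (ε • w) (p + ε • (y - p)) =
      ∑ H : Arr N', cs (fun i => k (incI h i)) H * rat H.1 w y +
      ∑ H : Arr N, (if p ∈ H.1 then 0 else cs k H * rat H.1 (ε • w) (p + ε • (y - p))) := by
    have e5 : ∑ H : Arr N', cs (fun i => k (incI h i)) H * rat H.1 w y =
        ∑ H : Arr N, (if p ∈ H.1 then cs k H * rat H.1 (ε • w) (p + ε • (y - p)) else 0) := by
      refine Finset.sum_of_injOn (LocX.incA h) ((incA_inj h).injOn)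
        (fun _ _ => Finset.mem_univ _) ?_ ?_
      · intro H _ hH
        by_cases hp : p ∈ H.1
        · exfalso
          apply hH
          obtain ⟨H', hH'⟩ := exists_arr h H hp
          exact ⟨H', Finset.mem_coe.2 (Finset.mem_univ _), hH'⟩
        · rw [if_neg hp]
      · intro H _
        have hp : p ∈ (LocX.incA h H).1 := LocX.p_mem h H
        rw [if_pos hp, cs_inc h k H]
        have h0 : lf H.1 ⬝ᵥ p = 0 := ((lf_spec H).2 p).1 hp
        congr 1
        exact (rat_shift _ h0 ε hε y w).symm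
    rw [e5, ← Finset.sum_add_distrib]
    refine Finset.sum_congr rfl fun g _ => ?_
    split_ifs <;> simp
  unfold om gau rem
  rw [e1, e4, add_smul]
  abel

/-- The remainder tends to zero, uniformly on segments. -/
theorem rem_lim (ρ : N →* Matrix ι ι ℂ) (k : Idx N → ℂ) (a w : Fin r → ℂ) (u : ℕ → ℝ)
    (hu : Tendsto u atTop (𝓝 0)) (i j : ι) :
    Tendsto (fun x : ℕ × ℝ => rem ρ k p (u x.1 : ℂ) (a + (x.2 : ℂ) • w) w i j)
      (atTop ×ˢ 𝓟 (Set.Icc (0 : ℝ) 1)) (𝓝 0) := by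
  classical
  have hr : ∀ H : Arr N, p ∉ H.1 → Tendsto (fun x : ℕ × ℝ =>
      rat H.1 ((u x.1 : ℂ) • w) (p + (u x.1 : ℂ) • (a + (x.2 : ℂ) • w - p)))
      (atTop ×ˢ 𝓟 (Set.Icc (0 : ℝ) 1)) (𝓝 0) := by
    intro H hp
    have hne : lf H.1 ⬝ᵥ p ≠ 0 := fun h0 => hp (((lf_spec H).2 p).2 h0)
    have h1 : Tendsto (fun x : ℕ × ℝ => (u x.1 : ℂ)) (atTop ×ˢ 𝓟 (Set.Icc (0 : ℝ) 1)) (𝓝 0) := by
      have h2 : Tendsto (fun x : ℕ × ℝ => u x.1) (atTop ×ˢ 𝓟 (Set.Icc (0 : ℝ) 1)) (𝓝 0) :=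
        hu.comp tendsto_fst
      exact_mod_cast (Complex.continuous_ofReal.tendsto 0).comp h2
    have h3 : Tendsto (fun x : ℕ × ℝ => (u x.1 : ℂ) * (lf H.1 ⬝ᵥ (a + (x.2 : ℂ) • w - p)))
        (atTop ×ˢ 𝓟 (Set.Icc (0 : ℝ) 1)) (𝓝 0) := by
      refine h1.zero_mul_isBoundedUnder_le ?_
      refine ⟨‖lf H.1 ⬝ᵥ (a - p)‖ + ‖lf H.1 ⬝ᵥ w‖, ?_⟩
      rw [eventually_map, eventually_prod_principal_iff]
      refine Eventually.of_forall fun n s hs => ?_
      have e : lf H.1 ⬝ᵥ (a + (s : ℂ) • w - p) = lf H.1 ⬝ᵥ (a - p) + (s : ℂ) * (lf H.1 ⬝ᵥ w) := by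
        rw [← lf_line]
        congr 1
        abel
      show ‖lf H.1 ⬝ᵥ (a + (s : ℂ) • w - p)‖ ≤ _
      rw [e]
      refine (norm_add_le _ _).trans (add_le_add le_rfl ?_)
      rw [norm_mul, Complex.norm_real, Real.norm_of_nonneg hs.1]
      exact mul_le_of_le_one_left (norm_nonneg _) hs.2
    have h4 : Tendsto (fun x : ℕ × ℝ => (u x.1 : ℂ) * (lf H.1 ⬝ᵥ w) /
        (lf H.1 ⬝ᵥ p + (u x.1 : ℂ) * (lf H.1 ⬝ᵥ (a + (x.2 : ℂ) • w - p))))
        (atTop ×ˢ 𝓟 (Set.Icc (0 : ℝ) 1)) (𝓝 (0 * (lf H.1 ⬝ᵥ w) / (lf H.1 ⬝ᵥ p + 0))) :=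
      (h1.mul_const _).div (tendsto_const_nhds.add h3) (by rwa [add_zero])
    rw [zero_mul, zero_div] at h4
    refine h4.congr fun x => ?_
    unfold rat
    rw [dotProduct_smul, smul_eq_mul, lf_line]
  have e : (fun x : ℕ × ℝ => rem ρ k p (u x.1 : ℂ) (a + (x.2 : ℂ) • w) w i j) = fun x =>
      ∑ g : N, (if p ∈ fixL g.1 then 0 else cr k g *
        rat (fixL g.1) ((u x.1 : ℂ) • w) (p + (u x.1 : ℂ) • (a + (x.2 : ℂ) • w - p))) * ρ g i j +
      (∑ H : Arr N, if p ∈ H.1 then 0 else cs k H *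
        rat H.1 ((u x.1 : ℂ) • w) (p + (u x.1 : ℂ) • (a + (x.2 : ℂ) • w - p))) *
        (1 : Matrix ι ι ℂ) i j := by
    funext x
    unfold rem
    rw [Matrix.add_apply, Matrix.sum_apply, Matrix.smul_apply, smul_eq_mul]
    rfl
  rw [e]
  have t1 : ∀ g : N, Tendsto (fun x : ℕ × ℝ => (if p ∈ fixL g.1 then 0 else cr k g *
      rat (fixL g.1) ((u x.1 : ℂ) • w) (p + (u x.1 : ℂ) • (a + (x.2 : ℂ) • w - p))) * ρ g i j)
      (atTop ×ˢ 𝓟 (Set.Icc (0 : ℝ) 1)) (𝓝 0) := by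
    intro g
    by_cases hp : p ∈ fixL g.1
    · simp only [if_pos hp, zero_mul]
      exact tendsto_const_nhds
    · simp only [if_neg hp]
      by_cases hg : IsRefl g.1
      · have := ((hr ⟨fixL g.1, g.1, g.2, hg, rfl⟩ hp).const_mul (cr k g)).mul_const (ρ g i j)
        rw [mul_zero, zero_mul] at this
        exact this
      · simp only [FrameBX.cr_zero k g hg, zero_mul]
        exact tendsto_const_nhds
  have t2 : ∀ H : Arr N, Tendsto (fun x : ℕ × ℝ => (if p ∈ H.1 then 0 else cs k H *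
      rat H.1 ((u x.1 : ℂ) • w) (p + (u x.1 : ℂ) • (a + (x.2 : ℂ) • w - p))))
      (atTop ×ˢ 𝓟 (Set.Icc (0 : ℝ) 1)) (𝓝 0) := by
    intro H
    by_cases hp : p ∈ H.1
    · simp only [if_pos hp]
      exact tendsto_const_nhds
    · simp only [if_neg hp]
      have := (hr H hp).const_mul (cs k H)
      rw [mul_zero] at this
      exact this
  have t3 := (tendsto_finsetSum (Finset.univ : Finset N) fun g _ => t1 g).add
    ((tendsto_finsetSum (Finset.univ : Finset (Arr N)) fun H _ => t2 H).mul_const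
      ((1 : Matrix ι ι ℂ) i j))
  simp only [Finset.sum_const_zero, zero_mul, add_zero] at t3
  exact t3

end par

end FTrX

end

end Pool.Agent.CMFn
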