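import Pool.Agent.CMFn.FTrB
import Pool.Agent.CMFn.KZ

/-! Project CMF, every rank, block F, module FTrC: parallel transport along a path which shrinks
to a point fixed by a parabolic subgroup. -/

namespace Pool.Agent.CMFn

open unitInterval Matrix Filter Topology
open Pool.Agent.CMF

noncomputable section

namespace FTrX

section mat

variable {ι : Type} [Fintype ι] [DecidableEq ι]

attribute [local instance] Matrix.linftyOpNormedRing Matrix.linftyOpNormedAlgebra

/-- Continuous dependence on the coefficients: matrices. -/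
theorem ode_lim_mat (C : ℝ → Matrix ι ι ℂ) (Cn : ℕ → ℝ → Matrix ι ι ℂ) (Y : ℂ → Matrix ι ι ℂ)
    (Yn : ℕ → ℂ → Matrix ι ι ℂ)
    (hCc : ∀ i j, ContinuousOn (fun s => C s i j) (Set.Icc (0 : ℝ) 1))
    (hC : ∀ i j, Tendsto (fun x : ℕ × ℝ => Cn x.1 x.2 i j - C x.2 i j)
      (atTop ×ˢ 𝓟 (Set.Icc (0 : ℝ) 1)) (𝓝 0))
    (hY : ∀ s ∈ Set.Icc (0 : ℝ) 1, ∀ i j, HasDerivAt (fun z => Y z i j) ((C s * Y s) i j) (s : ℂ))
    (hYn : ∀ᶠ n in atTop, ∀ s ∈ Set.Icc (0 : ℝ) 1, ∀ i j,
      HasDerivAt (fun z => Yn n z i j) ((Cn n s * Yn n s) i j) (s : ℂ))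
    (h0 : ∀ᶠ n in atTop, Yn n 0 = Y 0) (i j : ι) :
    Tendsto (fun n => Yn n 1 i j) atTop (𝓝 (Y 1 i j)) := by
  have e : ∀ M : Matrix ι ι ℂ, ∑ p, ∑ q, M p q • Matrix.single p q (1 : ℂ) = M := by
    intro M
    conv_rhs => rw [Matrix.matrix_eq_sum_single M]
    refine Finset.sum_congr rfl fun i _ => Finset.sum_congr rfl fun j _ => ?_
    rw [Matrix.smul_single, smul_eq_mul, mul_one]
  have hCc' : ContinuousOn C (Set.Icc (0 : ℝ) 1) := by
    have h1 : ContinuousOn (fun s => ∑ p, ∑ q, C s p q • Matrix.single p q (1 : ℂ))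
        (Set.Icc (0 : ℝ) 1) :=
      continuousOn_finsetSum _ fun p _ => continuousOn_finsetSum _ fun q _ =>
        (hCc p q).smul continuousOn_const
    simp only [e] at h1
    exact h1
  obtain ⟨K, hK⟩ := isCompact_Icc.exists_bound_of_continuousOn hCc'
  have hC' : Tendsto (fun x : ℕ × ℝ => Cn x.1 x.2 - C x.2)
      (atTop ×ˢ 𝓟 (Set.Icc (0 : ℝ) 1)) (𝓝 0) := by
    have h1 : Tendsto (fun x : ℕ × ℝ => ∑ p, ∑ q, (Cn x.1 x.2 p q - C x.2 p q) •
        Matrix.single p q (1 : ℂ)) (atTop ×ˢ 𝓟 (Set.Icc (0 : ℝ) 1))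
        (𝓝 (∑ p : ι, ∑ q : ι, (0 : ℂ) • Matrix.single p q (1 : ℂ))) :=
      tendsto_finsetSum _ fun p _ => tendsto_finsetSum _ fun q _ => (hC p q).smul_const _
    simp only [zero_smul, Finset.sum_const_zero] at h1
    refine h1.congr fun x => ?_
    exact e (Cn x.1 x.2 - C x.2)
  have hre : ∀ {Z : ℂ → Matrix ι ι ℂ} {Z' : Matrix ι ι ℂ} {s : ℝ},
      (∀ i j, HasDerivAt (fun z => Z z i j) (Z' i j) (s : ℂ)) →
      HasDerivAt (fun t : ℝ => Z (t : ℂ)) Z' s := by
    intro Z Z' s hZ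
    have h1 := FrameBX.hasDerivAt_mat hZ
    have h2 := h1.scomp s (Complex.ofRealCLM.hasDerivAt (x := s))
    have h3 : (Complex.ofRealCLM 1 : ℂ) • Z' = Z' := by
      show ((1 : ℝ) : ℂ) • Z' = Z'
      rw [Complex.ofReal_one, one_smul]
    rw [h3] at h2
    exact h2
  have key := ode_lim (A := Matrix ι ι ℂ) C Cn (fun s => Y s) (fun n s => Yn n s) K hK hC'
    (fun s hs => hre (hY s hs)) (by
      filter_upwards [hYn] with n hn s hs
      exact hre (hn s hs)) (by
      filter_upwards [h0] with n hn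
      simp only [Complex.ofReal_zero]
      exact hn)
  simp only [Complex.ofReal_one] at key
  rw [tendsto_iff_norm_sub_tendsto_zero] at key ⊢
  refine squeeze_zero (fun _ => norm_nonneg _) (fun n => ?_) key
  have h1 := FrameBX.norm_entry_le (Yn n 1 - Y 1) i j
  rw [Matrix.sub_apply] at h1
  exact h1

end mat

section shrink

variable {r : ℕ} {N' N : SG r} [Fintype N'] [Fintype N] {p : Fin r → ℂ}

/-- A sequence of positive numbers tending to zero. -/
def un (n : ℕ) : ℝ := 1 / ((n : ℝ) + 1)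

lemma un_pos (n : ℕ) : 0 < un n := Nat.one_div_pos_of_nat

lemma un_lim : Tendsto un atTop (𝓝 0) := tendsto_one_div_add_atTop_nhds_zero_nat

/-- The shrinking maps. -/
def Rn (h : IsPar N' N p) (n : ℕ) : C(VReg N', VReg N) :=
  LocX.scC h ⟨fun y => min (un n) (LocX.eta h y), continuous_const.min (LocX.continuous_eta h)⟩
    (ContinuousMap.id _) (fun y => lt_min (un_pos n) (LocX.eta_pos h y))
    (fun y => (mul_le_mul_of_nonneg_right (min_le_right _ _) (LocX.nrm_nonneg _ _)).trans_lt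
      (LocX.eta_lt h y))

lemma Rn_val (h : IsPar N' N p) (n : ℕ) (y : VReg N') (hy : un n ≤ LocX.eta h y) :
    (Rn h n y).1 = p + (un n : ℂ) • (y.1 - p) := by
  show p + ((min (un n) (LocX.eta h y) : ℝ) : ℂ) • (y.1 - p) = _
  rw [min_eq_left hy]

variable {ι : Type} [Fintype ι] [DecidableEq ι]

/-- The limit, for short paths. -/
theorem loc_lim (h : IsPar N' N p) (hN : ∃ s ∈ N, IsRefl s) (hN' : ∃ s ∈ N', IsRefl s)
    (ρ : N →* Matrix ι ι ℂ) (k : Idx N → ℂ) (y₀ : VReg N') : ∃ δ : ℝ, 0 < δ ∧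
      ∀ τ : C(I, VReg N'), (∀ t, (τ t).1 ∈ Metric.ball y₀.1 δ) → ∀ i j,
        Tendsto (fun n => PP hN ρ k ((Rn h n).comp τ) i j) atTop
          (𝓝 (PP hN' (ρ.comp (LocX.inc h)) (fun i => k (incI h i)) τ i j)) := by
  obtain ⟨δ₁, -, hδ₁, hreg₁, -⟩ := exists_frame hN' (ρ.comp (LocX.inc h)) y₀
  set c : ℝ := LocX.nrm N' (y₀.1 - p) + 1 with hc
  have hc0 : 0 < c := add_pos_of_nonneg_of_pos (LocX.nrm_nonneg _ _) one_pos
  have hnrm : ∀ᶠ y in 𝓝 y₀.1, LocX.nrm N' (y - p) < c := by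
    have h1 : ContinuousAt (fun y => LocX.nrm N' (y - p)) y₀.1 :=
      ((LocX.continuous_nrm N').comp (continuous_id.sub continuous_const)).continuousAt
    exact h1.eventually_lt continuousAt_const (by rw [hc]; linarith)
  obtain ⟨δ₂, hδ₂, hball₂⟩ := Metric.eventually_nhds_iff_ball.1 hnrm
  refine ⟨min δ₁ δ₂, lt_min hδ₁ hδ₂, fun τ hτ i j => ?_⟩
  set B : Set (Fin r → ℂ) := Metric.ball y₀.1 (min δ₁ δ₂) with hB
  have hBc : Convex ℝ B := convex_ball _ _
  have hreg : ∀ y ∈ B, ∀ g ∈ N', IsRefl g → g.1 *ᵥ y ≠ y := fun y hy =>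
    hreg₁ y (Metric.ball_subset_ball (min_le_left _ _) hy)
  have hnr : ∀ y ∈ B, LocX.nrm N' (y - p) < c := fun y hy =>
    hball₂ y (Metric.ball_subset_ball (min_le_right _ _) hy)
  have hrad := LocX.rad_pos h
  set η₀ : ℝ := LocX.rad h / (LocX.rad h + c) with hη₀
  have hη0 : 0 < η₀ := div_pos hrad (by linarith)
  have heta : ∀ y : VReg N', y.1 ∈ B → η₀ ≤ LocX.eta h y := by
    intro y hy
    unfold LocX.eta
    have h1 := hnr _ hy
    have h2 := LocX.nrm_nonneg N' (y.1 - p)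
    rw [hη₀]
    exact div_le_div_of_nonneg_left hrad.le (by linarith) (by linarith)
  have hsm : ∀ᶠ n in atTop, un n ≤ η₀ :=
    (un_lim.eventually_lt_const hη0).mono fun n hn => hn.le
  -- the segment
  set a : Fin r → ℂ := (τ 0).1 with ha
  set w : Fin r → ℂ := (τ 1).1 - a with hw
  have hseg : ∀ t : I, a + ((t : ℝ) : ℂ) • w ∈ B := by
    intro t
    have h1 : a + ((t : ℝ) : ℂ) • w = (1 - (t : ℝ)) • a + (t : ℝ) • (τ 1).1 := by
      rw [hw, Complex.coe_smul, smul_sub, sub_smul, one_smul]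
      abel
    rw [h1]
    exact hBc (hτ 0) (hτ 1) (sub_nonneg.2 t.2.2) t.2.1 (by ring)
  let seg : C(I, VReg N') := ⟨fun t => ⟨a + ((t : ℝ) : ℂ) • w, hreg _ (hseg t)⟩, by
    refine Continuous.subtype_mk ?_ _
    exact continuous_const.add (Continuous.smul (f := fun t : I => ((t : ℝ) : ℂ))
      (g := fun _ => w) (by fun_prop) continuous_const)⟩
  have hseg0 : seg 0 = τ 0 := by
    apply Subtype.ext
    show a + (((0 : I) : ℝ) : ℂ) • w = (τ 0).1
    rw [Set.Icc.coe_zero, Complex.ofReal_zero, zero_smul, add_zero]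
  have hseg1 : seg 1 = τ 1 := by
    apply Subtype.ext
    show a + (((1 : I) : ℝ) : ℂ) • w = (τ 1).1
    rw [Set.Icc.coe_one, Complex.ofReal_one, one_smul, hw]
    abel
  have hhom : τ.HomotopicRel seg {0, 1} := by
    refine ⟨⟨⟨⟨fun x => ⟨(1 - (x.1 : ℝ)) • (τ x.2).1 + (x.1 : ℝ) • (seg x.2).1, hreg _
      (hBc (hτ x.2) (hseg x.2) (sub_nonneg.2 x.1.2.2) x.1.2.1 (by ring))⟩, ?_⟩, ?_, ?_⟩, ?_⟩⟩
    · refine Continuous.subtype_mk ?_ _
      have h1 : Continuous fun x : I × I => (τ x.2).1 :=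
        continuous_subtype_val.comp (τ.continuous.comp continuous_snd)
      have h2 : Continuous fun x : I × I => (seg x.2).1 :=
        continuous_subtype_val.comp (seg.continuous.comp continuous_snd)
      have h3 : Continuous fun x : I × I => (x.1 : ℝ) := continuous_subtype_val.comp continuous_fst
      exact ((continuous_const.sub h3).smul h1).add (h3.smul h2)
    · intro t
      apply Subtype.ext
      show (1 - ((0 : I) : ℝ)) • (τ t).1 + ((0 : I) : ℝ) • (seg t).1 = (τ t).1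
      rw [Set.Icc.coe_zero]
      simp
    · intro t
      apply Subtype.ext
      show (1 - ((1 : I) : ℝ)) • (τ t).1 + ((1 : I) : ℝ) • (seg t).1 = (seg t).1
      rw [Set.Icc.coe_one]
      simp
    · intro s t ht
      apply Subtype.ext
      show (1 - (s : ℝ)) • (τ t).1 + (s : ℝ) • (seg t).1 = (τ t).1
      have h1 : seg t = τ t := by
        rcases ht with rfl | ht
        · exact hseg0
        · rw [Set.mem_singleton_iff] at ht
          rw [ht]
          exact hseg1
      rw [h1, ← add_smul]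
      simp
  have hPP : PP hN' (ρ.comp (LocX.inc h)) (fun i => k (incI h i)) τ =
      PP hN' (ρ.comp (LocX.inc h)) (fun i => k (incI h i)) seg := PP_homotopic hN' _ _ _ _ hhom
  have hPPn : ∀ n, PP hN ρ k ((Rn h n).comp τ) = PP hN ρ k ((Rn h n).comp seg) := fun n =>
    PP_homotopic hN ρ k _ _ (hhom.comp_continuousMap (Rn h n))
  rw [hPP]
  simp only [hPPn]
  -- the domain
  set U : Set ℂ := {z | a + z • w ∈ B} with hU
  have hUo : IsOpen U := by
    refine Metric.isOpen_ball.preimage ?_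
    exact continuous_const.add (continuous_id.smul continuous_const)
  have hUc : Convex ℝ U := by
    intro x hx y hy s t hs ht hst
    show a + (s • x + t • y) • w ∈ B
    have h1 : a + (s • x + t • y) • w = s • (a + x • w) + t • (a + y • w) := by
      rw [smul_add, smul_add, add_smul, smul_assoc, smul_assoc]
      have h2 : a = s • a + t • a := by rw [← add_smul, hst, one_smul]
      calc a + (s • x • w + t • y • w) = (s • a + t • a) + (s • x • w + t • y • w) := by
            rw [← h2]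
        _ = _ := by abel
    rw [h1]
    exact hBc hx hy hs ht hst
  obtain ⟨Y, hY0, hYd, hYP⟩ := PP_line hN' (ρ.comp (LocX.inc h)) (fun i => k (incI h i)) a w U
    hUo hUc hseg (fun z hz => hreg _ hz) seg (fun _ => rfl)
  have hline : ∀ (n : ℕ) (z : ℂ), p + (un n : ℂ) • (a - p) + z • ((un n : ℂ) • w) =
      p + (un n : ℂ) • (a + z • w - p) := by
    intro n z
    rw [smul_comm z, add_assoc, ← smul_add]
    congr 2
    abel
  have hex : ∀ n, ∃ Yn : ℂ → Matrix ι ι ℂ, un n ≤ η₀ → Yn 0 = 1 ∧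
      (∀ z ∈ U, ∀ i j, HasDerivAt (fun z => Yn z i j)
        ((om ρ k (p + (un n : ℂ) • (a - p) + z • ((un n : ℂ) • w)) ((un n : ℂ) • w) * Yn z) i j)
        z) ∧ PP hN ρ k ((Rn h n).comp seg) = Yn 1 := by
    intro n
    by_cases hn : un n ≤ η₀
    · obtain ⟨Yn, h1, h2, h3⟩ := PP_line hN ρ k (p + (un n : ℂ) • (a - p)) ((un n : ℂ) • w) U
        hUo hUc hseg (by
          intro z hz
          rw [hline]
          have hz' : ∀ g ∈ N', IsRefl g → g.1 *ᵥ (a + z • w) ≠ a + z • w := hreg _ hz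
          refine LocX.sc_mem' h (un n) (a + z • w) hz' (un_pos n) ?_
          have h4 := heta ⟨a + z • w, hz'⟩ hz
          exact (mul_le_mul_of_nonneg_right (hn.trans h4) (LocX.nrm_nonneg _ _)).trans_lt
            (LocX.eta_lt h ⟨a + z • w, hz'⟩))
        ((Rn h n).comp seg) (by
          intro t
          rw [hline]
          exact Rn_val h n (seg t) (hn.trans (heta _ (hseg t))))
      exact ⟨Yn, fun _ => ⟨h1, h2, h3⟩⟩
    · exact ⟨fun _ => 1, fun h => absurd h hn⟩
  choose Yn hYn using hex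
  have hIcc : ∀ s ∈ Set.Icc (0 : ℝ) 1, (s : ℂ) ∈ U := fun s hs => hseg ⟨s, hs⟩
  have key := ode_lim_mat
    (fun s => om (ρ.comp (LocX.inc h)) (fun i => k (incI h i)) (a + (s : ℂ) • w) w)
    (fun n s => om ρ k (p + (un n : ℂ) • (a - p) + (s : ℂ) • ((un n : ℂ) • w))
      ((un n : ℂ) • w)) Y Yn ?_ ?_ ?_ ?_ ?_ i j
  · rw [hYP]
    refine key.congr' ?_
    filter_upwards [hsm] with n hn
    rw [(hYn n hn).2.2]
  · intro i j
    have h1 := om_diff (ρ.comp (LocX.inc h)) (fun i => k (incI h i)) a w w U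
      (fun z hz => hreg _ hz) i j
    exact h1.continuousOn.comp (Complex.continuous_ofReal.continuousOn) hIcc
  · intro i j
    refine (rem_lim (p := p) ρ k a w un un_lim i j).congr fun x => ?_
    rw [hline, om_split h ρ k (un x.1 : ℂ) (Complex.ofReal_ne_zero.2 (un_pos _).ne'),
      Matrix.add_apply, add_sub_cancel_left]
  · intro s hs i j
    exact hYd _ (hIcc s hs) i j
  · filter_upwards [hsm] with n hn s hs i j
    exact (hYn n hn).2.1 _ (hIcc s hs) i j
  · filter_upwards [hsm] with n hn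
    rw [(hYn n hn).1, hY0]

end shrink

end FTrX

end

end Pool.Agent.CMFn
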