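import Pool.Agent.CMFn.Kos
import Pool.Agent.CMFn.DunD
import Pool.Agent.CMFn.VDefs

/-! Project CMFn, module KX: the differential `h` on the complexes of homogeneous forms
(helper71). -/

namespace Pool.Agent.CMFn

open Matrix

noncomputable section

variable {r : ℕ} {N : SG r} [Fintype N]

/-- The directional derivative of vector valued polynomials. -/
def kxD (r : ℕ) (ι : Type) : (Fin r → ℂ) →ₗ[ℂ] Module.End ℂ (PolE r ι) :=
  ∑ a, (LinearMap.proj a : (Fin r → ℂ) →ₗ[ℂ] ℂ).smulRight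
    ({ toFun := fun f i => MvPolynomial.pderiv a (f i)
       map_add' := fun f g => by funext i; simp
       map_smul' := fun c f => by funext i; simp } : Module.End ℂ (PolE r ι))

lemma kxD_apply {ι : Type} (v : Fin r → ℂ) (f : PolE r ι) (i : ι) :
    kxD r ι v f i = ∑ a, v a • MvPolynomial.pderiv a (f i) := by
  simp [kxD, LinearMap.sum_apply, Finset.sum_apply]

lemma kxD_single {ι : Type} (j : Fin r) (f : PolE r ι) (i : ι) :
    kxD r ι (Pi.single j 1) f i = MvPolynomial.pderiv j (f i) := by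
  rw [kxD_apply, Finset.sum_eq_single j]
  · simp
  · intro b _ hb
    rw [Pi.single_eq_of_ne hb, zero_smul]
  · intro h
    exact absurd (Finset.mem_univ _) h

lemma kx_pd (v : Fin r → ℂ) (j : Fin r) (p : MvPolynomial (Fin r) ℂ) :
    ∑ a, v a • MvPolynomial.pderiv a (MvPolynomial.X j * p) -
      MvPolynomial.X j * ∑ a, v a • MvPolynomial.pderiv a p = v j • p := by
  rw [Finset.mul_sum, ← Finset.sum_sub_distrib, Finset.sum_eq_single j]
  · rw [Derivation.leibniz, MvPolynomial.pderiv_X_self, mul_smul_comm, ← smul_sub, smul_eq_mul,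
      smul_eq_mul, mul_one, add_sub_cancel_left]
  · intro a _ ha
    rw [Derivation.leibniz, MvPolynomial.pderiv_X_of_ne (Ne.symm ha), smul_zero, add_zero,
      mul_smul_comm, smul_eq_mul, sub_self]
  · intro h
    exact absurd (Finset.mem_univ _) h

lemma kxD_weyl {ι : Type} (v : Fin r → ℂ) (j : Fin r) :
    kxD r ι v * xAct ι j - xAct ι j * kxD r ι v = v j • 1 := by
  refine LinearMap.ext fun f => ?_
  funext i
  have h1 := kx_pd v j (f i)
  have h2 : kxD r ι v (xAct ι j f) i = ∑ a, v a • MvPolynomial.pderiv a (MvPolynomial.X j * f i) :=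
    kxD_apply v (xAct ι j f) i
  have h3 : kxD r ι v f i = ∑ a, v a • MvPolynomial.pderiv a (f i) := kxD_apply v f i
  rw [← h2, ← h3] at h1
  exact h1

lemma kxD_euler {ι : Type} (a : ℕ) (f : PolE r ι) (hf : f ∈ homE r ι a) :
    (∑ j, xAct ι j * kxD r ι (Pi.single j 1)) f = (a : ℂ) • f := by
  rw [LinearMap.sum_apply]
  funext i
  rw [Finset.sum_apply]
  have h1 : ∀ j, (xAct ι j * kxD r ι (Pi.single j 1)) f i =
      MvPolynomial.X j * MvPolynomial.pderiv j (f i) := by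
    intro j
    show MvPolynomial.X j * kxD r ι (Pi.single j 1) f i = _
    rw [kxD_single]
  rw [Finset.sum_congr rfl fun j _ => h1 j, MvPolynomial.IsHomogeneous.sum_X_mul_pderiv (hf i)]
  show a • f i = (a : ℂ) • f i
  rw [Nat.cast_smul_eq_nsmul]

lemma kxD_mem {ι : Type} (a : ℕ) (v : Fin r → ℂ) (f : PolE r ι) (hf : f ∈ homE r ι (a + 1)) :
    kxD r ι v f ∈ homE r ι a := by
  intro i
  rw [kxD_apply]
  refine MvPolynomial.IsHomogeneous.sum _ _ _ fun b _ => ?_
  have h1 : (MvPolynomial.pderiv b (f i)).IsHomogeneous a := by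
    have := MvPolynomial.IsHomogeneous.pderiv (i := b) (hf i)
    simpa using this
  have h2 := (MvPolynomial.isHomogeneous_C (Fin r) (v b)).mul h1
  simpa [MvPolynomial.smul_eq_C_mul] using h2

lemma kxD_zero {ι : Type} (v : Fin r → ℂ) (f : PolE r ι) (hf : f ∈ homE r ι 0) :
    kxD r ι v f = 0 := by
  funext i
  rw [kxD_apply]
  refine Finset.sum_eq_zero fun b _ => ?_
  have h1 : f i = MvPolynomial.C (MvPolynomial.coeff 0 (f i)) := by
    have := hf i
    exact MvPolynomial.totalDegree_eq_zero_iff_eq_C.1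
      (Nat.le_zero.1 this.totalDegree_le)
  rw [h1, MvPolynomial.pderiv_C, smul_zero]

lemma kx_x_mem {ι : Type} (a : ℕ) (j : Fin r) (f : PolE r ι) (hf : f ∈ homE r ι a) :
    xAct ι j f ∈ homE r ι (a + 1) := by
  intro i
  have h1 := (MvPolynomial.isHomogeneous_X ℂ j).mul (hf i)
  rw [add_comm 1 a] at h1
  exact h1

lemma kx_gAct_mem {ι : Type} [Fintype ι] [DecidableEq ι] (ρ : N →* Matrix ι ι ℂ) (g : N) (a : ℕ)
    (f : PolE r ι) (hf : f ∈ homE r ι a) : gAct ρ g f ∈ homE r ι a := by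
  intro i
  show (∑ j, MvPolynomial.C (ρ g i j) * MvPolynomial.bind₁
    (fun a => ∑ b, MvPolynomial.C ((g⁻¹).1.1 a b) * MvPolynomial.X b) (f j)).IsHomogeneous a
  refine MvPolynomial.IsHomogeneous.sum _ _ _ fun j _ => ?_
  have h1 : (MvPolynomial.bind₁
      (fun a => ∑ b, MvPolynomial.C ((g⁻¹).1.1 a b) * MvPolynomial.X b) (f j) :
      MvPolynomial (Fin r) ℂ).IsHomogeneous a := by
    have h2 := (hf j).aeval
      (fun a => (∑ b, MvPolynomial.C ((g⁻¹).1.1 a b) * MvPolynomial.X b : MvPolynomial (Fin r) ℂ))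
      (n := 1) (fun a => by
        refine MvPolynomial.IsHomogeneous.sum _ _ _ fun b _ => ?_
        have := (MvPolynomial.isHomogeneous_C (Fin r) ((g⁻¹).1.1 a b)).mul
          (MvPolynomial.isHomogeneous_X ℂ b)
        simpa using this)
    rw [one_mul] at h2
    exact h2
  have h3 := (MvPolynomial.isHomogeneous_C (Fin r) (ρ g i j)).mul h1
  simpa using h3

lemma kx_pK_mem {d d' : ℕ} (ρ : N →* Matrix (Fin d) (Fin d) ℂ)
    (σ : N →* Matrix (Fin d') (Fin d') ℂ) (i a : ℕ) (ω : KV r i (PolE r (Fin d')))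
    (hω : ∀ v, ω v ∈ homE r (Fin d') a) (v : Fin i → Fin r → ℂ) :
    pK (fun g => gAct σ g) ρ i ω v ∈ homE r (Fin d') a := by
  rw [pK_apply', kos_sum_apply]
  refine Submodule.sum_mem _ fun g _ => ?_
  rw [AlternatingMap.smul_apply, gK_apply]
  exact Submodule.smul_mem _ _ (kx_gAct_mem σ g a _ (hω _))

lemma kx_pK {d d' : ℕ} (ρ : N →* Matrix (Fin d) (Fin d) ℂ)
    (σ : N →* Matrix (Fin d') (Fin d') ℂ) (i : ℕ) (ω : KV r (i + 1) (PolE r (Fin d'))) :
    kh (fun j => xAct (Fin d') j) i (pK (fun g => gAct σ g) ρ (i + 1) ω) =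
      pK (fun g => gAct σ g) ρ i (kh (fun j => xAct (Fin d') j) i ω) := by
  rw [pK_apply', pK_apply', map_sum]
  refine Finset.sum_congr rfl fun g _ => ?_
  rw [map_smul]
  congr 1
  refine kh_gK (fun g => gAct σ g) (fun j => xAct (Fin d') j) ?_ i g ω
  intro g a
  refine LinearMap.ext fun f => ?_
  show gAct σ g (xAct (Fin d') a f) = (∑ j, (g⁻¹).1.1 a j • xAct (Fin d') j) (gAct σ g f)
  rw [gAct_x, LinearMap.sum_apply]
  rfl

section
variable {d d' : ℕ} (ρ : N →* Matrix (Fin d) (Fin d) ℂ)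
  (σ : N →* Matrix (Fin d') (Fin d') ℂ)

theorem kx_mem (i a : ℕ) (ω : KV r (i + 1) (PolE r (Fin d')))
    (h : ω ∈ Kia ρ σ (i + 1) a) : kh (fun j => xAct (Fin d') j) i ω ∈ Kia ρ σ i (a + 1) := by
  refine ⟨fun v => ?_, ?_⟩
  · rw [kh_apply]
    exact Submodule.sum_mem _ fun j _ => kx_x_mem a j _ (h.1 _)
  · rw [← kx_pK, h.2]

/-- Exactness of `h` (Euler homotopy: kh_kd_weyl with `A v = ∂_v`, `B_j = x_j`). -/
theorem kx_exact (hd : 0 < d) (hρ : Submodule.span ℂ (Set.range ρ) = ⊤) (i a : ℕ)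
    (ω : KV r (i + 1) (PolE r (Fin d'))) (h : ω ∈ Kia ρ σ (i + 1) (a + 1))
    (h0 : kh (fun j => xAct (Fin d') j) i ω = 0) :
    ∃ η ∈ Kia ρ σ (i + 2) a, kh (fun j => xAct (Fin d') j) (i + 1) η = ω := by
  have h1 := kh_kd_weyl (kxD r (Fin d')) (fun j => xAct (Fin d') j)
    (fun v j => kxD_weyl v j) i ω
  rw [h0, map_zero, add_zero] at h1
  have h2 : kmap (∑ j, xAct (Fin d') j * kxD r (Fin d') (Pi.single j 1)) (i + 1) ω =
      ((a + 1 : ℕ) : ℂ) • ω := by
    apply AlternatingMap.ext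
    intro v
    rw [kmap_apply, AlternatingMap.smul_apply]
    exact kxD_euler (a + 1) (ω v) (h.1 v)
  rw [h2, ← add_smul] at h1
  set q : ℂ := ((a + 1 : ℕ) : ℂ) + ((i : ℂ) + 1) with hq
  have hq0 : q ≠ 0 := by
    have : q = ((a + 1 + (i + 1) : ℕ) : ℂ) := by rw [hq]; push_cast; ring
    rw [this, Nat.cast_ne_zero]
    omega
  refine ⟨pK (fun g => gAct σ g) ρ (i + 2) (q⁻¹ • kd (kxD r (Fin d')) (i + 1) ω), ⟨?_, ?_⟩, ?_⟩
  · refine kx_pK_mem ρ σ (i + 2) a _ fun v => ?_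
    rw [AlternatingMap.smul_apply, kd_apply]
    refine Submodule.smul_mem _ _ (Submodule.sum_mem _ fun p _ => ?_)
    exact zsmul_mem (kxD_mem a _ _ (h.1 _)) _
  · exact pK_pK _ (fun g h => gAct_mul σ g h) (gAct_one σ) hd ρ hρ _ _
  · rw [kx_pK, map_smul, h1, smul_smul, inv_mul_cancel₀ hq0, one_smul, h.2]

theorem kx_exact0 (i : ℕ) (ω : KV r (i + 1) (PolE r (Fin d'))) (h : ω ∈ Kia ρ σ (i + 1) 0)
    (h0 : kh (fun j => xAct (Fin d') j) i ω = 0) : ω = 0 := by
  have h1 := kh_kd_weyl (kxD r (Fin d')) (fun j => xAct (Fin d') j)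
    (fun v j => kxD_weyl v j) i ω
  have h2 : kmap (∑ j, xAct (Fin d') j * kxD r (Fin d') (Pi.single j 1)) (i + 1) ω = 0 := by
    apply AlternatingMap.ext
    intro v
    rw [kmap_apply]
    rw [kxD_euler 0 (ω v) (h.1 v), Nat.cast_zero, zero_smul]
    rfl
  have h3 : kd (kxD r (Fin d')) (i + 1) ω = 0 := by
    apply AlternatingMap.ext
    intro v
    rw [kd_apply]
    refine Finset.sum_eq_zero fun p _ => ?_
    rw [kxD_zero _ _ (h.1 _), smul_zero]
  rw [h0, map_zero, add_zero, h2, h3, map_zero, zero_add] at h1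
  rcases smul_eq_zero.1 h1.symm with h4 | h4
  · exfalso
    have : ((i + 1 : ℕ) : ℂ) = 0 := by push_cast; exact h4
    rw [Nat.cast_eq_zero] at this
    omega
  · exact h4

theorem kx_surj (hd : 0 < d) (hρ : Submodule.span ℂ (Set.range ρ) = ⊤) (a : ℕ)
    (ω : KV r 0 (PolE r (Fin d'))) (h : ω ∈ Kia ρ σ 0 (a + 1)) :
    ∃ η ∈ Kia ρ σ 1 a, kh (fun j => xAct (Fin d') j) 0 η = ω := by
  have h1 : kh (fun j => xAct (Fin d') j) 0 (kd (kxD r (Fin d')) 0 ω) =
      ((a + 1 : ℕ) : ℂ) • ω := by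
    apply AlternatingMap.ext
    intro v
    rw [kh_kd_zero, AlternatingMap.smul_apply, ← kxD_euler (a + 1) (ω v) (h.1 v),
      LinearMap.sum_apply]
    rfl
  have hq0 : ((a + 1 : ℕ) : ℂ) ≠ 0 := by
    rw [Nat.cast_ne_zero]
    omega
  refine ⟨pK (fun g => gAct σ g) ρ 1 ((((a + 1 : ℕ) : ℂ))⁻¹ • kd (kxD r (Fin d')) 0 ω),
    ⟨?_, ?_⟩, ?_⟩
  · refine kx_pK_mem ρ σ 1 a _ fun v => ?_
    rw [AlternatingMap.smul_apply, kd_apply]
    refine Submodule.smul_mem _ _ (Submodule.sum_mem _ fun p _ => ?_)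
    exact zsmul_mem (kxD_mem a _ _ (h.1 _)) _
  · exact pK_pK _ (fun g h => gAct_mul σ g h) (gAct_one σ) hd ρ hρ _ _
  · rw [kx_pK, map_smul, h1, smul_smul, inv_mul_cancel₀ hq0, one_smul, h.2]

theorem Kia_zero (i a : ℕ) (hi : r < i) (ω : KV r i (PolE r (Fin d'))) : ω = 0 := by
  apply AlternatingMap.ext
  intro v
  refine ω.map_linearDependent v ?_
  intro hv
  have h1 := hv.fintype_card_le_finrank
  rw [Fintype.card_fin, Module.finrank_fintype_fun_eq_card, Fintype.card_fin] at h1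
  omega

end

end

end Pool.Agent.CMFn
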