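import Mathlib

/-! Project CMFn: combinatorial super trace identity `∑_i (-1)^i i h_{m-i} e_i = - p_m` and
diagonalisation of endomorphisms of finite order. -/

namespace Pool.Agent.CMFn.TrX

open Finset

variable {K : Type*} [CommRing K]

/-- `∑_{S ⊆ T} (-1)^{|S|} |S| = -1` if `|T| = 1`, else `0`. -/
theorem sum_powerset_card {α : Type*} (T : Finset α) :
    ∑ S ∈ T.powerset, (-1 : K) ^ S.card * (S.card : K) = if T.card = 1 then -1 else 0 := by
  rw [Finset.sum_powerset_apply_card (fun n => (-1 : K) ^ n * (n : K))]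
  generalize T.card = n
  rcases n with _ | n
  · simp
  rw [Finset.sum_range_succ']
  simp only [Nat.choose_zero_right, Nat.cast_zero, mul_zero, nsmul_zero, add_zero]
  have h1 : ∀ k ∈ range (n + 1), (n + 1).choose (k + 1) • ((-1 : K) ^ (k + 1) * ((k + 1 : ℕ) : K)) =
      -(n + 1 : K) * ((-1) ^ k * (n.choose k : K)) := by
    intro k _
    have h2 : ((n + 1).choose (k + 1) : K) * ((k + 1 : ℕ) : K) = ((n + 1 : ℕ) : K) * (n.choose k : K) := by
      rw [← Nat.cast_mul, ← Nat.cast_mul]
      congr 1
      rw [← Nat.add_one_mul_choose_eq]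
    rw [nsmul_eq_mul, mul_left_comm, h2]
    push_cast
    ring
  rw [Finset.sum_congr rfl h1, ← Finset.mul_sum]
  have h3 : ∑ k ∈ range (n + 1), (-1 : K) ^ k * (n.choose k : K) = if n = 0 then 1 else 0 := by
    have := congrArg (Int.cast : ℤ → K) (Int.alternating_sum_range_choose (n := n))
    push_cast at this
    rw [this]
    try split_ifs <;> simp
  rw [h3]
  rcases n with _ | n
  · simp
  · simp

variable {ι : Type*} [Fintype ι] [DecidableEq ι]

/-- complete homogeneous sums -/
def hs (lam : ι → K) (n : ℕ) : K :=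
  ∑ a ∈ finsuppAntidiag (univ : Finset ι) n, ∏ k, lam k ^ a k

/-- elementary sums -/
def es (lam : ι → K) (n : ℕ) : K :=
  ∑ S ∈ powersetCard n (univ : Finset ι), ∏ k ∈ S, lam k

/-- the indicator function of `S` -/
noncomputable def ind (S : Finset ι) : ι →₀ ℕ := Finsupp.onFinset S (fun k => if k ∈ S then 1 else 0)
  (fun k hk => by by_contra h; simp [h] at hk)

theorem ind_apply (S : Finset ι) (k : ι) : ind S k = if k ∈ S then 1 else 0 := rfl

theorem superTrace (lam : ι → K) (m : ℕ) (hm : 1 ≤ m) :
    ∑ i ∈ range (m + 1), (-1 : K) ^ i * (i : K) * (hs lam (m - i) * es lam i) =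
      - ∑ k, lam k ^ m := by
  -- left side as a sum over pairs
  have h1 : ∑ i ∈ range (m + 1), (-1 : K) ^ i * (i : K) * (hs lam (m - i) * es lam i) =
      ∑ p ∈ ((range (m + 1)).sigma fun i =>
        finsuppAntidiag (univ : Finset ι) (m - i) ×ˢ powersetCard i (univ : Finset ι)),
        (-1 : K) ^ p.2.2.card * (p.2.2.card : K) * ∏ k, lam k ^ (p.2.1 k + ind p.2.2 k) := by
    rw [Finset.sum_sigma]
    refine Finset.sum_congr rfl fun i _ => ?_
    rw [Finset.sum_product, hs, es, Finset.sum_mul_sum, Finset.mul_sum]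
    refine Finset.sum_congr rfl fun a _ => ?_
    rw [Finset.mul_sum]
    refine Finset.sum_congr rfl fun S hS => ?_
    rw [Finset.mem_powersetCard] at hS
    simp only [hS.2]
    congr 1
    simp only [pow_add, Finset.prod_mul_distrib, ind_apply]
    congr 1
    rw [Finset.prod_congr rfl fun k _ => (pow_ite (k ∈ S) (lam k) 1 0)]
    simp
  have h2 : ∑ p ∈ ((range (m + 1)).sigma fun i =>
        finsuppAntidiag (univ : Finset ι) (m - i) ×ˢ powersetCard i (univ : Finset ι)),
        (-1 : K) ^ p.2.2.card * (p.2.2.card : K) * ∏ k, lam k ^ (p.2.1 k + ind p.2.2 k) =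
      ∑ q ∈ ((finsuppAntidiag (univ : Finset ι) m).sigma fun b => b.support.powerset),
        (-1 : K) ^ q.2.card * (q.2.card : K) * ∏ k, lam k ^ (q.1 k) := by
    refine Finset.sum_bij' (fun p _ => ⟨p.2.1 + ind p.2.2, p.2.2⟩)
      (fun q _ => ⟨q.2.card, q.1 - ind q.2, q.2⟩) ?_ ?_ ?_ ?_ ?_
    · rintro ⟨i, a, S⟩ hp
      simp only [Finset.mem_sigma, Finset.mem_product, mem_range, mem_finsuppAntidiag,
        mem_powersetCard, Finset.subset_univ, true_and, and_true, Finset.mem_powerset] at hp ⊢
      obtain ⟨hi, ha, hS⟩ := hp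
      refine ⟨?_, ?_⟩
      · have h4 : ∀ k, (a + ind S) k = a k + (if k ∈ S then 1 else 0) := fun k => rfl
        show ∑ k, (a + ind S) k = m
        rw [Finset.sum_congr rfl fun k _ => h4 k, Finset.sum_add_distrib, Finset.sum_ite_mem,
          Finset.univ_inter, Finset.sum_const, hS, smul_eq_mul, mul_one]
        have ha' : ∑ k, a k = m - i := ha
        omega
      · intro k hk
        rw [Finsupp.mem_support_iff, Finsupp.add_apply, ind_apply, if_pos hk]
        omega
    · rintro ⟨b, S⟩ hp
      simp only [Finset.mem_sigma, Finset.mem_product, mem_range, mem_finsuppAntidiag,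
        mem_powersetCard, Finset.subset_univ, true_and, and_true, Finset.mem_powerset] at hp ⊢
      obtain ⟨hb, hS⟩ := hp
      have hc : ∑ k, (b - ind S) k + S.card = m := by
        have h3 : S.card = ∑ k, ind S k := by
          simp only [ind_apply]
          rw [Finset.sum_ite_mem, Finset.univ_inter, Finset.sum_const, smul_eq_mul, mul_one]
        rw [h3, ← Finset.sum_add_distrib]
        conv_rhs => rw [← hb]
        refine Finset.sum_congr rfl fun k _ => ?_
        rw [Finsupp.tsub_apply, ind_apply]
        by_cases hk : k ∈ S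
        · have := Finsupp.mem_support_iff.1 (hS hk)
          rw [if_pos hk]; omega
        · rw [if_neg hk]; omega
      have hc' : ∑ k, (b - ind S) k = m - S.card := by omega
      refine ⟨by omega, hc'⟩
    · rintro ⟨i, a, S⟩ hp
      simp only [Finset.mem_sigma, Finset.mem_product, mem_range, mem_finsuppAntidiag,
        mem_powersetCard, Finset.subset_univ, true_and, and_true] at hp
      obtain ⟨hi, ha, hS⟩ := hp
      subst hS
      simp
    · rintro ⟨b, S⟩ hp
      simp only [Finset.mem_sigma, Finset.mem_powerset] at hp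
      simp only [Sigma.mk.injEq, heq_eq_eq, and_true]
      ext k
      rw [Finsupp.add_apply, Finsupp.tsub_apply, ind_apply]
      by_cases hk : k ∈ S
      · have := Finsupp.mem_support_iff.1 (hp.2 hk)
        rw [if_pos hk]; omega
      · rw [if_neg hk]; omega
    · rintro ⟨i, a, S⟩ _
      simp
  rw [h1, h2, Finset.sum_sigma]
  have h3 : ∀ b ∈ finsuppAntidiag (univ : Finset ι) m,
      ∑ S ∈ b.support.powerset, (-1 : K) ^ S.card * (S.card : K) * ∏ k, lam k ^ (b k) =
      if b.support.card = 1 then - ∏ k, lam k ^ (b k) else 0 := by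
    intro b _
    rw [← Finset.sum_mul, sum_powerset_card]
    split_ifs <;> simp
  rw [Finset.sum_congr rfl h3, ← Finset.sum_filter, ← Finset.sum_neg_distrib]
  symm
  refine Finset.sum_bij (fun k _ => Finsupp.single k m) ?_ ?_ ?_ ?_
  · intro k _
    simp only [mem_filter, mem_finsuppAntidiag, Finset.subset_univ, and_true]
    refine ⟨?_, ?_⟩
    · rw [Finset.sum_eq_single k]
      · simp
      · intro j _ hj
        rw [Finsupp.single_apply, if_neg (Ne.symm hj)]
      · simp
    · rw [Finsupp.support_single_ne_zero _ (by omega)]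
      simp
  · intro k _ j _ h
    have := (Finsupp.single_left_inj (by omega : m ≠ 0)).1 h
    exact this
  · intro b hb
    simp only [mem_filter, mem_finsuppAntidiag, Finset.subset_univ, and_true] at hb
    obtain ⟨hb1, hb2⟩ := hb
    obtain ⟨k, n, hn, rfl⟩ := Finsupp.card_support_eq_one'.1 hb2
    refine ⟨k, mem_univ _, ?_⟩
    have : m = n := by
      rw [← hb1, Finset.sum_eq_single k]
      · simp
      · intro j _ hj
        rw [Finsupp.single_apply, if_neg (Ne.symm hj)]
      · simp
    rw [this]
  · intro k _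
    congr 1
    rw [Finset.prod_eq_single k]
    · simp
    · intro j _ hj
      rw [Finsupp.single_apply, if_neg (Ne.symm hj), pow_zero]
    · simp




theorem exists_eigenbasis {r : ℕ} (f : Module.End ℂ (Fin r → ℂ)) {n : ℕ} (hn : 0 < n)
    (hf : f ^ n = 1) : ∃ (b : Module.Basis (Fin r) ℂ (Fin r → ℂ)) (lam : Fin r → ℂ),
      ∀ k, f (b k) = lam k • b k := by
  classical
  have h1 : f.IsSemisimple := by
    have hsep : (Polynomial.X ^ n - 1 : Polynomial ℂ).Separable :=
      Polynomial.X_pow_sub_one_separable_iff.2 (by exact_mod_cast hn.ne')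
    refine Module.End.isSemisimple_of_squarefree_aeval_eq_zero hsep.squarefree ?_
    simp [hf]
  have h2 := h1.iSup_eigenspace_eq_top
  have h3 : DirectSum.IsInternal fun μ : ℂ => f.eigenspace μ :=
    DirectSum.isInternal_submodule_of_iSupIndep_of_iSup_eq_top f.eigenspaces_iSupIndep h2
  let b0 := h3.collectedBasis fun μ => Module.finBasis ℂ (f.eigenspace μ)
  let e : (Σ μ : ℂ, Fin (Module.finrank ℂ (f.eigenspace μ))) ≃ Fin r :=
    b0.indexEquiv (Pi.basisFun ℂ (Fin r))
  refine ⟨b0.reindex e, fun k => (e.symm k).1, fun k => ?_⟩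
  rw [Module.Basis.reindex_apply]
  have h4 := h3.collectedBasis_mem (fun μ => Module.finBasis ℂ (f.eigenspace μ)) (e.symm k)
  exact Module.End.mem_eigenspace_iff.1 h4


end Pool.Agent.CMFn.TrX
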