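import Pool.Agent.CMFn.NDefs
import Pool.Agent.CMFn.TrX

/-! Project CMFn, module TrB: trace of a group element on forms with homogeneous values. -/

namespace Pool.Agent.CMFn

open Matrix Finset

noncomputable section

variable {r : ℕ}

/-- Linear substitution `f ↦ f ∘ A`. -/
def sub (A : Matrix (Fin r) (Fin r) ℂ) : MvPolynomial (Fin r) ℂ →ₐ[ℂ] MvPolynomial (Fin r) ℂ :=
  MvPolynomial.bind₁ (fun a => ∑ b, MvPolynomial.C (A a b) * MvPolynomial.X b)

theorem sub_X (A : Matrix (Fin r) (Fin r) ℂ) (a : Fin r) :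
    sub A (MvPolynomial.X a) = ∑ b, MvPolynomial.C (A a b) * MvPolynomial.X b := by
  simp [sub]

theorem sub_C (A : Matrix (Fin r) (Fin r) ℂ) (c : ℂ) :
    sub A (MvPolynomial.C c) = MvPolynomial.C c := by
  simp [sub]

theorem sub_comp (A B : Matrix (Fin r) (Fin r) ℂ) (f : MvPolynomial (Fin r) ℂ) :
    sub A (sub B f) = sub (B * A) f := by
  have h : (sub A).comp (sub B) = sub (B * A) := by
    refine MvPolynomial.algHom_ext fun a => ?_
    simp only [AlgHom.comp_apply, sub_X, map_sum, map_mul, sub_C, Finset.mul_sum, Matrix.mul_apply,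
      Finset.sum_mul]
    rw [Finset.sum_comm]
    refine Finset.sum_congr rfl fun b _ => Finset.sum_congr rfl fun c _ => ?_
    ring
  exact congrArg (fun φ : MvPolynomial (Fin r) ℂ →ₐ[ℂ] MvPolynomial (Fin r) ℂ => φ f) h

theorem sub_one (f : MvPolynomial (Fin r) ℂ) : sub (1 : Matrix (Fin r) (Fin r) ℂ) f = f := by
  have h : sub (1 : Matrix (Fin r) (Fin r) ℂ) = AlgHom.id ℂ _ := by
    refine MvPolynomial.algHom_ext fun a => ?_
    simp [sub_X, Matrix.one_apply]
  rw [h]; rfl

theorem sub_hom (A : Matrix (Fin r) (Fin r) ℂ) (f : MvPolynomial (Fin r) ℂ) (n : ℕ)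
    (hf : f.IsHomogeneous n) : (sub A f).IsHomogeneous n := by
  have h := hf.aeval (g := fun a => ∑ b, MvPolynomial.C (A a b) * MvPolynomial.X b) (n := 1)
    (fun a => MvPolynomial.IsHomogeneous.sum _ _ _ fun b _ => by
      simpa using (MvPolynomial.isHomogeneous_C (Fin r) (A a b)).mul
        (MvPolynomial.isHomogeneous_X ℂ b))
  rw [one_mul] at h
  exact h

/-- Diagonal substitutions. -/
theorem coeff_sub_diagonal (lam : Fin r → ℂ) (f : MvPolynomial (Fin r) ℂ) (m : Fin r →₀ ℕ) :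
    (sub (Matrix.diagonal lam) f).coeff m = (∏ k, lam k ^ m k) * f.coeff m := by
  classical
  have h1 : ∀ (m' : Fin r →₀ ℕ) (c : ℂ), sub (Matrix.diagonal lam) (MvPolynomial.monomial m' c) =
      MvPolynomial.monomial m' ((∏ k, lam k ^ m' k) * c) := by
    intro m' c
    rw [sub, MvPolynomial.bind₁_monomial]
    have h2 : ∀ a, ∑ b, MvPolynomial.C (Matrix.diagonal lam a b) * MvPolynomial.X b =
        (MvPolynomial.C (lam a) * MvPolynomial.X a : MvPolynomial (Fin r) ℂ) := by
      intro a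
      rw [Finset.sum_eq_single a]
      · simp
      · intro b _ hb
        rw [Matrix.diagonal_apply_ne _ hb.symm]; simp
      · simp
    simp only [h2]
    have h3 : ∏ x ∈ m'.support, (MvPolynomial.C (lam x) * MvPolynomial.X x : MvPolynomial (Fin r) ℂ) ^ m' x =
        ∏ x, (MvPolynomial.C (lam x) * MvPolynomial.X x) ^ m' x :=
      Finset.prod_subset (Finset.subset_univ _) fun x _ hx => by
        rw [Finsupp.notMem_support_iff.1 hx, pow_zero]
    have h4 : ∏ x ∈ m'.support, (MvPolynomial.X x : MvPolynomial (Fin r) ℂ) ^ m' x =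
        ∏ x, MvPolynomial.X x ^ m' x :=
      Finset.prod_subset (Finset.subset_univ _) fun x _ hx => by
        rw [Finsupp.notMem_support_iff.1 hx, pow_zero]
    rw [MvPolynomial.monomial_eq, Finsupp.prod, h3, h4]
    simp only [mul_pow, Finset.prod_mul_distrib, map_mul, map_prod, map_pow]
    ring
  induction f using MvPolynomial.induction_on' with
  | monomial m' c =>
    rw [h1, MvPolynomial.coeff_monomial, MvPolynomial.coeff_monomial]
    split_ifs with h
    · rw [h]
    · simp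
  | add p q hp hq => rw [map_add, MvPolynomial.coeff_add, MvPolynomial.coeff_add, hp, hq]; ring

/-! ### Coordinates of forms -/

/-- Coordinates of a form in a basis. -/
def e1 {M : Type} [AddCommGroup M] [Module ℂ M] (b : Module.Basis (Fin r) ℂ (Fin r → ℂ)) (i : ℕ) :
    KV r i M ≃ₗ[ℂ] (Set.powersetCard (Fin r) i → M) :=
  exteriorPower.alternatingMapLinearEquiv.trans ((b.exteriorPower i).constr ℂ).symm

theorem e1_apply {M : Type} [AddCommGroup M] [Module ℂ M]
    (b : Module.Basis (Fin r) ℂ (Fin r → ℂ)) (i : ℕ) (ω : KV r i M)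
    (s : Set.powersetCard (Fin r) i) :
    e1 b i ω s = ω (fun j => b (Set.powersetCard.ofFinEmbEquiv.symm s j)) := by
  have h1 : e1 b i ω s = exteriorPower.alternatingMapLinearEquiv ω ((b.exteriorPower i) s) := rfl
  rw [h1, exteriorPower.basis_apply, exteriorPower.ιMulti_family,
    exteriorPower.alternatingMapLinearEquiv_apply_ιMulti]
  rfl

/-- Values of a form lie in a submodule if the coordinates do. -/
theorem mem_of_e1 {M : Type} [AddCommGroup M] [Module ℂ M]
    (b : Module.Basis (Fin r) ℂ (Fin r → ℂ)) (i : ℕ) (ω : KV r i M) (H : Submodule ℂ M)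
    (h : ∀ s, e1 b i ω s ∈ H) (v : Fin i → Fin r → ℂ) : ω v ∈ H := by
  have h1 : H.mkQ.compAlternatingMap ω = 0 := by
    apply (e1 b i).injective
    rw [map_zero]
    funext s
    rw [e1_apply]
    show H.mkQ (ω _) = 0
    rw [← e1_apply b i ω s]
    exact (Submodule.Quotient.mk_eq_zero H).2 (h s)
  have h2 := congrArg (fun φ : KV r i (M ⧸ H) => φ v) h1
  exact (Submodule.Quotient.mk_eq_zero H).1 h2

/-- Forms of degree `i` with homogeneous values of degree `a`. -/
def Wia (r d' i a : ℕ) : Submodule ℂ (KV r i (PolE r (Fin d'))) where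
  carrier := {ω | ∀ v, ω v ∈ homE r (Fin d') a}
  add_mem' h h' v := (homE r (Fin d') a).add_mem (h v) (h' v)
  zero_mem' _ := (homE r (Fin d') a).zero_mem
  smul_mem' c _ h v := (homE r (Fin d') a).smul_mem c (h v)

/-- Exponents of degree `a`. -/
abbrev Mon (r a : ℕ) : Type := {m : Fin r →₀ ℕ // m ∈ finsuppAntidiag (univ : Finset (Fin r)) a}

/-- The index set. -/
abbrev Ix (r d' i a : ℕ) : Type := Set.powersetCard (Fin r) i × Fin d' × Mon r a

theorem mon_iff (r a : ℕ) (m : Fin r →₀ ℕ) :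
    m ∈ finsuppAntidiag (univ : Finset (Fin r)) a ↔ m.degree = a := by
  rw [mem_finsuppAntidiag, Finsupp.degree_eq_sum]
  simp

variable {d' : ℕ}

/-- The coordinates. -/
def psiL (b : Module.Basis (Fin r) ℂ (Fin r → ℂ)) (P : Matrix (Fin r) (Fin r) ℂ) (d' i a : ℕ) :
    Wia r d' i a →ₗ[ℂ] (Ix r d' i a → ℂ) where
  toFun ω := fun q => (sub P (e1 b i ω.1 q.1 q.2.1)).coeff q.2.2.1
  map_add' ω ω' := by
    funext q
    show (sub P (e1 b i (ω.1 + ω'.1) q.1 q.2.1)).coeff q.2.2.1 = _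
    rw [map_add, Pi.add_apply, Pi.add_apply, map_add, MvPolynomial.coeff_add]
    rfl
  map_smul' c ω := by
    funext q
    show (sub P (e1 b i (c • ω.1) q.1 q.2.1)).coeff q.2.2.1 = _
    rw [map_smul, Pi.smul_apply, Pi.smul_apply, map_smul, MvPolynomial.coeff_smul]
    rfl

theorem psiL_inj (b : Module.Basis (Fin r) ℂ (Fin r → ℂ)) (P Q : Matrix (Fin r) (Fin r) ℂ)
    (hPQ : P * Q = 1) (d' i a : ℕ) : Function.Injective (psiL b P d' i a) := by
  rw [injective_iff_map_eq_zero]
  intro ω hω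
  apply Subtype.ext
  apply (e1 b i).injective
  show e1 b i ω.1 = e1 b i 0
  rw [map_zero]
  funext s p
  have h1 : sub P (e1 b i ω.1 s p) = 0 := by
    have hh : (sub P (e1 b i ω.1 s p)).IsHomogeneous a := by
      apply sub_hom
      rw [e1_apply]
      exact ω.2 _ p
    ext m
    rw [MvPolynomial.coeff_zero]
    by_cases hm : m.degree = a
    · exact congrFun hω (s, p, ⟨m, (mon_iff r a m).2 hm⟩)
    · exact hh.coeff_eq_zero hm
  have h2 : sub Q (sub P (e1 b i ω.1 s p)) = e1 b i ω.1 s p := by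
    rw [sub_comp, hPQ, sub_one]
  rw [← h2, h1, map_zero]
  rfl

theorem psiL_surj (b : Module.Basis (Fin r) ℂ (Fin r → ℂ)) (P Q : Matrix (Fin r) (Fin r) ℂ)
    (hQP : Q * P = 1) (d' i a : ℕ) : Function.Surjective (psiL b P d' i a) := by
  intro c
  let f : Set.powersetCard (Fin r) i → PolE r (Fin d') := fun s p =>
    sub Q (∑ m : Mon r a, MvPolynomial.monomial m.1 (c (s, p, m)))
  have hf : ∀ s, f s ∈ homE r (Fin d') a := by
    intro s p
    apply sub_hom
    refine MvPolynomial.IsHomogeneous.sum _ _ _ fun m _ => ?_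
    exact MvPolynomial.isHomogeneous_monomial _ ((mon_iff r a m.1).1 m.2)
  refine ⟨⟨(e1 b i).symm f, fun v => mem_of_e1 b i _ _ (fun s => ?_) v⟩, ?_⟩
  · rw [LinearEquiv.apply_symm_apply]
    exact hf s
  · funext q
    obtain ⟨s, p, m⟩ := q
    show (sub P (e1 b i ((e1 b i).symm f) s p)).coeff m.1 = _
    rw [LinearEquiv.apply_symm_apply]
    show (sub P (sub Q _)).coeff m.1 = _
    rw [sub_comp, hQP, sub_one, MvPolynomial.coeff_sum, Finset.sum_eq_single m]
    · rw [MvPolynomial.coeff_monomial, if_pos rfl]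
    · intro m' _ hm
      rw [MvPolynomial.coeff_monomial, if_neg (fun h => hm (Subtype.ext h))]
    · simp

/-- The coordinates as an equivalence. -/
def psiE (b : Module.Basis (Fin r) ℂ (Fin r → ℂ)) (P Q : Matrix (Fin r) (Fin r) ℂ)
    (hPQ : P * Q = 1) (d' i a : ℕ) : Wia r d' i a ≃ₗ[ℂ] (Ix r d' i a → ℂ) :=
  LinearEquiv.ofBijective (psiL b P d' i a) ⟨psiL_inj b P Q hPQ d' i a,
    psiL_surj b P Q (mul_eq_one_comm.1 hPQ) d' i a⟩

theorem Wia_fd (d' i a : ℕ) : FiniteDimensional ℂ (Wia r d' i a) := by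
  have e := psiE (Pi.basisFun ℂ (Fin r)) (1 : Matrix (Fin r) (Fin r) ℂ) 1 (mul_one 1) d' i a
  exact Module.Finite.equiv e.symm

/-- The matrix of a diagonal group element. -/
def matT (S : Matrix (Fin d') (Fin d') ℂ) (lam : Fin r → ℂ) (i a : ℕ) :
    Matrix (Ix r d' i a) (Ix r d' i a) ℂ :=
  fun q q' => if q.1 = q'.1 ∧ q.2.2 = q'.2.2 then
    (∏ j, lam (Set.powersetCard.ofFinEmbEquiv.symm q.1 j)) * (∏ k, lam k ^ q.2.2.1 k) *
      S q.2.1 q'.2.1 else 0

/-- The operator `ω ↦ S · (ω ∘ γ) ∘ γ` in coordinates. -/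
theorem psi_comm (b : Module.Basis (Fin r) ℂ (Fin r → ℂ)) (P γ : Matrix (Fin r) (Fin r) ℂ)
    (lam : Fin r → ℂ) (hγ : ∀ k, γ *ᵥ b k = lam k • b k) (hP : γ * P = P * Matrix.diagonal lam)
    (S : Matrix (Fin d') (Fin d') ℂ) (i a : ℕ) (ω ω' : Wia r d' i a)
    (h : ∀ v p, ω'.1 v p = ∑ q, MvPolynomial.C (S p q) * sub γ (ω.1 (fun j => γ *ᵥ v j) q)) :
    psiL b P d' i a ω' = matT S lam i a *ᵥ psiL b P d' i a ω := by
  funext x
  obtain ⟨s, p, m⟩ := x
  have h1 : e1 b i ω'.1 s p = (∏ j, lam (Set.powersetCard.ofFinEmbEquiv.symm s j)) •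
      ∑ q, MvPolynomial.C (S p q) * sub γ (e1 b i ω.1 s q) := by
    rw [e1_apply, h]
    have h2 : (fun j => γ *ᵥ b (Set.powersetCard.ofFinEmbEquiv.symm s j)) =
        fun j => lam (Set.powersetCard.ofFinEmbEquiv.symm s j) •
          b (Set.powersetCard.ofFinEmbEquiv.symm s j) := by
      funext j
      exact hγ _
    rw [h2, AlternatingMap.map_smul_univ, ← e1_apply, Finset.smul_sum]
    refine Finset.sum_congr rfl fun q _ => ?_
    rw [Pi.smul_apply, map_smul, mul_smul_comm]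
  show (sub P (e1 b i ω'.1 s p)).coeff m.1 = ∑ y, matT S lam i a (s, p, m) y * _
  rw [h1, map_smul, MvPolynomial.coeff_smul, map_sum, MvPolynomial.coeff_sum, Finset.smul_sum]
  rw [Fintype.sum_prod_type, Finset.sum_eq_single s]
  · rw [Fintype.sum_prod_type]
    refine Finset.sum_congr rfl fun q _ => ?_
    rw [Finset.sum_eq_single m]
    · have h3 : matT S lam i a (s, p, m) (s, q, m) =
          (∏ j, lam (Set.powersetCard.ofFinEmbEquiv.symm s j)) * (∏ k, lam k ^ m.1 k) * S p q := by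
        simp [matT]
      rw [h3, map_mul, sub_C, sub_comp, hP, MvPolynomial.coeff_C_mul, ← sub_comp,
        coeff_sub_diagonal, smul_eq_mul]
      show _ = _ * (sub P (e1 b i ω.1 s q)).coeff m.1
      ring
    · intro m' _ hm
      have h3 : matT S lam i a (s, p, m) (s, q, m') = 0 := by
        simp only [matT]
        rw [if_neg]
        rintro ⟨_, h4⟩
        exact hm h4.symm
      rw [h3, zero_mul]
    · simp
  · intro s' _ hs
    refine Finset.sum_eq_zero fun y _ => ?_
    have h3 : matT S lam i a (s, p, m) (s', y) = 0 := by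
      simp only [matT]
      rw [if_neg]
      rintro ⟨h4, _⟩
      exact hs h4.symm
    rw [h3, zero_mul]
  · simp

theorem trace_matT (S : Matrix (Fin d') (Fin d') ℂ) (lam : Fin r → ℂ) (i a : ℕ) :
    (matT S lam i a).trace = S.trace * TrX.hs lam a * TrX.es lam i := by
  have h1 : (matT S lam i a).trace = ∑ s : Set.powersetCard (Fin r) i, ∑ p : Fin d', ∑ m : Mon r a,
      (∏ j, lam (Set.powersetCard.ofFinEmbEquiv.symm s j)) * (∏ k, lam k ^ m.1 k) * S p p := by
    simp only [Matrix.trace, Matrix.diag_apply, Fintype.sum_prod_type]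
    refine Finset.sum_congr rfl fun s _ => Finset.sum_congr rfl fun p _ =>
      Finset.sum_congr rfl fun m _ => ?_
    simp [matT]
  have h2 : TrX.es lam i = ∑ s : Set.powersetCard (Fin r) i,
      ∏ j, lam (Set.powersetCard.ofFinEmbEquiv.symm s j) := by
    rw [TrX.es]
    symm
    refine Finset.sum_bij (fun s _ => s.1) ?_ ?_ ?_ ?_
    · intro s _
      rw [mem_powersetCard]
      exact ⟨subset_univ _, s.2⟩
    · intro s _ t _ hst
      exact Subtype.ext hst
    · intro T hT
      rw [mem_powersetCard] at hT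
      exact ⟨⟨T, hT.2⟩, mem_univ _, rfl⟩
    · intro s _
      have h5 : ∀ (T : Finset (Fin r)) (hT : T.card = i),
          ∏ k ∈ T, lam k = ∏ j, lam (T.orderEmbOfFin hT j) := by
        intro T hT
        conv_lhs => rw [← Finset.map_orderEmbOfFin_univ T hT, Finset.prod_map]
        rfl
      exact (h5 s.1 s.2).symm
  have h3 : TrX.hs lam a = ∑ m : Mon r a, ∏ k, lam k ^ m.1 k := by
    rw [TrX.hs, ← Finset.sum_coe_sort]
  have h4 : S.trace = ∑ p, S p p := rfl
  rw [h1, h2, h3, h4, Finset.mul_sum]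
  refine Finset.sum_congr rfl fun s _ => ?_
  rw [Finset.sum_mul_sum, Finset.sum_mul]
  refine Finset.sum_congr rfl fun p _ => ?_
  rw [Finset.sum_mul]
  refine Finset.sum_congr rfl fun m _ => ?_
  ring

variable {N : SG r} [Fintype N]

theorem gAct_eq (σ : N →* Matrix (Fin d') (Fin d') ℂ) (g : N) (f : PolE r (Fin d')) (p : Fin d') :
    gAct σ g f p = ∑ q, MvPolynomial.C (σ g p q) * sub (g⁻¹).1.1 (f q) := rfl

theorem gAct_homE (σ : N →* Matrix (Fin d') (Fin d') ℂ) (g : N) (a : ℕ) (f : PolE r (Fin d'))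
    (hf : f ∈ homE r (Fin d') a) : gAct σ g f ∈ homE r (Fin d') a := by
  intro p
  rw [gAct_eq]
  refine MvPolynomial.IsHomogeneous.sum _ _ _ fun q _ => ?_
  simpa using (MvPolynomial.isHomogeneous_C (Fin r) (σ g p q)).mul (sub_hom _ _ _ (hf q))

theorem gK_Wia (σ : N →* Matrix (Fin d') (Fin d') ℂ) (i a : ℕ) (g : N)
    (ω : KV r i (PolE r (Fin d'))) (h : ω ∈ Wia r d' i a) :
    gK (fun g => gAct σ g) i g ω ∈ Wia r d' i a :=
  fun v => gAct_homE σ g a _ (h _)

/-- The action of `g` on forms with homogeneous values. -/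
def gW (σ : N →* Matrix (Fin d') (Fin d') ℂ) (i a : ℕ) (g : N) : Module.End ℂ (Wia r d' i a) :=
  (gK (fun g => gAct σ g) i g).restrict (gK_Wia σ i a g)

/-- Trace of `g` on the forms of degree `i` with homogeneous values of degree `a`; `lam` are the
eigenvalues of `g⁻¹`. -/
theorem trace_gW (σ : N →* Matrix (Fin d') (Fin d') ℂ) (g : N) :
    ∃ lam : Fin r → ℂ, (∀ i a, LinearMap.trace ℂ _ (gW σ i a g) =
      (σ g).trace * TrX.hs lam a * TrX.es lam i) ∧
      ∀ m : ℕ, ∑ k, lam k ^ m = (((g⁻¹).1.1) ^ m).trace := by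
  classical
  have hcard : 0 < Fintype.card N := Fintype.card_pos
  have hpow : (Matrix.toLin' (g⁻¹).1.1) ^ (Fintype.card N) = 1 := by
    have h1 : ((g⁻¹).1.1) ^ (Fintype.card N) = 1 := by
      have h2 : (g⁻¹) ^ (Fintype.card N) = 1 := pow_card_eq_one
      have h3 : ((g⁻¹).1.1) ^ (Fintype.card N) = ((g⁻¹) ^ (Fintype.card N)).1.1 := by
        rw [Subgroup.coe_pow, Units.val_pow_eq_pow_val]
      rw [h3, h2]; rfl
    rw [← Matrix.toLin'_pow, h1, Matrix.toLin'_one]
    rfl
  obtain ⟨b, lam, hb⟩ := TrX.exists_eigenbasis (Matrix.toLin' (g⁻¹).1.1) hcard hpow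
  let P : Matrix (Fin r) (Fin r) ℂ := Matrix.of fun x k => b k x
  obtain ⟨Q, hPQ, hQP⟩ : ∃ Q, P * Q = 1 ∧ Q * P = 1 := by
    have h1 : P = (Pi.basisFun ℂ (Fin r)).toMatrix b := by
      ext x k
      simp [P, Module.Basis.toMatrix_apply]
    rw [h1]
    exact ⟨b.toMatrix (Pi.basisFun ℂ (Fin r)), Module.Basis.toMatrix_mul_toMatrix_flip _ _,
      Module.Basis.toMatrix_mul_toMatrix_flip _ _⟩
  have hb' : ∀ k, (g⁻¹).1.1 *ᵥ b k = lam k • b k := fun k => by
    rw [← hb k, Matrix.toLin'_apply]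
  have hγ : (g⁻¹).1.1 * P = P * Matrix.diagonal lam := by
    ext x k
    have h1 := congrFun (hb' k) x
    rw [Matrix.mul_diagonal]
    show ((g⁻¹).1.1 *ᵥ b k) x = b k x * lam k
    rw [h1, Pi.smul_apply, smul_eq_mul, mul_comm]
  refine ⟨lam, fun i a => ?_, fun m => ?_⟩
  · have h1 : (psiE b P Q hPQ d' i a).conj (gW σ i a g) = Matrix.toLin' (matT (σ g) lam i a) := by
      apply LinearMap.ext
      intro x
      obtain ⟨ω, rfl⟩ := (psiE b P Q hPQ d' i a).surjective x
      rw [LinearEquiv.conj_apply_apply, LinearEquiv.symm_apply_apply, Matrix.toLin'_apply]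
      exact psi_comm b P (g⁻¹).1.1 lam hb' hγ (σ g) i a ω _ fun v p => rfl
    have h2 := LinearMap.trace_conj' (R := ℂ) (M := Wia r d' i a) (N := Ix r d' i a → ℂ)
      (gW σ i a g) (psiE b P Q hPQ d' i a)
    rw [← h2, h1, Matrix.trace_toLin'_eq, trace_matT]
  · have h1 : (g⁻¹).1.1 = P * Matrix.diagonal lam * Q := by
      rw [← hγ, mul_assoc, hPQ, mul_one]
    have h2 : ∀ m : ℕ, ((g⁻¹).1.1) ^ m * P = P * Matrix.diagonal (fun k => lam k ^ m) := by
      intro m
      induction m with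
      | zero => simp
      | succ m ih =>
        rw [pow_succ, mul_assoc, hγ, ← mul_assoc, ih, mul_assoc, Matrix.diagonal_mul_diagonal]
        simp only [pow_succ]
    have h3 : ((g⁻¹).1.1) ^ m = P * Matrix.diagonal (fun k => lam k ^ m) * Q := by
      rw [← h2, mul_assoc, hPQ, mul_one]
    rw [h3, Matrix.trace_mul_comm, ← mul_assoc, hQP, one_mul, Matrix.trace_diagonal]

end

end Pool.Agent.CMFn
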