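import Pool.Agent.CMFn.VDefs
import Pool.Agent.CMFn.Kos
import Pool.Agent.CMFn.TrB

/-! Project CMFn, module TrA: dimensions of the isotypic parts and the trace formula. -/

namespace Pool.Agent.CMFn

open Matrix Finset

noncomputable section

variable {r : ℕ} {N : SG r} [Fintype N] {d d' : ℕ}

theorem trA_gAct_mul (σ : N →* Matrix (Fin d') (Fin d') ℂ) (g h : N) :
    gAct σ (g * h) = gAct σ g * gAct σ h := by
  apply LinearMap.ext
  intro f
  funext p
  have h1 : ((g * h)⁻¹).1.1 = (h⁻¹).1.1 * (g⁻¹).1.1 := by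
    rw [_root_.mul_inv_rev]; rfl
  show gAct σ (g * h) f p = gAct σ g (gAct σ h f) p
  simp only [gAct_eq, h1, map_mul, Matrix.mul_apply, map_sum, sub_C, sub_comp, Finset.mul_sum,
    Finset.sum_mul]
  rw [Finset.sum_comm]
  refine Finset.sum_congr rfl fun q _ => Finset.sum_congr rfl fun s _ => ?_
  ring

theorem trA_gAct_one (σ : N →* Matrix (Fin d') (Fin d') ℂ) : gAct σ (1 : N) = 1 := by
  apply LinearMap.ext
  intro f
  funext p
  have h1 : ((1 : N)⁻¹).1.1 = (1 : Matrix (Fin r) (Fin r) ℂ) := by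
    rw [inv_one]; rfl
  rw [gAct_eq, h1]
  simp only [sub_one, map_one, Matrix.one_apply]
  rw [Finset.sum_eq_single p]
  · simp
  · intro q _ hq
    rw [if_neg hq.symm]; simp
  · simp

variable (ρ : N →* Matrix (Fin d) (Fin d) ℂ) (σ : N →* Matrix (Fin d') (Fin d') ℂ)

theorem Kia_le (i a : ℕ) : Kia ρ σ i a ≤ Wia r d' i a := fun _ h => h.1

theorem Kia_fd (i a : ℕ) : FiniteDimensional ℂ (Kia ρ σ i a) := by
  have := Wia_fd (r := r) d' i a
  exact Submodule.finiteDimensional_of_le (Kia_le ρ σ i a)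

/-- `p_ρ` on the forms with homogeneous values. -/
def pW (i a : ℕ) : Module.End ℂ (Wia r d' i a) :=
  ∑ g : N, ((d : ℂ) / (Fintype.card N : ℂ) * (ρ g⁻¹).trace) • gW σ i a g

theorem pW_val (i a : ℕ) (w : Wia r d' i a) :
    (pW ρ σ i a w).1 = pK (fun g => gAct σ g) ρ i w.1 := by
  simp only [pW, pK, LinearMap.sum_apply, LinearMap.smul_apply]
  rw [Submodule.coe_sum]
  rfl

/-- The dimension of the image of a projector (general form). -/
theorem finrank_fixed {V : Type} [AddCommGroup V] [Module ℂ V] (W K : Submodule ℂ V)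
    [FiniteDimensional ℂ W] (e : Module.End ℂ W) (hK : K ≤ W)
    (h1 : ∀ w : W, (e w).1 ∈ K) (h2 : ∀ w : W, w.1 ∈ K → e w = w) :
    (Module.finrank ℂ K : ℂ) = LinearMap.trace ℂ W e := by
  let p : Submodule ℂ W := K.comap W.subtype
  have hp : LinearMap.IsProj p e := ⟨fun w => h1 w, fun w hw => h2 w hw⟩
  rw [hp.trace, LinearEquiv.finrank_eq (Submodule.comapSubtypeEquivOfLe hK)]

theorem finrank_Kia (hd : 0 < d) (hρ : Submodule.span ℂ (Set.range ρ) = ⊤) (i a : ℕ) :
    (Module.finrank ℂ (Kia ρ σ i a) : ℂ) = LinearMap.trace ℂ _ (pW ρ σ i a) := by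
  have hfd := Wia_fd (r := r) d' i a
  refine finrank_fixed (V := KV r i (PolE r (Fin d'))) (Wia r d' i a) (Kia ρ σ i a) (pW ρ σ i a)
    (Kia_le ρ σ i a) (fun w => ⟨(pW ρ σ i a w).2, ?_⟩) (fun w hw => Subtype.ext ?_)
  · rw [pW_val]
    exact pK_pK (fun g => gAct σ g) (trA_gAct_mul σ) (trA_gAct_one σ) hd ρ hρ i w.1
  · rw [pW_val]
    exact hw.2

theorem trace_pW (i a : ℕ) : LinearMap.trace ℂ _ (pW ρ σ i a) =
    ∑ g : N, ((d : ℂ) / (Fintype.card N : ℂ) * (ρ g⁻¹).trace) *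
      LinearMap.trace ℂ _ (gW σ i a g) := by
  rw [pW, map_sum]
  refine Finset.sum_congr rfl fun g _ => ?_
  rw [map_smul, smul_eq_mul]

theorem es_zero {ι : Type} [Fintype ι] [DecidableEq ι] (lam : ι → ℂ) (i : ℕ)
    (hi : Fintype.card ι < i) : TrX.es lam i = 0 := by
  rw [TrX.es, Finset.powersetCard_eq_empty.2 (by rwa [Finset.card_univ]), Finset.sum_empty]

theorem sum_ite_range (lam : Fin r → ℂ) (m : ℕ) (hm : 0 < m) :
    (∑ i ∈ Finset.range (r + 1), if i ≤ m then (-1 : ℂ) ^ i * i *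
      (TrX.hs lam (m - i) * TrX.es lam i) else 0) = - ∑ k, lam k ^ m := by
  rw [← TrX.superTrace lam m hm, ← Finset.sum_filter]
  refine Finset.sum_subset ?_ ?_
  · intro i hi
    rw [Finset.mem_filter] at hi
    rw [Finset.mem_range]
    omega
  · intro i hi hi'
    rw [Finset.mem_filter, Finset.mem_range] at hi'
    rw [Finset.mem_range] at hi
    have h1 : r < i := by
      by_contra hc
      exact hi' ⟨by omega, by omega⟩
    rw [es_zero lam i (by simpa using h1)]
    ring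

theorem trace_formula (hd : 0 < d) (hρ : Submodule.span ℂ (Set.range ρ) = ⊤) (m : ℕ)
    (hm : 0 < m) :
    (∑ i ∈ Finset.range (r + 1), if i ≤ m then (-1 : ℂ) ^ i * i *
        (Module.finrank ℂ (Kia ρ σ i (m - i)) : ℂ) else 0) =
      -((d : ℂ) / (Fintype.card N : ℂ) * ∑ g : N, (ρ g⁻¹).trace * (σ g).trace *
        (((g⁻¹).1.1) ^ m).trace) := by
  choose lam h1 h2 using trace_gW (N := N) σ
  have h3 : ∀ i, (if i ≤ m then (-1 : ℂ) ^ i * i *
        (Module.finrank ℂ (Kia ρ σ i (m - i)) : ℂ) else 0) =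
      ∑ g : N, (d : ℂ) / (Fintype.card N : ℂ) * ((ρ g⁻¹).trace * (σ g).trace) *
        (if i ≤ m then (-1 : ℂ) ^ i * i * (TrX.hs (lam g) (m - i) * TrX.es (lam g) i) else 0) := by
    intro i
    split_ifs with hi
    · rw [finrank_Kia ρ σ hd hρ, trace_pW, Finset.mul_sum]
      refine Finset.sum_congr rfl fun g _ => ?_
      rw [h1 g]
      ring
    · simp
  rw [Finset.sum_congr rfl fun i _ => h3 i, Finset.sum_comm, Finset.mul_sum, ← Finset.sum_neg_distrib]
  refine Finset.sum_congr rfl fun g _ => ?_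
  rw [← Finset.mul_sum, sum_ite_range (lam g) m hm, h2 g m]
  ring

end

end Pool.Agent.CMFn
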