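import Pool.Agent.CMFn.Acyc
import Pool.Agent.CMFn.Cen
import Pool.Agent.CMFn.VDefs

/-! Project CMFn, module Verma: exactness of the complexes of homogeneous forms. -/

namespace Pool.Agent.CMFn.VermaX

open Matrix Pool.Agent.CMFn

noncomputable section

variable {r : ℕ}

/-! ### Homogeneous components -/

/-- Homogeneous component of degree `n`. -/
def hC (r : ℕ) (ι : Type) (n : ℕ) : PolE r ι →ₗ[ℂ] PolE r ι :=
  LinearMap.pi fun i => (MvPolynomial.homogeneousComponent n).comp (LinearMap.proj i)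

lemma hC_apply {ι : Type} (n : ℕ) (f : PolE r ι) (i : ι) :
    hC r ι n f i = MvPolynomial.homogeneousComponent n (f i) := rfl

lemma hC_mem {ι : Type} (n : ℕ) (f : PolE r ι) : hC r ι n f ∈ homE r ι n := fun _ =>
  MvPolynomial.homogeneousComponent_isHomogeneous _ _

lemma hC_self {ι : Type} (n : ℕ) (f : PolE r ι) (h : f ∈ homE r ι n) : hC r ι n f = f := by
  funext i
  rw [hC_apply]
  exact MvPolynomial.homogeneousComponent_eq_self (h i)

lemma hC_ne {ι : Type} (m n : ℕ) (hmn : m ≠ n) (f : PolE r ι) (h : f ∈ homE r ι n) :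
    hC r ι m f = 0 := by
  funext i
  rw [hC_apply, MvPolynomial.homogeneousComponent_of_mem (h i), if_neg hmn]
  rfl

lemma sum_hC {d' : ℕ} (f : PolE r (Fin d')) :
    ∃ m, ∑ n ∈ Finset.range m, hC r (Fin d') n f = f := by
  refine ⟨(∑ i, (f i).totalDegree) + 1, ?_⟩
  funext i
  rw [Finset.sum_apply]
  simp only [hC_apply]
  have h1 : (f i).totalDegree ≤ ∑ i, (f i).totalDegree :=
    Finset.single_le_sum (f := fun i => (f i).totalDegree) (fun _ _ => Nat.zero_le _)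
      (Finset.mem_univ i)
  conv_rhs => rw [← MvPolynomial.sum_homogeneousComponent (f i)]
  symm
  apply Finset.sum_subset
  · intro n hn
    rw [Finset.mem_range] at hn ⊢
    omega
  · intro n _ hn
    rw [Finset.mem_range] at hn
    exact MvPolynomial.homogeneousComponent_eq_zero _ _ (by omega)

/-- A linear statement needs to be checked on homogeneous elements only. -/
lemma ext_hom {d' : ℕ} {M : Type} [AddCommGroup M] [Module ℂ M]
    (F G : PolE r (Fin d') →ₗ[ℂ] M)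
    (h : ∀ n, ∀ f ∈ homE r (Fin d') n, F f = G f) (f : PolE r (Fin d')) : F f = G f := by
  obtain ⟨m, hm⟩ := sum_hC f
  rw [← hm, map_sum, map_sum]
  exact Finset.sum_congr rfl fun n _ => h n _ (hC_mem n f)

/-- Multiplication by a polynomial without constant term raises the order. -/
lemma hC_mul {ι : Type} (p : MvPolynomial (Fin r) ℂ) (hp : MvPolynomial.constantCoeff p = 0)
    (f : PolE r ι) (k : ℕ) (hf : ∀ n < k, hC r ι n f = 0) (n : ℕ) (hn : n < k + 1) :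
    hC r ι n (fun i => p * f i) = 0 := by
  funext i
  rw [hC_apply]
  show MvPolynomial.homogeneousComponent n (p * f i) = 0
  ext m
  rw [MvPolynomial.coeff_homogeneousComponent, MvPolynomial.coeff_zero]
  split_ifs with hm
  · rw [MvPolynomial.coeff_mul]
    apply Finset.sum_eq_zero
    rintro ⟨a, b⟩ hab
    rw [Finset.HasAntidiagonal.mem_antidiagonal] at hab
    simp only at hab ⊢
    by_cases ha : a = 0
    · subst ha
      have h1 : MvPolynomial.coeff 0 p = 0 := hp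
      rw [h1, zero_mul]
    · have h1 : 0 < a.degree := by
        rw [Nat.pos_iff_ne_zero]
        intro h0
        exact ha ((Finsupp.degree_eq_zero_iff a).1 h0)
      have h2 : a.degree + b.degree = n := by
        rw [← hm, ← hab, map_add]
      have h3 := congrFun (hf b.degree (by omega)) i
      rw [hC_apply] at h3
      have h4 := congrArg (MvPolynomial.coeff b) h3
      rw [MvPolynomial.coeff_homogeneousComponent, if_pos rfl] at h4
      rw [h4]
      show _ * MvPolynomial.coeff b 0 = 0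
      rw [MvPolynomial.coeff_zero, mul_zero]
  · rfl

/-! ### Forms -/

section forms

variable {M M' : Type} [AddCommGroup M] [Module ℂ M] [AddCommGroup M'] [Module ℂ M']
variable {N : SG r} [Fintype N]

lemma kmap_pK (f : M →ₗ[ℂ] M') (T : N → Module.End ℂ M) (T' : N → Module.End ℂ M')
    (h : ∀ g m, f (T g m) = T' g (f m)) {d : ℕ} (ρ : N →* Matrix (Fin d) (Fin d) ℂ) (i : ℕ)
    (ω : KV r i M) : kmap f i (pK T ρ i ω) = pK T' ρ i (kmap f i ω) := by
  rw [pK_apply', pK_apply', map_sum]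
  refine Finset.sum_congr rfl fun g _ => ?_
  rw [map_smul]
  congr 1
  apply AlternatingMap.ext
  intro v
  rw [kmap_apply, gK_apply, gK_apply, h]
  rfl

lemma kd_pK (T : N → Module.End ℂ M) (A : (Fin r → ℂ) →ₗ[ℂ] Module.End ℂ M)
    (hTA : ∀ g v, T g * A v = A (g.1.1 *ᵥ v) * T g) {d : ℕ}
    (ρ : N →* Matrix (Fin d) (Fin d) ℂ) (i : ℕ) (ω : KV r i M) :
    kd A i (pK T ρ i ω) = pK T ρ (i + 1) (kd A i ω) := by
  rw [pK_apply', pK_apply', map_sum]
  refine Finset.sum_congr rfl fun g _ => ?_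
  rw [map_smul, kd_gK T A hTA]

end forms

/-! ### The Verma module -/

variable {N : SG r} [Fintype N] {c : N → ℂ} {d' : ℕ}

section basic

variable {σ : N →* Matrix (Fin d') (Fin d') ℂ} {Φ : H0 N c →ₐ[ℂ] Module.End ℂ (PolE r (Fin d'))}

lemma vY_apply (Φ : H0 N c →ₐ[ℂ] Module.End ℂ (PolE r (Fin d'))) (v : Fin r → ℂ)
    (f : PolE r (Fin d')) : vY Φ v f = ∑ i, v i • Φ (rY c i) f := by
  unfold vY
  rw [LinearMap.sum_apply, LinearMap.sum_apply]
  rfl

lemma mY_apply (M : Type) [AddCommGroup M] [Module ℂ M] [Module (H0 N c) M]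
    [IsScalarTower ℂ (H0 N c) M] (v : Fin r → ℂ)
    (m : M) : mY c M v m = ∑ i, v i • (rY c i • m) := by
  unfold mY
  rw [LinearMap.sum_apply, LinearMap.sum_apply]
  rfl

lemma hC_Y (hΦ : IsVerma c σ Φ) (i : Fin r) (a : ℕ) (f : PolE r (Fin d')) :
    hC r _ a (Φ (rY c i) f) = Φ (rY c i) (hC r _ (a + 1) f) := by
  refine ext_hom ((hC r (Fin d') a).comp (Φ (rY c i)))
    ((Φ (rY c i)).comp (hC r (Fin d') (a + 1))) ?_ f
  intro n f hf
  rw [LinearMap.comp_apply, LinearMap.comp_apply]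
  rcases n with _ | n
  · rw [hΦ.Y0 i f hf, hC_ne (a + 1) 0 (by omega) f hf, map_zero, map_zero]
  · by_cases h : a = n
    · subst h
      rw [hC_self _ _ (hΦ.Ydeg i a f hf), hC_self _ _ hf]
    · rw [hC_ne _ _ h _ (hΦ.Ydeg i n f hf), hC_ne _ _ (by omega) _ hf, map_zero]

lemma hC_vY (hΦ : IsVerma c σ Φ) (v : Fin r → ℂ) (a : ℕ) (f : PolE r (Fin d')) :
    hC r _ a (vY Φ v f) = vY Φ v (hC r _ (a + 1) f) := by
  rw [vY_apply, vY_apply, map_sum]
  refine Finset.sum_congr rfl fun i _ => ?_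
  rw [map_smul, hC_Y hΦ]

lemma vY_mem (hΦ : IsVerma c σ Φ) (v : Fin r → ℂ) (a : ℕ) (f : PolE r (Fin d'))
    (hf : f ∈ homE r (Fin d') (a + 1)) : vY Φ v f ∈ homE r (Fin d') a := by
  rw [vY_apply]
  exact Submodule.sum_mem _ fun i _ => Submodule.smul_mem _ _ (hΦ.Ydeg i a f hf)

lemma rT_mul (g h : N) : rT c (g * h) = rT c g * rT c h := by
  unfold rT
  rw [← map_mul]
  exact CenAX.h0_rel (HRel.mul g h)

lemma rT_one : rT c 1 = 1 := by
  unfold rT
  rw [CenAX.h0_rel HRel.one, map_one]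

lemma gAct_mul' (hΦ : IsVerma c σ Φ) (g h : N) : gAct σ (g * h) = gAct σ g * gAct σ h := by
  rw [← hΦ.T, ← hΦ.T, ← hΦ.T, rT_mul, map_mul]

lemma gAct_one' (hΦ : IsVerma c σ Φ) : gAct σ 1 = 1 := by
  rw [← hΦ.T, rT_one, map_one]

lemma gAct_vY (hΦ : IsVerma c σ Φ) (g : N) (v : Fin r → ℂ) :
    gAct σ g * vY Φ v = vY Φ (g.1.1 *ᵥ v) * gAct σ g := by
  have h1 : ∀ v : Fin r → ℂ, vY Φ v = ∑ i, v i • Φ (rY c i) := by
    intro v
    apply LinearMap.ext
    intro f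
    rw [vY_apply, LinearMap.sum_apply]
    rfl
  rw [h1, h1, Finset.mul_sum]
  have h2 : ∀ i, gAct σ g * (v i • Φ (rY c i)) =
      ∑ j, (g.1.1 j i * v i) • (Φ (rY c j) * gAct σ g) := by
    intro i
    rw [mul_smul_comm, ← hΦ.T, ← map_mul, CenAX.rT_Y, map_mul, map_sum, Finset.sum_mul,
      Finset.smul_sum]
    refine Finset.sum_congr rfl fun j _ => ?_
    rw [map_smul, smul_mul_assoc, smul_smul, mul_comm (v i)]
  simp only [h2]
  rw [Finset.sum_comm, Finset.sum_mul]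
  refine Finset.sum_congr rfl fun j _ => ?_
  rw [← Finset.sum_smul, smul_mul_assoc]
  rfl

omit [Fintype N] in
lemma gAct_mem (g : N) (n : ℕ) (f : PolE r (Fin d')) (hf : f ∈ homE r (Fin d') n) :
    gAct σ g f ∈ homE r (Fin d') n := by
  intro i
  refine MvPolynomial.IsHomogeneous.sum _ _ _ fun j _ => ?_
  have h1 : (MvPolynomial.bind₁ (fun a => ∑ b, MvPolynomial.C ((g⁻¹).1.1 a b) *
      MvPolynomial.X b) (f j) : MvPolynomial (Fin r) ℂ).IsHomogeneous (1 * n) := by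
    refine MvPolynomial.IsHomogeneous.aeval (hf j) _ fun a => ?_
    refine MvPolynomial.IsHomogeneous.sum _ _ _ fun b _ => ?_
    have := (MvPolynomial.isHomogeneous_C (Fin r) ((g⁻¹).1.1 a b)).mul
      (MvPolynomial.isHomogeneous_X ℂ b)
    rwa [zero_add] at this
  have h2 := (MvPolynomial.isHomogeneous_C (Fin r) (σ g i j)).mul h1
  rwa [zero_add, one_mul] at h2

lemma pK_mem {d : ℕ} (ρ : N →* Matrix (Fin d) (Fin d) ℂ) (i n : ℕ) (ω : KV r i (PolE r (Fin d')))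
    (hω : ∀ v, ω v ∈ homE r (Fin d') n) (v : Fin i → Fin r → ℂ) :
    pK (fun g => gAct σ g) ρ i ω v ∈ homE r (Fin d') n := by
  rw [pK_apply', kos_sum_apply]
  refine Submodule.sum_mem _ fun g _ => ?_
  exact Submodule.smul_mem _ _ (gAct_mem g n _ (hω _))

/-- Multiplication operators. -/
lemma exists_mulHom (hΦ : IsVerma c σ Φ) : ∃ φ : MvPolynomial (Fin r) ℂ →ₐ[ℂ] H0 N c,
    (∀ p, evP (rX c) p = φ p) ∧ ∀ p f, Φ (φ p) f = fun i => p * f i := by
  obtain ⟨φ, hφ, hev⟩ := CenAX.exists_evHom (rX c) CenAX.rX_comm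
  refine ⟨φ, hev, fun p => ?_⟩
  induction p using MvPolynomial.induction_on with
  | C a =>
    intro f
    have h2 : (MvPolynomial.C a : MvPolynomial (Fin r) ℂ) = algebraMap ℂ _ a := rfl
    rw [h2, AlgHom.commutes, AlgHom.commutes]
    funext i
    show a • f i = _
    rw [Algebra.smul_def]
  | add p q hp hq =>
    intro f
    rw [map_add, map_add, LinearMap.add_apply, hp, hq]
    funext i
    show p * f i + q * f i = (p + q) * f i
    rw [add_mul]
  | mul_X p j hp =>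
    intro f
    rw [map_mul, map_mul, hφ, hΦ.X, Module.End.mul_apply, hp]
    funext i
    show p * (MvPolynomial.X j * f i) = p * MvPolynomial.X j * f i
    rw [mul_assoc]

/-- The constants. -/
def e1 (r : ℕ) {d' : ℕ} (j : Fin d') : PolE r (Fin d') := Pi.single j 1

lemma e1_mem (j : Fin d') : e1 r j ∈ homE r (Fin d') 0 := by
  intro i
  unfold e1
  by_cases h : i = j
  · subst h
    rw [Pi.single_eq_same]
    exact MvPolynomial.isHomogeneous_one _ _
  · rw [Pi.single_eq_of_ne h]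
    exact MvPolynomial.isHomogeneous_zero _ _ _

lemma eq_sum_e1 (φ : MvPolynomial (Fin r) ℂ →ₐ[ℂ] H0 N c)
    (hφ : ∀ p f, Φ (φ p) f = fun i => p * f i) (f : PolE r (Fin d')) :
    f = ∑ j, Φ (φ (f j)) (e1 r j) := by
  funext i
  rw [Finset.sum_apply]
  simp only [hφ]
  rw [Finset.sum_eq_single i]
  · unfold e1
    rw [Pi.single_eq_same, mul_one]
  · intro j _ hj
    unfold e1
    rw [Pi.single_eq_of_ne hj.symm, mul_zero]
  · intro h
    exact absurd (Finset.mem_univ _) h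

/-- The invariants in the `y_i` act by zero. -/
lemma invY_zero (hc : IsCls c) (hΦ : IsVerma c σ Φ) (p : MvPolynomial (Fin r) ℂ)
    (hp : InvY N p) (f : PolE r (Fin d')) : Φ (evP (rY c) p) f = 0 := by
  obtain ⟨φ, hev, hφ⟩ := exists_mulHom hΦ
  have hin : evP (rY c) p ∈ Inv c := Or.inr ⟨p, hp, rfl⟩
  have h1 : ∀ u ∈ homE r (Fin d') 0, Φ (evP (rY c) p) u = 0 := by
    intro u hu
    obtain ⟨φ', hφ', hev'⟩ := CenAX.exists_evHom (rY c) CenAX.rY_comm
    have h2 : ∀ q : MvPolynomial (Fin r) ℂ, Φ (φ' q) u = MvPolynomial.constantCoeff q • u := by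
      intro q
      induction q using MvPolynomial.induction_on with
      | C a =>
        have h2 : (MvPolynomial.C a : MvPolynomial (Fin r) ℂ) = algebraMap ℂ _ a := rfl
        rw [h2, AlgHom.commutes, AlgHom.commutes, ← h2, MvPolynomial.constantCoeff_C]
        rfl
      | add p q hp hq =>
        rw [map_add, map_add, LinearMap.add_apply, hp, hq, map_add, add_smul]
      | mul_X q j hq =>
        rw [map_mul, map_mul, hφ', Module.End.mul_apply, hΦ.Y0 j u hu, map_zero, map_mul,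
          MvPolynomial.constantCoeff_X, mul_zero, zero_smul]
    rw [hev', h2, hp.1, zero_smul]
  rw [eq_sum_e1 φ hφ f, map_sum]
  refine Finset.sum_eq_zero fun j _ => ?_
  rw [← Module.End.mul_apply, ← map_mul, Inv_central hc _ hin, map_mul, Module.End.mul_apply,
    h1 _ (e1_mem j), map_zero]

end basic

/-! ### The quotient -/

variable (Φ : H0 N c →ₐ[ℂ] Module.End ℂ (PolE r (Fin d')))

/-- The largest submodule without components of degree `< L`. -/
def vJ (L : ℕ) : Submodule ℂ (PolE r (Fin d')) where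
  carrier := {f | ∀ b : H0 N c, ∀ n < L, hC r _ n (Φ b f) = 0}
  add_mem' {f g} hf hg b n hn := by rw [map_add, map_add, hf b n hn, hg b n hn, add_zero]
  zero_mem' b n _ := by rw [map_zero, map_zero]
  smul_mem' a f hf b n hn := by rw [map_smul, map_smul, hf b n hn, smul_zero]

lemma vJ_stable (L : ℕ) (a : H0 N c) (f : PolE r (Fin d')) (hf : f ∈ vJ Φ L) :
    Φ a f ∈ vJ Φ L := by
  intro b n hn
  have h1 : Φ b (Φ a f) = Φ (b * a) f := by rw [map_mul, Module.End.mul_apply]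
  rw [h1]
  exact hf (b * a) n hn

/-- The quotient module. -/
def VM (L : ℕ) : Type := PolE r (Fin d') ⧸ vJ Φ L

instance (L : ℕ) : AddCommGroup (VM Φ L) :=
  inferInstanceAs (AddCommGroup (PolE r (Fin d') ⧸ vJ Φ L))
instance (L : ℕ) : Module ℂ (VM Φ L) :=
  inferInstanceAs (Module ℂ (PolE r (Fin d') ⧸ vJ Φ L))

/-- The projection. -/
def vmk (L : ℕ) : PolE r (Fin d') →ₗ[ℂ] VM Φ L := (vJ Φ L).mkQ

lemma vmk_surj (L : ℕ) : Function.Surjective (vmk Φ L) := (vJ Φ L).mkQ_surjective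

lemma vmk_eq_zero (L : ℕ) (f : PolE r (Fin d')) : vmk Φ L f = 0 ↔ f ∈ vJ Φ L :=
  Submodule.Quotient.mk_eq_zero _

/-- The action of one element. -/
def vact1 (L : ℕ) (a : H0 N c) : Module.End ℂ (VM Φ L) :=
  (vJ Φ L).mapQ (vJ Φ L) (Φ a) fun f hf => vJ_stable Φ L a f hf

lemma vact1_mk (L : ℕ) (a : H0 N c) (f : PolE r (Fin d')) :
    vact1 Φ L a (vmk Φ L f) = vmk Φ L (Φ a f) := rfl

lemma vext {L : ℕ} {F G : Module.End ℂ (VM Φ L)}
    (h : ∀ f, F (vmk Φ L f) = G (vmk Φ L f)) : F = G := by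
  apply LinearMap.ext
  intro m
  obtain ⟨f, rfl⟩ := vmk_surj Φ L m
  exact h f

/-- The action. -/
def vact (L : ℕ) : H0 N c →+* Module.End ℂ (VM Φ L) where
  toFun a := vact1 Φ L a
  map_one' := by
    apply vext
    intro f
    rw [vact1_mk, map_one]
    rfl
  map_mul' a b := by
    apply vext
    intro f
    rw [Module.End.mul_apply, vact1_mk, vact1_mk, vact1_mk, map_mul]
    rfl
  map_zero' := by
    apply vext
    intro f
    rw [vact1_mk, map_zero]
    rfl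
  map_add' a b := by
    apply vext
    intro f
    rw [LinearMap.add_apply, vact1_mk, vact1_mk, vact1_mk, map_add]
    rfl

instance (L : ℕ) : Module (H0 N c) (VM Φ L) := Module.compHom _ (vact Φ L)

lemma smul_vmk (L : ℕ) (a : H0 N c) (f : PolE r (Fin d')) :
    a • vmk Φ L f = vmk Φ L (Φ a f) := rfl

instance (L : ℕ) : IsScalarTower ℂ (H0 N c) (VM Φ L) where
  smul_assoc t a m := by
    obtain ⟨f, rfl⟩ := vmk_surj Φ L m
    rw [smul_vmk, smul_vmk, map_smul, LinearMap.smul_apply, map_smul]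

variable {Φ} {σ : N →* Matrix (Fin d') (Fin d') ℂ}

lemma inv_raise (hc : IsCls c) (hΦ : IsVerma c σ Φ) (a : H0 N c) (ha : a ∈ Inv c) (k : ℕ)
    (f : PolE r (Fin d')) (hf : f ∈ vJ Φ k) : Φ a f ∈ vJ Φ (k + 1) := by
  intro b n hn
  rcases ha with ⟨p, hp, rfl⟩ | ⟨p, hp, rfl⟩
  · have hin : evP (rX c) p ∈ Inv c := Or.inl ⟨p, hp, rfl⟩
    obtain ⟨φ, hev, hφ⟩ := exists_mulHom hΦ
    have h1 : Φ b (Φ (evP (rX c) p) f) = Φ (evP (rX c) p) (Φ b f) := by
      rw [← Module.End.mul_apply, ← map_mul, ← Inv_central hc _ hin, map_mul,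
        Module.End.mul_apply]
    rw [h1, hev, hφ]
    exact hC_mul p hp.1 _ k (hf b) n hn
  · rw [invY_zero hc hΦ p hp, map_zero, map_zero]

lemma VM_Kset (hc : IsCls c) (hΦ : IsVerma c σ Φ) (L : ℕ) (j : ℕ) :
    ∀ k, k + j = L → ∀ f ∈ vJ Φ k, vmk Φ L f ∈ Kset c (VM Φ L) j := by
  induction j with
  | zero =>
    intro k hk f hf
    rw [add_zero] at hk
    subst hk
    exact (vmk_eq_zero Φ k f).2 hf
  | succ j ih =>
    intro k hk f hf a ha
    rw [smul_vmk]
    exact ih (k + 1) (by omega) _ (inv_raise hc hΦ a ha k f hf)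

lemma VM_LN (hc : IsCls c) (hΦ : IsVerma c σ Φ) (L : ℕ) : LN c (VM Φ L) := by
  intro m
  obtain ⟨f, rfl⟩ := vmk_surj Φ L m
  refine ⟨L, VM_Kset hc hΦ L L 0 (by omega) f ?_⟩
  intro b n hn
  exact absurd hn (Nat.not_lt_zero _)

lemma pR_e1 (hd' : 0 < d') (hσ : Submodule.span ℂ (Set.range σ) = ⊤) (hΦ : IsVerma c σ Φ)
    (j : Fin d') : Φ (pR c σ) (e1 r j) = e1 r j := by
  unfold pR
  rw [map_sum, LinearMap.sum_apply]
  have h1 := kos_proj_one hd' σ hσ
  funext i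
  have h2 := congrFun (congrFun h1 i) j
  rw [Matrix.sum_apply] at h2
  rw [Finset.sum_apply]
  have h3 : ∀ g : N, (Φ (((d' : ℂ) / (Fintype.card N : ℂ) * (σ g⁻¹).trace) • rT c g)) (e1 r j) i =
      MvPolynomial.C (((((d' : ℂ) / (Fintype.card N : ℂ)) * (σ g⁻¹).trace) • σ g) i j) := by
    intro g
    rw [map_smul, hΦ.T]
    have h4 : gAct σ g (e1 r j) i = MvPolynomial.C (σ g i j) := by
      show ∑ k, MvPolynomial.C (σ g i k) * MvPolynomial.bind₁
        (fun a => ∑ b, MvPolynomial.C ((g⁻¹).1.1 a b) * MvPolynomial.X b) (e1 r j k) = _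
      rw [Finset.sum_eq_single j]
      · unfold e1
        rw [Pi.single_eq_same, map_one, mul_one]
      · intro k _ hk
        unfold e1
        rw [Pi.single_eq_of_ne hk, map_zero, mul_zero]
      · intro h
        exact absurd (Finset.mem_univ _) h
    show (((d' : ℂ) / (Fintype.card N : ℂ) * (σ g⁻¹).trace) • gAct σ g (e1 r j)) i = _
    rw [Pi.smul_apply, h4, MvPolynomial.smul_eq_C_mul, ← MvPolynomial.C_mul]
    rfl
  simp only [h3]
  rw [← map_sum, h2]
  unfold e1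
  by_cases h : i = j
  · subst h
    rw [Matrix.one_apply_eq, Pi.single_eq_same, map_one]
  · rw [Matrix.one_apply_ne h, Pi.single_eq_of_ne h, map_zero]

lemma VM_nil (hc : IsCls c) (hd' : 0 < d') (hσ : Submodule.span ℂ (Set.range σ) = ⊤)
    (hΦ : IsVerma c σ Φ) (L : ℕ) (z : H0 N c) (hz : IsCI c z)
    (h0 : z * pR c σ ∈ Iid c ⊔ leftY0 c) : Nil0 c (VM Φ L) z := by
  refine nil_of_gen (VM Φ L) hc σ z hz h0 (VM_LN hc hΦ L)
    (Set.range fun j : Fin d' => vmk Φ L (e1 r j)) ?_ ?_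
  · rintro _ ⟨j, rfl⟩
    refine ⟨fun i => ?_, ?_⟩
    · show rY c i • vmk Φ L (e1 r j) = 0
      rw [smul_vmk, hΦ.Y0 i _ (e1_mem j), map_zero]
    · show pR c σ • vmk Φ L (e1 r j) = _
      rw [smul_vmk, pR_e1 hd' hσ hΦ]
  · rw [eq_top_iff]
    intro m _
    obtain ⟨f, rfl⟩ := vmk_surj Φ L m
    obtain ⟨φ, hev, hφ⟩ := exists_mulHom hΦ
    rw [eq_sum_e1 φ hφ f, map_sum]
    refine Submodule.sum_mem _ fun j _ => ?_
    rw [← smul_vmk]
    exact Submodule.smul_mem _ _ (Submodule.subset_span ⟨j, rfl⟩)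

lemma vmk_vY (L : ℕ) (v : Fin r → ℂ) (f : PolE r (Fin d')) :
    vmk Φ L (vY Φ v f) = mY c (VM Φ L) v (vmk Φ L f) := by
  rw [vY_apply, mY_apply, map_sum]
  refine Finset.sum_congr rfl fun i _ => ?_
  rw [map_smul, smul_vmk]

lemma vmk_gAct (hΦ : IsVerma c σ Φ) (L : ℕ) (g : N) (f : PolE r (Fin d')) :
    vmk Φ L (gAct σ g f) = mT c (VM Φ L) g (vmk Φ L f) := by
  rw [← hΦ.T]
  rfl

/-- An element of `vJ` has no components of low degree. -/
lemma hC_vJ (L : ℕ) (f : PolE r (Fin d')) (hf : f ∈ vJ Φ L) (n : ℕ) (hn : n < L) :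
    hC r _ n f = 0 := by
  have := hf 1 n hn
  rwa [map_one, Module.End.one_apply] at this

end

end Pool.Agent.CMFn.VermaX

namespace Pool.Agent.CMFn

open Matrix VermaX

noncomputable section

variable {r : ℕ} {N : SG r} [Fintype N]
variable {c : N → ℂ} {d d' : ℕ} (ρ : N →* Matrix (Fin d) (Fin d) ℂ)
  (σ : N →* Matrix (Fin d') (Fin d') ℂ) (Φ : H0 N c →ₐ[ℂ] Module.End ℂ (PolE r (Fin d')))

theorem verma_d_mem (hΦ : IsVerma c σ Φ) (i a : ℕ) (ω : KV r i (PolE r (Fin d')))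
    (h : ω ∈ Kia ρ σ i (a + 1)) : kd (vY Φ) i ω ∈ Kia ρ σ (i + 1) a := by
  refine ⟨fun v => ?_, ?_⟩
  · rw [kd_apply]
    refine Submodule.sum_mem _ fun p _ => ?_
    exact zsmul_mem (vY_mem hΦ _ _ _ (h.1 _)) _
  · rw [← kd_pK (fun g => gAct σ g) (vY Φ) (gAct_vY hΦ), h.2]

theorem verma_exact_zero (hc : IsCls c) (_hd : 0 < d) (hd' : 0 < d')
    (_hρ : Submodule.span ℂ (Set.range ρ) = ⊤) (hσ : Submodule.span ℂ (Set.range σ) = ⊤)
    (hs : CMSep N c ρ σ) (hΦ : IsVerma c σ Φ) (a : ℕ) (ω : KV r 0 (PolE r (Fin d')))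
    (h : ω ∈ Kia ρ σ 0 a) (h0 : kd (vY Φ) 0 ω = 0) : ω = 0 := by
  obtain ⟨z, hz, hz1, hz2⟩ := exists_sep hc ρ σ hs
  have h1 := acyc_zero hc ρ z hz hz1 (VM Φ (a + 1)) (VM_LN hc hΦ _)
    (VM_nil hc hd' hσ hΦ _ z hz hz2) (kmap (vmk Φ (a + 1)) 0 ω) (by
      rw [← kmap_pK (vmk Φ (a + 1)) (fun g => gAct σ g) _ (vmk_gAct hΦ _), h.2]) (by
      rw [← kd_kmap (vmk Φ (a + 1)) (vY Φ) _ (vmk_vY _), h0, map_zero])
  apply AlternatingMap.ext
  intro v
  have h2 : vmk Φ (a + 1) (ω v) = 0 := by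
    rw [← kmap_apply, h1]
    rfl
  rw [vmk_eq_zero] at h2
  have h3 := hC_vJ (a + 1) _ h2 a (Nat.lt_succ_self a)
  rw [hC_self _ _ (h.1 v)] at h3
  exact h3

/-- Pass to `M = P/J`; `z` is locally nilpotent on it (nil_of_gen); take the
homogeneous component of `η` and apply `p_ρ`. -/
theorem verma_exact (hc : IsCls c) (hd : 0 < d) (hd' : 0 < d')
    (hρ : Submodule.span ℂ (Set.range ρ) = ⊤) (hσ : Submodule.span ℂ (Set.range σ) = ⊤)
    (hs : CMSep N c ρ σ) (hΦ : IsVerma c σ Φ) (i a : ℕ) (ω : KV r (i + 1) (PolE r (Fin d')))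
    (h : ω ∈ Kia ρ σ (i + 1) a) (h0 : kd (vY Φ) (i + 1) ω = 0) :
    ∃ η ∈ Kia ρ σ i (a + 1), kd (vY Φ) i η = ω := by
  obtain ⟨z, hz, hz1, hz2⟩ := exists_sep hc ρ σ hs
  obtain ⟨η₀, h1⟩ := acyc_succ hc hd ρ hρ z hz hz1 i (VM Φ (a + 1)) (VM_LN hc hΦ _)
    (VM_nil hc hd' hσ hΦ _ z hz hz2) (kmap (vmk Φ (a + 1)) (i + 1) ω) (by
      rw [← kmap_pK (vmk Φ (a + 1)) (fun g => gAct σ g) _ (vmk_gAct hΦ _), h.2]) (by
      rw [← kd_kmap (vmk Φ (a + 1)) (vY Φ) _ (vmk_vY _), h0, map_zero])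
  obtain ⟨s, hs⟩ := (vmk Φ (a + 1)).exists_rightInverse_of_surjective
    (LinearMap.range_eq_top.2 (vmk_surj Φ (a + 1)))
  set η₁ : KV r i (PolE r (Fin d')) := kmap s i η₀ with hη₁
  have h2 : kmap (vmk Φ (a + 1)) i η₁ = η₀ := by
    apply AlternatingMap.ext
    intro v
    rw [kmap_apply, hη₁, kmap_apply, ← LinearMap.comp_apply, hs]
    rfl
  set η₂ : KV r i (PolE r (Fin d')) := kmap (hC r (Fin d') (a + 1)) i η₁ with hη₂
  have h3 : kd (vY Φ) i η₂ = ω := by
    apply AlternatingMap.ext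
    intro v
    have h4 : kd (vY Φ) i η₂ v = hC r (Fin d') a (kd (vY Φ) i η₁ v) := by
      rw [kd_apply, kd_apply, map_sum]
      refine Finset.sum_congr rfl fun p _ => ?_
      rw [map_zsmul, hC_vY hΦ, hη₂, kmap_apply]
    have h5 : kd (vY Φ) i η₁ v - ω v ∈ vJ Φ (a + 1) := by
      rw [← vmk_eq_zero, map_sub, sub_eq_zero, ← kmap_apply (vmk Φ (a + 1)),
        ← kmap_apply (vmk Φ (a + 1)), kd_kmap (vmk Φ (a + 1)) (vY Φ) _ (vmk_vY _), h2, h1]
    have h6 := hC_vJ (a + 1) _ h5 a (Nat.lt_succ_self a)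
    rw [map_sub, hC_self _ _ (h.1 v), sub_eq_zero] at h6
    rw [h4, h6]
  refine ⟨pK (fun g => gAct σ g) ρ i η₂, ⟨?_, ?_⟩, ?_⟩
  · intro v
    exact pK_mem ρ i (a + 1) η₂ (fun v => hC_mem _ _) v
  · exact pK_pK (fun g => gAct σ g) (gAct_mul' hΦ) (gAct_one' hΦ) hd ρ hρ i η₂
  · rw [kd_pK (fun g => gAct σ g) (vY Φ) (gAct_vY hΦ), h3, h.2]

end

end Pool.Agent.CMFn
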