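import Pool.Agent.CMFn.LA
import Pool.Agent.CMFn.Verma
import Pool.Agent.CMFn.KX
import Pool.Agent.CMFn.Eu
import Pool.Agent.CMFn.TrA

/-! Project CMFn, block N: assembly of Theorem N (helper51). -/

namespace Pool.Agent.CMFn

open Matrix

noncomputable section

variable {r : ℕ} {N : SG r} [Fintype N]

namespace ThmNX

/-- `A_v` kills all values of `ω`: `dω = 0`. -/
lemma kd_eq_zero {M : Type} [AddCommGroup M] [Module ℂ M]
    (A : (Fin r → ℂ) →ₗ[ℂ] Module.End ℂ M) (i : ℕ) (ω : KV r i M)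
    (h : ∀ v x, A v (ω x) = 0) : kd A i ω = 0 := by
  have h1 : kdAux A ω = 0 :=
    LinearMap.ext fun v => AlternatingMap.ext fun x => h v x
  show AlternatingMap.alternatizeUncurryFin (kdAux A ω) = 0
  rw [h1]
  exact map_zero (AlternatingMap.alternatizeUncurryFinLM (R := ℂ) (M := Fin r → ℂ) (N := M) (n := i))

section Comm
variable {c : N → ℂ} {d' : ℕ} (Φ : H0 N c →ₐ[ℂ] Module.End ℂ (PolE r (Fin d')))

lemma rY_comm (i j : Fin r) : Commute (rY c i) (rY c j) := by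
  show h0 N c (fY i) * h0 N c (fY j) = h0 N c (fY j) * h0 N c (fY i)
  rw [← map_mul, ← map_mul]
  exact RingQuot.mkAlgHom_rel ℂ (HRel.YY i j)

lemma vY_apply (v : Fin r → ℂ) : vY Φ v = ∑ i, v i • Φ (rY c i) := by
  simp [vY]

lemma vY_comm (v w : Fin r → ℂ) : vY Φ v * vY Φ w = vY Φ w * vY Φ v := by
  have h : Commute (vY Φ v) (vY Φ w) := by
    rw [vY_apply, vY_apply]
    refine Commute.sum_left _ _ _ fun i _ => Commute.sum_right _ _ _ fun j _ => ?_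
    exact (((rY_comm (c := c) i j).map Φ).smul_left (v i)).smul_right (w j)
  exact h

lemma xAct_comm (ι : Type) (i j : Fin r) : xAct ι i * xAct ι j = xAct ι j * xAct ι i := by
  refine LinearMap.ext fun f => ?_
  funext k
  show MvPolynomial.X i * (MvPolynomial.X j * f k) = MvPolynomial.X j * (MvPolynomial.X i * f k)
  ring

end Comm

section Complex

variable {c : N → ℂ} {d d' : ℕ} (ρ : N →* Matrix (Fin d) (Fin d) ℂ)
  (σ : N →* Matrix (Fin d') (Fin d') ℂ) (Φ : H0 N c →ₐ[ℂ] Module.End ℂ (PolE r (Fin d')))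

/-- The spaces of the complex of total degree `m`. -/
def KS (m i : ℕ) : Submodule ℂ (KV r i (PolE r (Fin d'))) :=
  if i ≤ m then Kia ρ σ i (m - i) else ⊥

lemma mem_KS_le {m i : ℕ} (h : i ≤ m) (ω : KV r i (PolE r (Fin d'))) :
    ω ∈ KS ρ σ m i ↔ ω ∈ Kia ρ σ i (m - i) := by rw [KS, if_pos h]

lemma mem_KS_gt {m i : ℕ} (h : ¬ i ≤ m) (ω : KV r i (PolE r (Fin d'))) :
    ω ∈ KS ρ σ m i ↔ ω = 0 := by rw [KS, if_neg h, Submodule.mem_bot]

/-- Membership with an explicit degree. -/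
lemma mem_KS_of {m i a : ℕ} (h : i + a = m) (ω : KV r i (PolE r (Fin d'))) :
    ω ∈ KS ρ σ m i ↔ ω ∈ Kia ρ σ i a := by
  rw [mem_KS_le ρ σ (by omega), show m - i = a by omega]

lemma KS_d_mem (hΦ : IsVerma c σ Φ) (m i : ℕ) (ω : KV r i (PolE r (Fin d')))
    (h : ω ∈ KS ρ σ m i) : kd (vY Φ) i ω ∈ KS ρ σ m (i + 1) := by
  by_cases h1 : i + 1 ≤ m
  · obtain ⟨a, ha⟩ := Nat.exists_eq_add_of_le h1
    rw [mem_KS_of ρ σ (a := a) (by omega)]
    rw [mem_KS_of ρ σ (a := a + 1) (by omega)] at h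
    exact verma_d_mem ρ σ Φ hΦ i a ω h
  · rw [mem_KS_gt ρ σ h1]
    by_cases h2 : i ≤ m
    · rw [mem_KS_of ρ σ (a := 0) (by omega)] at h
      refine kd_eq_zero _ _ _ fun v x => ?_
      rw [vY_apply, LinearMap.sum_apply]
      refine Finset.sum_eq_zero fun j _ => ?_
      rw [LinearMap.smul_apply, hΦ.Y0 j _ (h.1 x), smul_zero]
    · rw [mem_KS_gt ρ σ h2] at h
      rw [h, map_zero]

lemma KS_h_mem (m i : ℕ) (ω : KV r (i + 1) (PolE r (Fin d')))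
    (h : ω ∈ KS ρ σ m (i + 1)) : kh (fun j => xAct (Fin d') j) i ω ∈ KS ρ σ m i := by
  by_cases h1 : i + 1 ≤ m
  · obtain ⟨a, ha⟩ := Nat.exists_eq_add_of_le h1
    rw [mem_KS_of ρ σ (a := a + 1) (by omega)]
    rw [mem_KS_of ρ σ (a := a) (by omega)] at h
    exact kx_mem ρ σ i a ω h
  · rw [mem_KS_gt ρ σ h1] at h
    rw [h, map_zero]
    exact Submodule.zero_mem _

/-- The Dunkl-Koszul differential. -/
def dS (hΦ : IsVerma c σ Φ) (m i : ℕ) : KS ρ σ m i →ₗ[ℂ] KS ρ σ m (i + 1) :=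
  (kd (vY Φ) i).restrict (KS_d_mem ρ σ Φ hΦ m i)

/-- The contraction with the `x_j`. -/
def hS (m i : ℕ) : KS ρ σ m (i + 1) →ₗ[ℂ] KS ρ σ m i :=
  (kh (fun j => xAct (Fin d') j) i).restrict (KS_h_mem ρ σ m i)

lemma dS_val (hΦ : IsVerma c σ Φ) (m i : ℕ) (x : KS ρ σ m i) :
    (dS ρ σ Φ hΦ m i x).1 = kd (vY Φ) i x.1 := rfl

lemma hS_val (m i : ℕ) (x : KS ρ σ m (i + 1)) :
    (hS ρ σ m i x).1 = kh (fun j => xAct (Fin d') j) i x.1 := rfl

lemma KS_fd (m i : ℕ) : FiniteDimensional ℂ (KS ρ σ m i) := by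
  by_cases h : i ≤ m
  · have h1 := Kia_fd ρ σ i (m - i)
    rw [KS, if_pos h]
    exact h1
  · rw [KS, if_neg h]
    infer_instance

lemma KS_finrank (m i : ℕ) : (Module.finrank ℂ (KS ρ σ m i) : ℂ) =
    if i ≤ m then (Module.finrank ℂ (Kia ρ σ i (m - i)) : ℂ) else 0 := by
  by_cases h : i ≤ m
  · rw [KS, if_pos h, if_pos h]
  · rw [KS, if_neg h, if_neg h, finrank_bot, Nat.cast_zero]

/-- The Euler characteristic of the complex. -/
lemma KS_euler (hc : IsCls c) (hd : 0 < d) (hd' : 0 < d')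
    (hρ : Submodule.span ℂ (Set.range ρ) = ⊤) (hσ : Submodule.span ℂ (Set.range σ) = ⊤)
    (hΦ : IsVerma c σ Φ) (β : ℂ)
    (hβ : ∑ g, bb c g • ρ g = β • (1 : Matrix (Fin d) (Fin d) ℂ))
    (hβ' : ∑ g, bb c g • σ g = β • (1 : Matrix (Fin d') (Fin d') ℂ))
    (hs : CMSep N c ρ σ) (m : ℕ) (hm : 0 < m) :
    ∑ i ∈ Finset.range (r + 1),
      (-1 : ℤ) ^ i * i * (Module.finrank ℂ (KS ρ σ m i) : ℤ) = 0 := by
  have hfd : ∀ i, FiniteDimensional ℂ (KS ρ σ m i) := KS_fd ρ σ m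
  refine euler_zero (fun i => KS ρ σ m i) r ?_ (dS ρ σ Φ hΦ m) (hS ρ σ m) ?_ ?_ ?_ ?_ ?_ ?_ ?_ ?_
  · intro i hi x
    exact Subtype.ext (Kia_zero i 0 hi x.1)
  · intro i x
    exact Subtype.ext (kd_kd (vY Φ) (vY_comm Φ) i x.1)
  · intro i x
    exact Subtype.ext (kh_kh _ (xAct_comm (Fin d')) i x.1)
  · intro x
    refine Subtype.ext ?_
    exact verma_dh0 ρ σ Φ hc hd hd' hρ hΦ β hβ hβ' m x.1
      ((mem_KS_of ρ σ (a := m) (by omega) x.1).1 x.2)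
  · intro i x
    refine Subtype.ext ?_
    by_cases h1 : i + 1 ≤ m
    · obtain ⟨a, ha⟩ := Nat.exists_eq_add_of_le h1
      exact verma_dh ρ σ Φ hc hd hd' hρ hΦ β hβ hβ' i a x.1
        ((mem_KS_of ρ σ (a := a) (by omega) x.1).1 x.2)
    · have hx : x = 0 := Subtype.ext ((mem_KS_gt ρ σ h1 x.1).1 x.2)
      rw [hx, map_zero, map_zero, map_zero, map_zero, add_zero]
  · intro x hx
    refine Subtype.ext ?_
    exact verma_exact_zero ρ σ Φ hc hd hd' hρ hσ hs hΦ m x.1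
      ((mem_KS_of ρ σ (a := m) (by omega) x.1).1 x.2) (congrArg Subtype.val hx)
  · intro i x hx
    by_cases h1 : i + 1 ≤ m
    · obtain ⟨a, ha⟩ := Nat.exists_eq_add_of_le h1
      obtain ⟨η, hη, h2⟩ := verma_exact ρ σ Φ hc hd hd' hρ hσ hs hΦ i a x.1
        ((mem_KS_of ρ σ (a := a) (by omega) x.1).1 x.2) (congrArg Subtype.val hx)
      exact ⟨⟨η, (mem_KS_of ρ σ (a := a + 1) (by omega) η).2 hη⟩, Subtype.ext h2⟩
    · have hx : x = 0 := Subtype.ext ((mem_KS_gt ρ σ h1 x.1).1 x.2)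
      exact ⟨0, by rw [hx, map_zero]⟩
  · intro x
    obtain ⟨a, rfl⟩ : ∃ a, m = a + 1 := ⟨m - 1, by omega⟩
    obtain ⟨η, hη, h2⟩ := kx_surj ρ σ hd hρ a x.1
      ((mem_KS_of ρ σ (a := a + 1) (by omega) x.1).1 x.2)
    exact ⟨⟨η, (mem_KS_of ρ σ (a := a) (by omega) η).2 hη⟩, Subtype.ext h2⟩
  · intro i x hx
    by_cases h1 : i + 1 ≤ m
    · obtain ⟨a, ha⟩ := Nat.exists_eq_add_of_le h1
      have hxm := (mem_KS_of ρ σ (a := a) (by omega) x.1).1 x.2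
      rcases Nat.eq_zero_or_pos a with ha0 | ha0
      · subst ha0
        have hx0 : x = 0 := Subtype.ext (kx_exact0 ρ σ i x.1 hxm (congrArg Subtype.val hx))
        exact ⟨0, by rw [hx0, map_zero]⟩
      · obtain ⟨b, rfl⟩ : ∃ b, a = b + 1 := ⟨a - 1, by omega⟩
        obtain ⟨η, hη, h2⟩ := kx_exact ρ σ hd hρ i b x.1 hxm (congrArg Subtype.val hx)
        exact ⟨⟨η, (mem_KS_of ρ σ (a := b) (by omega) η).2 hη⟩, Subtype.ext h2⟩
    · have hx : x = 0 := Subtype.ext ((mem_KS_gt ρ σ h1 x.1).1 x.2)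
      exact ⟨0, by rw [hx, map_zero]⟩

end Complex

end ThmNX

open ThmNX

/-- **Theorem N.** If the Verma modules of `ρ` and `σ` are separated by a central idempotent of
the restricted algebra and the Euler element takes the same value on both, then
`Σ_g tr ρ(g⁻¹) tr σ(g) tr(V(g⁻¹)^m) = 0` for all `m ≥ 1`. -/
theorem theoremN {c : N → ℂ} (hc : IsCls c) {d d' : ℕ} (hd : 0 < d) (hd' : 0 < d')
    (ρ : N →* Matrix (Fin d) (Fin d) ℂ) (σ : N →* Matrix (Fin d') (Fin d') ℂ)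
    (hρ : Submodule.span ℂ (Set.range ρ) = ⊤) (hσ : Submodule.span ℂ (Set.range σ) = ⊤)
    (Φ : H0 N c →ₐ[ℂ] Module.End ℂ (PolE r (Fin d'))) (hΦ : IsVerma c σ Φ) (β : ℂ)
    (hβ : ∑ g, bb c g • ρ g = β • (1 : Matrix (Fin d) (Fin d) ℂ))
    (hβ' : ∑ g, bb c g • σ g = β • (1 : Matrix (Fin d') (Fin d') ℂ))
    (hs : CMSep N c ρ σ) (m : ℕ) (hm : 0 < m) :
    ∑ g : N, (ρ g⁻¹).trace * (σ g).trace * (((g⁻¹).1.1) ^ m).trace = 0 := by
  have h1 := KS_euler ρ σ Φ hc hd hd' hρ hσ hΦ β hβ hβ' hs m hm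
  have h2 : ∑ i ∈ Finset.range (r + 1),
      (-1 : ℂ) ^ i * i * (Module.finrank ℂ (KS ρ σ m i) : ℂ) = 0 := by
    have h3 := congrArg (fun z : ℤ => (z : ℂ)) h1
    push_cast at h3
    exact h3
  have h3 := trace_formula ρ σ hd hρ m hm
  have h4 : (∑ i ∈ Finset.range (r + 1), if i ≤ m then (-1 : ℂ) ^ i * i *
        (Module.finrank ℂ (Kia ρ σ i (m - i)) : ℂ) else 0) = 0 := by
    refine Eq.trans (Finset.sum_congr rfl fun i _ => ?_) h2
    rw [KS_finrank]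
    by_cases h : i ≤ m
    · rw [if_pos h, if_pos h]
    · rw [if_neg h, if_neg h, mul_zero]
  rw [h4] at h3
  have h5 : (d : ℂ) / (Fintype.card N : ℂ) ≠ 0 := by
    refine div_ne_zero ?_ ?_
    · exact_mod_cast hd.ne'
    · exact_mod_cast Fintype.card_ne_zero
  have h6 := neg_eq_zero.1 h3.symm
  exact (mul_eq_zero.1 h6).resolve_left h5

end

end Pool.Agent.CMFn
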