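import Pool.Agent.CMFn.VermaD
import Pool.Agent.CMFn.ThmN
import Pool.Agent.CMFn.Dich

/-! Project CMFn: consequences of Theorem N for a central idempotent of `H̄_c` (helper75). -/

namespace Pool.Agent.CMFn

open Matrix

noncomputable section

variable {r : ℕ} {N : SG r} [Fintype N]

namespace FinAX

/-- Schur: a class function acts as a scalar on an irreducible representation. -/
lemma scalar_of_cls {d : ℕ} (hd : 0 < d) (ρ : N →* Matrix (Fin d) (Fin d) ℂ)
    (hρ : Submodule.span ℂ (Set.range ρ) = ⊤) (b : N → ℂ) (hb : IsCls b) :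
    ∑ g, b g • ρ g = ((∑ g, b g * (ρ g).trace) / d) • (1 : Matrix (Fin d) (Fin d) ℂ) := by
  set S := ∑ g, b g • ρ g with hS
  have h1 : ∀ h : N, ρ h * S = S * ρ h := by
    intro h
    rw [hS, Finset.mul_sum, Finset.sum_mul]
    refine Fintype.sum_equiv (MulAut.conj h).toEquiv _ _ fun g => ?_
    rw [mul_smul_comm, smul_mul_assoc, ← map_mul, ← map_mul]
    show b g • ρ (h * g) = b (h * g * h⁻¹) • ρ (h * g * h⁻¹ * h)
    rw [hb h g, inv_mul_cancel_right]
  have h2 : ∀ A : Matrix (Fin d) (Fin d) ℂ, A * S = S * A := by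
    intro A
    have hA : A ∈ Submodule.span ℂ (Set.range ρ) := by rw [hρ]; trivial
    induction hA using Submodule.span_induction with
    | mem x hx => obtain ⟨h, rfl⟩ := hx; exact h1 h
    | zero => rw [zero_mul, mul_zero]
    | add x y _ _ hx hy => rw [add_mul, mul_add, hx, hy]
    | smul a x _ hx => rw [smul_mul_assoc, mul_smul_comm, hx]
  have : Nonempty (Fin d) := ⟨⟨0, hd⟩⟩
  have h3 : S ∈ Set.range (Matrix.scalar (Fin d) : ℂ → Matrix (Fin d) (Fin d) ℂ) := by
    rw [Matrix.mem_range_scalar_iff_commute_single']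
    intro i j
    exact h2 _
  obtain ⟨a, ha⟩ := h3
  have h4 : S = a • (1 : Matrix (Fin d) (Fin d) ℂ) := by
    rw [← ha, Matrix.smul_one_eq_diagonal]
    rfl
  have h5 : S.trace = ∑ g, b g * (ρ g).trace := by
    rw [hS, Matrix.trace_sum]
    exact Finset.sum_congr rfl fun g _ => by rw [Matrix.trace_smul, smul_eq_mul]
  have h6 : S.trace = a * d := by
    rw [h4, Matrix.trace_smul, Matrix.trace_one, Fintype.card_fin, smul_eq_mul]
  have hd0 : (d : ℂ) ≠ 0 := Nat.cast_ne_zero.2 hd.ne'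
  rw [h4, ← h5, h6, mul_div_assoc, div_self hd0, mul_one]

lemma isRefl_conj_iff (g s : N) : IsRefl (g * s * g⁻¹ : N).1 ↔ IsRefl s.1 := by
  constructor
  · intro h
    have := isRefl_conj (G := N) (g := g.1⁻¹) h
    simpa [mul_assoc] using this
  · intro h
    exact isRefl_conj (G := N) (g := g.1) h

lemma det_conj (g s : N) : (g * s * g⁻¹ : N).1.1.det = s.1.1.det := by
  show (g.1.1 * s.1.1 * (g⁻¹).1.1).det = _
  rw [Matrix.det_mul, Matrix.det_mul, mul_right_comm, ← Matrix.det_mul]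
  have : g.1.1 * (g⁻¹).1.1 = 1 := by
    show (g.1 * (g.1)⁻¹).1 = 1
    simp
  rw [this, Matrix.det_one, one_mul]

lemma bb_cls {c : N → ℂ} (hc : IsCls c) : IsCls (bb c) := by
  intro g s
  unfold bb
  by_cases h : IsRefl s.1
  · rw [if_pos h, if_pos ((isRefl_conj_iff g s).2 h), hc g s, det_conj]
  · rw [if_neg h, if_neg (fun h' => h ((isRefl_conj_iff g s).1 h'))]

/-- Equal normalised characters on the reflections: equal Euler values. -/
lemma beta_eq {c : N → ℂ} {d d' : ℕ} (hd : 0 < d) (hd' : 0 < d')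
    (ρ : N →* Matrix (Fin d) (Fin d) ℂ) (σ : N →* Matrix (Fin d') (Fin d') ℂ)
    (h : ∀ w : N, IsRefl w.1 → (ρ w).trace * (d' : ℂ) = (σ w).trace * (d : ℂ)) :
    (∑ g, bb c g * (ρ g).trace) / d = (∑ g, bb c g * (σ g).trace) / d' := by
  have hd0 : (d : ℂ) ≠ 0 := Nat.cast_ne_zero.2 hd.ne'
  have hd0' : (d' : ℂ) ≠ 0 := Nat.cast_ne_zero.2 hd'.ne'
  rw [div_eq_div_iff hd0 hd0', Finset.sum_mul, Finset.sum_mul]
  refine Finset.sum_congr rfl fun g _ => ?_
  by_cases hg : IsRefl g.1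
  · rw [mul_assoc, mul_assoc, h g hg]
  · rw [bb, if_neg hg]; ring

end FinAX

open FinAX

/-- Theorem N for the parameters `k`. -/
theorem linksN (k : Idx N → ℂ) {d d' : ℕ} (hd : 0 < d) (hd' : 0 < d')
    (ρ : N →* Matrix (Fin d) (Fin d) ℂ) (σ : N →* Matrix (Fin d') (Fin d') ℂ)
    (hρ : Submodule.span ℂ (Set.range ρ) = ⊤) (hσ : Submodule.span ℂ (Set.range σ) = ⊤)
    (hs : CMSep N (cK k) ρ σ)
    (h : ∀ w : N, IsRefl w.1 → (ρ w).trace * (d' : ℂ) = (σ w).trace * (d : ℂ))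
    (m : ℕ) (hm : 0 < m) :
    ∑ g : N, (ρ g⁻¹).trace * (σ g).trace * (((g⁻¹).1.1) ^ m).trace = 0 := by
  obtain ⟨Φ, hΦ, -⟩ := exists_verma k σ
  refine theoremN (cK_cls k) hd hd' ρ σ hρ hσ Φ hΦ _
    (scalar_of_cls hd ρ hρ _ (bb_cls (cK_cls k))) ?_ hs m hm
  rw [scalar_of_cls hd' σ hσ _ (bb_cls (cK_cls k)), beta_eq hd hd' ρ σ h]

/-- `p_ρ` is not in the left ideal generated by `V`. -/
theorem pRep_not_mem (hr : 0 < r) (k : Idx N → ℂ) {d : ℕ} (hd : 0 < d)
    (ρ : N →* Matrix (Fin d) (Fin d) ℂ) (hρ : Submodule.span ℂ (Set.range ρ) = ⊤) :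
    pRep N (cK k) ρ ∉ leftY N (cK k) := by
  intro h
  have hs : CMSep N (cK k) ρ ρ := by
    refine ⟨0, by rw [mul_zero], fun a => by rw [zero_mul, mul_zero], ?_, ?_⟩
    · rw [zero_mul, zero_sub]
      exact (leftY N (cK k)).neg_mem h
    · rw [zero_mul]
      exact (leftY N (cK k)).zero_mem
  have h1 := linksN k hd hd ρ ρ hρ hρ hs (fun w _ => rfl) (Fintype.card N) Fintype.card_pos
  have h2 : ∀ g : N, ((g⁻¹).1.1 ^ Fintype.card N).trace = (r : ℂ) := by
    intro g
    have h3 : (g⁻¹) ^ Fintype.card N = 1 := pow_card_eq_one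
    have h4 : (g⁻¹).1.1 ^ Fintype.card N = 1 := by
      have h5 : ∀ j : ℕ, ((g⁻¹) ^ j : N).1.1 = (g⁻¹).1.1 ^ j := by
        intro j
        induction j with
        | zero => rfl
        | succ j ih => rw [pow_succ, pow_succ, ← ih]; rfl
      rw [← h5, h3]
      rfl
    rw [h4, Matrix.trace_one, Fintype.card_fin]
  have h5 : ∑ g : N, (ρ g⁻¹).trace * (ρ g).trace = Fintype.card N := by
    -- `Σ_g ρ(g⁻¹) A ρ(g) = (|N|/d) tr A`
    have hA : ∀ A : Matrix (Fin d) (Fin d) ℂ, ∑ g : N, ρ g⁻¹ * A * ρ g =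
        ((Fintype.card N : ℂ) * A.trace / d) • (1 : Matrix (Fin d) (Fin d) ℂ) := by
      intro A
      set S := ∑ g : N, ρ g⁻¹ * A * ρ g with hS
      have h1 : ∀ h : N, ρ h * S = S * ρ h := by
        intro h
        rw [hS, Finset.mul_sum, Finset.sum_mul]
        refine Fintype.sum_equiv (Equiv.mulRight h⁻¹) _ _ fun g => ?_
        show ρ h * (ρ g⁻¹ * A * ρ g) = ρ (g * h⁻¹)⁻¹ * A * ρ (g * h⁻¹) * ρ h
        rw [_root_.mul_inv_rev, inv_inv, map_mul, map_mul]
        simp only [mul_assoc]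
        rw [← map_mul, inv_mul_cancel, map_one, mul_one]
      have h2 : ∀ B : Matrix (Fin d) (Fin d) ℂ, B * S = S * B := by
        intro B
        have hB : B ∈ Submodule.span ℂ (Set.range ρ) := by rw [hρ]; trivial
        induction hB using Submodule.span_induction with
        | mem x hx => obtain ⟨h, rfl⟩ := hx; exact h1 h
        | zero => rw [zero_mul, mul_zero]
        | add x y _ _ hx hy => rw [add_mul, mul_add, hx, hy]
        | smul a x _ hx => rw [smul_mul_assoc, mul_smul_comm, hx]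
      have : Nonempty (Fin d) := ⟨⟨0, hd⟩⟩
      have h3 : S ∈ Set.range (Matrix.scalar (Fin d) : ℂ → Matrix (Fin d) (Fin d) ℂ) := by
        rw [Matrix.mem_range_scalar_iff_commute_single']
        intro i j
        exact h2 _
      obtain ⟨a, ha⟩ := h3
      have h4 : S = a • (1 : Matrix (Fin d) (Fin d) ℂ) := by
        rw [← ha, Matrix.smul_one_eq_diagonal]
        rfl
      have h5 : S.trace = (Fintype.card N : ℂ) * A.trace := by
        rw [hS, Matrix.trace_sum, Finset.sum_congr rfl (g := fun _ => A.trace)]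
        · rw [Finset.sum_const, Finset.card_univ, nsmul_eq_mul]
        · intro g _
          rw [Matrix.trace_mul_comm, ← mul_assoc, ← map_mul, mul_inv_cancel, map_one, one_mul]
      have h6 : S.trace = a * d := by
        rw [h4, Matrix.trace_smul, Matrix.trace_one, Fintype.card_fin, smul_eq_mul]
      have hd0 : (d : ℂ) ≠ 0 := Nat.cast_ne_zero.2 hd.ne'
      rw [h4, ← h5, h6, mul_div_assoc, div_self hd0, mul_one]
    have hd0 : (d : ℂ) ≠ 0 := Nat.cast_ne_zero.2 hd.ne'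
    have hE : ∀ g : N, (ρ g⁻¹).trace * (ρ g).trace =
        ∑ i, ∑ j, (ρ g⁻¹ * Matrix.single i j (1 : ℂ) * ρ g : Matrix (Fin d) (Fin d) ℂ) i j := by
      intro g
      have : ∀ i j, (ρ g⁻¹ * Matrix.single i j (1 : ℂ) * ρ g : Matrix (Fin d) (Fin d) ℂ) i j =
          ρ g⁻¹ i i * ρ g j j := by
        intro i j
        rw [Matrix.mul_apply, Finset.sum_eq_single j]
        · rw [Matrix.mul_apply, Finset.sum_eq_single i]
          · simp
          · intro l _ hl
            rw [Matrix.single_apply_of_ne, mul_zero]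
            intro hh; exact hl hh.1.symm
          · intro hh; exact absurd (Finset.mem_univ _) hh
        · intro l _ hl
          rw [Matrix.mul_apply, Finset.sum_eq_zero, zero_mul]
          intro l' _
          rw [Matrix.single_apply_of_ne, mul_zero]
          intro hh; exact hl hh.2.symm
        · intro hh; exact absurd (Finset.mem_univ _) hh
      simp only [this]
      rw [Matrix.trace, Matrix.trace, Finset.sum_mul_sum]
      rfl
    rw [Finset.sum_congr rfl fun g _ => hE g, Finset.sum_comm]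
    have : ∀ i j, ∑ g : N, (ρ g⁻¹ * Matrix.single i j (1 : ℂ) * ρ g : Matrix (Fin d) (Fin d) ℂ) i j =
        if i = j then (Fintype.card N : ℂ) / d else 0 := by
      intro i j
      rw [← Matrix.sum_apply, hA, Matrix.smul_apply, Matrix.one_apply]
      by_cases hij : i = j
      · subst hij
        rw [if_pos rfl, if_pos rfl, Matrix.trace_single_eq_same, mul_one, smul_eq_mul, mul_one]
      · rw [if_neg hij, if_neg hij, smul_zero]
    rw [Finset.sum_congr rfl fun i _ => Finset.sum_comm]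
    rw [Finset.sum_congr rfl fun i _ => Finset.sum_congr rfl fun j _ => this i j]
    simp only [Finset.sum_ite_eq, Finset.mem_univ, if_true, Finset.sum_const, Finset.card_univ,
      Fintype.card_fin, nsmul_eq_mul]
    field_simp
  have h6 : ∑ g : N, (ρ g⁻¹).trace * (ρ g).trace * (((g⁻¹).1.1) ^ Fintype.card N).trace =
      (Fintype.card N : ℂ) * r := by
    rw [Finset.sum_congr rfl fun g _ => by rw [h2 g], ← Finset.sum_mul, h5]
  rw [h6] at h1
  have h7 : (Fintype.card N : ℂ) ≠ 0 := Nat.cast_ne_zero.2 Fintype.card_ne_zero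
  have h8 : (r : ℂ) ≠ 0 := Nat.cast_ne_zero.2 hr.ne'
  exact (mul_ne_zero h7 h8) h1

/-- The set of irreducible representations on whose Verma modules `e` acts as `1`. -/
def InF (k : Idx N → ℂ) (e : Hbar N (cK k)) {d : ℕ} (ρ : N →* Matrix (Fin d) (Fin d) ℂ) : Prop :=
  e * pRep N (cK k) ρ - pRep N (cK k) ρ ∈ leftY N (cK k)

theorem not_inF (hr : 0 < r) (k : Idx N → ℂ) (e : Hbar N (cK k)) {d : ℕ} (hd : 0 < d)
    (ρ : N →* Matrix (Fin d) (Fin d) ℂ) (hρ : Submodule.span ℂ (Set.range ρ) = ⊤)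
    (h : e * pRep N (cK k) ρ ∈ leftY N (cK k)) : ¬ InF k e ρ := by
  intro h1
  refine pRep_not_mem hr k hd ρ hρ ?_
  have := (leftY N (cK k)).sub_mem h h1
  rwa [sub_sub_cancel] at this

/-- A set `F_e` has no links to its complement inside a level. -/
theorem inF_links (k : Idx N → ℂ) (e : Hbar N (cK k)) (he : e * e = e)
    (hc : ∀ a, e * a = a * e) {d d' : ℕ} (hd : 0 < d) (hd' : 0 < d')
    (ρ : N →* Matrix (Fin d) (Fin d) ℂ) (σ : N →* Matrix (Fin d') (Fin d') ℂ)
    (hρ : Submodule.span ℂ (Set.range ρ) = ⊤) (hσ : Submodule.span ℂ (Set.range σ) = ⊤)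
    (h : ∀ w : N, IsRefl w.1 → (ρ w).trace * (d' : ℂ) = (σ w).trace * (d : ℂ))
    (h1 : InF k e ρ) (h2 : ¬ InF k e σ) (m : ℕ) (hm : 0 < m) :
    ∑ g : N, (ρ g⁻¹).trace * (σ g).trace * (((g⁻¹).1.1) ^ m).trace = 0 := by
  refine linksN k hd hd' ρ σ hρ hσ ⟨e, he, hc, h1, ?_⟩ h m hm
  exact (dich N (cK k) e he hc hd' σ hσ).resolve_left h2

/-- The same with the roles exchanged. -/
theorem inF_links' (k : Idx N → ℂ) (e : Hbar N (cK k)) (he : e * e = e)
    (hc : ∀ a, e * a = a * e) {d d' : ℕ} (hd : 0 < d) (hd' : 0 < d')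
    (ρ : N →* Matrix (Fin d) (Fin d) ℂ) (σ : N →* Matrix (Fin d') (Fin d') ℂ)
    (hρ : Submodule.span ℂ (Set.range ρ) = ⊤) (hσ : Submodule.span ℂ (Set.range σ) = ⊤)
    (h : ∀ w : N, IsRefl w.1 → (ρ w).trace * (d' : ℂ) = (σ w).trace * (d : ℂ))
    (h1 : ¬ InF k e ρ) (h2 : InF k e σ) (m : ℕ) (hm : 0 < m) :
    ∑ g : N, (ρ g⁻¹).trace * (σ g).trace * (((g⁻¹).1.1) ^ m).trace = 0 := by
  have h3 : e * pRep N (cK k) ρ ∈ leftY N (cK k) :=
    (dich N (cK k) e he hc hd ρ hρ).resolve_left h1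
  refine linksN k hd hd' ρ σ hρ hσ ⟨1 - e, ?_, fun a => ?_, ?_, ?_⟩ h m hm
  · rw [mul_sub, mul_one, sub_mul, one_mul, he, sub_self, sub_zero]
  · rw [sub_mul, mul_sub, one_mul, mul_one, hc]
  · rw [sub_mul, one_mul, sub_sub_cancel_left]
    exact (leftY N (cK k)).neg_mem h3
  · rw [sub_mul, one_mul, ← neg_sub]
    exact (leftY N (cK k)).neg_mem h2

end

end Pool.Agent.CMFn
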