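import Pool.Agent.CMFn.Asm
import Pool.Agent.CMFn.G8

/-! Project CMFn: links and the integral sets; the final theorem in every rank. -/

set_option linter.unusedSectionVars false

namespace Pool.Agent.CMFn

open Matrix G1 G4 Pool.Agent
open Pool.Agent.CMF (LineHol HData KZData ThmS evL mon pairC IsInt stdHData)

noncomputable section

/-! ### Transport of the links -/

section Transport

variable {r : ℕ} {G G' : Type} [Group G] [Group G'] [Fintype G] [Fintype G']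

/-- Transport of a matrix representation. -/
def MRep.map (e : G ≃* G') (a : MRep G) : MRep G' := ⟨a.1, a.2.comp e.symm.toMonoidHom⟩

theorem MRep.map_apply (e : G ≃* G') (a : MRep G) (g : G) : (a.map e).2 (e g) = a.2 g := by
  show a.2 (e.symm (e g)) = a.2 g
  rw [MulEquiv.symm_apply_apply]

theorem isIrr_map (e : G ≃* G') (a : MRep G) (h : IsIrr a.2) : IsIrr (a.map e).2 := by
  refine ⟨h.1, ?_⟩
  have h1 : Set.range (a.map e).2 = Set.range a.2 := by
    apply Set.Subset.antisymm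
    · rintro _ ⟨g, rfl⟩
      exact ⟨e.symm g, rfl⟩
    · rintro _ ⟨g, rfl⟩
      exact ⟨e g, MRep.map_apply e a g⟩
  have h2 := h.2
  rw [← h1] at h2
  exact h2

theorem sameLevel_map (e : G ≃* G') (V : G →* Matrix (Fin r) (Fin r) ℂ)
    (V' : G' →* Matrix (Fin r) (Fin r) ℂ) (hV : ∀ g, V' (e g) = V g) (a b : MRep G)
    (h : SameLevel V a b) : SameLevel V' (a.map e) (b.map e) := by
  intro g' hg'
  obtain ⟨g, rfl⟩ := e.surjective g'
  rw [hV] at hg'
  have h1 := h g hg'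
  rw [MRep.map_apply, MRep.map_apply]
  exact h1

theorem lk_map (e : G ≃* G') (V : G →* Matrix (Fin r) (Fin r) ℂ)
    (V' : G' →* Matrix (Fin r) (Fin r) ℂ) (hV : ∀ g, V' (e g) = V g) (a b : MRep G)
    (h : Lk V a b) : Lk V' (a.map e) (b.map e) := by
  obtain ⟨h1, h2, h3, m, hm, hne⟩ := h
  refine ⟨isIrr_map e a h1, isIrr_map e b h2, sameLevel_map e V V' hV a b h3, m, hm, ?_⟩
  have h4 : ∑ g : G', ((a.map e).2 g⁻¹).trace * ((b.map e).2 g).trace * ((V' g⁻¹) ^ m).trace =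
      ∑ g : G, (a.2 g⁻¹).trace * (b.2 g).trace * ((V g⁻¹) ^ m).trace := by
    rw [← e.toEquiv.sum_comp]
    refine Finset.sum_congr rfl fun g _ => ?_
    show ((a.map e).2 (e g)⁻¹).trace * ((b.map e).2 (e g)).trace * ((V' (e g)⁻¹) ^ m).trace = _
    rw [← map_inv, MRep.map_apply, MRep.map_apply, hV]
    rfl
  rw [h4]
  exact hne

theorem eqvGen_map (e : G ≃* G') (V : G →* Matrix (Fin r) (Fin r) ℂ)
    (V' : G' →* Matrix (Fin r) (Fin r) ℂ) (hV : ∀ g, V' (e g) = V g) (a b : MRep G)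
    (h : Relation.EqvGen (Lk V) a b) : Relation.EqvGen (Lk V') (a.map e) (b.map e) := by
  induction h with
  | rel x y hxy => exact Relation.EqvGen.rel _ _ (lk_map e V V' hV x y hxy)
  | refl x => exact Relation.EqvGen.refl _
  | symm x y _ ih => exact Relation.EqvGen.symm _ _ ih
  | trans x y z _ _ ih1 ih2 => exact Relation.EqvGen.trans _ _ _ ih1 ih2

end Transport

/-! ### The final theorem -/

section Main

variable {n : ℕ} {G : Type} [Group G] [Fintype G] {V : G → Matrix (Fin n) (Fin n) ℂ}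
  {Λ : Type} [Fintype Λ] {d : Λ → ℕ} {ρ : ∀ l, G → Matrix (Fin (d l)) (Fin (d l)) ℂ}

/-- A matrix representation as a homomorphism. -/
def repHom {G : Type} [Group G] {n : ℕ} {ρ : G → Matrix (Fin n) (Fin n) ℂ}
    (h : CMFP.IsRep ρ) : G →* Matrix (Fin n) (Fin n) ℂ where
  toFun := ρ
  map_one' := h.1
  map_mul' := h.2

/-- The irreducible representation `ρ_l`. -/
def mr (hρ : CMFP.IsIrrFam d ρ) (l : Λ) : MRep G := ⟨d l, repHom (hρ.1 l).2⟩

theorem isIrr_mr (hρ : CMFP.IsIrrFam d ρ) (l : Λ) : IsIrr (mr hρ l).2 :=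
  ⟨⟨⟨0, (hρ.1 l).1⟩⟩, span_of_irrFam hρ l⟩

variable {F : Type} [Field F] [Algebra F ℂ] {v₀ : Fin n → ℂ} {hV : CMFP.IsReflGroup V}
  {hρ : CMFP.IsIrrFam d ρ} {hv₀ : CMFP.Reg V v₀} {D : CMFP.StdHk F V v₀ d}
  {hN : ∃ s ∈ img hV.1, IsRefl s} [Fintype (CMFP.Idx V)]

/-- The parameters `k'` of the image are of the form `kN κ`. -/
theorem kN_surj (hV : CMFP.IsReflGroup V) (k' : Idx (img hV.1) → ℂ) :
    ∃ κ : CMFP.Idx V → ℂ, kN hV.1 hV.2.1 κ = k' := by
  refine ⟨fun i => k' (sharp (idxEquiv hV.1 hV.2.1 i)), ?_⟩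
  funext x
  show k' (sharp (idxEquiv hV.1 hV.2.1 ((idxEquiv hV.1 hV.2.1).symm (sharp x)))) = k' x
  rw [Equiv.apply_symm_apply]
  induction x using Quot.inductionOn with
  | h y =>
    obtain ⟨H, j⟩ := y
    show k' (sharp (sharp (idx H j))) = k' (idx H j)
    rw [sharp_idx, sharp_idx, neg_neg]

/-- Characters on which the full twist acts by the same monomial are in the same level. -/
theorem Asm.level (A : Asm hV hρ F v₀ hv₀ D hN)
    (hM : 0 < CMFP.mu (NumberField.RingOfIntegers F)) (l l' : Λ) (h : A.Q.a l = A.Q.a l') :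
    SameLevel (repHom hV.1) (mr hρ l) (mr hρ l') := by
  classical
  have hM0 : (CMFP.mu (NumberField.RingOfIntegers F) : ℂ) ≠ 0 := by exact_mod_cast hM.ne'
  have h1 : ∀ k' : Idx (img hV.1) → ℂ, cInf (rN hV hρ l) k' = cInf (rN hV hρ l') k' := by
    intro k'
    obtain ⟨κ, rfl⟩ := kN_surj hV k'
    have e1 := A.ha l κ
    have e2 := A.ha l' κ
    rw [h, e2] at e1
    exact (mul_left_cancel₀ hM0 e1).symm
  intro g hg
  have h2 := euler_eq' (famG hV hρ) l l' h1 (iso hV.1 hV.2.1 g) ((isRefl_iso hV.1 hV.2.1 g).2 hg)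
  have e1 : (famG hV hρ).ρ l (iso hV.1 hV.2.1 g) = ρ l g :=
    repN_iso hV.1 hV.2.1 (ρ l) (hρ.1 l).2 g
  have e2 : (famG hV hρ).ρ l' (iso hV.1 hV.2.1 g) = ρ l' g :=
    repN_iso hV.1 hV.2.1 (ρ l') (hρ.1 l').2 g
  rw [e1, e2] at h2
  exact h2

/-- The representations of the image. -/
theorem mr_map (hV : CMFP.IsReflGroup V) (hρ : CMFP.IsIrrFam d ρ) (l : Λ) :
    (mr hρ l).map (iso hV.1 hV.2.1) = ⟨d l, rN hV hρ l⟩ := by
  unfold mr MRep.map rN
  refine congrArg (Sigma.mk (d l)) (MonoidHom.ext fun g => ?_)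
  rfl

/-- The links of the image. -/
theorem inF_of_eqvGen' (hV : CMFP.IsReflGroup V) (hρ : CMFP.IsIrrFam d ρ)
    (k : Idx (img hV.1) → ℂ) (e : Hbar (img hV.1) (cK k)) (he : e * e = e)
    (hc : ∀ a, e * a = a * e) (l l' : Λ)
    (h : Relation.EqvGen (Lk (repHom hV.1)) (mr hρ l) (mr hρ l')) :
    InF k e (rN hV hρ l) ↔ InF k e (rN hV hρ l') := by
  have h1 := eqvGen_map (iso hV.1 hV.2.1) (repHom hV.1) (inclN (img hV.1)) (fun _ => rfl) _ _ h
  rw [mr_map hV, mr_map hV] at h1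
  have h2 := inF_of_eqvGen k e he hc _ _ h1
  exact h2

/-- The final step: the sets of the central idempotents are integral. -/
theorem rank_core (A : Asm hV hρ F v₀ hv₀ D hN)
    (hF : (algebraMap F ℂ).fieldRange = Subfield.closure (Set.range fun g => (V g).trace))
    (S : CMFP.SchurForm F D.schurElt) (k κ : CMFP.Idx V → ℂ)
    (hκ : ∀ s hs j, κ (CMFP.idx V s hs j) = k (CMFP.idx V s hs (-j)))
    (m : CMFP.Idx V → ℤ) (hm : CMFP.SameEssential S κ m) (χ ψ : Λ)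
    (h : CMFP.CMSep V (CMFP.cPar V V k) (ρ χ) (ρ ψ)) (C : (CMFP.Idx V →₀ ℤ) → Prop)
    (hI : ∀ e : Hbar (img hV.1) (cK (par hV.1 hV.2.1 k)), e * e = e → (∀ a, e * a = a * e) →
      IsInt A.Q C (fun l => InF (par hV.1 hV.2.1 k) e (rN hV hρ l))) :
    D.RouSep m χ ψ := by
  classical
  have hd : ∀ l, 0 < d l := fun l => (hρ.1 l).1
  have hM := CMFP.mu_pos hV.1 F hF
  have hn : 0 < n := by
    obtain ⟨s, -, hs⟩ := hN
    rcases Nat.eq_zero_or_pos n with h0 | h0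
    · subst h0
      have h1 : (s.1 - 1).rank ≤ Fintype.card (Fin 0) := Matrix.rank_le_card_height _
      have h2 : (s.1 - 1).rank = 1 := hs
      rw [h2, Fintype.card_fin] at h1
      omega
    · exact h0
  -- the Calogero-Moser side
  obtain ⟨e, he, hc, h1, h2⟩ : CMSep (img hV.1) (cK (par hV.1 hV.2.1 k))
      (rN hV hρ χ) (rN hV hρ ψ) := by
    refine cmSep_of V (img hV.1) (iso hV.1 hV.2.1) (iso_val hV.1 hV.2.1) (CMFP.cPar V V k) _
      ?_ ?_ (ρ χ) (ρ ψ) _ _ ?_ ?_ h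
    · intro g _
      exact (cPar_eq hV.1 hV.2.1 k g).symm
    · intro g hg
      rw [isRefl_iso] at hg
      unfold CMFP.cPar
      rw [dif_neg hg]
    · exact repN_iso hV.1 hV.2.1 (ρ χ) (hρ.1 χ).2
    · exact repN_iso hV.1 hV.2.1 (ρ ψ) (hρ.1 ψ).2
  have hsp : ∀ l, Submodule.span ℂ (Set.range (rN hV hρ l)) = ⊤ := fun l =>
    span_of_irrFam' hρ l (iso hV.1 hV.2.1).symm _ fun g => rfl
  have hψ : ¬ InF (par hV.1 hV.2.1 k) e (rN hV hρ ψ) :=
    not_inF hn (par hV.1 hV.2.1 k) e (hd ψ) (rN hV hρ ψ) (hsp ψ) h2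
  obtain ⟨Ft, hdec, z, hz, hF1, hF2⟩ :=
    exists_sepWord' (famG hV hρ) (par hV.1 hV.2.1 k) e he hc
  have hFt : ∀ l, Ft l ↔ InF (par hV.1 hV.2.1 k) e (rN hV hρ l) := by
    intro l
    constructor
    · intro h3
      rcases dich (img hV.1) (cK (par hV.1 hV.2.1 k)) e he hc (hd l) (rN hV hρ l) (hsp l) with
        h4 | h4
      · exact h4
      · exact absurd h3 (hF2 l h4)
    · exact hF1 l
  have hkN : kN hV.1 hV.2.1 κ = par hV.1 hV.2.1 k := kN_of hV.1 hV.2.1 k κ hκ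
  have hS : ThmS (stdHData D hd) A.Q Ft κ := by
    refine thmS_abs' hN (famG hV hρ) (stdHData D hd) A.Q (kNL hV) id (fun _ => rfl) A.Φ A.surj
      (CMFP.hT _ (CMFP.var _)) ?_ κ Ft z ?_ Ft (fun _ => Iff.rfl)
    · intro κ' l b p q
      exact congrFun (congrFun (A.hQ κ' l b) p) q
    · show SepWord (famG hV hρ) (kN hV.1 hV.2.1 κ) Ft z
      rw [hkN]
      exact hz
  exact CMF.rouSep_gen D hd S (CMF.countable_int (fun g => (V g).trace) hF) CMF.inj_int hM A.Q Ft C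
    ((hI e he hc).congr fun l => (hFt l).symm) κ m hm hS χ ψ ((hFt χ).2 h1)
    (fun h3 => hψ ((hFt ψ).1 h3))

/-- The theorem when every class of linked characters is integral. -/
theorem rank_sep (A : Asm hV hρ F v₀ hv₀ D hN)
    (hF : (algebraMap F ℂ).fieldRange = Subfield.closure (Set.range fun g => (V g).trace))
    (S : CMFP.SchurForm F D.schurElt) (k κ : CMFP.Idx V → ℂ)
    (hκ : ∀ s hs j, κ (CMFP.idx V s hs j) = k (CMFP.idx V s hs (-j)))
    (m : CMFP.Idx V → ℤ) (hm : CMFP.SameEssential S κ m) (χ ψ : Λ)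
    (h : CMFP.CMSep V (CMFP.cPar V V k) (ρ χ) (ρ ψ)) (C : (CMFP.Idx V →₀ ℤ) → Prop)
    (hI : ∀ l₀ : Λ, ∃ G' : Λ → Prop, G' l₀ ∧
      (∀ l, G' l → Relation.EqvGen (Lk (repHom hV.1)) (mr hρ l₀) (mr hρ l)) ∧
      IsInt A.Q C G') :
    D.RouSep m χ ψ := by
  refine rank_core A hF S k κ hκ m hm χ ψ h C fun e he hc => ?_
  refine CMF.isInt_of_cover fun l₀ hl₀ => ?_
  obtain ⟨G', h1, h2, h3⟩ := hI l₀
  refine ⟨G', h1, fun l hl => ?_, h3⟩
  exact (inF_of_eqvGen' hV hρ _ e he hc l₀ l (h2 l hl)).1 hl₀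

end Main

section Final

variable {n : ℕ} {G : Type} [Group G] [Fintype G] {V : G → Matrix (Fin n) (Fin n) ℂ}
  {Λ : Type} [Fintype Λ] {d : Λ → ℕ} {ρ : ∀ l, G → Matrix (Fin (d l)) (Fin (d l)) ℂ}
  {F : Type} [Field F] [Algebra F ℂ] {v₀ : Fin n → ℂ}

/-- Martino's conjecture for groups whose levels are connected by links, `K = ℂ`. -/
theorem rank_main (hn : 2 ≤ n) (hV : CMFP.IsReflGroup V) (hρ : CMFP.IsIrrFam d ρ)
    (hconn : Conn (repHom hV.1))
    (hF : (algebraMap F ℂ).fieldRange = Subfield.closure (Set.range fun g => (V g).trace))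
    (hv₀ : CMFP.Reg V v₀) (D : CMFP.StdHk F V v₀ d) (hD : D.Specialises ρ)
    (S : CMFP.SchurForm F D.schurElt) (k κ : CMFP.Idx V → ℂ)
    (hκ : ∀ s hs j, κ (CMFP.idx V s hs j) = k (CMFP.idx V s hs (-j)))
    (m : CMFP.Idx V → ℤ) (hm : CMFP.SameEssential S κ m) (χ ψ : Λ)
    (h : CMFP.CMSep V (CMFP.cPar V V k) (ρ χ) (ρ ψ)) : D.RouSep m χ ψ := by
  classical
  have hfin : Finite (CMFP.Idx V) := CMF.idx_finite hV.1
  letI : Fintype (CMFP.Idx V) := Fintype.ofFinite _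
  have hM := CMFP.mu_pos hV.1 F hF
  have hN := exists_refl hn hV
  obtain ⟨A⟩ := exists_asm hV hρ hF hv₀ D hD hN
  refine rank_sep A hF S k κ hκ m hm χ ψ h (fun _ => True) fun l₀ => ?_
  refine ⟨fun l => A.Q.a l₀ = A.Q.a l, rfl, fun l hl => ?_, ?_⟩
  · exact hconn _ _ (isIrr_mr hρ l₀) (isIrr_mr hρ l) (A.level hM l₀ l hl)
  · refine CMF.isInt_class (fun l l' hll => ?_) fun _ _ _ => trivial
    show A.Q.a l₀ = A.Q.a l ↔ A.Q.a l₀ = A.Q.a l'
    rw [hll]

end Final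

end

end Pool.Agent.CMFn
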