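import Pool.Agent.CMFn.FinC

/-! Project CMFn: groups with isolated characters. -/

set_option linter.unusedSectionVars false

namespace Pool.Agent.CMFn

open Matrix G1 G4 Pool.Agent
open Pool.Agent.CMF (LineHol HData KZData ThmS evL mon pairC IsInt stdHData)

noncomputable section

/-- Every level is connected by links, up to the representations in `X`. -/
def ConnX {r : ℕ} {G : Type} [Group G] [Fintype G] (V : G →* Matrix (Fin r) (Fin r) ℂ)
    (X : MRep G → Prop) : Prop :=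
  ∀ a b : MRep G, IsIrr a.2 → IsIrr b.2 → SameLevel V a b → ¬ X a → ¬ X b →
    Relation.EqvGen (Lk V) a b

section Main

variable {n : ℕ} {G : Type} [Group G] [Fintype G] {V : G → Matrix (Fin n) (Fin n) ℂ}
  {Λ : Type} [Fintype Λ] {d : Λ → ℕ} {ρ : ∀ l, G → Matrix (Fin (d l)) (Fin (d l)) ℂ}
  {F : Type} [Field F] [Algebra F ℂ] {v₀ : Fin n → ℂ} {hV : CMFP.IsReflGroup V}
  {hρ : CMFP.IsIrrFam d ρ} {hv₀ : CMFP.Reg V v₀} {D : CMFP.StdHk F V v₀ d}
  {hN : ∃ s ∈ img hV.1, IsRefl s} [Fintype (CMFP.Idx V)]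

/-- The theorem when the exceptional characters are isolated: `{l}` is integral for every `l` in
`X`. -/
theorem rank_split (A : Asm hV hρ F v₀ hv₀ D hN) (X : MRep G → Prop)
    (hconn : ConnX (repHom hV.1) X)
    (hF : (algebraMap F ℂ).fieldRange = Subfield.closure (Set.range fun g => (V g).trace))
    (S : CMFP.SchurForm F D.schurElt) (k κ : CMFP.Idx V → ℂ)
    (hκ : ∀ s hs j, κ (CMFP.idx V s hs j) = k (CMFP.idx V s hs (-j)))
    (m : CMFP.Idx V → ℤ) (hm : CMFP.SameEssential S κ m) (χ ψ : Λ)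
    (h : CMFP.CMSep V (CMFP.cPar V V k) (ρ χ) (ρ ψ))
    (hX : ∀ l : Λ, X (mr hρ l) → IsInt A.Q (fun _ => True) (fun l' => l' = l)) :
    D.RouSep m χ ψ := by
  classical
  have hM := CMFP.mu_pos hV.1 F hF
  refine rank_sep A hF S k κ hκ m hm χ ψ h (fun _ => True) fun l₀ => ?_
  by_cases h0 : X (mr hρ l₀)
  · exact ⟨fun l => l = l₀, rfl, fun l hl => by rw [hl]; exact Relation.EqvGen.refl _, hX l₀ h0⟩
  · refine ⟨fun l => A.Q.a l₀ = A.Q.a l ∧ ¬ X (mr hρ l), ⟨rfl, h0⟩, fun l hl => ?_, ?_⟩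
    · exact hconn _ _ (isIrr_mr hρ l₀) (isIrr_mr hρ l) (A.level hM l₀ l hl.1) h0 hl.2
    · refine CMF.IsInt.inter ?_ ?_
      · refine CMF.isInt_class (fun l l' hll => ?_) fun _ _ _ => trivial
        show A.Q.a l₀ = A.Q.a l ↔ A.Q.a l₀ = A.Q.a l'
        rw [hll]
      · refine (CMF.isInt_iUnion (Finset.univ.filter fun l : Λ => X (mr hρ l))
          (fun (l : Λ) (l' : (stdHData D fun l => (hρ.1 l).1).Λ) => l' = l)
          (fun l hl => hX l (Finset.mem_filter.1 hl).2)).compl.congr fun l => ?_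
        constructor
        · intro h1 h2
          exact h1 ⟨l, Finset.mem_filter.2 ⟨Finset.mem_univ _, h2⟩, rfl⟩
        · rintro h1 ⟨i, hi, rfl⟩
          exact h1 (Finset.mem_filter.1 hi).2

end Main

end

end Pool.Agent.CMFn
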