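import Pool.Agent.CMFn.G1
import Pool.Agent.CMFn.BRefl

/-! Project CMF, Glue 3: the pairs `(g, f)` of the presentation and the braid group of the image of
`G` in `GL_r(ℂ)`. -/

namespace Pool.Agent.CMFn

open Matrix unitInterval

noncomputable section

namespace G3

open G1

variable {r : ℕ} {G : Type} [Group G] {V : G → Matrix (Fin r) (Fin r) ℂ}

/-- The element of the image. -/
def el (hV : CMFP.IsRep V) (g : G) : img hV := ⟨toGL hV g, g, rfl⟩

lemma el_val (hV : CMFP.IsRep V) (g : G) : (el hV g).1.1 = V g := rfl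

lemma el_one (hV : CMFP.IsRep V) : el hV 1 = 1 := Subtype.ext (map_one _)

lemma el_mul (hV : CMFP.IsRep V) (g h : G) : el hV (g * h) = el hV g * el hV h :=
  Subtype.ext (map_mul _ _ _)

lemma el_surj (hV : CMFP.IsRep V) (a : img hV) : ∃ g, el hV g = a := by
  obtain ⟨a, g, rfl⟩ := a
  exact ⟨g, rfl⟩

lemma reg_iff (hV : CMFP.IsRep V) (u : Fin r → ℂ) :
    CMFP.Reg V u ↔ ∀ g ∈ img hV, IsRefl g → g.1 *ᵥ u ≠ u := by
  constructor
  · rintro h _ ⟨s, rfl⟩ hs
    exact h s ((isRefl_iff hV s).1 hs)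
  · intro h s hs
    exact h (toGL hV s) ⟨s, rfl⟩ ((isRefl_iff hV s).2 hs)

variable (hV : CMFP.IsRep V) {v₀ : Fin r → ℂ} (v : VReg (img hV)) (hv : v.1 = v₀)

/-- The path of a pair, in the complement of the reflecting lines. -/
def bf (a : CMFP.BP V v₀) : C(I, VReg (img hV)) :=
  ⟨fun t => ⟨a.f t.1, (reg_iff hV _).1 (a.reg t.1 t.2)⟩,
    Continuous.subtype_mk (continuousOn_iff_continuous_domRestrict.1 a.cont) _⟩

lemma bf_val (a : CMFP.BP V v₀) (t : I) : (bf hV a t).1 = a.f t.1 := rfl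

/-- The pair `(g, f)` as a `BPath`. -/
def bp (a : CMFP.BP V v₀) : BPath (img hV) v where
  g := el hV a.g
  f := bf hV a
  h0 := by
    apply Subtype.ext
    rw [bf_val, Set.Icc.coe_zero, a.start, hv]
  h1 := by
    apply Subtype.ext
    rw [bf_val, Set.Icc.coe_one, a.stop, smul_val, el_val, hv]

/-- The braid of a pair `(g, f)`. -/
def br (a : CMFP.BP V v₀) : Braid (img hV) v := Quotient.mk _ (bp hV v hv a)

lemma br_eq_of (a : CMFP.BP V v₀) (b : BPath (img hV) v) (hg : el hV a.g = b.g)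
    (h : ∀ t : I, a.f t.1 = (b.f t).1) : br hV v hv a = Quotient.mk _ b := by
  refine Quotient.sound ⟨hg, ?_⟩
  have h1 : (bp hV v hv a).f = b.f := ContinuousMap.ext fun t => Subtype.ext (h t)
  rw [h1]
  exact ContinuousMap.HomotopicRel.refl _

theorem br_homot (a b : CMFP.BP V v₀) (h : CMFP.Homot a b) : br hV v hv a = br hV v hv b := by
  obtain ⟨hg, F, hc, hr, hF⟩ := h
  refine Quotient.sound ⟨congrArg (el hV) hg, ⟨⟨⟨⟨fun p => ⟨F (p.1.1, p.2.1),
    (reg_iff hV _).1 (hr (p.1.1, p.2.1)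
      ⟨⟨p.1.2.1, p.2.2.1⟩, ⟨p.1.2.2, p.2.2.2⟩⟩)⟩, ?_⟩, ?_, ?_⟩, ?_⟩⟩⟩
  · refine Continuous.subtype_mk ?_ _
    have h1 : Continuous fun p : I × I => ((p.1.1, p.2.1) : ℝ × ℝ) := by fun_prop
    exact hc.comp_continuous h1 fun p => ⟨⟨p.1.2.1, p.2.2.1⟩, ⟨p.1.2.2, p.2.2.2⟩⟩
  · intro t
    apply Subtype.ext
    exact (hF t.1 t.2).1
  · intro t
    apply Subtype.ext
    exact (hF t.1 t.2).2.1
  · intro t x hx
    apply Subtype.ext
    rcases hx with rfl | hx
    · show F (t.1, ((0 : I) : ℝ)) = a.f ((0 : I) : ℝ)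
      rw [Set.Icc.coe_zero, (hF t.1 t.2).2.2.1, a.start]
    · rw [Set.mem_singleton_iff] at hx
      subst hx
      show F (t.1, ((1 : I) : ℝ)) = a.f ((1 : I) : ℝ)
      rw [Set.Icc.coe_one, (hF t.1 t.2).2.2.2, a.stop]

theorem br_one (a : CMFP.BP V v₀) (hg : a.g = 1) (h : ∀ t ∈ Set.Icc (0 : ℝ) 1, a.f t = v₀) :
    br hV v hv a = 1 := by
  refine br_eq_of hV v hv a (BPath.one _ _) ?_ ?_
  · rw [hg, el_one]
    rfl
  · intro t
    rw [h t.1 t.2, ← hv]
    rfl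

theorem br_mul (a b c : CMFP.BP V v₀) (hg : c.g = a.g * b.g)
    (h1 : ∀ t ∈ Set.Icc (0 : ℝ) (1 / 2), c.f t = a.f (2 * t))
    (h2 : ∀ t ∈ Set.Icc (1 / 2 : ℝ) 1, c.f t = V a.g *ᵥ b.f (2 * t - 1)) :
    br hV v hv c = br hV v hv a * br hV v hv b := by
  refine br_eq_of hV v hv c ((bp hV v hv a).mul (bp hV v hv b)) ?_ ?_
  · rw [hg, el_mul]
    rfl
  · intro t
    rw [BraidX.mul_f, Path.trans_apply]
    split_ifs with h
    · exact h1 t.1 ⟨t.2.1, h⟩
    · exact h2 t.1 ⟨(not_le.1 h).le, t.2.2⟩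

theorem br_proj (hi : Function.Injective V) (b : CMFP.BP V v₀) :
    Braid.proj (br hV v hv b) = iso hV hi b.g := rfl

theorem br_surj : Function.Surjective (br hV v hv) := by
  intro B
  induction B using Quotient.inductionOn with
  | h b =>
    obtain ⟨s, hs⟩ := el_surj hV b.g
    refine ⟨{ g := s
              f := fun t => (b.f (Set.projIcc 0 1 zero_le_one t)).1
              cont := ?_
              reg := ?_
              start := ?_
              stop := ?_ }, ?_⟩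
    · refine Continuous.continuousOn ?_
      exact continuous_subtype_val.comp (b.f.continuous.comp continuous_projIcc)
    · intro t _
      exact (reg_iff hV _).2 (b.f _).2
    · rw [Set.projIcc_left]
      show (b.f 0).1 = v₀
      rw [b.h0, hv]
    · rw [Set.projIcc_right]
      show (b.f 1).1 = V s *ᵥ v₀
      rw [b.h1, smul_val, ← hs, el_val, hv]
    · refine br_eq_of hV v hv _ b hs ?_
      intro t
      show (b.f (Set.projIcc 0 1 zero_le_one t.1)).1 = (b.f t).1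
      rw [Set.projIcc_val]

/-- A reflection `t` fixing the fixed points of the reflection `s` has the same fixed points. -/
lemma fix_eq (hV : CMFP.IsRep V) (s t : G) (hs : CMFP.IsRefl V s) (ht : CMFP.IsRefl V t)
    (h : CMFP.Fixes V s t) : fixL (toGL hV t) = fixL (toGL hV s) := by
  have hd : ∀ g : G, CMFP.IsRefl V g → Module.finrank ℂ (fixL (toGL hV g)) = r - 1 := by
    intro g hg
    have h2 := LinearMap.finrank_range_add_finrank_ker (Matrix.toLin' ((toGL hV g).1 - 1))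
    have h3 : Module.finrank ℂ (LinearMap.range (Matrix.toLin' ((toGL hV g).1 - 1))) = 1 := hg
    rw [h3, Module.finrank_fintype_fun_eq_card, Fintype.card_fin] at h2
    unfold fixL
    omega
  refine (Submodule.eq_of_le_of_finrank_eq ?_ (by rw [hd s hs, hd t ht])).symm
  intro v hv
  exact (mem_fix _ _).2 (h v ((mem_fix _ _).1 hv))

lemma rot_eq (hV : CMFP.IsRep V) (hi : Function.Injective V) (s : G) (hs : CMFP.IsRefl V s)
    (t : ℝ) : CMFP.rot V s t =
      Complex.exp (2 * Real.pi * Complex.I * (t : ℝ) / eH (img hV) (lineOf hV ⟨s, hs⟩).1) := by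
  unfold CMFP.rot
  rw [show CMFP.ordH V s = eH (img hV) (lineOf hV ⟨s, hs⟩).1 from ordH_eq hV hi ⟨s, hs⟩]

theorem br_refl [Finite G] (hR : CMFP.IsReflGroup V) (v : VReg (img hR.1)) (hv : v.1 = v₀)
    (b : CMFP.BP V v₀) (hs : CMFP.IsRefl V b.g) (hb : CMFP.IsBraidRefl b) :
    IsBraidRefl (lineOf hR.1 ⟨b.g, hs⟩) (br hR.1 v hv b) := by
  obtain ⟨hdet, h, ν, hh, hν, hdisc, hf1, hf2⟩ := hb
  have hr := rot_eq hR.1 hR.2.1 b.g hs
  have hr1 : CMFP.rot V b.g 1 =
      Complex.exp (2 * Real.pi * Complex.I / eH (img hR.1) (lineOf hR.1 ⟨b.g, hs⟩).1) := by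
    rw [hr 1, Complex.ofReal_one, mul_one]
  have hq : ∀ t : ℝ, 0 ≤ t → t ≤ 1 → t / 4 ∈ Set.Icc (0 : ℝ) 1 := fun t h0 h1 =>
    ⟨by linarith, by linarith⟩
  have hq' : ∀ t : ℝ, 0 ≤ t → t ≤ 1 → 1 / 4 + t / 4 ∈ Set.Icc (0 : ℝ) 1 := fun t h0 h1 =>
    ⟨by linarith, by linarith⟩
  have hx : b.f (1 / 4) = h + ν := by
    rw [hf1 (1 / 4) ⟨le_rfl, by norm_num⟩, hr]
    rw [show (4 * (1 / 4) - 1 : ℝ) = 0 by norm_num, Complex.ofReal_zero, mul_zero, zero_div,
      Complex.exp_zero, one_smul]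
  have hy : b.f (1 / 2) = V b.g *ᵥ b.f (1 / 4) := by
    rw [hf2 (1 / 2) ⟨le_rfl, by norm_num⟩]
    norm_num
  let x : VReg (img hR.1) := ⟨b.f (1 / 4), (reg_iff hR.1 _).1 (b.reg _ ⟨by norm_num, by norm_num⟩)⟩
  let p : Path v x :=
    { toFun := fun t => bf hR.1 b ⟨t.1 / 4, hq _ t.2.1 t.2.2⟩
      continuous_toFun := (bf hR.1 b).continuous.comp (by fun_prop)
      source' := by
        apply Subtype.ext
        show b.f (((0 : I) : ℝ) / 4) = v.1
        rw [Set.Icc.coe_zero, zero_div, b.start, hv]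
      target' := by
        apply Subtype.ext
        show b.f (((1 : I) : ℝ) / 4) = b.f (1 / 4)
        rw [Set.Icc.coe_one] }
  let a : Path x (el hR.1 b.g • x) :=
    { toFun := fun t => bf hR.1 b ⟨1 / 4 + t.1 / 4, hq' _ t.2.1 t.2.2⟩
      continuous_toFun := (bf hR.1 b).continuous.comp (by fun_prop)
      source' := by
        apply Subtype.ext
        show b.f (1 / 4 + ((0 : I) : ℝ) / 4) = b.f (1 / 4)
        rw [Set.Icc.coe_zero, zero_div, add_zero]
      target' := by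
        apply Subtype.ext
        show b.f (1 / 4 + ((1 : I) : ℝ) / 4) = V b.g *ᵥ b.f (1 / 4)
        rw [Set.Icc.coe_one, ← hy]
        norm_num }
  refine ⟨el hR.1 b.g, ?_, ?_, h, ν, ?_, ?_, ?_, x, hx, ?_, p, a, ?_, ?_⟩
  · intro w hw
    exact (mem_line hR.1 ⟨b.g, hs⟩ w).1 hw
  · rw [el_val, hdet, hr1]
  · exact (mem_line hR.1 ⟨b.g, hs⟩ h).2 hh
  · rintro _ ⟨g, rfl⟩ hg he
    have hg' := (isRefl_iff hR.1 g).1 hg
    refine fix_eq hR.1 b.g g hs hg' (hdisc 0 (by simp) g hg' ?_).2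
    rw [zero_smul, add_zero]
    exact he
  · rw [el_val, hν, hr1]
  · rintro z hz0 hz1 _ ⟨g, rfl⟩ hg he
    have h1 := (hdisc z hz1 g ((isRefl_iff hR.1 g).1 hg) he).1
    rw [h1, norm_zero] at hz0
    exact lt_irrefl _ hz0
  · intro t
    show b.f (1 / 4 + t.1 / 4) = _
    rw [hf1 _ ⟨by have := t.2.1; linarith, by have := t.2.2; linarith⟩, hr]
    congr 4
    push_cast
    ring
  · refine br_eq_of hR.1 v hv b _ rfl ?_
    intro t
    show b.f t.1 = (((p.trans a).trans (p.symm.map (continuous_const_smul (el hR.1 b.g)))) t).1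
    rw [Path.trans_apply]
    split_ifs with h1
    · rw [Path.trans_apply]
      split_ifs with h2
      · show b.f t.1 = b.f ((2 * (2 * t.1)) / 4)
        congr 1
        ring
      · show b.f t.1 = b.f (1 / 4 + (2 * (2 * t.1) - 1) / 4)
        congr 1
        ring
    · show b.f t.1 = V b.g *ᵥ b.f ((1 - (2 * t.1 - 1)) / 4)
      rw [hf2 _ ⟨(not_le.1 h1).le, t.2.2⟩]
      congr 2
      ring

end G3

open G1 G3 in
/-- The map from the pairs of the presentation to the braid group of the image. -/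
theorem G3.exists_br {r : ℕ} {G : Type} [Group G] [Finite G] {V : G → Matrix (Fin r) (Fin r) ℂ}
    (hV : CMFP.IsReflGroup V) {v₀ : Fin r → ℂ} (v : VReg (img hV.1)) (hv : v.1 = v₀) :
    ∃ Φ : CMFP.BP V v₀ → Braid (img hV.1) v,
      (∀ a b, CMFP.Homot a b → Φ a = Φ b) ∧
      (∀ a : CMFP.BP V v₀, a.g = 1 → (∀ t ∈ Set.Icc (0 : ℝ) 1, a.f t = v₀) → Φ a = 1) ∧
      (∀ a b c : CMFP.BP V v₀, c.g = a.g * b.g →
        (∀ t ∈ Set.Icc (0 : ℝ) (1 / 2), c.f t = a.f (2 * t)) →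
        (∀ t ∈ Set.Icc (1 / 2 : ℝ) 1, c.f t = V a.g *ᵥ b.f (2 * t - 1)) → Φ c = Φ a * Φ b) ∧
      (∀ (b : CMFP.BP V v₀) (hs : CMFP.IsRefl V b.g), CMFP.IsBraidRefl b →
        IsBraidRefl (lineOf hV.1 ⟨b.g, hs⟩) (Φ b)) ∧
      (∀ b, Braid.proj (Φ b) = iso hV.1 hV.2.1 b.g) ∧ Function.Surjective Φ ∧
      ∀ (a : CMFP.BP V v₀) (b : BPath (img hV.1) v), toGL hV.1 a.g = b.g.1 →
        (∀ t : I, a.f t.1 = (b.f t).1) → Φ a = Quotient.mk _ b :=
  ⟨br hV.1 v hv, br_homot hV.1 v hv, br_one hV.1 v hv, br_mul hV.1 v hv, br_refl hV v hv,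
    br_proj hV.1 v hv hV.2.1, br_surj hV.1 v hv,
    fun a b hg h => br_eq_of hV.1 v hv a b (Subtype.ext hg) h⟩

end

end Pool.Agent.CMFn
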