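import Pool.Agent.CMFn.LocMonB
import Pool.Agent.CMFn.Curve
import Pool.Agent.CMF.ODE1
import Pool.Agent.CMF.ODE2
import Pool.Agent.CMFn.DunB

/-! Project CMFn (every rank), local monodromy, part C: the fundamental solution in the coordinate `w = log z` and the
transport along the arc. -/

namespace Pool.Agent.CMFn.LocMonX

open Matrix Complex

open Pool.Agent.CMF (exists_ode ode_unique)

noncomputable section

variable {r : ℕ} {N : SG r} [Fintype N] {ι : Type} [Fintype ι] [DecidableEq ι]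

/-- The fundamental solution in the coordinate `w = log z` and the transport along the arc. -/
theorem exists_X (hN : ∃ s ∈ N, IsRefl s) (ρ : N →* Matrix ι ι ℂ) (k : Idx N → ℂ) (H : Arr N)
    (s : N) (hs : ∀ v ∈ H.1, s.1.1 *ᵥ v = v) (h ν : Fin r → ℂ) (hh : h ∈ H.1) (R : ℝ) (hR : 1 < R)
    (hsν : s.1.1 *ᵥ ν = exp (2 * Real.pi * I / eH N H.1) • ν) (x : VReg N) (hx : x.1 = h + ν)
    (hreg : ∀ z : ℂ, 0 < ‖z‖ → ‖z‖ < R → ∀ g ∈ N, IsRefl g → g.1 *ᵥ (h + z • ν) ≠ h + z • ν)
    (hom : ∀ z : ℂ, 0 < ‖z‖ → ‖z‖ < R →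
        om ρ k (h + z • ν) (z • ν) = aH ρ k H + z • BH ρ k H h ν z)
    (hB : ∀ p q, DifferentiableOn ℂ (fun z => BH ρ k H h ν z p q) (Metric.ball 0 R))
    (a : Path x (s • x))
    (ha : ∀ t : unitInterval, (a t).1 = h + exp (2 * Real.pi * I * (t : ℝ) / eH N H.1) • ν) :
    ∃ X : ℂ → Matrix ι ι ℂ, X 0 = 1 ∧
      (∀ w : ℂ, w.re < Real.log R → IsUnit (X w)) ∧
      (∀ w : ℂ, w.re < Real.log R → ∀ p q, HasDerivAt (fun w => X w p q)
        (((aH ρ k H + exp w • BH ρ k H h ν (exp w)) * X w) p q) w) ∧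
      PP hN ρ k a.toContinuousMap = X (2 * Real.pi * I / eH N H.1) ∧
      ∀ w : ℂ, w.re < Real.log R → X (w + 2 * Real.pi * I / eH N H.1) =
        ρ s * X w * ρ s⁻¹ * X (2 * Real.pi * I / eH N H.1) := by
  have hR0 : 0 < Real.log R := Real.log_pos hR
  set τ : ℂ := 2 * Real.pi * I / eH N H.1 with hτ
  have hτre : τ.re = 0 := by
    have : τ = ((2 * Real.pi / eH N H.1 : ℝ) : ℂ) * I := by
      rw [hτ]; push_cast; ring
    rw [this]
    simp
  set U : Set ℂ := {w | w.re < Real.log R} with hU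
  have hUo : IsOpen U := isOpen_lt Complex.continuous_re continuous_const
  have hUc : Convex ℝ U := convex_halfSpace_re_lt _
  have hexp : ∀ w ∈ U, 0 < ‖exp w‖ ∧ ‖exp w‖ < R := by
    intro w hw
    rw [Complex.norm_exp]
    refine ⟨Real.exp_pos _, ?_⟩
    rw [← Real.exp_log (lt_trans one_pos hR)]
    exact Real.exp_lt_exp.2 hw
  have hBd : ∀ p q, DifferentiableOn ℂ
      (fun w => (aH ρ k H + exp w • BH ρ k H h ν (exp w)) p q) U := by
    intro p q
    have h1 : DifferentiableOn ℂ (fun w => BH ρ k H h ν (exp w) p q) U := by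
      refine (hB p q).comp (Complex.differentiable_exp.differentiableOn) ?_
      intro w hw
      rw [Metric.mem_ball, dist_zero_right]
      exact (hexp w hw).2
    have h2 : (fun w => (aH ρ k H + exp w • BH ρ k H h ν (exp w)) p q) =
        fun w => aH ρ k H p q + exp w * BH ρ k H h ν (exp w) p q := by
      funext w
      rw [Matrix.add_apply, Matrix.smul_apply, smul_eq_mul]
    rw [h2]
    exact (differentiableOn_const _).add (Complex.differentiable_exp.differentiableOn.mul h1)
  obtain ⟨X, hX0, hXd, hXu⟩ := exists_ode U hUo hUc 0 (by simpa [hU] using hR0) _ hBd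
  have hom' : ∀ w ∈ U, om ρ k (h + exp w • ν) (exp w • ν) =
      aH ρ k H + exp w • BH ρ k H h ν (exp w) := fun w hw => hom _ (hexp w hw).1 (hexp w hw).2
  have hdet : ∀ {w}, w ∈ U → w + τ ∈ U := by
    intro w hw
    show (w + τ).re < Real.log R
    rw [Complex.add_re, hτre, add_zero]
    exact hw
  refine ⟨X, hX0, fun w hw => hXu w hw, fun w hw => hXd w hw, ?_, ?_⟩
  · -- transport along the arc
    have hc : Continuous (fun t : unitInterval => ((t : ℝ) : ℂ) * τ) := by fun_prop
    have h1 := PP_curve hN ρ k U hUo hUc (fun w => h + exp w • ν) (fun w => exp w • ν)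
      (by
        intro w _ b
        have h2 : HasDerivAt (fun w => h b + exp w * ν b) (exp w * ν b) w := by
          have := ((Complex.hasDerivAt_exp w).mul_const (ν b)).const_add (h b)
          exact this
        exact h2)
      (fun w hw => hreg _ (hexp w hw).1 (hexp w hw).2) X
      (by
        intro w hw p q
        rw [hom' w hw]
        exact hXd w hw p q)
      (fun w hw => hXu w hw) a.toContinuousMap ⟨_, hc⟩ (by
        intro t
        refine ⟨?_, ?_⟩
        · show (((t : ℝ) : ℂ) * τ).re < Real.log R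
          rw [Complex.re_ofReal_mul, hτre, mul_zero]
          exact hR0
        · show (a t).1 = h + exp (((t : ℝ) : ℂ) * τ) • ν
          rw [ha t]
          congr 3
          rw [hτ]
          ring)
    rw [h1]
    have h2 : (⟨fun t : unitInterval => ((t : ℝ) : ℂ) * τ, hc⟩ : C(unitInterval, ℂ)) 1 = τ := by
      show (((1 : unitInterval) : ℝ) : ℂ) * τ = τ
      simp
    have h3 : (⟨fun t : unitInterval => ((t : ℝ) : ℂ) * τ, hc⟩ : C(unitInterval, ℂ)) 0 = 0 := by
      show (((0 : unitInterval) : ℝ) : ℂ) * τ = 0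
      simp
    rw [h2, h3, hX0, inv_one, mul_one]
  · -- quasi-periodicity
    intro w hw
    have hss : ρ s⁻¹ * ρ s = 1 := by rw [← map_mul, inv_mul_cancel, map_one]
    have hss' : ρ s * ρ s⁻¹ = 1 := by rw [← map_mul, mul_inv_cancel, map_one]
    have hom2 : ∀ w ∈ U, aH ρ k H + exp (w + τ) • BH ρ k H h ν (exp (w + τ)) =
        ρ s * (aH ρ k H + exp w • BH ρ k H h ν (exp w)) * ρ s⁻¹ := by
      intro w hw
      rw [← hom' w hw, ← hom' (w + τ) (hdet hw), om_equiv, Matrix.mulVec_add, Matrix.mulVec_smul,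
        hsν, hs h hh, Complex.exp_add, smul_smul]
    have hG : ∀ w ∈ U, ∀ p q, HasDerivAt (fun w => (ρ s⁻¹ * X (w + τ)) p q)
        (((aH ρ k H + exp w • BH ρ k H h ν (exp w)) * (ρ s⁻¹ * X (w + τ))) p q) w := by
      intro w hw p q
      have h4 : (aH ρ k H + exp w • BH ρ k H h ν (exp w)) * (ρ s⁻¹ * X (w + τ)) =
          ρ s⁻¹ * ((aH ρ k H + exp (w + τ) • BH ρ k H h ν (exp (w + τ))) * X (w + τ)) := by
        rw [hom2 w hw]
        simp only [← mul_assoc]
        rw [hss, one_mul]
      rw [h4]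
      have h5 : (fun w => (ρ s⁻¹ * X (w + τ)) p q) =
          fun w => ∑ j, ρ s⁻¹ p j * X (w + τ) j q := by
        funext w
        rw [Matrix.mul_apply]
      rw [h5, Matrix.mul_apply]
      refine HasDerivAt.fun_sum fun j _ => ?_
      refine HasDerivAt.const_mul _ ?_
      exact (hXd (w + τ) (hdet hw) j q).comp_add_const w τ
    have h6 := ode_unique U hUo hUc _ X (fun w => ρ s⁻¹ * X (w + τ)) hXd hG hXu w hw 0
      (by simpa [hU] using hR0)
    beta_reduce at h6
    rw [hX0, inv_one, one_mul, zero_add] at h6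
    have h7 : X w * (X w)⁻¹ = 1 :=
      Matrix.mul_nonsing_inv _ ((Matrix.isUnit_iff_isUnit_det _).1 (hXu w hw))
    calc X (w + τ) = ρ s * (X w * (X w)⁻¹) * (ρ s⁻¹ * X (w + τ)) := by
          rw [h7, mul_one, ← mul_assoc, hss', one_mul]
      _ = ρ s * X w * ((X w)⁻¹ * (ρ s⁻¹ * X (w + τ))) := by
          simp only [mul_assoc]
      _ = ρ s * X w * ρ s⁻¹ * X τ := by
          rw [h6]
          simp only [mul_assoc]

end

end Pool.Agent.CMFn.LocMonX
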