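import Pool.Agent.CMFn.Defs

/-! Project CMF: braid group, braid reflections, Hecke algebra. -/

namespace Pool.Agent.CMFn

open Matrix unitInterval

noncomputable section

/-- Subgroups of `GL_r(ℂ)`. -/
abbrev SG (r : ℕ) := Subgroup (GL (Fin r) ℂ)

variable {r : ℕ}

/-- The complement of the reflecting lines of `G`. -/
def VReg (G : SG r) : Type := {v : Fin r → ℂ // ∀ g ∈ G, IsRefl g → g.1 *ᵥ v ≠ v}

instance (G : SG r) : TopologicalSpace (VReg G) := inferInstanceAs (TopologicalSpace {v : Fin r → ℂ // _})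

lemma isRefl_conj {G : SG r} {g s : GL (Fin r) ℂ} (hs : IsRefl s) : IsRefl (g * s * g⁻¹) := by
  have h1 : (g * s * g⁻¹).1 - 1 = g.1 * (s.1 - 1) * (g⁻¹).1 := by
    rw [mul_sub, sub_mul, mul_one]
    congr 1
    rw [← Units.val_mul]; simp
  unfold IsRefl
  rw [h1, Matrix.rank_mul_eq_left_of_isUnit_det _ _ ((Matrix.isUnit_iff_isUnit_det _).1 (Units.isUnit g⁻¹)),
    Matrix.rank_mul_eq_right_of_isUnit_det _ _ ((Matrix.isUnit_iff_isUnit_det _).1 (Units.isUnit g))]
  exact hs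

instance (G : SG r) : MulAction G (VReg G) where
  smul g v := ⟨g.1.1 *ᵥ v.1, fun s hs hr h => by
    refine v.2 (g.1⁻¹ * s * g.1) (G.mul_mem (G.mul_mem (G.inv_mem g.2) hs) g.2) ?_ ?_
    · have := isRefl_conj (G := G) (g := g.1⁻¹) hr
      simpa using this
    · have h2 : (g.1⁻¹ * s * g.1).1 = (g.1⁻¹).1 * (s.1 * g.1.1) := by
        simp [mul_assoc]
      rw [h2, ← Matrix.mulVec_mulVec, ← Matrix.mulVec_mulVec, h, Matrix.mulVec_mulVec,
        ← Units.val_mul]
      simp⟩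
  one_smul v := by
    apply Subtype.ext
    show (1 : Matrix (Fin r) (Fin r) ℂ) *ᵥ v.1 = v.1
    simp
  mul_smul g h v := by
    apply Subtype.ext
    show (g.1.1 * h.1.1) *ᵥ v.1 = g.1.1 *ᵥ (h.1.1 *ᵥ v.1)
    rw [Matrix.mulVec_mulVec]

lemma smul_val {G : SG r} (g : G) (v : VReg G) : (g • v).1 = g.1.1 *ᵥ v.1 := rfl

instance (G : SG r) : ContinuousConstSMul G (VReg G) where
  continuous_const_smul g := by
    refine Continuous.subtype_mk ?_ _
    exact (Continuous.matrix_mulVec continuous_const continuous_subtype_val)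

/-- A pair `(g, γ)`, `γ` a path in `V^reg` from `v₀` to `g v₀`. -/
structure BPath (G : SG r) (v₀ : VReg G) where
  g : G
  f : C(I, VReg G)
  h0 : f 0 = v₀
  h1 : f 1 = g • v₀

/-- Same group element, homotopic paths (end points fixed). -/
def BPath.Rel {G : SG r} {v₀ : VReg G} (a b : BPath G v₀) : Prop :=
  a.g = b.g ∧ a.f.HomotopicRel b.f {0, 1}

instance bpathSetoid (G : SG r) (v₀ : VReg G) : Setoid (BPath G v₀) where
  r := BPath.Rel
  iseqv := ⟨fun a => ⟨rfl, ContinuousMap.HomotopicRel.refl _⟩,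
    fun h => ⟨h.1.symm, h.2.symm⟩, fun h1 h2 => ⟨h1.1.trans h2.1, h1.2.trans h2.2⟩⟩

/-- The path of a `BPath`. -/
def BPath.toPath {G : SG r} {v₀ : VReg G} (a : BPath G v₀) : Path v₀ (a.g • v₀) :=
  ⟨a.f, a.h0, a.h1⟩

/-- From a path to a `BPath`. -/
def BPath.ofPath {G : SG r} {v₀ : VReg G} (g : G) (p : Path v₀ (g • v₀)) : BPath G v₀ :=
  ⟨g, p.toContinuousMap, p.source, p.target⟩

/-- Product `(g, γ)(g', γ') = (gg', γ · gγ')`. -/
def BPath.mul {G : SG r} {v₀ : VReg G} (a b : BPath G v₀) : BPath G v₀ :=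
  BPath.ofPath (a.g * b.g)
    ((a.toPath.trans (b.toPath.map (continuous_const_smul a.g))).cast rfl (mul_smul _ _ _))

/-- Inverse `(g, γ)⁻¹ = (g⁻¹, g⁻¹γ⁻¹)`. -/
def BPath.inv {G : SG r} {v₀ : VReg G} (a : BPath G v₀) : BPath G v₀ :=
  BPath.ofPath a.g⁻¹
    ((a.toPath.symm.map (continuous_const_smul a.g⁻¹)).cast (by simp) rfl)

/-- The braid group `π₁(V^reg/G, v₀)` of `G` (which acts freely on `V^reg`). -/
def Braid (G : SG r) (v₀ : VReg G) : Type := Quotient (bpathSetoid G v₀)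

/-- The identity `BPath`. -/
def BPath.one (G : SG r) (v₀ : VReg G) : BPath G v₀ :=
  ⟨1, ContinuousMap.const _ v₀, rfl, (one_smul _ _).symm⟩

end

end Pool.Agent.CMFn
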