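import Pool.Agent.CMF.I5

/-! Project CMF in rank `r` (MP_4af2a6_al), block I in general form (helper77): regularity at the
points of the line for an arbitrary set `F` and an arbitrary denominator. -/

set_option linter.unusedSectionVars false

namespace Pool.Agent.CMF

open Matrix Polynomial Filter Topology Asymptotics

noncomputable section

variable {Z : Type} [CommRing Z] [IsDomain Z] [Algebra Z ℂ] {ι : Type}

open I5X in
/-- `κ(s) = κ₁ + s l`.  At `s = r` the set `F` is separated by constant coefficients `c`. -/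
theorem regular_gen [Fintype ι] {D : HData Z ι} {M : ℕ} (Q : KZData D M)
    (F : D.Λ → Prop) [DecidablePred F] (Xe : D.H) (Bd : Lau Z ι)
    (hX : ∀ κ l, Q.ρ κ l Xe = if F l then evL Z M κ Bd • 1 else 0)
    (κ₁ : ι → ℂ) (l : ι → ℤ) (hS : evL Z M κ₁ D.S ≠ 0) (r : ℂ) (c : D.J → ℂ)
    (hc : ∀ l', (∑ i, c i • Q.ρ (κ₁ + r • (fun i => (l i : ℂ))) l' (D.b i)) = if F l' then 1 else 0)
    (i : D.J) :
    ∃ C : ℝ, ∀ᶠ s in nhdsWithin r {r}ᶜ,
      ‖evL Z M (κ₁ + s • (fun i => (l i : ℂ))) (D.b.repr Xe i)‖ ≤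
        C * ‖evL Z M (κ₁ + s • (fun i => (l i : ℂ))) Bd‖ := by
  set L : ι → ℂ := fun i => (l i : ℂ) with hL
  -- the function `S` on the line
  set S : ℂ → ℂ := fun s => evL Z M (κ₁ + s • L) D.S with hSdef
  have hSd : Differentiable ℂ S := evL_line D.S κ₁ L
  have hS0 : S 0 ≠ 0 := by
    rw [hSdef]
    simpa using hS
  have hSan : AnalyticOnNhd ℂ S Set.univ := hSd.differentiableOn.analyticOnNhd isOpen_univ
  have hSr : ¬ ∀ᶠ s in 𝓝 r, S s = 0 := by
    intro h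
    have := hSan.eqOn_zero_of_preconnected_of_eventuallyEq_zero isPreconnected_univ
      (Set.mem_univ r) h (Set.mem_univ 0)
    exact hS0 this
  obtain ⟨k, g, hg, hgr, hSg⟩ := (hSan r (Set.mem_univ r)).exists_eventuallyEq_pow_smul_nonzero_iff.2 hSr
  -- the approximate coordinates
  set γ : ℂ → D.J → ℂ := fun s => newt D M (κ₁ + s • L) c k with hγ
  have hk : k ≤ 2 ^ k := Nat.lt_two_pow_self.le
  have hBO : ∀ l', BO r (fun s => Rv Q (κ₁ + s • L) l' (γ s) - if F l' then 1 else 0) k :=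
    fun l' => (newt_BO Q F κ₁ L r c hc l' k).mono hk
  -- the error
  set T : ℂ → ℂ := fun s => ∑ l', evL Z M (κ₁ + s • L) (∏ m ∈ Finset.univ.erase l', D.s m) *
      ((Rv Q (κ₁ + s • L) l' (γ s) - if F l' then 1 else 0) *
        Q.ρ (κ₁ + s • L) l' (D.b' i)).trace with hT
  have hTO : T =O[𝓝 r] (fun s => (s - r) ^ k) := by
    rw [hT]
    apply IsBigO.fun_sum
    intro l' _
    have h1 : (fun s : ℂ => evL Z M (κ₁ + s • L) (∏ m ∈ Finset.univ.erase l', D.s m)) =O[𝓝 r]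
        (fun _ => (1 : ℂ)) :=
      ((evL_line (M := M) (∏ m ∈ Finset.univ.erase l', D.s m) κ₁ L).continuous.tendsto r).isBigO_one ℂ
    have h2 : BO r (fun s => Q.ρ (κ₁ + s • L) l' (D.b' i)) 0 := by
      intro p q
      simp only [pow_zero]
      exact ((ρ_line Q κ₁ L l' (D.b' i) p q).continuous.tendsto r).isBigO_one ℂ
    have h3 := (hBO l').mul h2
    have h4 : (fun s : ℂ => ((Rv Q (κ₁ + s • L) l' (γ s) - if F l' then 1 else 0) *
        Q.ρ (κ₁ + s • L) l' (D.b' i)).trace) =O[𝓝 r] (fun s => (s - r) ^ k) := by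
      simp only [Matrix.trace, Matrix.diag_apply]
      apply IsBigO.fun_sum
      intro p _
      exact h3 p p
    refine (h1.mul h4).congr_right ?_
    intro s
    rw [one_mul]
  -- the identity
  have hid : ∀ s, S s * evL Z M (κ₁ + s • L) (D.b.repr Xe i) =
      evL Z M (κ₁ + s • L) Bd * (S s * γ s i - T s) := by
    intro s
    set κ : ι → ℂ := κ₁ + s • L with hκ
    have h1 := Q.coord κ (fun j => evL Z M κ (D.b.repr Xe j)) i
    have h2 := Q.coord κ (γ s) i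
    have h3 : ∀ l', (∑ j, evL Z M κ (D.b.repr Xe j) • Q.ρ κ l' (D.b j)) =
        if F l' then evL Z M κ Bd • 1 else 0 := by
      intro l'
      rw [← ρ_eq Q κ l' Xe, hX κ l']
    have h4 : S s * evL Z M κ (D.b.repr Xe i) = ∑ l', evL Z M κ
        (∏ m ∈ Finset.univ.erase l', D.s m) * (evL Z M κ Bd *
          ((if F l' then 1 else 0 : Matrix (Fin (D.d l')) (Fin (D.d l')) ℂ) *
            Q.ρ κ l' (D.b' i)).trace) := by
      rw [hSdef]
      simp only
      rw [h1]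
      apply Finset.sum_congr rfl
      intro l' _
      rw [h3 l']
      by_cases hl : F l'
      · simp only [hl, if_true, smul_mul_assoc, one_mul, Matrix.trace_smul, smul_eq_mul]
      · simp only [hl, if_false, zero_mul, Matrix.trace_zero, mul_zero]
    have h5 : S s * γ s i = ∑ l', evL Z M κ (∏ m ∈ Finset.univ.erase l', D.s m) *
        (Rv Q κ l' (γ s) * Q.ρ κ l' (D.b' i)).trace := h2
    rw [h4, h5, hT]
    simp only
    rw [← Finset.sum_sub_distrib, Finset.mul_sum]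
    apply Finset.sum_congr rfl
    intro l' _
    rw [← hκ, sub_mul, Matrix.trace_sub]
    ring
  -- bounds
  obtain ⟨C1, hC1⟩ := hTO.bound
  have hγd : Differentiable ℂ (fun s => γ s i) := newt_line D M κ₁ L c k i
  have hγb : ∀ᶠ s in 𝓝 r, ‖γ s i‖ ≤ ‖γ r i‖ + 1 := by
    have h1 : Tendsto (fun s => ‖γ s i‖) (𝓝 r) (𝓝 ‖γ r i‖) :=
      (hγd.continuous.norm).tendsto r
    exact (h1.eventually (gt_mem_nhds (lt_add_one _))).mono fun s hs => hs.le
  have hgpos : 0 < ‖g r‖ := norm_pos_iff.2 hgr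
  have hgb : ∀ᶠ s in 𝓝 r, ‖g r‖ / 2 ≤ ‖g s‖ := by
    have h1 : Tendsto (fun s => ‖g s‖) (𝓝 r) (𝓝 ‖g r‖) := hg.continuousAt.norm
    exact (h1.eventually (lt_mem_nhds (half_lt_self hgpos))).mono fun s hs => hs.le
  refine ⟨‖γ r i‖ + 1 + |C1| / (‖g r‖ / 2), ?_⟩
  rw [eventually_nhdsWithin_iff]
  filter_upwards [hSg, hC1, hγb, hgb] with s hs1 hs2 hs3 hs4 hsr
  have hne : s - r ≠ 0 := sub_ne_zero.2 hsr
  have hpow : 0 < ‖(s - r) ^ k‖ := norm_pos_iff.2 (pow_ne_zero k hne)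
  set x := evL Z M (κ₁ + s • L) (D.b.repr Xe i) with hx
  set B := evL Z M (κ₁ + s • L) Bd with hB
  have e1 : S s * (x - B * γ s i) = - (B * T s) := by
    have := hid s
    rw [← hx, ← hB] at this
    linear_combination this
  have e2 : ‖S s‖ * ‖x - B * γ s i‖ = ‖B‖ * ‖T s‖ := by
    rw [← norm_mul, e1, norm_neg, norm_mul]
  have e3 : ‖S s‖ = ‖(s - r) ^ k‖ * ‖g s‖ := by
    rw [hs1, norm_smul]
  have e4 : ‖(s - r) ^ k‖ * (‖g r‖ / 2) * ‖x - B * γ s i‖ ≤ ‖B‖ * (|C1| * ‖(s - r) ^ k‖) := by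
    calc ‖(s - r) ^ k‖ * (‖g r‖ / 2) * ‖x - B * γ s i‖ ≤ ‖S s‖ * ‖x - B * γ s i‖ := by
          rw [e3]
          gcongr
      _ = ‖B‖ * ‖T s‖ := e2
      _ ≤ ‖B‖ * (|C1| * ‖(s - r) ^ k‖) := by
          have : C1 * ‖(s - r) ^ k‖ ≤ |C1| * ‖(s - r) ^ k‖ := by
            gcongr
            exact le_abs_self C1
          gcongr
          exact hs2.trans this
  have e5 : ‖x - B * γ s i‖ ≤ |C1| / (‖g r‖ / 2) * ‖B‖ := by
    rw [div_mul_eq_mul_div, le_div_iff₀ (by positivity)]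
    have e6 : ‖(s - r) ^ k‖ * (‖x - B * γ s i‖ * (‖g r‖ / 2)) ≤
        ‖(s - r) ^ k‖ * (|C1| * ‖B‖) := by linarith
    exact le_of_mul_le_mul_left e6 hpow
  calc ‖x‖ = ‖B * γ s i + (x - B * γ s i)‖ := by
        congr 1
        ring
    _ ≤ ‖B * γ s i‖ + ‖x - B * γ s i‖ := norm_add_le _ _
    _ ≤ ‖B‖ * (‖γ r i‖ + 1) + |C1| / (‖g r‖ / 2) * ‖B‖ := by
        rw [norm_mul]
        gcongr
    _ = (‖γ r i‖ + 1 + |C1| / (‖g r‖ / 2)) * ‖B‖ := by ring

end

end Pool.Agent.CMF
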