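import Pool.Agent.CMF.I7
import Pool.Agent.CMFn.I5g

/-! Project CMF in rank `r` (MP_4af2a6_al), block I in general form (helper77): the line, for an
arbitrary family of differences of exponents. -/

set_option linter.unusedSectionVars false

namespace Pool.Agent.CMF

open Matrix Polynomial

noncomputable section

variable {Z : Type} [CommRing Z] [IsDomain Z] [Algebra Z ℂ] {ι : Type} {n : ℕ}

/-- `Π_j (v^{a_j} - v^{a'_j})`. -/
def dlt (Z : Type) [CommRing Z] {ι J : Type} [Fintype J] (P : J → (ι →₀ ℤ) × (ι →₀ ℤ)) :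
    Lau Z ι := ∏ j, (mon (P j).1 - mon (P j).2)

variable [Fintype ι] {D : HData Z ι} {M : ℕ} (Q : KZData D M)

lemma dlt_eq {J : Type} [Fintype J] (P : J → (ι →₀ ℤ) × (ι →₀ ℤ)) (l : ι → ℤ) :
    ∃ w : Lau Z ι, IsUnit w ∧ dlt Z P = w * ∏ j, (mon (ori l (P j)) - 1) := by
  choose w hw hw' using sub_mon_eq (Z := Z) l
  refine ⟨∏ j, w (P j), ?_, ?_⟩
  · exact Finset.prod_induction _ IsUnit (fun _ _ => IsUnit.mul) isUnit_one fun j _ => hw (P j)
  · rw [dlt, ← Finset.prod_mul_distrib]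
    exact Finset.prod_congr rfl fun j _ => hw' (P j)

theorem S_X_gen (hinj : Function.Injective (algebraMap Z ℂ)) (hM : 0 < M) (F : D.Λ → Prop)
    [DecidablePred F] (Xe : D.H) (Bd : Lau Z ι)
    (hX : ∀ κ l, Q.ρ κ l Xe = if F l then evL Z M κ Bd • 1 else 0) :
    D.S • Xe = Bd • D.CF F := by
  rw [← sub_eq_zero]
  apply Q.ρ_inj hinj hM
  intro κ l
  rw [map_sub, Q.ρ_smul, Q.ρ_smul, hX, Q.ρ_CF]
  split_ifs
  · rw [smul_smul, smul_smul, mul_comm, sub_self]
  · simp

open Classical in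
theorem line_gen (hinj : Function.Injective (algebraMap Z ℂ)) (hM : 0 < M) (F : D.Λ → Prop)
    [DecidablePred F] {J : Type} [Fintype J] (P : J → (ι →₀ ℤ) × (ι →₀ ℤ)) (Xe : D.H)
    (hX : ∀ κ l, Q.ρ κ l Xe = if F l then evL Z M κ (dlt Z P) • 1 else 0)
    (B : Fin n → ι → ℤ) (l : ι → ℤ)
    (hl : ∀ j, pairZ ((P j).1 - (P j).2) l ≠ 0) (x : Fin n → ℂ)
    (hx : ∀ p : Lau Z (Fin n), p ≠ 0 → evL Z M x p ≠ 0)
    (hc : ∀ r : ℚ, ∃ c : D.J → ℂ, ∀ l', (∑ i, c i •
      Q.ρ ((∑ j, x j • fun i => (B j i : ℂ)) + (r : ℂ) • fun i => (l i : ℂ)) l' (D.b i)) =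
        if F l' then 1 else 0) :
    ∃ (s : Finset J) (α : J → (Fin n →₀ ℤ)),
      (∀ j ∈ s, α j ≠ 0) ∧ ∀ i, ∃ q : Lau Z (Fin n), res Z B D.S * q =
        (∏ j ∈ s, (mon (α j) - 1)) * res Z B (D.b.repr (D.CF F) i) := by
  obtain ⟨w, hw, hB⟩ := dlt_eq (Z := Z) P l
  set κ₁ : ι → ℂ := ∑ j, x j • fun i => (B j i : ℂ) with hκ₁
  set s1 := Finset.univ.filter (fun p : J => resHom B (ori l (P p)) = 0) with hs1
  set s2 := Finset.univ.filter (fun p : J => ¬ resHom B (ori l (P p)) = 0) with hs2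
  have hpos : ∀ p : J, 0 < pairZ (ori l (P p)) l := fun p => ori_pos l (P p) (hl p)
  have hpos' : ∀ p : J, 0 < (pairZ (ori l (P p)) l).toNat := fun p => by
    have := hpos p; omega
  refine ⟨s2, fun p => resHom B (ori l (P p)), fun j hj => (Finset.mem_filter.1 hj).2, ?_⟩
  intro i
  set Z1 : Polynomial (Lau Z (Fin n)) :=
    ∏ p ∈ s1, (Polynomial.X ^ (pairZ (ori l (P p)) l).toNat - 1) with hZ1
  set Z2 : Polynomial (Lau Z (Fin n)) := ∏ p ∈ s2, gPol Z B l (ori l (P p)) with hZ2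
  have hZ12 : Z1 * Z2 = ∏ p : J, gPol Z B l (ori l (P p)) := by
    rw [← Finset.prod_filter_mul_prod_filter_not Finset.univ
      (fun p : J => resHom B (ori l (P p)) = 0)]
    congr 1
    refine Finset.prod_congr rfl fun p hp => ?_
    rw [gPol, (Finset.mem_filter.1 hp).2, mon_zero, map_one, one_mul]
  have hlB : lin Z B l (dlt Z P) = lin Z B l w * Polynomial.toLaurent (Z1 * Z2) := by
    rw [hB, map_mul, hZ12, map_prod, map_prod]
    congr 1
    exact Finset.prod_congr rfl fun p _ => (toLaurent_gPol B l _ (hpos p)).symm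
  have hZ1mon : Z1.Monic := by
    apply Polynomial.monic_prod_of_monic
    intro p hp
    have := Polynomial.monic_X_pow_sub_C (1 : Lau Z (Fin n)) (hpos' p).ne'
    rwa [map_one] at this
  obtain ⟨K, Pp, hP⟩ := LaurentPolynomial.exists_T_pow (lin Z B l (D.b.repr Xe i))
  -- the value of `S` on the line is not identically zero
  have hS0 : evL Z M κ₁ D.S ≠ 0 := by
    rw [hκ₁, ← evL_res]
    apply hx
    intro h0
    have h1 : evL Z M (0 : Fin n → ℂ) (res Z B D.S) = 0 := by rw [h0, map_zero]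
    rw [evL_res] at h1
    simp only [Pi.zero_apply, zero_smul, Finset.sum_const_zero] at h1
    rw [HData.S, map_prod, Finset.prod_eq_zero_iff] at h1
    obtain ⟨m, -, hm⟩ := h1
    exact Q.s_zero_ne m hm
  have hdvd : Z1.map (evL Z M x) ∣ Pp.map (evL Z M x) := by
    have e1 : Z1.map (evL Z M x) =
        ∏ p ∈ s1, (Polynomial.X ^ (pairZ (ori l (P p)) l).toNat - 1 : Polynomial ℂ) := by
      rw [hZ1, Polynomial.map_prod]
      refine Finset.prod_congr rfl fun p _ => ?_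
      simp
    rw [e1]
    by_cases hP0 : Pp.map (evL Z M x) = 0
    · rw [hP0]; exact dvd_zero _
    apply prod_dvd_of_rootMultiplicity _ _ (fun p _ => hpos' p)
    intro u hu
    obtain ⟨r, hr⟩ := exists_rat_of_root hM u hu
    obtain ⟨c, hc⟩ := hc r
    obtain ⟨C, hC⟩ := regular_gen Q F Xe (dlt Z P) hX κ₁ l hS0 (r : ℂ) c hc i
    have hne : (Z1 * Z2).map (evL Z M x) ≠ 0 := by
      rw [Polynomial.map_ne_zero_iff (evL_x_injective hx), hZ12, Finset.prod_ne_zero_iff]
      intro p _ h0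
      have h1 := congrArg (fun q => Polynomial.coeff q (pairZ (ori l (P p)) l).toNat) h0
      have h2 := hpos' p
      simp only [gPol, Polynomial.coeff_sub, Polynomial.coeff_C_mul, Polynomial.coeff_X_pow,
        if_true, mul_one, Polynomial.coeff_one, Polynomial.coeff_zero] at h1
      rw [if_neg (by omega), sub_zero] at h1
      exact (isUnit_mon (R := Z) (resHom B (ori l (P p)))).ne_zero h1
    have hle : ((Z1 * Z2).map (evL Z M x)).rootMultiplicity u ≤
        (Pp.map (evL Z M x)).rootMultiplicity u := by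
      rw [← hr]
      have hcont : Continuous fun s : ℂ => evL Z M (κ₁ + s • fun i => (l i : ℂ)) w :=
        (evL_hol w).1.comp (continuous_const.add (continuous_id.smul continuous_const))
      have hw1 : ∀ᶠ s in nhdsWithin (r : ℂ) {(r : ℂ)}ᶜ,
          ‖evL Z M (κ₁ + s • fun i => (l i : ℂ)) w‖ <
            ‖evL Z M (κ₁ + (r : ℂ) • fun i => (l i : ℂ)) w‖ + 1 :=
        nhdsWithin_le_nhds (hcont.norm.continuousAt.eventually
          (gt_mem_nhds (lt_add_one _)))
      refine rootMultiplicity_le_of_bound hM _ _ hP0 (-(K : ℤ)) 0 (r : ℂ)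
        (|C| * (‖evL Z M (κ₁ + (r : ℂ) • fun i => (l i : ℂ)) w‖ + 1)) ?_
      filter_upwards [hC, hw1] with s hs hs1
      have e2 : evL Z M (κ₁ + s • fun i => (l i : ℂ)) (D.b.repr Xe i) =
          (uS M s : ℂ) ^ (-(K : ℤ)) * (Pp.map (evL Z M x)).eval (uS M s : ℂ) := by
        rw [← evT_toLaurent, hP, map_mul, hκ₁, evT_lin, evT, LaurentPolynomial.eval₂_T,
          Units.val_zpow_eq_zpow_val, _root_.zpow_neg]
        have h3 : ((uS M s : ℂˣ) : ℂ) ^ (K : ℤ) ≠ 0 := zpow_ne_zero _ (Units.ne_zero _)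
        field_simp
      have e3 : evL Z M (κ₁ + s • fun i => (l i : ℂ)) (dlt Z P) =
          evL Z M (κ₁ + s • fun i => (l i : ℂ)) w *
            ((Z1 * Z2).map (evL Z M x)).eval (uS M s : ℂ) := by
        rw [← evT_toLaurent, hκ₁, ← evT_lin, hlB, map_mul, evT_lin]
      rw [e2, e3] at hs
      have e4 : (Complex.exp (-(2 * Real.pi * Complex.I / M) * s)) = (uS M s : ℂ) := rfl
      rw [e4, zpow_zero, one_mul]
      refine hs.trans ?_
      rw [norm_mul]
      calc C * (‖evL Z M (κ₁ + s • fun i => (l i : ℂ)) w‖ *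
            ‖((Z1 * Z2).map (evL Z M x)).eval (uS M s : ℂ)‖)
          ≤ |C| * (‖evL Z M (κ₁ + s • fun i => (l i : ℂ)) w‖ *
            ‖((Z1 * Z2).map (evL Z M x)).eval (uS M s : ℂ)‖) :=
            mul_le_mul_of_nonneg_right (le_abs_self C) (by positivity)
        _ ≤ |C| * ((‖evL Z M (κ₁ + (r : ℂ) • fun i => (l i : ℂ)) w‖ + 1) *
            ‖((Z1 * Z2).map (evL Z M x)).eval (uS M s : ℂ)‖) := by
            gcongr
        _ = _ := by ring
    rw [← e1]
    refine le_trans ?_ hle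
    rw [Polynomial.map_mul] at hne ⊢
    rw [Polynomial.rootMultiplicity_mul hne]
    exact Nat.le_add_right _ _
  obtain ⟨Q1, hQ1⟩ := (Polynomial.map_dvd_map _ (evL_x_injective hx) hZ1mon).1 hdvd
  have hid : D.S * D.b.repr Xe i = dlt Z P * D.b.repr (D.CF F) i := by
    have := congrArg (fun h => D.b.repr h i) (S_X_gen Q hinj hM F Xe (dlt Z P) hX)
    simpa using this
  have hid2 : lin Z B l D.S * Polynomial.toLaurent Q1 = lin Z B l w *
      Polynomial.toLaurent Z2 * lin Z B l (D.b.repr (D.CF F) i) * LaurentPolynomial.T K := by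
    have h1 := congrArg (lin Z B l) hid
    rw [map_mul, map_mul, hlB, map_mul] at h1
    have h2 : Polynomial.toLaurent Z1 ≠ 0 := Polynomial.toLaurent_ne_zero.2 hZ1mon.ne_zero
    apply mul_left_cancel₀ h2
    have h3 : Polynomial.toLaurent Z1 * Polynomial.toLaurent Q1 =
        lin Z B l (D.b.repr Xe i) * LaurentPolynomial.T K := by
      rw [← map_mul, ← hQ1, hP]
    calc Polynomial.toLaurent Z1 * (lin Z B l D.S * Polynomial.toLaurent Q1)
        = lin Z B l D.S * (Polynomial.toLaurent Z1 * Polynomial.toLaurent Q1) := by ring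
      _ = lin Z B l D.S * lin Z B l (D.b.repr Xe i) * LaurentPolynomial.T K := by
          rw [h3]; ring
      _ = _ := by rw [h1]; ring
  have hid3 := congrArg (augT _) hid2
  rw [map_mul, map_mul, map_mul, map_mul, augT_lin, augT_lin, augT_lin] at hid3
  have haT : augT (Lau Z (Fin n)) (LaurentPolynomial.T K) = 1 := by
    simp [augT]
  have haZ : augT (Lau Z (Fin n)) (Polynomial.toLaurent Z2) =
      ∏ p ∈ s2, (mon (resHom B (ori l (P p))) - 1) := by
    rw [augT, LaurentPolynomial.eval₂_toLaurent, hZ2, Polynomial.eval₂_finsetProd]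
    refine Finset.prod_congr rfl fun p _ => ?_
    simp [gPol]
  rw [haT, haZ, mul_one] at hid3
  obtain ⟨w', hw'⟩ := (hw.map (res Z B)).exists_right_inv
  refine ⟨augT _ (Polynomial.toLaurent Q1) * w', ?_⟩
  calc res Z B D.S * (augT _ (Polynomial.toLaurent Q1) * w')
      = (res Z B D.S * augT _ (Polynomial.toLaurent Q1)) * w' := by ring
    _ = (res Z B w * w') * ((∏ p ∈ s2, (mon (resHom B (ori l (P p))) - 1)) *
        res Z B (D.b.repr (D.CF F) i)) := by rw [hid3]; ring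
    _ = _ := by rw [hw', one_mul]

open Classical in
/-- The restricted coordinates of `S e_F` are divisible by the constant `ξ'`. -/
theorem exists_g_gen (hinj : Function.Injective (algebraMap Z ℂ)) (Φ : SchurFac D)
    (hM : 0 < M) (F : D.Λ → Prop) [DecidablePred F]
    {J : Type} [Fintype J] (P : J → (ι →₀ ℤ) × (ι →₀ ℤ)) (Xe : D.H)
    (hX : ∀ κ l, Q.ρ κ l Xe = if F l then evL Z M κ (dlt Z P) • 1 else 0)
    (B : Fin n → ι → ℤ) (l : ι → ℤ)
    (hl : ∀ j, pairZ ((P j).1 - (P j).2) l ≠ 0) (x : Fin n → ℂ)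
    (hx : ∀ p : Lau Z (Fin n), p ≠ 0 → evL Z M x p ≠ 0)
    (hc : ∀ r : ℚ, ∃ c : D.J → ℂ, ∀ l', (∑ i, c i •
      Q.ρ ((∑ j, x j • fun i => (B j i : ℂ)) + (r : ℂ) • fun i => (l i : ℂ)) l' (D.b i)) =
        if F l' then 1 else 0) :
    ∃ g : D.J → Lau Z (Fin n), ∀ i, res Z B (D.b.repr (D.CF F) i) =
      algebraMap Z (Lau Z (Fin n)) (Φ.xi B) * g i := by
  obtain ⟨s, α, hα, h⟩ := line_gen Q hinj hM F P Xe hX B l hl x hx hc
  have h1 : ∀ i, algebraMap Z (Lau Z (Fin n)) (Φ.xi B) ∣ res Z B (D.b.repr (D.CF F) i) := by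
    intro i
    obtain ⟨q, hq⟩ := h i
    apply dvd_of_prod_dvd (Φ.xi B) s α hα
    refine ⟨Φ.U B * Φ.Q B * q, ?_⟩
    have h2 : (∏ j ∈ s, (AddMonoidAlgebra.single (α j) (1 : Z) - 1)) *
        res Z B (D.b.repr (D.CF F) i) = res Z B D.S * q := hq.symm
    rw [h2, Φ.res_S]
    ring
  choose g hg using h1
  exact ⟨g, hg⟩

end

end Pool.Agent.CMF
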