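import Pool.Agent.CMF.I9
import Pool.Agent.CMFn.I6g

/-! Project CMF in rank `r` (MP_4af2a6_al), block I in general form (helper77): the block
idempotent over `O_y`. -/

set_option linter.unusedSectionVars false

namespace Pool.Agent.CMF

open Matrix Polynomial
open scoped TensorProduct

noncomputable section

variable {Z : Type} [CommRing Z] [IsDomain Z] [Algebra Z ℂ] {ι : Type} {n : ℕ}

open Classical in
/-- The main theorem of the block, in coordinates. -/
theorem HData.final_gen [Fintype ι] (hZ : Countable Z)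
    (hinj : Function.Injective (algebraMap Z ℂ))
    (D : HData Z ι) {M : ℕ} (hM : 0 < M) (Q : KZData D M) (Φ : SchurFac D) (F : D.Λ → Prop)
    [DecidablePred F] {J : Type} [Fintype J] (P : J → (ι →₀ ℤ) × (ι →₀ ℤ))
    (hPne : ∀ j, (P j).1 ≠ (P j).2) (Xe : D.H)
    (hX : ∀ κ l, Q.ρ κ l Xe = if F l then evL Z M κ (dlt Z P) • 1 else 0)
    (κ₀ : ι → ℂ) (m : ι → ℤ)
    (hess : SameEss Φ κ₀ m) (hS : ThmS D Q F κ₀) :
    ∃ e : D.J → Oy Z,
      (∀ k, ∑ i, ∑ j, e i * e j * spec Z m (D.b.repr (D.b i * D.b j) k) = e k) ∧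
      (∀ j k, ∑ i, e i * spec Z m (D.b.repr (D.b i * D.b j) k) =
        ∑ i, e i * spec Z m (D.b.repr (D.b j * D.b i) k)) ∧
      ∀ μ, ∑ i, e i * spec Z m (D.X μ (D.b i)) = if F μ then (D.d μ : Oy Z) else 0 := by
  -- the family of parameters
  obtain ⟨r, b, c, hb, hc⟩ := int_solutions
    {a : ι → ℤ | ∃ l i, (∀ j, a j = Φ.E l i j) ∧ ¬ IsUnit ((Φ.Ψ l i).eval 1) ∧
      pairC (Φ.E l i) κ₀ = 0} κ₀ (by
        rintro a ⟨l, i, ha, -, h0⟩
        rw [pairC_eq_sum] at h0
        rw [← h0]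
        exact Finset.sum_congr rfl fun j _ => by rw [ha j])
  set B : Fin (r + 1) → ι → ℤ := Fin.cons m b with hBdef
  set x₀ : Fin (r + 1) → ℂ := Fin.cons 0 c with hx₀
  have hB0 : B 0 = m := rfl
  have hκ₀ : ∑ j, x₀ j • (fun i => (B j i : ℂ)) = κ₀ := by
    rw [Fin.sum_univ_succ]
    funext i
    simp [hx₀, hBdef, Finset.sum_apply, hc i]
  -- the direction of the line
  obtain ⟨l, hl⟩ := exists_avoid (Set.range fun (j : J) (i : ι) => (P j).1 i - (P j).2 i)
    (Set.finite_range _)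
    (by
      rintro a ⟨j, rfl⟩ h0
      apply hPne j
      ext i
      exact sub_eq_zero.1 (congrFun h0 i))
  have hl' : ∀ j, pairZ ((P j).1 - (P j).2) l ≠ 0 := by
    intro j
    have h1 := hl _ ⟨j, rfl⟩
    rw [pairZ, pair, Finsupp.sum_fintype _ _ (by simp)]
    simpa using h1
  -- the generic point
  have h1 : ∀ r' : ℚ, _ := fun r' => hS (r + 1) (fun j i => (B j i : ℂ)) x₀ hκ₀
    (fun i => (l i : ℂ)) (r' : ℂ)
  choose f hf1 hf2 hf3 using h1
  obtain ⟨x, hx1, hx2⟩ := exists_generic hZ hinj hM (r + 1) f hf1 hf2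
  obtain ⟨g, hg⟩ := exists_g_gen Q hinj Φ hM F P Xe hX B l hl' x hx2 (fun r' => hf3 r' x (hx1 r'))
  -- units
  have hQ : IsUnit (spec Z (e0 r) (Φ.Q B)) := by
    apply Φ.isUnit_Q
    intro l' i hu h0
    rw [hB0] at h0
    have h2 : pairC (Φ.E l' i) κ₀ = 0 := (hess l' i hu).2 h0
    ext j
    rw [resHom_apply, Finsupp.zero_apply]
    refine Fin.cases ?_ (fun j => ?_) j
    · exact h0
    · have h3 := hb j (fun i' => Φ.E l' i i') ⟨l', i, fun _ => rfl, hu, h2⟩
      rw [pairZ, pair, Finsupp.sum_fintype _ _ (by simp)]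
      simpa [hBdef] using h3
  have hU := isUnit_U Φ B
  obtain ⟨v, hv⟩ := (hU.mul hQ).exists_right_inv
  set η := spec Z (e0 r) with hη
  have hres : ∀ p : Lau Z ι, η (res Z B p) = spec Z m p := fun p => spec_res B p
  have hξ : algebraMap Z (Lau Z (Fin (r + 1))) (Φ.xi B) ≠ 0 := by
    intro h0
    have h2 := Φ.xi_ne Q B
    apply h2
    have h3 : (AddMonoidAlgebra.single 0 (Φ.xi B) : Lau Z (Fin (r + 1))) = 0 := h0
    simpa using h3
  refine ⟨fun i => v * η (g i), ?_, ?_, ?_⟩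
  · intro k
    have h2 := congrArg (res Z B) (coord_sq F k)
    simp only [map_sum, map_mul, hg, Φ.res_S] at h2
    have h3 : ∑ i, ∑ j, g i * g j * res Z B (D.b.repr (D.b i * D.b j) k) =
        Φ.U B * Φ.Q B * g k := by
      apply mul_left_cancel₀ (mul_ne_zero hξ hξ)
      rw [Finset.mul_sum]
      calc ∑ i, algebraMap Z (Lau Z (Fin (r + 1))) (Φ.xi B) *
            algebraMap Z (Lau Z (Fin (r + 1))) (Φ.xi B) *
            ∑ j, g i * g j * res Z B (D.b.repr (D.b i * D.b j) k)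
          = ∑ i, ∑ j, algebraMap Z (Lau Z (Fin (r + 1))) (Φ.xi B) * g i *
              (algebraMap Z (Lau Z (Fin (r + 1))) (Φ.xi B) * g j) *
              res Z B (D.b.repr (D.b i * D.b j) k) := by
            refine Finset.sum_congr rfl fun i _ => ?_
            rw [Finset.mul_sum]
            exact Finset.sum_congr rfl fun j _ => by ring
        _ = _ := by rw [h2]; ring
    have h4 := congrArg η h3
    simp only [map_sum, map_mul, hres] at h4
    calc ∑ i, ∑ j, v * η (g i) * (v * η (g j)) * spec Z m (D.b.repr (D.b i * D.b j) k)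
        = v * v * ∑ i, ∑ j, η (g i) * η (g j) * spec Z m (D.b.repr (D.b i * D.b j) k) := by
          rw [Finset.mul_sum]
          refine Finset.sum_congr rfl fun i _ => ?_
          rw [Finset.mul_sum]
          exact Finset.sum_congr rfl fun j _ => by ring
      _ = (η (Φ.U B) * η (Φ.Q B) * v) * (v * η (g k)) := by rw [h4]; ring
      _ = v * η (g k) := by rw [hv, one_mul]
  · intro j k
    have h2 := congrArg (res Z B) (coord_comm F j k)
    simp only [map_sum, map_mul, hg] at h2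
    have h3 : ∑ i, g i * res Z B (D.b.repr (D.b i * D.b j) k) =
        ∑ i, g i * res Z B (D.b.repr (D.b j * D.b i) k) := by
      apply mul_left_cancel₀ hξ
      rw [Finset.mul_sum, Finset.mul_sum]
      simp only [← mul_assoc]
      exact h2
    have h4 := congrArg η h3
    simp only [map_sum, map_mul, hres] at h4
    simp only [mul_assoc, ← Finset.mul_sum]
    rw [h4]
  · intro μ
    have h2 := congrArg (res Z B) (coord_X F μ)
    simp only [map_sum, map_mul, hg] at h2
    have h3 : ∑ i, g i * res Z B (D.X μ (D.b i)) =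
        if F μ then Φ.U B * Φ.Q B * (D.d μ : Lau Z (Fin (r + 1))) else 0 := by
      apply mul_left_cancel₀ hξ
      rw [Finset.mul_sum]
      simp only [← mul_assoc]
      rw [h2]
      split_ifs
      · rw [map_mul, Φ.res_S, map_natCast]
        ring
      · rw [map_zero, mul_zero]
    have h4 := congrArg η h3
    simp only [map_sum, map_mul, hres] at h4
    simp only [mul_assoc, ← Finset.mul_sum]
    rw [h4]
    split_ifs
    · rw [map_mul, map_mul, map_natCast]
      calc v * (η (Φ.U B) * η (Φ.Q B) * (D.d μ : Oy Z)) =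
          (η (Φ.U B) * η (Φ.Q B) * v) * (D.d μ : Oy Z) := by ring
        _ = _ := by rw [hv, one_mul]
    · rw [map_zero, mul_zero]


open Classical in
/-- The block idempotent of `O_y ⊗ H`, general form. -/
theorem HData.final_tensor_gen [Fintype ι] (hZ : Countable Z)
    (hinj : Function.Injective (algebraMap Z ℂ))
    (D : HData Z ι) {M : ℕ} (hM : 0 < M) (Q : KZData D M) (Φ : SchurFac D) (F : D.Λ → Prop)
    [DecidablePred F] {J : Type} [Fintype J] (P : J → (ι →₀ ℤ) × (ι →₀ ℤ))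
    (hPne : ∀ j, (P j).1 ≠ (P j).2) (Xe : D.H)
    (hX : ∀ κ l, Q.ρ κ l Xe = if F l then evL Z M κ (dlt Z P) • 1 else 0)
    (κ₀ : ι → ℂ) (m : ι → ℤ) (hess : SameEss Φ κ₀ m) (hS : ThmS D Q F κ₀) :
    letI : Algebra (Lau Z ι) (Oy Z) := (spec Z m).toAlgebra
    ∃ ε : Oy Z ⊗[Lau Z ι] D.H, ε * ε = ε ∧ (∀ x, x * ε = ε * x) ∧
      ∀ μ, (D.X μ).baseChange (Oy Z) ε =
        (if F μ then (D.d μ : Oy Z) else 0) ⊗ₜ[Lau Z ι] (1 : Lau Z ι) := by
  let _ : Algebra (Lau Z ι) (Oy Z) := (spec Z m).toAlgebra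
  obtain ⟨e, h1, h2, h3⟩ := HData.final_gen hZ hinj D hM Q Φ F P hPne Xe hX κ₀ m hess hS
  obtain ⟨h4, h5, h6⟩ := tensor_of_coord (A := Lau Z ι) (O := Oy Z) D.b e h1 h2
  refine ⟨∑ i, e i ⊗ₜ[Lau Z ι] D.b i, h4, h5, fun μ => ?_⟩
  rw [h6 (D.X μ)]
  congr 1
  exact h3 μ

end

end Pool.Agent.CMF
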