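import Pool.Agent.CMFn.CDefs

/-! Project CMFn, block Q: isolated irreducible representations, general spectral form
(definitions).  helper86. -/

namespace Pool.Agent.CMFn

open Matrix

noncomputable section

variable {G : Type} [Group G]

open Classical in
/-- `a` is isolated in its level by an eigenvalue `c` of the sum `z` of the reflections which fix
a vector `p`: `u` is the spectral idempotent (`z u = c u` and `(z - c) B = 1 - u` in the group
algebra, elements of the group algebra being functions), it has trace one on `a` and trace zero on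
the other irreducible representations of the level of `a`. -/
def IsolN {r : ℕ} [Fintype G] (V : G →* Matrix (Fin r) (Fin r) ℂ) (a : MRep G) : Prop :=
  ∃ (p : Fin r → ℂ) (S : Finset G) (c : ℤ) (u B : G → ℂ),
    (∀ s, s ∈ S ↔ (V s - 1).rank = 1 ∧ V s *ᵥ p = p) ∧
    (∀ g, ∑ s ∈ S, u (s⁻¹ * g) = c * u g) ∧
    (∀ g, ∑ s ∈ S, B (s⁻¹ * g) - c * B g = (if g = 1 then 1 else 0) - u g) ∧
    ∑ g : G, u g * (a.2 g).trace = 1 ∧
    ∀ b : MRep G, IsIrr b.2 → SameLevel V a b →
      ∑ g : G, u g * (b.2 g).trace = 0 ∨ ∀ g, (b.2 g).trace = (a.2 g).trace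

end

end Pool.Agent.CMFn
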