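import Pool.Agent.CMFn.IsolDefs
import Pool.Agent.CMFn.FinD
import Pool.Agent.CMFn.ConnT

/-! Project CMFn, module IsolT: transport of `ConnX V (Isol V)`. -/

namespace Pool.Agent.CMFn

open Matrix

noncomputable section

namespace IsolTX

open ConnTX

section conj

variable {G : Type} [Group G] {r : ℕ} {V V' : G →* Matrix (Fin r) (Fin r) ℂ}
  {P : Matrix (Fin r) (Fin r) ℂ}

lemma fix_conj (hP : IsUnit P) (h : ∀ g, V' g = P * V g * P⁻¹) (g : G) (p : Fin r → ℂ) :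
    V' g *ᵥ (P *ᵥ p) = P *ᵥ p ↔ V g *ᵥ p = p := by
  have hd : IsUnit P.det := (Matrix.isUnit_iff_isUnit_det _).1 hP
  have h1 : V' g *ᵥ (P *ᵥ p) = P *ᵥ (V g *ᵥ p) := by
    rw [h, Matrix.mulVec_mulVec, Matrix.mulVec_mulVec, Matrix.mul_assoc, Matrix.nonsing_inv_mul _ hd,
      Matrix.mul_one]
  rw [h1]
  constructor
  · intro h2
    have h3 := congrArg (fun z => P⁻¹ *ᵥ z) h2
    simp only [Matrix.mulVec_mulVec] at h3
    rw [Matrix.nonsing_inv_mul_cancel_left _ _ hd, Matrix.nonsing_inv_mul _ hd,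
      Matrix.one_mulVec] at h3
    exact h3
  · intro h2
    rw [h2]

lemma wp_conj (hP : IsUnit P) (h : ∀ g, V' g = P * V g * P⁻¹) (p : Fin r → ℂ) :
    WP V' (P *ᵥ p) = WP V p := by
  unfold WP
  simp only [rank_conj hP h, fix_conj hP h]

lemma det_conj (hP : IsUnit P) (h : ∀ g, V' g = P * V g * P⁻¹) (g : G) :
    (V' g).det = (V g).det := by
  have hd : IsUnit P.det := (Matrix.isUnit_iff_isUnit_det _).1 hP
  rw [h, Matrix.det_mul_right_comm, Matrix.mul_nonsing_inv _ hd, Matrix.one_mul]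

lemma psum_conj [Fintype G] (hP : IsUnit P) (h : ∀ g, V' g = P * V g * P⁻¹) (p : Fin r → ℂ)
    (σ : Bool) (a : MRep G) : psum V' (P *ᵥ p) σ a = psum V p σ a := by
  unfold psum
  refine Finset.sum_congr rfl fun g _ => ?_
  rw [wp_conj hP h, det_conj hP h]

lemma isol_conj' [Fintype G] (hP : IsUnit P) (h : ∀ g, V' g = P * V g * P⁻¹) (a : MRep G)
    (ha : Isol V a) : Isol V' a := by
  obtain ⟨p, σ, h1, h2⟩ := ha
  refine ⟨P *ᵥ p, σ, ?_, fun b hb hab => ?_⟩
  · rw [psum_conj hP h, wp_conj hP h, h1]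
  · rw [psum_conj hP h]
    exact h2 b hb ((sameLevel_conj hP h a b).1 hab)

lemma symm_conj (hP : IsUnit P) (h : ∀ g, V' g = P * V g * P⁻¹) (g : G) :
    V g = P⁻¹ * V' g * P⁻¹⁻¹ := by
  have hd : IsUnit P.det := (Matrix.isUnit_iff_isUnit_det _).1 hP
  rw [h, Matrix.nonsing_inv_nonsing_inv _ hd]
  have h1 : P⁻¹ * (P * V g * P⁻¹) * P = (P⁻¹ * P) * V g * (P⁻¹ * P) := by
    simp only [Matrix.mul_assoc]
  rw [h1, Matrix.nonsing_inv_mul _ hd, Matrix.one_mul, Matrix.mul_one]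

lemma isUnit_inv' (hP : IsUnit P) : IsUnit P⁻¹ :=
  (Matrix.isUnit_nonsing_inv_iff).2 hP

end conj

end IsolTX

open ConnTX IsolTX

section

variable {G : Type} [Group G] [Fintype G] {r : ℕ} {V V' : G →* Matrix (Fin r) (Fin r) ℂ}
  {P : Matrix (Fin r) (Fin r) ℂ}

/-- Conjugation of the reflection representation. -/
theorem isol_conj (hP : IsUnit P) (h : ∀ g, V' g = P * V g * P⁻¹) (a : MRep G) :
    Isol V' a ↔ Isol V a :=
  ⟨isol_conj' (isUnit_inv' hP) (symm_conj hP h) a, isol_conj' hP h a⟩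

/-- General form: any `X`. -/
theorem connX_of_conj (hP : IsUnit P) (h : ∀ g, V' g = P * V g * P⁻¹) {X : MRep G → Prop}
    (hc : ConnX V' X) : ConnX V X := by
  intro a b ha hb hab hXa hXb
  exact ConnTX.eqvGen_map id (fun x y hxy => (lk_conj hP h x y).1 hxy)
    (hc a b ha hb ((sameLevel_conj hP h a b).2 hab) hXa hXb)

theorem connX_congr {X Y : MRep G → Prop} (h : ∀ a, X a ↔ Y a) (hc : ConnX V X) : ConnX V Y :=
  fun a b ha hb hab hXa hXb =>
    hc a b ha hb hab (fun h1 => hXa ((h a).1 h1)) (fun h1 => hXb ((h b).1 h1))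

theorem connX_mono {X Y : MRep G → Prop} (h : ∀ a, X a → Y a) (hc : ConnX V X) : ConnX V Y :=
  fun a b ha hb hab hXa hXb =>
    hc a b ha hb hab (fun h1 => hXa (h a h1)) (fun h1 => hXb (h b h1))

theorem connX_isol_of_conj (hP : IsUnit P) (h : ∀ g, V' g = P * V g * P⁻¹)
    (hc : ConnX V' (Isol V')) : ConnX V (Isol V) :=
  connX_congr (isol_conj hP h) (connX_of_conj hP h hc)

end

end

end Pool.Agent.CMFn
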