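import Mathlib

/-! Project CMF, block Q, module QAlgA: commuting elements annihilated by split polynomials
(generic algebra). -/

namespace Pool.Agent.CMFn.QAlgX

open Polynomial

noncomputable section

open scoped IsMulCommutative in
/-- Commuting elements: evaluation homomorphism. -/
theorem exists_hom {R H : Type} [CommRing R] [Ring H] [Algebra R H] {n : ℕ} (w : Fin n → H)
    (hc : ∀ i j, w i * w j = w j * w i) :
    ∃ Ψ : MvPolynomial (Fin n) R →ₐ[R] H, ∀ i, Ψ (MvPolynomial.X i) = w i := by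
  have hcomm : IsMulCommutative (Algebra.adjoin R (Set.range w)) :=
    Algebra.isMulCommutative_adjoin R (by
      rintro _ ⟨i, rfl⟩ _ ⟨j, rfl⟩
      exact hc i j)
  refine ⟨(Algebra.adjoin R (Set.range w)).val.comp (MvPolynomial.aeval fun i =>
    (⟨w i, Algebra.subset_adjoin ⟨i, rfl⟩⟩ : Algebra.adjoin R (Set.range w))), fun i => ?_⟩
  simp

section Pb

variable {R : Type} [CommRing R] {J : Type} [DecidableEq J] (z : J → R)

/-- `Π_{a ∈ E, a ≠ b} (X - z_a)`. -/
def Pb (E : Finset J) (b : J) : R[X] := ∏ a ∈ E.erase b, (X - C (z a))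

/-- `Π_{a ∈ E} (X - z_a)`. -/
def Pt (E : Finset J) : R[X] := ∏ a ∈ E, (X - C (z a))

/-- `Π_{a ∈ E, a ≠ b} (z_b - z_a)`. -/
def db (E : Finset J) (b : J) : R := ∏ a ∈ E.erase b, (z b - z a)

theorem eval_Pb (E : Finset J) (b : J) : (Pb z E b).eval (z b) = db z E b := by
  rw [Pb, db, eval_prod]
  exact Finset.prod_congr rfl fun a _ => by simp

theorem Pb_mul (E : Finset J) (b : J) (hb : b ∈ E) : (X - C (z b)) * Pb z E b = Pt z E := by
  rw [Pb, Pt, Finset.mul_prod_erase E (fun a => (X - C (z a) : R[X])) hb]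

/-- `P_b² ≡ d_b P_b` modulo `P`. -/
theorem Pb_sq (E : Finset J) (b : J) (hb : b ∈ E) :
    Pt z E ∣ Pb z E b * Pb z E b - C (db z E b) * Pb z E b := by
  have h1 : (X - C (z b)) ∣ Pb z E b - C (db z E b) := by
    rw [dvd_iff_isRoot, IsRoot, eval_sub, eval_C, eval_Pb, sub_self]
  obtain ⟨q, hq⟩ := h1
  refine ⟨q, ?_⟩
  rw [← Pb_mul z E b hb]
  linear_combination (Pb z E b) * hq

theorem degree_Pb_lt (E : Finset J) (b : J) (hb : b ∈ E) :
    (Pb z E b).degree < (E.card : WithBot ℕ) := by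
  have h1 : (Pb z E b).natDegree ≤ (E.erase b).card := by
    refine (natDegree_prod_le _ _).trans ?_
    refine (Finset.sum_le_sum fun a _ => natDegree_X_sub_C_le (z a)).trans ?_
    simp
  refine lt_of_le_of_lt degree_le_natDegree ?_
  have h2 : (E.erase b).card < E.card := Finset.card_erase_lt_of_mem hb
  exact_mod_cast lt_of_le_of_lt h1 h2

variable [IsDomain R]

/-- Lagrange interpolation, denominators cleared. -/
theorem Pb_sum (hz : Function.Injective z) (E : Finset J) (hE : E.Nonempty) :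
    ∑ b ∈ E, C (∏ b' ∈ E.erase b, db z E b') * Pb z E b = C (∏ b ∈ E, db z E b) := by
  refine eq_of_degrees_lt_of_eval_index_eq (v := z) E (hz.injOn) ?_ ?_ ?_
  · rw [← mem_degreeLT]
    refine Submodule.sum_mem _ fun b hb => ?_
    rw [C_mul']
    refine Submodule.smul_mem _ _ ?_
    rw [mem_degreeLT]
    exact degree_Pb_lt z E b hb
  · refine lt_of_le_of_lt degree_C_le ?_
    exact_mod_cast hE.card_pos
  · intro c hc
    rw [eval_finsetSum, eval_C, Finset.sum_eq_single c]
    · rw [eval_mul, eval_C, eval_Pb, Finset.prod_erase_mul E _ hc]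
    · intro b hb hbc
      rw [eval_mul, Pb, eval_prod]
      have h0 : ∏ a ∈ E.erase b, eval (z c) (X - C (z a)) = 0 :=
        Finset.prod_eq_zero (Finset.mem_erase.2 ⟨hbc.symm, hc⟩) (by simp)
      rw [h0, mul_zero]
    · intro h
      exact absurd hc h

end Pb

section fam

variable {R H J : Type} [CommRing R] [Ring H] [Algebra R H] [DecidableEq J] (z : J → R) {n : ℕ}
  (Ψ : MvPolynomial (Fin n) R →ₐ[R] H) (E : Fin n → Finset J)

/-- `Π_i P_{e_i}(x_i)`. -/
def pe (e : Fin n → J) : MvPolynomial (Fin n) R :=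
  ∏ i, aeval (MvPolynomial.X i) (Pb z (E i) (e i))

/-- `Π_i d_{e_i}`. -/
def de (e : Fin n → J) : R := ∏ i, db z (E i) (e i)

/-- the joint spectral element squares to its multiple -/
theorem pe_sq (hP : ∀ i, Ψ (aeval (MvPolynomial.X i) (Pt z (E i))) = 0) (e : Fin n → J)
    (he : ∀ i, e i ∈ E i) : Ψ (pe z E e) * Ψ (pe z E e) = de z E e • Ψ (pe z E e) := by
  rw [← map_mul, ← map_smul, ← sub_eq_zero, ← map_sub]
  set I := RingHom.ker (Ψ : MvPolynomial (Fin n) R →+* H) with hI
  have hmem : ∀ x, x ∈ I ↔ Ψ x = 0 := fun x => Iff.rfl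
  rw [← hmem, ← Ideal.Quotient.eq]
  have h1 : ∀ i, Ideal.Quotient.mk I (aeval (MvPolynomial.X i) (Pb z (E i) (e i)) *
      aeval (MvPolynomial.X i) (Pb z (E i) (e i))) =
      Ideal.Quotient.mk I (MvPolynomial.C (db z (E i) (e i)) *
        aeval (MvPolynomial.X i) (Pb z (E i) (e i))) := by
    intro i
    rw [Ideal.Quotient.eq]
    obtain ⟨q, hq⟩ := Pb_sq z (E i) (e i) (he i)
    have h2 : aeval (MvPolynomial.X i : MvPolynomial (Fin n) R) (Pb z (E i) (e i)) *
        aeval (MvPolynomial.X i) (Pb z (E i) (e i)) - MvPolynomial.C (db z (E i) (e i)) *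
        aeval (MvPolynomial.X i) (Pb z (E i) (e i)) =
        aeval (MvPolynomial.X i) q * aeval (MvPolynomial.X i) (Pt z (E i)) := by
      have h3 := congrArg (aeval (MvPolynomial.X i : MvPolynomial (Fin n) R)) hq
      rw [map_sub, map_mul, map_mul, map_mul, aeval_C, MvPolynomial.algebraMap_eq] at h3
      rw [h3, mul_comm]
    rw [h2]
    exact I.mul_mem_left _ ((hmem _).2 (hP i))
  rw [pe, ← Finset.prod_mul_distrib, map_prod, Finset.prod_congr rfl fun i _ => h1 i, ← map_prod,
    Finset.prod_mul_distrib, ← map_prod, MvPolynomial.smul_eq_C_mul]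
  rfl

/-- the sum of the joint spectral elements, denominators cleared -/
theorem pe_sum [IsDomain R] (hz : Function.Injective z) (hE : ∀ i, (E i).Nonempty) :
    ∑ e ∈ Fintype.piFinset E, (∏ i, ∏ b ∈ (E i).erase (e i), db z (E i) b) • Ψ (pe z E e) =
      (∏ i, ∏ b ∈ E i, db z (E i) b) • (1 : H) := by
  have h1 : ∀ i, ∑ b ∈ E i, MvPolynomial.C (∏ b' ∈ (E i).erase b, db z (E i) b') *
      aeval (MvPolynomial.X i : MvPolynomial (Fin n) R) (Pb z (E i) b) =
      MvPolynomial.C (∏ b ∈ E i, db z (E i) b) := by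
    intro i
    have h2 := congrArg (aeval (MvPolynomial.X i : MvPolynomial (Fin n) R))
      (Pb_sum z hz (E i) (hE i))
    rw [map_sum, aeval_C, MvPolynomial.algebraMap_eq] at h2
    rw [← h2]
    refine Finset.sum_congr rfl fun b _ => ?_
    rw [map_mul, aeval_C, MvPolynomial.algebraMap_eq]
  have h3 := Finset.prod_univ_sum (fun i => E i) (fun i b =>
    MvPolynomial.C (∏ b' ∈ (E i).erase b, db z (E i) b') *
      aeval (MvPolynomial.X i : MvPolynomial (Fin n) R) (Pb z (E i) b))
  rw [Finset.prod_congr rfl fun i _ => h1 i, ← map_prod] at h3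
  have h4 := congrArg Ψ h3
  rw [map_sum] at h4
  have h5 : Ψ (MvPolynomial.C (∏ i, ∏ b ∈ E i, db z (E i) b)) =
      (∏ i, ∏ b ∈ E i, db z (E i) b) • (1 : H) := by
    rw [← MvPolynomial.algebraMap_eq, AlgHom.commutes, Algebra.algebraMap_eq_smul_one]
  rw [← h5, h4]
  refine Finset.sum_congr rfl fun e _ => ?_
  rw [Finset.prod_mul_distrib, ← map_prod, ← MvPolynomial.smul_eq_C_mul, map_smul]
  rfl

/-- the image under a further homomorphism -/
theorem pe_map {S : Type} [Ring S] (φ : H →+* S) (e : Fin n → J) :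
    φ (Ψ (pe z E e)) = (List.ofFn fun i =>
      φ (aeval (Ψ (MvPolynomial.X i)) (Pb z (E i) (e i)))).prod := by
  rw [pe, ← List.prod_ofFn, map_list_prod, map_list_prod, List.map_ofFn, List.map_ofFn]
  congr 2
  funext i
  simp only [Function.comp]
  rw [← aeval_algHom_apply]

end fam

section idem

/-- The trace of an idempotent matrix is a natural number. -/
theorem idem_trace {K : Type} [Field K] {J : Type} [Fintype J] [DecidableEq J]
    (P : Matrix J J K) (h : P * P = P) : ∃ k : ℕ, P.trace = k := by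
  have h1 : IsIdempotentElem (Matrix.toLin' P) := by
    show (Matrix.toLin' P).comp (Matrix.toLin' P) = Matrix.toLin' P
    rw [← Matrix.toLin'_mul, h]
  refine ⟨Module.finrank K (LinearMap.range (Matrix.toLin' P)), ?_⟩
  rw [← (LinearMap.IsIdempotentElem.isProj_range _ h1).trace, Matrix.trace_toLin'_eq]

theorem idem_zero {K : Type} [Field K] [CharZero K] {J : Type} [Fintype J] [DecidableEq J]
    (P : Matrix J J K) (h : P * P = P) (h0 : P.trace = 0) : P = 0 := by
  have h1 : IsIdempotentElem (Matrix.toLin' P) := by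
    show (Matrix.toLin' P).comp (Matrix.toLin' P) = Matrix.toLin' P
    rw [← Matrix.toLin'_mul, h]
  have h2 : LinearMap.trace K (J → K) (Matrix.toLin' P) = 0 := by
    rw [Matrix.trace_toLin'_eq, h0]
  have h3 := LinearMap.IsIdempotentElem.eq_zero_of_trace_eq_zero h1 h2
  simpa using h3

end idem

end

end Pool.Agent.CMFn.QAlgX
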