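import Pool.Agent.CMFn.IsInt
import Pool.Agent.CMFn.QAlgA

/-! Project CMF in rank `r` (MP_4af2a6_al), block Q, module QAlg: joint spectral elements of
commuting elements of the Hecke algebra whose spectra consist of monomials, and the integrality of
sets of characters separated by them. -/

set_option linter.unusedSectionVars false

namespace Pool.Agent.CMF

open Matrix Polynomial Filter Topology Pool.Agent.CMFn.QAlgX

noncomputable section

variable {Z : Type} [CommRing Z] [IsDomain Z] [Algebra Z ℂ] {ι : Type}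

variable [Fintype ι] {D : HData Z ι} {M : ℕ} (Q : KZData D M)

/-- Commuting elements `w_i` of `H` with eigenvalues `v^a`, `a ∈ E_i`; `A_i(κ)` is the first order
term of `w_i` at `κ = 0`. -/
structure TwFam (n : ℕ) where
  w : Fin n → D.H
  comm : ∀ i j, w i * w j = w j * w i
  E : Fin n → Finset (ι →₀ ℤ)
  A : Fin n → (ι → ℂ) → ∀ l, Matrix (Fin (D.d l)) (Fin (D.d l)) ℂ
  poly : ∀ i l κ, Polynomial.aeval (Q.ρ κ l (w i)) (∏ a ∈ E i, (X - C (evL Z M κ (mon a)))) = 0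
  one : ∀ i l, Q.ρ 0 l (w i) = 1
  der : ∀ i κ l p q, HasDerivAt (fun t : ℂ => Q.ρ (t • κ) l (w i) p q)
    (-(2 * Real.pi * Complex.I / M) * A i κ l p q) 0

theorem mon_injective : Function.Injective (mon : (ι →₀ ℤ) → Lau Z ι) := by
  intro a b h
  exact AddMonoidAlgebra.of_injective (R := Z) h

theorem KZData.ρ_aeval' (κ : ι → ℂ) (l : D.Λ) (h : D.H) (p : Polynomial (Lau Z ι)) :
    Q.ρ κ l (Polynomial.aeval h p) = Polynomial.aeval (Q.ρ κ l h) (p.map (evL Z M κ)) := by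
  induction p using Polynomial.induction_on' with
  | add p q hp hq => rw [map_add, map_add, hp, hq, Polynomial.map_add, map_add]
  | monomial n a =>
    rw [Polynomial.aeval_monomial, map_mul, map_pow, Q.ρ_algebraMap, Polynomial.map_monomial,
      Polynomial.aeval_monomial, Algebra.algebraMap_eq_smul_one]

variable {Q} {n : ℕ}

namespace TwFam

variable (T : TwFam Q n)

/-- The evaluation homomorphism. -/
def Ψ : MvPolynomial (Fin n) (Lau Z ι) →ₐ[Lau Z ι] D.H :=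
  (exists_hom (R := Lau Z ι) T.w T.comm).choose

theorem Ψ_X (i : Fin n) : T.Ψ (MvPolynomial.X i) = T.w i :=
  (exists_hom (R := Lau Z ι) T.w T.comm).choose_spec i

open Classical in
/-- The joint spectral element `Π_i Π_{a ≠ e_i} (w_i - v^a)`. -/
def f (e : Fin n → (ι →₀ ℤ)) : D.H := T.Ψ (pe mon T.E e)

open Classical in
/-- `Π_i Π_{a ≠ e_i} (v^{e_i} - v^a)`. -/
def del (e : Fin n → (ι →₀ ℤ)) : Lau Z ι := de mon T.E e

open Classical in
/-- The spectral projection of `A_i(κ)` for the eigenvalue `⟨e_i, κ⟩`. -/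
def pr (e : Fin n → (ι →₀ ℤ)) (κ : ι → ℂ) (l : D.Λ) (i : Fin n) :
    Matrix (Fin (D.d l)) (Fin (D.d l)) ℂ :=
  (db (fun a => pairC a κ) (T.E i) (e i))⁻¹ •
    Polynomial.aeval (T.A i κ l) (Pb (fun a => pairC a κ) (T.E i) (e i))

/-- The rank of the joint spectral projection. -/
def rk (e : Fin n → (ι →₀ ℤ)) (κ : ι → ℂ) (l : D.Λ) : ℂ :=
  (List.ofFn (T.pr e κ l)).prod.trace

/-- The eigenvalues are different at `κ`. -/
def Gen (κ : ι → ℂ) : Prop := ∀ i, ∀ a ∈ T.E i, ∀ a' ∈ T.E i, a ≠ a' → pairC a κ ≠ pairC a' κ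

open Classical in
theorem Ψ_Pt (hinj : Function.Injective (algebraMap Z ℂ)) (hM : 0 < M) (i : Fin n) :
    T.Ψ (Polynomial.aeval (MvPolynomial.X i) (Pt (mon : (ι →₀ ℤ) → Lau Z ι) (T.E i))) = 0 := by
  rw [← Polynomial.aeval_algHom_apply, T.Ψ_X]
  apply Q.ρ_inj hinj hM
  intro κ l
  rw [Q.ρ_aeval', Pt, Polynomial.map_prod]
  have h := T.poly i l κ
  rw [← h]
  congr 1
  refine Finset.prod_congr rfl fun a _ => ?_
  rw [Polynomial.map_sub, Polynomial.map_X, Polynomial.map_C]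

open Classical in
theorem f_sq (hinj : Function.Injective (algebraMap Z ℂ)) (hM : 0 < M) (e : Fin n → (ι →₀ ℤ))
    (he : ∀ i, e i ∈ T.E i) : T.f e * T.f e = T.del e • T.f e :=
  pe_sq mon T.Ψ T.E (T.Ψ_Pt hinj hM) e he

open Classical in
theorem del_ne (e : Fin n → (ι →₀ ℤ)) : T.del e ≠ 0 := by
  rw [del, de, Finset.prod_ne_zero_iff]
  intro i _
  rw [db, Finset.prod_ne_zero_iff]
  intro a ha h
  exact (Finset.mem_erase.1 ha).1 (mon_injective (sub_eq_zero.1 h)).symm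

theorem exists_k (hinj : Function.Injective (algebraMap Z ℂ)) (hM : 0 < M)
    (e : Fin n → (ι →₀ ℤ)) (he : ∀ i, e i ∈ T.E i) (l : D.Λ) :
    ∃ k : ℕ, D.X l (T.f e) = (k : Lau Z ι) * T.del e := by
  set δ : D.K := algebraMap (Lau Z ι) D.K (T.del e) with hδ
  have hδ0 : δ ≠ 0 := by
    intro h
    apply T.del_ne e
    apply D.injK
    rw [← hδ, h, map_zero]
  have h1 : D.R l (T.f e) * D.R l (T.f e) = δ • D.R l (T.f e) := by
    rw [← map_mul, T.f_sq hinj hM e he, D.R_smul]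
  obtain ⟨k, hk⟩ := idem_trace (δ⁻¹ • D.R l (T.f e)) (by
    rw [smul_mul_smul_comm, h1, smul_smul]
    congr 1
    field_simp)
  refine ⟨k, ?_⟩
  apply D.injK
  rw [← D.trR, map_mul, map_natCast, ← hk, Matrix.trace_smul, smul_eq_mul, ← hδ]
  field_simp

open Classical in
theorem ρ_f (κ : ι → ℂ) (l : D.Λ) (e : Fin n → (ι →₀ ℤ)) : Q.ρ κ l (T.f e) =
    (List.ofFn fun i => Polynomial.aeval (Q.ρ κ l (T.w i))
      (Pb (fun a => evL Z M κ (mon a)) (T.E i) (e i))).prod := by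
  rw [f, pe_map]
  congr 2
  funext i
  rw [T.Ψ_X, Q.ρ_aeval', Pb, Pb, Polynomial.map_prod]
  congr 1
  refine Finset.prod_congr rfl fun a _ => ?_
  rw [Polynomial.map_sub, Polynomial.map_X, Polynomial.map_C]

open Classical in
theorem evL_del (κ : ι → ℂ) (e : Fin n → (ι →₀ ℤ)) : evL Z M κ (T.del e) =
    ∏ i, db (fun a => evL Z M κ (mon a)) (T.E i) (e i) := by
  rw [del, de, map_prod]
  refine Finset.prod_congr rfl fun i _ => ?_
  rw [db, db, map_prod]
  exact Finset.prod_congr rfl fun a _ => map_sub _ _ _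

/-! ### The limit at `κ = 0` -/

section limit

variable {J : Type} [Fintype J] [DecidableEq J]

theorem tendsto_factor {c β α : ℂ} (hc : c ≠ 0) (hβα : β ≠ α) {W : ℂ → Matrix J J ℂ}
    {A : Matrix J J ℂ} {zb za : ℂ → ℂ} (hW0 : W 0 = 1)
    (hW : ∀ p q, HasDerivAt (fun t => W t p q) (c * A p q) 0) (hb0 : zb 0 = 1) (ha0 : za 0 = 1)
    (hb : HasDerivAt zb (c * β) 0) (ha : HasDerivAt za (c * α) 0) :
    Tendsto (fun t => (zb t - za t)⁻¹ • (W t - za t • (1 : Matrix J J ℂ))) (𝓝[≠] 0)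
      (𝓝 ((β - α)⁻¹ • (A - α • (1 : Matrix J J ℂ)))) := by
  have hWt : Tendsto (fun t : ℂ => t⁻¹ • (W t - 1)) (𝓝[≠] 0) (𝓝 (c • A)) := by
    refine tendsto_pi_nhds.2 fun p => tendsto_pi_nhds.2 fun q => ?_
    have h1 := (hasDerivAt_iff_tendsto_slope_zero.1 (hW p q))
    simp only [zero_add] at h1
    rw [hW0] at h1
    exact h1
  have hbt : Tendsto (fun t : ℂ => t⁻¹ • (zb t - 1)) (𝓝[≠] 0) (𝓝 (c * β)) := by
    have h1 := (hasDerivAt_iff_tendsto_slope_zero.1 hb)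
    simp only [zero_add] at h1
    rw [hb0] at h1
    exact h1
  have hat : Tendsto (fun t : ℂ => t⁻¹ • (za t - 1)) (𝓝[≠] 0) (𝓝 (c * α)) := by
    have h1 := (hasDerivAt_iff_tendsto_slope_zero.1 ha)
    simp only [zero_add] at h1
    rw [ha0] at h1
    exact h1
  have h2 : c * β - c * α ≠ 0 := by
    rw [← mul_sub]
    exact mul_ne_zero hc (sub_ne_zero.2 hβα)
  have h3 := ((hbt.sub hat).inv₀ h2).smul (hWt.sub (hat.smul
    (tendsto_const_nhds (x := (1 : Matrix J J ℂ)))))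
  have e1 : (c * β - c * α)⁻¹ • (c • A - (c * α) • (1 : Matrix J J ℂ)) =
      (β - α)⁻¹ • (A - α • (1 : Matrix J J ℂ)) := by
    rw [mul_smul c α, ← smul_sub c, smul_smul]
    congr 1
    have h4 : β - α ≠ 0 := sub_ne_zero.2 hβα
    rw [← mul_sub]
    field_simp
  rw [e1] at h3
  refine h3.congr' ?_
  filter_upwards [self_mem_nhdsWithin] with t ht
  have ht0 : t ≠ 0 := ht
  have e2 : t⁻¹ • (zb t - 1) - t⁻¹ • (za t - 1) = t⁻¹ * (zb t - za t) := by
    rw [smul_eq_mul, smul_eq_mul]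
    ring
  have e3 : t⁻¹ • (W t - 1) - (t⁻¹ • (za t - 1)) • (1 : Matrix J J ℂ) =
      t⁻¹ • (W t - za t • (1 : Matrix J J ℂ)) := by
    rw [smul_assoc, ← smul_sub, sub_smul, one_smul]
    congr 1
    abel
  rw [e2, e3, smul_smul]
  congr 1
  rw [mul_inv, inv_inv, mul_comm t, mul_assoc, mul_inv_cancel₀ ht0, mul_one]

theorem tendsto_Pb {I : Type} [DecidableEq I] {c : ℂ} (hc : c ≠ 0) {W : ℂ → Matrix J J ℂ}
    {A : Matrix J J ℂ} (hW0 : W 0 = 1) (hW : ∀ p q, HasDerivAt (fun t => W t p q) (c * A p q) 0)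
    (α : I → ℂ) (z : ℂ → I → ℂ) (hz0 : ∀ a, z 0 a = 1)
    (hz : ∀ a, HasDerivAt (fun t => z t a) (c * α a) 0) (b : I) (s : Finset I)
    (hs : ∀ a ∈ s, α b ≠ α a) :
    Tendsto (fun t => (∏ a ∈ s, (z t b - z t a))⁻¹ •
      Polynomial.aeval (W t) (∏ a ∈ s, (X - C (z t a)))) (𝓝[≠] 0)
      (𝓝 ((∏ a ∈ s, (α b - α a))⁻¹ • Polynomial.aeval A (∏ a ∈ s, (X - C (α a))))) := by
  induction s using Finset.induction_on with
  | empty => simp
  | insert a s ha ih =>
    have h1 := (tendsto_factor hc (hs a (Finset.mem_insert_self a s)) hW0 hW (hz0 b) (hz0 a) (hz b)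
      (hz a)).mul (ih fun x hx => hs x (Finset.mem_insert_of_mem hx))
    have e : ∀ (W : Matrix J J ℂ) (z : I → ℂ), ((z b - z a)⁻¹ • (W - z a • (1 : Matrix J J ℂ))) *
        ((∏ a ∈ s, (z b - z a))⁻¹ • Polynomial.aeval W (∏ a ∈ s, (X - C (z a)))) =
        (∏ a ∈ insert a s, (z b - z a))⁻¹ •
          Polynomial.aeval W (∏ a ∈ insert a s, (X - C (z a))) := by
      intro W z
      rw [Finset.prod_insert ha, Finset.prod_insert ha, map_mul, map_sub, aeval_X, aeval_C,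
        Algebra.algebraMap_eq_smul_one, smul_mul_smul_comm, mul_inv]
    rw [e A α] at h1
    refine h1.congr fun t => ?_
    exact e (W t) (z t)

end limit

open Classical in
theorem tendsto_f (hM : 0 < M) (e : Fin n → (ι →₀ ℤ)) (κ : ι → ℂ) (hκ : T.Gen κ)
    (he : ∀ i, e i ∈ T.E i) (l : D.Λ) :
    Tendsto (fun t : ℂ => (evL Z M (t • κ) (T.del e))⁻¹ • Q.ρ (t • κ) l (T.f e)) (𝓝[≠] 0)
      (𝓝 (List.ofFn (T.pr e κ l)).prod) := by
  have hc : -(2 * (Real.pi : ℂ) * Complex.I / M) ≠ 0 := I4X.const_ne hM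
  set c : ℂ := -(2 * (Real.pi : ℂ) * Complex.I / M) with hcdef
  have hz : ∀ (t : ℂ) (a : ι →₀ ℤ), evL Z M (t • κ) (mon a) = Complex.exp (c * (t * pairC a κ)) := by
    intro t a
    rw [evL_mon, pairC_smul, hcdef]
  have hz0 : ∀ a : ι →₀ ℤ, evL Z M ((0 : ℂ) • κ) (mon a) = 1 := by
    intro a
    rw [hz, zero_mul, mul_zero, Complex.exp_zero]
  have hzd : ∀ a : ι →₀ ℤ, HasDerivAt (fun t : ℂ => evL Z M (t • κ) (mon a))
      (c * pairC a κ) 0 := by
    intro a
    have h1 : HasDerivAt (fun t : ℂ => Complex.exp (c * (t * pairC a κ)))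
        (Complex.exp (c * (0 * pairC a κ)) * (c * (1 * pairC a κ))) 0 :=
      (((hasDerivAt_id (0 : ℂ)).mul_const (pairC a κ)).const_mul c).cexp
    rw [zero_mul, mul_zero, Complex.exp_zero, one_mul, one_mul] at h1
    refine h1.congr_of_eventuallyEq ?_
    exact Filter.Eventually.of_forall fun t => hz t a
  have h2 : ∀ i, Tendsto (fun t : ℂ => (db (fun a => evL Z M (t • κ) (mon a)) (T.E i) (e i))⁻¹ •
      Polynomial.aeval (Q.ρ (t • κ) l (T.w i))
        (Pb (fun a => evL Z M (t • κ) (mon a)) (T.E i) (e i))) (𝓝[≠] 0) (𝓝 (T.pr e κ l i)) := by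
    intro i
    refine tendsto_Pb (W := fun t => Q.ρ (t • κ) l (T.w i)) hc ?_ (fun p q => T.der i κ l p q)
      (fun a => pairC a κ) (fun t a => evL Z M (t • κ) (mon a)) hz0 hzd (e i) _ ?_
    · rw [zero_smul]
      exact T.one i l
    · intro a ha
      exact hκ i (e i) (he i) a (Finset.mem_of_mem_erase ha) (Finset.ne_of_mem_erase ha).symm
  have h3 := tendsto_list_prod (x := 𝓝[≠] (0 : ℂ)) (List.finRange n) (fun i _ => h2 i)
  rw [List.ofFn_eq_map]
  refine h3.congr fun t => ?_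
  rw [T.ρ_f, T.evL_del, ← List.prod_ofFn, List.ofFn_eq_map, List.ofFn_eq_map]
  induction (List.finRange n) with
  | nil => simp
  | cons a L ih =>
    rw [List.map_cons, List.map_cons, List.map_cons, List.prod_cons, List.prod_cons,
      List.prod_cons, ih, smul_mul_smul_comm, mul_inv]

open Classical in
theorem eventually_ne (hM : 0 < M) (e : Fin n → (ι →₀ ℤ)) (κ : ι → ℂ) (hκ : T.Gen κ)
    (he : ∀ i, e i ∈ T.E i) : ∀ᶠ t in 𝓝[≠] (0 : ℂ), evL Z M (t • κ) (T.del e) ≠ 0 := by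
  have hc : -(2 * (Real.pi : ℂ) * Complex.I / M) ≠ 0 := I4X.const_ne hM
  set c : ℂ := -(2 * (Real.pi : ℂ) * Complex.I / M) with hcdef
  have h1 : ∀ i, ∀ a ∈ (T.E i).erase (e i), ∀ᶠ t in 𝓝[≠] (0 : ℂ),
      evL Z M (t • κ) (mon (e i)) - evL Z M (t • κ) (mon a) ≠ 0 := by
    intro i a ha
    have hne : pairC (e i) κ ≠ pairC a κ :=
      hκ i (e i) (he i) a (Finset.mem_of_mem_erase ha) (Finset.ne_of_mem_erase ha).symm
    have hd : HasDerivAt (fun t : ℂ => Complex.exp (c * (t * pairC (e i) κ)) -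
        Complex.exp (c * (t * pairC a κ)))
        (Complex.exp (c * (0 * pairC (e i) κ)) * (c * (1 * pairC (e i) κ)) -
          Complex.exp (c * (0 * pairC a κ)) * (c * (1 * pairC a κ))) 0 :=
      ((((hasDerivAt_id (0 : ℂ)).mul_const _).const_mul c).cexp).sub
        ((((hasDerivAt_id (0 : ℂ)).mul_const _).const_mul c).cexp)
    have hd0 : Complex.exp (c * (0 * pairC (e i) κ)) * (c * (1 * pairC (e i) κ)) -
          Complex.exp (c * (0 * pairC a κ)) * (c * (1 * pairC a κ)) ≠ 0 := by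
      rw [zero_mul, zero_mul, mul_zero, Complex.exp_zero, one_mul, one_mul, one_mul, one_mul,
        ← mul_sub]
      exact mul_ne_zero hc (sub_ne_zero.2 hne)
    have h2 := hd.eventually_ne hd0 (c := 0)
    filter_upwards [h2] with t ht
    rw [evL_mon, evL_mon, pairC_smul, pairC_smul, ← hcdef]
    exact ht
  have h2 : ∀ᶠ t in 𝓝[≠] (0 : ℂ), ∀ i, ∀ a ∈ (T.E i).erase (e i),
      evL Z M (t • κ) (mon (e i)) - evL Z M (t • κ) (mon a) ≠ 0 := by
    rw [Filter.eventually_all]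
    intro i
    rw [Filter.eventually_all_finset]
    exact fun a ha => h1 i a ha
  filter_upwards [h2] with t ht
  rw [T.evL_del, Finset.prod_ne_zero_iff]
  intro i _
  rw [db, Finset.prod_ne_zero_iff]
  exact fun a ha => ht i a ha

/-- The character values of the joint spectral elements. -/
theorem X_f (hinj : Function.Injective (algebraMap Z ℂ)) (hM : 0 < M)
    (e : Fin n → (ι →₀ ℤ)) (he : ∀ i, e i ∈ T.E i) (κ : ι → ℂ) (hκ : T.Gen κ) (l : D.Λ) :
    ∃ k : ℕ, T.rk e κ l = k ∧ D.X l (T.f e) = (k : Lau Z ι) * T.del e := by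
  obtain ⟨k, hk⟩ := T.exists_k hinj hM e he l
  refine ⟨k, ?_, hk⟩
  have h1 : Tendsto (fun t : ℂ => ((evL Z M (t • κ) (T.del e))⁻¹ •
      Q.ρ (t • κ) l (T.f e)).trace) (𝓝[≠] 0) (𝓝 (T.rk e κ l)) :=
    ((Continuous.matrix_trace continuous_id).tendsto _).comp (T.tendsto_f hM e κ hκ he l)
  have h2 : Tendsto (fun t : ℂ => ((evL Z M (t • κ) (T.del e))⁻¹ •
      Q.ρ (t • κ) l (T.f e)).trace) (𝓝[≠] 0) (𝓝 (k : ℂ)) := by
    refine tendsto_const_nhds.congr' ?_
    filter_upwards [T.eventually_ne hM e κ hκ he] with t ht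
    rw [Matrix.trace_smul, Q.tr, hk, map_mul, map_natCast, smul_eq_mul]
    field_simp
  exact tendsto_nhds_unique h1 h2

/-- Rank zero: the element acts as zero. -/
theorem ρ_f_zero (hinj : Function.Injective (algebraMap Z ℂ)) (hM : 0 < M)
    (e : Fin n → (ι →₀ ℤ)) (he : ∀ i, e i ∈ T.E i) (κ₀ : ι → ℂ) (hκ : T.Gen κ₀) (l : D.Λ)
    (h0 : T.rk e κ₀ l = 0) (κ : ι → ℂ) : Q.ρ κ l (T.f e) = 0 := by
  obtain ⟨k, hk, hX⟩ := T.X_f hinj hM e he κ₀ hκ l
  have hX0 : D.X l (T.f e) = 0 := by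
    have : k = 0 := by
      rw [h0] at hk
      exact_mod_cast hk.symm
    rw [hX, this, Nat.cast_zero, zero_mul]
  have h1 : ∀ κ : ι → ℂ, evL Z M κ (T.del e) ≠ 0 → Q.ρ κ l (T.f e) = 0 := by
    intro κ hne
    have h2 : Q.ρ κ l (T.f e) * Q.ρ κ l (T.f e) = evL Z M κ (T.del e) • Q.ρ κ l (T.f e) := by
      rw [← map_mul, T.f_sq hinj hM e he, Q.ρ_smul]
    have h3 := idem_zero ((evL Z M κ (T.del e))⁻¹ • Q.ρ κ l (T.f e)) (by
      rw [smul_mul_smul_comm, h2, smul_smul]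
      congr 1
      field_simp) (by
      rw [Matrix.trace_smul, Q.tr, hX0, map_zero, smul_zero])
    exact (smul_eq_zero.1 h3).resolve_left (inv_ne_zero hne)
  have hne : ∃ κ : ι → ℂ, evL Z M κ (T.del e) ≠ 0 := by
    by_contra hcon
    push Not at hcon
    exact T.del_ne e (evL_inj hinj hM _ hcon)
  have hd : Dense {κ : ι → ℂ | ∀ _ : Unit, evL Z M κ (T.del e) ≠ 0} :=
    dense_generic (fun _ : Unit => fun κ : ι → ℂ => evL Z M κ (T.del e))
      (fun _ => evL_hol (T.del e)) (fun _ => hne)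
  ext p q
  have hcont : Continuous fun κ : ι → ℂ => Q.ρ κ l (T.f e) p q := (Q.hol l (T.f e) p q).1
  have h4 : (fun κ : ι → ℂ => Q.ρ κ l (T.f e) p q) = fun _ => 0 := by
    refine Continuous.ext_on hd hcont continuous_const ?_
    intro κ hκ'
    have := h1 κ (hκ' ())
    simp only
    rw [this, Matrix.zero_apply]
  exact congrFun h4 κ

open Classical in
theorem del_dlt (e : Fin n → (ι →₀ ℤ)) : T.del e =
    dlt Z (fun p : (Σ i : Fin n, {a // a ∈ (T.E i).erase (e i)}) => (e p.1, p.2.1)) := by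
  rw [del, de, dlt, Fintype.prod_sigma]
  refine Finset.prod_congr rfl fun i _ => ?_
  rw [db, Finset.prod_coe_sort ((T.E i).erase (e i)) (fun a => (mon (e i) - mon a : Lau Z ι))]

open Classical in
theorem db_dlt : (∏ i, ∏ b ∈ T.E i, db (mon : (ι →₀ ℤ) → Lau Z ι) (T.E i) b) =
    dlt Z (fun p : (Σ i : Fin n, {q // q ∈ (T.E i).offDiag}) => p.2.1) := by
  rw [dlt, Fintype.prod_sigma]
  refine Finset.prod_congr rfl fun i _ => ?_
  have h2 : ∀ b ∈ T.E i, db (mon : (ι →₀ ℤ) → Lau Z ι) (T.E i) b =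
      ∏ a ∈ T.E i, if b ≠ a then (mon b - mon a : Lau Z ι) else 1 := by
    intro b _
    rw [db, ← Finset.prod_filter]
    apply Finset.prod_congr _ (fun _ _ => rfl)
    ext a'
    simp only [Finset.mem_erase, Finset.mem_filter]
    exact ⟨fun h => ⟨h.2, Ne.symm h.1⟩, fun h => ⟨Ne.symm h.2, h.1⟩⟩
  rw [Finset.prod_congr rfl h2,
    ← Finset.prod_product' (T.E i) (T.E i) (fun a a' => if a ≠ a' then (mon a - mon a' : Lau Z ι)
      else 1), ← Finset.prod_filter, Finset.prod_coe_sort (T.E i).offDiag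
      (fun p => (mon p.1 - mon p.2 : Lau Z ι))]
  apply Finset.prod_congr _ (fun _ _ => rfl)
  ext p
  simp only [Finset.mem_filter, Finset.mem_product, Finset.mem_offDiag]
  tauto

theorem E_nonempty (l : D.Λ) (i : Fin n) : (T.E i).Nonempty := by
  rw [Finset.nonempty_iff_ne_empty]
  intro h
  have h1 := T.poly i l 0
  rw [h, Finset.prod_empty, map_one] at h1
  have h2 := congrFun (congrFun h1 ⟨0, D.d_pos l⟩) ⟨0, D.d_pos l⟩
  simp at h2

end TwFam

variable {C : (ι →₀ ℤ) → Prop} {F E₀ : D.Λ → Prop}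

open Classical in
/-- A set `F` which is a union of joint spectral supports inside `E₀` is integral. -/
theorem isInt_of_tw (hinj : Function.Injective (algebraMap Z ℂ)) (hM : 0 < M) (T : TwFam Q n)
    (hE : IsInt Q C E₀) (hFE : ∀ l, F l → E₀ l)
    (hC : ∀ i, ∀ a ∈ T.E i, ∀ a' ∈ T.E i, a ≠ a' → C (a - a')) (κ : ι → ℂ) (hκ : T.Gen κ)
    (hz : ∀ e ∈ Fintype.piFinset T.E, (∀ l, F l → T.rk e κ l = 0) ∨
      (∀ l, E₀ l → ¬ F l → T.rk e κ l = 0)) : IsInt Q C F := by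
  by_cases hΛ : Nonempty D.Λ
  · obtain ⟨l₀⟩ := hΛ
    refine isInt_of_paths hE hFE
      (I := {e : Fin n → (ι →₀ ℤ) // e ∈ Fintype.piFinset T.E})
      (fun e => (∏ i, ∏ b ∈ (T.E i).erase (e.1 i), db (mon : (ι →₀ ℤ) → Lau Z ι) (T.E i) b) •
        T.f e.1)
      (fun p : (Σ i : Fin n, {q // q ∈ (T.E i).offDiag}) => p.2.1) ?_ ?_ ?_ ?_
    · rintro ⟨i, q, hq⟩
      exact (Finset.mem_offDiag.1 hq).2.2
    · rintro ⟨i, q, hq⟩
      obtain ⟨h1, h2, h3⟩ := Finset.mem_offDiag.1 hq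
      exact hC i _ h1 _ h2 h3
    · intro κ' l _
      have h1 := pe_sum (mon : (ι →₀ ℤ) → Lau Z ι) T.Ψ T.E mon_injective
        (fun i => T.E_nonempty l₀ i)
      rw [T.db_dlt] at h1
      have h2 := congrArg (Q.ρ κ' l) h1
      rw [map_sum, Q.ρ_smul, map_one] at h2
      rw [← h2]
      exact Finset.sum_coe_sort (Fintype.piFinset T.E) (fun e => Q.ρ κ' l
        ((∏ i, ∏ b ∈ (T.E i).erase (e i), db (mon : (ι →₀ ℤ) → Lau Z ι) (T.E i) b) •
          T.Ψ (pe mon T.E e)))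
    · rintro ⟨e, he⟩
      have he' : ∀ i, e i ∈ T.E i := Fintype.mem_piFinset.1 he
      rcases hz e he with h | h
      · left
        intro κ' l hl
        rw [Q.ρ_smul, T.ρ_f_zero hinj hM e he' κ hκ l (h l hl), smul_zero]
      · right
        intro κ' l hl hl'
        rw [Q.ρ_smul, T.ρ_f_zero hinj hM e he' κ hκ l (h l hl hl'), smul_zero]
  · exact isInt_true.congr fun l => absurd ⟨l⟩ hΛ

theorem X_IntData (hinj : Function.Injective (algebraMap Z ℂ)) (hM : 0 < M)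
    (h : IntData Q C E₀) (l : D.Λ) (x : D.H) :
    (E₀ l → D.X l (h.X * x) = dlt Z h.P * D.X l x) ∧ (¬ E₀ l → D.X l (h.X * x) = 0) := by
  constructor
  · intro hl
    rw [← sub_eq_zero]
    apply evL_inj hinj hM
    intro κ
    rw [map_sub, ← Q.tr, map_mul (Q.ρ κ l), h.pos κ l hl, map_mul (evL Z M κ), ← Q.tr,
      smul_mul_assoc, one_mul, Matrix.trace_smul, smul_eq_mul, sub_self]
  · intro hl
    apply evL_inj hinj hM
    intro κ
    rw [← Q.tr, map_mul (Q.ρ κ l), h.neg κ l hl, zero_mul, Matrix.trace_zero]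

open Classical in
/-- Isolation of a character `l` inside `E₀`: joint spectral elements whose only character in `E₀`
is `l`, with coprime ranks. -/
theorem isInt_single_of_tw (hinj : Function.Injective (algebraMap Z ℂ)) (hM : 0 < M) (l : D.Λ)
    (hE : IsInt Q C E₀) (hl : E₀ l) {I : Type} [Fintype I] (n : I → ℕ)
    (T : ∀ i, TwFam Q (n i)) (e : ∀ i, Fin (n i) → (ι →₀ ℤ)) (he : ∀ i j, e i j ∈ (T i).E j)
    (hC : ∀ i j, ∀ a ∈ (T i).E j, ∀ a' ∈ (T i).E j, a ≠ a' → C (a - a')) (κ : I → ι → ℂ)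
    (hκ : ∀ i, (T i).Gen (κ i)) (m u : I → ℤ) (hm : ∀ i, (T i).rk (e i) (κ i) l = m i)
    (h0 : ∀ i μ, E₀ μ → μ ≠ l → (T i).rk (e i) (κ i) μ = 0) (hu : ∑ i, u i * m i = 1) :
    IsInt Q C (fun μ => μ = l) := by
  obtain ⟨h⟩ := hE
  refine isInt_of_bezout l (fun i => h.X * (T i).f (e i)) m u
    (fun i => h.J ⊕ (Σ j : Fin (n i), {a // a ∈ ((T i).E j).erase (e i j)}))
    (fun i => Sum.elim h.P (fun p => (e i p.1, p.2.1))) ?_ ?_ ?_ ?_ hu
  · rintro i (j | ⟨j, a, ha⟩)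
    · exact h.ne j
    · exact (Finset.ne_of_mem_erase ha).symm
  · rintro i (j | ⟨j, a, ha⟩)
    · exact h.cond j
    · exact hC i j _ (he i j) _ (Finset.mem_of_mem_erase ha) (Finset.ne_of_mem_erase ha).symm
  · intro i
    obtain ⟨k, hk, hX⟩ := (T i).X_f hinj hM (e i) (he i) (κ i) (hκ i) l
    have hkm : (k : ℤ) = m i := by
      have := hk.symm.trans (hm i)
      exact_mod_cast this
    rw [(X_IntData hinj hM h l _).1 hl, hX, dlt_sum, (T i).del_dlt (e i), ← hkm, Int.cast_natCast]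
    ring
  · intro i μ hμ
    by_cases hEμ : E₀ μ
    · obtain ⟨k, hk, hX⟩ := (T i).X_f hinj hM (e i) (he i) (κ i) (hκ i) μ
      rw [h0 i μ hEμ hμ] at hk
      have hk0 : k = 0 := by exact_mod_cast hk.symm
      rw [(X_IntData hinj hM h μ _).1 hEμ, hX, hk0, Nat.cast_zero, zero_mul, mul_zero]
    · exact (X_IntData hinj hM h μ _).2 hEμ

end

end Pool.Agent.CMF
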