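import Pool.Agent.CMFn.QFinA
import Pool.Agent.CMFn.QAlg

/-! Project CMF, block Q (every rank): isolation of characters by one twist, for groups whose
reflections have order two and form one class. -/

namespace Pool.Agent.CMFn

open Matrix Polynomial
open Pool.Agent.CMF (HData KZData Lau mon pair pairC evL TwFam IsInt)
open Pool.Agent.CMFn.QAlgX (Pb db)

noncomputable section

namespace QFinX

/-- An affine change of the variable in a product of linear factors. -/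
theorem aeval_shift {J : Type} [Fintype J] [DecidableEq J] (a b : ℂ) (z : Matrix J J ℂ)
    (S : Finset ℤ) (f : ℤ → ℂ) (hf : ∀ c ∈ S, f c = a * c + b) :
    aeval (a • z + b • (1 : Matrix J J ℂ)) (∏ c ∈ S, (X - C (f c))) =
      a ^ S.card • aeval z (∏ c ∈ S, (X - C (c : ℂ))) := by
  classical
  induction S using Finset.induction_on with
  | empty => simp
  | insert c S hc ih =>
    rw [Finset.prod_insert hc, Finset.prod_insert hc, Finset.card_insert_of_notMem hc, map_mul,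
      map_mul, ih fun x hx => hf x (Finset.mem_insert_of_mem hx), hf c (Finset.mem_insert_self c S)]
    have h1 : aeval (a • z + b • (1 : Matrix J J ℂ)) (X - C (a * c + b)) =
        a • aeval z (X - C (c : ℂ)) := by
      rw [map_sub, map_sub, aeval_X, aeval_X, aeval_C, aeval_C, Algebra.algebraMap_eq_smul_one,
        Algebra.algebraMap_eq_smul_one]
      module
    rw [h1, smul_mul_smul_comm, pow_succ']

variable {ι : Type}

/-- The exponent of the eigenvalue `c` of the sum of the reflections at a point in `n`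
hyperplanes. -/
def exq (M n : ℕ) (i₀ i₁ : ι) (c : ℤ) : ι →₀ ℤ :=
  Finsupp.single i₀ ((M : ℤ) * (c + n)) + Finsupp.single i₁ ((M : ℤ) * (n - c))

theorem pairC_exq (M n : ℕ) (i₀ i₁ : ι) (c : ℤ) (κ : ι → ℂ) :
    pairC (exq M n i₀ i₁ c) κ = (M : ℂ) * ((κ i₀ - κ i₁) * c + n * (κ i₀ + κ i₁)) := by
  unfold pairC pair exq
  rw [Finsupp.sum_add_index', Finsupp.sum_single_index, Finsupp.sum_single_index]
  · push_cast
    ring
  · simp
  · simp
  · intro i
    simp
  · intro i x y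
    push_cast
    ring

theorem exq_sub (M n : ℕ) (i₀ i₁ : ι) (c c' : ℤ) :
    exq M n i₀ i₁ c - exq M n i₀ i₁ c' =
      ((M : ℤ) * (c - c')) • (Finsupp.single i₀ 1 - Finsupp.single i₁ 1) := by
  have h1 : ((M : ℤ) * (c - c')) • (Finsupp.single i₀ (1 : ℤ) - Finsupp.single i₁ 1) =
      Finsupp.single i₀ ((M : ℤ) * (c - c')) - Finsupp.single i₁ ((M : ℤ) * (c - c')) := by
    rw [smul_sub, Finsupp.smul_single, Finsupp.smul_single, smul_eq_mul, mul_one]
  have h2 : (M : ℤ) * (c - c') = (M : ℤ) * (c + n) - (M : ℤ) * (c' + n) := by ring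
  have h3 : Finsupp.single i₁ ((M : ℤ) * (c - c')) =
      Finsupp.single i₁ ((M : ℤ) * (n - c')) - Finsupp.single i₁ ((M : ℤ) * (n - c)) := by
    rw [← Finsupp.single_sub]
    congr 1
    ring
  rw [h1, h3, h2, Finsupp.single_sub]
  unfold exq
  abel

theorem exq_inj {M : ℕ} (hM : 0 < M) (n : ℕ) {i₀ i₁ : ι} (hi : i₀ ≠ i₁) :
    Function.Injective (exq M n i₀ i₁) := by
  classical
  intro c c' h
  have h1 := congrArg (fun a => pairC a (Pi.single i₀ (1 : ℂ))) h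
  simp only [pairC_exq, Pi.single_eq_same, Pi.single_eq_of_ne hi.symm] at h1
  have h2 : (M : ℂ) ≠ 0 := Nat.cast_ne_zero.2 hM.ne'
  have h3 := mul_left_cancel₀ h2 h1
  have h4 : (c : ℂ) = c' := by linear_combination h3
  exact_mod_cast h4

end QFinX

open QFinX

variable {r : ℕ} {N : SG r} [Fintype N] {Z : Type} [CommRing Z] [IsDomain Z] [Algebra Z ℂ]
  {ι : Type} [Fintype ι] {D : HData Z ι} {M : ℕ} {Q : KZData D M}

/-- The data of the residues: two parameters, reflections of order two, twists. -/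
structure Refl2 (N : SG r) [Fintype N] (Q : KZData D M) (i₀ i₁ : ι) where
  ρ : ∀ l : D.Λ, N →* Matrix (Fin (D.d l)) (Fin (D.d l)) ℂ
  sg : (ι → ℂ) → (Idx N → ℂ)
  ne : i₀ ≠ i₁
  sq : ∀ w : N, IsRefl w.1 → w * w = 1
  zero : ∀ κ (H : Arr N), sg κ (idx H 0) = κ i₀
  one : ∀ κ (H : Arr N), sg κ (idx H 1) = κ i₁
  tw : ∀ (p : Fin r → ℂ) (E : Finset (ι →₀ ℤ)),
    (∀ κ l, aeval (App (ρ l) (sg κ) p) (∏ a ∈ E, (X - C (pairC a κ / (M : ℂ)))) = 0) →
    ∃ T' : TwFam Q 1, T'.E = (fun _ => E) ∧ ∀ κ l, T'.A 0 κ l = (M : ℂ) • App (ρ l) (sg κ) p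

variable {i₀ i₁ : ι}

open Classical in
/-- The twist at `p`, with the spectrum `Cs` of the sum of the reflections. -/
theorem Refl2.exists_tw (R : Refl2 N Q i₀ i₁) (hM : 0 < M) (p : Fin r → ℂ) (Cs : Finset ℤ)
    (hCs : ∀ l, aeval (zP (R.ρ l) p) (∏ c ∈ Cs, (X - C (c : ℂ))) = 0) :
    ∃ T : TwFam Q 1, T.E = (fun _ => Cs.image (exq M (nP N p) i₀ i₁)) ∧
      T.Gen (Pi.single i₀ 1) ∧ ∀ c ∈ Cs, ∀ l,
        T.rk (fun _ => exq M (nP N p) i₀ i₁ c) (Pi.single i₀ 1) l =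
          (∏ c' ∈ Cs.erase c, ((c : ℂ) - c'))⁻¹ *
            (aeval (zP (R.ρ l) p) (∏ c' ∈ Cs.erase c, (X - C (c' : ℂ)))).trace := by
  have hM0 : (M : ℂ) ≠ 0 := Nat.cast_ne_zero.2 hM.ne'
  have hinj : Function.Injective (exq M (nP N p) i₀ i₁) := exq_inj hM _ R.ne
  have hApp : ∀ κ l, App (R.ρ l) (R.sg κ) p = (κ i₀ - κ i₁) • zP (R.ρ l) p +
      (nP N p * (κ i₀ + κ i₁) : ℂ) • 1 := fun κ l =>
    App_one R.sq (R.ρ l) (R.sg κ) _ _ (R.zero κ) (R.one κ) p
  obtain ⟨T, hE, hA⟩ := R.tw p (Cs.image (exq M (nP N p) i₀ i₁)) (by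
    intro κ l
    rw [Finset.prod_image fun x _ y _ h => hinj h, hApp,
      aeval_shift (κ i₀ - κ i₁) (nP N p * (κ i₀ + κ i₁)) _ Cs
        (fun c => pairC (exq M (nP N p) i₀ i₁ c) κ / (M : ℂ)), hCs, smul_zero]
    intro c _
    rw [pairC_exq, mul_div_cancel_left₀ _ hM0])
  have hp : ∀ c, pairC (exq M (nP N p) i₀ i₁ c) (Pi.single i₀ 1) = (M : ℂ) * c + M * nP N p := by
    intro c
    rw [pairC_exq, Pi.single_eq_same, Pi.single_eq_of_ne R.ne.symm]
    ring
  refine ⟨T, hE, ?_, ?_⟩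
  · intro i a ha a' ha' hne h
    rw [hE, Finset.mem_image] at ha ha'
    obtain ⟨c, _, rfl⟩ := ha
    obtain ⟨c', _, rfl⟩ := ha'
    rw [hp, hp] at h
    apply hne
    have h4 : (M : ℂ) * c = M * c' := by linear_combination h
    have h5 : (c : ℂ) = c' := mul_left_cancel₀ hM0 h4
    have h6 : c = c' := by exact_mod_cast h5
    rw [h6]
  · intro c hc l
    have hA' : T.A 0 (Pi.single i₀ 1) l = (M : ℂ) • zP (R.ρ l) p +
        ((M : ℂ) * nP N p) • (1 : Matrix (Fin (D.d l)) (Fin (D.d l)) ℂ) := by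
      rw [hA, hApp, Pi.single_eq_same, Pi.single_eq_of_ne R.ne.symm]
      module
    have her : (Cs.image (exq M (nP N p) i₀ i₁)).erase (exq M (nP N p) i₀ i₁ c) =
        (Cs.erase c).image (exq M (nP N p) i₀ i₁) := by
      ext a
      simp only [Finset.mem_erase, Finset.mem_image]
      constructor
      · rintro ⟨h1, c', h2, rfl⟩
        exact ⟨c', ⟨fun h => h1 (by rw [h]), h2⟩, rfl⟩
      · rintro ⟨c', ⟨h1, h2⟩, rfl⟩
        exact ⟨fun h => h1 (hinj h), c', h2, rfl⟩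
    have h1 : T.rk (fun _ => exq M (nP N p) i₀ i₁ c) (Pi.single i₀ 1) l =
        (T.pr (fun _ => exq M (nP N p) i₀ i₁ c) (Pi.single i₀ 1) l 0).trace := by
      unfold TwFam.rk
      rw [List.ofFn_succ, List.ofFn_zero, List.prod_cons, List.prod_nil, mul_one]
    have h2 : db (fun a => pairC a (Pi.single i₀ (1 : ℂ))) (Cs.image (exq M (nP N p) i₀ i₁))
        (exq M (nP N p) i₀ i₁ c) =
        (M : ℂ) ^ (Cs.erase c).card * ∏ c' ∈ Cs.erase c, ((c : ℂ) - c') := by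
      unfold db
      rw [her, Finset.prod_image fun x _ y _ h => hinj h, ← Finset.prod_const, ← Finset.prod_mul_distrib]
      refine Finset.prod_congr rfl fun c' _ => ?_
      simp only [hp]
      ring
    have h3 : aeval (T.A 0 (Pi.single i₀ 1) l) (Pb (fun a => pairC a (Pi.single i₀ (1 : ℂ)))
        (Cs.image (exq M (nP N p) i₀ i₁)) (exq M (nP N p) i₀ i₁ c)) =
        (M : ℂ) ^ (Cs.erase c).card • aeval (zP (R.ρ l) p) (∏ c' ∈ Cs.erase c, (X - C (c' : ℂ))) := by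
      unfold Pb
      rw [her, Finset.prod_image fun x _ y _ h => hinj h, hA']
      exact aeval_shift _ _ _ _ (fun c' => pairC (exq M (nP N p) i₀ i₁ c') (Pi.single i₀ 1))
        fun c' _ => hp c'
    rw [h1]
    unfold TwFam.pr
    have hE0 : T.E 0 = Cs.image (exq M (nP N p) i₀ i₁) := by rw [hE]
    rw [hE0, h2, h3, smul_smul, Matrix.trace_smul, smul_eq_mul]
    congr 1
    rw [mul_inv, mul_assoc, mul_comm, mul_assoc, mul_inv_cancel₀ (pow_ne_zero _ hM0), mul_one]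

variable {C' : (ι →₀ ℤ) → Prop} {F E₀ : D.Λ → Prop}

/-- Isolation of the character `l` in `E₀`, by eigenvalues `c i` of the sums of the reflections
at the points `p i`. -/
theorem Refl2.isInt_single (R : Refl2 N Q i₀ i₁) (hinj : Function.Injective (algebraMap Z ℂ))
    (hM : 0 < M) (hC : ∀ z : ℤ, z ≠ 0 → C' (z • (Finsupp.single i₀ 1 - Finsupp.single i₁ 1)))
    (hE : IsInt Q C' E₀) (l : D.Λ) (hl : E₀ l) {I : Type} [Fintype I] (p : I → Fin r → ℂ)
    (Cs : I → Finset ℤ) (c : I → ℤ) (hc : ∀ i, c i ∈ Cs i)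
    (hCs : ∀ i l, aeval (zP (R.ρ l) (p i)) (∏ c ∈ Cs i, (X - C (c : ℂ))) = 0)
    (m u : I → ℤ)
    (hm : ∀ i, (aeval (zP (R.ρ l) (p i)) (∏ c' ∈ (Cs i).erase (c i), (X - C (c' : ℂ)))).trace =
      m i * ∏ c' ∈ (Cs i).erase (c i), ((c i : ℂ) - c'))
    (h0 : ∀ i μ, E₀ μ → μ ≠ l →
      (aeval (zP (R.ρ μ) (p i)) (∏ c' ∈ (Cs i).erase (c i), (X - C (c' : ℂ)))).trace = 0)
    (hu : ∑ i, u i * m i = 1) : IsInt Q C' (fun μ => μ = l) := by
  classical
  choose T hE' hG hr using fun i => R.exists_tw hM (p i) (Cs i) (hCs i)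
  have hne : ∀ i, (∏ c' ∈ (Cs i).erase (c i), ((c i : ℂ) - c')) ≠ 0 := by
    intro i
    rw [Finset.prod_ne_zero_iff]
    intro c' hc' h
    have h1 : (c i : ℂ) = c' := sub_eq_zero.1 h
    have h2 : c i = c' := by exact_mod_cast h1
    exact (Finset.ne_of_mem_erase hc') h2.symm
  refine CMF.isInt_single_of_tw hinj hM l hE hl (fun _ => 1) T
    (fun i _ => exq M (nP N (p i)) i₀ i₁ (c i)) ?_ ?_ (fun _ => Pi.single i₀ 1) hG m u ?_ ?_ hu
  · intro i j
    rw [hE']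
    exact Finset.mem_image_of_mem _ (hc i)
  · intro i j a ha a' ha' hne'
    rw [hE', Finset.mem_image] at ha ha'
    obtain ⟨x, _, rfl⟩ := ha
    obtain ⟨y, _, rfl⟩ := ha'
    rw [exq_sub]
    refine hC _ (mul_ne_zero (by exact_mod_cast hM.ne') (sub_ne_zero.2 fun h => hne' (by rw [h])))
  · intro i
    rw [hr i (c i) (hc i), hm, mul_comm, mul_assoc, mul_inv_cancel₀ (hne i), mul_one]
  · intro i μ hμ hμl
    rw [hr i (c i) (hc i), h0 i μ hμ hμl, mul_zero]

/-- Separation of a subset `F` of `E₀` by the eigenspaces of the sum of the reflections at one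
point. -/
theorem Refl2.isInt_path (R : Refl2 N Q i₀ i₁) (hinj : Function.Injective (algebraMap Z ℂ))
    (hM : 0 < M) (hC : ∀ z : ℤ, z ≠ 0 → C' (z • (Finsupp.single i₀ 1 - Finsupp.single i₁ 1)))
    (hE : IsInt Q C' E₀) (hFE : ∀ l, F l → E₀ l) (p : Fin r → ℂ)
    (Cs : Finset ℤ) (hCs : ∀ l, aeval (zP (R.ρ l) p) (∏ c ∈ Cs, (X - C (c : ℂ))) = 0)
    (hz : ∀ c ∈ Cs, (∀ l, F l →
        (aeval (zP (R.ρ l) p) (∏ c' ∈ Cs.erase c, (X - C (c' : ℂ)))).trace = 0) ∨
      (∀ l, E₀ l → ¬ F l →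
        (aeval (zP (R.ρ l) p) (∏ c' ∈ Cs.erase c, (X - C (c' : ℂ)))).trace = 0)) :
    IsInt Q C' F := by
  classical
  obtain ⟨T, hE', hG, hr⟩ := R.exists_tw hM p Cs hCs
  refine CMF.isInt_of_tw hinj hM T hE hFE ?_ (Pi.single i₀ 1) hG ?_
  · intro i a ha a' ha' hne'
    rw [hE', Finset.mem_image] at ha ha'
    obtain ⟨x, _, rfl⟩ := ha
    obtain ⟨y, _, rfl⟩ := ha'
    rw [exq_sub]
    refine hC _ (mul_ne_zero (by exact_mod_cast hM.ne') (sub_ne_zero.2 fun h => hne' (by rw [h])))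
  · intro e he
    have h1 := Fintype.mem_piFinset.1 he 0
    rw [hE', Finset.mem_image] at h1
    obtain ⟨c, hc, h2⟩ := h1
    have h3 : e = fun _ => exq M (nP N p) i₀ i₁ c := by
      funext i
      rw [Subsingleton.elim i 0, h2]
    rw [h3]
    rcases hz c hc with h | h
    · left
      intro l hl
      rw [hr c hc, h l hl, mul_zero]
    · right
      intro l hl hl'
      rw [hr c hc, h l hl hl', mul_zero]

end

end Pool.Agent.CMFn
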