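import Pool.Agent.CMFn.QSign

/-! Project CMF, block Q (every rank): the trace of the spectral element of the extreme eigenvalue
of the sum of a set of involutions. -/

namespace Pool.Agent.CMFn

open Matrix Polynomial

noncomputable section

variable {G : Type} [Group G] [Fintype G]

/-- The trace of the spectral element of the extreme eigenvalue. -/
theorem trace_extreme {m : ℕ} (τ : G →* Matrix (Fin m) (Fin m) ℂ) (S : Finset G)
    (hS : ∀ s ∈ S, s * s = 1)
    (hc : ∀ g ∈ Subgroup.closure (S : Set G), ∀ s ∈ S, g * s * g⁻¹ ∈ S) (W : Finset G)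
    (hW : ∀ w, w ∈ W ↔ w ∈ Subgroup.closure (S : Set G)) (σ : ℤ) (hσ : σ = 1 ∨ σ = -1)
    (θ : G → ℂ) (hθ1 : θ 1 = 1) (hθm : ∀ a ∈ Subgroup.closure (S : Set G),
      ∀ b ∈ Subgroup.closure (S : Set G), θ (a * b) = θ a * θ b) (hθ : ∀ s ∈ S, θ s = σ) :
    aeval (∑ s ∈ S, τ s) (∏ c ∈ Finset.Icc (-(S.card : ℤ)) S.card, (X - C (c : ℂ))) = 0 ∧
    (aeval (∑ s ∈ S, τ s)
      (∏ c ∈ (Finset.Icc (-(S.card : ℤ)) S.card).erase (σ * S.card), (X - C (c : ℂ)))).trace =
      (∏ c ∈ (Finset.Icc (-(S.card : ℤ)) S.card).erase (σ * S.card),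
        (((σ * S.card : ℤ) : ℂ) - (c : ℂ))) *
      ((W.card : ℂ)⁻¹ * ∑ w ∈ W, θ w * (τ w).trace) := by
  classical
  set K : Subgroup G := Subgroup.closure (S : Set G) with hK
  have : Fintype K := Fintype.ofFinite _
  set S' : Finset K := S.subtype (· ∈ K) with hS'
  have hSK : ∀ s ∈ S, s ∈ K := fun s hs => Subgroup.subset_closure hs
  have hcard : S'.card = S.card := by
    rw [hS', Finset.card_subtype, Finset.filter_true_of_mem hSK]
  have hmem : ∀ s : K, s ∈ S' ↔ (s : G) ∈ S := fun s => Finset.mem_subtype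
  have hsum : ∑ s ∈ S', (τ.comp K.subtype) s = ∑ s ∈ S, τ s :=
    Finset.sum_subtype_of_mem (fun s => τ s) hSK
  have h1 : ∀ s ∈ S', s * s = 1 := fun s hs => Subtype.ext (hS _ ((hmem s).1 hs))
  have h2 : ∀ g : K, ∀ s ∈ S', g * s * g⁻¹ ∈ S' := fun g s hs =>
    (hmem _).2 (hc g.1 g.2 s.1 ((hmem s).1 hs))
  have h3 : Subgroup.closure (S' : Set K) = ⊤ := by
    have h4 : (S' : Set K) = Subtype.val ⁻¹' (S : Set G) := by
      ext s
      exact hmem s
    rw [h4]
    exact Subgroup.closure_closure_coe_preimage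
  let θ' : K →* ℂ :=
    { toFun := fun w => θ w
      map_one' := hθ1
      map_mul' := fun a b => hθm a a.2 b b.2 }
  have h4 : ∀ s ∈ S', θ' s = σ := fun s hs => hθ s ((hmem s).1 hs)
  have h5 : ∀ w : K, θ' w⁻¹ = θ' w := by
    intro w
    have h6 : ∀ w ∈ Subgroup.closure (S' : Set K), θ' w * θ' w = 1 := by
      intro w hw
      induction hw using Subgroup.closure_induction with
      | mem x hx =>
        rw [h4 x hx]
        rcases hσ with rfl | rfl <;> norm_num
      | one => rw [map_one, one_mul]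
      | mul x y _ _ hx hy =>
        rw [map_mul]
        linear_combination (θ' y * θ' y) * hx + hy
      | inv x _ hx =>
        have h7 : θ' x * θ' x⁻¹ = 1 := by rw [← map_mul, mul_inv_cancel, map_one]
        have h8 : θ' x⁻¹ = θ' x := by
          linear_combination θ' x * h7 - θ' x⁻¹ * hx
        rw [h8]
        exact hx
    have h7 := h6 w (by rw [h3]; trivial)
    have h8 : θ' w * θ' w⁻¹ = 1 := by rw [← map_mul, mul_inv_cancel, map_one]
    linear_combination θ' w * h8 - θ' w⁻¹ * h7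
  have hWc : Fintype.card K = W.card := by
    rw [← Finset.card_univ]
    refine Finset.card_bij (fun w _ => (w : G)) (fun w _ => (hW w).2 w.2)
      (fun a _ b _ h => Subtype.ext h) (fun w hw => ⟨⟨w, (hW w).1 hw⟩, Finset.mem_univ _, rfl⟩)
  have hWs : ∑ w : K, θ' w⁻¹ * ((τ.comp K.subtype) w).trace = ∑ w ∈ W, θ w * (τ w).trace := by
    refine Finset.sum_bij (fun w _ => (w : G)) (fun w _ => (hW w).2 w.2)
      (fun a _ b _ h => Subtype.ext h) (fun w hw => ⟨⟨w, (hW w).1 hw⟩, Finset.mem_univ _, rfl⟩)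
      (fun w _ => ?_)
    rw [h5]
    rfl
  refine ⟨?_, ?_⟩
  · have h6 := invol_spectrum S' h1 h2 (τ.comp K.subtype)
    rw [hcard, hsum] at h6
    exact h6
  · have h6 := extreme_proj S' h1 h2 h3 σ hσ θ' h4 (τ.comp K.subtype)
    rw [hcard, hsum, hWc] at h6
    have h7 := congrArg Matrix.trace h6
    rw [Matrix.trace_smul, Matrix.trace_smul, Matrix.trace_sum, smul_eq_mul, smul_eq_mul] at h7
    have h8 : ∑ w : K, (θ' w⁻¹ • (τ.comp K.subtype) w).trace = ∑ w ∈ W, θ w * (τ w).trace := by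
      rw [← hWs]
      refine Finset.sum_congr rfl fun w _ => ?_
      rw [Matrix.trace_smul, smul_eq_mul]
    rw [h8] at h7
    have h9 : (∏ c ∈ (Finset.Icc (-(S.card : ℤ)) S.card).erase (σ * S.card),
        (((σ * S.card : ℤ) : ℂ) - (c : ℂ))) ≠ 0 := by
      rw [Finset.prod_ne_zero_iff]
      intro c hc' h
      have h10 : ((σ * S.card : ℤ) : ℂ) = c := sub_eq_zero.1 h
      have h11 : σ * S.card = c := by exact_mod_cast h10
      exact (Finset.ne_of_mem_erase hc') h11.symm
    rw [← h7, ← mul_assoc, mul_inv_cancel₀ h9, one_mul]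

end

end Pool.Agent.CMFn
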