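import Pool.Agent.CMFn.DDefs

/-! Project CMF, block Q (every rank): twists of parabolic subgroups. -/

namespace Pool.Agent.CMFn

open Matrix

noncomputable section

variable {r : ℕ} {N : SG r}

/-- The disc `{p + z (x - p) : |z| ≤ 1}` does not meet the reflecting hyperplanes outside its
centre `p`. -/
def IsTw (p : Fin r → ℂ) (x : VReg N) : Prop :=
  ∀ z : ℂ, 0 < ‖z‖ → ‖z‖ ≤ 1 → ∀ g ∈ N, IsRefl g →
    g.1 *ᵥ (p + z • (x.1 - p)) ≠ p + z • (x.1 - p)

/-- The loop `t ↦ p + exp(2πit) (x - p)`. -/
def twLoop {p : Fin r → ℂ} {x : VReg N} (h : IsTw p x) : Path x x where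
  toFun t := ⟨p + Complex.exp (2 * Real.pi * Complex.I * (t : ℝ)) • (x.1 - p), by
    have h1 : ‖Complex.exp (2 * Real.pi * Complex.I * ((t : ℝ) : ℂ))‖ = 1 := by
      rw [Complex.norm_exp]
      simp
    exact h _ (by rw [h1]; exact one_pos) h1.le⟩
  continuous_toFun := by
    refine Continuous.subtype_mk ?_ _
    refine continuous_const.add (Continuous.smul
      (f := fun t : unitInterval => Complex.exp (2 * Real.pi * Complex.I * ((t : ℝ) : ℂ)))
      (g := fun _ => x.1 - p) ?_ continuous_const)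
    exact Complex.continuous_exp.comp
      (continuous_const.mul (Complex.continuous_ofReal.comp continuous_subtype_val))
  source' := by
    apply Subtype.ext
    show p + Complex.exp (2 * Real.pi * Complex.I * (((0 : unitInterval) : ℝ) : ℂ)) • (x.1 - p) = x.1
    rw [Set.Icc.coe_zero, Complex.ofReal_zero, mul_zero, Complex.exp_zero, one_smul]
    abel
  target' := by
    apply Subtype.ext
    show p + Complex.exp (2 * Real.pi * Complex.I * (((1 : unitInterval) : ℝ) : ℂ)) • (x.1 - p) = x.1
    rw [Set.Icc.coe_one, Complex.ofReal_one, mul_one, Complex.exp_two_pi_mul_I, one_smul]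
    abel

/-- The twist of the parabolic subgroup `N_p`, along the path `q`, as a `BPath`. -/
def twP {v₀ : VReg N} {p : Fin r → ℂ} {x : VReg N} (h : IsTw p x) (q : Path v₀ x) :
    BPath N v₀ where
  g := 1
  f := ((q.trans (twLoop h)).trans q.symm).toContinuousMap
  h0 := ((q.trans (twLoop h)).trans q.symm).source
  h1 := (((q.trans (twLoop h)).trans q.symm).target).trans (one_smul N v₀).symm

/-- The twist of the parabolic subgroup `N_p`, along the path `q`. -/
def tw {v₀ : VReg N} {p : Fin r → ℂ} {x : VReg N} (h : IsTw p x) (q : Path v₀ x) : Braid N v₀ :=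
  Quotient.mk _ (twP h q)

open Classical in
/-- `A_p(k) = Σ_{H ∋ p} a_H(k)`, acting through `ρ`. -/
def App [Fintype N] {ι : Type} [Fintype ι] [DecidableEq ι] (ρ : N →* Matrix ι ι ℂ)
    (k : Idx N → ℂ) (p : Fin r → ℂ) : Matrix ι ι ℂ :=
  ∑ w : N, (if w.1.1 *ᵥ p = p then cr k w else 0) • ρ w +
    (∑ H : Arr N, if p ∈ H.1 then cs k H else 0) • (1 : Matrix ι ι ℂ)

end

end Pool.Agent.CMFn
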