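import Pool.Agent.CMFn.DunA
import Pool.Agent.CMFn.QDefs

/-! Project CMF, block Q, module QPt: every point is the centre of a twist. -/

namespace Pool.Agent.CMFn

open Matrix

noncomputable section

/-- Every point is the centre of a twist. -/
theorem exists_isTw {r : ℕ} {N : SG r} [Fintype N] (p : Fin r → ℂ) (v : VReg N) :
    ∃ x : VReg N, IsTw p x := by
  set w : Fin r → ℂ := v.1 - p with hw
  have hv : ∀ H : Arr N, lf H.1 ⬝ᵥ v.1 ≠ 0 := (vreg_iff (N := N) v.1).1 v.2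
  have hf : ∀ H : Arr N, ∃ δ : ℝ, 0 < δ ∧ ∀ z : ℂ, 0 < ‖z‖ → ‖z‖ ≤ δ →
      lf H.1 ⬝ᵥ (p + z • w) ≠ 0 := by
    intro H
    have e : ∀ z : ℂ, lf H.1 ⬝ᵥ (p + z • w) = lf H.1 ⬝ᵥ p + z * (lf H.1 ⬝ᵥ w) := by
      intro z
      rw [dotProduct_add, dotProduct_smul, smul_eq_mul]
    by_cases h0 : lf H.1 ⬝ᵥ p = 0
    · refine ⟨1, one_pos, fun z hz _ => ?_⟩
      rw [e, h0, zero_add, hw, dotProduct_sub, h0, sub_zero]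
      exact mul_ne_zero (norm_pos_iff.1 hz) (hv H)
    · refine ⟨‖lf H.1 ⬝ᵥ p‖ / (2 * (‖lf H.1 ⬝ᵥ w‖ + 1)), by positivity, fun z _ hz h => ?_⟩
      rw [e] at h
      have h1 : ‖lf H.1 ⬝ᵥ p‖ = ‖z‖ * ‖lf H.1 ⬝ᵥ w‖ := by
        rw [← norm_mul, ← norm_neg]
        congr 1
        linear_combination (-1 : ℂ) * h
      have h2 : ‖z‖ * ‖lf H.1 ⬝ᵥ w‖ ≤
          ‖lf H.1 ⬝ᵥ p‖ / (2 * (‖lf H.1 ⬝ᵥ w‖ + 1)) * (‖lf H.1 ⬝ᵥ w‖ + 1) :=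
        mul_le_mul hz (by linarith) (norm_nonneg _) (by positivity)
      have h3 : ‖lf H.1 ⬝ᵥ p‖ / (2 * (‖lf H.1 ⬝ᵥ w‖ + 1)) * (‖lf H.1 ⬝ᵥ w‖ + 1) =
          ‖lf H.1 ⬝ᵥ p‖ / 2 := by
        have : ‖lf H.1 ⬝ᵥ w‖ + 1 ≠ 0 := by positivity
        field_simp
      have h4 : 0 < ‖lf H.1 ⬝ᵥ p‖ := norm_pos_iff.2 h0
      rw [h3, ← h1] at h2
      linarith
  choose f hf0 hf1 using hf
  obtain ⟨δ, hδ, hle⟩ : ∃ δ : ℝ, 0 < δ ∧ ∀ H : Arr N, δ ≤ f H := by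
    by_cases hne : Nonempty (Arr N)
    · obtain ⟨H₀, hH₀⟩ := Finite.exists_min f
      exact ⟨f H₀, hf0 H₀, hH₀⟩
    · exact ⟨1, one_pos, fun H => absurd ⟨H⟩ hne⟩
  have hreg : ∀ z : ℂ, 0 < ‖z‖ → ‖z‖ ≤ δ → ∀ g ∈ N, IsRefl g →
      g.1 *ᵥ (p + z • w) ≠ p + z • w := fun z hz hz' =>
    (vreg_iff (N := N) (p + z • w)).2 fun H => hf1 H z hz (hz'.trans (hle H))
  have hδn : ‖(δ : ℂ)‖ = δ := by
    rw [Complex.norm_real, Real.norm_of_nonneg hδ.le]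
  refine ⟨⟨p + (δ : ℂ) • w, hreg δ (by rw [hδn]; exact hδ) hδn.le⟩, fun z hz hz' => ?_⟩
  have e : p + z • ((p + (δ : ℂ) • w) - p) = p + (z * δ) • w := by
    rw [add_sub_cancel_left, smul_smul]
  show ∀ g ∈ N, IsRefl g → g.1 *ᵥ (p + z • ((p + (δ : ℂ) • w) - p)) ≠
    p + z • ((p + (δ : ℂ) • w) - p)
  rw [e]
  refine hreg _ ?_ ?_
  · rw [norm_mul, hδn]
    exact mul_pos hz hδ
  · rw [norm_mul, hδn]
    nlinarith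

end

end Pool.Agent.CMFn
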