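import Pool.Agent.CMFn.QLoc

/-! Project CMFn, block Q: the first order term of the monodromy of the twists of parabolic
subgroups. -/

namespace Pool.Agent.CMFn

open Matrix Complex

noncomputable section

namespace QLocX

variable {ι : Type} [Fintype ι] [DecidableEq ι]

theorem hasDerivAt_of_sq (f : ℂ → ℂ) (f' : ℂ) (c : ℝ)
    (h : ∀ t : ℂ, ‖t‖ ≤ 1 → ‖f t - f 0 - t * f'‖ ≤ c * ‖t‖ ^ 2) : HasDerivAt f f' 0 := by
  rw [hasDerivAt_iff_isLittleO_nhds_zero]
  have h1 : (fun t : ℂ => f (0 + t) - f 0 - t • f') =O[nhds 0] fun t : ℂ => t ^ 2 := by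
    refine Asymptotics.IsBigO.of_bound c ?_
    filter_upwards [Metric.ball_mem_nhds (0 : ℂ) one_pos] with t ht
    rw [Metric.mem_ball, dist_zero_right] at ht
    rw [zero_add, norm_pow, smul_eq_mul]
    exact h t ht.le
  exact h1.trans_isLittleO (Asymptotics.isLittleO_pow_id one_lt_two)

/-- Dependence of a linear differential equation on a scalar parameter, to first order. -/
theorem deriv_ode (C : ℝ → Matrix ι ι ℂ) (K : ℝ) (hK0 : 0 ≤ K)
    (hK : ∀ s ∈ Set.Icc (0 : ℝ) 1, ∀ v : ι → ℂ, ‖C s *ᵥ v‖ ≤ K * ‖v‖)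
    (Y : ℂ → ℝ → Matrix ι ι ℂ) (h0 : ∀ t, Y t 0 = 1)
    (hY : ∀ t, ∀ s ∈ Set.Icc (0 : ℝ) 1, ∀ p q,
      HasDerivAt (fun s => Y t s p q) ((t • C s * Y t s) p q) s)
    (G : ℝ → Matrix ι ι ℂ) (hG : ∀ s ∈ Set.Icc (0 : ℝ) 1, ∀ p q,
      HasDerivAt (fun s => G s p q) (C s p q) s) (p q : ι) :
    HasDerivAt (fun t : ℂ => Y t 1 p q) (G 1 p q - G 0 p q) 0 := by
  -- the column
  let e : ι → ℂ := Pi.single q 1
  have he : ‖e‖ ≤ 1 := by
    refine (pi_norm_le_iff_of_nonneg zero_le_one).2 fun i => ?_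
    show ‖(Pi.single q 1 : ι → ℂ) i‖ ≤ 1
    rw [Pi.single_apply]
    split_ifs <;> simp
  have hcol : ∀ (M : Matrix ι ι ℂ) (i : ι), (M *ᵥ e) i = M i q := by
    intro M i
    show (M *ᵥ (Pi.single q 1)) i = M i q
    simp
  have hmv : ∀ {X : ℝ → Matrix ι ι ℂ} {X' : Matrix ι ι ℂ} {s : ℝ},
      (∀ i j, HasDerivAt (fun s => X s i j) (X' i j) s) →
      HasDerivAt (fun s => X s *ᵥ e) (X' *ᵥ e) s := by
    intro X X' s h
    rw [hasDerivAt_pi]
    intro i
    have h1 : (fun s => (X s *ᵥ e) i) = fun s => X s i q := by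
      funext s
      exact hcol _ _
    rw [h1, hcol]
    exact h i q
  have hbd : ∀ t : ℂ, ‖t‖ ≤ 1 → ∀ s ∈ Set.Icc (0 : ℝ) 1, ‖Y t s *ᵥ e‖ ≤ Real.exp K := by
    intro t ht s hs
    have h1 := CMF.LocMonX.gron (f := fun s => Y t s *ᵥ e) (f' := fun s => (t • C s * Y t s) *ᵥ e)
      (K := K) hs.1 (fun y hy => hmv (hY t y ⟨hy.1, hy.2.trans hs.2⟩)) (by
        intro y hy
        rw [← Matrix.mulVec_mulVec, Matrix.smul_mulVec, norm_smul]
        calc ‖t‖ * ‖C y *ᵥ (Y t y *ᵥ e)‖ ≤ 1 * (K * ‖Y t y *ᵥ e‖) :=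
              mul_le_mul ht (hK y ⟨hy.1, hy.2.trans hs.2⟩ _) (norm_nonneg _) zero_le_one
          _ = K * ‖Y t y *ᵥ e‖ := one_mul _)
    beta_reduce at h1
    rw [h0, Matrix.one_mulVec] at h1
    refine h1.trans ?_
    calc ‖e‖ * Real.exp (K * (s - 0)) ≤ 1 * Real.exp K := by
          refine mul_le_mul he (Real.exp_le_exp.2 ?_) (Real.exp_pos _).le zero_le_one
          nlinarith [hs.1, hs.2]
      _ = Real.exp K := one_mul _
  have hbd1 : ∀ t : ℂ, ‖t‖ ≤ 1 → ∀ s ∈ Set.Icc (0 : ℝ) 1,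
      ‖Y t s *ᵥ e - e‖ ≤ ‖t‖ * (K * Real.exp K) := by
    intro t ht s hs
    have h1 := norm_image_sub_le_of_norm_deriv_le_segment' (f := fun s => Y t s *ᵥ e)
      (f' := fun s => (t • C s * Y t s) *ᵥ e) (a := 0) (b := 1) (C := ‖t‖ * (K * Real.exp K))
      (fun y hy => (hmv (hY t y hy)).hasDerivWithinAt) (by
        intro y hy
        have hy' : y ∈ Set.Icc (0 : ℝ) 1 := ⟨hy.1, hy.2.le⟩
        rw [← Matrix.mulVec_mulVec, Matrix.smul_mulVec, norm_smul]
        refine mul_le_mul_of_nonneg_left ?_ (norm_nonneg _)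
        exact (hK y hy' _).trans (mul_le_mul_of_nonneg_left (hbd t ht y hy') hK0)) s hs
    beta_reduce at h1
    rw [h0, Matrix.one_mulVec, sub_zero] at h1
    refine h1.trans ?_
    have h2 : 0 ≤ ‖t‖ * (K * Real.exp K) := by positivity
    calc ‖t‖ * (K * Real.exp K) * s ≤ ‖t‖ * (K * Real.exp K) * 1 :=
          mul_le_mul_of_nonneg_left hs.2 h2
      _ = ‖t‖ * (K * Real.exp K) := mul_one _
  have hbd2 : ∀ t : ℂ, ‖t‖ ≤ 1 →
      ‖(Y t 1 *ᵥ e - t • (G 1 *ᵥ e)) - (Y t 0 *ᵥ e - t • (G 0 *ᵥ e))‖ ≤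
        K * (K * Real.exp K) * ‖t‖ ^ 2 := by
    intro t ht
    have h1 := norm_image_sub_le_of_norm_deriv_le_segment'
      (f := fun s => Y t s *ᵥ e - t • (G s *ᵥ e))
      (f' := fun s => (t • C s * Y t s) *ᵥ e - t • (C s *ᵥ e)) (a := 0) (b := 1)
      (C := K * (K * Real.exp K) * ‖t‖ ^ 2)
      (fun y hy => ((hmv (hY t y hy)).sub ((hmv (hG y hy)).const_smul t)).hasDerivWithinAt) (by
        intro y hy
        have hy' : y ∈ Set.Icc (0 : ℝ) 1 := ⟨hy.1, hy.2.le⟩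
        rw [← Matrix.mulVec_mulVec, Matrix.smul_mulVec, ← smul_sub, ← Matrix.mulVec_sub, norm_smul]
        calc ‖t‖ * ‖C y *ᵥ (Y t y *ᵥ e - e)‖ ≤ ‖t‖ * (K * (‖t‖ * (K * Real.exp K))) := by
              refine mul_le_mul_of_nonneg_left ?_ (norm_nonneg _)
              exact (hK y hy' _).trans (mul_le_mul_of_nonneg_left (hbd1 t ht y hy') hK0)
          _ = K * (K * Real.exp K) * ‖t‖ ^ 2 := by ring) 1 ⟨zero_le_one, le_rfl⟩
    beta_reduce at h1
    rw [sub_zero, mul_one] at h1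
    exact h1
  have hY0 : Y 0 1 p q = (1 : Matrix ι ι ℂ) p q := by
    have h1 := hbd1 0 (by simp) 1 ⟨zero_le_one, le_rfl⟩
    rw [norm_zero, zero_mul, norm_le_zero_iff, sub_eq_zero] at h1
    have h2 := congrFun h1 p
    rw [hcol] at h2
    rw [h2]
    show (Pi.single q (1 : ℂ) : ι → ℂ) p = _
    rw [Matrix.one_apply, Pi.single_apply]
  refine hasDerivAt_of_sq _ _ (K * (K * Real.exp K)) fun t ht => ?_
  have h1 := (norm_le_pi_norm _ p).trans (hbd2 t ht)
  have h2 : ((Y t 1 *ᵥ e - t • (G 1 *ᵥ e)) - (Y t 0 *ᵥ e - t • (G 0 *ᵥ e))) p =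
      Y t 1 p q - Y 0 1 p q - t * (G 1 p q - G 0 p q) := by
    rw [Pi.sub_apply, Pi.sub_apply, Pi.sub_apply, Pi.smul_apply, Pi.smul_apply, hcol, hcol, hcol,
      hcol, h0, hY0, smul_eq_mul, smul_eq_mul]
    ring
  rw [h2] at h1
  exact h1

omit [DecidableEq ι] in
/-- The derivative of a product of matrix functions. -/
theorem hd_mul {A B : ℂ → Matrix ι ι ℂ} {A' B' : Matrix ι ι ℂ} {t : ℂ}
    (hA : ∀ i j, HasDerivAt (fun t => A t i j) (A' i j) t)
    (hB : ∀ i j, HasDerivAt (fun t => B t i j) (B' i j) t) (i j : ι) :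
    HasDerivAt (fun t => (A t * B t) i j) ((A' * B t + A t * B') i j) t := by
  have h1 : (fun t => (A t * B t) i j) = fun t => ∑ l, A t i l * B t l j := by
    funext t
    rw [Matrix.mul_apply]
  rw [h1, Matrix.add_apply, Matrix.mul_apply, Matrix.mul_apply, ← Finset.sum_add_distrib]
  exact HasDerivAt.fun_sum fun l _ => (hA i l).mul (hB l j)

variable {r : ℕ} {N : SG r} [Fintype N] {v₀ x : VReg N} {p : Fin r → ℂ}

/-- The transport along the loop, to first order. -/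
theorem PP_tw_deriv (hN : ∃ s ∈ N, IsRefl s) (ρ : N →* Matrix ι ι ℂ) (k : Idx N → ℂ)
    (h : IsTw p x) (i j : ι) :
    HasDerivAt (fun t : ℂ => PP hN ρ (t • k) (twLoop h).toContinuousMap i j)
      ((2 * Real.pi * I) * App ρ k p i j) 0 := by
  obtain ⟨R, hR, hreg, hR2⟩ := om_disc hN ρ p (x.1 - p) h
  have hlogR : 0 < Real.log R := Real.log_pos hR
  choose X hX0 hXu hX1 hXa hXq using fun t : ℂ =>
    exists_X hN ρ (t • k) h R hR hreg (hR2 (t • k)).1 (hR2 (t • k)).2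
  obtain ⟨hom, hBd⟩ := hR2 k
  have hRpos : 0 < R := lt_trans one_pos hR
  -- a primitive of the regular part
  have hprim : ∀ i j, ∃ b : ℂ → ℂ, ∀ z ∈ Metric.ball (0 : ℂ) R,
      HasDerivAt b (Bpp ρ k p (x.1 - p) z i j) z := fun i j => (hBd i j).isExactOn_ball
  choose b hb using hprim
  let C : ℝ → Matrix ι ι ℂ := fun s => (2 * Real.pi * I) • (App ρ k p +
    exp (2 * Real.pi * I * s) • Bpp ρ k p (x.1 - p) (exp (2 * Real.pi * I * s)))
  let G : ℝ → Matrix ι ι ℂ := fun s => Matrix.of fun i j =>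
    (2 * Real.pi * I * s) * App ρ k p i j + b i j (exp (2 * Real.pi * I * s))
  have hnorm : ∀ s : ℝ, ‖exp (2 * Real.pi * I * s)‖ = 1 := by
    intro s
    rw [Complex.norm_exp]
    simp
  have hmem : ∀ s : ℝ, exp (2 * Real.pi * I * s) ∈ Metric.ball (0 : ℂ) R := by
    intro s
    rw [mem_ball_zero_iff, hnorm]
    exact hR
  have hlin : ∀ s : ℝ, HasDerivAt (fun s : ℝ => 2 * Real.pi * I * (s : ℂ)) (2 * Real.pi * I) s := by
    intro s
    have h1 : HasDerivAt (fun s : ℝ => (s : ℂ)) 1 s := by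
      simpa using (hasDerivAt_id s).ofReal_comp
    simpa using h1.const_mul (2 * Real.pi * I)
  have hre : ∀ s : ℝ, (2 * Real.pi * I * (s : ℂ)).re < Real.log R := by
    intro s
    have : (2 * Real.pi * I * (s : ℂ)).re = 0 := by simp
    rw [this]
    exact hlogR
  -- bound of `C`
  obtain ⟨K, hK0, hK⟩ : ∃ K : ℝ, 0 ≤ K ∧ ∀ s ∈ Set.Icc (0 : ℝ) 1, ∀ v : ι → ℂ,
      ‖C s *ᵥ v‖ ≤ K * ‖v‖ := by
    have h1 : ∀ i j, ∃ c : ℝ, ∀ s ∈ Set.Icc (0 : ℝ) 1, ‖C s i j‖ ≤ c := by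
      intro i j
      refine isCompact_Icc.exists_bound_of_continuousOn ?_
      have h2 : (fun s : ℝ => C s i j) = fun s : ℝ => (2 * Real.pi * I) * (App ρ k p i j +
          exp (2 * Real.pi * I * s) * Bpp ρ k p (x.1 - p) (exp (2 * Real.pi * I * s)) i j) := by
        funext s
        simp only [C]
        rw [Matrix.smul_apply, Matrix.add_apply, Matrix.smul_apply, smul_eq_mul, smul_eq_mul]
      have h3 : Continuous (fun s : ℝ => exp (2 * Real.pi * I * s)) := by fun_prop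
      have h4 : Continuous (fun s : ℝ => Bpp ρ k p (x.1 - p) (exp (2 * Real.pi * I * s)) i j) :=
        (hBd i j).continuousOn.comp_continuous h3 hmem
      rw [h2]
      exact (continuous_const.mul (continuous_const.add (h3.mul h4))).continuousOn
    choose c hc using h1
    refine ⟨Fintype.card ι * ∑ i, ∑ j, |c i j|, by positivity, fun s hs v => ?_⟩
    refine CMF.LocMonX.mulVec_bd (C s) _ (fun i j => ?_) (by positivity) v
    calc ‖C s i j‖ ≤ c i j := hc i j s hs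
      _ ≤ |c i j| := le_abs_self _
      _ ≤ ∑ j, |c i j| :=
        Finset.single_le_sum (f := fun j => |c i j|) (fun _ _ => abs_nonneg _) (Finset.mem_univ j)
      _ ≤ ∑ i, ∑ j, |c i j| :=
        Finset.single_le_sum (f := fun i => ∑ j, |c i j|)
          (fun _ _ => Finset.sum_nonneg fun _ _ => abs_nonneg _) (Finset.mem_univ i)
  have key := deriv_ode C K hK0 hK (fun t s => X t (2 * Real.pi * I * s)) (fun t => by
      show X t (2 * Real.pi * I * ((0 : ℝ) : ℂ)) = 1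
      rw [Complex.ofReal_zero, mul_zero, hX0]) (by
      intro t s _ i j
      have h1 := (hX1 t _ (hre s) i j).scomp s (hlin s)
      have h2 : (2 * Real.pi * I) • ((App ρ (t • k) p + exp (2 * Real.pi * I * (s : ℂ)) •
          Bpp ρ (t • k) p (x.1 - p) (exp (2 * Real.pi * I * (s : ℂ)))) *
            X t (2 * Real.pi * I * (s : ℂ))) i j =
          (t • C s * X t (2 * Real.pi * I * (s : ℂ))) i j := by
        rw [App_smul, Bpp_smul, smul_comm _ t, ← smul_add]
        simp only [C, Matrix.smul_mul, Matrix.smul_apply]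
        rw [smul_comm]
      rw [h2] at h1
      exact h1) G (by
      intro s _ i j
      have h1 := (hlin s).mul_const (App ρ k p i j)
      have h2 : HasDerivAt (fun s : ℝ => exp (2 * Real.pi * I * (s : ℂ)))
          (exp (2 * Real.pi * I * (s : ℂ)) * (2 * Real.pi * I)) s := (hlin s).cexp
      have h3 := (hb i j _ (hmem s)).scomp s h2
      have h4 := h1.add h3
      have h5 : (2 * Real.pi * I) * App ρ k p i j + (exp (2 * Real.pi * I * (s : ℂ)) *
          (2 * Real.pi * I)) • Bpp ρ k p (x.1 - p) (exp (2 * Real.pi * I * (s : ℂ))) i j =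
          C s i j := by
        simp only [C]
        rw [Matrix.smul_apply, Matrix.add_apply, Matrix.smul_apply, smul_eq_mul, smul_eq_mul,
          smul_eq_mul]
        ring
      rw [h5] at h4
      exact h4) i j
  have h1 : G 1 i j - G 0 i j = (2 * Real.pi * I) * App ρ k p i j := by
    simp only [G, Matrix.of_apply]
    rw [Complex.ofReal_one, Complex.ofReal_zero, mul_one, mul_zero, Complex.exp_zero,
      Complex.exp_two_pi_mul_I]
    ring
  rw [h1] at key
  have h2 : (fun t : ℂ => PP hN ρ (t • k) (twLoop h).toContinuousMap i j) =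
      fun t : ℂ => X t (2 * Real.pi * I * ((1 : ℝ) : ℂ)) i j := by
    funext t
    rw [hXa, Complex.ofReal_one, mul_one]
  rw [h2]
  exact key

end QLocX

open QLocX

variable {r : ℕ} {N : SG r} [Fintype N] {v₀ x : VReg N} {p : Fin r → ℂ}
  {ι : Type} [Fintype ι] [DecidableEq ι] (hN : ∃ s ∈ N, IsRefl s)

open Complex in
/-- `KZ_{tk}(ω_p) = 1 - 2πi t A_p(k) + O(t²)`. -/
theorem KZ_tw_deriv (ρ : N →* Matrix ι ι ℂ) (k : Idx N → ℂ) (h : IsTw p x) (q : Path v₀ x)
    (i j : ι) :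
    HasDerivAt (fun t : ℂ => KZ hN ρ (t • k) (tw h q) i j)
      (-(2 * Real.pi * I) * App ρ k p i j) 0 := by
  have hT := KZ_diff hN ρ k (tw h q)
  have hP : ∀ i j, Differentiable ℂ (fun t : ℂ => PP hN ρ (t • k) q.toContinuousMap i j) := by
    intro i j
    have h1 := (PP_lineHol hN ρ q.toContinuousMap i j).1.2 0 k
    simpa using h1
  have hrel : ∀ t : ℂ, PP hN ρ (t • k) (twLoop h).toContinuousMap *
      PP hN ρ (t • k) q.toContinuousMap * KZ hN ρ (t • k) (tw h q) =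
      PP hN ρ (t • k) q.toContinuousMap := by
    intro t
    set P0 := PP hN ρ (t • k) q.toContinuousMap with hP0
    set M := PP hN ρ (t • k) (twLoop h).toContinuousMap with hM
    have hP0u : IsUnit P0 := PP_unit hN ρ _ _
    have hMu : IsUnit M := PP_unit hN ρ _ _
    have hP0i : P0 * P0⁻¹ = 1 :=
      Matrix.mul_nonsing_inv _ ((Matrix.isUnit_iff_isUnit_det _).1 hP0u)
    have h3 : IsUnit (P0⁻¹ * M * P0) := ((Matrix.isUnit_nonsing_inv_iff.2 hP0u).mul hMu).mul hP0u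
    have h4 : (P0⁻¹ * M * P0) * KZ hN ρ (t • k) (tw h q) = 1 := by
      rw [KZ_tw_eq]
      exact Matrix.mul_nonsing_inv _ ((Matrix.isUnit_iff_isUnit_det _).1 h3)
    calc M * P0 * KZ hN ρ (t • k) (tw h q)
        = (P0 * P0⁻¹) * (M * P0 * KZ hN ρ (t • k) (tw h q)) := by rw [hP0i, one_mul]
      _ = P0 * ((P0⁻¹ * M * P0) * KZ hN ρ (t • k) (tw h q)) := by simp only [Matrix.mul_assoc]
      _ = P0 := by rw [h4, mul_one]
  let T' : Matrix ι ι ℂ := Matrix.of fun i j =>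
    deriv (fun t : ℂ => KZ hN ρ (t • k) (tw h q) i j) 0
  let P' : Matrix ι ι ℂ := Matrix.of fun i j =>
    deriv (fun t : ℂ => PP hN ρ (t • k) q.toContinuousMap i j) 0
  have hT' : ∀ i j, HasDerivAt (fun t : ℂ => KZ hN ρ (t • k) (tw h q) i j) (T' i j) 0 :=
    fun i j => ((hT i j) 0).hasDerivAt
  have hP' : ∀ i j, HasDerivAt (fun t : ℂ => PP hN ρ (t • k) q.toContinuousMap i j) (P' i j) 0 :=
    fun i j => ((hP i j) 0).hasDerivAt
  have hM' : ∀ i j, HasDerivAt (fun t : ℂ => PP hN ρ (t • k) (twLoop h).toContinuousMap i j)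
      (((2 * Real.pi * I) • App ρ k p) i j) 0 := by
    intro i j
    rw [Matrix.smul_apply, smul_eq_mul]
    exact PP_tw_deriv hN ρ k h i j
  have h1 := hd_mul (hd_mul hM' hP') hT' i j
  have h2 : (fun t : ℂ => (PP hN ρ (t • k) (twLoop h).toContinuousMap *
      PP hN ρ (t • k) q.toContinuousMap * KZ hN ρ (t • k) (tw h q)) i j) =
      fun t : ℂ => PP hN ρ (t • k) q.toContinuousMap i j := by
    funext t
    rw [hrel]
  rw [h2] at h1
  have h3 := h1.unique (hP' i j)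
  have e0 : ∀ γ : C(unitInterval, VReg N), PP hN ρ ((0 : ℂ) • k) γ = 1 := by
    intro γ
    rw [zero_smul]
    exact PP_zero hN ρ γ
  have e1 : KZ hN ρ ((0 : ℂ) • k) (tw h q) = 1 := by
    rw [KZ_tw_eq, e0, e0]
    simp
  rw [e0, e0, e1] at h3
  simp only [mul_one, one_mul] at h3
  rw [Matrix.add_apply, Matrix.add_apply, Matrix.smul_apply, smul_eq_mul] at h3
  have h4 : T' i j = -(2 * Real.pi * I) * App ρ k p i j := by linear_combination h3
  rw [← h4]
  exact hT' i j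

end

end Pool.Agent.CMFn
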