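import Pool.Agent.CMFn.QDefs
import Pool.Agent.CMFn.Braid

/-! Project CMF, block Q, module QTop: twists of nested parabolic subgroups commute. -/

namespace Pool.Agent.CMFn

open Matrix

noncomputable section

namespace QTopX

section path

variable {X : Type*} [TopologicalSpace X] {v x : X}

theorem conj_mul (q : Path.Homotopic.Quotient v x) (a b : Path.Homotopic.Quotient x x) :
    ((q.trans a).trans q.symm).trans ((q.trans b).trans q.symm) =
      (q.trans (a.trans b)).trans q.symm := by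
  rw [Path.Homotopic.Quotient.trans_assoc (q.trans a), Path.Homotopic.Quotient.trans_assoc q b,
    ← Path.Homotopic.Quotient.trans_assoc q.symm, Path.Homotopic.Quotient.symm_trans,
    Path.Homotopic.Quotient.refl_trans, Path.Homotopic.Quotient.trans_assoc q a,
    ← Path.Homotopic.Quotient.trans_assoc a b, ← Path.Homotopic.Quotient.trans_assoc q]

theorem conj_comm (q : Path v x) (a b : Path x x) (h : (a.trans b).Homotopic (b.trans a)) :
    (((q.trans a).trans q.symm).trans ((q.trans b).trans q.symm)).Homotopic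
      (((q.trans b).trans q.symm).trans ((q.trans a).trans q.symm)) := by
  rw [← Path.Homotopic.Quotient.eq] at h ⊢
  simp only [Path.Homotopic.Quotient.mk_trans, Path.Homotopic.Quotient.mk_symm] at h ⊢
  rw [conj_mul, conj_mul, h]

/-- Horizontal segment. -/
def hseg (y : ℝ) : Path ((0 : ℝ), y) ((1 : ℝ), y) :=
  ⟨⟨fun t => ((t : ℝ), y), by fun_prop⟩, by simp, by simp⟩

/-- Vertical segment. -/
def vseg (x : ℝ) : Path (x, (0 : ℝ)) (x, (1 : ℝ)) :=
  ⟨⟨fun t => (x, (t : ℝ)), by fun_prop⟩, by simp, by simp⟩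

/-- The two loops of a torus commute. -/
theorem torus (sq : C(ℝ × ℝ, X)) (a b : Path x x)
    (h0 : ∀ t : unitInterval, sq ((t : ℝ), 0) = a t) (h1 : ∀ t : unitInterval, sq ((t : ℝ), 1) = a t)
    (h2 : ∀ t : unitInterval, sq (0, (t : ℝ)) = b t)
    (h3 : ∀ t : unitInterval, sq (1, (t : ℝ)) = b t) :
    (a.trans b).Homotopic (b.trans a) := by
  have hx0 : x = sq (0, 0) := by
    have := h0 0
    rw [a.source] at this
    simpa using this.symm
  have hx1 : x = sq (1, 1) := by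
    have := h1 1
    rw [a.target] at this
    simpa using this.symm
  have e1 : a.trans b = (((hseg 0).trans (vseg 1)).map sq.continuous).cast hx0 hx1 := by
    ext t
    rw [Path.trans_apply]
    show _ = sq (((hseg 0).trans (vseg 1)) t)
    rw [Path.trans_apply]
    split_ifs with h
    · exact (h0 _).symm
    · exact (h3 _).symm
  have e2 : b.trans a = (((vseg 0).trans (hseg 1)).map sq.continuous).cast hx0 hx1 := by
    ext t
    rw [Path.trans_apply]
    show _ = sq (((vseg 0).trans (hseg 1)) t)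
    rw [Path.trans_apply]
    split_ifs with h
    · exact (h2 _).symm
    · exact (h1 _).symm
  rw [e1, e2]
  exact ((SimplyConnectedSpace.paths_homotopic ((hseg 0).trans (vseg 1))
    ((vseg 0).trans (hseg 1))).map sq).pathCast hx0 hx1

end path

variable {r : ℕ} {N : SG r} {v₀ x : VReg N} {p p₁ p₂ : Fin r → ℂ}

theorem norm_e (t : ℝ) : ‖Complex.exp (2 * Real.pi * Complex.I * (t : ℂ))‖ = 1 := by
  rw [Complex.norm_exp]
  simp

/-- The torus. -/
def sqT (hreg : ∀ u v : ℂ, ‖u‖ = 1 → ‖v‖ = 1 → ∀ g ∈ N, IsRefl g →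
      g.1 *ᵥ (p₁ + u • (p₂ + v • (x.1 - p₂) - p₁)) ≠ p₁ + u • (p₂ + v • (x.1 - p₂) - p₁)) :
    C(ℝ × ℝ, VReg N) where
  toFun z := ⟨p₁ + Complex.exp (2 * Real.pi * Complex.I * (z.1 : ℂ)) •
    (p₂ + Complex.exp (2 * Real.pi * Complex.I * (z.2 : ℂ)) • (x.1 - p₂) - p₁),
    hreg _ _ (norm_e _) (norm_e _)⟩
  continuous_toFun := by
    refine Continuous.subtype_mk ?_ _
    have h1 : Continuous fun z : ℝ × ℝ => Complex.exp (2 * Real.pi * Complex.I * (z.1 : ℂ)) :=
      Complex.continuous_exp.comp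
        (continuous_const.mul (Complex.continuous_ofReal.comp continuous_fst))
    have h2 : Continuous fun z : ℝ × ℝ => Complex.exp (2 * Real.pi * Complex.I * (z.2 : ℂ)) :=
      Complex.continuous_exp.comp
        (continuous_const.mul (Complex.continuous_ofReal.comp continuous_snd))
    exact continuous_const.add (h1.smul ((continuous_const.add (h2.smul continuous_const)).sub
      continuous_const))

theorem exp_zero' : Complex.exp (2 * Real.pi * Complex.I * ((0 : ℝ) : ℂ)) = 1 := by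
  rw [Complex.ofReal_zero, mul_zero, Complex.exp_zero]

theorem exp_one' : Complex.exp (2 * Real.pi * Complex.I * ((1 : ℝ) : ℂ)) = 1 := by
  rw [Complex.ofReal_one, mul_one, Complex.exp_two_pi_mul_I]

theorem loops_comm (h₁ : IsTw p₁ x) (h₂ : IsTw p₂ x)
    (hreg : ∀ u v : ℂ, ‖u‖ = 1 → ‖v‖ = 1 → ∀ g ∈ N, IsRefl g →
      g.1 *ᵥ (p₁ + u • (p₂ + v • (x.1 - p₂) - p₁)) ≠ p₁ + u • (p₂ + v • (x.1 - p₂) - p₁)) :
    ((twLoop h₁).trans (twLoop h₂)).Homotopic ((twLoop h₂).trans (twLoop h₁)) := by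
  refine torus (sqT hreg) _ _ ?_ ?_ ?_ ?_
  · intro t
    apply Subtype.ext
    show p₁ + Complex.exp (2 * Real.pi * Complex.I * ((t : ℝ) : ℂ)) •
      (p₂ + Complex.exp (2 * Real.pi * Complex.I * ((0 : ℝ) : ℂ)) • (x.1 - p₂) - p₁) =
      p₁ + Complex.exp (2 * Real.pi * Complex.I * ((t : ℝ) : ℂ)) • (x.1 - p₁)
    rw [exp_zero', one_smul, add_sub_cancel]
  · intro t
    apply Subtype.ext
    show p₁ + Complex.exp (2 * Real.pi * Complex.I * ((t : ℝ) : ℂ)) •
      (p₂ + Complex.exp (2 * Real.pi * Complex.I * ((1 : ℝ) : ℂ)) • (x.1 - p₂) - p₁) =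
      p₁ + Complex.exp (2 * Real.pi * Complex.I * ((t : ℝ) : ℂ)) • (x.1 - p₁)
    rw [exp_one', one_smul, add_sub_cancel]
  · intro t
    apply Subtype.ext
    show p₁ + Complex.exp (2 * Real.pi * Complex.I * ((0 : ℝ) : ℂ)) •
      (p₂ + Complex.exp (2 * Real.pi * Complex.I * ((t : ℝ) : ℂ)) • (x.1 - p₂) - p₁) =
      p₂ + Complex.exp (2 * Real.pi * Complex.I * ((t : ℝ) : ℂ)) • (x.1 - p₂)
    rw [exp_zero', one_smul, add_sub_cancel]
  · intro t
    apply Subtype.ext
    show p₁ + Complex.exp (2 * Real.pi * Complex.I * ((1 : ℝ) : ℂ)) •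
      (p₂ + Complex.exp (2 * Real.pi * Complex.I * ((t : ℝ) : ℂ)) • (x.1 - p₂) - p₁) =
      p₂ + Complex.exp (2 * Real.pi * Complex.I * ((t : ℝ) : ℂ)) • (x.1 - p₂)
    rw [exp_one', one_smul, add_sub_cancel]

theorem mul_path (h₁ : IsTw p₁ x) (h₂ : IsTw p₂ x) (q : Path v₀ x) (t : unitInterval) :
    ((twP h₁ q).mul (twP h₂ q)).f t =
      (((q.trans (twLoop h₁)).trans q.symm).trans ((q.trans (twLoop h₂)).trans q.symm)) t := by
  rw [BraidX.mul_f, Path.trans_apply, Path.trans_apply ((q.trans (twLoop h₁)).trans q.symm)]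
  split_ifs with h
  · rfl
  · exact one_smul N _

theorem mul_g (h₁ : IsTw p₁ x) (h₂ : IsTw p₂ x) (q : Path v₀ x) :
    ((twP h₁ q).mul (twP h₂ q)).g = 1 := one_mul (1 : N)

end QTopX

open QTopX

variable {r : ℕ} {N : SG r} {v₀ x : VReg N} {p p₁ p₂ : Fin r → ℂ}

theorem proj_tw (h : IsTw p x) (q : Path v₀ x) : Braid.proj (tw h q) = 1 := rfl

/-- Twists of nested parabolics commute. -/
theorem tw_comm (h₁ : IsTw p₁ x) (h₂ : IsTw p₂ x) (q : Path v₀ x)
    (hreg : ∀ u v : ℂ, ‖u‖ = 1 → ‖v‖ = 1 → ∀ g ∈ N, IsRefl g →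
      g.1 *ᵥ (p₁ + u • (p₂ + v • (x.1 - p₂) - p₁)) ≠ p₁ + u • (p₂ + v • (x.1 - p₂) - p₁)) :
    tw h₁ q * tw h₂ q = tw h₂ q * tw h₁ q := by
  refine Quotient.sound ?_
  exact BraidX.rel_of ((mul_g h₁ h₂ q).trans (mul_g h₂ h₁ q).symm) _ _ (mul_path h₁ h₂ q) (mul_path h₂ h₁ q)
    (conj_comm q _ _ (loops_comm h₁ h₂ hreg))

end

end Pool.Agent.CMFn
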