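import Pool.Agent.CMFn.QAlg
import Pool.Agent.CMFn.QLocD
import Pool.Agent.CMFn.QTop

/-! Project CMFn, block Q: the family of commuting twists in the Hecke algebra. -/

namespace Pool.Agent.CMFn

open Matrix Polynomial
open Pool.Agent.CMF (LineHol HData KZData Lau mon pair pairC evL TwFam)

noncomputable section

namespace QTwX

/-! ### functions holomorphic on lines -/

/-- A `LineHol` function that vanishes at the real points vanishes identically. -/
theorem lineHol_real {J : Type} [Fintype J] (f : (J → ℂ) → ℂ) (hf : LineHol f)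
    (h : ∀ y : J → ℝ, f (fun j => (y j : ℂ)) = 0) : ∀ k, f k = 0 := by
  intro k
  let u : J → ℂ := fun j => ((k j).re : ℂ)
  let v : J → ℂ := fun j => ((k j).im : ℂ)
  have hg : Differentiable ℂ (fun s : ℂ => f (u + s • v)) := hf.2 u v
  have hg' : Differentiable ℂ (fun s : ℂ => f (u + (-Complex.I * s) • v)) :=
    hg.comp (differentiable_id.const_mul (-Complex.I))
  have h1 := QLocX.entire_zero _ hg' (by
    intro t ht
    have h2 : u + (-Complex.I * t) • v = fun j => (((k j).re + t.im * (k j).im : ℝ) : ℂ) := by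
      have h3 : -Complex.I * t = (t.im : ℂ) := by
        apply Complex.ext
        · simp
        · simp [ht]
      rw [h3]
      funext j
      simp only [u, v, Pi.add_apply, Pi.smul_apply, smul_eq_mul]
      push_cast
      ring
    rw [h2]
    exact h _) (-1)
  have h3 : u + (-Complex.I * (-1)) • v = k := by
    funext j
    simp only [u, v, Pi.add_apply, Pi.smul_apply, smul_eq_mul]
    rw [show -Complex.I * (-1) * ((k j).im : ℂ) = (k j).im * Complex.I by ring]
    exact Complex.re_add_im (k j)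
  rw [h3] at h1
  exact h1

theorem ne_eventually (c d : ℂ) (h : d ≠ 0) : ∀ᶠ s : ℂ in nhdsWithin 0 {0}ᶜ, c + s * d ≠ 0 := by
  by_cases hc : c = 0
  · filter_upwards [self_mem_nhdsWithin] with s hs
    rw [hc, zero_add]
    exact mul_ne_zero hs h
  · have h1 : ContinuousAt (fun s : ℂ => c + s * d) 0 := by fun_prop
    have h2 : (fun s : ℂ => c + s * d) 0 ≠ 0 := by simpa using hc
    exact (h1.eventually_ne h2).filter_mono nhdsWithin_le_nhds

/-- The product of a `LineHol` function and of nonzero linear forms: a factor can be cancelled. -/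
theorem cancel_lin {J : Type} [Fintype J] (f : (J → ℂ) → ℂ) (hf : LineHol f)
    (s : Finset (J →₀ ℤ)) (hs : ∀ a ∈ s, a ≠ 0)
    (h : ∀ κ, f κ * ∏ a ∈ s, pairC a κ = 0) : ∀ κ, f κ = 0 := by
  classical
  -- a generic direction
  obtain ⟨κ', hκ'⟩ : ∃ κ' : J → ℂ, ∀ a ∈ s, pairC a κ' ≠ 0 := by
    let L : (J →₀ ℤ) → Submodule ℂ (J → ℂ) := fun a => LinearMap.ker
      ({ toFun := fun κ => pairC a κ
         map_add' := CMF.pairC_add a
         map_smul' := fun c κ => CMF.pairC_smul a c κ } : (J → ℂ) →ₗ[ℂ] ℂ)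
    have hL : ∀ a κ, κ ∈ L a ↔ pairC a κ = 0 := fun a κ => LinearMap.mem_ker
    have h1 := Subspace.biUnion_ne_univ_of_top_notMem (s := s.image L) (by
      intro h2
      obtain ⟨a, ha, h3⟩ := Finset.mem_image.1 h2
      apply hs a ha
      ext i
      have h4 : (Pi.single i 1 : J → ℂ) ∈ L a := by rw [h3]; trivial
      rw [hL, CMF.pairC_eq_sum] at h4
      simpa [Pi.single_apply] using h4)
    obtain ⟨κ', hκ'⟩ := (Set.ne_univ_iff_exists_notMem _).1 h1
    refine ⟨κ', fun a ha h2 => hκ' ?_⟩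
    rw [Set.mem_iUnion₂]
    exact ⟨L a, Finset.mem_image_of_mem _ ha, (hL a κ').2 h2⟩
  intro κ
  have h1 : ∀ᶠ t : ℂ in nhdsWithin 0 {0}ᶜ, f (κ + t • κ') = 0 := by
    have h2 : ∀ᶠ t : ℂ in nhdsWithin 0 {0}ᶜ, ∀ a ∈ s, pairC a κ + t * pairC a κ' ≠ 0 :=
      (Finset.eventually_all s).2 fun a ha => ne_eventually _ _ (hκ' a ha)
    filter_upwards [h2] with t ht
    have h3 := h (κ + t • κ')
    rcases mul_eq_zero.1 h3 with h4 | h4
    · exact h4
    · exfalso
      obtain ⟨a, ha, h5⟩ := Finset.prod_eq_zero_iff.1 h4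
      rw [CMF.pairC_add, CMF.pairC_smul] at h5
      exact ht a ha h5
  have hc : Filter.Tendsto (fun t : ℂ => f (κ + t • κ')) (nhdsWithin 0 {0}ᶜ) (nhds (f κ)) := by
    have h2 := (hf.2 κ κ').continuous.tendsto 0
    simp only [zero_smul, add_zero] at h2
    exact h2.mono_left nhdsWithin_le_nhds
  have h0 : Filter.Tendsto (fun t : ℂ => f (κ + t • κ')) (nhdsWithin 0 {0}ᶜ) (nhds 0) :=
    tendsto_const_nhds.congr' (h1.mono fun t ht => ht.symm)
  exact tendsto_nhds_unique hc h0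

/-- the value of a product of linear factors, entrywise -/
theorem lineHol_aeval {P : Type} [NormedAddCommGroup P] [NormedSpace ℂ P] {m : ℕ}
    (T : P → Matrix (Fin m) (Fin m) ℂ) (hT : ∀ p q, LineHol (fun k => T k p q)) {J : Type}
    (c : J → P → ℂ) (hc : ∀ j, LineHol (c j)) (s : Finset J) :
    ∀ p q, LineHol (fun k => (Polynomial.aeval (T k)
      (∏ j ∈ s, (Polynomial.X - Polynomial.C (c j k)))) p q) := by
  classical
  induction s using Finset.induction_on with
  | empty =>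
    intro p q
    simp only [Finset.prod_empty, map_one]
    exact LineHol.const _
  | insert a s ha ih =>
    intro p q
    have h1 : (fun k => (Polynomial.aeval (T k)
        (∏ j ∈ insert a s, (Polynomial.X - Polynomial.C (c j k)))) p q) =
        fun k => ∑ l, (T k p l + (-(if p = l then (1 : ℂ) else 0)) * c a k) *
          (Polynomial.aeval (T k) (∏ j ∈ s, (Polynomial.X - Polynomial.C (c j k)))) l q := by
      funext k
      rw [Finset.prod_insert ha, map_mul, Matrix.mul_apply]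
      refine Finset.sum_congr rfl fun l _ => ?_
      congr 1
      rw [map_sub, Polynomial.aeval_X, Polynomial.aeval_C, Matrix.sub_apply,
        Algebra.algebraMap_eq_smul_one, Matrix.smul_apply, Matrix.one_apply, smul_eq_mul]
      ring
    rw [h1]
    exact LineHol.sum _ fun l _ => ((hT p l).add ((LineHol.const _).mul (hc a))).mul (ih l q)

theorem pairC_sub {J : Type} [Fintype J] (a b : J →₀ ℤ) (κ : J → ℂ) :
    pairC (a - b) κ = pairC a κ - pairC b κ := by
  rw [CMF.pairC_eq_sum, CMF.pairC_eq_sum, CMF.pairC_eq_sum, ← Finset.sum_sub_distrib]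
  refine Finset.sum_congr rfl fun i _ => ?_
  rw [Finsupp.sub_apply]
  push_cast
  ring

/-- The real pairing. -/
def pairR {J : Type} [Fintype J] (a : J →₀ ℤ) (κ : J → ℝ) : ℝ := ∑ i, (a i : ℝ) * κ i

theorem pairC_real {J : Type} [Fintype J] (a : J →₀ ℤ) (κ : J → ℝ) :
    pairC a (fun i => (κ i : ℂ)) = (pairR a κ : ℂ) := by
  rw [CMF.pairC_eq_sum, pairR]
  push_cast
  rfl

end QTwX

open QTwX

variable {r : ℕ} {N : SG r} [Fintype N] (hN : ∃ s ∈ N, IsRefl s) {v₀ : VReg N}

/-- The family of commuting twists. -/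
theorem exists_twFam (Φ : IrrFam N) {Z : Type} [CommRing Z] [IsDomain Z] [Algebra Z ℂ]
    (hinj : Function.Injective (algebraMap Z ℂ)) {ι : Type}
    [Fintype ι] (D : HData Z ι) {M : ℕ} (hM : 0 < M) (Q : KZData D M)
    (sg : (ι → ℂ) →ₗ[ℂ] (Idx N → ℂ)) (hsg : ∀ κ : ι → ℝ, ∃ k : Idx N → ℝ,
      sg (fun i => (κ i : ℂ)) = fun x => (k x : ℂ))
    (eL : D.Λ → Φ.Λ) (hd : ∀ l, D.d l = Φ.d (eL l)) (T : Braid N v₀ → D.H)
    (hT : ∀ κ l b p q, Q.ρ κ l (T b) p q =
      KZ hN (Φ.ρ (eL l)) (sg κ) b (Fin.cast (hd l) p) (Fin.cast (hd l) q))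
    {n : ℕ} (p : Fin n → Fin r → ℂ) (x : VReg N) (h : ∀ i, IsTw (p i) x) (q : Path v₀ x)
    (hcomm : ∀ i j, tw (h i) q * tw (h j) q = tw (h j) q * tw (h i) q)
    (E : Fin n → Finset (ι →₀ ℤ))
    (hE : ∀ i κ l, Polynomial.aeval (App (Φ.ρ (eL l)) (sg κ) (p i))
      (∏ a ∈ E i, (X - C (pairC a κ / (M : ℂ)))) = 0) :
    ∃ T' : TwFam Q n, T'.E = E ∧ ∀ i κ l, T'.A i κ l = (M : ℂ) •
      (App (Φ.ρ (eL l)) (sg κ) (p i)).submatrix (Fin.cast (hd l)) (Fin.cast (hd l)) := by
  classical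
  have hM0 : (M : ℂ) ≠ 0 := Nat.cast_ne_zero.2 hM.ne'
  -- transport to `Fin (D.d l)`
  let φ : ∀ l, Matrix (Fin (Φ.d (eL l))) (Fin (Φ.d (eL l))) ℂ ≃ₐ[ℂ]
      Matrix (Fin (D.d l)) (Fin (D.d l)) ℂ :=
    fun l => Matrix.reindexAlgEquiv ℂ ℂ (finCongr (hd l)).symm
  have hφ : ∀ l A p q, φ l A p q = A (Fin.cast (hd l) p) (Fin.cast (hd l) q) :=
    fun l A p q => rfl
  have hρ : ∀ κ l b, Q.ρ κ l (T b) = φ l (KZ hN (Φ.ρ (eL l)) (sg κ) b) := by
    intro κ l b
    ext p q
    rw [hT, hφ]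
  -- the polynomial identity for generic real parameters
  have hgen : ∀ i l (κ : ι → ℝ), (∀ a ∈ E i, ∀ a' ∈ E i, a ≠ a' → pairR a κ ≠ pairR a' κ) →
      Polynomial.aeval (Q.ρ (fun i => (κ i : ℂ)) l (T (tw (h i) q)))
        (∏ a ∈ E i, (X - C (evL Z M (fun i => (κ i : ℂ)) (mon a)))) = 0 := by
    intro i l κ hκ
    obtain ⟨k, hk⟩ := hsg κ
    have hinjB : Set.InjOn (fun a => pairR a κ / M) (E i) := by
      intro a ha a' ha' haa
      by_contra hne
      apply hκ a ha a' ha' hne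
      have hM' : (M : ℝ) ≠ 0 := Nat.cast_ne_zero.2 hM.ne'
      exact (div_left_inj' hM').1 haa
    let B : Finset ℝ := (E i).image (fun a => pairR a κ / M)
    have h1 := hE i (fun i => (κ i : ℂ)) l
    rw [hk] at h1
    have h2 : Polynomial.aeval (App (Φ.ρ (eL l)) (fun x => (k x : ℂ)) (p i))
        (∏ b ∈ B, (Polynomial.X - Polynomial.C (b : ℂ))) = 0 := by
      rw [← h1, Finset.prod_image hinjB]
      congr 1
      refine Finset.prod_congr rfl fun a _ => ?_
      rw [pairC_real]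
      push_cast
      rfl
    have h3 := KZ_tw_poly hN (Φ.ρ (eL l)) k (h i) q B h2 1
    have h4 : (fun i => (1 : ℂ) * (k i : ℂ)) = fun x => (k x : ℂ) := by
      funext x
      rw [one_mul]
    rw [h4, Finset.prod_image hinjB] at h3
    rw [hρ, hk]
    have h6 : ∀ (A : Matrix (Fin (Φ.d (eL l))) (Fin (Φ.d (eL l))) ℂ) (P : Polynomial ℂ),
        Polynomial.aeval (φ l A) P = φ l (Polynomial.aeval A P) := fun A P =>
      Polynomial.aeval_algHom_apply (φ l).toAlgHom A P
    rw [h6]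
    have h5 : (∏ a ∈ E i, (X - C (evL Z M (fun i => (κ i : ℂ)) (mon a)))) =
        ∏ a ∈ E i, (X - C (Complex.exp (-(2 * Real.pi * Complex.I) *
          (1 * ((pairR a κ / M : ℝ) : ℂ))))) := by
      refine Finset.prod_congr rfl fun a _ => ?_
      rw [CMF.evL_mon, pairC_real]
      congr 3
      push_cast
      ring
    rw [h5, h3, map_zero]
  -- the polynomial identity for all parameters
  have hpoly : ∀ i l κ, Polynomial.aeval (Q.ρ κ l (T (tw (h i) q)))
      (∏ a ∈ E i, (X - C (evL Z M κ (mon a)))) = 0 := by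
    intro i l κ
    ext p' q'
    have hf := lineHol_aeval (fun κ : ι → ℂ => Q.ρ κ l (T (tw (h i) q)))
      (fun p q => Q.hol l _ p q) (fun (a : ι →₀ ℤ) κ => evL Z M κ (mon a))
      (fun a => CMF.evL_hol (mon a)) (E i) p' q'
    let s : Finset (ι →₀ ℤ) := ((E i).product (E i)).image (fun x => x.1 - x.2) |>.erase 0
    refine cancel_lin _ hf s (fun a ha => (Finset.mem_erase.1 ha).1) ?_ κ
    have hg : LineHol (fun κ : ι → ℂ => (Polynomial.aeval (Q.ρ κ l (T (tw (h i) q)))
        (∏ a ∈ E i, (X - C (evL Z M κ (mon a))))) p' q' * ∏ a ∈ s, pairC a κ) :=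
      hf.mul (LineHol.prod _ fun a _ => CMF.pairC_hol a)
    refine lineHol_real _ hg fun y => ?_
    by_cases hy : ∀ a ∈ E i, ∀ a' ∈ E i, a ≠ a' → pairR a y ≠ pairR a' y
    · rw [hgen i l y hy, Matrix.zero_apply, zero_mul]
    · push Not at hy
      obtain ⟨a, ha, a', ha', hne, h1⟩ := hy
      have h2 : a - a' ∈ s := by
        refine Finset.mem_erase.2 ⟨sub_ne_zero.2 hne, ?_⟩
        exact Finset.mem_image.2 ⟨(a, a'), Finset.mem_product.2 ⟨ha, ha'⟩, rfl⟩
      rw [Finset.prod_eq_zero h2, mul_zero]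
      rw [pairC_sub, pairC_real, pairC_real, h1, sub_self]
  refine ⟨{
    w := fun i => T (tw (h i) q)
    comm := ?_
    E := E
    A := fun i κ l => (M : ℂ) •
      (App (Φ.ρ (eL l)) (sg κ) (p i)).submatrix (Fin.cast (hd l)) (Fin.cast (hd l))
    poly := hpoly
    one := ?_
    der := ?_ }, rfl, fun i κ l => rfl⟩
  · intro i j
    rw [← sub_eq_zero]
    apply Q.ρ_inj hinj hM
    intro κ l
    rw [map_sub, map_mul, map_mul, hρ, hρ, ← map_mul, ← map_mul, ← map_mul, ← map_mul, hcomm i j,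
      sub_self]
  · intro i l
    rw [hρ, map_zero, KZ_zero, proj_tw, map_one, map_one]
  · intro i κ l p' q'
    have h1 := KZ_tw_deriv hN (Φ.ρ (eL l)) (sg κ) (h i) q (Fin.cast (hd l) p')
      (Fin.cast (hd l) q')
    have h2 : (fun t : ℂ => Q.ρ (t • κ) l (T (tw (h i) q)) p' q') = fun t : ℂ =>
        KZ hN (Φ.ρ (eL l)) (t • sg κ) (tw (h i) q) (Fin.cast (hd l) p') (Fin.cast (hd l) q') := by
      funext t
      rw [hT, map_smul]
    rw [h2]
    have h3 : -(2 * Real.pi * Complex.I / M) * ((M : ℂ) •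
        (App (Φ.ρ (eL l)) (sg κ) (p i)).submatrix (Fin.cast (hd l)) (Fin.cast (hd l))) p' q' =
        -(2 * Real.pi * Complex.I) * App (Φ.ρ (eL l)) (sg κ) (p i) (Fin.cast (hd l) p')
          (Fin.cast (hd l) q') := by
      rw [Matrix.smul_apply, Matrix.submatrix_apply, smul_eq_mul]
      field_simp
    rw [h3]
    exact h1

end

end Pool.Agent.CMFn
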