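import Pool.Agent.CMFn.Asm
import Pool.Agent.CMFn.QFinB
import Pool.Agent.CMFn.QPt
import Pool.Agent.CMFn.QTw
import Pool.Agent.CMFn.QFinS

/-! Project CMF, block Q (every rank): isolation of characters by parabolic subgroups, for groups
whose reflections have order two and form one class. -/

namespace Pool.Agent.CMFn

open Matrix Polynomial G1 G4 Pool.Agent
open Pool.Agent.CMF (HData KZData Lau mon pair pairC evL TwFam IsInt stdHData)

noncomputable section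

variable {n : ℕ} {G : Type} [Group G] [Fintype G] {V : G → Matrix (Fin n) (Fin n) ℂ}
  {Λ : Type} [Fintype Λ] {d : Λ → ℕ} {ρ : ∀ l, G → Matrix (Fin (d l)) (Fin (d l)) ℂ}
  {hV : CMFP.IsReflGroup V} {hρ : CMFP.IsIrrFam d ρ} {F : Type} [Field F] [Algebra F ℂ]
  {v₀ : Fin n → ℂ} {hv₀ : CMFP.Reg V v₀} {D : CMFP.StdHk F V v₀ d}
  {hN : ∃ s ∈ img hV.1, IsRefl s} [Fintype (CMFP.Idx V)]

/-- All the reflections have order two and are conjugate to `s₀`. -/
structure OneClass (V : G → Matrix (Fin n) (Fin n) ℂ) (s₀ : G) : Prop where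
  refl : CMFP.IsRefl V s₀
  sq : ∀ s, CMFP.IsRefl V s → s * s = 1
  conj : ∀ s, CMFP.IsRefl V s → ∃ g : G, g * s * g⁻¹ = s₀

namespace QFinX

lemma sq_img (hV : CMFP.IsReflGroup V) {s₀ : G} (h : OneClass V s₀) (w : img hV.1) (hw : IsRefl w.1) : w * w = 1 := by
  obtain ⟨s, rfl⟩ := (iso hV.1 hV.2.1).surjective w
  rw [← map_mul, h.sq s ((isRefl_iso hV.1 hV.2.1 s).1 hw), map_one]

lemma ordH_two (hV : CMFP.IsReflGroup V) {s₀ : G} (h : OneClass V s₀) (s : G) (hs : CMFP.IsRefl V s) : CMFP.ordH V s = 2 := by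
  rw [ordH_eq hV.1 hV.2.1 ⟨s, hs⟩]
  exact eH_two (sq_img hV h) _

lemma idx_ne (hV : CMFP.IsReflGroup V) {s₀ : G} (h : OneClass V s₀) :
    CMFP.idx V s₀ h.refl 0 ≠ CMFP.idx V s₀ h.refl 1 := by
  intro he
  let f : CMFP.Idx V → ZMod 2 := Quot.lift (fun a => ((a.2 : ℤ) : ZMod 2)) (by
    rintro ⟨⟨s, hs⟩, i⟩ ⟨⟨t, ht⟩, j⟩ ⟨_, h2⟩
    have h3 : ((CMFP.ordH V s : ℕ) : ℤ) ∣ j - i := h2
    rw [ordH_two hV h s hs] at h3
    have h4 := (ZMod.intCast_zmod_eq_zero_iff_dvd (j - i) 2).2 (by exact_mod_cast h3)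
    rw [Int.cast_sub, sub_eq_zero] at h4
    exact h4.symm)
  have h1 := congrArg f he
  have h2 : ((0 : ℤ) : ZMod 2) = ((1 : ℤ) : ZMod 2) := h1
  norm_num at h2

lemma kN_val (hV : CMFP.IsReflGroup V) {s₀ : G} (h : OneClass V s₀) (κ : CMFP.Idx V → ℂ) (H : Arr (img hV.1)) (j j' : ℤ)
    (hj : (2 : ℤ) ∣ j' + j) : kN hV.1 hV.2.1 κ (idx H j) = κ (CMFP.idx V s₀ h.refl j') := by
  obtain ⟨⟨s, hs⟩, rfl⟩ := lineOf_surj hV.1 H
  have h1 := kN_sharp hV.1 hV.2.1 κ s hs (-j)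
  rw [sharp_idx, neg_neg] at h1
  rw [h1]
  congr 1
  refine Quot.sound ⟨?_, ?_⟩
  · obtain ⟨g, hg⟩ := h.conj s hs
    refine ⟨g, ?_⟩
    intro v hv
    show V (g * s * g⁻¹) *ᵥ v = v
    rw [hg]
    exact hv
  · show ((CMFP.ordH V s : ℕ) : ℤ) ∣ j' - -j
    rw [ordH_two hV h s hs, sub_neg_eq_add]
    exact_mod_cast hj

end QFinX

open QFinX

/-- The residues and the twists of the assembly. -/
def Asm.refl2 (A : Asm hV hρ F v₀ hv₀ D hN)
    (hM : 0 < CMFP.mu (NumberField.RingOfIntegers F)) {s₀ : G} (h : OneClass V s₀) :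
    Refl2 (img hV.1) A.Q (CMFP.idx V s₀ h.refl 0) (CMFP.idx V s₀ h.refl 1) where
  ρ l := rN hV hρ l
  sg κ := kN hV.1 hV.2.1 κ
  ne := idx_ne hV h
  sq := sq_img hV h
  zero κ H := kN_val hV h κ H 0 0 (by norm_num)
  one κ H := kN_val hV h κ H 1 1 (by norm_num)
  tw p E hE := by
    classical
    obtain ⟨x, hx⟩ := exists_isTw p A.v
    obtain ⟨q⟩ := vreg_path hN A.v x
    obtain ⟨T', h1, h2⟩ := exists_twFam hN (famG hV hρ) CMF.inj_int _ hM A.Q (kNL hV)
      (fun κ => ⟨fun i => κ ((idxEquiv hV.1 hV.2.1).symm (sharp i)), rfl⟩) (fun l => l)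
      (fun l => rfl) (fun b => CMFP.hT _ (CMFP.var _) (A.surj b).choose)
      (fun κ l b p q => by
        have h3 := A.hQ κ l (A.surj b).choose
        rw [(A.surj b).choose_spec] at h3
        exact congrFun (congrFun h3 p) q) (fun _ : Fin 1 => p) x (fun _ => hx) q
      (fun i j => rfl) (fun _ => E) (fun i κ l => hE κ l)
    exact ⟨T', h1, fun κ l => h2 0 κ l⟩

/-- The representation of `G` of the family. -/
def rG (hρ : CMFP.IsIrrFam d ρ) (l : Λ) : G →* Matrix (Fin (d l)) (Fin (d l)) ℂ where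
  toFun := ρ l
  map_one' := (hρ.1 l).2.1
  map_mul' := (hρ.1 l).2.2

theorem zP_eq (l : Λ) (p : Fin n → ℂ) (S : Finset G)
    (hS : ∀ s, s ∈ S ↔ CMFP.IsRefl V s ∧ V s *ᵥ p = p) :
    zP (rN hV hρ l) p = ∑ s ∈ S, ρ l s := by
  classical
  unfold zP
  rw [← (iso hV.1 hV.2.1).toEquiv.sum_comp]
  have h1 : ∀ s : G, (if IsRefl ((iso hV.1 hV.2.1).toEquiv s).1 ∧
      ((iso hV.1 hV.2.1).toEquiv s).1.1 *ᵥ p = p then (1 : ℂ) else 0) •
      rN hV hρ l ((iso hV.1 hV.2.1).toEquiv s) = if s ∈ S then ρ l s else 0 := by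
    intro s
    have h2 : rN hV hρ l ((iso hV.1 hV.2.1).toEquiv s) = ρ l s :=
      repN_iso hV.1 hV.2.1 (ρ l) (hρ.1 l).2 s
    have h3 : (IsRefl ((iso hV.1 hV.2.1).toEquiv s).1 ∧
      ((iso hV.1 hV.2.1).toEquiv s).1.1 *ᵥ p = p) ↔ s ∈ S := (hS s).symm
    rw [h2]
    by_cases h4 : s ∈ S
    · rw [if_pos (h3.2 h4), if_pos h4, one_smul]
    · rw [if_neg (fun h5 => h4 (h3.1 h5)), if_neg h4, zero_smul]
  rw [Finset.sum_congr rfl fun s _ => h1 s, Finset.sum_ite_mem, Finset.univ_inter]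

/-- The character `θ_σ` of the group: trivial for `σ = 1`, the determinant for `σ = -1`. -/
def thS (V : G → Matrix (Fin n) (Fin n) ℂ) (σ : ℤ) (w : G) : ℂ := if σ = 1 then 1 else (V w).det

/-- Isolation of the character `l` in `E₀` by the trivial or the sign characters of the subgroups
generated by the reflections which fix the points `p i`. -/
theorem Asm.isInt_extreme (A : Asm hV hρ F v₀ hv₀ D hN)
    (hM : 0 < CMFP.mu (NumberField.RingOfIntegers F)) {s₀ : G} (h : OneClass V s₀)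
    {C' : (CMFP.Idx V →₀ ℤ) → Prop} (hC : ∀ z : ℤ, z ≠ 0 → C' (z • (Finsupp.single
      (CMFP.idx V s₀ h.refl 0) 1 - Finsupp.single (CMFP.idx V s₀ h.refl 1) 1)))
    {E₀ : Λ → Prop} (hE : IsInt A.Q C' E₀) (l : Λ) (hl : E₀ l) {I : Type} [Fintype I]
    (p : I → Fin n → ℂ) (S : I → Finset G)
    (hS : ∀ i s, s ∈ S i ↔ CMFP.IsRefl V s ∧ V s *ᵥ p i = p i) (W : I → Finset G)
    (hW : ∀ i w, w ∈ W i ↔ w ∈ Subgroup.closure (S i : Set G)) (σ : I → ℤ)
    (hσ : ∀ i, σ i = 1 ∨ σ i = -1) (m u : I → ℤ)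
    (hm : ∀ i, ∑ w ∈ W i, thS V (σ i) w * (ρ l w).trace = m i * (W i).card)
    (h0 : ∀ i μ, E₀ μ → μ ≠ l → ∑ w ∈ W i, thS V (σ i) w * (ρ μ w).trace = 0)
    (hu : ∑ i, u i * m i = 1) : IsInt A.Q C' (fun μ => μ = l) := by
  classical
  have hdet : ∀ s, CMFP.IsRefl V s → (V s).det = -1 := by
    intro s hs
    have h1 := det_two (iso hV.1 hV.2.1 s) ((isRefl_iso hV.1 hV.2.1 s).2 hs)
      (sq_img hV h _ ((isRefl_iso hV.1 hV.2.1 s).2 hs))
    exact h1
  have hfix : ∀ i, ∀ g ∈ Subgroup.closure (S i : Set G), V g *ᵥ p i = p i := by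
    intro i g hg
    induction hg using Subgroup.closure_induction with
    | mem x hx => exact ((hS i x).1 hx).2
    | one => rw [hV.1.1, Matrix.one_mulVec]
    | mul x y _ _ hx hy => rw [hV.1.2, ← Matrix.mulVec_mulVec, hy, hx]
    | inv x _ hx =>
      conv_lhs => rw [← hx]
      rw [Matrix.mulVec_mulVec, ← hV.1.2, inv_mul_cancel, hV.1.1, Matrix.one_mulVec]
  have hconj : ∀ i, ∀ g ∈ Subgroup.closure (S i : Set G), ∀ s ∈ S i, g * s * g⁻¹ ∈ S i := by
    intro i g hg s hs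
    have h1 := (hS i s).1 hs
    refine (hS i _).2 ⟨?_, ?_⟩
    · have h2 : IsRefl (toGL hV.1 (g * s * g⁻¹)) := by
        rw [map_mul, map_mul, map_inv]
        exact isRefl_conj (G := img hV.1) ((isRefl_iff hV.1 s).2 h1.1)
      exact (isRefl_iff hV.1 _).1 h2
    · exact hfix i _ (mul_mem (mul_mem hg (Subgroup.subset_closure hs)) (inv_mem hg))
  have key := fun i (μ : Λ) => trace_extreme (rG hρ μ) (S i)
    (fun s hs => h.sq s ((hS i s).1 hs).1) (hconj i) (W i) (hW i) (σ i) (hσ i) (thS V (σ i))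
    (by
      unfold thS
      split_ifs
      · rfl
      · rw [hV.1.1, Matrix.det_one])
    (fun a _ b _ => by
      unfold thS
      split_ifs
      · rw [one_mul]
      · rw [hV.1.2, Matrix.det_mul])
    (fun s hs => by
      unfold thS
      rcases hσ i with h1 | h1
      · rw [if_pos h1, h1, Int.cast_one]
      · rw [if_neg (by rw [h1]; norm_num), h1, hdet s ((hS i s).1 hs).1]
        norm_num)
  have hz : ∀ i μ, zP (rN hV hρ μ) (p i) = ∑ s ∈ S i, rG hρ μ s := fun i μ =>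
    zP_eq μ (p i) (S i) (hS i)
  have hcard : ∀ i, ((W i).card : ℂ) ≠ 0 := by
    intro i
    have h1 : (1 : G) ∈ W i := (hW i 1).2 (one_mem _)
    exact_mod_cast (Finset.card_pos.2 ⟨1, h1⟩).ne'
  refine (A.refl2 hM h).isInt_single CMF.inj_int hM hC hE l hl p
    (fun i => Finset.Icc (-((S i).card : ℤ)) (S i).card) (fun i => σ i * (S i).card) ?_ ?_ m u
    ?_ ?_ hu
  · intro i
    rw [Finset.mem_Icc]
    have h1 : (0 : ℤ) ≤ (S i).card := Int.natCast_nonneg _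
    rcases hσ i with h2 | h2 <;> rw [h2] <;> constructor <;> linarith
  · intro i (μ : Λ)
    have h1 := (key i μ).1
    rw [← hz] at h1
    exact h1
  · intro i
    have h2 := (key i l).2
    rw [← hz] at h2
    have h1 : ∑ w ∈ W i, thS V (σ i) w * (rG hρ l w).trace = m i * (W i).card := hm i
    rw [h1, mul_comm (m i : ℂ) ((W i).card : ℂ), inv_mul_cancel_left₀ (hcard i)] at h2
    exact h2.trans (mul_comm _ _)
  · intro i (μ : Λ) hμ hμl
    have h2 := (key i μ).2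
    rw [← hz] at h2
    have h1 : ∑ w ∈ W i, thS V (σ i) w * (rG hρ μ w).trace = 0 := h0 i μ hμ hμl
    rw [h1, mul_zero, mul_zero] at h2
    exact h2

end

end Pool.Agent.CMFn
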