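import Pool.Agent.CMFn.FinD
import Pool.Agent.CMFn.IsolDefs
import Pool.Agent.CMFn.QFin

/-! Project CMF, block Q (every rank): isolated irreducible representations are integral, for
groups whose reflections have order two and form one class. -/

namespace Pool.Agent.CMFn

open Matrix Polynomial G1 G4 Pool.Agent
open Pool.Agent.CMF (HData KZData Lau mon pair pairC evL TwFam IsInt stdHData)

noncomputable section

section defs

variable {G : Type} [Group G] [Fintype G]

open Classical in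
/-- The sum of the reflections which fix `p`, acting on `b`. -/
def zV {r : ℕ} (V : G →* Matrix (Fin r) (Fin r) ℂ) (p : Fin r → ℂ) (b : MRep G) :
    Matrix (Fin b.1) (Fin b.1) ℂ :=
  ∑ g : G, if (V g - 1).rank = 1 ∧ V g *ᵥ p = p then b.2 g else 0

/-- `a` is isolated in its level by the eigenvalue `c` of the sum of the reflections at `p`:
the eigenspace is a line in `a` and zero in the other representations of the level. -/
def IsolE {r : ℕ} (V : G →* Matrix (Fin r) (Fin r) ℂ) (a : MRep G) : Prop :=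
  ∃ (p : Fin r → ℂ) (Cs : Finset ℤ), ∃ c ∈ Cs,
    (∀ b : MRep G, IsIrr b.2 → aeval (zV V p b) (∏ c ∈ Cs, (X - C (c : ℂ))) = 0) ∧
    (aeval (zV V p a) (∏ c' ∈ Cs.erase c, (X - C (c' : ℂ)))).trace =
      ∏ c' ∈ Cs.erase c, ((c : ℂ) - c') ∧
    ∀ b : MRep G, IsIrr b.2 → SameLevel V a b →
      (aeval (zV V p b) (∏ c' ∈ Cs.erase c, (X - C (c' : ℂ)))).trace = 0 ∨
        ∀ g, (b.2 g).trace = (a.2 g).trace

end defs

variable {n : ℕ} {G : Type} [Group G] [Fintype G] {V : G → Matrix (Fin n) (Fin n) ℂ}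
  {Λ : Type} [Fintype Λ] {d : Λ → ℕ} {ρ : ∀ l, G → Matrix (Fin (d l)) (Fin (d l)) ℂ}
  {hV : CMFP.IsReflGroup V} {hρ : CMFP.IsIrrFam d ρ} {F : Type} [Field F] [Algebra F ℂ]
  {v₀ : Fin n → ℂ} {hv₀ : CMFP.Reg V v₀} {D : CMFP.StdHk F V v₀ d}
  {hN : ∃ s ∈ img hV.1, IsRefl s} [Fintype (CMFP.Idx V)]

omit [Fintype Λ] in
/-- Different members of a complete family have different characters. -/
theorem irr_char_inj (hρ : CMFP.IsIrrFam d ρ) (l m : Λ)
    (h : ∀ g, (ρ l g).trace = (ρ m g).trace) : l = m := by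
  classical
  by_contra hlm
  obtain ⟨a, ha⟩ := hρ.2.2 (fun l' => if l' = l then 1 else 0)
  have h1 : ∑ g, a g • ρ l g = 1 := by
    have := congrFun ha l
    simpa using this
  have h2 : ∑ g, a g • ρ m g = 0 := by
    have := congrFun ha m
    simpa [Ne.symm hlm] using this
  have h3 := congrArg Matrix.trace h1
  have h4 := congrArg Matrix.trace h2
  rw [Matrix.trace_sum, Matrix.trace_one, Fintype.card_fin] at h3
  rw [Matrix.trace_sum, Matrix.trace_zero] at h4
  have h5 : ∑ g, (a g • ρ l g).trace = ∑ g, (a g • ρ m g).trace := by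
    refine Finset.sum_congr rfl fun g _ => ?_
    rw [Matrix.trace_smul, Matrix.trace_smul, h g]
  rw [h3, h4] at h5
  exact (Nat.cast_ne_zero.2 (hρ.1 l).1.ne') h5

/-- There is a class of reflections of order two. -/
theorem exists_oneClass (hV : CMFP.IsReflGroup V) (hN : ∃ s ∈ img hV.1, IsRefl s)
    (hsq : ∀ s, CMFP.IsRefl V s → s * s = 1)
    (hone : ∀ s t, CMFP.IsRefl V s → CMFP.IsRefl V t → ∃ g : G, g * s * g⁻¹ = t) :
    ∃ s₀ : G, OneClass V s₀ := by
  obtain ⟨_, ⟨s₀, rfl⟩, hs₀⟩ := hN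
  have h0 : CMFP.IsRefl V s₀ := (isRefl_iff hV.1 s₀).1 hs₀
  exact ⟨s₀, h0, hsq, fun s hs => hone s s₀ hs h0⟩

theorem Asm.isInt_a (A : Asm hV hρ F v₀ hv₀ D hN) (l : Λ) :
    IsInt A.Q (fun _ => True) (fun m : Λ => A.Q.a l = A.Q.a m) :=
  CMF.isInt_class (fun l' l'' hll => by
    show A.Q.a l = A.Q.a l' ↔ A.Q.a l = A.Q.a l''
    rw [hll]) fun _ _ _ => trivial

/-- Isolated representations are integral. -/
theorem Asm.isInt_isol (A : Asm hV hρ F v₀ hv₀ D hN)
    (hM : 0 < CMFP.mu (NumberField.RingOfIntegers F))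
    (hsq : ∀ s, CMFP.IsRefl V s → s * s = 1)
    (hone : ∀ s t, CMFP.IsRefl V s → CMFP.IsRefl V t → ∃ g : G, g * s * g⁻¹ = t) (l : Λ)
    (hl : Isol (repHom hV.1) (mr hρ l)) :
    IsInt A.Q (fun _ => True) (fun m : Λ => m = l) := by
  classical
  obtain ⟨s₀, h⟩ := exists_oneClass hV hN hsq hone
  obtain ⟨p, σ, h1, h2⟩ := hl
  set S : Finset G := Finset.univ.filter (fun s => CMFP.IsRefl V s ∧ V s *ᵥ p = p) with hS
  have hSm : ∀ s, s ∈ S ↔ CMFP.IsRefl V s ∧ V s *ᵥ p = p := fun s => by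
    rw [hS, Finset.mem_filter]
    exact ⟨fun h => h.2, fun h => ⟨Finset.mem_univ _, h⟩⟩
  have hSc : (S : Set G) = {s | (repHom hV.1 s - 1).rank = 1 ∧ repHom hV.1 s *ᵥ p = p} := by
    ext s
    rw [Finset.mem_coe, hSm]
    exact Iff.rfl
  set W : Finset G := Finset.univ.filter (fun w => w ∈ WP (repHom hV.1) p) with hW
  have hWm : ∀ w, w ∈ W ↔ w ∈ Subgroup.closure (S : Set G) := fun w => by
    rw [hW, Finset.mem_filter, hSc]
    exact ⟨fun h => h.2, fun h => ⟨Finset.mem_univ _, h⟩⟩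
  have hWc : Nat.card (WP (repHom hV.1) p) = W.card := by
    have : Fintype (WP (repHom hV.1) p) := Fintype.ofFinite _
    rw [Nat.card_eq_fintype_card, ← Finset.card_univ]
    refine Finset.card_bij (fun w _ => (w : G)) (fun w _ => ?_)
      (fun a _ b _ h => Subtype.ext h) (fun w hw => ⟨⟨w, ?_⟩, Finset.mem_univ _, rfl⟩)
    · rw [hW, Finset.mem_filter]
      exact ⟨Finset.mem_univ _, w.2⟩
    · rw [hW, Finset.mem_filter] at hw
      exact hw.2
  set τ : ℤ := if σ then -1 else 1 with hτ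
  have hps : ∀ m : Λ, psum (repHom hV.1) p σ (mr hρ m) =
      ∑ w ∈ W, thS V τ w * (ρ m w).trace := by
    intro m
    unfold psum
    rw [hW, Finset.sum_filter]
    refine Finset.sum_congr rfl fun g _ => ?_
    have h3 : (if σ then (repHom hV.1 g).det else 1) = thS V τ g := by
      unfold thS
      cases σ
      · rw [hτ]
        simp
      · rw [hτ]
        simp only [if_true]
        rw [if_neg (by norm_num)]
        rfl
    rw [h3]
    rfl
  refine A.isInt_extreme hM h (fun _ _ => trivial) (A.isInt_a l) l rfl (I := Unit)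
    (fun _ => p) (fun _ => S) (fun _ => hSm) (fun _ => W) (fun _ => hWm) (fun _ => τ) ?_
    (fun _ => 1) (fun _ => 1) ?_ ?_ ?_
  · intro _
    rw [hτ]
    cases σ
    · left; rfl
    · right; rfl
  · intro _
    rw [← hps, h1, hWc, Int.cast_one, one_mul]
  · intro _ m hm hml
    rw [← hps]
    rcases h2 (mr hρ m) (isIrr_mr hρ m) (A.level hM l m hm) with h3 | h3
    · exact h3
    · exact absurd (irr_char_inj hρ m l h3) hml
  · rw [Fintype.sum_unique, one_mul]

/-- Representations isolated by an eigenvalue are integral. -/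
theorem Asm.isInt_isolE (A : Asm hV hρ F v₀ hv₀ D hN)
    (hM : 0 < CMFP.mu (NumberField.RingOfIntegers F))
    (hsq : ∀ s, CMFP.IsRefl V s → s * s = 1)
    (hone : ∀ s t, CMFP.IsRefl V s → CMFP.IsRefl V t → ∃ g : G, g * s * g⁻¹ = t) (l : Λ)
    (hl : IsolE (repHom hV.1) (mr hρ l)) :
    IsInt A.Q (fun _ => True) (fun m : Λ => m = l) := by
  classical
  obtain ⟨s₀, h⟩ := exists_oneClass hV hN hsq hone
  obtain ⟨p, Cs, c, hc, h0, h1, h2⟩ := hl
  set S : Finset G := Finset.univ.filter (fun s => CMFP.IsRefl V s ∧ V s *ᵥ p = p) with hS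
  have hSm : ∀ s, s ∈ S ↔ CMFP.IsRefl V s ∧ V s *ᵥ p = p := fun s => by
    rw [hS, Finset.mem_filter]
    exact ⟨fun h => h.2, fun h => ⟨Finset.mem_univ _, h⟩⟩
  have hz : ∀ m : Λ, zP (rN hV hρ m) p = zV (repHom hV.1) p (mr hρ m) := by
    intro m
    rw [zP_eq m p S hSm, hS, Finset.sum_filter]
    unfold zV
    refine Finset.sum_congr rfl fun g _ => ?_
    by_cases hg : CMFP.IsRefl V g ∧ V g *ᵥ p = p
    · rw [if_pos hg]
      exact (if_pos (show (repHom hV.1 g - 1).rank = 1 ∧ repHom hV.1 g *ᵥ p = p from hg)).symm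
    · rw [if_neg hg]
      exact (if_neg (show ¬ ((repHom hV.1 g - 1).rank = 1 ∧ repHom hV.1 g *ᵥ p = p) from hg)).symm
  refine (A.refl2 hM h).isInt_single CMF.inj_int hM (fun _ _ => trivial) (A.isInt_a l) l rfl
    (I := Unit) (fun _ => p) (fun _ => Cs) (fun _ => c) (fun _ => hc) ?_ (fun _ => 1)
    (fun _ => 1) ?_ ?_ ?_
  · intro _ (m : Λ)
    have h3 := h0 (mr hρ m) (isIrr_mr hρ m)
    rw [← hz] at h3
    exact h3
  · intro _
    have h3 := h1
    rw [← hz] at h3
    rw [Int.cast_one, one_mul]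
    exact h3
  · intro _ (m : Λ) hm hml
    rcases h2 (mr hρ m) (isIrr_mr hρ m) (A.level hM l m hm) with h3 | h3
    · rw [← hz] at h3
      exact h3
    · exact absurd (irr_char_inj hρ m l h3) hml
  · rw [Fintype.sum_unique, one_mul]

end

end Pool.Agent.CMFn
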