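import Pool.Agent.CMFn.IsolT
import Pool.Agent.CMFn.QIsol
import Pool.Agent.CMFn.QComb

/-! Project CMFn, module IsolT2: transport of `IsolE` and `IsolC` under conjugation. -/

namespace Pool.Agent.CMFn

open Matrix Polynomial

noncomputable section

namespace IsolTX

open ConnTX

variable {G : Type} [Group G] [Fintype G] {r : ℕ} {V V' : G →* Matrix (Fin r) (Fin r) ℂ}
  {P : Matrix (Fin r) (Fin r) ℂ}

lemma zV_conj (hP : IsUnit P) (h : ∀ g, V' g = P * V g * P⁻¹) (p : Fin r → ℂ) (b : MRep G) :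
    zV V' (P *ᵥ p) b = zV V p b := by
  unfold zV
  refine Finset.sum_congr rfl fun g _ => ?_
  simp only [rank_conj hP h, fix_conj hP h]

lemma isolE_conj' (hP : IsUnit P) (h : ∀ g, V' g = P * V g * P⁻¹) (a : MRep G)
    (ha : IsolE V a) : IsolE V' a := by
  obtain ⟨p, Cs, c, hc, h0, h1, h2⟩ := ha
  refine ⟨P *ᵥ p, Cs, c, hc, fun b hb => ?_, ?_, fun b hb hab => ?_⟩
  · rw [zV_conj hP h]
    exact h0 b hb
  · rw [zV_conj hP h]
    exact h1
  · rw [zV_conj hP h]
    exact h2 b hb ((sameLevel_conj hP h a b).1 hab)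

lemma isolC_conj' (hP : IsUnit P) (h : ∀ g, V' g = P * V g * P⁻¹) (a : MRep G)
    (ha : IsolC V a) : IsolC V' a := by
  obtain ⟨m, p, σ, u, h1, h2⟩ := ha
  refine ⟨m, fun i => P *ᵥ p i, σ, u, ?_, fun b hb hab => ?_⟩
  · simp only [psum_conj hP h, wp_conj hP h]
    exact h1
  · simp only [psum_conj hP h, wp_conj hP h]
    exact h2 b hb ((sameLevel_conj hP h a b).1 hab)

end IsolTX

open ConnTX IsolTX

section

variable {G : Type} [Group G] [Fintype G] {r : ℕ} {V V' : G →* Matrix (Fin r) (Fin r) ℂ}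
  {P : Matrix (Fin r) (Fin r) ℂ}

/-- Conjugation of the reflection representation, `IsolE`. -/
theorem isolE_conj (hP : IsUnit P) (h : ∀ g, V' g = P * V g * P⁻¹) (a : MRep G) :
    IsolE V' a ↔ IsolE V a :=
  ⟨isolE_conj' (isUnit_inv' hP) (symm_conj hP h) a, isolE_conj' hP h a⟩

/-- Conjugation of the reflection representation, `IsolC`. -/
theorem isolC_conj (hP : IsUnit P) (h : ∀ g, V' g = P * V g * P⁻¹) (a : MRep G) :
    IsolC V' a ↔ IsolC V a :=
  ⟨isolC_conj' (isUnit_inv' hP) (symm_conj hP h) a, isolC_conj' hP h a⟩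

theorem connX_or_of_conj (hP : IsUnit P) (h : ∀ g, V' g = P * V g * P⁻¹)
    (hc : ConnX V' (fun a => Isol V' a ∨ IsolE V' a)) :
    ConnX V (fun a => Isol V a ∨ IsolE V a) :=
  connX_congr (fun a => or_congr (isol_conj hP h a) (isolE_conj hP h a)) (connX_of_conj hP h hc)

theorem connX_orC_of_conj (hP : IsUnit P) (h : ∀ g, V' g = P * V g * P⁻¹)
    (hc : ConnX V' (fun a => Isol V' a ∨ IsolC V' a)) :
    ConnX V (fun a => Isol V a ∨ IsolC V a) :=
  connX_congr (fun a => or_congr (isol_conj hP h a) (isolC_conj hP h a)) (connX_of_conj hP h hc)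

theorem connX_or3_of_conj (hP : IsUnit P) (h : ∀ g, V' g = P * V g * P⁻¹)
    (hc : ConnX V' (fun a => Isol V' a ∨ IsolE V' a ∨ IsolC V' a)) :
    ConnX V (fun a => Isol V a ∨ IsolE V a ∨ IsolC V a) :=
  connX_congr (fun a => or_congr (isol_conj hP h a)
    (or_congr (isolE_conj hP h a) (isolC_conj hP h a))) (connX_of_conj hP h hc)

end

end

end Pool.Agent.CMFn
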