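import Pool.Agent.CMFn.IsolT2
import Pool.Agent.CMFn.Q3Defs
import Pool.Agent.CMFn.MDimDefs

/-! Project CMFn, module IsolT3: transport of `IsolC3`, `DimY` and `ConnXY` under conjugation. -/

namespace Pool.Agent.CMFn

open Matrix Polynomial

noncomputable section

namespace IsolTX

open ConnTX

variable {G : Type} [Group G] [Fintype G] {r : ℕ} {V V' : G →* Matrix (Fin r) (Fin r) ℂ}
  {P : Matrix (Fin r) (Fin r) ℂ}

lemma psum3_conj (hP : IsUnit P) (h : ∀ g, V' g = P * V g * P⁻¹) (p : Fin r → ℂ)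
    (j : ℕ) (a : MRep G) : psum3 V' (P *ᵥ p) j a = psum3 V p j a := by
  unfold psum3
  refine Finset.sum_congr rfl fun g _ => ?_
  rw [wp_conj hP h, det_conj hP h]

lemma isolC3_conj' (hP : IsUnit P) (h : ∀ g, V' g = P * V g * P⁻¹) (a : MRep G)
    (ha : IsolC3 V a) : IsolC3 V' a := by
  obtain ⟨m, p, j, u, h1, h2⟩ := ha
  refine ⟨m, fun i => P *ᵥ p i, j, u, ?_, fun b hb hab => ?_⟩
  · simp only [psum3_conj hP h, wp_conj hP h]
    exact h1
  · simp only [psum3_conj hP h, wp_conj hP h]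
    exact h2 b hb ((sameLevel_conj hP h a b).1 hab)

lemma dimY_conj' (hP : IsUnit P) (h : ∀ g, V' g = P * V g * P⁻¹) {Y : MRep G → Prop}
    (hY : DimY V Y) : DimY V' Y := by
  intro a ha hYa
  obtain ⟨p, σ, t, h1, h2, h3⟩ := hY a ha hYa
  refine ⟨P *ᵥ p, σ, t, fun s hs => h1 s ?_, h2, fun b hb hab => ?_⟩
  · rw [← rank_conj hP h]
    exact hs
  · rw [psum_conj hP h]
    exact h3 b hb ((sameLevel_conj hP h a b).1 hab)

end IsolTX

open ConnTX IsolTX

section

variable {G : Type} [Group G] [Fintype G] {r : ℕ} {V V' : G →* Matrix (Fin r) (Fin r) ℂ}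
  {P : Matrix (Fin r) (Fin r) ℂ}

/-- Conjugation of the reflection representation, `IsolC3`. -/
theorem isolC3_conj (hP : IsUnit P) (h : ∀ g, V' g = P * V g * P⁻¹) (a : MRep G) :
    IsolC3 V' a ↔ IsolC3 V a :=
  ⟨isolC3_conj' (isUnit_inv' hP) (symm_conj hP h) a, isolC3_conj' hP h a⟩

theorem connX_isolC3_of_conj (hP : IsUnit P) (h : ∀ g, V' g = P * V g * P⁻¹)
    (hc : ConnX V' (IsolC3 V')) : ConnX V (IsolC3 V) :=
  connX_congr (isolC3_conj hP h) (connX_of_conj hP h hc)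

theorem connX_isolC_of_conj (hP : IsUnit P) (h : ∀ g, V' g = P * V g * P⁻¹)
    (hc : ConnX V' (IsolC V')) : ConnX V (IsolC V) :=
  connX_congr (isolC_conj hP h) (connX_of_conj hP h hc)

/-- Conjugation of the reflection representation, `DimY`. -/
theorem dimY_conj (hP : IsUnit P) (h : ∀ g, V' g = P * V g * P⁻¹) (Y : MRep G → Prop) :
    DimY V' Y ↔ DimY V Y :=
  ⟨dimY_conj' (isUnit_inv' hP) (symm_conj hP h), dimY_conj' hP h⟩

theorem connXY_of_conj (hP : IsUnit P) (h : ∀ g, V' g = P * V g * P⁻¹) {X Y : MRep G → Prop}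
    (hc : ConnXY V' X Y) : ConnXY V X Y := by
  intro a b ha hb hab hY hXa hXb
  exact ConnTX.eqvGen_map id (fun x y hxy => (lk_conj hP h x y).1 hxy)
    (hc a b ha hb ((sameLevel_conj hP h a b).2 hab) hY hXa hXb)

theorem connXY_mono {X X' Y : MRep G → Prop} (h : ∀ a, X a → X' a) (hc : ConnXY V X Y) :
    ConnXY V X' Y :=
  fun a b ha hb hab hY hXa hXb =>
    hc a b ha hb hab hY (fun h1 => hXa (h a h1)) (fun h1 => hXb (h b h1))

theorem connXY_isol_of_conj (hP : IsUnit P) (h : ∀ g, V' g = P * V g * P⁻¹)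
    {Y : MRep G → Prop} (hc : ConnXY V' (Isol V') Y) : ConnXY V (Isol V) Y :=
  connXY_mono (fun a => (isol_conj hP h a).1) (connXY_of_conj hP h hc)

theorem connXY_isolC_of_conj (hP : IsUnit P) (h : ∀ g, V' g = P * V g * P⁻¹)
    {Y : MRep G → Prop} (hc : ConnXY V' (IsolC V') Y) : ConnXY V (IsolC V) Y :=
  connXY_mono (fun a => (isolC_conj hP h a).1) (connXY_of_conj hP h hc)

/-- The property of `G31`: a set `Y` with `DimY` and `ConnXY` up to `IsolC`. -/
theorem exists_dimY_of_conj (hP : IsUnit P) (h : ∀ g, V' g = P * V g * P⁻¹)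
    (hc : ∃ Y, DimY V' Y ∧ ConnXY V' (IsolC V') Y) : ∃ Y, DimY V Y ∧ ConnXY V (IsolC V) Y := by
  obtain ⟨Y, h1, h2⟩ := hc
  exact ⟨Y, (dimY_conj hP h Y).1 h1, connXY_isolC_of_conj hP h h2⟩

end

end

end Pool.Agent.CMFn
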