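import Mathlib

/-! Project CMFn, block S, KronA: rationality from lines, algebraic part. -/

namespace Pool.Agent.CMFn

open MvPolynomial

noncomputable section

namespace KronAX

/-- Functions `c j : ℕ → K` are linearly dependent if all minors vanish. -/
theorem dep_of_minors {K : Type*} [Field K] {m : ℕ} (c : Fin m → ℕ → K)
    (h : ∀ e : Fin m → ℕ, (Matrix.of fun i j => c j (e i)).det = 0) :
    ∃ a : Fin m → K, a ≠ 0 ∧ ∀ n, ∑ j, a j * c j n = 0 := by
  classical
  by_contra hcon
  push Not at hcon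
  -- the rows span everything
  let row : ℕ → (Fin m → K) := fun n j => c j n
  have hspan : Submodule.span K (Set.range row) = ⊤ := by
    by_contra hne
    obtain ⟨f, hf, hf'⟩ := Submodule.exists_le_ker_of_lt_top _ (lt_top_iff_ne_top.2 hne)
    obtain ⟨n, hn⟩ := hcon (fun j => f (Pi.single j 1)) (by
      intro h0
      apply hf
      refine LinearMap.pi_ext' fun j => ?_
      ext
      simpa using congrFun h0 j)
    apply hn
    have h1 : f (row n) = 0 := hf' (Submodule.subset_span ⟨n, rfl⟩)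
    have h2 : row n = ∑ j, c j n • (Pi.single j (1 : K) : Fin m → K) := by
      funext i
      simp [row, Finset.sum_apply, Pi.single_apply]
    rw [h2, map_sum] at h1
    rw [← h1]
    refine Finset.sum_congr rfl fun j _ => ?_
    rw [map_smul, smul_eq_mul, mul_comm]
  -- choose a basis among the rows
  obtain ⟨e, he⟩ : ∃ e : Fin m → ℕ, LinearIndependent K (fun i => row (e i)) := by
    obtain ⟨b, hb1, hb2, hb3⟩ := exists_linearIndependent K (Set.range row)
    have hb4 : Submodule.span K b = ⊤ := by rw [hb2, hspan]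
    let B : Module.Basis b K (Fin m → K) := Module.Basis.mk hb3 (by rw [Subtype.range_coe, hb4])
    have fb : Fintype b := FiniteDimensional.fintypeBasisIndex B
    have hcard : Fintype.card b = m := by
      rw [← Module.finrank_eq_card_basis B]
      simp
    let σ : Fin m ≃ b := (Fintype.equivFinOfCardEq hcard).symm
    choose g hg using fun x : b => hb1 x.2
    refine ⟨fun i => g (σ i), ?_⟩
    have h1 : (fun i => row (g (σ i))) = (Subtype.val : b → _) ∘ σ := by
      funext i
      exact hg (σ i)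
    rw [h1]
    exact hb3.comp _ σ.injective
  have hdet := h e
  have h2 : LinearIndependent K (Matrix.of fun i j => c j (e i)).row := he
  rw [Matrix.linearIndependent_rows_iff_isUnit, Matrix.isUnit_iff_isUnit_det, hdet] at h2
  exact not_isUnit_zero h2

/-- If the functions are dependent all minors vanish. -/
theorem minors_of_dep {K : Type*} [Field K] {m : ℕ} (c : Fin m → ℕ → K) {a : Fin m → K}
    (ha : a ≠ 0) (h : ∀ n, ∑ j, a j * c j n = 0) (e : Fin m → ℕ) :
    (Matrix.of fun i j => c j (e i)).det = 0 := by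
  classical
  apply Matrix.exists_mulVec_eq_zero_iff.1
  refine ⟨a, ha, ?_⟩
  funext i
  rw [Pi.zero_apply, ← h (e i)]
  simp only [Matrix.mulVec, dotProduct, Matrix.of_apply]
  exact Finset.sum_congr rfl fun j _ => mul_comm _ _

/-- A polynomial which vanishes on a nonempty open set is zero. -/
theorem eq_zero_of_open {r : ℕ} (p : MvPolynomial (Fin r) ℂ) {V : Set (Fin r → ℂ)}
    (hV : IsOpen V) {w₀ : Fin r → ℂ} (hw₀ : w₀ ∈ V) (h : ∀ w ∈ V, eval w p = 0) : p = 0 := by
  obtain ⟨ε, hε, hball⟩ := Metric.isOpen_iff.1 hV w₀ hw₀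
  refine funext_set (fun i => Metric.ball (w₀ i) ε) (fun i => ?_) (fun x hx => ?_)
  · exact infinite_of_mem_nhds (w₀ i) (Metric.ball_mem_nhds _ hε)
  · rw [map_zero]
    apply h
    apply hball
    rw [ball_pi _ hε]
    exact hx

attribute [local instance] MvPolynomial.gradedAlgebra

/-- The homogeneous components of a product with a homogeneous polynomial. -/
theorem comp_mul {r : ℕ} (p q : MvPolynomial (Fin r) ℂ) {k : ℕ} (hq : q.IsHomogeneous k)
    (m : ℕ) : homogeneousComponent (m + k) (p * q) = homogeneousComponent m p * q := by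
  have h1 := DirectSum.coe_decompose_mul_of_right_mem_of_le (homogeneousSubmodule (Fin r) ℂ)
    (a := p) (b := q) (n := m + k) (i := k) hq (Nat.le_add_left k m)
  rw [Nat.add_sub_cancel] at h1
  have e : ∀ (φ : MvPolynomial (Fin r) ℂ) (i : ℕ),
      ((DirectSum.decompose (homogeneousSubmodule (Fin r) ℂ) φ) i : MvPolynomial (Fin r) ℂ) =
        homogeneousComponent i φ := fun φ i => decomposition.decompose'_apply φ i
  rw [e, e] at h1
  exact h1

/-- Passage to homogeneous components. -/
theorem homog_of_rel {r : ℕ} (q : ℕ → MvPolynomial (Fin r) ℂ) (hq : ∀ k, (q k).IsHomogeneous k)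
    {D : ℕ} (c : ℕ → MvPolynomial (Fin r) ℂ) {j₀ d₀ : ℕ} (hj₀ : j₀ ≤ D) (hd₀ : j₀ ≤ d₀)
    (hc : homogeneousComponent d₀ (c j₀) ≠ 0)
    (h : ∀ n, D < n → ∑ j ∈ Finset.range (D + 1), c j * q (n - j) = 0) :
    ∃ (t : ℕ) (b : ℕ → MvPolynomial (Fin r) ℂ), (∀ j, (b j).IsHomogeneous (t + j)) ∧
      (∃ j, j ≤ D ∧ b j ≠ 0) ∧
      ∀ n, D < n → ∑ j ∈ Finset.range (D + 1), b j * q (n - j) = 0 := by
  refine ⟨d₀ - j₀, fun j => homogeneousComponent (d₀ - j₀ + j) (c j),
    fun j => homogeneousComponent_isHomogeneous _ _, ⟨j₀, hj₀, ?_⟩, fun n hn => ?_⟩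
  · show homogeneousComponent (d₀ - j₀ + j₀) (c j₀) ≠ 0
    rw [Nat.sub_add_cancel hd₀]
    exact hc
  · have h1 := congrArg (homogeneousComponent (d₀ - j₀ + n)) (h n hn)
    rw [map_sum, map_zero] at h1
    rw [← h1]
    refine Finset.sum_congr rfl fun j hj => ?_
    have hj' : j ≤ n := by
      have := Finset.mem_range.1 hj
      omega
    have h2 := comp_mul (c j) (q (n - j)) (hq _) (d₀ - j₀ + j)
    rw [← h2]
    congr 2
    omega

end KronAX

open KronAX in
theorem kron_alg {r : ℕ} (q : ℕ → MvPolynomial (Fin r) ℂ) (hq : ∀ k, (q k).IsHomogeneous k)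
    (U : Set (Fin r → ℂ)) (hU : IsOpen U) (hne : U.Nonempty)
    (h : ∀ w ∈ U, ∃ (a : ℕ → ℂ) (D : ℕ), (∀ j, D < j → a j = 0) ∧ (∃ j, a j ≠ 0) ∧
      ∀ n, D < n → ∑ j ∈ Finset.range (D + 1), a j * MvPolynomial.eval w (q (n - j)) = 0) :
    ∃ (D t : ℕ) (b : ℕ → MvPolynomial (Fin r) ℂ), (∀ j, (b j).IsHomogeneous (t + j)) ∧
      (∃ j, j ≤ D ∧ b j ≠ 0) ∧
      ∀ n, D < n → ∑ j ∈ Finset.range (D + 1), b j * q (n - j) = 0 := by
  classical
  -- the minors
  let mn : (D : ℕ) → (Fin (D + 1) → ℕ) → MvPolynomial (Fin r) ℂ := fun D e =>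
    (Matrix.of fun i j : Fin (D + 1) => q (D + 1 + e i - j)).det
  have hmn : ∀ (D : ℕ) (e : Fin (D + 1) → ℕ) (w : Fin r → ℂ), eval w (mn D e) =
      (Matrix.of fun i j : Fin (D + 1) => eval w (q (D + 1 + e i - j))).det := by
    intro D e w
    show eval w (Matrix.det _) = _
    rw [RingHom.map_det]
    rfl
  let F : ℕ → Set (Fin r → ℂ) := fun D => {w | ∀ e, eval w (mn D e) = 0} ∪ Uᶜ
  have hFc : ∀ D, IsClosed (F D) := by
    intro D
    refine IsClosed.union ?_ hU.isClosed_compl
    have : {w | ∀ e, eval w (mn D e) = 0} = ⋂ e, {w : Fin r → ℂ | eval w (mn D e) = 0} := by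
      ext w
      simp
    rw [this]
    exact isClosed_iInter fun e => isClosed_eq (MvPolynomial.continuous_eval _) continuous_const
  have hFU : ⋃ D, F D = Set.univ := by
    rw [Set.eq_univ_iff_forall]
    intro w
    by_cases hw : w ∈ U
    · obtain ⟨a, D, ha1, ⟨j₀, hj₀⟩, ha3⟩ := h w hw
      refine Set.mem_iUnion.2 ⟨D, Or.inl fun e => ?_⟩
      rw [hmn]
      have hj : j₀ < D + 1 := by
        by_contra hj
        exact hj₀ (ha1 j₀ (by omega))
      refine minors_of_dep (fun j n => eval w (q (D + 1 + n - j))) (a := fun j => a j)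
        (fun h0 => hj₀ (congrFun h0 ⟨j₀, hj⟩)) (fun n => ?_) e
      rw [← ha3 (D + 1 + n) (by omega), Finset.sum_range]
    · exact Set.mem_iUnion.2 ⟨0, Or.inr hw⟩
  obtain ⟨w₀, hw₀, hw₁⟩ := (dense_iUnion_interior_of_closed hFc hFU).inter_open_nonempty U hU hne
  obtain ⟨D, hD⟩ := Set.mem_iUnion.1 hw₁
  -- all minors of size D + 1 vanish
  have hzero : ∀ e, mn D e = 0 := by
    intro e
    refine eq_zero_of_open (V := interior (F D) ∩ U) _ (isOpen_interior.inter hU) ⟨hD, hw₀⟩ ?_
    rintro w ⟨hw, hwU⟩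
    rcases interior_subset hw with h1 | h1
    · exact h1 e
    · exact absurd hwU h1
  -- linear algebra over the field of fractions
  obtain ⟨a, ha, ha'⟩ := dep_of_minors (K := FractionRing (MvPolynomial (Fin r) ℂ))
    (fun (j : Fin (D + 1)) n => algebraMap _ _ (q (D + 1 + n - j))) (fun e => by
      have h1 := congrArg (algebraMap (MvPolynomial (Fin r) ℂ)
        (FractionRing (MvPolynomial (Fin r) ℂ))) (hzero e)
      rw [map_zero] at h1
      rw [← h1]
      show _ = algebraMap _ _ (Matrix.det _)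
      rw [RingHom.map_det]
      rfl)
  obtain ⟨den, hden⟩ := IsLocalization.exist_integer_multiples_of_finite
    (nonZeroDivisors (MvPolynomial (Fin r) ℂ)) a
  choose c hc using hden
  have hden0 : (algebraMap (MvPolynomial (Fin r) ℂ)
      (FractionRing (MvPolynomial (Fin r) ℂ))) (den : MvPolynomial (Fin r) ℂ) ≠ 0 := by
    rw [Ne, IsFractionRing.to_map_eq_zero_iff]
    exact nonZeroDivisors.ne_zero den.2
  have hcne : ∃ j, c j ≠ 0 := by
    by_contra hcon
    push Not at hcon
    apply ha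
    funext j
    have h1 := hc j
    rw [hcon j, map_zero, Algebra.smul_def] at h1
    exact (mul_eq_zero.1 h1.symm).resolve_left hden0
  have hrel : ∀ n : ℕ, ∑ j : Fin (D + 1), c j * q (D + 1 + n - j) = 0 := by
    intro n
    apply IsFractionRing.injective (MvPolynomial (Fin r) ℂ)
      (FractionRing (MvPolynomial (Fin r) ℂ))
    rw [map_sum, map_zero]
    have h1 := congrArg (fun x => algebraMap (MvPolynomial (Fin r) ℂ)
      (FractionRing (MvPolynomial (Fin r) ℂ)) (den : MvPolynomial (Fin r) ℂ) * x) (ha' n)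
    simp only [mul_zero, Finset.mul_sum] at h1
    rw [← h1]
    refine Finset.sum_congr rfl fun j _ => ?_
    rw [map_mul, hc, Algebra.smul_def, mul_assoc]
  obtain ⟨j₀, hj₀⟩ := hcne
  rcases Nat.eq_zero_or_pos r with hr | hr
  · -- no variables
    subst hr
    refine ⟨0, 0, fun j => if j = 0 then 1 else 0, fun j => ?_, ⟨0, le_rfl, ?_⟩, fun n hn => ?_⟩
    · by_cases hj : j = 0
      · subst hj
        exact isHomogeneous_one (Fin 0) ℂ
      · simp only [if_neg hj]
        exact isHomogeneous_zero _ _ _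
    · show (if (0 : ℕ) = 0 then (1 : MvPolynomial (Fin 0) ℂ) else 0) ≠ 0
      rw [if_pos rfl]
      exact one_ne_zero
    · rw [zero_add, Finset.sum_range_one]
      show (if (0 : ℕ) = 0 then (1 : MvPolynomial (Fin 0) ℂ) else 0) * q (n - 0) = 0
      rw [if_pos rfl, one_mul, Nat.sub_zero]
      by_contra hne'
      have := (hq n).inj_right (isHomogeneous_of_isEmpty _ _ (q n)) hne'
      omega
  · let x : MvPolynomial (Fin r) ℂ := X ⟨0, hr⟩ ^ D
    have hx : x.IsHomogeneous D := isHomogeneous_X_pow _ _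
    have hx0 : x ≠ 0 := pow_ne_zero _ (X_ne_zero _)
    let c' : ℕ → MvPolynomial (Fin r) ℂ := fun j => if hj : j < D + 1 then c ⟨j, hj⟩ * x else 0
    obtain ⟨d, hd⟩ : ∃ d, homogeneousComponent d (c j₀) ≠ 0 := by
      by_contra hcon
      push Not at hcon
      apply hj₀
      rw [← sum_homogeneousComponent (c j₀)]
      exact Finset.sum_eq_zero fun i _ => hcon i
    have hcomp : homogeneousComponent (d + D) (c' j₀) ≠ 0 := by
      show homogeneousComponent (d + D) (if hj : (j₀ : ℕ) < D + 1 then c ⟨j₀, hj⟩ * x else 0) ≠ 0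
      rw [dif_pos j₀.2, comp_mul _ _ hx]
      exact mul_ne_zero hd hx0
    have hj₀' : (j₀ : ℕ) ≤ D := Nat.lt_succ_iff.1 j₀.2
    obtain ⟨t, b, hb1, hb2, hb3⟩ := homog_of_rel q hq c' hj₀' (by omega) hcomp (fun n hn => by
      have h1 := hrel (n - (D + 1))
      have h2 := congrArg (fun y => y * x) h1
      simp only [zero_mul, Finset.sum_mul] at h2
      rw [Finset.sum_range, ← h2]
      refine Finset.sum_congr rfl fun j _ => ?_
      show (if hj : (j : ℕ) < D + 1 then c ⟨j, hj⟩ * x else 0) * q (n - j) = _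
      rw [dif_pos j.2, show D + 1 + (n - (D + 1)) - (j : ℕ) = n - j by omega]
      ring)
    exact ⟨D, t, b, hb1, hb2, hb3⟩

end

end Pool.Agent.CMFn
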