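import Pool.Agent.CMFn.KronA

/-! Project CMFn, block S, KronB: a function analytic at a point and rational on every line through
it is rational. -/

namespace Pool.Agent.CMFn

open Filter Topology

noncomputable section

namespace KronBX

/-- Uniqueness of the coefficients of a power series. -/
lemma coeff_unique {F : ℂ → ℂ} {u v : ℕ → ℂ}
    (hu : ∀ᶠ s in 𝓝 (0 : ℂ), HasSum (fun n => s ^ n * u n) (F s))
    (hv : ∀ᶠ s in 𝓝 (0 : ℂ), HasSum (fun n => s ^ n * v n) (F s)) : u = v := by
  have key : ∀ u : ℕ → ℂ, (∀ᶠ s in 𝓝 (0 : ℂ), HasSum (fun n => s ^ n * u n) (F s)) →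
      HasFPowerSeriesAt F (FormalMultilinearSeries.ofScalars ℂ u) 0 := by
    intro u hu
    rw [hasFPowerSeriesAt_iff]
    filter_upwards [hu] with s hs
    rw [zero_add]
    simpa [FormalMultilinearSeries.coeff_ofScalars] using hs
  have h := (key u hu).eq_formalMultilinearSeries (key v hv)
  funext n
  have h2 := congrArg (fun p : FormalMultilinearSeries ℂ ℂ ℂ => p.coeff n) h
  simpa [FormalMultilinearSeries.coeff_ofScalars] using h2

/-- The coefficients of a product of a power series with a polynomial. -/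
lemma hasSum_shift {c : ℕ → ℂ} {s x : ℂ} (h : HasSum (fun n => s ^ n * c n) x) (j : ℕ) (a : ℂ) :
    HasSum (fun n => s ^ n * (if j ≤ n then a * c (n - j) else 0)) (a * s ^ j * x) := by
  have h1 : HasSum (fun n => a * s ^ j * (s ^ n * c n)) (a * s ^ j * x) := h.mul_left _
  have h2 : (fun n => s ^ n * (if j ≤ n then a * c (n - j) else 0)) ∘ (fun n => n + j) =
      fun n => a * s ^ j * (s ^ n * c n) := by
    funext n
    simp only [Function.comp]
    rw [if_pos (Nat.le_add_left j n), Nat.add_sub_cancel, pow_add]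
    ring
  rw [← h2] at h1
  refine (Function.Injective.hasSum_iff (add_left_injective j) ?_).1 h1
  intro n hn
  have h3 : ¬ j ≤ n := fun h => hn ⟨n - j, Nat.sub_add_cancel h⟩
  rw [if_neg h3, mul_zero]

lemma hasSum_mul_range {c : ℕ → ℂ} {s x : ℂ} (h : HasSum (fun n => s ^ n * c n) x) (a : ℕ → ℂ)
    (D : ℕ) :
    HasSum (fun n => s ^ n * ∑ j ∈ Finset.range (D + 1), (if j ≤ n then a j * c (n - j) else 0))
      ((∑ j ∈ Finset.range (D + 1), a j * s ^ j) * x) := by
  have h1 := hasSum_sum (s := Finset.range (D + 1))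
    (fun j _ => hasSum_shift h j (a j))
  have h2 : (fun n => s ^ n * ∑ j ∈ Finset.range (D + 1),
      (if j ≤ n then a j * c (n - j) else 0)) = fun n => ∑ j ∈ Finset.range (D + 1),
        s ^ n * (if j ≤ n then a j * c (n - j) else 0) := funext fun n => Finset.mul_sum _ _ _
  rw [Finset.sum_mul, h2]
  exact h1

/-- The polynomial `w ↦ p_k(w, …, w)`. -/
def qpoly {r : ℕ} (p : FormalMultilinearSeries ℂ (Fin r → ℂ) ℂ) (k : ℕ) :
    MvPolynomial (Fin r) ℂ :=
  ∑ s : Fin k → Fin r, MvPolynomial.C (p k (fun i => Pi.single (s i) 1)) *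
    ∏ i, MvPolynomial.X (s i)

lemma qpoly_hom {r : ℕ} (p : FormalMultilinearSeries ℂ (Fin r → ℂ) ℂ) (k : ℕ) :
    (qpoly p k).IsHomogeneous k := by
  unfold qpoly
  refine MvPolynomial.IsHomogeneous.sum _ _ _ fun s _ => ?_
  have h1 := (MvPolynomial.isHomogeneous_C (Fin r)
    (p k (fun i => Pi.single (s i) (1 : ℂ)))).mul
    (MvPolynomial.IsHomogeneous.prod Finset.univ (fun i : Fin k => MvPolynomial.X (s i))
      (fun _ => 1) (fun i _ => MvPolynomial.isHomogeneous_X ℂ (s i)))
  simpa using h1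

lemma qpoly_eval {r : ℕ} (p : FormalMultilinearSeries ℂ (Fin r → ℂ) ℂ) (k : ℕ)
    (w : Fin r → ℂ) : MvPolynomial.eval w (qpoly p k) = p k (fun _ => w) := by
  have h1 : (fun _ : Fin k => w) =
      fun _ : Fin k => ∑ j : Fin r, w j • (Pi.single j (1 : ℂ) : Fin r → ℂ) := by
    funext i
    exact pi_eq_sum_univ' w
  have h2 : p k (fun _ => w) = (p k).toMultilinearMap (fun _ => w) := rfl
  rw [h2, h1, MultilinearMap.map_sum]
  unfold qpoly
  rw [map_sum]
  refine Finset.sum_congr rfl fun s _ => ?_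
  rw [MultilinearMap.map_smul_univ, map_mul, MvPolynomial.eval_C, map_prod, smul_eq_mul, mul_comm]
  congr 1
  exact Finset.prod_congr rfl fun i _ => MvPolynomial.eval_X _

/-- Homogeneous polynomials on a line. -/
lemma eval_smul_hom {r k : ℕ} {p : MvPolynomial (Fin r) ℂ} (hp : p.IsHomogeneous k) (c : ℂ)
    (w : Fin r → ℂ) : MvPolynomial.eval (c • w) p = c ^ k * MvPolynomial.eval w p := by
  rw [MvPolynomial.eval_eq', MvPolynomial.eval_eq', Finset.mul_sum]
  refine Finset.sum_congr rfl fun d hd => ?_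
  have h1 : ∏ i, (c • w) i ^ d i = c ^ k * ∏ i, w i ^ d i := by
    have h2 : ∀ i, (c • w) i ^ d i = c ^ d i * w i ^ d i := fun i => by
      rw [Pi.smul_apply, smul_eq_mul, mul_pow]
    simp only [h2]
    rw [Finset.prod_mul_distrib, Finset.prod_pow_eq_pow_sum]
    have h3 : ∑ i, d i = k := by
      have h4 := hp (MvPolynomial.mem_support_iff.1 hd)
      rw [← h4, Finsupp.weight_apply, Finsupp.sum_fintype _ _ (fun i => by simp)]
      simp
    rw [h3]
  rw [h1]
  ring

/-- The recurrence for the coefficients of a rational function of one variable. -/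
lemma recurrence {F : ℂ → ℂ} {c : ℕ → ℂ}
    (hc : ∀ᶠ s in 𝓝 (0 : ℂ), HasSum (fun n => s ^ n * c n) (F s)) (P Q : Polynomial ℂ)
    (hQ : Q ≠ 0) (h : ∀ᶠ s in 𝓝 (0 : ℂ), Q.eval s * F s = P.eval s) :
    ∃ (a : ℕ → ℂ) (D : ℕ), (∀ j, D < j → a j = 0) ∧ (∃ j, a j ≠ 0) ∧
      ∀ n, D < n → ∑ j ∈ Finset.range (D + 1), a j * c (n - j) = 0 := by
  set D := max Q.natDegree P.natDegree with hD
  have hQD : ∀ s, Q.eval s = ∑ j ∈ Finset.range (D + 1), Q.coeff j * s ^ j := fun s =>
    Polynomial.eval_eq_sum_range' (Nat.lt_succ_of_le (le_max_left _ _)) s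
  have hPD : ∀ s, P.eval s = ∑ j ∈ Finset.range (D + 1), P.coeff j * s ^ j := fun s =>
    Polynomial.eval_eq_sum_range' (Nat.lt_succ_of_le (le_max_right _ _)) s
  refine ⟨fun j => Q.coeff j, D, fun j hj => ?_, ?_, fun n hn => ?_⟩
  · exact Polynomial.coeff_eq_zero_of_natDegree_lt (lt_of_le_of_lt (le_max_left _ _) hj)
  · by_contra hcon
    exact hQ (Polynomial.ext fun j => by
      rw [Polynomial.coeff_zero]
      exact not_not.1 fun h => hcon ⟨j, h⟩)
  · have h1 : ∀ᶠ s in 𝓝 (0 : ℂ), HasSum (fun n => s ^ n * ∑ j ∈ Finset.range (D + 1),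
        (if j ≤ n then Q.coeff j * c (n - j) else 0)) (P.eval s) := by
      filter_upwards [hc, h] with s hs hs'
      have h2 := hasSum_mul_range hs (fun j => Q.coeff j) D
      rwa [← hQD, hs'] at h2
    have h3 : ∀ᶠ s in 𝓝 (0 : ℂ), HasSum (fun n => s ^ n * P.coeff n) (P.eval s) := by
      refine Eventually.of_forall fun s => ?_
      rw [hPD]
      have h4 : ∑ j ∈ Finset.range (D + 1), P.coeff j * s ^ j =
          ∑ j ∈ Finset.range (D + 1), s ^ j * P.coeff j :=
        Finset.sum_congr rfl fun j _ => mul_comm _ _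
      rw [h4]
      refine hasSum_sum_of_ne_finset_zero fun j hj => ?_
      rw [Finset.mem_range, not_lt] at hj
      rw [Polynomial.coeff_eq_zero_of_natDegree_lt
        (lt_of_le_of_lt (le_max_right Q.natDegree P.natDegree) (Nat.lt_of_succ_le hj)), mul_zero]
    have h5 := congrFun (coeff_unique h1 h3) n
    rw [Polynomial.coeff_eq_zero_of_natDegree_lt
      (lt_of_le_of_lt (le_max_right Q.natDegree P.natDegree) hn)] at h5
    rw [← h5]
    refine Finset.sum_congr rfl fun j hj => ?_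
    rw [Finset.mem_range] at hj
    rw [if_pos (by omega)]

end KronBX

open KronBX

/-- A function with a homogeneous expansion at `v₁`, rational on every line through `v₁`, is
rational. -/
theorem rational_of_homog {r : ℕ} (f : (Fin r → ℂ) → ℂ) (v₁ : Fin r → ℂ)
    (q : ℕ → MvPolynomial (Fin r) ℂ) (hq : ∀ k, (q k).IsHomogeneous k)
    (hsum : ∀ᶠ w in 𝓝 (0 : Fin r → ℂ), HasSum (fun n => MvPolynomial.eval w (q n)) (f (v₁ + w)))
    (h : ∀ w : Fin r → ℂ, ∃ P Q : Polynomial ℂ, Q ≠ 0 ∧
      ∀ᶠ s in nhds (0 : ℂ), Q.eval s * f (v₁ + s • w) = P.eval s) :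
    ∃ P Q : MvPolynomial (Fin r) ℂ, Q ≠ 0 ∧
      ∀ᶠ v in nhds v₁, MvPolynomial.eval v Q * f v = MvPolynomial.eval v P := by
  obtain ⟨D, t, b, hb, ⟨j₀, hj₀, hbj⟩, hrec⟩ := kron_alg q hq Set.univ
    isOpen_univ ⟨0, Set.mem_univ _⟩ (fun w _ => by
      obtain ⟨P, Q, hQ, hPQ⟩ := h w
      refine recurrence (F := fun s => f (v₁ + s • w))
        (c := fun n => MvPolynomial.eval w (q n)) ?_ P Q hQ hPQ
      have hcont : Tendsto (fun s : ℂ => s • w) (𝓝 0) (𝓝 (0 : Fin r → ℂ)) := by
        have h2 : Continuous fun s : ℂ => s • w := by fun_prop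
        have h3 := h2.tendsto 0
        rwa [zero_smul] at h3
      filter_upwards [hcont.eventually hsum] with s hs
      have h5 : (fun n => s ^ n * MvPolynomial.eval w (q n)) =
          fun n => MvPolynomial.eval (s • w) (q n) := by
        funext n
        exact (eval_smul_hom (hq n) s w).symm
      show HasSum (fun n => s ^ n * MvPolynomial.eval w (q n)) (f (v₁ + s • w))
      rw [h5]
      exact hs)
  -- the denominator and the numerator around `0`
  set Q₀ : MvPolynomial (Fin r) ℂ := ∑ j ∈ Finset.range (D + 1), b j with hQ₀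
  set P₀ : MvPolynomial (Fin r) ℂ := ∑ n ∈ Finset.range (D + 1),
    ∑ j ∈ Finset.range (D + 1), (if j ≤ n then b j * q (n - j) else 0) with hP₀
  have hQ₀0 : Q₀ ≠ 0 := by
    intro h0
    apply hbj
    have h1 : MvPolynomial.homogeneousComponent (t + j₀) Q₀ = b j₀ := by
      rw [hQ₀, map_sum]
      rw [Finset.sum_eq_single j₀]
      · exact MvPolynomial.homogeneousComponent_of_mem (hb j₀) ▸ if_pos rfl
      · intro j _ hj
        rw [MvPolynomial.homogeneousComponent_of_mem (hb j)]
        exact if_neg (by omega)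
      · intro hj
        exact absurd (Finset.mem_range.2 (Nat.lt_succ_of_le hj₀)) hj
    rw [← h1, h0, map_zero]
  have hid : ∀ᶠ w in 𝓝 (0 : Fin r → ℂ),
      MvPolynomial.eval w Q₀ * f (v₁ + w) = MvPolynomial.eval w P₀ := by
    filter_upwards [hsum] with w hw
    have h1 : HasSum (fun n => (1 : ℂ) ^ n * MvPolynomial.eval w (q n)) (f (v₁ + w)) := by
      simpa using hw
    have h2 := hasSum_mul_range h1 (fun j => MvPolynomial.eval w (b j)) D
    have h3 : (∑ j ∈ Finset.range (D + 1), MvPolynomial.eval w (b j) * (1 : ℂ) ^ j) =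
        MvPolynomial.eval w Q₀ := by
      rw [hQ₀, map_sum]
      exact Finset.sum_congr rfl fun j _ => by rw [one_pow, mul_one]
    rw [h3] at h2
    have h4 : HasSum (fun n => (1 : ℂ) ^ n * ∑ j ∈ Finset.range (D + 1),
        (if j ≤ n then MvPolynomial.eval w (b j) * MvPolynomial.eval w (q (n - j)) else 0))
        (MvPolynomial.eval w P₀) := by
      have h5 : MvPolynomial.eval w P₀ = ∑ n ∈ Finset.range (D + 1), (1 : ℂ) ^ n *
          ∑ j ∈ Finset.range (D + 1), (if j ≤ n then
            MvPolynomial.eval w (b j) * MvPolynomial.eval w (q (n - j)) else 0) := by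
        rw [hP₀, map_sum]
        refine Finset.sum_congr rfl fun n _ => ?_
        rw [one_pow, one_mul, map_sum]
        refine Finset.sum_congr rfl fun j _ => ?_
        split_ifs
        · rw [map_mul]
        · rw [map_zero]
      rw [h5]
      refine hasSum_sum_of_ne_finset_zero fun n hn => ?_
      rw [Finset.mem_range, not_lt] at hn
      have h6 := congrArg (MvPolynomial.eval w) (hrec n (Nat.lt_of_succ_le hn))
      rw [map_sum, map_zero] at h6
      rw [one_pow, one_mul, ← h6]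
      refine Finset.sum_congr rfl fun j hj => ?_
      rw [Finset.mem_range] at hj
      rw [if_pos (by omega), map_mul]
    exact h2.unique h4
  -- translation
  set sub : MvPolynomial (Fin r) ℂ →ₐ[ℂ] MvPolynomial (Fin r) ℂ :=
    MvPolynomial.bind₁ fun i => MvPolynomial.X i - MvPolynomial.C (v₁ i) with hsub
  have hev : ∀ (v : Fin r → ℂ) (R : MvPolynomial (Fin r) ℂ),
      MvPolynomial.eval v (sub R) = MvPolynomial.eval (v - v₁) R := by
    intro v R
    rw [hsub, ← MvPolynomial.coe_aeval_eq_eval, ← MvPolynomial.coe_aeval_eq_eval]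
    show MvPolynomial.aeval v (MvPolynomial.bind₁ _ R) = MvPolynomial.aeval (v - v₁) R
    rw [MvPolynomial.aeval_bind₁]
    congr 1
    congr 1
    funext i
    simp
  refine ⟨sub P₀, sub Q₀, ?_, ?_⟩
  · intro h0
    apply hQ₀0
    refine MvPolynomial.funext fun w => ?_
    have h1 := hev (w + v₁) Q₀
    rw [h0, map_zero, add_sub_cancel_right] at h1
    rw [← h1, map_zero]
  · have hcont : Tendsto (fun v : Fin r → ℂ => v - v₁) (𝓝 v₁) (𝓝 0) := by
      have h2 : Continuous fun v : Fin r → ℂ => v - v₁ := by fun_prop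
      have h3 := h2.tendsto v₁
      rwa [sub_self] at h3
    filter_upwards [hcont.eventually hid] with v hv
    rw [hev, hev]
    rwa [add_sub_cancel] at hv

/-- A function with an expansion `f (v₁ + w) = Σ p_n(w, …, w)` near `v₁`, rational on every line
through `v₁`, is rational. -/
theorem rational_of_lines_sum {r : ℕ} (f : (Fin r → ℂ) → ℂ) (v₁ : Fin r → ℂ)
    (p : FormalMultilinearSeries ℂ (Fin r → ℂ) ℂ)
    (hsum : ∀ᶠ w in 𝓝 (0 : Fin r → ℂ), HasSum (fun n => p n (fun _ => w)) (f (v₁ + w)))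
    (h : ∀ w : Fin r → ℂ, ∃ P Q : Polynomial ℂ, Q ≠ 0 ∧
      ∀ᶠ s in nhds (0 : ℂ), Q.eval s * f (v₁ + s • w) = P.eval s) :
    ∃ P Q : MvPolynomial (Fin r) ℂ, Q ≠ 0 ∧
      ∀ᶠ v in nhds v₁, MvPolynomial.eval v Q * f v = MvPolynomial.eval v P := by
  refine rational_of_homog f v₁ (qpoly p) (qpoly_hom p) ?_ h
  filter_upwards [hsum] with w hw
  have h2 : (fun n => MvPolynomial.eval w (qpoly p n)) = fun n => p n (fun _ => w) :=
    funext fun n => qpoly_eval p n w
  rw [h2]
  exact hw

/-- A function analytic at `v₁`, rational on every line through `v₁`, is rational. -/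
theorem rational_of_lines {r : ℕ} (f : (Fin r → ℂ) → ℂ) (v₁ : Fin r → ℂ) (hf : AnalyticAt ℂ f v₁)
    (h : ∀ w : Fin r → ℂ, ∃ P Q : Polynomial ℂ, Q ≠ 0 ∧
      ∀ᶠ s in nhds (0 : ℂ), Q.eval s * f (v₁ + s • w) = P.eval s) :
    ∃ P Q : MvPolynomial (Fin r) ℂ, Q ≠ 0 ∧
      ∀ᶠ v in nhds v₁, MvPolynomial.eval v Q * f v = MvPolynomial.eval v P := by
  obtain ⟨p, hp⟩ := hf
  refine rational_of_lines_sum f v₁ p ?_ h
  obtain ⟨R, hR⟩ := hp
  filter_upwards [Metric.eball_mem_nhds (0 : Fin r → ℂ) hR.r_pos] with w hw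
  exact hR.hasSum hw

end

end Pool.Agent.CMFn
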