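import Mathlib

/-! Project CMFn, module Osg: homogeneous expansion of a function differentiable on a
ball of `ℂ^r` (Mathlib has no Osgood / Hartogs lemma).  (helper71) -/

namespace Pool.Agent.CMFn

open Metric Function

namespace OsgX

/-- The `k`-th Taylor coefficient at `0`. -/
noncomputable def b (k : ℕ) (F : ℂ → ℂ) : ℂ := ((swap dslope (0 : ℂ))^[k] F) 0

lemma b_zero (F : ℂ → ℂ) : b 0 F = F 0 := rfl

lemma b_succ (k : ℕ) (F : ℂ → ℂ) : b (k + 1) F = b k (dslope F 0) := by
  unfold b
  rw [Function.iterate_succ_apply]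

lemma dslope_scale (F : ℂ → ℂ) (μ : ℂ) (hμ : μ ≠ 0) :
    dslope (fun s => F (μ * s)) 0 = fun s => μ * dslope F 0 (μ * s) := by
  funext s
  rcases eq_or_ne s 0 with rfl | hs
  · rw [dslope_same, deriv_comp_mul_left, mul_zero, dslope_same, smul_eq_mul]
  · rw [dslope_of_ne _ hs, dslope_of_ne _ (mul_ne_zero hμ hs), slope_def_field, slope_def_field,
      mul_zero, sub_zero, sub_zero]
    field_simp

lemma dslope_const_mul (F : ℂ → ℂ) (a : ℂ) :
    dslope (fun s => a * F s) 0 = fun s => a * dslope F 0 s := by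
  funext s
  rcases eq_or_ne s 0 with rfl | hs
  · rw [dslope_same, deriv_const_mul_field, dslope_same]
  · rw [dslope_of_ne _ hs, dslope_of_ne _ hs, slope_def_field, slope_def_field]
    ring

lemma b_const_mul (k : ℕ) : ∀ (F : ℂ → ℂ) (a : ℂ), b k (fun s => a * F s) = a * b k F := by
  induction k with
  | zero => intro F a; rfl
  | succ k ih =>
    intro F a
    rw [b_succ, b_succ, dslope_const_mul, ih]

lemma b_scale (k : ℕ) : ∀ (F : ℂ → ℂ) (μ : ℂ), μ ≠ 0 →
    b k (fun s => F (μ * s)) = μ ^ k * b k F := by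
  induction k with
  | zero => intro F μ _; rw [b_zero, b_zero, mul_zero, pow_zero, one_mul]
  | succ k ih =>
    intro F μ hμ
    rw [b_succ, b_succ, dslope_scale F μ hμ, b_const_mul k (fun s => dslope F 0 (μ * s)) μ, ih _ _ hμ,
      pow_succ]
    ring

lemma b_hasSum (F : ℂ → ℂ) (hF : DifferentiableOn ℂ F (closedBall 0 1)) (s : ℂ) (hs : ‖s‖ < 1) :
    HasSum (fun k => s ^ k * b k F) (F s) := by
  have hp := DifferentiableOn.hasFPowerSeriesOnBall (R := 1) (c := 0) (f := F)
    (by simpa using hF) one_pos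
  have h1 := hp.hasSum (y := s) (by
    have h0 : ‖s‖ₑ < ((1 : NNReal) : ENNReal) := enorm_lt_coe.2 (by
      rw [← NNReal.coe_lt_coe]
      simpa using hs)
    simpa using h0)
  rw [zero_add] at h1
  have h2 : ∀ k, (cauchyPowerSeries F 0 (1 : NNReal) k fun _ => s) = s ^ k * b k F := by
    intro k
    rw [FormalMultilinearSeries.apply_eq_pow_smul_coeff, smul_eq_mul]
    congr 1
    have h3 := HasFPowerSeriesAt.has_fpower_series_iterate_dslope_fslope k hp.hasFPowerSeriesAt
    have h4 := h3.coeff_zero (fun _ => 0)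
    have h5 := FormalMultilinearSeries.coeff_iterate_fslope
      (p := cauchyPowerSeries F 0 (1 : NNReal)) k 0
    rw [zero_add] at h5
    rw [← h5]
    show _ = ((swap dslope (0 : ℂ))^[k] F) 0
    rw [← h4]
    rw [FormalMultilinearSeries.coeff]
    congr 1
    exact Subsingleton.elim _ _
  simpa only [h2] using h1

lemma param (k : ℕ) : ∀ (h : ℂ → ℂ → ℂ) (M : ℝ),
    (∀ t ∈ ball (0 : ℂ) 1, DifferentiableOn ℂ (fun s => h s t) (ball 0 2)) →
    (∀ s ∈ ball (0 : ℂ) 2, DifferentiableOn ℂ (h s) (ball 0 1)) →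
    (∀ s ∈ ball (0 : ℂ) 2, ∀ t ∈ ball (0 : ℂ) 1, ‖h s t‖ ≤ M) →
    DifferentiableOn ℂ (fun t => b k (fun s => h s t)) (ball 0 1) := by
  induction k with
  | zero =>
    intro h M _ h2 _
    exact h2 0 (by simp)
  | succ k ih =>
    intro h M h1 h2 h3
    have hz : (0 : ℂ) ∈ ball (0 : ℂ) 2 := by simp
    set g : ℂ → ℂ → ℂ := fun s t => dslope (fun s => h s t) 0 s with hg
    have hg1 : ∀ t ∈ ball (0 : ℂ) 1, DifferentiableOn ℂ (fun s => g s t) (ball 0 2) := by
      intro t ht
      exact (Complex.differentiableOn_dslope (ball_mem_nhds 0 two_pos)).2 (h1 t ht)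
    have key : ∀ (F : ℂ → ℂ), DifferentiableOn ℂ F (ball 0 2) → (∀ s ∈ ball (0 : ℂ) 2, ‖F s‖ ≤ M) →
        ∀ s ∈ ball (0 : ℂ) 2, ‖dslope F 0 s‖ ≤ M := by
      intro F hF hM s hs
      have h4 := Complex.norm_dslope_le_div_of_mapsTo_ball (R₂ := 2 * M) hF (by
        intro z hz'
        rw [mem_closedBall, dist_eq_norm]
        calc ‖F z - F 0‖ ≤ ‖F z‖ + ‖F 0‖ := norm_sub_le _ _
          _ ≤ M + M := add_le_add (hM z hz') (hM 0 hz)
          _ = 2 * M := by ring) hs
      calc ‖dslope F 0 s‖ ≤ 2 * M / 2 := h4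
        _ = M := by ring
    have hg3 : ∀ s ∈ ball (0 : ℂ) 2, ∀ t ∈ ball (0 : ℂ) 1, ‖g s t‖ ≤ M := by
      intro s hs t ht
      exact key (fun s => h s t) (h1 t ht) (fun s hs => h3 s hs t ht) s hs
    have hg2' : ∀ s ∈ ball (0 : ℂ) 2, s ≠ 0 → DifferentiableOn ℂ (g s) (ball 0 1) := by
      intro s hs hs0
      have h5 : g s = fun t => (h s t - h 0 t) / (s - 0) := by
        funext t
        rw [hg]
        show dslope (fun s => h s t) 0 s = _
        rw [dslope_of_ne _ hs0, slope_def_field]
      rw [h5]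
      exact ((h2 s hs).sub (h2 0 hz)).div_const _
    have hg2 : ∀ s ∈ ball (0 : ℂ) 2, DifferentiableOn ℂ (g s) (ball 0 1) := by
      intro s hs
      rcases eq_or_ne s 0 with rfl | hs0
      · have hlim : TendstoUniformlyOn (fun (n : ℕ) (t : ℂ) => g (1 / ((n : ℂ) + 1)) t) (g 0)
            Filter.atTop (ball 0 1) := by
          rw [Metric.tendstoUniformlyOn_iff]
          intro ε hε
          have h6 : Filter.Tendsto (fun n : ℕ => (1 / ((n : ℝ) + 1)) * M) Filter.atTop
              (nhds (0 * M)) := tendsto_one_div_add_atTop_nhds_zero_nat.mul_const M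
          rw [zero_mul] at h6
          filter_upwards [h6.eventually (gt_mem_nhds hε)] with n hn t ht
          have hn0 : (1 / ((n : ℂ) + 1)) ≠ 0 := by
            apply one_div_ne_zero
            exact Nat.cast_add_one_ne_zero n
          have hnn : ‖(1 / ((n : ℂ) + 1))‖ = 1 / ((n : ℝ) + 1) := by
            rw [norm_div, norm_one]
            congr 1
            have : ((n : ℂ) + 1) = (((n : ℝ) + 1 : ℝ) : ℂ) := by push_cast; rfl
            rw [this, Complex.norm_real, Real.norm_eq_abs, abs_of_nonneg]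
            positivity
          have hn2 : (1 / ((n : ℂ) + 1)) ∈ ball (0 : ℂ) 2 := by
            rw [mem_ball, dist_zero_right, hnn]
            have : 1 / ((n : ℝ) + 1) ≤ 1 := by
              rw [div_le_one (by positivity)]
              linarith [Nat.cast_nonneg (α := ℝ) n]
            linarith
          have h7 := key (fun s => g s t) (hg1 t ht) (fun s hs => hg3 s hs t ht) _ hn2
          have h8 := sub_smul_dslope (fun s => g s t) 0 (1 / ((n : ℂ) + 1))
          rw [dist_comm, dist_eq_norm]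
          rw [← h8, sub_zero, norm_smul, hnn]
          calc 1 / ((n : ℝ) + 1) * ‖dslope (fun s => g s t) 0 (1 / ((n : ℂ) + 1))‖
              ≤ 1 / ((n : ℝ) + 1) * M := by
                apply mul_le_mul_of_nonneg_left h7
                positivity
            _ < ε := hn
        refine hlim.tendstoLocallyUniformlyOn.differentiableOn
          (Filter.Eventually.of_forall fun n => ?_) isOpen_ball
        refine hg2' _ ?_ ?_
        · rw [mem_ball, dist_zero_right, norm_div, norm_one]
          have : ((n : ℂ) + 1) = (((n : ℝ) + 1 : ℝ) : ℂ) := by push_cast; rfl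
          rw [this, Complex.norm_real, Real.norm_eq_abs, abs_of_nonneg (by positivity)]
          have : 1 / ((n : ℝ) + 1) ≤ 1 := by
            rw [div_le_one (by positivity)]
            linarith [Nat.cast_nonneg (α := ℝ) n]
          linarith
        · apply one_div_ne_zero
          exact Nat.cast_add_one_ne_zero n
      · exact hg2' s hs hs0
    have h9 := ih g M hg1 hg2 hg3
    exact h9

/-- Entire functions of polynomial growth are polynomials. -/
lemma poly_of_growth (k : ℕ) : ∀ E : ℂ → ℂ, Differentiable ℂ E →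
    (∃ C R : ℝ, ∀ z : ℂ, R ≤ ‖z‖ → ‖E z‖ ≤ C * ‖z‖ ^ k) →
    ∃ P : Polynomial ℂ, P.natDegree ≤ k ∧ ∀ z, E z = P.eval z := by
  induction k with
  | zero =>
    rintro E hE ⟨C, R, hC⟩
    obtain ⟨M, hM⟩ := (isCompact_closedBall (0 : ℂ) R).exists_bound_of_continuousOn
      hE.continuous.continuousOn
    have hb : Bornology.IsBounded (Set.range E) := by
      rw [isBounded_iff_forall_norm_le]
      refine ⟨max M C, ?_⟩
      rintro _ ⟨z, rfl⟩
      rcases le_or_gt R ‖z‖ with h | h
      · have := hC z h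
        rw [pow_zero, mul_one] at this
        exact this.trans (le_max_right _ _)
      · exact (hM z (by simpa using h.le)).trans (le_max_left _ _)
    obtain ⟨c, hc⟩ := hE.exists_const_forall_eq_of_bounded hb
    exact ⟨Polynomial.C c, by simp, fun z => by rw [hc, Polynomial.eval_C]⟩
  | succ k ih =>
    rintro E hE ⟨C, R, hC⟩
    have h1 : Differentiable ℂ (dslope E 0) := by
      rw [← differentiableOn_univ]
      exact (Complex.differentiableOn_dslope Filter.univ_mem).2 hE.differentiableOn
    obtain ⟨P, hP, hP'⟩ := ih (dslope E 0) h1 ⟨C + ‖E 0‖, max R 1, by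
      intro z hz
      have hR : R ≤ ‖z‖ := (le_max_left _ _).trans hz
      have h1z : 1 ≤ ‖z‖ := (le_max_right _ _).trans hz
      have hz0 : z ≠ 0 := by
        rintro rfl
        rw [norm_zero] at h1z
        linarith
      rw [dslope_of_ne _ hz0, slope_def_field, sub_zero, norm_div, div_le_iff₀ (by linarith)]
      have h2 : ‖E 0‖ ≤ ‖E 0‖ * ‖z‖ ^ (k + 1) :=
        le_mul_of_one_le_right (norm_nonneg _) (one_le_pow₀ h1z)
      calc ‖E z - E 0‖ ≤ ‖E z‖ + ‖E 0‖ := norm_sub_le _ _
        _ ≤ C * ‖z‖ ^ (k + 1) + ‖E 0‖ * ‖z‖ ^ (k + 1) := add_le_add (hC z hR) h2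
        _ = (C + ‖E 0‖) * ‖z‖ ^ k * ‖z‖ := by ring⟩
    refine ⟨Polynomial.C (E 0) + Polynomial.X * P, ?_, ?_⟩
    · refine (Polynomial.natDegree_add_le _ _).trans (max_le ?_ ?_)
      · rw [Polynomial.natDegree_C]
        exact Nat.zero_le _
      · refine Polynomial.natDegree_mul_le.trans ?_
        rw [Polynomial.natDegree_X]
        omega
    · intro z
      have h2 := sub_smul_dslope E 0 z
      rw [sub_zero, smul_eq_mul, hP'] at h2
      rw [Polynomial.eval_add, Polynomial.eval_C, Polynomial.eval_mul, Polynomial.eval_X, h2]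
      ring

lemma coeff_scale {r : ℕ} (μ : ℂ) (q : MvPolynomial (Fin r) ℂ) (m : Fin r →₀ ℕ) :
    MvPolynomial.coeff m (MvPolynomial.bind₁ (fun i => MvPolynomial.C μ * MvPolynomial.X i) q) =
      μ ^ (m.degree) * MvPolynomial.coeff m q := by
  induction q using MvPolynomial.induction_on' with
  | monomial u a =>
    have h1 : MvPolynomial.bind₁ (fun i : Fin r => MvPolynomial.C μ * MvPolynomial.X i)
        (MvPolynomial.monomial u a) = MvPolynomial.monomial u (μ ^ u.degree * a) := by
      rw [MvPolynomial.bind₁_monomial, MvPolynomial.monomial_eq (s := u) (a := μ ^ u.degree * a)]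
      have h0 : ∏ i ∈ u.support, (MvPolynomial.C μ * MvPolynomial.X i : MvPolynomial (Fin r) ℂ) ^ u i =
          ∏ i, (MvPolynomial.C μ * MvPolynomial.X i) ^ u i := by
        refine Finset.prod_subset (Finset.subset_univ _) fun i _ hi => ?_
        rw [Finsupp.notMem_support_iff.1 hi, pow_zero]
      rw [h0, Finsupp.degree_eq_sum, Finsupp.prod_fintype]
      · simp only [mul_pow]
        rw [Finset.prod_mul_distrib, MvPolynomial.C_mul, ← Finset.prod_pow_eq_pow_sum, map_prod]
        simp only [map_pow]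
        ring
      · intro i; rw [pow_zero]
    rw [h1, MvPolynomial.coeff_monomial, MvPolynomial.coeff_monomial]
    split_ifs with h
    · rw [h]
    · rw [mul_zero]
  | add p q hp hq =>
    rw [map_add, MvPolynomial.coeff_add, MvPolynomial.coeff_add, hp, hq, mul_add]

lemma homog_of_scale {r : ℕ} (k : ℕ) (q : MvPolynomial (Fin r) ℂ)
    (h : ∀ w : Fin r → ℂ, MvPolynomial.eval ((2 : ℂ) • w) q = 2 ^ k * MvPolynomial.eval w q) :
    q.IsHomogeneous k := by
  have h1 : MvPolynomial.bind₁ (fun i => MvPolynomial.C (2 : ℂ) * MvPolynomial.X i) q =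
      MvPolynomial.C (2 ^ k) * q := by
    apply MvPolynomial.funext
    intro w
    rw [map_mul, MvPolynomial.eval_C, ← h w]
    have h2 : ∀ p : MvPolynomial (Fin r) ℂ, MvPolynomial.eval w (MvPolynomial.bind₁
        (fun i => MvPolynomial.C (2 : ℂ) * MvPolynomial.X i) p) =
        MvPolynomial.eval ((2 : ℂ) • w) p := by
      intro p
      induction p using MvPolynomial.induction_on with
      | C a => simp
      | add p q hp hq => simp [hp, hq]
      | mul_X p i hp => simp [hp]
    exact h2 q
  intro m hm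
  have h2 := coeff_scale 2 q m
  rw [h1, MvPolynomial.coeff_C_mul] at h2
  have h3 := mul_right_cancel₀ hm h2
  have h4 : m.degree = k := by
    have h5 : ((2 ^ k : ℕ) : ℂ) = ((2 ^ m.degree : ℕ) : ℂ) := by push_cast; exact h3
    exact (Nat.pow_right_injective le_rfl (Nat.cast_injective h5)).symm
  rw [← h4, Finsupp.degree_eq_weight_one]
  rfl

end OsgX

open OsgX

/-- A function that is a polynomial of degree at most `n` on every complex line is a polynomial. -/
theorem poly_of_lines {r : ℕ} (n : ℕ) (g : (Fin r → ℂ) → ℂ)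
    (h : ∀ u w : Fin r → ℂ, ∃ P : Polynomial ℂ, P.natDegree ≤ n ∧ ∀ s : ℂ, g (u + s • w) = P.eval s) :
    ∃ p : MvPolynomial (Fin r) ℂ, ∀ u, g u = MvPolynomial.eval u p := by
  induction r with
  | zero =>
    exact ⟨MvPolynomial.C (g 0), fun u => by rw [MvPolynomial.eval_C, Subsingleton.elim u 0]⟩
  | succ r ih =>
    have h1 : ∀ k : ℕ, ∃ p : MvPolynomial (Fin r) ℂ, ∀ u : Fin r → ℂ,
        g (Fin.cons (k : ℂ) u) = MvPolynomial.eval u p := by
      intro k
      refine ih (fun u => g (Fin.cons (k : ℂ) u)) ?_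
      intro u w
      obtain ⟨P, hP, hP'⟩ := h (Fin.cons (k : ℂ) u) (Fin.cons 0 w)
      refine ⟨P, hP, fun s => ?_⟩
      rw [← hP']
      congr 1
      funext i
      refine Fin.cases ?_ (fun i => ?_) i <;> simp
    choose p hp using h1
    refine ⟨∑ k ∈ Finset.range (n + 1), (Polynomial.aeval (MvPolynomial.X 0)
      (Lagrange.basis (Finset.range (n + 1)) (fun k : ℕ => (k : ℂ)) k)) *
        MvPolynomial.rename Fin.succ (p k), fun u => ?_⟩
    obtain ⟨P, hP, hP'⟩ := h (Fin.cons 0 (Fin.tail u)) (Pi.single 0 1)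
    have h2 : ∀ s, g (Fin.cons s (Fin.tail u)) = P.eval s := by
      intro s
      rw [← hP']
      congr 1
      funext i
      refine Fin.cases ?_ (fun i => ?_) i <;> simp
    have h3 : P = Lagrange.interpolate (Finset.range (n + 1)) (fun k : ℕ => (k : ℂ))
        (fun k => P.eval (k : ℂ)) := by
      apply Lagrange.eq_interpolate
      · intro a _ b _ hab
        exact Nat.cast_injective hab
      · rw [Finset.card_range]
        exact lt_of_le_of_lt Polynomial.degree_le_natDegree (by
          rw [Nat.cast_lt]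
          omega)
    have h4 : g u = P.eval (u 0) := by
      rw [← h2, Fin.cons_self_tail]
    rw [h4]
    nth_rewrite 1 [h3]
    rw [Lagrange.interpolate_apply, Polynomial.eval_finsetSum, map_sum]
    refine Finset.sum_congr rfl fun k _ => ?_
    rw [Polynomial.eval_mul, Polynomial.eval_C, map_mul, ← h2, hp, mul_comm]
    congr 1
    · have h5 : ∀ Q : Polynomial ℂ, MvPolynomial.eval u (Polynomial.aeval (MvPolynomial.X 0) Q) =
          Q.eval (u 0) := by
        intro Q
        induction Q using Polynomial.induction_on' with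
        | add p q hp hq => rw [map_add, map_add, hp, hq, Polynomial.eval_add]
        | monomial m a =>
          rw [Polynomial.aeval_monomial, map_mul, map_pow, MvPolynomial.eval_X,
            Polynomial.eval_monomial]
          simp
      rw [h5]
    · rw [MvPolynomial.eval_rename]
      rfl

/-- Homogeneous expansion.  `q_k(w)` = `k`-th Taylor coefficient of `s ↦ f (v₁ + s w)` at `0`; it is
continuous, homogeneous of degree `k`, and entire of growth `|s|^k` on every line. -/
theorem exists_homog {r : ℕ} (f : (Fin r → ℂ) → ℂ) (v₁ : Fin r → ℂ) (ε : ℝ) (hε : 0 < ε)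
    (hf : ∀ u ∈ Metric.ball v₁ ε, DifferentiableAt ℂ f u) :
    ∃ q : ℕ → MvPolynomial (Fin r) ℂ, (∀ k, (q k).IsHomogeneous k) ∧
      ∀ w : Fin r → ℂ, ‖w‖ < ε → ∀ s : ℂ, ‖s‖ < 1 →
        HasSum (fun k => s ^ k * MvPolynomial.eval w (q k)) (f (v₁ + s • w)) := by
  set c : ℕ → (Fin r → ℂ) → ℂ := fun k w => b k (fun s => f (v₁ + s • w)) with hc
  have hscale : ∀ k (μ : ℂ) (w : Fin r → ℂ), μ ≠ 0 → c k (μ • w) = μ ^ k * c k w := by
    intro k μ w hμ
    rw [hc]
    have h1 : (fun s : ℂ => f (v₁ + s • μ • w)) = fun s => (fun t : ℂ => f (v₁ + t • w)) (μ * s) := by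
      funext s
      show f _ = f _
      rw [smul_smul, mul_comm s μ]
    show b k (fun s : ℂ => f (v₁ + s • μ • w)) = _
    rw [h1]
    exact b_scale k (fun t : ℂ => f (v₁ + t • w)) μ hμ
  -- a bound on a smaller ball
  obtain ⟨M, hM⟩ : ∃ M : ℝ, ∀ u ∈ closedBall v₁ (ε / 2), ‖f u‖ ≤ M := by
    refine (isCompact_closedBall v₁ (ε / 2)).exists_bound_of_continuousOn ?_
    intro u hu
    refine (hf u ?_).continuousAt.continuousWithinAt
    rw [mem_closedBall] at hu
    rw [mem_ball]
    linarith
  -- differentiability at `0` on lines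
  have hdiff0 : ∀ k (u w : Fin r → ℂ), DifferentiableAt ℂ (fun t : ℂ => c k (u + t • w)) 0 := by
    intro k u w
    set μ : ℝ := ε / (8 * (‖u‖ + ‖w‖ + 1)) with hμd
    have hden : 0 < 8 * (‖u‖ + ‖w‖ + 1) := by positivity
    have hμ : 0 < μ := div_pos hε hden
    have hμc : (μ : ℂ) ≠ 0 := by
      rw [Complex.ofReal_ne_zero]
      exact hμ.ne'
    have hμn : ‖(μ : ℂ)‖ = μ := by
      rw [Complex.norm_real, Real.norm_eq_abs, abs_of_pos hμ]
    have hμu : μ * (‖u‖ + ‖w‖) < ε / 8 := by
      have h1 : μ * (‖u‖ + ‖w‖ + 1) = ε / 8 := by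
        rw [hμd]
        field_simp
      nlinarith
    have hpt : ∀ s ∈ ball (0 : ℂ) 2, ∀ t ∈ ball (0 : ℂ) 1,
        ‖s • ((μ : ℂ) • (u + t • w))‖ < ε / 2 := by
      intro s hs t ht
      rw [mem_ball, dist_zero_right] at hs ht
      rw [norm_smul, norm_smul, hμn]
      have h1 : ‖u + t • w‖ ≤ ‖u‖ + ‖w‖ := by
        refine (norm_add_le _ _).trans (add_le_add le_rfl ?_)
        rw [norm_smul]
        exact mul_le_of_le_one_left (norm_nonneg _) ht.le
      have h2 : μ * ‖u + t • w‖ ≤ μ * (‖u‖ + ‖w‖) := mul_le_mul_of_nonneg_left h1 hμ.le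
      have h3 : 0 ≤ μ * ‖u + t • w‖ := mul_nonneg hμ.le (norm_nonneg _)
      calc ‖s‖ * (μ * ‖u + t • w‖) ≤ 2 * (μ * ‖u + t • w‖) := mul_le_mul_of_nonneg_right hs.le h3
        _ ≤ 2 * (μ * (‖u‖ + ‖w‖)) := by linarith
        _ < ε / 2 := by linarith
    have hball : ∀ s ∈ ball (0 : ℂ) 2, ∀ t ∈ ball (0 : ℂ) 1,
        v₁ + s • ((μ : ℂ) • (u + t • w)) ∈ ball v₁ ε := by
      intro s hs t ht
      rw [mem_ball, dist_eq_norm, add_sub_cancel_left]
      have := hpt s hs t ht
      linarith
    have h1 := param k (fun s t => f (v₁ + s • ((μ : ℂ) • (u + t • w)))) M ?_ ?_ ?_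
    · have h2 : (fun t : ℂ => b k (fun s => f (v₁ + s • ((μ : ℂ) • (u + t • w))))) =
          fun t => (μ : ℂ) ^ k * c k (u + t • w) := by
        funext t
        exact hscale k (μ : ℂ) (u + t • w) hμc
      rw [h2] at h1
      have h3 := h1.differentiableAt (ball_mem_nhds (0 : ℂ) one_pos)
      have h4 : (fun t : ℂ => c k (u + t • w)) =
          fun t => ((μ : ℂ) ^ k)⁻¹ * ((μ : ℂ) ^ k * c k (u + t • w)) := by
        funext t
        rw [← mul_assoc, inv_mul_cancel₀ (pow_ne_zero _ hμc), one_mul]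
      rw [h4]
      exact h3.const_mul _
    · intro t ht s hs
      refine DifferentiableAt.differentiableWithinAt ?_
      refine DifferentiableAt.comp (𝕜 := ℂ) s
        (g := f) (f := fun s : ℂ => v₁ + s • ((μ : ℂ) • (u + t • w))) (hf _ (hball s hs t ht)) ?_
      exact (differentiableAt_const _).add (differentiableAt_id.smul_const _)
    · intro s hs t ht
      refine DifferentiableAt.differentiableWithinAt ?_
      refine DifferentiableAt.comp (𝕜 := ℂ) t
        (g := f) (f := fun t : ℂ => v₁ + s • ((μ : ℂ) • (u + t • w))) (hf _ (hball s hs t ht)) ?_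
      refine (differentiableAt_const _).add (DifferentiableAt.fun_const_smul ?_ _)
      refine DifferentiableAt.fun_const_smul ?_ _
      exact (differentiableAt_const _).add (differentiableAt_id.smul_const _)
    · intro s hs t ht
      refine hM _ ?_
      rw [mem_closedBall, dist_eq_norm, add_sub_cancel_left]
      exact (hpt s hs t ht).le
  have hdiff : ∀ k (u w : Fin r → ℂ), Differentiable ℂ (fun t : ℂ => c k (u + t • w)) := by
    intro k u w t₀
    have h1 := hdiff0 k (u + t₀ • w) w
    have h2 : (fun t : ℂ => c k (u + t • w)) =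
        (fun t : ℂ => c k (u + t₀ • w + t • w)) ∘ (fun t => t - t₀) := by
      funext t
      show c k _ = c k _
      congr 1
      rw [add_assoc, ← add_smul, add_sub_cancel]
    rw [h2]
    refine DifferentiableAt.comp (𝕜 := ℂ) t₀ ?_ (differentiableAt_id.sub_const t₀)
    show DifferentiableAt ℂ _ (t₀ - t₀)
    rw [sub_self]
    exact h1
  have hpoly : ∀ k, ∃ q : MvPolynomial (Fin r) ℂ, ∀ u, c k u = MvPolynomial.eval u q := by
    intro k
    refine poly_of_lines k (c k) fun u w => ?_
    refine poly_of_growth k (fun t : ℂ => c k (u + t • w)) (hdiff k u w) ?_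
    have h1 := (hdiff0 k w u).continuousAt
    have h2 := Metric.continuousAt_iff.1 h1 1 one_pos
    obtain ⟨δ, hδ, h3⟩ := h2
    refine ⟨‖c k w‖ + 1, 2 / δ, fun z hz => ?_⟩
    have hz' : 0 < ‖z‖ := lt_of_lt_of_le (by positivity) hz
    have hz0 : z ≠ 0 := norm_pos_iff.1 hz'
    have h4 : u + z • w = z • (w + z⁻¹ • u) := by
      rw [smul_add, smul_smul, mul_inv_cancel₀ hz0, one_smul, add_comm]
    have h5 : ‖c k (w + z⁻¹ • u)‖ ≤ ‖c k w‖ + 1 := by
      have h6 := h3 (x := z⁻¹) (by
        rw [dist_zero_right, norm_inv]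
        rw [inv_lt_comm₀ hz' hδ]
        have : δ⁻¹ < 2 / δ := by
          rw [inv_eq_one_div, div_lt_div_iff_of_pos_right hδ]
          norm_num
        linarith)
      rw [zero_smul, add_zero, dist_eq_norm] at h6
      have h7 : ‖c k (w + z⁻¹ • u)‖ ≤ ‖c k w‖ + ‖c k (w + z⁻¹ • u) - c k w‖ := by
        have := norm_add_le (c k w) (c k (w + z⁻¹ • u) - c k w)
        rw [add_sub_cancel] at this
        exact this
      linarith
    show ‖c k (u + z • w)‖ ≤ _
    rw [h4, hscale k z _ hz0, norm_mul, norm_pow, mul_comm]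
    exact mul_le_mul_of_nonneg_right h5 (by positivity)
  choose q hq using hpoly
  refine ⟨q, fun k => ?_, fun w hw s hs => ?_⟩
  · refine homog_of_scale k (q k) fun w => ?_
    rw [← hq, ← hq]
    exact hscale k 2 w two_ne_zero
  · have h1 := b_hasSum (fun s : ℂ => f (v₁ + s • w)) (by
      intro s hs
      rw [mem_closedBall, dist_zero_right] at hs
      refine DifferentiableAt.differentiableWithinAt ?_
      refine DifferentiableAt.comp (𝕜 := ℂ) s
        (g := f) (f := fun s : ℂ => v₁ + s • w) (hf _ ?_) ?_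
      · rw [mem_ball, dist_eq_norm, add_sub_cancel_left, norm_smul]
        calc ‖s‖ * ‖w‖ ≤ 1 * ‖w‖ := mul_le_mul_of_nonneg_right hs (norm_nonneg _)
          _ < ε := by rw [one_mul]; exact hw
      · exact (differentiableAt_const _).add (differentiableAt_id.smul_const _)) s hs
    have h2 : ∀ k, b k (fun s : ℂ => f (v₁ + s • w)) = MvPolynomial.eval w (q k) := fun k => hq k w
    simpa only [h2] using h1

end Pool.Agent.CMFn
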