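import Pool.Agent.CMFn.KronB
import Pool.Agent.CMFn.Osg

/-! Project CMFn, block S, KronC: a function differentiable on a ball and rational on every line
through its centre is rational. -/

namespace Pool.Agent.CMFn

open Filter Topology

noncomputable section

open KronBX

/-- The homogeneous expansion near the centre. -/
theorem exists_homog_sum {r : ℕ} (f : (Fin r → ℂ) → ℂ) (v₁ : Fin r → ℂ) (ε : ℝ) (hε : 0 < ε)
    (hf : ∀ u ∈ Metric.ball v₁ ε, DifferentiableAt ℂ f u) :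
    ∃ q : ℕ → MvPolynomial (Fin r) ℂ, (∀ k, (q k).IsHomogeneous k) ∧
      ∀ᶠ w in 𝓝 (0 : Fin r → ℂ), HasSum (fun n => MvPolynomial.eval w (q n)) (f (v₁ + w)) := by
  obtain ⟨q, hq, h⟩ := exists_homog f v₁ ε hε hf
  refine ⟨q, hq, ?_⟩
  filter_upwards [Metric.ball_mem_nhds (0 : Fin r → ℂ) (half_pos hε)] with w hw
  rw [mem_ball_zero_iff] at hw
  have h1 : ‖(2 : ℂ) • w‖ < ε := by
    rw [norm_smul]
    have : ‖(2 : ℂ)‖ = 2 := by simp
    rw [this]
    linarith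
  have h2 : ‖(1 / 2 : ℂ)‖ < 1 := by
    have : ‖(1 / 2 : ℂ)‖ = 1 / 2 := by simp
    rw [this]
    norm_num
  have h3 := h ((2 : ℂ) • w) h1 (1 / 2) h2
  have h4 : (1 / 2 : ℂ) • (2 : ℂ) • w = w := by
    rw [smul_smul]
    norm_num
  rw [h4] at h3
  have h5 : (fun k => (1 / 2 : ℂ) ^ k * MvPolynomial.eval ((2 : ℂ) • w) (q k)) =
      fun k => MvPolynomial.eval w (q k) := by
    funext k
    rw [← eval_smul_hom (hq k), h4]
  rw [h5] at h3
  exact h3

/-- A function differentiable on a ball around `v₁`, rational on every line through `v₁`, is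
rational. -/
theorem rational_of_ball {r : ℕ} (f : (Fin r → ℂ) → ℂ) (v₁ : Fin r → ℂ) (ε : ℝ) (hε : 0 < ε)
    (hf : ∀ u ∈ Metric.ball v₁ ε, DifferentiableAt ℂ f u)
    (h : ∀ w : Fin r → ℂ, ∃ P Q : Polynomial ℂ, Q ≠ 0 ∧
      ∀ᶠ s in nhds (0 : ℂ), Q.eval s * f (v₁ + s • w) = P.eval s) :
    ∃ P Q : MvPolynomial (Fin r) ℂ, Q ≠ 0 ∧
      ∀ᶠ v in nhds v₁, MvPolynomial.eval v Q * f v = MvPolynomial.eval v P := by
  obtain ⟨q, hq, hsum⟩ := exists_homog_sum f v₁ ε hε hf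
  exact rational_of_homog f v₁ q hq hsum h

end

end Pool.Agent.CMFn
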