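import Mathlib

/-! # The Euler characteristic of two anticommuting exact differentials

`B_i = ker (h : K_i → K_(i-1))`. (1) `(B, d)` is exact, by downward induction; (2) rank-nullity. -/

namespace Pool.Agent.CMFn

noncomputable section

namespace LAaux

variable (K : ℕ → Type) [∀ i, AddCommGroup (K i)] [∀ i, Module ℂ (K i)]
  (h : ∀ i, K (i + 1) →ₗ[ℂ] K i)

/-- The kernels of `h`. -/
def B : (i : ℕ) → Submodule ℂ (K i)
  | 0 => ⊤
  | i + 1 => LinearMap.ker (h i)

variable {K h}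

theorem B_zero : B K h 0 = ⊤ := rfl
theorem B_succ (i : ℕ) : B K h (i + 1) = LinearMap.ker (h i) := rfl

theorem mem_B_succ (i : ℕ) (x : K (i + 1)) : x ∈ B K h (i + 1) ↔ h i x = 0 := by
  rw [B_succ, LinearMap.mem_ker]

theorem range_h (hh : ∀ i x, h i (h (i + 1) x) = 0) (h_surj : ∀ x : K 0, ∃ y, h 0 y = x)
    (h_ex : ∀ i (x : K (i + 1)), h i x = 0 → ∃ y, h (i + 1) y = x) (i : ℕ) :
    LinearMap.range (h i) = B K h i := by
  cases i with
  | zero =>
    rw [B_zero, LinearMap.range_eq_top]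
    exact fun x => h_surj x
  | succ i =>
    ext x
    rw [LinearMap.mem_range, mem_B_succ]
    constructor
    · rintro ⟨y, rfl⟩
      exact hh i y
    · exact fun hx => h_ex i x hx

section

variable {d : ∀ i, K i →ₗ[ℂ] K (i + 1)}

theorem d_B (dh0 : ∀ x, h 0 (d 0 x) = 0)
    (dh : ∀ i x, d i (h i x) + h (i + 1) (d (i + 1) x) = 0) (i : ℕ) (x : K i)
    (hx : x ∈ B K h i) : d i x ∈ B K h (i + 1) := by
  rw [mem_B_succ]
  cases i with
  | zero => exact dh0 x
  | succ i =>
    rw [mem_B_succ] at hx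
    have := dh i x
    rw [hx, map_zero, zero_add] at this
    exact this

/-- The statement of exactness of `(B, d)` in degree `i`. -/
def Ex (K : ℕ → Type) [∀ i, AddCommGroup (K i)] [∀ i, Module ℂ (K i)]
    (h : ∀ i, K (i + 1) →ₗ[ℂ] K i) (d : ∀ i, K i →ₗ[ℂ] K (i + 1)) : ℕ → Prop
  | 0 => ∀ x : K 0, d 0 x = 0 → x = 0
  | i + 1 => ∀ x : K (i + 1), x ∈ B K h (i + 1) → d (i + 1) x = 0 →
      ∃ y ∈ B K h i, d i y = x

theorem ex_step (dd : ∀ i x, d (i + 1) (d i x) = 0) (hh : ∀ i x, h i (h (i + 1) x) = 0)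
    (dh : ∀ i x, d i (h i x) + h (i + 1) (d (i + 1) x) = 0)
    (d_ex : ∀ i (x : K (i + 1)), d (i + 1) x = 0 → ∃ y, d i y = x)
    (h_ex : ∀ i (x : K (i + 1)), h i x = 0 → ∃ y, h (i + 1) y = x) (i : ℕ)
    (hE : Ex K h d (i + 3)) : Ex K h d (i + 1) := by
  intro b hb hdb
  rw [mem_B_succ] at hb
  obtain ⟨c, hc⟩ := h_ex i b hb
  -- `c : K (i + 2)`
  have h1 : h (i + 2) (d (i + 2) c) = 0 := by
    have := dh (i + 1) c
    rw [hc, hdb, zero_add] at this
    exact this
  obtain ⟨b', hb', hdb'⟩ := hE (d (i + 2) c) ((mem_B_succ _ _).2 h1) (dd _ _)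
  rw [mem_B_succ] at hb'
  obtain ⟨e, he⟩ := d_ex (i + 1) (c - b') (by rw [map_sub, hdb', sub_self])
  have h2 : h (i + 1) (d (i + 1) e) = b := by
    rw [he, map_sub, hb', hc, sub_zero]
  have h3 := dh i e
  rw [h2] at h3
  refine ⟨-h i e, ?_, ?_⟩
  · cases i with
    | zero => trivial
    | succ i =>
      rw [mem_B_succ, map_neg, hh, neg_zero]
  · rw [map_neg]
    exact (eq_neg_of_add_eq_zero_right h3).symm

theorem ex_all (n : ℕ) (hn : ∀ i, n < i → ∀ x : K i, x = 0)
    (dd : ∀ i x, d (i + 1) (d i x) = 0) (hh : ∀ i x, h i (h (i + 1) x) = 0)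
    (dh : ∀ i x, d i (h i x) + h (i + 1) (d (i + 1) x) = 0)
    (d_inj : ∀ x : K 0, d 0 x = 0 → x = 0)
    (d_ex : ∀ i (x : K (i + 1)), d (i + 1) x = 0 → ∃ y, d i y = x)
    (h_ex : ∀ i (x : K (i + 1)), h i x = 0 → ∃ y, h (i + 1) y = x) (i : ℕ) :
    Ex K h d i := by
  have key : ∀ m i : ℕ, n < i + m → Ex K h d (i + 1) := by
    intro m
    induction m using Nat.strong_induction_on with
    | _ m ih =>
      intro i hi
      match m, ih, hi with
      | 0, _, hi =>
        intro x _ _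
        exact ⟨0, (B K h i).zero_mem, by rw [map_zero]; exact (hn (i + 1) (by omega) x).symm⟩
      | 1, _, hi =>
        intro x _ _
        exact ⟨0, (B K h i).zero_mem, by rw [map_zero]; exact (hn (i + 1) (by omega) x).symm⟩
      | m + 2, ih, hi =>
        exact ex_step dd hh dh d_ex h_ex i (ih m (by omega) (i + 2) (by omega))
  cases i with
  | zero => exact d_inj
  | succ i => exact key (n + 1) i (by omega)

end

end LAaux

open LAaux in
theorem euler_zero (K : ℕ → Type) [∀ i, AddCommGroup (K i)] [∀ i, Module ℂ (K i)]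
    [∀ i, FiniteDimensional ℂ (K i)] (n : ℕ) (hn : ∀ i, n < i → ∀ x : K i, x = 0)
    (d : ∀ i, K i →ₗ[ℂ] K (i + 1)) (h : ∀ i, K (i + 1) →ₗ[ℂ] K i)
    (dd : ∀ i x, d (i + 1) (d i x) = 0) (hh : ∀ i x, h i (h (i + 1) x) = 0)
    (dh0 : ∀ x, h 0 (d 0 x) = 0) (dh : ∀ i x, d i (h i x) + h (i + 1) (d (i + 1) x) = 0)
    (d_inj : ∀ x : K 0, d 0 x = 0 → x = 0)
    (d_ex : ∀ i (x : K (i + 1)), d (i + 1) x = 0 → ∃ y, d i y = x)
    (h_surj : ∀ x : K 0, ∃ y, h 0 y = x)
    (h_ex : ∀ i (x : K (i + 1)), h i x = 0 → ∃ y, h (i + 1) y = x) :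
    ∑ i ∈ Finset.range (n + 1), (-1 : ℤ) ^ i * i * (Module.finrank ℂ (K i) : ℤ) = 0 := by
  have hE := ex_all n hn dd hh dh d_inj d_ex h_ex
  set b : ℕ → ℤ := fun i => (Module.finrank ℂ (B K h i) : ℤ) with hb
  set r : ℕ → ℤ := fun i => (Module.finrank ℂ ((B K h i).map (d i)) : ℤ) with hr
  -- dimensions of `K`
  have hK : ∀ i, (Module.finrank ℂ (K (i + 1)) : ℤ) = b (i + 1) + b i := by
    intro i
    have h1 := LinearMap.finrank_range_add_finrank_ker (h i)
    rw [range_h hh h_surj h_ex i] at h1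
    rw [← h1]
    push_cast
    rw [add_comm]
    rfl
  -- dimensions of `B`
  have hB : ∀ i, b i = r i + (Module.finrank ℂ (LinearMap.ker (d i) ⊓ B K h i :
      Submodule ℂ (K i)) : ℤ) := by
    intro i
    have h1 := LinearMap.finrank_range_add_finrank_ker ((d i).domRestrict (B K h i))
    have h2 : LinearMap.range ((d i).domRestrict (B K h i)) = (B K h i).map (d i) := by
      ext y
      simp only [LinearMap.mem_range, LinearMap.domRestrict_apply, Submodule.mem_map]
      constructor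
      · rintro ⟨x, hx⟩
        exact ⟨x.1, x.2, hx⟩
      · rintro ⟨x, hx, hxy⟩
        exact ⟨⟨x, hx⟩, hxy⟩
    have h3 : Module.finrank ℂ (LinearMap.ker ((d i).domRestrict (B K h i))) =
        Module.finrank ℂ (LinearMap.ker (d i) ⊓ B K h i : Submodule ℂ (K i)) := by
      have h4 : (LinearMap.ker ((d i).domRestrict (B K h i))).map (B K h i).subtype =
          LinearMap.ker (d i) ⊓ B K h i := by
        ext x
        simp only [Submodule.mem_map, LinearMap.mem_ker, LinearMap.domRestrict_apply,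
          Submodule.subtype_apply, Submodule.mem_inf]
        constructor
        · rintro ⟨y, hy, rfl⟩
          exact ⟨hy, y.2⟩
        · rintro ⟨hx1, hx2⟩
          exact ⟨⟨x, hx2⟩, hx1, rfl⟩
      rw [← h4]
      exact (LinearEquiv.finrank_eq (Submodule.equivMapOfInjective _
        (Submodule.injective_subtype _) _))
    rw [h2, h3] at h1
    rw [hb, hr]
    simp only
    rw [← h1]
    push_cast
    rfl
  have h0 : b 0 = r 0 := by
    have h1 : LinearMap.ker (d 0) ⊓ B K h 0 = ⊥ := by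
      rw [Submodule.eq_bot_iff]
      intro x hx
      exact d_inj x (LinearMap.mem_ker.1 hx.1)
    rw [hB 0, h1, finrank_bot]
    simp
  have hS : ∀ i, b (i + 1) = r (i + 1) + r i := by
    intro i
    have h1 : LinearMap.ker (d (i + 1)) ⊓ B K h (i + 1) = (B K h i).map (d i) := by
      ext x
      simp only [Submodule.mem_map, Submodule.mem_inf, LinearMap.mem_ker]
      constructor
      · rintro ⟨hx1, hx2⟩
        obtain ⟨y, hy, hyx⟩ := hE (i + 1) x hx2 hx1
        exact ⟨y, hy, hyx⟩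
      · rintro ⟨y, hy, rfl⟩
        exact ⟨dd i y, d_B dh0 dh i y hy⟩
    rw [hB (i + 1), h1]
  have hz : ∀ i, n < i → ∀ S : Submodule ℂ (K i), Module.finrank ℂ S = 0 := by
    intro i hi S
    have h1 : S = ⊥ := by
      rw [Submodule.eq_bot_iff]
      exact fun x _ => hn i hi x
    rw [h1, finrank_bot]
  have hrn : r n = 0 := by
    rw [hr]
    simp only
    rw [hz (n + 1) (Nat.lt_succ_self n)]
    simp
  have hKn : b n = 0 := by
    have h1 := hK n
    have h2 : Module.finrank ℂ (K (n + 1)) = 0 := by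
      rw [← finrank_top ℂ (K (n + 1))]
      exact hz (n + 1) (Nat.lt_succ_self n) ⊤
    have h3 : (0 : ℤ) ≤ b n := by rw [hb]; positivity
    have h4 : (0 : ℤ) ≤ b (n + 1) := by rw [hb]; positivity
    rw [h2] at h1
    push_cast at h1
    linarith
  -- the sum of the `b i`
  have key1 : ∀ m : ℕ, ∑ i ∈ Finset.range (m + 1), (-1 : ℤ) ^ i * b i = (-1) ^ m * r m := by
    intro m
    induction m with
    | zero => simp [h0]
    | succ m ih =>
      rw [Finset.sum_range_succ, ih, hS m, pow_succ]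
      ring
  have key2 : ∀ m : ℕ, ∑ i ∈ Finset.range (m + 1),
      (-1 : ℤ) ^ i * i * (Module.finrank ℂ (K i) : ℤ) =
      -(∑ i ∈ Finset.range (m + 1), (-1 : ℤ) ^ i * b i) + (-1) ^ m * (m + 1) * b m := by
    intro m
    induction m with
    | zero => simp
    | succ m ih =>
      rw [Finset.sum_range_succ, ih, Finset.sum_range_succ _ (m + 1), hK m, pow_succ]
      push_cast
      ring
  rw [key2 n, key1 n, hrn, hKn]
  ring

end

end Pool.Agent.CMFn
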