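import Pool.Agent.CMFn.DunA

set_option linter.unusedSectionVars false

/-! Project CMF (every rank), local monodromy: the algebra of the pointwise stabiliser of a reflecting hyperplane and
the KZ form on a transversal disc. -/

namespace Pool.Agent.CMFn.LocMonX

open Matrix Complex

noncomputable section

variable {r : ℕ} {N : SG r} [Fintype N] {ι : Type} [Fintype ι] [DecidableEq ι]

open Classical in
/-- `a_H(k)`. -/
def aH (ρ : N →* Matrix ι ι ℂ) (k : Idx N → ℂ) (H : Arr N) : Matrix ι ι ℂ :=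
  ∑ w : N, (if fixL w.1 = H.1 then cr k w else 0) • ρ w + cs k H • (1 : Matrix ι ι ℂ)

open Classical in
/-- The regular part of the KZ form on the disc `h + z ν`. -/
def BH (ρ : N →* Matrix ι ι ℂ) (k : Idx N → ℂ) (H : Arr N) (h ν : Fin r → ℂ) (z : ℂ) :
    Matrix ι ι ℂ :=
  ∑ w : N, (if fixL w.1 = H.1 then 0 else cr k w * rat (fixL w.1) ν (h + z • ν)) • ρ w +
    (∑ H' : Arr N, if H' = H then 0 else cs k H' * rat H'.1 ν (h + z • ν)) •
      (1 : Matrix ι ι ℂ)

/-! ### the pointwise stabiliser -/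

lemma orth (n : ℕ) (ζ : ℂ) (hζ : IsPrimitiveRoot ζ n) (a b : ℕ) (ha : a < n) (hb : b < n) :
    ∑ l ∈ Finset.range n, (ζ ^ a) ^ l * ((ζ⁻¹ ^ b) ^ l) = if a = b then (n : ℂ) else 0 := by
  have hn : n ≠ 0 := by omega
  have h0 : ζ ≠ 0 := hζ.ne_zero hn
  by_cases hab : a = b
  · subst hab
    rw [if_pos rfl]
    have e : ∀ l ∈ Finset.range n, (ζ ^ a) ^ l * ((ζ⁻¹ ^ a) ^ l) = 1 := by
      intro l _
      rw [← mul_pow, ← mul_pow, mul_inv_cancel₀ h0, one_pow, one_pow]
    rw [Finset.sum_congr rfl e]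
    simp
  · rw [if_neg hab]
    have e : ∀ l ∈ Finset.range n, (ζ ^ a) ^ l * ((ζ⁻¹ ^ b) ^ l) = (ζ ^ a * ζ⁻¹ ^ b) ^ l := by
      intro l _
      rw [← mul_pow]
    rw [Finset.sum_congr rfl e]
    have hx : ζ ^ a * ζ⁻¹ ^ b ≠ 1 := by
      intro h
      apply hab
      refine hζ.pow_inj ha hb ?_
      rw [inv_pow] at h
      exact (mul_inv_eq_one₀ (pow_ne_zero _ h0)).1 h
    have hxn : (ζ ^ a * ζ⁻¹ ^ b) ^ n = 1 := by
      rw [mul_pow, ← pow_mul, ← pow_mul, mul_comm a n, mul_comm b n, pow_mul, pow_mul, inv_pow,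
        hζ.pow_eq_one]
      simp
    have := mul_neg_geom_sum (ζ ^ a * ζ⁻¹ ^ b) n
    rw [hxn, sub_self] at this
    rcases mul_eq_zero.1 this with h | h
    · exact absurd (sub_eq_zero.1 h).symm hx
    · exact h

/-- the pointwise stabiliser as a subgroup of `N` -/
def stab (H : Arr N) : Subgroup N where
  carrier := {w | ∀ v ∈ H.1, w.1.1 *ᵥ v = v}
  one_mem' v _ := by
    show (1 : Matrix (Fin r) (Fin r) ℂ) *ᵥ v = v
    simp
  mul_mem' {a b} ha hb v hv := by
    show (a.1.1 * b.1.1) *ᵥ v = v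
    rw [← Matrix.mulVec_mulVec, hb v hv, ha v hv]
  inv_mem' {a} ha v hv := by
    have e : (a⁻¹).1.1 * a.1.1 = 1 := by
      have h3 : a⁻¹ * a = 1 := inv_mul_cancel a
      exact congrArg (fun z : N => z.1.1) h3
    show (a⁻¹).1.1 *ᵥ v = v
    conv_lhs => rw [← ha v hv]
    rw [Matrix.mulVec_mulVec, e, Matrix.one_mulVec]

lemma card_stab (H : Arr N) : Nat.card (stab H) = eH N H.1 := by
  refine Nat.card_congr ?_
  exact
    { toFun := fun w => ⟨w.1.1, w.1.2, w.2⟩
      invFun := fun w => ⟨⟨w.1, w.2.1⟩, w.2.2⟩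
      left_inv := fun w => rfl
      right_inv := fun w => rfl }

lemma det_pow_card (H : Arr N) (w : N) (hw : w ∈ stab H) : w.1.1.det ^ eH N H.1 = 1 := by
  have h : (⟨w, hw⟩ : stab H) ^ Nat.card (stab H) = 1 := pow_card_eq_one'
  rw [card_stab] at h
  have h2 : w ^ eH N H.1 = 1 := congrArg Subtype.val h
  have h3 : (w ^ eH N H.1).1.1 = w.1.1 ^ eH N H.1 := by simp
  rw [← Matrix.det_pow, ← h3, h2]
  exact Matrix.det_one

lemma det_pow' (s : N) (i : ℕ) : (s ^ i).1.1.det = s.1.1.det ^ i := by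
  have h3 : (s ^ i).1.1 = s.1.1 ^ i := by simp
  rw [h3, Matrix.det_pow]

/-- The stabiliser consists of the powers of the distinguished reflection. -/
lemma exists_pow (H : Arr N) (s : N) (hs : ∀ v ∈ H.1, s.1.1 *ᵥ v = v)
    (hζ : IsPrimitiveRoot s.1.1.det (eH N H.1)) (w : N) (hw : ∀ v ∈ H.1, w.1.1 *ᵥ v = v) :
    ∃ i < eH N H.1, s ^ i = w := by
  have hpos := eH_pos N H
  have : NeZero (eH N H.1) := ⟨hpos.ne'⟩
  obtain ⟨i, hi, he⟩ := hζ.eq_pow_of_pow_eq_one (det_pow_card H w hw)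
  refine ⟨i, hi, ?_⟩
  refine refl_ext H _ _ ((stab H).pow_mem hs i) hw ?_
  rw [det_pow', he]

lemma mem_fixL' {g : GL (Fin r) ℂ} {v : Fin r → ℂ} : v ∈ fixL g ↔ g.1 *ᵥ v = v := by
  unfold fixL
  rw [LinearMap.mem_ker, Matrix.toLin'_apply, Matrix.sub_mulVec, Matrix.one_mulVec, sub_eq_zero]

/-- Equal kernels give equal ranks. -/
lemma rank_eq_of_fixL_eq (g g' : GL (Fin r) ℂ) (h : fixL g = fixL g') :
    (g.1 - 1).rank = (g'.1 - 1).rank := by
  have e : ∀ A : Matrix (Fin r) (Fin r) ℂ,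
      A.rank + Module.finrank ℂ (LinearMap.ker (Matrix.toLin' A)) = r := by
    intro A
    have h1 := LinearMap.finrank_range_add_finrank_ker (Matrix.toLin' A)
    rw [Module.finrank_fin_fun] at h1
    rw [Matrix.rank_eq_finrank_range_toLin A (Pi.basisFun ℂ (Fin r)) (Pi.basisFun ℂ (Fin r)),
      Matrix.toLin_eq_toLin']
    exact h1
  have h2 := e (g.1 - 1)
  have h3 := e (g'.1 - 1)
  unfold fixL at h
  rw [h] at h2
  omega

/-- A hyperplane of the arrangement is determined by a vector contained in no other. -/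
lemma hyp_unique (H H' : Arr N) (h : Fin r → ℂ)
    (h0 : ∀ g ∈ N, IsRefl g → g.1 *ᵥ h = h → fixL g = H.1) (h2 : h ∈ H'.1) : H' = H := by
  obtain ⟨K, s, hsN, hs, hK⟩ := H'
  subst hK
  exact Subtype.ext (h0 s hsN hs (mem_fixL'.1 h2))

/-- For an element of `N` whose fixed space is the hyperplane `H`. -/
lemma cr_eq (k : Idx N → ℂ) (H : Arr N) (w : N) (hw : fixL w.1 = H.1) :
    cr k w = ∑ j ∈ Finset.range (eH N H.1), k (idx H j) * w.1.1.det ^ j := by
  have hr : IsRefl w.1 := by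
    obtain ⟨K, s, hsN, hs, hK⟩ := H
    subst hK
    unfold IsRefl at hs ⊢
    rw [rank_eq_of_fixL_eq _ _ hw]
    exact hs
  have he : (⟨fixL w.1, w.1, w.2, hr, rfl⟩ : Arr N) = H := Subtype.ext hw
  unfold cr
  rw [dif_pos hr, he]
  rfl

lemma fixL_one_ne (H : Arr N) : fixL (1 : N).1 ≠ H.1 := by
  intro hw
  have h2 := lf_spec H
  apply h2.1
  funext j
  have h3 : (Pi.single j (1 : ℂ) : Fin r → ℂ) ∈ H.1 := by
    rw [← hw, mem_fixL']
    exact Matrix.one_mulVec _
  have h4 := (h2.2 _).1 h3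
  simpa using h4

lemma fixL_eq (H : Arr N) (w : N) (hw : ∀ v ∈ H.1, w.1.1 *ᵥ v = v) (h1 : w ≠ 1) :
    fixL w.1 = H.1 := by
  apply le_antisymm
  · intro v hv
    rw [mem_fixL'] at hv
    have h2 := lf_mul H w hw v
    rw [hv] at h2
    have hd : w.1.1.det ≠ 1 := by
      intro hd
      apply h1
      refine refl_ext H _ _ hw (stab H).one_mem ?_
      rw [hd]
      exact Matrix.det_one.symm
    rw [(lf_spec H).2]
    have h3 : (1 - w.1.1.det) * (lf H.1 ⬝ᵥ v) = 0 := by linear_combination h2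
    rcases mul_eq_zero.1 h3 with h | h
    · exact absurd (sub_eq_zero.1 h).symm hd
    · exact h
  · intro v hv
    exact mem_fixL'.2 (hw v hv)

lemma aH_eq (ρ : N →* Matrix ι ι ℂ) (k : Idx N → ℂ) (H : Arr N) (s : N)
    (hs : ∀ v ∈ H.1, s.1.1 *ᵥ v = v) (hζ : IsPrimitiveRoot s.1.1.det (eH N H.1)) :
    aH ρ k H = ∑ i ∈ Finset.range (eH N H.1),
      (∑ j ∈ Finset.range (eH N H.1), k (idx H j) * (s.1.1.det ^ j) ^ i) • ρ s ^ i := by
  classical
  have hpos := eH_pos N H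
  have hinj : Set.InjOn (fun i : ℕ => s ^ i) (Finset.range (eH N H.1)) := by
    intro i hi j hj hij
    have h : (s ^ i).1.1.det = (s ^ j).1.1.det := by
      simp only at hij
      rw [hij]
    rw [det_pow', det_pow'] at h
    exact hζ.pow_inj (Finset.mem_range.1 hi) (Finset.mem_range.1 hj) h
  have e1 : ∑ w : N, (if fixL w.1 = H.1 then cr k w else 0) • ρ w =
      ∑ i ∈ Finset.range (eH N H.1),
        (if fixL (s ^ i).1 = H.1 then cr k (s ^ i) else 0) • ρ (s ^ i) := by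
    rw [← Finset.sum_image (f := fun w : N => (if fixL w.1 = H.1 then cr k w else 0) • ρ w) hinj]
    symm
    refine Finset.sum_subset (Finset.subset_univ _) fun w _ hw => ?_
    rw [if_neg, zero_smul]
    intro hf
    apply hw
    obtain ⟨i, hi, he⟩ := exists_pow H s hs hζ w (fun v hv => mem_fixL'.1 (by rw [hf]; exact hv))
    exact Finset.mem_image.2 ⟨i, Finset.mem_range.2 hi, he⟩
  have e2 : cs k H • (1 : Matrix ι ι ℂ) =
      ∑ i ∈ Finset.range (eH N H.1), if i = 0 then cs k H • (1 : Matrix ι ι ℂ) else 0 := by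
    rw [Finset.sum_ite_eq' (Finset.range (eH N H.1)) 0, if_pos (Finset.mem_range.2 hpos)]
  unfold aH
  rw [e1, e2, ← Finset.sum_add_distrib]
  refine Finset.sum_congr rfl fun i hi => ?_
  by_cases h0 : i = 0
  · subst h0
    rw [if_pos rfl, pow_zero, pow_zero, if_neg (fixL_one_ne H), zero_smul, zero_add]
    congr 1
    unfold cs
    refine Finset.sum_congr rfl fun j _ => ?_
    rw [pow_zero, mul_one]
  · have hne : s ^ i ≠ 1 := by
      intro h
      apply h0
      refine hinj hi (Finset.mem_coe.2 (Finset.mem_range.2 hpos)) ?_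
      simp only [h, pow_zero]
    have hf := fixL_eq H (s ^ i) ((stab H).pow_mem hs i) hne
    rw [if_neg h0, add_zero, if_pos hf, cr_eq k H _ hf, map_pow]
    congr 1
    refine Finset.sum_congr rfl fun j _ => ?_
    rw [det_pow', ← pow_mul, ← pow_mul, mul_comm i j]

/-- `ε_j = (1/n) Σ_{i<n} ζ^{ij} ρ(s)^i`; the pointwise stabiliser of `H` is `{s^i : i < n}`,
`cf_k(s^i) = Σ_j k_j ζ^{ij}`. -/
theorem exists_eps (ρ : N →* Matrix ι ι ℂ) (H : Arr N) (s : N)
    (hs : ∀ v ∈ H.1, s.1.1 *ᵥ v = v)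
    (hd : s.1.1.det = exp (2 * Real.pi * I / eH N H.1)) :
    ∃ ε : ℕ → Matrix ι ι ℂ, (∑ j ∈ Finset.range (eH N H.1), ε j = 1) ∧
      (∀ i ∈ Finset.range (eH N H.1), ∀ j ∈ Finset.range (eH N H.1),
        ε i * ε j = if i = j then ε j else 0) ∧
      (∀ j ∈ Finset.range (eH N H.1),
        ε j * ρ s = ((exp (2 * Real.pi * I / eH N H.1))⁻¹ ^ j) • ε j) ∧
      ∀ (k : Idx N → ℂ), ∀ j ∈ Finset.range (eH N H.1),
        ε j * aH ρ k H = ((eH N H.1 : ℂ) * k (idx H j)) • ε j := by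
  have hpos := eH_pos N H
  set n := eH N H.1 with hn
  have hζ : IsPrimitiveRoot s.1.1.det n := by
    rw [hd]
    exact Complex.isPrimitiveRoot_exp n hpos.ne'
  rw [← hd]
  set ζ := s.1.1.det with hζdef
  have hζ0 : ζ ≠ 0 := hζ.ne_zero hpos.ne'
  have hn0 : (n : ℂ) ≠ 0 := by exact_mod_cast hpos.ne'
  set S := ρ s with hS
  have hSn : S ^ n = 1 := by
    rw [hS, ← map_pow]
    have h : s ^ n = 1 := by
      refine refl_ext H _ _ ((stab H).pow_mem hs n) (stab H).one_mem ?_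
      rw [det_pow', hζ.pow_eq_one]
      exact Matrix.det_one.symm
    rw [h, map_one]
  let ε : ℕ → Matrix ι ι ℂ := fun j => ((n : ℂ)⁻¹) • ∑ i ∈ Finset.range n, (ζ ^ j) ^ i • S ^ i
  have hεS : ∀ j, ε j * S = (ζ⁻¹ ^ j) • ε j := by
    intro j
    simp only [ε]
    have e1 : ∀ i ∈ Finset.range n, (ζ ^ j) ^ i • S ^ i * S =
        ζ⁻¹ ^ j • ((ζ ^ j) ^ (i + 1) • S ^ (i + 1)) := by
      intro i _
      rw [smul_mul_assoc, ← pow_succ, smul_smul, pow_succ (ζ ^ j) i, mul_comm ((ζ ^ j) ^ i),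
        ← mul_assoc, ← mul_pow, inv_mul_cancel₀ hζ0, one_pow, one_mul]
    rw [smul_mul_assoc, Finset.sum_mul, Finset.sum_congr rfl e1, ← Finset.smul_sum, smul_comm]
    congr 2
    have h1 := Finset.sum_range_succ (fun i => (ζ ^ j) ^ i • S ^ i) n
    have h2 := Finset.sum_range_succ' (fun i => (ζ ^ j) ^ i • S ^ i) n
    rw [h1] at h2
    have h3 : (ζ ^ j) ^ n • S ^ n = (ζ ^ j) ^ 0 • S ^ 0 := by
      rw [hSn, pow_zero, pow_zero, ← pow_mul, mul_comm, pow_mul, hζ.pow_eq_one, one_pow]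
    rw [h3] at h2
    exact (add_right_cancel h2).symm
  have hεSi : ∀ j i, ε j * S ^ i = ((ζ⁻¹ ^ j) ^ i) • ε j := by
    intro j i
    induction i with
    | zero => simp
    | succ i ih =>
      rw [pow_succ, ← mul_assoc, ih, smul_mul_assoc, hεS, smul_smul, ← pow_succ]
  refine ⟨ε, ?_, ?_, fun j _ => hεS j, ?_⟩
  · simp only [ε]
    rw [← Finset.smul_sum, Finset.sum_comm]
    have e : ∀ i ∈ Finset.range n, ∑ j ∈ Finset.range n, (ζ ^ j) ^ i • S ^ i =
        (if i = 0 then (n : ℂ) else 0) • S ^ i := by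
      intro i hi
      rw [← Finset.sum_smul]
      congr 1
      have h := orth n ζ hζ i 0 (Finset.mem_range.1 hi) hpos
      rw [← h]
      refine Finset.sum_congr rfl fun j _ => ?_
      rw [pow_zero, one_pow, mul_one, ← pow_mul, ← pow_mul, mul_comm]
    rw [Finset.sum_congr rfl e]
    simp only [ite_smul, zero_smul]
    rw [Finset.sum_ite_eq' (Finset.range n) 0, if_pos (Finset.mem_range.2 hpos), pow_zero,
      smul_smul, inv_mul_cancel₀ hn0, one_smul]
  · intro i hi j hj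
    have h1 : ε i * ε j = ((n : ℂ)⁻¹) • ∑ l ∈ Finset.range n, (ζ ^ j) ^ l • (ε i * S ^ l) := by
      conv_lhs => rw [show ε j = ((n : ℂ)⁻¹) • ∑ i ∈ Finset.range n, (ζ ^ j) ^ i • S ^ i from rfl]
      rw [mul_smul_comm, Finset.mul_sum]
      congr 1
      refine Finset.sum_congr rfl fun l _ => ?_
      rw [mul_smul_comm]
    have h2 : ∀ l ∈ Finset.range n, (ζ ^ j) ^ l • (ε i * S ^ l) =
        ((ζ ^ j) ^ l * ((ζ⁻¹ ^ i) ^ l)) • ε i := by
      intro l _
      rw [hεSi, smul_smul]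
    rw [h1, Finset.sum_congr rfl h2, ← Finset.sum_smul,
      orth n ζ hζ j i (Finset.mem_range.1 hj) (Finset.mem_range.1 hi)]
    by_cases hij : i = j
    · subst hij
      rw [if_pos rfl, if_pos rfl, smul_smul, inv_mul_cancel₀ hn0, one_smul]
    · rw [if_neg (fun h => hij h.symm), if_neg hij, zero_smul, smul_zero]
  · intro k j hj
    rw [aH_eq ρ k H s hs hζ, Finset.mul_sum]
    have e : ∀ i ∈ Finset.range n, ε j * ((∑ m ∈ Finset.range n, k (idx H m) * (ζ ^ m) ^ i) • S ^ i)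
        = (∑ m ∈ Finset.range n, k (idx H m) * ((ζ ^ m) ^ i * ((ζ⁻¹ ^ j) ^ i))) • ε j := by
      intro i _
      rw [mul_smul_comm, hεSi, smul_smul, Finset.sum_mul]
      congr 1
      refine Finset.sum_congr rfl fun m _ => ?_
      rw [mul_assoc]
    rw [Finset.sum_congr rfl e, ← Finset.sum_smul, Finset.sum_comm]
    congr 1
    have e2 : ∀ m ∈ Finset.range n, ∑ i ∈ Finset.range n,
        k (idx H m) * ((ζ ^ m) ^ i * ((ζ⁻¹ ^ j) ^ i)) = if m = j then (n : ℂ) * k (idx H j) else 0 := by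
      intro m hm
      rw [← Finset.mul_sum, orth n ζ hζ m j (Finset.mem_range.1 hm) (Finset.mem_range.1 hj)]
      by_cases hmj : m = j
      · subst hmj
        rw [if_pos rfl, if_pos rfl, mul_comm]
      · rw [if_neg hmj, if_neg hmj, mul_zero]
    rw [Finset.sum_congr rfl e2, Finset.sum_ite_eq' (Finset.range n) j, if_pos hj]

/-! ### the KZ form on the disc -/

lemma rat_smul (K : Submodule ℂ (Fin r → ℂ)) (z : ℂ) (y v : Fin r → ℂ) :
    rat K (z • y) v = z * rat K y v := by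
  unfold rat
  rw [dotProduct_smul, smul_eq_mul, mul_div_assoc]

lemma lf_line (K : Submodule ℂ (Fin r → ℂ)) (h ν : Fin r → ℂ) (z : ℂ) :
    lf K ⬝ᵥ (h + z • ν) = lf K ⬝ᵥ h + z * (lf K ⬝ᵥ ν) := by
  rw [dotProduct_add, dotProduct_smul, smul_eq_mul]

/-- The KZ form on the disc. -/
theorem om_disc (ρ : N →* Matrix ι ι ℂ) (H : Arr N) (h ν : Fin r → ℂ) (hh : h ∈ H.1)
    (hh0 : ∀ g ∈ N, IsRefl g → g.1 *ᵥ h = h → fixL g = H.1)
    (hreg : ∀ z : ℂ, 0 < ‖z‖ → ‖z‖ ≤ 1 → ∀ g ∈ N, IsRefl g →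
      g.1 *ᵥ (h + z • ν) ≠ h + z • ν) :
    ∃ R : ℝ, 1 < R ∧
      (∀ z : ℂ, 0 < ‖z‖ → ‖z‖ < R → ∀ g ∈ N, IsRefl g → g.1 *ᵥ (h + z • ν) ≠ h + z • ν) ∧
      ∀ k : Idx N → ℂ, (∀ z : ℂ, 0 < ‖z‖ → ‖z‖ < R →
        om ρ k (h + z • ν) (z • ν) = aH ρ k H + z • BH ρ k H h ν z) ∧
      (∀ p q, DifferentiableOn ℂ (fun z => BH ρ k H h ν z p q) (Metric.ball 0 R)) := by
  classical
  have hHh : lf H.1 ⬝ᵥ h = 0 := ((lf_spec H).2 h).1 hh
  have hHν : lf H.1 ⬝ᵥ ν ≠ 0 := by
    have h1 := (vreg_iff (N := N) (h + (1 : ℂ) • ν)).1 (hreg 1 (by simp) (by simp)) H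
    rw [lf_line, hHh, zero_add, one_mul] at h1
    exact h1
  have hne : ∀ H' : Arr N, H' ≠ H → lf H'.1 ⬝ᵥ h ≠ 0 := by
    intro H' hH' h1
    exact hH' (hyp_unique H H' h hh0 (((lf_spec H').2 h).2 h1))
  -- a radius for every hyperplane
  have hrad : ∀ H' : Arr N, ∃ R : ℝ, 1 < R ∧ ∀ z : ℂ, ‖z‖ < R → H' ≠ H →
      lf H'.1 ⬝ᵥ (h + z • ν) ≠ 0 := by
    intro H'
    by_cases hH' : H' = H
    · exact ⟨2, by norm_num, fun z _ hc => absurd hH' hc⟩
    · by_cases h0 : lf H'.1 ⬝ᵥ ν = 0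
      · refine ⟨2, by norm_num, fun z _ _ => ?_⟩
        rw [lf_line, h0, mul_zero, add_zero]
        exact hne H' hH'
      · set z₀ : ℂ := -(lf H'.1 ⬝ᵥ h) / (lf H'.1 ⬝ᵥ ν) with hz₀
        have hz0 : z₀ ≠ 0 := div_ne_zero (neg_ne_zero.2 (hne H' hH')) h0
        have hzero : lf H'.1 ⬝ᵥ (h + z₀ • ν) = 0 := by
          rw [lf_line, hz₀]
          field_simp
          ring
        refine ⟨‖z₀‖, ?_, fun z hz _ hc => ?_⟩
        · by_contra hle
          push Not at hle
          exact (vreg_iff (N := N) (h + z₀ • ν)).1 (hreg z₀ (norm_pos_iff.2 hz0) hle) H' hzero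
        · apply hz.ne
          congr 1
          rw [lf_line] at hc
          rw [hz₀, eq_div_iff h0]
          linear_combination hc
  choose Rf hRf1 hRf2 using hrad
  have huniv : (Finset.univ : Finset (Arr N)).Nonempty := ⟨H, Finset.mem_univ _⟩
  obtain ⟨H₀, -, hH₀⟩ := Finset.exists_min_image Finset.univ Rf huniv
  set R := Rf H₀ with hR
  have hgood : ∀ z : ℂ, ‖z‖ < R → ∀ H' : Arr N, H' ≠ H → lf H'.1 ⬝ᵥ (h + z • ν) ≠ 0 :=
    fun z hz H' hH' => hRf2 H' z (hz.trans_le (hH₀ H' (Finset.mem_univ _))) hH'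
  refine ⟨R, hRf1 H₀, ?_, fun k => ⟨?_, ?_⟩⟩
  · intro z hz0 hz
    refine (vreg_iff (N := N) (h + z • ν)).2 fun H' => ?_
    by_cases hH' : H' = H
    · rw [hH', lf_line, hHh, zero_add]
      exact mul_ne_zero (norm_pos_iff.1 hz0) hHν
    · exact hgood z hz H' hH'
  · intro z hz0 hz
    have hzne : z ≠ 0 := norm_pos_iff.1 hz0
    have hratH : rat H.1 (z • ν) (h + z • ν) = 1 := by
      unfold rat
      rw [lf_line, hHh, zero_add, dotProduct_smul, smul_eq_mul]
      exact div_self (mul_ne_zero hzne hHν)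
    unfold om gau aH BH
    rw [smul_add, Finset.smul_sum, smul_smul, Finset.mul_sum]
    have e1 : ∀ w : N, (cr k w * rat (fixL w.1) (z • ν) (h + z • ν)) • ρ w =
        (if fixL w.1 = H.1 then cr k w else 0) • ρ w +
        z • ((if fixL w.1 = H.1 then 0 else cr k w * rat (fixL w.1) ν (h + z • ν)) • ρ w) := by
      intro w
      by_cases hw : fixL w.1 = H.1
      · rw [if_pos hw, if_pos hw, hw, hratH, mul_one, zero_smul, smul_zero, add_zero]
      · rw [if_neg hw, if_neg hw, zero_smul, zero_add, rat_smul, smul_smul]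
        congr 1
        ring
    have e2 : ∑ H' : Arr N, cs k H' * rat H'.1 (z • ν) (h + z • ν) = cs k H +
        ∑ H' : Arr N, z * (if H' = H then 0 else cs k H' * rat H'.1 ν (h + z • ν)) := by
      have e3 : cs k H = ∑ H' : Arr N, if H' = H then cs k H else 0 := by
        rw [Finset.sum_ite_eq' Finset.univ H, if_pos (Finset.mem_univ _)]
      rw [e3, ← Finset.sum_add_distrib]
      refine Finset.sum_congr rfl fun H' _ => ?_
      by_cases hH' : H' = H
      · rw [if_pos hH', if_pos hH', hH', hratH, mul_one, mul_zero, add_zero]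
      · rw [if_neg hH', if_neg hH', rat_smul, zero_add]
        ring
    rw [Finset.sum_congr rfl fun w _ => e1 w, Finset.sum_add_distrib, e2, add_smul]
    abel
  · intro p q
    have hrd : ∀ H' : Arr N, H' ≠ H →
        DifferentiableOn ℂ (fun z : ℂ => rat H'.1 ν (h + z • ν)) (Metric.ball (0 : ℂ) R) := by
      intro H' hH'
      have e0 : (fun z : ℂ => rat H'.1 ν (h + z • ν)) = fun z : ℂ =>
          (lf H'.1 ⬝ᵥ ν) / (lf H'.1 ⬝ᵥ h + z * (lf H'.1 ⬝ᵥ ν)) := by
        funext z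
        unfold rat
        rw [lf_line]
      rw [e0]
      refine DifferentiableOn.div (differentiableOn_const _) ?_ fun z hz => ?_
      · exact (differentiableOn_const _).add (differentiableOn_id.mul (differentiableOn_const _))
      · rw [← lf_line]
        exact hgood z (mem_ball_zero_iff.1 hz) H' hH'
    have e : (fun z : ℂ => BH ρ k H h ν z p q) = fun z : ℂ =>
        (∑ w : N, (if fixL w.1 = H.1 then 0 else cr k w * rat (fixL w.1) ν (h + z • ν)) * ρ w p q) +
        (∑ H' : Arr N, if H' = H then 0 else cs k H' * rat H'.1 ν (h + z • ν)) *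
          (1 : Matrix ι ι ℂ) p q := by
      funext z
      unfold BH
      rw [Matrix.add_apply, Matrix.sum_apply, Matrix.smul_apply, smul_eq_mul]
      rfl
    rw [e]
    refine DifferentiableOn.add (DifferentiableOn.fun_sum fun w _ => ?_)
      (DifferentiableOn.mul (DifferentiableOn.fun_sum fun H' _ => ?_) (differentiableOn_const _))
    · refine DifferentiableOn.mul ?_ (differentiableOn_const _)
      by_cases hw : fixL w.1 = H.1
      · simp only [if_pos hw]
        exact differentiableOn_const _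
      · simp only [if_neg hw]
        by_cases hr : IsRefl w.1
        · exact (differentiableOn_const _).mul (hrd ⟨fixL w.1, w.1, w.2, hr, rfl⟩
            (fun hc => hw (congrArg Subtype.val hc)))
        · have hc : cr k w = 0 := by
            unfold cr
            rw [dif_neg hr]
          simp only [hc, zero_mul]
          exact differentiableOn_const _
    · by_cases hH' : H' = H
      · simp only [if_pos hH']
        exact differentiableOn_const _
      · simp only [if_neg hH']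
        exact (differentiableOn_const _).mul (hrd H' hH')

end

end Pool.Agent.CMFn.LocMonX
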