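import Pool.Agent.CMFn.TopD
import Pool.Agent.CMFn.Twist

/-! Project CMFn, block T, module TopE: the value of the full twist. -/

namespace Pool.Agent.CMFn

open unitInterval Matrix

noncomputable section

variable {r : ℕ} {N : SG r}

namespace TopEX

lemma lb_refl_trans {v₀ : VReg N} (γ : Path v₀ v₀) :
    lb (((Path.refl v₀).trans γ).trans (Path.refl v₀).symm) = lb γ := by
  refine TopAX.lb_hom _ _ ?_
  rw [← Path.Homotopic.Quotient.eq]
  rw [Path.Homotopic.Quotient.mk_trans, Path.Homotopic.Quotient.mk_trans, Path.refl_symm,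
    Path.Homotopic.Quotient.mk_refl, Path.Homotopic.Quotient.refl_trans,
    Path.Homotopic.Quotient.trans_refl]

/-- The full twist is the pure braid of the rotation loop. -/
lemma piB_eq_lb [Fintype N] (v₀ : VReg N) : piB v₀ = lb (twLoop (TopDX.isTw_zero v₀)) := by
  refine Quotient.sound ?_
  refine ⟨rfl, ?_⟩
  have h : (twLoop (TopDX.isTw_zero v₀)).toContinuousMap = (TwistX.piP v₀).f := by
    ext1 t
    apply Subtype.ext
    show 0 + Complex.exp (2 * Real.pi * Complex.I * (t : ℝ)) • (v₀.1 - 0) =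
      Complex.exp (2 * Real.pi * Complex.I * (t : ℝ)) • v₀.1
    rw [sub_zero, zero_add]
  show (TwistX.piP v₀).f.HomotopicRel (twLoop (TopDX.isTw_zero v₀)).toContinuousMap {0, 1}
  rw [h]
  exact ContinuousMap.HomotopicRel.refl _

end TopEX

open TopEX TopDX

variable [Fintype N]

/-- In every commutative quotient of the braid group the full twist is the product of the twists
around the reflecting hyperplanes. -/
theorem phi_piB {v₀ : VReg N} {Γ : Type} [CommGroup Γ] (φ : Braid N v₀ →* Γ) (A : Coc (VReg N) Γ)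
    (hA : ∀ (x : VReg N) (q : Path v₀ x) (γ : Path x x),
      A.a γ = φ (lb ((q.trans γ).trans q.symm))) :
    ∃ (p : Arr N → Fin r → ℂ) (x : Arr N → VReg N) (h : ∀ H, IsTw (p H) (x H)),
      (∀ H, p H ∈ H.1) ∧ (∀ H H' : Arr N, p H ∈ H'.1 → H' = H) ∧
      φ (piB v₀) = ∏ H, A.a (twLoop (h H)) := by
  obtain ⟨p, x, h, h1, h2, h3⟩ := rot_prod A v₀
  refine ⟨p, x, h, h1, h2, ?_⟩
  rw [← h3, piB_eq_lb, hA v₀ (Path.refl v₀) (twLoop (isTw_zero v₀)), lb_refl_trans]

/-- The same, with all choices made explicit as braids. -/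
theorem phi_piB_tw {v₀ : VReg N} {Γ : Type} [CommGroup Γ] (φ : Braid N v₀ →* Γ) :
    ∃ (p : Arr N → Fin r → ℂ) (x : Arr N → VReg N) (h : ∀ H, IsTw (p H) (x H)),
      (∀ H, p H ∈ H.1) ∧ (∀ H H' : Arr N, p H ∈ H'.1 → H' = H) ∧
      ∀ q : ∀ H, Path v₀ (x H), φ (piB v₀) = ∏ H, φ (tw (h H) (q H)) := by
  obtain ⟨A, hA⟩ := exists_coc φ
  obtain ⟨p, x, h, h1, h2, h3⟩ := phi_piB φ A hA
  refine ⟨p, x, h, h1, h2, fun q => ?_⟩
  rw [h3]
  exact Finset.prod_congr rfl fun H _ => coc_twLoop φ A hA (h H) (q H)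

end

end Pool.Agent.CMFn
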