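import Pool.Agent.CMFn.LocBrA
import Pool.Agent.CMFn.TopE
import Pool.Agent.CMFn.BRefl
import Pool.Agent.CMFn.LocMonB

/-! Project CMF, every rank, local braid groups, module LocBr: the homomorphism from the braid
group of a parabolic subgroup to the braid group; full twists, twists and braid reflections. -/

namespace Pool.Agent.CMFn

open unitInterval Matrix

noncomputable section

variable {r : ℕ}

namespace LocX

open T4X

section square

variable {G : SG r} {v₀ : VReg G}

/-- Two loops (up to the action of `g`) which are the ends of a square: exact form. -/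
theorem chg_sq (F : C(ℝ × ℝ, VReg G)) (g : G) (hF : ∀ s, F (s, 1) = g • F (s, 0))
    {x₁ y₁ x₂ y₂ : VReg G} (h₁ : y₁ = g • x₁) (h₂ : y₂ = g • x₂) (a₁ : Path x₁ y₁)
    (a₂ : Path x₂ y₂) (c : Path x₁ x₂) (e₁ : ∀ t : I, a₁ t = F (0, (t : ℝ)))
    (e₂ : ∀ t : I, a₂ t = F (1, (t : ℝ))) (ec : ∀ t : I, c t = F ((t : ℝ), 0))
    (q : PQ v₀ x₁) : chg q g h₁ (Path.Homotopic.Quotient.mk a₁) =
      chg (q.trans (Path.Homotopic.Quotient.mk c)) g h₂ (Path.Homotopic.Quotient.mk a₂) := by
  have hx₁ : F (0, 0) = x₁ := by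
    have h := e₁ 0
    rw [a₁.source] at h
    exact h.symm
  have hx₂ : F (1, 0) = x₂ := by
    have h := e₂ 0
    rw [a₂.source] at h
    exact h.symm
  subst hx₁
  subst hx₂
  have k₁ : chg q g h₁ (Path.Homotopic.Quotient.mk a₁) =
      chg q g (hF 0) (Path.Homotopic.Quotient.mk ((vs 0).map F.continuous)) := by
    refine chg_congr q rfl _ _ _ _ ?_
    rw [← Path.Homotopic.Quotient.mk_cast]
    congr 1
    apply Path.ext
    funext t
    exact (e₁ t).symm
  have k₂ : ∀ q : PQ v₀ (F (1, 0)), chg q g h₂ (Path.Homotopic.Quotient.mk a₂) =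
      chg q g (hF 1) (Path.Homotopic.Quotient.mk ((vs 1).map F.continuous)) := by
    intro q
    refine chg_congr q rfl _ _ _ _ ?_
    rw [← Path.Homotopic.Quotient.mk_cast]
    congr 1
    apply Path.ext
    funext t
    exact (e₂ t).symm
  have k₃ : c = (hs 0).map F.continuous := by
    apply Path.ext
    funext t
    exact ec t
  rw [k₁, chg_square0 F g hF q, k₂, k₃]

end square

variable {N' N : SG r} [Fintype N'] [Fintype N] {p : Fin r → ℂ} {v₀ x : VReg N}

/-- `x` as a regular vector of `N'`. -/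
def loc (h : IsPar N' N p) (x : VReg N) : VReg N' := ⟨x.1, fun g hg => x.2 g (h.le hg)⟩

/-- The segment from `x` to `R x`. -/
def ray (h : IsPar N' N p) (hx : IsTw p x) : Path x (R h (loc h x)) where
  toFun t := ⟨p + (((1 - (t : ℝ)) + (t : ℝ) * eta h (loc h x) : ℝ) : ℂ) • (x.1 - p), by
    have h1 := eta_pos h (loc h x)
    have h2 := eta_le h (loc h x)
    have h3 : 0 < (1 - (t : ℝ)) + (t : ℝ) * eta h (loc h x) := by
      have := t.2.1
      have := t.2.2
      by_cases h4 : (t : ℝ) = 1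
      · rw [h4]; linarith
      · have h5 : (t : ℝ) < 1 := lt_of_le_of_ne this h4
        have : 0 ≤ (t : ℝ) * eta h (loc h x) := mul_nonneg t.2.1 h1.le
        linarith
    have h4 : (1 - (t : ℝ)) + (t : ℝ) * eta h (loc h x) ≤ 1 := by
      have := mul_le_mul_of_nonneg_left h2 t.2.1
      linarith
    exact hx _ (by rw [Complex.norm_real, Real.norm_of_nonneg h3.le]; exact h3)
      (by rw [Complex.norm_real, Real.norm_of_nonneg h3.le]; exact h4)⟩
  continuous_toFun := by
    refine Continuous.subtype_mk ?_ _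
    refine continuous_const.add (Continuous.smul
      (f := fun t : I => (((1 - (t : ℝ)) + (t : ℝ) * eta h (loc h x) : ℝ) : ℂ))
      (g := fun _ => x.1 - p) ?_ continuous_const)
    exact Complex.continuous_ofReal.comp (by fun_prop)
  source' := by
    apply Subtype.ext
    show p + (((1 - ((0 : I) : ℝ)) + ((0 : I) : ℝ) * eta h (loc h x) : ℝ) : ℂ) • (x.1 - p) = x.1
    rw [Set.Icc.coe_zero]
    simp
  target' := by
    apply Subtype.ext
    show p + (((1 - ((1 : I) : ℝ)) + ((1 : I) : ℝ) * eta h (loc h x) : ℝ) : ℂ) • (x.1 - p) =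
      p + (eta h (loc h x) : ℂ) • (x.1 - p)
    rw [Set.Icc.coe_one]
    simp

/-- The homomorphism from the braid group of the parabolic subgroup. -/
def locB (h : IsPar N' N p) (hx : IsTw p x) (q : PQ v₀ x) :
    Braid N' (loc h x) →* Braid N v₀ :=
  mapB (inc h) (R h) (R_act h) (q.trans (Path.Homotopic.Quotient.mk (ray h hx)))

theorem locB_proj (h : IsPar N' N p) (hx : IsTw p x) (q : PQ v₀ x) (b : Braid N' (loc h x)) :
    Braid.proj (locB h hx q b) = inc h (Braid.proj b) := by
  induction b using Quotient.inductionOn with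
  | h a =>
    show Braid.proj (chg _ (inc h a.g) _ _) = inc h a.g
    unfold chg
    generalize (((q.trans (Path.Homotopic.Quotient.mk (ray h hx))).trans
      (Path.Homotopic.Quotient.mk (a.toPath.map (R h).continuous))).trans _) = P
    induction P using Path.Homotopic.Quotient.ind with
    | mk P => rfl

/-- Shrinking the image of a pair: `γ₁` is `γ` shrunk by the constant factor `ε`. -/
theorem locB_chg (h : IsPar N' N p) (hx : IsTw p x) (q : PQ v₀ x) {y z : VReg N'}
    (q' : PQ (loc h x) y) (g : N') (hz : z = g • y) (γ : Path y z) (ε : ℝ) (hε : 0 < ε)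
    (hc : ∀ t, ε * nrm N' ((γ t).1 - p) < rad h) {y₁ z₁ : VReg N} (γ₁ : Path y₁ z₁)
    (hγ : ∀ t, (γ₁ t).1 = p + (ε : ℂ) • ((γ t).1 - p)) (hz₁ : z₁ = inc h g • y₁) :
    ∃ q₁ : PQ v₀ y₁, locB h hx q (chg q' g hz (Path.Homotopic.Quotient.mk γ)) =
      chg q₁ (inc h g) hz₁ (Path.Homotopic.Quotient.mk γ₁) := by
  have hz' : R h z = inc h g • R h y := by rw [hz, R_act]
  have e0 : locB h hx q (chg q' g hz (Path.Homotopic.Quotient.mk γ)) =
      chg ((q.trans (Path.Homotopic.Quotient.mk (ray h hx))).trans (q'.map (R h))) (inc h g) hz'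
        (Path.Homotopic.Quotient.mk (γ.map (R h).continuous)) := by
    unfold locB
    rw [mapB_chg (inc h) (R h) (R_act h) _ q' g hz _ hz']
    rfl
  let Y : C(ℝ × ℝ, VReg N') :=
    ⟨fun s => γ (Set.projIcc 0 1 zero_le_one s.2),
      γ.continuous.comp (continuous_projIcc.comp continuous_snd)⟩
  let τ : C(ℝ × ℝ, ℝ) :=
    ⟨fun s => (1 - (Set.projIcc 0 1 zero_le_one s.1 : ℝ)) * eta h (Y s) +
        (Set.projIcc 0 1 zero_le_one s.1 : ℝ) * ε, by
      have h1 : Continuous fun s : ℝ × ℝ => (Set.projIcc (0 : ℝ) 1 zero_le_one s.1 : ℝ) :=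
        continuous_subtype_val.comp (continuous_projIcc.comp continuous_fst)
      exact ((continuous_const.sub h1).mul ((continuous_eta h).comp Y.continuous)).add
        (h1.mul continuous_const)⟩
  have hτ : ∀ s, τ s = (1 - (Set.projIcc 0 1 zero_le_one s.1 : ℝ)) * eta h (Y s) +
        (Set.projIcc 0 1 zero_le_one s.1 : ℝ) * ε := fun s => rfl
  have h0 : ∀ s, 0 < τ s := by
    intro s
    rw [hτ]
    have h1 := eta_pos h (Y s)
    obtain ⟨h2, h3⟩ := (Set.projIcc (0 : ℝ) 1 zero_le_one s.1).2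
    rcases h2.eq_or_lt with h4 | h4
    · rw [← h4]; linarith
    · have h5 := mul_pos h4 hε
      have h6 := mul_nonneg (sub_nonneg.2 h3) h1.le
      linarith
  have hcc : ∀ s, τ s * nrm N' ((Y s).1 - p) < rad h := by
    intro s
    rw [hτ]
    have h1 := eta_lt h (Y s)
    have h2 : ε * nrm N' ((Y s).1 - p) < rad h := hc _
    obtain ⟨h3, h4⟩ := (Set.projIcc (0 : ℝ) 1 zero_le_one s.1).2
    set u : ℝ := (Set.projIcc (0 : ℝ) 1 zero_le_one s.1 : ℝ) with hu
    have h5 : ((1 - u) * eta h (Y s) + u * ε) * nrm N' ((Y s).1 - p) =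
        (1 - u) * (eta h (Y s) * nrm N' ((Y s).1 - p)) + u * (ε * nrm N' ((Y s).1 - p)) := by ring
    rw [h5]
    rcases h3.eq_or_lt with h6 | h6
    · rw [← h6]; linarith
    · have h7 := mul_lt_mul_of_pos_left h2 h6
      have h8 := mul_le_mul_of_nonneg_left h1.le (sub_nonneg.2 h4)
      nlinarith
  let Fs : C(ℝ × ℝ, VReg N) := scC h τ Y h0 hcc
  have hFs : ∀ s, (Fs s).1 = p + (τ s : ℂ) • ((Y s).1 - p) := fun s => rfl
  have hp0 : (Set.projIcc (0 : ℝ) 1 zero_le_one 0 : I) = 0 := Set.projIcc_left _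
  have hp1 : (Set.projIcc (0 : ℝ) 1 zero_le_one 1 : I) = 1 := Set.projIcc_right _
  have hY0 : ∀ s, Y (s, 0) = y := fun s => by
    show γ (Set.projIcc 0 1 zero_le_one 0) = y
    rw [hp0, γ.source]
  have hY1 : ∀ s, Y (s, 1) = z := fun s => by
    show γ (Set.projIcc 0 1 zero_le_one 1) = z
    rw [hp1, γ.target]
  have hYt : ∀ (s : ℝ) (t : I), Y (s, (t : ℝ)) = γ t := fun s t => by
    show γ (Set.projIcc 0 1 zero_le_one (t : ℝ)) = γ t
    rw [Set.projIcc_val]
  have hF : ∀ s, Fs (s, 1) = inc h g • Fs (s, 0) := by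
    intro s
    apply Subtype.ext
    rw [hFs, hY1]
    show _ = g.1.1 *ᵥ (Fs (s, 0)).1
    rw [hFs, hY0, act_shift h g.1 g.2, hτ, hτ, hY0, hY1, hz, eta_act]
    rfl
  have e1 : ∀ t : I, (γ.map (R h).continuous) t = Fs (0, (t : ℝ)) := by
    intro t
    apply Subtype.ext
    show p + (eta h (γ t) : ℂ) • ((γ t).1 - p) = (Fs (0, (t : ℝ))).1
    rw [hFs, hτ, hYt]
    simp only [hp0, Set.Icc.coe_zero]
    simp
  have e2 : ∀ t : I, γ₁ t = Fs (1, (t : ℝ)) := by
    intro t
    apply Subtype.ext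
    rw [hγ, hFs, hτ, hYt]
    simp only [hp1, Set.Icc.coe_one]
    simp
  have f0 : Fs (0, 0) = R h y := by
    have := e1 0
    rw [Set.Icc.coe_zero] at this
    rw [← this]
    exact (γ.map (R h).continuous).source
  have f1 : Fs (1, 0) = y₁ := by
    have := e2 0
    rw [Set.Icc.coe_zero] at this
    rw [← this]
    exact γ₁.source
  let c : Path (R h y) y₁ := ((hs 0).map Fs.continuous).cast f0.symm f1.symm
  refine ⟨_, e0.trans (chg_sq Fs (inc h g) hF hz' hz₁ _ γ₁ c e1 e2 (fun t => rfl) _)⟩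

end LocX

end

end Pool.Agent.CMFn
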