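import Pool.Agent.CMFn.T4B
import Pool.Agent.CMFn.DunA

/-! Project CMF, every rank, local braid groups, module LocBrA: shrinking `V^reg` of a parabolic
subgroup into a neighbourhood of the point which it fixes. -/

namespace Pool.Agent.CMFn

open unitInterval Matrix

noncomputable section

variable {r : ℕ}

/-- The subgroup `N'` of `N` fixes `p`, and it contains the reflections of `N` which fix `p`. -/
structure IsPar (N' N : SG r) (p : Fin r → ℂ) : Prop where
  le : N' ≤ N
  fix : ∀ g ∈ N', g.1 *ᵥ p = p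
  all : ∀ g ∈ N, IsRefl g → g.1 *ᵥ p = p → g ∈ N'

namespace LocX

/-- An invariant norm. -/
def nrm (N' : SG r) [Fintype N'] (v : Fin r → ℂ) : ℝ := ∑ g : N', ‖g.1.1 *ᵥ v‖

section nrm

variable (N' : SG r) [Fintype N']

lemma nrm_nonneg (v : Fin r → ℂ) : 0 ≤ nrm N' v := Finset.sum_nonneg fun _ _ => norm_nonneg _

lemma norm_le_nrm (v : Fin r → ℂ) : ‖v‖ ≤ nrm N' v := by
  have h := Finset.single_le_sum (f := fun g : N' => ‖g.1.1 *ᵥ v‖)
    (fun g _ => norm_nonneg _) (Finset.mem_univ (1 : N'))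
  have h1 : (1 : N').1.1 *ᵥ v = v := by
    show (1 : Matrix (Fin r) (Fin r) ℂ) *ᵥ v = v
    rw [Matrix.one_mulVec]
  simp only [h1] at h
  exact h

lemma nrm_smul (c : ℂ) (v : Fin r → ℂ) : nrm N' (c • v) = ‖c‖ * nrm N' v := by
  unfold nrm
  rw [Finset.mul_sum]
  refine Finset.sum_congr rfl fun g _ => ?_
  rw [Matrix.mulVec_smul, norm_smul]

lemma nrm_act (g : N') (v : Fin r → ℂ) : nrm N' (g.1.1 *ᵥ v) = nrm N' v := by
  unfold nrm
  refine Fintype.sum_equiv (Equiv.mulRight g) _ _ fun h => ?_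
  rw [Matrix.mulVec_mulVec]
  rfl

lemma nrm_add_le (v w : Fin r → ℂ) : nrm N' (v + w) ≤ nrm N' v + nrm N' w := by
  unfold nrm
  rw [← Finset.sum_add_distrib]
  refine Finset.sum_le_sum fun g _ => ?_
  rw [Matrix.mulVec_add]
  exact norm_add_le _ _

lemma continuous_nrm : Continuous (nrm N') := by
  unfold nrm
  refine continuous_finsetSum _ fun g _ => ?_
  exact (Continuous.matrix_mulVec continuous_const continuous_id).norm

end nrm

variable {N' N : SG r} [Fintype N'] [Fintype N] {p : Fin r → ℂ}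

omit [Fintype N'] [Fintype N] in
lemma act_shift (h : IsPar N' N p) (g : GL (Fin r) ℂ) (hg : g ∈ N') (t : ℂ) (y : Fin r → ℂ) :
    g.1 *ᵥ (p + t • (y - p)) = p + t • (g.1 *ᵥ y - p) := by
  rw [Matrix.mulVec_add, Matrix.mulVec_smul, Matrix.mulVec_sub, h.fix g hg]

/-- The elements of `N` which do not fix `p` do not fix the vectors near `p`. -/
theorem exists_rad (N' N : SG r) [Fintype N'] [Fintype N] (p : Fin r → ℂ) : ∃ c : ℝ, 0 < c ∧
    ∀ y : Fin r → ℂ, nrm N' (y - p) < c → ∀ g ∈ N, g.1 *ᵥ p ≠ p → g.1 *ᵥ y ≠ y := by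
  have h1 : IsOpen (⋂ g : N, {y : Fin r → ℂ | g.1.1 *ᵥ p ≠ p → g.1.1 *ᵥ y ≠ y}) := by
    refine isOpen_iInter_of_finite fun g => ?_
    by_cases hg : g.1.1 *ᵥ p = p
    · have : {y : Fin r → ℂ | g.1.1 *ᵥ p ≠ p → g.1.1 *ᵥ y ≠ y} = Set.univ := by
        ext y
        simp [hg]
      rw [this]
      exact isOpen_univ
    · have : {y : Fin r → ℂ | g.1.1 *ᵥ p ≠ p → g.1.1 *ᵥ y ≠ y} = {y | g.1.1 *ᵥ y ≠ y} := by
        ext y
        simp [hg]
      rw [this]
      exact isOpen_ne_fun (Continuous.matrix_mulVec continuous_const continuous_id) continuous_id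
  obtain ⟨c, hc, hball⟩ := Metric.isOpen_iff.1 h1 p (by
    rw [Set.mem_iInter]
    intro g hg
    exact hg)
  refine ⟨c, hc, fun y hn g hg hp => ?_⟩
  have h2 : y ∈ Metric.ball p c := by
    rw [Metric.mem_ball, dist_eq_norm]
    exact (norm_le_nrm N' _).trans_lt hn
  exact Set.mem_iInter.1 (hball h2) ⟨g, hg⟩ hp

/-- A radius. -/
def rad (_ : IsPar N' N p) : ℝ := (exists_rad N' N p).choose

lemma rad_pos (h : IsPar N' N p) : 0 < rad h := (exists_rad N' N p).choose_spec.1

lemma rad_spec' (h : IsPar N' N p) (y : Fin r → ℂ) (hn : nrm N' (y - p) < rad h) :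
    ∀ g ∈ N, g.1 *ᵥ p ≠ p → g.1 *ᵥ y ≠ y := (exists_rad N' N p).choose_spec.2 y hn

lemma nrm_shift (t : ℝ) (y : Fin r → ℂ) (h0 : 0 < t) :
    nrm N' (p + (t : ℂ) • (y - p) - p) = t * nrm N' (y - p) := by
  rw [add_sub_cancel_left, nrm_smul, Complex.norm_real, Real.norm_of_nonneg h0.le]

/-- Shrinking does not change the elements fixing a vector. -/
lemma shift_fix (h : IsPar N' N p) (g : GL (Fin r) ℂ) (hg : g ∈ N') (t : ℝ) (y : Fin r → ℂ)
    (h0 : 0 < t) (he : g.1 *ᵥ (p + (t : ℂ) • (y - p)) = p + (t : ℂ) • (y - p)) :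
    g.1 *ᵥ y = y := by
  rw [act_shift h g hg] at he
  have h1 := add_left_cancel he
  have h2 : g.1 *ᵥ y - p = y - p :=
    smul_right_injective _ (Complex.ofReal_ne_zero.2 h0.ne') h1
  exact sub_left_injective h2

lemma mem_of_fix (h : IsPar N' N p) (g : GL (Fin r) ℂ) (hg : g ∈ N) (hr : IsRefl g) (t : ℝ)
    (y : Fin r → ℂ) (h0 : 0 < t) (hc : t * nrm N' (y - p) < rad h)
    (he : g.1 *ᵥ (p + (t : ℂ) • (y - p)) = p + (t : ℂ) • (y - p)) : g ∈ N' := by
  by_contra hN
  refine rad_spec' h _ (by rw [nrm_shift t y h0]; exact hc) g hg (fun hp => ?_) he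
  exact hN (h.all g hg hr hp)

lemma sc_mem' (h : IsPar N' N p) (t : ℝ) (y : Fin r → ℂ)
    (hy : ∀ g ∈ N', IsRefl g → g.1 *ᵥ y ≠ y) (h0 : 0 < t)
    (hc : t * nrm N' (y - p) < rad h) :
    ∀ g ∈ N, IsRefl g → g.1 *ᵥ (p + (t : ℂ) • (y - p)) ≠ p + (t : ℂ) • (y - p) := by
  intro g hg hr he
  have h1 := mem_of_fix h g hg hr t y h0 hc he
  exact hy g h1 hr (shift_fix h g h1 t y h0 he)

lemma sc_mem (h : IsPar N' N p) (t : ℝ) (y : VReg N') (h0 : 0 < t)
    (hc : t * nrm N' (y.1 - p) < rad h) :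
    ∀ g ∈ N, IsRefl g → g.1 *ᵥ (p + (t : ℂ) • (y.1 - p)) ≠ p + (t : ℂ) • (y.1 - p) :=
  sc_mem' h t y.1 y.2 h0 hc

/-- Shrinking of a family. -/
def scC {T : Type} [TopologicalSpace T] (h : IsPar N' N p) (τ : C(T, ℝ)) (Y : C(T, VReg N'))
    (h0 : ∀ s, 0 < τ s) (hc : ∀ s, τ s * nrm N' ((Y s).1 - p) < rad h) : C(T, VReg N) where
  toFun s := ⟨p + (τ s : ℂ) • ((Y s).1 - p), sc_mem h (τ s) (Y s) (h0 s) (hc s)⟩
  continuous_toFun := by
    refine Continuous.subtype_mk ?_ _
    refine continuous_const.add (Continuous.smul (f := fun s : T => ((τ s : ℝ) : ℂ))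
      (g := fun s : T => (Y s).1 - p) ?_ ?_)
    · exact Complex.continuous_ofReal.comp τ.continuous
    · exact (continuous_subtype_val.comp Y.continuous).sub continuous_const

/-- The factor of the shrinking map. -/
def eta (h : IsPar N' N p) (y : VReg N') : ℝ := rad h / (rad h + nrm N' (y.1 - p))

lemma eta_pos (h : IsPar N' N p) (y : VReg N') : 0 < eta h y :=
  div_pos (rad_pos h) (add_pos_of_pos_of_nonneg (rad_pos h) (nrm_nonneg _ _))

lemma eta_lt (h : IsPar N' N p) (y : VReg N') : eta h y * nrm N' (y.1 - p) < rad h := by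
  have h1 := rad_pos h
  have h2 := nrm_nonneg N' (y.1 - p)
  unfold eta
  rw [div_mul_eq_mul_div, div_lt_iff₀ (by linarith)]
  nlinarith

lemma eta_le (h : IsPar N' N p) (y : VReg N') : eta h y ≤ 1 := by
  have h1 := rad_pos h
  have h2 := nrm_nonneg N' (y.1 - p)
  unfold eta
  rw [div_le_one (by linarith)]
  linarith

lemma continuous_eta (h : IsPar N' N p) : Continuous (eta h) := by
  unfold eta
  refine continuous_const.div (continuous_const.add ((continuous_nrm N').comp
    (continuous_subtype_val.sub continuous_const))) fun y => ?_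
  have h1 := rad_pos h
  have h2 := nrm_nonneg N' (y.1 - p)
  linarith

lemma eta_act (h : IsPar N' N p) (g : N') (y : VReg N') : eta h (g • y) = eta h y := by
  unfold eta
  have h1 : (g • y).1 - p = g.1.1 *ᵥ (y.1 - p) := by
    rw [Matrix.mulVec_sub, h.fix g.1 g.2]
    rfl
  rw [h1, nrm_act]

/-- The shrinking map. -/
def R (h : IsPar N' N p) : C(VReg N', VReg N) :=
  scC h ⟨eta h, continuous_eta h⟩ (ContinuousMap.id _) (eta_pos h) (eta_lt h)

lemma R_val (h : IsPar N' N p) (y : VReg N') :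
    (R h y).1 = p + (eta h y : ℂ) • (y.1 - p) := rfl

/-- The inclusion of the groups. -/
def inc (h : IsPar N' N p) : N' →* N := Subgroup.inclusion h.le

lemma R_act (h : IsPar N' N p) (g : N') (y : VReg N') : R h (g • y) = inc h g • R h y := by
  apply Subtype.ext
  rw [R_val, eta_act]
  show p + (eta h y : ℂ) • (g.1.1 *ᵥ y.1 - p) = g.1.1 *ᵥ (p + (eta h y : ℂ) • (y.1 - p))
  rw [act_shift h g.1 g.2]

end LocX

/-! ### Functoriality of the braid group -/

namespace LocX

open T4X

variable {N' N : SG r} {v₀ : VReg N}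

/-- The homomorphism of braid groups of an equivariant map. -/
def mapB (ι : N' →* N) (f : C(VReg N', VReg N)) (hf : ∀ g y, f (g • y) = ι g • f y)
    {x' : VReg N'} (q : PQ v₀ (f x')) : Braid N' x' →* Braid N v₀ :=
  MonoidHom.mk' (Quotient.lift (fun a : BPath N' x' =>
      chg q (ι a.g) (hf a.g x') (Path.Homotopic.Quotient.mk (a.toPath.map f.continuous)))
    (by
      rintro ⟨g, e, h0, h1⟩ ⟨g', e', h0', h1'⟩ ⟨hg, hf'⟩
      simp only at hg hf'
      subst hg
      have hp : (BPath.toPath ⟨g, e, h0, h1⟩).Homotopic (BPath.toPath ⟨g, e', h0', h1'⟩) := hf'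
      exact congrArg (chg q (ι g) (hf g x')) (Path.Homotopic.Quotient.eq.2 (hp.map f))))
    (by
      intro a b
      induction a using Quotient.inductionOn with
      | h a =>
        induction b using Quotient.inductionOn with
        | h b =>
          show chg q (ι (a.g * b.g)) (hf (a.g * b.g) x')
            (Path.Homotopic.Quotient.mk ((a.mul b).toPath.map f.continuous)) =
            chg q (ι a.g) (hf a.g x') (Path.Homotopic.Quotient.mk (a.toPath.map f.continuous)) *
            chg q (ι b.g) (hf b.g x') (Path.Homotopic.Quotient.mk (b.toPath.map f.continuous))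
          rw [chg_mul q (ι a.g) (ι b.g) (hf a.g x') _ (hf b.g x') _ (hf a.g (b.g • x'))]
          refine chg_congr q (map_mul ι a.g b.g) _ _ _ _ ?_
          rw [gm_mk, ← Path.Homotopic.Quotient.mk_cast, ← Path.Homotopic.Quotient.mk_trans,
            ← Path.Homotopic.Quotient.mk_cast]
          congr 1
          apply Path.ext
          funext t
          show ((a.toPath.map f.continuous).trans _) t = f ((a.mul b).f t)
          rw [BraidX.mul_f, Path.trans_apply, Path.trans_apply]
          split_ifs with ht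
          · rfl
          · exact (hf a.g _).symm)

lemma mapB_mk (ι : N' →* N) (f : C(VReg N', VReg N)) (hf : ∀ g y, f (g • y) = ι g • f y)
    {x' : VReg N'} (q : PQ v₀ (f x')) (a : BPath N' x') :
    mapB ι f hf q (Quotient.mk _ a) =
      chg q (ι a.g) (hf a.g x') (Path.Homotopic.Quotient.mk (a.toPath.map f.continuous)) := rfl

/-- The image of a pair with another base point. -/
theorem mapB_chg (ι : N' →* N) (f : C(VReg N', VReg N)) (hf : ∀ g y, f (g • y) = ι g • f y)
    {x' y z : VReg N'} (q : PQ v₀ (f x')) (q' : PQ x' y) (g : N') (hz : z = g • y)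
    (γ : PQ y z) (hz' : f z = ι g • f y) : mapB ι f hf q (chg q' g hz γ) =
      chg (q.trans (q'.map f)) (ι g) hz' (γ.map f) := by
  subst hz
  induction q' using Path.Homotopic.Quotient.ind with
  | mk q' =>
    induction γ using Path.Homotopic.Quotient.ind with
    | mk γ =>
      rw [chg_mk, mapB_mk, chg_trans q _ (ι g) hz' _ (hf g x')]
      congr 1
      show Path.Homotopic.Quotient.mk
        (((q'.trans γ).trans ((q'.symm).map (continuous_const_smul g))).map f.continuous) =
        ((Path.Homotopic.Quotient.mk (q'.map f.continuous)).trans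
          (Path.Homotopic.Quotient.mk (γ.map f.continuous))).trans
          ((gm (ι g) (Path.Homotopic.Quotient.mk (q'.map f.continuous)).symm).cast hz' (hf g x'))
      rw [← Path.Homotopic.Quotient.mk_symm, gm_mk, ← Path.Homotopic.Quotient.mk_cast,
        ← Path.Homotopic.Quotient.mk_trans, ← Path.Homotopic.Quotient.mk_trans, Path.map_trans,
        Path.map_trans]
      congr 2
      apply Path.ext
      funext t
      exact hf g _

end LocX

end

end Pool.Agent.CMFn
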