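import Pool.Agent.CMFn.QIsol
import Pool.Agent.CMFn.Mart

/-! Project CMFn: groups whose levels are connected by links up to isolated characters. -/

set_option linter.unusedSectionVars false

namespace Pool.Agent.CMFn

open Matrix G1 G4 Pool.Agent
open Pool.Agent.CMF (IsInt)

noncomputable section

theorem ConnX.mono {r : ℕ} {G : Type} [Group G] [Fintype G]
    {V : G →* Matrix (Fin r) (Fin r) ℂ} {X X' : MRep G → Prop} (h : ConnX V X)
    (hX : ∀ a, IsIrr a.2 → X a → X' a) : ConnX V X' :=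
  fun a b ha hb hl h1 h2 => h a b ha hb hl (fun h3 => h1 (hX a ha h3)) fun h3 => h2 (hX b hb h3)

/-- Martino's conjecture, `K = ℂ`, when the levels are connected by links up to a set `X` of
representations such that every `{l}`, `l ∈ X`, is integral. -/
theorem mart_split' {n : ℕ} (hn : 2 ≤ n) {G : Type} [Group G] [Fintype G]
    (W : G → Matrix (Fin n) (Fin n) ℂ) (hW : CMFP.IsReflGroup W) (X : MRep G → Prop)
    (hconn : ConnX (repHom hW.1) X)
    (hX : ∀ (Λ : Type) [Fintype Λ] (d : Λ → ℕ)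
      (ρ : ∀ l, G → Matrix (Fin (d l)) (Fin (d l)) ℂ) (hρ : CMFP.IsIrrFam d ρ)
      (F : Type) [Field F] [Algebra F ℂ]
      (_ : (algebraMap F ℂ).fieldRange = Subfield.closure (Set.range fun g => (W g).trace))
      (v₀ : Fin n → ℂ) (hv₀ : CMFP.Reg W v₀) (D : CMFP.StdHk F W v₀ d)
      (_ : D.Specialises ρ) (_ : CMFP.SchurForm F D.schurElt)
      (hN : ∃ s ∈ img hW.1, IsRefl s) [Fintype (CMFP.Idx W)]
      (A : Asm hW hρ F v₀ hv₀ D hN) (l : Λ), X (mr hρ l) →
        IsInt A.Q (fun _ => True) (fun l' => l' = l)) : Mart W := by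
  intro Λ _ d ρ hρ F _ _ hF v₀ hv₀ D hD S k κ hκ m hm χ ψ h
  classical
  have hfin : Finite (CMFP.Idx W) := CMF.idx_finite hW.1
  letI : Fintype (CMFP.Idx W) := Fintype.ofFinite _
  obtain ⟨A⟩ := exists_asm hW hρ hF hv₀ D hD (exists_refl hn hW)
  exact rank_split A _ hconn hF S k κ hκ m hm χ ψ h fun l hl =>
    hX Λ d ρ hρ F hF v₀ hv₀ D hD S _ A l hl

/-- Martino's conjecture, `K = ℂ`, for groups with one class of reflections, of order two, whose
levels are connected by links up to isolated characters. -/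
theorem mart_split {n : ℕ} (hn : 2 ≤ n) {G : Type} [Group G] [Fintype G]
    (W : G → Matrix (Fin n) (Fin n) ℂ) (hW : CMFP.IsReflGroup W)
    (hsq : ∀ s, CMFP.IsRefl W s → s * s = 1)
    (hone : ∀ s t, CMFP.IsRefl W s → CMFP.IsRefl W t → ∃ g : G, g * s * g⁻¹ = t)
    (hconn : ConnX (repHom hW.1) fun a => Isol (repHom hW.1) a ∨ IsolE (repHom hW.1) a) :
    Mart W := by
  refine mart_split' hn W hW _ hconn ?_
  intro Λ _ d ρ hρ F _ _ hF v₀ hv₀ D hD S hN _ A l hl
  rcases hl with hl | hl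
  · exact A.isInt_isol (CMFP.mu_pos hW.1 F hF) hsq hone l hl
  · exact A.isInt_isolE (CMFP.mu_pos hW.1 F hF) hsq hone l hl

end

end Pool.Agent.CMFn
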