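import Pool.Agent.CMFn.ModF

/-! Project CMFn, module ModL: integrality of sets of characters at one prime of the ring of
constants. -/

set_option linter.unusedSectionVars false

namespace Pool.Agent.CMF

open Matrix Polynomial

noncomputable section

variable {Z : Type} [CommRing Z] {ι : Type} (D : HData Z ι)

/-- The idempotent of the set `F` is integral at the prime `p` of the constants, up to an element
outside `p A`. -/
def IntAt (p : Ideal Z) (F : D.Λ → Prop) : Prop :=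
  ∃ (s : Lau Z ι) (y : D.H), s ∉ MX.PP ι p ∧ ∀ l,
    (F l → D.R l y = algebraMap (Lau Z ι) D.K s • 1) ∧ (¬ F l → D.R l y = 0)

variable {D} {p : Ideal Z} {F F' : D.Λ → Prop}

theorem IntAt.congr (h : IntAt D p F) (hF : ∀ l, F l ↔ F' l) : IntAt D p F' := by
  have : F = F' := funext fun l => propext (hF l)
  rwa [← this]

theorem IntAt.compl (h : IntAt D p F) : IntAt D p (fun l => ¬ F l) := by
  obtain ⟨s, y, hs, hy⟩ := h
  refine ⟨s, s • 1 - y, hs, fun l => ⟨fun hl => ?_, fun hl => ?_⟩⟩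
  · rw [map_sub, D.R_smul, map_one, (hy l).2 hl, sub_zero]
  · rw [map_sub, D.R_smul, map_one, (hy l).1 (not_not.1 hl), sub_self]

theorem IntAt.inter [IsDomain Z] [hp : p.IsPrime] (h : IntAt D p F) (h' : IntAt D p F') :
    IntAt D p (fun l => F l ∧ F' l) := by
  obtain ⟨s, y, hs, hy⟩ := h
  obtain ⟨s', y', hs', hy'⟩ := h'
  refine ⟨s * s', y * y', fun h1 => ((MX.PP_prime p).mem_or_mem h1).elim hs hs', fun l =>
    ⟨fun hl => ?_, fun hl => ?_⟩⟩
  · rw [map_mul, (hy l).1 hl.1, (hy' l).1 hl.2, smul_mul_smul_comm, one_mul, map_mul]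
  · rw [map_mul]
    by_cases h1 : F l
    · rw [(hy' l).2 (fun h2 => hl ⟨h1, h2⟩), mul_zero]
    · rw [(hy l).2 h1, zero_mul]

theorem IntAt.union [IsDomain Z] [hp : p.IsPrime] (h : IntAt D p F) (h' : IntAt D p F') :
    IntAt D p (fun l => F l ∨ F' l) := by
  refine (h.compl.inter h'.compl).compl.congr fun l => ?_
  by_cases h1 : F l <;> by_cases h2 : F' l <;> simp [h1, h2]

theorem intAt_true [hp : p.IsPrime] : IntAt D p (fun _ : D.Λ => True) := by
  refine ⟨1, 1, fun h1 => ?_, fun l => ⟨fun _ => by rw [map_one, map_one, one_smul],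
    fun h => absurd trivial h⟩⟩
  have h2 : (algebraMap Z (Lau Z ι) 1) ∈ MX.PP ι p := by rwa [map_one]
  exact hp.ne_top ((Ideal.eq_top_iff_one p).2 (MX.C_mem_PP.1 h2))

theorem intAt_false [hp : p.IsPrime] : IntAt D p (fun _ : D.Λ => False) :=
  (intAt_true (D := D) (p := p)).compl.congr fun l => by simp

/-- A union of integral sets is integral. -/
theorem intAt_of_cover [IsDomain Z] [hp : p.IsPrime] (h : ∀ l, F l → ∃ G : D.Λ → Prop, G l ∧
    (∀ l', G l' → F l') ∧ IntAt D p G) : IntAt D p F := by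
  classical
  choose! G h1 h2 h3 using h
  have key : ∀ s : Finset D.Λ, (∀ i ∈ s, IntAt D p (G i)) →
      IntAt D p (fun l => ∃ i ∈ s, G i l) := by
    intro s
    induction s using Finset.induction_on with
    | empty => exact fun _ => intAt_false.congr fun l => by simp
    | insert a s _ ih =>
      intro hs
      refine ((hs a (Finset.mem_insert_self a s)).union
        (ih fun i hi => hs i (Finset.mem_insert_of_mem hi))).congr fun l => ?_
      simp
  refine (key (Finset.univ.filter F) fun i hi => h3 i (Finset.mem_filter.1 hi).2).congr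
    fun l => ⟨?_, fun hl => ⟨l, Finset.mem_filter.2 ⟨Finset.mem_univ l, hl⟩, h1 l hl⟩⟩
  rintro ⟨i, hi, hl⟩
  exact h2 i (Finset.mem_filter.1 hi).2 l hl

/-- A Schur element outside `p A` isolates its character. -/
theorem intAt_of_schur {l : D.Λ} (h : D.s l ∉ MX.PP ι p) : IntAt D p (fun m => m = l) :=
  ⟨D.s l, D.C l, h, fun m => by rw [D.R_C]; exact ⟨fun hm => if_pos hm, fun hm => if_neg hm⟩⟩

/-- Trace criterion: an element whose characters vanish except at `l`. -/
theorem schur_notMem [IsDomain Z] {l : D.Λ} {s : Lau Z ι} (hs : s ∉ MX.PP ι p) (h : D.H)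
    (hl : D.X l h = s) (hm : ∀ m, m ≠ l → D.X m h = 0) : D.s l ∉ MX.PP ι p := by
  intro h1
  apply hs
  have hne : ∏ m ∈ Finset.univ.erase l, D.s m ≠ 0 :=
    Finset.prod_ne_zero_iff.2 fun m _ => D.s_ne m
  have h2 := D.schur h
  rw [Finset.sum_eq_single l, hl, ← Finset.prod_erase_mul _ _ (Finset.mem_univ l), mul_assoc] at h2
  · rw [← mul_left_cancel₀ hne h2]
    exact Ideal.mul_mem_right _ _ h1
  · intro m _ hml
    rw [hm m hml, mul_zero]
  · intro h3
    exact absurd (Finset.mem_univ l) h3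

/-- Trace criterion inside a set `E` which is integral at `p`. -/
theorem intAt_single [IsDomain Z] [hp : p.IsPrime] {E : D.Λ → Prop} (hE : IntAt D p E) {l : D.Λ}
    (hl : E l) {s : Lau Z ι} (hs : s ∉ MX.PP ι p) (h : D.H) (hX : D.X l h = s)
    (hm : ∀ m, E m → m ≠ l → D.X m h = 0) : IntAt D p (fun m => m = l) := by
  obtain ⟨t, y, ht, hy⟩ := hE
  have hXy : ∀ m, (E m → D.X m (y * h) = t * D.X m h) ∧ (¬ E m → D.X m (y * h) = 0) := by
    intro m
    constructor
    · intro hEm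
      apply D.injK
      rw [← D.trR, map_mul, (hy m).1 hEm, smul_mul_assoc, one_mul, Matrix.trace_smul, D.trR,
        map_mul, smul_eq_mul]
    · intro hEm
      apply D.injK
      rw [← D.trR, map_mul, (hy m).2 hEm, zero_mul, Matrix.trace_zero, map_zero]
  refine intAt_of_schur (schur_notMem (s := t * s)
    (fun h1 => ((MX.PP_prime p).mem_or_mem h1).elim ht hs) (y * h) ?_ ?_)
  · rw [(hXy l).1 hl, hX]
  · intro m hml
    by_cases hEm : E m
    · rw [(hXy m).1 hEm, hm m hEm hml, mul_zero]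
    · exact (hXy m).2 hEm

section

variable [IsDomain Z] [Algebra Z ℂ] [Fintype ι] {M : ℕ} {Q : KZData D M} {C : (ι →₀ ℤ) → Prop}

theorem IsInt.intAt [hp : p.IsPrime] (hinj : Function.Injective (algebraMap Z ℂ)) (hM : 0 < M)
    (h : IsInt Q C F) : IntAt D p F := by
  obtain ⟨h⟩ := h
  exact ⟨dlt Z h.P, h.X, MX.dlt_notMem h.P h.ne,
    MX.R_of_ρ Q hinj hM F (dlt Z h.P) h.X h.pos h.neg⟩

/-- Integrality is a local property. -/
theorem isInt_of_intAt [IsDedekindDomain Z] (hinj : Function.Injective (algebraMap Z ℂ))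
    (Φ : SchurFac D) (hC : ∀ l i, Φ.E l i ≠ 0 → ∀ j : ℕ, 0 < j → C (j • Φ.E l i))
    (h : ∀ p : Ideal Z, p.IsMaximal → p ≠ ⊥ → IntAt D p F) : IsInt Q C F :=
  isInt_of_local hinj Φ hC fun p hp hp0 _ => h p hp hp0

/-- Characters of defect zero at `p` are isolated at `p`. -/
theorem intAt_defect [IsDedekindDomain Z] [hp : p.IsPrime]
    (hinj : Function.Injective (algebraMap Z ℂ)) (Φ : SchurFac D) (Q : KZData D M) {G : Type}
    [Group G] [Fintype G] (R : ∀ l : D.Λ, G →* Matrix (Fin (D.d l)) (Fin (D.d l)) ℂ)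
    (hR : Function.Bijective (CMFn.ZeroX.four R)) (T : G → D.H)
    (hT : ∀ g l, Q.ρ 0 l (T g) = R l g) (l : D.Λ) (c : ℕ) (hc : Fintype.card G = D.d l * c)
    (hcp : (c : Z) ∉ p) : IntAt D p (fun m => m = l) := by
  apply intAt_of_schur
  intro h1
  apply hcp
  obtain ⟨w, hw⟩ := schur_dvd Q hinj R hR T hT l c hc
  rw [hw]
  apply Ideal.mul_mem_right
  -- `s_l(1) ∈ p`
  let k := FractionRing (Lau Z ι ⧸ MX.PP ι p)
  let φ : Lau Z ι →+* k := (algebraMap (Lau Z ι ⧸ MX.PP ι p) k).comp (Ideal.Quotient.mk (MX.PP ι p))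
  have hφ : ∀ a, φ a = 0 ↔ a ∈ MX.PP ι p := by
    intro a
    rw [← Ideal.Quotient.eq_zero_iff_mem]
    show algebraMap (Lau Z ι ⧸ MX.PP ι p) k (Ideal.Quotient.mk (MX.PP ι p) a) = 0 ↔ _
    exact map_eq_zero_iff _ (IsFractionRing.injective _ _)
  have h2 := phi_one1 Φ (fun a => MX.mon_one_of hp.ne_top φ hφ a) l ((hφ _).2 h1)
  exact MX.C_mem_PP.1 ((hφ _).1 h2)

/-- No common constituents at `p`. -/
theorem intAt_of_no_common [IsDedekindDomain Z] [IsFractionRing (Lau Z ι) D.K] [hp : p.IsMaximal]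
    (hp0 : p ≠ ⊥) (hinj : Function.Injective (algebraMap Z ℂ)) (hM : 0 < M) (Q : KZData D M)
    {E F : D.Λ → Prop} (hE : IntAt D p E) (hFE : ∀ l, F l → E l)
    (hno : ∀ l m, F l → E m → ¬ F m → Q.a l = Q.a m → ∀ (k : Type) [Field k]
      (φ : Lau Z ι →+* k), (∀ a, φ (mon a) = 1 → a = 0) →
      (∀ z : Z, φ (algebraMap Z (Lau Z ι) z) = 0 ↔ z ∈ p) →
      ∀ (n : ℕ) (ψ : D.H →+* Matrix (Fin n) (Fin n) k), 0 < n →
      (∀ a x, ψ (a • x) = φ a • ψ x) →
      (∀ v, v ≠ 0 → Submodule.span k (Set.range fun x => ψ x *ᵥ v) = ⊤) →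
      ψ Q.π = φ (mon (Q.a l)) • 1 →
      (∀ x, (ψ x).rank ≤ (D.R l x).rank) → (∀ x, (ψ x).rank ≤ (D.R m x).rank) → False) :
    IntAt D p F := by
  have hpp := hp.isPrime
  have hfin : Module.Finite (Lau Z ι) D.H := Module.Finite.of_basis D.b
  obtain ⟨s, y, hs, hy⟩ := sep_at_prime (K := D.K) (MX.PP ι p) (MX.pid p hp0)
    (fun l : {l : D.Λ // E l} => D.d l.1) (fun l => D.d_pos l.1) (fun l => MX.RA D l.1)
    (fun l => MX.span_RA D l.1) (fun l => F l.1) (by
      intro l m hl hm k _ φ hφ n ψ hn hsm hirr h1 h2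
      have hπ : ∀ l' : {l : D.Λ // E l}, (∀ x, (ψ x).rank ≤ (MX.RA D l'.1 x).rank) →
          ψ Q.π = φ (mon (Q.a l'.1)) • 1 := by
        intro l' h3
        have h4 := h3 (Q.π - (mon (Q.a l'.1) : Lau Z ι) • 1)
        have h6 : D.R l'.1 (Q.π - (mon (Q.a l'.1) : Lau Z ι) • 1) = 0 := by
          rw [map_sub, MX.R_π Q hinj hM, D.R_smul, map_one, sub_self]
        rw [MX.RA_apply, h6, Matrix.rank_zero] at h4
        have h5 := MX.eq_zero_of_rank _ h4
        rw [map_sub, hsm, map_one] at h5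
        exact sub_eq_zero.1 h5
      have hπl := hπ l h1
      have hπm := hπ m h2
      have ha : Q.a l.1 = Q.a m.1 := by
        apply MX.mon_inj_of hpp.ne_top φ hφ
        have h3 := congrFun (congrFun (hπl.symm.trans hπm) ⟨0, hn⟩) ⟨0, hn⟩
        simpa using h3
      exact hno l.1 m.1 hl m.2 hm ha k φ (fun a => MX.mon_one_of hpp.ne_top φ hφ a)
        (fun z => (hφ _).trans MX.C_mem_PP) n ψ hn hsm hirr hπl h1 h2)
  obtain ⟨t, x, ht, hx⟩ := hE
  refine ⟨s * t, x * y, fun h1 => ?_, fun l => ⟨fun hl => ?_, fun hl => ?_⟩⟩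
  · exact ((MX.PP_prime p).mem_or_mem h1).elim hs ht
  · have h1 : D.R l y = algebraMap (Lau Z ι) D.K s • 1 := (hy ⟨l, hFE l hl⟩).1 hl
    rw [map_mul, (hx l).1 (hFE l hl), h1, smul_mul_smul_comm, one_mul, map_mul, mul_comm]
  · rw [map_mul]
    by_cases hEl : E l
    · have h1 : D.R l y = 0 := (hy ⟨l, hEl⟩).2 hl
      rw [h1, mul_zero]
    · rw [(hx l).2 hEl, zero_mul]

end

end

end Pool.Agent.CMF
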