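import Pool.Agent.CMFn.Asm
import Pool.Agent.CMFn.ModL
import Pool.Agent.CMF.GMu

/-! Project CMFn, module ModI: the criteria of ModE and ModL in the frame of the assembly. The field
of definition is a number field, its ring of integers is a Dedekind domain, and the field `K` of the
data is the field of fractions of the ring of Laurent polynomials. -/

set_option linter.unusedSectionVars false

namespace Pool.Agent.CMFn

open Matrix G1 G4 Pool.Agent
open Pool.Agent.CMF (LineHol HData KZData ThmS evL mon pairC IsInt stdHData IntAt SchurFac schurFac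
  dlt Lau)

noncomputable section

/-! ### Instances -/

section Inst

variable {Z ι : Type} [CommRing Z] [IsDomain Z] {H : Type} [Ring H]
  [Algebra (CMFP.Laur Z ι) H] {N : ℕ} {Λ : Type} [Fintype Λ] {d : Λ → ℕ}

/-- The field `K` of the data is the field of fractions. -/
instance isFractionRing_std (D : CMFP.Std (CMFP.Laur Z ι) H N d) (hd : ∀ l, 0 < d l) :
    IsFractionRing (Lau Z ι) (stdHData D hd).K :=
  inferInstanceAs (IsFractionRing (CMFP.Laur Z ι) (FractionRing (CMFP.Laur Z ι)))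

end Inst

section Num

variable {n : ℕ} {G : Type} [Group G] [Fintype G] {V : G → Matrix (Fin n) (Fin n) ℂ}

/-- The ring of integers of the field of definition is a Dedekind domain. -/
theorem isDedekind_of (hV : CMFP.IsRep V) (F : Type) [Field F] [Algebra F ℂ]
    (hF : (algebraMap F ℂ).fieldRange = Subfield.closure (Set.range fun g => (V g).trace)) :
    IsDedekindDomain (NumberField.RingOfIntegers F) := by
  have := CMFP.numberField_of hV F hF
  infer_instance

end Num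

/-! ### The criteria in the frame of the assembly -/

section Main

variable {n : ℕ} {G : Type} [Group G] [Fintype G] {V : G → Matrix (Fin n) (Fin n) ℂ}
  {Λ : Type} [Fintype Λ] {d : Λ → ℕ} {ρ : ∀ l, G → Matrix (Fin (d l)) (Fin (d l)) ℂ}
  {F : Type} [Field F] [Algebra F ℂ] {v₀ : Fin n → ℂ}
  {hV : CMFP.IsReflGroup V} {hρ : CMFP.IsIrrFam d ρ} {hv₀ : CMFP.Reg V v₀}
  {D : CMFP.StdHk F V v₀ d} {hN : ∃ s ∈ img hV.1, IsRefl s} [Fintype (CMFP.Idx V)]

/-- The data of the generic Hecke algebra. -/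
abbrev hD (hρ : CMFP.IsIrrFam d ρ) (D : CMFP.StdHk F V v₀ d) :
    HData (NumberField.RingOfIntegers F) (CMFP.Idx V) :=
  stdHData D fun l => (hρ.1 l).1

/-- The representations of the group. -/
def repR (hρ : CMFP.IsIrrFam d ρ) (l : Λ) : G →* Matrix (Fin (d l)) (Fin (d l)) ℂ where
  toFun := ρ l
  map_one' := (hρ.1 l).2.1
  map_mul' := (hρ.1 l).2.2

theorem four_bij (hρ : CMFP.IsIrrFam d ρ) :
    Function.Bijective (ZeroX.four (fun l => repR hρ l)) := hρ.2

/-- Elements of the Hecke algebra which specialise to the elements of the group. -/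
theorem Asm.exists_T (A : Asm hV hρ F v₀ hv₀ D hN) : ∃ T : G → (hD hρ D).H, ∀ g l,
    A.Q.ρ 0 l (T g) = repR hρ l g := by
  have hsurj : ∀ g : G, ∃ b : CMFP.BP V v₀, b.g = g := by
    intro g
    obtain ⟨b', hb'⟩ := proj_surj hN A.v (iso hV.1 hV.2.1 g)
    obtain ⟨b, rfl⟩ := A.surj b'
    refine ⟨b, ?_⟩
    rw [A.proj] at hb'
    exact (iso hV.1 hV.2.1).injective hb'
  choose b hb using hsurj
  refine ⟨fun g => CMFP.hT _ (CMFP.var _) (b g), fun g l => ?_⟩
  rw [A.hQ]
  have h0 : kN hV.1 hV.2.1 (0 : CMFP.Idx V → ℂ) = 0 := rfl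
  rw [h0, KZ_zero, A.proj, hb]
  exact repN_iso hV.1 hV.2.1 (ρ l) (hρ.1 l).2 g

variable (hF : (algebraMap F ℂ).fieldRange = Subfield.closure (Set.range fun g => (V g).trace))
  (S : CMFP.SchurForm F D.schurElt)

/-- The factorisation of the Schur elements. -/
abbrev facS (hρ : CMFP.IsIrrFam d ρ) (D : CMFP.StdHk F V v₀ d)
    (S : CMFP.SchurForm F D.schurElt) : SchurFac (hD hρ D) :=
  schurFac D (fun l => (hρ.1 l).1) S

include hF

include S in
/-- Integrality is a local property. -/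
theorem Asm.isInt_of_intAt (A : Asm hV hρ F v₀ hv₀ D hN) {E : Λ → Prop}
    (h : ∀ p : Ideal (NumberField.RingOfIntegers F), p.IsMaximal → p ≠ ⊥ →
      IntAt (hD hρ D) p E) : IsInt A.Q (fun _ => True) E := by
  have := isDedekind_of hV.1 F hF
  exact CMF.isInt_of_intAt (Q := A.Q) CMF.inj_int (facS hρ D S) (fun _ _ _ _ _ => trivial) h

/-- Integral sets are integral at every prime. -/
theorem Asm.intAt_of_isInt (A : Asm hV hρ F v₀ hv₀ D hN) {E : Λ → Prop}
    {p : Ideal (NumberField.RingOfIntegers F)} [hp : p.IsPrime]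
    (h : IsInt A.Q (fun _ => True) E) : IntAt (hD hρ D) p E :=
  CMF.IsInt.intAt CMF.inj_int (CMFP.mu_pos hV.1 F hF) h

include S in
/-- Characters of defect zero at `p` are isolated at `p`. -/
theorem Asm.intAt_defect (A : Asm hV hρ F v₀ hv₀ D hN)
    {p : Ideal (NumberField.RingOfIntegers F)} [hp : p.IsPrime] (l : Λ) (c : ℕ)
    (hc : Fintype.card G = d l * c) (hcp : (c : NumberField.RingOfIntegers F) ∉ p) :
    IntAt (hD hρ D) p (fun m => m = l) := by
  have := isDedekind_of hV.1 F hF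
  obtain ⟨T, hT⟩ := A.exists_T
  exact CMF.intAt_defect CMF.inj_int (facS hρ D S) A.Q (fun l => repR hρ l) (four_bij hρ) T hT l c
    hc hcp

include S in
/-- Common constituents exist only if the characteristic of `k` divides `|G| / d_l`. -/
theorem Asm.cst_defect (A : Asm hV hρ F v₀ hv₀ D hN) {l m : Λ} (hlm : l ≠ m) (c : ℕ)
    (hc : Fintype.card G = d l * c) {k : Type} [Field k]
    {φ : Lau (NumberField.RingOfIntegers F) (CMFP.Idx V) →+* k}
    (hφ : ∀ a, φ (mon a) = 1 → a = 0) {N : ℕ} (hN' : 0 < N)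
    {ψ : (hD hρ D).H →+* Matrix (Fin N) (Fin N) k} (hsm : ∀ a x, ψ (a • x) = φ a • ψ x)
    (h1 : ∀ x, (ψ x).rank ≤ ((hD hρ D).R l x).rank)
    (h2 : ∀ x, (ψ x).rank ≤ ((hD hρ D).R m x).rank) : (c : k) = 0 := by
  have := isDedekind_of hV.1 F hF
  obtain ⟨T, hT⟩ := A.exists_T
  exact CMF.cst_defect A.Q CMF.inj_int (facS hρ D S) (fun l => repR hρ l) (four_bij hρ) T hT hlm
    c hc hφ hN' hsm h1 h2

/-- No common constituents at `p`. -/
theorem Asm.intAt_of_no_common (A : Asm hV hρ F v₀ hv₀ D hN)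
    {p : Ideal (NumberField.RingOfIntegers F)} [hp : p.IsMaximal] (hp0 : p ≠ ⊥)
    {E E' : Λ → Prop} (hE : IntAt (hD hρ D) p E) (hFE : ∀ l, E' l → E l)
    (hno : ∀ l m, E' l → E m → ¬ E' m → A.Q.a l = A.Q.a m → ∀ (k : Type) [Field k]
      (φ : Lau (NumberField.RingOfIntegers F) (CMFP.Idx V) →+* k), (∀ a, φ (mon a) = 1 → a = 0) →
      (∀ z : NumberField.RingOfIntegers F,
        φ (algebraMap _ (Lau (NumberField.RingOfIntegers F) (CMFP.Idx V)) z) = 0 ↔ z ∈ p) →
      ∀ (N : ℕ) (ψ : (hD hρ D).H →+* Matrix (Fin N) (Fin N) k), 0 < N →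
      (∀ a x, ψ (a • x) = φ a • ψ x) →
      (∀ v, v ≠ 0 → Submodule.span k (Set.range fun x => ψ x *ᵥ v) = ⊤) →
      ψ A.Q.π = φ (mon (A.Q.a l)) • 1 →
      (∀ x, (ψ x).rank ≤ ((hD hρ D).R l x).rank) →
      (∀ x, (ψ x).rank ≤ ((hD hρ D).R m x).rank) → False) :
    IntAt (hD hρ D) p E' := by
  have := isDedekind_of hV.1 F hF
  exact CMF.intAt_of_no_common hp0 CMF.inj_int (CMFP.mu_pos hV.1 F hF) A.Q hE hFE hno

include S in
/-- A set `E'` inside an integral set `E` is integral if there is no common constituent of a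
character in `E'` and a character in `E ∖ E'`, modulo the primes of the ring of constants. -/
theorem Asm.isInt_of_no_common (A : Asm hV hρ F v₀ hv₀ D hN) {E E' : Λ → Prop}
    (hE : IsInt A.Q (fun _ => True) E) (hFE : ∀ l, E' l → E l)
    (hno : ∀ l m, E' l → E m → ¬ E' m → A.Q.a l = A.Q.a m → ∀ (k : Type) [Field k]
      (φ : Lau (NumberField.RingOfIntegers F) (CMFP.Idx V) →+* k), (∀ a, φ (mon a) = 1 → a = 0) →
      (∃ z : NumberField.RingOfIntegers F, z ≠ 0 ∧
        φ (algebraMap _ (Lau (NumberField.RingOfIntegers F) (CMFP.Idx V)) z) = 0) →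
      φ (hD hρ D).S = 0 →
      ∀ (N : ℕ) (ψ : (hD hρ D).H →+* Matrix (Fin N) (Fin N) k), 0 < N →
      (∀ a x, ψ (a • x) = φ a • ψ x) →
      (∀ v, v ≠ 0 → Submodule.span k (Set.range fun x => ψ x *ᵥ v) = ⊤) →
      ψ A.Q.π = φ (mon (A.Q.a l)) • 1 →
      (∀ x, (ψ x).rank ≤ ((hD hρ D).R l x).rank) →
      (∀ x, (ψ x).rank ≤ ((hD hρ D).R m x).rank) → False) :
    IsInt A.Q (fun _ => True) E' := by
  have := isDedekind_of hV.1 F hF
  exact CMF.isInt_of_no_common CMF.inj_int (CMFP.mu_pos hV.1 F hF) (facS hρ D S)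
    (fun _ _ _ _ _ => trivial) hE hFE hno

include S in
/-- The criterion on dimensions. -/
theorem Asm.isInt_of_dim (A : Asm hV hρ F v₀ hv₀ D hN) {E E' : Λ → Prop}
    (hE : IsInt A.Q (fun _ => True) E) (hFE : ∀ l, E' l → E l) {J : Type} [Fintype J]
    (P : J → (CMFP.Idx V →₀ ℤ) × (CMFP.Idx V →₀ ℤ)) (hP : ∀ j, (P j).1 ≠ (P j).2)
    (f : (hD hρ D).H) (hf : f * f = dlt (NumberField.RingOfIntegers F) P • f)
    (hf1 : ∀ l, E' l → ∃ j : ℕ, 0 < j ∧ (hD hρ D).X l f =
      (j : Lau (NumberField.RingOfIntegers F) (CMFP.Idx V)) * dlt _ P)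
    (hf0 : ∀ l, E l → ¬ E' l → (hD hρ D).X l f = 0)
    (hdim : ∀ l, E' l → ∀ (k : Type) [Field k]
      (φ : Lau (NumberField.RingOfIntegers F) (CMFP.Idx V) →+* k), (∀ a, φ (mon a) = 1 → a = 0) →
      ∀ (N : ℕ) (ψ : (hD hρ D).H →+* Matrix (Fin N) (Fin N) k), 0 < N →
      (∀ a x, ψ (a • x) = φ a • ψ x) → ψ A.Q.π = φ (mon (A.Q.a l)) • 1 → d l ≤ N) :
    IsInt A.Q (fun _ => True) E' := by
  have := isDedekind_of hV.1 F hF
  exact CMF.isInt_of_dim CMF.inj_int (CMFP.mu_pos hV.1 F hF) (facS hρ D S)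
    (fun _ _ _ _ _ => trivial) hE hFE P hP f hf hf1 hf0 hdim

end Main

end

end Pool.Agent.CMFn
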