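import Pool.Agent.CMFn.T6C
import Pool.Agent.CMFn.Asm

/-! Project CMFn, block T, module T6D: groups generated by one class of reflections of order two:
divisibility of the dimensions of the representations of the specialisations in a level. -/

set_option linter.unusedSectionVars false

namespace Pool.Agent.CMFn

open Matrix Pool.Agent
open Pool.Agent.CMF (HData KZData evL mon pairC stdHData Lau)

noncomputable section

namespace T6X

open G1 G3 G4

variable {n : ℕ} {G : Type} [Group G] [Fintype G] {V : G → Matrix (Fin n) (Fin n) ℂ}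

/-- Reflections of order two: `e_H = 2`. -/
theorem eH_two {N : SG n} [Fintype N] (hord : ∀ w : N, IsRefl w.1 → w * w = 1) (H : Arr N) :
    eH N H.1 = 2 := by
  obtain ⟨s, hs, hdet⟩ := exists_dist H
  have h2 := two_le_eH H
  have hpr := Complex.isPrimitiveRoot_exp (eH N H.1) (by omega)
  have hs1 : s ≠ 1 := by
    intro h1
    rw [h1] at hdet
    have h3 : (1 : ℂ) = Complex.exp (2 * Real.pi * Complex.I / eH N H.1) := by
      rw [← hdet]
      exact Matrix.det_one.symm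
    rw [← h3] at hpr
    have h5 := hpr.eq_orderOf
    rw [orderOf_one] at h5
    omega
  have hfix := LocMonX.fixL_eq H s hs hs1
  have hr : IsRefl s.1 := by
    obtain ⟨K, t, htN, ht, hK⟩ := H
    unfold IsRefl
    rw [LocMonX.rank_eq_of_fixL_eq s.1 t (hfix.trans hK)]
    exact ht
  have hss := hord s hr
  have h3 : s.1.1.det ^ 2 = 1 := by
    rw [pow_two, ← Matrix.det_mul]
    have h4 : s.1.1 * s.1.1 = 1 := congrArg (fun z : N => z.1.1) hss
    rw [h4, Matrix.det_one]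
  rw [hdet] at h3
  have h4 := hpr.dvd_of_pow_eq_one 2 h3
  exact le_antisymm (Nat.le_of_dvd (by norm_num) h4) h2

section Count

variable {N : SG n} [Fintype N]

/-- For reflections of order two, the reflections correspond to the hyperplanes. -/
theorem refl_equiv (hord : ∀ w : N, IsRefl w.1 → w * w = 1) (w w' : N) (hw : IsRefl w.1)
    (hw' : IsRefl w'.1) (h : fixL w.1 = fixL w'.1) : w = w' := by
  have hdet : ∀ w : N, IsRefl w.1 → w.1.1.det = -1 := by
    intro w hw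
    have h1 : w.1.1.det ^ 2 = 1 := by
      rw [pow_two, ← Matrix.det_mul]
      have h4 : w.1.1 * w.1.1 = 1 := congrArg (fun z : N => z.1.1) (hord w hw)
      rw [h4, Matrix.det_one]
    have h1' : (w.1.1.det - 1) * (w.1.1.det + 1) = 0 := by linear_combination h1
    rcases mul_eq_zero.1 h1' with h2 | h2
    · exfalso
      replace h2 : w.1.1.det = 1 := sub_eq_zero.1 h2
      have h3 : w = 1 := by
        refine refl_ext (⟨fixL w.1, w.1, w.2, hw, rfl⟩ : Arr N) w 1 ?_ ?_ ?_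
        · intro v hv
          exact (mem_fix w.1 v).1 hv
        · intro v _
          show (1 : Matrix (Fin n) (Fin n) ℂ) *ᵥ v = v
          rw [Matrix.one_mulVec]
        · rw [h2]
          exact Matrix.det_one.symm
      unfold IsRefl at hw
      rw [h3] at hw
      simp at hw
    · exact eq_neg_of_add_eq_zero_left h2
  refine refl_ext (⟨fixL w.1, w.1, w.2, hw, rfl⟩ : Arr N) w w' ?_ ?_ ?_
  · intro v hv
    exact (mem_fix w.1 v).1 hv
  · intro v hv
    have hv' : v ∈ fixL w'.1 := by rw [← h]; exact hv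
    exact (mem_fix w'.1 v).1 hv'
  · rw [hdet w hw, hdet w' hw']

open Classical in
/-- Sums over the reflections. -/
theorem sum_refl (hord : ∀ w : N, IsRefl w.1 → w * w = 1) (c : ℂ) :
    ∑ w : N, (if IsRefl w.1 then c else 0) = c * Nat.card (Arr N) := by
  let f : {w : N // IsRefl w.1} → Arr N := fun w => ⟨fixL w.1.1, w.1.1, w.1.2, w.2, rfl⟩
  have hb : Function.Bijective f := by
    constructor
    · intro w w' h
      exact Subtype.ext (refl_equiv hord w.1 w'.1 w.2 w'.2 (congrArg Subtype.val h))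
    · rintro ⟨H, s, hs, hr, rfl⟩
      exact ⟨⟨⟨s, hs⟩, hr⟩, rfl⟩
  rw [← Finset.sum_filter, Finset.sum_const, nsmul_eq_mul, mul_comm]
  congr 2
  rw [← Nat.card_eq_of_bijective f hb, Nat.card_eq_fintype_card, Fintype.card_subtype]

/-- The exponent of the full twist. -/
theorem cInf_two (hord : ∀ w : N, IsRefl w.1 → w * w = 1) (H₀ : Arr N)
    (horb : ∀ H : Arr N, ∃ g : N, DunBX.actH g H₀ = H) (k : Idx N → ℂ) {ι : Type} [Fintype ι]
    [DecidableEq ι] (ρ : N →* Matrix ι ι ℂ) (t : ℂ)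
    (ht : ∀ w : N, IsRefl w.1 → (ρ w).trace = t) :
    cInf ρ k = (k (idx H₀ 0) - k (idx H₀ 1)) * t * Nat.card (Arr N) / Fintype.card ι +
      (k (idx H₀ 0) + k (idx H₀ 1)) * Nat.card (Arr N) := by
  classical
  have hidx : ∀ (H : Arr N) (j : ℤ), idx H j = idx H₀ j := by
    intro H j
    obtain ⟨g, rfl⟩ := horb H
    exact DunBX.idx_act g H₀ j
  have hdet : ∀ w : N, IsRefl w.1 → w.1.1.det = -1 := by
    intro w hw
    have h1 : w.1.1.det ^ 2 = 1 := by
      rw [pow_two, ← Matrix.det_mul]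
      have h4 : w.1.1 * w.1.1 = 1 := congrArg (fun z : N => z.1.1) (hord w hw)
      rw [h4, Matrix.det_one]
    have h1' : (w.1.1.det - 1) * (w.1.1.det + 1) = 0 := by linear_combination h1
    rcases mul_eq_zero.1 h1' with h2 | h2
    · exfalso
      replace h2 : w.1.1.det = 1 := sub_eq_zero.1 h2
      have h3 : w = 1 := by
        refine refl_ext (⟨fixL w.1, w.1, w.2, hw, rfl⟩ : Arr N) w 1 ?_ ?_ ?_
        · intro v hv
          exact (mem_fix w.1 v).1 hv
        · intro v _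
          show (1 : Matrix (Fin n) (Fin n) ℂ) *ᵥ v = v
          rw [Matrix.one_mulVec]
        · rw [h2]
          exact Matrix.det_one.symm
      unfold IsRefl at hw
      rw [h3] at hw
      simp at hw
    · exact eq_neg_of_add_eq_zero_left h2
  rw [cInf_apply]
  have h1 : ∀ w : N, cr k w * (ρ w).trace =
      if IsRefl w.1 then (k (idx H₀ 0) - k (idx H₀ 1)) * t else 0 := by
    intro w
    by_cases hw : IsRefl w.1
    · obtain ⟨H, hH⟩ : ∃ H : Arr N, fixL w.1 = H.1 := ⟨⟨fixL w.1, w.1, w.2, hw, rfl⟩, rfl⟩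
      rw [if_pos hw, ht w hw, LocMonX.cr_eq k H w hH, eH_two hord, Finset.sum_range_succ,
        Finset.sum_range_one, hidx H, hidx H ((1 : ℕ) : ℤ), hdet w hw]
      push_cast
      ring
    · rw [if_neg hw]
      unfold cr
      rw [dif_neg hw, zero_mul]
  have h2 : ∀ H : Arr N, cs k H = k (idx H₀ 0) + k (idx H₀ 1) := by
    intro H
    unfold cs
    rw [eH_two hord, Finset.sum_range_succ, Finset.sum_range_one, hidx H, hidx H ((1 : ℕ) : ℤ)]
    rfl
  have h3 : (Fintype.card (Arr N) : ℂ) = Nat.card (Arr N) := by rw [Nat.card_eq_fintype_card]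
  rw [Finset.sum_congr rfl fun w _ => h1 w, sum_refl hord, Finset.sum_congr rfl fun H _ => h2 H,
    Finset.sum_const, Finset.card_univ, nsmul_eq_mul, h3]
  ring

end Count

section Main

/-- The two indices are different. -/
theorem idx_ne (hord : ∀ w : G, CMFP.IsRefl V w → w * w = 1) (hR : CMFP.IsReflGroup V)
    (s₀ : {s : G // CMFP.IsRefl V s}) :
    CMFP.idx V s₀.1 s₀.2 1 ≠ CMFP.idx V s₀.1 s₀.2 0 := by
  have hordN : ∀ w : img hR.1, IsRefl w.1 → w * w = 1 := by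
    rintro ⟨_, g, rfl⟩ hw
    have h1 := hord g ((isRefl_iff hR.1 g).1 hw)
    apply Subtype.ext
    show toGL hR.1 g * toGL hR.1 g = 1
    rw [← map_mul, h1, map_one]
  have hH : ∀ s : {s : G // CMFP.IsRefl V s}, CMFP.ordH V s.1 = 2 := fun s => by
    rw [ordH_eq hR.1 hR.2.1 s, eH_two hordN]
  let f : CMFP.Idx V → ZMod 2 := Quot.lift (fun a => ((a.2 : ℤ) : ZMod 2)) (by
    rintro a b ⟨-, h⟩
    rw [hH a.1] at h
    have h2 : ((b.2 - a.2 : ℤ) : ZMod 2) = 0 := (ZMod.intCast_zmod_eq_zero_iff_dvd _ 2).2 h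
    rw [Int.cast_sub, sub_eq_zero] at h2
    exact h2.symm)
  intro h
  have h1 := congrArg f h
  have h2 : ((1 : ℤ) : ZMod 2) = ((0 : ℤ) : ZMod 2) := h1
  revert h2
  decide

variable {Λ : Type} [Fintype Λ] {d : Λ → ℕ} {ρ : ∀ l, G → Matrix (Fin (d l)) (Fin (d l)) ℂ}
  {hV : CMFP.IsReflGroup V} {hρ : CMFP.IsIrrFam d ρ} {F : Type} [Field F] [Algebra F ℂ]
  {v₀ : Fin n → ℂ} {hv₀ : CMFP.Reg V v₀} {D : CMFP.StdHk F V v₀ d}
  {hN : ∃ s ∈ img hV.1, IsRefl s} [Fintype (CMFP.Idx V)]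

/-- Dimensions of the representations of the specialisations on which the full twist acts as on
the character `l`. -/
theorem dim_two (A : Asm hV hρ F v₀ hv₀ D hN) (hM : 0 < CMFP.mu (NumberField.RingOfIntegers F))
    (hord : ∀ w : G, CMFP.IsRefl V w → w * w = 1)
    (hcls : ∀ s t : G, CMFP.IsRefl V s → CMFP.IsRefl V t → ∃ g, t = g * s * g⁻¹)
    (s₀ : {s : G // CMFP.IsRefl V s}) (l : Λ) (t : ℤ) (ht : (ρ l s₀.1).trace = t)
    {k : Type} [Field k] {m : ℕ} (φ : Lau (NumberField.RingOfIntegers F) (CMFP.Idx V) →+* k)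
    (hφ : ∀ a, φ (mon a) = 1 → a = 0)
    (ψ : (stdHData D fun l => (hρ.1 l).1).H →+* Matrix (Fin m) (Fin m) k)
    (hψ : ∀ (a : Lau (NumberField.RingOfIntegers F) (CMFP.Idx V)) h, ψ (a • h) = φ a • ψ h)
    (hθ : ψ A.Q.π = φ (mon (A.Q.a l)) • 1) :
    ∃ a : ℕ, a ≤ m ∧ (m : ℤ) * (d l + t) = 2 * d l * a := by
  classical
  have hordN : ∀ w : img hV.1, IsRefl w.1 → w * w = 1 := by
    rintro ⟨_, g, rfl⟩ hw
    have h1 := hord g ((isRefl_iff hV.1 g).1 hw)
    apply Subtype.ext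
    show toGL hV.1 g * toGL hV.1 g = 1
    rw [← map_mul, h1, map_one]
  have he : CMFP.ordH V s₀.1 = 2 := by rw [ordH_eq hV.1 hV.2.1 s₀, eH_two hordN]
  have horb : ∀ s, CMFP.IsRefl V s → ∃ g : G, CMFP.Fixes V s (g * s₀.1 * g⁻¹) := by
    intro s hs
    obtain ⟨g, hg⟩ := hcls s₀.1 s s₀.2 hs
    exact ⟨g, fun v hv => by rw [← hg]; exact hv⟩
  have hζ : algebraMap (NumberField.RingOfIntegers F) ℂ (-1) = CMFP.rot V s₀.1 1 := by
    unfold CMFP.rot
    rw [he, map_neg, map_one, Complex.ofReal_one, mul_one]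
    have : (2 * Real.pi * Complex.I / ((2 : ℕ) : ℂ) : ℂ) = Real.pi * Complex.I := by
      push_cast; ring
    rw [this, Complex.exp_pi_mul_I]
  have hθ' : ψ (CMFP.hT (NumberField.RingOfIntegers F) (CMFP.var _) (piBP hV.1.1 hv₀)) =
      φ (CMFP.mono _ (A.Q.a l)) • 1 := by
    have h1 := A.hpi
    rw [h1] at hθ
    exact hθ
  obtain ⟨a, ha1, ha2⟩ := dim_rel (Z := NumberField.RingOfIntegers F) CMF.inj_int hV hv₀ s₀ horb
    (-1) hζ φ hφ ψ hψ (A.Q.a l) hθ'
  rw [he, Finset.sum_range_succ, Finset.sum_range_one] at ha1 ha2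
  -- evaluate at the index `(Ω, 0)`
  have hne := idx_ne hord hV s₀
  set i₀ := CMFP.idx V s₀.1 s₀.2 0 with hi₀
  set i₁ := CMFP.idx V s₀.1 s₀.2 1 with hi₁
  set Ar := Nat.card (Arr (img hV.1)) with hAr
  set μ := CMFP.mu (NumberField.RingOfIntegers F) with hμ
  have h1 : (m : ℤ) * A.Q.a l i₀ = (a 0 * (μ * (2 * Ar)) : ℕ) := by
    have h2 := congrArg (fun z : CMFP.Idx V →₀ ℤ => z i₀) ha2
    have e0 : CMFP.idx V s₀.1 s₀.2 ((0 : ℕ) : ℤ) = i₀ := rfl
    have e1 : CMFP.idx V s₀.1 s₀.2 ((1 : ℕ) : ℤ) = i₁ := rfl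
    simp only [Finsupp.add_apply, Finsupp.smul_apply] at h2
    rw [e0, e1, Finsupp.single_eq_same, Finsupp.single_eq_of_ne (fun h => hne h.symm)] at h2
    simpa using h2
  -- the exponent of `l`
  have hdl : (d l : ℂ) ≠ 0 := Nat.cast_ne_zero.2 (hρ.1 l).1.ne'
  have htr : ∀ w : img hV.1, IsRefl w.1 → ((rN hV hρ l) w).trace = (t : ℂ) := by
    rintro ⟨_, g, rfl⟩ hw
    obtain ⟨h, hh⟩ := hcls s₀.1 g s₀.2 ((isRefl_iff hV.1 g).1 hw)
    have h2 : (rN hV hρ l) ⟨toGL hV.1 g, g, rfl⟩ = ρ l g :=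
      G4.repN_iso hV.1 hV.2.1 (ρ l) (hρ.1 l).2 g
    rw [h2, hh, (hρ.1 l).2.2, (hρ.1 l).2.2, Matrix.trace_mul_comm, ← mul_assoc, ← (hρ.1 l).2.2,
      inv_mul_cancel, (hρ.1 l).2.1, one_mul, ht]
  have h3 := A.ha l (Pi.single i₀ 1)
  rw [cInf_two hordN (lineOf hV.1 s₀) (orb_of hV.1 hV.2.1 s₀ horb) _ (rN hV hρ l) t htr,
    Fintype.card_fin] at h3
  have k0 : kN hV.1 hV.2.1 (Pi.single i₀ 1) (idx (lineOf hV.1 s₀) 0) = 1 := by
    have h4 := kN_sharp hV.1 hV.2.1 (Pi.single i₀ 1) s₀.1 s₀.2 0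
    rw [sharp_idx, neg_zero] at h4
    rw [show lineOf hV.1 s₀ = lineOf hV.1 ⟨s₀.1, s₀.2⟩ from rfl, h4]
    exact Pi.single_eq_same _ _
  have k1 : kN hV.1 hV.2.1 (Pi.single i₀ 1) (idx (lineOf hV.1 s₀) 1) = 0 := by
    have h4 := kN_sharp hV.1 hV.2.1 (Pi.single i₀ 1) s₀.1 s₀.2 (-1)
    rw [sharp_idx, neg_neg] at h4
    have h5 : CMFP.idx V s₀.1 s₀.2 (-1) = i₁ := by
      refine Quot.sound ⟨⟨1, ?_⟩, ?_⟩
      · intro v hv
        rw [one_mul, inv_one, mul_one]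
        exact hv
      · show ((CMFP.ordH V s₀.1 : ℕ) : ℤ) ∣ 1 - (-1)
        rw [he]
        norm_num
    rw [show lineOf hV.1 s₀ = lineOf hV.1 ⟨s₀.1, s₀.2⟩ from rfl, h4, h5]
    exact Pi.single_eq_of_ne hne _
  rw [k0, k1] at h3
  have h6 : pairC (A.Q.a l) (Pi.single i₀ (1 : ℂ)) = ((A.Q.a l i₀ : ℤ) : ℂ) := by
    rw [CMF.pairC_eq_sum, Finset.sum_eq_single i₀]
    · rw [Pi.single_eq_same, mul_one]
    · intro i _ hi
      rw [Pi.single_eq_of_ne hi, mul_zero]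
    · intro h
      exact absurd (Finset.mem_univ _) h
  rw [h6] at h3
  have h7 : (A.Q.a l i₀ : ℤ) * d l = μ * Ar * (t + d l) := by
    have h8 : ((A.Q.a l i₀ : ℤ) : ℂ) * d l = μ * Ar * (t + d l) := by
      rw [h3]
      field_simp
      ring
    exact_mod_cast h8
  have hA0 : 0 < Ar := by
    rw [hAr]
    have : Nonempty (Arr (img hV.1)) := ⟨lineOf hV.1 s₀⟩
    exact Nat.card_pos
  refine ⟨a 0, by omega, ?_⟩
  have h9 : ((μ * Ar : ℕ) : ℤ) ≠ 0 := by
    have : 0 < μ * Ar := Nat.mul_pos hM hA0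
    exact_mod_cast this.ne'
  apply mul_left_cancel₀ h9
  push_cast at h1 ⊢
  linear_combination (d l : ℤ) * h1 - (m : ℤ) * h7

/-- The divisibility. -/
theorem dvd_two (A : Asm hV hρ F v₀ hv₀ D hN) (hM : 0 < CMFP.mu (NumberField.RingOfIntegers F))
    (hord : ∀ w : G, CMFP.IsRefl V w → w * w = 1)
    (hcls : ∀ s t : G, CMFP.IsRefl V s → CMFP.IsRefl V t → ∃ g, t = g * s * g⁻¹)
    (s₀ : {s : G // CMFP.IsRefl V s}) (l : Λ) (t : ℤ) (ht : (ρ l s₀.1).trace = t) (q c : ℕ)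
    (hq : 2 * d l = q * c) (hc : ((c : ℤ) ∣ d l + t)) (hqc : IsCoprime (q : ℤ) ((d l + t) / c))
    {k : Type} [Field k] {m : ℕ} (φ : Lau (NumberField.RingOfIntegers F) (CMFP.Idx V) →+* k)
    (hφ : ∀ a, φ (mon a) = 1 → a = 0)
    (ψ : (stdHData D fun l => (hρ.1 l).1).H →+* Matrix (Fin m) (Fin m) k)
    (hψ : ∀ (a : Lau (NumberField.RingOfIntegers F) (CMFP.Idx V)) h, ψ (a • h) = φ a • ψ h)
    (hθ : ψ A.Q.π = φ (mon (A.Q.a l)) • 1) : q ∣ m := by
  obtain ⟨a, -, ha⟩ := dim_two A hM hord hcls s₀ l t ht φ hφ ψ hψ hθ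
  obtain ⟨u, hu⟩ := hc
  have hdl := (hρ.1 l).1
  have hc0 : (c : ℤ) ≠ 0 := by
    intro h
    have : c = 0 := by exact_mod_cast h
    rw [this, mul_zero] at hq
    omega
  have h1 : ((d l : ℤ) + t) / c = u := by
    rw [hu, Int.mul_ediv_cancel_left _ hc0]
  rw [h1] at hqc
  have hq' : (2 : ℤ) * d l = q * c := by exact_mod_cast hq
  have h2 : (m : ℤ) * u = q * a := by
    apply mul_left_cancel₀ hc0
    rw [hu, hq'] at ha
    linear_combination ha
  have h3 : (q : ℤ) ∣ (m : ℤ) * u := ⟨a, h2⟩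
  exact_mod_cast hqc.dvd_of_dvd_mul_right h3

end Main

end T6X

end

end Pool.Agent.CMFn
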