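import Pool.Agent.CMFn.MDimDefs
import Pool.Agent.CMFn.ModI
import Pool.Agent.CMFn.T6D
import Pool.Agent.CMFn.QComb
import Pool.Agent.CMFn.MartSplit

/-! Project CMFn: levels which are cut into two parts by the multiplicity of an extreme character
and by the dimensions of the modules of the specialisations. -/

set_option linter.unusedSectionVars false

namespace Pool.Agent.CMFn

open Matrix Polynomial G1 G4 Pool.Agent QFinX
open Pool.Agent.CMF (HData KZData Lau mon pair pairC evL TwFam IsInt stdHData dlt)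

noncomputable section

section Main

variable {n : ℕ} {G : Type} [Group G] [Fintype G] {V : G → Matrix (Fin n) (Fin n) ℂ}
  {Λ : Type} [Fintype Λ] {d : Λ → ℕ} {ρ : ∀ l, G → Matrix (Fin (d l)) (Fin (d l)) ℂ}
  {hV : CMFP.IsReflGroup V} {hρ : CMFP.IsIrrFam d ρ} {F : Type} [Field F] [Algebra F ℂ]
  {v₀ : Fin n → ℂ} {hv₀ : CMFP.Reg V v₀} {D : CMFP.StdHk F V v₀ d}
  {hN : ∃ s ∈ img hV.1, IsRefl s} [Fintype (CMFP.Idx V)]

open Classical in
/-- The element of the Hecke algebra which belongs to an extreme character at `p`. -/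
theorem Asm.exists_f (A : Asm hV hρ F v₀ hv₀ D hN)
    (hM : 0 < CMFP.mu (NumberField.RingOfIntegers F)) {s₀ : G} (h : OneClass V s₀)
    (p : Fin n → ℂ) (σ : Bool) :
    ∃ (J : Type) (_ : Fintype J) (P : J → (CMFP.Idx V →₀ ℤ) × (CMFP.Idx V →₀ ℤ)) (f : (hD hρ D).H)
      (k : Λ → ℕ), (∀ j, (P j).1 ≠ (P j).2) ∧
      f * f = dlt (NumberField.RingOfIntegers F) P • f ∧ ∀ l : Λ,
        (hD hρ D).X l f = (k l : Lau (NumberField.RingOfIntegers F) (CMFP.Idx V)) * dlt _ P ∧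
        (k l : ℂ) = psum (repHom hV.1) p σ (mr hρ l) / Nat.card (WP (repHom hV.1) p) := by
  obtain ⟨Cs, c, hc, hCs, hm⟩ := exists_ext hV hρ h p σ
  obtain ⟨T, hE', hG, hr⟩ := (A.refl2 hM h).exists_tw hM p Cs hCs
  set e : Fin 1 → (CMFP.Idx V →₀ ℤ) := fun _ =>
    exq (CMFP.mu (NumberField.RingOfIntegers F)) (nP (img hV.1) p) (CMFP.idx V s₀ h.refl 0)
      (CMFP.idx V s₀ h.refl 1) c with he
  have hmem : ∀ i, e i ∈ T.E i := by
    intro i
    rw [hE']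
    exact Finset.mem_image_of_mem _ hc
  have hne : (∏ c' ∈ Cs.erase c, ((c : ℂ) - c')) ≠ 0 := by
    rw [Finset.prod_ne_zero_iff]
    intro c' hc' h
    have h1 : (c : ℂ) = c' := sub_eq_zero.1 h
    have h2 : c = c' := by exact_mod_cast h1
    exact (Finset.ne_of_mem_erase hc') h2.symm
  choose k hk hX using fun l => T.X_f CMF.inj_int hM e hmem _ hG l
  refine ⟨(Σ i : Fin 1, {a // a ∈ (T.E i).erase (e i)}), inferInstance,
    (fun q => (e q.1, q.2.1)), T.f e, k, ?_, ?_, fun l => ⟨?_, ?_⟩⟩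
  · rintro ⟨i, a, ha⟩
    exact (Finset.ne_of_mem_erase ha).symm
  · rw [← T.del_dlt e]
    exact T.f_sq CMF.inj_int hM e hmem
  · rw [← T.del_dlt e]
    exact hX l
  · rw [← hk l, hr c hc l]
    have h1 := hm l
    have h2 : (aeval (zP ((A.refl2 hM h).ρ l) p) (∏ c' ∈ Cs.erase c, (X - C (c' : ℂ)))).trace =
      psum (repHom hV.1) p σ (mr hρ l) / Nat.card (WP (repHom hV.1) p) *
          ∏ c' ∈ Cs.erase c, ((c : ℂ) - c') := h1
    rw [h2, mul_comm, mul_assoc, mul_inv_cancel₀ hne, mul_one]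

/-- The part of the level of `l₀` in `Y` is integral. -/
theorem Asm.isInt_dimY (A : Asm hV hρ F v₀ hv₀ D hN)
    (hF : (algebraMap F ℂ).fieldRange = Subfield.closure (Set.range fun g => (V g).trace))
    (S : CMFP.SchurForm F D.schurElt)
    (hsq : ∀ s, CMFP.IsRefl V s → s * s = 1)
    (hone : ∀ s t, CMFP.IsRefl V s → CMFP.IsRefl V t → ∃ g : G, g * s * g⁻¹ = t)
    {Y : MRep G → Prop} (hY : DimY (repHom hV.1) Y) (l₀ : Λ) (hl₀ : Y (mr hρ l₀)) :
    IsInt A.Q (fun _ => True) (fun l : Λ => A.Q.a l₀ = A.Q.a l ∧ Y (mr hρ l)) := by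
  classical
  have hM := CMFP.mu_pos hV.1 F hF
  obtain ⟨s₀, h⟩ := exists_oneClass hV hN hsq hone
  obtain ⟨p, σ, t, -, -, h3⟩ := hY (mr hρ l₀) (isIrr_mr hρ l₀) hl₀
  obtain ⟨J, hJ, P, f, k, hP, hf, hfk⟩ := A.exists_f hM h p σ
  have hcard : (Nat.card (WP (repHom hV.1) p) : ℂ) ≠ 0 := Nat.cast_ne_zero.2 Nat.card_pos.ne'
  have hlev : ∀ l : Λ, A.Q.a l₀ = A.Q.a l → (0 < k l ↔ Y (mr hρ l)) := by
    intro l hl
    rw [← (h3 (mr hρ l) (isIrr_mr hρ l) (A.level hM l₀ l hl)).1]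
    constructor
    · intro h4 h5
      have h6 := (hfk l).2
      rw [h5, zero_div] at h6
      have h7 : k l = 0 := by exact_mod_cast h6
      omega
    · intro h4
      rw [Nat.pos_iff_ne_zero]
      intro h5
      have h6 := (hfk l).2
      rw [h5, Nat.cast_zero] at h6
      rcases div_eq_zero_iff.1 h6.symm with h7 | h7
      · exact h4 h7
      · exact hcard h7
  refine A.isInt_of_dim hF S (A.isInt_a l₀) (fun l hl => hl.1) P hP f hf ?_ ?_ ?_
  · intro l hl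
    exact ⟨k l, (hlev l hl.1).2 hl.2, (hfk l).1⟩
  · intro l hl hl'
    have h4 : k l = 0 := by
      by_contra h5
      exact hl' ⟨hl, (hlev l hl).1 (Nat.pos_of_ne_zero h5)⟩
    rw [(hfk l).1, h4, Nat.cast_zero, zero_mul]
  · intro l hl K _ φ hφ m ψ hm hsm hθ
    obtain ⟨p', σ', t', h5, h6, -⟩ := hY (mr hρ l) (isIrr_mr hρ l) hl.2
    obtain ⟨e, he1, he2⟩ := T6X.dim_two A hM hsq
      (fun s t hs ht => by
        obtain ⟨g, hg⟩ := hone s t hs ht
        exact ⟨g, hg.symm⟩) ⟨s₀, h.refl⟩ l t' (h5 s₀ h.refl) φ hφ ψ hsm hθ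
    exact h6 m e hm he1 he2

/-- The theorem when the levels are connected by links inside `Y` and outside `Y`, up to `X`. -/
theorem rank_splitXY (A : Asm hV hρ F v₀ hv₀ D hN) (X Y : MRep G → Prop)
    (hconn : ConnXY (repHom hV.1) X Y)
    (hF : (algebraMap F ℂ).fieldRange = Subfield.closure (Set.range fun g => (V g).trace))
    (S : CMFP.SchurForm F D.schurElt) (k κ : CMFP.Idx V → ℂ)
    (hκ : ∀ s hs j, κ (CMFP.idx V s hs j) = k (CMFP.idx V s hs (-j)))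
    (m : CMFP.Idx V → ℤ) (hm : CMFP.SameEssential S κ m) (χ ψ : Λ)
    (h : CMFP.CMSep V (CMFP.cPar V V k) (ρ χ) (ρ ψ))
    (hX : ∀ l : Λ, X (mr hρ l) → IsInt A.Q (fun _ => True) (fun l' => l' = l))
    (hY : ∀ l₀ : Λ, Y (mr hρ l₀) →
      IsInt A.Q (fun _ => True) (fun l : Λ => A.Q.a l₀ = A.Q.a l ∧ Y (mr hρ l))) :
    D.RouSep m χ ψ := by
  classical
  have hM := CMFP.mu_pos hV.1 F hF
  have hXc : IsInt A.Q (fun _ => True) (fun l : Λ => ¬ X (mr hρ l)) := by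
    refine (CMF.isInt_iUnion (Finset.univ.filter fun l : Λ => X (mr hρ l))
      (fun (l : Λ) (l' : (stdHData D fun l => (hρ.1 l).1).Λ) => l' = l)
      (fun l hl => hX l (Finset.mem_filter.1 hl).2)).compl.congr fun l => ?_
    constructor
    · intro h1 h2
      exact h1 ⟨l, Finset.mem_filter.2 ⟨Finset.mem_univ _, h2⟩, rfl⟩
    · rintro h1 ⟨i, hi, rfl⟩
      exact h1 (Finset.mem_filter.1 hi).2
  have hYc : ∀ l₀ : Λ,
      IsInt A.Q (fun _ => True) (fun l : Λ => A.Q.a l₀ = A.Q.a l ∧ ¬ Y (mr hρ l)) := by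
    intro l₀
    by_cases h1 : ∃ l₁ : Λ, A.Q.a l₀ = A.Q.a l₁ ∧ Y (mr hρ l₁)
    · obtain ⟨l₁, h2, h3⟩ := h1
      refine ((A.isInt_a l₀).inter (hY l₁ h3).compl).congr fun l => ?_
      constructor
      · rintro ⟨h4, h5⟩
        exact ⟨h4, fun h6 => h5 ⟨h2.symm.trans h4, h6⟩⟩
      · rintro ⟨h4, h5⟩
        exact ⟨h4, fun h6 => h5 h6.2⟩
    · refine (A.isInt_a l₀).congr fun l => ?_
      constructor
      · intro h4
        exact ⟨h4, fun h5 => h1 ⟨l, h4, h5⟩⟩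
      · exact fun h4 => h4.1
  refine rank_sep A hF S k κ hκ m hm χ ψ h (fun _ => True) fun l₀ => ?_
  by_cases h0 : X (mr hρ l₀)
  · exact ⟨fun l => l = l₀, rfl, fun l hl => by rw [hl]; exact Relation.EqvGen.refl _, hX l₀ h0⟩
  by_cases h1 : Y (mr hρ l₀)
  · refine ⟨fun l => (A.Q.a l₀ = A.Q.a l ∧ Y (mr hρ l)) ∧ ¬ X (mr hρ l), ⟨⟨rfl, h1⟩, h0⟩,
      fun l hl => ?_, (hY l₀ h1).inter hXc⟩
    exact hconn _ _ (isIrr_mr hρ l₀) (isIrr_mr hρ l) (A.level hM l₀ l hl.1.1)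
      (iff_of_true h1 hl.1.2) h0 hl.2
  · refine ⟨fun l => (A.Q.a l₀ = A.Q.a l ∧ ¬ Y (mr hρ l)) ∧ ¬ X (mr hρ l), ⟨⟨rfl, h1⟩, h0⟩,
      fun l hl => ?_, (hYc l₀).inter hXc⟩
    exact hconn _ _ (isIrr_mr hρ l₀) (isIrr_mr hρ l) (A.level hM l₀ l hl.1.1)
      (iff_of_false h1 hl.1.2) h0 hl.2

end Main

/-- Martino's conjecture, `K = ℂ`, for groups with one class of reflections, of order two, whose
levels are cut by `Y` and connected by links inside `Y` and outside `Y`, up to the isolated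
characters. -/
theorem mart_splitY {n : ℕ} (hn : 2 ≤ n) {G : Type} [Group G] [Fintype G]
    (W : G → Matrix (Fin n) (Fin n) ℂ) (hW : CMFP.IsReflGroup W)
    (hsq : ∀ s, CMFP.IsRefl W s → s * s = 1)
    (hone : ∀ s t, CMFP.IsRefl W s → CMFP.IsRefl W t → ∃ g : G, g * s * g⁻¹ = t)
    (Y : MRep G → Prop) (hY : DimY (repHom hW.1) Y)
    (hconn : ConnXY (repHom hW.1) (IsolC (repHom hW.1)) Y) : Mart W := by
  intro Λ _ d ρ hρ F _ _ hF v₀ hv₀ D hD S k κ hκ m hm χ ψ h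
  classical
  have hfin : Finite (CMFP.Idx W) := CMF.idx_finite hW.1
  have : Fintype (CMFP.Idx W) := Fintype.ofFinite _
  obtain ⟨A⟩ := exists_asm hW hρ hF hv₀ D hD (exists_refl hn hW)
  exact rank_splitXY A _ Y hconn hF S k κ hκ m hm χ ψ h
    (fun l hl => A.isInt_isolC (CMFP.mu_pos hW.1 F hF) hsq hone l hl)
    fun l₀ hl₀ => A.isInt_dimY hF S hsq hone hY l₀ hl₀

end

end Pool.Agent.CMFn
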