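import Pool.Agent.CMFn.KZ
import Pool.Agent.CMFn.Conn
import Pool.Agent.CMFn.DunE

/-! Project CMF, every rank, module MG: polynomial sections of the flat subbundle generated by a stable
subspace form a submodule for the operators `x`, `g`, `D_y` (parameter `t = 1`). -/

namespace Pool.Agent.CMFn

open Pool.Agent.CMF (LineHol)

open Matrix

noncomputable section

variable {r : ℕ} {N : SG r} [Fintype N] {ι : Type} [Fintype ι] [DecidableEq ι]

variable (hN : ∃ s ∈ N, IsRefl s)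

variable {v₀ : VReg N}

/-- Polynomial sections of the flat subbundle generated by `Γ`. -/
def MG (hN : ∃ s ∈ N, IsRefl s) (ρ : N →* Matrix ι ι ℂ) (k : Idx N → ℂ) (v₀ : VReg N)
    (Γ : Submodule ℂ (ι → ℂ)) : Submodule ℂ (PolE r ι) where
  carrier := {f | ∀ (w : VReg N) (q : Path v₀ w), ∃ x ∈ Γ,
    evE f w.1 = PP hN ρ k q.toContinuousMap *ᵥ x}
  add_mem' := by
    intro f g hf hg w q
    obtain ⟨x, hx, ex⟩ := hf w q
    obtain ⟨x', hx', ex'⟩ := hg w q
    refine ⟨x + x', Γ.add_mem hx hx', ?_⟩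
    rw [DunEX.evE_add, ex, ex', Matrix.mulVec_add]
  zero_mem' := by
    intro w q
    refine ⟨0, Γ.zero_mem, ?_⟩
    rw [Matrix.mulVec_zero]
    funext i
    exact map_zero _
  smul_mem' := by
    intro c f hf w q
    obtain ⟨x, hx, ex⟩ := hf w q
    refine ⟨c • x, Γ.smul_mem c hx, ?_⟩
    rw [DunEX.evE_smul, ex, Matrix.mulVec_smul]

namespace MGX

/-- Derivative of a polynomial along a line. -/
lemma evalD (w y : Fin r → ℂ) (p : MvPolynomial (Fin r) ℂ) :
    HasDerivAt (fun t : ℂ => MvPolynomial.eval (w + t • y) p)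
      (∑ a, y a * MvPolynomial.eval w (MvPolynomial.pderiv a p)) 0 := by
  induction p using MvPolynomial.induction_on with
  | C c =>
    have h1 : (∑ a, y a * MvPolynomial.eval w (MvPolynomial.pderiv a
        (MvPolynomial.C c : MvPolynomial (Fin r) ℂ))) = 0 := by simp
    rw [h1]
    simp only [MvPolynomial.eval_C]
    exact hasDerivAt_const _ _
  | add p q hp hq =>
    have h1 : (∑ a, y a * MvPolynomial.eval w (MvPolynomial.pderiv a (p + q))) =
        (∑ a, y a * MvPolynomial.eval w (MvPolynomial.pderiv a p)) +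
          ∑ a, y a * MvPolynomial.eval w (MvPolynomial.pderiv a q) := by
      simp only [map_add, mul_add, Finset.sum_add_distrib]
    rw [h1]
    simp only [map_add]
    exact hp.add hq
  | mul_X p i hp =>
    have hx : HasDerivAt (fun t : ℂ => (w + t • y) i) (y i) 0 := by
      have h2 := ((hasDerivAt_id (0 : ℂ)).mul_const (y i)).const_add (w i)
      rw [one_mul] at h2
      exact h2
    have h3 := hp.mul hx
    have h4 : (∑ a, y a * MvPolynomial.eval w (MvPolynomial.pderiv a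
        (p * MvPolynomial.X i))) =
        (∑ a, y a * MvPolynomial.eval w (MvPolynomial.pderiv a p)) * (w + (0 : ℂ) • y) i +
          MvPolynomial.eval (w + (0 : ℂ) • y) p * y i := by
      rw [zero_smul, add_zero, Finset.sum_mul]
      have h5 : ∀ a, y a * MvPolynomial.eval w (MvPolynomial.pderiv a
          (p * MvPolynomial.X i)) =
          y a * MvPolynomial.eval w (MvPolynomial.pderiv a p) * w i +
            y a * (MvPolynomial.eval w p * (if i = a then 1 else 0)) := by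
        intro a
        rw [Derivation.leibniz, map_add, smul_eq_mul, smul_eq_mul, map_mul, map_mul,
          MvPolynomial.eval_X, MvPolynomial.pderiv_X]
        have h6 : MvPolynomial.eval w ((Pi.single a 1 : Fin r → MvPolynomial (Fin r) ℂ) i) =
            if i = a then 1 else 0 := by
          rw [Pi.single_apply]
          split_ifs
          · exact map_one _
          · exact map_zero _
        rw [h6]
        ring
      rw [Finset.sum_congr rfl fun a _ => h5 a, Finset.sum_add_distrib]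
      congr 1
      rw [Finset.sum_eq_single i]
      · rw [if_pos rfl]
        ring
      · intro b _ hb
        rw [if_neg (Ne.symm hb)]
        ring
      · intro h
        exact absurd (Finset.mem_univ i) h
    rw [h4]
    have h7 : (fun t : ℂ => MvPolynomial.eval (w + t • y) (p * MvPolynomial.X i)) =
        fun t : ℂ => MvPolynomial.eval (w + t • y) p * (w + t • y) i := by
      funext t
      rw [map_mul, MvPolynomial.eval_X]
    rw [h7]
    exact h3

/-- The fibre of the subbundle at the end point of `q`. -/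
def fib (hN : ∃ s ∈ N, IsRefl s) (ρ : N →* Matrix ι ι ℂ) (k : Idx N → ℂ)
    (Γ : Submodule ℂ (ι → ℂ)) {w : VReg N} (q : Path v₀ w) : Submodule ℂ (ι → ℂ) :=
  Γ.map (Matrix.mulVecLin (PP hN ρ k q.toContinuousMap))

lemma mem_fib (ρ : N →* Matrix ι ι ℂ) (k : Idx N → ℂ)
    (Γ : Submodule ℂ (ι → ℂ)) {w : VReg N} (q : Path v₀ w) (z : ι → ℂ) :
    z ∈ fib hN ρ k Γ q ↔ ∃ x ∈ Γ, z = PP hN ρ k q.toContinuousMap *ᵥ x := by
  constructor
  · rintro ⟨x, hx, rfl⟩
    exact ⟨x, hx, rfl⟩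
  · rintro ⟨x, hx, rfl⟩
    exact ⟨x, hx, rfl⟩

/-- A regular vector as a point of `V^reg`. -/
def pt (v : Fin r → ℂ) (h : ∀ g ∈ N, IsRefl g → g.1 *ᵥ v ≠ v) : VReg N := ⟨v, h⟩

/-- The straight path in a ball of regular vectors. -/
def seg (w : VReg N) (ε : ℝ) (hr : 0 < ε)
    (hreg : ∀ v ∈ Metric.ball w.1 ε, ∀ g ∈ N, IsRefl g → g.1 *ᵥ v ≠ v)
    (v : Fin r → ℂ) (hv : v ∈ Metric.ball w.1 ε) : Path w (pt v (hreg v hv)) where
  toFun t := pt ((1 - (t : ℝ)) • w.1 + (t : ℝ) • v) (hreg _ (convex_ball w.1 ε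
    (Metric.mem_ball_self hr) hv (sub_nonneg.2 t.2.2) t.2.1 (sub_add_cancel 1 _)))
  continuous_toFun := by
    refine Continuous.subtype_mk ?_ _
    exact ((continuous_const.sub continuous_subtype_val).smul continuous_const).add
      (continuous_subtype_val.smul continuous_const)
  source' := by
    apply Subtype.ext
    show (1 - (0 : ℝ)) • w.1 + (0 : ℝ) • v = w.1
    rw [sub_zero, one_smul, zero_smul, add_zero]
  target' := by
    apply Subtype.ext
    show (1 - (1 : ℝ)) • w.1 + (1 : ℝ) • v = v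
    rw [sub_self, one_smul, zero_smul, zero_add]

omit [Fintype N] in
lemma seg_mem (w : VReg N) (ε : ℝ) (hr : 0 < ε)
    (hreg : ∀ v ∈ Metric.ball w.1 ε, ∀ g ∈ N, IsRefl g → g.1 *ᵥ v ≠ v)
    (v : Fin r → ℂ) (hv : v ∈ Metric.ball w.1 ε) (t : unitInterval) :
    ((seg w ε hr hreg v hv).toContinuousMap t).1 ∈ Metric.ball w.1 ε :=
  convex_ball w.1 ε (Metric.mem_ball_self hr) hv (sub_nonneg.2 t.2.2) t.2.1
    (sub_add_cancel 1 _)

/-- In a local frame, a section of the subbundle has coordinates in the fibre. -/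
lemma coord_mem (ρ : N →* Matrix ι ι ℂ) (k : Idx N → ℂ) (Γ : Submodule ℂ (ι → ℂ))
    (f : PolE r ι) (hf : f ∈ MG hN ρ k v₀ Γ) (w : VReg N) (q : Path v₀ w) (ε : ℝ) (hr : 0 < ε)
    (hreg : ∀ v ∈ Metric.ball w.1 ε, ∀ g ∈ N, IsRefl g → g.1 *ᵥ v ≠ v)
    (F : (Fin r → ℂ) → Matrix ι ι ℂ) (hF1 : F w.1 = 1) (hF : Horiz ρ k (Metric.ball w.1 ε) F)
    (v : Fin r → ℂ) (hv : v ∈ Metric.ball w.1 ε) :
    ∃ z ∈ fib hN ρ k Γ q, evE f v = F v *ᵥ z := by
  obtain ⟨x, hx, ex⟩ := hf (pt v (hreg v hv)) (q.trans (seg w ε hr hreg v hv))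
  refine ⟨PP hN ρ k q.toContinuousMap *ᵥ x, (mem_fib hN ρ k Γ q _).2 ⟨x, hx, rfl⟩, ?_⟩
  have h1 := PP_local hN ρ k (Metric.ball w.1 ε) Metric.isOpen_ball (convex_ball _ _) F hF
    (seg w ε hr hreg v hv).toContinuousMap (seg_mem w ε hr hreg v hv)
  have e0 : ((seg w ε hr hreg v hv).toContinuousMap 0).1 = w.1 :=
    congrArg (fun u : VReg N => u.1) (seg w ε hr hreg v hv).source
  have e1 : ((seg w ε hr hreg v hv).toContinuousMap 1).1 = v :=
    congrArg (fun u : VReg N => u.1) (seg w ε hr hreg v hv).target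
  rw [e0, e1, hF1, inv_one, mul_one] at h1
  rw [PP_trans, h1] at ex
  rw [Matrix.mulVec_mulVec]
  exact ex

/-- The covariant derivative of a section of the subbundle lies in the subbundle. -/
lemma cov_mem (ρ : N →* Matrix ι ι ℂ) (k : Idx N → ℂ) (Γ : Submodule ℂ (ι → ℂ))
    (y : Fin r → ℂ) (f : PolE r ι) (hf : f ∈ MG hN ρ k v₀ Γ) (w : VReg N) (q : Path v₀ w) :
    dirD f y w.1 - om ρ k w.1 y *ᵥ evE f w.1 ∈ fib hN ρ k Γ q := by
  obtain ⟨ε, F, hr, hreg, hF1, hF, -⟩ := exists_frame hN ρ w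
  have hF1 := hF1 k
  have hF := hF k
  have hw0 : w.1 + (0 : ℂ) • y = w.1 := by rw [zero_smul, add_zero]
  -- the line stays in the ball
  have hcont : Continuous (fun t : ℂ => w.1 + t • y) :=
    continuous_const.add (continuous_id.smul continuous_const)
  have hball : ∀ᶠ t : ℂ in nhds 0, w.1 + t • y ∈ Metric.ball w.1 ε := by
    apply hcont.continuousAt.eventually_mem
    rw [hw0]
    exact Metric.ball_mem_nhds _ hr
  -- the frame along the line
  have hG : ∀ a b, HasDerivAt (fun t : ℂ => F k (w.1 + t • y) a b) (om ρ k w.1 y a b) 0 := by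
    intro a b
    have h1 := ((hF w.1 (Metric.mem_ball_self hr)).2 a b).1.hasFDerivAt
    have h2 : HasDerivAt (fun t : ℂ => w.1 + t • y) y 0 := by
      have h3 := ((hasDerivAt_id (0 : ℂ)).smul_const y).const_add w.1
      rw [one_smul] at h3
      exact h3
    rw [← hw0] at h1
    have h4 := h1.comp_hasDerivAt (0 : ℂ) h2
    rw [hw0, ((hF w.1 (Metric.mem_ball_self hr)).2 a b).2 y, hF1, mul_one] at h4
    exact h4
  -- the coordinates along the line
  have hz : ∀ t : ℂ, ∃ z : ι → ℂ, w.1 + t • y ∈ Metric.ball w.1 ε →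
      z ∈ fib hN ρ k Γ q ∧ evE f (w.1 + t • y) = F k (w.1 + t • y) *ᵥ z := by
    intro t
    by_cases ht : w.1 + t • y ∈ Metric.ball w.1 ε
    · obtain ⟨z, h1, h2⟩ := coord_mem hN ρ k Γ f hf w q ε hr hreg (F k) hF1 hF _ ht
      exact ⟨z, fun _ => ⟨h1, h2⟩⟩
    · exact ⟨0, fun h => absurd h ht⟩
  choose Z hZ using hz
  have hZ0 : Z 0 = evE f w.1 := by
    have h1 := (hZ 0 (by rw [hw0]; exact Metric.mem_ball_self hr)).2
    rw [hw0, hF1, Matrix.one_mulVec] at h1
    exact h1.symm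
  -- continuity of the coordinates
  have hGc : ContinuousAt (fun t : ℂ => F k (w.1 + t • y)) 0 := by
    exact continuousAt_pi.2 fun a => continuousAt_pi.2 fun b => (hG a b).continuousAt
  have hdet : ContinuousAt (fun t : ℂ => (F k (w.1 + t • y)).det) 0 := by
    have h1 : Continuous (fun M : Matrix ι ι ℂ => M.det) := continuous_id.matrix_det
    exact h1.continuousAt.comp hGc
  have hadj : ContinuousAt (fun t : ℂ => (F k (w.1 + t • y)).adjugate) 0 := by
    have h1 : Continuous (fun M : Matrix ι ι ℂ => M.adjugate) := continuous_id.matrix_adjugate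
    exact h1.continuousAt.comp hGc
  have hdet0 : (F k (w.1 + (0 : ℂ) • y)).det ≠ 0 := by
    rw [hw0, hF1, Matrix.det_one]
    exact one_ne_zero
  have he : ∀ i, HasDerivAt (fun t : ℂ => evE f (w.1 + t • y) i) (dirD f y w.1 i) 0 :=
    fun i => evalD w.1 y (f i)
  have hZeq : ∀ᶠ t : ℂ in nhds 0, Z t =
      ((F k (w.1 + t • y)).det)⁻¹ • ((F k (w.1 + t • y)).adjugate *ᵥ
        evE f (w.1 + t • y)) := by
    filter_upwards [hball] with t ht
    have hu := (Matrix.isUnit_iff_isUnit_det _).mp (hF _ ht).1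
    have h1 := (hZ t ht).2
    rw [h1, Matrix.mulVec_mulVec, Matrix.adjugate_mul, Matrix.smul_mulVec, Matrix.one_mulVec,
      smul_smul, inv_mul_cancel₀ hu.ne_zero, one_smul]
  have hZc : ∀ i, Filter.Tendsto (fun t : ℂ => Z t i) (nhds 0) (nhds (Z 0 i)) := by
    intro i
    have h1 : ContinuousAt (fun t : ℂ => ((F k (w.1 + t • y)).det)⁻¹ *
        ∑ j, (F k (w.1 + t • y)).adjugate i j * evE f (w.1 + t • y) j) 0 := by
      refine (hdet.inv₀ hdet0).mul ?_
      refine tendsto_finsetSum _ fun j _ => ?_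
      refine ContinuousAt.mul ?_ (he j).continuousAt
      exact (continuousAt_pi.1 ((continuousAt_pi.1 hadj) i)) j
    have h2 : (fun t : ℂ => Z t i) =ᶠ[nhds 0] (fun t : ℂ => ((F k (w.1 + t • y)).det)⁻¹ *
        ∑ j, (F k (w.1 + t • y)).adjugate i j * evE f (w.1 + t • y) j) := by
      filter_upwards [hZeq] with t ht
      rw [ht]
      rfl
    exact (h1.congr h2.symm)
  -- the difference quotients
  have hslope : Filter.Tendsto (fun t : ℂ => t⁻¹ • (Z t - Z 0)) (nhdsWithin 0 {0}ᶜ)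
      (nhds (dirD f y w.1 - om ρ k w.1 y *ᵥ evE f w.1)) := by
    rw [tendsto_pi_nhds]
    intro i
    have h1 := (hasDerivAt_iff_tendsto_slope.1 (he i))
    have h2 := fun j => (hasDerivAt_iff_tendsto_slope.1 (hG i j))
    have h3 := fun j => (hZc j).mono_left (nhdsWithin_le_nhds (a := (0 : ℂ)) (s := {0}ᶜ))
    have h4 := h1.sub (tendsto_finsetSum Finset.univ fun j _ => (h2 j).mul (h3 j))
    have h5 : (dirD f y w.1 - om ρ k w.1 y *ᵥ evE f w.1) i =
        dirD f y w.1 i - ∑ j, om ρ k w.1 y i j * Z 0 j := by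
      rw [hZ0]
      rfl
    rw [h5]
    refine h4.congr' ?_
    have hball' := hball.filter_mono (nhdsWithin_le_nhds (a := (0 : ℂ)) (s := {0}ᶜ))
    filter_upwards [hball'] with t ht
    have h6 : evE f (w.1 + t • y) i = ∑ j, F k (w.1 + t • y) i j * Z t j := by
      rw [(hZ t ht).2]
      rfl
    have h7 : evE f (w.1 + (0 : ℂ) • y) i = Z 0 i := by
      rw [hw0, hZ0]
    have h8 : ∑ j, F k (w.1 + (0 : ℂ) • y) i j * Z t j = Z t i := by
      rw [hw0, hF1]
      have h9 : ((1 : Matrix ι ι ℂ) *ᵥ Z t) i = Z t i := by rw [Matrix.one_mulVec]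
      exact h9
    simp only [slope_def_field, sub_zero, Pi.smul_apply, Pi.sub_apply, smul_eq_mul]
    rw [h6, h7]
    have h10 : ∑ j, (F k (w.1 + t • y) i j - F k (w.1 + (0 : ℂ) • y) i j) / t * Z t j =
        (∑ j, F k (w.1 + t • y) i j * Z t j - Z t i) / t := by
      rw [← h8, ← Finset.sum_sub_distrib, Finset.sum_div]
      refine Finset.sum_congr rfl fun j _ => ?_
      ring
    rw [h10]
    ring
  have hclosed : IsClosed (fib hN ρ k Γ q : Set (ι → ℂ)) :=
    Submodule.closed_of_finiteDimensional _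
  refine hclosed.mem_of_tendsto hslope ?_
  have hball' := hball.filter_mono (nhdsWithin_le_nhds (a := (0 : ℂ)) (s := {0}ᶜ))
  filter_upwards [hball'] with t ht
  exact (fib hN ρ k Γ q).smul_mem _ ((fib hN ρ k Γ q).sub_mem (hZ t ht).1
    (hZ 0 (by rw [hw0]; exact Metric.mem_ball_self hr)).1)

end MGX

theorem MG_x (ρ : N →* Matrix ι ι ℂ) (k : Idx N → ℂ) (Γ : Submodule ℂ (ι → ℂ))
    (a : Fin r) (f : PolE r ι) (hf : f ∈ MG hN ρ k v₀ Γ) : xAct ι a f ∈ MG hN ρ k v₀ Γ := by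
  intro w q
  obtain ⟨x, hx, ex⟩ := hf w q
  refine ⟨w.1 a • x, Γ.smul_mem _ hx, ?_⟩
  rw [Matrix.mulVec_smul, ← ex]
  funext i
  show MvPolynomial.eval w.1 (MvPolynomial.X a * f i) = w.1 a * MvPolynomial.eval w.1 (f i)
  rw [map_mul, MvPolynomial.eval_X]

theorem MG_g (ρ : N →* Matrix ι ι ℂ) (k : Idx N → ℂ) (Γ : Submodule ℂ (ι → ℂ))
    (hΓ : ∀ b : Braid N v₀, ∀ x ∈ Γ, KZ hN ρ k b *ᵥ x ∈ Γ)
    (g : N) (f : PolE r ι) (hf : f ∈ MG hN ρ k v₀ Γ) : gAct ρ g f ∈ MG hN ρ k v₀ Γ := by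
  intro w q
  obtain ⟨ε⟩ := vreg_path hN v₀ (g⁻¹ • w)
  obtain ⟨x, hx, ex⟩ := hf (g⁻¹ • w) ε
  have hgr : g • (g⁻¹ • w) = w := smul_inv_smul g w
  let gr : Path (g • v₀) w := (ε.map (continuous_const_smul g)).cast rfl hgr.symm
  let b : Braid N v₀ := Quotient.mk _ (BPath.ofPath g (q.trans gr.symm))
  refine ⟨KZ hN ρ k b *ᵥ x, hΓ b x hx, ?_⟩
  have h1 : KZ hN ρ k b = (PP hN ρ k (q.trans gr.symm).toContinuousMap)⁻¹ * ρ g :=
    KZ_mk hN ρ k _
  have h2 : PP hN ρ k gr.toContinuousMap = ρ g * PP hN ρ k ε.toContinuousMap * ρ g⁻¹ :=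
    PP_smul hN ρ k g ε.toContinuousMap gr.toContinuousMap (fun t => rfl)
  have huq := (Matrix.isUnit_iff_isUnit_det _).mp (PP_unit hN ρ k q.toContinuousMap)
  have hug := (Matrix.isUnit_iff_isUnit_det _).mp (PP_unit hN ρ k gr.toContinuousMap)
  have h3 : PP hN ρ k q.toContinuousMap * KZ hN ρ k b =
      ρ g * PP hN ρ k ε.toContinuousMap := by
    rw [h1, PP_trans, PP_symm, Matrix.mul_inv_rev, Matrix.nonsing_inv_nonsing_inv _ hug, h2]
    have h4 := KZX.rho_inv_mul ρ g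
    calc PP hN ρ k q.toContinuousMap * ((PP hN ρ k q.toContinuousMap)⁻¹ *
          (ρ g * PP hN ρ k ε.toContinuousMap * ρ g⁻¹) * ρ g)
        = (PP hN ρ k q.toContinuousMap * (PP hN ρ k q.toContinuousMap)⁻¹) *
          (ρ g * PP hN ρ k ε.toContinuousMap) * (ρ g⁻¹ * ρ g) := by
          simp only [Matrix.mul_assoc]
      _ = ρ g * PP hN ρ k ε.toContinuousMap := by
          rw [Matrix.mul_nonsing_inv _ huq, h4, Matrix.one_mul, Matrix.mul_one]
  rw [Matrix.mulVec_mulVec, h3, evE_gAct, ← Matrix.mulVec_mulVec, ← ex]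
  rfl

theorem MG_D (ρ : N →* Matrix ι ι ℂ) (k : Idx N → ℂ) (Γ : Submodule ℂ (ι → ℂ))
    (hΓ : ∀ b : Braid N v₀, ∀ x ∈ Γ, KZ hN ρ k b *ᵥ x ∈ Γ)
    (y : Fin r → ℂ) (f : PolE r ι) (hf : f ∈ MG hN ρ k v₀ Γ) :
    dunkl ρ 1 k y f ∈ MG hN ρ k v₀ Γ := by
  intro w q
  rw [← MGX.mem_fib]
  have h1 := dunkl_spec ρ 1 k y f w
  have h2 : om ρ k w.1 y *ᵥ evE f w.1 =
      (∑ g : N, (cr k g * rat (fixL g.1) y w.1) • (ρ g *ᵥ evE f w.1)) +
        (∑ H : Arr N, cs k H * rat H.1 y w.1) • evE f w.1 := by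
    unfold om gau
    rw [Matrix.add_mulVec, Matrix.sum_mulVec, Matrix.smul_mulVec, Matrix.one_mulVec]
    congr 1
    exact Finset.sum_congr rfl fun g _ => by rw [Matrix.smul_mulVec]
  have h3 : evE (dunkl ρ 1 k y f) w.1 = (dirD f y w.1 - om ρ k w.1 y *ᵥ evE f w.1) +
      (∑ H : Arr N, cs k H * rat H.1 y w.1) • evE f w.1 +
      ∑ g : N, (cr k g * rat (fixL g.1) y w.1) • evE (gAct ρ g f) w.1 := by
    rw [h1, h2, one_smul]
    have h4 : ∀ g : N, (cr k g * rat (fixL g.1) y w.1) •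
        (ρ g *ᵥ (evE f ((g⁻¹).1.1 *ᵥ w.1) - evE f w.1)) =
        (cr k g * rat (fixL g.1) y w.1) • evE (gAct ρ g f) w.1 -
          (cr k g * rat (fixL g.1) y w.1) • (ρ g *ᵥ evE f w.1) := by
      intro g
      rw [evE_gAct, Matrix.mulVec_sub, smul_sub]
    rw [Finset.sum_congr rfl fun g _ => h4 g, Finset.sum_sub_distrib]
    abel
  rw [h3]
  refine Submodule.add_mem _ (Submodule.add_mem _ (MGX.cov_mem hN ρ k Γ y f hf w q) ?_) ?_
  · exact Submodule.smul_mem _ _ ((MGX.mem_fib hN ρ k Γ q _).2 (hf w q))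
  · refine Submodule.sum_mem _ fun g _ => Submodule.smul_mem _ _ ?_
    exact (MGX.mem_fib hN ρ k Γ q _).2 (MG_g hN ρ k Γ hΓ g f hf w q)

end

end Pool.Agent.CMFn
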