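import Pool.Agent.CMFn.FinC
import Pool.Agent.CMFn.Mart

/-! Project CMFn: Martino's conjecture for complex reflection groups whose levels are connected by
links. -/

namespace Pool.Agent.CMFn

open Pool.Agent.CMFP

theorem mart_conn {n : ℕ} (hn : 2 ≤ n) {G : Type} [Group G] [Fintype G]
    (W : G → Matrix (Fin n) (Fin n) ℂ) (hW : IsReflGroup W) (hconn : Conn (repHom hW.1)) :
    Mart W := by
  intro Λ _ d ρ hρ F _ _ hF v₀ hv₀ D hD S k κ hκ m hm χ ψ h
  classical
  have hfin : Finite (CMFP.Idx W) := CMF.idx_finite hW.1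
  have : Fintype (CMFP.Idx W) := Fintype.ofFinite _
  exact rank_main hn hW hρ hconn hF hv₀ D hD S k κ hκ m hm χ ψ h

end Pool.Agent.CMFn
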