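import Mathlib

/-! Project CMF in rank `r` (MP_4af2a6_al), module QSignA (helper5): sums of reflections of a
parabolic subgroup in a representation: integral eigenvalues, the extreme eigenspaces. -/

namespace Pool.Agent.CMFn

open Matrix Polynomial

noncomputable section

variable {G : Type*} [Group G] {ι : Type*} [Fintype ι] [DecidableEq ι]

open scoped MatrixOrder ComplexOrder in
/-- Every representation of a finite group is unitarisable. -/
theorem qs_unitary [Fintype G] (ρ : G →* Matrix ι ι ℂ) :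
    ∃ B C : Matrix ι ι ℂ, B * C = 1 ∧ C * B = 1 ∧ ∀ w, (B * ρ w * C)ᴴ = B * ρ w⁻¹ * C := by
  classical
  set Φ : Matrix ι ι ℂ := ∑ u : G, (ρ u)ᴴ * ρ u with hΦ
  have h1 : Φ.PosDef := by
    rw [hΦ, ← Finset.add_sum_erase _ _ (Finset.mem_univ (1 : G))]
    refine PosDef.add_posSemidef ?_ (Matrix.posSemidef_sum _ fun u _ =>
      Matrix.posSemidef_conjTranspose_mul_self _)
    rw [map_one, conjTranspose_one, one_mul]
    exact PosDef.one
  have hinv : ∀ w, (ρ w)ᴴ * Φ = Φ * ρ w⁻¹ := by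
    intro w
    rw [hΦ, Finset.mul_sum, Finset.sum_mul]
    refine Fintype.sum_equiv (Equiv.mulRight w) _ _ fun u => ?_
    simp only [Equiv.coe_mulRight]
    rw [← mul_assoc, ← conjTranspose_mul, ← map_mul, mul_assoc, ← map_mul]
    congr 2
    group
  have h2 : CFC.sqrt Φ * CFC.sqrt Φ = Φ := CFC.sqrt_mul_sqrt_self Φ h1.posSemidef.nonneg
  have h3 : (CFC.sqrt Φ)ᴴ = CFC.sqrt Φ := (CFC.sqrt_nonneg Φ).isSelfAdjoint
  set B := CFC.sqrt Φ with hB
  have h4 : IsUnit B.det := by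
    have h5 := h1.det_pos
    rw [← h2, det_mul] at h5
    exact isUnit_iff_ne_zero.2 fun h => by rw [h, mul_zero] at h5; exact h5.ne rfl
  have h6 : B * B⁻¹ = 1 := Matrix.mul_nonsing_inv _ h4
  have h7 : B⁻¹ * B = 1 := Matrix.nonsing_inv_mul _ h4
  refine ⟨B, B⁻¹, h6, h7, fun w => ?_⟩
  rw [conjTranspose_mul, conjTranspose_mul, conjTranspose_nonsing_inv, h3]
  have h8 := hinv w
  rw [← h2] at h8
  calc B⁻¹ * ((ρ w)ᴴ * B) = B⁻¹ * ((ρ w)ᴴ * (B * B)) * B⁻¹ := by
        simp only [mul_assoc]; rw [h6, mul_one]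
    _ = B⁻¹ * (B * B * ρ w⁻¹) * B⁻¹ := by rw [h8]
    _ = (B⁻¹ * B) * (B * ρ w⁻¹) * B⁻¹ := by simp only [mul_assoc]
    _ = _ := by rw [h7, one_mul]

/-- the trace of an involution is an integer -/
theorem qs_trace_inv {V : Type*} [AddCommGroup V] [Module ℂ V] [FiniteDimensional ℂ V]
    (T : Module.End ℂ V) (hT : T * T = 1) : ∃ z : ℤ, LinearMap.trace ℂ V T = z := by
  set P : Module.End ℂ V := (2⁻¹ : ℂ) • (1 + T) with hP
  have h1 : IsIdempotentElem P := by
    show P * P = P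
    rw [hP, smul_mul_smul_comm, mul_add, add_mul, add_mul, hT]
    simp only [mul_one, one_mul]
    rw [show (1 + T + (T + 1) : Module.End ℂ V) = (2 : ℂ) • (1 + T) by rw [two_smul]; abel, smul_smul]
    congr 1
    norm_num
  have h2 := (LinearMap.IsIdempotentElem.isProj_range _ h1).trace
  have h3 : T = (2 : ℂ) • P - 1 := by
    rw [hP, smul_smul]
    norm_num
  refine ⟨2 * (Module.finrank ℂ (LinearMap.range P) : ℤ) - Module.finrank ℂ V, ?_⟩
  rw [h3, map_sub, map_smul, h2, LinearMap.trace_one]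
  push_cast
  simp

variable (ρ : G →* Matrix ι ι ℂ) (R : Finset G)

/-- the sum of the reflections -/
def qsS : Matrix ι ι ℂ := ∑ s ∈ R, ρ s

variable {R}

theorem qsS_comm (hc : ∀ w : G, ∀ s ∈ R, w * s * w⁻¹ ∈ R) (w : G) :
    ρ w * qsS ρ R = qsS ρ R * ρ w := by
  rw [qsS, Finset.mul_sum, Finset.sum_mul]
  refine Finset.sum_bij (fun s _ => w * s * w⁻¹) (fun s hs => hc w s hs) ?_ ?_ ?_
  · intro s _ t _ h
    simpa using h
  · intro s hs
    refine ⟨w⁻¹ * s * w, ?_, by group⟩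
    have := hc w⁻¹ s hs
    rwa [inv_inv] at this
  · intro s _
    rw [← map_mul, ← map_mul]
    congr 1
    group

/-- eigenvalues of the sum of the reflections are rational -/
theorem qs_rat (hc : ∀ w : G, ∀ s ∈ R, w * s * w⁻¹ ∈ R) (hR : ∀ s ∈ R, s * s = 1) {c : ℂ}
    {x : ι → ℂ} (hx : x ≠ 0) (hS : qsS ρ R *ᵥ x = c • x) : ∃ q : ℚ, c = q := by
  set L : Module.End ℂ (ι → ℂ) := Matrix.toLin' (qsS ρ R) with hL
  set E := Module.End.eigenspace L c with hE
  have hmem : ∀ y, y ∈ E ↔ qsS ρ R *ᵥ y = c • y := by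
    intro y
    rw [hE, Module.End.mem_eigenspace_iff, hL, Matrix.toLin'_apply]
  have hst : ∀ w : G, ∀ y ∈ E, Matrix.toLin' (ρ w) y ∈ E := by
    intro w y hy
    rw [hmem] at hy ⊢
    rw [Matrix.toLin'_apply, Matrix.mulVec_mulVec, ← qsS_comm ρ hc, ← Matrix.mulVec_mulVec, hy,
      Matrix.mulVec_smul]
  set r : G → Module.End ℂ E := fun w => (Matrix.toLin' (ρ w)).restrict (hst w) with hr
  have h1 : ∑ s ∈ R, r s = c • (1 : Module.End ℂ E) := by
    ext1 y
    apply Subtype.ext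
    rw [LinearMap.sum_apply, AddSubmonoidClass.coe_finsetSum]
    have h2 := (hmem y.1).1 y.2
    rw [qsS, Matrix.sum_mulVec] at h2
    exact h2
  have h3 : ∀ s ∈ R, ∃ z : ℤ, LinearMap.trace ℂ E (r s) = z := by
    intro s hs
    apply qs_trace_inv
    ext1 y
    apply Subtype.ext
    show ρ s *ᵥ (ρ s *ᵥ y.1) = y.1
    rw [Matrix.mulVec_mulVec, ← map_mul, hR s hs, map_one, Matrix.one_mulVec]
  choose! z hz using h3
  have h4 : (∑ s ∈ R, (z s : ℂ)) = c * Module.finrank ℂ E := by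
    have h5 := congrArg (LinearMap.trace ℂ E) h1
    rw [map_sum, map_smul, LinearMap.trace_one, smul_eq_mul, Finset.sum_congr rfl hz] at h5
    exact h5
  have h6 : (Module.finrank ℂ E : ℂ) ≠ 0 := by
    rw [Nat.cast_ne_zero]
    intro h7
    have h8 : E = ⊥ := Submodule.finrank_eq_zero.1 h7
    apply hx
    have h9 : x ∈ E := (hmem x).2 hS
    rw [h8] at h9
    exact (Submodule.mem_bot ℂ).1 h9
  refine ⟨(∑ s ∈ R, (z s : ℚ)) / Module.finrank ℂ E, ?_⟩
  push_cast
  rw [h4]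
  field_simp

/-- eigenvalues of the sum of the reflections are algebraic integers -/
theorem qs_alg [Finite G] {c : ℂ} {x : ι → ℂ} (hx : x ≠ 0) (hS : qsS ρ R *ᵥ x = c • x) :
    IsIntegral ℤ c := by
  set a : MonoidAlgebra ℤ G := ∑ s ∈ R, MonoidAlgebra.single s 1 with ha
  have h1 : IsIntegral ℤ a := by
    have : Module.Finite ℤ (MonoidAlgebra ℤ G) := inferInstance
    exact IsIntegral.of_finite ℤ a
  set φ : MonoidAlgebra ℤ G →ₐ[ℤ] Matrix ι ι ℂ := MonoidAlgebra.lift ℤ _ G ρ with hφ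
  have h2 : φ a = qsS ρ R := by
    rw [ha, map_sum, qsS]
    refine Finset.sum_congr rfl fun s _ => ?_
    rw [hφ, MonoidAlgebra.lift_single, one_smul]
  obtain ⟨p, hp, hp2⟩ := h1
  refine ⟨p, hp, ?_⟩
  have h3 : Polynomial.aeval (qsS ρ R) p = 0 := by
    rw [← h2, Polynomial.aeval_algHom_apply]
    have : Polynomial.aeval a p = 0 := hp2
    rw [this, map_zero]
  have h4 : (Polynomial.aeval (qsS ρ R) p) *ᵥ x = (Polynomial.aeval c p) • x := by
    clear h3 hp hp2
    induction p using Polynomial.induction_on' with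
    | add p q hp hq => rw [map_add, map_add, Matrix.add_mulVec, hp, hq, add_smul]
    | monomial n z =>
      rw [Polynomial.aeval_monomial, Polynomial.aeval_monomial]
      have h5 : ∀ n : ℕ, (qsS ρ R) ^ n *ᵥ x = c ^ n • x := by
        intro n
        induction n with
        | zero => simp
        | succ n ih => rw [pow_succ', ← Matrix.mulVec_mulVec, ih, Matrix.mulVec_smul, hS, smul_smul,
            pow_succ]
      rw [← Algebra.smul_def, ← Algebra.smul_def, Matrix.smul_mulVec, h5, smul_assoc]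
  rw [h3, Matrix.zero_mulVec] at h4
  rcases smul_eq_zero.1 h4.symm with h5 | h5
  · exact h5
  · exact absurd h5 hx

/-- eigenvalues of the sum of the reflections are integers -/
theorem qs_int [Finite G] (hc : ∀ w : G, ∀ s ∈ R, w * s * w⁻¹ ∈ R) (hR : ∀ s ∈ R, s * s = 1)
    {c : ℂ} {x : ι → ℂ} (hx : x ≠ 0) (hS : qsS ρ R *ᵥ x = c • x) : ∃ z : ℤ, c = z := by
  obtain ⟨q, hq⟩ := qs_rat ρ hc hR hx hS
  have h1 := qs_alg ρ hx hS
  have h2 : IsIntegral ℤ q := by
    have h3 : c = algebraMap ℚ ℂ q := by rw [hq]; rfl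
    rw [h3] at h1
    exact (isIntegral_algebraMap_iff (algebraMap ℚ ℂ).injective).1 h1
  obtain ⟨z, hz⟩ := IsIntegrallyClosed.isIntegral_iff.1 h2
  refine ⟨z, ?_⟩
  rw [hq, ← hz]
  simp

/-! ### the invariant form -/

omit [DecidableEq ι] in
theorem qs_star_self (v : ι → ℂ) : star v ⬝ᵥ v = ((∑ i, ‖v i‖ ^ 2 : ℝ) : ℂ) := by
  rw [dotProduct]
  push_cast
  refine Finset.sum_congr rfl fun i _ => ?_
  exact Complex.conj_mul' (v i)

theorem qs_form_one {U : Matrix ι ι ℂ} (h1 : Uᴴ = U) (h2 : U * U = 1) {σ : ℂ} (hσ : σ = 1 ∨ σ = -1)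
    (v : ι → ℂ) : star (v - σ • U *ᵥ v) ⬝ᵥ (v - σ • U *ᵥ v) =
      2 * (star v ⬝ᵥ v - σ * (star v ⬝ᵥ U *ᵥ v)) := by
  have e1 : v - σ • U *ᵥ v = (1 - σ • U) *ᵥ v := by
    rw [Matrix.sub_mulVec, Matrix.one_mulVec, Matrix.smul_mulVec]
  have e2 : (1 - σ • U)ᴴ * (1 - σ • U) = (2 : ℂ) • (1 - σ • U) := by
    have h3 : (1 - σ • U)ᴴ = 1 - σ • U := by
      rw [conjTranspose_sub, conjTranspose_one, conjTranspose_smul, h1]
      rcases hσ with rfl | rfl <;> simp
    rw [h3, mul_sub, sub_mul, sub_mul, one_mul, mul_one, smul_mul_smul_comm, h2]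
    have h4 : σ * σ = 1 := by rcases hσ with rfl | rfl <;> norm_num
    rw [h4, one_smul, two_smul, one_mul]
    abel
  rw [e1, Matrix.star_mulVec, ← Matrix.dotProduct_mulVec, Matrix.mulVec_mulVec, e2,
    Matrix.smul_mulVec, dotProduct_smul, Matrix.sub_mulVec, Matrix.one_mulVec,
    Matrix.smul_mulVec, dotProduct_sub, dotProduct_smul, smul_eq_mul, smul_eq_mul]

section fin

variable (hR : ∀ s ∈ R, s * s = 1)

include hR

/-- `2 (n - σ c) |y|² = Σ_s |y - σ s y|²` for `y` an eigenvector of the unitarised sum -/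
theorem qs_form {B C : Matrix ι ι ℂ} (hBC : B * C = 1) (hCB : C * B = 1)
    (hU : ∀ w, (B * ρ w * C)ᴴ = B * ρ w⁻¹ * C) {σ : ℂ} (hσ : σ = 1 ∨ σ = -1) {c : ℂ} {x : ι → ℂ}
    (hS : qsS ρ R *ᵥ x = c • x) :
    ∑ s ∈ R, star (B *ᵥ (x - σ • ρ s *ᵥ x)) ⬝ᵥ (B *ᵥ (x - σ • ρ s *ᵥ x)) =
      2 * ((R.card : ℂ) - σ * c) * (star (B *ᵥ x) ⬝ᵥ (B *ᵥ x)) := by
  have h1 : ∀ s, (B * ρ s * C) *ᵥ (B *ᵥ x) = B *ᵥ (ρ s *ᵥ x) := by
    intro s
    rw [Matrix.mulVec_mulVec, mul_assoc, hCB, mul_one, ← Matrix.mulVec_mulVec]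
  have h2 : ∀ s ∈ R, star (B *ᵥ (x - σ • ρ s *ᵥ x)) ⬝ᵥ (B *ᵥ (x - σ • ρ s *ᵥ x)) =
      2 * (star (B *ᵥ x) ⬝ᵥ (B *ᵥ x) - σ * (star (B *ᵥ x) ⬝ᵥ (B *ᵥ (ρ s *ᵥ x)))) := by
    intro s hs
    have e1 : B *ᵥ (x - σ • ρ s *ᵥ x) = B *ᵥ x - σ • (B * ρ s * C) *ᵥ (B *ᵥ x) := by
      rw [h1, Matrix.mulVec_sub, Matrix.mulVec_smul]
    rw [e1, qs_form_one _ _ hσ, h1]
    · rw [hU, inv_eq_of_mul_eq_one_right (hR s hs)]
    · calc B * ρ s * C * (B * ρ s * C) = B * ρ s * (C * B) * ρ s * C := by simp only [mul_assoc]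
        _ = B * ρ (s * s) * C := by rw [hCB, mul_one, map_mul]; simp only [mul_assoc]
        _ = 1 := by rw [hR s hs, map_one, mul_one, hBC]
  rw [Finset.sum_congr rfl h2, ← Finset.mul_sum, Finset.sum_sub_distrib, Finset.sum_const,
    ← Finset.mul_sum]
  have h3 : ∑ s ∈ R, star (B *ᵥ x) ⬝ᵥ (B *ᵥ (ρ s *ᵥ x)) = c * (star (B *ᵥ x) ⬝ᵥ (B *ᵥ x)) := by
    rw [← dotProduct_sum, ← Matrix.mulVec_sum, ← Matrix.sum_mulVec]
    change star (B *ᵥ x) ⬝ᵥ (B *ᵥ (qsS ρ R *ᵥ x)) = _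
    rw [hS, Matrix.mulVec_smul, dotProduct_smul, smul_eq_mul]
  rw [h3, nsmul_eq_mul]
  ring

/-- the eigenvalues are at most `n` in absolute value, and on an extreme eigenspace all
involutions are scalars -/
theorem qs_bound [Fintype G] {σ : ℤ} (hσ : σ = 1 ∨ σ = -1) {z : ℤ} {x : ι → ℂ} (hx : x ≠ 0)
    (hS : qsS ρ R *ᵥ x = (z : ℂ) • x) :
    σ * z ≤ R.card ∧ (σ * z = R.card → ∀ s ∈ R, ρ s *ᵥ x = (σ : ℂ) • x) := by
  obtain ⟨B, C, hBC, hCB, hU⟩ := qs_unitary ρ
  have hσ' : (σ : ℂ) = 1 ∨ (σ : ℂ) = -1 := by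
    rcases hσ with rfl | rfl
    · left; norm_num
    · right; norm_num
  have h1 := qs_form ρ hR hBC hCB hU hσ' hS
  simp only [qs_star_self] at h1
  have h2 : ∑ s ∈ R, ∑ i, ‖(B *ᵥ (x - (σ : ℂ) • ρ s *ᵥ x)) i‖ ^ 2 =
      2 * ((R.card : ℝ) - σ * z) * ∑ i, ‖(B *ᵥ x) i‖ ^ 2 := by
    exact_mod_cast h1
  have hB : ∀ y : ι → ℂ, B *ᵥ y = 0 → y = 0 := by
    intro y hy
    have h3 : C *ᵥ (B *ᵥ y) = y := by rw [Matrix.mulVec_mulVec, hCB, Matrix.one_mulVec]
    rw [← h3, hy, Matrix.mulVec_zero]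
  have hnz : ∀ y : ι → ℂ, (∑ i, ‖y i‖ ^ 2 : ℝ) = 0 → y = 0 := by
    intro y hy
    rw [Finset.sum_eq_zero_iff_of_nonneg fun i _ => by positivity] at hy
    funext i
    have := hy i (Finset.mem_univ i)
    simpa using this
  have hpos : 0 < ∑ i, ‖(B *ᵥ x) i‖ ^ 2 := by
    have h4 : 0 ≤ ∑ i, ‖(B *ᵥ x) i‖ ^ 2 := Finset.sum_nonneg fun i _ => by positivity
    rcases h4.lt_or_eq with h5 | h5
    · exact h5
    · exact absurd (hB x (hnz _ h5.symm)) hx
  have hle : 0 ≤ ∑ s ∈ R, ∑ i, ‖(B *ᵥ (x - (σ : ℂ) • ρ s *ᵥ x)) i‖ ^ 2 :=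
    Finset.sum_nonneg fun s _ => Finset.sum_nonneg fun i _ => by positivity
  constructor
  · by_contra hcon
    push Not at hcon
    have h6 : (R.card : ℝ) - σ * z < 0 := by
      have : (R.card : ℝ) < σ * z := by exact_mod_cast hcon
      linarith
    rw [h2] at hle
    have := mul_neg_of_neg_of_pos (by linarith : 2 * ((R.card : ℝ) - σ * z) < 0) hpos
    linarith
  · intro he s hs
    have h7 : ∑ s ∈ R, ∑ i, ‖(B *ᵥ (x - (σ : ℂ) • ρ s *ᵥ x)) i‖ ^ 2 = 0 := by
      rw [h2]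
      have : ((σ * z : ℤ) : ℝ) = ((R.card : ℤ) : ℝ) := by rw [he]
      push_cast at this
      rw [this]
      ring
    rw [Finset.sum_eq_zero_iff_of_nonneg
      (fun s _ => Finset.sum_nonneg fun i _ => by positivity)] at h7
    have h8 := hB _ (hnz _ (h7 s hs))
    rw [sub_eq_zero] at h8
    have h9 : (σ : ℂ) * σ = 1 := by rcases hσ' with h | h <;> rw [h] <;> norm_num
    calc ρ s *ᵥ x = ((σ : ℂ) * σ) • ρ s *ᵥ x := by rw [h9, one_smul]
      _ = (σ : ℂ) • ((σ : ℂ) • ρ s *ᵥ x) := by rw [mul_smul]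
      _ = (σ : ℂ) • x := by rw [← h8]

end fin

theorem qs_aeval {A : Matrix ι ι ℂ} {c : ℂ} {x : ι → ℂ} (hS : A *ᵥ x = c • x)
    (p : Polynomial ℂ) : (Polynomial.aeval A p) *ᵥ x = (p.eval c) • x := by
  induction p using Polynomial.induction_on' with
  | add p q hp hq => rw [map_add, Polynomial.eval_add, Matrix.add_mulVec, hp, hq, add_smul]
  | monomial n z =>
    rw [Polynomial.aeval_monomial, Polynomial.eval_monomial]
    have h5 : ∀ n : ℕ, A ^ n *ᵥ x = c ^ n • x := by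
      intro n
      induction n with
      | zero => simp
      | succ n ih => rw [pow_succ', ← Matrix.mulVec_mulVec, ih, Matrix.mulVec_smul, hS, smul_smul,
          pow_succ]
    rw [← Algebra.smul_def, Matrix.smul_mulVec, h5, mul_smul]

theorem qs_comm_aeval {A B : Matrix ι ι ℂ} (h : B * A = A * B) (p : Polynomial ℂ) :
    B * Polynomial.aeval A p = Polynomial.aeval A p * B := by
  induction p using Polynomial.induction_on' with
  | add p q hp hq => rw [map_add, mul_add, add_mul, hp, hq]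
  | monomial n z =>
    rw [Polynomial.aeval_monomial, ← Algebra.smul_def, mul_smul_comm, smul_mul_assoc]
    have h1 : Commute B A := h
    rw [(h1.pow_right n).eq]

/-- a polynomial vanishing at the eigenvalues of a hermitian matrix kills the matrix -/
theorem qs_herm {A : Matrix ι ι ℂ} (hA : A.IsHermitian) (P : Polynomial ℂ)
    (h : ∀ (c : ℂ) (x : ι → ℂ), x ≠ 0 → A *ᵥ x = c • x → P.eval c = 0) :
    Polynomial.aeval A P = 0 := by
  have h1 : Polynomial.aeval A P * (hA.eigenvectorUnitary : Matrix ι ι ℂ) = 0 := by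
    ext i j
    have h2 : A *ᵥ ⇑(hA.eigenvectorBasis j) =
        ((hA.eigenvalues j : ℝ) : ℂ) • ⇑(hA.eigenvectorBasis j) := by
      rw [hA.mulVec_eigenvectorBasis]
      rfl
    have h3 : (⇑(hA.eigenvectorBasis j) : ι → ℂ) ≠ 0 := by
      intro h4
      apply hA.eigenvectorBasis.orthonormal.ne_zero j
      ext k
      exact congrFun h4 k
    have h5 := qs_aeval h2 P
    rw [h _ _ h3 h2, zero_smul] at h5
    exact congrFun h5 i
  have h6 : (hA.eigenvectorUnitary : Matrix ι ι ℂ) * star (hA.eigenvectorUnitary : Matrix ι ι ℂ) = 1 :=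
    Unitary.coe_mul_star_self _
  calc Polynomial.aeval A P = Polynomial.aeval A P * ((hA.eigenvectorUnitary : Matrix ι ι ℂ) *
        star (hA.eigenvectorUnitary : Matrix ι ι ℂ)) := by rw [h6, mul_one]
    _ = 0 := by rw [← mul_assoc, h1, zero_mul]

theorem qs_kill [Fintype G] (hR : ∀ s ∈ R, s * s = 1) (P : Polynomial ℂ)
    (h : ∀ (c : ℂ) (x : ι → ℂ), x ≠ 0 → qsS ρ R *ᵥ x = c • x → P.eval c = 0) :
    Polynomial.aeval (qsS ρ R) P = 0 := by
  obtain ⟨B, C, hBC, hCB, hU⟩ := qs_unitary ρ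
  have h1 : (B * qsS ρ R * C).IsHermitian := by
    rw [Matrix.IsHermitian, qsS, Finset.mul_sum, Finset.sum_mul, conjTranspose_sum]
    refine Finset.sum_congr rfl fun s hs => ?_
    rw [hU, inv_eq_of_mul_eq_one_right (hR s hs)]
  have h2 := qs_herm h1 P (by
    intro c x hx hS
    refine h c (C *ᵥ x) ?_ ?_
    · intro h0
      apply hx
      rw [← Matrix.one_mulVec x, ← hBC, ← Matrix.mulVec_mulVec, h0, Matrix.mulVec_zero]
    · rw [← Matrix.mulVec_mulVec, ← Matrix.mulVec_mulVec] at hS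
      rw [← Matrix.mulVec_smul, ← hS]
      exact ((Matrix.mulVec_mulVec _ C B).trans (by rw [hCB, Matrix.one_mulVec])).symm)
  have h3 : ∀ P : Polynomial ℂ, Polynomial.aeval (B * qsS ρ R * C) P =
      B * Polynomial.aeval (qsS ρ R) P * C := by
    intro P
    induction P using Polynomial.induction_on' with
    | add p q hp hq => rw [map_add, map_add, hp, hq, mul_add, add_mul]
    | monomial n z =>
      rw [Polynomial.aeval_monomial, Polynomial.aeval_monomial]
      have h5 : ∀ n : ℕ, (B * qsS ρ R * C) ^ n = B * qsS ρ R ^ n * C := by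
        intro n
        induction n with
        | zero => simp [hBC]
        | succ n ih =>
          rw [pow_succ, ih, pow_succ]
          calc B * qsS ρ R ^ n * C * (B * qsS ρ R * C) = B * qsS ρ R ^ n * (C * B) * qsS ρ R * C := by
                simp only [mul_assoc]
            _ = _ := by rw [hCB, mul_one]; simp only [mul_assoc]
      rw [h5, ← Algebra.smul_def, ← Algebra.smul_def, mul_smul_comm, smul_mul_assoc]
  rw [h3] at h2
  calc Polynomial.aeval (qsS ρ R) P = (C * B) * Polynomial.aeval (qsS ρ R) P * (C * B) := by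
        rw [hCB, one_mul, mul_one]
    _ = C * (B * Polynomial.aeval (qsS ρ R) P * C) * B := by simp only [mul_assoc]
    _ = 0 := by rw [h2, mul_zero, zero_mul]

end

noncomputable section

variable {G : Type} [Group G] [Fintype G] {d : ℕ}

/-- The class sum of involutions has integral eigenvalues between `-n` and `n`, and is
diagonalisable: in every irreducible representation it is the scalar `Σ_s tr φ(s) / φ(1)`, which is
rational (traces of involutions are integers) and integral over `ℤ`. -/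
theorem invol_spectrum (S : Finset G) (hS : ∀ s ∈ S, s * s = 1)
    (hc : ∀ g : G, ∀ s ∈ S, g * s * g⁻¹ ∈ S) (ρ : G →* Matrix (Fin d) (Fin d) ℂ) :
    Polynomial.aeval (∑ s ∈ S, ρ s)
      (∏ c ∈ Finset.Icc (-(S.card : ℤ)) S.card, (X - C (c : ℂ))) = 0 := by
  refine qs_kill ρ hS _ fun c x hx h => ?_
  obtain ⟨z, rfl⟩ := qs_int ρ hc hS hx h
  have h1 := (qs_bound ρ hS (σ := 1) (Or.inl rfl) hx h).1
  have h2 := (qs_bound ρ hS (σ := -1) (Or.inr rfl) hx h).1
  rw [Polynomial.eval_prod]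
  refine Finset.prod_eq_zero (i := z) (Finset.mem_Icc.2 ⟨by linarith, by linarith⟩) ?_
  simp

/-- The spectral projection for the extreme eigenvalue `σ n` (`σ = ±1`, `n = |S|`) is the
idempotent of the linear character `θ` with `θ(s) = σ` for `s ∈ S`. -/
theorem extreme_proj (S : Finset G) (hS : ∀ s ∈ S, s * s = 1)
    (hc : ∀ g : G, ∀ s ∈ S, g * s * g⁻¹ ∈ S) (hgen : Subgroup.closure (S : Set G) = ⊤)
    (σ : ℤ) (hσ : σ = 1 ∨ σ = -1) (θ : G →* ℂ) (hθ : ∀ s ∈ S, θ s = σ)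
    (ρ : G →* Matrix (Fin d) (Fin d) ℂ) :
    (∏ c ∈ (Finset.Icc (-(S.card : ℤ)) S.card).erase (σ * S.card),
        (((σ * S.card : ℤ) : ℂ) - (c : ℂ)))⁻¹ •
      Polynomial.aeval (∑ s ∈ S, ρ s)
        (∏ c ∈ (Finset.Icc (-(S.card : ℤ)) S.card).erase (σ * S.card), (X - C (c : ℂ))) =
      (Fintype.card G : ℂ)⁻¹ • ∑ g : G, θ g⁻¹ • ρ g := by
  set e : ℤ := σ * S.card with he
  set I := Finset.Icc (-(S.card : ℤ)) S.card with hI
  have heI : e ∈ I := by
    rw [hI, Finset.mem_Icc, he]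
    rcases hσ with rfl | rfl <;> constructor <;> linarith [Int.natCast_nonneg S.card]
  set P : Polynomial ℂ := ∏ c ∈ I.erase e, (X - C (c : ℂ)) with hP
  set δ : ℂ := ∏ c ∈ I.erase e, (((e : ℤ) : ℂ) - (c : ℂ)) with hδ
  set A : Matrix (Fin d) (Fin d) ℂ := ∑ s ∈ S, ρ s with hA
  have hAS : A = qsS ρ S := rfl
  have hPe : P.eval (e : ℂ) = δ := by
    rw [hP, hδ, Polynomial.eval_prod]
    refine Finset.prod_congr rfl fun c _ => ?_
    simp
  have hδ0 : δ ≠ 0 := by
    rw [hδ, Finset.prod_ne_zero_iff]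
    intro c hc'
    rw [sub_ne_zero]
    intro h
    exact Finset.ne_of_mem_erase hc' (by exact_mod_cast h.symm)
  set E := δ⁻¹ • Polynomial.aeval A P with hE
  set Q : Matrix (Fin d) (Fin d) ℂ := (Fintype.card G : ℂ)⁻¹ • ∑ g : G, θ g⁻¹ • ρ g with hQ
  have hG : (Fintype.card G : ℂ) ≠ 0 := by
    rw [Nat.cast_ne_zero]
    exact Fintype.card_ne_zero
  -- (1)
  have h1 : A * E = (e : ℂ) • E := by
    have h2 := invol_spectrum S hS hc ρ
    rw [← hI, ← hA, ← Finset.mul_prod_erase I _ heI, ← hP, map_mul, map_sub, Polynomial.aeval_X,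
      Polynomial.aeval_C, sub_mul, sub_eq_zero, Algebra.algebraMap_eq_smul_one, smul_mul_assoc,
      one_mul] at h2
    rw [hE, mul_smul_comm, h2, smul_comm]
  -- (2)
  have h3 : ∀ s ∈ S, ρ s * E = (σ : ℂ) • E := by
    intro s hs
    ext i j
    have h4 : qsS ρ S *ᵥ (fun k => E k j) = (e : ℂ) • (fun k => E k j) := by
      funext k
      have := congrFun (congrFun h1 k) j
      rw [← hAS]
      exact this
    by_cases h0 : (fun k => E k j) = 0
    · have h5 : ∀ k, E k j = 0 := fun k => congrFun h0 k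
      rw [Matrix.mul_apply, Matrix.smul_apply, h5 i, smul_zero]
      exact Finset.sum_eq_zero fun k _ => by rw [h5 k, mul_zero]
    · have h6 := (qs_bound ρ hS hσ h0 h4).2 (by
        rw [he, ← mul_assoc]
        rcases hσ with rfl | rfl <;> simp) s hs
      exact congrFun h6 i
  -- (3)
  have hθ1 : ∀ g : G, θ g⁻¹ * θ g = 1 := fun g => by rw [← map_mul, inv_mul_cancel, map_one]
  have h7 : ∀ g : G, ρ g * E = θ g • E := by
    intro g
    have hg : g ∈ Subgroup.closure (S : Set G) := by rw [hgen]; exact Subgroup.mem_top g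
    induction hg using Subgroup.closure_induction with
    | mem s hs => rw [h3 s hs, hθ s hs]
    | one => rw [map_one, map_one, one_mul, one_smul]
    | mul a b _ _ ha hb => rw [map_mul, mul_assoc, hb, mul_smul_comm, ha, smul_smul, map_mul,
        mul_comm]
    | inv a _ ha =>
      have h8 : ρ a⁻¹ * (ρ a * E) = E := by rw [← mul_assoc, ← map_mul, inv_mul_cancel, map_one,
        one_mul]
      rw [ha, mul_smul_comm] at h8
      calc ρ a⁻¹ * E = (θ a⁻¹ * θ a) • (ρ a⁻¹ * E) := by rw [hθ1, one_smul]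
        _ = θ a⁻¹ • (θ a • (ρ a⁻¹ * E)) := by rw [mul_smul]
        _ = θ a⁻¹ • E := by rw [h8]
  -- (4)
  have h9 : Q * E = E := by
    rw [hQ, smul_mul_assoc, Finset.sum_mul]
    have h10 : ∀ g : G, θ g⁻¹ • ρ g * E = E := by
      intro g
      rw [smul_mul_assoc, h7, smul_smul, hθ1, one_smul]
    rw [Finset.sum_congr rfl fun g _ => h10 g, Finset.sum_const, Finset.card_univ,
      ← Nat.cast_smul_eq_nsmul ℂ, smul_smul, inv_mul_cancel₀ hG, one_smul]
  -- (5)
  have h11 : ∀ s ∈ S, ρ s * Q = (σ : ℂ) • Q := by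
    intro s hs
    have h22 : ρ s * ∑ g : G, θ g⁻¹ • ρ g = (σ : ℂ) • ∑ g : G, θ g⁻¹ • ρ g := by
      rw [Finset.mul_sum, Finset.smul_sum]
      refine Fintype.sum_equiv (Equiv.mulLeft s) _ _ fun g => ?_
      simp only [Equiv.coe_mulLeft]
      have h23 : θ s * θ (s * g)⁻¹ = θ g⁻¹ := by
        rw [_root_.mul_inv_rev, map_mul, mul_comm (θ g⁻¹), ← mul_assoc, mul_comm (θ s), hθ1,
          one_mul]
      rw [mul_smul_comm, ← map_mul, smul_smul, ← hθ s hs, h23]
    rw [hQ, mul_smul_comm, h22, smul_comm]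
  have h12 : A * Q = (e : ℂ) • Q := by
    rw [hA, Finset.sum_mul, Finset.sum_congr rfl h11, Finset.sum_const,
      ← Nat.cast_smul_eq_nsmul ℂ, smul_smul, he]
    push_cast
    rw [mul_comm]
  have h13 : E * Q = Q := by
    have h14 : Polynomial.aeval A P * Q = δ • Q := by
      ext i j
      have h15 : A *ᵥ (fun k => Q k j) = (e : ℂ) • (fun k => Q k j) := by
        funext k
        exact congrFun (congrFun h12 k) j
      have h16 := qs_aeval h15 P
      rw [hPe] at h16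
      exact congrFun h16 i
    rw [hE, smul_mul_assoc, h14, smul_smul, inv_mul_cancel₀ hδ0, one_smul]
  -- (6)
  have h17 : E * Q = Q * E := by
    have h19 : ∀ g, Commute (ρ g) (Polynomial.aeval A P) := fun g =>
      qs_comm_aeval (qsS_comm ρ hc g) P
    have h20 : ∀ g, Commute (ρ g) E := fun g => (h19 g).smul_right _
    have h21 : Commute Q E := by
      rw [hQ]
      refine Commute.smul_left ?_ _
      exact Commute.sum_left _ _ _ fun g _ => (h20 g).smul_left _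
    exact h21.symm.eq
  rw [← h9, ← h17, h13]

end

end Pool.Agent.CMFn
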