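import Mathlib
import Pool.Agent.CMFn.QSign

/-! Project CMF in rank `r` (MP_4af2a6_al), module Q3A (helper22): joint spectrum of the three
sums `Z_0, Z_1, Z_2` over reflections of order three. -/

namespace Pool.Agent.CMFn

open Matrix Polynomial

noncomputable section

section three

variable {G : Type} [Group G] {d : ℕ}

/-- `Z_j = Σ_{s ∈ S} Σ_{i < 3} ζ^{ij} s^i`. -/
def zJ (S : Finset G) (ζ : ℂ) (j : Fin 3) (ρ : G →* Matrix (Fin d) (Fin d) ℂ) :
    Matrix (Fin d) (Fin d) ℂ :=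
  ∑ s ∈ S, ∑ i ∈ Finset.range 3, ζ ^ (i * j.1) • ρ (s ^ i)

/-- The triples of natural numbers with sum `n`. -/
def tri (n : ℕ) : Finset (Fin 3 → ℕ) := Finset.Nat.antidiagonalTuple 3 n

/-- The value of the linear form `a` at `κ`. -/
def lin3 (κ : Fin 3 → ℂ) (a : Fin 3 → ℕ) : ℂ := ∑ j, κ j * (a j : ℂ)

theorem q3_mem_tri {n : ℕ} {a : Fin 3 → ℕ} : a ∈ tri n ↔ ∑ j, a j = n :=
  Finset.Nat.mem_antidiagonalTuple

/-- `Z_j` commutes with the elements of `S`. -/
theorem q3_comm (S : Finset G) (hc : ∀ g ∈ S, ∀ s ∈ S, g * s * g⁻¹ ∈ S) (ζ : ℂ) (j : Fin 3)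
    (ρ : G →* Matrix (Fin d) (Fin d) ℂ) {g : G} (hg : g ∈ S) :
    ρ g * zJ S ζ j ρ = zJ S ζ j ρ * ρ g := by
  classical
  have him : S.image (fun s => g * s * g⁻¹) = S := by
    apply Finset.eq_of_subset_of_card_le
    · intro x hx
      obtain ⟨s, hs, rfl⟩ := Finset.mem_image.1 hx
      exact hc g hg s hs
    · rw [Finset.card_image_of_injective]
      intro a b hab
      simpa using hab
  have hinj : ∀ s ∈ S, ∀ t ∈ S, g * s * g⁻¹ = g * t * g⁻¹ → s = t := by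
    intro s _ t _ h
    simpa using h
  have h1 : zJ S ζ j ρ = ∑ s ∈ S, ∑ i ∈ Finset.range 3, ζ ^ (i * j.1) • ρ ((g * s * g⁻¹) ^ i) := by
    unfold zJ
    conv_lhs => rw [← him]
    rw [Finset.sum_image hinj]
  conv_rhs => rw [h1]
  unfold zJ
  rw [Finset.mul_sum, Finset.sum_mul]
  refine Finset.sum_congr rfl fun s _ => ?_
  rw [Finset.mul_sum, Finset.sum_mul]
  refine Finset.sum_congr rfl fun i _ => ?_
  rw [mul_smul_comm, smul_mul_assoc, ← map_mul, ← map_mul, conj_pow]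
  congr 2
  group

theorem q3_comm_zJ (S : Finset G) (hc : ∀ g ∈ S, ∀ s ∈ S, g * s * g⁻¹ ∈ S) (ζ : ℂ)
    (j k : Fin 3) (ρ : G →* Matrix (Fin d) (Fin d) ℂ) :
    Commute (zJ S ζ k ρ) (zJ S ζ j ρ) := by
  conv_lhs => unfold zJ
  refine Commute.sum_left _ _ _ fun s hs => Commute.sum_left _ _ _ fun i _ => ?_
  refine Commute.smul_left ?_ _
  rw [map_pow]
  exact Commute.pow_left (q3_comm S hc ζ j ρ hs) i

/-- the trace of `Σ_i ζ^{ij} T^i` for `T^3 = 1` -/
theorem q3_trace {V : Type*} [AddCommGroup V] [Module ℂ V] [FiniteDimensional ℂ V]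
    (T : Module.End ℂ V) (hT : T ^ 3 = 1) (ζ : ℂ) (hζ : ζ ^ 3 = 1) (j : ℕ) :
    ∃ z : ℕ, z ≤ Module.finrank ℂ V ∧
      LinearMap.trace ℂ V (∑ i ∈ Finset.range 3, ζ ^ (i * j) • T ^ i) = 3 * z := by
  set U : Module.End ℂ V := ζ ^ j • T with hU
  have hU3 : U ^ 3 = 1 := by
    rw [hU, _root_.smul_pow, hT, ← pow_mul, mul_comm, pow_mul, hζ, one_pow, one_smul]
  set W : Module.End ℂ V := 1 + U + U ^ 2 with hW
  have hsum : ∑ i ∈ Finset.range 3, ζ ^ (i * j) • T ^ i = W := by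
    rw [hW, Finset.sum_range_succ, Finset.sum_range_succ, Finset.sum_range_succ,
      Finset.sum_range_zero, hU, _root_.smul_pow]
    simp only [zero_mul, pow_zero, one_smul, zero_add, one_mul, pow_one]
    rw [← pow_mul, mul_comm j 2]
  have hWU : W * U = W := by
    have e1 : W * U = U + U ^ 2 + U ^ 3 := by
      rw [hW]
      noncomm_ring
    rw [e1, hU3, hW]
    abel
  have hWW : W * W = (3 : ℂ) • W := by
    have e1 : W * W = W + W * U + W * U * U := by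
      conv_lhs => rw [show W * W = W * (1 + U + U ^ 2) by rw [← hW]]
      noncomm_ring
    rw [e1, hWU, hWU]
    module
  set P : Module.End ℂ V := (3⁻¹ : ℂ) • W with hP
  have h1 : IsIdempotentElem P := by
    show P * P = P
    rw [hP, smul_mul_smul_comm, hWW, smul_smul]
    congr 1
    norm_num
  have h2 := (LinearMap.IsIdempotentElem.isProj_range _ h1).trace
  have h3 : W = (3 : ℂ) • P := by
    rw [hP, smul_smul]
    norm_num
  refine ⟨Module.finrank ℂ (LinearMap.range P), Submodule.finrank_le _, ?_⟩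
  rw [hsum, h3, map_smul, h2, smul_eq_mul]

/-- eigenvalues of `Z_j` are rational, between `0` and `3 |S|` -/
theorem q3_rat (S : Finset G) (h3 : ∀ s ∈ S, s ^ 3 = 1)
    (hc : ∀ g ∈ S, ∀ s ∈ S, g * s * g⁻¹ ∈ S) (ζ : ℂ) (hζ : ζ ^ 3 = 1)
    (ρ : G →* Matrix (Fin d) (Fin d) ℂ) (j : Fin 3) {c : ℂ} {x : Fin d → ℂ} (hx : x ≠ 0)
    (hS : zJ S ζ j ρ *ᵥ x = c • x) :
    ∃ q : ℚ, c = q ∧ 0 ≤ q ∧ q ≤ 3 * S.card := by
  set L : Module.End ℂ (Fin d → ℂ) := Matrix.toLin' (zJ S ζ j ρ) with hL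
  set E := Module.End.eigenspace L c with hE
  have hmem : ∀ y, y ∈ E ↔ zJ S ζ j ρ *ᵥ y = c • y := by
    intro y
    rw [hE, Module.End.mem_eigenspace_iff, hL, Matrix.toLin'_apply]
  have hst : ∀ w ∈ S, ∀ y ∈ E, Matrix.toLin' (ρ w) y ∈ E := by
    intro w hw y hy
    rw [hmem] at hy ⊢
    rw [Matrix.toLin'_apply, Matrix.mulVec_mulVec, ← q3_comm S hc ζ j ρ hw,
      ← Matrix.mulVec_mulVec, hy, Matrix.mulVec_smul]
  classical
  set r : G → Module.End ℂ E := fun w =>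
    if hw : w ∈ S then (Matrix.toLin' (ρ w)).restrict (hst w hw) else 1 with hr
  have hrv : ∀ w ∈ S, ∀ y : E, ((r w y : E) : Fin d → ℂ) = ρ w *ᵥ y.1 := by
    intro w hw y
    rw [hr]
    simp only [dif_pos hw]
    rfl
  have hrp : ∀ w ∈ S, ∀ i : ℕ, ∀ y : E, (((r w ^ i) y : E) : Fin d → ℂ) = ρ (w ^ i) *ᵥ y.1 := by
    intro w hw i
    induction i with
    | zero => intro y; simp
    | succ n ih =>
      intro y
      rw [pow_succ, Module.End.mul_apply, ih, hrv w hw, Matrix.mulVec_mulVec, ← map_mul,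
        ← pow_succ]
  have h1 : ∑ s ∈ S, ∑ i ∈ Finset.range 3, ζ ^ (i * j.1) • r s ^ i =
      c • (1 : Module.End ℂ E) := by
    ext1 y
    apply Subtype.ext
    have h2 := (hmem y.1).1 y.2
    rw [zJ, Matrix.sum_mulVec] at h2
    rw [LinearMap.sum_apply, AddSubmonoidClass.coe_finsetSum]
    refine Eq.trans (Finset.sum_congr rfl fun s hs => ?_) h2
    rw [LinearMap.sum_apply, AddSubmonoidClass.coe_finsetSum, Matrix.sum_mulVec]
    refine Finset.sum_congr rfl fun i _ => ?_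
    rw [LinearMap.smul_apply, Submodule.coe_smul, hrp s hs, Matrix.smul_mulVec]
  have h4 : ∀ s ∈ S, ∃ z : ℕ, z ≤ Module.finrank ℂ E ∧
      LinearMap.trace ℂ E (∑ i ∈ Finset.range 3, ζ ^ (i * j.1) • r s ^ i) = 3 * z := by
    intro s hs
    apply q3_trace _ _ ζ hζ
    ext1 y
    apply Subtype.ext
    rw [hrp s hs, h3 s hs, map_one, Matrix.one_mulVec]
    rfl
  choose! z hzle hz using h4
  have h5 : (∑ s ∈ S, (3 * z s : ℂ)) = c * Module.finrank ℂ E := by
    have h6 := congrArg (LinearMap.trace ℂ E) h1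
    rw [map_sum, map_smul, LinearMap.trace_one, smul_eq_mul, Finset.sum_congr rfl hz] at h6
    exact h6
  have h6 : Module.finrank ℂ E ≠ 0 := by
    intro h7
    have h8 : E = ⊥ := Submodule.finrank_eq_zero.1 h7
    apply hx
    have h9 : x ∈ E := (hmem x).2 hS
    rw [h8] at h9
    exact (Submodule.mem_bot ℂ).1 h9
  have h6' : (Module.finrank ℂ E : ℂ) ≠ 0 := Nat.cast_ne_zero.2 h6
  have h6q : (0 : ℚ) < Module.finrank ℂ E := by
    exact_mod_cast Nat.pos_of_ne_zero h6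
  refine ⟨(∑ s ∈ S, (3 * z s : ℚ)) / Module.finrank ℂ E, ?_, ?_, ?_⟩
  · push_cast
    rw [h5]
    field_simp
  · exact div_nonneg (Finset.sum_nonneg fun s _ => by positivity) h6q.le
  · rw [div_le_iff₀ h6q]
    calc ∑ s ∈ S, (3 * z s : ℚ) ≤ ∑ s ∈ S, (3 * Module.finrank ℂ E : ℚ) := by
          refine Finset.sum_le_sum fun s hs => ?_
          have : (z s : ℚ) ≤ Module.finrank ℂ E := by exact_mod_cast hzle s hs
          linarith
      _ = 3 * S.card * Module.finrank ℂ E := by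
          rw [Finset.sum_const, nsmul_eq_mul]
          ring

/-- eigenvalues of `Z_j` are algebraic integers -/
theorem q3_alg [Finite G] (S : Finset G) (ζ : ℂ) (hζ : ζ ^ 3 = 1)
    (ρ : G →* Matrix (Fin d) (Fin d) ℂ) (j : Fin 3) {c : ℂ} {x : Fin d → ℂ} (hx : x ≠ 0)
    (hS : zJ S ζ j ρ *ᵥ x = c • x) : IsIntegral ℤ c := by
  set R := integralClosure ℤ ℂ with hR
  have hζi : IsIntegral ℤ ζ := by
    refine ⟨X ^ 3 - 1, monic_X_pow_sub_C (1 : ℤ) (by norm_num), ?_⟩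
    simp [hζ]
  set z : R := ⟨ζ, hζi⟩ with hz
  set a : MonoidAlgebra R G :=
    ∑ s ∈ S, ∑ i ∈ Finset.range 3, MonoidAlgebra.single (s ^ i) (z ^ (i * j.1)) with ha
  have h1 : IsIntegral R a := by
    have : Module.Finite R (MonoidAlgebra R G) := inferInstance
    exact IsIntegral.of_finite R a
  set φ : MonoidAlgebra R G →ₐ[R] Matrix (Fin d) (Fin d) ℂ := MonoidAlgebra.lift R _ G ρ with hφ
  have h2 : φ a = zJ S ζ j ρ := by
    rw [ha, map_sum, zJ]
    refine Finset.sum_congr rfl fun s _ => ?_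
    rw [map_sum]
    refine Finset.sum_congr rfl fun i _ => ?_
    rw [hφ, MonoidAlgebra.lift_single]
    rfl
  obtain ⟨p, hp, hp2⟩ := h1
  have h3 : Polynomial.aeval (zJ S ζ j ρ) p = 0 := by
    rw [← h2, Polynomial.aeval_algHom_apply]
    have : Polynomial.aeval a p = 0 := hp2
    rw [this, map_zero]
  have h4 : (Polynomial.aeval (zJ S ζ j ρ) p) *ᵥ x = (Polynomial.aeval c p) • x := by
    clear h3 hp hp2
    induction p using Polynomial.induction_on' with
    | add p q hp hq => rw [map_add, map_add, Matrix.add_mulVec, hp, hq, add_smul]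
    | monomial n w =>
      rw [Polynomial.aeval_monomial, Polynomial.aeval_monomial]
      have h5 : ∀ n : ℕ, (zJ S ζ j ρ) ^ n *ᵥ x = c ^ n • x := by
        intro n
        induction n with
        | zero => simp
        | succ n ih => rw [pow_succ', ← Matrix.mulVec_mulVec, ih, Matrix.mulVec_smul, hS, smul_smul,
            pow_succ]
      rw [← Algebra.smul_def, ← Algebra.smul_def, Matrix.smul_mulVec, h5, smul_assoc]
  rw [h3, Matrix.zero_mulVec] at h4
  have h5 : IsIntegral R c := by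
    refine ⟨p, hp, ?_⟩
    rcases smul_eq_zero.1 h4.symm with h5 | h5
    · exact h5
    · exact absurd h5 hx
  exact isIntegral_trans c h5

/-- eigenvalues of `Z_j` are natural numbers `≤ 3 |S|` -/
theorem q3_nat [Finite G] (S : Finset G) (h3 : ∀ s ∈ S, s ^ 3 = 1)
    (hc : ∀ g ∈ S, ∀ s ∈ S, g * s * g⁻¹ ∈ S) (ζ : ℂ) (hζ : ζ ^ 3 = 1)
    (ρ : G →* Matrix (Fin d) (Fin d) ℂ) (j : Fin 3) {c : ℂ} {x : Fin d → ℂ} (hx : x ≠ 0)
    (hS : zJ S ζ j ρ *ᵥ x = c • x) : ∃ m : ℕ, m < 3 * S.card + 1 ∧ c = m := by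
  obtain ⟨q, hq, hq0, hq1⟩ := q3_rat S h3 hc ζ hζ ρ j hx hS
  have h1 := q3_alg S ζ hζ ρ j hx hS
  have h2 : IsIntegral ℤ q := by
    have h3 : c = algebraMap ℚ ℂ q := by rw [hq]; rfl
    rw [h3] at h1
    exact (isIntegral_algebraMap_iff (algebraMap ℚ ℂ).injective).1 h1
  obtain ⟨z, hz⟩ := IsIntegrallyClosed.isIntegral_iff.1 h2
  have hz' : (z : ℚ) = q := by rw [← hz]; simp
  have hz0 : 0 ≤ z := by
    rw [← hz'] at hq0
    exact_mod_cast hq0
  obtain ⟨m, rfl⟩ := Int.eq_ofNat_of_zero_le hz0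
  refine ⟨m, ?_, ?_⟩
  · rw [← hz'] at hq1
    have : (m : ℚ) ≤ ((3 * S.card : ℕ) : ℚ) := by
      push_cast
      exact_mod_cast hq1
    have := Nat.cast_le.1 this
    omega
  · rw [hq, ← hz']
    push_cast
    rfl

/-- a polynomial vanishing at the eigenvalues of a unitarisable matrix kills it -/
theorem q3_herm_kill {Z B C : Matrix (Fin d) (Fin d) ℂ} (hBC : B * C = 1) (hCB : C * B = 1)
    (h1 : (B * Z * C).IsHermitian) (P : Polynomial ℂ)
    (h : ∀ (c : ℂ) (x : Fin d → ℂ), x ≠ 0 → Z *ᵥ x = c • x → P.eval c = 0) :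
    Polynomial.aeval Z P = 0 := by
  have h2 := qs_herm h1 P (by
    intro c x hx hS
    refine h c (C *ᵥ x) ?_ ?_
    · intro h0
      apply hx
      rw [← Matrix.one_mulVec x, ← hBC, ← Matrix.mulVec_mulVec, h0, Matrix.mulVec_zero]
    · rw [← Matrix.mulVec_mulVec, ← Matrix.mulVec_mulVec] at hS
      rw [← Matrix.mulVec_smul, ← hS]
      exact ((Matrix.mulVec_mulVec _ C B).trans (by rw [hCB, Matrix.one_mulVec])).symm)
  have h3 : ∀ P : Polynomial ℂ, Polynomial.aeval (B * Z * C) P =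
      B * Polynomial.aeval Z P * C := by
    intro P
    induction P using Polynomial.induction_on' with
    | add p q hp hq => rw [map_add, map_add, hp, hq, mul_add, add_mul]
    | monomial n z =>
      rw [Polynomial.aeval_monomial, Polynomial.aeval_monomial]
      have h5 : ∀ n : ℕ, (B * Z * C) ^ n = B * Z ^ n * C := by
        intro n
        induction n with
        | zero => simp [hBC]
        | succ n ih =>
          rw [pow_succ, ih, pow_succ]
          calc B * Z ^ n * C * (B * Z * C) = B * Z ^ n * (C * B) * Z * C := by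
                simp only [mul_assoc]
            _ = _ := by rw [hCB, mul_one]; simp only [mul_assoc]
      rw [h5, ← Algebra.smul_def, ← Algebra.smul_def, mul_smul_comm, smul_mul_assoc]
  rw [h3] at h2
  calc Polynomial.aeval Z P = (C * B) * Polynomial.aeval Z P * (C * B) := by
        rw [hCB, one_mul, mul_one]
    _ = C * (B * Polynomial.aeval Z P * C) * B := by simp only [mul_assoc]
    _ = 0 := by rw [h2, mul_zero, zero_mul]

/-- the unitarised `Z_j` is hermitian -/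
theorem q3_herm (S : Finset G) (h3 : ∀ s ∈ S, s ^ 3 = 1) (ζ : ℂ) (hζ : ζ ^ 3 = 1)
    (ρ : G →* Matrix (Fin d) (Fin d) ℂ) (j : Fin 3) {B C : Matrix (Fin d) (Fin d) ℂ}
    (hU : ∀ w, (B * ρ w * C)ᴴ = B * ρ w⁻¹ * C) : (B * zJ S ζ j ρ * C).IsHermitian := by
  have hstar : star ζ = ζ ^ 2 := by
    have h1 : ‖ζ‖ = 1 := by
      have h2 : ‖ζ‖ ^ 3 = 1 := by rw [← norm_pow, hζ, norm_one]
      exact (pow_eq_one_iff_of_nonneg (norm_nonneg _) (by norm_num)).1 h2
    have h2 : star ζ * ζ = 1 := by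
      have := Complex.conj_mul' ζ
      rw [h1] at this
      simpa using this
    calc star ζ = star ζ * ζ ^ 3 := by rw [hζ, mul_one]
      _ = (star ζ * ζ) * ζ ^ 2 := by ring
      _ = ζ ^ 2 := by rw [h2, one_mul]
  rw [Matrix.IsHermitian, zJ, Finset.mul_sum, Finset.sum_mul, conjTranspose_sum]
  refine Finset.sum_congr rfl fun s hs => ?_
  have hs2 : (s ^ 2)⁻¹ = s := by
    rw [inv_eq_iff_mul_eq_one, ← pow_succ, h3 s hs]
  have hs1 : s⁻¹ = s ^ 2 := by
    rw [inv_eq_iff_mul_eq_one, ← pow_succ', h3 s hs]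
  have hζ2 : ζ ^ (2 * j.1) = star (ζ ^ j.1) := by
    rw [star_pow, hstar, ← pow_mul]
  have hζ1 : ζ ^ j.1 = star (ζ ^ (2 * j.1)) := by
    rw [star_pow, hstar, ← pow_mul, show 2 * (2 * j.1) = 3 * j.1 + j.1 by ring, pow_add, pow_mul,
      hζ, one_pow, one_mul]
  have key : B * (∑ i ∈ Finset.range 3, ζ ^ (i * j.1) • ρ (s ^ i)) * C =
      B * ρ 1 * C + ζ ^ j.1 • (B * ρ s * C) + ζ ^ (2 * j.1) • (B * ρ (s ^ 2) * C) := by
    rw [Finset.sum_range_succ, Finset.sum_range_succ, Finset.sum_range_succ,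
      Finset.sum_range_zero]
    simp only [zero_mul, pow_zero, one_smul, zero_add, one_mul, pow_one, mul_add, add_mul,
      mul_smul_comm, smul_mul_assoc]
  rw [key, conjTranspose_add, conjTranspose_add, conjTranspose_smul, conjTranspose_smul, hU, hU,
    hU, inv_one, hs1, hs2, ← hζ2, ← hζ1]
  abel

/-- each `Z_j` is killed by the product of the `X - c`, `c ≤ 3 |S|` -/
theorem q3_kill1 [Fintype G] (S : Finset G) (h3 : ∀ s ∈ S, s ^ 3 = 1)
    (hc : ∀ g ∈ S, ∀ s ∈ S, g * s * g⁻¹ ∈ S) (ζ : ℂ) (hζ : ζ ^ 3 = 1)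
    (ρ : G →* Matrix (Fin d) (Fin d) ℂ) (j : Fin 3) :
    Polynomial.aeval (zJ S ζ j ρ)
      (∏ c ∈ Finset.range (3 * S.card + 1), (X - C (c : ℂ))) = 0 := by
  obtain ⟨B, C', hBC, hCB, hU⟩ := qs_unitary ρ
  refine q3_herm_kill hBC hCB (q3_herm S h3 ζ hζ ρ j hU) _ fun c x hx h => ?_
  obtain ⟨m, hm, rfl⟩ := q3_nat S h3 hc ζ hζ ρ j hx h
  rw [Polynomial.eval_prod]
  refine Finset.prod_eq_zero (i := m) (Finset.mem_range.2 hm) ?_
  simp

/-- `Z_0 + Z_1 + Z_2 = 3 |S|` -/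
theorem q3_sum (S : Finset G) (ζ : ℂ) (hζ : IsPrimitiveRoot ζ 3)
    (ρ : G →* Matrix (Fin d) (Fin d) ℂ) :
    ∑ j, zJ S ζ j ρ = ((3 * S.card : ℕ) : ℂ) • (1 : Matrix (Fin d) (Fin d) ℂ) := by
  have h3 : ζ ^ 3 = 1 := hζ.pow_eq_one
  have h0 : 1 + ζ + ζ ^ 2 = 0 := by
    have := hζ.geom_sum_eq_zero (by norm_num)
    rw [Finset.sum_range_succ, Finset.sum_range_succ, Finset.sum_range_succ,
      Finset.sum_range_zero] at this
    simpa using this
  unfold zJ
  rw [Finset.sum_comm]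
  have key : ∀ s ∈ S, ∑ j : Fin 3, ∑ i ∈ Finset.range 3, ζ ^ (i * j.1) • ρ (s ^ i) =
      (3 : ℂ) • (1 : Matrix (Fin d) (Fin d) ℂ) := by
    intro s _
    rw [Finset.sum_comm, Finset.sum_range_succ, Finset.sum_range_succ, Finset.sum_range_succ,
      Finset.sum_range_zero, zero_add]
    simp only [← Finset.sum_smul, Fin.sum_univ_three]
    have e0 : (ζ ^ (0 * (0 : Fin 3).1) + ζ ^ (0 * (1 : Fin 3).1) + ζ ^ (0 * (2 : Fin 3).1)) =
        3 := by
      norm_num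
    have e1 : (ζ ^ (1 * (0 : Fin 3).1) + ζ ^ (1 * (1 : Fin 3).1) + ζ ^ (1 * (2 : Fin 3).1)) =
        0 := by
      show ζ ^ 0 + ζ ^ 1 + ζ ^ 2 = 0
      linear_combination h0
    have e2 : (ζ ^ (2 * (0 : Fin 3).1) + ζ ^ (2 * (1 : Fin 3).1) + ζ ^ (2 * (2 : Fin 3).1)) =
        0 := by
      show ζ ^ 0 + ζ ^ 2 + ζ ^ 4 = 0
      linear_combination h0 + ζ * h3
    rw [e0, e1, e2, zero_smul, zero_smul, add_zero, add_zero, pow_zero, map_one]
  rw [Finset.sum_congr rfl key, Finset.sum_const, ← Nat.cast_smul_eq_nsmul ℂ, smul_smul]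
  congr 1
  push_cast
  ring

/-- a matrix which kills all joint eigenvectors of `Z_0, Z_1, Z_2` is zero -/
theorem q3_ext [Fintype G] (S : Finset G) (h3 : ∀ s ∈ S, s ^ 3 = 1)
    (hc : ∀ g ∈ S, ∀ s ∈ S, g * s * g⁻¹ ∈ S) (ζ : ℂ) (hζ : IsPrimitiveRoot ζ 3)
    (ρ : G →* Matrix (Fin d) (Fin d) ℂ) (M : Matrix (Fin d) (Fin d) ℂ)
    (hM : ∀ a ∈ tri (3 * S.card), ∀ x : Fin d → ℂ,
      (∀ j, zJ S ζ j ρ *ᵥ x = (a j : ℂ) • x) → M *ᵥ x = 0) : M = 0 := by
  have hζ3 : ζ ^ 3 = 1 := hζ.pow_eq_one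
  set f : Fin 3 → Module.End ℂ (Fin d → ℂ) := fun j => Matrix.toLin' (zJ S ζ j ρ) with hf
  have hss : ∀ j, (f j).IsSemisimple := by
    intro j
    refine Module.End.isSemisimple_of_squarefree_aeval_eq_zero
      (p := ∏ c ∈ Finset.range (3 * S.card + 1), (X - C (c : ℂ))) ?_ ?_
    · apply Polynomial.Separable.squarefree
      refine Polynomial.separable_prod_X_sub_C_iff'.2 ?_
      intro a _ b _ hab
      exact Nat.cast_injective hab
    · have h4 := q3_kill1 S h3 hc ζ hζ3 ρ j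
      have h5 : Polynomial.aeval (f j) (∏ c ∈ Finset.range (3 * S.card + 1), (X - C (c : ℂ))) =
          Matrix.toLinAlgEquiv' (Polynomial.aeval (zJ S ζ j ρ)
            (∏ c ∈ Finset.range (3 * S.card + 1), (X - C (c : ℂ)))) := by
        rw [← Polynomial.aeval_algHom_apply]
        rfl
      rw [h5, h4, map_zero]
  have hcomm : Pairwise fun i j ↦ Commute (f i) (f j) := by
    intro i j _
    show f i * f j = f j * f i
    have h4 := q3_comm_zJ S hc ζ j i ρ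
    rw [hf]
    simp only
    rw [Module.End.mul_eq_comp, Module.End.mul_eq_comp, ← Matrix.toLin'_mul, ← Matrix.toLin'_mul,
      h4.eq]
  have htop := Module.End.iSup_iInf_maxGenEigenspace_eq_top_of_iSup_maxGenEigenspace_eq_top_of_commute
    f hcomm (fun j => Module.End.iSup_maxGenEigenspace_eq_top (f j))
  have hle : (⊤ : Submodule ℂ (Fin d → ℂ)) ≤ LinearMap.ker (Matrix.toLin' M) := by
    rw [← htop]
    refine iSup_le fun χ x hx => ?_
    rw [LinearMap.mem_ker, Matrix.toLin'_apply]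
    have hx' : ∀ j, zJ S ζ j ρ *ᵥ x = χ j • x := by
      intro j
      have h4 := (Submodule.mem_iInf _).1 hx j
      rw [((hss j).isFinitelySemisimple).maxGenEigenspace_eq_eigenspace,
        Module.End.mem_eigenspace_iff] at h4
      rw [← h4, hf]
      simp only [Matrix.toLin'_apply]
    by_cases h0 : x = 0
    · rw [h0, Matrix.mulVec_zero]
    · have h5 : ∀ j, ∃ m : ℕ, m < 3 * S.card + 1 ∧ χ j = m := fun j =>
        q3_nat S h3 hc ζ hζ3 ρ j h0 (hx' j)
      choose m _ hm using h5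
      refine hM m (q3_mem_tri.2 ?_) x fun j => by rw [hx' j, hm j]
      have h6 := congrArg (fun A => A *ᵥ x) (q3_sum S ζ hζ ρ)
      simp only [Matrix.sum_mulVec, Matrix.smul_mulVec, Matrix.one_mulVec, hx', hm] at h6
      rw [← Finset.sum_smul, ← sub_eq_zero, ← sub_smul, smul_eq_zero] at h6
      rcases h6 with h6 | h6
      · rw [sub_eq_zero] at h6
        exact_mod_cast h6
      · exact absurd h6 h0
  have h7 : Matrix.toLin' M = 0 := LinearMap.ker_eq_top.1 (top_le_iff.1 hle)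
  exact (LinearEquiv.map_eq_zero_iff Matrix.toLin').1 h7

variable [Fintype G]

/-- The joint eigenvalues of `Z_0, Z_1, Z_2` are triples of natural numbers with sum `3 |S|`.
(`S` is stable under conjugation by its elements; every `s ∈ S` has `s^3 = 1`.) -/
theorem q3_kill (S : Finset G) (h3 : ∀ s ∈ S, s ^ 3 = 1)
    (hc : ∀ g ∈ S, ∀ s ∈ S, g * s * g⁻¹ ∈ S) (ζ : ℂ) (hζ : IsPrimitiveRoot ζ 3)
    (ρ : G →* Matrix (Fin d) (Fin d) ℂ) (κ : Fin 3 → ℂ) :
    Polynomial.aeval (∑ j, κ j • zJ S ζ j ρ)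
      (∏ a ∈ tri (3 * S.card), (X - C (lin3 κ a))) = 0 := by
  refine q3_ext S h3 hc ζ hζ ρ _ fun a ha x hx => ?_
  have h1 : (∑ j, κ j • zJ S ζ j ρ) *ᵥ x = lin3 κ a • x := by
    rw [Matrix.sum_mulVec, lin3, Finset.sum_smul]
    refine Finset.sum_congr rfl fun j _ => ?_
    rw [Matrix.smul_mulVec, hx, smul_smul]
  rw [qs_aeval h1, Polynomial.eval_prod, Finset.prod_eq_zero ha (by simp), zero_smul]

/-- The spectral projection of `Σ_j κ_j Z_j` for the joint eigenvalue `c` is `P`, if `P` is the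
value of an element with `Z_j P = c_j P` and `1 - P` is divisible by the `Z_j - c_j`. -/
theorem q3_proj (S : Finset G) (h3 : ∀ s ∈ S, s ^ 3 = 1)
    (hc : ∀ g ∈ S, ∀ s ∈ S, g * s * g⁻¹ ∈ S) (ζ : ℂ) (hζ : IsPrimitiveRoot ζ 3)
    (ρ : G →* Matrix (Fin d) (Fin d) ℂ) (κ : Fin 3 → ℂ) (c : Fin 3 → ℕ)
    (hcm : c ∈ tri (3 * S.card)) (hκ : ∀ a ∈ tri (3 * S.card), a ≠ c → lin3 κ a ≠ lin3 κ c)
    (P B : Matrix (Fin d) (Fin d) ℂ) (t : Fin 3 → ℂ)
    (hP : ∀ j, zJ S ζ j ρ * P = (c j : ℂ) • P)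
    (hB : (∑ j, t j • (zJ S ζ j ρ - (c j : ℂ) • 1)) * B = 1 - P) :
    (∏ a ∈ (tri (3 * S.card)).erase c, (lin3 κ c - lin3 κ a))⁻¹ •
      Polynomial.aeval (∑ j, κ j • zJ S ζ j ρ)
        (∏ a ∈ (tri (3 * S.card)).erase c, (X - C (lin3 κ a))) = P := by
  have _ := hcm
  set Q : Polynomial ℂ := ∏ a ∈ (tri (3 * S.card)).erase c, (X - C (lin3 κ a)) with hQ
  set δ : ℂ := ∏ a ∈ (tri (3 * S.card)).erase c, (lin3 κ c - lin3 κ a) with hδ
  set A : Matrix (Fin d) (Fin d) ℂ := ∑ j, κ j • zJ S ζ j ρ with hA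
  set D : Matrix (Fin d) (Fin d) ℂ := ∑ j, t j • (zJ S ζ j ρ - (c j : ℂ) • 1) with hD
  have hAx : ∀ (a : Fin 3 → ℕ) (x : Fin d → ℂ), (∀ j, zJ S ζ j ρ *ᵥ x = (a j : ℂ) • x) →
      A *ᵥ x = lin3 κ a • x := by
    intro a x hx
    rw [hA, Matrix.sum_mulVec, lin3, Finset.sum_smul]
    refine Finset.sum_congr rfl fun j _ => ?_
    rw [Matrix.smul_mulVec, hx, smul_smul]
  have hQc : Q.eval (lin3 κ c) = δ := by
    rw [hQ, hδ, Polynomial.eval_prod]
    refine Finset.prod_congr rfl fun a _ => ?_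
    simp
  have hδ0 : δ ≠ 0 := by
    rw [hδ, Finset.prod_ne_zero_iff]
    intro a ha
    rw [sub_ne_zero]
    exact (hκ a (Finset.mem_of_mem_erase ha) (Finset.ne_of_mem_erase ha)).symm
  have hQa : ∀ a ∈ tri (3 * S.card), a ≠ c → Q.eval (lin3 κ a) = 0 := by
    intro a ha hac
    rw [hQ, Polynomial.eval_prod]
    exact Finset.prod_eq_zero (Finset.mem_erase.2 ⟨hac, ha⟩) (by simp)
  -- `Q(A) D = 0`
  have h1 : Polynomial.aeval A Q * D = 0 := by
    refine q3_ext S h3 hc ζ hζ ρ _ fun a ha x hx => ?_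
    have h2 : D *ᵥ x = (∑ j, t j * ((a j : ℂ) - c j)) • x := by
      rw [hD, Matrix.sum_mulVec, Finset.sum_smul]
      refine Finset.sum_congr rfl fun j _ => ?_
      rw [Matrix.smul_mulVec, Matrix.sub_mulVec, hx, Matrix.smul_mulVec, Matrix.one_mulVec,
        ← sub_smul, smul_smul]
    rw [← Matrix.mulVec_mulVec, h2, Matrix.mulVec_smul, qs_aeval (hAx a x hx)]
    by_cases hac : a = c
    · rw [hac]
      simp
    · rw [hQa a ha hac, zero_smul, smul_zero]
  -- `Q(A) (1 - P) = 0`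
  have h2 : Polynomial.aeval A Q * P = Polynomial.aeval A Q := by
    have h4 : Polynomial.aeval A Q * (1 - P) = 0 := by
      rw [← hB, ← mul_assoc, h1, zero_mul]
    rw [mul_sub, mul_one, sub_eq_zero] at h4
    exact h4.symm
  -- `Q(A) P = δ P`
  have h5 : Polynomial.aeval A Q * P = δ • P := by
    ext i k
    have h6 : ∀ j, zJ S ζ j ρ *ᵥ (fun l => P l k) = (c j : ℂ) • (fun l => P l k) := by
      intro j
      funext l
      exact congrFun (congrFun (hP j) l) k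
    have h7 := qs_aeval (hAx c _ h6) Q
    rw [hQc] at h7
    exact congrFun h7 i
  rw [← h2, h5, smul_smul, inv_mul_cancel₀ hδ0, one_smul]

end three

end

end Pool.Agent.CMFn
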