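import Mathlib
import Pool.Agent.CMFn.Q3A

/-! Project CMF in rank `r` (MP_4af2a6_al), module Q3E (helper22): the extreme joint eigenvalue
of `Z_0, Z_1, Z_2` over reflections of order three. -/

namespace Pool.Agent.CMFn

open Matrix Polynomial

noncomputable section

section three

variable {G : Type} [Group G] {d : ℕ}

/-- the trace of `Σ_i ζ^{ij} T^i` for `T^3 = 1`; if it is extreme then `ζ^j T = 1` -/
theorem q3_trace' {V : Type*} [AddCommGroup V] [Module ℂ V] [FiniteDimensional ℂ V]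
    (T : Module.End ℂ V) (hT : T ^ 3 = 1) (ζ : ℂ) (hζ : ζ ^ 3 = 1) (j : ℕ) :
    ∃ z : ℕ, z ≤ Module.finrank ℂ V ∧
      LinearMap.trace ℂ V (∑ i ∈ Finset.range 3, ζ ^ (i * j) • T ^ i) = 3 * z ∧
      (z = Module.finrank ℂ V → ζ ^ j • T = 1) := by
  set U : Module.End ℂ V := ζ ^ j • T with hU
  have hU3 : U ^ 3 = 1 := by
    rw [hU, _root_.smul_pow, hT, ← pow_mul, mul_comm, pow_mul, hζ, one_pow, one_smul]
  set W : Module.End ℂ V := 1 + U + U ^ 2 with hW
  have hsum : ∑ i ∈ Finset.range 3, ζ ^ (i * j) • T ^ i = W := by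
    rw [hW, Finset.sum_range_succ, Finset.sum_range_succ, Finset.sum_range_succ,
      Finset.sum_range_zero, hU, _root_.smul_pow]
    simp only [zero_mul, pow_zero, one_smul, zero_add, one_mul, pow_one]
    rw [← pow_mul, mul_comm j 2]
  have hWU : W * U = W := by
    have e1 : W * U = U + U ^ 2 + U ^ 3 := by
      rw [hW]
      noncomm_ring
    rw [e1, hU3, hW]
    abel
  have hWW : W * W = (3 : ℂ) • W := by
    have e1 : W * W = W + W * U + W * U * U := by
      conv_lhs => rw [show W * W = W * (1 + U + U ^ 2) by rw [← hW]]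
      noncomm_ring
    rw [e1, hWU, hWU]
    module
  set P : Module.End ℂ V := (3⁻¹ : ℂ) • W with hP
  have h1 : IsIdempotentElem P := by
    show P * P = P
    rw [hP, smul_mul_smul_comm, hWW, smul_smul]
    congr 1
    norm_num
  have h2 := (LinearMap.IsIdempotentElem.isProj_range _ h1).trace
  have h3 : W = (3 : ℂ) • P := by
    rw [hP, smul_smul]
    norm_num
  refine ⟨Module.finrank ℂ (LinearMap.range P), Submodule.finrank_le _, ?_, fun hfr => ?_⟩
  · rw [hsum, h3, map_smul, h2, smul_eq_mul]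
  · have hr : LinearMap.range P = ⊤ := Submodule.eq_top_of_finrank_eq hfr
    have hP1 : P = 1 := by
      ext1 v
      have hv : v ∈ LinearMap.range P := by rw [hr]; exact Submodule.mem_top
      obtain ⟨u, rfl⟩ := hv
      rw [← Module.End.mul_apply, h1.eq]
      rfl
    have hPU : P * U = P := by
      rw [hP, smul_mul_assoc, hWU]
    rwa [hP1, one_mul] at hPU

/-- on the eigenspace of `Z_j` with eigenvalue `3 |S|` the elements of `S` are scalars -/
theorem q3_top (S : Finset G) (h3 : ∀ s ∈ S, s ^ 3 = 1)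
    (hc : ∀ g ∈ S, ∀ s ∈ S, g * s * g⁻¹ ∈ S) (ζ : ℂ) (hζ : ζ ^ 3 = 1)
    (ρ : G →* Matrix (Fin d) (Fin d) ℂ) (j : Fin 3) {x : Fin d → ℂ}
    (hS : zJ S ζ j ρ *ᵥ x = ((3 * S.card : ℕ) : ℂ) • x) {s : G} (hs : s ∈ S) :
    ζ ^ j.1 • ρ s *ᵥ x = x := by
  set c : ℂ := ((3 * S.card : ℕ) : ℂ) with hcdef
  set L : Module.End ℂ (Fin d → ℂ) := Matrix.toLin' (zJ S ζ j ρ) with hL
  set E := Module.End.eigenspace L c with hE
  have hmem : ∀ y, y ∈ E ↔ zJ S ζ j ρ *ᵥ y = c • y := by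
    intro y
    rw [hE, Module.End.mem_eigenspace_iff, hL, Matrix.toLin'_apply]
  have hst : ∀ w ∈ S, ∀ y ∈ E, Matrix.toLin' (ρ w) y ∈ E := by
    intro w hw y hy
    rw [hmem] at hy ⊢
    rw [Matrix.toLin'_apply, Matrix.mulVec_mulVec, ← q3_comm S hc ζ j ρ hw,
      ← Matrix.mulVec_mulVec, hy, Matrix.mulVec_smul]
  classical
  set r : G → Module.End ℂ E := fun w =>
    if hw : w ∈ S then (Matrix.toLin' (ρ w)).restrict (hst w hw) else 1 with hr
  have hrv : ∀ w ∈ S, ∀ y : E, ((r w y : E) : Fin d → ℂ) = ρ w *ᵥ y.1 := by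
    intro w hw y
    rw [hr]
    simp only [dif_pos hw]
    rfl
  have hrp : ∀ w ∈ S, ∀ i : ℕ, ∀ y : E, (((r w ^ i) y : E) : Fin d → ℂ) = ρ (w ^ i) *ᵥ y.1 := by
    intro w hw i
    induction i with
    | zero => intro y; simp
    | succ n ih =>
      intro y
      rw [pow_succ, Module.End.mul_apply, ih, hrv w hw, Matrix.mulVec_mulVec, ← map_mul,
        ← pow_succ]
  have h1 : ∑ s ∈ S, ∑ i ∈ Finset.range 3, ζ ^ (i * j.1) • r s ^ i =
      c • (1 : Module.End ℂ E) := by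
    ext1 y
    apply Subtype.ext
    have h2 := (hmem y.1).1 y.2
    rw [zJ, Matrix.sum_mulVec] at h2
    rw [LinearMap.sum_apply, AddSubmonoidClass.coe_finsetSum]
    refine Eq.trans (Finset.sum_congr rfl fun s hs => ?_) h2
    rw [LinearMap.sum_apply, AddSubmonoidClass.coe_finsetSum, Matrix.sum_mulVec]
    refine Finset.sum_congr rfl fun i _ => ?_
    rw [LinearMap.smul_apply, Submodule.coe_smul, hrp s hs, Matrix.smul_mulVec]
  have h4 : ∀ s ∈ S, ∃ z : ℕ, z ≤ Module.finrank ℂ E ∧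
      LinearMap.trace ℂ E (∑ i ∈ Finset.range 3, ζ ^ (i * j.1) • r s ^ i) = 3 * z ∧
      (z = Module.finrank ℂ E → ζ ^ j.1 • r s = 1) := by
    intro s hs
    apply q3_trace' _ _ ζ hζ
    ext1 y
    apply Subtype.ext
    rw [hrp s hs, h3 s hs, map_one, Matrix.one_mulVec]
    rfl
  choose! z hzle hz hz1 using h4
  have h5 : (∑ s ∈ S, (3 * z s : ℂ)) = c * Module.finrank ℂ E := by
    have h6 := congrArg (LinearMap.trace ℂ E) h1
    rw [map_sum, map_smul, LinearMap.trace_one, smul_eq_mul, Finset.sum_congr rfl hz] at h6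
    exact h6
  have h7 : ∑ s ∈ S, z s = ∑ s ∈ S, Module.finrank ℂ E := by
    rw [hcdef, ← Finset.mul_sum] at h5
    have h8 : ((3 * ∑ s ∈ S, z s : ℕ) : ℂ) = ((3 * S.card * Module.finrank ℂ E : ℕ) : ℂ) := by
      push_cast
      push_cast at h5
      exact h5
    have h9 := Nat.cast_injective h8
    rw [Finset.sum_const, smul_eq_mul]
    rw [mul_assoc] at h9
    exact Nat.eq_of_mul_eq_mul_left (by norm_num) h9
  have h8 : z s = Module.finrank ℂ E :=
    (Finset.sum_eq_sum_iff_of_le (fun i hi => hzle i hi)).1 h7 s hs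
  have h9 := hz1 s hs h8
  have hxE : x ∈ E := (hmem x).2 hS
  have h10 := congrArg (fun T : Module.End ℂ E => ((T ⟨x, hxE⟩ : E) : Fin d → ℂ)) h9
  simp only [LinearMap.smul_apply, Submodule.coe_smul, hrv s hs, Module.End.one_apply] at h10
  exact h10

variable [Fintype G]

/-- The extreme eigenvalue `(0, .., 3 |S|, .., 0)` (place `j`): the spectral element is a multiple
of the idempotent of a linear character of the subgroup `W` generated by `S`. -/
theorem q3_extreme_mat (S : Finset G) (h3 : ∀ s ∈ S, s ^ 3 = 1)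
    (hc : ∀ g ∈ S, ∀ s ∈ S, g * s * g⁻¹ ∈ S) (ζ : ℂ) (hζ : IsPrimitiveRoot ζ 3)
    (ρ : G →* Matrix (Fin d) (Fin d) ℂ) (κ : Fin 3 → ℂ) (j : Fin 3)
    (W : Finset G) (hW : ∀ w, w ∈ W ↔ w ∈ Subgroup.closure (S : Set G))
    (θ : G → ℂ) (hθ1 : θ 1 = 1) (hθm : ∀ a ∈ Subgroup.closure (S : Set G),
      ∀ b ∈ Subgroup.closure (S : Set G), θ (a * b) = θ a * θ b)
    (hθ : ∀ s ∈ S, θ s = ζ ^ j.1) :
    Polynomial.aeval (∑ j, κ j • zJ S ζ j ρ)
      (∏ a ∈ (tri (3 * S.card)).erase (Pi.single j (3 * S.card)), (X - C (lin3 κ a))) =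
      (∏ a ∈ (tri (3 * S.card)).erase (Pi.single j (3 * S.card)),
        (lin3 κ (Pi.single j (3 * S.card)) - lin3 κ a)) •
      ((W.card : ℂ)⁻¹ • ∑ w ∈ W, θ w • ρ w) := by
  classical
  have hζ3 : ζ ^ 3 = 1 := hζ.pow_eq_one
  set c : Fin 3 → ℕ := Pi.single j (3 * S.card) with hcdef
  have hcj : c j = 3 * S.card := by rw [hcdef, Pi.single_eq_same]
  set Q : Polynomial ℂ := ∏ a ∈ (tri (3 * S.card)).erase c, (X - C (lin3 κ a)) with hQ
  set δ : ℂ := ∏ a ∈ (tri (3 * S.card)).erase c, (lin3 κ c - lin3 κ a) with hδ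
  set A : Matrix (Fin d) (Fin d) ℂ := ∑ j, κ j • zJ S ζ j ρ with hA
  set P : Matrix (Fin d) (Fin d) ℂ := (W.card : ℂ)⁻¹ • ∑ w ∈ W, θ w • ρ w with hP
  have hW1 : (1 : G) ∈ W := (hW 1).2 (Subgroup.one_mem _)
  have hWc : (W.card : ℂ) ≠ 0 := by
    rw [Nat.cast_ne_zero]
    exact Finset.card_ne_zero_of_mem hW1
  have hAx : ∀ (a : Fin 3 → ℕ) (x : Fin d → ℂ), (∀ j, zJ S ζ j ρ *ᵥ x = (a j : ℂ) • x) →
      A *ᵥ x = lin3 κ a • x := by
    intro a x hx
    rw [hA, Matrix.sum_mulVec, lin3, Finset.sum_smul]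
    refine Finset.sum_congr rfl fun j _ => ?_
    rw [Matrix.smul_mulVec, hx, smul_smul]
  have hQc : Q.eval (lin3 κ c) = δ := by
    rw [hQ, hδ, Polynomial.eval_prod]
    refine Finset.prod_congr rfl fun a _ => ?_
    simp
  have hQa : ∀ a ∈ tri (3 * S.card), a ≠ c → Q.eval (lin3 κ a) = 0 := by
    intro a ha hac
    rw [hQ, Polynomial.eval_prod]
    exact Finset.prod_eq_zero (Finset.mem_erase.2 ⟨hac, ha⟩) (by simp)
  -- `θ(s) ρ(s) P = P`
  have hsP : ∀ s ∈ S, θ s • (ρ s * P) = P := by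
    intro s hs
    have hsc : s ∈ Subgroup.closure (S : Set G) := Subgroup.subset_closure hs
    have h1 : θ s • (ρ s * ∑ w ∈ W, θ w • ρ w) = ∑ w ∈ W, θ w • ρ w := by
      rw [Finset.mul_sum, Finset.smul_sum]
      refine Finset.sum_bij (fun w _ => s * w) (fun w hw => (hW _).2
        (Subgroup.mul_mem _ hsc ((hW w).1 hw))) ?_ ?_ ?_
      · intro a _ b _ h
        simpa using h
      · intro w hw
        refine ⟨s⁻¹ * w, (hW _).2 (Subgroup.mul_mem _ (Subgroup.inv_mem _ hsc) ((hW w).1 hw)), ?_⟩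
        group
      · intro w hw
        rw [hθm s hsc w ((hW w).1 hw), mul_smul_comm, smul_smul, map_mul]
    rw [hP, mul_smul_comm, smul_comm, h1]
  have hsP2 : ∀ s ∈ S, ∀ i : ℕ, ζ ^ (i * j.1) • (ρ (s ^ i) * P) = P := by
    intro s hs i
    induction i with
    | zero => simp
    | succ n ih =>
      have h1 := hsP s hs
      rw [hθ s hs] at h1
      calc ζ ^ ((n + 1) * j.1) • (ρ (s ^ (n + 1)) * P) =
          ζ ^ (n * j.1) • (ρ (s ^ n) * (ζ ^ j.1 • (ρ s * P))) := by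
            rw [mul_smul_comm (ζ ^ j.1) (ρ (s ^ n)) (ρ s * P), smul_smul, ← mul_assoc, ← map_mul,
              ← pow_succ, ← pow_add, Nat.succ_mul]
        _ = P := by rw [h1, ih]
  have hZP : zJ S ζ j ρ * P = ((3 * S.card : ℕ) : ℂ) • P := by
    rw [zJ, Finset.sum_mul]
    have h1 : ∀ s ∈ S, (∑ i ∈ Finset.range 3, ζ ^ (i * j.1) • ρ (s ^ i)) * P = (3 : ℂ) • P := by
      intro s hs
      rw [Finset.sum_mul]
      have h2 : ∀ i ∈ Finset.range 3, ζ ^ (i * j.1) • ρ (s ^ i) * P = P := by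
        intro i _
        rw [smul_mul_assoc]
        exact hsP2 s hs i
      rw [Finset.sum_congr rfl h2, Finset.sum_const, Finset.card_range,
        ← Nat.cast_smul_eq_nsmul ℂ]
      norm_num
    rw [Finset.sum_congr rfl h1, Finset.sum_const, ← Nat.cast_smul_eq_nsmul ℂ, smul_smul]
    congr 1
    push_cast
    ring
  -- `P` commutes with `Z_k`
  have hcommW : ∀ k, ∀ w ∈ Subgroup.closure (S : Set G), Commute (ρ w) (zJ S ζ k ρ) := by
    intro k w hw
    induction hw using Subgroup.closure_induction with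
    | mem s hs => exact q3_comm S hc ζ k ρ hs
    | one => rw [map_one]; exact Commute.one_left _
    | mul a b _ _ ha hb => rw [map_mul]; exact Commute.mul_left ha hb
    | inv a _ ha =>
      have e1 : ρ a⁻¹ * ρ a = 1 := by rw [← map_mul, inv_mul_cancel, map_one]
      have e2 : ρ a * ρ a⁻¹ = 1 := by rw [← map_mul, mul_inv_cancel, map_one]
      show ρ a⁻¹ * zJ S ζ k ρ = zJ S ζ k ρ * ρ a⁻¹
      calc ρ a⁻¹ * zJ S ζ k ρ = ρ a⁻¹ * (zJ S ζ k ρ * ρ a) * ρ a⁻¹ := by
            rw [mul_assoc, mul_assoc, e2, mul_one]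
        _ = ρ a⁻¹ * (ρ a * zJ S ζ k ρ) * ρ a⁻¹ := by rw [ha.eq]
        _ = zJ S ζ k ρ * ρ a⁻¹ := by rw [← mul_assoc, e1, one_mul]
  have hPZ : ∀ k, zJ S ζ k ρ * P = P * zJ S ζ k ρ := by
    intro k
    have h1 : Commute P (zJ S ζ k ρ) := by
      rw [hP]
      refine Commute.smul_left ?_ _
      exact Commute.sum_left _ _ _ fun w hw => (hcommW k w ((hW w).1 hw)).smul_left _
    exact h1.symm.eq
  have hM : Polynomial.aeval A Q - δ • P = 0 := by
    refine q3_ext S h3 hc ζ hζ ρ _ fun a ha x hx => ?_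
    rw [Matrix.sub_mulVec, qs_aeval (hAx a x hx), Matrix.smul_mulVec]
    by_cases hac : a = c
    · -- `P x = x`
      have hx1 : ∀ s ∈ S, θ s • (ρ s *ᵥ x) = x := by
        intro s hs
        rw [hθ s hs, ← Matrix.smul_mulVec]
        have h1 := hx j
        rw [hac, hcj] at h1
        have h2 := q3_top S h3 hc ζ hζ3 ρ j h1 hs
        rw [Matrix.smul_mulVec]
        exact h2
      have hx2 : ∀ w ∈ Subgroup.closure (S : Set G), θ w • (ρ w *ᵥ x) = x := by
        intro w hw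
        induction hw using Subgroup.closure_induction with
        | mem s hs => exact hx1 s hs
        | one => rw [hθ1, map_one, Matrix.one_mulVec, one_smul]
        | mul a b ha' hb' ha hb =>
          calc θ (a * b) • (ρ (a * b) *ᵥ x) = θ a • (ρ a *ᵥ (θ b • (ρ b *ᵥ x))) := by
                rw [hθm a ha' b hb', map_mul, Matrix.mulVec_smul, smul_smul,
                  Matrix.mulVec_mulVec]
            _ = x := by rw [hb, ha]
        | inv a ha' ha =>
          have ha'' : a⁻¹ ∈ Subgroup.closure (S : Set G) := Subgroup.inv_mem _ ha'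
          calc θ a⁻¹ • (ρ a⁻¹ *ᵥ x) = θ a⁻¹ • (ρ a⁻¹ *ᵥ (θ a • (ρ a *ᵥ x))) := by rw [ha]
            _ = θ (a⁻¹ * a) • (ρ (a⁻¹ * a) *ᵥ x) := by
                rw [hθm _ ha'' a ha', map_mul, Matrix.mulVec_smul, smul_smul,
                  Matrix.mulVec_mulVec]
            _ = x := by rw [inv_mul_cancel, hθ1, map_one, Matrix.one_mulVec, one_smul]
      have hPx : P *ᵥ x = x := by
        rw [hP, Matrix.smul_mulVec, Matrix.sum_mulVec]
        have h1 : ∀ w ∈ W, (θ w • ρ w) *ᵥ x = x := by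
          intro w hw
          rw [Matrix.smul_mulVec]
          exact hx2 w ((hW w).1 hw)
        rw [Finset.sum_congr rfl h1, Finset.sum_const, ← Nat.cast_smul_eq_nsmul ℂ, smul_smul,
          inv_mul_cancel₀ hWc, one_smul]
      rw [hPx, hac, hQc, sub_self]
    · have hPx : P *ᵥ x = 0 := by
        by_contra hne
        apply hac
        have h1 : zJ S ζ j ρ *ᵥ (P *ᵥ x) = (a j : ℂ) • (P *ᵥ x) := by
          rw [Matrix.mulVec_mulVec, hPZ, ← Matrix.mulVec_mulVec, hx, Matrix.mulVec_smul]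
        have h2 : zJ S ζ j ρ *ᵥ (P *ᵥ x) = ((3 * S.card : ℕ) : ℂ) • (P *ᵥ x) := by
          rw [Matrix.mulVec_mulVec, hZP, Matrix.smul_mulVec]
        rw [h1, ← sub_eq_zero, ← sub_smul, smul_eq_zero] at h2
        have h4 : a j = 3 * S.card := by
          rcases h2 with h2 | h2
          · rw [sub_eq_zero] at h2
            exact Nat.cast_injective h2
          · exact absurd h2 hne
        have h5 := q3_mem_tri.1 ha
        rw [← Finset.add_sum_erase _ _ (Finset.mem_univ j), h4] at h5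
        have h6 : ∑ k ∈ Finset.univ.erase j, a k = 0 := by omega
        rw [Finset.sum_eq_zero_iff] at h6
        funext k
        by_cases hk : k = j
        · rw [hk, h4, hcj]
        · rw [h6 k (Finset.mem_erase.2 ⟨hk, Finset.mem_univ k⟩), hcdef, Pi.single_eq_of_ne hk]
      rw [hPx, hQa a ha hac, zero_smul, smul_zero, sub_self]
  exact sub_eq_zero.1 hM

/-- The extreme eigenvalue `(0, .., 3 |S|, .., 0)` (place `j`): the trace of the spectral element
is the multiplicity of the linear character `θ⁻¹`, `θ(s) = ζ^j` on `S`, in the restriction to the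
subgroup `W` generated by `S`. -/
theorem q3_extreme (S : Finset G) (h3 : ∀ s ∈ S, s ^ 3 = 1)
    (hc : ∀ g ∈ S, ∀ s ∈ S, g * s * g⁻¹ ∈ S) (ζ : ℂ) (hζ : IsPrimitiveRoot ζ 3)
    (ρ : G →* Matrix (Fin d) (Fin d) ℂ) (κ : Fin 3 → ℂ) (j : Fin 3)
    (hκ : ∀ a ∈ tri (3 * S.card), a ≠ Pi.single j (3 * S.card) →
      lin3 κ a ≠ lin3 κ (Pi.single j (3 * S.card)))
    (W : Finset G) (hW : ∀ w, w ∈ W ↔ w ∈ Subgroup.closure (S : Set G))
    (θ : G → ℂ) (hθ1 : θ 1 = 1) (hθm : ∀ a ∈ Subgroup.closure (S : Set G),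
      ∀ b ∈ Subgroup.closure (S : Set G), θ (a * b) = θ a * θ b)
    (hθ : ∀ s ∈ S, θ s = ζ ^ j.1) :
    (Polynomial.aeval (∑ j, κ j • zJ S ζ j ρ)
      (∏ a ∈ (tri (3 * S.card)).erase (Pi.single j (3 * S.card)), (X - C (lin3 κ a)))).trace =
      (∏ a ∈ (tri (3 * S.card)).erase (Pi.single j (3 * S.card)),
        (lin3 κ (Pi.single j (3 * S.card)) - lin3 κ a)) *
      ((W.card : ℂ)⁻¹ * ∑ w ∈ W, θ w * (ρ w).trace) := by
  have _ := hκ
  rw [q3_extreme_mat S h3 hc ζ hζ ρ κ j W hW θ hθ1 hθm hθ, Matrix.trace_smul, Matrix.trace_smul,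
    Matrix.trace_sum, smul_eq_mul, smul_eq_mul]
  congr 2
  refine Finset.sum_congr rfl fun w _ => ?_
  rw [Matrix.trace_smul, smul_eq_mul]

end three

end

end Pool.Agent.CMFn
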