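import Pool.Agent.CMFn.Q3C
import Pool.Agent.CMFn.Q3E
import Pool.Agent.CMFn.Q3Defs

/-! Project CMF, block Q (every rank): isolated irreducible representations are integral, for
groups whose reflections have order three and whose hyperplanes form one class. -/

namespace Pool.Agent.CMFn

open Matrix Polynomial G1 G4 Pool.Agent Q3X
open Pool.Agent.CMF (HData KZData Lau mon pair pairC evL TwFam IsInt stdHData)

noncomputable section

variable {n : ℕ} {G : Type} [Group G] [Fintype G] {V : G → Matrix (Fin n) (Fin n) ℂ}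
  {Λ : Type} [Fintype Λ] {d : Λ → ℕ} {ρ : ∀ l, G → Matrix (Fin (d l)) (Fin (d l)) ℂ}
  {hV : CMFP.IsReflGroup V} {hρ : CMFP.IsIrrFam d ρ} {F : Type} [Field F] [Algebra F ℂ]
  {v₀ : Fin n → ℂ} {hv₀ : CMFP.Reg V v₀} {D : CMFP.StdHk F V v₀ d}
  {hN : ∃ s ∈ img hV.1, IsRefl s} [Fintype (CMFP.Idx V)]

/-- All the reflections have order three and their hyperplanes are conjugate to the one of
`s₀`. -/
structure OneClass3 (V : G → Matrix (Fin n) (Fin n) ℂ) (s₀ : G) : Prop where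
  refl : CMFP.IsRefl V s₀
  cube : ∀ s, CMFP.IsRefl V s → s ^ 3 = 1
  conj : ∀ s, CMFP.IsRefl V s → ∃ g : G, g * s * g⁻¹ = s₀ ∨ g * s * g⁻¹ = s₀ ^ 2

namespace Q3X

lemma cube_img (hV : CMFP.IsReflGroup V) {s₀ : G} (h : OneClass3 V s₀) (w : img hV.1)
    (hw : IsRefl w.1) : w ^ 3 = 1 := by
  obtain ⟨s, rfl⟩ := (iso hV.1 hV.2.1).surjective w
  rw [← map_pow, h.cube s ((isRefl_iso hV.1 hV.2.1 s).1 hw), map_one]

lemma ordH_three (hV : CMFP.IsReflGroup V) {s₀ : G} (h : OneClass3 V s₀) (s : G)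
    (hs : CMFP.IsRefl V s) : CMFP.ordH V s = 3 := by
  rw [ordH_eq hV.1 hV.2.1 ⟨s, hs⟩]
  exact eH_three (cube_img hV h) _

/-- The indices of the parameters. -/
def ix3 {s₀ : G} (h : OneClass3 V s₀) (j : Fin 3) : CMFP.Idx V :=
  CMFP.idx V s₀ h.refl (-((j.1 : ℕ) : ℤ))

lemma ix3_inj (hV : CMFP.IsReflGroup V) {s₀ : G} (h : OneClass3 V s₀) :
    Function.Injective (ix3 h) := by
  intro a b he
  let f : CMFP.Idx V → ZMod 3 := Quot.lift (fun a => ((a.2 : ℤ) : ZMod 3)) (by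
    rintro ⟨⟨s, hs⟩, i⟩ ⟨⟨t, ht⟩, j⟩ ⟨_, h2⟩
    have h3 : ((CMFP.ordH V s : ℕ) : ℤ) ∣ j - i := h2
    rw [ordH_three hV h s hs] at h3
    have h4 := (ZMod.intCast_zmod_eq_zero_iff_dvd (j - i) 3).2 (by exact_mod_cast h3)
    rw [Int.cast_sub, sub_eq_zero] at h4
    exact h4.symm)
  have h1 := congrArg f he
  have h2 : ((-((a.1 : ℕ) : ℤ) : ℤ) : ZMod 3) = ((-((b.1 : ℕ) : ℤ) : ℤ) : ZMod 3) := h1
  have h3 := (ZMod.intCast_eq_intCast_iff_dvd_sub _ _ _).1 h2
  apply Fin.ext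
  have := a.2
  have := b.2
  omega

lemma kN_val3 (hV : CMFP.IsReflGroup V) {s₀ : G} (h : OneClass3 V s₀) (κ : CMFP.Idx V → ℂ)
    (H : Arr (img hV.1)) (j j' : ℤ) (hj : (3 : ℤ) ∣ j' + j) :
    kN hV.1 hV.2.1 κ (idx H j) = κ (CMFP.idx V s₀ h.refl j') := by
  obtain ⟨⟨s, hs⟩, rfl⟩ := lineOf_surj hV.1 H
  have h1 := kN_sharp hV.1 hV.2.1 κ s hs (-j)
  rw [sharp_idx, neg_neg] at h1
  rw [h1]
  congr 1
  refine Quot.sound ⟨?_, ?_⟩
  · obtain ⟨g, hg⟩ := h.conj s hs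
    refine ⟨g, ?_⟩
    intro v hv
    show V (g * s * g⁻¹) *ᵥ v = v
    rcases hg with hg | hg
    · rw [hg]
      exact hv
    · have hv' : V s₀ *ᵥ v = v := hv
      rw [hg, pow_two, hV.1.2, ← Matrix.mulVec_mulVec, hv', hv']
  · show ((CMFP.ordH V s : ℕ) : ℤ) ∣ j' - -j
    rw [ordH_three hV h s hs, sub_neg_eq_add]
    exact_mod_cast hj

end Q3X

/-- The residues and the twists of the assembly. -/
def Asm.refl3 (A : Asm hV hρ F v₀ hv₀ D hN)
    (hM : 0 < CMFP.mu (NumberField.RingOfIntegers F)) {s₀ : G} (h : OneClass3 V s₀) :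
    Refl3 (img hV.1) A.Q (ix3 h) where
  ρ l := rN hV hρ l
  sg κ := kN hV.1 hV.2.1 κ
  inj := ix3_inj hV h
  cube := cube_img hV h
  val κ H j := kN_val3 hV h κ H _ _ (by rw [neg_add_cancel]; exact dvd_zero _)
  tw p E hE := by
    classical
    obtain ⟨x, hx⟩ := exists_isTw p A.v
    obtain ⟨q⟩ := vreg_path hN A.v x
    obtain ⟨T', h1, h2⟩ := exists_twFam hN (famG hV hρ) CMF.inj_int _ hM A.Q (kNL hV)
      (fun κ => ⟨fun i => κ ((idxEquiv hV.1 hV.2.1).symm (sharp i)), rfl⟩) (fun l => l)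
      (fun l => rfl) (fun b => CMFP.hT _ (CMFP.var _) (A.surj b).choose)
      (fun κ l b p q => by
        have h3 := A.hQ κ l (A.surj b).choose
        rw [(A.surj b).choose_spec] at h3
        exact congrFun (congrFun h3 p) q) (fun _ : Fin 1 => p) x (fun _ => hx) q
      (fun i j => rfl) (fun _ => E) (fun i κ l => hE κ l)
    exact ⟨T', h1, fun κ l => h2 0 κ l⟩

theorem zJ_eq (l : Λ) (p : Fin n → ℂ) (S : Finset G)
    (hS : ∀ s, s ∈ S ↔ CMFP.IsRefl V s ∧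
      (V s).det = Complex.exp (2 * Real.pi * Complex.I / 3) ∧ V s *ᵥ p = p) (ζ : ℂ) (j : Fin 3) :
    zJ (dS (img hV.1) p) ζ j (rN hV hρ l) = zJ S ζ j (rG hρ l) := by
  classical
  unfold zJ
  symm
  refine Finset.sum_bij (fun s _ => iso hV.1 hV.2.1 s) ?_ ?_ ?_ ?_
  · intro s hs
    obtain ⟨h1, h2, h3⟩ := (hS s).1 hs
    exact mem_dS.2 ⟨(isRefl_iso hV.1 hV.2.1 s).2 h1, h2, h3⟩
  · intro a _ b _ hab
    exact (iso hV.1 hV.2.1).injective hab
  · intro w hw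
    obtain ⟨s, rfl⟩ := (iso hV.1 hV.2.1).surjective w
    obtain ⟨h1, h2, h3⟩ := mem_dS.1 hw
    exact ⟨s, (hS s).2 ⟨(isRefl_iso hV.1 hV.2.1 s).1 h1, h2, h3⟩, rfl⟩
  · intro s _
    refine Finset.sum_congr rfl fun i _ => ?_
    congr 1
    rw [← map_pow]
    exact (repN_iso hV.1 hV.2.1 (ρ l) (hρ.1 l).2 (s ^ i)).symm

/-- The traces of the extreme spectral elements at `p`. -/
theorem exists_ext3 (hV : CMFP.IsReflGroup V) (hρ : CMFP.IsIrrFam d ρ) {s₀ : G}
    (h : OneClass3 V s₀) (p : Fin n → ℂ) (j : Fin 3) : ∃ m : ℕ,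
      (∀ (μ : Λ) (κ : Fin 3 → ℂ), aeval (zK (img hV.1) p κ (rN hV hρ μ))
        (∏ a ∈ tri m, (X - C (lin3 κ a))) = 0) ∧
      ∀ μ : Λ, (aeval (zK (img hV.1) p (kg m) (rN hV hρ μ))
          (∏ b ∈ (tri m).erase (Pi.single j m), (X - C (lin3 (kg m) b)))).trace =
        psum3 (repHom hV.1) p j.1 (mr hρ μ) / Nat.card (WP (repHom hV.1) p) *
          ∏ b ∈ (tri m).erase (Pi.single j m), (lin3 (kg m) (Pi.single j m) - lin3 (kg m) b) := by
  classical
  set ζ : ℂ := Complex.exp (2 * Real.pi * Complex.I / 3) with hζ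
  set S : Finset G := Finset.univ.filter
    (fun s => CMFP.IsRefl V s ∧ (V s).det = ζ ∧ V s *ᵥ p = p) with hS
  have hSm : ∀ s, s ∈ S ↔ CMFP.IsRefl V s ∧ (V s).det = ζ ∧ V s *ᵥ p = p := fun s => by
    rw [hS, Finset.mem_filter]
    exact ⟨fun h => h.2, fun h => ⟨Finset.mem_univ _, h⟩⟩
  -- the squares of the reflections
  have hsq : ∀ s, CMFP.IsRefl V s → V s *ᵥ p = p → s ∉ S → s ^ 2 ∈ S := by
    intro s hs hp hn
    have h1 : IsRefl (iso hV.1 hV.2.1 s).1 := (isRefl_iso hV.1 hV.2.1 s).2 hs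
    have h2 := (sq_refl (cube_img hV h) (iso hV.1 hV.2.1 s) h1).1
    rw [← map_pow] at h2
    refine (hSm _).2 ⟨(isRefl_iso hV.1 hV.2.1 _).1 h2, ?_, ?_⟩
    · have h3 : (V s).det = ζ ∨ (V s).det = ζ ^ 2 := det_three (cube_img hV h) _ h1
      rcases h3 with h3 | h3
      · exact absurd ((hSm s).2 ⟨hs, h3, hp⟩) hn
      · rw [pow_two, hV.1.2, Matrix.det_mul, h3, ← pow_add, show 2 + 2 = 3 + 1 by norm_num,
          pow_succ, zeta_prim.pow_eq_one, one_mul]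
    · rw [pow_two, hV.1.2, ← Matrix.mulVec_mulVec, hp, hp]
  have hcl : Subgroup.closure (S : Set G) = WP (repHom hV.1) p := by
    apply le_antisymm
    · apply Subgroup.closure_mono
      intro s hs
      obtain ⟨h1, _, h3⟩ := (hSm s).1 hs
      exact ⟨h1, h3⟩
    · unfold WP
      rw [Subgroup.closure_le]
      rintro s ⟨h1, h2⟩
      by_cases h3 : s ∈ S
      · exact Subgroup.subset_closure h3
      · have h4 := Subgroup.pow_mem _ (Subgroup.subset_closure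
          (show s ^ 2 ∈ (S : Set G) from hsq s h1 h2 h3)) 2
        have h5 : (s ^ 2) ^ 2 = s := by
          rw [← pow_mul, show 2 * 2 = 3 + 1 by norm_num, pow_succ, h.cube s h1, one_mul]
        rw [h5] at h4
        exact h4
  set W : Finset G := Finset.univ.filter (fun w => w ∈ WP (repHom hV.1) p) with hW
  have hWm : ∀ w, w ∈ W ↔ w ∈ Subgroup.closure (S : Set G) := fun w => by
    rw [hW, Finset.mem_filter, hcl]
    exact ⟨fun h => h.2, fun h => ⟨Finset.mem_univ _, h⟩⟩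
  have hWc : Nat.card (WP (repHom hV.1) p) = W.card := by
    have : Fintype (WP (repHom hV.1) p) := Fintype.ofFinite _
    rw [Nat.card_eq_fintype_card, ← Finset.card_univ]
    refine Finset.card_bij (fun w _ => (w : G)) (fun w _ => ?_)
      (fun a _ b _ h => Subtype.ext h) (fun w hw => ⟨⟨w, ?_⟩, Finset.mem_univ _, rfl⟩)
    · rw [hW, Finset.mem_filter]
      exact ⟨Finset.mem_univ _, w.2⟩
    · rw [hW, Finset.mem_filter] at hw
      exact hw.2
  have hps : ∀ m : Λ, psum3 (repHom hV.1) p j.1 (mr hρ m) =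
      ∑ w ∈ W, (V w).det ^ j.1 * (ρ m w).trace := by
    intro m
    unfold psum3
    rw [hW, Finset.sum_filter]
    exact Finset.sum_congr rfl fun g _ => rfl
  have hfix : ∀ g ∈ Subgroup.closure (S : Set G), V g *ᵥ p = p := by
    intro g hg
    induction hg using Subgroup.closure_induction with
    | mem x hx => exact ((hSm x).1 hx).2.2
    | one => rw [hV.1.1, Matrix.one_mulVec]
    | mul x y _ _ hx hy => rw [hV.1.2, ← Matrix.mulVec_mulVec, hy, hx]
    | inv x _ hx =>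
      conv_lhs => rw [← hx]
      rw [Matrix.mulVec_mulVec, ← hV.1.2, inv_mul_cancel, hV.1.1, Matrix.one_mulVec]
  have hconj : ∀ g ∈ S, ∀ s ∈ S, g * s * g⁻¹ ∈ S := by
    intro g hg s hs
    have hg' : g ∈ Subgroup.closure (S : Set G) := Subgroup.subset_closure hg
    have h1 := (hSm s).1 hs
    refine (hSm _).2 ⟨?_, ?_, ?_⟩
    · have h2 : IsRefl (toGL hV.1 (g * s * g⁻¹)) := by
        rw [map_mul, map_mul, map_inv]
        exact isRefl_conj (G := img hV.1) ((isRefl_iff hV.1 s).2 h1.1)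
      exact (isRefl_iff hV.1 _).1 h2
    · have h2 : (V g).det * (V g⁻¹).det = 1 := by
        rw [← Matrix.det_mul, ← hV.1.2, mul_inv_cancel, hV.1.1, Matrix.det_one]
      rw [hV.1.2, hV.1.2, Matrix.det_mul, Matrix.det_mul, ← h1.2.1]
      linear_combination (V s).det * h2
    · exact hfix _ (mul_mem (mul_mem hg' (Subgroup.subset_closure hs)) (inv_mem hg'))
  have h3 : ∀ s ∈ S, s ^ 3 = 1 := fun s hs => h.cube s ((hSm s).1 hs).1
  have hz : ∀ (μ : Λ) (κ : Fin 3 → ℂ), zK (img hV.1) p κ (rN hV hρ μ) =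
      ∑ j, κ j • zJ S ζ j (rG hρ μ) := by
    intro μ κ
    unfold zK
    exact Finset.sum_congr rfl fun j _ => by rw [zJ_eq μ p S hSm]
  refine ⟨3 * S.card, ?_, ?_⟩
  · intro μ κ
    rw [hz]
    exact q3_kill S h3 hconj ζ zeta_prim (rG hρ μ) κ
  · intro μ
    have hgen : ∀ a ∈ tri (3 * S.card), a ≠ Pi.single j (3 * S.card) →
        lin3 (kg (3 * S.card)) a ≠ lin3 (kg (3 * S.card)) (Pi.single j (3 * S.card)) := by
      intro a ha hne he
      exact hne (lin3_kg _ ha (q3_mem_tri.2 (by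
        rw [Finset.sum_pi_single']
        simp)) he)
    rw [hz, q3_extreme S h3 hconj ζ zeta_prim (rG hρ μ) (kg (3 * S.card)) j hgen W hWm
      (fun w => (V w).det ^ j.1) (by rw [hV.1.1, Matrix.det_one, one_pow])
      (fun a _ b _ => by rw [hV.1.2, Matrix.det_mul, mul_pow])
      (fun s hs => by rw [((hSm s).1 hs).2.1]), hps, hWc, mul_comm]
    congr 1
    rw [div_eq_inv_mul]
    rfl

/-- There is a class of hyperplanes of reflections of order three. -/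
theorem exists_oneClass3 (hV : CMFP.IsReflGroup V) (hN : ∃ s ∈ img hV.1, IsRefl s)
    (hcu : ∀ s, CMFP.IsRefl V s → s ^ 3 = 1)
    (hone : ∀ s t, CMFP.IsRefl V s → CMFP.IsRefl V t →
      ∃ g : G, g * s * g⁻¹ = t ∨ g * s * g⁻¹ = t ^ 2) : ∃ s₀ : G, OneClass3 V s₀ := by
  obtain ⟨_, ⟨s₀, rfl⟩, hs₀⟩ := hN
  have h0 : CMFP.IsRefl V s₀ := (isRefl_iff hV.1 s₀).1 hs₀
  exact ⟨s₀, h0, hcu, fun s hs => hone s s₀ hs h0⟩

/-- Representations isolated by a combination are integral. -/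
theorem Asm.isInt_isolC3 (A : Asm hV hρ F v₀ hv₀ D hN)
    (hM : 0 < CMFP.mu (NumberField.RingOfIntegers F))
    (hcu : ∀ s, CMFP.IsRefl V s → s ^ 3 = 1)
    (hone : ∀ s t, CMFP.IsRefl V s → CMFP.IsRefl V t →
      ∃ g : G, g * s * g⁻¹ = t ∨ g * s * g⁻¹ = t ^ 2) (l : Λ)
    (hl : IsolC3 (repHom hV.1) (mr hρ l)) :
    IsInt A.Q (fun _ => True) (fun m : Λ => m = l) := by
  classical
  obtain ⟨s₀, h⟩ := exists_oneClass3 hV hN hcu hone
  obtain ⟨m, p, j, u, h1, h2⟩ := hl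
  choose k hk hm using fun i => exists_ext3 hV hρ h (p i) (j i)
  refine (A.refl3 hM h).isInt_comb CMF.inj_int hM (fun _ _ _ _ _ _ => trivial) (A.isInt_a l) l rfl
    p k (fun i => Pi.single (j i) (k i)) (fun i => q3_mem_tri.2 (by
      rw [Finset.sum_pi_single']
      simp)) (fun i μ κ => hk i μ κ)
    (fun i (μ : Λ) => psum3 (repHom hV.1) (p i) (j i).1 (mr hρ μ) /
      Nat.card (WP (repHom hV.1) (p i))) u (fun i μ _ => hm i μ) h1 ?_
  intro (μ : Λ) hμ hμl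
  rcases h2 (mr hρ μ) (isIrr_mr hρ μ) (A.level hM l μ hμ) with h3 | h3
  · exact h3
  · exact absurd (irr_char_inj hρ μ l h3) hμl

end

end Pool.Agent.CMFn
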