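import Pool.Agent.CMFn.MartSplit
import Pool.Agent.CMFn.Q3D
import Pool.Agent.CMFn.QComb

/-! Project CMFn: groups generated by reflections of order three, whose levels are connected by
links up to isolated characters; and groups with one class of reflections of order two, isolation
by combinations. -/

set_option linter.unusedSectionVars false

namespace Pool.Agent.CMFn

open Matrix G1 G4 Pool.Agent
open Pool.Agent.CMF (IsInt)

noncomputable section

/-- Martino's conjecture, `K = ℂ`, for groups with one class of reflections up to inversion, of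
order three, whose levels are connected by links up to isolated characters. -/
theorem mart_split3 {n : ℕ} (hn : 2 ≤ n) {G : Type} [Group G] [Fintype G]
    (W : G → Matrix (Fin n) (Fin n) ℂ) (hW : CMFP.IsReflGroup W)
    (hcu : ∀ s, CMFP.IsRefl W s → s ^ 3 = 1)
    (hone : ∀ s t, CMFP.IsRefl W s → CMFP.IsRefl W t →
      ∃ g : G, g * s * g⁻¹ = t ∨ g * s * g⁻¹ = t ^ 2)
    (hconn : ConnX (repHom hW.1) (IsolC3 (repHom hW.1))) : Mart W := by
  refine mart_split' hn W hW _ hconn ?_
  intro Λ _ d ρ hρ F _ _ hF v₀ hv₀ D hD S hN _ A l hl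
  exact A.isInt_isolC3 (CMFP.mu_pos hW.1 F hF) hcu hone l hl

/-- The same for one class of reflections of order two and isolation by combinations. -/
theorem mart_splitC {n : ℕ} (hn : 2 ≤ n) {G : Type} [Group G] [Fintype G]
    (W : G → Matrix (Fin n) (Fin n) ℂ) (hW : CMFP.IsReflGroup W)
    (hsq : ∀ s, CMFP.IsRefl W s → s * s = 1)
    (hone : ∀ s t, CMFP.IsRefl W s → CMFP.IsRefl W t → ∃ g : G, g * s * g⁻¹ = t)
    (hconn : ConnX (repHom hW.1) fun a =>
      Isol (repHom hW.1) a ∨ IsolE (repHom hW.1) a ∨ IsolC (repHom hW.1) a) :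
    Mart W := by
  refine mart_split' hn W hW _ hconn ?_
  intro Λ _ d ρ hρ F _ _ hF v₀ hv₀ D hD S hN _ A l hl
  rcases hl with hl | hl | hl
  · exact A.isInt_isol (CMFP.mu_pos hW.1 F hF) hsq hone l hl
  · exact A.isInt_isolE (CMFP.mu_pos hW.1 F hF) hsq hone l hl
  · exact A.isInt_isolC (CMFP.mu_pos hW.1 F hF) hsq hone l hl

end

end Pool.Agent.CMFn
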