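import Mathlib

/-! Module M, part A: representations of an algebra over a field without common constituents. -/

namespace Pool.Agent.CMF

open Matrix

noncomputable section

namespace MX

/-- `ker α ≤ ker β` implies `rank β ≤ rank α`. -/
lemma finrank_range_le {k M V W : Type} [Field k] [AddCommGroup M] [Module k M]
    [Module.Finite k M] [AddCommGroup V] [Module k V] [AddCommGroup W] [Module k W]
    (α : M →ₗ[k] V) (β : M →ₗ[k] W) (h : LinearMap.ker α ≤ LinearMap.ker β) :
    Module.finrank k (LinearMap.range β) ≤ Module.finrank k (LinearMap.range α) := by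
  have h1 := LinearMap.finrank_range_add_finrank_ker α
  have h2 := LinearMap.finrank_range_add_finrank_ker β
  have h3 := Submodule.finrank_mono h
  omega

variable {k B : Type} [Field k] [Ring B] [Algebra k B]
  {L : Type} {d : L → ℕ} (σ : ∀ l, B →ₐ[k] Matrix (Fin (d l)) (Fin (d l)) k)

/-- The column `i` of `σ_l(b)`. -/
def col (p : Σ l, Fin (d l)) (b : B) : Fin (d p.1) → k := fun j => σ p.1 b j p.2

lemma col_mul (p : Σ l, Fin (d l)) (a b : B) : col σ p (a * b) = σ p.1 a *ᵥ col σ p b := by
  funext j
  simp [col, Matrix.mul_apply, Matrix.mulVec, dotProduct]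

/-- The left ideal of the elements with vanishing columns. -/
def annCol (s : Finset (Σ l, Fin (d l))) : Ideal B where
  carrier := {b | ∀ p ∈ s, col σ p b = 0}
  add_mem' {a b} ha hb p hp := by
    have h1 := ha p hp
    have h2 := hb p hp
    funext j
    have h3 := congrFun h1 j
    have h4 := congrFun h2 j
    simp only [col, Pi.zero_apply] at h3 h4 ⊢
    rw [map_add, Matrix.add_apply, h3, h4, add_zero]
  zero_mem' p _ := by
    funext j
    simp [col]
  smul_mem' a b hb p hp := by
    rw [smul_eq_mul, col_mul, hb p hp, Matrix.mulVec_zero]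

lemma mem_annCol {s : Finset (Σ l, Fin (d l))} {b : B} :
    b ∈ annCol σ s ↔ ∀ p ∈ s, col σ p b = 0 := Iff.rfl

/-- The filtration argument. -/
lemma exists_step (n : Ideal B) (hn : n ≠ ⊤) (s : Finset (Σ l, Fin (d l)))
    (h : annCol σ s ≤ n) : ∃ p ∈ s, ∃ a : Ideal B, ¬ a ≤ n ∧
      ∀ b ∈ a, col σ p b = 0 → b ∈ n := by
  classical
  induction s using Finset.induction_on with
  | empty =>
    exfalso
    apply hn
    rw [eq_top_iff]
    refine le_trans ?_ h
    intro b _ p hp
    exact absurd hp (Finset.notMem_empty p)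
  | insert p s _ ih =>
    by_cases h1 : annCol σ s ≤ n
    · obtain ⟨q, hq, a, ha⟩ := ih h1
      exact ⟨q, Finset.mem_insert_of_mem hq, a, ha⟩
    · refine ⟨p, Finset.mem_insert_self p s, annCol σ s, h1, fun b hb hp => h ?_⟩
      intro q hq
      rcases Finset.mem_insert.1 hq with rfl | hq
      · exact hp
      · exact hb q hq

variable [Module.Finite k B]

/-- The action on `B / n`. -/
def act (n : Ideal B) : B →ₐ[k] Module.End k (B ⧸ n) where
  toFun b :=
    { toFun := fun x => b • x
      map_add' := fun x y => smul_add b x y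
      map_smul' := fun c x => smul_comm b c x }
  map_one' := LinearMap.ext fun x => one_smul B x
  map_mul' a b := LinearMap.ext fun x => mul_smul a b x
  map_zero' := LinearMap.ext fun x => zero_smul B x
  map_add' a b := LinearMap.ext fun x => add_smul a b x
  commutes' c := LinearMap.ext fun x => algebraMap_smul B c x

omit [Module.Finite k B] in
lemma act_apply (n : Ideal B) (b : B) (x : B ⧸ n) : act (k := k) n b x = b • x := rfl

omit [Module.Finite k B] in
lemma act_mk (n : Ideal B) (b x : B) : act (k := k) n b (Submodule.Quotient.mk x) =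
    Submodule.Quotient.mk (b * x) := rfl

omit [Module.Finite k B] in
lemma smul_surj (n : Ideal B) (hn : n.IsMaximal) (x : B ⧸ n) (hx : x ≠ 0) (y : B ⧸ n) :
    ∃ b : B, b • x = y := by
  have h1 : IsSimpleModule B (B ⧸ n) := isSimpleModule_iff_isCoatom.2 hn.out
  have h2 := IsSimpleModule.span_singleton_eq_top B hx
  have h3 : y ∈ Submodule.span B {x} := by rw [h2]; trivial
  exact Submodule.mem_span_singleton.1 h3

/-- The rank of `f` on a constituent. -/
lemma rank_le (n : Ideal B) (hn : n.IsMaximal) (s : Finset (Σ l, Fin (d l)))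
    (h : annCol σ s ≤ n) : ∃ p ∈ s, ∀ f : B,
      Module.finrank k (LinearMap.range (act (k := k) n f)) ≤ (σ p.1 f).rank := by
  obtain ⟨p, hp, a, ha, hb⟩ := exists_step σ n hn.ne_top s h
  refine ⟨p, hp, fun f => ?_⟩
  have htop : a ⊔ n = ⊤ := by
    rw [sup_comm]
    exact hn.out.2 _ (left_lt_sup.2 ha)
  let α : a.restrictScalars k →ₗ[k] (Fin (d p.1) → k) :=
    { toFun := fun b => σ p.1 f *ᵥ col σ p b.1
      map_add' := fun x y => by
        rw [← col_mul, ← col_mul, ← col_mul]
        funext j
        simp only [col, Submodule.coe_add, mul_add, map_add, Matrix.add_apply, Pi.add_apply]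
      map_smul' := fun c x => by
        rw [← col_mul, ← col_mul]
        funext j
        simp only [col, Submodule.coe_smul, mul_smul_comm, map_smul, Matrix.smul_apply,
          Pi.smul_apply, RingHom.id_apply] }
  let β : a.restrictScalars k →ₗ[k] (B ⧸ n) :=
    (act (k := k) n f).comp ((n.mkQ.restrictScalars k).comp (a.restrictScalars k).subtype)
  have h1 : LinearMap.ker α ≤ LinearMap.ker β := by
    intro b hb0
    rw [LinearMap.mem_ker] at hb0 ⊢
    have h2 : col σ p (f * b.1) = 0 := by rw [col_mul]; exact hb0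
    have h3 : f * b.1 ∈ n := hb _ (a.mul_mem_left f b.2) h2
    show act (k := k) n f (Submodule.Quotient.mk b.1) = 0
    rw [act_mk]
    exact (Submodule.Quotient.mk_eq_zero n).2 h3
  have h2 : LinearMap.range (act (k := k) n f) ≤ LinearMap.range β := by
    rintro _ ⟨x, rfl⟩
    obtain ⟨b, rfl⟩ := Submodule.Quotient.mk_surjective n x
    have hb1 : b ∈ a ⊔ n := by rw [htop]; trivial
    obtain ⟨u, hu, v, hv, rfl⟩ := Submodule.mem_sup.1 hb1
    refine ⟨⟨u, hu⟩, ?_⟩
    show act (k := k) n f (Submodule.Quotient.mk u) = act (k := k) n f (Submodule.Quotient.mk (u + v))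
    congr 1
    rw [Submodule.Quotient.eq]
    have : u - (u + v) = -v := by abel
    rw [this]
    exact n.neg_mem hv
  have h3 : LinearMap.range α ≤ LinearMap.range (σ p.1 f).mulVecLin := by
    rintro _ ⟨b, rfl⟩
    exact ⟨col σ p b.1, rfl⟩
  calc Module.finrank k (LinearMap.range (act (k := k) n f)) ≤ Module.finrank k (LinearMap.range β) :=
        Submodule.finrank_mono h2
    _ ≤ Module.finrank k (LinearMap.range α) := finrank_range_le α β h1
    _ ≤ _ := Submodule.finrank_mono h3

end MX

/-- Representations without common constituents are separated by an element. -/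
theorem sep_of_no_common {k B L : Type} [Field k] [Ring B] [Algebra k B] [Module.Finite k B]
    [Finite L] (d : L → ℕ) (σ : ∀ l, B →ₐ[k] Matrix (Fin (d l)) (Fin (d l)) k) (F : L → Prop)
    (h : ∀ l m, F l → ¬ F m → ∀ (n : ℕ) (ψ : B →ₐ[k] Matrix (Fin n) (Fin n) k), 0 < n →
      (∀ v, v ≠ 0 → Submodule.span k (Set.range fun b => ψ b *ᵥ v) = ⊤) →
      (∀ b, (ψ b).rank ≤ (σ l b).rank) → (∀ b, (ψ b).rank ≤ (σ m b).rank) → False) :
    ∃ y : B, ∀ l, (F l → σ l y = 1) ∧ (¬ F l → σ l y = 0) := by
  classical
  have := Fintype.ofFinite L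
  set s : Finset (Σ l, Fin (d l)) := Finset.univ.filter fun p => F p.1 with hs
  set t : Finset (Σ l, Fin (d l)) := Finset.univ.filter fun p => ¬ F p.1 with ht
  have hcol : ∀ (G : L → Prop) (u : Finset (Σ l, Fin (d l))),
      (∀ p, p ∈ u ↔ G p.1) → ∀ b, b ∈ MX.annCol σ u ↔ ∀ l, G l → σ l b = 0 := by
    intro G u hu b
    rw [MX.mem_annCol]
    constructor
    · intro h1 l hl
      ext i j
      exact congrFun (h1 ⟨l, j⟩ ((hu _).2 hl)) i
    · intro h1 p hp
      funext j
      show σ p.1 b j p.2 = 0
      rw [h1 p.1 ((hu p).1 hp)]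
      rfl
  have hsF := hcol F s fun p => by simp [hs]
  have htF := hcol (fun l => ¬ F l) t fun p => by simp [ht]
  by_cases htop : MX.annCol σ s ⊔ MX.annCol σ t = ⊤
  · have h1 : (1 : B) ∈ MX.annCol σ s ⊔ MX.annCol σ t := by rw [htop]; trivial
    obtain ⟨x, hx, y, hy, hxy⟩ := Submodule.mem_sup.1 h1
    refine ⟨y, fun l => ⟨fun hl => ?_, fun hl => (htF y).1 hy l hl⟩⟩
    have h2 : y = 1 - x := by rw [← hxy]; abel
    rw [h2, map_sub, map_one, (hsF x).1 hx l hl, sub_zero]
  · exfalso
    obtain ⟨n, hn, hle⟩ := Ideal.exists_le_maximal _ htop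
    obtain ⟨p, hp, hp1⟩ := MX.rank_le σ n hn s (le_sup_left.trans hle)
    obtain ⟨q, hq, hq1⟩ := MX.rank_le σ n hn t (le_sup_right.trans hle)
    let bs := Module.finBasis k (B ⧸ n)
    let ψ : B →ₐ[k] Matrix (Fin (Module.finrank k (B ⧸ n))) (Fin (Module.finrank k (B ⧸ n))) k :=
      ((LinearMap.toMatrixAlgEquiv bs).toAlgHom).comp (MX.act n)
    have hψ : ∀ b, ψ b = LinearMap.toMatrixAlgEquiv bs (MX.act n b) := fun b => rfl
    have hrk : ∀ b, (ψ b).rank = Module.finrank k (LinearMap.range (MX.act (k := k) n b)) := by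
      intro b
      have h5 : Matrix.toLin bs bs (LinearMap.toMatrixAlgEquiv bs (MX.act (k := k) n b)) =
          MX.act (k := k) n b := Matrix.toLin_toMatrix bs bs _
      rw [Matrix.rank_eq_finrank_range_toLin _ bs bs, hψ, h5]
    refine h p.1 q.1 (by simpa [hs] using hp) (by simpa [ht] using hq) _ ψ ?_ ?_
      (fun b => by rw [hrk]; exact hp1 b) (fun b => by rw [hrk]; exact hq1 b)
    · have h1 : Nontrivial (B ⧸ n) := Submodule.Quotient.nontrivial_iff.2 hn.ne_top
      exact Module.finrank_pos
    · intro v hv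
      rw [eq_top_iff]
      intro w _
      apply Submodule.subset_span
      have hx : bs.equivFun.symm v ≠ 0 := by
        intro h0
        exact hv (by rw [← map_zero bs.equivFun.symm] at h0; exact bs.equivFun.symm.injective h0)
      obtain ⟨b, hb⟩ := MX.smul_surj n hn _ hx (bs.equivFun.symm w)
      refine ⟨b, ?_⟩
      show ψ b *ᵥ v = w
      have h2 := LinearMap.toMatrix_mulVec_repr bs bs (MX.act (k := k) n b) (bs.equivFun.symm v)
      have h3 : ∀ u, (bs.repr (bs.equivFun.symm u) : Fin (Module.finrank k (B ⧸ n)) → k) = u :=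
        fun u => bs.equivFun.apply_symm_apply u
      rw [h3, MX.act_apply, hb, h3] at h2
      exact h2

end

end Pool.Agent.CMF
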