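import Pool.Agent.CMFn.ModA

/-! Module M, part B: the local theorem. -/

namespace Pool.Agent.CMF

open Matrix Polynomial
open scoped TensorProduct

noncomputable section

namespace MX

/-! ### Lattices -/

section lattice

variable {O K : Type} [CommRing O] [IsDomain O] [IsPrincipalIdealRing O] [Field K] [Algebra O K]
  [IsFractionRing O K]

omit [IsDomain O] [IsPrincipalIdealRing O] in
lemma coe_sum_repr {V : Type} [AddCommGroup V] [Module O V] (N : Submodule O V) {n : ℕ}
    (c : Module.Basis (Fin n) O N) (v : N) : (v : V) = ∑ i, c.repr v i • (c i : V) := by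
  have h := congrArg N.subtype (c.sum_repr v)
  rw [map_sum] at h
  refine h.symm.trans (Finset.sum_congr rfl fun i _ => ?_)
  rw [map_smul]
  rfl

/-- An absolutely irreducible representation over `K` is defined over `O`. -/
lemma exists_lattice {H : Type} [Ring H] [Algebra O H] [Module.Finite O H] {d : ℕ} (hd : 0 < d)
    (R : H →ₐ[O] Matrix (Fin d) (Fin d) K) (hR : Submodule.span K (Set.range R) = ⊤) :
    ∃ (ρ : H →ₐ[O] Matrix (Fin d) (Fin d) O) (P : Matrix (Fin d) (Fin d) K), IsUnit P ∧
      ∀ x, R x * P = P * (ρ x).map (algebraMap O K) := by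
  have hinj : Function.Injective (algebraMap O K) := IsFractionRing.injective O K
  let w : Fin d → K := Pi.single ⟨0, hd⟩ 1
  let θ : H →ₗ[O] (Fin d → K) :=
    { toFun := fun x => R x *ᵥ w
      map_add' := fun x y => by rw [map_add, Matrix.add_mulVec]
      map_smul' := fun a x => by rw [map_smul, Matrix.smul_mulVec, RingHom.id_apply] }
  let N : Submodule O (Fin d → K) := LinearMap.range θ
  have hN : ∀ x, ∀ v ∈ N, R x *ᵥ v ∈ N := by
    rintro x _ ⟨y, rfl⟩
    exact ⟨x * y, by show R (x * y) *ᵥ w = R x *ᵥ (R y *ᵥ w); rw [map_mul, Matrix.mulVec_mulVec]⟩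
  have hspan : Submodule.span K (N : Set (Fin d → K)) = ⊤ := by
    rw [eq_top_iff]
    intro v _
    have h1 : ∀ A : Matrix (Fin d) (Fin d) K, A *ᵥ w ∈ Submodule.span K (N : Set (Fin d → K)) := by
      intro A
      have hA : A ∈ Submodule.span K (Set.range R) := by rw [hR]; trivial
      induction hA using Submodule.span_induction with
      | mem x hx =>
        obtain ⟨y, rfl⟩ := hx
        exact Submodule.subset_span ⟨y, rfl⟩
      | zero => rw [Matrix.zero_mulVec]; exact Submodule.zero_mem _
      | add x y _ _ hx hy => rw [Matrix.add_mulVec]; exact Submodule.add_mem _ hx hy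
      | smul c x _ hx => rw [Matrix.smul_mulVec]; exact Submodule.smul_mem _ c hx
    have h2 := h1 (Matrix.of fun i j => if j = ⟨0, hd⟩ then v i else 0)
    have h3 : (Matrix.of fun i j => if j = (⟨0, hd⟩ : Fin d) then v i else 0) *ᵥ w = v := by
      funext i
      simp [w, Matrix.mulVec, dotProduct, Pi.single_apply]
    rwa [h3] at h2
  have hfin : Module.Finite O N := Module.Finite.range θ
  have htf : Module.IsTorsionFree O (Fin d → K) := by
    infer_instance
  have htf' : Module.IsTorsionFree O N := inferInstance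
  let bN := Module.finBasis O N
  have hli : LinearIndependent K (fun i => (bN i : Fin d → K)) := by
    rw [← LinearIndependent.iff_fractionRing (R := O)]
    exact bN.linearIndependent.map' N.subtype N.ker_subtype
  have hsp : ⊤ ≤ Submodule.span K (Set.range fun i => (bN i : Fin d → K)) := by
    rw [← hspan, Submodule.span_le]
    intro v hv
    have h1 : v = ∑ i, algebraMap O K (bN.repr ⟨v, hv⟩ i) • (bN i : Fin d → K) := by
      simp only [algebraMap_smul]
      exact coe_sum_repr N bN ⟨v, hv⟩
    rw [h1]
    exact Submodule.sum_mem _ fun i _ => Submodule.smul_mem _ _ (Submodule.subset_span ⟨i, rfl⟩)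
  have hm : Module.finrank O N = d := by
    have h1 := Module.finrank_eq_card_basis (Module.Basis.mk hli hsp)
    rw [Module.finrank_fintype_fun_eq_card, Fintype.card_fin, Fintype.card_fin] at h1
    exact h1.symm
  let c := bN.reindex (finCongr hm)
  have hc : ∀ i, c i = bN ((finCongr hm).symm i) := fun i => Module.Basis.reindex_apply _ _ _
  let actN : H →ₐ[O] Module.End O N :=
    { toFun := fun x =>
        { toFun := fun v => ⟨R x *ᵥ v.1, hN x v.1 v.2⟩
          map_add' := fun v u => Subtype.ext (by
            show R x *ᵥ (v.1 + u.1) = R x *ᵥ v.1 + R x *ᵥ u.1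
            exact Matrix.mulVec_add _ _ _)
          map_smul' := fun a v => Subtype.ext (by
            show R x *ᵥ (a • v.1) = a • (R x *ᵥ v.1)
            exact Matrix.mulVec_smul _ _ _) }
      map_one' := LinearMap.ext fun v => Subtype.ext (by
        show R 1 *ᵥ v.1 = v.1
        rw [map_one, Matrix.one_mulVec])
      map_mul' := fun x y => LinearMap.ext fun v => Subtype.ext (by
        show R (x * y) *ᵥ v.1 = R x *ᵥ (R y *ᵥ v.1)
        rw [map_mul, Matrix.mulVec_mulVec])
      map_zero' := LinearMap.ext fun v => Subtype.ext (by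
        show R 0 *ᵥ v.1 = 0
        rw [map_zero, Matrix.zero_mulVec])
      map_add' := fun x y => LinearMap.ext fun v => Subtype.ext (by
        show R (x + y) *ᵥ v.1 = R x *ᵥ v.1 + R y *ᵥ v.1
        rw [map_add, Matrix.add_mulVec])
      commutes' := fun a => LinearMap.ext fun v => Subtype.ext (by
        show R (algebraMap O H a) *ᵥ v.1 = a • v.1
        rw [AlgHom.commutes, Algebra.algebraMap_eq_smul_one, Matrix.smul_mulVec,
          Matrix.one_mulVec]) }
  have hact : ∀ x v, (actN x v).1 = R x *ᵥ v.1 := fun x v => rfl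
  let ρ : H →ₐ[O] Matrix (Fin d) (Fin d) O := (LinearMap.toMatrixAlgEquiv c).toAlgHom.comp actN
  have hρ : ∀ x i j, ρ x i j = c.repr (actN x (c j)) i := fun x i j =>
    LinearMap.toMatrixAlgEquiv_apply c (actN x) i j
  let P : Matrix (Fin d) (Fin d) K := Matrix.of fun i j => (c j).1 i
  refine ⟨ρ, P, ?_, fun x => ?_⟩
  · rw [← Matrix.linearIndependent_cols_iff_isUnit]
    have h1 : P.col = fun i => (bN ((finCongr hm).symm i) : Fin d → K) := by
      funext i
      rw [← hc]
      rfl
    rw [h1]
    exact hli.comp _ (finCongr hm).symm.injective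
  · ext i j
    have h1 : (R x * P) i j = (actN x (c j)).1 i := rfl
    have h2 : (actN x (c j)).1 = ∑ k, algebraMap O K (ρ x k j) • (c k).1 := by
      simp only [algebraMap_smul, hρ]
      exact coe_sum_repr N c (actN x (c j))
    rw [h1, h2, Matrix.mul_apply, Finset.sum_apply]
    exact Finset.sum_congr rfl fun k _ => mul_comm _ _

omit [IsDomain O] [IsPrincipalIdealRing O] in
lemma map_eq_zero_iff' {d : ℕ} (E : Matrix (Fin d) (Fin d) O)
    (h : E.map (algebraMap O K) = 0) : E = 0 := by
  ext i j
  have h1 := congrFun (congrFun h i) j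
  have h2 : algebraMap O K (E i j) = algebraMap O K 0 := by
    rw [map_zero]; exact h1
  exact IsFractionRing.injective O K h2

/-- The rank does not increase under reduction. -/
lemma rank_map_le {k : Type} [Field k] [Algebra O k] (hs : Function.Surjective (algebraMap O k))
    {d : ℕ} (E : Matrix (Fin d) (Fin d) O) :
    (E.map (algebraMap O k)).rank ≤ (E.map (algebraMap O K)).rank := by
  let N : Submodule O (Fin d → O) := LinearMap.range E.mulVecLin
  have hfin : Module.Finite O N := Module.Finite.range _
  let c := Module.finBasis O N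
  have hmv : ∀ {S : Type} [CommRing S] [Algebra O S] (v : Fin d → O),
      (E.map (algebraMap O S)) *ᵥ (fun i => algebraMap O S (v i)) =
        fun i => algebraMap O S ((E *ᵥ v) i) := by
    intro S _ _ v
    funext i
    simp [Matrix.mulVec, dotProduct]
  -- lower bound over `K`
  have h1 : Module.finrank O N ≤ (E.map (algebraMap O K)).rank := by
    have hli : LinearIndependent K (fun i j => algebraMap O K ((c i).1 j)) := by
      rw [← LinearIndependent.iff_fractionRing (R := O)]
      have h2 : LinearIndependent O (fun i => (c i).1) :=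
        c.linearIndependent.map' N.subtype N.ker_subtype
      refine h2.map' ((Algebra.linearMap O K).compLeft (Fin d)) ?_
      rw [LinearMap.ker_eq_bot]
      intro u v huv
      funext j
      exact IsFractionRing.injective O K (congrFun huv j)
    have hmem : ∀ i, (fun j => algebraMap O K ((c i).1 j)) ∈
        LinearMap.range (E.map (algebraMap O K)).mulVecLin := by
      intro i
      obtain ⟨v, hv⟩ := (c i).2
      refine ⟨fun j => algebraMap O K (v j), ?_⟩
      rw [Matrix.mulVecLin_apply, hmv, ← hv]
      rfl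
    have hli' : LinearIndependent K (fun i => (⟨_, hmem i⟩ :
        LinearMap.range (E.map (algebraMap O K)).mulVecLin)) :=
      LinearIndependent.of_comp (Submodule.subtype _) hli
    have h3 := hli'.fintype_card_le_finrank
    rwa [Fintype.card_fin] at h3
  -- upper bound over `k`
  have h2 : (E.map (algebraMap O k)).rank ≤ Module.finrank O N := by
    have hle : LinearMap.range (E.map (algebraMap O k)).mulVecLin ≤
        Submodule.span k (Set.range fun i j => algebraMap O k ((c i).1 j)) := by
      rintro _ ⟨u, rfl⟩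
      choose v hv using fun i => hs (u i)
      have hu : u = fun i => algebraMap O k (v i) := funext fun i => (hv i).symm
      have h5 : E *ᵥ v = ∑ i, c.repr ⟨E *ᵥ v, ⟨v, rfl⟩⟩ i • (c i).1 :=
        coe_sum_repr N c ⟨E *ᵥ v, ⟨v, rfl⟩⟩
      rw [Matrix.mulVecLin_apply, hu, hmv]
      have h7 : (fun i => algebraMap O k ((E *ᵥ v) i)) =
          ∑ i, algebraMap O k (c.repr ⟨E *ᵥ v, ⟨v, rfl⟩⟩ i) •
            (fun j => algebraMap O k ((c i).1 j)) := by
        funext j
        have h8 := congrFun h5 j
        rw [Finset.sum_apply] at h8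
        rw [h8, map_sum, Finset.sum_apply]
        refine Finset.sum_congr rfl fun i _ => ?_
        rw [Pi.smul_apply, Pi.smul_apply, smul_eq_mul, smul_eq_mul, map_mul]
      rw [h7]
      exact Submodule.sum_mem _ fun i _ => Submodule.smul_mem _ _ (Submodule.subset_span ⟨i, rfl⟩)
    refine (Submodule.finrank_mono hle).trans ?_
    refine (finrank_range_le_card _).trans ?_
    rw [Fintype.card_fin]
  exact h2.trans h1

end lattice

/-! ### The local theorem -/

section loc

variable {O H : Type} [CommRing O] [Ring H] [Algebra O H] {Λ : Type} [Fintype Λ] {d : Λ → ℕ}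
  (ρ : ∀ l, H →ₐ[O] Matrix (Fin (d l)) (Fin (d l)) O)

open Classical in
/-- From an element which is approximately the idempotent to the idempotent. -/
lemma lift_idem [IsLocalRing O] (F : Λ → Prop) (y₀ : H)
    (h1 : ∀ l, F l → (ρ l y₀).map (IsLocalRing.residue O) = 1)
    (h0 : ∀ l, ¬ F l → (ρ l y₀).map (IsLocalRing.residue O) = 0) :
    ∃ y : H, ∀ l, (F l → ρ l y = 1) ∧ (¬ F l → ρ l y = 0) := by
  set res := IsLocalRing.residue O with hres
  -- first step
  let P : O[X] := ∏ l, if F l then 1 else (ρ l y₀).charpoly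
  let w : H := aeval y₀ P
  have hw0 : ∀ l, ¬ F l → ρ l w = 0 := by
    intro l hl
    show ρ l (aeval y₀ P) = 0
    rw [← Polynomial.aeval_algHom_apply]
    have h2 : (ρ l y₀).charpoly ∣ P := by
      have h3 := Finset.dvd_prod_of_mem (fun l => if F l then 1 else (ρ l y₀).charpoly)
        (Finset.mem_univ l)
      simpa [hl] using h3
    obtain ⟨g, hg⟩ := h2
    rw [hg, map_mul, Matrix.aeval_self_charpoly, zero_mul]
  have hw1 : ∀ l, F l → (ρ l w).map res = 1 := by
    intro l hl
    have h2 : (ρ l w).map res = res.mapMatrix (aeval (ρ l y₀) P) := by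
      rw [Polynomial.aeval_algHom_apply]
      rfl
    have h3 : res.mapMatrix (aeval (ρ l y₀) P) =
        eval₂ ((algebraMap (IsLocalRing.ResidueField O) _).comp res)
          (res.mapMatrix (ρ l y₀)) P := by
      rw [Polynomial.aeval_def, Polynomial.hom_eval₂]
      congr 1
      ext a i j
      simp [Matrix.algebraMap_matrix_apply]
      split_ifs <;> simp
    rw [h2, h3]
    have h4 : res.mapMatrix (ρ l y₀) = 1 := h1 l hl
    have h5 : (1 : Matrix (Fin (d l)) (Fin (d l)) (IsLocalRing.ResidueField O)) =
      algebraMap (IsLocalRing.ResidueField O) _ 1 := (map_one _).symm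
    rw [h4, ← Polynomial.eval₂_map, ← Polynomial.aeval_def, h5,
      Polynomial.aeval_algebraMap_apply]
    congr 1
    rw [Polynomial.map_prod, map_prod]
    refine Finset.prod_eq_one fun m _ => ?_
    split_ifs with hm
    · simp
    · rw [← Matrix.charpoly_map, h0 m hm, Matrix.charpoly_zero]
      simp
  -- second step
  let q : O[X] := ∏ l, if F l then (ρ l w).charpoly else 1
  have hq : ∀ l, F l → ρ l (aeval w q) = 0 := by
    intro l hl
    rw [← Polynomial.aeval_algHom_apply]
    have h2 : (ρ l w).charpoly ∣ q := by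
      have h3 := Finset.dvd_prod_of_mem (fun l => if F l then (ρ l w).charpoly else 1)
        (Finset.mem_univ l)
      simpa [hl] using h3
    obtain ⟨g, hg⟩ := h2
    rw [hg, map_mul, Matrix.aeval_self_charpoly, zero_mul]
  have hc : IsUnit (q.coeff 0) := by
    by_contra hcon
    have h2 : res (q.coeff 0) = 0 := by
      rw [hres, IsLocalRing.residue_eq_zero_iff]
      exact (IsLocalRing.mem_maximalIdeal _).2 hcon
    rw [← Polynomial.coeff_map, Polynomial.coeff_zero_eq_eval_zero, Polynomial.map_prod,
      Polynomial.eval_prod, Finset.prod_eq_zero_iff] at h2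
    obtain ⟨l, _, h3⟩ := h2
    split_ifs at h3 with hl
    · rw [← Matrix.charpoly_map, hw1 l hl, Matrix.charpoly_one] at h3
      simp at h3
    · simp at h3
  obtain ⟨u, hu⟩ := hc
  refine ⟨-((u⁻¹ : Oˣ) : O) • (aeval w q.divX * w), fun l => ⟨fun hl => ?_, fun hl => ?_⟩⟩
  · have h2 := hq l hl
    rw [← Polynomial.divX_mul_X_add q, map_add, map_mul, Polynomial.aeval_X, Polynomial.aeval_C,
      map_add, AlgHom.commutes, ← hu] at h2
    have h3 : ρ l (aeval w q.divX * w) = -(algebraMap O _ (u : O)) := eq_neg_of_add_eq_zero_left h2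
    rw [map_smul, h3, Algebra.algebraMap_eq_smul_one, neg_smul, smul_neg, neg_neg, smul_smul,
      Units.inv_mul, one_smul]
  · rw [map_smul, map_mul, hw0 l hl, mul_zero, smul_zero]

end loc

end MX

open Classical in
/-- The local theorem: sets of characters without common constituents modulo the maximal ideal of
a local principal ideal domain are separated over this domain. -/
theorem local_sep {O K H Λ : Type} [CommRing O] [IsDomain O] [IsPrincipalIdealRing O]
    [IsLocalRing O] [Field K] [Algebra O K] [IsFractionRing O K] [Ring H] [Algebra O H]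
    [Module.Finite O H] [Finite Λ] (d : Λ → ℕ) (hd : ∀ l, 0 < d l)
    (R : ∀ l, H →ₐ[O] Matrix (Fin (d l)) (Fin (d l)) K)
    (hR : ∀ l, Submodule.span K (Set.range (R l)) = ⊤) (F : Λ → Prop)
    (h : ∀ l m, F l → ¬ F m → ∀ (n : ℕ)
      (ψ : H →+* Matrix (Fin n) (Fin n) (IsLocalRing.ResidueField O)), 0 < n →
      (∀ a x, ψ (a • x) = IsLocalRing.residue O a • ψ x) →
      (∀ v, v ≠ 0 → Submodule.span (IsLocalRing.ResidueField O)
        (Set.range fun x => ψ x *ᵥ v) = ⊤) →
      (∀ x, (ψ x).rank ≤ (R l x).rank) → (∀ x, (ψ x).rank ≤ (R m x).rank) → False) :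
    ∃ y : H, ∀ l, (F l → R l y = 1) ∧ (¬ F l → R l y = 0) := by
  have := Fintype.ofFinite Λ
  choose ρ P hP hρ using fun l => MX.exists_lattice (hd l) (R l) (hR l)
  let k := IsLocalRing.ResidueField O
  have hs : Function.Surjective (algebraMap O k) := IsLocalRing.residue_surjective
  -- the rank of `R l x`
  have hrk : ∀ l x, ((ρ l x).map (algebraMap O K)).rank = (R l x).rank := by
    intro l x
    obtain ⟨u, hu⟩ := hP l
    have h1 := hρ l x
    rw [← hu] at h1
    have h2 : (R l x * u.1).rank = (R l x).rank := Matrix.rank_mul_eq_left_of_isUnit_det _ _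
      ((Matrix.isUnit_iff_isUnit_det _).1 u.isUnit)
    have h3 : (u.1 * (ρ l x).map (algebraMap O K)).rank = ((ρ l x).map (algebraMap O K)).rank :=
      Matrix.rank_mul_eq_right_of_isUnit_det _ _ ((Matrix.isUnit_iff_isUnit_det _).1 u.isUnit)
    rw [← h3, ← h1, h2]
  let ρk : ∀ l, H →ₐ[O] Matrix (Fin (d l)) (Fin (d l)) k := fun l =>
    (Algebra.ofId O k).mapMatrix.comp (ρ l)
  have hρk : ∀ l x, ρk l x = (ρ l x).map (algebraMap O k) := fun l x => rfl
  let σ : ∀ l, TensorProduct O k H →ₐ[k] Matrix (Fin (d l)) (Fin (d l)) k := fun l =>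
    Algebra.TensorProduct.lift (Algebra.ofId k _) (ρk l) fun a b => Algebra.commutes a _
  have hσ : ∀ l x, σ l (1 ⊗ₜ x) = ρk l x := by
    intro l x
    exact (Algebra.TensorProduct.lift_tmul _ _ _ _ _).trans (by rw [map_one, one_mul])
  have hsurj : ∀ b : k ⊗[O] H, ∃ x : H, b = 1 ⊗ₜ x := by
    intro b
    induction b using TensorProduct.induction_on with
    | zero => exact ⟨0, (TensorProduct.tmul_zero _ _).symm⟩
    | tmul c x =>
      obtain ⟨a, rfl⟩ := hs c
      exact ⟨a • x, by rw [TensorProduct.tmul_smul, TensorProduct.smul_tmul', Algebra.smul_def,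
        mul_one]⟩
    | add b c hb hc =>
      obtain ⟨x, rfl⟩ := hb
      obtain ⟨y, rfl⟩ := hc
      exact ⟨x + y, (TensorProduct.tmul_add _ _ _).symm⟩
  obtain ⟨y, hy⟩ := sep_of_no_common d σ F (by
    intro l m hl hm n ψ hn hirr h1 h2
    have hrk2 : ∀ l x, (σ l (1 ⊗ₜ x)).rank ≤ (R l x).rank := by
      intro l x
      rw [hσ, hρk, ← hrk l x]
      exact MX.rank_map_le hs (ρ l x)
    refine h l m hl hm n
      (ψ.toRingHom.comp (Algebra.TensorProduct.includeRight : H →ₐ[O] k ⊗[O] H).toRingHom) hn
      (fun a x => ?_) (fun v hv => ?_) (fun x => (h1 _).trans (hrk2 l x))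
      (fun x => (h2 _).trans (hrk2 m x))
    · show ψ (1 ⊗ₜ (a • x)) = IsLocalRing.residue O a • ψ (1 ⊗ₜ x)
      rw [← map_smul, TensorProduct.smul_tmul', smul_eq_mul, mul_one, TensorProduct.tmul_smul,
        TensorProduct.smul_tmul', Algebra.smul_def, mul_one]
      rfl
    · rw [eq_top_iff, ← hirr v hv, Submodule.span_le]
      rintro _ ⟨b, rfl⟩
      obtain ⟨x, rfl⟩ := hsurj b
      exact Submodule.subset_span ⟨x, rfl⟩)
  obtain ⟨y₀, rfl⟩ := hsurj y
  obtain ⟨z, hz⟩ := MX.lift_idem ρ F y₀ (fun l hl => by
      have h1 := (hy l).1 hl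
      rw [hσ] at h1
      exact h1) (fun l hl => by
      have h1 := (hy l).2 hl
      rw [hσ] at h1
      exact h1)
  refine ⟨z, fun l => ⟨fun hl => ?_, fun hl => ?_⟩⟩
  · have h1 := hρ l z
    obtain ⟨u, hu⟩ := hP l
    rw [(hz l).1 hl, Matrix.map_one _ (map_zero _) (map_one _), mul_one, ← hu] at h1
    exact u.isUnit.mul_right_cancel (h1.trans (one_mul _).symm)
  · have h1 := hρ l z
    obtain ⟨u, hu⟩ := hP l
    rw [(hz l).2 hl, Matrix.map_zero _ (map_zero _), mul_zero, ← hu] at h1
    exact (Units.mul_left_eq_zero u).1 h1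

end

end Pool.Agent.CMF
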