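import Pool.Agent.CMFn.ModB
import Pool.Agent.CMF.AlgA
import Pool.Agent.CMF.LauDefs

/-! Module M, part C: localisation of Laurent polynomials at the primes of the constants. -/

namespace Pool.Agent.CMF

open Matrix Polynomial
open scoped TensorProduct

noncomputable section

namespace MX

variable {Z : Type} [CommRing Z] {ι : Type}

/-- The ideal of the Laurent polynomials with all coefficients in `p`. -/
def PP (ι : Type) (p : Ideal Z) : Ideal (Lau Z ι) :=
  RingHom.ker (AddMonoidAlgebra.mapRingHom (ι →₀ ℤ) (Ideal.Quotient.mk p))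

lemma mem_PP {p : Ideal Z} {x : Lau Z ι} : x ∈ PP ι p ↔ ∀ b, x.coeff b ∈ p := by
  rw [PP, RingHom.mem_ker]
  constructor
  · intro h b
    have h1 := congrArg (fun q => AddMonoidAlgebra.coeff q b) h
    simp only [AddMonoidAlgebra.coeff_mapRingHom] at h1
    exact Ideal.Quotient.eq_zero_iff_mem.1 h1
  · intro h
    apply AddMonoidAlgebra.ext
    apply Finsupp.ext
    intro b
    simp only [AddMonoidAlgebra.coeff_mapRingHom]
    exact Ideal.Quotient.eq_zero_iff_mem.2 (h b)

instance PP_prime (p : Ideal Z) [p.IsPrime] : (PP ι p).IsPrime := by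
  have : IsDomain (Lau (Z ⧸ p) ι) := inferInstance
  exact RingHom.ker_isPrime _

lemma C_mem_PP {p : Ideal Z} {z : Z} : algebraMap Z (Lau Z ι) z ∈ PP ι p ↔ z ∈ p := by
  rw [mem_PP]
  constructor
  · intro h
    have h1 := h 0
    simpa using h1
  · intro h b
    by_cases hb : b = 0
    · subst hb; simpa using h
    · simp [hb]

lemma coeff_C_mul (z : Z) (q : Lau Z ι) (b : ι →₀ ℤ) :
    (algebraMap Z (Lau Z ι) z * q).coeff b = z * q.coeff b := by
  rw [AddMonoidAlgebra.coe_algebraMap]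
  exact AddMonoidAlgebra.coeff_single_zero_mul q z b

/-- A local uniformiser. -/
lemma exists_unif [IsDedekindDomain Z] (p : Ideal Z) [hp : p.IsPrime] (h0 : p ≠ ⊥) :
    ∃ w ∈ p, w ≠ 0 ∧ ∃ t, t ∉ p ∧ ∀ x ∈ p, w ∣ t * x := by
  have h1 : p ^ 2 < p ^ 1 := Ideal.pow_right_strictAnti p h0 hp.ne_top (by norm_num)
  rw [pow_one] at h1
  obtain ⟨w, hw, hw2⟩ := SetLike.exists_of_lt h1
  have h2 : p ∣ Ideal.span {w} := Ideal.dvd_iff_le.2 ((Ideal.span_singleton_le_iff_mem p).2 hw)
  obtain ⟨I, hI⟩ := h2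
  have h3 : ¬ I ≤ p := by
    intro h
    apply hw2
    rw [pow_two]
    exact Ideal.mul_mono_right h (hI ▸ Ideal.mem_span_singleton_self w)
  obtain ⟨t, ht, htp⟩ := SetLike.not_le_iff_exists.1 h3
  refine ⟨w, hw, ?_, t, htp, fun x hx => ?_⟩
  · rintro rfl
    exact hw2 (Ideal.zero_mem _)
  · rw [← Ideal.mem_span_singleton, hI, mul_comm t x]
    exact Ideal.mul_mem_mul hx ht

lemma exists_div [IsDomain Z] {p : Ideal Z} {w t : Z} (h : ∀ x ∈ p, w ∣ t * x) {c : Lau Z ι}
    (hc : c ∈ PP ι p) : ∃ c', algebraMap Z (Lau Z ι) t * c = algebraMap Z (Lau Z ι) w * c' := by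
  rw [mem_PP] at hc
  have h1 : algebraMap Z (Lau Z ι) w ∣ algebraMap Z (Lau Z ι) t * c := by
    rw [AlgAX.dvd_iff]
    intro b
    rw [coeff_C_mul, Ideal.mem_span_singleton]
    exact h _ (hc b)
  exact h1

instance noeth [IsNoetherianRing Z] [Finite ι] : IsNoetherianRing (Lau Z ι) := by
  have h1 : AddMonoid.FG (ι →₀ ℤ) := by
    rw [← AddGroup.fg_iff_addMonoid_fg, ← Module.Finite.iff_addGroup_fg]
    infer_instance
  exact Algebra.FiniteType.isNoetherianRing Z _

/-- The localisation is a principal ideal domain. -/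
lemma pid [IsDedekindDomain Z] [Finite ι] (p : Ideal Z) [hp : p.IsPrime] (h0 : p ≠ ⊥) :
    IsPrincipalIdealRing (Localization.AtPrime (PP ι p)) := by
  obtain ⟨w, hw, hw0, t, ht, h⟩ := exists_unif p h0
  have hN : IsNoetherianRing (Localization.AtPrime (PP ι p)) :=
    IsLocalization.isNoetherianRing (PP ι p).primeCompl _ inferInstance
  refine ((tfae_of_isNoetherianRing_of_isLocalRing_of_isDomain
    (Localization.AtPrime (PP ι p))).out 4 0).1 ?_
  refine ⟨⟨algebraMap (Lau Z ι) _ (algebraMap Z (Lau Z ι) w), ?_⟩⟩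
  rw [← Localization.AtPrime.map_eq_maximalIdeal]
  apply le_antisymm
  · rw [Ideal.map_le_iff_le_comap]
    intro c hc
    rw [Ideal.mem_comap]
    obtain ⟨c', hc'⟩ := exists_div h hc
    have h1 := congrArg (algebraMap (Lau Z ι) (Localization.AtPrime (PP ι p))) hc'
    rw [map_mul, map_mul] at h1
    have h2 : IsUnit (algebraMap (Lau Z ι) (Localization.AtPrime (PP ι p))
        (algebraMap Z (Lau Z ι) t)) :=
      IsLocalization.map_units (M := (PP ι p).primeCompl) _
        ⟨algebraMap Z (Lau Z ι) t, fun h3 => ht (C_mem_PP.1 h3)⟩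
    obtain ⟨u, hu⟩ := h2
    rw [← hu] at h1
    have h3 : algebraMap (Lau Z ι) (Localization.AtPrime (PP ι p)) c = (u⁻¹ : (Localization.AtPrime
        (PP ι p))ˣ) * (algebraMap (Lau Z ι) _ (algebraMap Z (Lau Z ι) w) *
          algebraMap (Lau Z ι) _ c') := by
      rw [← h1, ← mul_assoc, Units.inv_mul, one_mul]
    rw [h3]
    exact Ideal.mul_mem_left _ _ (Ideal.mul_mem_right _ _ (Submodule.mem_span_singleton_self _))
  · rw [Submodule.span_le, Set.singleton_subset_iff]
    exact Ideal.mem_map_of_mem _ (C_mem_PP.2 hw)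

/-! ### Divisibility by constants is local -/

lemma dvd_pow_local [IsDomain Z] {p : Ideal Z} [hp : p.IsPrime] {w t : Z} (hw : w ∈ p) (hw0 : w ≠ 0)
    (ht : t ∉ p) (h : ∀ x ∈ p, w ∣ t * x) (e : ℕ) : ∀ (c s : Lau Z ι), s ∉ PP ι p →
      algebraMap Z (Lau Z ι) w ^ e ∣ s * c → ∃ z : Z, z ∉ p ∧
        algebraMap Z (Lau Z ι) w ^ e ∣ algebraMap Z (Lau Z ι) z * c := by
  have hinj : Function.Injective (algebraMap Z (Lau Z ι)) := by
    intro a b hab
    have h1 := congrArg (fun q : Lau Z ι => q.coeff 0) hab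
    simpa using h1
  have hwA : algebraMap Z (Lau Z ι) w ≠ 0 := by
    intro h1
    exact hw0 (hinj (h1.trans (map_zero _).symm))
  induction e with
  | zero => exact fun c s _ _ => ⟨1, fun h1 => hp.ne_top ((Ideal.eq_top_iff_one p).2 h1), by simp⟩
  | succ e ih =>
    intro c s hs hd
    have h1 : s * c ∈ PP ι p := by
      obtain ⟨q, hq⟩ := hd
      rw [hq, pow_succ]
      exact Ideal.mul_mem_right _ _ (Ideal.mul_mem_left _ _ (C_mem_PP.2 hw))
    have h2 : c ∈ PP ι p := (Ideal.IsPrime.mem_or_mem inferInstance h1).resolve_left hs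
    obtain ⟨c', hc'⟩ := exists_div h h2
    have h3 : algebraMap Z (Lau Z ι) w ^ e ∣ s * c' := by
      have h4 : algebraMap Z (Lau Z ι) w * algebraMap Z (Lau Z ι) w ^ e ∣
          algebraMap Z (Lau Z ι) w * (s * c') := by
        have h5 : algebraMap Z (Lau Z ι) w * (s * c') = algebraMap Z (Lau Z ι) t * (s * c) := by
          calc algebraMap Z (Lau Z ι) w * (s * c') = s * (algebraMap Z (Lau Z ι) w * c') := by ring
            _ = _ := by rw [← hc']; ring
        rw [h5, ← pow_succ']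
        exact Dvd.dvd.mul_left hd _
      exact (mul_dvd_mul_iff_left hwA).1 h4
    obtain ⟨z, hz, hz1⟩ := ih c' s hs h3
    refine ⟨z * t, fun h4 => (hp.mem_or_mem h4).elim hz ht, ?_⟩
    have h5 : algebraMap Z (Lau Z ι) (z * t) * c =
        algebraMap Z (Lau Z ι) w * (algebraMap Z (Lau Z ι) z * c') := by
      rw [map_mul, mul_assoc, hc']; ring
    rw [h5, pow_succ']
    exact mul_dvd_mul_left _ hz1

lemma exists_val [IsDedekindDomain Z] {p : Ideal Z} [hp : p.IsMaximal] {w t : Z}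
    (ht : t ∉ p) (h : ∀ x ∈ p, w ∣ t * x) {ξ : Z} (hξ : ξ ≠ 0) (hw : w ∈ p) :
    ∃ (e : ℕ) (u v : Z), u ∉ p ∧ v ∉ p ∧ v * ξ = u * w ^ e := by
  have hex : ∃ n, ξ ∉ p ^ n := by
    by_contra hcon
    push Not at hcon
    have h1 : ξ ∈ (⨅ n, p ^ n : Ideal Z) := (Submodule.mem_iInf _).2 hcon
    rw [Ideal.iInf_pow_eq_bot_of_isDomain p hp.ne_top] at h1
    exact hξ h1
  classical
  have hn0 : Nat.find hex ≠ 0 := by
    intro h0
    have h1 := Nat.find_spec hex
    rw [h0] at h1
    simp at h1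
  obtain ⟨e, he⟩ := Nat.exists_eq_succ_of_ne_zero hn0
  have h1 : ξ ∈ p ^ e := by
    by_contra h2
    exact Nat.find_min hex (by omega) h2
  have h2 : ξ ∉ p ^ (e + 1) := by
    have h3 := Nat.find_spec hex
    rwa [he] at h3
  have h3 : ∀ n, ∀ x ∈ p ^ n, w ^ n ∣ t ^ n * x := by
    intro n
    induction n with
    | zero => intro x _; simp
    | succ n ih =>
      intro x hx
      rw [pow_succ'] at hx
      refine Submodule.mul_induction_on hx (fun a ha b hb => ?_) (fun a b ha hb => ?_)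
      · have h4 := mul_dvd_mul (h a ha) (ih b hb)
        rw [pow_succ', pow_succ']
        convert h4 using 1
        ring
      · rw [mul_add]
        exact dvd_add ha hb
  obtain ⟨u, hu⟩ := h3 e ξ h1
  refine ⟨e, u, t ^ e, ?_, fun h4 => ht (hp.isPrime.mem_of_pow_mem _ h4), by rw [hu]; ring⟩
  intro hup
  apply h2
  have h4 : t ^ e * ξ ∈ p ^ (e + 1) := by
    rw [hu, pow_succ]
    exact Ideal.mul_mem_mul (Ideal.pow_mem_pow hw e) hup
  exact (Ideal.IsMaximal.mul_mem_pow p h4).resolve_left fun h5 => ht (hp.isPrime.mem_of_pow_mem _ h5)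

end MX

/-- Divisibility by a constant may be tested locally at the primes of the ring of constants. -/
theorem dvd_of_local {Z : Type} [CommRing Z] [IsDedekindDomain Z] {ι : Type} (ξ : Z) (hξ : ξ ≠ 0)
    (c : Lau Z ι) (h : ∀ p : Ideal Z, p.IsMaximal → p ≠ ⊥ → ξ ∈ p → ∃ s, s ∉ MX.PP ι p ∧
      algebraMap Z (Lau Z ι) ξ ∣ s * c) : algebraMap Z (Lau Z ι) ξ ∣ c := by
  let a : Ideal Z :=
    { carrier := {z | algebraMap Z (Lau Z ι) ξ ∣ algebraMap Z (Lau Z ι) z * c}
      add_mem' := fun {x y} hx hy => by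
        show algebraMap Z (Lau Z ι) ξ ∣ algebraMap Z (Lau Z ι) (x + y) * c
        rw [map_add, add_mul]
        exact dvd_add hx hy
      zero_mem' := by
        show algebraMap Z (Lau Z ι) ξ ∣ algebraMap Z (Lau Z ι) 0 * c
        rw [map_zero, zero_mul]
        exact dvd_zero _
      smul_mem' := fun x y hy => by
        show algebraMap Z (Lau Z ι) ξ ∣ algebraMap Z (Lau Z ι) (x * y) * c
        rw [map_mul, mul_assoc]
        exact Dvd.dvd.mul_left hy _ }
  have hmem : ∀ z, z ∈ a ↔ algebraMap Z (Lau Z ι) ξ ∣ algebraMap Z (Lau Z ι) z * c :=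
    fun z => Iff.rfl
  by_cases ha : a = ⊤
  · have h1 : (1 : Z) ∈ a := by rw [ha]; trivial
    rw [hmem, map_one, one_mul] at h1
    exact h1
  · exfalso
    obtain ⟨p, hp, hap⟩ := Ideal.exists_le_maximal a ha
    have hξa : ξ ∈ a := (hmem ξ).2 ⟨c, rfl⟩
    have hξp := hap hξa
    have hp0 : p ≠ ⊥ := by
      rintro rfl
      exact hξ ((Submodule.mem_bot Z).1 hξp)
    obtain ⟨s, hs, hsd⟩ := h p hp hp0 hξp
    have := hp.isPrime
    obtain ⟨w, hw, hw0, t, ht, hwt⟩ := MX.exists_unif p hp0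
    obtain ⟨e, u, v, hu, hv, huv⟩ := MX.exists_val ht hwt hξ hw
    have h1 : algebraMap Z (Lau Z ι) w ^ e ∣ (algebraMap Z (Lau Z ι) v * s) * c := by
      have h2 : algebraMap Z (Lau Z ι) (v * ξ) ∣ (algebraMap Z (Lau Z ι) v * s) * c := by
        rw [map_mul, mul_assoc]
        exact mul_dvd_mul_left _ hsd
      rw [huv, map_mul, map_pow] at h2
      exact dvd_of_mul_left_dvd h2
    obtain ⟨z, hz, hz1⟩ := MX.dvd_pow_local hw hw0 ht hwt e c _ (fun h2 =>
      ((MX.PP_prime p).mem_or_mem h2).elim (fun h3 => hv (MX.C_mem_PP.1 h3)) hs) h1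
    have h3 : u * z ∈ a := by
      rw [hmem, map_mul, mul_assoc]
      have h4 : algebraMap Z (Lau Z ι) (v * ξ) ∣ algebraMap Z (Lau Z ι) u *
          (algebraMap Z (Lau Z ι) z * c) := by
        rw [huv, map_mul, map_pow]
        exact mul_dvd_mul_left _ hz1
      rw [map_mul] at h4
      exact dvd_of_mul_left_dvd h4
    exact (hp.isPrime.mem_or_mem (hap h3)).elim hu hz

end

end Pool.Agent.CMF
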