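import Pool.Agent.CMFn.ModC

/-! Module M, part D: separation at a prime of the base ring. -/

namespace Pool.Agent.CMF

open Matrix Polynomial
open scoped TensorProduct

noncomputable section

/-- Sets of characters without common constituents modulo a prime `P` with principal localisation
are separated up to an element outside `P`. -/
theorem sep_at_prime {A K H Λ : Type} [CommRing A] [IsDomain A] [Field K] [Algebra A K]
    [IsFractionRing A K] [Ring H] [Algebra A H] [Module.Finite A H] [Finite Λ]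
    (P : Ideal A) [hPp : P.IsPrime] (hP : IsPrincipalIdealRing (Localization.AtPrime P))
    (d : Λ → ℕ) (hd : ∀ l, 0 < d l) (R : ∀ l, H →ₐ[A] Matrix (Fin (d l)) (Fin (d l)) K)
    (hR : ∀ l, Submodule.span K (Set.range (R l)) = ⊤) (F : Λ → Prop)
    (h : ∀ l m, F l → ¬ F m → ∀ (k : Type) [Field k] (φ : A →+* k), (∀ a, φ a = 0 ↔ a ∈ P) →
      ∀ (n : ℕ) (ψ : H →+* Matrix (Fin n) (Fin n) k), 0 < n → (∀ a x, ψ (a • x) = φ a • ψ x) →
      (∀ v, v ≠ 0 → Submodule.span k (Set.range fun x => ψ x *ᵥ v) = ⊤) →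
      (∀ x, (ψ x).rank ≤ (R l x).rank) → (∀ x, (ψ x).rank ≤ (R m x).rank) → False) :
    ∃ (s : A) (y : H), s ∉ P ∧ ∀ l, (F l → R l y = algebraMap A K s • 1) ∧
      (¬ F l → R l y = 0) := by
  let O := Localization.AtPrime P
  have hinj : Function.Injective (algebraMap A K) := IsFractionRing.injective A K
  have hunit : ∀ s : P.primeCompl, IsUnit (algebraMap A K s) := fun s => by
    refine IsUnit.mk0 _ fun h0 => ?_
    have h1 : (s : A) = 0 := hinj (h0.trans (map_zero _).symm)
    exact s.2 (h1 ▸ P.zero_mem)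
  let _ : Algebra O K := (IsLocalization.lift (M := P.primeCompl) hunit : O →+* K).toAlgebra
  have : IsScalarTower A O K := IsScalarTower.of_algebraMap_eq fun a =>
    (IsLocalization.lift_eq (M := P.primeCompl) hunit a).symm
  have : IsFractionRing O K :=
    IsFractionRing.isFractionRing_of_isDomain_of_isLocalization P.primeCompl O K
  let R' : ∀ l, O ⊗[A] H →ₐ[O] Matrix (Fin (d l)) (Fin (d l)) K := fun l =>
    Algebra.TensorProduct.lift (Algebra.ofId O _) (R l) fun a b => Algebra.commutes a _
  have hR1 : ∀ l x, R' l (1 ⊗ₜ x) = R l x := by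
    intro l x
    exact (Algebra.TensorProduct.lift_tmul _ _ _ _ _).trans (by rw [map_one, one_mul])
  have hspan : ∀ l, Submodule.span K (Set.range (R' l)) = ⊤ := by
    intro l
    rw [eq_top_iff, ← hR l, Submodule.span_le]
    rintro _ ⟨x, rfl⟩
    exact Submodule.subset_span ⟨1 ⊗ₜ x, hR1 l x⟩
  let k := IsLocalRing.ResidueField O
  have hclear : ∀ z : O ⊗[A] H, ∃ (s : A) (y : H), s ∉ P ∧
      algebraMap A O s • z = 1 ⊗ₜ y := by
    intro z
    induction z using TensorProduct.induction_on with
    | zero => exact ⟨1, 0, fun h1 => hPp.ne_top ((Ideal.eq_top_iff_one P).2 h1), by simp⟩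
    | tmul c x =>
      obtain ⟨⟨a, s⟩, hs⟩ := IsLocalization.surj P.primeCompl c
      refine ⟨s, a • x, s.2, ?_⟩
      rw [TensorProduct.smul_tmul', smul_eq_mul, mul_comm, hs, TensorProduct.tmul_smul,
        TensorProduct.smul_tmul', Algebra.smul_def, mul_one]
    | add b c hb hc =>
      obtain ⟨s, x, hs, hx⟩ := hb
      obtain ⟨t, y, ht, hy⟩ := hc
      refine ⟨s * t, t • x + s • y, fun h1 => (hPp.mem_or_mem h1).elim hs ht, ?_⟩
      rw [map_mul, smul_add, mul_comm, mul_smul, hx, mul_comm, mul_smul, hy,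
        TensorProduct.tmul_add, TensorProduct.tmul_smul, TensorProduct.tmul_smul,
        algebraMap_smul, algebraMap_smul]
  obtain ⟨z, hz⟩ := local_sep (O := O) (K := K) d hd R' hspan F (by
    intro l m hl hm n ψ hn hsm hirr h1 h2
    let φ : A →+* k := (IsLocalRing.residue O).comp (algebraMap A O)
    refine h l m hl hm k φ (fun a => ?_) n
      (ψ.comp (Algebra.TensorProduct.includeRight : H →ₐ[A] O ⊗[A] H).toRingHom) hn
      (fun a x => ?_) (fun v hv => ?_) (fun x => ?_) (fun x => ?_)
    · show IsLocalRing.residue O (algebraMap A O a) = 0 ↔ a ∈ P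
      rw [IsLocalRing.residue_eq_zero_iff]
      exact IsLocalization.AtPrime.to_map_mem_maximal_iff O P a
    · show ψ (1 ⊗ₜ (a • x)) = IsLocalRing.residue O (algebraMap A O a) • ψ (1 ⊗ₜ x)
      rw [← hsm, TensorProduct.smul_tmul', smul_eq_mul, mul_one, TensorProduct.tmul_smul,
        TensorProduct.smul_tmul', Algebra.smul_def, mul_one]
    · rw [eq_top_iff, ← hirr v hv, Submodule.span_le]
      rintro _ ⟨b, rfl⟩
      induction b using TensorProduct.induction_on with
      | zero => simp
      | tmul c x =>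
        have h3 : (c ⊗ₜ[A] x : O ⊗[A] H) = c • (1 ⊗ₜ x) := by
          rw [TensorProduct.smul_tmul', smul_eq_mul, mul_one]
        show ψ (c ⊗ₜ x) *ᵥ v ∈ _
        rw [h3, hsm, Matrix.smul_mulVec]
        exact Submodule.smul_mem _ _ (Submodule.subset_span ⟨x, rfl⟩)
      | add b c hb hc =>
        show ψ (b + c) *ᵥ v ∈ _
        rw [map_add, Matrix.add_mulVec]
        exact Submodule.add_mem _ hb hc
    · rw [← hR1 l x]
      exact h1 _
    · rw [← hR1 m x]
      exact h2 _)
  obtain ⟨s, y, hs, hy⟩ := hclear z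
  refine ⟨s, y, hs, fun l => ?_⟩
  have h1 : R l y = algebraMap A K s • R' l z := by
    rw [← hR1, ← hy, map_smul, algebraMap_smul, algebraMap_smul]
  constructor
  · intro hl
    rw [h1, (hz l).1 hl]
  · intro hl
    rw [h1, (hz l).2 hl, smul_zero]

end

end Pool.Agent.CMF
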