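import Pool.Agent.CMFn.ModD
import Pool.Agent.CMFn.IsInt

/-! Module M, part E: sets of characters without common constituents are integral. -/

namespace Pool.Agent.CMF

set_option linter.unusedSectionVars false

open Matrix Polynomial

noncomputable section

namespace MX

/-! ### The ideals `PP p` and monomials -/

section mon

variable {Z : Type} [CommRing Z] {ι : Type} {p : Ideal Z}

lemma sub_notMem (hp : p ≠ ⊤) {a b : ι →₀ ℤ} (h : a ≠ b) : (mon a - mon b : Lau Z ι) ∉ PP ι p := by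
  intro h1
  have h2 := mem_PP.1 h1 a
  apply hp
  rw [Ideal.eq_top_iff_one]
  have h3 : (mon a - mon b : Lau Z ι).coeff a = 1 := by
    simp only [mon, AddMonoidAlgebra.coeff_sub, AddMonoidAlgebra.coeff_single, Finsupp.sub_apply]
    rw [Finsupp.single_eq_same, Finsupp.single_eq_of_ne h, sub_zero]
  rwa [h3] at h2

lemma dlt_notMem [hp : p.IsPrime] {J : Type} [Fintype J] (P : J → (ι →₀ ℤ) × (ι →₀ ℤ))
    (h : ∀ j, (P j).1 ≠ (P j).2) : dlt Z P ∉ PP ι p := by
  intro h1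
  rw [dlt] at h1
  obtain ⟨j, _, hj⟩ := ((PP_prime p).prod_mem_iff).1 h1
  exact sub_notMem hp.ne_top (h j) hj

lemma mon_one_of (hp : p ≠ ⊤) {k : Type} [Field k] (φ : Lau Z ι →+* k)
    (hφ : ∀ a, φ a = 0 ↔ a ∈ PP ι p) (a : ι →₀ ℤ) (h : φ (mon a) = 1) : a = 0 := by
  by_contra ha
  apply sub_notMem (Z := Z) hp ha
  rw [← hφ, map_sub, h]
  have : (mon 0 : Lau Z ι) = 1 := rfl
  rw [this, map_one, sub_self]

lemma mon_inj_of (hp : p ≠ ⊤) {k : Type} [Field k] (φ : Lau Z ι →+* k)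
    (hφ : ∀ a, φ a = 0 ↔ a ∈ PP ι p) (a b : ι →₀ ℤ) (h : φ (mon a) = φ (mon b)) : a = b := by
  by_contra hab
  apply sub_notMem (Z := Z) hp hab
  rw [← hφ, map_sub, h, sub_self]

end mon

/-! ### The representations over `K` -/

section K

variable {Z : Type} [CommRing Z] {ι : Type} (D : HData Z ι)

/-- `R_l` as a homomorphism of algebras. -/
def RA (l : D.Λ) : D.H →ₐ[Lau Z ι] Matrix (Fin (D.d l)) (Fin (D.d l)) D.K where
  __ := D.R l
  commutes' a := by
    show D.R l (algebraMap (Lau Z ι) D.H a) = _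
    rw [Algebra.algebraMap_eq_smul_one, D.R_smul, map_one, algebraMap_smul]
    exact (Algebra.algebraMap_eq_smul_one a).symm

lemma RA_apply (l : D.Λ) (x : D.H) : RA D l x = D.R l x := rfl

lemma span_RA (l : D.Λ) : Submodule.span D.K (Set.range (RA D l)) = ⊤ := by
  rw [eq_top_iff]
  intro x _
  exact I1X.span_R D l (fun x => x ∈ Submodule.span D.K (Set.range (RA D l)))
    (fun h => Submodule.subset_span ⟨h, rfl⟩) (Submodule.zero_mem _)
    (fun x y hx hy => Submodule.add_mem _ hx hy) (fun c x hx => Submodule.smul_mem _ c hx) x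

variable [IsDomain Z] [Algebra Z ℂ] [Fintype ι] {D} {M : ℕ} (Q : KZData D M)

omit [Algebra Z ℂ] [Fintype ι] in
lemma S_ne : D.S ≠ 0 := Finset.prod_ne_zero_iff.2 fun l _ => D.s_ne l

omit [Algebra Z ℂ] [Fintype ι] in
lemma aS_ne : algebraMap (Lau Z ι) D.K D.S ≠ 0 := by
  intro h
  exact S_ne (D.injK (h.trans (map_zero _).symm))

include Q in
/-- From the representations `ρ_κ` to the representations over `K`. -/
lemma R_of_ρ (hinj : Function.Injective (algebraMap Z ℂ)) (hM : 0 < M) (F : D.Λ → Prop)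
    (δ : Lau Z ι) (x : D.H) (hp : ∀ κ l, F l → Q.ρ κ l x = evL Z M κ δ • 1)
    (hn : ∀ κ l, ¬ F l → Q.ρ κ l x = 0) (l : D.Λ) :
    (F l → D.R l x = algebraMap (Lau Z ι) D.K δ • 1) ∧ (¬ F l → D.R l x = 0) := by
  classical
  have h1 : D.S • x = δ • D.CF F := by
    rw [← sub_eq_zero]
    apply Q.ρ_inj hinj hM
    intro κ l
    rw [map_sub, Q.ρ_smul, Q.ρ_smul, Q.ρ_CF]
    by_cases hl : F l
    · rw [hp κ l hl, if_pos hl, smul_smul, smul_smul, mul_comm, sub_self]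
    · rw [hn κ l hl, if_neg hl, smul_zero, smul_zero, sub_zero]
  have h2 := congrArg (D.R l) h1
  rw [D.R_smul, D.R_smul, D.R_CF] at h2
  constructor
  · intro hl
    rw [if_pos hl, smul_smul, mul_comm, mul_smul] at h2
    exact smul_right_injective _ aS_ne h2
  · intro hl
    rw [if_neg hl, smul_zero] at h2
    exact (smul_eq_zero.1 h2).resolve_left aS_ne

/-- The full twist acts as a scalar. -/
lemma R_π (hinj : Function.Injective (algebraMap Z ℂ)) (hM : 0 < M) (l : D.Λ) :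
    D.R l Q.π = algebraMap (Lau Z ι) D.K (mon (Q.a l)) • 1 := by
  have h1 : (Q.π - (mon (Q.a l) : Lau Z ι) • 1) * D.C l = 0 := by
    apply Q.ρ_inj hinj hM
    intro κ m
    rw [map_mul, Q.ρ_C]
    split_ifs with hm
    · subst hm
      rw [map_sub, Q.ρπ, Q.ρ_smul, map_one, sub_self, zero_mul]
    · rw [mul_zero]
  have h2 := congrArg (D.R l) h1
  rw [map_mul, D.R_C, if_pos rfl, map_zero, mul_smul_comm, mul_one, map_sub, D.R_smul,
    map_one] at h2
  have h3 : algebraMap (Lau Z ι) D.K (D.s l) ≠ 0 := by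
    intro h
    exact D.s_ne l (D.injK (h.trans (map_zero _).symm))
  exact sub_eq_zero.1 ((smul_eq_zero.1 h2).resolve_left h3)

end K

/-! ### Division by the constants -/

section glob

variable {Z : Type} [CommRing Z] [IsDomain Z] {ι : Type} {D : HData Z ι} (Φ : SchurFac D)

open Classical in
/-- The constant part of the product of the Schur elements. -/
def xi0 : Z := (∏ l, Φ.ξ l) * ∏ q : (Σ l, Fin (Φ.n l)), if Φ.E q.1 q.2 = 0 then
  (Φ.Ψ q.1 q.2).eval 1 else 1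

open Classical in
lemma S_eq : D.S = algebraMap Z (Lau Z ι) (xi0 Φ) * ((∏ l, mon (Φ.N l)) *
    ∏ q : {q : (Σ l, Fin (Φ.n l)) // Φ.E q.1 q.2 ≠ 0},
      Polynomial.eval₂ (algebraMap Z (Lau Z ι)) (mon (Φ.E q.1.1 q.1.2)) (Φ.Ψ q.1.1 q.1.2)) := by
  have h1 : D.S = (∏ l, algebraMap Z (Lau Z ι) (Φ.ξ l)) * (∏ l, mon (Φ.N l)) *
      ∏ q : (Σ l, Fin (Φ.n l)),
        Polynomial.eval₂ (algebraMap Z (Lau Z ι)) (mon (Φ.E q.1 q.2)) (Φ.Ψ q.1 q.2) := by
    rw [HData.S, Fintype.prod_sigma, ← Finset.prod_mul_distrib, ← Finset.prod_mul_distrib]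
    exact Finset.prod_congr rfl fun l _ => Φ.fac l
  have h2 : (∏ q : (Σ l, Fin (Φ.n l)),
      Polynomial.eval₂ (algebraMap Z (Lau Z ι)) (mon (Φ.E q.1 q.2)) (Φ.Ψ q.1 q.2)) =
      algebraMap Z (Lau Z ι) (∏ q : (Σ l, Fin (Φ.n l)), if Φ.E q.1 q.2 = 0 then
        (Φ.Ψ q.1 q.2).eval 1 else 1) *
      ∏ q : {q : (Σ l, Fin (Φ.n l)) // Φ.E q.1 q.2 ≠ 0},
        Polynomial.eval₂ (algebraMap Z (Lau Z ι)) (mon (Φ.E q.1.1 q.1.2)) (Φ.Ψ q.1.1 q.1.2) := by
    have h3 : (∏ q : {q : (Σ l, Fin (Φ.n l)) // Φ.E q.1 q.2 ≠ 0},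
        Polynomial.eval₂ (algebraMap Z (Lau Z ι)) (mon (Φ.E q.1.1 q.1.2)) (Φ.Ψ q.1.1 q.1.2)) =
        ∏ q : (Σ l, Fin (Φ.n l)), if Φ.E q.1 q.2 = 0 then 1 else
          Polynomial.eval₂ (algebraMap Z (Lau Z ι)) (mon (Φ.E q.1 q.2)) (Φ.Ψ q.1 q.2) := by
      rw [← Finset.prod_subtype (Finset.univ.filter fun q : (Σ l, Fin (Φ.n l)) =>
        Φ.E q.1 q.2 ≠ 0) (fun q => by simp) fun q =>
        Polynomial.eval₂ (algebraMap Z (Lau Z ι)) (mon (Φ.E q.1 q.2)) (Φ.Ψ q.1 q.2),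
        Finset.prod_filter]
      refine Finset.prod_congr rfl fun q _ => ?_
      by_cases h0 : Φ.E q.1 q.2 = 0
      · rw [if_neg (not_not.2 h0), if_pos h0]
      · rw [if_pos h0, if_neg h0]
    rw [h3, map_prod, ← Finset.prod_mul_distrib]
    refine Finset.prod_congr rfl fun q _ => ?_
    split_ifs with h0
    · rw [h0, mul_one]
      have h4 : (mon 0 : Lau Z ι) = algebraMap Z (Lau Z ι) 1 := (map_one _).symm
      rw [h4, Polynomial.eval₂_at_apply]
    · rw [map_one, one_mul]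
  rw [h1, h2, xi0, map_mul, ← map_prod]
  ring

lemma xi0_ne : xi0 Φ ≠ 0 := by
  intro h
  have h1 := S_eq Φ
  rw [h, map_zero, zero_mul] at h1
  exact S_ne h1

end glob

end MX

section main

variable {Z : Type} [CommRing Z] [IsDomain Z] [Algebra Z ℂ] {ι : Type} [Fintype ι] {D : HData Z ι}
  {M : ℕ} {Q : KZData D M} {C : (ι →₀ ℤ) → Prop}

lemma MX.evL_const (κ : ι → ℂ) (z : Z) : evL Z M κ (algebraMap Z (Lau Z ι) z) = algebraMap Z ℂ z := by
  have h1 : algebraMap Z (Lau Z ι) z = AddMonoidAlgebra.single 0 z := by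
    rw [AddMonoidAlgebra.coe_algebraMap]; rfl
  rw [h1, evL_single]
  simp [pair]

open Classical in
/-- Integrality of a set of characters is local at the primes of the ring of constants. -/
theorem isInt_of_local [IsDedekindDomain Z] (hinj : Function.Injective (algebraMap Z ℂ))
    (Φ : SchurFac D) (hC : ∀ l i, Φ.E l i ≠ 0 → ∀ j : ℕ, 0 < j → C (j • Φ.E l i))
    {F : D.Λ → Prop} (h : ∀ p : Ideal Z, p.IsMaximal → p ≠ ⊥ → MX.xi0 Φ ∈ p →
      ∃ (s : Lau Z ι) (y : D.H), s ∉ MX.PP ι p ∧ ∀ l,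
        (F l → D.R l y = algebraMap (Lau Z ι) D.K s • 1) ∧ (¬ F l → D.R l y = 0)) :
    IsInt Q C F := by
  set ξ := MX.xi0 Φ with hξ
  set u : Lau Z ι := (∏ l, mon (Φ.N l)) *
    ∏ q : {q : (Σ l, Fin (Φ.n l)) // Φ.E q.1 q.2 ≠ 0},
      Polynomial.eval₂ (algebraMap Z (Lau Z ι)) (mon (Φ.E q.1.1 q.1.2)) (Φ.Ψ q.1.1 q.1.2) with hu
  have hS : D.S = algebraMap Z (Lau Z ι) ξ * u := MX.S_eq Φ
  -- divisibility
  have hdiv : ∀ j, algebraMap Z (Lau Z ι) ξ ∣ D.b.repr (D.CF F) j := by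
    intro j
    refine dvd_of_local ξ (MX.xi0_ne Φ) _ fun p hp hp0 hξp => ?_
    obtain ⟨s, y, hs, hy⟩ := h p hp hp0 hξp
    refine ⟨s, hs, ?_⟩
    have h1 : D.S • y = s • D.CF F := by
      rw [← sub_eq_zero]
      apply D.R_inj
      intro l
      rw [map_sub, D.R_smul, D.R_smul, D.R_CF]
      by_cases hl : F l
      · rw [(hy l).1 hl, if_pos hl, smul_smul, smul_smul, mul_comm, sub_self]
      · rw [(hy l).2 hl, if_neg hl, smul_zero, smul_zero, sub_zero]
    have h2 := congrArg (fun x => D.b.repr x j) h1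
    simp only [map_smul, Finsupp.smul_apply, smul_eq_mul] at h2
    rw [← h2, hS, mul_assoc]
    exact dvd_mul_right _ _
  choose g hg using hdiv
  -- cofactors
  have hcyc : ∀ q : {q : (Σ l, Fin (Φ.n l)) // Φ.E q.1 q.2 ≠ 0}, ∃ (j : ℕ) (r : Lau Z ι), 0 < j ∧
      Polynomial.eval₂ (algebraMap Z (Lau Z ι)) (mon (Φ.E q.1.1 q.1.2)) (Φ.Ψ q.1.1 q.1.2) * r =
        mon (j • Φ.E q.1.1 q.1.2) - mon 0 := by
    rintro ⟨⟨l, i⟩, hq⟩
    obtain ⟨j, hj, r, hr⟩ := Φ.cyc l i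
    refine ⟨j, Polynomial.eval₂ (algebraMap Z (Lau Z ι)) (mon (Φ.E l i)) r, hj, ?_⟩
    rw [← Polynomial.eval₂_mul, ← hr, Polynomial.eval₂_sub, Polynomial.eval₂_pow,
      Polynomial.eval₂_X, Polynomial.eval₂_one]
    have h1 : (mon (Φ.E l i) : Lau Z ι) ^ j = mon (j • Φ.E l i) := by
      rw [mon, mon, AddMonoidAlgebra.single_pow, one_pow]
    rw [h1]
    rfl
  choose e r he hr using hcyc
  have hmon : (∏ l, (mon (Φ.N l) : Lau Z ι)) * ∏ l, mon (-Φ.N l) = 1 := by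
    rw [← Finset.prod_mul_distrib]
    refine Finset.prod_eq_one fun l _ => ?_
    rw [mon, mon, AddMonoidAlgebra.single_mul_single, add_neg_cancel, one_mul]
    rfl
  let P : {q : (Σ l, Fin (Φ.n l)) // Φ.E q.1 q.2 ≠ 0} → (ι →₀ ℤ) × (ι →₀ ℤ) :=
    fun q => (e q • Φ.E q.1.1 q.1.2, 0)
  have hcof : u * ((∏ l, mon (-Φ.N l)) * ∏ q, r q) = dlt Z P := by
    rw [hu, mul_mul_mul_comm, hmon, one_mul, ← Finset.prod_mul_distrib]
    exact Finset.prod_congr rfl fun q _ => hr q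
  have hX' : ∀ κ l, Q.ρ κ l (∑ j, g j • D.b j) = if F l then evL Z M κ u • 1 else 0 := by
    intro κ l
    have h1 : algebraMap Z (Lau Z ι) ξ • (∑ j, g j • D.b j) = D.CF F := by
      conv_rhs => rw [← D.b.sum_repr (D.CF F)]
      rw [Finset.smul_sum]
      exact Finset.sum_congr rfl fun j _ => by rw [smul_smul, ← hg j]
    have h2 := congrArg (Q.ρ κ l) h1
    have h3 : algebraMap Z ℂ ξ ≠ 0 := by
      intro h0
      exact MX.xi0_ne Φ (hinj (h0.trans (map_zero _).symm))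
    rw [Q.ρ_smul, Q.ρ_CF, hS, map_mul, MX.evL_const] at h2
    split_ifs at h2 ⊢ with hl
    · rw [mul_smul] at h2
      exact smul_right_injective _ h3 h2
    · exact (smul_eq_zero.1 h2).resolve_left h3
  refine ⟨{ J := {q : (Σ l, Fin (Φ.n l)) // Φ.E q.1 q.2 ≠ 0}, P := P, ne := fun q => ?_,
            cond := fun q => ?_, X := ((∏ l, mon (-Φ.N l)) * ∏ q, r q) • ∑ j, g j • D.b j,
            pos := fun κ l hl => ?_, neg := fun κ l hl => ?_ }⟩
  · intro h0
    have h1 : e q • Φ.E q.1.1 q.1.2 = 0 := h0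
    rcases smul_eq_zero.1 h1 with h2 | h2
    · exact (he q).ne' h2
    · exact q.2 h2
  · show C (e q • Φ.E q.1.1 q.1.2 - 0)
    rw [sub_zero]
    exact hC _ _ q.2 _ (he q)
  · rw [Q.ρ_smul, hX', if_pos hl, smul_smul, ← map_mul, mul_comm, hcof]
  · rw [Q.ρ_smul, hX', if_neg hl, smul_zero]

lemma MX.eq_zero_of_rank {k : Type} [Field k] {n : ℕ} (A : Matrix (Fin n) (Fin n) k)
    (h : A.rank ≤ 0) : A = 0 := by
  have h1 : Module.finrank k (LinearMap.range A.mulVecLin) = 0 := Nat.le_zero.1 h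
  have h2 : LinearMap.range A.mulVecLin = ⊥ := Submodule.finrank_eq_zero.1 h1
  have h3 : A.mulVecLin = 0 := LinearMap.range_eq_bot.1 h2
  ext i j
  have h4 := congrFun (congrArg (fun f : (Fin n → k) →ₗ[k] (Fin n → k) => f (Pi.single j 1)) h3) i
  simpa using h4

open Classical in
/-- A set `F` inside an integral set `E` is integral if there is no common constituent of a
character in `F` and a character in `E ∖ F`, modulo the primes of the ring of constants. -/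
theorem isInt_of_no_common [IsDedekindDomain Z] [IsFractionRing (Lau Z ι) D.K]
    (hinj : Function.Injective (algebraMap Z ℂ)) (hM : 0 < M) (Φ : SchurFac D)
    (hC : ∀ l i, Φ.E l i ≠ 0 → ∀ j : ℕ, 0 < j → C (j • Φ.E l i)) {E F : D.Λ → Prop}
    (hE : IsInt Q C E) (hFE : ∀ l, F l → E l)
    (hno : ∀ l m, F l → E m → ¬ F m → Q.a l = Q.a m → ∀ (k : Type) [Field k]
      (φ : Lau Z ι →+* k), (∀ a, φ (mon a) = 1 → a = 0) →
      (∃ z : Z, z ≠ 0 ∧ φ (algebraMap Z (Lau Z ι) z) = 0) → φ D.S = 0 →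
      ∀ (n : ℕ) (ψ : D.H →+* Matrix (Fin n) (Fin n) k), 0 < n →
      (∀ a x, ψ (a • x) = φ a • ψ x) →
      (∀ v, v ≠ 0 → Submodule.span k (Set.range fun x => ψ x *ᵥ v) = ⊤) →
      ψ Q.π = φ (mon (Q.a l)) • 1 →
      (∀ x, (ψ x).rank ≤ (D.R l x).rank) → (∀ x, (ψ x).rank ≤ (D.R m x).rank) → False) :
    IsInt Q C F := by
  refine isInt_of_local hinj Φ hC fun p hp hp0 hξp => ?_
  have hpp := hp.isPrime
  have hfin : Module.Finite (Lau Z ι) D.H := Module.Finite.of_basis D.b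
  obtain ⟨s, y, hs, hy⟩ := sep_at_prime (K := D.K) (MX.PP ι p) (MX.pid p hp0)
    (fun l : {l : D.Λ // E l} => D.d l.1) (fun l => D.d_pos l.1) (fun l => MX.RA D l.1)
    (fun l => MX.span_RA D l.1) (fun l => F l.1) (by
      intro l m hl hm k _ φ hφ n ψ hn hsm hirr h1 h2
      have hπ : ∀ l' : {l : D.Λ // E l}, (∀ x, (ψ x).rank ≤ (MX.RA D l'.1 x).rank) →
          ψ Q.π = φ (mon (Q.a l'.1)) • 1 := by
        intro l' h3
        have h4 := h3 (Q.π - (mon (Q.a l'.1) : Lau Z ι) • 1)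
        have h6 : D.R l'.1 (Q.π - (mon (Q.a l'.1) : Lau Z ι) • 1) = 0 := by
          rw [map_sub, MX.R_π Q hinj hM, D.R_smul, map_one, sub_self]
        rw [MX.RA_apply, h6, Matrix.rank_zero] at h4
        have h5 := MX.eq_zero_of_rank _ h4
        rw [map_sub, hsm, map_one] at h5
        exact sub_eq_zero.1 h5
      have hπl := hπ l h1
      have hπm := hπ m h2
      have ha : Q.a l.1 = Q.a m.1 := by
        apply MX.mon_inj_of hpp.ne_top φ hφ
        have h3 := congrFun (congrFun (hπl.symm.trans hπm) ⟨0, hn⟩) ⟨0, hn⟩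
        simpa using h3
      refine hno l.1 m.1 hl m.2 hm ha k φ (fun a => MX.mon_one_of hpp.ne_top φ hφ a)
        ⟨MX.xi0 Φ, MX.xi0_ne Φ, (hφ _).2 (MX.C_mem_PP.2 hξp)⟩ ?_ n ψ hn hsm hirr hπl h1 h2
      rw [MX.S_eq Φ, map_mul, (hφ _).2 (MX.C_mem_PP.2 hξp), zero_mul])
  obtain ⟨h⟩ := hE
  have hX := MX.R_of_ρ Q hinj hM E (dlt Z h.P) h.X h.pos h.neg
  refine ⟨s * dlt Z h.P, h.X * y, fun h1 => ?_, fun l => ⟨fun hl => ?_, fun hl => ?_⟩⟩
  · exact ((MX.PP_prime p).mem_or_mem h1).elim hs (MX.dlt_notMem h.P h.ne)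
  · have h1 : D.R l y = algebraMap (Lau Z ι) D.K s • 1 := (hy ⟨l, hFE l hl⟩).1 hl
    rw [map_mul, (hX l).1 (hFE l hl), h1, smul_mul_smul_comm, one_mul, map_mul, mul_comm]
  · rw [map_mul]
    by_cases hEl : E l
    · have h1 : D.R l y = 0 := (hy ⟨l, hEl⟩).2 hl
      rw [h1, mul_zero]
    · rw [(hX l).2 hEl, zero_mul]

/-! ### Ranks on a constituent -/

/-- The rank of an idempotent up to a factor. -/
theorem rank_R {f : D.H} {δ : Lau Z ι} (hδ : δ ≠ 0)
    (hf : f * f = δ • f) {l : D.Λ} {j : ℕ} (hX : D.X l f = (j : Lau Z ι) * δ) :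
    (D.R l f).rank = j := by
  have hch : CharZero Z := (algebraMap Z ℂ).charZero
  have hchK : CharZero D.K := by
    have h1 : Function.Injective ((algebraMap (Lau Z ι) D.K).comp (algebraMap Z (Lau Z ι))) := by
      rw [RingHom.coe_comp]
      refine D.injK.comp ?_
      intro a b hab
      have h2 := congrArg (fun q : Lau Z ι => q.coeff 0) hab
      simpa using h2
    exact charZero_of_injective_ringHom h1
  set c := algebraMap (Lau Z ι) D.K δ with hc
  have hc0 : c ≠ 0 := fun h0 => hδ (D.injK (h0.trans (map_zero _).symm))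
  have h1 : D.R l f * D.R l f = c • D.R l f := by rw [← map_mul, hf, D.R_smul]
  set A := c⁻¹ • D.R l f with hA
  have hAA : A * A = A := by
    rw [hA, smul_mul_smul_comm, h1, smul_smul]
    congr 1
    field_simp
  have htr : A.trace = j := by
    rw [hA, Matrix.trace_smul, D.trR, hX, map_mul, map_natCast, ← hc, smul_eq_mul]
    field_simp
  have hidem : IsIdempotentElem (Matrix.toLin' A) := by
    have h2 := Matrix.toLin'_mul A A
    rw [hAA] at h2
    exact h2.symm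
  have h2 : A.rank = j := by
    have h3 := (LinearMap.IsIdempotentElem.isProj_range _ hidem).trace
    rw [Matrix.trace_toLin'_eq, htr] at h3
    have h4 : j = Module.finrank D.K (LinearMap.range (Matrix.toLin' A)) := by exact_mod_cast h3
    exact h4.symm
  have h3 : D.R l f = c • A := by rw [hA, smul_smul, mul_inv_cancel₀ hc0, one_smul]
  rw [h3, Matrix.rank_smul_of_mem_nonZeroDivisors A (mem_nonZeroDivisors_of_ne_zero hc0), h2]

lemma MX.rank_add_le {k : Type} [Field k] {n : ℕ} (A B : Matrix (Fin n) (Fin n) k) :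
    (A + B).rank ≤ A.rank + B.rank := by
  have h1 : LinearMap.range (A + B).mulVecLin ≤
      LinearMap.range A.mulVecLin ⊔ LinearMap.range B.mulVecLin := by
    rintro _ ⟨v, rfl⟩
    rw [Matrix.mulVecLin_apply, Matrix.add_mulVec]
    exact Submodule.add_mem_sup ⟨v, rfl⟩ ⟨v, rfl⟩
  exact (Submodule.finrank_mono h1).trans (Submodule.finrank_add_le_finrank_add_finrank _ _)

/-- The dimension of a constituent. -/
theorem cst_dim {k : Type} [Field k] {n : ℕ} {ψ : D.H →+* Matrix (Fin n) (Fin n) k} {l : D.Λ}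
    (h : ∀ x, (ψ x).rank ≤ (D.R l x).rank) : n ≤ D.d l := by
  have h1 := h 1
  rw [map_one, map_one, Matrix.rank_one, Matrix.rank_one, Fintype.card_fin, Fintype.card_fin] at h1
  exact h1

/-- The rank of a quasi-idempotent on a constituent is at most its multiplicity. -/
theorem cst_rank_le {k : Type} [Field k] {n : ℕ}
    {ψ : D.H →+* Matrix (Fin n) (Fin n) k} {l : D.Λ} (h : ∀ x, (ψ x).rank ≤ (D.R l x).rank)
    {f : D.H} {δ : Lau Z ι} (hδ : δ ≠ 0) (hf : f * f = δ • f) {j : ℕ}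
    (hX : D.X l f = (j : Lau Z ι) * δ) : (ψ f).rank ≤ j := (h f).trans_eq (rank_R hδ hf hX)

/-- Lower bound for the rank of a quasi-idempotent on a constituent. -/
theorem cst_le_rank {k : Type} [Field k]
    {φ : Lau Z ι →+* k} {n : ℕ} {ψ : D.H →+* Matrix (Fin n) (Fin n) k}
    (hsm : ∀ a x, ψ (a • x) = φ a • ψ x) {l : D.Λ} (h : ∀ x, (ψ x).rank ≤ (D.R l x).rank)
    {f : D.H} {δ : Lau Z ι} (hφ : φ δ ≠ 0) (hf : f * f = δ • f) {j : ℕ}
    (hX : D.X l f = (j : Lau Z ι) * δ) : n + j ≤ (ψ f).rank + D.d l := by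
  have hδ : δ ≠ 0 := fun h0 => hφ (by rw [h0, map_zero])
  have hch : CharZero Z := (algebraMap Z ℂ).charZero
  have hj : j ≤ D.d l := by
    have h1 := rank_R hδ hf hX
    rw [← h1]
    exact (D.R l f).rank_le_width
  set g : D.H := δ • 1 - f with hg
  have hgg : g * g = δ • g := by
    rw [hg, sub_mul, mul_sub, mul_sub, smul_mul_assoc, one_mul, smul_mul_assoc, one_mul,
      mul_smul_comm, mul_one, hf, smul_sub]
    abel
  have hXg : D.X l g = ((D.d l - j : ℕ) : Lau Z ι) * δ := by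
    rw [hg, map_sub, map_smul, D.X_one, hX, smul_eq_mul, Nat.cast_sub hj]
    ring
  have h1 := cst_rank_le h hδ hgg hXg
  have h2 : ((φ δ) • (1 : Matrix (Fin n) (Fin n) k)).rank = n := by
    rw [Matrix.rank_smul_of_mem_nonZeroDivisors _ (mem_nonZeroDivisors_of_ne_zero hφ),
      Matrix.rank_one, Fintype.card_fin]
  have h3 : (φ δ) • (1 : Matrix (Fin n) (Fin n) k) = ψ f + ψ g := by
    rw [← map_add, hg, add_sub_cancel, hsm, map_one]
  have h4 : ((φ δ) • (1 : Matrix (Fin n) (Fin n) k)).rank ≤ (ψ f).rank + (ψ g).rank := by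
    rw [h3]
    exact MX.rank_add_le _ _
  omega

lemma phi_dlt_ne {k : Type} [Field k] {φ : Lau Z ι →+* k} (hφ : ∀ a, φ (mon a) = 1 → a = 0)
    {J : Type} [Fintype J] (P : J → (ι →₀ ℤ) × (ι →₀ ℤ)) (hP : ∀ j, (P j).1 ≠ (P j).2) :
    φ (dlt Z P) ≠ 0 := by
  rw [dlt, map_prod, Finset.prod_ne_zero_iff]
  intro j _ h0
  apply hP j
  rw [map_sub, sub_eq_zero] at h0
  have h1 : φ (mon ((P j).1 - (P j).2)) = 1 := by
    have h2 : (mon ((P j).1 - (P j).2) : Lau Z ι) = mon (P j).1 * mon (-(P j).2) := by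
      rw [mon, mon, mon, AddMonoidAlgebra.single_mul_single, one_mul, sub_eq_add_neg]
    have h3 : (mon (P j).2 * mon (-(P j).2) : Lau Z ι) = 1 := by
      rw [mon, mon, AddMonoidAlgebra.single_mul_single, add_neg_cancel, one_mul]
      rfl
    rw [h2, map_mul, h0, ← map_mul, h3, map_one]
  exact sub_eq_zero.1 (hφ _ h1)

/-- If the simple modules of the level have dimension at least `d_l`, `l ∈ F`, and `f` is a
quasi-idempotent which vanishes outside `F` and nowhere on `F`, then `F` is integral. -/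
theorem isInt_of_dim [IsDedekindDomain Z] [IsFractionRing (Lau Z ι) D.K]
    (hinj : Function.Injective (algebraMap Z ℂ)) (hM : 0 < M) (Φ : SchurFac D)
    (hC : ∀ l i, Φ.E l i ≠ 0 → ∀ j : ℕ, 0 < j → C (j • Φ.E l i)) {E F : D.Λ → Prop}
    (hE : IsInt Q C E) (hFE : ∀ l, F l → E l) {J : Type} [Fintype J]
    (P : J → (ι →₀ ℤ) × (ι →₀ ℤ)) (hP : ∀ j, (P j).1 ≠ (P j).2) (f : D.H)
    (hf : f * f = dlt Z P • f)
    (hf1 : ∀ l, F l → ∃ j : ℕ, 0 < j ∧ D.X l f = (j : Lau Z ι) * dlt Z P)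
    (hf0 : ∀ l, E l → ¬ F l → D.X l f = 0)
    (hdim : ∀ l, F l → ∀ (k : Type) [Field k] (φ : Lau Z ι →+* k), (∀ a, φ (mon a) = 1 → a = 0) →
      ∀ (n : ℕ) (ψ : D.H →+* Matrix (Fin n) (Fin n) k), 0 < n →
      (∀ a x, ψ (a • x) = φ a • ψ x) → ψ Q.π = φ (mon (Q.a l)) • 1 → D.d l ≤ n) :
    IsInt Q C F := by
  refine isInt_of_no_common hinj hM Φ hC hE hFE ?_
  intro l m hl hm hmF _ k _ φ hφ _ _ n ψ hn hsm _ hπ h1 h2
  obtain ⟨j, hj, hX⟩ := hf1 l hl
  have h3 := cst_le_rank hsm h1 (phi_dlt_ne hφ P hP) hf hX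
  have hδ : dlt Z P ≠ 0 := fun h0 => phi_dlt_ne hφ P hP (by rw [h0, map_zero])
  have h4 := cst_rank_le (j := 0) h2 hδ hf (by rw [hf0 m hm hmF, Nat.cast_zero, zero_mul])
  have h5 := hdim l hl k φ hφ n ψ hn hsm hπ
  omega

end main

end

end Pool.Agent.CMF
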