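import Pool.Agent.CMFn.DDefs
import Pool.Agent.CMF.Pres

/-! Project CMFn: the case of the parameter zero.  A set of irreducible characters closed under
tensoring with the faithful representation `V` is empty or contains everything. -/

namespace Pool.Agent.CMFn

open Matrix

noncomputable section

namespace ZeroX

section Unitary

variable {G : Type} [Group G] [Fintype G] {n : ℕ}

open scoped ComplexOrder MatrixOrder in
/-- Unitary form of a representation of a finite group. -/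
theorem exists_unitary (W : G →* Matrix (Fin n) (Fin n) ℂ) :
    ∃ B C : Matrix (Fin n) (Fin n) ℂ, B * C = 1 ∧ C * B = 1 ∧
      ∀ g, (B * W g * C)ᴴ * (B * W g * C) = 1 := by
  classical
  set H : Matrix (Fin n) (Fin n) ℂ := ∑ g, (W g)ᴴ * W g with hH
  have hpos : H.PosDef := by
    refine Matrix.posDef_sum ⟨1, Finset.mem_univ _⟩ fun g _ => ?_
    refine Matrix.PosDef.conjTranspose_mul_self _ ?_
    intro x y hxy
    have h1 : W g⁻¹ *ᵥ (W g *ᵥ x) = W g⁻¹ *ᵥ (W g *ᵥ y) := congrArg _ hxy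
    rwa [Matrix.mulVec_mulVec, Matrix.mulVec_mulVec, ← map_mul, inv_mul_cancel, map_one,
      Matrix.one_mulVec, Matrix.one_mulVec] at h1
  obtain ⟨B, hB, hBB⟩ :=
    CStarAlgebra.isStrictlyPositive_iff_eq_star_mul_self.mp hpos.isStrictlyPositive
  have hinv : ∀ g, (W g)ᴴ * H * W g = H := by
    intro g
    rw [hH, Finset.mul_sum, Finset.sum_mul]
    refine Fintype.sum_equiv (Equiv.mulRight g) _ _ fun h => ?_
    show (W g)ᴴ * ((W h)ᴴ * W h) * W g = (W (h * g))ᴴ * W (h * g)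
    rw [map_mul, Matrix.conjTranspose_mul]
    simp only [mul_assoc]
  obtain ⟨u, rfl⟩ := hB
  have hu1 : (u : Matrix (Fin n) (Fin n) ℂ) * (↑u⁻¹ : Matrix (Fin n) (Fin n) ℂ) = 1 := u.mul_inv
  have hu2 : (↑u⁻¹ : Matrix (Fin n) (Fin n) ℂ) * (u : Matrix (Fin n) (Fin n) ℂ) = 1 := u.inv_mul
  refine ⟨u, ↑u⁻¹, hu1, hu2, fun g => ?_⟩
  rw [Matrix.conjTranspose_mul, Matrix.conjTranspose_mul]
  rw [Matrix.star_eq_conjTranspose] at hBB
  have h1 := hinv g
  have h2 : ((↑u⁻¹ : Matrix (Fin n) (Fin n) ℂ))ᴴ * (u : Matrix (Fin n) (Fin n) ℂ)ᴴ = 1 := by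
    rw [← Matrix.conjTranspose_mul, hu1, Matrix.conjTranspose_one]
  calc ((↑u⁻¹ : Matrix (Fin n) (Fin n) ℂ))ᴴ * ((W g)ᴴ * (u : Matrix (Fin n) (Fin n) ℂ)ᴴ) *
        ((u : Matrix (Fin n) (Fin n) ℂ) * W g * (↑u⁻¹ : Matrix (Fin n) (Fin n) ℂ))
      = ((↑u⁻¹ : Matrix (Fin n) (Fin n) ℂ))ᴴ * ((W g)ᴴ * ((u : Matrix (Fin n) (Fin n) ℂ)ᴴ *
        (u : Matrix (Fin n) (Fin n) ℂ)) * W g) * (↑u⁻¹ : Matrix (Fin n) (Fin n) ℂ) := by
          noncomm_ring
    _ = ((↑u⁻¹ : Matrix (Fin n) (Fin n) ℂ))ᴴ * ((u : Matrix (Fin n) (Fin n) ℂ)ᴴ *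
        (u : Matrix (Fin n) (Fin n) ℂ)) * (↑u⁻¹ : Matrix (Fin n) (Fin n) ℂ) := by
          rw [← hBB, h1]
    _ = (((↑u⁻¹ : Matrix (Fin n) (Fin n) ℂ))ᴴ * (u : Matrix (Fin n) (Fin n) ℂ)ᴴ) *
        ((u : Matrix (Fin n) (Fin n) ℂ) * (↑u⁻¹ : Matrix (Fin n) (Fin n) ℂ)) := by noncomm_ring
    _ = 1 := by rw [h2, hu1, one_mul]

/-- `tr W(g⁻¹)` is the complex conjugate of `tr W(g)`. -/
theorem trace_inv_conj (W : G →* Matrix (Fin n) (Fin n) ℂ) (g : G) :
    (W g⁻¹).trace = (starRingEnd ℂ) (W g).trace := by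
  obtain ⟨B, C, hBC, hCB, hU⟩ := exists_unitary W
  have h1 : (B * W g * C)ᴴ = B * W g⁻¹ * C := by
    have h2 : (B * W g * C) * (B * W g⁻¹ * C) = 1 := by
      rw [show B * W g * C * (B * W g⁻¹ * C) = B * W g * (C * B) * W g⁻¹ * C by noncomm_ring, hCB,
        mul_one, mul_assoc B, ← map_mul, mul_inv_cancel, map_one, mul_one, hBC]
    calc (B * W g * C)ᴴ = (B * W g * C)ᴴ * ((B * W g * C) * (B * W g⁻¹ * C)) := by
          rw [h2, mul_one]
      _ = B * W g⁻¹ * C := by rw [← mul_assoc, hU, one_mul]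
  have h3 : ∀ X : Matrix (Fin n) (Fin n) ℂ, (B * X * C).trace = X.trace := by
    intro X
    rw [Matrix.trace_mul_comm, ← mul_assoc, hCB, one_mul]
  have h4 := congrArg Matrix.trace h1
  rw [Matrix.trace_conjTranspose, h3, h3] at h4
  exact h4.symm

/-- `Re tr W(g) ≤ n`, with equality only if `W(g) = 1`. -/
theorem re_trace_le (W : G →* Matrix (Fin n) (Fin n) ℂ) (g : G) :
    (W g).trace.re ≤ n ∧ ((W g).trace.re = n → W g = 1) := by
  obtain ⟨B, C, hBC, hCB, hU⟩ := exists_unitary W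
  set U := B * W g * C with hUdef
  have h3 : U.trace = (W g).trace := by
    rw [hUdef, Matrix.trace_mul_comm, ← mul_assoc, hCB, one_mul]
  have h4 : ((U - 1)ᴴ * (U - 1)).trace = ((2 * (n - (W g).trace.re) : ℝ) : ℂ) := by
    rw [Matrix.conjTranspose_sub, Matrix.conjTranspose_one, sub_mul, mul_sub, hU g, mul_one,
      one_mul, Matrix.trace_sub, Matrix.trace_sub, Matrix.trace_sub, Matrix.trace_one,
      Matrix.trace_conjTranspose, h3, Fintype.card_fin]
    apply Complex.ext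
    · simp
      ring
    · simp
  have h5 : ((U - 1)ᴴ * (U - 1)).trace = ((∑ i, ∑ j, ‖(U - 1) j i‖ ^ 2 : ℝ) : ℂ) := by
    rw [Matrix.trace]
    push_cast
    refine Finset.sum_congr rfl fun i _ => ?_
    rw [Matrix.diag_apply, Matrix.mul_apply]
    refine Finset.sum_congr rfl fun j _ => ?_
    rw [Matrix.conjTranspose_apply]
    exact Complex.conj_mul' _
  have h6 : (∑ i, ∑ j, ‖(U - 1) j i‖ ^ 2 : ℝ) = 2 * (n - (W g).trace.re) := by
    rw [h5] at h4
    exact_mod_cast h4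
  have h7 : (0 : ℝ) ≤ ∑ i, ∑ j, ‖(U - 1) j i‖ ^ 2 := by positivity
  refine ⟨by linarith, fun h => ?_⟩
  rw [h, sub_self, mul_zero] at h6
  have h8 : ∀ i j, (U - 1) j i = 0 := by
    intro i j
    have h9 := (Finset.sum_eq_zero_iff_of_nonneg (fun i _ => by positivity)).1 h6 i
      (Finset.mem_univ _)
    have h10 := (Finset.sum_eq_zero_iff_of_nonneg (fun i _ => by positivity)).1 h9 j
      (Finset.mem_univ _)
    simpa using h10
  have h11 : U = 1 := by
    rw [← sub_eq_zero]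
    ext j i
    exact h8 i j
  have h12 : C * U * B = W g := by
    rw [hUdef, show C * (B * W g * C) * B = (C * B) * W g * (C * B) by noncomm_ring, hCB, one_mul,
      mul_one]
  rw [← h12, h11, mul_one, hCB]

end Unitary

section Fam

variable {G : Type} [Group G] [Fintype G] {Λ : Type} {d : Λ → ℕ}
  (R : ∀ l, G →* Matrix (Fin (d l)) (Fin (d l)) ℂ)

/-- The map `ℂG → ∏_l M_{d_l}(ℂ)`. -/
def four : (G → ℂ) →ₗ[ℂ] (∀ l, Matrix (Fin (d l)) (Fin (d l)) ℂ) where
  toFun a l := ∑ g, a g • R l g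
  map_add' a b := by
    funext l
    simp only [Pi.add_apply, add_smul, Finset.sum_add_distrib]
  map_smul' c a := by
    funext l
    simp only [Pi.smul_apply, smul_eq_mul, mul_smul, Finset.smul_sum, RingHom.id_apply]

lemma four_apply (a : G → ℂ) (l : Λ) : four R a l = ∑ g, a g • R l g := rfl

variable [Fintype Λ] {R}

/-- The regular character. -/
theorem reg_char [DecidableEq G] (hR : Function.Bijective (four R)) (g : G) :
    ∑ l, (d l : ℂ) * (R l g).trace = if g = 1 then (Fintype.card G : ℂ) else 0 := by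
  classical
  let e : (G → ℂ) ≃ₗ[ℂ] (∀ l, Matrix (Fin (d l)) (Fin (d l)) ℂ) := LinearEquiv.ofBijective _ hR
  let T : (G → ℂ) →ₗ[ℂ] (G → ℂ) := LinearMap.funLeft ℂ ℂ (fun h => g⁻¹ * h)
  let L : (∀ l, Matrix (Fin (d l)) (Fin (d l)) ℂ) →ₗ[ℂ] (∀ l, Matrix (Fin (d l)) (Fin (d l)) ℂ) :=
    { toFun := fun x l => R l g * x l
      map_add' := fun x y => by funext l; simp [mul_add]
      map_smul' := fun c x => by funext l; simp }
  have h1 : e.conj T = L := by
    apply LinearMap.ext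
    intro x
    obtain ⟨a, rfl⟩ := e.surjective x
    rw [LinearEquiv.conj_apply_apply, LinearEquiv.symm_apply_apply]
    funext l
    show ∑ h, a (g⁻¹ * h) • R l h = R l g * ∑ h, a h • R l h
    rw [Finset.mul_sum]
    refine Fintype.sum_equiv (Equiv.mulLeft g⁻¹) _ _ fun h => ?_
    show a (g⁻¹ * h) • R l h = R l g * a (g⁻¹ * h) • R l (g⁻¹ * h)
    rw [mul_smul_comm, ← map_mul, mul_inv_cancel_left]
  have h2 : LinearMap.trace ℂ _ L = LinearMap.trace ℂ _ T := by
    rw [← h1, LinearMap.trace_conj']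
  have h3 : LinearMap.trace ℂ _ T = if g = 1 then (Fintype.card G : ℂ) else 0 := by
    rw [LinearMap.trace_eq_matrix_trace ℂ (Pi.basisFun ℂ G), Matrix.trace]
    have h4 : ∀ h : G, Matrix.diag (LinearMap.toMatrix (Pi.basisFun ℂ G) (Pi.basisFun ℂ G) T) h =
        if g = 1 then 1 else 0 := by
      intro h
      rw [Matrix.diag_apply, LinearMap.toMatrix_apply, Pi.basisFun_apply, Pi.basisFun_repr]
      show (Pi.single h (1 : ℂ) : G → ℂ) (g⁻¹ * h) = _
      rw [Pi.single_apply]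
      congr 1
      rw [eq_iff_iff, mul_eq_right, inv_eq_one]
    simp only [h4]
    split_ifs <;> simp
  have h5 : LinearMap.trace ℂ _ L = ∑ l, (d l : ℂ) * (R l g).trace := by
    let b := Pi.basis fun l => Matrix.stdBasis ℂ (Fin (d l)) (Fin (d l))
    rw [LinearMap.trace_eq_matrix_trace ℂ b, Matrix.trace, Fintype.sum_sigma]
    refine Finset.sum_congr rfl fun l _ => ?_
    rw [Fintype.sum_prod_type, Matrix.trace, Finset.mul_sum]
    refine Finset.sum_congr rfl fun i _ => ?_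
    have h6 : ∀ j : Fin (d l), Matrix.diag (LinearMap.toMatrix b b L) ⟨l, (i, j)⟩ = R l g i i := by
      intro j
      rw [Matrix.diag_apply, LinearMap.toMatrix_apply, Pi.basis_repr, Pi.basis_apply]
      show (Matrix.stdBasis ℂ (Fin (d l)) (Fin (d l))).repr
        (R l g * (Pi.single l (Matrix.stdBasis ℂ (Fin (d l)) (Fin (d l)) (i, j)) :
          ∀ l, Matrix (Fin (d l)) (Fin (d l)) ℂ) l) (i, j) = _
      rw [Pi.single_eq_same, Matrix.stdBasis_eq_single]
      show (R l g * Matrix.single i j (1 : ℂ)) i j = _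
      simp
    rw [Finset.sum_congr rfl fun j _ => h6 j, Finset.sum_const, Finset.card_univ, Fintype.card_fin,
      nsmul_eq_mul, Matrix.diag_apply]
  rw [← h5, h2, h3]

theorem fam_orth [DecidableEq Λ] (hR : Function.Bijective (four R)) (l m : Λ) (hl : 0 < d l) :
    ∑ g, (R l g⁻¹).trace * (R m g).trace = if l = m then (Fintype.card G : ℂ) else 0 := by
  classical
  obtain ⟨a, ha⟩ := hR.2 (Pi.single l 1)
  have hG : (Fintype.card G : ℂ) ≠ 0 := Nat.cast_ne_zero.2 Fintype.card_ne_zero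
  have hdl : (d l : ℂ) ≠ 0 := Nat.cast_ne_zero.2 hl.ne'
  have h1 : ∀ g, (Fintype.card G : ℂ) * a g = (d l : ℂ) * (R l g⁻¹).trace := by
    intro g
    have h2 : ∑ m, (d m : ℂ) * (R m g⁻¹ * four R a m).trace = (d l : ℂ) * (R l g⁻¹).trace := by
      rw [Finset.sum_eq_single l]
      · rw [ha, Pi.single_eq_same, mul_one]
      · intro m _ hm
        rw [ha, Pi.single_eq_of_ne hm, mul_zero, Matrix.trace_zero, mul_zero]
      · intro h
        exact absurd (Finset.mem_univ _) h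
    rw [← h2]
    have h3 : ∀ m, (d m : ℂ) * (R m g⁻¹ * four R a m).trace =
        ∑ h, a h * ((d m : ℂ) * (R m (g⁻¹ * h)).trace) := by
      intro m
      rw [four_apply, Finset.mul_sum, Matrix.trace_sum, Finset.mul_sum]
      refine Finset.sum_congr rfl fun h _ => ?_
      rw [mul_smul_comm, ← map_mul, Matrix.trace_smul, smul_eq_mul]
      ring
    simp only [h3]
    rw [Finset.sum_comm]
    simp only [← Finset.mul_sum]
    rw [Finset.sum_eq_single g]
    · rw [reg_char hR, if_pos (inv_mul_cancel g), mul_comm]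
    · intro h _ hh
      rw [reg_char hR, if_neg, mul_zero]
      intro h4
      exact hh (inv_mul_eq_one.1 h4).symm
    · intro h
      exact absurd (Finset.mem_univ _) h
  have h5 : ∑ g, a g * (R m g).trace = if l = m then (d l : ℂ) else 0 := by
    have h6 := congrArg Matrix.trace (congrFun ha m)
    rw [four_apply, Matrix.trace_sum] at h6
    simp only [Matrix.trace_smul, smul_eq_mul] at h6
    rw [h6]
    split_ifs with hlm
    · subst hlm
      rw [Pi.single_eq_same, Matrix.trace_one, Fintype.card_fin]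
    · rw [Pi.single_eq_of_ne (Ne.symm hlm), Matrix.trace_zero]
  have h7 : (d l : ℂ) * ∑ g, (R l g⁻¹).trace * (R m g).trace =
      (Fintype.card G : ℂ) * ∑ g, a g * (R m g).trace := by
    rw [Finset.mul_sum, Finset.mul_sum]
    refine Finset.sum_congr rfl fun g _ => ?_
    rw [← mul_assoc, ← mul_assoc, h1]
  rw [h5] at h7
  apply mul_left_cancel₀ hdl
  rw [h7]
  split_ifs
  · ring
  · ring

/-- The sum `Σ_g |f(g)|² v(g)`, `f = Σ_{a ∈ F} d_a χ_a`. -/
theorem sum_sq (hR : Function.Bijective (four R)) (F : Finset Λ) (v : G → ℂ)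
    (h : ∀ a ∈ F, ∀ b ∉ F, ∑ g, (R a g⁻¹).trace * (R b g).trace * v g = 0) :
    ∑ g, (∑ a ∈ F, (d a : ℂ) * (R a g⁻¹).trace) * (∑ b ∈ F, (d b : ℂ) * (R b g).trace) * v g =
      (Fintype.card G : ℂ) * v 1 * ∑ a ∈ F, (d a : ℂ) ^ 2 := by
  classical
  have h1 : ∀ g, (∑ a ∈ F, (d a : ℂ) * (R a g⁻¹).trace) * (∑ b ∈ F, (d b : ℂ) * (R b g).trace) *
      v g = ∑ a ∈ F, ∑ b ∈ F, (d a : ℂ) * (d b : ℂ) *
        ((R a g⁻¹).trace * (R b g).trace * v g) := by
    intro g
    rw [Finset.sum_mul_sum, Finset.sum_mul]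
    refine Finset.sum_congr rfl fun a _ => ?_
    rw [Finset.sum_mul]
    refine Finset.sum_congr rfl fun b _ => ?_
    ring
  simp only [h1]
  rw [Finset.sum_comm, Finset.mul_sum]
  refine Finset.sum_congr rfl fun a ha => ?_
  rw [Finset.sum_comm]
  simp only [← Finset.mul_sum]
  have h2 : ∑ b ∈ F, (d a : ℂ) * (d b : ℂ) * ∑ g, (R a g⁻¹).trace * (R b g).trace * v g =
      ∑ b, (d a : ℂ) * (d b : ℂ) * ∑ g, (R a g⁻¹).trace * (R b g).trace * v g := by
    apply Finset.sum_subset (Finset.subset_univ _)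
    intro b _ hb
    rw [h a ha b hb, mul_zero]
  rw [h2]
  have h3 : ∀ b, (d a : ℂ) * (d b : ℂ) * ∑ g, (R a g⁻¹).trace * (R b g).trace * v g =
      ∑ g, (d a : ℂ) * (R a g⁻¹).trace * v g * ((d b : ℂ) * (R b g).trace) := by
    intro b
    rw [Finset.mul_sum]
    refine Finset.sum_congr rfl fun g _ => ?_
    ring
  simp only [h3]
  rw [Finset.sum_comm]
  simp only [← Finset.mul_sum]
  rw [Finset.sum_eq_single 1]
  · rw [reg_char hR, if_pos rfl, inv_one, map_one, Matrix.trace_one, Fintype.card_fin]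
    ring
  · intro g _ hg
    rw [reg_char hR, if_neg hg, mul_zero]
  · intro h
    exact absurd (Finset.mem_univ _) h

/-- A set of irreducible characters closed under tensoring with a faithful representation is empty
or contains all of them. -/
theorem zero_core (hR : Function.Bijective (four R)) (hd : ∀ l, 0 < d l) {n : ℕ}
    (V : G →* Matrix (Fin n) (Fin n) ℂ) (hV : Function.Injective V) (F : Set Λ)
    (h : ∀ a ∈ F, ∀ b ∉ F, ∑ g, (R a g⁻¹).trace * (R b g).trace * (V g⁻¹).trace = 0) :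
    F = ∅ ∨ F = Set.univ := by
  classical
  rcases F.eq_empty_or_nonempty with hF | ⟨a₀, ha₀⟩
  · exact Or.inl hF
  refine Or.inr ?_
  have hG : (Fintype.card G : ℂ) ≠ 0 := Nat.cast_ne_zero.2 Fintype.card_ne_zero
  set f : G → ℂ := fun g => ∑ a ∈ F.toFinset, (d a : ℂ) * (R a g).trace with hf
  have hconj : ∀ g, f g⁻¹ = (starRingEnd ℂ) (f g) := by
    intro g
    rw [hf]
    show ∑ a ∈ F.toFinset, (d a : ℂ) * (R a g⁻¹).trace =
      (starRingEnd ℂ) (∑ a ∈ F.toFinset, (d a : ℂ) * (R a g).trace)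
    rw [map_sum]
    refine Finset.sum_congr rfl fun a _ => ?_
    rw [map_mul, trace_inv_conj, Complex.conj_natCast]
  have h1 : ∑ g, f g⁻¹ * f g * (V g⁻¹).trace =
      (Fintype.card G : ℂ) * n * ∑ a ∈ F.toFinset, (d a : ℂ) ^ 2 := by
    have := sum_sq hR F.toFinset (fun g => (V g⁻¹).trace) (by
      intro a ha b hb
      exact h a (Set.mem_toFinset.1 ha) b (fun hb' => hb (Set.mem_toFinset.2 hb')))
    rw [inv_one, map_one, Matrix.trace_one, Fintype.card_fin] at this
    exact this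
  have h2 : ∑ g, f g⁻¹ * f g * (n : ℂ) =
      (Fintype.card G : ℂ) * n * ∑ a ∈ F.toFinset, (d a : ℂ) ^ 2 := by
    refine sum_sq hR F.toFinset (fun _ => (n : ℂ)) ?_
    intro a ha b hb
    rw [← Finset.sum_mul, fam_orth hR a b (hd a), if_neg, zero_mul]
    rintro rfl
    exact hb ha
  have h3 : ∑ g, ((‖f g‖ ^ 2 * (n - (V g⁻¹).trace.re) : ℝ)) = 0 := by
    have h4 : ∑ g, f g⁻¹ * f g * ((n : ℂ) - (V g⁻¹).trace) = 0 := by
      simp only [mul_sub, Finset.sum_sub_distrib]
      rw [h1, h2, sub_self]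
    have h5 := congrArg Complex.re h4
    rw [Complex.re_sum, Complex.zero_re] at h5
    rw [← h5]
    refine Finset.sum_congr rfl fun g _ => ?_
    rw [hconj, Complex.conj_mul']
    rw [show ((‖f g‖ : ℂ) ^ 2) = ((‖f g‖ ^ 2 : ℝ) : ℂ) by push_cast; rfl, Complex.re_ofReal_mul,
      Complex.sub_re, Complex.natCast_re]
  have h6 : ∀ g, g ≠ 1 → f g = 0 := by
    intro g hg
    have h7 := (Finset.sum_eq_zero_iff_of_nonneg (fun g _ =>
      mul_nonneg (sq_nonneg ‖f g‖) (sub_nonneg.2 (re_trace_le V g⁻¹).1))).1 h3 g (Finset.mem_univ _)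
    rcases mul_eq_zero.1 h7 with h8 | h8
    · simpa using h8
    · exfalso
      have h9 := (re_trace_le V g⁻¹).2 (by linarith)
      have h10 : g⁻¹ = 1 := hV (by rw [h9, map_one])
      exact hg (inv_eq_one.1 h10)
  have h7 : ∀ b, (f 1) * (d b : ℂ) = if b ∈ F then (d b : ℂ) * (Fintype.card G : ℂ) else 0 := by
    intro b
    have h8 : ∑ g, (R b g⁻¹).trace * f g = f 1 * (d b : ℂ) := by
      rw [Finset.sum_eq_single 1]
      · rw [inv_one, map_one, Matrix.trace_one, Fintype.card_fin, mul_comm]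
      · intro g _ hg
        rw [h6 g hg, mul_zero]
      · intro h
        exact absurd (Finset.mem_univ _) h
    rw [← h8, hf]
    simp only [Finset.mul_sum]
    rw [Finset.sum_comm]
    have h9 : ∀ a, ∑ g, (R b g⁻¹).trace * ((d a : ℂ) * (R a g).trace) =
        if b = a then (d a : ℂ) * (Fintype.card G : ℂ) else 0 := by
      intro a
      have h10 : ∀ g, (R b g⁻¹).trace * ((d a : ℂ) * (R a g).trace) =
          (d a : ℂ) * ((R b g⁻¹).trace * (R a g).trace) := fun g => by ring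
      simp only [h10]
      rw [← Finset.mul_sum, fam_orth hR b a (hd b)]
      split_ifs
      · rfl
      · rw [mul_zero]
    simp only [h9]
    rw [Finset.sum_ite_eq]
    simp only [Set.mem_toFinset]
  have h8 : f 1 = (Fintype.card G : ℂ) := by
    have := h7 a₀
    rw [if_pos ha₀, mul_comm] at this
    exact mul_left_cancel₀ (Nat.cast_ne_zero.2 (hd a₀).ne') this
  rw [Set.eq_univ_iff_forall]
  intro b
  by_contra hb
  have := h7 b
  rw [if_neg hb, h8] at this
  rcases mul_eq_zero.1 this with h9 | h9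
  · exact hG h9
  · exact (hd b).ne' (Nat.cast_eq_zero.1 h9)

end Fam

end ZeroX

open ZeroX

/-- The same for a complete family of irreducible representations of `G`. -/
theorem zero_irrFam {G : Type} [Group G] [Fintype G] {Λ : Type} [Fintype Λ] {d : Λ → ℕ}
    {ρ : ∀ l, G → Matrix (Fin (d l)) (Fin (d l)) ℂ} (hρ : CMFP.IsIrrFam d ρ) {n : ℕ}
    {V : G → Matrix (Fin n) (Fin n) ℂ} (hV : CMFP.IsRep V) (hi : Function.Injective V) (F : Set Λ)
    (h : ∀ a ∈ F, ∀ b ∉ F, ∑ g, (ρ a g⁻¹).trace * (ρ b g).trace * (V g⁻¹).trace = 0) :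
    F = ∅ ∨ F = Set.univ := by
  let R : ∀ l, G →* Matrix (Fin (d l)) (Fin (d l)) ℂ := fun l =>
    { toFun := ρ l, map_one' := (hρ.1 l).2.1, map_mul' := (hρ.1 l).2.2 }
  let W : G →* Matrix (Fin n) (Fin n) ℂ := { toFun := V, map_one' := hV.1, map_mul' := hV.2 }
  exact zero_core (R := R) hρ.2 (fun l => (hρ.1 l).1) W hi F h

/-- The same for a finite matrix group, in the form used with Theorem N. -/
theorem zero_fam {r : ℕ} {N : SG r} [Fintype N] (Φ : IrrFam N) (F : Set Φ.Λ)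
    (h : ∀ a ∈ F, ∀ b ∉ F, ∑ g : N, (Φ.ρ a g⁻¹).trace * (Φ.ρ b g).trace *
      ((g⁻¹).1.1).trace = 0) :
    F = ∅ ∨ F = Set.univ := by
  let W : N →* Matrix (Fin r) (Fin r) ℂ := (Units.coeHom _).comp N.subtype
  have hbij : Function.Bijective (four Φ.ρ) := by
    have h1 : (fun a : N → ℂ => four Φ.ρ a) = (fun (a : MonoidAlgebra ℂ N) (l : Φ.Λ) =>
        MonoidAlgebra.lift ℂ _ N (Φ.ρ l) a) ∘
          (fun a => MonoidAlgebra.coeffEquiv.symm (Finsupp.equivFunOnFinite.symm a)) := by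
      funext a l
      show ∑ g, a g • Φ.ρ l g = MonoidAlgebra.lift ℂ _ N (Φ.ρ l)
        (MonoidAlgebra.coeffEquiv.symm (Finsupp.equivFunOnFinite.symm a))
      rw [MonoidAlgebra.lift_apply, Finsupp.sum_fintype _ (fun g (b : ℂ) => b • Φ.ρ l g)
        (fun _ => zero_smul _ _)]
      rfl
    show Function.Bijective (fun a : N → ℂ => four Φ.ρ a)
    rw [h1]
    exact Φ.bij.comp ((Equiv.bijective _).comp (Equiv.bijective _))
  refine zero_core (R := Φ.ρ) hbij Φ.pos W ?_ F h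
  intro g h hgh
  exact Subtype.ext (Units.ext hgh)

end

end Pool.Agent.CMFn
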