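import Pool.Agent.CMFn.ModE
import Pool.Agent.CMFn.Zero

/-! Project CMFn, module ModF: common constituents of two characters exist only modulo the primes
dividing `|G| / d`, `d` the degree (characters of defect zero). -/

set_option linter.unusedSectionVars false

namespace Pool.Agent.CMF

open Matrix Polynomial

noncomputable section

section abs

variable {Z : Type} [CommRing Z] [IsDomain Z] [Algebra Z ℂ] {ι : Type} [Fintype ι] {D : HData Z ι}

/-- Two different characters have no common constituent if a Schur element does not vanish. -/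
theorem cst_s_zero {k : Type} [Field k] {φ : Lau Z ι →+* k} {n : ℕ} (hn : 0 < n)
    {ψ : D.H →+* Matrix (Fin n) (Fin n) k} (hsm : ∀ a x, ψ (a • x) = φ a • ψ x) {l m : D.Λ}
    (hlm : l ≠ m) (h1 : ∀ x, (ψ x).rank ≤ (D.R l x).rank)
    (h2 : ∀ x, (ψ x).rank ≤ (D.R m x).rank) : φ (D.s l) = 0 := by
  by_contra hs
  have hf : D.C l * D.C l = D.s l • D.C l := by
    rw [← sub_eq_zero]
    apply D.R_inj
    intro m
    rw [map_sub, map_mul, D.R_smul, D.R_C]
    split_ifs
    · rw [smul_mul_assoc, one_mul, sub_self]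
    · rw [mul_zero, smul_zero, sub_zero]
  have hX : ∀ m, D.X m (D.C l) = if m = l then D.s l * (D.d l : Lau Z ι) else 0 := by
    intro m
    have h3 := D.X_C_mul l m 1
    rwa [mul_one, D.X_one] at h3
  have h3 := cst_le_rank (j := D.d l) hsm h1 hs hf (by rw [hX, if_pos rfl, mul_comm])
  have h4 := cst_rank_le (j := 0) h2 (D.s_ne l) hf (by
    rw [hX, if_neg (Ne.symm hlm), Nat.cast_zero, zero_mul])
  omega

/-- The value at `v = 1`. -/
def one1 (Z : Type) [CommRing Z] (ι : Type) : Lau Z ι →+* Z :=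
  (AddMonoidAlgebra.lift Z Z (ι →₀ ℤ) 1).toRingHom

lemma one1_mon (a : ι →₀ ℤ) : one1 Z ι (mon a) = 1 := by
  simp [one1, mon]

lemma one1_algebraMap (z : Z) : one1 Z ι (algebraMap Z (Lau Z ι) z) = z := by
  show AddMonoidAlgebra.lift Z Z (ι →₀ ℤ) 1 (algebraMap Z (Lau Z ι) z) = z
  rw [AlgHom.commutes]
  rfl

/-- The Schur element vanishes in `k` only if its value at `v = 1` does. -/
theorem phi_one1 (Φ : SchurFac D) {k : Type} [Field k] {φ : Lau Z ι →+* k}
    (hφ : ∀ a, φ (mon a) = 1 → a = 0) (l : D.Λ) (h : φ (D.s l) = 0) :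
    φ (algebraMap Z (Lau Z ι) (one1 Z ι (D.s l))) = 0 := by
  rw [Φ.fac l, map_mul, map_mul, map_prod] at h
  have h1 : one1 Z ι (D.s l) = Φ.ξ l * ∏ i, (Φ.Ψ l i).eval 1 := by
    rw [Φ.fac l, map_mul, map_mul, map_prod, one1_algebraMap, one1_mon, mul_one]
    congr 1
    refine Finset.prod_congr rfl fun i _ => ?_
    rw [Polynomial.hom_eval₂, one1_mon]
    have h2 : (one1 Z ι).comp (algebraMap Z (Lau Z ι)) = RingHom.id Z :=
      RingHom.ext fun z => one1_algebraMap z
    rw [h2, Polynomial.eval₂_id]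
  rw [h1, map_mul, map_mul, map_prod, map_prod]
  rcases mul_eq_zero.1 h with h2 | h2
  · rcases mul_eq_zero.1 h2 with h3 | h3
    · rw [h3, zero_mul]
    · exfalso
      have h4 : (mon (Φ.N l) * mon (-Φ.N l) : Lau Z ι) = 1 := by
        rw [mon, mon, AddMonoidAlgebra.single_mul_single, add_neg_cancel, one_mul]
        rfl
      have h5 := congrArg φ h4
      rw [map_mul, h3, zero_mul, map_one] at h5
      exact zero_ne_one h5
  · rw [Finset.prod_eq_zero_iff] at h2
    obtain ⟨i, hi, h3⟩ := h2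
    have h4 : Φ.E l i = 0 := by
      obtain ⟨j, hj, r, hr⟩ := Φ.cyc l i
      have h5 : Polynomial.eval₂ (algebraMap Z (Lau Z ι)) (mon (Φ.E l i)) (Polynomial.X ^ j - 1) =
          mon (j • Φ.E l i) - 1 := by
        rw [Polynomial.eval₂_sub, Polynomial.eval₂_pow, Polynomial.eval₂_X, Polynomial.eval₂_one,
          mon, mon, AddMonoidAlgebra.single_pow, one_pow]
      rw [hr, Polynomial.eval₂_mul] at h5
      have h6 := congrArg φ h5
      rw [map_mul, h3, zero_mul, map_sub, map_one] at h6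
      have h7 := hφ _ (sub_eq_zero.1 h6.symm)
      exact (smul_eq_zero.1 h7).resolve_left hj.ne'
    have h8 : (mon (Φ.E l i) : Lau Z ι) = algebraMap Z (Lau Z ι) 1 := by
      rw [h4, map_one]
      rfl
    rw [h8, Polynomial.eval₂_at_apply] at h3
    have h9 : ∏ i, φ (algebraMap Z (Lau Z ι) ((Φ.Ψ l i).eval 1)) = 0 :=
      Finset.prod_eq_zero hi h3
    rw [h9, mul_zero]

end abs

/-! ### The group at `v = 1` -/

section grp

variable {G : Type} [Group G] [Fintype G] {Λ : Type} [Fintype Λ] {d : Λ → ℕ}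
  {R : ∀ l, G →* Matrix (Fin (d l)) (Fin (d l)) ℂ}

open CMFn.ZeroX in
lemma four_inv [DecidableEq Λ] (hR : Function.Bijective (four R)) (l m : Λ) (hl : 0 < d l) :
    ∑ g, (R l g⁻¹).trace • R m g = if m = l then ((Fintype.card G : ℂ) / d l) • 1 else 0 := by
  classical
  obtain ⟨a, ha⟩ := hR.2 (Pi.single l 1)
  have hdl : (d l : ℂ) ≠ 0 := Nat.cast_ne_zero.2 hl.ne'
  have h1 : ∀ g, (Fintype.card G : ℂ) * a g = (d l : ℂ) * (R l g⁻¹).trace := by
    intro g
    have h2 : ∑ m, (d m : ℂ) * (R m g⁻¹ * four R a m).trace = (d l : ℂ) * (R l g⁻¹).trace := by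
      rw [Finset.sum_eq_single l]
      · rw [ha, Pi.single_eq_same, mul_one]
      · intro m _ hm
        rw [ha, Pi.single_eq_of_ne hm, mul_zero, Matrix.trace_zero, mul_zero]
      · intro h
        exact absurd (Finset.mem_univ _) h
    rw [← h2]
    have h3 : ∀ m, (d m : ℂ) * (R m g⁻¹ * four R a m).trace =
        ∑ h, a h * ((d m : ℂ) * (R m (g⁻¹ * h)).trace) := by
      intro m
      rw [four_apply, Finset.mul_sum, Matrix.trace_sum, Finset.mul_sum]
      refine Finset.sum_congr rfl fun h _ => ?_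
      rw [mul_smul_comm, ← map_mul, Matrix.trace_smul, smul_eq_mul]
      ring
    simp only [h3]
    rw [Finset.sum_comm]
    simp only [← Finset.mul_sum]
    rw [Finset.sum_eq_single g]
    · rw [reg_char hR, if_pos (inv_mul_cancel g), mul_comm]
    · intro h _ hh
      rw [reg_char hR, if_neg, mul_zero]
      intro h4
      exact hh (inv_mul_eq_one.1 h4).symm
    · intro h
      exact absurd (Finset.mem_univ _) h
  have h2 : ∀ g, (R l g⁻¹).trace = (Fintype.card G : ℂ) / d l * a g := by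
    intro g
    have h3 := h1 g
    field_simp
    rw [h3]
    ring
  have h3 : ∑ g, (R l g⁻¹).trace • R m g = ((Fintype.card G : ℂ) / d l) • four R a m := by
    rw [four_apply, Finset.smul_sum]
    refine Finset.sum_congr rfl fun g _ => ?_
    rw [h2, smul_smul]
  rw [h3, ha]
  split_ifs with h4
  · subst h4; rw [Pi.single_eq_same]
  · rw [Pi.single_eq_of_ne h4, smul_zero]

end grp

section main

variable {Z : Type} [CommRing Z] [IsDomain Z] [Algebra Z ℂ] {ι : Type} [Fintype ι] {D : HData Z ι}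
  {M : ℕ} (Q : KZData D M)

lemma evL_zero (x : Lau Z ι) : evL Z M 0 x = algebraMap Z ℂ (one1 Z ι x) := by
  induction x using AddMonoidAlgebra.induction_linear with
  | zero => simp
  | add f g hf hg => rw [map_add, map_add, map_add, hf, hg]
  | single a z =>
    rw [evL_single]
    simp [one1, pair]

open CMFn.ZeroX in
/-- `s_l(1)` divides `|G| / d_l`. -/
theorem schur_dvd [IsDedekindDomain Z] (hinj : Function.Injective (algebraMap Z ℂ))
    {G : Type} [Group G] [Fintype G] (R : ∀ l : D.Λ, G →* Matrix (Fin (D.d l)) (Fin (D.d l)) ℂ)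
    (hR : Function.Bijective (four R)) (T : G → D.H) (hT : ∀ g l, Q.ρ 0 l (T g) = R l g) (l : D.Λ)
    (c : ℕ) (hc : Fintype.card G = D.d l * c) : one1 Z ι (D.s l) ∣ (c : Z) := by
  classical
  set s : D.Λ → Z := fun m => one1 Z ι (D.s m) with hs
  have hs0 : ∀ m, algebraMap Z ℂ (s m) ≠ 0 := by
    intro m
    have h1 := Q.s_zero_ne m
    rwa [evL_zero] at h1
  let t : G → Z := fun g => one1 Z ι (D.τ (T g))
  have ht : ∀ g, algebraMap Z ℂ (t g) = ∑ m, (algebraMap Z ℂ (s m))⁻¹ * (R m g).trace := by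
    intro g
    have h1 := congrArg (evL Z M 0) (D.schur (T g))
    rw [map_mul, map_prod, map_sum] at h1
    have h2 : ∀ m, evL Z M 0 ((∏ m' ∈ Finset.univ.erase m, D.s m') * D.X m (T g)) =
        (∏ m', algebraMap Z ℂ (s m')) * ((algebraMap Z ℂ (s m))⁻¹ * (R m g).trace) := by
      intro m
      rw [map_mul, map_prod, ← Q.tr, hT, ← Finset.mul_prod_erase _ _ (Finset.mem_univ m)]
      simp only [evL_zero]
      have h3 := hs0 m
      field_simp
      exact mul_comm _ _
    rw [Finset.sum_congr rfl fun m _ => h2 m, ← Finset.mul_sum] at h1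
    simp only [evL_zero] at h1
    exact mul_left_cancel₀ (Finset.prod_ne_zero_iff.2 fun m _ => hs0 m) h1
  -- the element of the group ring
  let z : MonoidAlgebra Z G := ∑ g, MonoidAlgebra.single g (t g⁻¹)
  have hz : IsIntegral Z z := IsIntegral.of_finite Z z
  let f : MonoidAlgebra Z G →ₐ[Z] Matrix (Fin (D.d l)) (Fin (D.d l)) ℂ :=
    MonoidAlgebra.lift Z _ G (R l)
  have hfz : f z = algebraMap ℂ _ ((c : ℂ) / algebraMap Z ℂ (s l)) := by
    have h1 : f z = ∑ g, algebraMap Z ℂ (t g⁻¹) • R l g := by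
      rw [map_sum]
      refine Finset.sum_congr rfl fun g _ => ?_
      rw [MonoidAlgebra.lift_single, algebraMap_smul]
    have h2 : ∑ g, algebraMap Z ℂ (t g⁻¹) • R l g =
        ∑ m, (algebraMap Z ℂ (s m))⁻¹ • ∑ g, (R m g⁻¹).trace • R l g := by
      simp only [ht, Finset.sum_smul, Finset.smul_sum, smul_smul]
      rw [Finset.sum_comm]
    rw [h1, h2, Finset.sum_eq_single l]
    · have h3 : algebraMap ℂ (Matrix (Fin (D.d l)) (Fin (D.d l)) ℂ) ((c : ℂ) / algebraMap Z ℂ (s l)) =
          ((c : ℂ) / algebraMap Z ℂ (s l)) • 1 := Algebra.algebraMap_eq_smul_one _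
      rw [four_inv hR l l (D.d_pos l), if_pos rfl, smul_smul, h3, hc]
      congr 1
      have : (D.d l : ℂ) ≠ 0 := Nat.cast_ne_zero.2 (D.d_pos l).ne'
      push_cast
      field_simp
    · intro m _ hm
      rw [four_inv hR m l (D.d_pos m), if_neg (Ne.symm hm), smul_zero]
    · intro h
      exact absurd (Finset.mem_univ _) h
  have hω : IsIntegral Z ((c : ℂ) / algebraMap Z ℂ (s l)) := by
    have h1 : IsIntegral Z (f z) := hz.map f
    rw [hfz] at h1
    have : Nonempty (Fin (D.d l)) := ⟨⟨0, D.d_pos l⟩⟩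
    exact (isIntegral_algHom_iff (Algebra.ofId ℂ (Matrix (Fin (D.d l)) (Fin (D.d l)) ℂ) |>.restrictScalars Z)
      (FaithfulSMul.algebraMap_injective ℂ _)).1 h1
  -- descend to the fraction field
  let K := FractionRing Z
  let g : K →ₐ[Z] ℂ := IsFractionRing.liftAlgHom (g := Algebra.ofId Z ℂ) hinj
  have hsZ : s l ≠ 0 := fun h0 => hs0 l (by rw [h0, map_zero])
  have hsK : algebraMap Z K (s l) ≠ 0 := fun h0 =>
    hsZ (IsFractionRing.injective Z K (h0.trans (map_zero _).symm))
  have hy : g ((c : K) / algebraMap Z K (s l)) = (c : ℂ) / algebraMap Z ℂ (s l) := by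
    rw [map_div₀, map_natCast, AlgHom.commutes]
  have hint : IsIntegral Z ((c : K) / algebraMap Z K (s l)) := by
    rw [← isIntegral_algHom_iff g g.toRingHom.injective, hy]
    exact hω
  obtain ⟨w, hw⟩ := IsIntegrallyClosed.isIntegral_iff.1 hint
  refine ⟨w, ?_⟩
  apply IsFractionRing.injective Z K
  rw [map_mul, map_natCast]
  have h1 : algebraMap Z (FractionRing Z) w = (c : K) / algebraMap Z K (s l) := hw
  rw [h1, ← mul_div_assoc, mul_comm, mul_div_assoc]
  exact ((congrArg (fun x => (c : K) * x) (div_self hsK)).trans (mul_one _)).symm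

/-- Common constituents exist only if the characteristic of `k` divides `|G| / d_l`. -/
theorem cst_defect [IsDedekindDomain Z] (hinj : Function.Injective (algebraMap Z ℂ))
    (Φ : SchurFac D) {G : Type} [Group G] [Fintype G]
    (R : ∀ l : D.Λ, G →* Matrix (Fin (D.d l)) (Fin (D.d l)) ℂ)
    (hR : Function.Bijective (CMFn.ZeroX.four R)) (T : G → D.H)
    (hT : ∀ g l, Q.ρ 0 l (T g) = R l g) {l m : D.Λ} (hlm : l ≠ m)
    (c : ℕ) (hc : Fintype.card G = D.d l * c) {k : Type} [Field k] {φ : Lau Z ι →+* k}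
    (hφ : ∀ a, φ (mon a) = 1 → a = 0) {n : ℕ} (hn : 0 < n)
    {ψ : D.H →+* Matrix (Fin n) (Fin n) k} (hsm : ∀ a x, ψ (a • x) = φ a • ψ x)
    (h1 : ∀ x, (ψ x).rank ≤ (D.R l x).rank) (h2 : ∀ x, (ψ x).rank ≤ (D.R m x).rank) :
    (c : k) = 0 := by
  have h3 := phi_one1 Φ hφ l (cst_s_zero hn hsm hlm h1 h2)
  obtain ⟨w, hw⟩ := schur_dvd Q hinj R hR T hT l c hc
  have h4 := congrArg (fun x => φ (algebraMap Z (Lau Z ι) x)) hw
  simp only [map_mul, map_natCast] at h4
  rw [h4, h3, zero_mul]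

end main

end

end Pool.Agent.CMF
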