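import Pool.Agent.CMFn.ModL


/-! Project CMFn, module ModGal: Galois conjugation of the characters of the generic Hecke
algebra. -/

set_option linter.unusedSectionVars false

namespace Pool.Agent.CMF

open Matrix I1X

noncomputable section

/-! ### Abstract part -/

section abs

variable {Z : Type} [CommRing Z] [IsDomain Z] {ι : Type} (D : HData Z ι)

/-- A central element acts by scalars. -/
lemma scalar_of_central (z : D.H) (hz : ∀ h, z * h = h * z) (m : D.Λ) :
    ∃ c : D.K, D.R m z = c • 1 := by
  have hcom : ∀ x : Matrix (Fin (D.d m)) (Fin (D.d m)) D.K, D.R m z * x = x * D.R m z := by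
    apply span_R D m
    · intro h
      rw [← map_mul, ← map_mul, hz]
    · rw [mul_zero, zero_mul]
    · intro x y hx hy
      rw [mul_add, add_mul, hx, hy]
    · intro c x hx
      rw [mul_smul_comm, smul_mul_assoc, hx]
  have hmem : D.R m z ∈ Set.range (Matrix.scalar (Fin (D.d m)) (α := D.K)) := by
    rw [Matrix.mem_range_scalar_iff_commute_single']
    intro i j
    exact (hcom _).symm
  obtain ⟨c, hc⟩ := hmem
  refine ⟨c, ?_⟩
  rw [← hc, Matrix.smul_one_eq_diagonal]
  rfl

/-- `K` has characteristic zero. -/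
lemma charZero_K [CharZero Z] : CharZero D.K := by
  have h1 : Function.Injective ((algebraMap (Lau Z ι) D.K).comp (algebraMap Z (Lau Z ι))) := by
    rw [RingHom.coe_comp]
    refine D.injK.comp ?_
    intro a b hab
    have h2 := congrArg (fun q : Lau Z ι => q.coeff 0) hab
    simpa using h2
  exact charZero_of_injective_ringHom h1

/-- A trace form which vanishes on the `C_m` vanishes. -/
theorem form_zero [CharZero Z] (F : D.H →+ Lau Z ι) (hsm : ∀ a h, F (a • h) = a * F h)
    (hF : ∀ x y, F (x * y) = F (y * x)) (h0 : ∀ m, F (D.C m) = 0) : ∀ h, F h = 0 := by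
  have hch := charZero_K D
  let z : D.H := ∑ j, F (D.b' j) • D.b j
  have hz : ∀ h, D.τ (z * h) = F h := by
    intro h
    conv_rhs => rw [dual_sum D h]
    rw [show z = ∑ j, F (D.b' j) • D.b j from rfl, Finset.sum_mul, map_sum, map_sum]
    refine Finset.sum_congr rfl fun j _ => ?_
    rw [smul_mul_assoc, map_smul, hsm, smul_eq_mul, mul_comm]
  have hcen : ∀ h, z * h = h * z := by
    intro h
    rw [← sub_eq_zero]
    apply nondeg D
    intro x
    rw [sub_mul, map_sub, mul_assoc, hz, mul_assoc, D.τ_comm h, mul_assoc, hz, hF h x, sub_self]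
  have hz0 : z = 0 := by
    apply D.R_inj
    intro m
    obtain ⟨c, hc⟩ := scalar_of_central D z hcen m
    have h1 : D.X m z = 0 := by
      rw [← D.τ_C, D.C_comm, hz, h0]
    have h2 := D.trR m z
    rw [h1, map_zero, hc, Matrix.trace_smul, Matrix.trace_one, Fintype.card_fin, smul_eq_mul] at h2
    rcases mul_eq_zero.1 h2 with h3 | h3
    · rw [hc, h3, zero_smul]
    · exact absurd (Nat.cast_eq_zero.1 h3) (D.d_pos m).ne'
  intro h
  rw [← hz, hz0, zero_mul, map_zero]

/-- The trace of a quasi-idempotent matrix. -/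
lemma trace_quasi {k : Type} [Field k] [CharZero k] {n : ℕ} (A : Matrix (Fin n) (Fin n) k)
    {c : k} (hc : c ≠ 0) (h : A * A = c • A) : ∃ j : ℕ, A.trace = (j : k) * c := by
  set B := c⁻¹ • A with hB
  have hBB : B * B = B := by
    rw [hB, smul_mul_smul_comm, h, smul_smul]
    congr 1
    field_simp
  have hidem : IsIdempotentElem (Matrix.toLin' B) := by
    have h2 := Matrix.toLin'_mul B B
    rw [hBB] at h2
    exact h2.symm
  have h3 := (LinearMap.IsIdempotentElem.isProj_range _ hidem).trace
  rw [Matrix.trace_toLin'_eq] at h3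
  refine ⟨Module.finrank k (LinearMap.range (Matrix.toLin' B)), ?_⟩
  have h4 : A = c • B := by rw [hB, smul_smul, mul_inv_cancel₀ hc, one_smul]
  rw [h4, Matrix.trace_smul, h3, smul_eq_mul, mul_comm]

variable {D}

/-- The action of a ring homomorphism on the coefficients of Laurent polynomials. -/
def lauMap (ι : Type) (σ : Z →+* Z) : Lau Z ι →+* Lau Z ι :=
  AddMonoidAlgebra.mapRingHom (ι →₀ ℤ) σ

lemma lauMap_single (σ : Z →+* Z) (a : ι →₀ ℤ) (z : Z) :
    lauMap ι σ (AddMonoidAlgebra.single a z) = AddMonoidAlgebra.single a (σ z) :=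
  AddMonoidAlgebra.mapRingHom_single σ a z

lemma lauMap_mon (σ : Z →+* Z) (a : ι →₀ ℤ) : lauMap ι σ (mon a) = mon a := by
  rw [mon, lauMap_single, map_one]

lemma lauMap_algebraMap (σ : Z →+* Z) (z : Z) :
    lauMap ι σ (algebraMap Z (Lau Z ι) z) = algebraMap Z (Lau Z ι) (σ z) :=
  lauMap_single σ 0 z

lemma lauMap_inv (σ : Z ≃+* Z) (q : Lau Z ι) :
    lauMap ι (σ.symm : Z →+* Z) (lauMap ι (σ : Z →+* Z) q) = q := by
  induction q using AddMonoidAlgebra.induction_linear with
  | zero => rw [map_zero, map_zero]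
  | add f g hf hg => rw [map_add, map_add, hf, hg]
  | single a z =>
    rw [lauMap_single, lauMap_single]
    congr 1
    exact σ.symm_apply_apply z

lemma lauMap_inv' (σ : Z ≃+* Z) (q : Lau Z ι) :
    lauMap ι (σ : Z →+* Z) (lauMap ι (σ.symm : Z →+* Z) q) = q := by
  have h := lauMap_inv σ.symm q
  rwa [RingEquiv.symm_symm] at h

lemma one1_single (a : ι →₀ ℤ) (z : Z) :
    one1 Z ι (AddMonoidAlgebra.single a z) = z := by
  simp [one1]

lemma one1_lauMap (σ : Z →+* Z) (q : Lau Z ι) : one1 Z ι (lauMap ι σ q) = σ (one1 Z ι q) := by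
  induction q using AddMonoidAlgebra.induction_linear with
  | zero => rw [map_zero, map_zero, map_zero]
  | add f g hf hg => rw [map_add, map_add, hf, hg, map_add, map_add]
  | single a z => rw [lauMap_single, one1_single, one1_single]

/-- `σ(z) - z ∈ I` for all `z` implies `σ(q) - q ∈ I A`. -/
lemma lauMap_sub_mem (σ : Z →+* Z) (I : Ideal Z) (hI : ∀ z, σ z - z ∈ I) (q : Lau Z ι) :
    lauMap ι σ q - q ∈ MX.PP ι I := by
  induction q using AddMonoidAlgebra.induction_linear with
  | zero => rw [map_zero, sub_self]; exact Ideal.zero_mem _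
  | add f g hf hg =>
    rw [map_add, add_sub_add_comm]
    exact Ideal.add_mem _ hf hg
  | single a z =>
    have h1 : lauMap ι σ (AddMonoidAlgebra.single a z) - AddMonoidAlgebra.single a z =
        algebraMap Z (Lau Z ι) (σ z - z) * mon a := by
      rw [lauMap_single, ← AddMonoidAlgebra.single_sub, mon]
      show _ = AddMonoidAlgebra.single 0 (σ z - z) * AddMonoidAlgebra.single a 1
      rw [AddMonoidAlgebra.single_mul_single, zero_add, mul_one]
    rw [h1]
    exact Ideal.mul_mem_right _ _ (MX.C_mem_PP.2 (hI z))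

/-- `σ(z) - z` divisible by `t` for all `z` implies the same for Laurent polynomials. -/
lemma lauMap_sub_dvd (σ : Z →+* Z) (t : Z) (ht : ∀ z, t ∣ σ z - z) (q : Lau Z ι) :
    algebraMap Z (Lau Z ι) t ∣ lauMap ι σ q - q := by
  induction q using AddMonoidAlgebra.induction_linear with
  | zero => rw [map_zero, sub_self]; exact dvd_zero _
  | add f g hf hg =>
    rw [map_add, add_sub_add_comm]
    exact dvd_add hf hg
  | single a z =>
    have h1 : lauMap ι σ (AddMonoidAlgebra.single a z) - AddMonoidAlgebra.single a z =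
        algebraMap Z (Lau Z ι) (σ z - z) * mon a := by
      rw [lauMap_single, ← AddMonoidAlgebra.single_sub, mon]
      show _ = AddMonoidAlgebra.single 0 (σ z - z) * AddMonoidAlgebra.single a 1
      rw [AddMonoidAlgebra.single_mul_single, zero_add, mul_one]
    rw [h1]
    exact Dvd.dvd.mul_right (map_dvd _ (ht z)) _

/-- Galois conjugation of characters. -/
theorem gal_char [CharZero Z] (σ : Z ≃+* Z) (S : D.H →+* D.H)
    (hS : ∀ a h, S (a • h) = lauMap ι (σ : Z →+* Z) a • S h) (hs : ∀ m, one1 Z ι (D.s m) ≠ 0)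
    {l l' : D.Λ} (h1 : ∀ h, one1 Z ι (D.X l (S h)) = σ (one1 Z ι (D.X l' h))) (h : D.H) :
    D.X l (S h) = lauMap ι (σ : Z →+* Z) (D.X l' h) := by
  have hch := charZero_K D
  let F : D.H →+ Lau Z ι :=
    { toFun := fun h => lauMap ι (σ.symm : Z →+* Z) (D.X l (S h)) - D.X l' h
      map_zero' := by rw [map_zero, map_zero, map_zero, map_zero, sub_zero]
      map_add' := fun x y => by rw [map_add, map_add, map_add, map_add]; ring }
  have hFa : ∀ h, F h = lauMap ι (σ.symm : Z →+* Z) (D.X l (S h)) - D.X l' h := fun _ => rfl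
  have hsm : ∀ a h, F (a • h) = a * F h := by
    intro a h
    rw [hFa, hFa, hS, (D.X l).map_smul, (D.X l').map_smul, smul_eq_mul, smul_eq_mul, map_mul,
      lauMap_inv]
    ring
  have htr : ∀ x y, F (x * y) = F (y * x) := by
    intro x y
    rw [hFa, hFa, S.map_mul, S.map_mul, X_comm D l (S x) (S y), X_comm D l' x y]
  have h0 : ∀ m, F (D.C m) = 0 := by
    intro m
    -- `C_m² = s_m C_m`
    have hf : D.C m * D.C m = D.s m • D.C m := by
      rw [← sub_eq_zero]
      apply D.R_inj
      intro m'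
      rw [map_sub, map_mul, D.R_smul, D.R_C]
      split_ifs
      · rw [smul_mul_assoc, one_mul, sub_self]
      · rw [mul_zero, smul_zero, sub_zero]
    have hsm0 : lauMap ι (σ : Z →+* Z) (D.s m) ≠ 0 := by
      intro h2
      have h3 := congrArg (lauMap ι (σ.symm : Z →+* Z)) h2
      rw [lauMap_inv, map_zero] at h3
      exact D.s_ne m h3
    have hc : algebraMap (Lau Z ι) D.K (lauMap ι (σ : Z →+* Z) (D.s m)) ≠ 0 := fun h2 =>
      hsm0 (D.injK (h2.trans (map_zero _).symm))
    obtain ⟨j, hj⟩ := trace_quasi (D.R l (S (D.C m))) hc (by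
      rw [← map_mul, ← map_mul, hf, hS, D.R_smul])
    have hj' : D.X l (S (D.C m)) = (j : Lau Z ι) * lauMap ι (σ : Z →+* Z) (D.s m) := by
      apply D.injK
      rw [← D.trR, hj, map_mul, map_natCast]
    have hX : D.X l' (D.C m) = if m = l' then (D.d l' : Lau Z ι) * D.s m else 0 := by
      have h3 := D.X_C_mul m l' 1
      rw [mul_one, D.X_one] at h3
      rw [h3]
      by_cases h4 : m = l'
      · rw [if_pos h4.symm, if_pos h4, ← h4, mul_comm]
      · rw [if_neg (Ne.symm h4), if_neg h4]
    have hF1 : F (D.C m) = ((j : ℤ) - (if m = l' then (D.d l' : ℤ) else 0) : ℤ) • D.s m := by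
      rw [hFa, hj', map_mul, map_natCast, lauMap_inv, hX]
      split_ifs with h4
      · rw [zsmul_eq_mul]
        push_cast
        ring
      · rw [zsmul_eq_mul]
        push_cast
        ring
    -- the value at `v = 1`
    have hF0 : one1 Z ι (F (D.C m)) = 0 := by
      rw [hFa, map_sub, one1_lauMap, h1]
      have h5 : (σ.symm : Z →+* Z) (σ (one1 Z ι (D.X l' (D.C m)))) =
          one1 Z ι (D.X l' (D.C m)) := σ.symm_apply_apply _
      rw [h5, sub_self]
    rw [hF1, zsmul_eq_mul, map_mul, map_intCast] at hF0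
    rcases mul_eq_zero.1 hF0 with h6 | h6
    · have h7 := Int.cast_eq_zero.1 h6
      rw [hF1, h7, zero_smul]
    · exact absurd h6 (hs m)
  have h2 := form_zero D F hsm htr h0 h
  rw [hFa, sub_eq_zero] at h2
  rw [← h2, lauMap_inv']

end abs

end

end Pool.Agent.CMF
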