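import Pool.Agent.CMFn.ModGal
import Pool.Agent.CMF.G9
import Pool.Agent.CMF.GS3b
import Pool.Agent.CMF.G10a

/-! Project CMFn, module ModGalB: Galois conjugation on the generic Hecke algebra. -/

set_option linter.unusedSectionVars false

namespace Pool.Agent.CMF

open Matrix Pool.Agent.CMFP

noncomputable section

/-- Ring homomorphisms from a free algebra. -/
lemma exists_free_hom {R H X : Type} [CommRing R] [Ring H] (i : R →+* H)
    (hc : ∀ r h, i r * h = h * i r) (t : X → H) : ∃ f : FreeAlgebra R X →+* H,
    (∀ r, f (algebraMap R _ r) = i r) ∧ ∀ x, f (FreeAlgebra.ι R x) = t x := by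
  let _ := i.toAlgebra' hc
  exact ⟨(FreeAlgebra.lift R t).toRingHom, fun r => (FreeAlgebra.lift R t).commutes r,
    fun x => FreeAlgebra.lift_ι_apply t x⟩

section semi

variable {G : Type} [Group G] {n : ℕ} {V : G → Matrix (Fin n) (Fin n) ℂ} {v₀ : Fin n → ℂ}
  {Z : Type} [CommRing Z] [Algebra Z ℂ]

/-- The semilinear endomorphism of the Hecke algebra which fixes the braids. -/
theorem exists_semi {R : Type} [CommRing R] [Algebra Z R] (u : Idx V → R) (τ : R →+* R)
    (hu : ∀ i, τ (u i) = u i) (hζ : ∀ (b : BP V v₀) (ζ : Z), IsRefl V b.g →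
      algebraMap Z ℂ ζ = rot V b.g 1 → τ (algebraMap Z R ζ) = algebraMap Z R ζ) :
    ∃ S : Hk Z V v₀ u →+* Hk Z V v₀ u, (∀ (a : R) h, S (a • h) = τ a • S h) ∧
      ∀ b, S (hT Z u b) = hT Z u b := by
  obtain ⟨h1, h2, h3, h4⟩ := hkRep_hT (v₀ := v₀) (Z := Z) u
  obtain ⟨f, hf1, hf2⟩ := exists_free_hom ((algebraMap R (Hk Z V v₀ u)).comp τ)
    (fun r h => Algebra.commutes (τ r) h) (hT Z u)
  have hrel : ∀ ⦃x y⦄, HkRel Z V v₀ u x y → f x = f y := by
    intro x y h
    cases h with
    | homot a b h => rw [hf2, hf2]; exact h1 a b h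
    | one a hg h => rw [hf2, map_one]; exact h2 a hg h
    | mul a b c hg h h' => rw [map_mul, hf2, hf2, hf2]; exact h3 a b c hg h h'
    | hecke b hs hb ζ hb' =>
      rw [map_zero, map_list_prod, List.map_map, ← h4 b hs hb ζ hb']
      congr 1
      refine List.map_congr_left fun j _ => ?_
      simp only [Function.comp_apply]
      rw [map_sub, hf2, hf1, RingHom.comp_apply, map_mul, map_pow, map_pow, hu, hζ b ζ hs hb']
  obtain ⟨S, hS1⟩ : ∃ S : Hk Z V v₀ u →+* Hk Z V v₀ u,
      ∀ x, S (RingQuot.mkRingHom (HkRel Z V v₀ u) x) = f x :=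
    ⟨RingQuot.lift ⟨f, hrel⟩, fun x => RingQuot.lift_mkRingHom_apply f hrel x⟩
  refine ⟨S, fun a h => ?_, fun b => (hS1 _).trans (hf2 b)⟩
  have h5 : (algebraMap R (Hk Z V v₀ u)) a =
      RingQuot.mkRingHom (HkRel Z V v₀ u) (algebraMap R _ a) := by
    have h6 := (toHk (v₀ := v₀) (Z := Z) u).commutes a
    rw [← h6]
    have h7 := RingQuot.mkAlgHom_coe R (HkRel Z V v₀ u)
    rw [← h7]
    rfl
  have h6 : S (algebraMap R (Hk Z V v₀ u) a) = algebraMap R (Hk Z V v₀ u) (τ a) := by
    rw [h5, hS1, hf1]
    rfl
  rw [Algebra.smul_def, Algebra.smul_def, S.map_mul, h6]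

end semi

section main

variable {G : Type} [Group G] [Fintype G] {n : ℕ} {F : Type} [Field F] [Algebra F ℂ]
  {V : G → Matrix (Fin n) (Fin n) ℂ} {v₀ : Fin n → ℂ} {Λ : Type} [Fintype Λ]
  {d : Λ → ℕ} {ρ : ∀ l, G → Matrix (Fin (d l)) (Fin (d l)) ℂ}

lemma rot_two {s : G} (h : ordH V s = 2) : rot V s 1 = -1 := by
  rw [rot, h]
  have h1 : 2 * (Real.pi : ℂ) * Complex.I * ((1 : ℝ) : ℂ) / ((2 : ℕ) : ℂ) = Real.pi * Complex.I := by
    push_cast
    ring
  rw [h1, Complex.exp_pi_mul_I]

/-- Galois conjugation: the character of the conjugate representation is the conjugate of the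
character, at all braids. -/
theorem gal_std (hV : CMFP.IsRep V) (hv₀ : Reg V v₀) (D : StdHk F V v₀ d) (hD : D.Specialises ρ)
    (hd : ∀ l, 0 < d l) (hord : ∀ s, CMFP.IsRefl V s → ordH V s = 2)
    (σ : NumberField.RingOfIntegers F ≃+* NumberField.RingOfIntegers F)
    (hs : ∀ m, one1 _ _ ((stdHData D hd).s m) ≠ 0) {l l' : Λ}
    (hconj : ∀ g z, algebraMap (NumberField.RingOfIntegers F) ℂ z = (ρ l' g).trace →
      algebraMap (NumberField.RingOfIntegers F) ℂ (σ z) = (ρ l g).trace) (b : BP V v₀) :
    (stdHData D hd).X l (hT _ (var _) b) = lauMap (Idx V)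
      (σ : NumberField.RingOfIntegers F →+* NumberField.RingOfIntegers F)
      ((stdHData D hd).X l' (hT _ (var _) b)) := by
  have hinj : Function.Injective (algebraMap (NumberField.RingOfIntegers F) ℂ) := inj_int
  have hch : CharZero (NumberField.RingOfIntegers F) :=
    (algebraMap (NumberField.RingOfIntegers F) ℂ).charZero
  obtain ⟨S, hS1, hS2⟩ := exists_semi (V := V) (v₀ := v₀) (Z := NumberField.RingOfIntegers F)
    (R := Laur (NumberField.RingOfIntegers F) (Idx V)) (var (NumberField.RingOfIntegers F))
    (lauMap (Idx V) (σ : NumberField.RingOfIntegers F →+* NumberField.RingOfIntegers F))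
    (fun i => lauMap_mon _ _) (fun b ζ hs hζ => by
      have h1 : ζ = -1 := by
        apply hinj
        rw [hζ, rot_two (hord _ hs), map_neg, map_one]
      rw [h1, map_neg, map_one]
      exact (map_neg _ _).trans (congrArg _ (map_one _)))
  have h1 : ∀ h : Hk (NumberField.RingOfIntegers F) V v₀ (var (NumberField.RingOfIntegers F)),
      one1 (NumberField.RingOfIntegers F) (Idx V) ((stdHData D hd).X l (S h)) =
        σ (one1 (NumberField.RingOfIntegers F) (Idx V) ((stdHData D hd).X l' h)) := by
    intro h
    have h2 : h ∈ Submodule.span (Laur (NumberField.RingOfIntegers F) (Idx V))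
        (Set.range fun b : BP V v₀ => hT _ (var _) b) := by
      rw [CMFG.G3bX.span_hT' _ _ hV hv₀]
      trivial
    refine Submodule.span_induction (p := fun h _ => one1 (NumberField.RingOfIntegers F) (Idx V)
      ((stdHData D hd).X l (S h)) = σ (one1 (NumberField.RingOfIntegers F) (Idx V)
        ((stdHData D hd).X l' h))) ?_ ?_ ?_ ?_ h2
    · rintro _ ⟨b, rfl⟩
      have h3 : algebraMap (NumberField.RingOfIntegers F) ℂ (one1 _ _
        ((stdHData D hd).X l' (hT _ (var _) b))) = (ρ l' b.g).trace := hD l' b
      have h4 : algebraMap (NumberField.RingOfIntegers F) ℂ (one1 _ _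
        ((stdHData D hd).X l (hT _ (var _) b))) = (ρ l b.g).trace := hD l b
      apply hinj
      rw [hconj b.g _ h3]
      show algebraMap (NumberField.RingOfIntegers F) ℂ (one1 _ _
        ((stdHData D hd).X l (S (hT _ (var _) b)))) = _
      rw [hS2]
      exact h4
    · have e1 : (stdHData D hd).X l (S 0) = 0 := by
        rw [S.map_zero]
        exact ((stdHData D hd).X l).map_zero
      have e2 : (stdHData D hd).X l' 0 = 0 := ((stdHData D hd).X l').map_zero
      show one1 (NumberField.RingOfIntegers F) (Idx V) ((stdHData D hd).X l (S 0)) =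
        σ (one1 (NumberField.RingOfIntegers F) (Idx V) ((stdHData D hd).X l' 0))
      exact (congrArg _ e1).trans ((map_zero _).trans ((map_zero σ).symm.trans
        (congrArg σ ((map_zero _).symm.trans (congrArg _ e2.symm)))))
    · intro x y _ _ hx hy
      have e1 : (stdHData D hd).X l (S (x + y)) = (stdHData D hd).X l (S x) +
        (stdHData D hd).X l (S y) := by
        rw [S.map_add]
        exact ((stdHData D hd).X l).map_add _ _
      have e2 : (stdHData D hd).X l' (x + y) = (stdHData D hd).X l' x + (stdHData D hd).X l' y :=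
        ((stdHData D hd).X l').map_add _ _
      rw [e1, e2, map_add, map_add, hx, hy, map_add]
    · intro a x _ hx
      have e1 : (stdHData D hd).X l (S (a • x)) = lauMap (Idx V)
          (σ : NumberField.RingOfIntegers F →+* NumberField.RingOfIntegers F) a *
          (stdHData D hd).X l (S x) := by
        rw [hS1]
        exact ((stdHData D hd).X l).map_smul _ _
      have e2 : (stdHData D hd).X l' (a • x) =
          (show Lau (NumberField.RingOfIntegers F) (Idx V) from a) * (stdHData D hd).X l' x :=
        ((stdHData D hd).X l').map_smul _ _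
      rw [e1, e2, map_mul, map_mul, hx, map_mul]
      congr 1
      exact one1_lauMap _ _
  have h2 := gal_char (D := stdHData D hd) σ S hS1 hs (l := l) (l' := l') h1
    (hT _ (var _) b)
  rw [← h2]
  exact congrArg _ (hS2 b).symm

/-- The characters of Galois conjugate representations are congruent modulo `t`, if `σ(z) - z` is
divisible by `t` for all `z`. -/
theorem gal_dvd (hV : CMFP.IsRep V) (hv₀ : Reg V v₀) (D : StdHk F V v₀ d) (hD : D.Specialises ρ)
    (hd : ∀ l, 0 < d l) (hord : ∀ s, CMFP.IsRefl V s → ordH V s = 2)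
    (σ : NumberField.RingOfIntegers F ≃+* NumberField.RingOfIntegers F)
    (hs : ∀ m, one1 _ _ ((stdHData D hd).s m) ≠ 0) {l l' : Λ}
    (hconj : ∀ g z, algebraMap (NumberField.RingOfIntegers F) ℂ z = (ρ l' g).trace →
      algebraMap (NumberField.RingOfIntegers F) ℂ (σ z) = (ρ l g).trace)
    (t : NumberField.RingOfIntegers F) (ht : ∀ z, t ∣ σ z - z) (h : (stdHData D hd).H) :
    algebraMap (NumberField.RingOfIntegers F) (Lau (NumberField.RingOfIntegers F) (Idx V)) t ∣
      (stdHData D hd).X l h - (stdHData D hd).X l' h := by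
  have key : ∀ h : Hk (NumberField.RingOfIntegers F) V v₀ (var (NumberField.RingOfIntegers F)),
      algebraMap (NumberField.RingOfIntegers F) (Lau (NumberField.RingOfIntegers F) (Idx V)) t ∣
        (stdHData D hd).X l h - (stdHData D hd).X l' h := by
    intro h
    have h2 : h ∈ Submodule.span (Laur (NumberField.RingOfIntegers F) (Idx V))
          (Set.range fun b : BP V v₀ => hT _ (var _) b) := by
      rw [CMFG.G3bX.span_hT' _ _ hV hv₀]
      trivial
    refine Submodule.span_induction (p := fun
      (h : Hk (NumberField.RingOfIntegers F) V v₀ (var (NumberField.RingOfIntegers F))) _ =>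
      algebraMap (NumberField.RingOfIntegers F) (Lau (NumberField.RingOfIntegers F) (Idx V)) t ∣
        (stdHData D hd).X l h - (stdHData D hd).X l' h) ?_ ?_ ?_ ?_ h2
    · rintro _ ⟨b, rfl⟩
      show _ ∣ (stdHData D hd).X l (hT _ (var _) b) - (stdHData D hd).X l' (hT _ (var _) b)
      rw [gal_std hV hv₀ D hD hd hord σ hs hconj b]
      exact lauMap_sub_dvd _ t ht _
    · have e1 : (stdHData D hd).X l 0 - (stdHData D hd).X l' 0 = 0 := by
        rw [((stdHData D hd).X l).map_zero, ((stdHData D hd).X l').map_zero, sub_zero]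
      exact (dvd_zero _).trans (dvd_of_eq e1.symm)
    · intro x y _ _ hx hy
      have e1 : (stdHData D hd).X l (x + y) - (stdHData D hd).X l' (x + y) =
          ((stdHData D hd).X l x - (stdHData D hd).X l' x) +
          ((stdHData D hd).X l y - (stdHData D hd).X l' y) := by
        have e2 : (stdHData D hd).X l (x + y) = (stdHData D hd).X l x + (stdHData D hd).X l y :=
          ((stdHData D hd).X l).map_add _ _
        have e3 : (stdHData D hd).X l' (x + y) = (stdHData D hd).X l' x + (stdHData D hd).X l' y :=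
          ((stdHData D hd).X l').map_add _ _
        rw [e2, e3]
        ring
      exact (dvd_add hx hy).trans (dvd_of_eq e1.symm)
    · intro a x _ hx
      have e1 : (stdHData D hd).X l (a • x) - (stdHData D hd).X l' (a • x) =
          (show Lau (NumberField.RingOfIntegers F) (Idx V) from a) *
            ((stdHData D hd).X l x - (stdHData D hd).X l' x) := by
        have e2 : (stdHData D hd).X l (a • x) =
            (show Lau (NumberField.RingOfIntegers F) (Idx V) from a) * (stdHData D hd).X l x :=
          ((stdHData D hd).X l).map_smul _ _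
        have e3 : (stdHData D hd).X l' (a • x) =
            (show Lau (NumberField.RingOfIntegers F) (Idx V) from a) * (stdHData D hd).X l' x :=
          ((stdHData D hd).X l').map_smul _ _
        rw [e2, e3]
        ring
      exact (Dvd.dvd.mul_left hx _).trans (dvd_of_eq e1.symm)
  exact key h

end main

end

end Pool.Agent.CMF
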