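import Pool.Agent.CMFn.ModGalB

/-! Project CMFn, module ModGalC: complex conjugation on the ring of integers of the field of
definition, and the congruence modulo `ω - ω²`. -/

set_option linter.unusedSectionVars false

namespace Pool.Agent.CMF

open Matrix Pool.Agent.CMFP

noncomputable section

section herm

variable {G : Type} [Group G] [Fintype G] {n : ℕ} {V : G → Matrix (Fin n) (Fin n) ℂ}

open scoped ComplexOrder in
/-- The character of the inverse is the complex conjugate. -/
theorem trace_inv_eq_star (hV : CMFP.IsRep V) (g : G) : (V g⁻¹).trace = star (V g).trace := by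
  classical
  set P : Matrix (Fin n) (Fin n) ℂ := ∑ h, (V h)ᴴ * V h with hP
  have h1 : P.PosDef := by
    rw [hP, ← Finset.add_sum_erase _ _ (Finset.mem_univ (1 : G))]
    refine Matrix.PosDef.add_posSemidef ?_ ?_
    · rw [hV.1, Matrix.conjTranspose_one, one_mul]
      exact Matrix.PosDef.one
    · exact Matrix.posSemidef_sum _ fun h _ => Matrix.posSemidef_conjTranspose_mul_self _
  have h2 : (V g)ᴴ * P * V g = P := by
    rw [hP, Finset.mul_sum, Finset.sum_mul]
    have h3 : ∀ h, (V g)ᴴ * ((V h)ᴴ * V h) * V g = (V (h * g))ᴴ * V (h * g) := by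
      intro h
      rw [hV.2, Matrix.conjTranspose_mul]
      simp only [Matrix.mul_assoc]
    simp only [h3]
    exact Fintype.sum_equiv (Equiv.mulRight g) _ _ fun h => rfl
  have hu : IsUnit P.det := (Matrix.isUnit_iff_isUnit_det _).1 h1.isUnit
  have h4 : V g * V g⁻¹ = 1 := by rw [← hV.2, mul_inv_cancel, hV.1]
  have h5 : (V g)ᴴ = P * V g⁻¹ * P⁻¹ := by
    have h6 : (V g)ᴴ * P = P * V g⁻¹ := by
      conv_rhs => rw [← h2]
      rw [Matrix.mul_assoc ((V g)ᴴ * P), h4, Matrix.mul_one]
    rw [← h6, Matrix.mul_assoc, Matrix.mul_nonsing_inv _ hu, Matrix.mul_one]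
  rw [← Matrix.trace_conjTranspose, h5, Matrix.trace_mul_comm, ← Matrix.mul_assoc,
    Matrix.nonsing_inv_mul _ hu, Matrix.one_mul]

/-- The field generated by the traces is stable under complex conjugation. -/
theorem conj_mem_closure (hV : CMFP.IsRep V) (x : ℂ)
    (hx : x ∈ Subfield.closure (Set.range fun g => (V g).trace)) :
    star x ∈ Subfield.closure (Set.range fun g => (V g).trace) := by
  induction hx using Subfield.closure_induction with
  | mem y hy =>
    obtain ⟨g, rfl⟩ := hy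
    refine Subfield.subset_closure ⟨g⁻¹, ?_⟩
    exact trace_inv_eq_star hV g
  | one => rw [star_one]; exact Subfield.one_mem _
  | add y z _ _ hy hz => rw [star_add]; exact Subfield.add_mem _ hy hz
  | neg y _ hy => rw [star_neg]; exact Subfield.neg_mem _ hy
  | inv y _ hy => rw [star_inv₀]; exact Subfield.inv_mem _ hy
  | mul y z _ _ hy hz => rw [star_mul']; exact Subfield.mul_mem _ hy hz

end herm

section conj

variable {F : Type} [Field F] [Algebra F ℂ]

/-- Complex conjugation on the ring of integers. -/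
theorem exists_conj (hE : ∀ x ∈ (algebraMap F ℂ).fieldRange, star x ∈ (algebraMap F ℂ).fieldRange) :
    ∃ σ : NumberField.RingOfIntegers F ≃+* NumberField.RingOfIntegers F,
      ∀ z, algebraMap (NumberField.RingOfIntegers F) ℂ (σ z) =
        star (algebraMap (NumberField.RingOfIntegers F) ℂ z) := by
  have h1 : ∀ x : F, ∃ y : F, algebraMap F ℂ y = star (algebraMap F ℂ x) := by
    intro x
    obtain ⟨y, hy⟩ := hE _ ⟨x, rfl⟩
    exact ⟨y, hy⟩
  choose c hc using h1
  have hinj : Function.Injective (algebraMap F ℂ) := (algebraMap F ℂ).injective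
  have hcc : ∀ x, c (c x) = x := by
    intro x
    apply hinj
    rw [hc, hc, star_star]
  let e : F ≃+* F :=
    { toFun := c
      invFun := c
      left_inv := hcc
      right_inv := hcc
      map_mul' := fun x y => by
        apply hinj
        rw [hc, map_mul, star_mul', map_mul, hc, hc]
      map_add' := fun x y => by
        apply hinj
        rw [hc, map_add, star_add, map_add, hc, hc] }
  refine ⟨NumberField.RingOfIntegers.mapRingEquiv e, fun z => ?_⟩
  rw [IsScalarTower.algebraMap_apply (NumberField.RingOfIntegers F) F ℂ,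
    IsScalarTower.algebraMap_apply (NumberField.RingOfIntegers F) F ℂ]
  exact hc _

/-- `ω - ω²` divides `σ(z) - z` for all integers `z` of `ℚ(ω)`. -/
theorem sqrt_dvd (w : NumberField.RingOfIntegers F) (hw : w ^ 2 + w + 1 = 0)
    (hE : ∀ x : F, ∃ a b : ℚ, algebraMap F ℂ x = a + b * algebraMap _ ℂ w)
    (σ : NumberField.RingOfIntegers F ≃+* NumberField.RingOfIntegers F)
    (hσ : ∀ z, algebraMap (NumberField.RingOfIntegers F) ℂ (σ z) =
        star (algebraMap (NumberField.RingOfIntegers F) ℂ z))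
    (z : NumberField.RingOfIntegers F) : w - w ^ 2 ∣ σ z - z := by
  have hinj : Function.Injective (algebraMap (NumberField.RingOfIntegers F) ℂ) := inj_int
  set ω : ℂ := algebraMap _ ℂ w with hω
  have hωe : ω ^ 2 + ω + 1 = 0 := by
    have h1 := congrArg (algebraMap (NumberField.RingOfIntegers F) ℂ) hw
    rw [map_add, map_add, map_pow, map_one, map_zero] at h1
    exact h1
  -- `star ω = ω²`
  have hstar : star ω = ω ^ 2 := by
    have h3 : ω ^ 3 = 1 := by linear_combination (ω - 1) * hωe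
    have hn : ‖ω‖ = 1 := by
      have h4 : ‖ω‖ ^ 3 = 1 := by rw [← norm_pow, h3, norm_one]
      exact (pow_eq_one_iff_of_nonneg (norm_nonneg _) (by norm_num)).1 h4
    have h5 : star ω * ω = 1 := by
      have h6 := Complex.conj_mul' ω
      rw [hn] at h6
      rw [show (star ω : ℂ) = (starRingEnd ℂ) ω from rfl, h6]
      norm_num
    have hω0 : ω ≠ 0 := fun h0 => by rw [h0] at h3; norm_num at h3
    apply mul_right_cancel₀ hω0
    rw [h5, ← pow_succ, h3]
  obtain ⟨x, y, hxy⟩ := hE (z : F)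
  have hz : algebraMap (NumberField.RingOfIntegers F) ℂ z = x + y * ω := by
    rw [IsScalarTower.algebraMap_apply (NumberField.RingOfIntegers F) F ℂ]
    exact hxy
  have hσz : algebraMap (NumberField.RingOfIntegers F) ℂ (σ z) = x + y * ω ^ 2 := by
    rw [hσ, hz, star_add, star_mul', hstar]
    simp
  -- rational algebraic integers are integers
  have hrat : ∀ (u : NumberField.RingOfIntegers F) (q : ℚ),
      algebraMap (NumberField.RingOfIntegers F) ℂ u = (q : ℂ) → ∃ m : ℤ, (m : ℚ) = q := by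
    intro u q hu
    have h1 : IsIntegral ℤ (algebraMap ℚ ℂ q) := by
      have h2 : algebraMap ℚ ℂ q = algebraMap (NumberField.RingOfIntegers F) ℂ u := by
        rw [hu]
        rfl
      rw [h2]
      exact (NumberField.RingOfIntegers.isIntegral u).map
        (algebraMap (NumberField.RingOfIntegers F) ℂ).toIntAlgHom
    have h3 : IsIntegral ℤ q :=
      (isIntegral_algebraMap_iff (algebraMap ℚ ℂ).injective).1 h1
    obtain ⟨m, hm⟩ := IsIntegrallyClosed.isIntegral_iff.1 h3
    exact ⟨m, by rw [← hm]; rfl⟩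
  obtain ⟨m, hm⟩ := hrat (z + σ z) (2 * x - y) (by
    rw [map_add, hz, hσz]
    push_cast
    linear_combination y * hωe)
  obtain ⟨k, hk⟩ := hrat (z * w + σ z * σ w) (-x - y) (by
    rw [map_add, map_mul, map_mul, hz, hσz, hσ w, ← hω, hstar]
    push_cast
    linear_combination (x + y * ω * (ω - 1)) * hωe + y * hωe)
  obtain ⟨N, hN⟩ := hrat (z * σ z) (x ^ 2 - x * y + y ^ 2) (by
    rw [map_mul, hz, hσz]
    push_cast
    linear_combination (x * y + y ^ 2 * (ω - 1)) * hωe)
  -- `y` is an integer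
  have hy3 : ((m + 2 * k : ℤ) : ℚ) = -3 * y := by
    push_cast
    rw [hm, hk]
    ring
  have hx : x = -y - k := by
    rw [hk]
    ring
  have h3 : (3 : ℤ) ∣ m + 2 * k := by
    have h4 : ((N : ℤ) : ℚ) * 3 = (m + 2 * k : ℤ) ^ 2 - 3 * k * (m + 2 * k : ℤ) + 3 * k ^ 2 := by
      rw [hy3, hN, hx]
      ring
    have h5 : N * 3 = (m + 2 * k) ^ 2 - 3 * k * (m + 2 * k) + 3 * k ^ 2 := by exact_mod_cast h4
    have h6 : (3 : ℤ) ∣ (m + 2 * k) ^ 2 := ⟨N + k * (m + 2 * k) - k ^ 2, by linarith⟩
    exact Int.prime_three.dvd_of_dvd_pow h6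
  obtain ⟨j, hj⟩ := h3
  have hyj : (y : ℚ) = ((-j : ℤ) : ℚ) := by
    rw [hj] at hy3
    push_cast at hy3 ⊢
    linarith
  refine ⟨(j : NumberField.RingOfIntegers F), ?_⟩
  apply hinj
  rw [map_sub, hz, hσz, map_mul, map_sub, map_pow, map_intCast, ← hω, hyj]
  push_cast
  ring

/-- The field generated by numbers `a + b ω`. -/
theorem closure_omega {S : Set ℂ} {ω : ℂ} (hω : ω ^ 2 + ω + 1 = 0)
    (hS : ∀ x ∈ S, ∃ a b : ℚ, x = a + b * ω) (x : ℂ) (hx : x ∈ Subfield.closure S) :
    ∃ a b : ℚ, x = a + b * ω := by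
  induction hx using Subfield.closure_induction with
  | mem y hy => exact hS y hy
  | one => exact ⟨1, 0, by push_cast; ring⟩
  | add y z _ _ hy hz =>
    obtain ⟨a, b, rfl⟩ := hy
    obtain ⟨c, d, rfl⟩ := hz
    exact ⟨a + c, b + d, by push_cast; ring⟩
  | neg y _ hy =>
    obtain ⟨a, b, rfl⟩ := hy
    exact ⟨-a, -b, by push_cast; ring⟩
  | inv y _ hy =>
    obtain ⟨a, b, rfl⟩ := hy
    by_cases h0 : a ^ 2 - a * b + b ^ 2 = 0
    · have h1 : a = 0 ∧ b = 0 := by
        have h2 : (2 * a - b) ^ 2 + 3 * b ^ 2 = 0 := by linarith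
        have hb : b = 0 := by
          have h3 : 3 * b ^ 2 = 0 := le_antisymm (by nlinarith [sq_nonneg (2 * a - b)])
            (by positivity)
          exact pow_eq_zero_iff (two_ne_zero) |>.1 (by linarith)
        rw [hb] at h2
        have h4 : a ^ 2 = 0 := by nlinarith
        exact ⟨pow_eq_zero_iff (two_ne_zero) |>.1 h4, hb⟩
      refine ⟨0, 0, ?_⟩
      rw [h1.1, h1.2]
      simp
    · refine ⟨(a - b) / (a ^ 2 - a * b + b ^ 2), -b / (a ^ 2 - a * b + b ^ 2), ?_⟩
      have h0' : ((a : ℂ) ^ 2 - a * b + b ^ 2) ≠ 0 := by exact_mod_cast h0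
      have h1 : ((a : ℂ) + b * ω) * ((a - b) - b * ω) = (a : ℂ) ^ 2 - a * b + b ^ 2 := by
        linear_combination (-(b : ℂ) ^ 2) * hω
      rw [inv_eq_of_mul_eq_one_right (b := ((a - b) - b * ω) / ((a : ℂ) ^ 2 - a * b + b ^ 2))
        (by rw [← mul_div_assoc, h1, div_self h0'])]
      push_cast
      field_simp
      ring
  | mul y z _ _ hy hz =>
    obtain ⟨a, b, rfl⟩ := hy
    obtain ⟨c, d, rfl⟩ := hz
    exact ⟨a * c - b * d, a * d + b * c - b * d, by
      push_cast
      linear_combination ((b : ℂ) * d) * hω⟩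

/-- The cube root of unity in the ring of integers. -/
theorem exists_omega {ω : ℂ} (hω : ω ^ 2 + ω + 1 = 0) (hE : ω ∈ (algebraMap F ℂ).fieldRange) :
    ∃ w : NumberField.RingOfIntegers F,
      algebraMap (NumberField.RingOfIntegers F) ℂ w = ω ∧ w ^ 2 + w + 1 = 0 := by
  obtain ⟨x, hx⟩ := hE
  have h1 : x ^ 2 + x + 1 = 0 := by
    apply (algebraMap F ℂ).injective
    rw [map_add, map_add, map_pow, map_one, map_zero, hx, hω]
  have h2 : IsIntegral ℤ x := by
    refine ⟨Polynomial.X ^ 2 + Polynomial.X + 1, by monicity!, ?_⟩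
    simp only [Polynomial.eval₂_add, Polynomial.eval₂_pow, Polynomial.eval₂_X,
      Polynomial.eval₂_one]
    exact h1
  obtain ⟨w, hw⟩ : ∃ w : NumberField.RingOfIntegers F, (w : F) = x := ⟨⟨x, h2⟩, rfl⟩
  refine ⟨w, ?_, ?_⟩
  · rw [IsScalarTower.algebraMap_apply (NumberField.RingOfIntegers F) F ℂ]
    exact (congrArg _ hw).trans hx
  · apply NumberField.RingOfIntegers.coe_injective
    rw [map_add, map_add, map_pow, map_one, map_zero]
    rw [← hw] at h1
    exact h1

end conj

/-! ### The congruence for a reflection group over `ℚ(ω)` -/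

section final

variable {G : Type} [Group G] [Fintype G] {n : ℕ} {F : Type} [Field F] [Algebra F ℂ]
  {V : G → Matrix (Fin n) (Fin n) ℂ} {v₀ : Fin n → ℂ} {Λ : Type} [Fintype Λ]
  {d : Λ → ℕ} {ρ : ∀ l, G → Matrix (Fin (d l)) (Fin (d l)) ℂ}

/-- Complex conjugate characters are congruent modulo `ω - ω²` on the generic Hecke algebra. -/
theorem gal_omega (hV : CMFP.IsRep V)
    (hF : (algebraMap F ℂ).fieldRange = Subfield.closure (Set.range fun g => (V g).trace))
    (hv₀ : Reg V v₀) (D : StdHk F V v₀ d) (hD : D.Specialises ρ)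
    (hd : ∀ l, 0 < d l) (hord : ∀ s, CMFP.IsRefl V s → ordH V s = 2)
    (hs : ∀ m, one1 _ _ ((stdHData D hd).s m) ≠ 0) {ω : ℂ} (hω : ω ^ 2 + ω + 1 = 0)
    (htr : ∀ g, ∃ a b : ℤ, (V g).trace = a + b * ω)
    (hne : ∃ g, ∃ a b : ℤ, (V g).trace = a + b * ω ∧ b ≠ 0) :
    ∃ w : NumberField.RingOfIntegers F, algebraMap _ ℂ w = ω ∧ w ^ 2 + w + 1 = 0 ∧
      ∀ l l' : Λ, (∀ g, (ρ l g).trace = star (ρ l' g).trace) → ∀ h : (stdHData D hd).H,
      algebraMap (NumberField.RingOfIntegers F) (Lau (NumberField.RingOfIntegers F) (Idx V))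
        (w - w ^ 2) ∣ (stdHData D hd).X l h - (stdHData D hd).X l' h := by
  have h1 : ω ∈ (algebraMap F ℂ).fieldRange := by
    obtain ⟨g, a, b, hg, hb⟩ := hne
    have h2 : (V g).trace ∈ (algebraMap F ℂ).fieldRange := by
      rw [hF]
      exact Subfield.subset_closure ⟨g, rfl⟩
    have h3 : ω = ((V g).trace - a) * ((b : ℂ))⁻¹ := by
      have hb' : (b : ℂ) ≠ 0 := by exact_mod_cast hb
      rw [hg]
      field_simp
      ring
    rw [h3]
    exact Subfield.mul_mem _ (Subfield.sub_mem _ h2 (intCast_mem _ a))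
      (Subfield.inv_mem _ (intCast_mem _ b))
  obtain ⟨w, hw, hw2⟩ := exists_omega hω h1
  obtain ⟨σ, hσ⟩ := exists_conj (F := F) (by
    intro x hx
    rw [hF] at hx ⊢
    exact conj_mem_closure hV x hx)
  refine ⟨w, hw, hw2, fun l l' hc h => ?_⟩
  refine gal_dvd hV hv₀ D hD hd hord σ hs (fun g z hz => ?_) _ (fun z => ?_) h
  · rw [hσ, hz, hc]
  · refine sqrt_dvd w hw2 (fun x => ?_) σ hσ z
    rw [hw]
    refine closure_omega hω (fun y hy => ?_) _ (hF ▸ ⟨x, rfl⟩ :
      algebraMap F ℂ x ∈ Subfield.closure (Set.range fun g => (V g).trace))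
    obtain ⟨g, rfl⟩ := hy
    obtain ⟨a, b, hab⟩ := htr g
    exact ⟨a, b, by push_cast; exact hab⟩

end final

end

end Pool.Agent.CMF
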