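import Pool.Agent.CMFn.ModL

/-! Project CMFn, module ModP: sets of characters which carry a trace function divisible by `t`
(helper49's argument). -/

set_option linter.unusedSectionVars false

namespace Pool.Agent.CMF

open Matrix Polynomial

noncomputable section

variable {Z : Type} [CommRing Z] [IsDomain Z] {ι : Type} {D : HData Z ι} {p : Ideal Z}

open Classical in
/-- An element with unit scalars on `F` and zero outside. -/
theorem intAt_of_units [hp : p.IsPrime] {F : D.Λ → Prop} (z : D.H) (a : D.Λ → Lau Z ι)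
    (ha : ∀ l, F l → a l ∉ MX.PP ι p)
    (h1 : ∀ l, F l → D.R l z = algebraMap (Lau Z ι) D.K (a l) • 1)
    (h0 : ∀ l, ¬ F l → D.R l z = 0) : IntAt D p F := by
  -- the product of the `z - a_l`
  have key : ∀ s : Finset D.Λ, (∀ l ∈ s, F l) → ∃ (c : Lau Z ι) (y : D.H), c ∉ MX.PP ι p ∧
      (∀ l ∈ s, D.R l y = 0) ∧ (∀ l, ¬ F l → D.R l y = algebraMap (Lau Z ι) D.K c • 1) ∧
      (∀ l, F l → ∃ r, D.R l y = algebraMap (Lau Z ι) D.K r • 1) := by
    intro s
    induction s using Finset.induction_on with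
    | empty =>
      intro _
      refine ⟨1, 1, fun h2 => ?_, fun l hl => absurd hl (Finset.notMem_empty l), fun l _ => by
        rw [map_one, map_one, one_smul], fun l _ => ⟨1, by rw [map_one, map_one, one_smul]⟩⟩
      have h3 : (algebraMap Z (Lau Z ι) 1) ∈ MX.PP ι p := by rwa [map_one]
      exact hp.ne_top ((Ideal.eq_top_iff_one p).2 (MX.C_mem_PP.1 h3))
    | insert m s _ ih =>
      intro hs
      obtain ⟨c, y, hc, hy0, hy1, hy2⟩ := ih fun l hl => hs l (Finset.mem_insert_of_mem hl)
      have hm : F m := hs m (Finset.mem_insert_self m s)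
      refine ⟨-(a m * c), (z - a m • 1) * y, fun h2 => ?_, fun l hl => ?_, fun l hl => ?_,
        fun l hl => ?_⟩
      · have h3 : a m * c ∈ MX.PP ι p := by
          have h4 := (MX.PP ι p).neg_mem h2
          rwa [neg_neg] at h4
        exact ((MX.PP_prime p).mem_or_mem h3).elim (ha m hm) hc
      · rcases Finset.mem_insert.1 hl with rfl | hl
        · rw [map_mul, map_sub, h1 l hm, D.R_smul, map_one, sub_self, zero_mul]
        · rw [map_mul, hy0 l hl, mul_zero]
      · rw [map_mul, map_sub, h0 l hl, D.R_smul, map_one, hy1 l hl, zero_sub, map_neg, map_mul,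
          neg_mul, smul_mul_smul_comm, one_mul, neg_smul]
      · obtain ⟨r, hr⟩ := hy2 l hl
        refine ⟨(a l - a m) * r, ?_⟩
        rw [map_mul, map_sub, h1 l hl, D.R_smul, map_one, hr, map_mul, map_sub, ← sub_smul,
          smul_mul_smul_comm, one_mul]
  obtain ⟨c, y, hc, hy0, hy1, -⟩ := key (Finset.univ.filter F) fun l hl => (Finset.mem_filter.1 hl).2
  have h2 : IntAt D p (fun l => ¬ F l) := by
    refine ⟨c, y, hc, fun l => ⟨fun hl => hy1 l hl, fun hl => ?_⟩⟩
    exact hy0 l (Finset.mem_filter.2 ⟨Finset.mem_univ l, not_not.1 hl⟩)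
  exact h2.compl.congr fun l => not_not

open Classical in
/-- Helper49's criterion: `F ⊆ E`, a trace function `Σ_{χ ∈ F} c_χ X_χ` with values divisible by
`t` and `c_χ ∉ pA`, and, for every `χ ∈ F`, an element of `H` with character `s t` at `χ`,
`s ∉ pA`, and `0` at the other characters of `E`. -/
theorem intAt_theta [IsDedekindDomain Z] [Finite ι] [IsFractionRing (Lau Z ι) D.K]
    [hp : p.IsPrime] (hp0 : p ≠ ⊥) {E F : D.Λ → Prop} (hE : IntAt D p E) (hFE : ∀ l, F l → E l)
    (t : Lau Z ι) (ht : t ≠ 0) (c : D.Λ → Lau Z ι) (hc : ∀ l, F l → c l ∉ MX.PP ι p)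
    (hdiv : ∀ b, t ∣ ∑ l, if F l then c l * D.X l b else 0)
    (hh : ∀ l, F l → ∃ (h : D.H) (s : Lau Z ι), s ∉ MX.PP ι p ∧ D.X l h = s * t ∧
      ∀ m, E m → m ≠ l → D.X m h = 0) : IntAt D p F := by
  obtain ⟨e, y, he, hy⟩ := hE
  choose g hg using hdiv
  -- the central element
  let z : D.H := ∑ j, g (D.b' j) • D.b j
  have hz : t • z = ∑ l, if F l then c l • D.C l else 0 := by
    have h1 : t • z = ∑ j, (∑ l, if F l then c l * D.X l (D.b' j) else 0) • D.b j := by
      show t • (∑ j, g (D.b' j) • D.b j) = _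
      rw [Finset.smul_sum]
      exact Finset.sum_congr rfl fun j _ => by rw [smul_smul, ← hg]
    rw [h1]
    simp only [Finset.sum_smul]
    rw [Finset.sum_comm]
    refine Finset.sum_congr rfl fun l _ => ?_
    split_ifs with hl
    · rw [HData.C, Finset.smul_sum]
      exact Finset.sum_congr rfl fun j _ => by rw [smul_smul]
    · simp
  have hRz : ∀ l, algebraMap (Lau Z ι) D.K t • D.R l z =
      if F l then algebraMap (Lau Z ι) D.K (c l * D.s l) • 1 else 0 := by
    intro l
    have h1 := congrArg (D.R l) hz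
    rw [D.R_smul] at h1
    refine h1.trans ?_
    rw [map_sum, Finset.sum_eq_single l]
    · split_ifs with hl
      · rw [D.R_smul, D.R_C, if_pos rfl, smul_smul, map_mul]
      · rw [map_zero]
    · intro m _ hm
      split_ifs with hl
      · rw [D.R_smul, D.R_C, if_neg (Ne.symm hm), smul_zero]
      · rw [map_zero]
    · intro h2
      exact absurd (Finset.mem_univ l) h2
  have ht0 : algebraMap (Lau Z ι) D.K t ≠ 0 := fun h => ht (D.injK (h.trans (map_zero _).symm))
  let r : D.Λ → D.K := fun l => algebraMap (Lau Z ι) D.K (c l * D.s l) /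
    algebraMap (Lau Z ι) D.K t
  have hr : ∀ l, r l = algebraMap (Lau Z ι) D.K (c l * D.s l) /
    algebraMap (Lau Z ι) D.K t := fun _ => rfl
  have hR1 : ∀ l, F l → D.R l z = r l • 1 := by
    intro l hl
    have h1 := hRz l
    rw [if_pos hl] at h1
    have h2 : D.R l z = (algebraMap (Lau Z ι) D.K t)⁻¹ • (algebraMap (Lau Z ι) D.K t • D.R l z) := by
      rw [smul_smul, inv_mul_cancel₀ ht0, one_smul]
    rw [h2, h1, smul_smul, hr]
    congr 1
    rw [div_eq_mul_inv, mul_comm]
  have hR0 : ∀ l, ¬ F l → D.R l z = 0 := by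
    intro l hl
    have h1 := hRz l
    rw [if_neg hl] at h1
    exact (smul_eq_zero.1 h1).resolve_left ht0
  -- integrality of the scalars
  have hfin : Module.Finite (Lau Z ι) D.H := Module.Finite.of_basis D.b
  have hint : ∀ l, F l → IsIntegral (Lau Z ι) (r l) := by
    intro l hl
    have h1 : IsIntegral (Lau Z ι) (MX.RA D l z) := (IsIntegral.of_finite (Lau Z ι) z).map (MX.RA D l)
    have h2 : MX.RA D l z = algebraMap D.K _ (r l) := by
      rw [MX.RA_apply, hR1 l hl, Algebra.algebraMap_eq_smul_one]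
    rw [h2] at h1
    have : Nonempty (Fin (D.d l)) := ⟨⟨0, D.d_pos l⟩⟩
    exact (isIntegral_algHom_iff ((Algebra.ofId D.K
      (Matrix (Fin (D.d l)) (Fin (D.d l)) D.K)).restrictScalars (Lau Z ι))
      (FaithfulSMul.algebraMap_injective D.K _)).1 h1
  -- the localisation
  have hPp := MX.PP_prime (ι := ι) p
  let O := Localization.AtPrime (MX.PP ι p)
  have hunit : ∀ s : (MX.PP ι p).primeCompl, IsUnit (algebraMap (Lau Z ι) D.K s) := fun s => by
    refine IsUnit.mk0 _ fun h0 => ?_
    have h1 : (s : Lau Z ι) = 0 := D.injK (h0.trans (map_zero _).symm)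
    exact s.2 (h1 ▸ (MX.PP ι p).zero_mem)
  let _ : Algebra O D.K :=
    (IsLocalization.lift (M := (MX.PP ι p).primeCompl) hunit : O →+* D.K).toAlgebra
  have hst : IsScalarTower (Lau Z ι) O D.K := IsScalarTower.of_algebraMap_eq fun a =>
    (IsLocalization.lift_eq (M := (MX.PP ι p).primeCompl) hunit a).symm
  have hfr : IsFractionRing O D.K :=
    IsFractionRing.isFractionRing_of_isDomain_of_isLocalization (MX.PP ι p).primeCompl O D.K
  have hpid : IsPrincipalIdealRing O := MX.pid p hp0
  have hrO : ∀ l, F l → ∃ (a b : Lau Z ι), a ∉ MX.PP ι p ∧ b ∉ MX.PP ι p ∧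
      algebraMap (Lau Z ι) D.K b * r l = algebraMap (Lau Z ι) D.K a := by
    intro l hl
    have h1 : IsIntegral O (r l) := (hint l hl).tower_top
    obtain ⟨w, hw⟩ := IsIntegrallyClosed.isIntegral_iff.1 h1
    obtain ⟨⟨a, b⟩, hab⟩ := IsLocalization.surj (MX.PP ι p).primeCompl w
    have h2 : algebraMap (Lau Z ι) D.K b * r l = algebraMap (Lau Z ι) D.K a := by
      have h3 := congrArg (algebraMap O D.K) hab
      rw [map_mul, ← IsScalarTower.algebraMap_apply, ← IsScalarTower.algebraMap_apply, hw] at h3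
      rw [mul_comm]
      exact h3
    refine ⟨a, b, fun ha => ?_, b.2, h2⟩
    -- `a` is outside `P`
    obtain ⟨h, s, hs, hX, hXm⟩ := hh l hl
    have hyh : ∀ m, D.X m (y * h) = if m = l then e * (s * t) else 0 := by
      intro m
      apply D.injK
      rw [← D.trR, map_mul]
      by_cases hEm : E m
      · rw [(hy m).1 hEm, smul_mul_assoc, one_mul, Matrix.trace_smul, D.trR, smul_eq_mul, ← map_mul]
        congr 1
        split_ifs with hml
        · rw [hml, hX]
        · rw [hXm m hEm hml, mul_zero]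
      · rw [(hy m).2 hEm, zero_mul, Matrix.trace_zero, if_neg, map_zero]
        rintro rfl
        exact hEm (hFE _ hl)
    have hne : ∏ m ∈ Finset.univ.erase l, D.s m ≠ 0 :=
      Finset.prod_ne_zero_iff.2 fun m _ => D.s_ne m
    obtain ⟨τh, h4⟩ : ∃ τh, D.s l * τh = e * (s * t) := by
      refine ⟨D.τ (y * h), ?_⟩
      have h5 := D.schur (y * h)
      rw [Finset.sum_eq_single l, hyh, if_pos rfl,
        ← Finset.prod_erase_mul _ _ (Finset.mem_univ l), mul_assoc] at h5
      · exact mul_left_cancel₀ hne h5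
      · intro m _ hml
        rw [hyh, if_neg hml, mul_zero]
      · intro h6
        exact absurd (Finset.mem_univ l) h6
    -- `b c e s = a τ`
    have h5 : (b : Lau Z ι) * (c l * (e * s)) = a * τh := by
      apply D.injK
      have h6 : algebraMap (Lau Z ι) D.K (D.s l) ≠ 0 := fun h0 =>
        D.s_ne l (D.injK (h0.trans (map_zero _).symm))
      have h7 := congrArg (algebraMap (Lau Z ι) D.K) h4
      rw [map_mul, map_mul, map_mul] at h7
      have h8 : r l * algebraMap (Lau Z ι) D.K t = algebraMap (Lau Z ι) D.K (c l) *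
          algebraMap (Lau Z ι) D.K (D.s l) := by
        rw [hr, div_mul_cancel₀ _ ht0, map_mul]
      rw [map_mul, map_mul, map_mul, map_mul, ← h2]
      apply mul_left_cancel₀ (mul_ne_zero h6 ht0)
      calc algebraMap (Lau Z ι) D.K (D.s l) * algebraMap (Lau Z ι) D.K t *
            (algebraMap (Lau Z ι) D.K b * (algebraMap (Lau Z ι) D.K (c l) *
              (algebraMap (Lau Z ι) D.K e * algebraMap (Lau Z ι) D.K s)))
          = algebraMap (Lau Z ι) D.K b * (algebraMap (Lau Z ι) D.K (c l) *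
            algebraMap (Lau Z ι) D.K (D.s l)) * (algebraMap (Lau Z ι) D.K e *
              (algebraMap (Lau Z ι) D.K s * algebraMap (Lau Z ι) D.K t)) := by ring
        _ = algebraMap (Lau Z ι) D.K b * (r l * algebraMap (Lau Z ι) D.K t) *
            (algebraMap (Lau Z ι) D.K (D.s l) * algebraMap (Lau Z ι) D.K τh) := by
          rw [← h8, h7]
        _ = _ := by ring
    have h9 : (b : Lau Z ι) * (c l * (e * s)) ∈ MX.PP ι p := by
      rw [h5]
      exact Ideal.mul_mem_right _ _ ha
    rcases hPp.mem_or_mem h9 with h10 | h10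
    · exact b.2 h10
    · rcases hPp.mem_or_mem h10 with h11 | h11
      · exact hc l hl h11
      · exact (hPp.mem_or_mem h11).elim he hs
  -- a common denominator
  choose! a b ha hb hab using hrO
  let B : Lau Z ι := ∏ l, if F l then b l else 1
  have hB : B ∉ MX.PP ι p := by
    intro h1
    obtain ⟨l, _, h2⟩ := (hPp.prod_mem_iff).1 h1
    split_ifs at h2 with hl
    · exact hb l hl h2
    · have h3 : (algebraMap Z (Lau Z ι) 1) ∈ MX.PP ι p := by rwa [map_one]
      exact hp.ne_top ((Ideal.eq_top_iff_one p).2 (MX.C_mem_PP.1 h3))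
  have hBl : ∀ l, F l → ∃ q, q ∉ MX.PP ι p ∧ B = q * b l := by
    intro l hl
    refine ⟨∏ m ∈ Finset.univ.erase l, if F m then b m else 1, fun h1 => hB ?_, ?_⟩
    · show (∏ l, if F l then b l else 1) ∈ _
      rw [← Finset.prod_erase_mul _ _ (Finset.mem_univ l)]
      exact Ideal.mul_mem_right _ _ h1
    · show (∏ l, if F l then b l else 1) = _
      rw [← Finset.prod_erase_mul _ _ (Finset.mem_univ l), if_pos hl]
  choose! q hq hqB using hBl
  refine intAt_of_units (B • z) (fun l => q l * a l)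
    (fun l hl h1 => (hPp.mem_or_mem h1).elim (hq l hl) (ha l hl)) (fun l hl => ?_) (fun l hl => ?_)
  · rw [D.R_smul, hR1 l hl, smul_smul, hqB l hl, map_mul, mul_assoc, hab l hl, map_mul]
  · rw [D.R_smul, hR0 l hl, smul_zero]

open Classical in
/-- The case of two characters `l`, `l'` which are congruent modulo `x - x'`: the elements `h₁`,
`h₂` have characters `(δ, δ)` and `(x δ', x' δ')` at `l`, `l'`, and zero on the rest of `E`. -/
theorem intAt_pair [IsDedekindDomain Z] [Finite ι] [IsFractionRing (Lau Z ι) D.K]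
    [hp : p.IsPrime] (hp0 : p ≠ ⊥) {E : D.Λ → Prop} (hE : IntAt D p E) {l l' : D.Λ}
    (hne : l ≠ l') (hl : E l) (hl' : E l') (h₁ h₂ : D.H) (δ δ' x x' : Lau Z ι)
    (hδ : δ ∉ MX.PP ι p) (hδ' : δ' ∉ MX.PP ι p) (e1 : D.X l h₁ = δ) (e1' : D.X l' h₁ = δ)
    (e2 : D.X l h₂ = x * δ') (e2' : D.X l' h₂ = x' * δ')
    (h10 : ∀ m, E m → m ≠ l → m ≠ l' → D.X m h₁ = 0)
    (h20 : ∀ m, E m → m ≠ l → m ≠ l' → D.X m h₂ = 0) (hx : x ≠ x')
    (hdiv : ∀ b, x - x' ∣ D.X l b - D.X l' b) : IntAt D p (fun m => m = l ∨ m = l') := by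
  have hPp := MX.PP_prime (ι := ι) p
  have h1P : (1 : Lau Z ι) ∉ MX.PP ι p := fun h2 => by
    have h3 : (algebraMap Z (Lau Z ι) 1) ∈ MX.PP ι p := by rwa [map_one]
    exact hp.ne_top ((Ideal.eq_top_iff_one p).2 (MX.C_mem_PP.1 h3))
  refine intAt_theta hp0 hE (fun m hm => ?_) (x - x') (sub_ne_zero.2 hx)
    (fun m => if m = l then 1 else -1) (fun m _ => ?_) (fun b => ?_) (fun m hm => ?_)
  · rcases hm with rfl | rfl
    · exact hl
    · exact hl'
  · show (if m = l then (1 : Lau Z ι) else -1) ∉ _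
    split_ifs
    · exact h1P
    · intro h
      have h4 := (MX.PP ι p).neg_mem h
      rw [neg_neg] at h4
      exact h1P h4
  · have h1 : (∑ m, if m = l ∨ m = l' then (if m = l then (1 : Lau Z ι) else -1) * D.X m b else 0) =
        D.X l b - D.X l' b := by
      rw [Finset.sum_eq_add_of_mem l l' (Finset.mem_univ l) (Finset.mem_univ l') hne]
      · rw [if_pos (Or.inl rfl), if_pos rfl, if_pos (Or.inr rfl), if_neg (Ne.symm hne)]
        ring
      · rintro m _ ⟨h2, h3⟩
        rw [if_neg]
        rintro (h4 | h4)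
        · exact h2 h4
        · exact h3 h4
    refine (hdiv b).trans (dvd_of_eq ?_)
    rw [← h1]
    refine Finset.sum_congr rfl fun m _ => ?_
    by_cases h2 : m = l ∨ m = l'
    · rw [if_pos h2, if_pos h2]
    · rw [if_neg h2, if_neg h2]
  · rcases hm with rfl | rfl
    · refine ⟨δ • h₂ - (x' * δ') • h₁, δ * δ', fun h => (hPp.mem_or_mem h).elim hδ hδ', ?_, ?_⟩
      · rw [map_sub, map_smul, map_smul, e1, e2, smul_eq_mul, smul_eq_mul]
        ring
      · intro m' hm' hm1
        rw [map_sub, map_smul, map_smul, smul_eq_mul, smul_eq_mul]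
        by_cases h2 : m' = l'
        · rw [h2, e1', e2']
          ring
        · rw [h10 m' hm' hm1 h2, h20 m' hm' hm1 h2]
          ring
    · refine ⟨(x * δ') • h₁ - δ • h₂, δ * δ', fun h => (hPp.mem_or_mem h).elim hδ hδ', ?_, ?_⟩
      · rw [map_sub, map_smul, map_smul, e1', e2', smul_eq_mul, smul_eq_mul]
        ring
      · intro m' hm' hm1
        rw [map_sub, map_smul, map_smul, smul_eq_mul, smul_eq_mul]
        by_cases h2 : m' = l
        · rw [h2, e1, e2]
          ring
        · rw [h10 m' hm' h2 hm1, h20 m' hm' h2 hm1]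
          ring

end

end Pool.Agent.CMF
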