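import Pool.Agent.CMFn.Exc
import Pool.Agent.CMFn.MartConn
import Pool.Agent.CMFn.CSndC

/-! Project CMFn: from the certificates to the groups with a given Cartan matrix. -/

namespace Pool.Agent.CMFn

open Matrix Pool.Agent.CMFP

noncomputable section

variable {α : Type}

/-- The entries of a matrix given by lists. -/
def lget (z : α) (L : List (List α)) (i j : ℕ) : α := (L.getD i []).getD j z

namespace GD

variable (d : GD α)

/-- The generators are `1 - E_a c`. -/
def chkCar (c : ℕ → ℕ → α) : Bool :=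
  allN d.ng fun a => allN d.r fun i => allN d.r fun j =>
    d.c.eq (d.c.add (d.mat a i j) (cond (Nat.beq i a) (c a j) (d.c.nat 0)))
      (d.c.nat (cond (Nat.beq i j) 1 0))

/-- `c D = κ` and `κ ≠ 0`. -/
def chkDet (c D : ℕ → ℕ → α) (κ : α) : Bool :=
  cond (Bool.not (d.c.eq κ (d.c.nat 0))) (allN d.r fun i => allN d.r fun j =>
    d.c.eq (d.sum d.r fun k => d.c.mul (c i k) (D k j))
      (cond (Nat.beq i j) κ (d.c.nat 0))) false

variable {d} {φ : α → ℂ} {e : ℕ → ℂ} {r : ℕ}

lemma beq_fin {i j : Fin r} : Nat.beq i j = decide (i = j) := by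
  by_cases h : i = j
  · subst h; simp
  · have : Nat.beq i j = false := by
      rw [← Bool.not_eq_true, beq_iff]; exact fun h' => h (Fin.ext h')
    rw [this]; simp [h]

lemma gp_of_car {G : Type} [Group G] (hc : CRS d.c φ e) (hr : d.r = r) (hng : d.ng = r)
    {c : ℕ → ℕ → α} (hck : d.chkCar c = true) {C : Matrix (Fin r) (Fin r) ℂ}
    (hC : ∀ i j : Fin r, C i j = φ (c i j)) {V : G →* Matrix (Fin r) (Fin r) ℂ}
    (hV : Function.Injective V) {γ : Fin r → G} (hcl : Subgroup.closure (Set.range γ) = ⊤)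
    (hm : ∀ a i j, V (γ a) i j = (if i = j then 1 else 0) - (if i = a then C a j else 0)) :
    Gp d φ V (fun a => if h : a < r then γ ⟨a, h⟩ else 1) where
  hr := hr
  inj := hV
  cl := by
    rw [← hcl]
    congr 1
    ext x
    constructor
    · rintro ⟨a, ha, rfl⟩
      rw [hng] at ha
      exact ⟨⟨a, ha⟩, by simp [ha]⟩
    · rintro ⟨a, rfl⟩
      exact ⟨a, by rw [hng]; exact a.2, by simp⟩
  mat := by
    intro a ha
    rw [hng] at ha
    unfold chkCar at hck
    simp only [allN_iff, hc.eq, hc.add, hc.nat, hng, hr] at hck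
    ext i j
    have h1 := hck a ha i i.2 j j.2
    rw [dif_pos ha, hm, Matrix.of_apply]
    have h2 : Nat.beq i a = decide (i = (⟨a, ha⟩ : Fin r)) := beq_fin (i := i) (j := ⟨a, ha⟩)
    rw [h2, beq_fin] at h1
    by_cases h3 : i = ⟨a, ha⟩
    · rw [if_pos h3, hC]
      rw [decide_eq_true h3, cond_true] at h1
      by_cases h4 : i = j
      · rw [if_pos h4, ← add_sub_cancel_right (φ (d.mat a i j)) (φ (c a j)), h1]
        simp [h4]
      · rw [if_neg h4, ← add_sub_cancel_right (φ (d.mat a i j)) (φ (c a j)), h1]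
        simp [h4]
    · rw [if_neg h3]
      rw [decide_eq_false h3, cond_false, hc.nat] at h1
      by_cases h4 : i = j
      · rw [if_pos h4]
        simpa [h4] using h1.symm
      · rw [if_neg h4]
        simpa [h4] using h1.symm

lemma det_of_car (hc : CRS d.c φ e) (hr : d.r = r) {c D : ℕ → ℕ → α} {κ : α}
    (hck : d.chkDet c D κ = true) {C : Matrix (Fin r) (Fin r) ℂ}
    (hC : ∀ i j : Fin r, C i j = φ (c i j)) : C.det ≠ 0 := by
  unfold chkDet at hck
  simp only [cond_iff, allN_iff, hc.eq, hr, Bool.not_eq_true'] at hck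
  obtain ⟨h1, h2⟩ := hck
  rw [← Bool.not_eq_true, hc.eq, hc.nat] at h1
  have h3 : C * Matrix.of (fun i j : Fin r => φ (D i j)) = φ κ • (1 : Matrix (Fin r) (Fin r) ℂ) := by
    ext i j
    have h4 := h2 i i.2 j j.2
    rw [d.sum_eq φ hc, Finset.sum_range] at h4
    rw [Matrix.mul_apply, Matrix.smul_apply, Matrix.one_apply]
    have h5 : ∑ k : Fin r, C i k * Matrix.of (fun i j : Fin r => φ (D i j)) k j =
        ∑ k : Fin r, φ (d.c.mul (c i k) (D k j)) :=
      Finset.sum_congr rfl fun k _ => by rw [hc.mul, ← hC, Matrix.of_apply]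
    rw [h5, h4, beq_fin]
    by_cases h6 : i = j
    · simp [h6]
    · simp [h6, hc.nat]
  intro h0
  have h4 := congrArg Matrix.det h3
  rw [Matrix.det_mul, h0, zero_mul, Matrix.det_smul, Matrix.det_one, mul_one] at h4
  apply h1
  rw [Nat.cast_zero]
  exact eq_zero_of_pow_eq_zero h4.symm

end GD

/-- Martino's conjecture for a group with connected levels, from its certificate. -/
theorem mart_of_cert {d : GD α} {φ : α → ℂ} {e : ℕ → ℂ} {r : ℕ} (hc : CRS d.c φ e) (hr : d.r = r)
    (hng : d.ng = r) (hr2 : 2 ≤ r) {c D : ℕ → ℕ → α} {κ : α} (h1 : d.chkCar c = true)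
    (h2 : d.chkDet c D κ = true) {C : Matrix (Fin r) (Fin r) ℂ}
    (hC : ∀ i j : Fin r, C i j = φ (c i j)) {G : Type} [Group G] [Fintype G]
    (H : ∀ (V : G →* Matrix (Fin r) (Fin r) ℂ) (γ : ℕ → G), GD.Gp d φ V γ → Conn V) {n : ℕ}
    (W : G → Matrix (Fin n) (Fin n) ℂ) (hW : IsReflGroup W) (hWC : HasCartan W C) : Mart W := by
  obtain ⟨hn, h3⟩ := conn_of_cartan' hW hWC (by omega) (GD.det_of_car hc hr h2 hC)
    fun V hV γ hcl hm => H V _ (GD.gp_of_car hc hr hng h1 hC hV hcl hm)
  exact mart_conn (by omega) W hW h3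

end

end Pool.Agent.CMFn
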