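import Pool.Agent.CMFn.MtA
import Pool.Agent.CMFn.MartSplit
import Pool.Agent.CMFn.IsolT
import Pool.Agent.CMFn.CQC

/-! Project CMFn: from the certificates to the groups with a given Cartan matrix, groups with
isolated characters. -/

namespace Pool.Agent.CMFn

open Matrix Pool.Agent.CMFP

noncomputable section

section

variable {G : Type} [Group G] {r : ℕ}

/-- One class of reflections, of order two. -/
def OneCls (V : G →* Matrix (Fin r) (Fin r) ℂ) : Prop :=
  (∀ s, (V s - 1).rank = 1 → s * s = 1) ∧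
    ∀ s t, (V s - 1).rank = 1 → (V t - 1).rank = 1 → ∃ g : G, g * s * g⁻¹ = t

theorem oneCls_of_conj {V V' : G →* Matrix (Fin r) (Fin r) ℂ} {P : Matrix (Fin r) (Fin r) ℂ}
    (hP : IsUnit P) (h : ∀ g, V' g = P * V g * P⁻¹) (hV : OneCls V') : OneCls V := by
  obtain ⟨h1, h2⟩ := hV
  refine ⟨fun s hs => h1 s ?_, fun s t hs ht => h2 s t ?_ ?_⟩
  · rw [ConnTX.rank_conj hP h]; exact hs
  · rw [ConnTX.rank_conj hP h]; exact hs
  · rw [ConnTX.rank_conj hP h]; exact ht

theorem oneCls_of {V : G →* Matrix (Fin r) (Fin r) ℂ} (s₀ : G)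
    (h : ∀ x, (V x - 1).rank = 1 → x * x = 1 ∧ ∃ y, x = y * s₀ * y⁻¹) : OneCls V := by
  refine ⟨fun s hs => (h s hs).1, fun s t hs ht => ?_⟩
  obtain ⟨-, y, hy⟩ := h s hs
  obtain ⟨-, z, hz⟩ := h t ht
  refine ⟨z * y⁻¹, ?_⟩
  rw [hy, hz]
  group

end

/-- Martino's conjecture for groups with one class of reflections of order two, whose levels are
connected up to isolated characters, from the Cartan matrix. -/
theorem mart_of_cartan {G : Type} [Group G] [Fintype G] {n m r : ℕ}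
    (W : G → Matrix (Fin n) (Fin n) ℂ) {C : Matrix (Fin m) (Fin m) ℂ} (hW : IsReflGroup W)
    (hC : HasCartan W C) (hr : 2 ≤ r) (ι : Fin r → Fin m) (X : Fin m → Fin r → ℂ)
    (hX : ∀ i j, ∑ k, C j (ι k) * X i k = C j i) (hd : (C.submatrix ι ι).det ≠ 0)
    (H : ∀ V : G →* Matrix (Fin r) (Fin r) ℂ, Function.Injective V → ∀ γ : Fin m → G,
      Subgroup.closure (Set.range γ) = ⊤ →
      (∀ i, V (γ i) = 1 - vecMulVec (X i) (fun k => C i (ι k))) →
      OneCls V ∧ ConnX V (Isol V)) : Mart W := by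
  obtain ⟨hn, h1, h2⟩ := prop_of_cartan hW hC (by omega) ι X hX hd
    (fun _ V => OneCls V ∧ ConnX V (Isol V))
    (fun _ _ _ hP h hc => ⟨oneCls_of_conj hP h hc.1, connX_isol_of_conj hP h hc.2⟩) H
  refine mart_split (by omega) W hW h1.1 h1.2 ?_
  exact ConnX.mono h2 fun a _ ha => Or.inl ha

/-- The case of linearly independent roots. -/
theorem mart_of_certX {α : Type} {d : GD α} {φ : α → ℂ} {e : ℕ → ℂ} {r : ℕ} (hc : CRS d.c φ e)
    (hr : d.r = r) (hng : d.ng = r) (hr2 : 2 ≤ r) {c D : ℕ → ℕ → α} {κ : α}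
    (h1 : d.chkCar c = true) (h2 : d.chkDet c D κ = true) {C : Matrix (Fin r) (Fin r) ℂ}
    (hC : ∀ i j : Fin r, C i j = φ (c i j)) {G : Type} [Group G] [Fintype G]
    (H : ∀ (V : G →* Matrix (Fin r) (Fin r) ℂ) (γ : ℕ → G), GD.Gp d φ V γ →
      OneCls V ∧ ConnX V (Isol V)) {n : ℕ}
    (W : G → Matrix (Fin n) (Fin n) ℂ) (hW : IsReflGroup W) (hWC : HasCartan W C) : Mart W := by
  obtain ⟨hn, h3, h4⟩ := prop_of_cartan' hW hWC (by omega) (GD.det_of_car hc hr h2 hC)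
    (fun _ V => OneCls V ∧ ConnX V (Isol V))
    (fun _ _ _ hP h hc => ⟨oneCls_of_conj hP h hc.1, connX_isol_of_conj hP h hc.2⟩)
    fun V hV γ hcl hm => H V _ (GD.gp_of_car hc hr hng h1 hC hV hcl hm)
  refine mart_split (by omega) W hW h3.1 h3.2 ?_
  exact ConnX.mono h4 fun a _ ha => Or.inl ha

end

end Pool.Agent.CMFn
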