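import Pool.Agent.CMFn.G1
import Pool.Agent.CMFn.DunB
import Pool.Agent.CMFn.ExcDefs

/-! Project CMFn: in a reflection group generated by conjugate reflections of order two, all the
reflections have order two and are conjugate. -/

set_option linter.unusedSectionVars false

namespace Pool.Agent.CMFn

open Matrix DunAX DunBX

noncomputable section

namespace OneClX

variable {r : ℕ} {N : SG r} [Fintype N]

/-- A hyperplane inside another one. -/
lemma arr_eq_of_le (H H' : Arr N) (h : ∀ v ∈ H.1, lf H'.1 ⬝ᵥ v = 0) : H' = H := by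
  obtain ⟨hH0, hH⟩ := lf_spec H
  obtain ⟨hH0', hH'⟩ := lf_spec H'
  obtain ⟨p, hp⟩ := exists_one _ hH0
  have h1 : ∀ v, lf H'.1 ⬝ᵥ v = (lf H.1 ⬝ᵥ v) * (lf H'.1 ⬝ᵥ p) := by
    intro v
    have h2 : v - (lf H.1 ⬝ᵥ v) • p ∈ H.1 := by
      rw [hH, dotProduct_sub, dotProduct_smul, hp, smul_eq_mul, mul_one, sub_self]
    have h3 := h _ h2
    rw [dotProduct_sub, dotProduct_smul, smul_eq_mul, sub_eq_zero] at h3
    exact h3
  have h2 : lf H'.1 ⬝ᵥ p ≠ 0 := by
    intro h3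
    obtain ⟨q, hq⟩ := exists_one _ hH0'
    rw [h1, h3, mul_zero] at hq
    exact zero_ne_one hq
  apply Subtype.ext
  ext v
  rw [hH, hH', h1]
  constructor
  · intro h3
    exact (mul_eq_zero.1 h3).resolve_right h2
  · intro h3
    rw [h3, zero_mul]

/-- A point of `H` on no other hyperplane. -/
lemma exists_only (H : Arr N) : ∃ v ∈ H.1, ∀ H' : Arr N, H' ≠ H → lf H'.1 ⬝ᵥ v ≠ 0 := by
  classical
  let f : {H' : Arr N // H' ≠ H} → Module.Dual ℂ H.1 := fun H' =>
    { toFun := fun v => lf H'.1.1 ⬝ᵥ v.1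
      map_add' := fun v w => by rw [Submodule.coe_add, dotProduct_add]
      map_smul' := fun c v => by
        rw [Submodule.coe_smul, dotProduct_smul, RingHom.id_apply] }
  obtain ⟨x, hx⟩ := Module.Dual.exists_forall_ne_zero_of_forall_exists f (by
    intro H'
    by_contra hcon
    push Not at hcon
    exact H'.2 (arr_eq_of_le H H'.1 fun v hv => hcon ⟨v, hv⟩))
  exact ⟨x.1, x.2, fun H' hH' => hx ⟨H', hH'⟩⟩

/-- The forms are permuted up to scalars. -/
lemma act_lf (g : N) (H : Arr N) : ∃ c : ℂ, c ≠ 0 ∧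
    ∀ v, lf (actH g H).1 ⬝ᵥ (g.1.1 *ᵥ v) = c * (lf H.1 ⬝ᵥ v) := by
  obtain ⟨hH0, hH⟩ := lf_spec H
  obtain ⟨-, hH'⟩ := lf_spec (actH g H)
  obtain ⟨p, hp⟩ := exists_one _ hH0
  have h1 : ∀ v, lf (actH g H).1 ⬝ᵥ (g.1.1 *ᵥ v) = 0 ↔ lf H.1 ⬝ᵥ v = 0 := by
    intro v
    rw [← hH', ← hH]
    show g.1.1 *ᵥ v ∈ mapL g.1 H.1 ↔ _
    rw [mem_mapL, inv_mulVec]
  refine ⟨lf (actH g H).1 ⬝ᵥ (g.1.1 *ᵥ p), ?_, fun v => ?_⟩
  · rw [Ne, h1, hp]
    exact one_ne_zero
  · have h2 : lf H.1 ⬝ᵥ (v - (lf H.1 ⬝ᵥ v) • p) = 0 := by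
      rw [dotProduct_sub, dotProduct_smul, hp, smul_eq_mul, mul_one, sub_self]
    have h3 := (h1 _).2 h2
    rw [Matrix.mulVec_sub, Matrix.mulVec_smul, dotProduct_sub, dotProduct_smul, smul_eq_mul,
      sub_eq_zero] at h3
    rw [h3, mul_comm]

/-- The product of the forms of a set of hyperplanes. -/
def PO (Ω : Finset (Arr N)) (v : Fin r → ℂ) : ℂ := ∏ H ∈ Ω, lf H.1 ⬝ᵥ v

/-- Semi-invariance. -/
lemma semi (Ω : Finset (Arr N)) (hΩ : ∀ (g : N) (H : Arr N), H ∈ Ω ↔ actH g H ∈ Ω) (g : N) :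
    ∃ c : ℂ, ∀ v, PO Ω (g.1.1 *ᵥ v) = c * PO Ω v := by
  choose c _ hc using act_lf g
  refine ⟨∏ H ∈ Ω, c H, fun v => ?_⟩
  unfold PO
  rw [← Finset.prod_mul_distrib]
  symm
  refine Finset.prod_equiv (eqvH g) (fun H => hΩ g H) fun H _ => ?_
  exact (hc H v).symm

lemma exists_reg (hN : Nonempty (Arr N)) : ∃ v : Fin r → ℂ, ∀ H : Arr N, lf H.1 ⬝ᵥ v ≠ 0 := by
  classical
  let f : Arr N → Module.Dual ℂ (Fin r → ℂ) := fun H =>
    { toFun := fun v => lf H.1 ⬝ᵥ v
      map_add' := fun v w => dotProduct_add _ _ _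
      map_smul' := fun c v => by rw [dotProduct_smul, RingHom.id_apply] }
  obtain ⟨x, hx⟩ := Module.Dual.exists_forall_ne_zero_of_forall_exists f (by
    intro H
    obtain ⟨p, hp⟩ := exists_one _ (lf_spec H).1
    exact ⟨p, by rw [show f H p = lf H.1 ⬝ᵥ p from rfl, hp]; exact one_ne_zero⟩)
  exact ⟨x, fun H => hx H⟩

/-- The linear character of a stable set of hyperplanes. -/
theorem exists_chi (Ω : Finset (Arr N)) (hΩ : ∀ (g : N) (H : Arr N), H ∈ Ω ↔ actH g H ∈ Ω) :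
    ∃ χ : N →* ℂ, ∀ (s : N) (hs : IsRefl s.1),
      ((⟨fixL s.1, s.1, s.2, hs, rfl⟩ : Arr N) ∉ Ω → χ s = 1) ∧
      ((⟨fixL s.1, s.1, s.2, hs, rfl⟩ : Arr N) ∈ Ω → χ s = s.1.1.det) := by
  classical
  by_cases hne : Nonempty (Arr N)
  swap
  · exact ⟨1, fun s hs => absurd ⟨⟨fixL s.1, s.1, s.2, hs, rfl⟩⟩ hne⟩
  obtain ⟨v₁, hv₁⟩ := exists_reg hne
  have hP₁ : PO Ω v₁ ≠ 0 := Finset.prod_ne_zero_iff.2 fun H _ => hv₁ H
  choose c hc using semi Ω hΩ
  let χ : N →* ℂ :=
    { toFun := c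
      map_one' := by
        have h1 := hc 1 v₁
        have h2 : (1 : N).1.1 *ᵥ v₁ = v₁ := Matrix.one_mulVec v₁
        rw [h2] at h1
        exact (mul_right_cancel₀ hP₁ ((one_mul _).trans h1)).symm
      map_mul' := fun g h => by
        have h1 := hc (g * h) v₁
        have h2 : (g * h).1.1 *ᵥ v₁ = g.1.1 *ᵥ (h.1.1 *ᵥ v₁) := by
          rw [Matrix.mulVec_mulVec]; rfl
        rw [h2, hc g, hc h, ← mul_assoc] at h1
        exact (mul_right_cancel₀ hP₁ h1).symm }
  refine ⟨χ, fun s hs => ⟨fun h => ?_, fun h => ?_⟩⟩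
  · obtain ⟨v, hv, hv'⟩ := exists_only (⟨fixL s.1, s.1, s.2, hs, rfl⟩ : Arr N)
    have h1 := hc s v
    rw [DunAX.mem_fixL.1 hv] at h1
    have h2 : PO Ω v ≠ 0 := Finset.prod_ne_zero_iff.2 fun H hH => hv' H (by
      rintro rfl
      exact h hH)
    exact (mul_right_cancel₀ h2 ((one_mul _).trans h1)).symm
  · set H : Arr N := ⟨fixL s.1, s.1, s.2, hs, rfl⟩ with hH
    obtain ⟨v, hv, hv'⟩ := exists_only H
    obtain ⟨p, hp⟩ := exists_one _ (lf_spec H).1
    have hfix : ∀ u ∈ H.1, s.1.1 *ᵥ u = u := fun u hu => DunAX.mem_fixL.1 hu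
    have hlv : lf H.1 ⬝ᵥ v = 0 := ((lf_spec H).2 v).1 hv
    -- the other factors
    have hsplit : ∀ u, PO Ω u = (lf H.1 ⬝ᵥ u) * PO (Ω.erase H) u := fun u =>
      (Finset.mul_prod_erase Ω (fun H => lf H.1 ⬝ᵥ u) h).symm
    have hR : PO (Ω.erase H) v ≠ 0 := Finset.prod_ne_zero_iff.2 fun H' hH' =>
      hv' H' (Finset.ne_of_mem_erase hH')
    have hcont : ∀ Ω' : Finset (Arr N), Continuous (PO Ω') := by
      intro Ω'
      unfold PO
      refine continuous_finsetProd _ fun H' _ => ?_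
      exact Continuous.dotProduct continuous_const continuous_id
    have key : ∀ z : ℂ, z ≠ 0 → s.1.1.det * PO (Ω.erase H) (s.1.1 *ᵥ (v + z • p)) =
        c s * PO (Ω.erase H) (v + z • p) := by
      intro z hz
      have h1 := hc s (v + z • p)
      rw [hsplit, hsplit (v + z • p), lf_mul H s hfix] at h1
      have h2 : lf H.1 ⬝ᵥ (v + z • p) = z := by
        rw [dotProduct_add, dotProduct_smul, hlv, hp, zero_add, smul_eq_mul, mul_one]
      rw [h2] at h1
      apply mul_left_cancel₀ hz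
      linear_combination h1
    have h3 : (fun z : ℂ => s.1.1.det * PO (Ω.erase H) (s.1.1 *ᵥ (v + z • p))) =
        fun z => c s * PO (Ω.erase H) (v + z • p) := by
      have hline : Continuous fun z : ℂ => v + z • p := by fun_prop
      have hm : Continuous fun z : ℂ => s.1.1 *ᵥ (v + z • p) :=
        Continuous.matrix_mulVec continuous_const hline
      refine Continuous.ext_on (dense_compl_singleton (0 : ℂ)) ?_ ?_ fun z hz => key z hz
      · exact continuous_const.mul ((hcont _).comp hm)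
      · exact continuous_const.mul ((hcont _).comp hline)
    have h4 := congrFun h3 0
    simp only [zero_smul, add_zero] at h4
    rw [hfix v hv] at h4
    exact (mul_right_cancel₀ hR h4).symm

/-- Every hyperplane is in the orbit of the hyperplane of a generator. -/
theorem exists_orbit (T : Set N) (hT : Subgroup.closure T = ⊤) (hr : ∀ t ∈ T, IsRefl t.1)
    (H : Arr N) : ∃ t ∈ T, ∃ g : N, (actH g H).1 = fixL t.1 := by
  classical
  by_contra hcon
  push Not at hcon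
  let Ω : Finset (Arr N) := Finset.univ.filter fun H' => ∃ g : N, actH g H = H'
  have hact : ∀ (g h : N) (H' : Arr N), actH (g * h) H' = actH g (actH h H') := by
    intro g h H'
    apply Subtype.ext
    show mapL (g * h).1 H'.1 = mapL g.1 (mapL h.1 H'.1)
    rw [mapL_mapL]
    rfl
  have hone : ∀ H' : Arr N, actH 1 H' = H' := by
    intro H'
    apply Subtype.ext
    show mapL (1 : N).1 H'.1 = H'.1
    exact mapL_one H'.1
  have hΩ : ∀ (g : N) (H' : Arr N), H' ∈ Ω ↔ actH g H' ∈ Ω := by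
    intro g H'
    simp only [Ω, Finset.mem_filter, Finset.mem_univ, true_and]
    constructor
    · rintro ⟨h, rfl⟩
      exact ⟨g * h, hact g h H⟩
    · rintro ⟨h, hh⟩
      refine ⟨g⁻¹ * h, ?_⟩
      rw [hact, hh, ← hact, inv_mul_cancel, hone]
  obtain ⟨χ, hχ⟩ := exists_chi Ω hΩ
  have h1 : ∀ g : N, χ g = 1 := by
    intro g
    have hg : g ∈ Subgroup.closure T := by rw [hT]; trivial
    induction hg using Subgroup.closure_induction with
    | mem t ht =>
      refine (hχ t (hr t ht)).1 fun hm => ?_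
      obtain ⟨g, hg⟩ := (Finset.mem_filter.1 hm).2
      exact hcon t ht g (congrArg Subtype.val hg)
    | one => exact map_one χ
    | mul x y _ _ hx hy => rw [map_mul, hx, hy, mul_one]
    | inv x _ hx =>
      have h2 : χ x * χ x⁻¹ = 1 := by rw [← map_mul, mul_inv_cancel, map_one]
      rwa [hx, one_mul] at h2
  obtain ⟨H, s, hsN, hs, rfl⟩ := H
  have h2 := (hχ ⟨s, hsN⟩ hs).2 (Finset.mem_filter.2 ⟨Finset.mem_univ (α := Arr N) _, 1, hone _⟩)
  rw [h1] at h2
  have h3 : (⟨s, hsN⟩ : N) = 1 := by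
    refine refl_ext (⟨fixL s, s, hsN, hs, rfl⟩ : Arr N) ⟨s, hsN⟩ 1
      (fun v hv => DunAX.mem_fixL.1 hv) (fun v _ => Matrix.one_mulVec v) ?_
    exact h2.symm.trans Matrix.det_one.symm
  have h4 : s = 1 := congrArg Subtype.val h3
  rw [h4] at hs
  have h5 : ((1 : GL (Fin r) ℂ).1 - 1 : Matrix (Fin r) (Fin r) ℂ).rank = 1 := hs
  rw [Units.val_one, sub_self, Matrix.rank_zero] at h5
  exact zero_ne_one h5

/-- All reflections have determinant `-1`, if the generating ones have. -/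
theorem det_refl (T : Set N) (hT : Subgroup.closure T = ⊤) (hr : ∀ t ∈ T, IsRefl t.1)
    (hd : ∀ t ∈ T, t.1.1.det = -1) (s : N) (hs : IsRefl s.1) : s.1.1.det = -1 := by
  classical
  obtain ⟨χ, hχ⟩ := exists_chi (Finset.univ : Finset (Arr N)) (fun g H => by simp)
  have h1 : ∀ g : N, χ g = 1 ∨ χ g = -1 := by
    intro g
    have hg : g ∈ Subgroup.closure T := by rw [hT]; trivial
    induction hg using Subgroup.closure_induction with
    | mem t ht =>
      right
      rw [(hχ t (hr t ht)).2 (Finset.mem_univ (α := Arr N) _), hd t ht]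
    | one => left; exact map_one χ
    | mul x y _ _ hx hy =>
      rw [map_mul]
      rcases hx with hx | hx <;> rcases hy with hy | hy <;> rw [hx, hy] <;> simp
    | inv x _ hx =>
      have h2 : χ x * χ x⁻¹ = 1 := by rw [← map_mul, mul_inv_cancel, map_one]
      rcases hx with hx | hx <;> rw [hx] at h2
      · left; rwa [one_mul] at h2
      · right; linear_combination -h2
  have h2 := (hχ s hs).2 (Finset.mem_univ (α := Arr N) _)
  rcases h1 s with h3 | h3
  · exfalso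
    rw [h3] at h2
    have h4 : s = 1 := by
      refine refl_ext (⟨fixL s.1, s.1, s.2, hs, rfl⟩ : Arr N) s 1
        (fun v hv => DunAX.mem_fixL.1 hv) (fun v _ => Matrix.one_mulVec v) ?_
      exact h2.symm.trans Matrix.det_one.symm
    rw [h4] at hs
    have h5 : ((1 : N).1.1 - 1 : Matrix (Fin r) (Fin r) ℂ).rank = 1 := hs
    have h6 : ((1 : N).1.1 - 1 : Matrix (Fin r) (Fin r) ℂ) = 0 := sub_self _
    rw [h6, Matrix.rank_zero] at h5
    exact zero_ne_one h5
  · rw [← h2, h3]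

lemma sq_of_det (s : N) (hs : IsRefl s.1) (hd : s.1.1.det = -1) : s * s = 1 := by
  refine refl_ext (⟨fixL s.1, s.1, s.2, hs, rfl⟩ : Arr N) (s * s) 1 (fun v hv => ?_)
    (fun v _ => Matrix.one_mulVec v) ?_
  · have h1 := DunAX.mem_fixL.1 hv
    show (s.1.1 * s.1.1) *ᵥ v = v
    rw [← Matrix.mulVec_mulVec, h1, h1]
  · show (s.1.1 * s.1.1).det = (1 : Matrix (Fin r) (Fin r) ℂ).det
    rw [Matrix.det_mul, hd, Matrix.det_one]
    norm_num

/-- All the reflections are conjugate. -/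
theorem conj_refl (T : Set N) (hT : Subgroup.closure T = ⊤) (hr : ∀ t ∈ T, IsRefl t.1)
    (hd : ∀ t ∈ T, t.1.1.det = -1) (hc : ∀ t ∈ T, ∀ t' ∈ T, ∃ g : N, g * t * g⁻¹ = t')
    (s s' : N) (hs : IsRefl s.1) (hs' : IsRefl s'.1) : ∃ g : N, g * s * g⁻¹ = s' := by
  have key : ∀ (s : N), IsRefl s.1 → ∃ t ∈ T, ∃ g : N, g * s * g⁻¹ = t := by
    intro s hs
    obtain ⟨t, ht, g, hg⟩ := exists_orbit T hT hr (⟨fixL s.1, s.1, s.2, hs, rfl⟩ : Arr N)
    refine ⟨t, ht, g, ?_⟩
    refine refl_ext (⟨fixL t.1, t.1, t.2, hr t ht, rfl⟩ : Arr N) (g * s * g⁻¹) t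
      (fun v hv => ?_) (fun v hv => DunAX.mem_fixL.1 hv) ?_
    · have h1 : v ∈ mapL g.1 (fixL s.1) := by
        rw [show mapL g.1 (fixL s.1) = fixL t.1 from hg]
        exact hv
      rw [← fixL_conj] at h1
      exact DunAX.mem_fixL.1 h1
    · have h1 : (g * s * g⁻¹).1.1.det = s.1.1.det := det_conj g.1 s.1
      rw [h1, det_refl T hT hr hd s hs, hd t ht]
  obtain ⟨t, ht, g, hg⟩ := key s hs
  obtain ⟨t', ht', g', hg'⟩ := key s' hs'
  obtain ⟨h, hh⟩ := hc t ht t' ht'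
  refine ⟨g'⁻¹ * h * g, ?_⟩
  have h1 : g'⁻¹ * h * g * s * (g'⁻¹ * h * g)⁻¹ = g'⁻¹ * (h * (g * s * g⁻¹) * h⁻¹) * g' := by
    group
  rw [h1, hg, hh, ← hg']
  group

end OneClX

open OneClX G1

section pair

variable {n : ℕ} {G : Type} [Group G] [Finite G] {V : G → Matrix (Fin n) (Fin n) ℂ}

/-- In a reflection group generated by conjugate reflections of order two, all the reflections have
order two and are conjugate. -/
theorem one_class (hV : CMFP.IsReflGroup V) {ι : Type} (γ : ι → G)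
    (hγ : Subgroup.closure (Set.range γ) = ⊤) (h1 : ∀ a, CMFP.IsRefl V (γ a))
    (h2 : ∀ a, (V (γ a)).det = -1) (h3 : ∀ a b, ∃ g : G, g * γ a * g⁻¹ = γ b) :
    (∀ s, CMFP.IsRefl V s → s * s = 1) ∧
      ∀ s t, CMFP.IsRefl V s → CMFP.IsRefl V t → ∃ g : G, g * s * g⁻¹ = t := by
  classical
  let e := iso hV.1 hV.2.1
  let T : Set (img hV.1) := Set.range fun a => e (γ a)
  have hT : Subgroup.closure T = ⊤ := by
    have h4 : T = e.toMonoidHom '' Set.range γ := by
      rw [← Set.range_comp]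
      rfl
    rw [h4, ← MonoidHom.map_closure, hγ]
    exact Subgroup.map_top_of_surjective _ e.surjective
  have hr : ∀ t ∈ T, IsRefl t.1 := by
    rintro _ ⟨a, rfl⟩
    exact (isRefl_iso hV.1 hV.2.1 _).2 (h1 a)
  have hd : ∀ t ∈ T, t.1.1.det = -1 := by
    rintro _ ⟨a, rfl⟩
    exact h2 a
  have hc : ∀ t ∈ T, ∀ t' ∈ T, ∃ g : img hV.1, g * t * g⁻¹ = t' := by
    rintro _ ⟨a, rfl⟩ _ ⟨b, rfl⟩
    obtain ⟨g, hg⟩ := h3 a b
    refine ⟨e g, ?_⟩
    show e g * e (γ a) * (e g)⁻¹ = e (γ b)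
    rw [← hg, map_mul, map_mul, map_inv]
  refine ⟨fun s hs => ?_, fun s t hs ht => ?_⟩
  · have hs' : IsRefl (e s).1 := (isRefl_iso hV.1 hV.2.1 s).2 hs
    have h4 := sq_of_det (e s) hs' (det_refl T hT hr hd _ hs')
    rw [← map_mul] at h4
    exact e.injective (h4.trans (map_one e).symm)
  · obtain ⟨g, hg⟩ := conj_refl T hT hr hd hc (e s) (e t)
      ((isRefl_iso hV.1 hV.2.1 s).2 hs) ((isRefl_iso hV.1 hV.2.1 t).2 ht)
    refine ⟨e.symm g, e.injective ?_⟩
    rw [map_mul, map_mul, map_inv, MulEquiv.apply_symm_apply, hg]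

/-- The same for the groups given by a Cartan matrix: the diagonal entries are `2`, and the graph
of the braid relations of length three is connected. -/
theorem one_class_of_cartan (hV : CMFP.IsReflGroup V) {m : ℕ} {C : Matrix (Fin m) (Fin m) ℂ}
    (hC : CMFP.HasCartan V C) (hd : ∀ i, C i i = 2) (i₀ : Fin m) (μ : Fin m → ℕ)
    (hμ : ∀ i, i ≠ i₀ → ∃ j, μ j < μ i ∧ C i j * C j i = 1) :
    (∀ s, CMFP.IsRefl V s → s * s = 1) ∧
      ∀ s t, CMFP.IsRefl V s → CMFP.IsRefl V t → ∃ g : G, g * s * g⁻¹ = t := by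
  obtain ⟨γ, a, b, hγ, hs, hab⟩ := hC
  have hsub : ∀ i, V (γ i) - 1 = vecMulVec (-a i) (b i) := fun i => by
    rw [hs, Matrix.neg_vecMulVec]; abel
  have hrefl : ∀ i, CMFP.IsRefl V (γ i) := by
    intro i
    unfold CMFP.IsRefl
    rw [hsub]
    have h2 : (vecMulVec (-a i) (b i)).rank ≤ 1 := Matrix.rank_vecMulVec_le _ _
    have h3 : (vecMulVec (-a i) (b i)).rank ≠ 0 := by
      intro h4
      have h5 : Module.finrank ℂ (LinearMap.range (vecMulVec (-a i) (b i)).mulVecLin) = 0 := h4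
      rw [Submodule.finrank_eq_zero] at h5
      have h6 : vecMulVec (-a i) (b i) *ᵥ a i = 0 := by
        have : (vecMulVec (-a i) (b i)).mulVecLin (a i) ∈
            LinearMap.range (vecMulVec (-a i) (b i)).mulVecLin := ⟨a i, rfl⟩
        rw [h5, Submodule.mem_bot] at this
        exact this
      rw [DunAX.vecMulVec_mulVec', hab, hd] at h6
      have h7 : a i = 0 := neg_eq_zero.1 ((smul_eq_zero.1 h6).resolve_left two_ne_zero)
      have h8 := hab i i
      rw [h7, dotProduct_zero, hd] at h8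
      exact two_ne_zero h8.symm
    omega
  have hdet : ∀ i, (V (γ i)).det = -1 := by
    intro i
    have h2 : V (γ i) = 1 + vecMulVec (-a i) (b i) := by
      rw [hs, sub_eq_add_neg, Matrix.neg_vecMulVec]
    rw [h2, DunAX.det_one_add_vec, dotProduct_neg, hab, hd]
    norm_num
  have hbraid : ∀ i j, C i j * C j i = 1 → γ i * γ j * γ i = γ j * γ i * γ j := by
    intro i j hij
    apply hV.2.1
    rw [hV.1.2, hV.1.2, hV.1.2, hV.1.2]
    apply Matrix.ext_of_mulVec_single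
    intro k
    have hact : ∀ i v, V (γ i) *ᵥ v = v - (b i ⬝ᵥ v) • a i := by
      intro i v
      rw [hs, Matrix.sub_mulVec, Matrix.one_mulVec, DunAX.vecMulVec_mulVec']
    rw [← Matrix.mulVec_mulVec, ← Matrix.mulVec_mulVec, ← Matrix.mulVec_mulVec,
      ← Matrix.mulVec_mulVec]
    generalize (Pi.single k 1 : Fin n → ℂ) = v
    rw [hact i v, hact j v, hact j (v - _), hact i (v - (b j ⬝ᵥ v) • a j), hact i (_ - _),
      hact j (v - _ - _)]
    simp only [dotProduct_sub, dotProduct_smul, hab, hd, smul_eq_mul]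
    have h1 : C i j * C j i = 1 := hij
    funext x
    simp only [Pi.sub_apply, Pi.smul_apply, smul_eq_mul]
    linear_combination (a j x * (b j ⬝ᵥ v) - a i x * (b i ⬝ᵥ v)) * h1
  have hstep : ∀ i j, C i j * C j i = 1 → ∃ g : G, g * γ i * g⁻¹ = γ j := by
    intro i j hij
    have h1 := hbraid i j hij
    refine ⟨γ i * γ j, ?_⟩
    rw [h1]
    group
  have hzero : ∀ i, ∃ g : G, g * γ i * g⁻¹ = γ i₀ := by
    intro i
    induction hk : μ i using Nat.strong_induction_on generalizing i with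
    | _ k ih =>
      by_cases h0 : i = i₀
      · exact ⟨1, by rw [h0]; simp⟩
      · obtain ⟨j, hj, hij⟩ := hμ i h0
        obtain ⟨g, hg⟩ := ih (μ j) (by omega) j rfl
        obtain ⟨h, hh⟩ := hstep i j hij
        refine ⟨g * h, ?_⟩
        rw [← hg, ← hh]
        group
  refine one_class hV γ hγ hrefl hdet fun i j => ?_
  obtain ⟨g, hg⟩ := hzero i
  obtain ⟨h, hh⟩ := hzero j
  refine ⟨h⁻¹ * g, ?_⟩
  have h1 : h⁻¹ * g * γ i * (h⁻¹ * g)⁻¹ = h⁻¹ * (g * γ i * g⁻¹) * h := by group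
  rw [h1, hg, ← hh]
  group

end pair

end

end Pool.Agent.CMFn
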