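import Pool.Agent.CMFn.MtB
import Pool.Agent.CMFn.OneCl
import Pool.Agent.CMFn.MartSplit3
import Pool.Agent.CMFn.IsolT2

/-! Project CMFn: groups with one class of reflections of order two, read off from the Cartan
matrix. -/

namespace Pool.Agent.CMFn

open Matrix Pool.Agent.CMFP

noncomputable section

/-- The isolated characters (all criteria for reflections of order two). -/
def IsolAny {G : Type} [Group G] [Fintype G] {r : ℕ} (V : G →* Matrix (Fin r) (Fin r) ℂ)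
    (a : MRep G) : Prop := Isol V a ∨ IsolE V a ∨ IsolC V a

theorem connX_any_of_conj {G : Type} [Group G] [Fintype G] {r : ℕ}
    {V V' : G →* Matrix (Fin r) (Fin r) ℂ} {P : Matrix (Fin r) (Fin r) ℂ}
    (hP : IsUnit P) (h : ∀ g, V' g = P * V g * P⁻¹) (hc : ConnX V' (IsolAny V')) :
    ConnX V (IsolAny V) :=
  connX_or3_of_conj hP h hc

/-- Martino's conjecture from connectedness up to isolated characters, any number of generators. -/
theorem mart_of_cartanC {G : Type} [Group G] [Fintype G] {n m r : ℕ}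
    (W : G → Matrix (Fin n) (Fin n) ℂ) {C : Matrix (Fin m) (Fin m) ℂ} (hW : IsReflGroup W)
    (hC : HasCartan W C) (hr : 2 ≤ r) (h2 : ∀ i, C i i = 2) (i₀ : Fin m) (μ : Fin m → ℕ)
    (hμ : ∀ i, i ≠ i₀ → ∃ j, μ j < μ i ∧ C i j * C j i = 1)
    (ι : Fin r → Fin m) (X : Fin m → Fin r → ℂ)
    (hX : ∀ i j, ∑ k, C j (ι k) * X i k = C j i) (hd : (C.submatrix ι ι).det ≠ 0)
    (H : ∀ V : G →* Matrix (Fin r) (Fin r) ℂ, Function.Injective V → ∀ γ : Fin m → G,
      Subgroup.closure (Set.range γ) = ⊤ →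
      (∀ i, V (γ i) = 1 - vecMulVec (X i) (fun k => C i (ι k))) →
      ConnX V (IsolAny V)) : Mart W := by
  obtain ⟨h3, h4⟩ := one_class_of_cartan hW hC h2 i₀ μ hμ
  obtain ⟨hn, h5⟩ := prop_of_cartan hW hC (by omega) ι X hX hd
    (fun _ V => ConnX V (IsolAny V)) (fun _ _ _ hP h hc => connX_any_of_conj hP h hc) H
  exact mart_splitC (by omega) W hW h3 h4 h5

/-- The case of linearly independent roots. -/
theorem mart_of_certC {α : Type} {d : GD α} {φ : α → ℂ} {e : ℕ → ℂ} {r : ℕ}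
    (hc : CRS d.c φ e)
    (hr : d.r = r) (hng : d.ng = r) (hr2 : 2 ≤ r) {c D : ℕ → ℕ → α} {κ : α}
    (h1 : d.chkCar c = true) (h2 : d.chkDet c D κ = true) {C : Matrix (Fin r) (Fin r) ℂ}
    (hC : ∀ i j : Fin r, C i j = φ (c i j)) (hC2 : ∀ i, C i i = 2) (i₀ : Fin r)
    (μ : Fin r → ℕ) (hμ : ∀ i, i ≠ i₀ → ∃ j, μ j < μ i ∧ C i j * C j i = 1)
    {G : Type} [Group G] [Fintype G]
    (H : ∀ (V : G →* Matrix (Fin r) (Fin r) ℂ) (γ : ℕ → G), GD.Gp d φ V γ →
      ConnX V (IsolAny V)) {n : ℕ}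
    (W : G → Matrix (Fin n) (Fin n) ℂ) (hW : IsReflGroup W) (hWC : HasCartan W C) : Mart W := by
  obtain ⟨h3, h4⟩ := one_class_of_cartan hW hWC hC2 i₀ μ hμ
  obtain ⟨hn, h5⟩ := prop_of_cartan' hW hWC (by omega) (GD.det_of_car hc hr h2 hC)
    (fun _ V => ConnX V (IsolAny V)) (fun _ _ _ hP h hc => connX_any_of_conj hP h hc)
    fun V hV γ hcl hm => H V _ (GD.gp_of_car hc hr hng h1 hC hV hcl hm)
  exact mart_splitC (by omega) W hW h3 h4 h5

end

end Pool.Agent.CMFn
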