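import Pool.Agent.CMFn.MtA
import Pool.Agent.CMFn.MartSplit3
import Pool.Agent.CMFn.IsolT
import Pool.Agent.CMFn.CQ3

/-! Project CMFn: from the certificates to the groups with a given Cartan matrix, groups generated
by reflections of order three with isolated characters.  helper22 (after MtB). -/

namespace Pool.Agent.CMFn

open Matrix Pool.Agent.CMFP

noncomputable section

section

variable {G : Type} [Group G] {r : ℕ}

/-- One class of reflections up to inversion, of order three. -/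
def OneCls3 (V : G →* Matrix (Fin r) (Fin r) ℂ) : Prop :=
  (∀ s, (V s - 1).rank = 1 → s ^ 3 = 1) ∧
    ∀ s t, (V s - 1).rank = 1 → (V t - 1).rank = 1 →
      ∃ g : G, g * s * g⁻¹ = t ∨ g * s * g⁻¹ = t ^ 2

theorem oneCls3_of_conj {V V' : G →* Matrix (Fin r) (Fin r) ℂ} {P : Matrix (Fin r) (Fin r) ℂ}
    (hP : IsUnit P) (h : ∀ g, V' g = P * V g * P⁻¹) (hV : OneCls3 V') : OneCls3 V := by
  obtain ⟨h1, h2⟩ := hV
  refine ⟨fun s hs => h1 s ?_, fun s t hs ht => h2 s t ?_ ?_⟩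
  · rw [ConnTX.rank_conj hP h]; exact hs
  · rw [ConnTX.rank_conj hP h]; exact hs
  · rw [ConnTX.rank_conj hP h]; exact ht

end

namespace MtC3X

open ConnTX IsolTX

variable {G : Type} [Group G] [Fintype G] {r : ℕ} {V V' : G →* Matrix (Fin r) (Fin r) ℂ}
  {P : Matrix (Fin r) (Fin r) ℂ}

lemma psum3_conj (hP : IsUnit P) (h : ∀ g, V' g = P * V g * P⁻¹) (p : Fin r → ℂ) (j : ℕ)
    (a : MRep G) : psum3 V' (P *ᵥ p) j a = psum3 V p j a := by
  unfold psum3
  refine Finset.sum_congr rfl fun g _ => ?_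
  rw [wp_conj hP h, IsolTX.det_conj hP h]

lemma isolC3_conj' (hP : IsUnit P) (h : ∀ g, V' g = P * V g * P⁻¹) (a : MRep G)
    (ha : IsolC3 V a) : IsolC3 V' a := by
  obtain ⟨m, p, j, u, h1, h2⟩ := ha
  refine ⟨m, fun i => P *ᵥ p i, j, u, ?_, fun b hb hab => ?_⟩
  · simp only [psum3_conj hP h, wp_conj hP h]
    exact h1
  · simp only [psum3_conj hP h, wp_conj hP h]
    exact h2 b hb ((sameLevel_conj hP h a b).1 hab)

/-- Conjugation of the reflection representation. -/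
theorem isolC3_conj (hP : IsUnit P) (h : ∀ g, V' g = P * V g * P⁻¹) (a : MRep G) :
    IsolC3 V' a ↔ IsolC3 V a :=
  ⟨isolC3_conj' (isUnit_inv' hP) (symm_conj hP h) a, isolC3_conj' hP h a⟩

theorem connX_isolC3_of_conj (hP : IsUnit P) (h : ∀ g, V' g = P * V g * P⁻¹)
    (hc : ConnX V' (IsolC3 V')) : ConnX V (IsolC3 V) :=
  connX_congr (isolC3_conj hP h) (connX_of_conj hP h hc)

end MtC3X

/-- The case of linearly independent roots. -/
theorem mart3_of_certX {α : Type} {d : GD α} {φ : α → ℂ} {e : ℕ → ℂ} {r : ℕ} (hc : CRS d.c φ e)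
    (hr : d.r = r) (hng : d.ng = r) (hr2 : 2 ≤ r) {c D : ℕ → ℕ → α} {κ : α}
    (h1 : d.chkCar c = true) (h2 : d.chkDet c D κ = true) {C : Matrix (Fin r) (Fin r) ℂ}
    (hC : ∀ i j : Fin r, C i j = φ (c i j)) {G : Type} [Group G] [Fintype G]
    (H : ∀ (V : G →* Matrix (Fin r) (Fin r) ℂ) (γ : ℕ → G), GD.Gp d φ V γ →
      OneCls3 V ∧ ConnX V (IsolC3 V)) {n : ℕ}
    (W : G → Matrix (Fin n) (Fin n) ℂ) (hW : IsReflGroup W) (hWC : HasCartan W C) : Mart W := by
  obtain ⟨hn, h3, h4⟩ := prop_of_cartan' hW hWC (by omega) (GD.det_of_car hc hr h2 hC)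
    (fun _ V => OneCls3 V ∧ ConnX V (IsolC3 V))
    (fun _ _ _ hP h hc => ⟨oneCls3_of_conj hP h hc.1, MtC3X.connX_isolC3_of_conj hP h hc.2⟩)
    fun V hV γ hcl hm => H V _ (GD.gp_of_car hc hr hng h1 hC hV hcl hm)
  exact mart_split3 (by omega) W hW h3.1 h3.2 h4

end

end Pool.Agent.CMFn
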