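import Pool.Agent.CMFn.MtB
import Pool.Agent.CMFn.CkQE6

/-! Project CMFn: Martino's conjecture for the group E6. -/

namespace Pool.Agent.CMFn.E6

open Matrix Pool.Agent.CMFP

noncomputable section

/-- The Cartan matrix. -/
def car : List (List PN) :=
  [[⟨2, 0⟩, ⟨0, 0⟩, ⟨0, 1⟩, ⟨0, 0⟩, ⟨0, 0⟩, ⟨0, 0⟩],
   [⟨0, 0⟩, ⟨2, 0⟩, ⟨0, 0⟩, ⟨0, 1⟩, ⟨0, 0⟩, ⟨0, 0⟩],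
   [⟨0, 1⟩, ⟨0, 0⟩, ⟨2, 0⟩, ⟨0, 1⟩, ⟨0, 0⟩, ⟨0, 0⟩],
   [⟨0, 0⟩, ⟨0, 1⟩, ⟨0, 1⟩, ⟨2, 0⟩, ⟨0, 1⟩, ⟨0, 0⟩],
   [⟨0, 0⟩, ⟨0, 0⟩, ⟨0, 0⟩, ⟨0, 1⟩, ⟨2, 0⟩, ⟨0, 1⟩],
   [⟨0, 0⟩, ⟨0, 0⟩, ⟨0, 0⟩, ⟨0, 0⟩, ⟨0, 1⟩, ⟨2, 0⟩]]

/-- Its adjoint matrix. -/
def adj : List (List PN) :=
  [[⟨4, 0⟩, ⟨3, 0⟩, ⟨5, 0⟩, ⟨6, 0⟩, ⟨4, 0⟩, ⟨2, 0⟩],
   [⟨3, 0⟩, ⟨6, 0⟩, ⟨6, 0⟩, ⟨9, 0⟩, ⟨6, 0⟩, ⟨3, 0⟩],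
   [⟨5, 0⟩, ⟨6, 0⟩, ⟨10, 0⟩, ⟨12, 0⟩, ⟨8, 0⟩, ⟨4, 0⟩],
   [⟨6, 0⟩, ⟨9, 0⟩, ⟨12, 0⟩, ⟨18, 0⟩, ⟨12, 0⟩, ⟨6, 0⟩],
   [⟨4, 0⟩, ⟨6, 0⟩, ⟨8, 0⟩, ⟨12, 0⟩, ⟨10, 0⟩, ⟨5, 0⟩],
   [⟨2, 0⟩, ⟨3, 0⟩, ⟨4, 0⟩, ⟨6, 0⟩, ⟨5, 0⟩, ⟨4, 0⟩]]

/-- Its determinant. -/
def kap : PN := ⟨3, 0⟩

theorem ck_car : dat.chkCar (lget ⟨0, 0⟩ car) = true := by decide +kernel

theorem ck_det : dat.chkDet (lget ⟨0, 0⟩ car) (lget ⟨0, 0⟩ adj) kap = true := by decide +kernel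

theorem car_int : ∀ i j : Fin 6, CartanMatrix.E₆ i j =
    ((lget ⟨0, 0⟩ car i j).p : ℤ) - (lget ⟨0, 0⟩ car i j).n := by decide

theorem car_eq (i j : Fin 6) : cE6 i j = fz (lget ⟨0, 0⟩ car i j) := by
  show ((CartanMatrix.E₆ i j : ℤ) : ℂ) = _
  rw [car_int]
  unfold fz
  push_cast
  rfl

theorem mart {G : Type} [Group G] [Fintype G] {n : ℕ} (W : G → Matrix (Fin n) (Fin n) ℂ)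
    (hW : IsReflGroup W) (hC : HasCartan W cE6) : Mart W := by
  have hc := crs_z
  refine mart_of_certX (r := 6) hc rfl rfl (by norm_num) ck_car ck_det car_eq
    (fun V γ hG => ⟨?_, ?_⟩) W hW hC
  · obtain ⟨lt, a, O⟩ := GD.cert hc hG ckA ckB
    exact oneCls_of (γ op0.gen) fun x hx =>
      GD.one_class hc hG ckA ckB O (by simp [dat]) (by decide) q_all hx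
  · exact connIsol hG

end

end Pool.Agent.CMFn.E6
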