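import Pool.Agent.CMFn.CQC

/-! Project CMFn, block Q: the checks for another sign vector.  helper71. -/

namespace Pool.Agent.CMFn

noncomputable section

namespace PD

/-- Only `chkSg` depends on the signs. -/
theorem Ck.sg0 {α : Type} {P : PD α} {d : GD α} {o : OD} {tw tw' : Bool} {z : ℕ} (C : P.Ck d o tw)
    (h : ∀ i < P.n, ({ P with sg := z } : PD α).chkSg tw' i = true) :
    ({ P with sg := z } : PD α).Ck d o tw' where
  all := C.all
  zero := C.zero
  ne := C.ne
  mv := C.mv
  pr := C.pr
  cl := C.cl
  loc := C.loc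
  gs := C.gs
  sg := h

end PD

end

end Pool.Agent.CMFn
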