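import Pool.Agent.CMFn.QDE8b
import Pool.Agent.CMFn.DatE8
import Pool.Agent.CMFn.CUse
import Pool.Agent.CMFn.CRing
import Pool.Agent.CMFn.QSg

/-! Project CMFn, block Q: checks of the data QDE8b (type D5), and the isolated characters of
E8 obtained from them.  helper71 (generated). -/

namespace Pool.Agent.CMFn.E8

open GD

noncomputable section

variable {G : Type} [Group G] [Fintype G] {V : G →* Matrix (Fin 8) (Fin 8) ℂ} {γ : ℕ → G}

theorem D5_all : PD.chkAll dat op0 = true := by decide +kernel

theorem D5_zero : D5.chkZero dat = true := by decide +kernel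

theorem D5_ne : allR 0 1920 (D5.chkNe dat) = true := by decide +kernel

theorem D5_mv : allR 0 5 (D5.chkMv dat op0) = true := by decide +kernel

theorem D5_pr : allR 0 1920 D5.chkPr = true := by decide +kernel

theorem D5_cl : allR 0 1920 (D5.chkCl dat) = true := by decide +kernel

theorem D5_loc : allR 0 120 (D5.chkLoc dat op0) = true := by decide +kernel

theorem D5_gs : allR 0 5 (D5.chkGs dat op0) = true := by decide +kernel

theorem D5_sg : allR 0 1920 (D5.chkSg true) = true := by decide +kernel

theorem D5_ck : D5.Ck dat op0 true where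
  all := D5_all
  zero := D5_zero
  ne := of_allR D5_ne
  mv := of_allR D5_mv
  pr := of_allR D5_pr
  cl := of_allR D5_cl
  loc := of_allR D5_loc
  gs := of_allR D5_gs
  sg := of_allR D5_sg

theorem D5_iso56 : GD.chkIso dat D5 56 = true := by decide +kernel

/-- The character of degree 2100 at level 0. -/
theorem isol56 (hG : Gp dat fz V γ) (CA : CkA dat) (CB : CkB dat) {lt : ℕ → G} {a : ℕ → MRep G}
    (O : Out dat fz V γ lt a) : Isol V (a 56) :=
  GD.isol_cert crs_z hG CA CB O (List.mem_singleton_self op0) (by decide) D5_ck (by decide)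
    D5_iso56

end

end Pool.Agent.CMFn.E8
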