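import Pool.Agent.CMFn.QDE8c
import Pool.Agent.CMFn.DatE8
import Pool.Agent.CMFn.CUse
import Pool.Agent.CMFn.CRing
import Pool.Agent.CMFn.QSg

/-! Project CMFn, block Q: checks of the data QDE8c (type A2 A1 A4), and the isolated characters of
E8 obtained from them.  helper71 (generated). -/

namespace Pool.Agent.CMFn.E8

open GD

noncomputable section

variable {G : Type} [Group G] [Fintype G] {V : G →* Matrix (Fin 8) (Fin 8) ℂ} {γ : ℕ → G}

theorem A214_all : PD.chkAll dat op0 = true := by decide +kernel

theorem A214_zero : A214.chkZero dat = true := by decide +kernel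

theorem A214_ne : allR 0 1440 (A214.chkNe dat) = true := by decide +kernel

theorem A214_mv : allR 0 7 (A214.chkMv dat op0) = true := by decide +kernel

theorem A214_pr : allR 0 1440 A214.chkPr = true := by decide +kernel

theorem A214_cl : allR 0 1440 (A214.chkCl dat) = true := by decide +kernel

theorem A214_loc : allR 0 120 (A214.chkLoc dat op0) = true := by decide +kernel

theorem A214_gs : allR 0 7 (A214.chkGs dat op0) = true := by decide +kernel

theorem A214_sg : allR 0 1440 (A214.chkSg true) = true := by decide +kernel

theorem A214_sgt : allR 0 1440 (({ A214 with sg := 0 } : PD PN).chkSg false) = true := by decide +kernel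

theorem A214_ck : A214.Ck dat op0 true where
  all := A214_all
  zero := A214_zero
  ne := of_allR A214_ne
  mv := of_allR A214_mv
  pr := of_allR A214_pr
  cl := of_allR A214_cl
  loc := of_allR A214_loc
  gs := of_allR A214_gs
  sg := of_allR A214_sg

theorem A214_ckt : ({ A214 with sg := 0 } : PD PN).Ck dat op0 false :=
  A214_ck.sg0 (of_allR A214_sgt)

theorem A214_iso69 : GD.chkIso dat A214 69 = true := by decide +kernel

/-- The character of degree 2835 at level 8. -/
theorem isol69 (hG : Gp dat fz V γ) (CA : CkA dat) (CB : CkB dat) {lt : ℕ → G} {a : ℕ → MRep G}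
    (O : Out dat fz V γ lt a) : Isol V (a 69) :=
  GD.isol_cert crs_z hG CA CB O (List.mem_singleton_self op0) (by decide) A214_ck (by decide)
    A214_iso69

theorem A214_iso67 : GD.chkIso dat A214 67 = true := by decide +kernel

/-- The character of degree 4200 at level 6. -/
theorem isol67 (hG : Gp dat fz V γ) (CA : CkA dat) (CB : CkB dat) {lt : ℕ → G} {a : ℕ → MRep G}
    (O : Out dat fz V γ lt a) : Isol V (a 67) :=
  GD.isol_cert crs_z hG CA CB O (List.mem_singleton_self op0) (by decide) A214_ck (by decide)
    A214_iso67

theorem A214_iso41 : GD.chkIso dat { A214 with sg := 0 } 41 = true := by decide +kernel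

/-- The character of degree 2835 at level -8. -/
theorem isol41 (hG : Gp dat fz V γ) (CA : CkA dat) (CB : CkB dat) {lt : ℕ → G} {a : ℕ → MRep G}
    (O : Out dat fz V γ lt a) : Isol V (a 41) :=
  GD.isol_cert crs_z hG CA CB O (List.mem_singleton_self op0) (by decide) A214_ckt (by decide)
    A214_iso41

theorem A214_iso45 : GD.chkIso dat { A214 with sg := 0 } 45 = true := by decide +kernel

/-- The character of degree 4200 at level -6. -/
theorem isol45 (hG : Gp dat fz V γ) (CA : CkA dat) (CB : CkB dat) {lt : ℕ → G} {a : ℕ → MRep G}
    (O : Out dat fz V γ lt a) : Isol V (a 45) :=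
  GD.isol_cert crs_z hG CA CB O (List.mem_singleton_self op0) (by decide) A214_ckt (by decide)
    A214_iso45

end

end Pool.Agent.CMFn.E8
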