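import Pool.Agent.CMFn.QCE8a
import Pool.Agent.CMFn.QCE8b
import Pool.Agent.CMFn.QCE8c

/-! Project CMFn, block Q: the isolated characters of E8 (levels 24, 8, 6, 0, -6, -8, -24).
helper71 (generated). -/

namespace Pool.Agent.CMFn.E8

open GD

noncomputable section

/-- The set of the isolated characters: 21, 41, 45, 56, 67, 69, 89. -/
def isoI : ℕ := 0x20000280100220000200000

theorem isoI_mem : allR 0 112 (fun i => cond (bit isoI i)
    (Nat.beq i 21 || Nat.beq i 41 || Nat.beq i 45 || Nat.beq i 56 || Nat.beq i 67 || Nat.beq i 69 || Nat.beq i 89) true) = true := by decide +kernel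

/-- The characters listed in `isoI` are isolated. -/
theorem isol_bits {G : Type} [Group G] [Fintype G] {V : G →* Matrix (Fin 8) (Fin 8) ℂ}
    {γ : ℕ → G} (hG : Gp dat fz V γ) (CA : CkA dat) (CB : CkB dat) {lt : ℕ → G} {a : ℕ → MRep G}
    (O : Out dat fz V γ lt a) : ∀ i < dat.K, bit isoI i = true → Isol V (a i) := by
  intro i hi hb
  have h := of_allR isoI_mem i hi
  rw [hb, cond_true] at h
  simp only [Bool.or_eq_true, beq_iff] at h
  rcases h with (((((h | h) | h) | h) | h) | h) | h
  · subst h; exact isol21 hG CA CB O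
  · subst h; exact isol41 hG CA CB O
  · subst h; exact isol45 hG CA CB O
  · subst h; exact isol56 hG CA CB O
  · subst h; exact isol67 hG CA CB O
  · subst h; exact isol69 hG CA CB O
  · subst h; exact isol89 hG CA CB O

end

end Pool.Agent.CMFn.E8
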