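import Pool.Agent.CMFn.QDE8r1
import Pool.Agent.CMFn.DatE8
import Pool.Agent.CMFn.CUse
import Pool.Agent.CMFn.CRing
import Pool.Agent.CMFn.QSg

/-! Project CMFn, block Q: checks of the data QDE8r1 (type D4 A1).  helper71 (generated). -/

namespace Pool.Agent.CMFn.E8

open GD

noncomputable section

theorem D4A1_all : PD.chkAll dat op0 = true := by decide +kernel

theorem D4A1_zero : D4A1.chkZero dat = true := by decide +kernel

theorem D4A1_ne : allR 0 384 (D4A1.chkNe dat) = true := by decide +kernel

theorem D4A1_mv : allR 0 5 (D4A1.chkMv dat op0) = true := by decide +kernel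

theorem D4A1_pr : allR 0 384 D4A1.chkPr = true := by decide +kernel

theorem D4A1_cl : allR 0 384 (D4A1.chkCl dat) = true := by decide +kernel

theorem D4A1_loc : allR 0 120 (D4A1.chkLoc dat op0) = true := by decide +kernel

theorem D4A1_gs : allR 0 5 (D4A1.chkGs dat op0) = true := by decide +kernel

theorem D4A1_sg : allR 0 384 (D4A1.chkSg true) = true := by decide +kernel

theorem D4A1_sgt : allR 0 384 (({ D4A1 with sg := 0 } : PD PN).chkSg false) = true := by decide +kernel

theorem D4A1_ck : D4A1.Ck dat op0 true where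
  all := D4A1_all
  zero := D4A1_zero
  ne := of_allR D4A1_ne
  mv := of_allR D4A1_mv
  pr := of_allR D4A1_pr
  cl := of_allR D4A1_cl
  loc := of_allR D4A1_loc
  gs := of_allR D4A1_gs
  sg := of_allR D4A1_sg

theorem D4A1_ckt : ({ D4A1 with sg := 0 } : PD PN).Ck dat op0 false :=
  D4A1_ck.sg0 (of_allR D4A1_sgt)

end

end Pool.Agent.CMFn.E8
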