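import Pool.Agent.CMFn.QDE8r2
import Pool.Agent.CMFn.DatE8
import Pool.Agent.CMFn.CUse
import Pool.Agent.CMFn.CRing
import Pool.Agent.CMFn.QSg

/-! Project CMFn, block Q: checks of the data QDE8r2 (type A3 A3).  helper71 (generated). -/

namespace Pool.Agent.CMFn.E8

open GD

noncomputable section

theorem A3A3_all : PD.chkAll dat op0 = true := by decide +kernel

theorem A3A3_zero : A3A3.chkZero dat = true := by decide +kernel

theorem A3A3_ne : allR 0 576 (A3A3.chkNe dat) = true := by decide +kernel

theorem A3A3_mv : allR 0 6 (A3A3.chkMv dat op0) = true := by decide +kernel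

theorem A3A3_pr : allR 0 576 A3A3.chkPr = true := by decide +kernel

theorem A3A3_cl : allR 0 576 (A3A3.chkCl dat) = true := by decide +kernel

theorem A3A3_loc : allR 0 120 (A3A3.chkLoc dat op0) = true := by decide +kernel

theorem A3A3_gs : allR 0 6 (A3A3.chkGs dat op0) = true := by decide +kernel

theorem A3A3_sg : allR 0 576 (A3A3.chkSg true) = true := by decide +kernel

theorem A3A3_sgt : allR 0 576 (({ A3A3 with sg := 0 } : PD PN).chkSg false) = true := by decide +kernel

theorem A3A3_ck : A3A3.Ck dat op0 true where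
  all := A3A3_all
  zero := A3A3_zero
  ne := of_allR A3A3_ne
  mv := of_allR A3A3_mv
  pr := of_allR A3A3_pr
  cl := of_allR A3A3_cl
  loc := of_allR A3A3_loc
  gs := of_allR A3A3_gs
  sg := of_allR A3A3_sg

theorem A3A3_ckt : ({ A3A3 with sg := 0 } : PD PN).Ck dat op0 false :=
  A3A3_ck.sg0 (of_allR A3A3_sgt)

end

end Pool.Agent.CMFn.E8
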