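import Pool.Agent.CMFn.QDE8r3
import Pool.Agent.CMFn.DatE8
import Pool.Agent.CMFn.CUse
import Pool.Agent.CMFn.CRing
import Pool.Agent.CMFn.QSg

/-! Project CMFn, block Q: checks of the data QDE8r3 (type A4 A1 A1).  helper71 (generated). -/

namespace Pool.Agent.CMFn.E8

open GD

noncomputable section

theorem A4A1A1_all : PD.chkAll dat op0 = true := by decide +kernel

theorem A4A1A1_zero : A4A1A1.chkZero dat = true := by decide +kernel

theorem A4A1A1_ne : allR 0 480 (A4A1A1.chkNe dat) = true := by decide +kernel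

theorem A4A1A1_mv : allR 0 6 (A4A1A1.chkMv dat op0) = true := by decide +kernel

theorem A4A1A1_pr : allR 0 480 A4A1A1.chkPr = true := by decide +kernel

theorem A4A1A1_cl : allR 0 480 (A4A1A1.chkCl dat) = true := by decide +kernel

theorem A4A1A1_loc : allR 0 120 (A4A1A1.chkLoc dat op0) = true := by decide +kernel

theorem A4A1A1_gs : allR 0 6 (A4A1A1.chkGs dat op0) = true := by decide +kernel

theorem A4A1A1_sg : allR 0 480 (A4A1A1.chkSg true) = true := by decide +kernel

theorem A4A1A1_sgt : allR 0 480 (({ A4A1A1 with sg := 0 } : PD PN).chkSg false) = true := by decide +kernel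

theorem A4A1A1_ck : A4A1A1.Ck dat op0 true where
  all := A4A1A1_all
  zero := A4A1A1_zero
  ne := of_allR A4A1A1_ne
  mv := of_allR A4A1A1_mv
  pr := of_allR A4A1A1_pr
  cl := of_allR A4A1A1_cl
  loc := of_allR A4A1A1_loc
  gs := of_allR A4A1A1_gs
  sg := of_allR A4A1A1_sg

theorem A4A1A1_ckt : ({ A4A1A1 with sg := 0 } : PD PN).Ck dat op0 false :=
  A4A1A1_ck.sg0 (of_allR A4A1A1_sgt)

end

end Pool.Agent.CMFn.E8
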