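import Pool.Agent.CMFn.IsolDefs

/-! Project CMFn: the rank criterion (definitions).  helper71. -/

namespace Pool.Agent.CMFn

noncomputable section

variable {G : Type} [Group G] {r : ℕ}

/-- On the level of `a` some positive multiple of the degrees is an integral combination of
multiplicities of extreme characters of subgroups `WP V p`, each of which occurs only in
representations with the property `Y` or only in representations without it. -/
def RankSep [Fintype G] (V : G →* Matrix (Fin r) (Fin r) ℂ) (Y : MRep G → Prop) (a : MRep G) :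
    Prop :=
  ∃ (N k : ℕ) (p : Fin k → Fin r → ℂ) (σ : Fin k → Bool) (n : Fin k → ℤ), 0 < N ∧
    (∀ b : MRep G, IsIrr b.2 → SameLevel V a b →
      ∑ i, (n i : ℂ) * (psum V (p i) (σ i) b / (Nat.card (WP V (p i)) : ℂ)) =
        (N : ℂ) * (b.1 : ℂ)) ∧
    ∀ i, (∀ b : MRep G, IsIrr b.2 → SameLevel V a b → Y b → psum V (p i) (σ i) b = 0) ∨
      (∀ b : MRep G, IsIrr b.2 → SameLevel V a b → ¬ Y b → psum V (p i) (σ i) b = 0)

end

end Pool.Agent.CMFn
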