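import Pool.Agent.CMFn.CQC
import Pool.Agent.CMFn.RkDefs

/-! Project CMFn: certificates for the rank criterion, extreme characters.  helper71. -/

namespace Pool.Agent.CMFn

open Matrix

noncomputable section

/-- Parabolic data, the kind of the extreme character (`tw`: determinant), its multiplicities in
the characters (width 8), the coefficient `pos - neg`, and the side: the representations which
contain it lie in `Y` (`true`) or outside `Y`. -/
structure RkI (α : Type) where
  P : PD α
  tw : Bool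
  rk : ℕ
  pos : ℕ
  neg : ℕ
  side : Bool

variable {G : Type} [Group G] {r : ℕ} {V : G →* Matrix (Fin r) (Fin r) ℂ}
  {α : Type} {d : GD α} {φ : α → ℂ} {e : ℕ → ℂ} {γ : ℕ → G} {o : OD}

namespace RkI

def rv (q : RkI α) (i : ℕ) : ℕ := dg 8 q.rk i

end RkI

namespace GD

/-- The sums over the subgroup of `q`, for the characters of the level of `μ`. -/
def chkRk (d : GD α) (q : RkI α) (μ : ℕ) : Bool :=
  allN d.K fun i => cond (d.difE μ i) true
    (d.c.eq (q.P.qs d i) (d.c.nat (Nat.mul q.P.n (q.rv i))))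

def posS (L : List (RkI α)) (i : ℕ) : ℕ :=
  List.rec 0 (fun q _ ih => Nat.add (Nat.mul q.pos (q.rv i)) ih) L

def negS (L : List (RkI α)) (i : ℕ) : ℕ :=
  List.rec 0 (fun q _ ih => Nat.add (Nat.mul q.neg (q.rv i)) ih) L

/-- The combination of the rank vectors, and purity. -/
def chkSep (d : GD α) (L : List (RkI α)) (μ Y N : ℕ) : Bool :=
  allN d.K fun i => cond (d.difE μ i) true
    (cond (Nat.beq (posS L i) (Nat.add (Nat.mul N (d.dimv i)) (negS L i)))
      (L.all fun q => cond (bit Y i) (cond q.side true (Nat.beq (q.rv i) 0))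
        (cond q.side (Nat.beq (q.rv i) 0) true)) false)

/-- The representations with a character listed in `Y`. -/
def InS (d : GD α) (a : ℕ → MRep G) (Y : ℕ) (b : MRep G) : Prop :=
  ∃ i < d.K, bit Y i = true ∧ b.1 = (a i).1 ∧ ∀ g, (b.2 g).trace = ((a i).2 g).trace

lemma posS_sub (L : List (RkI α)) (i : ℕ) :
    (posS L i : ℤ) - negS L i = ∑ k : Fin L.length, (((L.get k).pos : ℤ) - (L.get k).neg) *
      ((L.get k).rv i : ℤ) := by
  induction L with
  | nil => rfl
  | cons q L ih =>
    have h1 : posS (q :: L) i = q.pos * q.rv i + posS L i := rfl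
    have h2 : negS (q :: L) i = q.neg * q.rv i + negS L i := rfl
    rw [h1, h2]
    have h3 := Fin.sum_univ_succ (fun k : Fin (q :: L).length =>
      ((((q :: L).get k).pos : ℤ) - ((q :: L).get k).neg) * (((q :: L).get k).rv i : ℤ))
    refine Eq.trans ?_ h3.symm
    have h4 : ∑ k : Fin L.length, ((((q :: L).get k.succ).pos : ℤ) - ((q :: L).get k.succ).neg) *
        (((q :: L).get k.succ).rv i : ℤ) = (posS L i : ℤ) - negS L i := by
      rw [ih]; rfl
    have h5 : ((q :: L).get (0 : Fin (L.length + 1))) = q := rfl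
    rw [h4, h5]
    push_cast
    ring

theorem sep_cert [Fintype G] (hc : CRS d.c φ e) (hG : Gp d φ V γ) (CA : CkA d) (CB : CkB d)
    {lt : ℕ → G} {a : ℕ → MRep G} (O : Out d φ V γ lt a) (ho : o ∈ d.ops) (hg : o.gen < d.ng)
    (L : List (RkI α)) {μ Y N : ℕ} (hN : 0 < N) (hμ : μ < d.K)
    (C : ∀ q ∈ L, q.P.Ck d o q.tw) (hn : ∀ q ∈ L, 0 < q.P.n)
    (hR : ∀ q ∈ L, d.chkRk q μ = true) (hS : d.chkSep L μ Y N = true) :
    RankSep V (d.InS a Y) (a μ) := by
  have hps : ∀ q ∈ L, ∀ i < d.K, d.difE μ i = false →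
      psum V (q.P.vec d φ r) q.tw (a i) = ((Nat.card (WP V (q.P.vec d φ r)) : ℕ) : ℂ) * (q.rv i : ℂ) ∧
      (Nat.card (WP V (q.P.vec d φ r)) : ℂ) ≠ 0 := by
    intro q hq i hi hd
    obtain ⟨h1, h2⟩ := psum_cert hc hG CA CB O ho hg (C q hq)
    have h3 := hR q hq
    unfold chkRk at h3
    rw [allN_iff] at h3
    have h4 := h3 i hi
    rw [hd, cond_false, hc.eq, hc.nat] at h4
    rw [h2 i hi, h4, h1]
    refine ⟨?_, by exact_mod_cast (hn q hq).ne'⟩
    show ((q.P.n * q.rv i : ℕ) : ℂ) = _
    push_cast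
    ring
  unfold chkSep at hS
  rw [allN_iff] at hS
  have hw : ∀ b : MRep G, IsIrr b.2 → SameLevel V (a μ) b → ∀ i < d.K, b.1 = (a i).1 →
      (∀ x, (b.2 x).trace = ((a i).2 x).trace) → d.difE μ i = false := by
    intro b hb hl i hi h1 h2
    cases h3 : d.difE μ i with
    | false => rfl
    | true =>
      exfalso
      exact difE_of hc O hμ hi h3 (sameLevel_symm (sameLevel_left h1 h2 (sameLevel_symm hl)))
  refine ⟨N, L.length, fun k => (L.get k).P.vec d φ r, fun k => (L.get k).tw,
    fun k => ((L.get k).pos : ℤ) - (L.get k).neg, hN, ?_, ?_⟩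
  · intro b hb hl
    obtain ⟨i, hi, h1, h2⟩ := O.compl b hb
    have hd := hw b hb hl i hi h1 h2
    have h3 := hS i hi
    rw [hd, cond_false] at h3
    simp only [cond_iff, beq_iff] at h3
    have h4 : posS L i = N * d.dimv i + negS L i := h3.1
    have h5 := posS_sub L i
    rw [h4] at h5
    push_cast at h5
    have h6 : ((N : ℤ) * d.dimv i) = ∑ k : Fin L.length, (((L.get k).pos : ℤ) - (L.get k).neg) *
        ((L.get k).rv i : ℤ) := by
      rw [← h5]; ring
    have h7 : ((N : ℂ) * (b.1 : ℂ)) = ((((N : ℤ) * d.dimv i) : ℤ) : ℂ) := by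
      rw [h1, (O.irr i hi).2.1]
      push_cast
      ring
    rw [h7, h6]
    push_cast
    refine Finset.sum_congr rfl fun k _ => ?_
    obtain ⟨h8, h9⟩ := hps (L.get k) (L.get_mem k) i hi hd
    rw [psum_congr _ _ h2, h8, mul_div_cancel_left₀ _ h9]
  · intro k
    have hq := L.get_mem k
    cases hs : (L.get k).side with
    | false =>
      left
      rintro b hb hl ⟨i, hi, hY, h1, h2⟩
      have hd := hw b hb hl i hi h1 h2
      have h3 := hS i hi
      rw [hd, cond_false] at h3
      simp only [cond_iff, beq_iff] at h3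
      have h4 := List.all_eq_true.1 h3.2 _ hq
      rw [hY, cond_true, hs, cond_false, beq_iff] at h4
      rw [psum_congr _ _ h2, (hps _ hq i hi hd).1, h4]
      simp
    | true =>
      right
      intro b hb hl hnY
      obtain ⟨i, hi, h1, h2⟩ := O.compl b hb
      have hd := hw b hb hl i hi h1 h2
      have h3 := hS i hi
      rw [hd, cond_false] at h3
      simp only [cond_iff, beq_iff] at h3
      have hY : bit Y i = false := by
        cases hY : bit Y i with
        | false => rfl
        | true => exact absurd ⟨i, hi, hY, h1, h2⟩ hnY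
      have h4 := List.all_eq_true.1 h3.2 _ hq
      rw [hY, cond_false, hs, cond_true, beq_iff] at h4
      rw [psum_congr _ _ h2, (hps _ hq i hi hd).1, h4]
      simp

end GD

end

end Pool.Agent.CMFn
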