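import Pool.Agent.CMFn.QCE8a
import Pool.Agent.CMFn.QCE8r1
import Pool.Agent.CMFn.QCE8r2
import Pool.Agent.CMFn.QCE8r3
import Pool.Agent.CMFn.QRk

/-! Project CMFn: the rank certificates for the levels 12 and -12 of E8.  helper71 (generated). -/

namespace Pool.Agent.CMFn.E8

open GD

noncomputable section

/-- Type D4, level 12. -/
def rkp_D4 : RkI PN :=
  ⟨D4, true, 0x4020002000000000000000000000000000000000000000000000000000000000000000000000000000000000000000000000000000000000000000000000000000000000000000000000000, 1050, 0, true⟩

/-- Type D4A1, level 12. -/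
def rkp_D4A1 : RkI PN :=
  ⟨D4A1, true, 0x1000001000000000000000000000000000000000000000000000000000000000000000000000000000000000000000000000000000000000000000000000000000000000000000000000000, 0, 1400, true⟩

/-- Type A3A3, level 12. -/
def rkp_A3A3 : RkI PN :=
  ⟨A3A3, true, 0x10000000100000000000000000000000000000000000000000000000000000000000000000000000000000000000000000000000000000000000000000000000000000000000000000000000000, 840, 0, false⟩

/-- Type A4A1A1, level 12. -/
def rkp_A4A1A1 : RkI PN :=
  ⟨A4A1A1, true, 0x10100000000000000000000000000000000000000000000000000000000000000000000000000000000000000000000000000000000000000000000000000000000000000000000000000000000, 3360, 0, false⟩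

/-- The characters of degree 700, 2100, 2800 at level 12. -/
def Yp : ℕ := 0xd000000000000000000

def Lp : List (RkI PN) := [rkp_D4, rkp_D4A1, rkp_A3A3, rkp_A4A1A1]

theorem Rp_D4 : GD.chkRk dat rkp_D4 72 = true := by decide +kernel

theorem Rp_D4A1 : GD.chkRk dat rkp_D4A1 72 = true := by decide +kernel

theorem Rp_A3A3 : GD.chkRk dat rkp_A3A3 72 = true := by decide +kernel

theorem Rp_A4A1A1 : GD.chkRk dat rkp_A4A1A1 72 = true := by decide +kernel

theorem Sp : GD.chkSep dat Lp 72 Yp 1 = true := by decide +kernel

/-- The level 12. -/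
theorem sepp {G : Type} [Group G] [Fintype G] {V : G →* Matrix (Fin 8) (Fin 8) ℂ}
    {γ : ℕ → G} (hG : Gp dat fz V γ) (CA : CkA dat) (CB : CkB dat) {lt : ℕ → G} {a : ℕ → MRep G}
    (O : Out dat fz V γ lt a) : RankSep V (dat.InS a Yp) (a 72) := by
  refine GD.sep_cert crs_z hG CA CB O (List.mem_singleton_self op0) (by decide) Lp (by decide)
    (by decide) ?_ ?_ ?_ Sp
  · intro q hq
    simp only [Lp, List.mem_cons, List.not_mem_nil, or_false] at hq
    rcases hq with h | h | h | h
    · subst h; exact D4_ck
    · subst h; exact D4A1_ck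
    · subst h; exact A3A3_ck
    · subst h; exact A4A1A1_ck
  · intro q hq
    simp only [Lp, List.mem_cons, List.not_mem_nil, or_false] at hq
    rcases hq with h | h | h | h
    · subst h; exact (by decide : 0 < 192)
    · subst h; exact (by decide : 0 < 384)
    · subst h; exact (by decide : 0 < 576)
    · subst h; exact (by decide : 0 < 480)
  · intro q hq
    simp only [Lp, List.mem_cons, List.not_mem_nil, or_false] at hq
    rcases hq with h | h | h | h
    · subst h; exact Rp_D4
    · subst h; exact Rp_D4A1
    · subst h; exact Rp_A3A3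
    · subst h; exact Rp_A4A1A1

/-- Type D4, level -12. -/
def rkm_D4 : RkI PN :=
  ⟨{ D4 with sg := 0 }, false, 0x402000200000000000000000000000000000000000000000000000000000000000000000000, 1050, 0, true⟩

/-- Type D4A1, level -12. -/
def rkm_D4A1 : RkI PN :=
  ⟨{ D4A1 with sg := 0 }, false, 0x100000100000000000000000000000000000000000000000000000000000000000000000000, 0, 1400, true⟩

/-- Type A3A3, level -12. -/
def rkm_A3A3 : RkI PN :=
  ⟨{ A3A3 with sg := 0 }, false, 0x1000000010000000000000000000000000000000000000000000000000000000000000000000000, 840, 0, false⟩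

/-- Type A4A1A1, level -12. -/
def rkm_A4A1A1 : RkI PN :=
  ⟨{ A4A1A1 with sg := 0 }, false, 0x1010000000000000000000000000000000000000000000000000000000000000000000000000000, 3360, 0, false⟩

/-- The characters of degree 700, 2100, 2800 at level -12. -/
def Ym : ℕ := 0x3400000000

def Lm : List (RkI PN) := [rkm_D4, rkm_D4A1, rkm_A3A3, rkm_A4A1A1]

theorem Rm_D4 : GD.chkRk dat rkm_D4 34 = true := by decide +kernel

theorem Rm_D4A1 : GD.chkRk dat rkm_D4A1 34 = true := by decide +kernel

theorem Rm_A3A3 : GD.chkRk dat rkm_A3A3 34 = true := by decide +kernel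

theorem Rm_A4A1A1 : GD.chkRk dat rkm_A4A1A1 34 = true := by decide +kernel

theorem Sm : GD.chkSep dat Lm 34 Ym 1 = true := by decide +kernel

/-- The level -12. -/
theorem sepm {G : Type} [Group G] [Fintype G] {V : G →* Matrix (Fin 8) (Fin 8) ℂ}
    {γ : ℕ → G} (hG : Gp dat fz V γ) (CA : CkA dat) (CB : CkB dat) {lt : ℕ → G} {a : ℕ → MRep G}
    (O : Out dat fz V γ lt a) : RankSep V (dat.InS a Ym) (a 34) := by
  refine GD.sep_cert crs_z hG CA CB O (List.mem_singleton_self op0) (by decide) Lm (by decide)
    (by decide) ?_ ?_ ?_ Sm
  · intro q hq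
    simp only [Lm, List.mem_cons, List.not_mem_nil, or_false] at hq
    rcases hq with h | h | h | h
    · subst h; exact D4_ckt
    · subst h; exact D4A1_ckt
    · subst h; exact A3A3_ckt
    · subst h; exact A4A1A1_ckt
  · intro q hq
    simp only [Lm, List.mem_cons, List.not_mem_nil, or_false] at hq
    rcases hq with h | h | h | h
    · subst h; exact (by decide : 0 < 192)
    · subst h; exact (by decide : 0 < 384)
    · subst h; exact (by decide : 0 < 576)
    · subst h; exact (by decide : 0 < 480)
  · intro q hq
    simp only [Lm, List.mem_cons, List.not_mem_nil, or_false] at hq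
    rcases hq with h | h | h | h
    · subst h; exact Rm_D4
    · subst h; exact Rm_D4A1
    · subst h; exact Rm_A3A3
    · subst h; exact Rm_A4A1A1

end

end Pool.Agent.CMFn.E8
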