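import Pool.Agent.CMFn.SplitR
import Pool.Agent.CMFn.CQY
import Pool.Agent.CMFn.QIE8
import Pool.Agent.CMFn.QRE8
import Pool.Agent.CMFn.CkE8

/-! Project CMFn: Martino's conjecture for the group E8.  helper40. -/

namespace Pool.Agent.CMFn.E8

open Matrix Pool.Agent.CMFP GD

noncomputable section

/-- The Cartan matrix. -/
def car : List (List PN) :=
  [[⟨2, 0⟩, ⟨0, 0⟩, ⟨0, 1⟩, ⟨0, 0⟩, ⟨0, 0⟩, ⟨0, 0⟩, ⟨0, 0⟩, ⟨0, 0⟩],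
   [⟨0, 0⟩, ⟨2, 0⟩, ⟨0, 0⟩, ⟨0, 1⟩, ⟨0, 0⟩, ⟨0, 0⟩, ⟨0, 0⟩, ⟨0, 0⟩],
   [⟨0, 1⟩, ⟨0, 0⟩, ⟨2, 0⟩, ⟨0, 1⟩, ⟨0, 0⟩, ⟨0, 0⟩, ⟨0, 0⟩, ⟨0, 0⟩],
   [⟨0, 0⟩, ⟨0, 1⟩, ⟨0, 1⟩, ⟨2, 0⟩, ⟨0, 1⟩, ⟨0, 0⟩, ⟨0, 0⟩, ⟨0, 0⟩],
   [⟨0, 0⟩, ⟨0, 0⟩, ⟨0, 0⟩, ⟨0, 1⟩, ⟨2, 0⟩, ⟨0, 1⟩, ⟨0, 0⟩, ⟨0, 0⟩],
   [⟨0, 0⟩, ⟨0, 0⟩, ⟨0, 0⟩, ⟨0, 0⟩, ⟨0, 1⟩, ⟨2, 0⟩, ⟨0, 1⟩, ⟨0, 0⟩],
   [⟨0, 0⟩, ⟨0, 0⟩, ⟨0, 0⟩, ⟨0, 0⟩, ⟨0, 0⟩, ⟨0, 1⟩, ⟨2, 0⟩, ⟨0, 1⟩],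
   [⟨0, 0⟩, ⟨0, 0⟩, ⟨0, 0⟩, ⟨0, 0⟩, ⟨0, 0⟩, ⟨0, 0⟩, ⟨0, 1⟩, ⟨2, 0⟩]]

/-- Its adjoint matrix. -/
def adj : List (List PN) :=
  [[⟨4, 0⟩, ⟨5, 0⟩, ⟨7, 0⟩, ⟨10, 0⟩, ⟨8, 0⟩, ⟨6, 0⟩, ⟨4, 0⟩, ⟨2, 0⟩],
   [⟨5, 0⟩, ⟨8, 0⟩, ⟨10, 0⟩, ⟨15, 0⟩, ⟨12, 0⟩, ⟨9, 0⟩, ⟨6, 0⟩, ⟨3, 0⟩],
   [⟨7, 0⟩, ⟨10, 0⟩, ⟨14, 0⟩, ⟨20, 0⟩, ⟨16, 0⟩, ⟨12, 0⟩, ⟨8, 0⟩, ⟨4, 0⟩],
   [⟨10, 0⟩, ⟨15, 0⟩, ⟨20, 0⟩, ⟨30, 0⟩, ⟨24, 0⟩, ⟨18, 0⟩, ⟨12, 0⟩, ⟨6, 0⟩],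
   [⟨8, 0⟩, ⟨12, 0⟩, ⟨16, 0⟩, ⟨24, 0⟩, ⟨20, 0⟩, ⟨15, 0⟩, ⟨10, 0⟩, ⟨5, 0⟩],
   [⟨6, 0⟩, ⟨9, 0⟩, ⟨12, 0⟩, ⟨18, 0⟩, ⟨15, 0⟩, ⟨12, 0⟩, ⟨8, 0⟩, ⟨4, 0⟩],
   [⟨4, 0⟩, ⟨6, 0⟩, ⟨8, 0⟩, ⟨12, 0⟩, ⟨10, 0⟩, ⟨8, 0⟩, ⟨6, 0⟩, ⟨3, 0⟩],
   [⟨2, 0⟩, ⟨3, 0⟩, ⟨4, 0⟩, ⟨6, 0⟩, ⟨5, 0⟩, ⟨4, 0⟩, ⟨3, 0⟩, ⟨2, 0⟩]]

/-- Its determinant. -/
def kap : PN := ⟨1, 0⟩

theorem ck_car : dat.chkCar (lget ⟨0, 0⟩ car) = true := by decide +kernel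

theorem ck_det : dat.chkDet (lget ⟨0, 0⟩ car) (lget ⟨0, 0⟩ adj) kap = true := by decide +kernel

theorem car_int : ∀ i j : Fin 8, CartanMatrix.E₈ i j =
    ((lget ⟨0, 0⟩ car i j).p : ℤ) - (lget ⟨0, 0⟩ car i j).n := by decide

theorem car_eq (i j : Fin 8) : cE8 i j = fz (lget ⟨0, 0⟩ car i j) := by
  show ((CartanMatrix.E₈ i j : ℤ) : ℂ) = _
  rw [car_int]
  unfold fz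
  push_cast
  rfl

/-- The characters of degree 700, 2100, 2800 at the levels 12 and -12. -/
def YJ : ℕ := Nat.lor Yp Ym

theorem q_all : PD.chkAll dat op0 = true := by decide +kernel

theorem ck_labXY : allR 0 112 (dat.chkLabXY isoI YJ) = true := by decide +kernel

theorem ck_partp : dat.chkPart Yp YJ 72 = true := by decide +kernel

theorem ck_partm : dat.chkPart Ym YJ 34 = true := by decide +kernel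

theorem ck_or : allR 0 112 (fun i => cond (bit YJ i) (bit Yp i || bit Ym i) true) = true := by
  decide +kernel

theorem splitR {G : Type} [Group G] [Fintype G] {V : G →* Matrix (Fin 8) (Fin 8) ℂ} {γ : ℕ → G}
    (hG : Gp dat fz V γ) : SplitR V := by
  have hc := crs_z
  obtain ⟨lt, a, O⟩ := GD.cert hc hG ckA ckB
  refine ⟨dat.InS a YJ, ?_, ?_⟩
  · intro b hb hY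
    obtain ⟨i, hi, hbi, h1, h2⟩ := hY
    have h3 := of_allR ck_or i hi
    rw [hbi, cond_true, Bool.or_eq_true] at h3
    rcases h3 with h3 | h3
    · exact O.rankSep_part hc (by decide) ck_partp (sepp hG ckA ckB O) hb ⟨i, hi, h3, h1, h2⟩
    · exact O.rankSep_part hc (by decide) ck_partm (sepm hG ckA ckB O) hb ⟨i, hi, h3, h1, h2⟩
  · intro x y hx hy hl hY hX1 hX2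
    exact O.connXY hc (Isol V) (fun _ _ h1 h2 h => isol_congr h1 h2 h) (dat.InS a YJ)
      inS_congr (isol_bits hG ckA ckB O) (fun i hi => O.inS_iff hc ckB hi)
      (of_allR ck_labXY) x y hx hy hl hX1 hX2 hY

theorem mart {G : Type} [Group G] [Fintype G] {n : ℕ} (W : G → Matrix (Fin n) (Fin n) ℂ)
    (hW : IsReflGroup W) (hC : HasCartan W cE8) : Mart W := by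
  have hc := crs_z
  refine mart_of_certR (r := 8) hc rfl rfl (by norm_num) ck_car ck_det car_eq
    (fun V γ hG => ⟨?_, splitR hG⟩) W hW hC
  obtain ⟨lt, a, O⟩ := GD.cert hc hG ckA ckB
  exact oneCls_of (γ op0.gen) fun x hx =>
    GD.one_class hc hG ckA ckB O (by simp [dat]) (by decide) q_all hx

end

end Pool.Agent.CMFn.E8
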