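import Pool.Agent.CMFn.MtA
import Pool.Agent.CMFn.CkF4

/-! Project CMFn: Martino's conjecture for the group F4. -/

namespace Pool.Agent.CMFn.F4

open Matrix Pool.Agent.CMFP

noncomputable section

/-- The Cartan matrix. -/
def car : List (List PN) :=
  [[⟨2, 0⟩, ⟨0, 1⟩, ⟨0, 0⟩, ⟨0, 0⟩],
   [⟨0, 1⟩, ⟨2, 0⟩, ⟨0, 2⟩, ⟨0, 0⟩],
   [⟨0, 0⟩, ⟨0, 1⟩, ⟨2, 0⟩, ⟨0, 1⟩],
   [⟨0, 0⟩, ⟨0, 0⟩, ⟨0, 1⟩, ⟨2, 0⟩]]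

/-- Its adjoint matrix. -/
def adj : List (List PN) :=
  [[⟨2, 0⟩, ⟨3, 0⟩, ⟨4, 0⟩, ⟨2, 0⟩],
   [⟨3, 0⟩, ⟨6, 0⟩, ⟨8, 0⟩, ⟨4, 0⟩],
   [⟨2, 0⟩, ⟨4, 0⟩, ⟨6, 0⟩, ⟨3, 0⟩],
   [⟨1, 0⟩, ⟨2, 0⟩, ⟨3, 0⟩, ⟨2, 0⟩]]

/-- Its determinant. -/
def kap : PN := ⟨1, 0⟩

theorem ck_car : dat.chkCar (lget ⟨0, 0⟩ car) = true := by decide +kernel

theorem ck_det : dat.chkDet (lget ⟨0, 0⟩ car) (lget ⟨0, 0⟩ adj) kap = true := by decide +kernel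

theorem car_int : ∀ i j : Fin 4, CartanMatrix.F₄ i j =
    ((lget ⟨0, 0⟩ car i j).p : ℤ) - (lget ⟨0, 0⟩ car i j).n := by decide

theorem car_eq (i j : Fin 4) : cF4 i j = fz (lget ⟨0, 0⟩ car i j) := by
  show ((CartanMatrix.F₄ i j : ℤ) : ℂ) = _
  rw [car_int]
  unfold fz
  push_cast
  rfl

theorem mart {G : Type} [Group G] [Fintype G] {n : ℕ} (W : G → Matrix (Fin n) (Fin n) ℂ)
    (hW : IsReflGroup W) (hC : HasCartan W cF4) : Mart W := by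
  have hc := crs_z
  exact mart_of_cert (r := 4) hc rfl rfl (by norm_num) ck_car ck_det car_eq (fun _ _ h => conn h) W hW hC

end

end Pool.Agent.CMFn.F4
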