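import Pool.Agent.CMFn.MtA
import Pool.Agent.CMFn.CkG25

/-! Project CMFn: Martino's conjecture for the group G25. -/

namespace Pool.Agent.CMFn.G25

open Matrix Pool.Agent.CMFP

noncomputable section

/-- The Cartan matrix. -/
def car : List (List (Qd PN)) :=
  [[⟨⟨1, 0⟩, ⟨0, 1⟩⟩, ⟨⟨0, 1⟩, ⟨0, 0⟩⟩, ⟨⟨0, 0⟩, ⟨0, 0⟩⟩],
   [⟨⟨0, 0⟩, ⟨1, 0⟩⟩, ⟨⟨1, 0⟩, ⟨0, 1⟩⟩, ⟨⟨0, 1⟩, ⟨0, 0⟩⟩],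
   [⟨⟨0, 0⟩, ⟨0, 0⟩⟩, ⟨⟨0, 0⟩, ⟨1, 0⟩⟩, ⟨⟨1, 0⟩, ⟨0, 1⟩⟩]]

/-- Its adjoint matrix. -/
def adj : List (List (Qd PN)) :=
  [[⟨⟨0, 0⟩, ⟨0, 2⟩⟩, ⟨⟨1, 0⟩, ⟨0, 1⟩⟩, ⟨⟨1, 0⟩, ⟨0, 0⟩⟩],
   [⟨⟨0, 1⟩, ⟨0, 2⟩⟩, ⟨⟨0, 0⟩, ⟨0, 3⟩⟩, ⟨⟨1, 0⟩, ⟨0, 1⟩⟩],
   [⟨⟨0, 1⟩, ⟨0, 1⟩⟩, ⟨⟨0, 1⟩, ⟨0, 2⟩⟩, ⟨⟨0, 0⟩, ⟨0, 2⟩⟩]]

/-- Its determinant. -/
def kap : Qd PN := ⟨⟨0, 1⟩, ⟨0, 2⟩⟩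

theorem ck_car : dat.chkCar (lget ⟨⟨0, 0⟩, ⟨0, 0⟩⟩ car) = true := by decide +kernel

theorem ck_det : dat.chkDet (lget ⟨⟨0, 0⟩, ⟨0, 0⟩⟩ car) (lget ⟨⟨0, 0⟩, ⟨0, 0⟩⟩ adj) kap = true := by decide +kernel

theorem car_eq (i j : Fin 3) : cG25 i j = fOm (lget ⟨⟨0, 0⟩, ⟨0, 0⟩⟩ car i j) := by
  fin_cases i <;> fin_cases j <;>
    simp [cG25, lget, car, fOm, fq, fz, omeg, zOm] <;> ring_nf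

theorem mart {G : Type} [Group G] [Fintype G] {n : ℕ} (W : G → Matrix (Fin n) (Fin n) ℂ)
    (hW : IsReflGroup W) (hC : HasCartan W cG25) : Mart W := by
  obtain ⟨e, hc⟩ := crs_om
  exact mart_of_cert (r := 3) hc rfl rfl (by norm_num) ck_car ck_det car_eq (fun _ _ h => conn h) W hW hC

end

end Pool.Agent.CMFn.G25
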