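import Pool.Agent.CMFn.MtA
import Pool.Agent.CMFn.CkG27

/-! Project CMFn: Martino's conjecture for the group G27. -/

namespace Pool.Agent.CMFn.G27

open Matrix Pool.Agent.CMFP

noncomputable section

/-- The Cartan matrix. -/
def car : List (List (Qd (Qd PN))) :=
  [[⟨⟨⟨2, 0⟩, ⟨0, 0⟩⟩, ⟨⟨0, 0⟩, ⟨0, 0⟩⟩⟩, ⟨⟨⟨0, 1⟩, ⟨0, 0⟩⟩, ⟨⟨0, 0⟩, ⟨0, 0⟩⟩⟩, ⟨⟨⟨0, 1⟩, ⟨0, 0⟩⟩, ⟨⟨0, 0⟩, ⟨0, 0⟩⟩⟩],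
   [⟨⟨⟨0, 1⟩, ⟨0, 0⟩⟩, ⟨⟨0, 0⟩, ⟨0, 0⟩⟩⟩, ⟨⟨⟨2, 0⟩, ⟨0, 0⟩⟩, ⟨⟨0, 0⟩, ⟨0, 0⟩⟩⟩, ⟨⟨⟨1, 0⟩, ⟨0, 1⟩⟩, ⟨⟨0, 0⟩, ⟨0, 1⟩⟩⟩],
   [⟨⟨⟨0, 1⟩, ⟨0, 0⟩⟩, ⟨⟨0, 0⟩, ⟨0, 0⟩⟩⟩, ⟨⟨⟨1, 0⟩, ⟨0, 0⟩⟩, ⟨⟨0, 0⟩, ⟨1, 0⟩⟩⟩, ⟨⟨⟨2, 0⟩, ⟨0, 0⟩⟩, ⟨⟨0, 0⟩, ⟨0, 0⟩⟩⟩]]

/-- Its adjoint matrix. -/
def adj : List (List (Qd (Qd PN))) :=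
  [[⟨⟨⟨2, 0⟩, ⟨0, 0⟩⟩, ⟨⟨0, 0⟩, ⟨0, 0⟩⟩⟩, ⟨⟨⟨1, 0⟩, ⟨0, 0⟩⟩, ⟨⟨0, 0⟩, ⟨0, 1⟩⟩⟩, ⟨⟨⟨1, 0⟩, ⟨1, 0⟩⟩, ⟨⟨0, 0⟩, ⟨1, 0⟩⟩⟩],
   [⟨⟨⟨1, 0⟩, ⟨1, 0⟩⟩, ⟨⟨0, 0⟩, ⟨1, 0⟩⟩⟩, ⟨⟨⟨3, 0⟩, ⟨0, 0⟩⟩, ⟨⟨0, 0⟩, ⟨0, 0⟩⟩⟩, ⟨⟨⟨0, 1⟩, ⟨2, 0⟩⟩, ⟨⟨0, 0⟩, ⟨2, 0⟩⟩⟩],
   [⟨⟨⟨1, 0⟩, ⟨0, 0⟩⟩, ⟨⟨0, 0⟩, ⟨0, 1⟩⟩⟩, ⟨⟨⟨0, 1⟩, ⟨0, 0⟩⟩, ⟨⟨0, 0⟩, ⟨0, 2⟩⟩⟩, ⟨⟨⟨3, 0⟩, ⟨0, 0⟩⟩, ⟨⟨0, 0⟩, ⟨0, 0⟩⟩⟩]]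

/-- Its determinant. -/
def kap : Qd (Qd PN) := ⟨⟨⟨2, 0⟩, ⟨0, 1⟩⟩, ⟨⟨0, 0⟩, ⟨0, 0⟩⟩⟩

theorem ck_car : dat.chkCar (lget ⟨⟨⟨0, 0⟩, ⟨0, 0⟩⟩, ⟨⟨0, 0⟩, ⟨0, 0⟩⟩⟩ car) = true := by decide +kernel

theorem ck_det : dat.chkDet (lget ⟨⟨⟨0, 0⟩, ⟨0, 0⟩⟩, ⟨⟨0, 0⟩, ⟨0, 0⟩⟩⟩ car) (lget ⟨⟨⟨0, 0⟩, ⟨0, 0⟩⟩, ⟨⟨0, 0⟩, ⟨0, 0⟩⟩⟩ adj) kap = true := by decide +kernel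

theorem car_eq (i j : Fin 3) : cG27 i j = fTO (lget ⟨⟨⟨0, 0⟩, ⟨0, 0⟩⟩, ⟨⟨0, 0⟩, ⟨0, 0⟩⟩⟩ car i j) := by
  fin_cases i <;> fin_cases j <;>
    simp [cG27, lget, car, fTO, fTau, fq, fz, gold, zTau, omeg, zOm] <;> ring_nf

theorem mart {G : Type} [Group G] [Fintype G] {n : ℕ} (W : G → Matrix (Fin n) (Fin n) ℂ)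
    (hW : IsReflGroup W) (hC : HasCartan W cG27) : Mart W := by
  obtain ⟨e, hc⟩ := crs_to
  exact mart_of_cert (r := 3) hc rfl rfl (by norm_num) ck_car ck_det car_eq (fun _ _ h => conn h) W hW hC

end

end Pool.Agent.CMFn.G27
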