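import Pool.Agent.CMFn.MtB
import Pool.Agent.CMFn.CkQG29

/-! Project CMFn: Martino's conjecture for the group G29. -/

namespace Pool.Agent.CMFn.G29

open Matrix Pool.Agent.CMFP

noncomputable section

/-- The Cartan matrix. -/
def car : List (List (Qd PN)) :=
  [[⟨⟨2, 0⟩, ⟨0, 0⟩⟩, ⟨⟨0, 1⟩, ⟨0, 0⟩⟩, ⟨⟨0, 0⟩, ⟨0, 0⟩⟩, ⟨⟨0, 0⟩, ⟨0, 0⟩⟩],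
   [⟨⟨0, 1⟩, ⟨0, 0⟩⟩, ⟨⟨2, 0⟩, ⟨0, 0⟩⟩, ⟨⟨0, 1⟩, ⟨0, 0⟩⟩, ⟨⟨0, 0⟩, ⟨0, 1⟩⟩],
   [⟨⟨0, 0⟩, ⟨0, 0⟩⟩, ⟨⟨0, 1⟩, ⟨0, 0⟩⟩, ⟨⟨2, 0⟩, ⟨0, 0⟩⟩, ⟨⟨0, 1⟩, ⟨0, 0⟩⟩],
   [⟨⟨0, 0⟩, ⟨0, 0⟩⟩, ⟨⟨0, 0⟩, ⟨1, 0⟩⟩, ⟨⟨0, 1⟩, ⟨0, 0⟩⟩, ⟨⟨2, 0⟩, ⟨0, 0⟩⟩]]

/-- Its adjoint matrix. -/
def adj : List (List (Qd PN)) :=
  [[⟨⟨2, 0⟩, ⟨0, 0⟩⟩, ⟨⟨3, 0⟩, ⟨0, 0⟩⟩, ⟨⟨2, 0⟩, ⟨1, 0⟩⟩, ⟨⟨1, 0⟩, ⟨2, 0⟩⟩],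
   [⟨⟨3, 0⟩, ⟨0, 0⟩⟩, ⟨⟨6, 0⟩, ⟨0, 0⟩⟩, ⟨⟨4, 0⟩, ⟨2, 0⟩⟩, ⟨⟨2, 0⟩, ⟨4, 0⟩⟩],
   [⟨⟨2, 0⟩, ⟨0, 1⟩⟩, ⟨⟨4, 0⟩, ⟨0, 2⟩⟩, ⟨⟨4, 0⟩, ⟨0, 0⟩⟩, ⟨⟨3, 0⟩, ⟨2, 0⟩⟩],
   [⟨⟨1, 0⟩, ⟨0, 2⟩⟩, ⟨⟨2, 0⟩, ⟨0, 4⟩⟩, ⟨⟨3, 0⟩, ⟨0, 2⟩⟩, ⟨⟨4, 0⟩, ⟨0, 0⟩⟩]]

/-- Its determinant. -/
def kap : Qd PN := ⟨⟨1, 0⟩, ⟨0, 0⟩⟩

theorem ck_car : dat.chkCar (lget ⟨⟨0, 0⟩, ⟨0, 0⟩⟩ car) = true := by decide +kernel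

theorem ck_det : dat.chkDet (lget ⟨⟨0, 0⟩, ⟨0, 0⟩⟩ car) (lget ⟨⟨0, 0⟩, ⟨0, 0⟩⟩ adj) kap = true := by decide +kernel

theorem car_eq (i j : Fin 4) : cG29 i j = fI (lget ⟨⟨0, 0⟩, ⟨0, 0⟩⟩ car i j) := by
  fin_cases i <;> fin_cases j <;>
    simp [cG29, lget, car, fI, fq, fz] <;> ring_nf

theorem mart {G : Type} [Group G] [Fintype G] {n : ℕ} (W : G → Matrix (Fin n) (Fin n) ℂ)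
    (hW : IsReflGroup W) (hC : HasCartan W cG29) : Mart W := by
  obtain ⟨e, hc⟩ := crs_i
  refine mart_of_certX (r := 4) hc rfl rfl (by norm_num) ck_car ck_det car_eq
    (fun V γ hG => ⟨?_, ?_⟩) W hW hC
  · obtain ⟨lt, a, O⟩ := main hG
    exact oneCls_of (γ op0.gen) fun x hx =>
      GD.one_classP hc hG ckA ck_tt O (by simp [dat]) (by decide) ck_par0 q_all hx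
  · exact connIsol hG

end

end Pool.Agent.CMFn.G29
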