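import Pool.Agent.CMFn.QXG31
import Pool.Agent.CMFn.IsolT3
import Pool.Agent.CMFn.MtA
import Pool.Agent.CMFn.OneCl
import Pool.Agent.CMFn.MDim

/-! Project CMFn: the group G31 from its Cartan matrix (five reflections in rank four).
helper86. -/

namespace Pool.Agent.CMFn.G31

open Matrix Pool.Agent.CMFP

noncomputable section

/-- The Cartan matrix. -/
def car : List (List (Qd PN)) :=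
  [[⟨⟨2, 0⟩, ⟨0, 0⟩⟩, ⟨⟨0, 1⟩, ⟨0, 0⟩⟩, ⟨⟨0, 0⟩, ⟨0, 0⟩⟩, ⟨⟨0, 0⟩, ⟨0, 0⟩⟩, ⟨⟨0, 1⟩, ⟨0, 0⟩⟩],
   [⟨⟨0, 1⟩, ⟨0, 0⟩⟩, ⟨⟨2, 0⟩, ⟨0, 0⟩⟩, ⟨⟨0, 1⟩, ⟨0, 0⟩⟩, ⟨⟨0, 0⟩, ⟨0, 1⟩⟩, ⟨⟨0, 0⟩, ⟨0, 0⟩⟩],
   [⟨⟨0, 0⟩, ⟨0, 0⟩⟩, ⟨⟨0, 1⟩, ⟨0, 0⟩⟩, ⟨⟨2, 0⟩, ⟨0, 0⟩⟩, ⟨⟨0, 1⟩, ⟨0, 0⟩⟩, ⟨⟨0, 0⟩, ⟨0, 0⟩⟩],
   [⟨⟨0, 0⟩, ⟨0, 0⟩⟩, ⟨⟨0, 0⟩, ⟨1, 0⟩⟩, ⟨⟨0, 1⟩, ⟨0, 0⟩⟩, ⟨⟨2, 0⟩, ⟨0, 0⟩⟩, ⟨⟨0, 0⟩, ⟨0, 0⟩⟩],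
   [⟨⟨0, 1⟩, ⟨0, 0⟩⟩, ⟨⟨0, 0⟩, ⟨0, 0⟩⟩, ⟨⟨0, 0⟩, ⟨0, 0⟩⟩, ⟨⟨0, 0⟩, ⟨0, 0⟩⟩, ⟨⟨2, 0⟩, ⟨0, 0⟩⟩]]

/-- The adjoint matrix of its first four rows and columns. -/
def adj : List (List (Qd PN)) :=
  [[⟨⟨2, 0⟩, ⟨0, 0⟩⟩, ⟨⟨3, 0⟩, ⟨0, 0⟩⟩, ⟨⟨2, 0⟩, ⟨1, 0⟩⟩, ⟨⟨1, 0⟩, ⟨2, 0⟩⟩],
   [⟨⟨3, 0⟩, ⟨0, 0⟩⟩, ⟨⟨6, 0⟩, ⟨0, 0⟩⟩, ⟨⟨4, 0⟩, ⟨2, 0⟩⟩, ⟨⟨2, 0⟩, ⟨4, 0⟩⟩],
   [⟨⟨2, 0⟩, ⟨0, 1⟩⟩, ⟨⟨4, 0⟩, ⟨0, 2⟩⟩, ⟨⟨4, 0⟩, ⟨0, 0⟩⟩, ⟨⟨3, 0⟩, ⟨2, 0⟩⟩],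
   [⟨⟨1, 0⟩, ⟨0, 2⟩⟩, ⟨⟨2, 0⟩, ⟨0, 4⟩⟩, ⟨⟨3, 0⟩, ⟨0, 2⟩⟩, ⟨⟨4, 0⟩, ⟨0, 0⟩⟩]]

/-- The roots, in the basis of the first four. -/
def rt : List (List (Qd PN)) :=
  [[⟨⟨1, 0⟩, ⟨0, 0⟩⟩, ⟨⟨0, 0⟩, ⟨0, 0⟩⟩, ⟨⟨0, 0⟩, ⟨0, 0⟩⟩, ⟨⟨0, 0⟩, ⟨0, 0⟩⟩],
   [⟨⟨0, 0⟩, ⟨0, 0⟩⟩, ⟨⟨1, 0⟩, ⟨0, 0⟩⟩, ⟨⟨0, 0⟩, ⟨0, 0⟩⟩, ⟨⟨0, 0⟩, ⟨0, 0⟩⟩],
   [⟨⟨0, 0⟩, ⟨0, 0⟩⟩, ⟨⟨0, 0⟩, ⟨0, 0⟩⟩, ⟨⟨1, 0⟩, ⟨0, 0⟩⟩, ⟨⟨0, 0⟩, ⟨0, 0⟩⟩],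
   [⟨⟨0, 0⟩, ⟨0, 0⟩⟩, ⟨⟨0, 0⟩, ⟨0, 0⟩⟩, ⟨⟨0, 0⟩, ⟨0, 0⟩⟩, ⟨⟨1, 0⟩, ⟨0, 0⟩⟩],
   [⟨⟨0, 2⟩, ⟨0, 0⟩⟩, ⟨⟨0, 3⟩, ⟨0, 0⟩⟩, ⟨⟨0, 2⟩, ⟨1, 0⟩⟩, ⟨⟨0, 1⟩, ⟨2, 0⟩⟩]]

/-- The determinant of the first four rows and columns. -/
def kap : Qd PN := ⟨⟨1, 0⟩, ⟨0, 0⟩⟩

/-- The zero of the ring. -/
def zr : Qd PN := ⟨⟨0, 0⟩, ⟨0, 0⟩⟩

theorem ck_det : dat.chkDet (lget zr car) (lget zr adj) kap = true := by decide +kernel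

theorem ck_mat : (allN 5 fun a => allN 4 fun i => allN 4 fun j =>
    cI.eq (cI.add (dat.mat a i j) (cI.mul (lget zr rt a i) (lget zr car a j)))
      (cI.nat (cond (Nat.beq i j) 1 0))) = true := by decide +kernel

theorem ck_rt : (allN 5 fun i => allN 5 fun j =>
    cI.eq (dat.sum 4 fun k => cI.mul (lget zr car j k) (lget zr rt i k)) (lget zr car j i)) =
      true := by decide +kernel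

theorem car_eq (i j : Fin 5) : cG31 i j = fI (lget zr car i j) := by
  fin_cases i <;> fin_cases j <;>
    simp [cG31, lget, car, fI, fq, fz]

/-- The first four generators. -/
def io (k : Fin 4) : Fin 5 := k.castSucc

/-- The roots. -/
def rtc (i : Fin 5) (k : Fin 4) : ℂ := fI (lget zr rt i k)

theorem hX (i j : Fin 5) : ∑ k, cG31 j (io k) * rtc i k = cG31 j i := by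
  obtain ⟨e, hc⟩ := crs_i
  have h1 := allN_iff.1 (allN_iff.1 ck_rt i i.2) j j.2
  have hc' : CRS dat.c fI e := hc
  rw [hc.eq, dat.sum_eq fI hc', Finset.sum_range] at h1
  rw [car_eq j i, ← h1]
  refine Finset.sum_congr rfl fun k _ => ?_
  rw [hc.mul, car_eq j (io k)]
  rfl

theorem hdet : (cG31.submatrix io io).det ≠ 0 := by
  obtain ⟨e, hc⟩ := crs_i
  have hc' : CRS dat.c fI e := hc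
  exact GD.det_of_car hc' (r := 4) rfl ck_det fun i j => by
    rw [Matrix.submatrix_apply, car_eq]
    rfl

theorem gp {G : Type} [Group G] {V : G →* Matrix (Fin 4) (Fin 4) ℂ} (hV : Function.Injective V)
    {γ : Fin 5 → G} (hcl : Subgroup.closure (Set.range γ) = ⊤)
    (hm : ∀ i, V (γ i) = 1 - vecMulVec (rtc i) (fun k => cG31 i (io k))) :
    GD.Gp dat fI V (fun a => if h : a < 5 then γ ⟨a, h⟩ else 1) where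
  hr := rfl
  inj := hV
  cl := by
    rw [← hcl]
    congr 1
    ext x
    constructor
    · rintro ⟨a, ha, rfl⟩
      have ha' : a < 5 := ha
      exact ⟨⟨a, ha'⟩, by simp [ha']⟩
    · rintro ⟨a, rfl⟩
      exact ⟨a, a.2, by simp⟩
  mat := by
    obtain ⟨e, hc⟩ := crs_i
    intro a ha
    have ha' : a < 5 := ha
    ext i j
    have h1 := allN_iff.1 (allN_iff.1 (allN_iff.1 ck_mat a ha') i i.2) j j.2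
    rw [hc.eq, hc.add, hc.mul, hc.nat] at h1
    rw [dif_pos ha', hm, Matrix.of_apply, Matrix.sub_apply, vecMulVec_apply, Matrix.one_apply]
    have h2 : Nat.beq (i : ℕ) (j : ℕ) = decide (i = j) := GD.beq_fin
    rw [h2] at h1
    have h3 : cG31 ⟨a, ha'⟩ (io j) = fI (lget zr car a j) := car_eq ⟨a, ha'⟩ (io j)
    have h4 : rtc ⟨a, ha'⟩ i = fI (lget zr rt a i) := rfl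
    rw [h3, h4]
    by_cases h5 : i = j
    · rw [decide_eq_true h5, cond_true, Nat.cast_one] at h1
      rw [if_pos h5]
      linear_combination -h1
    · rw [decide_eq_false h5, cond_false, Nat.cast_zero] at h1
      rw [if_neg h5]
      linear_combination -h1

/-- The property of the levels. -/
def SplitY {G : Type} [Group G] [Fintype G] {r : ℕ} (V : G →* Matrix (Fin r) (Fin r) ℂ) : Prop :=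
  OneCls V ∧ ∃ Y : MRep G → Prop, DimY V Y ∧ ConnXY V (IsolC V) Y

theorem split_of_cartan {G : Type} [Group G] [Fintype G] {n : ℕ}
    (W : G → Matrix (Fin n) (Fin n) ℂ) (hW : IsReflGroup W) (hC : HasCartan W cG31) :
    4 = n ∧ SplitY (homOf hW.1) :=
  prop_of_cartan hW hC (by norm_num) io rtc hX hdet (fun _ V => SplitY V)
    (fun _ _ _ hP h hc => ⟨oneCls_of_conj hP h hc.1, exists_dimY_of_conj hP h hc.2⟩)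
    fun _ hV _ hcl hm => splitY (gp hV hcl hm)

/-- Martino's conjecture for `G31`. -/
theorem mart {G : Type} [Group G] [Fintype G] {n : ℕ} (W : G → Matrix (Fin n) (Fin n) ℂ)
    (hW : IsReflGroup W) (hC : HasCartan W cG31) : Mart W := by
  obtain ⟨hn, ⟨h1, h2⟩, Y, h3, h4⟩ := split_of_cartan W hW hC
  exact mart_splitY (by omega) W hW h1 h2 Y h3 h4

end

end Pool.Agent.CMFn.G31
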