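import Pool.Agent.CMFn.MtB
import Pool.Agent.CMFn.CkQG33

/-! Project CMFn: Martino's conjecture for the group G33. -/

namespace Pool.Agent.CMFn.G33

open Matrix Pool.Agent.CMFP

noncomputable section

/-- The Cartan matrix. -/
def car : List (List (Qd PN)) :=
  [[⟨⟨2, 0⟩, ⟨0, 0⟩⟩, ⟨⟨0, 1⟩, ⟨0, 0⟩⟩, ⟨⟨0, 0⟩, ⟨0, 0⟩⟩, ⟨⟨0, 0⟩, ⟨0, 0⟩⟩, ⟨⟨0, 0⟩, ⟨0, 0⟩⟩],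
   [⟨⟨0, 1⟩, ⟨0, 0⟩⟩, ⟨⟨2, 0⟩, ⟨0, 0⟩⟩, ⟨⟨0, 1⟩, ⟨0, 0⟩⟩, ⟨⟨0, 0⟩, ⟨0, 1⟩⟩, ⟨⟨0, 0⟩, ⟨0, 0⟩⟩],
   [⟨⟨0, 0⟩, ⟨0, 0⟩⟩, ⟨⟨0, 1⟩, ⟨0, 0⟩⟩, ⟨⟨2, 0⟩, ⟨0, 0⟩⟩, ⟨⟨0, 1⟩, ⟨0, 0⟩⟩, ⟨⟨0, 0⟩, ⟨0, 0⟩⟩],
   [⟨⟨0, 0⟩, ⟨0, 0⟩⟩, ⟨⟨1, 0⟩, ⟨1, 0⟩⟩, ⟨⟨0, 1⟩, ⟨0, 0⟩⟩, ⟨⟨2, 0⟩, ⟨0, 0⟩⟩, ⟨⟨0, 1⟩, ⟨0, 0⟩⟩],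
   [⟨⟨0, 0⟩, ⟨0, 0⟩⟩, ⟨⟨0, 0⟩, ⟨0, 0⟩⟩, ⟨⟨0, 0⟩, ⟨0, 0⟩⟩, ⟨⟨0, 1⟩, ⟨0, 0⟩⟩, ⟨⟨2, 0⟩, ⟨0, 0⟩⟩]]

/-- Its adjoint matrix. -/
def adj : List (List (Qd PN)) :=
  [[⟨⟨3, 0⟩, ⟨0, 0⟩⟩, ⟨⟨4, 0⟩, ⟨0, 0⟩⟩, ⟨⟨3, 0⟩, ⟨2, 0⟩⟩, ⟨⟨2, 0⟩, ⟨4, 0⟩⟩, ⟨⟨1, 0⟩, ⟨2, 0⟩⟩],
   [⟨⟨4, 0⟩, ⟨0, 0⟩⟩, ⟨⟨8, 0⟩, ⟨0, 0⟩⟩, ⟨⟨6, 0⟩, ⟨4, 0⟩⟩, ⟨⟨4, 0⟩, ⟨8, 0⟩⟩, ⟨⟨2, 0⟩, ⟨4, 0⟩⟩],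
   [⟨⟨1, 0⟩, ⟨0, 2⟩⟩, ⟨⟨2, 0⟩, ⟨0, 4⟩⟩, ⟨⟨5, 0⟩, ⟨0, 0⟩⟩, ⟨⟨6, 0⟩, ⟨4, 0⟩⟩, ⟨⟨3, 0⟩, ⟨2, 0⟩⟩],
   [⟨⟨0, 2⟩, ⟨0, 4⟩⟩, ⟨⟨0, 4⟩, ⟨0, 8⟩⟩, ⟨⟨2, 0⟩, ⟨0, 4⟩⟩, ⟨⟨8, 0⟩, ⟨0, 0⟩⟩, ⟨⟨4, 0⟩, ⟨0, 0⟩⟩],
   [⟨⟨0, 1⟩, ⟨0, 2⟩⟩, ⟨⟨0, 2⟩, ⟨0, 4⟩⟩, ⟨⟨1, 0⟩, ⟨0, 2⟩⟩, ⟨⟨4, 0⟩, ⟨0, 0⟩⟩, ⟨⟨3, 0⟩, ⟨0, 0⟩⟩]]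

/-- Its determinant. -/
def kap : Qd PN := ⟨⟨2, 0⟩, ⟨0, 0⟩⟩

theorem ck_car : dat.chkCar (lget ⟨⟨0, 0⟩, ⟨0, 0⟩⟩ car) = true := by decide +kernel

theorem ck_det : dat.chkDet (lget ⟨⟨0, 0⟩, ⟨0, 0⟩⟩ car) (lget ⟨⟨0, 0⟩, ⟨0, 0⟩⟩ adj) kap = true := by decide +kernel

theorem car_eq (i j : Fin 5) : cG33 i j = fOm (lget ⟨⟨0, 0⟩, ⟨0, 0⟩⟩ car i j) := by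
  fin_cases i <;> fin_cases j <;>
    simp [cG33, lget, car, fOm, fq, fz, omeg, zOm] <;> ring_nf

theorem mart {G : Type} [Group G] [Fintype G] {n : ℕ} (W : G → Matrix (Fin n) (Fin n) ℂ)
    (hW : IsReflGroup W) (hC : HasCartan W cG33) : Mart W := by
  obtain ⟨e, hc⟩ := crs_om
  refine mart_of_certX (r := 5) hc rfl rfl (by norm_num) ck_car ck_det car_eq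
    (fun V γ hG => ⟨?_, ?_⟩) W hW hC
  · obtain ⟨lt, a, O⟩ := GD.cert hc hG ckA ckB
    exact oneCls_of (γ op0.gen) fun x hx =>
      GD.one_class hc hG ckA ckB O (by simp [dat]) (by decide) q_all hx
  · exact connIsol hG

end

end Pool.Agent.CMFn.G33
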