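import Pool.Agent.CMFn.QRk
import Pool.Agent.CMFn.CPar
import Pool.Agent.CMFn.RkEDefs

/-! Project CMFn: certificates for the rank criterion, eigenspaces of sums of reflections of
parabolic subgroups.  helper74. -/

namespace Pool.Agent.CMFn

open Matrix

noncomputable section

/-- Parabolic data, the number of the eigenvalue, the list of its multiplicities in the characters
of the level, the coefficient `pos - neg`, and the side: the representations with this eigenvalue
lie in `Y` (`true`) or outside `Y`. -/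
structure RkJ (α : Type) where
  P : PJ α
  u : ℕ
  rl : List ℕ
  pos : ℕ
  neg : ℕ
  side : Bool

variable {G : Type} [Group G] {r : ℕ} {V : G →* Matrix (Fin r) (Fin r) ℂ}
  {α : Type} {d : GD α} {φ : α → ℂ} {e : ℕ → ℂ} {γ : ℕ → G} {o : OD}

namespace RkJ

/-- The entry which belongs to the row `i`; `lv` is the list of the rows. -/
def rv (lv : List ℕ) (q : RkJ α) (i : ℕ) : ℕ :=
  List.rec 0 (fun x _ ih => cond (Nat.beq x.1 i) x.2 ih) (List.zip lv q.rl)

def has (lv : List ℕ) (q : RkJ α) (i : ℕ) : Bool :=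
  (List.zip lv q.rl).any fun x => Nat.beq x.1 i

lemma mem_of_has {lv : List ℕ} {q : RkJ α} {i : ℕ} (h : q.has lv i = true) :
    (i, q.rv lv i) ∈ List.zip lv q.rl := by
  unfold has at h
  unfold rv
  generalize List.zip lv q.rl = L at h ⊢
  induction L with
  | nil => simp at h
  | cons x L ih =>
    have h1 : (List.rec 0 (fun x _ ih => cond (Nat.beq x.1 i) x.2 ih) (x :: L) : ℕ) =
        cond (Nat.beq x.1 i) x.2 (List.rec 0 (fun x _ ih => cond (Nat.beq x.1 i) x.2 ih) L) := rfl
    rw [h1]
    cases h2 : Nat.beq x.1 i with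
    | true =>
      rw [cond_true]
      have h3 : x.1 = i := beq_iff.1 h2
      rw [← h3]
      exact List.mem_cons_self
    | false =>
      rw [cond_false]
      rw [List.any_cons, h2, Bool.false_or] at h
      exact List.mem_cons_of_mem _ (ih h)

/-- The eigenvalue. -/
def ev (q : RkJ α) : ℤ := ((q.P.evg q.u).1 : ℤ) - (q.P.evg q.u).2.1

end RkJ

namespace GD

/-- The multiplicities of the eigenvalue of `q`, for the rows in the list. -/
def chkRkE (d : GD α) (q : RkJ α) (lv : List ℕ) : Bool :=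
  (List.zip lv q.rl).all fun x => q.P.chkRk d q.u x.1 x.2

def posE (lv : List ℕ) (L : List (RkJ α)) (i : ℕ) : ℕ :=
  List.rec 0 (fun q _ ih => Nat.add (Nat.mul q.pos (q.rv lv i)) ih) L

def negE (lv : List ℕ) (L : List (RkJ α)) (i : ℕ) : ℕ :=
  List.rec 0 (fun q _ ih => Nat.add (Nat.mul q.neg (q.rv lv i)) ih) L

/-- The combination of the rank vectors, and purity; `μ` is a row of the level. -/
def chkSepE (d : GD α) (L : List (RkJ α)) (lv : List ℕ) (μ Y N : ℕ) : Bool :=
  allN d.K fun i => cond (d.difE μ i) true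
    (cond (Nat.beq (posE lv L i) (Nat.add (Nat.mul N (d.dimv i)) (negE lv L i)))
      (L.all fun q => cond (q.has lv i) (cond (bit Y i)
        (cond q.side true (Nat.beq (q.rv lv i) 0))
        (cond q.side (Nat.beq (q.rv lv i) 0) true)) false) false)

lemma posE_sub (lv : List ℕ) (L : List (RkJ α)) (i : ℕ) :
    (posE lv L i : ℤ) - negE lv L i = ∑ k : Fin L.length, (((L.get k).pos : ℤ) - (L.get k).neg) *
      ((L.get k).rv lv i : ℤ) := by
  induction L with
  | nil => rfl
  | cons q L ih =>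
    have h1 : posE lv (q :: L) i = q.pos * q.rv lv i + posE lv L i := rfl
    have h2 : negE lv (q :: L) i = q.neg * q.rv lv i + negE lv L i := rfl
    rw [h1, h2]
    have h3 := Fin.sum_univ_succ (fun k : Fin (q :: L).length =>
      ((((q :: L).get k).pos : ℤ) - ((q :: L).get k).neg) * (((q :: L).get k).rv lv i : ℤ))
    refine Eq.trans ?_ h3.symm
    have h4 : ∑ k : Fin L.length, ((((q :: L).get k.succ).pos : ℤ) - ((q :: L).get k.succ).neg) *
        (((q :: L).get k.succ).rv lv i : ℤ) = (posE lv L i : ℤ) - negE lv L i := by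
      rw [ih]; rfl
    have h5 : ((q :: L).get (0 : Fin (L.length + 1))) = q := rfl
    rw [h4, h5]
    push_cast
    ring

/-- The multiplicities depend only on the character. -/
theorem rkE_congr [Fintype G] (hc : CRS d.c φ e) (hG : Gp d φ V γ) (CA : CkA d)
    (tt : d.chkT = true) {lt : ℕ → G} {a : ℕ → MRep G} (O : Out d φ V γ lt a) (ho : o ∈ d.ops)
    (hg : o.gen < d.ng) {P : PJ α} (C : P.Ck d o) {u : ℕ} (hu : u < P.ev.length) {b b' : MRep G}
    (h : ∀ x, (b.2 x).trace = (b'.2 x).trace) :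
    rkE V (P.toPD.vec d φ r) ((P.evg u).1 - (P.evg u).2.1) b =
      rkE V (P.toPD.vec d φ r) ((P.evg u).1 - (P.evg u).2.1) b' := by
  have hN : (P.N : ℂ) ≠ 0 := by
    have hhd := C.hd
    unfold PJ.chkHd at hhd
    simp only [cond_iff, blt_iff] at hhd
    exact_mod_cast hhd.2.2.1.ne'
  have h1 := rk_form hc hG CA tt O ho hg C hu b
  have h2 := rk_form hc hG CA tt O ho hg C hu b'
  simp only [h] at h1
  rw [← h2] at h1
  exact_mod_cast mul_left_cancel₀ hN h1

theorem sepE_cert [Fintype G] (hc : CRS d.c φ e) (hG : Gp d φ V γ) (CA : CkA d)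
    (tt : d.chkT = true) {lt : ℕ → G} {a : ℕ → MRep G} (O : Out d φ V γ lt a) (ho : o ∈ d.ops)
    (hg : o.gen < d.ng) (L : List (RkJ α)) (lv : List ℕ) {μ Y N : ℕ} (hN : 0 < N) (hμ : μ < d.K)
    (C : ∀ q ∈ L, q.P.Ck d o) (hR : ∀ q ∈ L, d.chkRkE q lv = true)
    (hS : d.chkSepE L lv μ Y N = true) : RankSepE V (d.InS a Y) (a μ) := by
  have hw : ∀ b : MRep G, IsIrr b.2 → SameLevel V (a μ) b → ∀ i < d.K, b.1 = (a i).1 →
      (∀ x, (b.2 x).trace = ((a i).2 x).trace) → d.difE μ i = false := by
    intro b hb hl i hi h1 h2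
    cases h3 : d.difE μ i with
    | false => rfl
    | true =>
      exfalso
      exact difE_of hc O hμ hi h3 (sameLevel_symm (sameLevel_left h1 h2 (sameLevel_symm hl)))
  have hrk : ∀ q ∈ L, ∀ b : MRep G, ∀ i < d.K, q.has lv i = true →
      (∀ x, (b.2 x).trace = ((a i).2 x).trace) →
      rkE V (q.P.toPD.vec d φ r) (q.ev : ℂ) b = q.rv lv i := by
    intro q hq b i hi hh h2
    have h3 := hR q hq
    unfold chkRkE at h3
    have h4 : q.P.chkRk d q.u i (q.rv lv i) = true :=
      List.all_eq_true.1 h3 _ (RkJ.mem_of_has hh)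
    have hu : q.u < q.P.ev.length := by
      have h5 := h4
      unfold PJ.chkRk at h5
      simp only [cond_iff, blt_iff] at h5
      exact h5.1
    have he : (q.ev : ℂ) = ((q.P.evg q.u).1 - (q.P.evg q.u).2.1 : ℂ) := by
      unfold RkJ.ev
      push_cast
      ring
    rw [he, rkE_congr hc hG CA tt O ho hg (C q hq) hu h2]
    exact rk_cert hc hG CA tt O ho hg (C q hq) h4 hi
  unfold chkSepE at hS
  rw [allN_iff] at hS
  have hS' : ∀ i < d.K, d.difE μ i = false →
      posE lv L i = N * d.dimv i + negE lv L i ∧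
      ∀ q ∈ L, q.has lv i = true ∧ cond (bit Y i) (cond q.side true (Nat.beq (q.rv lv i) 0))
        (cond q.side (Nat.beq (q.rv lv i) 0) true) = true := by
    intro i hi hd
    have h3 := hS i hi
    rw [hd, cond_false, cond_iff, beq_iff] at h3
    exact ⟨h3.1, fun q hq => cond_iff.1 (List.all_eq_true.1 h3.2 q hq)⟩
  refine ⟨N, L.length, fun k => (L.get k).P.toPD.vec d φ r, fun k => (L.get k).ev,
    fun k => ((L.get k).pos : ℤ) - (L.get k).neg, hN, ?_, ?_⟩
  · intro b hb hl
    obtain ⟨i, hi, h1, h2⟩ := O.compl b hb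
    have hd := hw b hb hl i hi h1 h2
    obtain ⟨h4, h3⟩ := hS' i hi hd
    have h5 := posE_sub lv L i
    rw [h4] at h5
    push_cast at h5
    have h6 : ((N : ℤ) * d.dimv i) = ∑ k : Fin L.length, (((L.get k).pos : ℤ) - (L.get k).neg) *
        ((L.get k).rv lv i : ℤ) := by
      rw [← h5]; ring
    rw [h1, (O.irr i hi).2.1, h6]
    refine Finset.sum_congr rfl fun k _ => ?_
    rw [hrk (L.get k) (L.get_mem k) b i hi (h3 _ (L.get_mem k)).1 h2]
  · intro k
    have hq := L.get_mem k
    cases hs : (L.get k).side with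
    | false =>
      left
      rintro b hb hl ⟨i, hi, hY, h1, h2⟩
      have hd := hw b hb hl i hi h1 h2
      obtain ⟨h3, h4⟩ := (hS' i hi hd).2 _ hq
      rw [hY, cond_true, hs, cond_false, beq_iff] at h4
      rw [hrk _ hq b i hi h3 h2, h4]
    | true =>
      right
      intro b hb hl hnY
      obtain ⟨i, hi, h1, h2⟩ := O.compl b hb
      have hd := hw b hb hl i hi h1 h2
      obtain ⟨h3, h4⟩ := (hS' i hi hd).2 _ hq
      have hY : bit Y i = false := by
        cases hY : bit Y i with
        | false => rfl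
        | true => exact absurd ⟨i, hi, hY, h1, h2⟩ hnY
      rw [hY, cond_false, hs, cond_true, beq_iff] at h4
      rw [hrk _ hq b i hi h3 h2, h4]

end GD

end

end Pool.Agent.CMFn
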