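import Pool.Agent.CMFn.CkQG34
import Pool.Agent.CMFn.CkPG34
import Pool.Agent.CMFn.QRkE

/-! Project CMFn: the rank certificates for the levels of G34 (certificates of helper66).
helper74 (generated). -/

namespace Pool.Agent.CMFn.G34

open GD

noncomputable section

/-- 14 times the eigenvalue 6 of the type G335, level -18. -/
def qG335_m18_p6 : RkJ (Qd PN) := ⟨pjG335, 9, rkG335_m18_p6, 14, 0, false⟩

/-- 21 times the eigenvalue 3 of the type G335, level -18. -/
def qG335_m18_p3 : RkJ (Qd PN) := ⟨pjG335, 8, rkG335_m18_p3, 21, 0, true⟩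

/-- 105 times the eigenvalue -15 of the type G335, level -18. -/
def qG335_m18_m15 : RkJ (Qd PN) := ⟨pjG335, 2, rkG335_m18_m15, 105, 0, false⟩

/-- 280 times the eigenvalue 9 of the type A2A3, level -18. -/
def qA2A3_m18_p9 : RkJ (Qd PN) := ⟨pjA2A3, 12, rkA2A3_m18_p9, 280, 0, true⟩

def L_m18 : List (RkJ (Qd PN)) := [qG335_m18_p6, qG335_m18_p3, qG335_m18_m15, qA2A3_m18_p9]

theorem S_m18 : GD.chkSepE dat L_m18 lvm18 62 yset 2 = true := by decide +kernel

theorem R_m18 : ∀ q ∈ L_m18, GD.chkRkE dat q lvm18 = true := by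
  intro q hq
  simp only [L_m18, List.mem_cons, List.not_mem_nil, or_false] at hq
  rcases hq with h | h | h | h
  · subst h; exact c_rkG335_m18_p6
  · subst h; exact c_rkG335_m18_p3
  · subst h; exact c_rkG335_m18_m15
  · subst h; exact c_rkA2A3_m18_p9

theorem C_m18 : ∀ q ∈ L_m18, q.P.Ck dat op0 := by
  intro q hq
  simp only [L_m18, List.mem_cons, List.not_mem_nil, or_false] at hq
  rcases hq with h | h | h | h
  · subst h; exact p_ckG335
  · subst h; exact p_ckG335
  · subst h; exact p_ckG335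
  · subst h; exact p_ckA2A3

/-- The level -18. -/
theorem sep_m18 {G : Type} [Group G] [Fintype G] {V : G →* Matrix (Fin 6) (Fin 6) ℂ}
    {γ : ℕ → G} (hG : Gp dat fOm V γ) {lt : ℕ → G} {a : ℕ → MRep G} (O : Out dat fOm V γ lt a) :
    RankSepE V (dat.InS a yset) (a 62) := by
  obtain ⟨e, hc⟩ := crs_om
  have hc' : CRS dat.c fOm e := hc
  exact GD.sepE_cert hc' hG ckA ck_tt O (List.mem_singleton_self op0) (by decide) L_m18 lvm18
    (by decide) (by decide) C_m18 R_m18 S_m18

/-- 630 times the eigenvalue 11 of the type A1A4, level -12. -/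
def qA1A4_m12_p11 : RkJ (Qd PN) := ⟨pjA1A4, 11, rkA1A4_m12_p11, 630, 0, true⟩

/-- 210 times the eigenvalue 8 of the type A1G333, level -12. -/
def qA1G333_m12_p8 : RkJ (Qd PN) := ⟨pjA1G333, 8, rkA1G333_m12_p8, 210, 0, false⟩

def L_m12 : List (RkJ (Qd PN)) := [qA1A4_m12_p11, qA1G333_m12_p8]

theorem S_m12 : GD.chkSepE dat L_m12 lvm12 133 yset 1 = true := by decide +kernel

theorem R_m12 : ∀ q ∈ L_m12, GD.chkRkE dat q lvm12 = true := by
  intro q hq
  simp only [L_m12, List.mem_cons, List.not_mem_nil, or_false] at hq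
  rcases hq with h | h
  · subst h; exact c_rkA1A4_m12_p11
  · subst h; exact c_rkA1G333_m12_p8

theorem C_m12 : ∀ q ∈ L_m12, q.P.Ck dat op0 := by
  intro q hq
  simp only [L_m12, List.mem_cons, List.not_mem_nil, or_false] at hq
  rcases hq with h | h
  · subst h; exact p_ckA1A4
  · subst h; exact p_ckA1G333

/-- The level -12. -/
theorem sep_m12 {G : Type} [Group G] [Fintype G] {V : G →* Matrix (Fin 6) (Fin 6) ℂ}
    {γ : ℕ → G} (hG : Gp dat fOm V γ) {lt : ℕ → G} {a : ℕ → MRep G} (O : Out dat fOm V γ lt a) :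
    RankSepE V (dat.InS a yset) (a 133) := by
  obtain ⟨e, hc⟩ := crs_om
  have hc' : CRS dat.c fOm e := hc
  exact GD.sepE_cert hc' hG ckA ck_tt O (List.mem_singleton_self op0) (by decide) L_m12 lvm12
    (by decide) (by decide) C_m12 R_m12 S_m12

/-- 210 times the eigenvalue 9 of the type G33, level -6. -/
def qG33_m6_p9 : RkJ (Qd PN) := ⟨pjG33, 10, rkG33_m6_p9, 210, 0, false⟩

/-- 350 times the eigenvalue -15 of the type G33, level -6. -/
def qG33_m6_m15 : RkJ (Qd PN) := ⟨pjG33, 3, rkG33_m6_m15, 350, 0, false⟩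

/-- 1260 times the eigenvalue 12 of the type G335, level -6. -/
def qG335_m6_p12 : RkJ (Qd PN) := ⟨pjG335, 11, rkG335_m6_p12, 1260, 0, true⟩

/-- -189 times the eigenvalue 9 of the type G335, level -6. -/
def qG335_m6_p9 : RkJ (Qd PN) := ⟨pjG335, 10, rkG335_m6_p9, 0, 189, false⟩

/-- -1155 times the eigenvalue -15 of the type G335, level -6. -/
def qG335_m6_m15 : RkJ (Qd PN) := ⟨pjG335, 2, rkG335_m6_m15, 0, 1155, false⟩

def L_m6 : List (RkJ (Qd PN)) := [qG33_m6_p9, qG33_m6_m15, qG335_m6_p12, qG335_m6_p9, qG335_m6_m15]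

theorem S_m6 : GD.chkSepE dat L_m6 lvm6 135 yset 20 = true := by decide +kernel

theorem R_m6 : ∀ q ∈ L_m6, GD.chkRkE dat q lvm6 = true := by
  intro q hq
  simp only [L_m6, List.mem_cons, List.not_mem_nil, or_false] at hq
  rcases hq with h | h | h | h | h
  · subst h; exact c_rkG33_m6_p9
  · subst h; exact c_rkG33_m6_m15
  · subst h; exact c_rkG335_m6_p12
  · subst h; exact c_rkG335_m6_p9
  · subst h; exact c_rkG335_m6_m15

theorem C_m6 : ∀ q ∈ L_m6, q.P.Ck dat op0 := by
  intro q hq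
  simp only [L_m6, List.mem_cons, List.not_mem_nil, or_false] at hq
  rcases hq with h | h | h | h | h
  · subst h; exact p_ckG33
  · subst h; exact p_ckG33
  · subst h; exact p_ckG335
  · subst h; exact p_ckG335
  · subst h; exact p_ckG335

/-- The level -6. -/
theorem sep_m6 {G : Type} [Group G] [Fintype G] {V : G →* Matrix (Fin 6) (Fin 6) ℂ}
    {γ : ℕ → G} (hG : Gp dat fOm V γ) {lt : ℕ → G} {a : ℕ → MRep G} (O : Out dat fOm V γ lt a) :
    RankSepE V (dat.InS a yset) (a 135) := by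
  obtain ⟨e, hc⟩ := crs_om
  have hc' : CRS dat.c fOm e := hc
  exact GD.sepE_cert hc' hG ckA ck_tt O (List.mem_singleton_self op0) (by decide) L_m6 lvm6
    (by decide) (by decide) C_m6 R_m6 S_m6

/-- 70 times the eigenvalue -15 of the type G33, level 0. -/
def qG33_0_m15 : RkJ (Qd PN) := ⟨pjG33, 3, rkG33_0_m15, 70, 0, true⟩

/-- 6 times the eigenvalue -9 of the type G33, level 0. -/
def qG33_0_m9 : RkJ (Qd PN) := ⟨pjG33, 4, rkG33_0_m9, 6, 0, false⟩

/-- -105 times the eigenvalue -15 of the type G335, level 0. -/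
def qG335_0_m15 : RkJ (Qd PN) := ⟨pjG335, 2, rkG335_0_m15, 0, 105, true⟩

/-- 114 times the eigenvalue -12 of the type G335, level 0. -/
def qG335_0_m12 : RkJ (Qd PN) := ⟨pjG335, 3, rkG335_0_m12, 114, 0, false⟩

/-- 360 times the eigenvalue -15 of the type A5, level 0. -/
def qA5_0_m15 : RkJ (Qd PN) := ⟨pjA5, 0, rkA5_0_m15, 360, 0, false⟩

/-- 360 times the eigenvalue 15 of the type A5, level 0. -/
def qA5_0_p15 : RkJ (Qd PN) := ⟨pjA5, 8, rkA5_0_p15, 360, 0, false⟩

def L_0 : List (RkJ (Qd PN)) := [qG33_0_m15, qG33_0_m9, qG335_0_m15, qG335_0_m12, qA5_0_m15, qA5_0_p15]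

theorem S_0 : GD.chkSepE dat L_0 lv0 60 yset 3 = true := by decide +kernel

theorem R_0 : ∀ q ∈ L_0, GD.chkRkE dat q lv0 = true := by
  intro q hq
  simp only [L_0, List.mem_cons, List.not_mem_nil, or_false] at hq
  rcases hq with h | h | h | h | h | h
  · subst h; exact c_rkG33_0_m15
  · subst h; exact c_rkG33_0_m9
  · subst h; exact c_rkG335_0_m15
  · subst h; exact c_rkG335_0_m12
  · subst h; exact c_rkA5_0_m15
  · subst h; exact c_rkA5_0_p15

theorem C_0 : ∀ q ∈ L_0, q.P.Ck dat op0 := by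
  intro q hq
  simp only [L_0, List.mem_cons, List.not_mem_nil, or_false] at hq
  rcases hq with h | h | h | h | h | h
  · subst h; exact p_ckG33
  · subst h; exact p_ckG33
  · subst h; exact p_ckG335
  · subst h; exact p_ckG335
  · subst h; exact p_ckA5
  · subst h; exact p_ckA5

/-- The level 0. -/
theorem sep_0 {G : Type} [Group G] [Fintype G] {V : G →* Matrix (Fin 6) (Fin 6) ℂ}
    {γ : ℕ → G} (hG : Gp dat fOm V γ) {lt : ℕ → G} {a : ℕ → MRep G} (O : Out dat fOm V γ lt a) :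
    RankSepE V (dat.InS a yset) (a 60) := by
  obtain ⟨e, hc⟩ := crs_om
  have hc' : CRS dat.c fOm e := hc
  exact GD.sepE_cert hc' hG ckA ck_tt O (List.mem_singleton_self op0) (by decide) L_0 lv0
    (by decide) (by decide) C_0 R_0 S_0

/-- 210 times the eigenvalue -9 of the type G33, level 6. -/
def qG33_p6_m9 : RkJ (Qd PN) := ⟨pjG33, 4, rkG33_p6_m9, 210, 0, false⟩

/-- 350 times the eigenvalue 15 of the type G33, level 6. -/
def qG33_p6_p15 : RkJ (Qd PN) := ⟨pjG33, 11, rkG33_p6_p15, 350, 0, false⟩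

/-- 1260 times the eigenvalue -12 of the type G335, level 6. -/
def qG335_p6_m12 : RkJ (Qd PN) := ⟨pjG335, 3, rkG335_p6_m12, 1260, 0, true⟩

/-- -189 times the eigenvalue -9 of the type G335, level 6. -/
def qG335_p6_m9 : RkJ (Qd PN) := ⟨pjG335, 4, rkG335_p6_m9, 0, 189, false⟩

/-- -1155 times the eigenvalue 15 of the type G335, level 6. -/
def qG335_p6_p15 : RkJ (Qd PN) := ⟨pjG335, 12, rkG335_p6_p15, 0, 1155, false⟩

def L_p6 : List (RkJ (Qd PN)) := [qG33_p6_m9, qG33_p6_p15, qG335_p6_m12, qG335_p6_m9, qG335_p6_p15]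

theorem S_p6 : GD.chkSepE dat L_p6 lvp6 127 yset 20 = true := by decide +kernel

theorem R_p6 : ∀ q ∈ L_p6, GD.chkRkE dat q lvp6 = true := by
  intro q hq
  simp only [L_p6, List.mem_cons, List.not_mem_nil, or_false] at hq
  rcases hq with h | h | h | h | h
  · subst h; exact c_rkG33_p6_m9
  · subst h; exact c_rkG33_p6_p15
  · subst h; exact c_rkG335_p6_m12
  · subst h; exact c_rkG335_p6_m9
  · subst h; exact c_rkG335_p6_p15

theorem C_p6 : ∀ q ∈ L_p6, q.P.Ck dat op0 := by
  intro q hq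
  simp only [L_p6, List.mem_cons, List.not_mem_nil, or_false] at hq
  rcases hq with h | h | h | h | h
  · subst h; exact p_ckG33
  · subst h; exact p_ckG33
  · subst h; exact p_ckG335
  · subst h; exact p_ckG335
  · subst h; exact p_ckG335

/-- The level 6. -/
theorem sep_p6 {G : Type} [Group G] [Fintype G] {V : G →* Matrix (Fin 6) (Fin 6) ℂ}
    {γ : ℕ → G} (hG : Gp dat fOm V γ) {lt : ℕ → G} {a : ℕ → MRep G} (O : Out dat fOm V γ lt a) :
    RankSepE V (dat.InS a yset) (a 127) := by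
  obtain ⟨e, hc⟩ := crs_om
  have hc' : CRS dat.c fOm e := hc
  exact GD.sepE_cert hc' hG ckA ck_tt O (List.mem_singleton_self op0) (by decide) L_p6 lvp6
    (by decide) (by decide) C_p6 R_p6 S_p6

/-- 630 times the eigenvalue -11 of the type A1A4, level 12. -/
def qA1A4_p12_m11 : RkJ (Qd PN) := ⟨pjA1A4, 0, rkA1A4_p12_m11, 630, 0, true⟩

/-- 210 times the eigenvalue -8 of the type A1G333, level 12. -/
def qA1G333_p12_m8 : RkJ (Qd PN) := ⟨pjA1G333, 1, rkA1G333_p12_m8, 210, 0, false⟩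

def L_p12 : List (RkJ (Qd PN)) := [qA1A4_p12_m11, qA1G333_p12_m8]

theorem S_p12 : GD.chkSepE dat L_p12 lvp12 130 yset 1 = true := by decide +kernel

theorem R_p12 : ∀ q ∈ L_p12, GD.chkRkE dat q lvp12 = true := by
  intro q hq
  simp only [L_p12, List.mem_cons, List.not_mem_nil, or_false] at hq
  rcases hq with h | h
  · subst h; exact c_rkA1A4_p12_m11
  · subst h; exact c_rkA1G333_p12_m8

theorem C_p12 : ∀ q ∈ L_p12, q.P.Ck dat op0 := by
  intro q hq
  simp only [L_p12, List.mem_cons, List.not_mem_nil, or_false] at hq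
  rcases hq with h | h
  · subst h; exact p_ckA1A4
  · subst h; exact p_ckA1G333

/-- The level 12. -/
theorem sep_p12 {G : Type} [Group G] [Fintype G] {V : G →* Matrix (Fin 6) (Fin 6) ℂ}
    {γ : ℕ → G} (hG : Gp dat fOm V γ) {lt : ℕ → G} {a : ℕ → MRep G} (O : Out dat fOm V γ lt a) :
    RankSepE V (dat.InS a yset) (a 130) := by
  obtain ⟨e, hc⟩ := crs_om
  have hc' : CRS dat.c fOm e := hc
  exact GD.sepE_cert hc' hG ckA ck_tt O (List.mem_singleton_self op0) (by decide) L_p12 lvp12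
    (by decide) (by decide) C_p12 R_p12 S_p12

/-- 14 times the eigenvalue -6 of the type G335, level 18. -/
def qG335_p18_m6 : RkJ (Qd PN) := ⟨pjG335, 5, rkG335_p18_m6, 14, 0, false⟩

/-- 21 times the eigenvalue -3 of the type G335, level 18. -/
def qG335_p18_m3 : RkJ (Qd PN) := ⟨pjG335, 6, rkG335_p18_m3, 21, 0, true⟩

/-- 105 times the eigenvalue 15 of the type G335, level 18. -/
def qG335_p18_p15 : RkJ (Qd PN) := ⟨pjG335, 12, rkG335_p18_p15, 105, 0, false⟩

/-- 280 times the eigenvalue -9 of the type A2A3, level 18. -/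
def qA2A3_p18_m9 : RkJ (Qd PN) := ⟨pjA2A3, 0, rkA2A3_p18_m9, 280, 0, true⟩

def L_p18 : List (RkJ (Qd PN)) := [qG335_p18_m6, qG335_p18_m3, qG335_p18_p15, qA2A3_p18_m9]

theorem S_p18 : GD.chkSepE dat L_p18 lvp18 61 yset 2 = true := by decide +kernel

theorem R_p18 : ∀ q ∈ L_p18, GD.chkRkE dat q lvp18 = true := by
  intro q hq
  simp only [L_p18, List.mem_cons, List.not_mem_nil, or_false] at hq
  rcases hq with h | h | h | h
  · subst h; exact c_rkG335_p18_m6
  · subst h; exact c_rkG335_p18_m3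
  · subst h; exact c_rkG335_p18_p15
  · subst h; exact c_rkA2A3_p18_m9

theorem C_p18 : ∀ q ∈ L_p18, q.P.Ck dat op0 := by
  intro q hq
  simp only [L_p18, List.mem_cons, List.not_mem_nil, or_false] at hq
  rcases hq with h | h | h | h
  · subst h; exact p_ckG335
  · subst h; exact p_ckG335
  · subst h; exact p_ckG335
  · subst h; exact p_ckA2A3

/-- The level 18. -/
theorem sep_p18 {G : Type} [Group G] [Fintype G] {V : G →* Matrix (Fin 6) (Fin 6) ℂ}
    {γ : ℕ → G} (hG : Gp dat fOm V γ) {lt : ℕ → G} {a : ℕ → MRep G} (O : Out dat fOm V γ lt a) :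
    RankSepE V (dat.InS a yset) (a 61) := by
  obtain ⟨e, hc⟩ := crs_om
  have hc' : CRS dat.c fOm e := hc
  exact GD.sepE_cert hc' hG ckA ck_tt O (List.mem_singleton_self op0) (by decide) L_p18 lvp18
    (by decide) (by decide) C_p18 R_p18 S_p18

end

end Pool.Agent.CMFn.G34
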