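import Pool.Agent.CMFn.RkMt
import Pool.Agent.CMFn.CkQG34
import Pool.Agent.CMFn.QRkG34

/-! Project CMFn: Martino's conjecture for the group G34. -/

namespace Pool.Agent.CMFn.G34

open Matrix Pool.Agent.CMFP

noncomputable section

/-- The Cartan matrix. -/
def car : List (List (Qd PN)) :=
  [[⟨⟨2, 0⟩, ⟨0, 0⟩⟩, ⟨⟨0, 1⟩, ⟨0, 0⟩⟩, ⟨⟨0, 0⟩, ⟨0, 0⟩⟩, ⟨⟨0, 0⟩, ⟨0, 0⟩⟩, ⟨⟨0, 0⟩, ⟨0, 0⟩⟩, ⟨⟨0, 0⟩, ⟨0, 0⟩⟩],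
   [⟨⟨0, 1⟩, ⟨0, 0⟩⟩, ⟨⟨2, 0⟩, ⟨0, 0⟩⟩, ⟨⟨0, 1⟩, ⟨0, 0⟩⟩, ⟨⟨0, 0⟩, ⟨0, 1⟩⟩, ⟨⟨0, 0⟩, ⟨0, 0⟩⟩, ⟨⟨0, 0⟩, ⟨0, 0⟩⟩],
   [⟨⟨0, 0⟩, ⟨0, 0⟩⟩, ⟨⟨0, 1⟩, ⟨0, 0⟩⟩, ⟨⟨2, 0⟩, ⟨0, 0⟩⟩, ⟨⟨0, 1⟩, ⟨0, 0⟩⟩, ⟨⟨0, 0⟩, ⟨0, 0⟩⟩, ⟨⟨0, 0⟩, ⟨0, 0⟩⟩],
   [⟨⟨0, 0⟩, ⟨0, 0⟩⟩, ⟨⟨1, 0⟩, ⟨1, 0⟩⟩, ⟨⟨0, 1⟩, ⟨0, 0⟩⟩, ⟨⟨2, 0⟩, ⟨0, 0⟩⟩, ⟨⟨0, 1⟩, ⟨0, 0⟩⟩, ⟨⟨0, 0⟩, ⟨0, 0⟩⟩],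
   [⟨⟨0, 0⟩, ⟨0, 0⟩⟩, ⟨⟨0, 0⟩, ⟨0, 0⟩⟩, ⟨⟨0, 0⟩, ⟨0, 0⟩⟩, ⟨⟨0, 1⟩, ⟨0, 0⟩⟩, ⟨⟨2, 0⟩, ⟨0, 0⟩⟩, ⟨⟨0, 1⟩, ⟨0, 0⟩⟩],
   [⟨⟨0, 0⟩, ⟨0, 0⟩⟩, ⟨⟨0, 0⟩, ⟨0, 0⟩⟩, ⟨⟨0, 0⟩, ⟨0, 0⟩⟩, ⟨⟨0, 0⟩, ⟨0, 0⟩⟩, ⟨⟨0, 1⟩, ⟨0, 0⟩⟩, ⟨⟨2, 0⟩, ⟨0, 0⟩⟩]]

/-- Its adjoint matrix. -/
def adj : List (List (Qd PN)) :=
  [[⟨⟨3, 0⟩, ⟨0, 0⟩⟩, ⟨⟨5, 0⟩, ⟨0, 0⟩⟩, ⟨⟨4, 0⟩, ⟨3, 0⟩⟩, ⟨⟨3, 0⟩, ⟨6, 0⟩⟩, ⟨⟨2, 0⟩, ⟨4, 0⟩⟩, ⟨⟨1, 0⟩, ⟨2, 0⟩⟩],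
   [⟨⟨5, 0⟩, ⟨0, 0⟩⟩, ⟨⟨10, 0⟩, ⟨0, 0⟩⟩, ⟨⟨8, 0⟩, ⟨6, 0⟩⟩, ⟨⟨6, 0⟩, ⟨12, 0⟩⟩, ⟨⟨4, 0⟩, ⟨8, 0⟩⟩, ⟨⟨2, 0⟩, ⟨4, 0⟩⟩],
   [⟨⟨1, 0⟩, ⟨0, 3⟩⟩, ⟨⟨2, 0⟩, ⟨0, 6⟩⟩, ⟨⟨6, 0⟩, ⟨0, 0⟩⟩, ⟨⟨9, 0⟩, ⟨6, 0⟩⟩, ⟨⟨6, 0⟩, ⟨4, 0⟩⟩, ⟨⟨3, 0⟩, ⟨2, 0⟩⟩],
   [⟨⟨0, 3⟩, ⟨0, 6⟩⟩, ⟨⟨0, 6⟩, ⟨0, 12⟩⟩, ⟨⟨3, 0⟩, ⟨0, 6⟩⟩, ⟨⟨12, 0⟩, ⟨0, 0⟩⟩, ⟨⟨8, 0⟩, ⟨0, 0⟩⟩, ⟨⟨4, 0⟩, ⟨0, 0⟩⟩],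
   [⟨⟨0, 2⟩, ⟨0, 4⟩⟩, ⟨⟨0, 4⟩, ⟨0, 8⟩⟩, ⟨⟨2, 0⟩, ⟨0, 4⟩⟩, ⟨⟨8, 0⟩, ⟨0, 0⟩⟩, ⟨⟨6, 0⟩, ⟨0, 0⟩⟩, ⟨⟨3, 0⟩, ⟨0, 0⟩⟩],
   [⟨⟨0, 1⟩, ⟨0, 2⟩⟩, ⟨⟨0, 2⟩, ⟨0, 4⟩⟩, ⟨⟨1, 0⟩, ⟨0, 2⟩⟩, ⟨⟨4, 0⟩, ⟨0, 0⟩⟩, ⟨⟨3, 0⟩, ⟨0, 0⟩⟩, ⟨⟨2, 0⟩, ⟨0, 0⟩⟩]]

/-- Its determinant. -/
def kap : Qd PN := ⟨⟨1, 0⟩, ⟨0, 0⟩⟩

theorem ck_car : dat.chkCar (lget ⟨⟨0, 0⟩, ⟨0, 0⟩⟩ car) = true := by decide +kernel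

theorem ck_det : dat.chkDet (lget ⟨⟨0, 0⟩, ⟨0, 0⟩⟩ car) (lget ⟨⟨0, 0⟩, ⟨0, 0⟩⟩ adj) kap = true := by decide +kernel

theorem car_eq (i j : Fin 6) : cG34 i j = fOm (lget ⟨⟨0, 0⟩, ⟨0, 0⟩⟩ car i j) := by
  fin_cases i <;> fin_cases j <;>
    simp [cG34, lget, car, fOm, fq, fz, omeg, zOm]

/-- Every row of `yset` has the label, hence the level, of one of the rows 60, 61, 62, 127, 135,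
130, 133. -/
theorem ck_cov : (allN dat.K fun i => cond (GD.bit yset i)
    ([60, 61, 62, 127, 135, 130, 133].any fun j =>
      cond (Nat.blt j dat.K) (Nat.beq (dat.labv i) (dat.labv j)) false) true) = true := by
  decide +kernel

/-- The levels are cut by rank certificates and connected up to isolated characters. -/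
theorem splitE {G : Type} [Group G] [Fintype G] {V : G →* Matrix (Fin 6) (Fin 6) ℂ} {γ : ℕ → G}
    (hG : GD.Gp dat fOm V γ) : OneCls V ∧ SplitE V := by
  obtain ⟨e, hc⟩ := crs_om
  obtain ⟨lt, a, O⟩ := main hG
  refine ⟨oneCls_of (γ op0.gen) fun x hx =>
      GD.one_classP hc hG ckA ck_tt O (by simp [dat]) (by decide) ck_par0 q_all hx,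
    dat.InS a yset, O.rankSepE_all _ ck_cov fun j hj => ?_, ?_⟩
  · simp only [List.mem_cons, List.not_mem_nil, or_false] at hj
    rcases hj with rfl | rfl | rfl | rfl | rfl | rfl | rfl
    · exact sep_0 hG O
    · exact sep_p18 hG O
    · exact sep_m18 hG O
    · exact sep_p6 hG O
    · exact sep_m6 hG O
    · exact sep_p12 hG O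
    · exact sep_m12 hG O
  · exact connXY_mono (fun a h => Or.inl h) (O.connYS hc (Isol V)
      (fun _ _ h1 h2 h => isol_congr h1 h2 h) (isol hG O) (allN_iff.1 q_lab))

/-- Martino's conjecture, `K = ℂ`, for the group `G34`. -/
theorem mart {G : Type} [Group G] [Fintype G] {n : ℕ} (W : G → Matrix (Fin n) (Fin n) ℂ)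
    (hW : IsReflGroup W) (hC : HasCartan W cG34) : Mart W := by
  obtain ⟨e, hc⟩ := crs_om
  exact mart_of_certE (r := 6) hc rfl rfl (by norm_num) ck_car ck_det car_eq
    (fun _ _ hG => splitE hG) W hW hC

end

end Pool.Agent.CMFn.G34
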