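import Pool.Agent.CMFn.DDefs

/-! Project CMFn: definitions for block N (Theorem N). -/

namespace Pool.Agent.CMFn

open Matrix

noncomputable section

/-! ### Koszul complexes (no ring, no group) -/

/-- Alternating `i`-forms on `V = ℂ^r` with values in `M`. -/
abbrev KV (r i : ℕ) (M : Type) [AddCommGroup M] [Module ℂ M] : Type :=
  (Fin r → ℂ) [⋀^Fin i]→ₗ[ℂ] M

section Kos

variable {r : ℕ} {M : Type} [AddCommGroup M] [Module ℂ M]

/-- `v ↦ A_v ∘ ω`. -/
def kdAux (A : (Fin r → ℂ) →ₗ[ℂ] Module.End ℂ M) {i : ℕ} (ω : KV r i M) :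
    (Fin r → ℂ) →ₗ[ℂ] KV r i M where
  toFun v := (A v).compAlternatingMap ω
  map_add' v w := by ext x; simp
  map_smul' c v := by ext x; simp

/-- The Koszul differential `(dω)(v_0, …, v_i) = Σ_k (-1)^k A(v_k) ω(v_0, …, v̂_k, …, v_i)`. -/
def kd (A : (Fin r → ℂ) →ₗ[ℂ] Module.End ℂ M) (i : ℕ) : KV r i M →ₗ[ℂ] KV r (i + 1) M where
  toFun ω := AlternatingMap.alternatizeUncurryFin (kdAux A ω)
  map_add' ω ω' := by
    rw [← AlternatingMap.alternatizeUncurryFin_add]
    congr 1
    ext v x; simp [kdAux]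
  map_smul' c ω := by
    rw [RingHom.id_apply, ← AlternatingMap.alternatizeUncurryFin_smul]
    congr 1
    ext v x; simp [kdAux]

/-- The contraction `(hω)(v_1, …, v_i) = Σ_j B_j ω(e_j, v_1, …, v_i)`. -/
def kh (B : Fin r → Module.End ℂ M) (i : ℕ) : KV r (i + 1) M →ₗ[ℂ] KV r i M where
  toFun ω := ∑ j, (B j).compAlternatingMap (ω.curryLeft (Pi.single j 1))
  map_add' ω ω' := by
    rw [← Finset.sum_add_distrib]
    refine Finset.sum_congr rfl fun j _ => ?_
    ext x; simp
  map_smul' c ω := by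
    rw [RingHom.id_apply, Finset.smul_sum]
    refine Finset.sum_congr rfl fun j _ => ?_
    ext x; simp

/-- Post-composition with a linear map. -/
def kmap {M' : Type} [AddCommGroup M'] [Module ℂ M'] (f : M →ₗ[ℂ] M') (i : ℕ) :
    KV r i M →ₗ[ℂ] KV r i M' where
  toFun ω := f.compAlternatingMap ω
  map_add' ω ω' := by ext x; simp
  map_smul' c ω := by ext x; simp

end Kos

variable {r : ℕ} {N : SG r} [Fintype N]

/-- The diagonal action `(gω)(v) = g ω(g⁻¹ v)`, for an action `T` of `N` on `M`. -/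
def gK {M : Type} [AddCommGroup M] [Module ℂ M] (T : N → Module.End ℂ M) (i : ℕ) (g : N) :
    KV r i M →ₗ[ℂ] KV r i M where
  toFun ω := (T g).compAlternatingMap (ω.compLinearMap (Matrix.toLin' (g⁻¹).1.1))
  map_add' ω ω' := by ext x; simp
  map_smul' c ω := by ext x; simp

/-- `p_ρ = (d/|N|) Σ_g tr ρ(g⁻¹) g` on forms. -/
def pK {M : Type} [AddCommGroup M] [Module ℂ M] (T : N → Module.End ℂ M) {d : ℕ}
    (ρ : N →* Matrix (Fin d) (Fin d) ℂ) (i : ℕ) : KV r i M →ₗ[ℂ] KV r i M :=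
  ∑ g : N, ((d : ℂ) / (Fintype.card N : ℂ) * (ρ g⁻¹).trace) • gK T i g

/-! ### The algebra `H_{0,c}` -/

/-- `c` is a class function supported on the reflections or not: only conjugation invariance
matters. -/
def IsCls (c : N → ℂ) : Prop := ∀ g s : N, c (g * s * g⁻¹) = c s

section
variable (c : N → ℂ)
/-- The generators of `H_{0,c}`. -/
def rX (i : Fin r) : H0 N c := h0 N c (fX i)
@[inherit_doc rX] def rY (i : Fin r) : H0 N c := h0 N c (fY i)
@[inherit_doc rX] def rT (g : N) : H0 N c := h0 N c (fT g)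

/-- The invariants without constant term, in the `x_i` and in the `y_i`. -/
def Inv : Set (H0 N c) :=
  {a | (∃ p, InvX N p ∧ a = evP (rX c) p) ∨ ∃ p, InvY N p ∧ a = evP (rY c) p}

/-- The left ideal spanned by the invariants (they are central). -/
def Iid : Ideal (H0 N c) := Ideal.span (Inv c)

/-- The left ideal generated by `V`. -/
def leftY0 : Ideal (H0 N c) := Ideal.span (Set.range (rY c))

/-- `p_ρ` in `H_{0,c}`. -/
def pR {d : ℕ} (ρ : N →* Matrix (Fin d) (Fin d) ℂ) : H0 N c :=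
  ∑ g : N, ((d : ℂ) / (Fintype.card N : ℂ) * (ρ g⁻¹).trace) • rT c g

/-- `z` is central and idempotent modulo the invariants. -/
structure IsCI (z : H0 N c) : Prop where
  sq : z * z - z ∈ Iid c
  comm : ∀ a, z * a - a * z ∈ Iid c

variable (M : Type) [AddCommGroup M] [Module ℂ M] [Module (H0 N c) M]

/-- `Kset n`: killed by all products of `n` invariants. -/
def Kset : ℕ → Set M
  | 0 => {0}
  | n + 1 => {m | ∀ a ∈ Inv c, a • m ∈ Kset n}

/-- Every element is killed by all products of `n` invariants, for some `n`. -/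
def LN : Prop := ∀ m : M, ∃ n, m ∈ Kset c M n

/-- `z` acts locally nilpotently. -/
def Nil0 (z : H0 N c) : Prop := ∀ m : M, ∃ j : ℕ, z ^ j • m = 0

variable [IsScalarTower ℂ (H0 N c) M]

/-- The action of `N`. -/
def mT (g : N) : Module.End ℂ M := Module.toModuleEnd ℂ (S := H0 N c) M (rT c g)

/-- The action of `v ∈ V`: `Σ_i v_i y_i`. -/
def mY : (Fin r → ℂ) →ₗ[ℂ] Module.End ℂ M :=
  ∑ i, (LinearMap.proj i : (Fin r → ℂ) →ₗ[ℂ] ℂ).smulRight (Module.toModuleEnd ℂ (S := H0 N c) M (rY c i))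

end

end

end Pool.Agent.CMFn
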