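import Mathlib

/-!
# Idempotents of a finite algebra over a local ring, modulo an element of the maximal ideal

`R` is a commutative local ring, `A` an `R`-algebra which is a finite `R`-module, `π` an element of
the maximal ideal.  Elements congruent to a unit modulo `π A` are units; idempotents which are
conjugate modulo `π A` are conjugate.
-/

set_option autoImplicit false

namespace Pool.Agent.CMFn.Q1

open IsLocalRing

variable {R A : Type*} [CommRing R] [IsLocalRing R] [Ring A] [Algebra R A] [Module.Finite R A]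

/-- An element congruent to `1` modulo `π` is a unit. -/
theorem isUnit_of_congr_one {p : R} (hp : p ∈ maximalIdeal R) {x a : A}
    (hx : x = 1 + p • a) : IsUnit x := by
  have hJ : maximalIdeal R ≤ Ideal.jacobson ⊥ := by
    rw [IsLocalRing.jacobson_eq_maximalIdeal ⊥ bot_ne_top]
  have hfg : (⊤ : Submodule R A).FG := Module.Finite.fg_top
  -- right inverse
  have h1 : Function.Surjective (LinearMap.mulLeft R x) := by
    rw [← LinearMap.range_eq_top]
    refine top_le_iff.mp ?_
    refine Submodule.le_of_le_smul_of_le_jacobson_bot hfg hJ ?_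
    intro y _
    rw [Submodule.mem_sup]
    refine ⟨x * y, ⟨y, rfl⟩, p • (-(a * y)), Submodule.smul_mem_smul hp trivial, ?_⟩
    rw [hx, add_mul, one_mul, smul_mul_assoc, smul_neg]
    abel
  have h2 : Function.Surjective (LinearMap.mulRight R x) := by
    rw [← LinearMap.range_eq_top]
    refine top_le_iff.mp ?_
    refine Submodule.le_of_le_smul_of_le_jacobson_bot hfg hJ ?_
    intro y _
    rw [Submodule.mem_sup]
    refine ⟨y * x, ⟨y, rfl⟩, p • (-(y * a)), Submodule.smul_mem_smul hp trivial, ?_⟩
    rw [hx, mul_add, mul_one, mul_smul_comm, smul_neg]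
    abel
  obtain ⟨y, hy⟩ := h1 1
  obtain ⟨z, hz⟩ := h2 1
  simp only [LinearMap.mulLeft_apply] at hy
  simp only [LinearMap.mulRight_apply] at hz
  have hyz : z = y := by
    calc z = z * (x * y) := by rw [hy, mul_one]
      _ = y := by rw [← mul_assoc, hz, one_mul]
  exact ⟨⟨x, y, hy, hyz ▸ hz⟩, rfl⟩

/-- An element congruent to a unit modulo `π` is a unit. -/
theorem isUnit_of_congr {p : R} (hp : p ∈ maximalIdeal R) {x u a : A} (hu : IsUnit u)
    (hx : x = u + p • a) : IsUnit x := by
  obtain ⟨u, rfl⟩ := hu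
  have : x = u * (1 + p • ((u⁻¹ : Aˣ) * a)) := by
    rw [hx, mul_add, mul_one, mul_smul_comm, ← mul_assoc, Units.mul_inv, one_mul]
  rw [this]
  exact u.isUnit.mul (isUnit_of_congr_one hp rfl)

/-- LEMMA C: idempotents which are conjugate modulo `π` are conjugate. -/
theorem conj_of_congr {p : R} (hp : p ∈ maximalIdeal R) {e e' : A} (he : IsIdempotentElem e)
    (he' : IsIdempotentElem e') (g : Aˣ) (a : A) (h : (g : A) * e * (g⁻¹ : Aˣ) = e' + p • a) :
    ∃ u : Aˣ, (u : A) * e * (u⁻¹ : Aˣ) = e' := by
  set f : A := (g : A) * e * (g⁻¹ : Aˣ) with hf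
  have hfi : f * f = f := by
    rw [hf]
    calc (g : A) * e * (g⁻¹ : Aˣ) * ((g : A) * e * (g⁻¹ : Aˣ))
        = (g : A) * (e * ((g⁻¹ : Aˣ) * (g : A)) * e) * (g⁻¹ : Aˣ) := by noncomm_ring
      _ = (g : A) * e * (g⁻¹ : Aˣ) := by rw [Units.inv_mul, mul_one, he.eq]
  have hei : e' * e' = e' := he'.eq
  set x : A := e' * f + (1 - e') * (1 - f) with hx
  have hxe : x * f = e' * x := by
    have h1 : x * f = e' * f := by
      calc x * f = e' * (f * f) + (1 - e') * (f - f * f) := by rw [hx]; noncomm_ring
        _ = e' * f := by rw [hfi, sub_self, mul_zero, add_zero]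
    have h2 : e' * x = e' * f := by
      calc e' * x = e' * e' * f + (e' - e' * e') * (1 - f) := by rw [hx]; noncomm_ring
        _ = e' * f := by rw [hei, sub_self, zero_mul, add_zero]
    rw [h1, h2]
  have hxu : IsUnit x := by
    have : x = 1 + p • (e' * a - (1 - e') * a) := by
      rw [hx, h, mul_add, hei, mul_smul_comm, smul_sub]
      have : (1 - e') * (1 - (e' + p • a)) = 1 - e' - p • ((1 - e') * a) := by
        have h3 : (1 - e') * (1 - e') = 1 - e' := by
          rw [mul_sub, mul_one, sub_mul, one_mul, hei, sub_self, sub_zero]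
        calc (1 - e') * (1 - (e' + p • a)) = (1 - e') * (1 - e') - (1 - e') * (p • a) := by
              noncomm_ring
          _ = 1 - e' - p • ((1 - e') * a) := by rw [h3, mul_smul_comm]
      rw [this]
      abel
    exact isUnit_of_congr_one hp this
  obtain ⟨v, hv⟩ := hxu
  refine ⟨v * g, ?_⟩
  have : (v : A) * f * (v⁻¹ : Aˣ) = e' := by
    rw [hv, hxe, mul_assoc, ← hv, Units.mul_inv, mul_one]
  calc ((v * g : Aˣ) : A) * e * ((v * g)⁻¹ : Aˣ)
      = (v : A) * ((g : A) * e * (g⁻¹ : Aˣ)) * (v⁻¹ : Aˣ) := by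
        rw [mul_inv_rev, Units.val_mul, Units.val_mul]
        noncomm_ring
    _ = e' := this

end Pool.Agent.CMFn.Q1
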