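import Pool.Agent.CMFn.Conn
import Pool.Agent.CMFn.LocMonB
import Pool.Agent.CMFn.QDefs
import Pool.Agent.CMFn.Q3A

/-! Project CMF, block Q (every rank): the residue of the KZ connection at a point, for groups
whose reflections have order three and whose hyperplanes form one class. -/

namespace Pool.Agent.CMFn

open Matrix

noncomputable section

variable {r : ℕ} {N : SG r} [Fintype N]

variable (N) in
/-- The distinguished reflections which fix `p` (reflections of order three). -/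
def dS (p : Fin r → ℂ) : Finset N :=
  (Set.toFinite {s : N | IsRefl s.1 ∧
    s.1.1.det = Complex.exp (2 * Real.pi * Complex.I / 3) ∧ s.1.1 *ᵥ p = p}).toFinset

namespace Q3X

lemma mem_dS {p : Fin r → ℂ} {s : N} : s ∈ dS N p ↔ IsRefl s.1 ∧
    s.1.1.det = Complex.exp (2 * Real.pi * Complex.I / 3) ∧ s.1.1 *ᵥ p = p := by
  unfold dS
  rw [Set.Finite.mem_toFinset]
  exact Iff.rfl

lemma zeta_prim : IsPrimitiveRoot (Complex.exp (2 * Real.pi * Complex.I / 3)) 3 := by
  have h := Complex.isPrimitiveRoot_exp 3 (by norm_num)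
  exact_mod_cast h

lemma ne_one (w : N) (hw : IsRefl w.1) : w ≠ 1 := by
  rintro rfl
  have h : ((1 : Matrix (Fin r) (Fin r) ℂ) - 1).rank = 1 := hw
  rw [sub_self, Matrix.rank_zero] at h
  exact zero_ne_one h

/-- A non-trivial element fixing a hyperplane pointwise is a reflection. -/
lemma refl_of (H : Arr N) (s : N) (hs : ∀ v ∈ H.1, s.1.1 *ᵥ v = v) (h1 : s ≠ 1) :
    IsRefl s.1 ∧ fixL s.1 = H.1 := by
  have hfix : fixL s.1 = H.1 := LocMonX.fixL_eq H s hs h1
  refine ⟨?_, hfix⟩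
  obtain ⟨H', t, ht, htr, rfl⟩ := H
  have := LocMonX.rank_eq_of_fixL_eq s.1 t hfix
  unfold IsRefl
  rw [this]
  exact htr

/-- The determinant of a reflection is not one. -/
lemma det_ne_one (w : N) (hw : IsRefl w.1) : w.1.1.det ≠ 1 := by
  intro h3
  refine ne_one w hw ?_
  refine refl_ext ⟨fixL w.1, w.1, w.2, hw, rfl⟩ w 1 (fun v hv => LocMonX.mem_fixL'.1 hv)
    (fun v _ => ?_) ?_
  · show (1 : Matrix (Fin r) (Fin r) ℂ) *ᵥ v = v
    rw [Matrix.one_mulVec]
  · show w.1.1.det = (1 : Matrix (Fin r) (Fin r) ℂ).det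
    rw [h3, Matrix.det_one]

lemma eH_ne_one (H : Arr N) : eH N H.1 ≠ 1 := by
  intro he
  obtain ⟨H', t, ht, htr, rfl⟩ := H
  have h3 := LocMonX.det_pow_card ⟨fixL t, t, ht, htr, rfl⟩ ⟨t, ht⟩
    (fun v hv => LocMonX.mem_fixL'.1 hv)
  have he' : eH N (fixL t) = 1 := he
  rw [he', pow_one] at h3
  exact det_ne_one ⟨t, ht⟩ htr h3

/-- The pointwise stabilisers of the reflecting hyperplanes have order three. -/
theorem eH_three (h3 : ∀ w : N, IsRefl w.1 → w ^ 3 = 1) (H : Arr N) : eH N H.1 = 3 := by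
  obtain ⟨s, hs, hd⟩ := exists_dist H
  have hpos := eH_pos N H
  have hprim := Complex.isPrimitiveRoot_exp (eH N H.1) hpos.ne'
  have hs1 : s ≠ 1 := by
    rintro rfl
    have h1 : ((1 : N).1.1).det = 1 := Matrix.det_one
    rw [h1] at hd
    have := hprim.pow_eq_one_iff_dvd 1
    rw [pow_one, ← hd] at this
    exact eH_ne_one H (Nat.dvd_one.1 (this.1 rfl))
  have hsr := (refl_of H s hs hs1).1
  have h4 : Complex.exp (2 * Real.pi * Complex.I / eH N H.1) ^ 3 = 1 := by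
    rw [← hd, ← LocMonX.det_pow', h3 s hsr]
    exact Matrix.det_one
  have h5 := (hprim.pow_eq_one_iff_dvd 3).1 h4
  rcases (Nat.dvd_prime Nat.prime_three).1 h5 with h | h
  · exact absurd h (eH_ne_one H)
  · exact h

/-- The square of a reflection of order three. -/
lemma sq_refl (h3 : ∀ w : N, IsRefl w.1 → w ^ 3 = 1) (w : N) (hw : IsRefl w.1) :
    IsRefl (w ^ 2).1 ∧ fixL (w ^ 2).1 = fixL w.1 := by
  refine refl_of ⟨fixL w.1, w.1, w.2, hw, rfl⟩ (w ^ 2) ?_ ?_
  · intro v hv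
    have h1 : w.1.1 *ᵥ v = v := LocMonX.mem_fixL'.1 hv
    have h2 : (w ^ 2).1.1 = w.1.1 * w.1.1 := by
      rw [pow_two]
      rfl
    rw [h2, ← Matrix.mulVec_mulVec, h1, h1]
  · intro h
    have h4 := h3 w hw
    rw [pow_succ, h, one_mul] at h4
    exact ne_one w hw h4

lemma sq_fix (w : N) (p : Fin r → ℂ) (hp : w.1.1 *ᵥ p = p) : (w ^ 2).1.1 *ᵥ p = p := by
  have h2 : (w ^ 2).1.1 = w.1.1 * w.1.1 := by
    rw [pow_two]
    rfl
  rw [h2, ← Matrix.mulVec_mulVec, hp, hp]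

lemma det_three (h3 : ∀ w : N, IsRefl w.1 → w ^ 3 = 1) (w : N) (hw : IsRefl w.1) :
    w.1.1.det = Complex.exp (2 * Real.pi * Complex.I / 3) ∨
      w.1.1.det = Complex.exp (2 * Real.pi * Complex.I / 3) ^ 2 := by
  have h4 : w.1.1.det ^ 3 = 1 := by
    rw [← LocMonX.det_pow', h3 w hw]
    exact Matrix.det_one
  obtain ⟨i, hi, h5⟩ := zeta_prim.eq_pow_of_pow_eq_one h4
  have h6 : i = 0 ∨ i = 1 ∨ i = 2 := by omega
  rcases h6 with rfl | rfl | rfl
  · rw [pow_zero] at h5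
    exact absurd h5.symm (det_ne_one w hw)
  · left
    rw [← h5, pow_one]
  · right
    exact h5.symm

open Classical in
/-- The hyperplanes through `p` and the distinguished reflections fixing `p`. -/
lemma card_dS (h3 : ∀ w : N, IsRefl w.1 → w ^ 3 = 1) (p : Fin r → ℂ) (c : ℂ) :
    (∑ H : Arr N, if p ∈ H.1 then c else 0) = ((dS N p).card : ℂ) * c := by
  rw [← Finset.sum_filter, Finset.sum_const, nsmul_eq_mul]
  congr 2
  symm
  refine Finset.card_bij (fun w hw => (⟨fixL w.1, w.1, w.2, (mem_dS.1 hw).1, rfl⟩ : Arr N))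
    ?_ ?_ ?_
  · intro w hw
    exact Finset.mem_filter.2 ⟨Finset.mem_univ _, LocMonX.mem_fixL'.2 (mem_dS.1 hw).2.2⟩
  · intro w hw w' hw' h
    have h5 : fixL w.1 = fixL w'.1 := congrArg Subtype.val h
    obtain ⟨hr, hd, _⟩ := mem_dS.1 hw
    obtain ⟨hr', hd', _⟩ := mem_dS.1 hw'
    refine refl_ext ⟨fixL w.1, w.1, w.2, hr, rfl⟩ w w' (fun v hv => LocMonX.mem_fixL'.1 hv)
      (fun v hv => LocMonX.mem_fixL'.1 (h5 ▸ hv)) ?_
    rw [hd, hd']
  · intro H hH
    obtain ⟨_, hp⟩ := Finset.mem_filter.1 hH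
    obtain ⟨s, hs, hd⟩ := exists_dist H
    rw [eH_three h3] at hd
    have hd' : s.1.1.det = Complex.exp (2 * Real.pi * Complex.I / 3) := by
      rw [hd]
      norm_num
    have hs1 : s ≠ 1 := by
      rintro rfl
      have h1 : ((1 : N).1.1).det = 1 := Matrix.det_one
      rw [h1] at hd'
      exact zeta_prim.ne_one (by norm_num) hd'.symm
    obtain ⟨h1, h2⟩ := refl_of H s hs hs1
    exact ⟨s, mem_dS.2 ⟨h1, hd', hs p hp⟩, Subtype.ext h2⟩

lemma pow_four (h3 : ∀ w : N, IsRefl w.1 → w ^ 3 = 1) (w : N) (hw : IsRefl w.1) :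
    (w ^ 2) ^ 2 = w := by
  rw [← pow_mul, show 2 * 2 = 3 + 1 by norm_num, pow_succ, h3 w hw, one_mul]

end Q3X

open Q3X

/-- The residue at `p`, for reflections of order three and one class of hyperplanes. -/
theorem App_three {d : ℕ} (h3 : ∀ w : N, IsRefl w.1 → w ^ 3 = 1)
    (ρ : N →* Matrix (Fin d) (Fin d) ℂ) (k : Idx N → ℂ) (k' : Fin 3 → ℂ)
    (hk : ∀ (H : Arr N) (j : Fin 3), k (idx H j.1) = k' j) (p : Fin r → ℂ) :
    App ρ k p = ∑ j, k' j • zJ (dS N p) (Complex.exp (2 * Real.pi * Complex.I / 3)) j ρ := by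
  classical
  set ζ : ℂ := Complex.exp (2 * Real.pi * Complex.I / 3) with hζ
  have hz3 : ζ ^ 3 = 1 := zeta_prim.pow_eq_one
  have hz0 : ζ ≠ 0 := zeta_prim.ne_zero (by norm_num)
  have hz2 : ζ ^ 2 ≠ ζ := by
    intro h
    have h6 : ζ * ζ = ζ * 1 := by rw [mul_one, ← pow_two]; exact h
    exact zeta_prim.ne_one (by norm_num) (mul_left_cancel₀ hz0 h6)
  have hcs : ∀ H : Arr N, cs k H = ∑ j, k' j := by
    intro H
    unfold cs
    rw [eH_three h3, Finset.sum_range]
    exact Finset.sum_congr rfl fun j _ => hk H j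
  have hcr : ∀ w : N, IsRefl w.1 → cr k w = ∑ j : Fin 3, k' j * w.1.1.det ^ j.1 := by
    intro w hw
    unfold cr cf
    rw [dif_pos hw, eH_three h3 ⟨fixL w.1, w.1, w.2, hw, rfl⟩, Finset.sum_range]
    refine Finset.sum_congr rfl fun j _ => ?_
    have h := hk ⟨fixL w.1, w.1, w.2, hw, rfl⟩ j
    rw [h]
  -- the scalar part
  have hsc : (∑ H : Arr N, if p ∈ H.1 then cs k H else 0) = ((dS N p).card : ℂ) * ∑ j, k' j := by
    rw [← card_dS h3]
    exact Finset.sum_congr rfl fun H _ => by rw [hcs]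
  -- the reflections
  have h1 : ∀ w : N, (if w.1.1 *ᵥ p = p then cr k w else 0) • ρ w =
      (if w ∈ dS N p then (∑ j : Fin 3, k' j * ζ ^ j.1) • ρ w else 0) +
      (if IsRefl w.1 ∧ w ^ 2 ∈ dS N p then (∑ j : Fin 3, k' j * (ζ ^ 2) ^ j.1) • ρ w
        else 0) := by
    intro w
    by_cases hw : IsRefl w.1
    · by_cases hp : w.1.1 *ᵥ p = p
      · rw [if_pos hp, hcr w hw]
        rcases det_three h3 w hw with hd | hd
        · have e1 : w ∈ dS N p := mem_dS.2 ⟨hw, hd, hp⟩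
          have e2 : ¬ (IsRefl w.1 ∧ w ^ 2 ∈ dS N p) := by
            rintro ⟨_, h⟩
            have h4 := (mem_dS.1 h).2.1
            rw [LocMonX.det_pow', hd] at h4
            exact hz2 h4
          rw [if_pos e1, if_neg e2, add_zero, hd]
        · have e1 : w ∉ dS N p := by
            intro h
            have h4 := (mem_dS.1 h).2.1
            rw [hd] at h4
            exact hz2 h4
          have e2 : IsRefl w.1 ∧ w ^ 2 ∈ dS N p := by
            refine ⟨hw, mem_dS.2 ⟨(sq_refl h3 w hw).1, ?_, sq_fix w p hp⟩⟩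
            rw [LocMonX.det_pow', hd, ← pow_mul, show 2 * 2 = 3 + 1 by norm_num, pow_succ,
              ← hζ, hz3, one_mul]
          rw [if_neg e1, if_pos e2, zero_add, hd]
      · have e1 : w ∉ dS N p := fun h => hp (mem_dS.1 h).2.2
        have e2 : ¬ (IsRefl w.1 ∧ w ^ 2 ∈ dS N p) := by
          rintro ⟨_, h⟩
          apply hp
          have h4 := sq_fix (w ^ 2) p (mem_dS.1 h).2.2
          rw [pow_four h3 w hw] at h4
          exact h4
        rw [if_neg hp, if_neg e1, if_neg e2, zero_smul, add_zero]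
    · have h0 : cr k w = 0 := by
        unfold cr
        rw [dif_neg hw]
      rw [h0, ite_self, zero_smul, if_neg (fun h => hw (mem_dS.1 h).1), if_neg (fun h => hw h.1),
        add_zero]
  have h2 : ∑ w : N, (if w ∈ dS N p then (∑ j : Fin 3, k' j * ζ ^ j.1) • ρ w else 0) =
      ∑ s ∈ dS N p, (∑ j : Fin 3, k' j * ζ ^ j.1) • ρ s := by
    rw [Finset.sum_ite_mem, Finset.univ_inter]
  have h4 : ∑ w : N, (if IsRefl w.1 ∧ w ^ 2 ∈ dS N p then
      (∑ j : Fin 3, k' j * (ζ ^ 2) ^ j.1) • ρ w else 0) =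
      ∑ s ∈ dS N p, (∑ j : Fin 3, k' j * (ζ ^ 2) ^ j.1) • ρ (s ^ 2) := by
    rw [← Finset.sum_filter]
    symm
    refine Finset.sum_bij (fun s _ => s ^ 2) ?_ ?_ ?_ ?_
    · intro s hs
      have h5 := (mem_dS.1 hs).1
      rw [Finset.mem_filter, pow_four h3 s h5]
      exact ⟨Finset.mem_univ _, (sq_refl h3 s h5).1, hs⟩
    · intro s hs t ht h
      have h5 : (s ^ 2) ^ 2 = (t ^ 2) ^ 2 := congrArg (fun x : N => x ^ 2) h
      rw [pow_four h3 s (mem_dS.1 hs).1, pow_four h3 t (mem_dS.1 ht).1] at h5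
      exact h5
    · intro w hw
      obtain ⟨_, h5, h6⟩ := Finset.mem_filter.1 hw
      exact ⟨w ^ 2, h6, pow_four h3 w h5⟩
    · intro s _
      rfl
  unfold App
  rw [hsc, Finset.sum_congr rfl fun w _ => h1 w, Finset.sum_add_distrib, h2, h4]
  unfold zJ
  simp only [Finset.sum_range_succ, Finset.sum_range_zero, Fin.sum_univ_three, pow_zero, zero_mul,
    one_mul, zero_add, map_one, pow_one, Fin.val_zero, Fin.val_one, Fin.val_two, mul_zero, mul_one,
    Finset.sum_add_distrib, Finset.sum_const, ← Finset.smul_sum, one_smul]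
  rw [← Nat.cast_smul_eq_nsmul ℂ]
  have h7 : (ζ ^ 2) ^ 2 = ζ ^ (2 * 2) := by rw [pow_mul]
  rw [h7]
  module

end

end Pool.Agent.CMFn
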