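import Pool.Agent.CMFn.Q3B
import Pool.Agent.CMFn.QAlg
import Pool.Agent.CMFn.QComb

/-! Project CMF, block Q (every rank): isolation of characters by twists, for groups whose
reflections have order three and whose hyperplanes form one class. -/

namespace Pool.Agent.CMFn

open Matrix Polynomial
open Pool.Agent.CMF (HData KZData Lau mon pair pairC evL TwFam IsInt)
open Pool.Agent.CMFn.QAlgX (Pb db)

noncomputable section

namespace Q3X

/-- A change of the scale in a product of linear factors. -/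
theorem aeval_scale {J : Type} [Fintype J] [DecidableEq J] (a : ℂ) (z : Matrix J J ℂ) {T : Type}
    (S : Finset T) (f g : T → ℂ) (hf : ∀ c ∈ S, f c = a * g c) :
    aeval (a • z) (∏ c ∈ S, (X - C (f c))) = a ^ S.card • aeval z (∏ c ∈ S, (X - C (g c))) := by
  classical
  induction S using Finset.induction_on with
  | empty => simp
  | insert c S hc ih =>
    rw [Finset.prod_insert hc, Finset.prod_insert hc, Finset.card_insert_of_notMem hc, map_mul,
      map_mul, ih fun x hx => hf x (Finset.mem_insert_of_mem hx), hf c (Finset.mem_insert_self c S)]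
    have h1 : aeval (a • z) (X - C (a * g c)) = a • aeval z (X - C (g c)) := by
      rw [map_sub, map_sub, aeval_X, aeval_X, aeval_C, aeval_C, Algebra.algebraMap_eq_smul_one,
        Algebra.algebraMap_eq_smul_one]
      module
    rw [h1, smul_mul_smul_comm, pow_succ']

variable {ι : Type} [Fintype ι]

omit [Fintype ι] in
/-- The exponent of the joint eigenvalue `a`. -/
def exq3 (M : ℕ) (i : Fin 3 → ι) (a : Fin 3 → ℕ) : ι →₀ ℤ :=
  ∑ j, Finsupp.single (i j) ((M : ℤ) * a j)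

theorem pairC_exq3 (M : ℕ) (i : Fin 3 → ι) (a : Fin 3 → ℕ) (κ : ι → ℂ) :
    pairC (exq3 M i a) κ = (M : ℂ) * lin3 (fun j => κ (i j)) a := by
  classical
  rw [CMF.pairC_eq_sum]
  have h1 : ∀ x : ι, ((exq3 M i a x : ℤ) : ℂ) * κ x =
      ∑ j, (if i j = x then ((M : ℂ) * a j) * κ x else 0) := by
    intro x
    unfold exq3
    rw [Finsupp.finsetSum_apply]
    push_cast
    rw [Finset.sum_mul]
    refine Finset.sum_congr rfl fun j _ => ?_
    rw [Finsupp.single_apply]
    split_ifs with h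
    · push_cast
      rfl
    · simp
  rw [Finset.sum_congr rfl fun x _ => h1 x, Finset.sum_comm]
  unfold lin3
  rw [Finset.mul_sum]
  refine Finset.sum_congr rfl fun j _ => ?_
  rw [Finset.sum_ite_eq]
  simp only [Finset.mem_univ, if_true]
  ring

/-- Generic values. -/
def kg (n : ℕ) (j : Fin 3) : ℂ := ((n : ℂ) + 1) ^ j.1

theorem lin3_kg (n : ℕ) {a b : Fin 3 → ℕ} (ha : a ∈ tri n) (hb : b ∈ tri n)
    (h : lin3 (kg n) a = lin3 (kg n) b) : a = b := by
  have h1 : ∀ c : Fin 3 → ℕ, lin3 (kg n) c =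
      ((c 0 + (n + 1) * (c 1 + (n + 1) * c 2) : ℕ) : ℂ) := by
    intro c
    unfold lin3 kg
    rw [Fin.sum_univ_three]
    push_cast
    simp only [Fin.val_zero, Fin.val_one, Fin.val_two]
    ring
  rw [h1, h1, Nat.cast_inj] at h
  have ha' := q3_mem_tri.1 ha
  have hb' := q3_mem_tri.1 hb
  rw [Fin.sum_univ_three] at ha' hb'
  have e0 : a 0 = b 0 := by
    have h2 := congrArg (fun x => x % (n + 1)) h
    simp only [Nat.add_mul_mod_self_left] at h2
    rwa [Nat.mod_eq_of_lt (by omega), Nat.mod_eq_of_lt (by omega)] at h2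
  have e1 : a 1 + (n + 1) * a 2 = b 1 + (n + 1) * b 2 := by
    rw [e0] at h
    exact Nat.eq_of_mul_eq_mul_left (Nat.succ_pos n) (Nat.add_left_cancel h)
  have e2 : a 1 = b 1 := by
    have h2 := congrArg (fun x => x % (n + 1)) e1
    simp only [Nat.add_mul_mod_self_left] at h2
    rwa [Nat.mod_eq_of_lt (by omega), Nat.mod_eq_of_lt (by omega)] at h2
  have e3 : a 2 = b 2 := by
    rw [e2] at e1
    exact Nat.eq_of_mul_eq_mul_left (Nat.succ_pos n) (Nat.add_left_cancel e1)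
  funext j
  fin_cases j
  · exact e0
  · exact e2
  · exact e3

/-- A vector with the values `kg`. -/
def kx (n : ℕ) (i : Fin 3 → ι) : ι → ℂ := Function.extend i (kg n) 0

theorem kx_apply (n : ℕ) {i : Fin 3 → ι} (hi : Function.Injective i) :
    (fun j => kx n i (i j)) = kg n := by
  funext j
  exact hi.extend_apply _ _ j

theorem exq3_inj {M : ℕ} (hM : 0 < M) {i : Fin 3 → ι} (hi : Function.Injective i) (n : ℕ)
    {a b : Fin 3 → ℕ} (ha : a ∈ tri n) (hb : b ∈ tri n) (h : exq3 M i a = exq3 M i b) :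
    a = b := by
  have h1 := congrArg (fun e => pairC e (kx n i)) h
  simp only [pairC_exq3, kx_apply n hi] at h1
  exact lin3_kg n ha hb (mul_left_cancel₀ (Nat.cast_ne_zero.2 hM.ne') h1)

end Q3X

open Q3X

variable {r : ℕ} {N : SG r} [Fintype N] {Z : Type} [CommRing Z] [IsDomain Z] [Algebra Z ℂ]
  {ι : Type} [Fintype ι] {D : HData Z ι} {M : ℕ} {Q : KZData D M}

/-- The data of the residues: three parameters, reflections of order three, twists. -/
structure Refl3 (N : SG r) [Fintype N] (Q : KZData D M) (i : Fin 3 → ι) where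
  ρ : ∀ l : D.Λ, N →* Matrix (Fin (D.d l)) (Fin (D.d l)) ℂ
  sg : (ι → ℂ) → (Idx N → ℂ)
  inj : Function.Injective i
  cube : ∀ w : N, IsRefl w.1 → w ^ 3 = 1
  val : ∀ κ (H : Arr N) (j : Fin 3), sg κ (idx H j.1) = κ (i j)
  tw : ∀ (p : Fin r → ℂ) (E : Finset (ι →₀ ℤ)),
    (∀ κ l, aeval (App (ρ l) (sg κ) p) (∏ a ∈ E, (X - C (pairC a κ / (M : ℂ)))) = 0) →
    ∃ T' : TwFam Q 1, T'.E = (fun _ => E) ∧ ∀ κ l, T'.A 0 κ l = (M : ℂ) • App (ρ l) (sg κ) p

variable {i : Fin 3 → ι}

/-- The combination `Σ_j κ_j Z_j` at `p`. -/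
def zK (N : SG r) [Fintype N] {d : ℕ} (p : Fin r → ℂ) (κ : Fin 3 → ℂ)
    (ρ : N →* Matrix (Fin d) (Fin d) ℂ) : Matrix (Fin d) (Fin d) ℂ :=
  ∑ j, κ j • zJ (dS N p) (Complex.exp (2 * Real.pi * Complex.I / 3)) j ρ

open Classical in
/-- The twist at `p`. -/
theorem Refl3.exists_tw (R : Refl3 N Q i) (hM : 0 < M) (p : Fin r → ℂ) (n : ℕ)
    (hk : ∀ l κ, aeval (zK N p κ (R.ρ l)) (∏ a ∈ tri n, (X - C (lin3 κ a))) = 0) :
    ∃ T : TwFam Q 1, T.E = (fun _ => (tri n).image (exq3 M i)) ∧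
      T.Gen (kx n i) ∧ ∀ a ∈ tri n, ∀ l,
        T.rk (fun _ => exq3 M i a) (kx n i) l =
          (∏ b ∈ (tri n).erase a, (lin3 (kg n) a - lin3 (kg n) b))⁻¹ *
            (aeval (zK N p (kg n) (R.ρ l))
              (∏ b ∈ (tri n).erase a, (X - C (lin3 (kg n) b)))).trace := by
  have hM0 : (M : ℂ) ≠ 0 := Nat.cast_ne_zero.2 hM.ne'
  have hinj : ∀ a ∈ tri n, ∀ b ∈ tri n, exq3 M i a = exq3 M i b → a = b := fun a ha b hb h =>
    exq3_inj hM R.inj n ha hb h
  have hApp : ∀ κ l, App (R.ρ l) (R.sg κ) p = zK N p (fun j => κ (i j)) (R.ρ l) := fun κ l =>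
    App_three R.cube (R.ρ l) (R.sg κ) (fun j => κ (i j)) (R.val κ) p
  obtain ⟨T, hE, hA⟩ := R.tw p ((tri n).image (exq3 M i)) (by
    intro κ l
    rw [Finset.prod_image hinj, hApp]
    have h1 := hk l (fun j => κ (i j))
    rw [← h1]
    congr 1
    refine Finset.prod_congr rfl fun a _ => ?_
    rw [pairC_exq3, mul_div_cancel_left₀ _ hM0])
  have hp : ∀ a, pairC (exq3 M i a) (kx n i) = (M : ℂ) * lin3 (kg n) a := by
    intro a
    rw [pairC_exq3, kx_apply n R.inj]
  refine ⟨T, hE, ?_, ?_⟩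
  · intro k a ha a' ha' hne h
    rw [hE, Finset.mem_image] at ha ha'
    obtain ⟨c, hc, rfl⟩ := ha
    obtain ⟨c', hc', rfl⟩ := ha'
    rw [hp, hp] at h
    apply hne
    rw [lin3_kg n hc hc' (mul_left_cancel₀ hM0 h)]
  · intro c hc l
    have hA' : T.A 0 (kx n i) l = (M : ℂ) • zK N p (kg n) (R.ρ l) := by
      rw [hA, hApp, kx_apply n R.inj]
    have her : ((tri n).image (exq3 M i)).erase (exq3 M i c) =
        ((tri n).erase c).image (exq3 M i) := by
      ext a
      simp only [Finset.mem_erase, Finset.mem_image]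
      constructor
      · rintro ⟨h1, c', h2, rfl⟩
        exact ⟨c', ⟨fun h => h1 (by rw [h]), h2⟩, rfl⟩
      · rintro ⟨c', ⟨h1, h2⟩, rfl⟩
        exact ⟨fun h => h1 (hinj _ h2 _ hc h), c', h2, rfl⟩
    have hinj' : ∀ a ∈ (tri n).erase c, ∀ b ∈ (tri n).erase c, exq3 M i a = exq3 M i b → a = b :=
      fun a ha b hb h => hinj a (Finset.mem_of_mem_erase ha) b (Finset.mem_of_mem_erase hb) h
    have h1 : T.rk (fun _ => exq3 M i c) (kx n i) l =
        (T.pr (fun _ => exq3 M i c) (kx n i) l 0).trace := by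
      unfold TwFam.rk
      rw [List.ofFn_succ, List.ofFn_zero, List.prod_cons, List.prod_nil, mul_one]
    have h2 : db (fun a => pairC a (kx n i)) ((tri n).image (exq3 M i)) (exq3 M i c) =
        (M : ℂ) ^ ((tri n).erase c).card *
          ∏ b ∈ (tri n).erase c, (lin3 (kg n) c - lin3 (kg n) b) := by
      unfold db
      rw [her, Finset.prod_image hinj', ← Finset.prod_const, ← Finset.prod_mul_distrib]
      refine Finset.prod_congr rfl fun c' _ => ?_
      simp only [hp]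
      ring
    have h3 : aeval (T.A 0 (kx n i) l) (Pb (fun a => pairC a (kx n i))
        ((tri n).image (exq3 M i)) (exq3 M i c)) =
        (M : ℂ) ^ ((tri n).erase c).card • aeval (zK N p (kg n) (R.ρ l))
          (∏ b ∈ (tri n).erase c, (X - C (lin3 (kg n) b))) := by
      unfold Pb
      rw [her, Finset.prod_image hinj', hA']
      exact aeval_scale _ _ _ (fun c' => pairC (exq3 M i c') (kx n i)) _ fun c' _ => hp c'
    rw [h1]
    unfold TwFam.pr
    have hE0 : T.E 0 = (tri n).image (exq3 M i) := by rw [hE]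
    rw [hE0, h2, h3, smul_smul, Matrix.trace_smul, smul_eq_mul]
    congr 1
    rw [mul_inv, mul_assoc, mul_comm, mul_assoc, mul_inv_cancel₀ (pow_ne_zero _ hM0), mul_one]

variable {C' : (ι →₀ ℤ) → Prop} {E₀ : D.Λ → Prop}

/-- Isolation of the character `l` in `E₀` by an integral combination of spectral elements at the
points `p k`. -/
theorem Refl3.isInt_comb (R : Refl3 N Q i) (hinj : Function.Injective (algebraMap Z ℂ))
    (hM : 0 < M) (hC : ∀ n, ∀ a ∈ tri n, ∀ b ∈ tri n, a ≠ b → C' (exq3 M i a - exq3 M i b))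
    (hE : IsInt Q C' E₀) (l : D.Λ) (hl : E₀ l) {I : Type} [Fintype I] (p : I → Fin r → ℂ)
    (n : I → ℕ) (c : I → Fin 3 → ℕ) (hc : ∀ k, c k ∈ tri (n k))
    (hk : ∀ k l κ, aeval (zK N (p k) κ (R.ρ l)) (∏ a ∈ tri (n k), (X - C (lin3 κ a))) = 0)
    (m : I → D.Λ → ℂ) (u : I → ℤ)
    (hm : ∀ k μ, E₀ μ → (aeval (zK N (p k) (kg (n k)) (R.ρ μ))
        (∏ b ∈ (tri (n k)).erase (c k), (X - C (lin3 (kg (n k)) b)))).trace =
      m k μ * ∏ b ∈ (tri (n k)).erase (c k), (lin3 (kg (n k)) (c k) - lin3 (kg (n k)) b))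
    (hu1 : ∑ k, (u k : ℂ) * m k l = 1)
    (hu0 : ∀ μ, E₀ μ → μ ≠ l → ∑ k, (u k : ℂ) * m k μ = 0) :
    IsInt Q C' (fun μ => μ = l) := by
  classical
  choose T hE' hG hr using fun k => R.exists_tw hM (p k) (n k) (hk k)
  have hne : ∀ k, (∏ b ∈ (tri (n k)).erase (c k),
      (lin3 (kg (n k)) (c k) - lin3 (kg (n k)) b)) ≠ 0 := by
    intro k
    rw [Finset.prod_ne_zero_iff]
    intro b hb h
    exact (Finset.ne_of_mem_erase hb)
      (lin3_kg (n k) (hc k) (Finset.mem_of_mem_erase hb) (sub_eq_zero.1 h)).symm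
  have hrk : ∀ k μ, E₀ μ → (T k).rk (fun _ => exq3 M i (c k)) (kx (n k) i) μ = m k μ := by
    intro k μ hμ
    rw [hr k (c k) (hc k), hm k μ hμ, mul_comm, mul_assoc, mul_inv_cancel₀ (hne k), mul_one]
  refine CMF.isInt_comb_of_tw hinj hM l hE hl (fun _ => 1) T
    (fun k _ => exq3 M i (c k)) ?_ ?_ (fun k => kx (n k) i) hG u ?_
  · intro k j
    rw [hE']
    exact Finset.mem_image_of_mem _ (hc k)
  · intro k j a ha a' ha' hne'
    rw [hE', Finset.mem_image] at ha ha'
    obtain ⟨x, hx, rfl⟩ := ha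
    obtain ⟨y, hy, rfl⟩ := ha'
    exact hC _ x hx y hy fun h => hne' (by rw [h])
  · intro μ hμ
    rw [Finset.sum_congr rfl fun k _ => by rw [hrk k μ hμ]]
    by_cases h1 : μ = l
    · subst h1
      rw [if_pos rfl, hu1]
    · rw [if_neg h1, hu0 μ hμ h1]

end

end Pool.Agent.CMFn
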