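import Pool.Agent.CMFn.QSign

/-! Project CMFn, block Q: spectral idempotents in the group algebra. -/

namespace Pool.Agent.CMFn

open Matrix Polynomial

noncomputable section

namespace Q4X

variable {G : Type} [Group G] [Fintype G] {d : ℕ}

/-- The value of a function on the group (an element of the group algebra). -/
def fv (ρ : G →* Matrix (Fin d) (Fin d) ℂ) (u : G → ℂ) : Matrix (Fin d) (Fin d) ℂ :=
  ∑ g : G, u g • ρ g

lemma fv_trace (ρ : G →* Matrix (Fin d) (Fin d) ℂ) (u : G → ℂ) :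
    (fv ρ u).trace = ∑ g : G, u g * (ρ g).trace := by
  unfold fv
  rw [Matrix.trace_sum]
  exact Finset.sum_congr rfl fun g _ => by rw [Matrix.trace_smul, smul_eq_mul]

lemma mul_fv (ρ : G →* Matrix (Fin d) (Fin d) ℂ) (s : G) (u : G → ℂ) :
    ρ s * fv ρ u = fv ρ (fun g => u (s⁻¹ * g)) := by
  unfold fv
  rw [Finset.mul_sum]
  refine Fintype.sum_equiv (Equiv.mulLeft s) _ _ fun g => ?_
  show ρ s * u g • ρ g = u (s⁻¹ * (s * g)) • ρ (s * g)
  rw [inv_mul_cancel_left, map_mul, mul_smul_comm]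

lemma fv_sum (ρ : G →* Matrix (Fin d) (Fin d) ℂ) {I : Type} (S : Finset I) (u : I → G → ℂ) :
    ∑ i ∈ S, fv ρ (u i) = fv ρ (fun g => ∑ i ∈ S, u i g) := by
  unfold fv
  rw [Finset.sum_comm]
  exact Finset.sum_congr rfl fun g _ => by rw [Finset.sum_smul]

lemma smul_fv (ρ : G →* Matrix (Fin d) (Fin d) ℂ) (c : ℂ) (u : G → ℂ) :
    c • fv ρ u = fv ρ (fun g => c * u g) := by
  unfold fv
  rw [Finset.smul_sum]
  exact Finset.sum_congr rfl fun g _ => by rw [smul_smul]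

lemma fv_sub (ρ : G →* Matrix (Fin d) (Fin d) ℂ) (u w : G → ℂ) :
    fv ρ u - fv ρ w = fv ρ (fun g => u g - w g) := by
  unfold fv
  rw [← Finset.sum_sub_distrib]
  exact Finset.sum_congr rfl fun g _ => by rw [sub_smul]

open Classical in
lemma fv_one (ρ : G →* Matrix (Fin d) (Fin d) ℂ) :
    fv ρ (fun g => if g = 1 then 1 else 0) = 1 := by
  unfold fv
  rw [Finset.sum_eq_single 1]
  · show (if (1 : G) = 1 then (1 : ℂ) else 0) • ρ 1 = 1
    rw [if_pos rfl, one_smul, map_one]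
  · intro g _ hg
    show (if g = 1 then (1 : ℂ) else 0) • ρ g = 0
    rw [if_neg hg, zero_smul]
  · intro h
    exact absurd (Finset.mem_univ 1) h

/-- A polynomial in `A` which kills `A - c`. -/
lemma aeval_proj {A P B : Matrix (Fin d) (Fin d) ℂ} {c : ℂ} (q : Polynomial ℂ)
    (hk : aeval A q * (A - c • (1 : Matrix (Fin d) (Fin d) ℂ)) = 0) (hP : A * P = c • P)
    (hB : (A - c • (1 : Matrix (Fin d) (Fin d) ℂ)) * B = 1 - P) :
    aeval A q = q.eval c • P := by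
  have h1 : aeval A q * (1 - P) = 0 := by
    rw [← hB, ← mul_assoc, hk, zero_mul]
  have h2 : aeval A q * P = q.eval c • P := by
    ext i j
    have h3 : A *ᵥ (fun k => P k j) = c • (fun k => P k j) := by
      funext k
      exact congrFun (congrFun hP k) j
    exact congrFun (qs_aeval h3 q) i
  rw [mul_sub, mul_one, sub_eq_zero] at h1
  rw [h1, h2]

open Classical in
/-- The trace of the spectral element, for the eigenvalue `c` of a sum of involutions. -/
theorem spec_trace (ρ : G →* Matrix (Fin d) (Fin d) ℂ) (S : Finset G) (h2 : ∀ s ∈ S, s * s = 1)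
    (c : ℤ) (hc : c ∈ Finset.Icc (-(S.card : ℤ)) S.card)
    (hk : aeval (∑ s ∈ S, ρ s) (∏ c ∈ Finset.Icc (-(S.card : ℤ)) S.card, (X - C (c : ℂ))) = 0)
    (u B : G → ℂ) (hu : ∀ g, ∑ s ∈ S, u (s⁻¹ * g) = c * u g)
    (hB : ∀ g, ∑ s ∈ S, B (s⁻¹ * g) - c * B g = (if g = 1 then 1 else 0) - u g) :
    (aeval (∑ s ∈ S, ρ s)
      (∏ c' ∈ (Finset.Icc (-(S.card : ℤ)) S.card).erase c, (X - C (c' : ℂ)))).trace =
      (∏ c' ∈ (Finset.Icc (-(S.card : ℤ)) S.card).erase c, ((c : ℂ) - c')) *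
        ∑ g : G, u g * (ρ g).trace := by
  have hZ : ∀ w : G → ℂ, (∑ s ∈ S, ρ s) * fv ρ w = fv ρ (fun g => ∑ s ∈ S, w (s⁻¹ * g)) := by
    intro w
    rw [Finset.sum_mul, Finset.sum_congr rfl fun s _ => mul_fv ρ s w, fv_sum]
  have h3 := aeval_proj (A := ∑ s ∈ S, ρ s) (P := fv ρ u) (B := fv ρ B) (c := (c : ℂ))
    (∏ c' ∈ (Finset.Icc (-(S.card : ℤ)) S.card).erase c, (X - C (c' : ℂ))) ?_ ?_ ?_
  · rw [h3, Matrix.trace_smul, fv_trace, Polynomial.eval_prod, smul_eq_mul]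
    congr 1
    exact Finset.prod_congr rfl fun c' _ => by simp
  · rw [← Finset.prod_erase_mul _ _ hc, map_mul, map_sub, aeval_X, aeval_C,
      Algebra.algebraMap_eq_smul_one] at hk
    exact hk
  · rw [hZ, smul_fv]
    congr 1
    funext g
    exact hu g
  · rw [sub_mul, smul_mul_assoc, one_mul, hZ, smul_fv, fv_sub, ← fv_one ρ, fv_sub]
    congr 1
    funext g
    exact hB g

/-- The eigenvalue is in the range. -/
theorem spec_mem (ρ : G →* Matrix (Fin d) (Fin d) ℂ) (S : Finset G) (h2 : ∀ s ∈ S, s * s = 1)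
    (c : ℤ) (u : G → ℂ) (hu : ∀ g, ∑ s ∈ S, u (s⁻¹ * g) = c * u g)
    (h0 : ∑ g : G, u g * (ρ g).trace ≠ 0) : c ∈ Finset.Icc (-(S.card : ℤ)) S.card := by
  have hZ : (∑ s ∈ S, ρ s) * fv ρ u = (c : ℂ) • fv ρ u := by
    rw [Finset.sum_mul, Finset.sum_congr rfl fun s _ => mul_fv ρ s u, fv_sum, smul_fv]
    congr 1
    funext g
    exact hu g
  have h1 : ∃ j, (fun k => fv ρ u k j) ≠ 0 := by
    by_contra hcon
    push Not at hcon
    apply h0
    rw [← fv_trace, Matrix.trace]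
    exact Finset.sum_eq_zero fun i _ => congrFun (hcon i) i
  obtain ⟨j, hj⟩ := h1
  have h3 : qsS ρ S *ᵥ (fun k => fv ρ u k j) = (c : ℂ) • (fun k => fv ρ u k j) := by
    funext k
    exact congrFun (congrFun hZ k) j
  have h4 := (qs_bound ρ h2 (σ := 1) (Or.inl rfl) hj h3).1
  have h5 := (qs_bound ρ h2 (σ := -1) (Or.inr rfl) hj h3).1
  exact Finset.mem_Icc.2 ⟨by linarith, by linarith⟩

end Q4X

end

end Pool.Agent.CMFn
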