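import Pool.Agent.CMFn.Q4A
import Pool.Agent.CMFn.QIsol
import Pool.Agent.CMFn.IsoNDefs

/-! Project CMFn, block Q: isolation by a spectral idempotent of the group algebra. -/

namespace Pool.Agent.CMFn

open Matrix Polynomial Q4X

noncomputable section

variable {G : Type} [Group G] [Fintype G]

/-- The spectrum of a sum of involutions which is stable under conjugation by them. -/
theorem invol_kill {m : ℕ} (τ : G →* Matrix (Fin m) (Fin m) ℂ) (S : Finset G)
    (hS : ∀ s ∈ S, s * s = 1)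
    (hc : ∀ g ∈ Subgroup.closure (S : Set G), ∀ s ∈ S, g * s * g⁻¹ ∈ S) :
    aeval (∑ s ∈ S, τ s) (∏ c ∈ Finset.Icc (-(S.card : ℤ)) S.card, (X - C (c : ℂ))) = 0 := by
  classical
  set K : Subgroup G := Subgroup.closure (S : Set G) with hK
  have : Fintype K := Fintype.ofFinite _
  set S' : Finset K := S.subtype (· ∈ K) with hS'
  have hSK : ∀ s ∈ S, s ∈ K := fun s hs => Subgroup.subset_closure hs
  have hcard : S'.card = S.card := by
    rw [hS', Finset.card_subtype, Finset.filter_true_of_mem hSK]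
  have hmem : ∀ s : K, s ∈ S' ↔ (s : G) ∈ S := fun s => Finset.mem_subtype
  have hsum : ∑ s ∈ S', (τ.comp K.subtype) s = ∑ s ∈ S, τ s :=
    Finset.sum_subtype_of_mem (fun s => τ s) hSK
  have h1 : ∀ s ∈ S', s * s = 1 := fun s hs => Subtype.ext (hS _ ((hmem s).1 hs))
  have h2 : ∀ g : K, ∀ s ∈ S', g * s * g⁻¹ ∈ S' := fun g s hs =>
    (hmem _).2 (hc g.1 g.2 s.1 ((hmem s).1 hs))
  have h6 := invol_spectrum S' h1 h2 (τ.comp K.subtype)
  rw [hcard, hsum] at h6
  exact h6

lemma rank_conj' {r : ℕ} (V : G →* Matrix (Fin r) (Fin r) ℂ) (x y : G) :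
    (V (y * x * y⁻¹) - 1).rank = (V x - 1).rank := by
  have e1 : V y * V y⁻¹ = 1 := by rw [← map_mul]; simp
  have e3 : V y⁻¹ * V y = 1 := by rw [← map_mul]; simp
  have e2 : V (y * x * y⁻¹) - 1 = V y * (V x - 1) * V y⁻¹ := by
    rw [mul_sub, sub_mul, mul_one, e1, map_mul, map_mul]
  have hu : IsUnit (V y).det := (Matrix.isUnit_iff_isUnit_det _).1 (IsUnit.of_mul_eq_one _ e1)
  have hu' : IsUnit (V y⁻¹).det := (Matrix.isUnit_iff_isUnit_det _).1 (IsUnit.of_mul_eq_one _ e3)
  rw [e2, Matrix.rank_mul_eq_left_of_isUnit_det _ _ hu',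
    Matrix.rank_mul_eq_right_of_isUnit_det _ _ hu]

lemma fix_closure {r : ℕ} (V : G →* Matrix (Fin r) (Fin r) ℂ) (p : Fin r → ℂ) (S : Set G)
    (hS : ∀ s ∈ S, V s *ᵥ p = p) : ∀ g ∈ Subgroup.closure S, V g *ᵥ p = p := by
  intro g hg
  induction hg using Subgroup.closure_induction with
  | mem x hx => exact hS x hx
  | one => rw [map_one, Matrix.one_mulVec]
  | mul x y _ _ hx hy => rw [map_mul, ← Matrix.mulVec_mulVec, hy, hx]
  | inv x _ hx =>
    conv_lhs => rw [← hx]
    rw [Matrix.mulVec_mulVec, ← map_mul, inv_mul_cancel, map_one, Matrix.one_mulVec]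

/-- The general spectral form of isolation implies the one by polynomials. -/
theorem isolE_of_isolN {r : ℕ} (V : G →* Matrix (Fin r) (Fin r) ℂ)
    (hsq : ∀ s, (V s - 1).rank = 1 → s * s = 1) (a : MRep G) (ha : IsolN V a) : IsolE V a := by
  classical
  obtain ⟨p, S, c, u, B, hS, hu, hB, h1, h2⟩ := ha
  have hinv : ∀ s ∈ S, s * s = 1 := fun s hs => hsq s ((hS s).1 hs).1
  have hfix := fix_closure V p (S : Set G) fun s hs => ((hS s).1 hs).2
  have hconj : ∀ g ∈ Subgroup.closure (S : Set G), ∀ s ∈ S, g * s * g⁻¹ ∈ S := by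
    intro g hg s hs
    refine (hS _).2 ⟨?_, ?_⟩
    · rw [rank_conj']
      exact ((hS s).1 hs).1
    · exact hfix _ (mul_mem (mul_mem hg (Subgroup.subset_closure hs)) (inv_mem hg))
  have hz : ∀ b : MRep G, zV V p b = ∑ s ∈ S, b.2 s := by
    intro b
    unfold zV
    rw [← Finset.sum_filter]
    refine Finset.sum_congr ?_ fun _ _ => rfl
    ext s
    rw [Finset.mem_filter, hS]
    exact ⟨fun h => h.2, fun h => ⟨Finset.mem_univ _, h⟩⟩
  have hc : c ∈ Finset.Icc (-(S.card : ℤ)) S.card := by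
    refine spec_mem a.2 S hinv c u hu ?_
    rw [h1]
    exact one_ne_zero
  refine ⟨p, Finset.Icc (-(S.card : ℤ)) S.card, c, hc, ?_, ?_, ?_⟩
  · intro b _
    rw [hz]
    exact invol_kill b.2 S hinv hconj
  · rw [hz, spec_trace a.2 S hinv c hc (invol_kill a.2 S hinv hconj) u B hu hB, h1, mul_one]
  · intro b hb hl
    rcases h2 b hb hl with h3 | h3
    · left
      rw [hz, spec_trace b.2 S hinv c hc (invol_kill b.2 S hinv hconj) u B hu hB, h3, mul_zero]
    · right
      exact h3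

end

end Pool.Agent.CMFn
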