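import Pool.Agent.CMFn.QDE8a
import Pool.Agent.CMFn.DatE8
import Pool.Agent.CMFn.CUse
import Pool.Agent.CMFn.CRing
import Pool.Agent.CMFn.QSg

/-! Project CMFn, block Q: checks of the data QDE8a (type D4), and the isolated characters of
E8 obtained from them.  helper71 (generated). -/

namespace Pool.Agent.CMFn.E8

open GD

noncomputable section

variable {G : Type} [Group G] [Fintype G] {V : G →* Matrix (Fin 8) (Fin 8) ℂ} {γ : ℕ → G}

theorem D4_all : PD.chkAll dat op0 = true := by decide +kernel

theorem D4_zero : D4.chkZero dat = true := by decide +kernel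

theorem D4_ne : allR 0 192 (D4.chkNe dat) = true := by decide +kernel

theorem D4_mv : allR 0 4 (D4.chkMv dat op0) = true := by decide +kernel

theorem D4_pr : allR 0 192 D4.chkPr = true := by decide +kernel

theorem D4_cl : allR 0 192 (D4.chkCl dat) = true := by decide +kernel

theorem D4_loc : allR 0 120 (D4.chkLoc dat op0) = true := by decide +kernel

theorem D4_gs : allR 0 4 (D4.chkGs dat op0) = true := by decide +kernel

theorem D4_sg : allR 0 192 (D4.chkSg true) = true := by decide +kernel

theorem D4_sgt : allR 0 192 (({ D4 with sg := 0 } : PD PN).chkSg false) = true := by decide +kernel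

theorem D4_ck : D4.Ck dat op0 true where
  all := D4_all
  zero := D4_zero
  ne := of_allR D4_ne
  mv := of_allR D4_mv
  pr := of_allR D4_pr
  cl := of_allR D4_cl
  loc := of_allR D4_loc
  gs := of_allR D4_gs
  sg := of_allR D4_sg

theorem D4_ckt : ({ D4 with sg := 0 } : PD PN).Ck dat op0 false :=
  D4_ck.sg0 (of_allR D4_sgt)

theorem D4_iso89 : GD.chkIso dat D4 89 = true := by decide +kernel

/-- The character of degree 525 at level 24. -/
theorem isol89 (hG : Gp dat fz V γ) (CA : CkA dat) (CB : CkB dat) {lt : ℕ → G} {a : ℕ → MRep G}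
    (O : Out dat fz V γ lt a) : Isol V (a 89) :=
  GD.isol_cert crs_z hG CA CB O (List.mem_singleton_self op0) (by decide) D4_ck (by decide)
    D4_iso89

theorem D4_iso21 : GD.chkIso dat { D4 with sg := 0 } 21 = true := by decide +kernel

/-- The character of degree 525 at level -24. -/
theorem isol21 (hG : Gp dat fz V γ) (CA : CkA dat) (CB : CkB dat) {lt : ℕ → G} {a : ℕ → MRep G}
    (O : Out dat fz V γ lt a) : Isol V (a 21) :=
  GD.isol_cert crs_z hG CA CB O (List.mem_singleton_self op0) (by decide) D4_ckt (by decide)
    D4_iso21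

end

end Pool.Agent.CMFn.E8
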