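import Pool.Agent.CMFn.QIdem

/-! Project CMF in rank `r` (MP_4af2a6_al), module QDec (helper77): decompositions of `1` into
quasi-idempotents, products of commuting decompositions, criteria for integral sets. -/

set_option linter.unusedSectionVars false

namespace Pool.Agent.CMF

open Matrix Polynomial Filter Topology

noncomputable section

variable {Z : Type} [CommRing Z] [IsDomain Z] [Algebra Z ℂ] {ι : Type}

/-- A family of elements `f_i` with `f_i² = δ_i f_i` and `Σ_i c_i f_i = δ`. -/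
structure QDec (D : HData Z ι) (C : (ι →₀ ℤ) → Prop) where
  I : Type
  [finI : Fintype I]
  f : I → D.H
  c : I → Lau Z ι
  J : I → Type
  [finJ : ∀ i, Fintype (J i)]
  P : ∀ i, J i → (ι →₀ ℤ) × (ι →₀ ℤ)
  ne : ∀ i j, (P i j).1 ≠ (P i j).2
  cond : ∀ i j, C ((P i j).1 - (P i j).2)
  J0 : Type
  [finJ0 : Fintype J0]
  P0 : J0 → (ι →₀ ℤ) × (ι →₀ ℤ)
  ne0 : ∀ j, (P0 j).1 ≠ (P0 j).2
  cond0 : ∀ j, C ((P0 j).1 - (P0 j).2)
  idem : ∀ i, f i * f i = dlt Z (P i) • f i
  sum : ∑ i, c i • f i = dlt Z P0 • 1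

attribute [instance] QDec.finI QDec.finJ QDec.finJ0

variable {D : HData Z ι} {C : (ι →₀ ℤ) → Prop}

/-- The denominator of `f_i`. -/
def QDec.δ (T : QDec D C) (i : T.I) : Lau Z ι := dlt Z (T.P i)

/-- The trivial decomposition. -/
def QDec.one : QDec D C where
  I := Unit
  f := fun _ => 1
  c := fun _ => 1
  J := fun _ => Empty
  P := fun _ => Empty.elim
  ne := fun _ j => j.elim
  cond := fun _ j => j.elim
  J0 := Empty
  P0 := Empty.elim
  ne0 := fun j => j.elim
  cond0 := fun j => j.elim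
  idem := fun _ => by simp [dlt]
  sum := by simp [dlt]

/-- The product of two commuting decompositions. -/
def QDec.mul (T T' : QDec D C) (hc : ∀ i j, T.f i * T'.f j = T'.f j * T.f i) : QDec D C where
  I := T.I × T'.I
  f := fun i => T.f i.1 * T'.f i.2
  c := fun i => T.c i.1 * T'.c i.2
  J := fun i => T.J i.1 ⊕ T'.J i.2
  P := fun i => Sum.elim (T.P i.1) (T'.P i.2)
  ne := by
    rintro i (j | j)
    · exact T.ne _ j
    · exact T'.ne _ j
  cond := by
    rintro i (j | j)
    · exact T.cond _ j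
    · exact T'.cond _ j
  J0 := T.J0 ⊕ T'.J0
  P0 := Sum.elim T.P0 T'.P0
  ne0 := by
    rintro (j | j)
    · exact T.ne0 j
    · exact T'.ne0 j
  cond0 := by
    rintro (j | j)
    · exact T.cond0 j
    · exact T'.cond0 j
  idem := fun i => by
    rw [dlt_sum]
    calc T.f i.1 * T'.f i.2 * (T.f i.1 * T'.f i.2)
        = T.f i.1 * (T'.f i.2 * T.f i.1) * T'.f i.2 := by simp only [mul_assoc]
      _ = (T.f i.1 * T.f i.1) * (T'.f i.2 * T'.f i.2) := by
          rw [← hc]; simp only [mul_assoc]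
      _ = _ := by rw [T.idem, T'.idem, smul_mul_smul_comm]
  sum := by
    rw [dlt_sum, Fintype.sum_prod_type]
    have h1 : ∀ x : T.I, ∑ y : T'.I, (T.c x * T'.c y) • (T.f x * T'.f y) =
        (T.c x • T.f x) * (dlt Z T'.P0 • 1) := by
      intro x
      rw [← T'.sum, Finset.mul_sum]
      exact Finset.sum_congr rfl fun y _ => (smul_mul_smul_comm _ _ _ _).symm
    simp only [h1]
    rw [← Finset.sum_mul, T.sum, smul_mul_smul_comm, one_mul]

section Tw

variable [Fintype ι]

open Classical in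
/-- The decomposition given by one element with a square free equation. -/
def QDec.ofTwist (w : D.H) (B : Finset (ι →₀ ℤ)) (hB : B.Nonempty)
    (hC : ∀ b ∈ B, ∀ b' ∈ B, b ≠ b' → C (b - b'))
    (hw : Polynomial.aeval w (∏ b ∈ B, (Polynomial.X - Polynomial.C (mon b : Lau Z ι))) = 0) :
    QDec D C where
  I := {e // e ∈ B}
  f := fun e => lagF w B e.1
  c := fun e => ∏ e' ∈ B.erase e.1, dlt Z (lagP B e')
  J := fun e => {b // b ∈ B.erase e.1}
  P := fun e => lagP B e.1
  ne := fun e j => lagP_ne B e.1 j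
  cond := fun e j => hC e.1 e.2 j.1 (Finset.mem_of_mem_erase j.2)
    (Ne.symm (Finset.ne_of_mem_erase j.2))
  J0 := Σ e : {e // e ∈ B}, {b // b ∈ B.erase e.1}
  P0 := fun j => lagP B j.1.1 j.2
  ne0 := fun j => lagP_ne B j.1.1 j.2
  cond0 := fun j => hC j.1.1 j.1.2 j.2.1 (Finset.mem_of_mem_erase j.2.2)
    (Ne.symm (Finset.ne_of_mem_erase j.2.2))
  idem := fun e => lag_idem w B e.2 hw
  sum := by
    have h := lag_sum (Z := Z) w B hB
    rw [Finset.sum_coe_sort B (fun e => (∏ e' ∈ B.erase e, dlt Z (lagP B e')) • lagF w B e), h]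
    congr 1
    rw [dlt, Fintype.prod_sigma, ← Finset.prod_coe_sort B (fun e => dlt Z (lagP B e))]
    rfl

variable {M : ℕ} {Q : KZData D M}

/-- The support of `f_i`: the characters with non-zero multiplicity. -/
def QDec.supp (T : QDec D C) (i : T.I) (l : D.Λ) : Prop := D.X l (T.f i) ≠ 0

/-- Path criterion: every `f_i` has its support outside `F` or outside `E ∖ F`. -/
theorem isInt_of_qdec (hinj : Function.Injective (algebraMap Z ℂ)) (hM : 0 < M)
    {E F : D.Λ → Prop} (hE : IsInt Q C E) (hFE : ∀ l, F l → E l) (T : QDec D C)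
    (h : ∀ i, (∀ l, F l → D.X l (T.f i) = 0) ∨ (∀ l, E l → ¬ F l → D.X l (T.f i) = 0)) :
    IsInt Q C F := by
  have hz : ∀ i l, D.X l (T.f i) = 0 → ∀ κ, Q.ρ κ l (T.c i • T.f i) = 0 := by
    intro i l h0 κ
    rw [Q.ρ_smul, zero_of_mult Q hinj hM (dlt_ne _ (T.ne i)) (T.idem i) l h0 κ, smul_zero]
  refine isInt_of_paths hE hFE (fun i => T.c i • T.f i) T.P0 T.ne0 T.cond0 (fun κ l _ => ?_)
    (fun i => ?_)
  · rw [← map_sum, T.sum, Q.ρ_smul, map_one]
  · rcases h i with h1 | h1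
    · exact Or.inl fun κ l hl => hz i l (h1 l hl) κ
    · exact Or.inr fun κ l hl hl' => hz i l (h1 l hl hl') κ

open Classical in
/-- Bezout criterion: a character `l` of the integral set `E`, quasi-idempotents `f_i` whose
support meets `E` only in `l`, with coprime multiplicities at `l`. -/
theorem isInt_of_mult (hinj : Function.Injective (algebraMap Z ℂ)) (hM : 0 < M)
    {E : D.Λ → Prop} (hE : IsInt Q C E) (l : D.Λ) (hl : E l) {I : Type} [Fintype I]
    (f : I → D.H) (m : I → ℕ) (u : I → ℤ) (J : I → Type) [∀ i, Fintype (J i)]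
    (P : ∀ i, J i → (ι →₀ ℤ) × (ι →₀ ℤ)) (hne : ∀ i j, (P i j).1 ≠ (P i j).2)
    (hC : ∀ i j, C ((P i j).1 - (P i j).2)) (hid : ∀ i, f i * f i = dlt Z (P i) • f i)
    (hf : ∀ i, D.X l (f i) = (m i : Lau Z ι) * dlt Z (P i))
    (hf' : ∀ i μ, E μ → μ ≠ l → D.X μ (f i) = 0) (hu : ∑ i, u i * m i = 1) :
    IsInt Q C (fun μ => μ = l) := by
  obtain ⟨h⟩ := hE
  refine isInt_of_bezout l (fun i => h.X * f i) (fun i => (m i : ℤ)) u (fun i => h.J ⊕ J i)
    (fun i => Sum.elim h.P (P i)) ?_ ?_ (fun i => ?_) (fun i μ hμ => ?_) hu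
  · rintro i (j | j)
    · exact h.ne j
    · exact hne i j
  · rintro i (j | j)
    · exact h.cond j
    · exact hC i j
  · rw [dlt_sum, Int.cast_natCast]
    apply sub_eq_zero.1
    apply evL_inj hinj hM
    intro κ
    rw [map_sub, ← Q.tr, map_mul, h.pos κ l hl, smul_mul_assoc, one_mul, Matrix.trace_smul,
      Q.tr, hf, map_mul, map_mul, map_mul, smul_eq_mul]
    ring
  · apply evL_inj hinj hM
    intro κ
    rw [← Q.tr, map_mul]
    by_cases hE : E μ
    · rw [zero_of_mult Q hinj hM (dlt_ne _ (hne i)) (hid i) μ (hf' i μ hE hμ) κ, mul_zero,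
        Matrix.trace_zero]
    · rw [h.neg κ μ hE, zero_mul, Matrix.trace_zero]

end Tw

end

end Pool.Agent.CMF
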