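import Pool.Agent.CMFn.Conn
import Pool.Agent.CMFn.LocMonB
import Pool.Agent.CMFn.QDefs

/-! Project CMF, block Q (every rank): the residue of the KZ connection at a point, for groups whose
reflections have order two and form one class. -/

namespace Pool.Agent.CMFn

open Matrix

noncomputable section

variable {r : ℕ} {N : SG r} [Fintype N]

open Classical in
/-- The sum of the reflections which fix `p`. -/
def zP {ι : Type} [Fintype ι] [DecidableEq ι] (ρ : N →* Matrix ι ι ℂ) (p : Fin r → ℂ) :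
    Matrix ι ι ℂ :=
  ∑ w : N, (if IsRefl w.1 ∧ w.1.1 *ᵥ p = p then (1 : ℂ) else 0) • ρ w

variable (N) in
open Classical in
/-- The number of the reflections which fix `p`. -/
def nP (p : Fin r → ℂ) : ℕ :=
  (Finset.univ.filter fun w : N => IsRefl w.1 ∧ w.1.1 *ᵥ p = p).card

namespace QFinX

lemma sq_det (w : N) (h : w * w = 1) : w.1.1.det * w.1.1.det = 1 := by
  have h1 : (w * w).1.1 = 1 := by rw [h]; rfl
  have h2 : (w * w).1.1 = w.1.1 * w.1.1 := rfl
  rw [← Matrix.det_mul, ← h2, h1, Matrix.det_one]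

lemma rank_one_sub (w : N) (hw : IsRefl w.1) : w ≠ 1 := by
  rintro rfl
  have h : ((1 : Matrix (Fin r) (Fin r) ℂ) - 1).rank = 1 := hw
  rw [sub_self, Matrix.rank_zero] at h
  exact zero_ne_one h

/-- Reflections of order two have determinant `-1`. -/
lemma det_two (w : N) (hw : IsRefl w.1) (h : w * w = 1) : w.1.1.det = -1 := by
  have h1 := sq_det w h
  have h2 : w.1.1.det ≠ 1 := by
    intro h3
    refine rank_one_sub w hw ?_
    refine refl_ext ⟨fixL w.1, w.1, w.2, hw, rfl⟩ w 1 (fun v hv => LocMonX.mem_fixL'.1 hv) (fun v _ => ?_) ?_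
    · show (1 : Matrix (Fin r) (Fin r) ℂ) *ᵥ v = v
      rw [Matrix.one_mulVec]
    · show w.1.1.det = (1 : Matrix (Fin r) (Fin r) ℂ).det
      rw [h3, Matrix.det_one]
  have h3 : (w.1.1.det - 1) * (w.1.1.det + 1) = 0 := by linear_combination h1
  rcases mul_eq_zero.1 h3 with h4 | h4
  · exact absurd (sub_eq_zero.1 h4) h2
  · exact eq_neg_of_add_eq_zero_left h4

/-- The pointwise stabilisers of the reflecting hyperplanes have order two. -/
theorem eH_two (h2 : ∀ w : N, IsRefl w.1 → w * w = 1) (H : Arr N) : eH N H.1 = 2 := by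
  obtain ⟨s, hs, hd⟩ := exists_dist H
  have hpos := eH_pos N H
  have hprim := Complex.isPrimitiveRoot_exp (eH N H.1) hpos.ne'
  have hs1 : s ≠ 1 := by
    rintro rfl
    have h1 : ((1 : N).1.1).det = 1 := Matrix.det_one
    rw [h1] at hd
    have he : eH N H.1 = 1 := by
      have := hprim.pow_eq_one_iff_dvd 1
      rw [pow_one, ← hd] at this
      exact Nat.dvd_one.1 (this.1 rfl)
    obtain ⟨H', t, ht, htr, rfl⟩ := H
    have h3 := LocMonX.det_pow_card ⟨fixL t, t, ht, htr, rfl⟩ ⟨t, ht⟩ (fun v hv => LocMonX.mem_fixL'.1 hv)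
    have he' : eH N (fixL t) = 1 := he
    rw [he', pow_one] at h3
    have h4 := det_two ⟨t, ht⟩ htr (h2 _ htr)
    rw [h3] at h4
    norm_num at h4
  have hfix : fixL s.1 = H.1 := LocMonX.fixL_eq H s hs hs1
  have hsr : IsRefl s.1 := by
    obtain ⟨H', t, ht, htr, rfl⟩ := H
    have := LocMonX.rank_eq_of_fixL_eq s.1 t hfix
    unfold IsRefl
    rw [this]
    exact htr
  have h3 := det_two s hsr (h2 s hsr)
  rw [hd] at h3
  have h4 : Complex.exp (2 * Real.pi * Complex.I / eH N H.1) ^ 2 = 1 := by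
    rw [h3]; norm_num
  have h5 := (hprim.pow_eq_one_iff_dvd 2).1 h4
  have h6 : eH N H.1 ≠ 1 := by
    intro h6
    have h7 := hprim.pow_eq_one
    rw [h6, pow_one, Nat.cast_one] at h7
    rw [h6, Nat.cast_one, h7] at h3
    norm_num at h3
  have h7 := Nat.le_of_dvd two_pos h5
  omega

end QFinX

open QFinX

/-- The residue at `p`, for reflections of order two in one class. -/
theorem App_one {ι : Type} [Fintype ι] [DecidableEq ι] (h2 : ∀ w : N, IsRefl w.1 → w * w = 1)
    (ρ : N →* Matrix ι ι ℂ) (k : Idx N → ℂ) (k₀ k₁ : ℂ) (hk₀ : ∀ H : Arr N, k (idx H 0) = k₀)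
    (hk₁ : ∀ H : Arr N, k (idx H 1) = k₁) (p : Fin r → ℂ) :
    App ρ k p = (k₀ - k₁) • zP ρ p + (nP N p * (k₀ + k₁) : ℂ) • 1 := by
  classical
  unfold App zP nP
  congr 1
  · rw [Finset.smul_sum]
    refine Finset.sum_congr rfl fun w _ => ?_
    rw [smul_smul]
    congr 1
    by_cases hw : IsRefl w.1
    · by_cases hp : w.1.1 *ᵥ p = p
      · rw [if_pos hp, if_pos ⟨hw, hp⟩, mul_one]
        unfold cr cf
        rw [dif_pos hw, eH_two h2, Finset.sum_range_succ, Finset.sum_range_one]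
        rw [Nat.cast_zero, Nat.cast_one, hk₀, hk₁, pow_zero, pow_one, det_two w hw (h2 w hw)]
        ring
      · rw [if_neg hp, if_neg (fun h => hp h.2), mul_zero]
    · have h3 : ¬ (IsRefl w.1 ∧ w.1.1 *ᵥ p = p) := fun h => hw h.1
      have : cr k w = 0 := by
        unfold cr
        rw [dif_neg hw]
      rw [if_neg h3, mul_zero, this, ite_self]
  · congr 1
    have h3 : ∀ H : Arr N, cs k H = k₀ + k₁ := by
      intro H
      unfold cs
      rw [eH_two h2, Finset.sum_range_succ, Finset.sum_range_one, Nat.cast_zero, Nat.cast_one, hk₀, hk₁]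
    have h4 : (∑ H : Arr N, if p ∈ H.1 then cs k H else 0) =
        ((Finset.univ.filter fun H : Arr N => p ∈ H.1).card : ℂ) * (k₀ + k₁) := by
      rw [← Finset.sum_filter, Finset.sum_congr rfl fun H _ => h3 H, Finset.sum_const, nsmul_eq_mul]
    rw [h4]
    congr 2
    symm
    refine Finset.card_bij (fun w hw => (⟨fixL w.1, w.1, w.2, (Finset.mem_filter.1 hw).2.1, rfl⟩ : Arr N))
      ?_ ?_ ?_
    · intro w hw
      rw [Finset.mem_filter]
      exact ⟨Finset.mem_univ _, LocMonX.mem_fixL'.2 (Finset.mem_filter.1 hw).2.2⟩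
    · intro w hw w' hw' h
      have h5 : fixL w.1 = fixL w'.1 := congrArg Subtype.val h
      obtain ⟨_, hr, _⟩ := Finset.mem_filter.1 hw
      obtain ⟨_, hr', _⟩ := Finset.mem_filter.1 hw'
      refine refl_ext ⟨fixL w.1, w.1, w.2, hr, rfl⟩ w w' (fun v hv => LocMonX.mem_fixL'.1 hv)
        (fun v hv => LocMonX.mem_fixL'.1 (h5 ▸ hv)) ?_
      rw [det_two w hr (h2 w hr), det_two w' hr' (h2 w' hr')]
    · intro H hH
      obtain ⟨_, hp⟩ := Finset.mem_filter.1 hH
      obtain ⟨H', t, ht, htr, rfl⟩ := H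
      exact ⟨⟨t, ht⟩, Finset.mem_filter.2 ⟨Finset.mem_univ _, htr, LocMonX.mem_fixL'.1 hp⟩, rfl⟩

end

end Pool.Agent.CMFn
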