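import Pool.Agent.CMFn.DatG31
import Pool.Agent.CMFn.CQI

/-! Project CMFn, block Q: parabolic subgroups of G31 and the characters they isolate (data and
kernel checks; generated).  helper86. -/

namespace Pool.Agent.CMFn.G31

open GD

noncomputable section

/-- The parabolic subgroup G(4,2,2) (16 elements). -/
def pd0 : PD (Qd PN) where
  n := 16
  p := [⟨⟨1, 0⟩, ⟨0, 1⟩⟩, ⟨⟨3, 0⟩, ⟨3, 0⟩⟩, ⟨⟨4, 0⟩, ⟨0, 0⟩⟩, ⟨⟨2, 0⟩, ⟨0, 0⟩⟩]
  ns := 3
  gs := [1, 23, 54]
  el := (.nd (.nd (.nd (.nd (.lf 0x3020100) (.lf 0x9bc6bc7b)) (.nd (.lf 0xd616053e) (.lf 0x600290a8))) (.nd (.nd (.lf 0x265c3100) (.lf 0xb24d0144)) (.nd (.lf 0xeb1370d) (.lf 0x1cc6373e)))) (.nd (.nd (.nd (.lf 0x9b0a050d) (.lf 0x264d97a8)) (.nd (.lf 0x1c0ab982) (.lf 0xe16bc82))) (.nd (.nd (.lf 0x39d97a5) (.lf 0xd6b1b97b)) (.nd (.lf 0xb25c90a5) (.lf 0x609d3144)))))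
  mv := [0xe000f0009000500070004000d0003000b0002000c000a0008000600000001, 0xa0006000500070008000f0003000b000c000e000d00010009000000040002, 0xc00080006000f00040009000a000e0002000d0001000b0000000700050003]
  par := 0x1000a010006010005000005020004000004010003000003020002000002020001010001020000010000000000000000
  cw := (.nd (.nd (.nd (.nd (.lf 0) (.lf 0x28100c)) (.nd (.lf 0x100b0c) (.lf 0x4601))) (.nd (.nd (.lf 0x1c0f01) (.lf 0x2b0f01)) (.nd (.lf 0x3a100c) (.lf 0x2401)))) (.nd (.nd (.nd (.lf 0xe01) (.lf 0x1c110c)) (.nd (.lf 0x16100c) (.lf 0x200b36))) (.nd (.nd (.lf 0x4501) (.lf 0x1d0b35)) (.nd (.lf 0x3c140c) (.lf 0x100b22)))))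
  sg := 0x7c0e
  loc := 0xc000300000000000a0000000000000000000000000000000000000000000000000000000000000000000000000000000000000000000000000000000000000002000000000000000e0000000000000000000000000000000000000000000000000000000000000000000000010000

theorem q_all : PD.chkAll dat op0 = true := by decide +kernel

theorem q0_zero : pd0.chkZero dat = true := by decide +kernel

theorem q0_ne : allR 0 16 (pd0.chkNe dat) = true := by decide +kernel

theorem q0_mv : allR 0 3 (pd0.chkMv dat op0) = true := by decide +kernel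

theorem q0_pr : allR 0 16 pd0.chkPr = true := by decide +kernel

theorem q0_cl : allR 0 16 (pd0.chkCl dat) = true := by decide +kernel

theorem q0_loc : allR 0 60 (pd0.chkLoc dat op0) = true := by decide +kernel

theorem q0_gs : allR 0 3 (pd0.chkGs dat op0) = true := by decide +kernel

theorem q0_sg : allR 0 16 (pd0.chkSg true) = true := by decide +kernel

theorem q0 : pd0.Ck dat op0 true where
  all := q_all
  zero := q0_zero
  ne := of_allR q0_ne
  mv := of_allR q0_mv
  pr := of_allR q0_pr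
  cl := of_allR q0_cl
  loc := of_allR q0_loc
  gs := of_allR q0_gs
  sg := of_allR q0_sg

/-- The parabolic subgroup A2 (6 elements). -/
def pd1 : PD (Qd PN) where
  n := 6
  p := [⟨⟨1, 0⟩, ⟨3, 0⟩⟩, ⟨⟨2, 0⟩, ⟨6, 0⟩⟩, ⟨⟨3, 0⟩, ⟨0, 0⟩⟩, ⟨⟨9, 0⟩, ⟨0, 0⟩⟩]
  ns := 2
  gs := [0, 3]
  el := (.nd (.nd (.nd (.lf 0x3020100) (.lf 0x9b0a0801)) (.lf 0x70120d06)) (.nd (.nd (.lf 0x3020605) (.lf 0x9b0a050d)) (.lf 0x70120008)))
  mv := [0x300020005000400000001, 0x400050001000000030002]
  par := 0x3000002010001010000000000000000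
  cw := (.nd (.nd (.nd (.lf 0) (.lf 0xb02)) (.lf 0xc01)) (.nd (.nd (.lf 1) (.lf 0xe01)) (.lf 2)))
  sg := 0x26
  loc := 0x2000000050001

theorem q1_zero : pd1.chkZero dat = true := by decide +kernel

theorem q1_ne : allR 0 6 (pd1.chkNe dat) = true := by decide +kernel

theorem q1_mv : allR 0 2 (pd1.chkMv dat op0) = true := by decide +kernel

theorem q1_pr : allR 0 6 pd1.chkPr = true := by decide +kernel

theorem q1_cl : allR 0 6 (pd1.chkCl dat) = true := by decide +kernel

theorem q1_loc : allR 0 60 (pd1.chkLoc dat op0) = true := by decide +kernel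

theorem q1_gs : allR 0 2 (pd1.chkGs dat op0) = true := by decide +kernel

theorem q1_sg : allR 0 6 (pd1.chkSg true) = true := by decide +kernel

theorem q1 : pd1.Ck dat op0 true where
  all := q_all
  zero := q1_zero
  ne := of_allR q1_ne
  mv := of_allR q1_mv
  pr := of_allR q1_pr
  cl := of_allR q1_cl
  loc := of_allR q1_loc
  gs := of_allR q1_gs
  sg := of_allR q1_sg

/-- The parabolic subgroup A3 (24 elements). -/
def pd2 : PD (Qd PN) where
  n := 24
  p := [⟨⟨1, 0⟩, ⟨2, 0⟩⟩, ⟨⟨2, 0⟩, ⟨4, 0⟩⟩, ⟨⟨3, 0⟩, ⟨2, 0⟩⟩, ⟨⟨4, 0⟩, ⟨0, 0⟩⟩]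
  ns := 3
  gs := [0, 3, 14]
  el := (.nd (.nd (.nd (.nd (.nd (.lf 0x3020100) (.lf 0x6f0d060e)) (.lf 0x49180206)) (.nd (.nd (.lf 0x70120008) (.lf 0xd8000826)) (.lf 0xc2060e12))) (.nd (.nd (.nd (.lf 0x70120d06) (.lf 0xd8000e02)) (.lf 0x9a01000e)) (.nd (.nd (.lf 0x9b0a0801) (.lf 0xb7051802)) (.lf 0x6e0e0201)))) (.nd (.nd (.nd (.nd (.lf 0x3020605) (.lf 0x6e0e120d)) (.lf 0x9b0a050d)) (.nd (.nd (.lf 0x2f260a05) (.lf 0x98080118)) (.lf 0x6f0d260a))) (.nd (.nd (.nd (.lf 0x2f261200) (.lf 0x98082612)) (.lf 0x49180a08)) (.nd (.nd (.lf 0x9a01180a) (.lf 0xb7050d26)) (.lf 0xc2060518)))))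
  mv := [0x14001200100017000d0016000b0015000a0008001300070011000f0004000e000c0002000300090005000600000001, 0x1500130017000f0016000c000e000a00140011000700120005001000060003000d0009000b00010008000000040002, 0x16001700110012000e00140015000b000900130008000600100004000f000d0002000c0001000a0000000700050003]
  par := 0x1400001200001001000f00000d01000c00000b01000a020009000008010007020006010005020004000004010003020002000002020001010001020000010000000000000000
  cw := (.nd (.nd (.nd (.nd (.nd (.lf 0) (.lf 0x1902)) (.lf 0xf0b02)) (.nd (.nd (.lf 2) (.lf 0xe04)) (.lf 0xb04))) (.nd (.nd (.nd (.lf 0xc01) (.lf 0xe03)) (.lf 4)) (.nd (.nd (.lf 0xb02) (.lf 0xf04)) (.lf 0xc04)))) (.nd (.nd (.nd (.nd (.lf 1) (.lf 0x1302)) (.lf 0xe01)) (.nd (.nd (.lf 3) (.lf 0x1301)) (.lf 0xf01))) (.nd (.nd (.nd (.lf 0x130c01) (.lf 0x190b02)) (.lf 0x1904)) (.nd (.nd (.lf 0xf02) (.lf 0xc03)) (.lf 0x130b02)))))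
  sg := 0x707e0e
  loc := 0x300000000000000000000000d00000000000000150002000000090001

theorem q2_zero : pd2.chkZero dat = true := by decide +kernel

theorem q2_ne : allR 0 24 (pd2.chkNe dat) = true := by decide +kernel

theorem q2_mv : allR 0 3 (pd2.chkMv dat op0) = true := by decide +kernel

theorem q2_pr : allR 0 24 pd2.chkPr = true := by decide +kernel

theorem q2_cl : allR 0 24 (pd2.chkCl dat) = true := by decide +kernel

theorem q2_loc : allR 0 60 (pd2.chkLoc dat op0) = true := by decide +kernel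

theorem q2_gs : allR 0 3 (pd2.chkGs dat op0) = true := by decide +kernel

theorem q2_sg : allR 0 24 (pd2.chkSg true) = true := by decide +kernel

theorem q2 : pd2.Ck dat op0 true where
  all := q_all
  zero := q2_zero
  ne := of_allR q2_ne
  mv := of_allR q2_mv
  pr := of_allR q2_pr
  cl := of_allR q2_cl
  loc := of_allR q2_loc
  gs := of_allR q2_gs
  sg := of_allR q2_sg

/-- A combination which isolates the character 6 (dimension 5). -/
def l0 : List (CT (Qd PN)) := [⟨pd0, true, false, 1, 1⟩]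

theorem i0 : dat.chkIsoC l0 16 6 = true := by decide +kernel

theorem c0 : ∀ c ∈ l0, c.P.Ck dat op0 c.tw :=
  List.forall_mem_cons.2 ⟨q0, List.forall_mem_nil _⟩

/-- A combination which isolates the character 9 (dimension 5). -/
def l1 : List (CT (Qd PN)) := [⟨pd0.tv, false, false, 1, 1⟩]

theorem i1 : dat.chkIsoC l1 16 9 = true := by decide +kernel

theorem c1 : ∀ c ∈ l1, c.P.Ck dat op0 c.tw :=
  List.forall_mem_cons.2 ⟨q0.tv, List.forall_mem_nil _⟩

/-- A combination which isolates the character 25 (dimension 20). -/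
def l2 : List (CT (Qd PN)) := [⟨pd1, true, false, 1, 8⟩, ⟨pd0, true, true, 1, 3⟩, ⟨pd2, true, true, 3, 6⟩]

theorem i2 : dat.chkIsoC l2 48 25 = true := by decide +kernel

theorem c2 : ∀ c ∈ l2, c.P.Ck dat op0 c.tw :=
  List.forall_mem_cons.2 ⟨q1, List.forall_mem_cons.2 ⟨q0, List.forall_mem_cons.2 ⟨q2, List.forall_mem_nil _⟩⟩⟩

/-- A combination which isolates the character 54 (dimension 45). -/
def l3 : List (CT (Qd PN)) := [⟨pd2, true, false, 3, 3⟩, ⟨pd2.tv, false, true, 1, 1⟩]

theorem i3 : dat.chkIsoC l3 24 54 = true := by decide +kernel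

theorem c3 : ∀ c ∈ l3, c.P.Ck dat op0 c.tw :=
  List.forall_mem_cons.2 ⟨q2, List.forall_mem_cons.2 ⟨q2.tv, List.forall_mem_nil _⟩⟩

/-- A combination which isolates the character 56 (dimension 45). -/
def l4 : List (CT (Qd PN)) := [⟨pd2.tv, false, false, 3, 3⟩, ⟨pd2, true, true, 1, 1⟩]

theorem i4 : dat.chkIsoC l4 24 56 = true := by decide +kernel

theorem c4 : ∀ c ∈ l4, c.P.Ck dat op0 c.tw :=
  List.forall_mem_cons.2 ⟨q2.tv, List.forall_mem_cons.2 ⟨q2, List.forall_mem_nil _⟩⟩

theorem q_lab : allR 0 59 (dat.chkLabIM 0x140000002000240 0x30c000000) = true := by decide +kernel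

theorem t26 : dat.chkTr op0 26 2 false = true := by decide +kernel

theorem y26 : dat.chkYs pd0 0x30c000000 26 = true := by decide +kernel

theorem d26 : Nat.beq (dat.dimv 26) 20 = true := by decide +kernel

theorem t27 : dat.chkTr op0 27 2 false = true := by decide +kernel

theorem y27 : dat.chkYs pd0 0x30c000000 27 = true := by decide +kernel

theorem d27 : Nat.beq (dat.dimv 27) 20 = true := by decide +kernel

theorem t32 : dat.chkTr op0 32 2 true = true := by decide +kernel

theorem y32 : dat.chkYs pd0.tv 0x30c000000 32 = true := by decide +kernel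

theorem d32 : Nat.beq (dat.dimv 32) 20 = true := by decide +kernel

theorem t33 : dat.chkTr op0 33 2 true = true := by decide +kernel

theorem y33 : dat.chkYs pd0.tv 0x30c000000 33 = true := by decide +kernel

theorem d33 : Nat.beq (dat.dimv 33) 20 = true := by decide +kernel

theorem q_I : dat.chkI 0x140000002000240 [6, 9, 25, 54, 56] = true := by decide +kernel

theorem q_M : dat.chkI 0x30c000000 [26, 27, 32, 33] = true := by decide +kernel

end

end Pool.Agent.CMFn.G31
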