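import Pool.Agent.CMFn.IsInt

/-! Project CMF in rank `r` (MP_4af2a6_al), module QIdem (helper77): elements `f` of `H` with
`f² = δ f`, `δ` a product of differences of monomials, and their multiplicities. -/

set_option linter.unusedSectionVars false

namespace Pool.Agent.CMF

open Matrix Polynomial Filter Topology

noncomputable section

/-! ### Idempotent matrices -/

theorem idem_toLin {n : ℕ} (P : Matrix (Fin n) (Fin n) ℂ) (h : P * P = P) :
    IsIdempotentElem (Matrix.toLin' P) := by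
  have h1 := Matrix.toLin'_mul P P
  rw [h] at h1
  exact h1.symm

theorem trace_idem {n : ℕ} (P : Matrix (Fin n) (Fin n) ℂ) (h : P * P = P) :
    ∃ m : ℕ, P.trace = m := by
  refine ⟨Module.finrank ℂ (LinearMap.range (Matrix.toLin' P)), ?_⟩
  rw [← Matrix.trace_toLin'_eq]
  exact (LinearMap.IsIdempotentElem.isProj_range _ (idem_toLin P h)).trace

theorem eq_zero_of_trace_idem {n : ℕ} (P : Matrix (Fin n) (Fin n) ℂ) (h : P * P = P)
    (h0 : P.trace = 0) : P = 0 := by
  have h1 := LinearMap.IsIdempotentElem.eq_zero_of_trace_eq_zero (idem_toLin P h)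
    (by rw [Matrix.trace_toLin'_eq, h0])
  rwa [LinearEquiv.map_eq_zero_iff] at h1

variable {Z : Type} [CommRing Z] [IsDomain Z] [Algebra Z ℂ] {ι : Type}

lemma mon_sub_ne {a a' : ι →₀ ℤ} (h : a ≠ a') : (mon a - mon a' : Lau Z ι) ≠ 0 := by
  intro h0
  have h1 : (AddMonoidAlgebra.single a (1 : Z) : Lau Z ι) = AddMonoidAlgebra.single a' 1 :=
    sub_eq_zero.1 h0
  have h2 := congrArg (fun p : Lau Z ι => p.coeff a) h1
  simp only [AddMonoidAlgebra.coeff_single] at h2
  rw [Finsupp.single_eq_same, Finsupp.single_eq_of_ne h] at h2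
  exact one_ne_zero h2

lemma dlt_ne {J : Type} [Fintype J] (P : J → (ι →₀ ℤ) × (ι →₀ ℤ))
    (h : ∀ j, (P j).1 ≠ (P j).2) : dlt Z P ≠ 0 :=
  Finset.prod_ne_zero_iff.2 fun j _ => mon_sub_ne (h j)

variable [Fintype ι] {D : HData Z ι} {M : ℕ} (Q : KZData D M)

/-- The matrix `δ(κ)⁻¹ ρ_κ(f)` is idempotent. -/
theorem idem_at {f : D.H} {δ : Lau Z ι} (hf : f * f = δ • f) (κ : ι → ℂ) (l : D.Λ)
    (h0 : evL Z M κ δ ≠ 0) :
    ((evL Z M κ δ)⁻¹ • Q.ρ κ l f) * ((evL Z M κ δ)⁻¹ • Q.ρ κ l f) =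
      (evL Z M κ δ)⁻¹ • Q.ρ κ l f := by
  rw [smul_mul_smul_comm, ← map_mul, hf, Q.ρ_smul, smul_smul]
  congr 1
  field_simp

include Q in
/-- The multiplicity. -/
theorem exists_mult (hinj : Function.Injective (algebraMap Z ℂ)) (hM : 0 < M) {f : D.H}
    {δ : Lau Z ι} (hδ : δ ≠ 0) (hf : f * f = δ • f) (l : D.Λ) :
    ∃ m : ℕ, D.X l f = (m : Lau Z ι) * δ := by
  by_contra hcon
  push Not at hcon
  have hne : ∀ i : Option ℕ, ∃ κ : ι → ℂ, (match i with
      | none => evL Z M κ δ
      | some m => evL Z M κ (D.X l f - (m : Lau Z ι) * δ)) ≠ 0 := by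
    rintro (_ | m)
    · by_contra h
      push Not at h
      exact hδ (evL_inj hinj hM δ h)
    · by_contra h
      push Not at h
      exact hcon m (sub_eq_zero.1 (evL_inj hinj hM _ h))
  have hhol : ∀ i : Option ℕ, LineHol (fun κ : ι → ℂ => (match i with
      | none => evL Z M κ δ
      | some m => evL Z M κ (D.X l f - (m : Lau Z ι) * δ))) := by
    rintro (_ | m)
    · exact evL_hol δ
    · exact evL_hol _
  obtain ⟨κ, hκ⟩ := (dense_generic _ hhol hne).nonempty
  have h0 : evL Z M κ δ ≠ 0 := hκ none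
  obtain ⟨m, hm⟩ := trace_idem _ (idem_at Q hf κ l h0)
  apply hκ (some m)
  show evL Z M κ (D.X l f - (m : Lau Z ι) * δ) = 0
  rw [Matrix.trace_smul, Q.tr, smul_eq_mul] at hm
  rw [map_sub, map_mul, map_natCast, ← hm]
  field_simp
  ring

/-- Multiplicity zero. -/
theorem zero_of_mult (hinj : Function.Injective (algebraMap Z ℂ)) (hM : 0 < M) {f : D.H}
    {δ : Lau Z ι} (hδ : δ ≠ 0) (hf : f * f = δ • f) (l : D.Λ) (h0 : D.X l f = 0)
    (κ : ι → ℂ) : Q.ρ κ l f = 0 := by
  have hex : ∃ κ : ι → ℂ, evL Z M κ δ ≠ 0 := by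
    by_contra h
    push Not at h
    exact hδ (evL_inj hinj hM δ h)
  have hd := dense_generic (J := Unit) (fun _ κ => evL Z M κ δ) (fun _ => evL_hol δ)
    (fun _ => hex)
  ext p q
  refine congrFun (Continuous.ext_on hd (Q.hol l f p q).1 continuous_const ?_) κ
  intro κ hκ
  have h1 : evL Z M κ δ ≠ 0 := hκ ()
  have h2 := eq_zero_of_trace_idem _ (idem_at Q hf κ l h1)
    (by rw [Matrix.trace_smul, Q.tr, h0, map_zero, smul_zero])
  rw [smul_eq_zero_iff_right (inv_ne_zero h1)] at h2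
  simp only
  rw [h2, Matrix.zero_apply]

/-- The multiplicity is the trace of the limit of the idempotent at `κ → 0` along a line. -/
theorem mult_eq_trace {f : D.H} {δ : Lau Z ι} (l : D.Λ) (m : ℕ)
    (hm : D.X l f = (m : Lau Z ι) * δ) (κ₁ : ι → ℂ)
    (S : Matrix (Fin (D.d l)) (Fin (D.d l)) ℂ)
    (hδ : ∀ᶠ t in 𝓝[≠] (0 : ℂ), evL Z M (t • κ₁) δ ≠ 0)
    (hS : Tendsto (fun t : ℂ => (evL Z M (t • κ₁) δ)⁻¹ • Q.ρ (t • κ₁) l f) (𝓝[≠] 0) (𝓝 S)) :
    (m : ℂ) = S.trace := by
  have h1 : Tendsto (fun t : ℂ => ((evL Z M (t • κ₁) δ)⁻¹ • Q.ρ (t • κ₁) l f).trace)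
      (𝓝[≠] 0) (𝓝 S.trace) := by
    have hc : Continuous (fun A : Matrix (Fin (D.d l)) (Fin (D.d l)) ℂ => A.trace) :=
      continuous_id.matrix_trace
    exact (hc.tendsto S).comp hS
  have h2 : (fun t : ℂ => ((evL Z M (t • κ₁) δ)⁻¹ • Q.ρ (t • κ₁) l f).trace) =ᶠ[𝓝[≠] 0]
      fun _ => (m : ℂ) := by
    filter_upwards [hδ] with t ht
    rw [Matrix.trace_smul, Q.tr, hm, map_mul, map_natCast, smul_eq_mul]
    field_simp
  exact tendsto_nhds_unique (tendsto_const_nhds.congr' h2.symm) h1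

/-! ### One twist: the Lagrange decomposition -/

section Lag

variable (w : D.H) (B : Finset (ι →₀ ℤ))

open Classical in
/-- `Π_{b ≠ e} (w - v^b)`. -/
def lagF (w : D.H) (B : Finset (ι →₀ ℤ)) (e : ι →₀ ℤ) : D.H :=
  Polynomial.aeval w (∏ b ∈ B.erase e, (Polynomial.X - Polynomial.C (mon b : Lau Z ι)))

open Classical in
/-- The pairs `(e, b)`, `b ≠ e`. -/
def lagP (B : Finset (ι →₀ ℤ)) (e : ι →₀ ℤ) : {b // b ∈ B.erase e} → (ι →₀ ℤ) × (ι →₀ ℤ) :=
  fun b => (e, b.1)

open Classical in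
lemma lagP_ne (e : ι →₀ ℤ) (b : {b // b ∈ B.erase e}) : (lagP B e b).1 ≠ (lagP B e b).2 :=
  fun h => (Finset.mem_erase.1 b.2).1 h.symm

open Classical in
lemma dlt_lagP (e : ι →₀ ℤ) : dlt Z (lagP B e) = ∏ b ∈ B.erase e, (mon e - mon b) := by
  rw [dlt]
  exact Finset.prod_coe_sort (B.erase e) (fun b => (mon e - mon b : Lau Z ι))

open Classical in
theorem lag_idem {e : ι →₀ ℤ} (he : e ∈ B)
    (hw : Polynomial.aeval w (∏ b ∈ B, (Polynomial.X - Polynomial.C (mon b : Lau Z ι))) = 0) :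
    lagF w B e * lagF w B e = dlt Z (lagP B e) • lagF w B e := by
  set p : Polynomial (Lau Z ι) := ∏ b ∈ B.erase e, (Polynomial.X - Polynomial.C (mon b)) with hp
  have hev : p.eval (mon e) = dlt Z (lagP B e) := by
    rw [dlt_lagP, hp, Polynomial.eval_prod]
    refine Finset.prod_congr rfl fun b _ => ?_
    simp
  have hdvd : Polynomial.X - Polynomial.C (mon e) ∣ p - Polynomial.C (dlt Z (lagP B e)) := by
    rw [Polynomial.dvd_iff_isRoot, Polynomial.IsRoot.def, Polynomial.eval_sub, hev,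
      Polynomial.eval_C, sub_self]
  obtain ⟨q, hq⟩ := hdvd
  have h1 : p * p = Polynomial.C (dlt Z (lagP B e)) * p +
      q * ∏ b ∈ B, (Polynomial.X - Polynomial.C (mon b)) := by
    rw [← Finset.mul_prod_erase B _ he, ← hp]
    linear_combination p * hq
  have h2 := congrArg (Polynomial.aeval w) h1
  rw [map_mul, map_add, map_mul, map_mul, hw, mul_zero, add_zero, Polynomial.aeval_C,
    ← Algebra.smul_def] at h2
  exact h2

open Classical in
/-- Lagrange interpolation of the constant `1`. -/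
theorem lag_sum (hB : B.Nonempty) :
    ∑ e ∈ B, (∏ e' ∈ B.erase e, dlt Z (lagP B e')) • lagF w B e =
      (∏ e ∈ B, dlt Z (lagP B e)) • (1 : D.H) := by
  have key : ∑ e ∈ B, Polynomial.C (∏ e' ∈ B.erase e, dlt Z (lagP B e')) *
      (∏ b ∈ B.erase e, (Polynomial.X - Polynomial.C (mon b : Lau Z ι))) =
      Polynomial.C (∏ e ∈ B, dlt Z (lagP B e)) := by
    apply Polynomial.eq_of_degree_sub_lt_of_eval_finset_eq (B.image mon)
    · refine (Polynomial.degree_sub_le _ _).trans_lt ?_
      have hcard : (B.image (mon : (ι →₀ ℤ) → Lau Z ι)).card = B.card := by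
        apply Finset.card_image_of_injective
        intro a b hab
        by_contra h
        exact mon_sub_ne (Z := Z) h (sub_eq_zero.2 hab)
      rw [hcard]
      apply max_lt
      · refine (Polynomial.degree_sum_le _ _).trans_lt ?_
        rw [Finset.sup_lt_iff (by exact WithBot.bot_lt_coe _)]
        intro e he
        refine (Polynomial.degree_mul_le _ _).trans_lt ?_
        have h1 : (∏ b ∈ B.erase e, (Polynomial.X - Polynomial.C (mon b : Lau Z ι))).degree ≤
            ((B.erase e).card : WithBot ℕ) := by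
          refine (Polynomial.degree_prod_le _ _).trans ?_
          have h3 : ∑ b ∈ B.erase e, (Polynomial.X - Polynomial.C (mon b : Lau Z ι)).degree ≤
              ∑ b ∈ B.erase e, (1 : WithBot ℕ) := by
            apply Finset.sum_le_sum
            intro b _
            exact Polynomial.degree_X_sub_C_le _
          refine h3.trans ?_
          simp
        have h2 : (Polynomial.C (∏ e' ∈ B.erase e, dlt Z (lagP B e'))).degree ≤ 0 :=
          Polynomial.degree_C_le
        refine (add_le_add h2 h1).trans_lt ?_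
        rw [zero_add, Finset.card_erase_of_mem he]
        have := Finset.card_pos.2 hB
        exact_mod_cast Nat.sub_lt this one_pos
      · refine Polynomial.degree_C_le.trans_lt ?_
        exact_mod_cast Finset.card_pos.2 hB
    · intro x hx
      obtain ⟨e₀, he₀, rfl⟩ := Finset.mem_image.1 hx
      rw [Polynomial.eval_finsetSum, Finset.sum_eq_single_of_mem e₀ he₀]
      · rw [Polynomial.eval_mul, Polynomial.eval_C, Polynomial.eval_C, Polynomial.eval_prod,
          ← Finset.mul_prod_erase B _ he₀, mul_comm, dlt_lagP]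
        congr 1
        refine Finset.prod_congr rfl fun b _ => ?_
        simp
      · intro e he hne
        have h0 : ∏ b ∈ B.erase e, (Polynomial.X - Polynomial.C (mon b : Lau Z ι)).eval
            (mon e₀) = 0 :=
          Finset.prod_eq_zero (Finset.mem_erase.2 ⟨Ne.symm hne, he₀⟩) (by simp)
        rw [Polynomial.eval_mul, Polynomial.eval_prod, h0, mul_zero]
  have h2 := congrArg (Polynomial.aeval w) key
  rw [map_sum, Polynomial.aeval_C, Algebra.algebraMap_eq_smul_one] at h2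
  rw [← h2]
  refine Finset.sum_congr rfl fun e _ => ?_
  rw [map_mul, Polynomial.aeval_C, ← Algebra.smul_def, lagF]

end Lag

end

end Pool.Agent.CMF
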