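import Pool.Agent.CMFn.QDec

/-! Project CMF in rank `r` (MP_4af2a6_al), module QLim (helper77): multiplicities of the
quasi-idempotents from the first order term at `κ = 0`. -/

set_option linter.unusedSectionVars false

namespace Pool.Agent.CMF

open Matrix Polynomial Filter Topology

noncomputable section

variable {Z : Type} [CommRing Z] [IsDomain Z] [Algebra Z ℂ] {ι : Type} [Fintype ι]
  {D : HData Z ι} {M : ℕ} (Q : KZData D M)

/-- `δ(tκ₁)⁻¹ ρ_{tκ₁}(f) → S` for `t → 0`. -/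
def LimAt (κ₁ : ι → ℂ) (l : D.Λ) (f : D.H) (δ : Lau Z ι)
    (S : Matrix (Fin (D.d l)) (Fin (D.d l)) ℂ) : Prop :=
  (∀ᶠ t in 𝓝[≠] (0 : ℂ), evL Z M (t • κ₁) δ ≠ 0) ∧
    Tendsto (fun t : ℂ => (evL Z M (t • κ₁) δ)⁻¹ • Q.ρ (t • κ₁) l f) (𝓝[≠] 0) (𝓝 S)

variable {Q} {κ₁ : ι → ℂ} {l : D.Λ}

theorem limAt_one : LimAt Q κ₁ l 1 1 1 := by
  refine ⟨Eventually.of_forall fun t => by rw [map_one]; exact one_ne_zero, ?_⟩
  simp only [map_one, inv_one, one_smul]
  exact tendsto_const_nhds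

theorem LimAt.mul {f f' : D.H} {δ δ' : Lau Z ι} {S S' : Matrix (Fin (D.d l)) (Fin (D.d l)) ℂ}
    (h : LimAt Q κ₁ l f δ S) (h' : LimAt Q κ₁ l f' δ' S') :
    LimAt Q κ₁ l (f * f') (δ * δ') (S * S') := by
  refine ⟨?_, ?_⟩
  · filter_upwards [h.1, h'.1] with t h1 h2
    rw [map_mul]
    exact mul_ne_zero h1 h2
  · have h3 : (fun t : ℂ => (evL Z M (t • κ₁) (δ * δ'))⁻¹ • Q.ρ (t • κ₁) l (f * f')) =
        fun t : ℂ => ((evL Z M (t • κ₁) δ)⁻¹ • Q.ρ (t • κ₁) l f) *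
          ((evL Z M (t • κ₁) δ')⁻¹ • Q.ρ (t • κ₁) l f') := by
      funext t
      rw [map_mul, map_mul, mul_inv, smul_mul_smul_comm]
    rw [h3]
    exact h.2.mul h'.2

/-- The multiplicity is the trace of the limit. -/
theorem LimAt.mult {f : D.H} {δ : Lau Z ι} {S : Matrix (Fin (D.d l)) (Fin (D.d l)) ℂ}
    (h : LimAt Q κ₁ l f δ S) (m : ℕ) (hm : D.X l f = (m : Lau Z ι) * δ) : (m : ℂ) = S.trace :=
  mult_eq_trace Q l m hm κ₁ S h.1 h.2

/-- The character value of a quasi-idempotent. -/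
theorem LimAt.X_eq (hinj : Function.Injective (algebraMap Z ℂ)) (hM : 0 < M) {f : D.H}
    {δ : Lau Z ι} (hδ : δ ≠ 0) (hf : f * f = δ • f)
    {S : Matrix (Fin (D.d l)) (Fin (D.d l)) ℂ} (h : LimAt Q κ₁ l f δ S) (m : ℕ)
    (hS : S.trace = m) : D.X l f = (m : Lau Z ι) * δ := by
  obtain ⟨m', hm'⟩ := exists_mult Q hinj hM hδ hf l
  have h1 := h.mult m' hm'
  rw [hS] at h1
  have h2 : m' = m := by exact_mod_cast h1
  rw [hm', h2]

theorem LimAt.X_eq_zero (hinj : Function.Injective (algebraMap Z ℂ)) (hM : 0 < M) {f : D.H}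
    {δ : Lau Z ι} (hδ : δ ≠ 0) (hf : f * f = δ • f)
    {S : Matrix (Fin (D.d l)) (Fin (D.d l)) ℂ} (h : LimAt Q κ₁ l f δ S)
    (hS : S.trace = 0) : D.X l f = 0 := by
  have := h.X_eq hinj hM hδ hf 0 (by rw [hS, Nat.cast_zero])
  rw [this, Nat.cast_zero, zero_mul]

/-- `-2πi/M`. -/
def cM (M : ℕ) : ℂ := -(2 * Real.pi * Complex.I / M)

lemma cM_ne (hM : 0 < M) : cM M ≠ 0 := by
  have hpi : (Real.pi : ℂ) ≠ 0 := Complex.ofReal_ne_zero.2 Real.pi_ne_zero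
  have hM' : (M : ℂ) ≠ 0 := by exact_mod_cast hM.ne'
  exact neg_ne_zero.2 (div_ne_zero (mul_ne_zero (mul_ne_zero two_ne_zero hpi)
    Complex.I_ne_zero) hM')

lemma evL_mon_line (κ₁ : ι → ℂ) (b : ι →₀ ℤ) (t : ℂ) :
    evL Z M (t • κ₁) (mon b) = Complex.exp (t * (cM M * pairC b κ₁)) := by
  rw [evL_mon, pairC_smul, cM]
  congr 1; ring

lemma hasDerivAt_mon (κ₁ : ι → ℂ) (b : ι →₀ ℤ) :
    HasDerivAt (fun t : ℂ => evL Z M (t • κ₁) (mon b)) (cM M * pairC b κ₁) 0 := by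
  simp only [evL_mon_line]
  have h1 : HasDerivAt (fun t : ℂ => t * (cM M * pairC b κ₁)) (1 * (cM M * pairC b κ₁)) 0 :=
    (hasDerivAt_id (0 : ℂ)).mul_const _
  have h2 := h1.cexp
  simpa using h2

/-- One factor. -/
theorem limAt_factor (hM : 0 < M) (w : D.H) (A : Matrix (Fin (D.d l)) (Fin (D.d l)) ℂ)
    (h1 : Q.ρ 0 l w = 1)
    (hA : ∀ p q, HasDerivAt (fun t : ℂ => Q.ρ (t • κ₁) l w p q) (cM M * A p q) 0)
    (e b : ι →₀ ℤ) (heb : pairC e κ₁ ≠ pairC b κ₁) :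
    LimAt Q κ₁ l (w - algebraMap (Lau Z ι) D.H (mon b)) (mon e - mon b)
      ((pairC e κ₁ - pairC b κ₁)⁻¹ • (A - pairC b κ₁ • (1 : Matrix (Fin (D.d l)) (Fin (D.d l)) ℂ))) := by
  have hc := cM_ne hM
  have heb' : pairC e κ₁ - pairC b κ₁ ≠ 0 := sub_ne_zero.2 heb
  have hd : HasDerivAt (fun t : ℂ => evL Z M (t • κ₁) (mon e - mon b))
      (cM M * (pairC e κ₁ - pairC b κ₁)) 0 := by
    have := (hasDerivAt_mon (Z := Z) (M := M) κ₁ e).sub (hasDerivAt_mon (Z := Z) (M := M) κ₁ b)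
    simp only [map_sub]
    rw [mul_sub]
    exact this
  have h0 : evL Z M ((0 : ℂ) • κ₁) (mon e - mon b) = 0 := by
    rw [map_sub, evL_mon_line, evL_mon_line, zero_mul, zero_mul, sub_self]
  have hs : Tendsto (fun t : ℂ => t⁻¹ * evL Z M (t • κ₁) (mon e - mon b)) (𝓝[≠] 0)
      (𝓝 (cM M * (pairC e κ₁ - pairC b κ₁))) := by
    have := hasDerivAt_iff_tendsto_slope_zero.1 hd
    simpa only [zero_add, h0, sub_zero, smul_eq_mul] using this
  have hne : ∀ᶠ t in 𝓝[≠] (0 : ℂ), evL Z M (t • κ₁) (mon e - mon b) ≠ 0 := by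
    filter_upwards [hs.eventually_ne (mul_ne_zero hc heb')] with t ht h
    exact ht (by rw [h, mul_zero])
  refine ⟨hne, ?_⟩
  refine tendsto_pi_nhds.2 fun p => tendsto_pi_nhds.2 fun q => ?_
  have hg : HasDerivAt (fun t : ℂ => Q.ρ (t • κ₁) l (w - algebraMap (Lau Z ι) D.H (mon b)) p q)
      (cM M * ((A - pairC b κ₁ • (1 : Matrix (Fin (D.d l)) (Fin (D.d l)) ℂ)) p q)) 0 := by
    have h2 : (fun t : ℂ => Q.ρ (t • κ₁) l (w - algebraMap (Lau Z ι) D.H (mon b)) p q) =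
        fun t : ℂ => Q.ρ (t • κ₁) l w p q - evL Z M (t • κ₁) (mon b) *
          (1 : Matrix (Fin (D.d l)) (Fin (D.d l)) ℂ) p q := by
      funext t
      rw [map_sub, Q.ρ_algebraMap, Matrix.sub_apply, Matrix.smul_apply, smul_eq_mul]
    rw [h2]
    have := (hA p q).sub ((hasDerivAt_mon (Z := Z) (M := M) κ₁ b).mul_const
      ((1 : Matrix (Fin (D.d l)) (Fin (D.d l)) ℂ) p q))
    refine this.congr_deriv ?_
    rw [Matrix.sub_apply, Matrix.smul_apply, smul_eq_mul]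
    ring
  have hg0 : Q.ρ ((0 : ℂ) • κ₁) l (w - algebraMap (Lau Z ι) D.H (mon b)) p q = 0 := by
    rw [zero_smul, map_sub, Q.ρ_algebraMap, h1, evL_mon, pairC_zero, mul_zero, Complex.exp_zero,
      one_smul, sub_self, Matrix.zero_apply]
  have hgs : Tendsto (fun t : ℂ => t⁻¹ *
      Q.ρ (t • κ₁) l (w - algebraMap (Lau Z ι) D.H (mon b)) p q) (𝓝[≠] 0)
      (𝓝 (cM M * ((A - pairC b κ₁ • (1 : Matrix (Fin (D.d l)) (Fin (D.d l)) ℂ)) p q))) := by
    have := hasDerivAt_iff_tendsto_slope_zero.1 hg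
    simpa only [zero_add, hg0, sub_zero, smul_eq_mul] using this
  have hfin := (hs.inv₀ (mul_ne_zero hc heb')).mul hgs
  have e1 : (cM M * (pairC e κ₁ - pairC b κ₁))⁻¹ *
      (cM M * ((A - pairC b κ₁ • (1 : Matrix (Fin (D.d l)) (Fin (D.d l)) ℂ)) p q)) =
      ((pairC e κ₁ - pairC b κ₁)⁻¹ • (A - pairC b κ₁ • (1 : Matrix (Fin (D.d l)) (Fin (D.d l)) ℂ))) p q := by
    rw [Matrix.smul_apply, smul_eq_mul, mul_inv]
    field_simp
  rw [e1] at hfin
  refine hfin.congr' ?_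
  filter_upwards [self_mem_nhdsWithin] with t ht
  have ht0 : t ≠ 0 := ht
  rw [Matrix.smul_apply, smul_eq_mul, mul_inv, inv_inv]
  field_simp

/-- The spectral projection of `A` for the eigenvalue `e`. -/
def sprC {J : Type} [Fintype J] [DecidableEq J] (A : Matrix J J ℂ) (B : Finset ℂ) (e : ℂ) :
    Matrix J J ℂ :=
  Polynomial.aeval A (∏ b ∈ B.erase e, Polynomial.C (e - b)⁻¹ * (Polynomial.X - Polynomial.C b))

theorem limAt_prod (hM : 0 < M) (w : D.H) (A : Matrix (Fin (D.d l)) (Fin (D.d l)) ℂ)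
    (h1 : Q.ρ 0 l w = 1)
    (hA : ∀ p q, HasDerivAt (fun t : ℂ => Q.ρ (t • κ₁) l w p q) (cM M * A p q) 0)
    (e : ι →₀ ℤ) (s : Finset (ι →₀ ℤ)) (hs : ∀ b ∈ s, pairC e κ₁ ≠ pairC b κ₁) :
    LimAt Q κ₁ l (Polynomial.aeval w (∏ b ∈ s, (Polynomial.X - Polynomial.C (mon b : Lau Z ι))))
      (∏ b ∈ s, (mon e - mon b))
      (Polynomial.aeval A (∏ b ∈ s, (Polynomial.C (pairC e κ₁ - pairC b κ₁)⁻¹ *
        (Polynomial.X - Polynomial.C (pairC b κ₁))))) := by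
  classical
  induction s using Finset.induction_on with
  | empty =>
    simp only [Finset.prod_empty, map_one]
    exact limAt_one
  | insert b s hb ih =>
    rw [Finset.prod_insert hb, Finset.prod_insert hb, Finset.prod_insert hb, map_mul, map_mul]
    refine LimAt.mul ?_ (ih fun b' hb' => hs b' (Finset.mem_insert_of_mem hb'))
    have := limAt_factor hM w A h1 hA e b (hs b (Finset.mem_insert_self b s))
    have e1 : Polynomial.aeval w (Polynomial.X - Polynomial.C (mon b : Lau Z ι)) =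
        w - algebraMap (Lau Z ι) D.H (mon b) := by simp
    have e2 : Polynomial.aeval A (Polynomial.C (pairC e κ₁ - pairC b κ₁)⁻¹ *
        (Polynomial.X - Polynomial.C (pairC b κ₁))) =
        (pairC e κ₁ - pairC b κ₁)⁻¹ • (A - pairC b κ₁ • (1 : Matrix (Fin (D.d l)) (Fin (D.d l)) ℂ)) := by
      rw [map_mul, Polynomial.aeval_C, map_sub, Polynomial.aeval_X, Polynomial.aeval_C,
        ← Algebra.smul_def, Algebra.algebraMap_eq_smul_one]
    rw [e1, e2]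
    exact this

open Classical in
/-- The limit of the Lagrange quasi-idempotent is the spectral projection. -/
theorem limAt_lag (hM : 0 < M) (w : D.H) (A : Matrix (Fin (D.d l)) (Fin (D.d l)) ℂ)
    (h1 : Q.ρ 0 l w = 1)
    (hA : ∀ p q, HasDerivAt (fun t : ℂ => Q.ρ (t • κ₁) l w p q) (cM M * A p q) 0)
    (B : Finset (ι →₀ ℤ)) (hB : ∀ b ∈ B, ∀ b' ∈ B, pairC b κ₁ = pairC b' κ₁ → b = b')
    (e : ι →₀ ℤ) (he : e ∈ B) :
    LimAt Q κ₁ l (lagF w B e) (dlt Z (lagP B e))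
      (sprC A (B.image fun b => pairC b κ₁) (pairC e κ₁)) := by
  have h2 := limAt_prod (Z := Z) hM w A h1 hA e (B.erase e) (fun b hb h =>
    Finset.ne_of_mem_erase hb (hB e he b (Finset.mem_of_mem_erase hb) h).symm)
  have e1 : sprC A (B.image fun b => pairC b κ₁) (pairC e κ₁) =
      Polynomial.aeval A (∏ b ∈ B.erase e, (Polynomial.C (pairC e κ₁ - pairC b κ₁)⁻¹ *
        (Polynomial.X - Polynomial.C (pairC b κ₁)))) := by
    rw [sprC]
    congr 1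
    have e2 : (B.image fun b => pairC b κ₁).erase (pairC e κ₁) =
        (B.erase e).image fun b => pairC b κ₁ := by
      ext x
      simp only [Finset.mem_erase, Finset.mem_image]
      constructor
      · rintro ⟨hx, b, hb, rfl⟩
        exact ⟨b, ⟨fun h => hx (by rw [h]), hb⟩, rfl⟩
      · rintro ⟨b, ⟨hbe, hb⟩, rfl⟩
        exact ⟨fun h => hbe (hB b hb e he h), b, hb, rfl⟩
    rw [e2, Finset.prod_image]
    intro b hb b' hb' h
    exact hB b (Finset.mem_of_mem_erase hb) b' (Finset.mem_of_mem_erase hb') h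
  rw [dlt_lagP, e1]
  exact h2

end

end Pool.Agent.CMF
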