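import Pool.Agent.CMFn.QDefs
import Pool.Agent.CMFn.LocMonC

/-! Project CMFn, block Q: the KZ form on the disc `p + z (x - p)` and the transport along the
twist loop. -/

namespace Pool.Agent.CMFn.QLocX

open Matrix Complex

open Pool.Agent.CMF (exists_ode ode_unique)

noncomputable section

variable {r : ℕ} {N : SG r} [Fintype N] {ι : Type} [Fintype ι] [DecidableEq ι]

open Classical in
/-- The regular part of the KZ form on the disc `p + z ν`. -/
def Bpp (ρ : N →* Matrix ι ι ℂ) (k : Idx N → ℂ) (p ν : Fin r → ℂ) (z : ℂ) : Matrix ι ι ℂ :=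
  ∑ w : N, (if w.1.1 *ᵥ p = p then 0 else cr k w * rat (fixL w.1) ν (p + z • ν)) • ρ w +
    (∑ H : Arr N, if p ∈ H.1 then 0 else cs k H * rat H.1 ν (p + z • ν)) •
      (1 : Matrix ι ι ℂ)

/-- The KZ form on the disc. -/
theorem om_disc (hN : ∃ s ∈ N, IsRefl s) (ρ : N →* Matrix ι ι ℂ) (p ν : Fin r → ℂ)
    (hreg : ∀ z : ℂ, 0 < ‖z‖ → ‖z‖ ≤ 1 → ∀ g ∈ N, IsRefl g →
      g.1 *ᵥ (p + z • ν) ≠ p + z • ν) :
    ∃ R : ℝ, 1 < R ∧
      (∀ z : ℂ, 0 < ‖z‖ → ‖z‖ < R → ∀ g ∈ N, IsRefl g → g.1 *ᵥ (p + z • ν) ≠ p + z • ν) ∧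
      ∀ k : Idx N → ℂ, (∀ z : ℂ, 0 < ‖z‖ → ‖z‖ < R →
        om ρ k (p + z • ν) (z • ν) = App ρ k p + z • Bpp ρ k p ν z) ∧
      (∀ i j, DifferentiableOn ℂ (fun z => Bpp ρ k p ν z i j) (Metric.ball 0 R)) := by
  classical
  have hHp : ∀ H : Arr N, p ∈ H.1 → lf H.1 ⬝ᵥ p = 0 := fun H h => ((lf_spec H).2 p).1 h
  have hHν : ∀ H : Arr N, p ∈ H.1 → lf H.1 ⬝ᵥ ν ≠ 0 := by
    intro H hp
    have h1 := (vreg_iff (N := N) (p + (1 : ℂ) • ν)).1 (hreg 1 (by simp) (by simp)) H
    rw [LocMonX.lf_line, hHp H hp, zero_add, one_mul] at h1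
    exact h1
  have hne : ∀ H : Arr N, p ∉ H.1 → lf H.1 ⬝ᵥ p ≠ 0 := by
    intro H hH h1
    exact hH (((lf_spec H).2 p).2 h1)
  -- a radius for every hyperplane
  have hrad : ∀ H' : Arr N, ∃ R : ℝ, 1 < R ∧ ∀ z : ℂ, ‖z‖ < R → p ∉ H'.1 →
      lf H'.1 ⬝ᵥ (p + z • ν) ≠ 0 := by
    intro H'
    by_cases hH' : p ∈ H'.1
    · exact ⟨2, by norm_num, fun z _ hc => absurd hH' hc⟩
    · by_cases h0 : lf H'.1 ⬝ᵥ ν = 0
      · refine ⟨2, by norm_num, fun z _ _ => ?_⟩
        rw [LocMonX.lf_line, h0, mul_zero, add_zero]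
        exact hne H' hH'
      · set z₀ : ℂ := -(lf H'.1 ⬝ᵥ p) / (lf H'.1 ⬝ᵥ ν) with hz₀
        have hz0 : z₀ ≠ 0 := div_ne_zero (neg_ne_zero.2 (hne H' hH')) h0
        have hzero : lf H'.1 ⬝ᵥ (p + z₀ • ν) = 0 := by
          rw [LocMonX.lf_line, hz₀]
          field_simp
          ring
        refine ⟨‖z₀‖, ?_, fun z hz _ hc => ?_⟩
        · by_contra hle
          push Not at hle
          exact (vreg_iff (N := N) (p + z₀ • ν)).1 (hreg z₀ (norm_pos_iff.2 hz0) hle) H' hzero
        · apply hz.ne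
          congr 1
          rw [LocMonX.lf_line] at hc
          rw [hz₀, eq_div_iff h0]
          linear_combination hc
  choose Rf hRf1 hRf2 using hrad
  have huniv : (Finset.univ : Finset (Arr N)).Nonempty := by
    obtain ⟨s, hs, hr⟩ := hN
    exact ⟨⟨fixL s, s, hs, hr, rfl⟩, Finset.mem_univ _⟩
  obtain ⟨H₀, -, hH₀⟩ := Finset.exists_min_image Finset.univ Rf huniv
  set R := Rf H₀ with hR
  have hgood : ∀ z : ℂ, ‖z‖ < R → ∀ H' : Arr N, p ∉ H'.1 → lf H'.1 ⬝ᵥ (p + z • ν) ≠ 0 :=
    fun z hz H' hH' => hRf2 H' z (hz.trans_le (hH₀ H' (Finset.mem_univ _))) hH'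
  refine ⟨R, hRf1 H₀, ?_, fun k => ⟨?_, ?_⟩⟩
  · intro z hz0 hz
    refine (vreg_iff (N := N) (p + z • ν)).2 fun H' => ?_
    by_cases hH' : p ∈ H'.1
    · rw [LocMonX.lf_line, hHp H' hH', zero_add]
      exact mul_ne_zero (norm_pos_iff.1 hz0) (hHν H' hH')
    · exact hgood z hz H' hH'
  · intro z hz0 hz
    have hzne : z ≠ 0 := norm_pos_iff.1 hz0
    have hratH : ∀ H : Arr N, p ∈ H.1 → rat H.1 (z • ν) (p + z • ν) = 1 := by
      intro H hp
      unfold rat
      rw [LocMonX.lf_line, hHp H hp, zero_add, dotProduct_smul, smul_eq_mul]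
      exact div_self (mul_ne_zero hzne (hHν H hp))
    unfold om gau App Bpp
    rw [smul_add, Finset.smul_sum, smul_smul, Finset.mul_sum]
    have e1 : ∀ w : N, (cr k w * rat (fixL w.1) (z • ν) (p + z • ν)) • ρ w =
        (if w.1.1 *ᵥ p = p then cr k w else 0) • ρ w +
        z • ((if w.1.1 *ᵥ p = p then 0 else cr k w * rat (fixL w.1) ν (p + z • ν)) • ρ w) := by
      intro w
      by_cases hw : w.1.1 *ᵥ p = p
      · rw [if_pos hw, if_pos hw, zero_smul, smul_zero, add_zero]
        by_cases hr : IsRefl w.1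
        · have h1 := hratH ⟨fixL w.1, w.1, w.2, hr, rfl⟩ (LocMonX.mem_fixL'.2 hw)
          rw [show rat (fixL w.1) (z • ν) (p + z • ν) = 1 from h1, mul_one]
        · have hc : cr k w = 0 := by
            unfold cr
            rw [dif_neg hr]
          rw [hc, zero_mul]
      · rw [if_neg hw, if_neg hw, zero_smul, zero_add, LocMonX.rat_smul, smul_smul]
        congr 1
        ring
    have e2 : ∑ H' : Arr N, cs k H' * rat H'.1 (z • ν) (p + z • ν) =
        (∑ H' : Arr N, if p ∈ H'.1 then cs k H' else 0) +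
        ∑ H' : Arr N, z * (if p ∈ H'.1 then 0 else cs k H' * rat H'.1 ν (p + z • ν)) := by
      rw [← Finset.sum_add_distrib]
      refine Finset.sum_congr rfl fun H' _ => ?_
      by_cases hH' : p ∈ H'.1
      · rw [if_pos hH', if_pos hH', hratH H' hH', mul_one, mul_zero, add_zero]
      · rw [if_neg hH', if_neg hH', LocMonX.rat_smul, zero_add]
        ring
    rw [Finset.sum_congr rfl fun w _ => e1 w, Finset.sum_add_distrib, e2, add_smul]
    abel
  · intro i j
    have hrd : ∀ H' : Arr N, p ∉ H'.1 →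
        DifferentiableOn ℂ (fun z : ℂ => rat H'.1 ν (p + z • ν)) (Metric.ball (0 : ℂ) R) := by
      intro H' hH'
      have e0 : (fun z : ℂ => rat H'.1 ν (p + z • ν)) = fun z : ℂ =>
          (lf H'.1 ⬝ᵥ ν) / (lf H'.1 ⬝ᵥ p + z * (lf H'.1 ⬝ᵥ ν)) := by
        funext z
        unfold rat
        rw [LocMonX.lf_line]
      rw [e0]
      refine DifferentiableOn.div (differentiableOn_const _) ?_ fun z hz => ?_
      · exact (differentiableOn_const _).add (differentiableOn_id.mul (differentiableOn_const _))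
      · rw [← LocMonX.lf_line]
        exact hgood z (mem_ball_zero_iff.1 hz) H' hH'
    have e : (fun z : ℂ => Bpp ρ k p ν z i j) = fun z : ℂ =>
        (∑ w : N, (if w.1.1 *ᵥ p = p then 0 else cr k w * rat (fixL w.1) ν (p + z • ν)) * ρ w i j) +
        (∑ H' : Arr N, if p ∈ H'.1 then 0 else cs k H' * rat H'.1 ν (p + z • ν)) *
          (1 : Matrix ι ι ℂ) i j := by
      funext z
      unfold Bpp
      rw [Matrix.add_apply, Matrix.sum_apply, Matrix.smul_apply, smul_eq_mul]
      rfl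
    rw [e]
    refine DifferentiableOn.add (DifferentiableOn.fun_sum fun w _ => ?_)
      (DifferentiableOn.mul (DifferentiableOn.fun_sum fun H' _ => ?_) (differentiableOn_const _))
    · refine DifferentiableOn.mul ?_ (differentiableOn_const _)
      by_cases hw : w.1.1 *ᵥ p = p
      · simp only [if_pos hw]
        exact differentiableOn_const _
      · simp only [if_neg hw]
        by_cases hr : IsRefl w.1
        · exact (differentiableOn_const _).mul (hrd ⟨fixL w.1, w.1, w.2, hr, rfl⟩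
            (fun hc => hw (LocMonX.mem_fixL'.1 hc)))
        · have hc : cr k w = 0 := by
            unfold cr
            rw [dif_neg hr]
          simp only [hc, zero_mul]
          exact differentiableOn_const _
    · by_cases hH' : p ∈ H'.1
      · simp only [if_pos hH']
        exact differentiableOn_const _
      · simp only [if_neg hH']
        exact (differentiableOn_const _).mul (hrd H' hH')

/-- The fundamental solution in the coordinate `w = log z` and the transport along the loop. -/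
theorem exists_X (hN : ∃ s ∈ N, IsRefl s) (ρ : N →* Matrix ι ι ℂ) (k : Idx N → ℂ)
    {p : Fin r → ℂ} {x : VReg N} (h : IsTw p x) (R : ℝ) (hR : 1 < R)
    (hreg : ∀ z : ℂ, 0 < ‖z‖ → ‖z‖ < R → ∀ g ∈ N, IsRefl g →
      g.1 *ᵥ (p + z • (x.1 - p)) ≠ p + z • (x.1 - p))
    (hom : ∀ z : ℂ, 0 < ‖z‖ → ‖z‖ < R →
        om ρ k (p + z • (x.1 - p)) (z • (x.1 - p)) = App ρ k p + z • Bpp ρ k p (x.1 - p) z)
    (hB : ∀ i j, DifferentiableOn ℂ (fun z => Bpp ρ k p (x.1 - p) z i j) (Metric.ball 0 R)) :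
    ∃ X : ℂ → Matrix ι ι ℂ, X 0 = 1 ∧
      (∀ w : ℂ, w.re < Real.log R → IsUnit (X w)) ∧
      (∀ w : ℂ, w.re < Real.log R → ∀ i j, HasDerivAt (fun w => X w i j)
        (((App ρ k p + exp w • Bpp ρ k p (x.1 - p) (exp w)) * X w) i j) w) ∧
      PP hN ρ k (twLoop h).toContinuousMap = X (2 * Real.pi * I) ∧
      ∀ w : ℂ, w.re < Real.log R → X (w + 2 * Real.pi * I) = X w * X (2 * Real.pi * I) := by
  have hR0 : 0 < Real.log R := Real.log_pos hR
  set ν : Fin r → ℂ := x.1 - p with hν
  set τ : ℂ := 2 * Real.pi * I with hτ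
  have hτre : τ.re = 0 := by
    have : τ = ((2 * Real.pi : ℝ) : ℂ) * I := by
      rw [hτ]; push_cast; ring
    rw [this]
    simp
  set U : Set ℂ := {w | w.re < Real.log R} with hU
  have hUo : IsOpen U := isOpen_lt Complex.continuous_re continuous_const
  have hUc : Convex ℝ U := convex_halfSpace_re_lt _
  have hexp : ∀ w ∈ U, 0 < ‖exp w‖ ∧ ‖exp w‖ < R := by
    intro w hw
    rw [Complex.norm_exp]
    refine ⟨Real.exp_pos _, ?_⟩
    rw [← Real.exp_log (lt_trans one_pos hR)]
    exact Real.exp_lt_exp.2 hw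
  have hBd : ∀ i j, DifferentiableOn ℂ
      (fun w => (App ρ k p + exp w • Bpp ρ k p ν (exp w)) i j) U := by
    intro i j
    have h1 : DifferentiableOn ℂ (fun w => Bpp ρ k p ν (exp w) i j) U := by
      refine (hB i j).comp (Complex.differentiable_exp.differentiableOn) ?_
      intro w hw
      rw [Metric.mem_ball, dist_zero_right]
      exact (hexp w hw).2
    have h2 : (fun w => (App ρ k p + exp w • Bpp ρ k p ν (exp w)) i j) =
        fun w => App ρ k p i j + exp w * Bpp ρ k p ν (exp w) i j := by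
      funext w
      rw [Matrix.add_apply, Matrix.smul_apply, smul_eq_mul]
    rw [h2]
    exact (differentiableOn_const _).add (Complex.differentiable_exp.differentiableOn.mul h1)
  obtain ⟨X, hX0, hXd, hXu⟩ := exists_ode U hUo hUc 0 (by simpa [hU] using hR0) _ hBd
  have hom' : ∀ w ∈ U, om ρ k (p + exp w • ν) (exp w • ν) =
      App ρ k p + exp w • Bpp ρ k p ν (exp w) := fun w hw => hom _ (hexp w hw).1 (hexp w hw).2
  have hdet : ∀ {w}, w ∈ U → w + τ ∈ U := by
    intro w hw
    show (w + τ).re < Real.log R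
    rw [Complex.add_re, hτre, add_zero]
    exact hw
  refine ⟨X, hX0, fun w hw => hXu w hw, fun w hw => hXd w hw, ?_, ?_⟩
  · -- transport along the loop
    have hc : Continuous (fun t : unitInterval => ((t : ℝ) : ℂ) * τ) := by fun_prop
    have h1 := PP_curve hN ρ k U hUo hUc (fun w => p + exp w • ν) (fun w => exp w • ν)
      (by
        intro w _ b
        have h2 : HasDerivAt (fun w => p b + exp w * ν b) (exp w * ν b) w := by
          have := ((Complex.hasDerivAt_exp w).mul_const (ν b)).const_add (p b)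
          exact this
        exact h2)
      (fun w hw => hreg _ (hexp w hw).1 (hexp w hw).2) X
      (by
        intro w hw i j
        rw [hom' w hw]
        exact hXd w hw i j)
      (fun w hw => hXu w hw) (twLoop h).toContinuousMap ⟨_, hc⟩ (by
        intro t
        refine ⟨?_, ?_⟩
        · show (((t : ℝ) : ℂ) * τ).re < Real.log R
          rw [Complex.re_ofReal_mul, hτre, mul_zero]
          exact hR0
        · show p + exp (2 * Real.pi * I * (t : ℝ)) • (x.1 - p) = p + exp (((t : ℝ) : ℂ) * τ) • ν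
          congr 3
          rw [hτ]
          ring)
    rw [h1]
    have h2 : (⟨fun t : unitInterval => ((t : ℝ) : ℂ) * τ, hc⟩ : C(unitInterval, ℂ)) 1 = τ := by
      show (((1 : unitInterval) : ℝ) : ℂ) * τ = τ
      simp
    have h3 : (⟨fun t : unitInterval => ((t : ℝ) : ℂ) * τ, hc⟩ : C(unitInterval, ℂ)) 0 = 0 := by
      show (((0 : unitInterval) : ℝ) : ℂ) * τ = 0
      simp
    rw [h2, h3, hX0, inv_one, mul_one]
  · -- quasi-periodicity
    intro w hw
    have hexpτ : ∀ w : ℂ, exp (w + τ) = exp w := by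
      intro w
      rw [hτ, Complex.exp_add, Complex.exp_two_pi_mul_I, mul_one]
    have hG : ∀ w ∈ U, ∀ i j, HasDerivAt (fun w => (X (w + τ)) i j)
        (((App ρ k p + exp w • Bpp ρ k p ν (exp w)) * (X (w + τ))) i j) w := by
      intro w hw i j
      have h5 := (hXd (w + τ) (hdet hw) i j).comp_add_const w τ
      rw [hexpτ] at h5
      exact h5
    have h6 := ode_unique U hUo hUc _ X (fun w => X (w + τ)) hXd hG hXu w hw 0
      (by simpa [hU] using hR0)
    beta_reduce at h6
    rw [hX0, inv_one, one_mul, zero_add] at h6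
    have h7 : X w * (X w)⁻¹ = 1 :=
      Matrix.mul_nonsing_inv _ ((Matrix.isUnit_iff_isUnit_det _).1 (hXu w hw))
    calc X (w + τ) = (X w * (X w)⁻¹) * X (w + τ) := by rw [h7, one_mul]
      _ = X w * ((X w)⁻¹ * X (w + τ)) := by rw [mul_assoc]
      _ = X w * X τ := by rw [h6]

end

end Pool.Agent.CMFn.QLocX
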