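import Pool.Agent.CMF.LocMonA
import Pool.Agent.CMFn.QLocA
import Pool.Agent.CMFn.KZ

/-! Project CMFn, block Q: local monodromy of the twists of parabolic subgroups. -/

namespace Pool.Agent.CMFn

open Matrix Complex

noncomputable section

variable {r : ℕ} {N : SG r} [Fintype N] {v₀ x : VReg N} {p : Fin r → ℂ}
  {ι : Type} [Fintype ι] [DecidableEq ι]

namespace QLocX

/-! ### linearity in the parameters -/

omit [Fintype N] in
theorem cr_smul (t : ℂ) (k : Idx N → ℂ) (w : N) : cr (t • k) w = t * cr k w := by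
  unfold cr
  by_cases h : IsRefl w.1
  · rw [dif_pos h, dif_pos h]
    unfold cf
    rw [Finset.mul_sum]
    refine Finset.sum_congr rfl fun j _ => ?_
    rw [Pi.smul_apply, smul_eq_mul, mul_assoc]
  · rw [dif_neg h, dif_neg h, mul_zero]

omit [Fintype N] in
theorem cs_smul (t : ℂ) (k : Idx N → ℂ) (H : Arr N) : cs (t • k) H = t * cs k H := by
  unfold cs
  rw [Finset.mul_sum]
  rfl

theorem App_smul (ρ : N →* Matrix ι ι ℂ) (t : ℂ) (k : Idx N → ℂ) (p : Fin r → ℂ) :
    App ρ (t • k) p = t • App ρ k p := by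
  classical
  unfold App
  rw [smul_add, Finset.smul_sum, smul_smul, Finset.mul_sum]
  congr 1
  · refine Finset.sum_congr rfl fun w _ => ?_
    rw [smul_smul]
    congr 1
    split_ifs
    · exact cr_smul t k w
    · rw [mul_zero]
  · congr 1
    refine Finset.sum_congr rfl fun H _ => ?_
    split_ifs
    · exact cs_smul t k H
    · rw [mul_zero]

theorem Bpp_smul (ρ : N →* Matrix ι ι ℂ) (t : ℂ) (k : Idx N → ℂ) (p ν : Fin r → ℂ) (z : ℂ) :
    Bpp ρ (t • k) p ν z = t • Bpp ρ k p ν z := by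
  classical
  unfold Bpp
  rw [smul_add, Finset.smul_sum, smul_smul, Finset.mul_sum]
  congr 1
  · refine Finset.sum_congr rfl fun w _ => ?_
    rw [smul_smul]
    congr 1
    split_ifs
    · rw [mul_zero]
    · rw [cr_smul, mul_assoc]
  · congr 1
    refine Finset.sum_congr rfl fun H _ => ?_
    split_ifs
    · rw [mul_zero]
    · rw [cs_smul, mul_assoc]

/-! ### spectral idempotents -/

theorem exists_spec (A : Matrix ι ι ℂ) (B : Finset ℝ) (hne : B.Nonempty)
    (hB : Polynomial.aeval A (∏ b ∈ B, (Polynomial.X - Polynomial.C (b : ℂ))) = 0) :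
    ∃ (v : ℕ → ℝ) (ε : ℕ → Matrix ι ι ℂ), (∀ j ∈ Finset.range B.card, v j ∈ B) ∧
      (∑ j ∈ Finset.range B.card, ε j = 1) ∧
      (∀ i ∈ Finset.range B.card, ∀ j ∈ Finset.range B.card,
        ε i * ε j = if i = j then ε j else 0) ∧
      ∀ j ∈ Finset.range B.card, ε j * A = (v j : ℂ) • ε j := by
  classical
  let e := B.equivFin
  let v : ℕ → ℝ := fun j => if h : j < B.card then (e.symm ⟨j, h⟩).1 else 0
  have hv : ∀ j (h : j < B.card), v j = (e.symm ⟨j, h⟩).1 := fun j h => dif_pos h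
  have hinj : Set.InjOn v (Finset.range B.card) := by
    intro i hi j hj hij
    have hi' := Finset.mem_range.1 (Finset.mem_coe.1 hi)
    have hj' := Finset.mem_range.1 (Finset.mem_coe.1 hj)
    rw [hv i hi', hv j hj'] at hij
    have := e.symm.injective (Subtype.ext hij)
    exact congrArg Fin.val this
  have himg : (Finset.range B.card).image v = B := by
    ext b
    constructor
    · intro hb
      obtain ⟨j, hj, rfl⟩ := Finset.mem_image.1 hb
      rw [hv j (Finset.mem_range.1 hj)]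
      exact (e.symm _).2
    · intro hb
      refine Finset.mem_image.2 ⟨(e ⟨b, hb⟩).1, Finset.mem_range.2 (e ⟨b, hb⟩).2, ?_⟩
      rw [hv _ (e ⟨b, hb⟩).2]
      simp
  have hinjC : Set.InjOn (fun j => ((v j : ℝ) : ℂ)) (Finset.range B.card) := by
    intro i hi j hj hij
    exact hinj hi hj (Complex.ofReal_injective hij)
  have hprod : ∏ b ∈ B, (Polynomial.X - Polynomial.C (b : ℂ)) =
      Lagrange.nodal (Finset.range B.card) (fun j => ((v j : ℝ) : ℂ)) := by
    rw [Lagrange.nodal]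
    conv_lhs => rw [← himg]
    rw [Finset.prod_image hinj]
  rw [hprod] at hB
  let L : ℕ → Polynomial ℂ := fun j => Lagrange.basis (Finset.range B.card)
    (fun j => ((v j : ℝ) : ℂ)) j
  have hsum : ∑ j ∈ Finset.range B.card, L j = 1 := by
    refine Lagrange.sum_basis hinjC ?_
    rw [Finset.nonempty_range_iff]
    exact (Finset.card_pos.2 hne).ne'
  have hL : ∀ j ∈ Finset.range B.card, L j = Polynomial.C
      (∏ i ∈ (Finset.range B.card).erase j, (((v j : ℝ) : ℂ) - ((v i : ℝ) : ℂ))⁻¹) *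
      Lagrange.nodal ((Finset.range B.card).erase j) (fun j => ((v j : ℝ) : ℂ)) := by
    intro j _
    show Lagrange.basis _ _ _ = _
    unfold Lagrange.basis Lagrange.basisDivisor Lagrange.nodal
    rw [Finset.prod_mul_distrib, map_prod]
  have hnod : ∀ j ∈ Finset.range B.card, Lagrange.nodal (Finset.range B.card)
      (fun j => ((v j : ℝ) : ℂ)) = (Polynomial.X - Polynomial.C ((v j : ℝ) : ℂ)) *
      Lagrange.nodal ((Finset.range B.card).erase j) (fun j => ((v j : ℝ) : ℂ)) := by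
    intro j hj
    unfold Lagrange.nodal
    exact (Finset.mul_prod_erase _ _ hj).symm
  have hdvd : ∀ i ∈ Finset.range B.card, ∀ j ∈ Finset.range B.card, i ≠ j →
      Lagrange.nodal (Finset.range B.card) (fun j => ((v j : ℝ) : ℂ)) ∣ L i * L j := by
    intro i hi j hj hij
    rw [hnod i hi, hL i hi, hL j hj]
    have h1 : (Polynomial.X - Polynomial.C ((v i : ℝ) : ℂ)) ∣
        Lagrange.nodal ((Finset.range B.card).erase j) (fun j => ((v j : ℝ) : ℂ)) := by
      unfold Lagrange.nodal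
      exact Finset.dvd_prod_of_mem _ (Finset.mem_erase.2 ⟨hij, hi⟩)
    obtain ⟨Q, hQ⟩ := h1
    rw [hQ]
    refine ⟨Polynomial.C
      (∏ a ∈ (Finset.range B.card).erase i, (((v i : ℝ) : ℂ) - ((v a : ℝ) : ℂ))⁻¹) *
      (Polynomial.C (∏ a ∈ (Finset.range B.card).erase j, (((v j : ℝ) : ℂ) - ((v a : ℝ) : ℂ))⁻¹) *
        Q), by ring⟩
  refine ⟨v, fun j => Polynomial.aeval A (L j), ?_, ?_, ?_, ?_⟩
  · intro j hj
    rw [← himg]
    exact Finset.mem_image_of_mem _ hj
  · rw [← map_sum, hsum, map_one]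
  · have horth : ∀ i ∈ Finset.range B.card, ∀ j ∈ Finset.range B.card, i ≠ j →
        Polynomial.aeval A (L i) * Polynomial.aeval A (L j) = 0 := by
      intro i hi j hj hij
      obtain ⟨Q, hQ⟩ := hdvd i hi j hj hij
      rw [← map_mul, hQ, map_mul, hB, zero_mul]
    intro i hi j hj
    by_cases hij : i = j
    · subst hij
      rw [if_pos rfl]
      have h1 : Polynomial.aeval A (L i) * ∑ j ∈ Finset.range B.card, Polynomial.aeval A (L j) =
          Polynomial.aeval A (L i) := by rw [← map_sum, hsum, map_one, mul_one]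
      rw [Finset.mul_sum, Finset.sum_eq_single_of_mem i hi
        (fun b hb hbi => horth i hi b hb (Ne.symm hbi))] at h1
      exact h1
    · rw [if_neg hij]
      exact horth i hi j hj hij
  · intro j hj
    have h1 : Polynomial.aeval A (L j * (Polynomial.X - Polynomial.C ((v j : ℝ) : ℂ))) = 0 := by
      have h2 : Lagrange.nodal (Finset.range B.card) (fun j => ((v j : ℝ) : ℂ)) ∣
          L j * (Polynomial.X - Polynomial.C ((v j : ℝ) : ℂ)) := by
        rw [hnod j hj, hL j hj]
        exact ⟨Polynomial.C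
          (∏ a ∈ (Finset.range B.card).erase j, (((v j : ℝ) : ℂ) - ((v a : ℝ) : ℂ))⁻¹), by ring⟩
      obtain ⟨Q, hQ⟩ := h2
      rw [hQ, map_mul, hB, zero_mul]
    rw [map_mul, map_sub, Polynomial.aeval_X, Polynomial.aeval_C, mul_sub, sub_eq_zero,
      Algebra.algebraMap_eq_smul_one, mul_smul_comm, mul_one] at h1
    exact h1

/-! ### the twist -/

theorem KZ_tw_eq (hN : ∃ s ∈ N, IsRefl s) (ρ : N →* Matrix ι ι ℂ) (k : Idx N → ℂ)
    (h : IsTw p x) (q : Path v₀ x) :
    KZ hN ρ k (tw h q) = ((PP hN ρ k q.toContinuousMap)⁻¹ *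
      PP hN ρ k (twLoop h).toContinuousMap * PP hN ρ k q.toContinuousMap)⁻¹ := by
  have h1 : KZ hN ρ k (tw h q) = (PP hN ρ k ((q.trans (twLoop h)).trans
      q.symm).toContinuousMap)⁻¹ * ρ 1 := KZ_mk hN ρ k _
  rw [h1, map_one, mul_one, PP_trans, PP_trans, PP_symm, mul_assoc]

/-- The statement for imaginary `t`. -/
theorem tw_imag (hN : ∃ s ∈ N, IsRefl s) (ρ : N →* Matrix ι ι ℂ) (k : Idx N → ℝ)
    (h : IsTw p x) (q : Path v₀ x) (B : Finset ℝ)
    (hB : Polynomial.aeval (App ρ (fun i => (k i : ℂ)) p)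
      (∏ b ∈ B, (Polynomial.X - Polynomial.C (b : ℂ))) = 0) (hne : B.Nonempty) (t : ℂ)
    (ht : t.re = 0) :
    Polynomial.aeval (KZ hN ρ (t • fun i => (k i : ℂ)) (tw h q))
      (∏ b ∈ B, (Polynomial.X - Polynomial.C (exp (-(2 * Real.pi * I) * (t * b))))) = 0 := by
  obtain ⟨v, ε, hvB, he1, he2, he3⟩ := exists_spec _ B hne hB
  set kt : Idx N → ℂ := t • fun i => (k i : ℂ) with hkt
  obtain ⟨R, hR, hreg, hR2⟩ := om_disc hN ρ p (x.1 - p) h
  obtain ⟨hom, hBd⟩ := hR2 kt
  obtain ⟨X, hX0, hXu, hX1, hXa, hXq⟩ := exists_X hN ρ kt h R hR hreg hom hBd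
  have hlogR : 0 < Real.log R := Real.log_pos hR
  set P0 : Matrix ι ι ℂ := PP hN ρ kt q.toContinuousMap with hP0
  have hP0u : IsUnit P0 := PP_unit hN ρ kt _
  have hP0i : P0 * P0⁻¹ = 1 :=
    Matrix.mul_nonsing_inv _ ((Matrix.isUnit_iff_isUnit_det _).1 hP0u)
  obtain ⟨K, hK⟩ : ∃ K : ℝ, ∀ z : ℂ, ‖z‖ ≤ 1 → ∀ i j, ‖Bpp ρ kt p (x.1 - p) z i j‖ ≤ K := by
    have h1 : ∀ i j, ∃ C : ℝ, ∀ z ∈ Metric.closedBall (0 : ℂ) 1,
        ‖Bpp ρ kt p (x.1 - p) z i j‖ ≤ C := by
      intro i j
      refine (isCompact_closedBall (0 : ℂ) 1).exists_bound_of_continuousOn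
        ((hBd i j).continuousOn.mono ?_)
      exact Metric.closedBall_subset_ball hR
    choose C hC using h1
    refine ⟨∑ i, ∑ j, |C i j|, fun z hz i j => ?_⟩
    have h2 : z ∈ Metric.closedBall (0 : ℂ) 1 := by rwa [mem_closedBall_zero_iff]
    calc ‖Bpp ρ kt p (x.1 - p) z i j‖ ≤ C i j := hC i j z h2
      _ ≤ |C i j| := le_abs_self _
      _ ≤ ∑ j, |C i j| :=
        Finset.single_le_sum (f := fun j => |C i j|) (fun _ _ => abs_nonneg _) (Finset.mem_univ j)
      _ ≤ ∑ i, ∑ j, |C i j| :=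
        Finset.single_le_sum (f := fun i => ∑ j, |C i j|)
          (fun _ _ => Finset.sum_nonneg fun _ _ => abs_nonneg _) (Finset.mem_univ i)
  have hApp : App ρ kt p = t • App ρ (fun i => (k i : ℂ)) p := App_smul ρ t _ p
  let D : CMF.LocMonX.Dat ι :=
    { n := B.card
      ε := ε
      κ := fun j => t * v j
      a := App ρ kt p
      B := Bpp ρ kt p (x.1 - p)
      X := fun w => X w * P0
      K := K
      sum_ε := he1
      mul_ε := he2
      mul_a := fun j hj => by
        rw [hApp, mul_smul_comm, he3 j hj, smul_smul]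
      re_κ := fun j => by
        rw [Complex.re_mul_ofReal, ht, zero_mul]
      hB := hK
      hX := fun w hw i j => by
        have h1 := hX1 w (hw.trans_lt hlogR)
        have h2 : HasDerivAt (fun w => ∑ l, X w i l * P0 l j)
            (∑ l, ((App ρ kt p + exp w • Bpp ρ kt p (x.1 - p) (exp w)) * X w) i l * P0 l j) w :=
          HasDerivAt.fun_sum fun l _ => (h1 i l).mul_const (P0 l j)
        rw [← Matrix.mul_assoc, Matrix.mul_apply]
        exact h2 }
  set θ : ℝ := 2 * Real.pi with hθ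
  have hθ0 : 0 ≤ θ := by positivity
  have hθI : (θ : ℂ) * I = 2 * Real.pi * I := by
    rw [hθ]
    push_cast
    ring
  set T : Matrix ι ι ℂ := KZ hN ρ kt (tw h q) with hTdef
  have hT1 : X (2 * Real.pi * I) * P0 * T = P0 := by
    have h2 : T = (P0⁻¹ * X (2 * Real.pi * I) * P0)⁻¹ := by
      rw [hTdef, KZ_tw_eq, hXa]
    have h3 : IsUnit (P0⁻¹ * X (2 * Real.pi * I) * P0) := by
      refine (IsUnit.mul ?_ ?_).mul hP0u
      · exact (Matrix.isUnit_nonsing_inv_iff).2 hP0u
      · apply hXu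
        rw [← hθI]
        simpa using hlogR
    have h4 : (P0⁻¹ * X (2 * Real.pi * I) * P0) * T = 1 := by
      rw [h2]
      exact Matrix.mul_nonsing_inv _ ((Matrix.isUnit_iff_isUnit_det _).1 h3)
    calc X (2 * Real.pi * I) * P0 * T
        = (P0 * P0⁻¹) * (X (2 * Real.pi * I) * P0 * T) := by rw [hP0i, one_mul]
      _ = P0 * ((P0⁻¹ * X (2 * Real.pi * I) * P0) * T) := by simp only [Matrix.mul_assoc]
      _ = P0 := by rw [h4, mul_one]
  refine D.main θ hθ0 1 T (fun _ => 1) ?_ ?_ ?_ _ ?_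
  · intro j _
    rw [mul_one, one_smul]
  · intro w hw
    show X (w + θ * I) * P0 * T = 1 * (X w * P0)
    rw [hθI, hXq w (hw.trans_lt hlogR), one_mul]
    calc X w * X (2 * Real.pi * I) * P0 * T = X w * (X (2 * Real.pi * I) * P0 * T) := by
          simp only [Matrix.mul_assoc]
      _ = X w * P0 := by rw [hT1]
  · show IsUnit (X 0 * P0)
    rw [hX0, Matrix.one_mul]
    exact hP0u
  · intro j hj
    have heq : (1 : ℂ) * exp (-(D.κ j * (θ * I))) = exp (-(2 * Real.pi * I) * (t * v j)) := by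
      rw [one_mul]
      congr 1
      show -(t * v j * (θ * I)) = _
      rw [hθI]
      ring
    rw [heq]
    exact Finset.dvd_prod_of_mem (fun b : ℝ => (Polynomial.X - Polynomial.C
      (exp (-(2 * Real.pi * I) * (t * b))))) (hvB j hj)

/-- An entire function that vanishes on the imaginary axis vanishes. -/
theorem entire_zero (g : ℂ → ℂ) (hg : Differentiable ℂ g) (h : ∀ t : ℂ, t.re = 0 → g t = 0) :
    ∀ t, g t = 0 := by
  have hA : AnalyticOnNhd ℂ g Set.univ := fun z _ => (hg.analyticAt z)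
  have hB : AnalyticOnNhd ℂ (fun _ : ℂ => (0 : ℂ)) Set.univ := analyticOnNhd_const
  intro z
  refine hA.eqOn_of_preconnected_of_frequently_eq hB isPreconnected_univ (Set.mem_univ 0) ?_
    (Set.mem_univ z)
  rw [frequently_nhdsWithin_iff]
  rw [Filter.frequently_iff]
  intro U hU
  obtain ⟨r, hr, hrU⟩ := Metric.mem_nhds_iff.1 hU
  refine ⟨((r / 2 : ℝ) : ℂ) * I, hrU ?_, h _ (by simp), ?_⟩
  · rw [Metric.mem_ball, dist_zero_right, norm_mul, Complex.norm_I, mul_one, Complex.norm_real,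
      Real.norm_of_nonneg (by linarith)]
    linarith
  · simp only [Set.mem_compl_iff, Set.mem_singleton_iff]
    intro h0
    rcases mul_eq_zero.1 h0 with h1 | h1
    · have : (r / 2 : ℝ) = 0 := by exact_mod_cast h1
      linarith
    · exact Complex.I_ne_zero h1

theorem diff_aeval {J : Type} (T : ℂ → Matrix ι ι ℂ)
    (hT : ∀ i j, Differentiable ℂ (fun t => T t i j)) (s : Finset J) (c : J → ℂ → ℂ)
    (hc : ∀ j, Differentiable ℂ (c j)) :
    ∀ i j, Differentiable ℂ (fun t => (Polynomial.aeval (T t)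
      (∏ a ∈ s, (Polynomial.X - Polynomial.C (c a t)))) i j) := by
  classical
  induction s using Finset.induction_on with
  | empty =>
    intro i j
    simp only [Finset.prod_empty, map_one]
    exact differentiable_const _
  | insert a s ha ih =>
    intro i j
    have h1 : (fun t => (Polynomial.aeval (T t)
        (∏ a ∈ insert a s, (Polynomial.X - Polynomial.C (c a t)))) i j) =
        fun t => ∑ l, (T t i l - c a t * (1 : Matrix ι ι ℂ) i l) * (Polynomial.aeval (T t)
        (∏ a ∈ s, (Polynomial.X - Polynomial.C (c a t)))) l j := by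
      funext t
      rw [Finset.prod_insert ha, map_mul, Matrix.mul_apply]
      refine Finset.sum_congr rfl fun l _ => ?_
      congr 1
      rw [map_sub, Polynomial.aeval_X, Polynomial.aeval_C, Matrix.sub_apply,
        Algebra.algebraMap_eq_smul_one, Matrix.smul_apply, smul_eq_mul]
    rw [h1]
    exact Differentiable.fun_sum fun l _ =>
      ((hT i l).sub ((hc a).mul (differentiable_const _))).mul (ih l j)

theorem KZ_diff (hN : ∃ s ∈ N, IsRefl s) (ρ : N →* Matrix ι ι ℂ) (k : Idx N → ℂ)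
    (b : Braid N v₀) (i j : ι) : Differentiable ℂ (fun t : ℂ => KZ hN ρ (t • k) b i j) := by
  have h1 := (KZ_lineHol hN ρ b i j).2 0 k
  simpa using h1

end QLocX

open QLocX

variable (hN : ∃ s ∈ N, IsRefl s)

open Complex in
/-- If `A_p(k)` satisfies a square free polynomial with real roots `b ∈ B`, then `KZ_{tk}(ω_p)` is a
root of `Π_b (X - exp(-2πi t b))`, for all `t`. -/
theorem KZ_tw_poly (ρ : N →* Matrix ι ι ℂ) (k : Idx N → ℝ) (h : IsTw p x) (q : Path v₀ x)
    (B : Finset ℝ)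
    (hB : Polynomial.aeval (App ρ (fun i => (k i : ℂ)) p)
      (∏ b ∈ B, (Polynomial.X - Polynomial.C (b : ℂ))) = 0) (t : ℂ) :
    Polynomial.aeval (KZ hN ρ (fun i => t * k i) (tw h q))
      (∏ b ∈ B, (Polynomial.X - Polynomial.C (exp (-(2 * Real.pi * I) * (t * b))))) = 0 := by
  rcases B.eq_empty_or_nonempty with rfl | hne
  · rw [Finset.prod_empty, map_one] at hB ⊢
    exact hB
  have h1 : (fun i => t * (k i : ℂ)) = t • fun i => (k i : ℂ) := rfl
  rw [h1]
  ext i j
  have hd := diff_aeval (fun t : ℂ => KZ hN ρ (t • fun i => (k i : ℂ)) (tw h q))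
    (fun i j => KZ_diff hN ρ _ _ i j) B (fun b t => exp (-(2 * Real.pi * I) * (t * b)))
    (fun b => by fun_prop) i j
  refine entire_zero _ hd (fun t ht => ?_) t
  have h2 := tw_imag hN ρ k h q B hB hne t ht
  show (Polynomial.aeval (KZ hN ρ (t • fun i => (k i : ℂ)) (tw h q)) _) i j = _
  rw [h2]
  rfl

end

end Pool.Agent.CMFn
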