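import Pool.Agent.CMFn.QG31
import Pool.Agent.CMFn.CkG31
import Pool.Agent.CMFn.MtB

/-! Project CMFn, block Q: the levels of G31 are connected up to isolated characters, inside and
outside the characters of dimension 20 of the levels 6 and -6.  helper86. -/

namespace Pool.Agent.CMFn.G31

open GD

noncomputable section

/-- The list check of `chkI`. -/
lemma mem_of_chkI {α : Type} {d : GD α} {I : ℕ} {L : List ℕ} (h : d.chkI I L = true) {i : ℕ}
    (hi : i < d.K) (hb : bit I i = true) : i ∈ L := by
  unfold GD.chkI at h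
  have h1 := allN_iff.1 h i hi
  rw [hb, cond_true, List.any_eq_true] at h1
  obtain ⟨j, hj, h2⟩ := h1
  rw [beq_iff] at h2
  rwa [h2]

theorem splitY {G : Type} [Group G] [Fintype G] {V : G →* Matrix (Fin 4) (Fin 4) ℂ} {γ : ℕ → G}
    (hG : Gp dat fI V γ) : OneCls V ∧ ∃ Y : MRep G → Prop, DimY V Y ∧ ConnXY V (IsolC V) Y := by
  obtain ⟨e, hc⟩ := crs_i
  obtain ⟨lt, a, O⟩ := cert hc hG ckA ckB
  have ho : op0 ∈ dat.ops := List.mem_cons_self
  have hg : op0.gen < dat.ng := by decide
  refine ⟨oneCls_of (γ op0.gen) fun x hx => one_class hc hG ckA ckB O ho hg q_all hx,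
    dat.YM a 0x30c000000, ?_, ?_⟩
  · refine dimY_cert hc hG ckA ckB O ho hg q_all fun i hi hb => ?_
    have h1 := mem_of_chkI q_M hi hb
    simp only [List.mem_cons, List.not_mem_nil, or_false] at h1
    rcases h1 with rfl | rfl | rfl | rfl
    · refine ⟨pd0, true, 2, false, q0, t26, y26, fun m e hm he h => ?_⟩
      rw [beq_iff.1 d26] at h ⊢
      simp only [Bool.false_eq_true, if_false] at h
      omega
    · refine ⟨pd0, true, 2, false, q0, t27, y27, fun m e hm he h => ?_⟩
      rw [beq_iff.1 d27] at h ⊢
      simp only [Bool.false_eq_true, if_false] at h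
      omega
    · refine ⟨pd0.tv, false, 2, true, q0.tv, t32, y32, fun m e hm he h => ?_⟩
      rw [beq_iff.1 d32] at h ⊢
      simp only [if_true] at h
      omega
    · refine ⟨pd0.tv, false, 2, true, q0.tv, t33, y33, fun m e hm he h => ?_⟩
      rw [beq_iff.1 d33] at h ⊢
      simp only [if_true] at h
      omega
  · refine O.connIM hc ckB (I := 0x140000002000240) (fun i hi hb => ?_) (of_allR q_lab)
    have h1 := mem_of_chkI q_I hi hb
    simp only [List.mem_cons, List.not_mem_nil, or_false] at h1
    rcases h1 with rfl | rfl | rfl | rfl | rfl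
    · exact isolC_cert hc hG ckA ckB O ho hg c0 (by decide) i0
    · exact isolC_cert hc hG ckA ckB O ho hg c1 (by decide) i1
    · exact isolC_cert hc hG ckA ckB O ho hg c2 (by decide) i2
    · exact isolC_cert hc hG ckA ckB O ho hg c3 (by decide) i3
    · exact isolC_cert hc hG ckA ckB O ho hg c4 (by decide) i4

end

end Pool.Agent.CMFn.G31
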