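import Pool.Agent.CMFn.ExcDefs

/-! Project CMFn (MP_4af2a6_al): the exceptional groups of rank at least 3. -/

namespace Pool.Agent.CMFP

/-- `W` is one of the exceptional groups of rank at least 3, that is `G23, G24, ..., G37` (any
complex form of it): it is generated by reflections with the given Cartan matrix. -/
def IsExc {G : Type} [Group G] {n : ℕ} (W : G → Matrix (Fin n) (Fin n) ℂ) : Prop :=
  HasCartan W cH3 ∨ HasCartan W cG24 ∨ HasCartan W cG25 ∨ HasCartan W cG26 ∨ HasCartan W cG27 ∨
    HasCartan W cF4 ∨ HasCartan W cG29 ∨ HasCartan W cH4 ∨ HasCartan W cG31 ∨ HasCartan W cG32 ∨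
    HasCartan W cG33 ∨ HasCartan W cG34 ∨ HasCartan W cE6 ∨ HasCartan W cE7 ∨ HasCartan W cE8

end Pool.Agent.CMFP
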