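import Pool.Agent.CMFn.ReflDefs
import Pool.Agent.CMFn.Mart
import Pool.Agent.CMFn.MtH3
import Pool.Agent.CMFn.MtG24
import Pool.Agent.CMFn.MtG25
import Pool.Agent.CMFn.MtG26
import Pool.Agent.CMFn.MtG27
import Pool.Agent.CMFn.MtF4
import Pool.Agent.CMFn.MtG29
import Pool.Agent.CMFn.MtH4
import Pool.Agent.CMFn.MtG31
import Pool.Agent.CMFn.MtG32
import Pool.Agent.CMFn.MtG33
import Pool.Agent.CMFn.MtG34
import Pool.Agent.CMFn.MtE6
import Pool.Agent.CMFn.MtE7
import Pool.Agent.CMFn.MtE8

/-! Project CMFn: Martino's conjecture for the groups of the list. -/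

namespace Pool.Agent.CMFn

open Pool.Agent.CMFP

theorem mart_of_exc {n : ℕ} {G : Type} [Group G] [Fintype G]
    (W : G → Matrix (Fin n) (Fin n) ℂ) (hW : IsReflGroup W) (hE : n = 2 ∨ IsExc W) : Mart W := by
  rcases hE with h | h
  · exact mart_two h W hW
  rcases h with h | h | h | h | h | h | h | h | h | h | h | h | h | h | h
  · exact H3.mart W hW h
  · exact G24.mart W hW h
  · exact G25.mart W hW h
  · exact G26.mart W hW h
  · exact G27.mart W hW h
  · exact F4.mart W hW h
  · exact G29.mart W hW h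
  · exact H4.mart W hW h
  · exact G31.mart W hW h
  · exact G32.mart W hW h
  · exact G33.mart W hW h
  · exact G34.mart W hW h
  · exact E6.mart W hW h
  · exact E7.mart W hW h
  · exact E8.mart W hW h

end Pool.Agent.CMFn
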