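import Mathlib

/-! Project CMFn, module RkA: exactness of characteristic polynomials.  If the elements of an
algebra with vanishing characters are sums of commutators, then two polynomials over the algebra
with equal determinants in all irreducible representations have equal determinants in every
representation. -/

namespace Pool.Agent.CMFn.Rk

open Matrix Polynomial

noncomputable section

/-- Sums of commutators. -/
def Comm (H : Type) [Ring H] : AddSubgroup H :=
  AddSubgroup.closure {x | ∃ a b : H, x = a * b - b * a}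

/-- Evaluation of a polynomial over `H` in a matrix representation. -/
def ev {H K : Type} [Ring H] [CommRing K] {d : ℕ} (R : H →+* Matrix (Fin d) (Fin d) K) :
    H[X] →+* Matrix (Fin d) (Fin d) K[X] :=
  (matPolyEquiv.symm : (Matrix (Fin d) (Fin d) K)[X] ≃ₐ[K] Matrix (Fin d) (Fin d) K[X]).toRingEquiv.toRingHom.comp
    (Polynomial.mapRingHom R)

section

variable {H K : Type} [Ring H] [CommRing K] {d : ℕ} (R : H →+* Matrix (Fin d) (Fin d) K)

lemma ev_coeff (P : H[X]) (i j : Fin d) (m : ℕ) : (ev R P i j).coeff m = R (P.coeff m) i j := by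
  have h := matPolyEquiv_coeff_apply (ev R P) m i j
  rw [← h]
  simp [ev]

lemma ev_C (x : H) : ev R (C x) = (R x).map C := by
  ext i j m
  rw [ev_coeff, Matrix.map_apply, coeff_C, coeff_C]
  split_ifs <;> simp

lemma ev_X : ev R X = (X : K[X]) • 1 := by
  ext i j m
  rw [ev_coeff, coeff_X, Matrix.smul_apply, smul_eq_mul]
  by_cases hij : i = j
  · subst hij
    rw [Matrix.one_apply_eq, mul_one, coeff_X]
    split_ifs <;> simp
  · rw [Matrix.one_apply_ne hij, mul_zero, coeff_zero]
    split_ifs <;> simp [hij]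

lemma ev_X_pow_mul (m : ℕ) (P : H[X]) : ev R (X ^ m * P) = (X ^ m : K[X]) • ev R P := by
  rw [map_mul, map_pow, ev_X, _root_.smul_pow, one_pow, smul_mul_assoc, one_mul]

lemma ev_eval_zero (P : H[X]) : (ev R P).map (eval 0) = R (P.coeff 0) := by
  ext i j
  rw [Matrix.map_apply, ← coeff_zero_eq_eval_zero, ev_coeff]

end

/-- The first order term of a determinant. -/
lemma trace_eq_zero {K : Type} [Field K] {d m : ℕ} (hm : 0 < m)
    (Q B : Matrix (Fin d) (Fin d) K[X]) (hQ : Q.map (eval 0) = 1)
    (h : (Q + (X ^ m : K[X]) • B).det = Q.det) : (B.map (eval 0)).trace = 0 := by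
  let c : K[X] →+* PowerSeries K := Polynomial.coeToPowerSeries.ringHom
  let e : PowerSeries K →+* K := PowerSeries.constantCoeff
  have hc : ∀ p : K[X], e (c p) = p.eval 0 := fun p => by
    rw [← coeff_zero_eq_eval_zero]
    exact Polynomial.constantCoeff_coe p
  have hmap : ∀ M : Matrix (Fin d) (Fin d) K[X], (M.map c).map e = M.map (eval 0) := fun M => by
    ext i j
    exact hc _
  have hdet : e (Q.map c).det = 1 := by
    rw [RingHom.map_det, RingHom.mapMatrix_apply, hmap, hQ, det_one]
  have hunit : IsUnit (Q.map c).det := by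
    rw [PowerSeries.isUnit_iff_constantCoeff]
    exact hdet ▸ isUnit_one
  obtain ⟨M, hM⟩ : ∃ M, Q.map c * M = B.map c :=
    ⟨(Q.map c)⁻¹ * B.map c, by rw [← Matrix.mul_assoc, Matrix.mul_nonsing_inv _ hunit, one_mul]⟩
  have h1 : ((Q + (X ^ m : K[X]) • B).map c) =
      Q.map c * (1 + (PowerSeries.X ^ m : PowerSeries K) • M) := by
    rw [mul_add, mul_one, Matrix.mul_smul, hM]
    refine Matrix.ext fun i j => ?_
    have hcX : c X = PowerSeries.X := Polynomial.coe_X
    rw [Matrix.map_apply, Matrix.add_apply, Matrix.smul_apply, smul_eq_mul, map_add, map_mul,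
      map_pow, hcX]
    rfl
  have h2 : (1 + (PowerSeries.X ^ m : PowerSeries K) • M).det = 1 := by
    have h3 := congrArg c h
    rw [RingHom.map_det, RingHom.map_det, RingHom.mapMatrix_apply, RingHom.mapMatrix_apply, h1,
      det_mul] at h3
    exact hunit.mul_left_cancel (h3.trans (mul_one _).symm)
  rw [Matrix.det_one_add_smul] at h2
  have hX : (PowerSeries.X ^ m : PowerSeries K) ≠ 0 := pow_ne_zero _ PowerSeries.X_ne_zero
  set w := eval (PowerSeries.X ^ m : PowerSeries K)
    (1 + (X : (PowerSeries K)[X]) • M.map C).det.divX.divX with hw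
  have h4 : M.trace + w * PowerSeries.X ^ m = 0 := by
    apply mul_left_cancel₀ hX
    linear_combination h2
  have h5 := congrArg e h4
  rw [map_add, map_mul, map_pow, map_zero] at h5
  have h6 : e PowerSeries.X = 0 := PowerSeries.constantCoeff_X
  rw [h6, zero_pow hm.ne', mul_zero, add_zero] at h5
  have h7 : M.map e = B.map (eval 0) := by
    have h8 : (Q.map c * M).map e = (B.map c).map e := by rw [hM]
    rw [hmap, ← RingHom.mapMatrix_apply, map_mul, RingHom.mapMatrix_apply,
      RingHom.mapMatrix_apply, hmap, hQ, one_mul] at h8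
    exact h8
  rw [← h7]
  have h9 : e M.trace = (M.map e).trace := by
    rw [Matrix.trace, Matrix.trace, map_sum]
    rfl
  rw [← h9, h5]

/-- Sylvester pairs with a given first order term. -/
lemma exists_pair {H : Type} [Ring H] {m : ℕ} (hm : 0 < m) {a : H} (ha : a ∈ Comm H) :
    ∃ u v : H[X], v.coeff 0 - u.coeff 0 = a ∧ ∀ (k : Type) [CommRing k] (n : ℕ)
      (σ : H →+* Matrix (Fin n) (Fin n) k),
      (ev σ (1 + X ^ m * u)).det = (ev σ (1 + X ^ m * v)).det := by
  induction ha using AddSubgroup.closure_induction with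
  | mem a ha =>
    obtain ⟨x, y, rfl⟩ := ha
    refine ⟨C (y * x), C (x * y), by simp, fun k _ n σ => ?_⟩
    rw [map_add, map_add, ev_X_pow_mul, ev_X_pow_mul, map_one, C_mul, C_mul, map_mul, map_mul]
    rw [← smul_mul_assoc, Matrix.det_one_add_mul_comm, Matrix.mul_smul]
  | zero => exact ⟨0, 0, by simp, fun k _ n σ => rfl⟩
  | add a b _ _ ha hb =>
    obtain ⟨u, v, h1, h2⟩ := ha
    obtain ⟨u', v', h1', h2'⟩ := hb
    refine ⟨u + u' + u * (X ^ m * u'), v + v' + v * (X ^ m * v'), ?_, fun k _ n σ => ?_⟩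
    · have h3 : ∀ p q : H[X], (p * (X ^ m * q)).coeff 0 = 0 := by
        intro p q
        rw [mul_coeff_zero, mul_coeff_zero, coeff_X_pow, if_neg hm.ne, zero_mul, mul_zero]
      rw [coeff_add, coeff_add, coeff_add, coeff_add, h3, h3, ← h1, ← h1']
      abel
    · have h3 : ∀ p q : H[X], 1 + X ^ m * (p + q + p * (X ^ m * q)) =
          (1 + X ^ m * p) * (1 + X ^ m * q) := by
        intro p q
        noncomm_ring
      rw [h3, h3, map_mul, map_mul, det_mul, det_mul, h2, h2']
  | neg a _ ha =>
    obtain ⟨u, v, h1, h2⟩ := ha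
    exact ⟨v, u, by rw [← h1, neg_sub], fun k _ n σ => (h2 k n σ).symm⟩

variable {H : Type} [Ring H] {Λ : Type} {d : Λ → ℕ} {K : Type} [Field K]
  (R : ∀ l, H →+* Matrix (Fin (d l)) (Fin (d l)) K)

/-- Exactness. -/
theorem det_eq (htf : ∀ x, (∀ l, (R l x).trace = 0) → x ∈ Comm H) {k : Type} [Field k] {n : ℕ}
    (ψ : H →+* Matrix (Fin n) (Fin n) k) (P Q : H[X]) (hP : P.coeff 0 = 1) (hQ : Q.coeff 0 = 1)
    (h : ∀ l, (ev (R l) P).det = (ev (R l) Q).det) : (ev ψ P).det = (ev ψ Q).det := by
  have key : ∀ m : ℕ, ∃ (c : k[X]) (Q' b : H[X]), c.coeff 0 = 1 ∧ Q'.coeff 0 = 1 ∧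
      (∀ l, (ev (R l) (Q' + X ^ (m + 1) * b)).det = (ev (R l) Q').det) ∧
      (ev ψ (Q' + X ^ (m + 1) * b)).det = c * (ev ψ P).det ∧
      (ev ψ Q').det = c * (ev ψ Q).det := by
    intro m
    induction m with
    | zero =>
      obtain ⟨b, hb⟩ : (X : H[X]) ∣ P - Q := by
        rw [X_dvd_iff, coeff_sub, hP, hQ, sub_self]
      have hb' : Q + X ^ (0 + 1) * b = P := by
        rw [zero_add, pow_one, ← hb]
        abel
      refine ⟨1, Q, b, coeff_one_zero, hQ, fun l => ?_, ?_, (one_mul _).symm⟩
      · rw [hb', h]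
      · rw [hb', one_mul]
    | succ m ih =>
      obtain ⟨c, Q', b, hc, hQ', h1, h2, h3⟩ := ih
      have ha : b.coeff 0 ∈ Comm H := by
        apply htf
        intro l
        have h4 := h1 l
        rw [map_add, ev_X_pow_mul] at h4
        have h5 := trace_eq_zero (Nat.succ_pos m) (ev (R l) Q') (ev (R l) b)
          (by rw [ev_eval_zero, hQ', map_one]) h4
        rwa [ev_eval_zero] at h5
      obtain ⟨u, v, h4, h5⟩ := exists_pair (Nat.succ_pos m) ha
      have h6 : (b + (Q' + X ^ (m + 1) * b) * u - Q' * v).coeff 0 = 0 := by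
        rw [coeff_sub, coeff_add, mul_coeff_zero, mul_coeff_zero, coeff_add, mul_coeff_zero,
          coeff_X_pow, if_neg (Nat.succ_pos m).ne, hQ', zero_mul, add_zero, one_mul, one_mul, ← h4]
        abel
      obtain ⟨b', hb'⟩ := X_dvd_iff.2 h6
      have h7 : Q' * (1 + X ^ (m + 1) * v) + X ^ (m + 1 + 1) * b' =
          (Q' + X ^ (m + 1) * b) * (1 + X ^ (m + 1) * u) := by
        rw [pow_succ _ (m + 1), mul_assoc (X ^ (m + 1)) X b', ← hb']
        have h8 : Q' * (X ^ (m + 1) * v) = X ^ (m + 1) * (Q' * v) := by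
          rw [← mul_assoc, (commute_X_pow Q' (m + 1)).symm.eq, mul_assoc]
        have h9 : (Q' + X ^ (m + 1) * b) * (X ^ (m + 1) * u) =
            X ^ (m + 1) * ((Q' + X ^ (m + 1) * b) * u) := by
          rw [← mul_assoc, (commute_X_pow (Q' + X ^ (m + 1) * b) (m + 1)).symm.eq, mul_assoc]
        rw [mul_add, mul_add, mul_one, mul_one, h8, h9, mul_sub, mul_add]
        abel
      refine ⟨c * (ev ψ (1 + X ^ (m + 1) * u)).det, Q' * (1 + X ^ (m + 1) * v), b', ?_, ?_,
        fun l => ?_, ?_, ?_⟩
      · rw [mul_coeff_zero, hc, one_mul, coeff_zero_eq_eval_zero, ← coe_evalRingHom,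
          RingHom.map_det]
        have h8 : (evalRingHom (0 : k)).mapMatrix (ev ψ (1 + X ^ (m + 1) * u)) = 1 := by
          rw [RingHom.mapMatrix_apply]
          have h9 := ev_eval_zero ψ (1 + X ^ (m + 1) * u)
          rw [coeff_add, mul_coeff_zero, coeff_X_pow, if_neg (Nat.succ_pos m).ne, zero_mul,
            add_zero, coeff_one_zero, map_one] at h9
          exact h9
        rw [h8, det_one]
      · rw [mul_coeff_zero, hQ', one_mul, coeff_add, mul_coeff_zero, coeff_X_pow,
          if_neg (Nat.succ_pos m).ne, zero_mul, add_zero, coeff_one_zero]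
      · rw [h7, map_mul, map_mul, det_mul, det_mul, h1, h5]
      · rw [h7, map_mul, det_mul, h2]
        ring
      · rw [map_mul, det_mul, h3, h5]
        ring
  by_contra hne
  set D := (ev ψ P).det - (ev ψ Q).det with hD
  have hD0 : D ≠ 0 := sub_ne_zero.2 hne
  obtain ⟨c, Q', b, hc, -, -, h2, h3⟩ := key D.natTrailingDegree
  set j := D.natTrailingDegree
  have h4 : (X ^ (j + 1) : k[X]) ∣ c * D := by
    rw [hD, mul_sub, ← h2, ← h3, map_add, ev_X_pow_mul, ← Ideal.mem_span_singleton,
      ← Ideal.Quotient.eq_zero_iff_mem, map_sub, sub_eq_zero, RingHom.map_det, RingHom.map_det]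
    congr 1
    rw [map_add]
    have h5 : (Ideal.Quotient.mk (Ideal.span {(X ^ (j + 1) : k[X])})).mapMatrix
        ((X ^ (j + 1) : k[X]) • ev ψ b) = 0 := by
      ext p q
      rw [RingHom.mapMatrix_apply, Matrix.map_apply, Matrix.smul_apply, smul_eq_mul, map_mul,
        Ideal.Quotient.eq_zero_iff_mem.2 (Ideal.mem_span_singleton_self _), zero_mul]
      rfl
    rw [h5, add_zero]
  rw [X_pow_dvd_iff] at h4
  have h5 := h4 j (Nat.lt_succ_self j)
  have h6 : (c * D).coeff j = c.coeff 0 * D.coeff j := by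
    rw [coeff_mul, Finset.sum_eq_single (0, j)]
    · rintro ⟨a, b⟩ hab hne'
      rw [Finset.HasAntidiagonal.mem_antidiagonal] at hab
      simp only at hab ⊢
      have h7 : b < j := by
        rcases Nat.eq_zero_or_pos a with h0 | h0
        · exfalso
          apply hne'
          rw [h0, zero_add] at hab
          rw [h0, hab]
        · omega
      rw [coeff_eq_zero_of_lt_natTrailingDegree h7, mul_zero]
    · intro h7
      exact absurd (Finset.HasAntidiagonal.mem_antidiagonal.2 (zero_add j)) h7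
  rw [h6, hc, one_mul] at h5
  exact hD0 (trailingCoeff_eq_zero.1 h5)

end

end Pool.Agent.CMFn.Rk
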