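import Pool.Agent.CMFn.RkC0

/-! Project CMFn, module RkC1: determinants of quasi-idempotents and the relation between ranks. -/

namespace Pool.Agent.CMFn.Rk

open Matrix Polynomial

noncomputable section

/-- An idempotent matrix of rank `j` factors through `K^j`. -/
lemma exists_factor {K : Type} [Field K] {d j : ℕ} (A : Matrix (Fin d) (Fin d) K)
    (hA : A * A = A) (hj : A.rank = j) :
    ∃ (U : Matrix (Fin d) (Fin j) K) (V : Matrix (Fin j) (Fin d) K), U * V = A ∧ V * U = 1 := by
  let f : (Fin d → K) →ₗ[K] (Fin d → K) := A.mulVecLin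
  have hff : ∀ x, f (f x) = f x := fun x => by
    show A *ᵥ (A *ᵥ x) = A *ᵥ x
    rw [Matrix.mulVec_mulVec, hA]
  have hfin : Module.finrank K (LinearMap.range f) = j := hj
  let e : LinearMap.range f ≃ₗ[K] (Fin j → K) :=
    LinearEquiv.ofFinrankEq _ _ (by rw [hfin, Module.finrank_fin_fun])
  let u : (Fin j → K) →ₗ[K] (Fin d → K) := (LinearMap.range f).subtype ∘ₗ e.symm.toLinearMap
  let v : (Fin d → K) →ₗ[K] (Fin j → K) := e.toLinearMap ∘ₗ f.rangeRestrict
  have h1 : u ∘ₗ v = f := by
    refine LinearMap.ext fun x => ?_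
    show ((e.symm (e (f.rangeRestrict x)) : LinearMap.range f) : Fin d → K) = f x
    rw [LinearEquiv.symm_apply_apply]
    rfl
  have h2 : v ∘ₗ u = LinearMap.id := by
    refine LinearMap.ext fun x => ?_
    show e (f.rangeRestrict ((e.symm x : LinearMap.range f) : Fin d → K)) = x
    have h3 : f.rangeRestrict ((e.symm x : LinearMap.range f) : Fin d → K) = e.symm x := by
      apply Subtype.ext
      obtain ⟨y, hy⟩ := (e.symm x).2
      show f ((e.symm x : LinearMap.range f) : Fin d → K) = _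
      rw [← hy, hff]
    rw [h3, LinearEquiv.apply_symm_apply]
  refine ⟨LinearMap.toMatrix' u, LinearMap.toMatrix' v, ?_, ?_⟩
  · rw [← LinearMap.toMatrix'_comp, h1]
    exact LinearMap.toMatrix'_toLin' A
  · rw [← LinearMap.toMatrix'_comp, h2, LinearMap.toMatrix'_id]

/-- The determinant of `1 + X M`, `M` a quasi-idempotent of rank `j`. -/
lemma det_quasi {K : Type} [Field K] {d j : ℕ} (M : Matrix (Fin d) (Fin d) K) (c : K)
    (hc : c ≠ 0) (hM : M * M = c • M) (hj : M.rank = j) :
    (1 + (X : K[X]) • M.map C).det = (1 + C c * X) ^ j := by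
  have hA : (c⁻¹ • M) * (c⁻¹ • M) = c⁻¹ • M := by
    rw [smul_mul_smul_comm, hM, smul_smul, mul_assoc, inv_mul_cancel₀ hc, mul_one]
  obtain ⟨U, V, h1, h2⟩ := exists_factor (c⁻¹ • M) hA (j := j)
    (by rw [Matrix.rank_smul_of_mem_nonZeroDivisors _
      (mem_nonZeroDivisors_of_ne_zero (inv_ne_zero hc)), hj])
  have h3 : M = (c • U) * V := by
    rw [Matrix.smul_mul, h1, smul_smul, mul_inv_cancel₀ hc, one_smul]
  have h4 : (X : K[X]) • M.map C = ((X : K[X]) • (c • U).map C) * V.map C := by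
    rw [h3, Matrix.map_mul, Matrix.smul_mul]
  rw [h4, Matrix.det_one_add_mul_comm, Matrix.mul_smul, ← Matrix.map_mul, Matrix.mul_smul, h2]
  have h5 : (1 : Matrix (Fin j) (Fin j) K[X]) + (X : K[X]) • (c • (1 : Matrix (Fin j) (Fin j) K)).map C =
      (1 + C c * X) • 1 := by
    ext p q
    by_cases hpq : p = q
    · subst hpq
      simp
    · simp [hpq]
  rw [h5, Matrix.det_smul, Matrix.det_one, mul_one, Fintype.card_fin]

/-- Products of polynomials with prescribed determinants. -/
lemma exists_prod {H I : Type} [Ring H] (g : I → H[X]) (hg : ∀ i, (g i).coeff 0 = 1) (a : I → ℕ)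
    (s : Finset I) : ∃ P : H[X], P.coeff 0 = 1 ∧ ∀ (k : Type) [CommRing k] (n : ℕ)
      (σ : H →+* Matrix (Fin n) (Fin n) k),
      (ev σ P).det = ∏ i ∈ s, (ev σ (g i)).det ^ a i := by
  classical
  induction s using Finset.induction_on with
  | empty =>
    exact ⟨1, coeff_one_zero, fun k _ n σ => by rw [map_one, det_one, Finset.prod_empty]⟩
  | insert i s hi ih =>
    obtain ⟨P, hP, hd⟩ := ih
    refine ⟨g i ^ a i * P, ?_, fun k _ n σ => ?_⟩
    · rw [mul_coeff_zero, hP, mul_one]
      have h1 : constantCoeff (g i ^ a i) = 1 := by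
        rw [map_pow, constantCoeff_apply, hg, one_pow]
      exact h1
    · rw [map_mul, map_pow, det_mul, det_pow, hd, Finset.prod_insert hi]

variable {A H : Type} [CommRing A] [Ring H] [Algebra A H] {Λ : Type} {d : Λ → ℕ}
  {K : Type} [Field K] [Algebra A K] (R : ∀ l, H →+* Matrix (Fin (d l)) (Fin (d l)) K)
  {k : Type} [Field k] {n : ℕ} (ψ : H →+* Matrix (Fin n) (Fin n) k) (φ : A →+* k) (r : A)

/-- If the multiplicities of quasi-idempotents satisfy a linear relation, and all of them except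
the scalar one vanish in `ψ`, then `ψ` is zero. -/
theorem eq_zero_of_rel (hR : ∀ l a x, R l (a • x) = algebraMap A K a • R l x)
    (hψ : ∀ a x, ψ (a • x) = φ a • ψ x) (h1 : algebraMap A K r ≠ 0) (h2 : φ r ≠ 0)
    (htf : ∀ x, (∀ l, (R l x).trace = 0) → r • x ∈ Comm H) {I : Type} [Fintype I]
    (f : I → H) (Δ : A) (hΔ : algebraMap A K Δ ≠ 0) (hφΔ : φ Δ ≠ 0)
    (hf : ∀ i, f i * f i = Δ • f i) (m : I → Λ → ℕ) (hm : ∀ i l, (R l (f i)).rank = m i l)
    (c : I → ℤ) (N : ℕ) (hN : 0 < N) (hrel : ∀ l, (N : ℤ) * d l = ∑ i, c i * m i l)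
    (hψf : ∀ i, ψ (f i) = 0) : n = 0 := by
  let g : Option I → H := fun o => o.elim (Δ • 1) f
  let a : Option I → ℤ := fun o => o.elim (-N) c
  have hg0 : ∀ o, ((1 : H[X]) + X * C (g o)).coeff 0 = 1 := by
    intro o
    rw [coeff_add, coeff_one_zero, mul_coeff_zero, coeff_X_zero, zero_mul, add_zero]
  have hev : ∀ (κ : Type) [CommRing κ] (e : ℕ) (σ : H →+* Matrix (Fin e) (Fin e) κ) (x : H),
      ev σ (1 + X * C x) = 1 + (X : κ[X]) • (σ x).map C := by
    intro κ _ e σ x
    have h3 := ev_X_pow_mul σ 1 (C x)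
    rw [pow_one, pow_one] at h3
    rw [map_add, map_one, h3, ev_C]
  obtain ⟨P, hP, hPd⟩ := exists_prod (fun o => 1 + X * C (g o)) hg0 (fun o => (a o).toNat)
    Finset.univ
  obtain ⟨Q, hQ, hQd⟩ := exists_prod (fun o => 1 + X * C (g o)) hg0 (fun o => (-a o).toNat)
    Finset.univ
  have hdet : ∀ l, (ev (R l) P).det = (ev (R l) Q).det := by
    intro l
    let M : Option I → ℕ := fun o => o.elim (d l) fun i => m i l
    have h3 : ∀ o, (ev (R l) (1 + X * C (g o))).det = (1 + C (algebraMap A K Δ) * X) ^ M o := by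
      intro o
      rw [hev]
      apply det_quasi _ _ hΔ
      · rw [← map_mul, ← hR]
        congr 1
        cases o with
        | none => show Δ • (1 : H) * Δ • 1 = Δ • Δ • 1; rw [smul_mul_smul_comm, one_mul, smul_smul]
        | some i => exact hf i
      · cases o with
        | none =>
          show (R l (Δ • 1)).rank = d l
          rw [hR, map_one, Matrix.rank_smul_of_mem_nonZeroDivisors _
            (mem_nonZeroDivisors_of_ne_zero hΔ), Matrix.rank_one, Fintype.card_fin]
        | some i => exact hm i l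
    rw [hPd, hQd]
    simp only [h3, ← pow_mul]
    rw [Finset.prod_pow_eq_pow_sum, Finset.prod_pow_eq_pow_sum]
    congr 1
    have h4 : ((∑ o, M o * (a o).toNat : ℕ) : ℤ) - ((∑ o, M o * (-a o).toNat : ℕ) : ℤ) = 0 := by
      push_cast
      rw [← Finset.sum_sub_distrib]
      have h5 : ∀ o, (M o : ℤ) * ((a o).toNat : ℤ) - (M o : ℤ) * ((-a o).toNat : ℤ) =
          M o * a o := by
        intro o
        rw [← mul_sub, Int.toNat_sub_toNat_neg]
      simp only [h5]
      rw [Fintype.sum_option]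
      show (d l : ℤ) * (-N) + ∑ i, (m i l : ℤ) * c i = 0
      have h6 : ∑ i, (m i l : ℤ) * c i = ∑ i, c i * m i l :=
        Finset.sum_congr rfl fun i _ => mul_comm _ _
      rw [h6, ← hrel l]
      ring
    omega
  have key := det_eq_loc R ψ φ r hR hψ h1 h2 htf P Q hP hQ hdet
  have h3 : ∀ i : I, (ev ψ (1 + X * C (g (some i)))).det = 1 := by
    intro i
    rw [hev]
    show (1 + (X : k[X]) • (ψ (f i)).map C).det = 1
    rw [hψf, Matrix.map_zero _ C_0, smul_zero, add_zero, det_one]
  have h4 : (ev ψ (1 + X * C (g none))).det = (1 + C (φ Δ) * X) ^ n := by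
    rw [hev]
    apply det_quasi _ _ hφΔ
    · show ψ (Δ • 1) * ψ (Δ • 1) = φ Δ • ψ (Δ • 1)
      rw [hψ, map_one, smul_mul_smul_comm, one_mul, smul_smul]
    · show (ψ (Δ • 1)).rank = n
      rw [hψ, map_one, Matrix.rank_smul_of_mem_nonZeroDivisors _
        (mem_nonZeroDivisors_of_ne_zero hφΔ), Matrix.rank_one, Fintype.card_fin]
  rw [hPd, hQd, Fintype.prod_option, Fintype.prod_option] at key
  simp only [h3, one_pow, Finset.prod_const_one, mul_one, h4] at key
  have h5 : (a none).toNat = 0 := Int.toNat_eq_zero.2 (by show -(N : ℤ) ≤ 0; omega)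
  have h6 : (-a none).toNat = N := by show (-(-(N : ℤ))).toNat = N; omega
  rw [h5, h6, pow_zero, ← pow_mul] at key
  have h7 := congrArg Polynomial.natDegree key
  rw [natDegree_one, natDegree_pow] at h7
  have h8 : (1 + C (φ Δ) * X : k[X]).natDegree = 1 := by
    rw [add_comm, ← C_1]
    exact natDegree_linear hφΔ
  rw [h8, mul_one] at h7
  rcases Nat.mul_eq_zero.1 h7.symm with h9 | h9
  · exact h9
  · omega

end

end Pool.Agent.CMFn.Rk
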