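import Pool.Agent.CMFn.ModL
import Pool.Agent.CMFn.RkC1

/-! Project CMFn, module RkC: the rank criterion.  If the dimensions of the characters in an
integral set `E` are a rational combination of the multiplicities of quasi-idempotents each of
which vanishes on `F` or on `E ∖ F`, then `F` is integral. -/

set_option linter.unusedSectionVars false

namespace Pool.Agent.CMF

open Matrix Polynomial

noncomputable section

variable {Z : Type} [CommRing Z] [IsDomain Z] {ι : Type} {D : HData Z ι}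

lemma one1_mem {p : Ideal Z} {x : Lau Z ι} (hx : x ∈ MX.PP ι p) : one1 Z ι x ∈ p := by
  have h1 : (Ideal.Quotient.mk p).comp (one1 Z ι) = (one1 (Z ⧸ p) ι).comp
      (AddMonoidAlgebra.mapRingHom (ι →₀ ℤ) (Ideal.Quotient.mk p)) := by
    apply AddMonoidAlgebra.ringHom_ext
    · intro z
      simp [one1]
    · intro a
      simp [one1]
  have h2 : AddMonoidAlgebra.mapRingHom (ι →₀ ℤ) (Ideal.Quotient.mk p) x = 0 := hx
  have h3 := RingHom.congr_fun h1 x
  rw [RingHom.comp_apply, RingHom.comp_apply, h2, map_zero] at h3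
  exact Ideal.Quotient.eq_zero_iff_mem.1 h3

lemma X_of_R {l : D.Λ} {y x : D.H} {s : Lau Z ι} (hy : D.R l y = algebraMap (Lau Z ι) D.K s • 1) :
    D.X l (y * x) = s * D.X l x := by
  apply D.injK
  rw [← D.trR, map_mul, hy, smul_mul_assoc, one_mul, Matrix.trace_smul, D.trR, map_mul,
    smul_eq_mul]

/-- The rank criterion at one prime. -/
theorem rank_sep [Algebra Z ℂ] [IsDedekindDomain Z] [Fintype ι] [IsFractionRing (Lau Z ι) D.K]
    {p : Ideal Z} [hp : p.IsMaximal] (hp0 : p ≠ ⊥) {r : Lau Z ι} (hr : one1 Z ι r = 1)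
    (htf : ∀ x : D.H, (∀ l, D.X l x = 0) → r • x ∈ CMFn.Rk.Comm D.H)
    {E F : D.Λ → Prop} (hE : IntAt D p E) (hFE : ∀ l, F l → E l) {I : Type} [Fintype I]
    (f : I → D.H) (δ : I → Lau Z ι) (hδ : ∀ i, δ i ∉ MX.PP ι p) (hf : ∀ i, f i * f i = δ i • f i)
    (j : I → D.Λ → ℕ) (hX : ∀ i l, E l → D.X l (f i) = (j i l : Lau Z ι) * δ i)
    (hpure : ∀ i, (∀ l, F l → j i l = 0) ∨ (∀ l, E l → ¬ F l → j i l = 0))
    (c : I → ℤ) (N : ℕ) (hN : 0 < N) (hd : ∀ l, E l → (N : ℤ) * D.d l = ∑ i, c i * j i l) :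
    IntAt D p F := by
  classical
  have hpp := hp.isPrime
  have hfin : Module.Finite (Lau Z ι) D.H := Module.Finite.of_basis D.b
  obtain ⟨s, y, hs, hy⟩ := hE
  -- the common denominator
  set Δ : Lau Z ι := s * ∏ i, δ i with hΔ
  have hΔp : Δ ∉ MX.PP ι p := fun h => ((MX.PP_prime p).mem_or_mem h).elim hs fun h1 => by
    obtain ⟨i, -, hi⟩ := (MX.PP_prime p).prod_mem_iff.1 h1
    exact hδ i hi
  have hΔ0 : Δ ≠ 0 := fun h => hΔp (h ▸ Ideal.zero_mem _)
  have hs0 : s ≠ 0 := fun h => hs (h ▸ Ideal.zero_mem _)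
  have hrp : r ∉ MX.PP ι p := fun h => hpp.ne_top ((Ideal.eq_top_iff_one p).2 (hr ▸ one1_mem h))
  have hr0 : r ≠ 0 := fun h => hrp (h ▸ Ideal.zero_mem _)
  have hK : ∀ a : Lau Z ι, a ≠ 0 → algebraMap (Lau Z ι) D.K a ≠ 0 := fun a ha h =>
    ha (D.injK (h.trans (map_zero _).symm))
  have hdvd : ∀ i, (∏ i' ∈ Finset.univ.erase i, δ i') * (s * δ i) = Δ := by
    intro i
    rw [hΔ, ← Finset.prod_erase_mul _ _ (Finset.mem_univ i)]
    ring
  let e : I → Lau Z ι := fun i => ∏ i' ∈ Finset.univ.erase i, δ i'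
  let g : Option I → D.H := fun o => o.elim ((∏ i, δ i) • (s • 1 - y)) fun i => e i • (y * f i)
  let m : Option I → D.Λ → ℕ := fun o l => o.elim (if E l then 0 else D.d l)
    fun i => if E l then j i l else 0
  -- the matrices
  have hRs : ∀ l, D.R l (s • 1 - y) = if E l then 0 else algebraMap (Lau Z ι) D.K s • 1 := by
    intro l
    rw [map_sub, D.R_smul, map_one]
    split_ifs with hl
    · rw [(hy l).1 hl, sub_self]
    · rw [(hy l).2 hl, sub_zero]
  have hgg : ∀ o, g o * g o = Δ • g o := by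
    intro o
    rw [← sub_eq_zero]
    apply D.R_inj
    intro l
    rw [map_sub, map_mul, D.R_smul, sub_eq_zero]
    cases o with
    | none =>
      show D.R l ((∏ i, δ i) • (s • 1 - y)) * D.R l ((∏ i, δ i) • (s • 1 - y)) =
        _ • D.R l ((∏ i, δ i) • (s • 1 - y))
      rw [D.R_smul, hRs]
      split_ifs with hl
      · rw [smul_zero, mul_zero, smul_zero]
      · rw [smul_smul, smul_mul_smul_comm, one_mul, smul_smul, ← map_mul, hΔ]
        congr 1
        rw [← map_mul, ← map_mul]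
        congr 1
        ring
    | some i =>
      show D.R l (e i • (y * f i)) * D.R l (e i • (y * f i)) = _ • D.R l (e i • (y * f i))
      rw [D.R_smul, map_mul]
      by_cases hl : E l
      · have h1 : D.R l (f i) * D.R l (f i) = algebraMap (Lau Z ι) D.K (δ i) • D.R l (f i) := by
          rw [← map_mul, hf, D.R_smul]
        have h0 : (algebraMap (Lau Z ι) D.K s • (1 : Matrix _ _ D.K)) * D.R l (f i) =
            algebraMap (Lau Z ι) D.K s • D.R l (f i) := by rw [smul_mul_assoc, one_mul]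
        rw [(hy l).1 hl, h0, smul_smul, smul_mul_smul_comm, h1, smul_smul, smul_smul, ← hdvd i]
        congr 1
        simp only [map_mul, e]
        ring
      · rw [(hy l).2 hl, zero_mul, smul_zero, mul_zero, smul_zero]
  have hXg : ∀ o l, D.X l (g o) = (m o l : Lau Z ι) * Δ := by
    intro o l
    cases o with
    | none =>
      show D.X l ((∏ i, δ i) • (s • 1 - y)) = ((if E l then 0 else D.d l : ℕ) : Lau Z ι) * Δ
      apply D.injK
      rw [← D.trR, D.R_smul, hRs]
      split_ifs with hl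
      · rw [smul_zero, Matrix.trace_zero, Nat.cast_zero, zero_mul, map_zero]
      · rw [smul_smul, Matrix.trace_smul, Matrix.trace_one, Fintype.card_fin, smul_eq_mul, hΔ,
          map_mul, map_mul, map_natCast]
        ring
    | some i =>
      show D.X l (e i • (y * f i)) = ((if E l then j i l else 0 : ℕ) : Lau Z ι) * Δ
      rw [map_smul]
      split_ifs with hl
      · rw [X_of_R ((hy l).1 hl), hX i l hl, ← hdvd i, smul_eq_mul]
        ring
      · have h1 : D.R l y = algebraMap (Lau Z ι) D.K 0 • 1 := by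
          rw [(hy l).2 hl, map_zero, zero_smul]
        rw [X_of_R h1, zero_mul, smul_zero, Nat.cast_zero, zero_mul]
  have hm : ∀ o l, (D.R l (g o)).rank = m o l := fun o l => rank_R hΔ0 (hgg o) (hXg o l)
  obtain ⟨s', y', hs', hy'⟩ := sep_at_prime (K := D.K) (MX.PP ι p) (MX.pid p hp0)
    D.d D.d_pos (MX.RA D) (MX.span_RA D) F (by
      intro l l' hl hl' k _ φ hφ n ψ hn hsm hirr h1 h2
      have hφ0 : ∀ a, a ∉ MX.PP ι p → φ a ≠ 0 := fun a ha h => ha ((hφ a).1 h)
      have hzero : ∀ (l : D.Λ) (x : D.H), (∀ x, (ψ x).rank ≤ (D.R l x).rank) → D.R l x = 0 →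
          ψ x = 0 := by
        intro l x h3 h4
        apply MX.eq_zero_of_rank
        refine (h3 x).trans ?_
        rw [h4, Matrix.rank_zero]
      have hm0 : ∀ o l, m o l = 0 → D.R l (g o) = 0 := by
        intro o l h3
        apply MX.eq_zero_of_rank
        rw [hm, h3]
      have h5 : ψ (g none) = 0 := hzero l _ h1 (hm0 none l (if_pos (hFE l hl)))
      have hEl' : E l' := by
        by_contra hne
        have h3 : ψ y = 0 := hzero l' _ h2 ((hy l').2 hne)
        have h4 : ψ (g none) = φ Δ • 1 := by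
          show ψ ((∏ i, δ i) • (s • 1 - y)) = φ Δ • 1
          rw [hsm, map_sub, hsm, map_one, h3, sub_zero, smul_smul, ← map_mul, hΔ, mul_comm]
        rw [h5] at h4
        have h6 := congrFun (congrFun h4 ⟨0, hn⟩) ⟨0, hn⟩
        rw [Matrix.smul_apply, Matrix.one_apply_eq, Matrix.zero_apply, smul_eq_mul, mul_one] at h6
        exact hφ0 Δ hΔp h6.symm
      have h6 : ∀ o, ψ (g o) = 0 := by
        intro o
        cases o with
        | none => exact h5
        | some i =>
          rcases hpure i with h7 | h7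
          · refine hzero l _ h1 (hm0 (some i) l ?_)
            show (if E l then j i l else 0) = 0
            rw [h7 l hl, ite_self]
          · refine hzero l' _ h2 (hm0 (some i) l' ?_)
            show (if E l' then j i l' else 0) = 0
            rw [h7 l' hEl' hl', ite_self]
      have h7 := CMFn.Rk.eq_zero_of_rel (fun l => D.R l) ψ φ r (fun l a x => D.R_smul l a x) hsm
        (hK r hr0) (hφ0 r hrp) (fun x hx => htf x fun l => by
          apply D.injK
          rw [← D.trR, hx l, map_zero]) g Δ (hK Δ hΔ0) (hφ0 Δ hΔp) hgg m hm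
        (fun o => o.elim (N : ℤ) c) N hN (fun l => by
          rw [Fintype.sum_option]
          show (N : ℤ) * D.d l = (N : ℤ) * ((if E l then 0 else D.d l : ℕ) : ℤ) +
            ∑ i, c i * ((if E l then j i l else 0 : ℕ) : ℤ)
          split_ifs with hl
          · rw [hd l hl, Nat.cast_zero, mul_zero, zero_add]
          · simp) h6
      omega)
  exact ⟨s', y', hs', fun l => hy' l⟩

/-- The rank criterion. -/
theorem isInt_of_rank [Algebra Z ℂ] [IsDedekindDomain Z] [Fintype ι]
    [IsFractionRing (Lau Z ι) D.K] {M : ℕ} {Q : KZData D M} {C : (ι →₀ ℤ) → Prop}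
    (hinj : Function.Injective (algebraMap Z ℂ)) (hM : 0 < M) (Φ : SchurFac D)
    (hC : ∀ l i, Φ.E l i ≠ 0 → ∀ j : ℕ, 0 < j → C (j • Φ.E l i))
    {r : Lau Z ι} (hr : one1 Z ι r = 1)
    (htf : ∀ x : D.H, (∀ l, D.X l x = 0) → r • x ∈ CMFn.Rk.Comm D.H)
    {E F : D.Λ → Prop} (hE : IsInt Q C E) (hFE : ∀ l, F l → E l) {I : Type} [Fintype I]
    (f : I → D.H) (δ : I → Lau Z ι) (hδ : ∀ (p : Ideal Z), p.IsPrime → ∀ i, δ i ∉ MX.PP ι p)
    (hf : ∀ i, f i * f i = δ i • f i)
    (j : I → D.Λ → ℕ) (hX : ∀ i l, E l → D.X l (f i) = (j i l : Lau Z ι) * δ i)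
    (hpure : ∀ i, (∀ l, F l → j i l = 0) ∨ (∀ l, E l → ¬ F l → j i l = 0))
    (c : I → ℤ) (N : ℕ) (hN : 0 < N) (hd : ∀ l, E l → (N : ℤ) * D.d l = ∑ i, c i * j i l) :
    IsInt Q C F :=
  isInt_of_intAt hinj Φ hC fun p hp hp0 => by
    have hpp := hp.isPrime
    exact rank_sep hp0 hr htf (hE.intAt hinj hM) hFE f δ (hδ p hpp) hf j hX hpure c N hN hd

/-- The denominators which occur. -/
lemma dlt_ok {J : Type} [Fintype J] (P : J → (ι →₀ ℤ) × (ι →₀ ℤ)) (hP : ∀ j, (P j).1 ≠ (P j).2)
    (p : Ideal Z) (hp : p.IsPrime) : dlt Z P ∉ MX.PP ι p := MX.dlt_notMem P hP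

end

end Pool.Agent.CMF
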