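import Pool.Agent.CMFn.RkA

/-! Project CMFn, module RkC0: exactness up to a scalar. -/

namespace Pool.Agent.CMFn.Rk

open Matrix Polynomial

noncomputable section

lemma ev_map {H H' K : Type} [Ring H] [Ring H'] [CommRing K] {d : ℕ} (f : H →+* H')
    (R : H' →+* Matrix (Fin d) (Fin d) K) (P : H[X]) : ev R (P.map f) = ev (R.comp f) P := by
  ext i j m
  rw [ev_coeff, ev_coeff, coeff_map, RingHom.comp_apply]

section loc

variable {H B : Type} [Ring H] [Ring B] (θ : H →+* B) (s : H → H) (ρ σ : B)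
  (hρ : ∀ y, Commute ρ y) (hσ : ∀ y, Commute σ y) (hσρ : σ * ρ = 1)
  (hs : ∀ x, θ (s x) = ρ * θ x)

include hs in
lemma th_iter (m : ℕ) (x : H) : θ (s^[m] x) = ρ ^ m * θ x := by
  induction m with
  | zero => rw [pow_zero, one_mul]; rfl
  | succ m ih => rw [Function.iterate_succ', Function.comp_apply, hs, ih, pow_succ', mul_assoc]

/-- The localised algebra. -/
def Hr : Subring B where
  carrier := {y | ∃ (N : ℕ) (x : H), ρ ^ N * y = θ x}
  mul_mem' {a b} := by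
    rintro ⟨N, x, hx⟩ ⟨M, y, hy⟩
    refine ⟨N + M, x * y, ?_⟩
    rw [map_mul, ← hx, ← hy, pow_add, mul_assoc, mul_assoc]
    congr 1
    rw [← mul_assoc, ← mul_assoc, ((hρ a).pow_left M).eq]
  one_mem' := ⟨0, 1, by rw [pow_zero, one_mul, map_one]⟩
  add_mem' {a b} := by
    rintro ⟨N, x, hx⟩ ⟨M, y, hy⟩
    refine ⟨N + M, s^[M] x + s^[N] y, ?_⟩
    rw [map_add, th_iter θ s ρ hs, th_iter θ s ρ hs, ← hx, ← hy, mul_add,
      ← mul_assoc, ← mul_assoc, ← pow_add, ← pow_add, Nat.add_comm M N]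
  zero_mem' := ⟨0, 0, by rw [mul_zero, map_zero]⟩
  neg_mem' {a} := by
    rintro ⟨N, x, hx⟩
    exact ⟨N, -x, by rw [mul_neg, hx, map_neg]⟩

include hσ hσρ in
lemma sig_pow (N : ℕ) (y : B) : ρ ^ N * (σ ^ N * y) = y := by
  have h1 : ρ * σ = 1 := by rw [← (hσ ρ).eq, hσρ]
  have h2 : ρ ^ N * σ ^ N = 1 := by rw [← ((hσ ρ).symm).mul_pow, h1, one_pow]
  rw [← mul_assoc, h2, one_mul]

include hσ hσρ in
lemma sig_mem (N : ℕ) (x : H) : σ ^ N * θ x ∈ Hr θ s ρ hρ hs :=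
  ⟨N, x, sig_pow ρ σ hσ hσρ N (θ x)⟩

lemma sig_comm (N : ℕ) (z : H) (hz : z ∈ Comm H) :
    (⟨σ ^ N * θ z, sig_mem θ s ρ σ hρ hσ hσρ hs N z⟩ : Hr θ s ρ hρ hs) ∈
      Comm (Hr θ s ρ hρ hs) := by
  have h0 : ∀ x : H, σ ^ N * θ x ∈ Hr θ s ρ hρ hs := sig_mem θ s ρ σ hρ hσ hσρ hs N
  show (⟨σ ^ N * θ z, h0 z⟩ : Hr θ s ρ hρ hs) ∈ Comm (Hr θ s ρ hρ hs)
  induction hz using AddSubgroup.closure_induction with
  | mem z hz =>
    obtain ⟨a, b, rfl⟩ := hz
    apply AddSubgroup.subset_closure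
    refine ⟨⟨σ ^ N * θ a, h0 a⟩, ⟨θ b, 0, b, by rw [pow_zero, one_mul]⟩, Subtype.ext ?_⟩
    show σ ^ N * θ (a * b - b * a) = σ ^ N * θ a * θ b - θ b * (σ ^ N * θ a)
    rw [map_sub, map_mul, map_mul, mul_sub, ← mul_assoc, ← mul_assoc, ← mul_assoc,
      ((hσ (θ b)).pow_left N).eq]
  | zero =>
    have h3 : (⟨σ ^ N * θ 0, h0 0⟩ : Hr θ s ρ hρ hs) = 0 :=
      Subtype.ext (by show σ ^ N * θ 0 = 0; rw [map_zero, mul_zero])
    rw [h3]
    exact zero_mem _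
  | add x y _ _ hx hy =>
    have h3 : (⟨σ ^ N * θ (x + y), h0 (x + y)⟩ : Hr θ s ρ hρ hs) =
        ⟨σ ^ N * θ x, h0 x⟩ + ⟨σ ^ N * θ y, h0 y⟩ :=
      Subtype.ext (by
        show σ ^ N * θ (x + y) = σ ^ N * θ x + σ ^ N * θ y
        rw [map_add, mul_add])
    rw [h3]
    exact add_mem hx hy
  | neg x _ hx =>
    have h3 : (⟨σ ^ N * θ (-x), h0 (-x)⟩ : Hr θ s ρ hρ hs) = -⟨σ ^ N * θ x, h0 x⟩ :=
      Subtype.ext (by
        show σ ^ N * θ (-x) = -(σ ^ N * θ x)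
        rw [map_neg, mul_neg])
    rw [h3]
    exact neg_mem hx

include hρ hσ hσρ hs in
/-- Exactness in a localised algebra. -/
theorem det_eq_aux {Λ : Type} {d : Λ → ℕ} {K : Type} [Field K]
    (R : ∀ l, B →+* Matrix (Fin (d l)) (Fin (d l)) K) (c : Λ → K) (hc : ∀ l, R l ρ = c l • 1)
    (htf : ∀ x, (∀ l, (R l (θ x)).trace = 0) → s x ∈ Comm H) {k : Type} [Field k] {n : ℕ}
    (ψ : B →+* Matrix (Fin n) (Fin n) k) (P Q : H[X]) (hP : P.coeff 0 = 1) (hQ : Q.coeff 0 = 1)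
    (h : ∀ l, (ev ((R l).comp θ) P).det = (ev ((R l).comp θ) Q).det) :
    (ev (ψ.comp θ) P).det = (ev (ψ.comp θ) Q).det := by
  let H' := Hr θ s ρ hρ hs
  let θ' : H →+* H' := θ.codRestrict H' fun x => ⟨0, x, by rw [pow_zero, one_mul]⟩
  have key := det_eq (fun l => (R l).comp H'.subtype) (fun y hy => ?_) (ψ.comp H'.subtype)
    (P.map θ') (Q.map θ') (by rw [coeff_map, hP, map_one]) (by rw [coeff_map, hQ, map_one])
    (fun l => by rw [ev_map, ev_map]; exact h l)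
  · rw [ev_map, ev_map] at key
    exact key
  · obtain ⟨y, N, x, hx⟩ := y
    have h1 : ∀ l, (R l (θ x)).trace = 0 := by
      intro l
      have h2 := hy l
      change (R l y).trace = 0 at h2
      rw [← hx, map_mul, map_pow, hc, _root_.smul_pow, one_pow, smul_mul_assoc, one_mul,
        Matrix.trace_smul, h2, smul_zero]
    have h3 := sig_comm θ s ρ σ hρ hσ hσρ hs (N + 1) _ (htf x h1)
    have h4 : σ ^ (N + 1) * θ (s x) = y := by
      rw [hs, ← hx, pow_succ, mul_assoc, ← mul_assoc σ ρ, hσρ, one_mul, ← mul_assoc,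
        ← (hσ ρ).mul_pow, hσρ, one_pow, one_mul]
    have h5 : (⟨σ ^ (N + 1) * θ (s x), sig_mem θ s ρ σ hρ hσ hσρ hs (N + 1) (s x)⟩ :
        Hr θ s ρ hρ hs) = ⟨y, N, x, hx⟩ := Subtype.ext h4
    rw [h5] at h3
    exact h3

end loc

/-- Exactness up to a scalar. -/
theorem det_eq_loc {A H : Type} [CommRing A] [Ring H] [Algebra A H] {Λ : Type} {d : Λ → ℕ}
    {K : Type} [Field K] [Algebra A K] (R : ∀ l, H →+* Matrix (Fin (d l)) (Fin (d l)) K)
    {k : Type} [Field k] {n : ℕ} (ψ : H →+* Matrix (Fin n) (Fin n) k) (φ : A →+* k) (r : A)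
    (hR : ∀ l a x, R l (a • x) = algebraMap A K a • R l x)
    (hψ : ∀ a x, ψ (a • x) = φ a • ψ x) (h1 : algebraMap A K r ≠ 0) (h2 : φ r ≠ 0)
    (htf : ∀ x, (∀ l, (R l x).trace = 0) → r • x ∈ Comm H) (P Q : H[X])
    (hP : P.coeff 0 = 1) (hQ : Q.coeff 0 = 1)
    (h : ∀ l, (ev (R l) P).det = (ev (R l) Q).det) : (ev ψ P).det = (ev ψ Q).det := by
  let B := (∀ l, Matrix (Fin (d l)) (Fin (d l)) K) × Matrix (Fin n) (Fin n) k
  let θ : H →+* B := (RingHom.pi R).prod ψ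
  let ρ : B := (fun _ => algebraMap A K r • 1, φ r • 1)
  let σ : B := (fun _ => (algebraMap A K r)⁻¹ • 1, (φ r)⁻¹ • 1)
  have hcen : ∀ (a : K) (b : k) (y : B), Commute ((fun _ => a • 1, b • 1) : B) y := by
    intro a b y
    refine Prod.ext (funext fun l => ?_) ?_
    · rw [Prod.fst_mul, Prod.fst_mul, Pi.mul_apply, Pi.mul_apply, smul_mul_assoc, one_mul,
        mul_smul_comm, mul_one]
    · rw [Prod.snd_mul, Prod.snd_mul, smul_mul_assoc, one_mul, mul_smul_comm, mul_one]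
  have hσρ : σ * ρ = 1 := by
    refine Prod.ext (funext fun l => ?_) ?_
    · rw [Prod.fst_mul, Pi.mul_apply, smul_mul_smul_comm, inv_mul_cancel₀ h1, one_mul, one_smul]
      rfl
    · rw [Prod.snd_mul, smul_mul_smul_comm, inv_mul_cancel₀ h2, one_mul, one_smul]
      rfl
  have hs : ∀ x : H, θ (r • x) = ρ * θ x := by
    intro x
    refine Prod.ext (funext fun l => ?_) ?_
    · rw [Prod.fst_mul, Pi.mul_apply, smul_mul_assoc, one_mul]
      exact hR l r x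
    · rw [Prod.snd_mul, smul_mul_assoc, one_mul]
      exact hψ r x
  exact det_eq_aux θ (fun x => r • x) ρ σ (hcen _ _) (hcen _ _) hσρ hs
    (fun l => (Pi.evalRingHom _ l).comp (RingHom.fst _ _)) (fun _ => algebraMap A K r)
    (fun l => rfl) htf (RingHom.snd _ _) P Q hP hQ h

end

end Pool.Agent.CMFn.Rk
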