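import Pool.Agent.CMFn.ModF

/-! Project CMFn, module RkM: elements of the generic Hecke algebra with vanishing characters are
sums of commutators, up to a factor with value `1` at `v = 1` (helper23's Lemma M). -/

set_option linter.unusedSectionVars false

namespace Pool.Agent.CMF

open Matrix

noncomputable section

/-! ### The group -/

section grp

variable {G : Type} [Group G] [Fintype G] {Λ : Type} [Fintype Λ] {d : Λ → ℕ}
  {R : ∀ l, G →* Matrix (Fin (d l)) (Fin (d l)) ℂ}

open CMFn.ZeroX in
/-- The columns of the character table are independent. -/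
theorem col_indep (hR : Function.Bijective (four R)) {C : Type} [Fintype C] (g : C → G)
    (hg : ∀ i j, (∃ x, x * g i * x⁻¹ = g j) → i = j) (a : C → ℂ)
    (h : ∀ l, ∑ i, a i * (R l (g i)).trace = 0) : a = 0 := by
  classical
  let z : G → ℂ := fun y => ∑ x : G, ∑ i, if x * g i * x⁻¹ = y then a i else 0
  have hz : ∀ l, four R z l = ∑ x : G, ∑ i, a i • R l (x * g i * x⁻¹) := by
    intro l
    rw [four_apply]
    simp only [z, Finset.sum_smul, ite_smul, zero_smul]
    rw [Finset.sum_comm]
    refine Finset.sum_congr rfl fun x _ => ?_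
    rw [Finset.sum_comm]
    refine Finset.sum_congr rfl fun i _ => ?_
    rw [Finset.sum_ite_eq, if_pos (Finset.mem_univ _)]
  have hz0 : z = 0 := by
    apply hR.1
    rw [map_zero]
    funext l
    rw [Pi.zero_apply]
    set F := four R z l with hF
    have hcom : ∀ y, R l y * F = F * R l y := by
      intro y
      rw [hF, hz l, Finset.mul_sum, Finset.sum_mul]
      refine Fintype.sum_equiv (Equiv.mulLeft y) _ _ fun x => ?_
      show R l y * ∑ i, a i • R l (x * g i * x⁻¹) = (∑ i, a i • R l (y * x * g i * (y * x)⁻¹)) * R l y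
      rw [Finset.mul_sum, Finset.sum_mul]
      refine Finset.sum_congr rfl fun i _ => ?_
      rw [mul_smul_comm, smul_mul_assoc, ← map_mul, ← map_mul]
      congr 2
      group
    have hcom2 : ∀ A : Matrix (Fin (d l)) (Fin (d l)) ℂ, A * F = F * A := by
      intro A
      obtain ⟨c, hc⟩ := hR.2 (Pi.single l A)
      have h1 : A = ∑ y, c y • R l y := by
        have h2 := congrFun hc l
        rw [Pi.single_eq_same, four_apply] at h2
        exact h2.symm
      rw [h1, Finset.sum_mul, Finset.mul_sum]
      refine Finset.sum_congr rfl fun y _ => ?_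
      rw [smul_mul_assoc, mul_smul_comm, hcom]
    have hmem : F ∈ Set.range (Matrix.scalar (Fin (d l)) (α := ℂ)) := by
      rw [Matrix.mem_range_scalar_iff_commute_single']
      intro i j
      exact hcom2 _
    obtain ⟨c, hc⟩ := hmem
    have hc' : F = c • 1 := by
      rw [← hc, Matrix.smul_one_eq_diagonal]
      rfl
    have htr : F.trace = 0 := by
      rw [hF, hz l, Matrix.trace_sum]
      refine Finset.sum_eq_zero fun x _ => ?_
      rw [Matrix.trace_sum, ← h l]
      refine Finset.sum_congr rfl fun i _ => ?_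
      rw [Matrix.trace_smul, smul_eq_mul, map_mul, Matrix.trace_mul_comm, ← map_mul,
        inv_mul_cancel_left]
    rw [hc', Matrix.trace_smul, Matrix.trace_one, Fintype.card_fin, smul_eq_mul] at htr
    rcases mul_eq_zero.1 htr with h3 | h3
    · rw [hc', h3, zero_smul]
    · have h4 : d l = 0 := Nat.cast_eq_zero.1 h3
      have h5 : IsEmpty (Fin (d l)) := by rw [h4]; infer_instance
      exact Subsingleton.elim _ _
  funext j
  have h1 := congrFun hz0 (g j)
  have h2 : z (g j) = ((Finset.univ.filter fun x : G => x * g j * x⁻¹ = g j).card : ℂ) * a j := by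
    show ∑ x : G, ∑ i, (if x * g i * x⁻¹ = g j then a i else 0) = _
    have h3 : ∀ x : G, ∑ i, (if x * g i * x⁻¹ = g j then a i else 0) =
        if x * g j * x⁻¹ = g j then a j else 0 := by
      intro x
      rw [Finset.sum_eq_single j]
      · intro i _ hij
        rw [if_neg]
        intro h4
        exact hij (hg i j ⟨x, h4⟩)
      · intro h4
        exact absurd (Finset.mem_univ _) h4
    rw [Finset.sum_congr rfl fun x _ => h3 x, ← Finset.sum_filter, Finset.sum_const, nsmul_eq_mul]
  rw [h2, Pi.zero_apply] at h1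
  rcases mul_eq_zero.1 h1 with h3 | h3
  · exfalso
    have h4 := Nat.cast_eq_zero.1 h3
    rw [Finset.card_eq_zero] at h4
    have h5 : (1 : G) ∈ Finset.univ.filter fun x : G => x * g j * x⁻¹ = g j :=
      Finset.mem_filter.2 ⟨Finset.mem_univ _, by group⟩
    rw [h4] at h5
    exact absurd h5 (Finset.notMem_empty _)
  · exact h3

end grp

section main

variable {Z : Type} [CommRing Z] [IsDomain Z] [Algebra Z ℂ] {ι : Type} [Fintype ι] {D : HData Z ι}
  {M : ℕ} (Q : KZData D M)

/-- Elements which act by zero at `κ = 0` have coordinates vanishing at `v = 1`. -/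
theorem mem_aug (hinj : Function.Injective (algebraMap Z ℂ)) (x : D.H)
    (hx : ∀ l, Q.ρ 0 l x = 0) :
    x ∈ (RingHom.ker (one1 Z ι)) • (⊤ : Submodule (Lau Z ι) D.H) := by
  classical
  let Φ : (D.J → ℂ) →ₗ[ℂ] (∀ l, Matrix (Fin (D.d l)) (Fin (D.d l)) ℂ) :=
    Fintype.linearCombination ℂ (fun j => fun l => Q.ρ 0 l (D.b j))
  have hΦ : ∀ h l, Φ (fun j => evL Z M 0 (D.b.repr h j)) l = Q.ρ 0 l h := by
    intro h l
    conv_rhs => rw [← D.b.sum_repr h, map_sum]
    simp only [Φ, Fintype.linearCombination_apply, Finset.sum_apply, Pi.smul_apply]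
    exact Finset.sum_congr rfl fun j _ => (Q.ρ_smul 0 l _ _).symm
  have hsurj : Function.Surjective Φ := by
    rw [← LinearMap.range_eq_top, eq_top_iff, ← Q.span0, Submodule.span_le]
    rintro _ ⟨h, rfl⟩
    exact ⟨_, funext fun l => hΦ h l⟩
  have hinj2 : Function.Injective Φ := by
    have hfr : Module.finrank ℂ (D.J → ℂ) =
        Module.finrank ℂ (∀ l, Matrix (Fin (D.d l)) (Fin (D.d l)) ℂ) := by
      rw [Module.finrank_fintype_fun_eq_card, ← D.card, Module.finrank_pi_fintype]
      refine Finset.sum_congr rfl fun l _ => ?_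
      rw [Module.finrank_matrix, Module.finrank_self, Fintype.card_fin, mul_one, pow_two]
    exact (LinearMap.injective_iff_surjective_of_finrank_eq_finrank hfr).2 hsurj
  have h1 : (fun j => evL Z M 0 (D.b.repr x j)) = 0 := by
    apply hinj2
    rw [map_zero]
    funext l
    rw [hΦ, hx, Pi.zero_apply]
  rw [← D.b.sum_repr x]
  refine Submodule.sum_mem _ fun j _ => Submodule.smul_mem_smul ?_ trivial
  rw [RingHom.mem_ker]
  apply hinj
  rw [map_zero, ← evL_zero (M := M)]
  exact congrFun h1 j

/-- The span of the commutators. -/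
def comm (D : HData Z ι) : Submodule (Lau Z ι) D.H :=
  Submodule.span (Lau Z ι) {c | ∃ x y, c = x * y - y * x}

lemma comm_mem (x y : D.H) : x * y - y * x ∈ comm D := Submodule.subset_span ⟨x, y, rfl⟩

lemma X_of_comm {x : D.H} (hx : x ∈ comm D) (l : D.Λ) : D.X l x = 0 := by
  refine Submodule.span_induction (p := fun x _ => D.X l x = 0) ?_ ?_ ?_ ?_ hx
  · rintro _ ⟨x, y, rfl⟩
    rw [map_sub, I1X.X_comm D l x y, sub_self]
  · exact map_zero _
  · intro x y _ _ hx hy
    rw [map_add, hx, hy, add_zero]
  · intro a x _ hx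
    rw [map_smul, hx, smul_zero]

variable {G : Type} [Group G] [Fintype G]
  (R : ∀ l : D.Λ, G →* Matrix (Fin (D.d l)) (Fin (D.d l)) ℂ)

open CMFn.ZeroX in
/-- Up to a factor with value `1` at `v = 1`, every element is a combination of braids over class
representatives, modulo commutators. -/
theorem exists_class (hinj : Function.Injective (algebraMap Z ℂ)) {B : Type} (t : B → D.H)
    (pr : B → G) (hpr : Function.Surjective pr) (ht : ∀ b l, Q.ρ 0 l (t b) = R l (pr b))
    (hspan : Submodule.span (Lau Z ι) (Set.range t) = ⊤) (c : ConjClasses G → B)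
    (hc : ∀ i, ConjClasses.mk (pr (c i)) = i) :
    ∃ r : Lau Z ι, one1 Z ι r = 1 ∧ ∀ x : D.H,
      r • x ∈ comm D ⊔ Submodule.span (Lau Z ι) (Set.range fun i => t (c i)) := by
  classical
  set I := RingHom.ker (one1 Z ι) with hI
  set S := comm D ⊔ Submodule.span (Lau Z ι) (Set.range fun i => t (c i)) with hS
  -- generation
  have h1 : (⊤ : Submodule (Lau Z ι) D.H) ≤ S ⊔ I • ⊤ := by
    rw [← hspan, Submodule.span_le]
    rintro _ ⟨b, rfl⟩
    rw [hspan]
    show t b ∈ S ⊔ I • ⊤
    have h2 : IsConj (pr b) (pr (c (ConjClasses.mk (pr b)))) :=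
      ConjClasses.mk_eq_mk_iff_isConj.1 (hc _).symm
    obtain ⟨x, hx⟩ := isConj_iff.1 h2
    obtain ⟨bx, hbx⟩ := hpr x
    obtain ⟨by', hby⟩ := hpr x⁻¹
    have e1 : t b - t b * t by' * t bx ∈ I • (⊤ : Submodule (Lau Z ι) D.H) := by
      apply mem_aug Q hinj
      intro l
      rw [map_sub, map_mul, map_mul, ht, ht, ht, hbx, hby, ← map_mul, ← map_mul,
        inv_mul_cancel_right, sub_self]
    have e2 : t b * t by' * t bx - t bx * (t b * t by') ∈ comm D := comm_mem _ _
    have e3 : t bx * (t b * t by') - t (c (ConjClasses.mk (pr b))) ∈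
        I • (⊤ : Submodule (Lau Z ι) D.H) := by
      apply mem_aug Q hinj
      intro l
      rw [map_sub, map_mul, map_mul, ht, ht, ht, ht, hbx, hby, ← map_mul, ← map_mul, ← mul_assoc,
        hx, sub_self]
    have e4 : t (c (ConjClasses.mk (pr b))) ∈ S :=
      Submodule.mem_sup_right (Submodule.subset_span ⟨_, rfl⟩)
    have e5 : t b = (t b - t b * t by' * t bx) + (t b * t by' * t bx - t bx * (t b * t by')) +
        (t bx * (t b * t by') - t (c (ConjClasses.mk (pr b)))) +
        t (c (ConjClasses.mk (pr b))) := by abel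
    rw [e5]
    refine Submodule.add_mem _ (Submodule.add_mem _ (Submodule.add_mem _ ?_ ?_) ?_) ?_
    · exact Submodule.mem_sup_right e1
    · exact Submodule.mem_sup_left (Submodule.mem_sup_left e2)
    · exact Submodule.mem_sup_right e3
    · exact Submodule.mem_sup_left e4
  -- Nakayama
  have hfin : Module.Finite (Lau Z ι) D.H := Module.Finite.of_basis D.b
  have h2 : (⊤ : Submodule (Lau Z ι) (D.H ⧸ S)) ≤ I • ⊤ := by
    have h3 := Submodule.map_mono (f := S.mkQ) h1
    rw [Submodule.map_top, Submodule.range_mkQ, Submodule.map_sup, Submodule.map_smul'',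
      Submodule.map_top, Submodule.range_mkQ] at h3
    have h4 : Submodule.map S.mkQ S = ⊥ := by
      rw [eq_bot_iff]
      rintro _ ⟨x, hx, rfl⟩
      rw [Submodule.mem_bot, Submodule.mkQ_apply, Submodule.Quotient.mk_eq_zero]
      exact hx
    rwa [h4, bot_sup_eq] at h3
  obtain ⟨r, hr, hr2⟩ := Submodule.exists_sub_one_mem_and_smul_eq_zero_of_fg_of_le_smul I
    (⊤ : Submodule (Lau Z ι) (D.H ⧸ S)) Module.Finite.fg_top h2
  refine ⟨r, ?_, fun x => ?_⟩
  · have h3 : one1 Z ι (r - 1) = 0 := hr
    rw [map_sub, map_one, sub_eq_zero] at h3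
    exact h3
  · have h3 := hr2 (Submodule.Quotient.mk x) trivial
    rw [← Submodule.Quotient.mk_smul, Submodule.Quotient.mk_eq_zero] at h3
    exact h3

open CMFn.ZeroX in
open scoped ComplexOrder in
/-- Braids over class representatives are independent in characters. -/
theorem class_indep [Fintype (ConjClasses G)]
    (hR : Function.Bijective (four R)) {B : Type} (t : B → D.H)
    (pr : B → G) (hpr : Function.Surjective pr) (ht : ∀ b l, Q.ρ 0 l (t b) = R l (pr b))
    (c : ConjClasses G → B)
    (hc : ∀ i, ConjClasses.mk (pr (c i)) = i) (a : ConjClasses G → Lau Z ι)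
    (ha : ∀ l, ∑ i, a i * D.X l (t (c i)) = 0) : a = 0 := by
  classical
  -- the columns are independent at `v = 1`
  let N : Matrix D.Λ (ConjClasses G) ℂ := fun l i => (R l (pr (c i))).trace
  have hN : Function.Injective N.mulVec := by
    rw [← Matrix.coe_mulVecLin, ← LinearMap.ker_eq_bot, LinearMap.ker_eq_bot']
    intro a ha
    refine col_indep hR (fun i => pr (c i)) ?_ a ?_
    · rintro i j ⟨x, hx⟩
      rw [← hc i, ← hc j, ConjClasses.mk_eq_mk_iff_isConj, isConj_iff]
      exact ⟨x, hx⟩
    · intro l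
      have h1 := congrFun ha l
      rw [Matrix.mulVecLin_apply, Matrix.mulVec, dotProduct, Pi.zero_apply] at h1
      rw [← h1]
      exact Finset.sum_congr rfl fun i _ => mul_comm _ _
  have hdet : (Nᴴ * N).det ≠ 0 := by
    have h1 : (Nᴴ * N).PosDef := Matrix.PosDef.conjTranspose_mul_self _ hN
    exact h1.det_pos.ne'
  choose c' hc' using fun j => hpr (pr (c j))⁻¹
  let P : Matrix (ConjClasses G) (ConjClasses G) (Lau Z ι) :=
    fun j i => ∑ l, D.X l (t (c' j)) * D.X l (t (c i))
  have hP : P.map (evL Z M 0) = Nᴴ * N := by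
    ext j i
    rw [Matrix.map_apply, Matrix.mul_apply]
    show evL Z M 0 (∑ l, D.X l (t (c' j)) * D.X l (t (c i))) = _
    rw [map_sum]
    refine Finset.sum_congr rfl fun l _ => ?_
    rw [map_mul, ← Q.tr, ← Q.tr, ht, ht, hc', trace_inv_conj, Matrix.conjTranspose_apply]
    rfl
  have hPdet : P.det ≠ 0 := by
    intro h0
    apply hdet
    rw [← hP]
    have h1 := RingHom.map_det (evL Z M 0) P
    rw [h0, map_zero] at h1
    exact h1.symm
  apply Matrix.eq_zero_of_mulVec_eq_zero hPdet
  funext j
  rw [Matrix.mulVec, dotProduct, Pi.zero_apply]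
  have h1 : ∀ i, P j i * a i = ∑ l, D.X l (t (c' j)) * (a i * D.X l (t (c i))) := by
    intro i
    show (∑ l, D.X l (t (c' j)) * D.X l (t (c i))) * a i = _
    rw [Finset.sum_mul]
    exact Finset.sum_congr rfl fun l _ => by ring
  rw [Finset.sum_congr rfl fun i _ => h1 i, Finset.sum_comm]
  refine Finset.sum_eq_zero fun l _ => ?_
  rw [← Finset.mul_sum, ha, mul_zero]

open CMFn.ZeroX in
/-- Lemma M: elements with vanishing characters are sums of commutators, up to a factor with value
`1` at `v = 1`. -/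
theorem exists_comm (hinj : Function.Injective (algebraMap Z ℂ))
    (hR : Function.Bijective (four R)) {B : Type} (t : B → D.H)
    (pr : B → G) (hpr : Function.Surjective pr) (ht : ∀ b l, Q.ρ 0 l (t b) = R l (pr b))
    (hspan : Submodule.span (Lau Z ι) (Set.range t) = ⊤) :
    ∃ r : Lau Z ι, one1 Z ι r = 1 ∧ ∀ x : D.H, (∀ l, D.X l x = 0) → r • x ∈ comm D := by
  classical
  let _ : Fintype (ConjClasses G) := Fintype.ofFinite _
  choose c hc using fun i : ConjClasses G => hpr (Quotient.out i)
  have hc' : ∀ i, ConjClasses.mk (pr (c i)) = i := by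
    intro i
    rw [hc]
    exact Quotient.out_eq i
  obtain ⟨r, hr, hr2⟩ := exists_class Q R hinj t pr hpr ht hspan c hc'
  refine ⟨r, hr, fun x hx => ?_⟩
  obtain ⟨y, hy, z, hz, hyz⟩ := Submodule.mem_sup.1 (hr2 x)
  obtain ⟨a, ha⟩ := (Submodule.mem_span_range_iff_exists_fun (Lau Z ι)).1 hz
  have h1 : a = 0 := by
    refine class_indep Q R hR t pr hpr ht c hc' a fun l => ?_
    have h2 : D.X l z = 0 := by
      have h3 := congrArg (D.X l) hyz
      rw [map_add, X_of_comm hy, zero_add, map_smul, hx, smul_zero] at h3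
      exact h3
    rw [← ha, map_sum] at h2
    rw [← h2]
    exact Finset.sum_congr rfl fun i _ => by rw [map_smul, smul_eq_mul]
  have h2 : z = 0 := by
    rw [← ha, h1]
    simp
  rw [h2, add_zero] at hyz
  rw [← hyz]
  exact hy

/-- The factor lies in no ideal `p A`. -/
theorem one1_notMem {p : Ideal Z} (hp : p ≠ ⊤) {r : Lau Z ι} (hr : one1 Z ι r = 1) :
    r ∉ MX.PP ι p := by
  intro h
  have h0 : ∀ q : Lau Z ι, Ideal.Quotient.mk p (one1 Z ι q) =
      one1 (Z ⧸ p) ι (AddMonoidAlgebra.mapRingHom (ι →₀ ℤ) (Ideal.Quotient.mk p) q) := by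
    intro q
    induction q using AddMonoidAlgebra.induction_linear with
    | zero => rw [map_zero, map_zero, map_zero, map_zero]
    | add f g hf hg => rw [map_add, map_add, map_add, map_add, hf, hg]
    | single a z =>
      rw [AddMonoidAlgebra.mapRingHom_single]
      simp [one1]
  have h1 : ∀ q ∈ MX.PP ι p, one1 Z ι q ∈ p := by
    intro q hq
    rw [← Ideal.Quotient.eq_zero_iff_mem, h0, (RingHom.mem_ker).1 hq, map_zero]
  have h2 := h1 r h
  rw [hr] at h2
  exact hp ((Ideal.eq_top_iff_one p).2 h2)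

end main

end

end Pool.Agent.CMF
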