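import Pool.Agent.CMFn.ModI
import Pool.Agent.CMFn.RkM
import Pool.Agent.CMFn.RkA
import Pool.Agent.CMF.GS3b

/-! Project CMFn, module RkMA: Lemma M in the frame of the assembly. -/

set_option linter.unusedSectionVars false

namespace Pool.Agent.CMFn

open Matrix G1 G4 Pool.Agent
open Pool.Agent.CMF (LineHol HData KZData ThmS evL mon pairC IsInt stdHData IntAt SchurFac schurFac
  dlt Lau)

noncomputable section

variable {n : ℕ} {G : Type} [Group G] [Fintype G] {V : G → Matrix (Fin n) (Fin n) ℂ}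
  {Λ : Type} [Fintype Λ] {d : Λ → ℕ} {ρ : ∀ l, G → Matrix (Fin (d l)) (Fin (d l)) ℂ}
  {F : Type} [Field F] [Algebra F ℂ] {v₀ : Fin n → ℂ}
  {hV : CMFP.IsReflGroup V} {hρ : CMFP.IsIrrFam d ρ} {hv₀ : CMFP.Reg V v₀}
  {D : CMFP.StdHk F V v₀ d} {hN : ∃ s ∈ img hV.1, IsRefl s} [Fintype (CMFP.Idx V)]

/-- Every group element is the image of a braid. -/
theorem Asm.surj_g (A : Asm hV hρ F v₀ hv₀ D hN) :
    Function.Surjective (fun b : CMFP.BP V v₀ => b.g) := by
  intro g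
  obtain ⟨b', hb'⟩ := proj_surj hN A.v (iso hV.1 hV.2.1 g)
  obtain ⟨b, rfl⟩ := A.surj b'
  refine ⟨b, ?_⟩
  rw [A.proj] at hb'
  exact (iso hV.1 hV.2.1).injective hb'

/-- The braids in the Hecke algebra. -/
def tB (hρ : CMFP.IsIrrFam d ρ) (D : CMFP.StdHk F V v₀ d) (b : CMFP.BP V v₀) : (hD hρ D).H :=
  CMFP.hT (NumberField.RingOfIntegers F) (CMFP.var (NumberField.RingOfIntegers F)) b

/-- The value at `κ = 0` of a braid. -/
theorem Asm.rho_zero (A : Asm hV hρ F v₀ hv₀ D hN) (b : CMFP.BP V v₀) (l : (hD hρ D).Λ) :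
    A.Q.ρ 0 l (tB hρ D b) = repR hρ l b.g := by
  refine (A.hQ 0 l b).trans ?_
  have h0 : kN hV.1 hV.2.1 (0 : CMFP.Idx V → ℂ) = 0 := rfl
  rw [h0, KZ_zero, A.proj]
  exact repN_iso hV.1 hV.2.1 (ρ l) (hρ.1 l).2 b.g

include hv₀ hV in
/-- The braids span the Hecke algebra. -/
theorem span_tB : Submodule.span (Lau (NumberField.RingOfIntegers F) (CMFP.Idx V))
      (Set.range (tB hρ D)) = ⊤ :=
  CMFG.G3bX.span_hT' (NumberField.RingOfIntegers F) (CMFP.var (NumberField.RingOfIntegers F))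
    hV.1 hv₀

/-- Lemma M: elements with vanishing characters are sums of commutators, up to a factor with value
`1` at `v = 1`. -/
theorem Asm.exists_comm (A : Asm hV hρ F v₀ hv₀ D hN) :
    ∃ r : Lau (NumberField.RingOfIntegers F) (CMFP.Idx V), CMF.one1 _ _ r = 1 ∧
      ∀ x : (hD hρ D).H, (∀ l, (hD hρ D).X l x = 0) → r • x ∈ CMF.comm (hD hρ D) :=
  CMF.exists_comm A.Q (fun l => repR hρ l) CMF.inj_int (four_bij hρ) (tB hρ D) (fun b => b.g)
    A.surj_g A.rho_zero (span_tB (hV := hV) (hv₀ := hv₀))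

/-- The `A`-span of the commutators consists of sums of commutators. -/
theorem mem_Comm {Z ι : Type} [CommRing Z] {D : HData Z ι} {x : D.H} (hx : x ∈ CMF.comm D) :
    x ∈ Rk.Comm D.H := by
  refine Submodule.closure_induction (p := fun x _ => x ∈ Rk.Comm D.H) ?_ ?_ ?_ hx
  · exact AddSubgroup.zero_mem _
  · intro x y _ _ hx hy
    exact AddSubgroup.add_mem _ hx hy
  · rintro a _ ⟨x, y, rfl⟩
    refine AddSubgroup.subset_closure ⟨a • x, y, ?_⟩
    rw [smul_sub, smul_mul_assoc, mul_smul_comm]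

/-- Lemma M, with sums of commutators. -/
theorem Asm.exists_r (A : Asm hV hρ F v₀ hv₀ D hN) :
    ∃ r : Lau (NumberField.RingOfIntegers F) (CMFP.Idx V), CMF.one1 _ _ r = 1 ∧
      ∀ x : (hD hρ D).H, (∀ l, (hD hρ D).X l x = 0) → r • x ∈ Rk.Comm (hD hρ D).H := by
  obtain ⟨r, h1, h2⟩ := A.exists_comm
  exact ⟨r, h1, fun x hx => mem_Comm (h2 x hx)⟩

end

end Pool.Agent.CMFn
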