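import Pool.Agent.CMFn.RkD0
import Pool.Agent.CMFn.RkC
import Pool.Agent.CMFn.RkMA
import Pool.Agent.CMFn.RkDefs

/-! Project CMF, block Q (every rank), module RkD: the rank criterion in the frame of the
assembly, for extreme characters and for levels of parabolic subgroups. -/

set_option linter.unusedSectionVars false

namespace Pool.Agent.CMFn

open Matrix G1 G4 Pool.Agent
open Pool.Agent.CMF (HData KZData Lau mon IsInt stdHData IsRk dlt)

noncomputable section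

variable {n : ℕ} {G : Type} [Group G] [Fintype G] {V : G → Matrix (Fin n) (Fin n) ℂ}
  {Λ : Type} [Fintype Λ] {d : Λ → ℕ} {ρ : ∀ l, G → Matrix (Fin (d l)) (Fin (d l)) ℂ}
  {hV : CMFP.IsReflGroup V} {hρ : CMFP.IsIrrFam d ρ} {F : Type} [Field F] [Algebra F ℂ]
  {v₀ : Fin n → ℂ} {hv₀ : CMFP.Reg V v₀} {D : CMFP.StdHk F V v₀ d}
  {hN : ∃ s ∈ img hV.1, IsRefl s} [Fintype (CMFP.Idx V)]

/-- The rank criterion for vectors of ranks. -/
theorem Asm.isInt_rank (A : Asm hV hρ F v₀ hv₀ D hN)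
    (hF : (algebraMap F ℂ).fieldRange = Subfield.closure (Set.range fun g => (V g).trace))
    (S : CMFP.SchurForm F D.schurElt) {E E' : Λ → Prop} (hE : IsInt A.Q (fun _ => True) E)
    (hFE : ∀ l, E' l → E l) {I : Type} [Fintype I] (m : I → Λ → ℂ)
    (hm : ∀ i, IsRk (hD hρ D) (m i)) (c : I → ℤ) (N : ℕ) (hN' : 0 < N)
    (hsum : ∀ l, E l → ∑ i, (c i : ℂ) * m i l = (N : ℂ) * (d l : ℂ))
    (hpure : ∀ i, (∀ l, E' l → m i l = 0) ∨ (∀ l, E l → ¬ E' l → m i l = 0)) :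
    IsInt A.Q (fun _ => True) E' := by
  have := isDedekind_of hV.1 F hF
  obtain ⟨r, hr, htf⟩ := A.exists_r
  choose J hJ P f k hP hf hX hk using hm
  refine CMF.isInt_of_rank CMF.inj_int (CMFP.mu_pos hV.1 F hF) (facS hρ D S)
    (fun _ _ _ _ _ => trivial) hr htf hE hFE f
    (fun i => @dlt (NumberField.RingOfIntegers F) _ (CMFP.Idx V) (J i) (hJ i) (P i))
    (fun p hp i => @CMF.dlt_ok (NumberField.RingOfIntegers F) _ _ (CMFP.Idx V) (J i) (hJ i) (P i)
      (hP i) p hp) hf k (fun i l _ => hX i l) ?_ c N hN' ?_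
  · intro i
    have h0 : ∀ l : Λ, m i l = 0 → k i l = 0 := by
      intro l h1
      have h2 : (k i l : ℂ) = 0 := (hk i l).trans h1
      exact_mod_cast h2
    rcases hpure i with h1 | h1
    · exact Or.inl fun l hl => h0 l (h1 l hl)
    · exact Or.inr fun l hl hl' => h0 l (h1 l hl hl')
  · intro (l : Λ) hl
    have h1 := hsum l hl
    have h2 : ∑ i, (c i : ℂ) * (k i l : ℂ) = ∑ i, (c i : ℂ) * m i l :=
      Finset.sum_congr rfl fun i _ => by rw [show (k i l : ℂ) = m i l from hk i l]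
    rw [← h2] at h1
    have h3 : (((N : ℤ) * (d l : ℤ) : ℤ) : ℂ) = ((∑ i, c i * (k i l : ℤ) : ℤ) : ℂ) := by
      push_cast
      exact h1.symm
    exact_mod_cast h3

/-- The rank criterion for extreme characters. -/
theorem Asm.isInt_rankSep (A : Asm hV hρ F v₀ hv₀ D hN)
    (hF : (algebraMap F ℂ).fieldRange = Subfield.closure (Set.range fun g => (V g).trace))
    (S : CMFP.SchurForm F D.schurElt)
    (hsq : ∀ s, CMFP.IsRefl V s → s * s = 1)
    (hone : ∀ s t, CMFP.IsRefl V s → CMFP.IsRefl V t → ∃ g : G, g * s * g⁻¹ = t)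
    {Y : MRep G → Prop} (l₀ : Λ) (h : RankSep (repHom hV.1) Y (mr hρ l₀)) :
    IsInt A.Q (fun _ => True) (fun l : Λ => A.Q.a l₀ = A.Q.a l ∧ Y (mr hρ l)) := by
  have hM := CMFP.mu_pos hV.1 F hF
  obtain ⟨N, k, p, σ, c, hN', hsum, hpure⟩ := h
  refine A.isInt_rank hF S (A.isInt_a l₀) (fun l hl => hl.1)
    (fun i (μ : Λ) => psum (repHom hV.1) (p i) (σ i) (mr hρ μ) /
      (Nat.card (WP (repHom hV.1) (p i)) : ℂ))
    (fun i => A.isRk_ext hM hsq hone (p i) (σ i)) c N hN' ?_ ?_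
  · intro l hl
    exact hsum (mr hρ l) (isIrr_mr hρ l) (A.level hM l₀ l hl)
  · intro i
    rcases hpure i with h1 | h1
    · left
      intro l hl
      rw [h1 (mr hρ l) (isIrr_mr hρ l) (A.level hM l₀ l hl.1) hl.2, zero_div]
    · right
      intro l hl hl'
      rw [h1 (mr hρ l) (isIrr_mr hρ l) (A.level hM l₀ l hl) (fun h2 => hl' ⟨hl, h2⟩), zero_div]

/-- The rank criterion for levels of parabolic subgroups. -/
theorem Asm.isInt_rankLvl (A : Asm hV hρ F v₀ hv₀ D hN)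
    (hF : (algebraMap F ℂ).fieldRange = Subfield.closure (Set.range fun g => (V g).trace))
    (S : CMFP.SchurForm F D.schurElt)
    (hsq : ∀ s, CMFP.IsRefl V s → s * s = 1)
    (hone : ∀ s t, CMFP.IsRefl V s → CMFP.IsRefl V t → ∃ g : G, g * s * g⁻¹ = t)
    {Y : MRep G → Prop} (l₀ : Λ) {I : Type} [Fintype I] (p : I → Fin n → ℂ) (κ : I → ℤ)
    (c : I → ℤ) (N : ℕ) (hN' : 0 < N)
    (hsum : ∀ b : MRep G, IsIrr b.2 → SameLevel (repHom hV.1) (mr hρ l₀) b →
      ∑ i, c i * (rkE (repHom hV.1) (p i) (κ i : ℂ) b : ℤ) = (N : ℤ) * (b.1 : ℤ))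
    (hpure : ∀ i, (∀ b : MRep G, IsIrr b.2 → SameLevel (repHom hV.1) (mr hρ l₀) b → Y b →
        rkE (repHom hV.1) (p i) (κ i : ℂ) b = 0) ∨
      (∀ b : MRep G, IsIrr b.2 → SameLevel (repHom hV.1) (mr hρ l₀) b → ¬ Y b →
        rkE (repHom hV.1) (p i) (κ i : ℂ) b = 0)) :
    IsInt A.Q (fun _ => True) (fun l : Λ => A.Q.a l₀ = A.Q.a l ∧ Y (mr hρ l)) := by
  have hM := CMFP.mu_pos hV.1 F hF
  refine A.isInt_rank hF S (A.isInt_a l₀) (fun l hl => hl.1)
    (fun i (μ : Λ) => (rkE (repHom hV.1) (p i) (κ i : ℂ) (mr hρ μ) : ℂ))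
    (fun i => A.isRk_lvl hM hsq hone (p i) (κ i)) c N hN' ?_ ?_
  · intro l hl
    have h1 := hsum (mr hρ l) (isIrr_mr hρ l) (A.level hM l₀ l hl)
    have h2 : ((∑ i, c i * (rkE (repHom hV.1) (p i) (κ i : ℂ) (mr hρ l) : ℤ) : ℤ) : ℂ) =
        (((N : ℤ) * (d l : ℤ) : ℤ) : ℂ) := congrArg _ h1
    push_cast at h2
    exact h2
  · intro i
    rcases hpure i with h1 | h1
    · left
      intro l hl
      rw [h1 (mr hρ l) (isIrr_mr hρ l) (A.level hM l₀ l hl.1) hl.2, Nat.cast_zero]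
    · right
      intro l hl hl'
      rw [h1 (mr hρ l) (isIrr_mr hρ l) (A.level hM l₀ l hl) (fun h2 => hl' ⟨hl, h2⟩),
        Nat.cast_zero]

/-- If the rank criterion holds on every level which meets `Y`, then `Y` is integral. -/
theorem Asm.isInt_of_rankSep (A : Asm hV hρ F v₀ hv₀ D hN)
    (hF : (algebraMap F ℂ).fieldRange = Subfield.closure (Set.range fun g => (V g).trace))
    (S : CMFP.SchurForm F D.schurElt)
    (hsq : ∀ s, CMFP.IsRefl V s → s * s = 1)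
    (hone : ∀ s t, CMFP.IsRefl V s → CMFP.IsRefl V t → ∃ g : G, g * s * g⁻¹ = t)
    {Y : MRep G → Prop} (h : ∀ b : MRep G, IsIrr b.2 → Y b → RankSep (repHom hV.1) Y b) :
    IsInt A.Q (fun _ => True) (fun l : Λ => Y (mr hρ l)) :=
  CMF.isInt_of_cover fun l hl => ⟨fun m : Λ => A.Q.a l = A.Q.a m ∧ Y (mr hρ m), ⟨rfl, hl⟩,
    fun _ hm => hm.2, A.isInt_rankSep hF S hsq hone l (h (mr hρ l) (isIrr_mr hρ l) hl)⟩

end

end Pool.Agent.CMFn
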