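import Pool.Agent.CMFn.QComb
import Pool.Agent.CMFn.CParD
import Pool.Agent.CMFn.ModI

/-! Project CMF, block Q (every rank): the quasi-idempotents of the Hecke algebra attached to
extreme characters and to levels of parabolic subgroups, with their ranks. -/

namespace Pool.Agent.CMF

open Matrix Polynomial

noncomputable section

section defs

variable {Z : Type} [CommRing Z] {ι : Type}

/-- `m` is the vector of the ranks of a quasi-idempotent of the Hecke algebra. -/
def IsRk (D : HData Z ι) (m : D.Λ → ℂ) : Prop :=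
  ∃ (J : Type) (_ : Fintype J) (P : J → (ι →₀ ℤ) × (ι →₀ ℤ)) (f : D.H) (k : D.Λ → ℕ),
    (∀ j, (P j).1 ≠ (P j).2) ∧ f * f = dlt Z P • f ∧
    (∀ μ, D.X μ f = (k μ : Lau Z ι) * dlt Z P) ∧ ∀ μ, (k μ : ℂ) = m μ

end defs

variable {Z : Type} [CommRing Z] [IsDomain Z] [Algebra Z ℂ] {ι : Type} [Fintype ι]
  {D : HData Z ι} {M : ℕ} {Q : KZData D M}

theorem IsRk.congr {m m' : D.Λ → ℂ} (h : IsRk D m) (hm : ∀ μ, m μ = m' μ) : IsRk D m' := by
  have e : m = m' := funext hm
  rwa [← e]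

theorem isRk_zero : IsRk D (fun _ => 0) := by
  refine ⟨Fin 0, inferInstance, fun j => j.elim0, 0, fun _ => 0, fun j => j.elim0, ?_, ?_, ?_⟩
  · rw [mul_zero, smul_zero]
  · intro μ
    rw [map_zero, Nat.cast_zero, zero_mul]
  · intro μ
    exact Nat.cast_zero

open Classical in
theorem TwFam.isRk {n : ℕ} (T : TwFam Q n) (hinj : Function.Injective (algebraMap Z ℂ))
    (hM : 0 < M) (e : Fin n → (ι →₀ ℤ)) (he : ∀ i, e i ∈ T.E i) (κ : ι → ℂ) (hκ : T.Gen κ) :
    IsRk D (T.rk e κ) := by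
  choose k hk hX using fun μ => T.X_f hinj hM e he κ hκ μ
  refine ⟨(Σ i : Fin n, {a // a ∈ (T.E i).erase (e i)}), inferInstance,
    fun p => (e p.1, p.2.1), T.f e, k, ?_, ?_, ?_, fun μ => (hk μ).symm⟩
  · rintro ⟨i, a, ha⟩
    exact (Finset.ne_of_mem_erase ha).symm
  · rw [← T.del_dlt]
    exact T.f_sq hinj hM e he
  · intro μ
    rw [← T.del_dlt]
    exact hX μ

end

end Pool.Agent.CMF

namespace Pool.Agent.CMFn

open Matrix Polynomial G1 G4 Pool.Agent QFinX
open Pool.Agent.CMF (HData KZData Lau mon pair pairC evL TwFam IsInt stdHData IsRk isRk_zero)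

noncomputable section

section R2

variable {r : ℕ} {N : SG r} [Fintype N] {Z : Type} [CommRing Z] [IsDomain Z] [Algebra Z ℂ]
  {ι : Type} [Fintype ι] {D : HData Z ι} {M : ℕ} {Q : KZData D M} {i₀ i₁ : ι}

/-- The spectral element of the sum of the reflections at `p`. -/
theorem Refl2.isRk (R : Refl2 N Q i₀ i₁) (hinj : Function.Injective (algebraMap Z ℂ))
    (hM : 0 < M) (p : Fin r → ℂ) (Cs : Finset ℤ) (c : ℤ) (hc : c ∈ Cs)
    (hCs : ∀ l, aeval (zP (R.ρ l) p) (∏ c ∈ Cs, (X - C (c : ℂ))) = 0) (m : D.Λ → ℂ)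
    (hm : ∀ μ, (aeval (zP (R.ρ μ) p) (∏ c' ∈ Cs.erase c, (X - C (c' : ℂ)))).trace =
      m μ * ∏ c' ∈ Cs.erase c, ((c : ℂ) - c')) : IsRk D m := by
  classical
  obtain ⟨T, hE, hG, hr⟩ := R.exists_tw hM p Cs hCs
  have hne : (∏ c' ∈ Cs.erase c, ((c : ℂ) - c')) ≠ 0 := by
    rw [Finset.prod_ne_zero_iff]
    intro c' hc' h
    have h1 : (c : ℂ) = c' := sub_eq_zero.1 h
    have h2 : c = c' := by exact_mod_cast h1
    exact (Finset.ne_of_mem_erase hc') h2.symm
  refine (T.isRk hinj hM (fun _ => exq M (nP N p) i₀ i₁ c) ?_ (Pi.single i₀ 1) hG).congr ?_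
  · intro i
    rw [hE]
    exact Finset.mem_image_of_mem _ hc
  · intro μ
    rw [hr c hc, hm μ, mul_comm, mul_assoc, mul_inv_cancel₀ hne, mul_one]

end R2

namespace RkX

/-- The trace of a spectral element of a matrix with integral spectrum. -/
theorem trace_eig {d : ℕ} (z : Matrix (Fin d) (Fin d) ℂ) (Cs : Finset ℤ) (c : ℤ) (hc : c ∈ Cs)
    (hz : aeval z (∏ c ∈ Cs, (X - C (c : ℂ))) = 0) :
    (aeval z (∏ c' ∈ Cs.erase c, (X - C (c' : ℂ)))).trace =
      (Module.finrank ℂ (Module.End.eigenspace (Matrix.toLin' z) (c : ℂ)) : ℂ) *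
        ∏ c' ∈ Cs.erase c, ((c : ℂ) - c') := by
  classical
  set δ : ℂ := ∏ c' ∈ Cs.erase c, ((c : ℂ) - c') with hδ
  have hne : δ ≠ 0 := by
    rw [hδ, Finset.prod_ne_zero_iff]
    intro c' hc' h
    have h1 : (c : ℂ) = c' := sub_eq_zero.1 h
    have h2 : c = c' := by exact_mod_cast h1
    exact (Finset.ne_of_mem_erase hc') h2.symm
  set F : ℂ[X] := ∏ c' ∈ Cs.erase c, (X - C (c' : ℂ)) with hF
  have hFe : F.eval (c : ℂ) = δ := by
    rw [hF, Polynomial.eval_prod, hδ]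
    exact Finset.prod_congr rfl fun c' _ => by simp
  have hkill : (z - algebraMap ℂ _ (c : ℂ)) * aeval z F = 0 := by
    have h1 : aeval z ((X - C (c : ℂ)) * F) = 0 := by
      rw [hF, Finset.mul_prod_erase Cs (fun c => X - C ((c : ℤ) : ℂ)) hc]
      exact hz
    rw [map_mul, map_sub, aeval_X, aeval_C] at h1
    exact h1
  -- on the eigenspace
  have hvec : ∀ v : Fin d → ℂ, z *ᵥ v = (c : ℂ) • v → ∀ g : ℂ[X],
      aeval z g *ᵥ v = g.eval (c : ℂ) • v := by
    intro v hv g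
    induction g using Polynomial.induction_on' with
    | add g g' hg hg' =>
      rw [map_add, Matrix.add_mulVec, hg, hg', Polynomial.eval_add, add_smul]
    | monomial n a =>
      have h1 : ∀ n : ℕ, (z ^ n) *ᵥ v = ((c : ℂ) ^ n) • v := by
        intro n
        induction n with
        | zero => rw [pow_zero, pow_zero, Matrix.one_mulVec, one_smul]
        | succ n ih =>
          rw [pow_succ, ← Matrix.mulVec_mulVec, hv, Matrix.mulVec_smul, ih, smul_smul, pow_succ,
            mul_comm]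
      rw [aeval_monomial, Polynomial.eval_monomial, ← Matrix.mulVec_mulVec, h1,
        Matrix.mulVec_smul, Algebra.algebraMap_eq_smul_one, Matrix.smul_mulVec,
        Matrix.one_mulVec, smul_smul, mul_comm]
  set P : Matrix (Fin d) (Fin d) ℂ := δ⁻¹ • aeval z F with hP
  have hzP : ∀ v, z *ᵥ (P *ᵥ v) = (c : ℂ) • (P *ᵥ v) := by
    intro v
    have h1 : z * P = (c : ℂ) • P := by
      rw [sub_mul, sub_eq_zero] at hkill
      rw [hP, mul_smul_comm, hkill, Algebra.algebraMap_eq_smul_one, smul_mul_assoc, one_mul,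
        smul_comm]
    rw [Matrix.mulVec_mulVec, h1, Matrix.smul_mulVec]
  have hPv : ∀ v : Fin d → ℂ, z *ᵥ v = (c : ℂ) • v → P *ᵥ v = v := by
    intro v hv
    rw [hP, Matrix.smul_mulVec, hvec v hv F, hFe, smul_smul, inv_mul_cancel₀ hne, one_smul]
  have hidem : P * P = P := by
    refine Matrix.toLin'.injective (LinearMap.ext fun v => ?_)
    show (P * P) *ᵥ v = P *ᵥ v
    rw [← Matrix.mulVec_mulVec]
    exact hPv _ (hzP v)
  have hrange : LinearMap.range (Matrix.toLin' P) =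
      Module.End.eigenspace (Matrix.toLin' z) (c : ℂ) := by
    ext v
    rw [Module.End.mem_eigenspace_iff]
    constructor
    · rintro ⟨w, rfl⟩
      exact hzP w
    · intro hv
      exact ⟨v, hPv v hv⟩
  have hid : IsIdempotentElem (Matrix.toLin' P) := by
    have h1 := Matrix.toLin'_mul P P
    rw [hidem] at h1
    exact h1.symm
  have htr : P.trace =
      (Module.finrank ℂ (Module.End.eigenspace (Matrix.toLin' z) (c : ℂ)) : ℂ) := by
    rw [← Matrix.trace_toLin'_eq, ← hrange]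
    exact (LinearMap.IsIdempotentElem.isProj_range _ hid).trace
  rw [← htr, hP, Matrix.trace_smul, smul_eq_mul, mul_comm, ← mul_assoc, mul_inv_cancel₀ hne,
    one_mul]

end RkX

variable {n : ℕ} {G : Type} [Group G] [Fintype G] {V : G → Matrix (Fin n) (Fin n) ℂ}
  {Λ : Type} [Fintype Λ] {d : Λ → ℕ} {ρ : ∀ l, G → Matrix (Fin (d l)) (Fin (d l)) ℂ}
  {hV : CMFP.IsReflGroup V} {hρ : CMFP.IsIrrFam d ρ} {F : Type} [Field F] [Algebra F ℂ]
  {v₀ : Fin n → ℂ} {hv₀ : CMFP.Reg V v₀} {D : CMFP.StdHk F V v₀ d}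
  {hN : ∃ s ∈ img hV.1, IsRefl s} [Fintype (CMFP.Idx V)]

/-- The elements of extreme characters. -/
theorem Asm.isRk_ext (A : Asm hV hρ F v₀ hv₀ D hN)
    (hM : 0 < CMFP.mu (NumberField.RingOfIntegers F))
    (hsq : ∀ s, CMFP.IsRefl V s → s * s = 1)
    (hone : ∀ s t, CMFP.IsRefl V s → CMFP.IsRefl V t → ∃ g : G, g * s * g⁻¹ = t)
    (p : Fin n → ℂ) (σ : Bool) : IsRk (hD hρ D)
      (fun μ : Λ => psum (repHom hV.1) p σ (mr hρ μ) / Nat.card (WP (repHom hV.1) p)) := by
  obtain ⟨s₀, h⟩ := exists_oneClass hV hN hsq hone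
  obtain ⟨Cs, c, hc, hCs, hm⟩ := exists_ext hV hρ h p σ
  exact (A.refl2 hM h).isRk CMF.inj_int hM p Cs c hc (fun μ => hCs μ) _ (fun μ => hm μ)

/-- The elements of the levels of a parabolic subgroup. -/
theorem Asm.isRk_lvl (A : Asm hV hρ F v₀ hv₀ D hN)
    (hM : 0 < CMFP.mu (NumberField.RingOfIntegers F))
    (hsq : ∀ s, CMFP.IsRefl V s → s * s = 1)
    (hone : ∀ s t, CMFP.IsRefl V s → CMFP.IsRefl V t → ∃ g : G, g * s * g⁻¹ = t)
    (p : Fin n → ℂ) (c : ℤ) : IsRk (hD hρ D)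
      (fun μ : Λ => (rkE (repHom hV.1) p (c : ℂ) (mr hρ μ) : ℂ)) := by
  classical
  obtain ⟨s₀, h⟩ := exists_oneClass hV hN hsq hone
  set S : Finset G := Finset.univ.filter (fun s => CMFP.IsRefl V s ∧ V s *ᵥ p = p) with hS
  have hSm : ∀ s, s ∈ S ↔ CMFP.IsRefl V s ∧ V s *ᵥ p = p := fun s => by
    rw [hS, Finset.mem_filter]
    exact ⟨fun h => h.2, fun h => ⟨Finset.mem_univ _, h⟩⟩
  have hfix : ∀ g ∈ Subgroup.closure (S : Set G), V g *ᵥ p = p := by
    intro g hg
    induction hg using Subgroup.closure_induction with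
    | mem x hx => exact ((hSm x).1 hx).2
    | one => rw [hV.1.1, Matrix.one_mulVec]
    | mul x y _ _ hx hy => rw [hV.1.2, ← Matrix.mulVec_mulVec, hy, hx]
    | inv x _ hx =>
      conv_lhs => rw [← hx]
      rw [Matrix.mulVec_mulVec, ← hV.1.2, inv_mul_cancel, hV.1.1, Matrix.one_mulVec]
  have hconj : ∀ g ∈ Subgroup.closure (S : Set G), ∀ s ∈ S, g * s * g⁻¹ ∈ S := by
    intro g hg s hs
    have h1 := (hSm s).1 hs
    refine (hSm _).2 ⟨?_, ?_⟩
    · have h2 : IsRefl (toGL hV.1 (g * s * g⁻¹)) := by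
        rw [map_mul, map_mul, map_inv]
        exact isRefl_conj (G := img hV.1) ((isRefl_iff hV.1 s).2 h1.1)
      exact (isRefl_iff hV.1 _).1 h2
    · exact hfix _ (mul_mem (mul_mem hg (Subgroup.subset_closure hs)) (inv_mem hg))
  have hz : ∀ μ : Λ, zP (rN hV hρ μ) p = ∑ s ∈ S, rG hρ μ s := fun μ => zP_eq μ p S hSm
  have hZ : ∀ μ : Λ, ZP (repHom hV.1) p (mr hρ μ) = ∑ s ∈ S, rG hρ μ s := by
    intro μ
    unfold ZP
    rw [hS, Finset.sum_filter]
    refine Finset.sum_congr rfl fun g _ => ?_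
    by_cases hg : CMFP.IsRefl V g ∧ V g *ᵥ p = p
    · rw [if_pos (show g ∈ PR (repHom hV.1) p from hg), if_pos hg]
      rfl
    · rw [if_neg (show g ∉ PR (repHom hV.1) p from hg), if_neg hg]
      rfl
  set Cs : Finset ℤ := Finset.Icc (-(S.card : ℤ)) S.card with hCs
  have hkill : ∀ μ : Λ, aeval (zP (rN hV hρ μ) p) (∏ c ∈ Cs, (X - C (c : ℂ))) = 0 := by
    intro μ
    rw [hz]
    refine (trace_extreme (rG hρ μ) S (fun s hs => h.sq s ((hSm s).1 hs).1) hconj
      (Finset.univ.filter (fun w => w ∈ Subgroup.closure (S : Set G)))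
      (fun w => by simp) 1 (Or.inl rfl) (fun _ => 1) rfl (fun _ _ _ _ => (one_mul _).symm)
      (fun _ _ => by norm_num)).1
  by_cases hc : c ∈ Cs
  · refine (A.refl2 hM h).isRk CMF.inj_int hM p Cs c hc (fun μ => hkill μ) _ (fun (μ : Λ) => ?_)
    unfold rkE
    rw [hZ, ← hz]
    exact RkX.trace_eig _ Cs c hc (hkill μ)
  · refine isRk_zero.congr fun (μ : Λ) => ?_
    symm
    unfold rkE
    rw [hZ, ← hz, Nat.cast_eq_zero]
    have hbot : Module.End.eigenspace (Matrix.toLin' (zP (rN hV hρ μ) p)) (c : ℂ) = ⊥ := by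
      rw [Submodule.eq_bot_iff]
      intro v hv
      rw [Module.End.mem_eigenspace_iff] at hv
      have hv' : zP (rN hV hρ μ) p *ᵥ v = (c : ℂ) • v := hv
      have h1 : ∀ g : ℂ[X], aeval (zP (rN hV hρ μ) p) g *ᵥ v = g.eval (c : ℂ) • v := by
        intro g
        have h2 := Module.End.aeval_apply_of_hasEigenvector (f := Matrix.toLin' (zP (rN hV hρ μ) p))
          (p := g) (μ := (c : ℂ)) (x := v)
        by_cases hv0 : v = 0
        · rw [hv0, Matrix.mulVec_zero, smul_zero]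
        · have h3 := h2 ⟨Module.End.mem_eigenspace_iff.2 hv, hv0⟩
          have h4 : aeval (Matrix.toLin' (zP (rN hV hρ μ) p)) g =
              Matrix.toLin' (aeval (zP (rN hV hρ μ) p) g) :=
            Polynomial.aeval_algHom_apply (Matrix.toLinAlgEquiv' (R := ℂ) (n := Fin (d μ))).toAlgHom
              (zP (rN hV hρ μ) p) g
          rw [h4] at h3
          exact h3
      have h2 := h1 (∏ c ∈ Cs, (X - C (c : ℂ)))
      rw [hkill μ, Matrix.zero_mulVec, Polynomial.eval_prod] at h2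
      have h3 : (∏ c' ∈ Cs, (X - C ((c' : ℤ) : ℂ)).eval (c : ℂ)) ≠ 0 := by
        rw [Finset.prod_ne_zero_iff]
        intro c' hc' h4
        rw [eval_sub, eval_X, eval_C, sub_eq_zero] at h4
        have h5 : c = c' := by exact_mod_cast h4
        exact hc (h5 ▸ hc')
      exact (smul_eq_zero.1 h2.symm).resolve_left h3
    have h0 : Module.finrank ℂ
        (Module.End.eigenspace (Matrix.toLin' (zP (rN hV hρ μ) p)) (c : ℂ)) = 0 := by
      rw [hbot]
      exact finrank_bot ℂ _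
    exact h0

end

end Pool.Agent.CMFn
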