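import Pool.Agent.CMFn.RkEDefs
import Pool.Agent.CMFn.IsolT

/-! Project CMFn: transport of `RankSepE` under conjugation of the reflection representation.
helper74. -/

namespace Pool.Agent.CMFn

open Matrix ConnTX IsolTX

noncomputable section

variable {G : Type} [Group G] {r : ℕ} {V V' : G →* Matrix (Fin r) (Fin r) ℂ}
  {P : Matrix (Fin r) (Fin r) ℂ}

namespace RkET

lemma pr_conj (hP : IsUnit P) (h : ∀ g, V' g = P * V g * P⁻¹) (p : Fin r → ℂ) :
    PR V' (P *ᵥ p) = PR V p := by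
  unfold PR
  simp only [rank_conj hP h, fix_conj hP h]

lemma rkE_conj [Fintype G] (hP : IsUnit P) (h : ∀ g, V' g = P * V g * P⁻¹) (p : Fin r → ℂ)
    (κ : ℂ) (a : MRep G) : rkE V' (P *ᵥ p) κ a = rkE V p κ a := by
  unfold rkE ZP
  rw [pr_conj hP h]

end RkET

lemma rankSepE_conj' [Fintype G] (hP : IsUnit P) (h : ∀ g, V' g = P * V g * P⁻¹)
    {Y : MRep G → Prop} {a : MRep G} (ha : RankSepE V Y a) : RankSepE V' Y a := by
  obtain ⟨N, k, p, κ, n, hN, h1, h2⟩ := ha
  refine ⟨N, k, fun i => P *ᵥ p i, κ, n, hN, fun b hb hab => ?_, fun i => ?_⟩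
  · simp only [RkET.rkE_conj hP h]
    exact h1 b hb ((sameLevel_conj hP h a b).1 hab)
  · simp only [RkET.rkE_conj hP h]
    rcases h2 i with h3 | h3
    · exact Or.inl fun b hb hab hY => h3 b hb ((sameLevel_conj hP h a b).1 hab) hY
    · exact Or.inr fun b hb hab hY => h3 b hb ((sameLevel_conj hP h a b).1 hab) hY

/-- Conjugation of the reflection representation, `RankSepE`. -/
theorem rankSepE_conj [Fintype G] (hP : IsUnit P) (h : ∀ g, V' g = P * V g * P⁻¹)
    (Y : MRep G → Prop) (a : MRep G) : RankSepE V' Y a ↔ RankSepE V Y a :=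
  ⟨rankSepE_conj' (isUnit_inv' hP) (symm_conj hP h), rankSepE_conj' hP h⟩

end

end Pool.Agent.CMFn
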