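import Pool.Agent.CMFn.MDim
import Pool.Agent.CMFn.CParD

/-! Project CMFn: elements of the Hecke algebra which belong to the eigenvalues of the sums of
the reflections of the parabolic subgroups. -/

set_option linter.unusedSectionVars false

namespace Pool.Agent.CMFn

open Matrix Polynomial G1 G4 Pool.Agent QFinX
open Pool.Agent.CMF (HData KZData Lau mon pair pairC evL TwFam IsInt stdHData dlt)

noncomputable section

/-- The rank of a spectral projection of a semisimple matrix. -/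
theorem trace_spec {m : ℕ} (Z : Matrix (Fin m) (Fin m) ℂ) (S : Finset ℤ) (c : ℤ) (hc : c ∈ S)
    (hS : aeval Z (∏ c ∈ S, (X - C (c : ℂ))) = 0) :
    (∏ c' ∈ S.erase c, ((c : ℂ) - c'))⁻¹ *
      (aeval Z (∏ c' ∈ S.erase c, (X - C (c' : ℂ)))).trace =
      Module.finrank ℂ (Module.End.eigenspace (Matrix.toLin' Z) (c : ℂ)) := by
  set q : ℂ[X] := ∏ c' ∈ S.erase c, (X - C (c' : ℂ)) with hq
  set δ : ℂ := ∏ c' ∈ S.erase c, ((c : ℂ) - c') with hδ
  have hδ0 : δ ≠ 0 := by
    rw [hδ, Finset.prod_ne_zero_iff]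
    intro c' hc' h
    have h1 : (c : ℂ) = c' := sub_eq_zero.1 h
    have h2 : c = c' := by exact_mod_cast h1
    exact (Finset.ne_of_mem_erase hc') h2.symm
  have hqe : q.eval (c : ℂ) = δ := by
    rw [hq, hδ, Polynomial.eval_prod]
    refine Finset.prod_congr rfl fun c' _ => ?_
    rw [Polynomial.eval_sub, Polynomial.eval_X, Polynomial.eval_C]
  have hSq : (∏ c ∈ S, (X - C (c : ℂ))) = (X - C (c : ℂ)) * q :=
    (Finset.mul_prod_erase S (fun c : ℤ => (X - C (c : ℂ) : ℂ[X])) hc).symm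
  set f := Matrix.toLin' Z with hf
  have hf0 : aeval f ((X - C (c : ℂ)) * q) = 0 := by
    have h1 : aeval f ((X - C (c : ℂ)) * q) = Matrix.toLin' (aeval Z ((X - C (c : ℂ)) * q)) := by
      rw [hf]
      exact (Polynomial.aeval_algHom_apply (Matrix.toLinAlgEquiv'.toAlgHom :
        Matrix (Fin m) (Fin m) ℂ →ₐ[ℂ] _) Z _)
    rw [h1, ← hSq, hS, map_zero]
  have hp : LinearMap.IsProj (Module.End.eigenspace f (c : ℂ)) (δ⁻¹ • aeval f q) := by
    constructor
    · intro x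
      rw [Module.End.mem_eigenspace_iff, LinearMap.smul_apply, map_smul]
      have h1 := LinearMap.congr_fun hf0 x
      rw [map_mul, Module.End.mul_apply, map_sub, aeval_X, aeval_C, LinearMap.sub_apply,
        LinearMap.zero_apply, Module.algebraMap_end_apply, sub_eq_zero] at h1
      rw [h1, smul_comm]
    · intro x hx
      rw [LinearMap.smul_apply, Module.End.aeval_apply_of_mem_apply_eq_smul
        (Module.End.mem_eigenspace_iff.1 hx), hqe, smul_smul, inv_mul_cancel₀ hδ0, one_smul]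
  have h2 := hp.trace
  rw [map_smul, smul_eq_mul] at h2
  rw [← h2]
  congr 1
  have h3 : aeval f q = Matrix.toLin' (aeval Z q) := by
    rw [hf]
    exact (Polynomial.aeval_algHom_apply (Matrix.toLinAlgEquiv'.toAlgHom :
      Matrix (Fin m) (Fin m) ℂ →ₐ[ℂ] _) Z _)
  rw [h3, Matrix.trace_toLin'_eq]

variable {n : ℕ} {G : Type} [Group G] [Fintype G] {V : G → Matrix (Fin n) (Fin n) ℂ}
  {Λ : Type} [Fintype Λ] {d : Λ → ℕ} {ρ : ∀ l, G → Matrix (Fin (d l)) (Fin (d l)) ℂ}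
  {hV : CMFP.IsReflGroup V} {hρ : CMFP.IsIrrFam d ρ} {F : Type} [Field F] [Algebra F ℂ]
  {v₀ : Fin n → ℂ} {hv₀ : CMFP.Reg V v₀} {D : CMFP.StdHk F V v₀ d}
  {hN : ∃ s ∈ img hV.1, IsRefl s} [Fintype (CMFP.Idx V)]

/-- The sum of the reflections which fix `p`. -/
theorem zP_ZP (hV : CMFP.IsReflGroup V) (hρ : CMFP.IsIrrFam d ρ) (l : Λ) (p : Fin n → ℂ) :
    zP (rN hV hρ l) p = ZP (repHom hV.1) p (mr hρ l) := by
  classical
  rw [zP_eq l p (Finset.univ.filter fun s => CMFP.IsRefl V s ∧ V s *ᵥ p = p) (fun s => by simp),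
    Finset.sum_filter]
  unfold ZP
  refine Finset.sum_congr rfl fun g _ => ?_
  by_cases hg : CMFP.IsRefl V g ∧ V g *ᵥ p = p
  · rw [if_pos hg]
    exact (if_pos (show g ∈ PR (repHom hV.1) p from hg)).symm
  · rw [if_neg hg]
    exact (if_neg (show g ∉ PR (repHom hV.1) p from hg)).symm

open Classical in
/-- The element of the Hecke algebra which belongs to the eigenvalue `c` of the sum of the
reflections at `p`. -/
theorem Asm.exists_fE (A : Asm hV hρ F v₀ hv₀ D hN)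
    (hM : 0 < CMFP.mu (NumberField.RingOfIntegers F)) {s₀ : G} (h : OneClass V s₀)
    (p : Fin n → ℂ) (c : ℤ) :
    ∃ (J : Type) (_ : Fintype J) (P : J → (CMFP.Idx V →₀ ℤ) × (CMFP.Idx V →₀ ℤ))
      (f : (hD hρ D).H), (∀ j, (P j).1 ≠ (P j).2) ∧
      f * f = dlt (NumberField.RingOfIntegers F) P • f ∧ ∀ l : Λ,
        (hD hρ D).X l f = (rkE (repHom hV.1) p c (mr hρ l) :
          Lau (NumberField.RingOfIntegers F) (CMFP.Idx V)) * dlt _ P := by
  obtain ⟨Cs₀, -, -, hCs₀, -⟩ := exists_ext hV hρ h p false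
  set Cs := insert c Cs₀ with hCsd
  have hc : c ∈ Cs := Finset.mem_insert_self _ _
  have hCs : ∀ l : Λ, aeval (zP (rN hV hρ l) p) (∏ c ∈ Cs, (X - C (c : ℂ))) = 0 := by
    intro l
    by_cases h1 : c ∈ Cs₀
    · rw [hCsd, Finset.insert_eq_of_mem h1]
      exact hCs₀ l
    · rw [hCsd, Finset.prod_insert h1, map_mul, hCs₀ l, mul_zero]
  obtain ⟨T, hE', hG, hr⟩ := (A.refl2 hM h).exists_tw hM p Cs hCs
  set e : Fin 1 → (CMFP.Idx V →₀ ℤ) := fun _ =>
    exq (CMFP.mu (NumberField.RingOfIntegers F)) (nP (img hV.1) p) (CMFP.idx V s₀ h.refl 0)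
      (CMFP.idx V s₀ h.refl 1) c with he
  have hmem : ∀ i, e i ∈ T.E i := by
    intro i
    rw [hE']
    exact Finset.mem_image_of_mem _ hc
  choose k hk hX using fun l => T.X_f CMF.inj_int hM e hmem _ hG l
  have hrk : ∀ l : Λ, k l = rkE (repHom hV.1) p c (mr hρ l) := by
    intro l
    have h1 : ((k l : ℕ) : ℂ) = _ := (hk l).symm
    rw [hr c hc l] at h1
    have h2 := trace_spec (zP (rN hV hρ l) p) Cs c hc (hCs l)
    have h3 : ((k l : ℕ) : ℂ) = (rkE (repHom hV.1) p c (mr hρ l) : ℕ) := by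
      rw [h1]
      refine h2.trans ?_
      rw [zP_ZP hV hρ l p]
      rfl
    exact_mod_cast h3
  refine ⟨(Σ i : Fin 1, {a // a ∈ (T.E i).erase (e i)}), inferInstance,
    (fun q => (e q.1, q.2.1)), T.f e, ?_, ?_, fun l => ?_⟩
  · rintro ⟨i, a, ha⟩
    exact (Finset.ne_of_mem_erase ha).symm
  · rw [← T.del_dlt e]
    exact T.f_sq CMF.inj_int hM e hmem
  · rw [← T.del_dlt e, ← hrk l]
    exact hX l

end

end Pool.Agent.CMFn
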