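import Pool.Agent.CMFn.MDim
import Pool.Agent.CMFn.MtC
import Pool.Agent.CMFn.IsolT3
import Pool.Agent.CMFn.CQY
import Pool.Agent.CMFn.QRkE
import Pool.Agent.CMFn.RkET
import Pool.Agent.CMFn.RkD

/-! Project CMFn: groups with one class of reflections of order two, whose levels are cut by rank
certificates and connected by links up to isolated characters.  helper62. -/

namespace Pool.Agent.CMFn

open Matrix Pool.Agent.CMFP

noncomputable section

section

variable {G : Type} [Group G] {r : ℕ}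

/-- Levels are transitive. -/
lemma sameLevel_trans {V : G →* Matrix (Fin r) (Fin r) ℂ} {a b c : MRep G} (hb : IsIrr b.2)
    (h1 : SameLevel V a b) (h2 : SameLevel V b c) : SameLevel V a c := by
  intro g hg
  have h3 := h1 g hg
  have h4 := h2 g hg
  have h5 : (b.1 : ℂ) ≠ 0 := Nat.cast_ne_zero.2 (Fin.pos_iff_nonempty.2 hb.1).ne'
  apply mul_left_cancel₀ h5
  linear_combination (c.1 : ℂ) * h3 + (a.1 : ℂ) * h4

/-- Links preserve the level. -/
lemma sameLevel_of_eqvGen [Fintype G] {V : G →* Matrix (Fin r) (Fin r) ℂ} {a b : MRep G}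
    (h : Relation.EqvGen (Lk V) a b) (ha : IsIrr a.2) : SameLevel V a b ∧ IsIrr b.2 := by
  have key : ∀ a b : MRep G, Relation.EqvGen (Lk V) a b → (IsIrr a.2 ↔ IsIrr b.2) ∧
      (IsIrr a.2 → SameLevel V a b) := by
    intro a b h
    induction h with
    | rel x y h => exact ⟨iff_of_true h.1 h.2.1, fun _ => h.2.2.1⟩
    | refl x => exact ⟨Iff.rfl, fun _ g _ => rfl⟩
    | symm x y _ ih => exact ⟨ih.1.symm, fun h => sameLevel_symm (ih.2 (ih.1.2 h))⟩
    | trans x y z _ _ h1 h2 =>
      exact ⟨h1.1.trans h2.1, fun h =>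
        sameLevel_trans (h1.1.1 h) (h1.2 h) (h2.2 (h1.1.1 h))⟩
  obtain ⟨h1, h2⟩ := key a b h
  exact ⟨h2 ha, h1.1 ha⟩

/-- The rank criterion depends only on the level. -/
lemma RankSepE.of_sameLevel [Fintype G] {V : G →* Matrix (Fin r) (Fin r) ℂ} {Y : MRep G → Prop}
    {a a' : MRep G} (ha' : IsIrr a'.2) (h : SameLevel V a a')
    (hR : RankSepE V Y a) : RankSepE V Y a' := by
  obtain ⟨N, k, p, κ, n, hN, h1, h2⟩ := hR
  refine ⟨N, k, p, κ, n, hN, fun b hb hl => h1 b hb (sameLevel_trans ha' h hl), fun i => ?_⟩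
  rcases h2 i with h3 | h3
  · exact Or.inl fun b hb hl => h3 b hb (sameLevel_trans ha' h hl)
  · exact Or.inr fun b hb hl => h3 b hb (sameLevel_trans ha' h hl)

end

namespace GD

variable {G : Type} [Group G] {r : ℕ} {V : G →* Matrix (Fin r) (Fin r) ℂ}
variable {α : Type} {d : GD α} {φ : α → ℂ} {e : ℕ → ℂ} {γ : ℕ → G}

/-- Every level is connected, up to the representations in `X` and the partition by the
representations listed in `J`. -/
theorem Out.connYS [Fintype G] (hc : CRS d.c φ e) {lt : ℕ → G} {a : ℕ → MRep G}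
    (O : Out d φ V γ lt a) (X : MRep G → Prop)
    (hX : ∀ x y : MRep G, x.1 = y.1 → (∀ g, (x.2 g).trace = (y.2 g).trace) → X x → X y)
    {I J : ℕ} (hI : ∀ i < d.K, bit I i = true → X (a i))
    (hlab : ∀ i < d.K, d.chkLabXY I J i = true) : ConnXY V X (d.InS a J) := by
  have key : ∀ i < d.K, ∀ i' < i, bit I i = false → bit I i' = false →
      bit J i = bit J i' → SameLevel V (a i) (a i') → d.labv i = d.labv i' := by
    intro i hi i' hi' hb hb' hJJ hS
    have h1 := hlab i hi
    unfold chkLabXY at h1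
    rw [hb, cond_false, allN_iff] at h1
    have h2 := h1 i' hi'
    rw [hb', cond_false] at h2
    cases h3 : Nat.beq (d.labv i) (d.labv i') with
    | true => exact beq_iff.1 h3
    | false =>
      rw [h3, cond_false, hJJ] at h2
      have h4 : d.difE i i' = true := by
        cases h5 : bit J i' with
        | true => rw [h5, cond_true, cond_true] at h2; exact h2
        | false => rw [h5, cond_false, cond_false] at h2; exact h2
      exact absurd hS (difE_of hc O hi (by omega) h4)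
  -- a good index
  have hidx : ∀ x : MRep G, IsIrr x.2 → ∃ i < d.K, x.1 = (a i).1 ∧
      (∀ g, (x.2 g).trace = ((a i).2 g).trace) ∧ (bit J i = true ↔ d.InS a J x) := by
    intro x hx
    by_cases h : d.InS a J x
    · obtain ⟨i, hi, h1, h2, h3⟩ := h
      exact ⟨i, hi, h2, h3, iff_of_true h1 ⟨i, hi, h1, h2, h3⟩⟩
    · obtain ⟨i, hi, h2, h3⟩ := O.compl x hx
      exact ⟨i, hi, h2, h3, iff_of_false (fun h1 => h ⟨i, hi, h1, h2, h3⟩) h⟩
  intro x y hx hy hS hYY hnx hny
  obtain ⟨i, hi, hxi, hxi', hJx⟩ := hidx x hx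
  obtain ⟨i', hi', hyi, hyi', hJy⟩ := hidx y hy
  have hb : ∀ j < d.K, ∀ z : MRep G, z.1 = (a j).1 → (∀ g, (z.2 g).trace = ((a j).2 g).trace) →
      ¬ X z → bit I j = false := by
    intro j hj z h1 h2 hz
    cases h3 : bit I j with
    | false => rfl
    | true => exact absurd (hX _ _ h1.symm (fun g => (h2 g).symm) (hI j hj h3)) hz
  have hbi := hb i hi x hxi hxi' hnx
  have hbi' := hb i' hi' y hyi hyi' hny
  have hJJ : bit J i = bit J i' := by
    rw [Bool.eq_iff_iff, hJx, hJy, hYY]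
  have hS' : SameLevel V (a i) (a i') :=
    sameLevel_symm (sameLevel_left hyi hyi' (sameLevel_symm (sameLevel_left hxi hxi' hS)))
  have hl : d.labv i = d.labv i' := by
    rcases Nat.lt_trichotomy i i' with h | h | h
    · exact (key i' hi' i h hbi' hbi hJJ.symm (sameLevel_symm hS')).symm
    · rw [h]
    · exact key i hi i' h hbi hbi' hJJ hS'
  have e1 : Relation.EqvGen (Lk V) x (a i) :=
    Relation.EqvGen.rel _ _ (lk_of_eq O.r0 V x (a i) hx (O.irr i hi).1 hxi hxi')
  have e2 : Relation.EqvGen (Lk V) y (a i') :=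
    Relation.EqvGen.rel _ _ (lk_of_eq O.r0 V y (a i') hy (O.irr i' hi').1 hyi hyi')
  have e3 := (O.link i hi).1
  have e4 := (O.link i' hi').1
  rw [← hl] at e4
  exact e1.trans _ _ _ (e3.trans _ _ _ ((e4.symm _ _).trans _ _ _ (e2.symm _ _)))

/-- Representations with the same label have the same level. -/
theorem Out.sameLevel_lab [Fintype G] {lt : ℕ → G} {a : ℕ → MRep G} (O : Out d φ V γ lt a)
    {i j : ℕ} (hi : i < d.K) (hj : j < d.K) (h : d.labv i = d.labv j) :
    SameLevel V (a i) (a j) := by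
  have e3 := (O.link i hi).1
  have e4 := (O.link j hj).1
  rw [← h] at e4
  exact (sameLevel_of_eqvGen (e3.trans _ _ _ (e4.symm _ _)) (O.irr i hi).1).1

/-- The rank criterion for all the representations listed in `Y`, from the levels of the
representations in the list `L`. -/
theorem Out.rankSepE_all [Fintype G] {lt : ℕ → G} {a : ℕ → MRep G} (O : Out d φ V γ lt a)
    {Y : ℕ} (L : List ℕ)
    (hL : (allN d.K fun i => cond (bit Y i)
      (L.any fun j => cond (Nat.blt j d.K) (Nat.beq (d.labv i) (d.labv j)) false) true) = true)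
    (H : ∀ j ∈ L, RankSepE V (d.InS a Y) (a j)) :
    ∀ x : MRep G, IsIrr x.2 → d.InS a Y x → RankSepE V (d.InS a Y) x := by
  rintro x hx ⟨i, hi, hY, h1, h2⟩
  have h3 := allN_iff.1 hL i hi
  rw [hY, cond_true, List.any_eq_true] at h3
  obtain ⟨j, hj, h4⟩ := h3
  simp only [cond_iff, blt_iff, beq_iff] at h4
  obtain ⟨h5, h6⟩ := h4
  have h7 : SameLevel V (a j) (a i) := O.sameLevel_lab h5 hi h6.symm
  have h8 : SameLevel V (a i) x := fun g _ => by rw [h2 g, h1]
  exact (H j hj).of_sameLevel hx (sameLevel_trans (O.irr i hi).1 h7 h8)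

end GD

section

variable {G : Type} [Group G] [Fintype G] {r : ℕ}

/-- The levels are cut by rank certificates and connected by links up to isolated characters. -/
def SplitE (V : G →* Matrix (Fin r) (Fin r) ℂ) : Prop :=
  ∃ Y : MRep G → Prop, (∀ a : MRep G, IsIrr a.2 → Y a → RankSepE V Y a) ∧
    ConnXY V (IsolAny V) Y

theorem splitE_of_conj {V V' : G →* Matrix (Fin r) (Fin r) ℂ} {P : Matrix (Fin r) (Fin r) ℂ}
    (hP : IsUnit P) (h : ∀ g, V' g = P * V g * P⁻¹) (hc : SplitE V') : SplitE V := by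
  obtain ⟨Y, h1, h2⟩ := hc
  refine ⟨Y, fun a ha hY => (rankSepE_conj hP h Y a).1 (h1 a ha hY), ?_⟩
  refine connXY_mono (fun a ha => ?_) (connXY_of_conj hP h h2)
  rcases ha with ha | ha | ha
  · exact Or.inl ((isol_conj hP h a).1 ha)
  · exact Or.inr (Or.inl ((isolE_conj hP h a).1 ha))
  · exact Or.inr (Or.inr ((isolC_conj hP h a).1 ha))

end

/-- Martino's conjecture, `K = ℂ`, for groups with one class of reflections, of order two, whose
levels are cut by rank certificates and connected by links up to isolated characters. -/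
theorem mart_splitE {n : ℕ} (hn : 2 ≤ n) {G : Type} [Group G] [Fintype G]
    (W : G → Matrix (Fin n) (Fin n) ℂ) (hW : CMFP.IsReflGroup W)
    (hsq : ∀ s, CMFP.IsRefl W s → s * s = 1)
    (hone : ∀ s t, CMFP.IsRefl W s → CMFP.IsRefl W t → ∃ g : G, g * s * g⁻¹ = t)
    (hE : SplitE (repHom hW.1)) : Mart W := by
  intro Λ _ d ρ hρ F _ _ hF v₀ hv₀ D hD S k κ hκ m hm χ ψ h
  classical
  obtain ⟨Y, hY, hconn⟩ := hE
  have hM := CMFP.mu_pos hW.1 F hF
  have hfin : Finite (CMFP.Idx W) := CMF.idx_finite hW.1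
  have : Fintype (CMFP.Idx W) := Fintype.ofFinite _
  obtain ⟨A⟩ := exists_asm hW hρ hF hv₀ D hD (exists_refl hn hW)
  refine rank_splitXY A _ Y hconn hF S k κ hκ m hm χ ψ h (fun l hl => ?_) fun l₀ hl₀ => ?_
  · rcases hl with hl | hl | hl
    · exact A.isInt_isol hM hsq hone l hl
    · exact A.isInt_isolE hM hsq hone l hl
    · exact A.isInt_isolC hM hsq hone l hl
  · obtain ⟨N, j, p, ν, c, h0, h1, h2⟩ := hY _ (isIrr_mr hρ l₀) hl₀
    exact A.isInt_rankLvl hF S hsq hone l₀ p ν c N h0 h1 h2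

/-- The same from the Cartan matrix, linearly independent roots. -/
theorem mart_of_certE {α : Type} {d : GD α} {φ : α → ℂ} {e : ℕ → ℂ} {r : ℕ}
    (hc : CRS d.c φ e)
    (hr : d.r = r) (hng : d.ng = r) (hr2 : 2 ≤ r) {c D : ℕ → ℕ → α} {κ : α}
    (h1 : d.chkCar c = true) (h2 : d.chkDet c D κ = true) {C : Matrix (Fin r) (Fin r) ℂ}
    (hC : ∀ i j : Fin r, C i j = φ (c i j)) {G : Type} [Group G] [Fintype G]
    (H : ∀ (V : G →* Matrix (Fin r) (Fin r) ℂ) (γ : ℕ → G), GD.Gp d φ V γ →
      OneCls V ∧ SplitE V) {n : ℕ}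
    (W : G → Matrix (Fin n) (Fin n) ℂ) (hW : IsReflGroup W) (hWC : HasCartan W C) : Mart W := by
  obtain ⟨hn, h3, h4⟩ := prop_of_cartan' hW hWC (by omega) (GD.det_of_car hc hr h2 hC)
    (fun _ V => OneCls V ∧ SplitE V)
    (fun _ _ _ hP h hc => ⟨oneCls_of_conj hP h hc.1, splitE_of_conj hP h hc.2⟩)
    fun V hV γ hcl hm => H V _ (GD.gp_of_car hc hr hng h1 hC hV hcl hm)
  exact mart_splitE (by omega) W hW h3.1 h3.2 h4

end

end Pool.Agent.CMFn
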