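import Pool.Agent.CMFn.RkDefs
import Pool.Agent.CMFn.IsolT

/-! Project CMFn: the rank criterion, conjugation of the reflection representation. -/

namespace Pool.Agent.CMFn

open Matrix ConnTX IsolTX

noncomputable section

variable {G : Type} [Group G] [Fintype G] {r : ℕ} {V V' : G →* Matrix (Fin r) (Fin r) ℂ}
  {P : Matrix (Fin r) (Fin r) ℂ}

theorem rankSep_conj' (hP : IsUnit P) (h : ∀ g, V' g = P * V g * P⁻¹) {Y : MRep G → Prop}
    {a : MRep G} (ha : RankSep V Y a) : RankSep V' Y a := by
  obtain ⟨N, k, p, σ, n, hN, h1, h2⟩ := ha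
  refine ⟨N, k, fun i => P *ᵥ p i, σ, n, hN, fun b hb hab => ?_, fun i => ?_⟩
  · simp only [psum_conj hP h, wp_conj hP h]
    exact h1 b hb ((sameLevel_conj hP h a b).1 hab)
  · rcases h2 i with h3 | h3
    · left
      intro b hb hab hY
      rw [psum_conj hP h]
      exact h3 b hb ((sameLevel_conj hP h a b).1 hab) hY
    · right
      intro b hb hab hY
      rw [psum_conj hP h]
      exact h3 b hb ((sameLevel_conj hP h a b).1 hab) hY

/-- Conjugation of the reflection representation. -/
theorem rankSep_conj (hP : IsUnit P) (h : ∀ g, V' g = P * V g * P⁻¹) (Y : MRep G → Prop)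
    (a : MRep G) : RankSep V' Y a ↔ RankSep V Y a :=
  ⟨rankSep_conj' (isUnit_inv' hP) (symm_conj hP h), rankSep_conj' hP h⟩

end

end Pool.Agent.CMFn
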