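import Mathlib

/-! # Exactness

`H` an algebra over `A`, `R l` representations such that every element all of whose traces vanish is,
up to the factor `r`, a sum of commutators.  Two polynomials over `H` with constant coefficient one
which have the same determinants in all the `R l` have the same determinant in every representation
`ψ` over a domain in which `r` does not vanish.  Consequence: linear relations between the ranks of
quasi-idempotents which hold in all the `R l` hold in every representation. -/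

namespace Pool.Agent.CMF.Rk

open Polynomial Matrix

section basic

variable {H : Type*} [Ring H] {k : Type*} [CommRing k] {n : Type*} [Fintype n] [DecidableEq n]

/-- The matrix of polynomials of a polynomial over `H` in a representation. -/
noncomputable def dM (ψ : H →+* Matrix n n k) : H[X] →+* Matrix n n k[X] :=
  (matPolyEquiv (R := k) (n := n)).symm.toRingEquiv.toRingHom.comp (mapRingHom ψ)

theorem dM_coeff (ψ : H →+* Matrix n n k) (P : H[X]) (i j : n) (t : ℕ) :
    (dM ψ P i j).coeff t = ψ (P.coeff t) i j := by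
  change ((matPolyEquiv (R := k) (n := n)).symm (P.map ψ) i j).coeff t = _
  rw [matPolyEquiv_symm_apply_coeff, coeff_map]

/-- The determinant of a polynomial over `H` in a representation. -/
noncomputable def dP (ψ : H →+* Matrix n n k) : H[X] →* k[X] :=
  (Matrix.detMonoidHom (n := n) (R := k[X])).comp (dM ψ : H[X] →* Matrix n n k[X])

theorem dP_apply (ψ : H →+* Matrix n n k) (P : H[X]) : dP ψ P = (dM ψ P).det := rfl

theorem dM_X_pow_mul (ψ : H →+* Matrix n n k) (m : ℕ) (T : H[X]) :
    dM ψ (X ^ m * T) = (X ^ m : k[X]) • dM ψ T := by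
  ext i j t
  rw [dM_coeff, Matrix.smul_apply, smul_eq_mul, coeff_X_pow_mul', coeff_X_pow_mul']
  split_ifs with h
  · rw [dM_coeff]
  · rw [map_zero, Matrix.zero_apply]

theorem det_congr (A B : Matrix n n k[X]) (m : ℕ) (h : ∀ i j, (X : k[X]) ^ m ∣ A i j - B i j) :
    (X : k[X]) ^ m ∣ A.det - B.det := by
  rw [← Ideal.mem_span_singleton, ← Ideal.Quotient.eq, RingHom.map_det, RingHom.map_det]
  congr 1
  ext i j
  rw [RingHom.mapMatrix_apply, RingHom.mapMatrix_apply, Matrix.map_apply, Matrix.map_apply,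
    Ideal.Quotient.eq, Ideal.mem_span_singleton]
  exact h i j

theorem det_step (B T : Matrix n n k[X]) (m : ℕ) (hm : 1 ≤ m)
    (hB : ∀ i j, (X : k[X]) ∣ B i j - (1 : Matrix n n k[X]) i j) :
    (X : k[X]) ^ (m + 1) ∣ (B + (X ^ m : k[X]) • T).det - B.det - X ^ m * T.trace := by
  have h1 : (X : k[X]) ^ (m + 1) ∣
      ((1 + (X ^ m : k[X]) • T) * B).det - (B + (X ^ m : k[X]) • T).det := by
    refine det_congr _ _ _ fun i j => ?_
    have e : ((1 + (X ^ m : k[X]) • T) * B) - (B + (X ^ m : k[X]) • T)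
        = (X ^ m : k[X]) • (T * (B - 1)) := by
      rw [add_mul, one_mul, smul_mul_assoc, mul_sub, mul_one, smul_sub]
      abel
    rw [← Matrix.sub_apply, e, Matrix.smul_apply, smul_eq_mul, pow_succ]
    refine mul_dvd_mul_left _ ?_
    rw [Matrix.mul_apply]
    exact Finset.dvd_sum fun q _ => Dvd.dvd.mul_left (hB q j) _
  have h2 : (X : k[X]) ^ 1 ∣ B.det - (1 : Matrix n n k[X]).det :=
    det_congr _ _ _ fun i j => by rw [pow_one]; exact hB i j
  rw [det_mul, det_one_add_smul] at h1
  rw [det_one, pow_one] at h2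
  obtain ⟨e, he⟩ := h1
  obtain ⟨g, hg⟩ := h2
  obtain ⟨m', rfl⟩ : ∃ m', m = m' + 1 := ⟨m - 1, by omega⟩
  set c := ((1 + (X : k[X][X]) • T.map C).det).divX.divX.eval (X ^ (m' + 1)) with hc
  refine ⟨T.trace * g + c * X ^ m' * B.det - e, ?_⟩
  have hd : B.det = 1 + X * g := by rw [← hg]; ring
  have he' : (B + (X ^ (m' + 1) : k[X]) • T).det
      = (1 + T.trace * X ^ (m' + 1) + c * (X ^ (m' + 1)) ^ 2) * B.det - X ^ (m' + 1 + 1) * e := by
    rw [← he]; ring
  rw [he', hd]
  ring

/-- Equality of the determinants up to order `m` gives a vanishing trace. -/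
theorem trace_zero (ψ : H →+* Matrix n n k) (P Q : H[X]) (m : ℕ) (hm : 1 ≤ m)
    (hQ : Q.coeff 0 = 1) (hPQ : ∀ t < m, P.coeff t = Q.coeff t)
    (h : (X : k[X]) ^ (m + 1) ∣ dP ψ P - dP ψ Q) :
    (ψ (P.coeff m - Q.coeff m)).trace = 0 := by
  obtain ⟨T, hT⟩ : (X : H[X]) ^ m ∣ P - Q := by
    rw [X_pow_dvd_iff]
    intro t ht
    rw [coeff_sub, hPQ t ht, sub_self]
  have hP : P = Q + X ^ m * T := by rw [← hT]; abel
  have hT0 : T.coeff 0 = P.coeff m - Q.coeff m := by
    rw [← coeff_sub, hT, coeff_X_pow_mul', if_pos le_rfl, Nat.sub_self]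
  have hM : dM ψ P = dM ψ Q + (X ^ m : k[X]) • dM ψ T := by
    rw [hP, map_add, dM_X_pow_mul]
  have hB : ∀ i j, (X : k[X]) ∣ dM ψ Q i j - (1 : Matrix n n k[X]) i j := by
    intro i j
    rw [X_dvd_iff, coeff_sub, dM_coeff, hQ, map_one, Matrix.one_apply, Matrix.one_apply]
    split_ifs <;> simp
  have h1 := det_step (dM ψ Q) (dM ψ T) m hm hB
  rw [← hM, ← dP_apply, ← dP_apply] at h1
  have h2 : (X : k[X]) ^ (m + 1) ∣ X ^ m * (dM ψ T).trace := by
    have := dvd_sub h h1
    rwa [sub_sub_cancel] at this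
  rw [X_pow_dvd_iff] at h2
  have h3 := h2 m (by omega)
  rw [coeff_X_pow_mul', if_pos le_rfl, Nat.sub_self] at h3
  rw [← hT0, Matrix.trace]
  rw [Matrix.trace, finsetSum_coeff] at h3
  rw [← h3]
  refine Finset.sum_congr rfl fun i _ => ?_
  rw [Matrix.diag_apply, Matrix.diag_apply, dM_coeff]

theorem dP_comm (ψ : H →+* Matrix n n k) (m : ℕ) (x y : H) :
    dP ψ (1 + monomial m (x * y)) = dP ψ (1 + monomial m (y * x)) := by
  have e1 : (monomial m (x * y) : H[X]) = C x * monomial m y := by rw [C_mul_monomial]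
  have e2 : (monomial m (y * x) : H[X]) = monomial m y * C x := by rw [monomial_mul_C]
  rw [dP_apply, dP_apply, e1, e2, map_add, map_add, map_mul, map_mul, map_one,
    Matrix.det_one_add_mul_comm]

end basic

section commList

variable {H : Type*} [Ring H]

/-- The sum of the commutators of a list of pairs. -/
def cS (l : List (H × H)) : H := (l.map fun p => p.1 * p.2 - p.2 * p.1).sum

theorem exists_list {A : Type*} [CommRing A] [Algebra A H] (z : H)
    (hz : z ∈ Submodule.span A {c : H | ∃ x y : H, c = x * y - y * x}) :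
    ∃ l : List (H × H), z = cS l := by
  induction hz using Submodule.span_induction with
  | mem z hz =>
    obtain ⟨x, y, rfl⟩ := hz
    exact ⟨[(x, y)], by simp [cS]⟩
  | zero => exact ⟨[], by simp [cS]⟩
  | add z w _ _ hz hw =>
    obtain ⟨l, rfl⟩ := hz
    obtain ⟨l', rfl⟩ := hw
    exact ⟨l ++ l', by simp [cS]⟩
  | smul a z _ hz =>
    obtain ⟨l, rfl⟩ := hz
    refine ⟨l.map fun p => (a • p.1, p.2), ?_⟩
    rw [cS, cS, List.smul_sum, List.map_map, List.map_map]
    congr 1
    refine List.map_congr_left fun p _ => ?_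
    simp only [Function.comp_apply, smul_sub, smul_mul_assoc, mul_smul_comm]

/-- The product of the `1 + X ^ m x`. -/
noncomputable def pS (m : ℕ) (l : List H) : H[X] := (l.map fun x => 1 + monomial m x).prod

theorem pS_coeff_lt (m : ℕ) (hm : 1 ≤ m) (l : List H) :
    (pS m l).coeff 0 = 1 ∧ (∀ t, 1 ≤ t → t < m → (pS m l).coeff t = 0) ∧
      (pS m l).coeff m = l.sum := by
  induction l with
  | nil =>
    refine ⟨by simp [pS], fun t h1 _ => ?_, ?_⟩
    · simp only [pS, List.map_nil, List.prod_nil, coeff_one]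
      rw [if_neg (by omega)]
    · simp only [pS, List.map_nil, List.prod_nil, coeff_one, List.sum_nil]
      rw [if_neg (by omega)]
  | cons x l ih =>
    obtain ⟨h0, h1, h2⟩ := ih
    have e : pS m (x :: l) = pS m l + X ^ m * (C x * pS m l) := by
      rw [pS, List.map_cons, List.prod_cons, ← pS, add_mul, one_mul, ← C_mul_X_pow_eq_monomial,
        ← mul_assoc, ← X_pow_mul_C]
    refine ⟨?_, fun t ht1 ht2 => ?_, ?_⟩
    · rw [e, coeff_add, coeff_X_pow_mul', if_neg (by omega), h0, add_zero]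
    · rw [e, coeff_add, coeff_X_pow_mul', if_neg (by omega), h1 t ht1 ht2, add_zero]
    · rw [e, coeff_add, coeff_X_pow_mul', if_pos le_rfl, h2, Nat.sub_self, coeff_C_mul, h0,
        mul_one, List.sum_cons, add_comm]

theorem mul_coeff_le (m : ℕ) (hm : 1 ≤ m) (P U : H[X]) (hP : P.coeff 0 = 1)
    (hU : U.coeff 0 = 1) (hU1 : ∀ t, 1 ≤ t → t < m → U.coeff t = 0) :
    (P * U).coeff 0 = 1 ∧ (∀ t < m, (P * U).coeff t = P.coeff t) ∧
      (P * U).coeff m = P.coeff m + U.coeff m := by
  obtain ⟨T, hT⟩ : (X : H[X]) ^ m ∣ U - 1 := by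
    rw [X_pow_dvd_iff]
    intro t ht
    rw [coeff_sub, coeff_one]
    rcases Nat.eq_zero_or_pos t with rfl | h
    · rw [if_pos rfl, hU, sub_self]
    · rw [if_neg (by omega), hU1 t h ht, sub_self]
  have hU' : U = 1 + X ^ m * T := by rw [← hT]; abel
  have hPU : P * U = P + X ^ m * (P * T) := by
    rw [hU', mul_add, mul_one, ← mul_assoc, ← mul_assoc, X_pow_mul]
  have hTm : U.coeff m = T.coeff 0 := by
    rw [hU', coeff_add, coeff_one, if_neg (by omega), coeff_X_pow_mul', if_pos le_rfl,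
      Nat.sub_self, zero_add]
  refine ⟨?_, fun t ht => ?_, ?_⟩
  · rw [hPU, coeff_add, coeff_X_pow_mul', if_neg (by omega), hP, add_zero]
  · rw [hPU, coeff_add, coeff_X_pow_mul', if_neg (by omega), add_zero]
  · rw [hPU, coeff_add, coeff_X_pow_mul', if_pos le_rfl, Nat.sub_self, mul_coeff_zero, hP,
      one_mul, hTm]

theorem dP_lists {k : Type*} [CommRing k] {n : Type*} [Fintype n] [DecidableEq n]
    (χ : H →+* Matrix n n k) (m : ℕ) (s : List (H × H)) (f : H → H) :
    dP χ (pS m (s.map fun p => f p.1 * p.2)) = dP χ (pS m (s.map fun p => p.2 * f p.1)) := by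
  rw [pS, pS, map_list_prod, map_list_prod, List.map_map, List.map_map, List.map_map, List.map_map]
  congr 1
  refine List.map_congr_left fun p _ => ?_
  exact dP_comm χ m _ _

end commList

section scaling

variable {A H : Type*} [CommRing A] [Ring H] [Algebra A H]

/-- `P(r X)`. -/
noncomputable def sc (r : A) (P : H[X]) : H[X] :=
  ∑ t ∈ Finset.range (P.natDegree + 1), monomial t (r ^ t • P.coeff t)

theorem sc_coeff (r : A) (P : H[X]) (t : ℕ) : (sc r P).coeff t = r ^ t • P.coeff t := by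
  rw [sc, finsetSum_coeff]
  simp only [coeff_monomial]
  rw [Finset.sum_ite_eq' (Finset.range (P.natDegree + 1)) t fun t => r ^ t • P.coeff t]
  split_ifs with h
  · rfl
  · rw [coeff_eq_zero_of_natDegree_lt (by simpa using h), smul_zero]

variable {k : Type*} [CommRing k] {n : Type*} [Fintype n] [DecidableEq n]

theorem dP_sc (φ : A →+* k) (ψ : H →+* Matrix n n k) (hψ : ∀ a x, ψ (a • x) = φ a • ψ x)
    (r : A) (P : H[X]) : dP ψ (sc r P) = (dP ψ P).comp (C (φ r) * X) := by
  rw [dP_apply, dP_apply]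
  have e : dM ψ (sc r P) = (compRingHom (C (φ r) * X)).mapMatrix (dM ψ P) := by
    ext i j t
    rw [dM_coeff, sc_coeff, hψ, RingHom.mapMatrix_apply, Matrix.map_apply, coe_compRingHom_apply,
      comp_C_mul_X_coeff, dM_coeff, Matrix.smul_apply, smul_eq_mul, map_pow, mul_comm]
  rw [e, ← RingHom.map_det, coe_compRingHom_apply]

end scaling

section main

variable {A H : Type*} [CommRing A] [Ring H] [Algebra A H] {L : Type*} {K : L → Type*}
  [∀ l, CommRing (K l)] {n : L → Type*} [∀ l, Fintype (n l)] [∀ l, DecidableEq (n l)]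
  (Φ : ∀ l, A →+* K l) (R : ∀ l, H →+* Matrix (n l) (n l) (K l))
  (hR : ∀ l a x, R l (a • x) = Φ l a • R l x) (r : A)
  (hr : ∀ x : H, (∀ l, (R l x).trace = 0) →
    r • x ∈ Submodule.span A {c : H | ∃ x y : H, c = x * y - y * x})
  {k : Type*} [CommRing k] [IsDomain k] {ν : Type*} [Fintype ν] [DecidableEq ν]
  (φ : A →+* k) (ψ : H →+* Matrix ν ν k) (hψ : ∀ a x, ψ (a • x) = φ a • ψ x) (hφ : φ r ≠ 0)

include hR hr hψ hφ in
theorem det_eq_aux (j M : ℕ) (P Q : H[X]) (hP : P.coeff 0 = 1) (hQ : Q.coeff 0 = 1)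
    (h : ∀ l, dP (R l) P = dP (R l) Q) (hj : j + 1 ≤ M)
    (hPQ : ∀ t < M - j, P.coeff t = Q.coeff t) : (X : k[X]) ^ M ∣ dP ψ P - dP ψ Q := by
  induction j generalizing P Q with
  | zero =>
    rw [dP_apply, dP_apply]
    refine det_congr _ _ _ fun i j => ?_
    rw [X_pow_dvd_iff]
    intro t ht
    rw [coeff_sub, dM_coeff, dM_coeff, hPQ t (by omega), sub_self]
  | succ j ih =>
    set m := M - (j + 1) with hm
    have hm1 : 1 ≤ m := by omega
    -- the traces of the first coefficient which differs vanish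
    have htr : ∀ l, (R l (P.coeff m - Q.coeff m)).trace = 0 := fun l =>
      trace_zero (R l) P Q m hm1 hQ hPQ (by rw [h l, sub_self]; exact dvd_zero _)
    obtain ⟨s, hs⟩ := exists_list (A := A) _ (hr _ htr)
    -- the lists
    set u : List H := s.map fun p => (r ^ (m - 1) • p.1) * p.2 with hu
    set v : List H := s.map fun p => p.2 * (r ^ (m - 1) • p.1) with hv
    have huv : r ^ m • (P.coeff m - Q.coeff m) = u.sum - v.sum := by
      have e0 : r ^ m = r ^ (m - 1) * r := by rw [← pow_succ]; congr 1; omega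
      rw [e0, mul_smul, hs, hu, hv, cS]
      clear_value m
      clear hs hu hv
      induction s with
      | nil => simp
      | cons p s ih =>
        simp only [List.map_cons, List.sum_cons, smul_add, ih, smul_sub, smul_mul_assoc,
          mul_smul_comm]
        abel
    obtain ⟨u0, u1, u2⟩ := pS_coeff_lt m hm1 u
    obtain ⟨v0, v1, v2⟩ := pS_coeff_lt m hm1 v
    have hP' : (sc r P).coeff 0 = 1 := by rw [sc_coeff, hP, pow_zero, one_smul]
    have hQ' : (sc r Q).coeff 0 = 1 := by rw [sc_coeff, hQ, pow_zero, one_smul]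
    obtain ⟨a0, a1, a2⟩ := mul_coeff_le m hm1 (sc r P) (pS m v) hP' v0 v1
    obtain ⟨b0, b1, b2⟩ := mul_coeff_le m hm1 (sc r Q) (pS m u) hQ' u0 u1
    have key := ih (sc r P * pS m v) (sc r Q * pS m u) a0 b0 (fun l => by
      rw [map_mul, map_mul, hu, hv, dP_lists (R l) m s fun x => r ^ (m - 1) • x,
        dP_sc (Φ l) (R l) (hR l), dP_sc (Φ l) (R l) (hR l), h l])
      (by omega) (fun t ht => by
        rcases Nat.lt_or_ge t m with h1 | h1
        · rw [a1 t h1, b1 t h1, sc_coeff, sc_coeff, hPQ t h1]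
        · obtain rfl : t = m := by omega
          rw [a2, b2, sc_coeff, sc_coeff, u2, v2]
          rw [smul_sub] at huv
          have := huv
          rw [sub_eq_sub_iff_add_eq_add] at this
          rw [this, add_comm])
    rw [map_mul, map_mul, hu, dP_lists ψ m s (fun x => r ^ (m - 1) • x), ← hv, ← sub_mul,
      dP_sc φ ψ hψ, dP_sc φ ψ hψ] at key
    -- cancel the unit
    have hv0 : ¬ (X : k[X]) ∣ dP ψ (pS m v) := by
      intro hX
      have h1 : (X : k[X]) ^ 1 ∣ dP ψ (pS m v) - dP ψ 1 := by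
        rw [dP_apply, dP_apply]
        refine det_congr _ _ _ fun i j => ?_
        rw [X_pow_dvd_iff]
        intro t ht
        obtain rfl : t = 0 := by omega
        rw [coeff_sub, dM_coeff, dM_coeff, v0, coeff_one, if_pos rfl, sub_self]
      rw [pow_one, map_one] at h1
      have h2 : (X : k[X]) ∣ 1 := by
        have := dvd_sub hX h1
        rwa [sub_sub_cancel] at this
      exact Polynomial.prime_X.not_isUnit (isUnit_of_dvd_one h2)
    have key2 : (X : k[X]) ^ M ∣
        (dP ψ P).comp (C (φ r) * X) - (dP ψ Q).comp (C (φ r) * X) :=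
      Polynomial.prime_X.pow_dvd_of_dvd_mul_right M hv0 key
    rw [X_pow_dvd_iff] at key2 ⊢
    intro t ht
    have h3 := key2 t ht
    rw [coeff_sub, comp_C_mul_X_coeff, comp_C_mul_X_coeff, ← sub_mul] at h3
    rw [coeff_sub]
    exact (mul_eq_zero.1 h3).resolve_right (pow_ne_zero _ hφ)

include hR hr hψ hφ in
/-- **Exactness.** -/
theorem det_eq (P Q : H[X]) (hP : P.coeff 0 = 1) (hQ : Q.coeff 0 = 1)
    (h : ∀ l, dP (R l) P = dP (R l) Q) : dP ψ P = dP ψ Q := by
  have h1 : ∀ M, 1 ≤ M → (X : k[X]) ^ M ∣ dP ψ P - dP ψ Q := fun M hM =>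
    det_eq_aux Φ R hR r hr φ ψ hψ hφ (M - 1) M P Q hP hQ h (by omega) (fun t ht => by
      obtain rfl : t = 0 := by omega
      rw [hP, hQ])
  rw [← sub_eq_zero]
  ext t
  rw [coeff_zero]
  exact (X_pow_dvd_iff.1 (h1 (t + 1) (by omega))) t (by omega)

end main

end Pool.Agent.CMF.Rk
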