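import Pool.Agent.CMF.Sec1
import Pool.Agent.CMFn.MG

/-! Project CMFn, file SecA: a germ of a section of the flat subbundle which is polynomial is a
section everywhere (identity theorem along paths). -/

namespace Pool.Agent.CMFn

open Matrix
open Pool.Agent.CMF.TopX

noncomputable section

variable {r : ℕ} {N : SG r} [Fintype N] {ι : Type} [Fintype ι] [DecidableEq ι]

namespace SecAX

/-- Functions differentiable on a set. -/
def dS (W : Set ℂ) : Subalgebra ℂ (ℂ → ℂ) where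
  carrier := {g | DifferentiableOn ℂ g W}
  mul_mem' h h' := h.mul h'
  add_mem' h h' := h.add h'
  algebraMap_mem' c := differentiableOn_const c

lemma eval_mem {W : Set ℂ} (c : Fin r → ℂ → ℂ) (hc : ∀ i, c i ∈ dS W)
    (p : MvPolynomial (Fin r) ℂ) : (fun z => MvPolynomial.eval (fun i => c i z) p) ∈ dS W := by
  induction p using MvPolynomial.induction_on with
  | C a =>
    simp only [MvPolynomial.eval_C]
    exact (dS W).algebraMap_mem a
  | add p q hp hq =>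
    simp only [map_add]
    exact (dS W).add_mem hp hq
  | mul_X p i hp =>
    simp only [map_mul, MvPolynomial.eval_X]
    exact (dS W).mul_mem hp (hc i)

/-- Identity theorem on a convex open set. -/
lemma ident (ρ : N →* Matrix ι ι ℂ) (k : Idx N → ℂ) (f : PolE r ι)
    (U : Set (Fin r → ℂ)) (hU : IsOpen U) (hc : Convex ℝ U) (F : (Fin r → ℂ) → Matrix ι ι ℂ)
    (hF : Horiz ρ k U F) (T : Submodule ℂ (ι → ℂ)) (u : Fin r → ℂ) (hu : u ∈ U)
    (h : ∀ᶠ v in nhds u, (F v)⁻¹ *ᵥ evE f v ∈ T) (v : Fin r → ℂ) (hv : v ∈ U) :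
    (F v)⁻¹ *ᵥ evE f v ∈ T := by
  by_contra hcon
  obtain ⟨l, hl, hT⟩ := Submodule.exists_le_ker_of_notMem hcon
  have hdet : ∀ v ∈ U, IsUnit (F v).det := fun v hv =>
    (Matrix.isUnit_iff_isUnit_det _).1 (hF v hv).1
  have hadj : ∀ v ∈ U, (F v).adjugate *ᵥ evE f v = (F v).det • ((F v)⁻¹ *ᵥ evE f v) := by
    intro v hv
    rw [Matrix.inv_def, Matrix.smul_mulVec, smul_smul, Ring.inverse_eq_inv',
      mul_inv_cancel₀ (hdet v hv).ne_zero, one_smul]
  obtain ⟨e, he⟩ : ∃ e : ℂ → Fin r → ℂ, e = fun z => u + z • (v - u) := ⟨_, rfl⟩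
  obtain ⟨W, hW⟩ : ∃ W : Set ℂ, W = e ⁻¹' U := ⟨_, rfl⟩
  have hec : Continuous e := by
    rw [he]
    fun_prop
  have hWo : IsOpen W := by
    rw [hW]
    exact hU.preimage hec
  have hWc : Convex ℝ W := by
    rw [hW, he]
    intro x hx y hy a b ha hb hab
    have h1 := hc hx hy ha hb hab
    show u + (a • x + b • y) • (v - u) ∈ U
    have h2 : u + (a • x + b • y) • (v - u) =
        a • (u + x • (v - u)) + b • (u + y • (v - u)) := by
      funext i
      have h4 : (a : ℂ) + b = 1 := by exact_mod_cast hab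
      simp only [Pi.add_apply, Pi.smul_apply, Pi.sub_apply, smul_eq_mul, Complex.real_smul]
      linear_combination (-u i) * h4
    rw [h2]
    exact h1
  have he0 : e 0 = u := by
    rw [he]
    simp
  have he1 : e 1 = v := by
    rw [he]
    simp
  have h0W : (0 : ℂ) ∈ W := by
    rw [hW]
    show e 0 ∈ U
    rw [he0]
    exact hu
  have h1W : (1 : ℂ) ∈ W := by
    rw [hW]
    show e 1 ∈ U
    rw [he1]
    exact hv
  have hei : ∀ i, (fun z => e z i) ∈ dS W := by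
    intro i
    have h1 : (fun z => e z i) = fun z => u i + z * (v - u) i := by
      rw [he]
      rfl
    rw [h1]
    show DifferentiableOn ℂ _ W
    fun_prop
  have hFe : ∀ p q, (fun z => F (e z) p q) ∈ dS W := by
    intro p q z hz
    have h1 : e z ∈ U := by
      rw [hW] at hz
      exact hz
    have h2 := ((hF _ h1).2 p q).1
    have h3 : DifferentiableAt ℂ e z := by
      rw [he]
      fun_prop
    have h4 : DifferentiableAt ℂ ((fun v => F v p q) ∘ e) z := DifferentiableAt.comp z h2 h3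
    exact h4.differentiableWithinAt
  obtain ⟨g, hg⟩ : ∃ g : ℂ → ℂ, g = fun z => l ((F (e z)).adjugate *ᵥ evE f (e z)) := ⟨_, rfl⟩
  have hgd : g ∈ dS W := by
    have h1 : g = fun z => ∑ i, l (Pi.single i 1) *
        ∑ j, (F (e z)).adjugate i j * MvPolynomial.eval (fun i => e z i) (f j) := by
      rw [hg]
      funext z
      have h2 := LinearMap.pi_apply_eq_sum_univ l ((F (e z)).adjugate *ᵥ evE f (e z))
      rw [h2]
      refine Finset.sum_congr rfl fun i _ => ?_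
      rw [smul_eq_mul, mul_comm]
      congr 1
      congr 1
      funext j
      rw [Pi.single_apply]
      simp only [eq_comm]
    rw [h1]
    have h3 : (fun z => ∑ i, l (Pi.single i 1) *
        ∑ j, (F (e z)).adjugate i j * MvPolynomial.eval (fun i => e z i) (f j)) =
        ∑ i, (fun _ : ℂ => l (Pi.single i 1)) *
          ∑ j, (fun z => (F (e z)).adjugate i j) *
            (fun z => MvPolynomial.eval (fun i => e z i) (f j)) := by
      funext z
      simp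
    rw [h3]
    exact (dS W).sum_mem fun i _ => (dS W).mul_mem ((dS W).algebraMap_mem _)
      ((dS W).sum_mem fun j _ => (dS W).mul_mem
        (CMF.Sec1X.adj_mem (dS W) (fun z => F (e z)) hFe i j) (eval_mem _ hei _))
  have hg0 : g =ᶠ[nhds 0] 0 := by
    have h1 : ∀ᶠ z in nhds (0 : ℂ), (F (e z))⁻¹ *ᵥ evE f (e z) ∈ T := by
      have h2 := hec.tendsto 0
      rw [he0] at h2
      exact h2.eventually h
    filter_upwards [h1, hWo.mem_nhds h0W] with z hz hzW
    rw [hg]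
    show l _ = 0
    rw [hadj _ (by rw [hW] at hzW; exact hzW), map_smul, hT hz, smul_zero]
  have hgz : Set.EqOn g 0 W :=
    (DifferentiableOn.analyticOnNhd hgd hWo).eqOn_zero_of_preconnected_of_eventuallyEq_zero
      hWc.isPreconnected h0W hg0
  have h5 := hgz h1W
  rw [hg] at h5
  have h6 : l ((F v).adjugate *ᵥ evE f v) = 0 := by
    have h7 : l ((F (e 1)).adjugate *ᵥ evE f (e 1)) = 0 := h5
    rwa [he1] at h7
  rw [hadj v hv, map_smul, smul_eq_mul] at h6
  exact hl ((mul_eq_zero.1 h6).resolve_left (hdet v hv).ne_zero)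

/-- Change of the frame. -/
lemma change (ρ : N →* Matrix ι ι ℂ) (k : Idx N → ℂ) (f : PolE r ι) (Γ : Submodule ℂ (ι → ℂ))
    (i j : PPX.Fr ρ k) (P : Matrix ι ι ℂ) (u : Fin r → ℂ) (hi : u ∈ i.U) (hj : u ∈ j.U)
    (h : ∀ᶠ v in nhds u, (i.F v)⁻¹ *ᵥ evE f v ∈ Γ.map (Matrix.mulVecLin ((i.F u)⁻¹ * P))) :
    ∀ᶠ v in nhds u, (j.F v)⁻¹ *ᵥ evE f v ∈ Γ.map (Matrix.mulVecLin ((j.F u)⁻¹ * P)) := by
  filter_upwards [h, i.op.mem_nhds hi, j.op.mem_nhds hj] with v hv hvi hvj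
  obtain ⟨x, hx, hxe⟩ := hv
  refine ⟨x, hx, ?_⟩
  have h1 := horiz_unique ρ k (i.U ∩ j.U) (i.op.inter j.op) (i.cv.inter j.cv) i.F j.F
    (PPX.Horiz.mono i.hz Set.inter_subset_left)
    (fun v hv => fun p q => (j.hz v hv.2).2 p q) v ⟨hvi, hvj⟩ u ⟨hi, hj⟩
  have hdi : ∀ v ∈ i.U, IsUnit (i.F v).det := fun v hv =>
    (Matrix.isUnit_iff_isUnit_det _).1 (i.hz v hv).1
  have hdj : ∀ v ∈ j.U, IsUnit (j.F v).det := fun v hv =>
    (Matrix.isUnit_iff_isUnit_det _).1 (j.hz v hv).1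
  -- `(F_j v)⁻¹ F_i v = (F_j u)⁻¹ F_i u`
  have h2 : (j.F v)⁻¹ * i.F v = (j.F u)⁻¹ * i.F u := by
    have h3 := congrArg (fun M => M⁻¹) h1
    simp only [Matrix.mul_inv_rev] at h3
    rw [Matrix.nonsing_inv_nonsing_inv _ (hdi v hvi), Matrix.nonsing_inv_nonsing_inv _
      (hdi u hi)] at h3
    exact h3
  have h4 : evE f v = i.F v *ᵥ ((i.F v)⁻¹ *ᵥ evE f v) := by
    rw [Matrix.mulVec_mulVec, Matrix.mul_nonsing_inv _ (hdi v hvi), Matrix.one_mulVec]
  have h5 : (Matrix.mulVecLin ((i.F u)⁻¹ * P)) x = (i.F v)⁻¹ *ᵥ evE f v := hxe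
  show ((j.F u)⁻¹ * P) *ᵥ x = (j.F v)⁻¹ *ᵥ evE f v
  rw [h4, Matrix.mulVec_mulVec, h2, ← h5, Matrix.mulVecLin_apply, Matrix.mulVec_mulVec,
    Matrix.mul_assoc, ← Matrix.mul_assoc (i.F u), Matrix.mul_nonsing_inv _ (hdi u hi),
    Matrix.one_mul]

end SecAX

open SecAX PPX in
/-- A polynomial vector which is a section of the flat subbundle near the base point is a section
everywhere. -/
theorem mg_of_germ {v₀ : VReg N} (hN : ∃ s ∈ N, IsRefl s) (ρ : N →* Matrix ι ι ℂ)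
    (k : Idx N → ℂ) (Γ : Submodule ℂ (ι → ℂ)) (f : PolE r ι) (U₀ : Set (Fin r → ℂ))
    (hU₀ : IsOpen U₀) (hc₀ : Convex ℝ U₀) (hm : v₀.1 ∈ U₀) (F₀ : (Fin r → ℂ) → Matrix ι ι ℂ)
    (hF₀ : Horiz ρ k U₀ F₀) (h1 : F₀ v₀.1 = 1)
    (hf : ∀ᶠ v in nhds v₀.1, ∃ x ∈ Γ, evE f v = F₀ v *ᵥ x) : f ∈ MG hN ρ k v₀ Γ := by
  intro w q
  obtain ⟨P, hP0, hP⟩ := exists_lift (LS hN ρ k) q.toContinuousMap
  have hPP : PP hN ρ k q.toContinuousMap = (P 1).1 := by
    have h2 := tr_of_lift hP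
    unfold PP
    rw [h2, hP0, inv_one, mul_one]
  have hq0 : q.toContinuousMap 0 = v₀ := q.source
  have hq1 : q.toContinuousMap 1 = w := q.target
  -- the local statement
  let B : unitInterval → Prop := fun t => ∃ i : Fr ρ k, (q t).1 ∈ i.U ∧
    ∀ᶠ v in nhds (q t).1, (i.F v)⁻¹ *ᵥ evE f v ∈
      Γ.map (Matrix.mulVecLin ((i.F (q t).1)⁻¹ * (P t).1))
  have hloc : ∀ t₀, ∀ᶠ t in nhds t₀, (B t ↔ B t₀) := by
    intro t₀
    obtain ⟨i, hi⟩ := (LS hN ρ k).cover (q t₀)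
    have hi' : (q t₀).1 ∈ i.U := hi
    filter_upwards [hP.any t₀ i hi] with t ht
    have ht1 : (q t).1 ∈ i.U := ht.1
    have ht2 : (P t).1 = i.F (q t).1 * (i.F (q t₀).1)⁻¹ * (P t₀).1 := by
      have h2 := congrArg Units.val ht.2
      rw [Units.val_mul, Units.val_mul, inv_val] at h2
      have h3 : ((LS hN ρ k).F i (q t)).1 = i.F (q t).1 := toU_val (i.hz _ ht1).1
      have h4 : ((LS hN ρ k).F i (q t₀)).1 = i.F (q t₀).1 := toU_val (i.hz _ hi').1
      have h5 : ((LS hN ρ k).F i (q.toContinuousMap t)).1 = i.F (q t).1 := h3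
      have h6 : ((LS hN ρ k).F i (q.toContinuousMap t₀)).1 = i.F (q t₀).1 := h4
      rw [h5, h6] at h2
      exact h2
    have hT : (i.F (q t).1)⁻¹ * (P t).1 = (i.F (q t₀).1)⁻¹ * (P t₀).1 := by
      have hd : IsUnit (i.F (q t).1).det := (Matrix.isUnit_iff_isUnit_det _).1 (i.hz _ ht1).1
      rw [ht2, ← Matrix.mul_assoc, ← Matrix.mul_assoc, Matrix.nonsing_inv_mul _ hd,
        Matrix.one_mul]
    constructor
    · rintro ⟨j, hj, hB⟩
      have h2 := change ρ k f Γ j i _ _ hj ht1 hB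
      rw [hT] at h2
      exact ⟨i, hi', Filter.eventually_of_mem (i.op.mem_nhds hi') fun v hv =>
        ident ρ k f i.U i.op i.cv i.F i.hz _ _ ht1 h2 v hv⟩
    · rintro ⟨j, hj, hB⟩
      have h2 := change ρ k f Γ j i _ _ hj hi' hB
      rw [← hT] at h2
      exact ⟨i, ht1, Filter.eventually_of_mem (i.op.mem_nhds ht1) fun v hv =>
        ident ρ k f i.U i.op i.cv i.F i.hz _ _ hi' h2 v hv⟩
  have hcl : IsClopen {t | B t} := by
    constructor
    · rw [← isOpen_compl_iff, isOpen_iff_mem_nhds]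
      intro t ht
      filter_upwards [hloc t] with s hs
      exact fun hq => ht (hs.1 hq)
    · rw [isOpen_iff_mem_nhds]
      intro t ht
      filter_upwards [hloc t] with s hs
      exact hs.2 ht
  have hB0 : B 0 := by
    refine ⟨⟨U₀, F₀, hU₀, hc₀, hF₀⟩, ?_, ?_⟩
    · show (q 0).1 ∈ U₀
      rw [q.source]
      exact hm
    · rw [q.source]
      filter_upwards [hf, hU₀.mem_nhds hm] with v hv hvU
      obtain ⟨x, hx, hxe⟩ := hv
      have hd : IsUnit (F₀ v).det := (Matrix.isUnit_iff_isUnit_det _).1 (hF₀ v hvU).1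
      refine ⟨x, hx, ?_⟩
      show ((F₀ v₀.1)⁻¹ * (P 0).1) *ᵥ x = (F₀ v)⁻¹ *ᵥ evE f v
      rw [h1, hP0, Units.val_one, inv_one, Matrix.one_mul, Matrix.one_mulVec, hxe,
        Matrix.mulVec_mulVec, Matrix.nonsing_inv_mul _ hd, Matrix.one_mulVec]
  have hall := hcl.eq_univ ⟨0, hB0⟩
  have hB1 : B 1 := by
    have : (1 : unitInterval) ∈ {t | B t} := by rw [hall]; trivial
    exact this
  obtain ⟨i, hi, hB⟩ := hB1
  rw [q.target] at hi hB
  obtain ⟨x, hx, hxe⟩ := hB.self_of_nhds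
  have hd : IsUnit (i.F w.1).det := (Matrix.isUnit_iff_isUnit_det _).1 (i.hz _ hi).1
  refine ⟨x, hx, ?_⟩
  have h2 : ((i.F w.1)⁻¹ * (P 1).1) *ᵥ x = (i.F w.1)⁻¹ *ᵥ evE f w.1 := hxe
  have h3 := congrArg (fun y => i.F w.1 *ᵥ y) h2
  simp only [Matrix.mulVec_mulVec, ← Matrix.mul_assoc, Matrix.mul_nonsing_inv _ hd,
    Matrix.one_mul, Matrix.one_mulVec] at h3
  rw [hPP, ← h3]

end

end Pool.Agent.CMFn
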