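import Pool.Agent.CMF.Sec1
import Pool.Agent.CMFn.MG
import Pool.Agent.CMFn.Line

/-! Project CMFn, file SecB: the normalised local section is rational on the lines through the base
point. -/

namespace Pool.Agent.CMFn

open Matrix
open Pool.Agent.CMF (alg_span)
open Pool.Agent.CMF.Sec1X (QQ)

noncomputable section

variable {r : ℕ} {N : SG r} [Fintype N] {ι : Type} [Fintype ι] [DecidableEq ι]

namespace SecBX

lemma left_inv {m : ℕ} (X : Matrix ι (Fin m) ℂ)
    (h : Function.Injective (fun x : Fin m → ℂ => X *ᵥ x)) :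
    ∃ L : Matrix (Fin m) ι ℂ, L * X = 1 := by
  have hinj : Function.Injective (Matrix.toLin' X) := by
    intro x y hxy
    rw [Matrix.toLin'_apply, Matrix.toLin'_apply] at hxy
    exact h hxy
  obtain ⟨g, hg⟩ := (Matrix.toLin' X).exists_leftInverse_of_injective
    (LinearMap.ker_eq_bot.2 hinj)
  refine ⟨LinearMap.toMatrix' g, ?_⟩
  have := congrArg LinearMap.toMatrix' hg
  rw [LinearMap.toMatrix'_comp, LinearMap.toMatrix'_toLin', LinearMap.toMatrix'_id] at this
  exact this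

lemma inj_mul {m : ℕ} (P : Matrix ι ι ℂ) (hP : IsUnit P) (X₀ : Matrix ι (Fin m) ℂ)
    (h : Function.Injective (fun x : Fin m → ℂ => X₀ *ᵥ x)) :
    Function.Injective (fun x : Fin m → ℂ => (P * X₀) *ᵥ x) := by
  intro x y hxy
  have hu := (Matrix.isUnit_iff_isUnit_det _).1 hP
  apply h
  have h1 : (P * X₀) *ᵥ x = (P * X₀) *ᵥ y := hxy
  have h2 := congrArg (fun u => P⁻¹ *ᵥ u) h1
  simpa only [Matrix.mulVec_mulVec, ← Matrix.mul_assoc, Matrix.nonsing_inv_mul _ hu,
      Matrix.one_mul] using h2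

omit [DecidableEq ι] in
/-- The algebraic identity. -/
lemma alg_id {m : ℕ} (L : Matrix (Fin m) ι ℂ) (Y q : Matrix ι (Fin m) ℂ)
    (D : Matrix (Fin m) (Fin m) ℂ) (h : q = Y * D) (hd : (L * Y).det ≠ 0) :
    (L * q).det • QQ L Y = q * (L * q).adjugate := by
  have h1 : L * q = L * Y * D := by rw [h, Matrix.mul_assoc]
  rw [h1, Matrix.det_mul, Matrix.adjugate_mul_distrib, h, QQ, Matrix.inv_def,
    Ring.inverse_eq_inv', Matrix.mul_assoc Y D, ← Matrix.mul_assoc D, Matrix.mul_adjugate,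
    Matrix.smul_mul, Matrix.one_mul, Matrix.mul_smul, Matrix.mul_smul, smul_smul]
  congr 1
  field_simp

omit [DecidableEq ι] in
lemma map_det_eval {m : ℕ} (L : Matrix (Fin m) ι ℂ) (q : Matrix ι (Fin m) (Polynomial ℂ))
    (z : ℂ) : (L.map Polynomial.C * q).det.eval z = (L * q.map fun p => p.eval z).det := by
  have h1 := RingHom.map_det (Polynomial.evalRingHom z) (L.map Polynomial.C * q)
  have h2 : (Polynomial.evalRingHom z).mapMatrix (L.map Polynomial.C * q) =
      L * q.map fun p => p.eval z := by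
    ext i j
    simp [Matrix.mul_apply, Polynomial.eval_finsetSum]
  rw [h2] at h1
  exact h1

omit [DecidableEq ι] in
lemma map_adj_eval {m : ℕ} (L : Matrix (Fin m) ι ℂ) (q : Matrix ι (Fin m) (Polynomial ℂ))
    (z : ℂ) (i : ι) (j : Fin m) : ((q * (L.map Polynomial.C * q).adjugate) i j).eval z =
      ((q.map fun p => p.eval z) * (L * q.map fun p => p.eval z).adjugate) i j := by
  have h1 := RingHom.map_adjugate (Polynomial.evalRingHom z) (L.map Polynomial.C * q)
  have h2 : (Polynomial.evalRingHom z).mapMatrix (L.map Polynomial.C * q) =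
      L * q.map fun p => p.eval z := by
    ext i j
    simp [Matrix.mul_apply, Polynomial.eval_finsetSum]
  rw [h2] at h1
  rw [← h1, Matrix.mul_apply, Matrix.mul_apply, Polynomial.eval_finsetSum]
  refine Finset.sum_congr rfl fun l _ => ?_
  rw [Polynomial.eval_mul]
  rfl

end SecBX

open SecBX in
theorem line_rational {v₀ : VReg N} (hN : ∃ s ∈ N, IsRefl s) (ρ : N →* Matrix ι ι ℂ)
    (k : Idx N → ℂ) {m : ℕ} (X₀ : Matrix ι (Fin m) ℂ)
    (hinj : Function.Injective (fun x : Fin m → ℂ => X₀ *ᵥ x))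
    (hΓ : ∀ b : Braid N v₀, ∃ M : Matrix (Fin m) (Fin m) ℂ, KZ hN ρ k b * X₀ = X₀ * M)
    (ε : ℝ) (hε : 0 < ε) (hreg : ∀ v ∈ Metric.ball v₀.1 ε, ∀ g ∈ N, IsRefl g → g.1 *ᵥ v ≠ v)
    (F : (Fin r → ℂ) → Matrix ι ι ℂ) (hF : Horiz ρ k (Metric.ball v₀.1 ε) F) (h1 : F v₀.1 = 1)
    (L : Matrix (Fin m) ι ℂ) (hL : L * X₀ = 1) (w : Fin r → ℂ) (i : ι) (j : Fin m) :
    ∃ P Q : Polynomial ℂ, Q ≠ 0 ∧ ∀ᶠ s in nhds (0 : ℂ),
      Q.eval s * QQ L (F (v₀.1 + s • w) * X₀) i j = P.eval s := by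
  obtain ⟨A, X, hA1, hX1, hlt, hp, hinf⟩ := line_data hN ρ k X₀ hΓ v₀ w
  have hXinj : ∀ z ∉ A, Function.Injective (fun x : Fin m → ℂ => X z *ᵥ x) := by
    intro z hz
    obtain ⟨q, hq⟩ := hX1 ⟨v₀.1 + z • w, fun g hg hr => (hA1 z).1 hz g hg hr⟩ z rfl
    rw [hq]
    exact inj_mul _ (PP_unit hN ρ k q.toContinuousMap) X₀ hinj
  obtain ⟨q, hq, z₀, hz₀, C, hC, hqC⟩ := alg_span m A X hXinj hlt hp hinf
  -- near `0`
  have hcont : Continuous (fun z : ℂ => v₀.1 + z • w) := by fun_prop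
  have hball : ∀ᶠ z : ℂ in nhds 0, v₀.1 + z • w ∈ Metric.ball v₀.1 ε := by
    apply hcont.continuousAt.eventually_mem
    rw [zero_smul, add_zero]
    exact Metric.ball_mem_nhds _ hε
  have hXF : ∀ z : ℂ, v₀.1 + z • w ∈ Metric.ball v₀.1 ε → z ∉ A ∧
      ∃ M : Matrix (Fin m) (Fin m) ℂ, IsUnit M ∧ X z = F (v₀.1 + z • w) * X₀ * M := by
    intro z hz
    refine ⟨(hA1 z).2 (hreg _ hz), ?_⟩
    obtain ⟨p, hp⟩ := hX1 (MGX.pt (v₀.1 + z • w) (hreg _ hz)) z rfl
    obtain ⟨M, hM, h⟩ := LineX.PP_two hN ρ k X₀ hΓ (MGX.seg v₀ ε hε hreg _ hz) p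
    refine ⟨M, hM, ?_⟩
    have h2 := PP_local hN ρ k (Metric.ball v₀.1 ε) Metric.isOpen_ball (convex_ball _ _) F hF
      (MGX.seg v₀ ε hε hreg _ hz).toContinuousMap (MGX.seg_mem v₀ ε hε hreg _ hz)
    have e0 : ((MGX.seg v₀ ε hε hreg _ hz).toContinuousMap 0).1 = v₀.1 :=
      congrArg (fun u : VReg N => u.1) (MGX.seg v₀ ε hε hreg _ hz).source
    have e1 : ((MGX.seg v₀ ε hε hreg _ hz).toContinuousMap 1).1 = v₀.1 + z • w :=
      congrArg (fun u : VReg N => u.1) (MGX.seg v₀ ε hε hreg _ hz).target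
    rw [e0, e1, h1, inv_one, mul_one] at h2
    rw [hp, h, h2]
  have hFc : ContinuousAt (fun z : ℂ => F (v₀.1 + z • w)) 0 := by
    refine continuousAt_pi.2 fun a => continuousAt_pi.2 fun b => ?_
    have h2 : DifferentiableAt ℂ (fun v => F v a b) v₀.1 :=
      ((hF v₀.1 (Metric.mem_ball_self hε)).2 a b).1
    have h3 : ContinuousAt (fun v => F v a b) (v₀.1 + (0 : ℂ) • w) := by
      rw [zero_smul, add_zero]
      exact h2.continuousAt
    exact ContinuousAt.comp (f := fun z : ℂ => v₀.1 + z • w) (g := fun v => F v a b) h3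
      hcont.continuousAt
  have hdetF : ∀ᶠ z : ℂ in nhds 0, (L * (F (v₀.1 + z • w) * X₀)).det ≠ 0 := by
    have h2 : ContinuousAt (fun z : ℂ => (L * (F (v₀.1 + z • w) * X₀)).det) 0 := by
      have h3 : Continuous (fun M : Matrix ι ι ℂ => (L * (M * X₀)).det) :=
        (continuous_const.matrix_mul (continuous_id.matrix_mul continuous_const)).matrix_det
      exact ContinuousAt.comp (f := fun z : ℂ => F (v₀.1 + z • w))
        (g := fun M : Matrix ι ι ℂ => (L * (M * X₀)).det) h3.continuousAt hFc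
    apply h2.eventually_ne
    rw [zero_smul, add_zero, h1, Matrix.one_mul, hL, Matrix.det_one]
    exact one_ne_zero
  refine ⟨(q * (L.map Polynomial.C * q).adjugate) i j, (L.map Polynomial.C * q).det, ?_, ?_⟩
  · -- the determinant is not zero
    obtain ⟨L', hL'⟩ := left_inv (q.map fun p => p.eval z₀) (by
      rw [hqC]
      intro x y hxy
      have hCd := (Matrix.isUnit_iff_isUnit_det _).1 hC
      have h2 : X z₀ *ᵥ (C *ᵥ x) = X z₀ *ᵥ (C *ᵥ y) := by
        rw [Matrix.mulVec_mulVec, Matrix.mulVec_mulVec]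
        exact hxy
      have h3 := hXinj z₀ hz₀ h2
      have h4 := congrArg (fun u => C⁻¹ *ᵥ u) h3
      simpa only [Matrix.mulVec_mulVec, Matrix.nonsing_inv_mul _ hCd, Matrix.one_mulVec]
        using h4)
    have hd' : (L'.map Polynomial.C * q).det ≠ 0 := by
      intro h0
      have h2 := map_det_eval L' q z₀
      rw [h0, hL', Matrix.det_one, Polynomial.eval_zero] at h2
      exact zero_ne_one h2
    have hev : ∀ᶠ z in nhdsWithin (0 : ℂ) {0}ᶜ, (L'.map Polynomial.C * q).det.eval z ≠ 0 := by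
      have h2 : ((L'.map Polynomial.C * q).det.roots.toFinset.erase 0 : Set ℂ).Finite :=
        Set.toFinite _
      have h3 : ∀ᶠ z in nhds (0 : ℂ),
          z ∉ ((L'.map Polynomial.C * q).det.roots.toFinset.erase 0 : Set ℂ) := by
        refine h2.isClosed.isOpen_compl.mem_nhds ?_
        simp
      filter_upwards [self_mem_nhdsWithin, nhdsWithin_le_nhds h3] with z hz1 hz2 hz3
      apply hz2
      rw [Finset.mem_coe, Finset.mem_erase, Multiset.mem_toFinset, Polynomial.mem_roots hd']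
      exact ⟨hz1, hz3⟩
    have hball' : ∀ᶠ z in nhdsWithin (0 : ℂ) {0}ᶜ, v₀.1 + z • w ∈ Metric.ball v₀.1 ε :=
      nhdsWithin_le_nhds hball
    have hdetF' : ∀ᶠ z in nhdsWithin (0 : ℂ) {0}ᶜ, (L * (F (v₀.1 + z • w) * X₀)).det ≠ 0 :=
      nhdsWithin_le_nhds hdetF
    obtain ⟨z, hz1, hz2, hz3⟩ := (hev.and (hball'.and hdetF')).exists
    obtain ⟨hzA, M, hM, hXM⟩ := hXF z hz2
    obtain ⟨C', hC'⟩ := hq z hzA
    intro h0
    have h2 := map_det_eval L q z
    rw [h0, Polynomial.eval_zero] at h2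
    rw [map_det_eval] at hz1
    rw [hC', ← Matrix.mul_assoc, Matrix.det_mul] at hz1
    rw [hC', hXM] at h2
    have h3 : L * (F (v₀.1 + z • w) * X₀ * M * C') =
        L * (F (v₀.1 + z • w) * X₀) * M * C' := by simp only [Matrix.mul_assoc]
    rw [h3, Matrix.det_mul, Matrix.det_mul] at h2
    have hMd := ((Matrix.isUnit_iff_isUnit_det _).1 hM).ne_zero
    exact mul_ne_zero (mul_ne_zero hz3 hMd) (right_ne_zero_of_mul hz1) h2.symm
  · filter_upwards [hball, hdetF] with z hz1 hz2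
    obtain ⟨hzA, M, hM, hXM⟩ := hXF z hz1
    obtain ⟨C', hC'⟩ := hq z hzA
    have h2 : (q.map fun p => p.eval z) = F (v₀.1 + z • w) * X₀ * (M * C') := by
      rw [hC', hXM]
      simp only [Matrix.mul_assoc]
    have h3 := congrFun (congrFun (alg_id L _ _ _ h2 hz2) i) j
    rw [map_det_eval, map_adj_eval]
    exact h3

end

end Pool.Agent.CMFn
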