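import Pool.Agent.CMFn.KronC
import Pool.Agent.CMFn.SecA
import Pool.Agent.CMFn.SecB

/-! Project CMFn, file Sec: polynomial sections generate the flat subbundle at some point (every
rank, no assumption on the residue at infinity). -/

namespace Pool.Agent.CMFn

open Matrix
open Pool.Agent.CMF.Sec1X (QQ QQ_apply mulM_mem det_mem adj_mem)

noncomputable section

variable {r : ℕ} {N : SG r} [Fintype N] {ι : Type} [Fintype ι] [DecidableEq ι]

namespace SecX

/-- Functions differentiable on a set. -/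
def dV (W : Set (Fin r → ℂ)) : Subalgebra ℂ ((Fin r → ℂ) → ℂ) where
  carrier := {g | DifferentiableOn ℂ g W}
  mul_mem' h h' := h.mul h'
  add_mem' h h' := h.add h'
  algebraMap_mem' c := differentiableOn_const c

/-- The entries of the normalised section are differentiable. -/
lemma qq_diff (ρ : N →* Matrix ι ι ℂ) (k : Idx N → ℂ) {m : ℕ} (X₀ : Matrix ι (Fin m) ℂ)
    (W : Set (Fin r → ℂ)) (hW : IsOpen W)
    (F : (Fin r → ℂ) → Matrix ι ι ℂ) (hF : Horiz ρ k W F)
    (L : Matrix (Fin m) ι ℂ) (hd : ∀ v ∈ W, (L * (F v * X₀)).det ≠ 0) (i : ι) (j : Fin m)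
    (u : Fin r → ℂ) (hu : u ∈ W) :
    DifferentiableAt ℂ (fun v => QQ L (F v * X₀) i j) u := by
  have h1 : ∀ p q, (fun v => F v p q) ∈ dV W := fun p q v hv =>
    ((hF v hv).2 p q).1.differentiableWithinAt
  have h2 : ∀ p q, (fun v => (F v * X₀) p q) ∈ dV W := fun p q =>
    mulM_mem (dV W) F (fun _ => X₀) h1 (fun _ _ => (dV W).algebraMap_mem _) p q
  have h3 : ∀ p q, (fun v => (L * (F v * X₀)) p q) ∈ dV W := fun p q =>
    mulM_mem (dV W) (fun _ => L) (fun v => F v * X₀) (fun _ _ => (dV W).algebraMap_mem _) h2 p q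
  have h4 : (fun v => (L * (F v * X₀)).det) ∈ dV W := det_mem (dV W) _ h3
  have h5 : (fun v => ((F v * X₀) * (L * (F v * X₀)).adjugate) i j) ∈ dV W :=
    mulM_mem (dV W) (fun v => F v * X₀) (fun v => (L * (F v * X₀)).adjugate) h2
      (fun p q => adj_mem (dV W) _ h3 p q) i j
  have h6 : DifferentiableOn ℂ (fun v => QQ L (F v * X₀) i j) W := by
    simp only [QQ_apply]
    exact (DifferentiableOn.inv h4 hd).mul h5
  exact (h6 u hu).differentiableAt (hW.mem_nhds hu)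

/-- A non-zero polynomial does not vanish near a point. -/
lemma not_ev_zero (Q : MvPolynomial (Fin r) ℂ) (hQ : Q ≠ 0) (u : Fin r → ℂ) :
    ∃ᶠ v in nhds u, MvPolynomial.eval v Q ≠ 0 := by
  intro h
  apply hQ
  refine MvPolynomial.funext fun v => ?_
  rw [map_zero]
  have h0 : ∀ᶠ w in nhds u, MvPolynomial.eval w Q = 0 := h.mono fun w hw => not_not.1 hw
  obtain ⟨g, hg⟩ : ∃ g : ℂ → ℂ, g = fun z => MvPolynomial.eval (fun i => u i + z * (v - u) i) Q :=
    ⟨_, rfl⟩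
  have hgd : DifferentiableOn ℂ g Set.univ := by
    rw [hg]
    refine SecAX.eval_mem (W := Set.univ) (fun i z => u i + z * (v - u) i) (fun i => ?_) Q
    show DifferentiableOn ℂ _ _
    fun_prop
  have hg0 : g =ᶠ[nhds 0] 0 := by
    have hc : Continuous (fun z : ℂ => fun i => u i + z * (v - u) i) := by fun_prop
    have h1 := hc.tendsto 0
    have h2 : (fun i => u i + (0 : ℂ) * (v - u) i) = u := by
      funext i
      rw [zero_mul, add_zero]
    rw [h2] at h1
    filter_upwards [h1.eventually h0] with z hz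
    rw [hg]
    exact hz
  have hgz : Set.EqOn g 0 Set.univ :=
    (DifferentiableOn.analyticOnNhd hgd isOpen_univ).eqOn_zero_of_preconnected_of_eventuallyEq_zero
      isPreconnected_univ (Set.mem_univ 0) hg0
  have h5 := hgz (Set.mem_univ 1)
  rw [hg] at h5
  have h6 : MvPolynomial.eval (fun i => u i + (1 : ℂ) * (v - u) i) Q = 0 := h5
  have h7 : (fun i => u i + (1 : ℂ) * (v - u) i) = v := by
    funext i
    simp
  rwa [h7] at h6

end SecX

open SecX in
/-- Polynomial sections generate the flat subbundle at some point. -/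
theorem exists_section' {v₀ : VReg N} (hN : ∃ s ∈ N, IsRefl s) (ρ : N →* Matrix ι ι ℂ)
    (k : Idx N → ℂ)
    (Γ : Submodule ℂ (ι → ℂ)) (hΓ : ∀ b : Braid N v₀, ∀ x ∈ Γ, KZ hN ρ k b *ᵥ x ∈ Γ) :
    ∃ (v : VReg N) (p : Path v₀ v), ∀ x ∈ Γ, ∃ f ∈ MG hN ρ k v₀ Γ,
      evE f v.1 = PP hN ρ k p.toContinuousMap *ᵥ x := by
  -- a basis of `Γ`
  obtain ⟨m, ⟨B⟩⟩ : ∃ m : ℕ, Nonempty (Module.Basis (Fin m) ℂ Γ) :=
    ⟨Module.finrank ℂ Γ, ⟨Module.finBasis ℂ Γ⟩⟩
  set X₀ : Matrix ι (Fin m) ℂ := Matrix.of fun i j => (B j : ι → ℂ) i with hX₀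
  have hmul : ∀ c : Fin m → ℂ, X₀ *ᵥ c = ((∑ j, c j • B j : Γ) : ι → ℂ) := by
    intro c
    funext i
    simp only [hX₀, Matrix.mulVec, dotProduct, Matrix.of_apply, Submodule.coe_sum,
      Submodule.coe_smul, Finset.sum_apply, Pi.smul_apply, smul_eq_mul]
    exact Finset.sum_congr rfl fun j _ => mul_comm _ _
  have hmem : ∀ c : Fin m → ℂ, X₀ *ᵥ c ∈ Γ := by
    intro c; rw [hmul]; exact Submodule.coe_mem _
  have hsur : ∀ x ∈ Γ, ∃ c : Fin m → ℂ, X₀ *ᵥ c = x := by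
    intro x hx
    refine ⟨B.repr ⟨x, hx⟩, ?_⟩
    rw [hmul, B.sum_repr]
  have hinj : Function.Injective (fun c : Fin m → ℂ => X₀ *ᵥ c) := by
    intro c c' h
    have h1 : (∑ j, c j • B j : Γ) = ∑ j, c' j • B j := by
      apply Subtype.ext
      rw [← hmul, ← hmul]; exact h
    have h2 := congrArg (fun y => B.repr y) h1
    funext j
    have h3 := DFunLike.congr_fun h2 j
    simpa [Finsupp.single_apply] using h3
  have hΓ' : ∀ b : Braid N v₀, ∃ M : Matrix (Fin m) (Fin m) ℂ,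
      KZ hN ρ k b * X₀ = X₀ * M := by
    intro b
    have h1 : ∀ j : Fin m, ∃ c : Fin m → ℂ, X₀ *ᵥ c = KZ hN ρ k b *ᵥ (B j : ι → ℂ) :=
      fun j => hsur _ (hΓ b _ (Submodule.coe_mem _))
    choose c hc using h1
    refine ⟨Matrix.of fun i j => c j i, ?_⟩
    ext i j
    have h2 := congrFun (hc j) i
    simp only [Matrix.mul_apply, Matrix.of_apply, hX₀]
    simp only [Matrix.mulVec, dotProduct, hX₀, Matrix.of_apply] at h2
    exact h2.symm
  clear_value X₀
  -- the frame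
  obtain ⟨ε, FF, hε, hreg, hF1, hF, -⟩ := exists_frame hN ρ v₀
  have hF1 := hF1 k
  have hF := hF k
  obtain ⟨F, hFF⟩ : ∃ F, F = FF k := ⟨_, rfl⟩
  rw [← hFF] at hF hF1
  obtain ⟨L, hL⟩ := SecBX.left_inv X₀ hinj
  -- a smaller ball
  have hFc : ContinuousAt F v₀.1 := continuousAt_pi.2 fun a => continuousAt_pi.2 fun b =>
    ((hF v₀.1 (Metric.mem_ball_self hε)).2 a b).1.continuousAt
  have hdetF : ∀ᶠ v in nhds v₀.1, (L * (F v * X₀)).det ≠ 0 := by
    have h3 : Continuous (fun M : Matrix ι ι ℂ => (L * (M * X₀)).det) :=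
      (continuous_const.matrix_mul (continuous_id.matrix_mul continuous_const)).matrix_det
    have h2 : ContinuousAt (fun v => (L * (F v * X₀)).det) v₀.1 :=
      ContinuousAt.comp (f := F) (g := fun M : Matrix ι ι ℂ => (L * (M * X₀)).det)
        h3.continuousAt hFc
    apply h2.eventually_ne
    rw [hF1, Matrix.one_mul, hL, Matrix.det_one]
    exact one_ne_zero
  obtain ⟨δ, hδ, hball⟩ := Metric.eventually_nhds_iff_ball.1
    (hdetF.and (Metric.ball_mem_nhds v₀.1 hε))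
  -- rationality
  have hrat : ∀ (i : ι) (j : Fin m), ∃ P Q : MvPolynomial (Fin r) ℂ, Q ≠ 0 ∧
      ∀ᶠ v in nhds v₀.1, MvPolynomial.eval v Q * QQ L (F v * X₀) i j =
        MvPolynomial.eval v P := fun i j =>
    rational_of_ball (fun v => QQ L (F v * X₀) i j) v₀.1 δ hδ
      (fun u hu => qq_diff ρ k X₀ (Metric.ball v₀.1 δ) Metric.isOpen_ball F
        (fun v hv => hF v (hball v hv).2) L (fun v hv => (hball v hv).1) i j u hu)
      (fun w => line_rational hN ρ k X₀ hinj hΓ' ε hε hreg F hF hF1 L hL w i j)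
  choose P Q hQ hPQ using hrat
  obtain ⟨Q', hQ'⟩ : ∃ Q' : MvPolynomial (Fin r) ℂ, Q' = ∏ a : ι × Fin m, Q a.1 a.2 := ⟨_, rfl⟩
  have hQ'0 : Q' ≠ 0 := by
    rw [hQ']
    exact Finset.prod_ne_zero_iff.2 fun a _ => hQ a.1 a.2
  have hdiv : ∀ i j, ∃ R : MvPolynomial (Fin r) ℂ, Q' = Q i j * R := by
    intro i j
    obtain ⟨R, hR⟩ := Finset.dvd_prod_of_mem (fun a : ι × Fin m => Q a.1 a.2)
      (Finset.mem_univ (i, j))
    exact ⟨R, by rw [hQ', hR]⟩
  choose R hR using hdiv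
  have hall : ∀ᶠ v in nhds v₀.1, ∀ (i : ι) (j : Fin m),
      MvPolynomial.eval v Q' * QQ L (F v * X₀) i j = MvPolynomial.eval v (R i j * P i j) := by
    refine Filter.eventually_all.2 fun i => Filter.eventually_all.2 fun j => ?_
    filter_upwards [hPQ i j] with v hv
    rw [hR i j, map_mul, map_mul, ← hv]
    ring
  -- the columns
  obtain ⟨f, hf⟩ : ∃ f : Fin m → PolE r ι, f = fun j i => R i j * P i j := ⟨_, rfl⟩
  have hfv : ∀ v, (∀ (i : ι) (j : Fin m),
      MvPolynomial.eval v Q' * QQ L (F v * X₀) i j = MvPolynomial.eval v (R i j * P i j)) →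
      ∀ d : Fin m → ℂ, evE (∑ j, d j • f j) v =
        MvPolynomial.eval v Q' • (QQ L (F v * X₀) *ᵥ d) := by
    intro v hv d
    funext i
    have h1 : evE (∑ j, d j • f j) v i = ∑ j, d j * MvPolynomial.eval v (f j i) := by
      unfold evE
      rw [Finset.sum_apply, map_sum]
      refine Finset.sum_congr rfl fun j _ => ?_
      rw [Pi.smul_apply, MvPolynomial.smul_eval]
    rw [h1, Pi.smul_apply, smul_eq_mul, Matrix.mulVec, dotProduct, Finset.mul_sum]
    refine Finset.sum_congr rfl fun j _ => ?_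
    rw [hf]
    show d j * MvPolynomial.eval v (R i j * P i j) = _
    rw [← hv i j]
    ring
  have hfm : ∀ d : Fin m → ℂ, (∑ j, d j • f j) ∈ MG hN ρ k v₀ Γ := by
    intro d
    refine mg_of_germ hN ρ k Γ _ (Metric.ball v₀.1 ε) Metric.isOpen_ball (convex_ball _ _)
      (Metric.mem_ball_self hε) F hF hF1 ?_
    filter_upwards [hall] with v hv
    refine ⟨X₀ *ᵥ (MvPolynomial.eval v Q' • ((L * (F v * X₀))⁻¹ *ᵥ d)), hmem _, ?_⟩
    rw [hfv v hv d, QQ]
    simp only [Matrix.mulVec_smul, Matrix.mulVec_mulVec, Matrix.mul_assoc]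
  -- the point
  obtain ⟨v, hv1, hv2, hv3⟩ := ((not_ev_zero Q' hQ'0 v₀.1).and_eventually
    (hall.and (Metric.ball_mem_nhds v₀.1 hδ))).exists
  obtain ⟨hv4, hv5⟩ := hball v hv3
  refine ⟨MGX.pt v (hreg v hv5), MGX.seg v₀ ε hε hreg v hv5, fun x hx => ?_⟩
  obtain ⟨c, rfl⟩ := hsur x hx
  refine ⟨_, hfm ((MvPolynomial.eval v Q')⁻¹ • ((L * (F v * X₀)) *ᵥ c)), ?_⟩
  have h2 := PP_local hN ρ k (Metric.ball v₀.1 ε) Metric.isOpen_ball (convex_ball _ _) F hF
    (MGX.seg v₀ ε hε hreg v hv5).toContinuousMap (MGX.seg_mem v₀ ε hε hreg v hv5)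
  have e0 : ((MGX.seg v₀ ε hε hreg v hv5).toContinuousMap 0).1 = v₀.1 :=
    congrArg (fun u : VReg N => u.1) (MGX.seg v₀ ε hε hreg v hv5).source
  have e1 : ((MGX.seg v₀ ε hε hreg v hv5).toContinuousMap 1).1 = v :=
    congrArg (fun u : VReg N => u.1) (MGX.seg v₀ ε hε hreg v hv5).target
  rw [e0, e1, hF1, inv_one, mul_one] at h2
  rw [h2]
  show evE _ v = _
  rw [hfv v hv2, QQ, Matrix.mulVec_smul, smul_smul, mul_inv_cancel₀ hv1, one_smul,
    Matrix.mulVec_mulVec, Matrix.mulVec_mulVec, Matrix.mul_assoc,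
    Matrix.nonsing_inv_mul _ (isUnit_iff_ne_zero.2 hv4), Matrix.mul_one]

end

end Pool.Agent.CMFn
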