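import Pool.Agent.CMFn.MDim
import Pool.Agent.CMFn.MartSplit
import Pool.Agent.CMFn.RkD
import Pool.Agent.CMFn.RkT
import Pool.Agent.CMFn.MtB
import Pool.Agent.CMFn.QRk

/-! Project CMFn: groups with one class of reflections, of order two, whose levels are connected by
links up to isolated characters and up to a set of characters which is separated by the rank
criterion.  helper40. -/

set_option linter.unusedSectionVars false

namespace Pool.Agent.CMFn

open Matrix G1 G4 Pool.Agent
open Pool.Agent.CMF (IsInt)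

noncomputable section

/-- The rank criterion holds on every level which meets `Y`. -/
def RkY {G : Type} [Group G] [Fintype G] {r : ℕ} (V : G →* Matrix (Fin r) (Fin r) ℂ)
    (Y : MRep G → Prop) : Prop :=
  ∀ a : MRep G, IsIrr a.2 → Y a → RankSep V Y a

/-- The levels are connected by links up to the isolated characters and up to a set which is
separated by the rank criterion. -/
def SplitR {G : Type} [Group G] [Fintype G] {r : ℕ} (V : G →* Matrix (Fin r) (Fin r) ℂ) : Prop :=
  ∃ Y : MRep G → Prop, RkY V Y ∧ ConnXY V (Isol V) Y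

/-- Conjugation of the reflection representation. -/
theorem splitR_of_conj {G : Type} [Group G] [Fintype G] {r : ℕ}
    {V V' : G →* Matrix (Fin r) (Fin r) ℂ} {P : Matrix (Fin r) (Fin r) ℂ} (hP : IsUnit P)
    (h : ∀ g, V' g = P * V g * P⁻¹) (hc : SplitR V') : SplitR V := by
  obtain ⟨Y, h1, h2⟩ := hc
  refine ⟨Y, fun a ha hY => (rankSep_conj hP h Y a).1 (h1 a ha hY), ?_⟩
  intro a b ha hb hab hY hXa hXb
  exact ConnTX.eqvGen_map id (fun x y hxy => (ConnTX.lk_conj hP h x y).1 hxy)
    (h2 a b ha hb ((ConnTX.sameLevel_conj hP h a b).2 hab) hY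
      (fun h3 => hXa ((isol_conj hP h a).1 h3)) fun h3 => hXb ((isol_conj hP h b).1 h3))

/-- Martino's conjecture, `K = ℂ`, for groups with one class of reflections, of order two, whose
levels are connected by links inside `Y` and outside `Y`, up to the isolated characters, when `Y`
is separated by the rank criterion. -/
theorem mart_splitR {n : ℕ} (hn : 2 ≤ n) {G : Type} [Group G] [Fintype G]
    (W : G → Matrix (Fin n) (Fin n) ℂ) (hW : CMFP.IsReflGroup W)
    (hsq : ∀ s, CMFP.IsRefl W s → s * s = 1)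
    (hone : ∀ s t, CMFP.IsRefl W s → CMFP.IsRefl W t → ∃ g : G, g * s * g⁻¹ = t)
    (h : SplitR (repHom hW.1)) : Mart W := by
  obtain ⟨Y, hY, hconn⟩ := h
  intro Λ _ d ρ hρ F _ _ hF v₀ hv₀ D hD S k κ hκ m hm χ ψ h
  classical
  have hfin : Finite (CMFP.Idx W) := CMF.idx_finite hW.1
  have : Fintype (CMFP.Idx W) := Fintype.ofFinite _
  obtain ⟨A⟩ := exists_asm hW hρ hF hv₀ D hD (exists_refl hn hW)
  exact rank_splitXY A _ Y hconn hF S k κ hκ m hm χ ψ h
    (fun l hl => A.isInt_isol (CMFP.mu_pos hW.1 F hF) hsq hone l hl)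
    fun l₀ hl₀ => A.isInt_rankSep hF S hsq hone l₀ (hY _ (isIrr_mr hρ l₀) hl₀)

/-- The case of linearly independent roots, from the certificates. -/
theorem mart_of_certR {α : Type} {d : GD α} {φ : α → ℂ} {e : ℕ → ℂ} {r : ℕ} (hc : CRS d.c φ e)
    (hr : d.r = r) (hng : d.ng = r) (hr2 : 2 ≤ r) {c D : ℕ → ℕ → α} {κ : α}
    (h1 : d.chkCar c = true) (h2 : d.chkDet c D κ = true) {C : Matrix (Fin r) (Fin r) ℂ}
    (hC : ∀ i j : Fin r, C i j = φ (c i j)) {G : Type} [Group G] [Fintype G]
    (H : ∀ (V : G →* Matrix (Fin r) (Fin r) ℂ) (γ : ℕ → G), GD.Gp d φ V γ →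
      OneCls V ∧ SplitR V) {n : ℕ}
    (W : G → Matrix (Fin n) (Fin n) ℂ) (hW : CMFP.IsReflGroup W) (hWC : CMFP.HasCartan W C) :
    Mart W := by
  obtain ⟨hn, h3, h4⟩ := CMFP.prop_of_cartan' hW hWC (by omega) (GD.det_of_car hc hr h2 hC)
    (fun _ V => OneCls V ∧ SplitR V)
    (fun _ _ _ hP h hc => ⟨oneCls_of_conj hP h hc.1, splitR_of_conj hP h hc.2⟩)
    fun V hV γ hcl hm => H V _ (GD.gp_of_car hc hr hng h1 hC hV hcl hm)
  exact mart_splitR (by omega) W hW h3.1 h3.2 h4

namespace SplitRX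

variable {G : Type} [Group G] {r : ℕ} {V : G →* Matrix (Fin r) (Fin r) ℂ}

lemma pos_of_irr {a : MRep G} (h : IsIrr a.2) : 0 < a.1 := by
  obtain ⟨i⟩ := h.1
  exact i.pos

lemma sameLevel_refl (a : MRep G) : SameLevel V a a := fun _ _ => rfl

lemma sameLevel_trans {a b c : MRep G} (hb : IsIrr b.2) (h1 : SameLevel V a b)
    (h2 : SameLevel V b c) : SameLevel V a c := by
  intro g hg
  have h3 := h1 g hg
  have h4 := h2 g hg
  have h5 : (b.1 : ℂ) ≠ 0 := by exact_mod_cast (pos_of_irr hb).ne'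
  apply mul_right_cancel₀ h5
  linear_combination (c.1 : ℂ) * h3 + (a.1 : ℂ) * h4

lemma sameLevel_of_eqvGen [Fintype G] {a b : MRep G} (h : Relation.EqvGen (Lk V) a b) :
    a = b ∨ IsIrr a.2 ∧ IsIrr b.2 ∧ SameLevel V a b := by
  induction h with
  | rel x y hxy => exact Or.inr ⟨hxy.1, hxy.2.1, hxy.2.2.1⟩
  | refl x => exact Or.inl rfl
  | symm x y _ ih =>
    rcases ih with h1 | ⟨h1, h2, h3⟩
    · exact Or.inl h1.symm
    · exact Or.inr ⟨h2, h1, sameLevel_symm h3⟩
  | trans x y z _ _ ih1 ih2 =>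
    rcases ih1 with h1 | ⟨h1, h2, h3⟩
    · rw [h1]; exact ih2
    · rcases ih2 with h4 | ⟨h4, h5, h6⟩
      · rw [← h4]; exact Or.inr ⟨h1, h2, h3⟩
      · exact Or.inr ⟨h1, h5, sameLevel_trans h2 h3 h6⟩

lemma sameLevel_of_eqvGen' [Fintype G] {a b : MRep G} (h : Relation.EqvGen (Lk V) a b) :
    SameLevel V a b := by
  rcases sameLevel_of_eqvGen h with h1 | h1
  · rw [h1]; exact sameLevel_refl b
  · exact h1.2.2

/-- The rank criterion depends only on the level of `a` and on the part of `Y` in this level. -/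
lemma rankSep_move [Fintype G] {Y Y' : MRep G → Prop} {a a' : MRep G} (ha : IsIrr a'.2)
    (h1 : SameLevel V a a') (hY : ∀ b : MRep G, IsIrr b.2 → SameLevel V a b → (Y b ↔ Y' b))
    (h : RankSep V Y a) : RankSep V Y' a' := by
  obtain ⟨N, k, p, σ, n, hN, h2, h3⟩ := h
  refine ⟨N, k, p, σ, n, hN, fun b hb hl => h2 b hb (sameLevel_trans ha h1 hl), fun i => ?_⟩
  rcases h3 i with h4 | h4
  · left
    intro b hb hl hYb
    have h5 := sameLevel_trans ha h1 hl
    exact h4 b hb h5 ((hY b hb h5).2 hYb)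
  · right
    intro b hb hl hYb
    have h5 := sameLevel_trans ha h1 hl
    exact h4 b hb h5 fun h6 => hYb ((hY b hb h5).1 h6)

end SplitRX

open SplitRX

namespace GD

variable {G : Type} [Group G] {r : ℕ} {V : G →* Matrix (Fin r) (Fin r) ℂ}
variable {α : Type} {d : GD α} {φ : α → ℂ} {e : ℕ → ℂ} {γ : ℕ → G}

/-- The rows of `J` in the level of `μ` are those of `I`. -/
def chkPart (d : GD α) (I J μ : ℕ) : Bool :=
  allN d.K fun i => cond (bit I i) (cond (bit J i) (Nat.beq (d.labv i) (d.labv μ)) false)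
    (cond (bit J i) (d.difE μ i) true)

/-- The criterion for `I` in the level of `a μ` gives the criterion for `J` at the rows in `I`. -/
theorem Out.rankSep_part [Fintype G] (hc : CRS d.c φ e) {lt : ℕ → G} {a : ℕ → MRep G}
    (O : Out d φ V γ lt a) {I J μ : ℕ} (hμ : μ < d.K) (hck : d.chkPart I J μ = true)
    (h : RankSep V (d.InS a I) (a μ)) {b : MRep G} (hb : IsIrr b.2) (hI : d.InS a I b) :
    RankSep V (d.InS a J) b := by
  unfold chkPart at hck
  rw [allN_iff] at hck
  have hlev : ∀ c : MRep G, IsIrr c.2 → d.InS a I c → SameLevel V (a μ) c := by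
    rintro c hc' ⟨i, hi, hbi, h1, h2⟩
    have h3 := hck i hi
    rw [hbi, cond_true] at h3
    simp only [cond_iff, beq_iff] at h3
    have e1 := (O.link i hi).1
    have e2 := (O.link μ hμ).1
    rw [h3.2] at e1
    have h4 : SameLevel V (a μ) (a i) := sameLevel_of_eqvGen' (e2.trans _ _ _ (e1.symm _ _))
    exact sameLevel_symm (sameLevel_left h1.symm (fun g => (h2 g).symm) (sameLevel_symm h4))
  refine rankSep_move hb (hlev b hb hI) (fun c hc' hl => ?_) h
  constructor
  · rintro ⟨i, hi, hbi, h1, h2⟩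
    have h3 := hck i hi
    rw [hbi, cond_true] at h3
    simp only [cond_iff] at h3
    exact ⟨i, hi, h3.1, h1, h2⟩
  · rintro ⟨i, hi, hbi, h1, h2⟩
    have h3 := hck i hi
    cases h4 : bit I i with
    | true => exact ⟨i, hi, h4, h1, h2⟩
    | false =>
      exfalso
      rw [h4, cond_false, hbi, cond_true] at h3
      exact difE_of hc O hμ hi h3
        (sameLevel_symm (sameLevel_left h1 h2 (sameLevel_symm hl)))

lemma inS_congr {d : GD α} {a : ℕ → MRep G} {J : ℕ} (x y : MRep G) (h1 : x.1 = y.1)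
    (h2 : ∀ g, (x.2 g).trace = (y.2 g).trace) (h : d.InS a J x) : d.InS a J y := by
  obtain ⟨i, hi, hb, h3, h4⟩ := h
  exact ⟨i, hi, hb, h1.symm.trans h3, fun g => (h2 g).symm.trans (h4 g)⟩

/-- A row is in `J` if and only if its character is. -/
lemma Out.inS_iff [Fintype G] (hc : CRS d.c φ e) (CB : CkB d) {lt : ℕ → G} {a : ℕ → MRep G}
    (O : Out d φ V γ lt a) {J i : ℕ} (hi : i < d.K) : bit J i = true ↔ d.InS a J (a i) := by
  have hne : ∀ i < d.K, ∀ i' < i, ¬ ∀ g, ((a i).2 g).trace = ((a i').2 g).trace := by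
    intro i hi i' hi' h
    have h1 := CB.dist i hi
    unfold chkDist at h1
    rw [allN_iff] at h1
    have h2 := h1 i' hi'
    rw [anyN_iff] at h2
    obtain ⟨j, hj, h3⟩ := h2
    rw [Bool.not_eq_true', ← Bool.not_eq_true, hc.eq] at h3
    apply h3
    rw [← (O.irr i hi).2.2 j hj, ← (O.irr i' (by omega)).2.2 j hj, h]
  constructor
  · intro h
    exact ⟨i, hi, h, rfl, fun _ => rfl⟩
  · rintro ⟨i', hi', hb, -, h1⟩
    rcases Nat.lt_trichotomy i i' with h | h | h
    · exact absurd (fun g => (h1 g).symm) (hne i' hi' i h)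
    · rw [h]; exact hb
    · exact absurd h1 (hne i hi i' h)

end GD

end

end Pool.Agent.CMFn
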