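import Pool.Agent.CMFn.Braid

/-! Project CMF, every rank, block T, module T4A: calculus of pairs (group element, class of
paths) in the braid group: products, change of the base point, conjugation. -/

namespace Pool.Agent.CMFn

open unitInterval Matrix

noncomputable section

namespace T4X

variable {r : ℕ} {G : SG r} {v₀ x y z w : VReg G}

/-- Homotopy classes of paths. -/
abbrev PQ (x y : VReg G) : Type := Path.Homotopic.Quotient x y

/-- The action of a group element. -/
def gc (g : G) : C(VReg G, VReg G) := ⟨fun v => g • v, continuous_const_smul g⟩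

/-- The action on classes of paths. -/
def gm (g : G) (P : PQ x y) : PQ (g • x) (g • y) := P.map (gc g)

lemma gm_mk (g : G) (p : Path x y) : gm g (Path.Homotopic.Quotient.mk p) =
    Path.Homotopic.Quotient.mk (p.map (continuous_const_smul g)) := rfl

lemma gm_trans (g : G) (P : PQ x y) (Q : PQ y z) :
    gm g (P.trans Q) = (gm g P).trans (gm g Q) := by
  induction P using Path.Homotopic.Quotient.ind with
  | mk p =>
    induction Q using Path.Homotopic.Quotient.ind with
    | mk q =>
      rw [← Path.Homotopic.Quotient.mk_trans, gm_mk, gm_mk, gm_mk,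
        ← Path.Homotopic.Quotient.mk_trans, Path.map_trans]

lemma gm_symm (g : G) (P : PQ x y) : gm g P.symm = (gm g P).symm := by
  induction P using Path.Homotopic.Quotient.ind with
  | mk p => rfl

lemma gm_refl (g : G) (x : VReg G) : gm g (Path.Homotopic.Quotient.refl x) =
    Path.Homotopic.Quotient.refl (g • x) := rfl

lemma gm_cast (g : G) (P : PQ x y) {x' y' : VReg G} (hx : x' = x) (hy : y' = y) :
    gm g (P.cast hx hy) = (gm g P).cast (by rw [hx]) (by rw [hy]) := by
  subst hx hy
  rw [Path.Homotopic.Quotient.cast_rfl_rfl, Path.Homotopic.Quotient.cast_rfl_rfl]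

lemma gm_gm (g h : G) (P : PQ x y) : gm g (gm h P) =
    (gm (g * h) P).cast (mul_smul g h x).symm (mul_smul g h y).symm := by
  induction P using Path.Homotopic.Quotient.ind with
  | mk p =>
    rw [gm_mk, gm_mk, gm_mk, ← Path.Homotopic.Quotient.mk_cast]
    congr 1
    apply Path.ext
    funext t
    exact (mul_smul g h (p t)).symm

lemma gm_one (P : PQ x y) : gm (1 : G) P = P.cast (one_smul G x) (one_smul G y) := by
  induction P using Path.Homotopic.Quotient.ind with
  | mk p =>
    rw [gm_mk, ← Path.Homotopic.Quotient.mk_cast]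
    congr 1
    apply Path.ext
    funext t
    exact one_smul G (p t)

lemma gm_congr {g g' : G} (h : g = g') (P : PQ x y) : gm g P =
    (gm g' P).cast (by rw [h]) (by rw [h]) := by
  subst h
  rw [Path.Homotopic.Quotient.cast_rfl_rfl]

/-- The class of a pair. -/
def bq (g : G) (hy : y = g • v₀) (P : PQ v₀ y) : Braid G v₀ :=
  Quotient.liftOn P (fun p => Quotient.mk _ (BPath.ofPath g (p.cast rfl hy.symm)))
    (fun p q h => Quotient.sound (BraidX.rel_of rfl p q (fun _ => rfl) (fun _ => rfl) h))

lemma bq_mk (g : G) (hy : y = g • v₀) (p : Path v₀ y) :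
    bq g hy (Path.Homotopic.Quotient.mk p) =
      Quotient.mk _ (BPath.ofPath g (p.cast rfl hy.symm)) := rfl

lemma bq_congr {g g' : G} (hg : g = g') {y y' : VReg G} (hy : y = g • v₀) (hy' : y' = g' • v₀)
    (P : PQ v₀ y) (P' : PQ v₀ y') (h : P' = P.cast rfl (by rw [hy', ← hg, ← hy])) :
    bq g hy P = bq g' hy' P' := by
  subst hg
  subst hy
  subst hy'
  rw [Path.Homotopic.Quotient.cast_rfl_rfl] at h
  rw [h]

lemma bq_mul (g h : G) (hy : y = g • v₀) (P : PQ v₀ y) (hz : z = h • v₀) (Q : PQ v₀ z)
    (hw : w = g • z) : bq g hy P * bq h hz Q =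
      bq (g * h) (by rw [hw, hz, mul_smul]) (P.trans ((gm g Q).cast hy hw)) := by
  subst hy hz hw
  rw [Path.Homotopic.Quotient.cast_rfl_rfl]
  induction P using Path.Homotopic.Quotient.ind with
  | mk p =>
    induction Q using Path.Homotopic.Quotient.ind with
    | mk q =>
      rw [gm_mk, ← Path.Homotopic.Quotient.mk_trans, bq_mk, bq_mk, bq_mk]
      show Quotient.mk _ (BPath.mul _ _) = _
      exact Quotient.sound (BraidX.rel_of rfl (p.trans (q.map (continuous_const_smul g)))
        (p.trans (q.map (continuous_const_smul g))) (fun _ => rfl) (fun _ => rfl)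
        (Path.Homotopic.refl _))

lemma bq_one (P : PQ v₀ y) (hy : y = (1 : G) • v₀)
    (h : P = (Path.Homotopic.Quotient.refl v₀).cast rfl (by rw [hy, one_smul])) :
    bq 1 hy P = 1 := by
  have hy' : y = v₀ := by rw [hy, one_smul]
  subst hy'
  rw [h]
  show Quotient.mk _ _ = Quotient.mk _ (BPath.one G y)
  exact Quotient.sound (BraidX.rel_of rfl (Path.refl y) (Path.refl y) (fun _ => rfl)
    (fun _ => rfl) (Path.Homotopic.refl _))

/-- Change of the base point: the pair `(g, q γ (g q⁻¹))`. -/
def chg (q : PQ v₀ x) (g : G) (hy : y = g • x) (γ : PQ x y) : Braid G v₀ :=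
  bq g rfl ((q.trans γ).trans ((gm g q.symm).cast hy rfl))

lemma chg_congr (q : PQ v₀ x) {g g' : G} (hg : g = g') {y y' : VReg G} (hy : y = g • x)
    (hy' : y' = g' • x) (γ : PQ x y) (γ' : PQ x y')
    (h : γ' = γ.cast rfl (by rw [hy', ← hg, ← hy])) : chg q g hy γ = chg q g' hy' γ' := by
  subst hg
  subst hy
  subst hy'
  rw [Path.Homotopic.Quotient.cast_rfl_rfl] at h
  rw [h]

lemma chg_mk (q : Path v₀ x) (g : G) (γ : Path x (g • x)) :
    chg (Path.Homotopic.Quotient.mk q) g rfl (Path.Homotopic.Quotient.mk γ) =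
      Quotient.mk _ (BPath.ofPath g
        ((q.trans γ).trans ((q.symm).map (continuous_const_smul g)))) := rfl

lemma chg_mul (q : PQ v₀ x) (g h : G) (hy : y = g • x) (γ : PQ x y) (hz : z = h • x)
    (γ' : PQ x z) (hw : w = g • z) : chg q g hy γ * chg q h hz γ' =
      chg q (g * h) (by rw [hw, hz, mul_smul]) (γ.trans ((gm g γ').cast hy hw)) := by
  subst hy hz hw
  unfold chg
  rw [bq_mul (w := g • (h • v₀)) g h rfl _ rfl _ rfl]
  simp only [Path.Homotopic.Quotient.cast_rfl_rfl]
  refine bq_congr rfl _ _ _ _ ?_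
  rw [gm_trans, gm_trans, gm_gm]
  have e1 : ((q.trans γ).trans (gm g q.symm)).trans (((gm g q).trans (gm g γ')).trans
      ((gm (g * h) q.symm).cast (mul_smul g h x).symm (mul_smul g h v₀).symm)) =
      (q.trans (γ.trans (gm g γ'))).trans
        ((gm (g * h) q.symm).cast (mul_smul g h x).symm (mul_smul g h v₀).symm) := by
    rw [gm_symm g q]
    simp only [Path.Homotopic.Quotient.trans_assoc]
    congr 2
    rw [← Path.Homotopic.Quotient.trans_assoc, Path.Homotopic.Quotient.symm_trans,
      Path.Homotopic.Quotient.refl_trans]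
  rw [e1]
  have e2 : ∀ {a b c c' : VReg G} (P : PQ a b) (Q : PQ b c) (hc : c' = c),
      (P.trans Q).cast rfl hc = P.trans (Q.cast rfl hc) := by
    intro a b c c' P Q hc
    subst hc
    rw [Path.Homotopic.Quotient.cast_rfl_rfl, Path.Homotopic.Quotient.cast_rfl_rfl]
  rw [e2, Path.Homotopic.Quotient.cast_cast]

/-- Transport of a class of loops along a path. -/
lemma chg_trans (q : PQ v₀ x) (c : PQ x y) (g : G) (hz : z = g • y) (γ : PQ y z)
    (hw : w = g • x) : chg (q.trans c) g hz γ =
      chg q g hw ((c.trans γ).trans ((gm g c.symm).cast hz hw)) := by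
  subst hz hw
  unfold chg
  refine bq_congr rfl _ _ _ _ ?_
  simp only [Path.Homotopic.Quotient.cast_rfl_rfl]
  have e1 : (q.trans c).symm = c.symm.trans q.symm := by
    induction q using Path.Homotopic.Quotient.ind with
    | mk q =>
      induction c using Path.Homotopic.Quotient.ind with
      | mk c =>
        rw [← Path.Homotopic.Quotient.mk_trans, ← Path.Homotopic.Quotient.mk_symm,
          Path.trans_symm]
        rfl
  rw [e1, gm_trans]
  simp only [Path.Homotopic.Quotient.trans_assoc]

/-- Two paths to the same point: the elements are conjugate. -/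
lemma chg_conj (q q' : PQ v₀ x) (g : G) (hy : y = g • x) (γ : PQ x y) :
    chg q g hy γ = bq 1 (one_smul G v₀).symm (q.trans q'.symm) * chg q' g hy γ *
      (bq 1 (one_smul G v₀).symm (q.trans q'.symm))⁻¹ := by
  rw [eq_mul_inv_iff_mul_eq]
  subst hy
  unfold chg
  rw [bq_mul (w := g • v₀) g 1 rfl _ _ _ rfl, bq_mul (w := g • v₀) 1 g _ _ rfl _
    (one_smul G (g • v₀)).symm]
  refine bq_congr (by rw [mul_one, one_mul]) _ _ _ _ ?_
  simp only [Path.Homotopic.Quotient.cast_rfl_rfl]
  rw [gm_one, Path.Homotopic.Quotient.cast_cast, Path.Homotopic.Quotient.cast_rfl_rfl, gm_trans,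
    gm_symm g q]
  simp only [Path.Homotopic.Quotient.trans_assoc]
  have e1 : ∀ {a b c : VReg G} (P : PQ a b) (Q : PQ b c),
      P.symm.trans (P.trans Q) = Q := by
    intro a b c P Q
    rw [← Path.Homotopic.Quotient.trans_assoc, Path.Homotopic.Quotient.symm_trans,
      Path.Homotopic.Quotient.refl_trans]
  rw [e1, e1]

/-- Conjugation by an arbitrary pair. -/
lemma conj_chg (g h : G) (c : PQ v₀ (g • v₀)) (q : PQ v₀ x) (γ : PQ x (h • x))
    (hz : g • h • x = (g * h * g⁻¹) • (g • x)) :
    bq g rfl c * chg q h rfl γ * (bq g rfl c)⁻¹ =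
      chg (c.trans (gm g q)) (g * h * g⁻¹) hz (gm g γ) := by
  rw [mul_inv_eq_iff_eq_mul]
  unfold chg
  have hk : g * h = g * h * g⁻¹ * g := by group
  rw [bq_mul (w := g • h • v₀) g h rfl _ rfl _ rfl,
    bq_mul (w := (g * h * g⁻¹) • g • v₀) (g * h * g⁻¹) g rfl _ rfl _ rfl]
  refine bq_congr hk _ _ _ _ ?_
  simp only [Path.Homotopic.Quotient.cast_rfl_rfl]
  have e0 : (c.trans (gm g q)).symm = (gm g q.symm).trans c.symm := by
    rw [gm_symm]
    generalize gm g q = Q
    induction c using Path.Homotopic.Quotient.ind with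
    | mk c =>
      induction Q using Path.Homotopic.Quotient.ind with
      | mk Q =>
        rw [← Path.Homotopic.Quotient.mk_trans, ← Path.Homotopic.Quotient.mk_symm,
          Path.trans_symm]
        rfl
  have e1 : ∀ {a b c d : VReg G} (P : PQ a b) (Q : PQ b c) (hd : d = c),
      (P.trans Q).cast rfl hd = P.trans (Q.cast rfl hd) := by
    intro a b c d P Q hd
    subst hd
    rw [Path.Homotopic.Quotient.cast_rfl_rfl, Path.Homotopic.Quotient.cast_rfl_rfl]
  have e2 : ∀ {a b b' c : VReg G} (P : PQ a b) (Q : PQ b c) (hb : b' = b),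
      (P.trans Q) = (P.cast rfl hb).trans (Q.cast hb rfl) := by
    intro a b b' c P Q hb
    subst hb
    rw [Path.Homotopic.Quotient.cast_rfl_rfl, Path.Homotopic.Quotient.cast_rfl_rfl]
  have e3 : ∀ {a b c d : VReg G} (P : PQ a b) (Q : PQ b c) (hd : d = a),
      (P.trans Q).cast hd rfl = (P.cast hd rfl).trans Q := by
    intro a b c d P Q hd
    subst hd
    rw [Path.Homotopic.Quotient.cast_rfl_rfl, Path.Homotopic.Quotient.cast_rfl_rfl]
  -- left: c (g q) (g γ) (g h q⁻¹); right: c (g q) (g γ) (k (g q⁻¹)) (k c⁻¹) (k c)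
  rw [e0, gm_trans (g * h * g⁻¹), gm_trans g, gm_trans g, gm_gm g h, gm_gm (g * h * g⁻¹) g,
    gm_symm (g * h * g⁻¹) c, e3]
  simp only [Path.Homotopic.Quotient.trans_assoc, Path.Homotopic.Quotient.symm_trans,
    Path.Homotopic.Quotient.trans_refl, Path.Homotopic.Quotient.cast_cast]
  rw [e1, e1, e1, Path.Homotopic.Quotient.cast_cast]
  congr 3
  rw [gm_congr hk, Path.Homotopic.Quotient.cast_cast]

end T4X

end

end Pool.Agent.CMFn
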