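import Pool.Agent.CMFn.T4A
import Pool.Agent.CMFn.QDefs

/-! Project CMF, every rank, block T, module T4B: powers of a pair which winds around a circle,
and squares in `V^reg`. -/

namespace Pool.Agent.CMFn

open unitInterval Matrix

noncomputable section

namespace T4X

variable {r : ℕ} {G : SG r} {v₀ x y z w : VReg G}

/-- The segment from `a` to `b`. -/
def line (a b : ℝ) : Path a b where
  toFun t := a + (t : ℝ) * (b - a)
  continuous_toFun := by fun_prop
  source' := by simp
  target' := by simp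

lemma line_apply (a b : ℝ) (t : I) : line a b t = a + (t : ℝ) * (b - a) := rfl

/-- The arc from `E a` to `E b`. -/
def arc (E : C(ℝ, VReg G)) (a b : ℝ) : PQ (E a) (E b) :=
  Path.Homotopic.Quotient.mk ((line a b).map E.continuous)

lemma arc_trans (E : C(ℝ, VReg G)) (a b c : ℝ) : (arc E a b).trans (arc E b c) = arc E a c := by
  unfold arc
  rw [← Path.Homotopic.Quotient.mk_trans, ← Path.map_trans]
  have h : ((line a b).trans (line b c)).Homotopic (line a c) :=
    SimplyConnectedSpace.paths_homotopic _ _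
  exact Path.Homotopic.Quotient.eq.2 (h.map E)

/-- Powers of a pair which winds around a circle. -/
lemma pow_arc (E : C(ℝ, VReg G)) (g : G) (hE : ∀ θ, E (θ + 1) = g • E θ) (q : PQ v₀ (E 0))
    (h1 : E 1 = g • E 0) (n : ℕ) (hn : E ((n + 1 : ℕ) : ℝ) = g ^ (n + 1) • E 0) :
    chg q g h1 (arc E 0 1) ^ (n + 1) = chg q (g ^ (n + 1)) hn (arc E 0 ((n + 1 : ℕ) : ℝ)) := by
  have hp : ∀ (m : ℕ) (θ : ℝ), E (θ + m) = g ^ m • E θ := by
    intro m
    induction m with
    | zero =>
      intro θ
      rw [Nat.cast_zero, add_zero, pow_zero, one_smul]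
    | succ m ih =>
      intro θ
      rw [Nat.cast_succ, ← add_assoc, hE, ih, pow_succ', mul_smul]
  induction n with
  | zero =>
    refine (pow_one _).trans ?_
    refine chg_congr q (by rw [zero_add, pow_one]) _ _ _ _ ?_
    have e : (((0 + 1 : ℕ) : ℕ) : ℝ) = 1 := by norm_num
    unfold arc
    rw [← Path.Homotopic.Quotient.mk_cast]
    congr 1
    apply Path.ext
    funext t
    show E (line 0 _ t) = E (line 0 1 t)
    rw [line_apply, line_apply, e]
  | succ n ih =>
    have hn' : E ((n + 1 : ℕ) : ℝ) = g ^ (n + 1) • E 0 := by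
      have h2 := hp (n + 1) 0
      rw [zero_add] at h2
      exact h2
    have hw : E ((n + 1 + 1 : ℕ) : ℝ) = g ^ (n + 1) • E 1 := by
      rw [← hp (n + 1) 1]
      congr 1
      push_cast
      ring
    rw [pow_succ, ih hn', chg_mul q (g ^ (n + 1)) g hn' _ h1 _ hw]
    refine chg_congr q (pow_succ g (n + 1)).symm _ _ _ _ ?_
    have e1 : (gm (g ^ (n + 1)) (arc E 0 1)).cast hn' hw =
        arc E ((n + 1 : ℕ) : ℝ) ((n + 1 + 1 : ℕ) : ℝ) := by
      unfold arc
      rw [gm_mk, ← Path.Homotopic.Quotient.mk_cast]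
      congr 1
      apply Path.ext
      funext t
      show g ^ (n + 1) • E (line 0 1 t) = E (line _ _ t)
      rw [← hp, line_apply, line_apply]
      congr 1
      push_cast
      ring
    rw [e1, arc_trans, Path.Homotopic.Quotient.cast_rfl_rfl]

/-- Horizontal segments. -/
def hs (y : ℝ) : Path ((0 : ℝ), y) ((1 : ℝ), y) where
  toFun t := ((t : ℝ), y)
  continuous_toFun := by fun_prop
  source' := by simp
  target' := by simp

/-- Vertical segments. -/
def vs (x : ℝ) : Path (x, (0 : ℝ)) (x, (1 : ℝ)) where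
  toFun t := (x, (t : ℝ))
  continuous_toFun := by fun_prop
  source' := by simp
  target' := by simp

lemma square (F : C(ℝ × ℝ, VReg G)) :
    Path.Homotopic.Quotient.mk ((vs 0).map F.continuous) =
      ((Path.Homotopic.Quotient.mk ((hs 0).map F.continuous)).trans
        (Path.Homotopic.Quotient.mk ((vs 1).map F.continuous))).trans
          (Path.Homotopic.Quotient.mk ((hs 1).map F.continuous)).symm := by
  rw [← Path.Homotopic.Quotient.mk_trans, ← Path.Homotopic.Quotient.mk_symm,
    ← Path.Homotopic.Quotient.mk_trans, ← Path.map_trans, Path.map_symm, ← Path.map_trans]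
  have h : (vs 0).Homotopic (((hs 0).trans (vs 1)).trans (hs 1).symm) :=
    SimplyConnectedSpace.paths_homotopic _ _
  exact Path.Homotopic.Quotient.eq.2 (h.map F)

lemma chg_square0 (F : C(ℝ × ℝ, VReg G)) (g : G) (hF : ∀ s, F (s, 1) = g • F (s, 0))
    (q : PQ v₀ (F (0, 0))) : chg q g (hF 0) (Path.Homotopic.Quotient.mk ((vs 0).map F.continuous)) =
      chg (q.trans (Path.Homotopic.Quotient.mk ((hs 0).map F.continuous))) g (hF 1)
        (Path.Homotopic.Quotient.mk ((vs 1).map F.continuous)) := by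
  rw [chg_trans q _ g (hF 1) _ (hF 0), square F]
  congr 2
  rw [gm_symm, gm_mk, ← Path.Homotopic.Quotient.mk_symm, ← Path.Homotopic.Quotient.mk_symm,
    ← Path.Homotopic.Quotient.mk_cast]
  congr 1
  apply Path.ext
  funext t
  exact hF _

/-- Two loops (up to the action of `g`) which are the ends of a square. -/
lemma chg_square (F : C(ℝ × ℝ, VReg G)) (g : G) (hF : ∀ s, F (s, 1) = g • F (s, 0))
    {x₁ y₁ x₂ y₂ : VReg G} (h₁ : y₁ = g • x₁) (h₂ : y₂ = g • x₂) (a₁ : Path x₁ y₁)
    (a₂ : Path x₂ y₂) (e₁ : ∀ t : I, a₁ t = F (0, (t : ℝ))) (e₂ : ∀ t : I, a₂ t = F (1, (t : ℝ)))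
    (q₁ : PQ v₀ x₁) (q₂ : PQ v₀ x₂) : ∃ c : Braid G v₀,
      chg q₁ g h₁ (Path.Homotopic.Quotient.mk a₁) =
        c * chg q₂ g h₂ (Path.Homotopic.Quotient.mk a₂) * c⁻¹ := by
  have hx₁ : F (0, 0) = x₁ := by
    have h := e₁ 0
    rw [a₁.source] at h
    exact h.symm
  have hx₂ : F (1, 0) = x₂ := by
    have h := e₂ 0
    rw [a₂.source] at h
    exact h.symm
  subst hx₁
  subst hx₂
  have k₁ : chg q₁ g h₁ (Path.Homotopic.Quotient.mk a₁) =
      chg q₁ g (hF 0) (Path.Homotopic.Quotient.mk ((vs 0).map F.continuous)) := by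
    refine chg_congr q₁ rfl _ _ _ _ ?_
    rw [← Path.Homotopic.Quotient.mk_cast]
    congr 1
    apply Path.ext
    funext t
    exact (e₁ t).symm
  have k₂ : ∀ q : PQ v₀ (F (1, 0)), chg q g h₂ (Path.Homotopic.Quotient.mk a₂) =
      chg q g (hF 1) (Path.Homotopic.Quotient.mk ((vs 1).map F.continuous)) := by
    intro q
    refine chg_congr q rfl _ _ _ _ ?_
    rw [← Path.Homotopic.Quotient.mk_cast]
    congr 1
    apply Path.ext
    funext t
    exact (e₂ t).symm
  rw [k₁, chg_square0 F g hF q₁, k₂]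
  exact ⟨_, chg_conj _ _ g (hF 1) _⟩

/-- The twist as a change of base point. -/
lemma tw_eq_chg {p : Fin r → ℂ} (h : IsTw p x) (q : Path v₀ x) :
    tw h q = chg (Path.Homotopic.Quotient.mk q) 1 (one_smul G x).symm
      (Path.Homotopic.Quotient.mk (twLoop h)) := by
  unfold chg
  rw [gm_one, Path.Homotopic.Quotient.cast_cast, ← Path.Homotopic.Quotient.mk_symm,
    ← Path.Homotopic.Quotient.mk_cast, ← Path.Homotopic.Quotient.mk_trans,
    ← Path.Homotopic.Quotient.mk_trans, bq_mk]
  refine Quotient.sound (BraidX.rel_of rfl ((q.trans (twLoop h)).trans q.symm)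
    ((q.trans (twLoop h)).trans q.symm) (fun _ => rfl) (fun t => ?_) (Path.Homotopic.refl _))
  show ((q.trans (twLoop h)).trans (q.symm.cast _ _)) t = _
  rw [Path.trans_apply, Path.trans_apply]
  rfl

end T4X

end

end Pool.Agent.CMFn
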