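import Pool.Agent.CMFn.T4B
import Pool.Agent.CMFn.DunA
import Pool.Agent.CMFn.DunB

/-! Project CMF, every rank, block T, module T4C: small circles around one reflecting hyperplane
are freely homotopic. -/

namespace Pool.Agent.CMFn

open unitInterval Matrix

noncomputable section

namespace T4X

variable {r : ℕ} {N : SG r} [Fintype N]

/-- The pairs `(c, u)`, `c ∈ H`, `u ∈ U`, such that the disc `{c + z u : |z| ≤ 1}` meets the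
reflecting hyperplanes only in `c`, and `c` lies only on `H`. -/
def WH (H : Arr N) (U : Submodule ℂ (Fin r → ℂ)) : Set ((Fin r → ℂ) × (Fin r → ℂ)) :=
  {q | q.2 ∈ U ∧ lf H.1 ⬝ᵥ q.1 = 0 ∧ lf H.1 ⬝ᵥ q.2 ≠ 0 ∧
    ∀ H' : Arr N, H' ≠ H → ‖lf H'.1 ⬝ᵥ q.2‖ < ‖lf H'.1 ⬝ᵥ q.1‖}

variable {H : Arr N} {U : Submodule ℂ (Fin r → ℂ)}

omit [Fintype N] in
lemma reg_of {q : (Fin r → ℂ) × (Fin r → ℂ)} (hq : q ∈ WH H U) (z : ℂ) (h0 : z ≠ 0)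
    (h1 : ‖z‖ ≤ 1) : ∀ g ∈ N, IsRefl g → g.1 *ᵥ (q.1 + z • q.2) ≠ q.1 + z • q.2 := by
  rw [vreg_iff]
  intro H'
  rw [dotProduct_add, dotProduct_smul, smul_eq_mul]
  by_cases h : H' = H
  · rw [h, hq.2.1, zero_add]
    exact mul_ne_zero h0 hq.2.2.1
  · intro he
    have h2 := hq.2.2.2 H' h
    have h3 : lf H'.1 ⬝ᵥ q.1 = -(z * (lf H'.1 ⬝ᵥ q.2)) := eq_neg_of_add_eq_zero_left he
    rw [h3, norm_neg, norm_mul] at h2
    have h4 : ‖z‖ * ‖lf H'.1 ⬝ᵥ q.2‖ ≤ ‖lf H'.1 ⬝ᵥ q.2‖ :=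
      mul_le_of_le_one_left (norm_nonneg _) h1
    exact absurd h2 (not_lt.2 h4)

omit [Fintype N] in
lemma mem_of_isTw {p : Fin r → ℂ} {x : VReg N} (h : IsTw p x) (hp : p ∈ H.1)
    (hp' : ∀ H' : Arr N, p ∈ H'.1 → H' = H) (hU : x.1 - p ∈ U) : (p, x.1 - p) ∈ WH H U := by
  have hpH : lf H.1 ⬝ᵥ p = 0 := ((lf_spec H).2 p).1 hp
  refine ⟨hU, hpH, ?_, ?_⟩
  · show lf H.1 ⬝ᵥ (x.1 - p) ≠ 0
    rw [dotProduct_sub, hpH, sub_zero]
    exact (vreg_iff x.1).1 x.2 H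
  · intro H' hH'
    show ‖lf H'.1 ⬝ᵥ (x.1 - p)‖ < ‖lf H'.1 ⬝ᵥ p‖
    by_contra hcon
    rw [not_lt] at hcon
    have h1 : lf H'.1 ⬝ᵥ p ≠ 0 := fun h0 => hH' (hp' H' (((lf_spec H').2 p).2 h0))
    have h2 : 0 < ‖lf H'.1 ⬝ᵥ p‖ := norm_pos_iff.2 h1
    have h3 : lf H'.1 ⬝ᵥ (x.1 - p) ≠ 0 := norm_pos_iff.1 (lt_of_lt_of_le h2 hcon)
    have h4 := h (-((lf H'.1 ⬝ᵥ p) / (lf H'.1 ⬝ᵥ (x.1 - p))))
      (by rw [norm_neg, norm_div]; exact div_pos h2 (norm_pos_iff.2 h3))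
      (by rw [norm_neg, norm_div]; exact div_le_one_of_le₀ hcon (norm_nonneg _))
    have h5 := (vreg_iff _).1 h4 H'
    apply h5
    rw [dotProduct_add, dotProduct_smul, smul_eq_mul, neg_mul, div_mul_cancel₀ _ h3,
      add_neg_cancel]

omit [Fintype N] in
lemma joined_scale {q : (Fin r → ℂ) × (Fin r → ℂ)} (hq : q ∈ WH H U) {ε : ℝ} (h0 : 0 < ε)
    (h1 : ε ≤ 1) : JoinedIn (WH H U) q (q.1, (ε : ℂ) • q.2) := by
  refine ⟨{ toFun := fun t => (q.1, (((1 - (t : ℝ)) + (t : ℝ) * ε : ℝ) : ℂ) • q.2)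
            continuous_toFun := ?_
            source' := ?_
            target' := ?_ }, ?_⟩
  · have h2 : Continuous (fun t : I => (((1 - (t : ℝ)) + (t : ℝ) * ε : ℝ) : ℂ)) :=
      Complex.continuous_ofReal.comp (by fun_prop)
    have h3 : Continuous (fun t : I => (((1 - (t : ℝ)) + (t : ℝ) * ε : ℝ) : ℂ) • q.2) :=
      h2.smul continuous_const
    exact continuous_const.prodMk h3
  · simp
  · simp
  · intro t
    show (q.1, (((1 - (t : ℝ)) + (t : ℝ) * ε : ℝ) : ℂ) • q.2) ∈ WH H U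
    have ht0 : 0 ≤ (t : ℝ) := t.2.1
    have ht1 : (t : ℝ) ≤ 1 := t.2.2
    have hl0 : 0 < (1 - (t : ℝ)) + (t : ℝ) * ε := by nlinarith
    have hl1 : (1 - (t : ℝ)) + (t : ℝ) * ε ≤ 1 := by nlinarith
    refine ⟨U.smul_mem _ hq.1, hq.2.1, ?_, ?_⟩
    · show lf H.1 ⬝ᵥ ((((1 - (t : ℝ)) + (t : ℝ) * ε : ℝ) : ℂ) • q.2) ≠ 0
      rw [dotProduct_smul, smul_eq_mul]
      refine mul_ne_zero ?_ hq.2.2.1
      exact_mod_cast hl0.ne'
    · intro H' hH'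
      show ‖lf H'.1 ⬝ᵥ ((((1 - (t : ℝ)) + (t : ℝ) * ε : ℝ) : ℂ) • q.2)‖ < ‖lf H'.1 ⬝ᵥ q.1‖
      rw [dotProduct_smul, smul_eq_mul, norm_mul, Complex.norm_real, Real.norm_of_nonneg hl0.le]
      exact lt_of_le_of_lt (mul_le_of_le_one_left (norm_nonneg _) hl1) (hq.2.2.2 H' hH')

/-- Zeros on a line. -/
lemma zeros_finite (a p w : Fin r → ℂ) (h : a ⬝ᵥ p ≠ 0) :
    {z : ℂ | a ⬝ᵥ (p + z • (w - p)) = 0}.Finite := by
  refine Set.Subsingleton.finite ?_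
  intro z hz z' hz'
  rw [Set.mem_ofPred_eq, dotProduct_add, dotProduct_smul, smul_eq_mul] at hz hz'
  have hb : a ⬝ᵥ (w - p) ≠ 0 := by
    intro h0
    rw [h0, mul_zero, add_zero] at hz
    exact h hz
  apply mul_right_cancel₀ hb
  linear_combination hz - hz'

lemma joined_move {q₁ q₂ : (Fin r → ℂ) × (Fin r → ℂ)} (h₁ : q₁ ∈ WH H U) (h₂ : q₂ ∈ WH H U) :
    ∃ ε : ℝ, 0 < ε ∧ ε ≤ 1 ∧
      JoinedIn (WH H U) (q₁.1, (ε : ℂ) • q₁.2) (q₂.1, (ε : ℂ) • q₂.2) := by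
  -- the bad parameters
  let B : Set ℂ := {z : ℂ | lf H.1 ⬝ᵥ (q₁.2 + z • (q₂.2 - q₁.2)) = 0} ∪
    ⋃ H' : {H' : Arr N // H' ≠ H}, {z : ℂ | lf H'.1.1 ⬝ᵥ (q₁.1 + z • (q₂.1 - q₁.1)) = 0}
  have hne : ∀ H' : Arr N, H' ≠ H → lf H'.1 ⬝ᵥ q₁.1 ≠ 0 ∧ lf H'.1 ⬝ᵥ q₂.1 ≠ 0 := by
    intro H' hH'
    exact ⟨norm_pos_iff.1 (lt_of_le_of_lt (norm_nonneg _) (h₁.2.2.2 H' hH')),
      norm_pos_iff.1 (lt_of_le_of_lt (norm_nonneg _) (h₂.2.2.2 H' hH'))⟩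
  have hB : B.Finite := by
    refine Set.Finite.union (zeros_finite _ _ _ h₁.2.2.1) ?_
    exact Set.finite_iUnion fun H' => zeros_finite _ _ _ (hne H'.1 H'.2).1
  have hmem : ∀ z, z ∈ Bᶜ ↔ lf H.1 ⬝ᵥ (q₁.2 + z • (q₂.2 - q₁.2)) ≠ 0 ∧
      ∀ H' : Arr N, H' ≠ H → lf H'.1 ⬝ᵥ (q₁.1 + z • (q₂.1 - q₁.1)) ≠ 0 := by
    intro z
    simp only [B, Set.mem_compl_iff, Set.mem_union, Set.mem_iUnion, Set.mem_ofPred_eq, not_or,
      not_exists, Subtype.forall, ne_eq]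
  have hJ : JoinedIn Bᶜ (0 : ℂ) 1 := by
    have h : IsPathConnected Bᶜ := by
      refine hB.countable.isPathConnected_compl_of_one_lt_rank ?_
      rw [Complex.rank_real_complex]
      exact Cardinal.one_lt_two
    refine h.joinedIn 0 ?_ 1 ?_
    · rw [hmem, zero_smul, add_zero, zero_smul, add_zero]
      exact ⟨h₁.2.2.1, fun H' hH' => (hne H' hH').1⟩
    · rw [hmem, one_smul, add_sub_cancel, one_smul, add_sub_cancel]
      exact ⟨h₂.2.2.1, fun H' hH' => (hne H' hH').2⟩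
  obtain ⟨γ, hγ⟩ := hJ
  have hγ' := fun t => (hmem (γ t)).1 (hγ t)
  let c : I → Fin r → ℂ := fun t => q₁.1 + γ t • (q₂.1 - q₁.1)
  let u : I → Fin r → ℂ := fun t => q₁.2 + γ t • (q₂.2 - q₁.2)
  have hcc : Continuous c := continuous_const.add (γ.continuous.smul continuous_const)
  have huc : Continuous u := continuous_const.add (γ.continuous.smul continuous_const)
  have hdot : ∀ (a : Fin r → ℂ) (f : I → Fin r → ℂ), Continuous f →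
      Continuous (fun t => ‖a ⬝ᵥ f t‖) := fun a f hf =>
    (continuous_const.dotProduct hf).norm
  -- the radius
  have hrad : ∀ H' : Arr N, ∃ δ : ℝ, 0 < δ ∧ (H' ≠ H → ∀ ε : ℝ, 0 < ε → ε ≤ δ → ∀ t,
      ε * ‖lf H'.1 ⬝ᵥ u t‖ < ‖lf H'.1 ⬝ᵥ c t‖) := by
    intro H'
    by_cases hH' : H' = H
    · exact ⟨1, one_pos, fun h => absurd hH' h⟩
    · obtain ⟨t₀, -, ht₀⟩ := isCompact_univ.exists_isMinOn (s := (Set.univ : Set I))
        Set.univ_nonempty (hdot (lf H'.1) c hcc).continuousOn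
      obtain ⟨t₁, -, ht₁⟩ := isCompact_univ.exists_isMaxOn (s := (Set.univ : Set I))
        Set.univ_nonempty (hdot (lf H'.1) u huc).continuousOn
      have hm : 0 < ‖lf H'.1 ⬝ᵥ c t₀‖ := norm_pos_iff.2 ((hγ' t₀).2 H' hH')
      have hM : 0 ≤ ‖lf H'.1 ⬝ᵥ u t₁‖ := norm_nonneg _
      refine ⟨‖lf H'.1 ⬝ᵥ c t₀‖ / (‖lf H'.1 ⬝ᵥ u t₁‖ + 1), by positivity, ?_⟩
      intro _ ε hε hεδ t
      have k1 : ‖lf H'.1 ⬝ᵥ c t₀‖ ≤ ‖lf H'.1 ⬝ᵥ c t‖ := ht₀ (Set.mem_univ t)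
      have k2 : ‖lf H'.1 ⬝ᵥ u t‖ ≤ ‖lf H'.1 ⬝ᵥ u t₁‖ := ht₁ (Set.mem_univ t)
      rw [le_div_iff₀ (by positivity)] at hεδ
      calc ε * ‖lf H'.1 ⬝ᵥ u t‖ ≤ ε * ‖lf H'.1 ⬝ᵥ u t₁‖ :=
            mul_le_mul_of_nonneg_left k2 hε.le
        _ < ε * (‖lf H'.1 ⬝ᵥ u t₁‖ + 1) := by
            rw [mul_add, mul_one]
            linarith
        _ ≤ ‖lf H'.1 ⬝ᵥ c t₀‖ := hεδ
        _ ≤ _ := k1
  choose δ hδ hδ' using hrad
  obtain ⟨ε, hε0, hε1, hε⟩ : ∃ ε : ℝ, 0 < ε ∧ ε ≤ 1 ∧ ∀ H' : Arr N, ε ≤ δ H' := by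
    have hf : ∀ s : Finset (Arr N), ∃ ε : ℝ, 0 < ε ∧ ε ≤ 1 ∧ ∀ H' ∈ s, ε ≤ δ H' := by
      classical
      intro s
      induction s using Finset.induction_on with
      | empty => exact ⟨1, one_pos, le_rfl, fun H' h => absurd h (Finset.notMem_empty H')⟩
      | insert a s _ ih =>
        obtain ⟨ε, h0, h1, h2⟩ := ih
        refine ⟨min ε (δ a), lt_min h0 (hδ a), (min_le_left _ _).trans h1, ?_⟩
        intro H' hH'
        rcases Finset.mem_insert.1 hH' with h | h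
        · rw [h]
          exact min_le_right _ _
        · exact (min_le_left _ _).trans (h2 H' h)
    obtain ⟨ε, h0, h1, h2⟩ := hf Finset.univ
    exact ⟨ε, h0, h1, fun H' => h2 H' (Finset.mem_univ H')⟩
  refine ⟨ε, hε0, hε1, ?_⟩
  have huc' : Continuous (fun t => (ε : ℂ) • u t) :=
    (continuous_const_smul ((ε : ℂ))).comp huc
  refine ⟨{ toFun := fun t => (c t, (ε : ℂ) • u t)
            continuous_toFun := hcc.prodMk huc'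
            source' := ?_
            target' := ?_ }, ?_⟩
  · show (q₁.1 + γ 0 • (q₂.1 - q₁.1), (ε : ℂ) • (q₁.2 + γ 0 • (q₂.2 - q₁.2))) = _
    rw [γ.source, zero_smul, add_zero, zero_smul, add_zero]
  · show (q₁.1 + γ 1 • (q₂.1 - q₁.1), (ε : ℂ) • (q₁.2 + γ 1 • (q₂.2 - q₁.2))) = _
    rw [γ.target, one_smul, add_sub_cancel, one_smul, add_sub_cancel]
  · intro t
    show (c t, (ε : ℂ) • u t) ∈ WH H U
    refine ⟨U.smul_mem _ (U.add_mem h₁.1 (U.smul_mem _ (U.sub_mem h₂.1 h₁.1))), ?_, ?_, ?_⟩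
    · show lf H.1 ⬝ᵥ (q₁.1 + γ t • (q₂.1 - q₁.1)) = 0
      rw [dotProduct_add, dotProduct_smul, dotProduct_sub, h₁.2.1, h₂.2.1, sub_zero, smul_zero,
        add_zero]
    · show lf H.1 ⬝ᵥ ((ε : ℂ) • u t) ≠ 0
      rw [dotProduct_smul, smul_eq_mul]
      refine mul_ne_zero ?_ (hγ' t).1
      exact_mod_cast hε0.ne'
    · intro H' hH'
      show ‖lf H'.1 ⬝ᵥ ((ε : ℂ) • u t)‖ < ‖lf H'.1 ⬝ᵥ c t‖
      rw [dotProduct_smul, smul_eq_mul, norm_mul, Complex.norm_real,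
        Real.norm_of_nonneg hε0.le]
      exact hδ' H' hH' ε hε0 (hε H') t

lemma joined {q₁ q₂ : (Fin r → ℂ) × (Fin r → ℂ)} (h₁ : q₁ ∈ WH H U) (h₂ : q₂ ∈ WH H U) :
    JoinedIn (WH H U) q₁ q₂ := by
  obtain ⟨ε, h0, h1, hJ⟩ := joined_move h₁ h₂
  exact ((joined_scale h₁ h0 h1).trans hJ).trans (joined_scale h₂ h0 h1).symm

/-- The square of circles (arcs). -/
lemma exists_sq {q₁ q₂ : (Fin r → ℂ) × (Fin r → ℂ)} (h₁ : q₁ ∈ WH H U) (h₂ : q₂ ∈ WH H U)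
    (κ : ℝ) : ∃ (F : C(ℝ × ℝ, VReg N)) (P : ℝ → (Fin r → ℂ) × (Fin r → ℂ)), P 0 = q₁ ∧
      P 1 = q₂ ∧ (∀ s, P s ∈ WH H U) ∧ ∀ s t, (F (s, t)).1 =
        (P s).1 + Complex.exp (2 * Real.pi * Complex.I * ((t : ℝ) : ℂ) * κ) • (P s).2 := by
  obtain ⟨γ, hγ⟩ := joined h₁ h₂
  have hn : ∀ t : ℝ, ‖Complex.exp (2 * Real.pi * Complex.I * (t : ℂ) * κ)‖ = 1 := by
    intro t
    rw [Complex.norm_exp]
    simp
  refine ⟨⟨fun st => ⟨(γ (Set.projIcc 0 1 zero_le_one st.1)).1 +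
      Complex.exp (2 * Real.pi * Complex.I * ((st.2 : ℝ) : ℂ) * κ) •
        (γ (Set.projIcc 0 1 zero_le_one st.1)).2,
      reg_of (hγ _) _ (Complex.exp_ne_zero _) (hn st.2).le⟩, ?_⟩,
    fun s => γ (Set.projIcc 0 1 zero_le_one s), ?_, ?_, fun s => hγ _, fun s t => rfl⟩
  · refine Continuous.subtype_mk ?_ _
    have hp : Continuous (fun st : ℝ × ℝ => γ (Set.projIcc 0 1 zero_le_one st.1)) :=
      γ.continuous.comp (continuous_projIcc.comp continuous_fst)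
    have he : Continuous (fun st : ℝ × ℝ =>
        Complex.exp (2 * Real.pi * Complex.I * ((st.2 : ℝ) : ℂ) * κ)) :=
      Complex.continuous_exp.comp
        ((continuous_const.mul (Complex.continuous_ofReal.comp continuous_snd)).mul
          continuous_const)
    exact hp.fst.add (he.smul hp.snd)
  · show γ (Set.projIcc 0 1 zero_le_one (0 : ℝ)) = q₁
    rw [Set.projIcc_left]
    exact γ.source
  · show γ (Set.projIcc 0 1 zero_le_one (1 : ℝ)) = q₂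
    rw [Set.projIcc_right]
    exact γ.target

end T4X

open T4X

variable {r : ℕ} {N : SG r} [Fintype N] {v₀ : VReg N}

/-- Twists of one hyperplane are conjugate. -/
theorem tw_conj (H : Arr N) {p₁ p₂ : Fin r → ℂ} {x₁ x₂ : VReg N} (h₁ : IsTw p₁ x₁)
    (h₂ : IsTw p₂ x₂) (hp₁ : p₁ ∈ H.1) (hp₁' : ∀ H' : Arr N, p₁ ∈ H'.1 → H' = H)
    (hp₂ : p₂ ∈ H.1) (hp₂' : ∀ H' : Arr N, p₂ ∈ H'.1 → H' = H) (q₁ : Path v₀ x₁)
    (q₂ : Path v₀ x₂) : ∃ c : Braid N v₀, tw h₁ q₁ = c * tw h₂ q₂ * c⁻¹ := by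
  obtain ⟨F, P, hP0, hP1, hP, hF⟩ := exists_sq
    (mem_of_isTw (U := ⊤) h₁ hp₁ hp₁' Submodule.mem_top)
    (mem_of_isTw (U := ⊤) h₂ hp₂ hp₂' Submodule.mem_top) 1
  rw [tw_eq_chg, tw_eq_chg]
  refine chg_square F 1 ?_ _ _ _ _ ?_ ?_ _ _
  · intro s
    rw [one_smul]
    apply Subtype.ext
    rw [hF, hF, Complex.ofReal_one, mul_one, mul_one, Complex.exp_two_pi_mul_I,
      Complex.ofReal_zero, mul_zero, zero_mul, Complex.exp_zero]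
  · intro t
    apply Subtype.ext
    rw [hF, hP0, Complex.ofReal_one, mul_one]
    rfl
  · intro t
    apply Subtype.ext
    rw [hF, hP1, Complex.ofReal_one, mul_one]
    rfl

end

end Pool.Agent.CMFn
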