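import Pool.Agent.CMFn.T4C
import Pool.Agent.CMFn.Conn
import Pool.Agent.CMFn.BRefl

/-! Project CMF, every rank, block T, module T4D: braid reflections around conjugate hyperplanes
are conjugate; the power `e_H` of a braid reflection is a twist. -/

namespace Pool.Agent.CMFn

open unitInterval Matrix

noncomputable section

namespace T4X

variable {r : ℕ} {N : SG r} [Fintype N] {v₀ : VReg N} {H : Arr N}

/-- An eigenspace. -/
def eig (s : Matrix (Fin r) (Fin r) ℂ) (ζ : ℂ) : Submodule ℂ (Fin r → ℂ) where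
  carrier := {u | s *ᵥ u = ζ • u}
  zero_mem' := by
    show s *ᵥ 0 = ζ • (0 : Fin r → ℂ)
    rw [Matrix.mulVec_zero, smul_zero]
  add_mem' := by
    intro u v hu hv
    show s *ᵥ (u + v) = ζ • (u + v)
    rw [Matrix.mulVec_add, smul_add]
    exact congrArg₂ (· + ·) hu hv
  smul_mem' := by
    intro z u hu
    show s *ᵥ (z • u) = ζ • (z • u)
    rw [Matrix.mulVec_smul, smul_comm]
    exact congrArg (fun w => z • w) hu

omit [Fintype N] in
lemma uniq_of {h : Fin r → ℂ} (hu : ∀ g ∈ N, IsRefl g → g.1 *ᵥ h = h → fixL g = H.1) :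
    ∀ H' : Arr N, h ∈ H'.1 → H' = H := by
  rintro ⟨H', s, hs, hr, rfl⟩ hh
  apply Subtype.ext
  exact hu s hs hr (DunAX.mem_fixL.1 hh)

omit [Fintype N] in
lemma isTw_of {h ν : Fin r → ℂ} {x : VReg N} (hx : x.1 = h + ν)
    (hd : ∀ z : ℂ, 0 < ‖z‖ → ‖z‖ ≤ 1 → ∀ g ∈ N, IsRefl g → g.1 *ᵥ (h + z • ν) ≠ h + z • ν) :
    IsTw h x := by
  intro z h0 h1 g hg hr
  rw [hx, add_sub_cancel_left]
  exact hd z h0 h1 g hg hr

omit [Fintype N] in
lemma smul_val (s : N) (v : VReg N) : (s • v).1 = s.1.1 *ᵥ v.1 := rfl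

/-- Braid reflections around one hyperplane are conjugate. -/
theorem brefl_same {b b' : Braid N v₀} (hb : IsBraidRefl H b) (hb' : IsBraidRefl H b') :
    ∃ c : Braid N v₀, b = c * b' * c⁻¹ := by
  obtain ⟨s, hs, hd, h, ν, hh, hu, hsν, x, hx, hdisc, p, a, ha, rfl⟩ := hb
  obtain ⟨s', hs', hd', h', ν', hh', hu', hsν', x', hx', hdisc', p', a', ha', rfl⟩ := hb'
  have hss : s' = s := refl_ext H s' s hs' hs (by rw [hd, hd'])
  subst hss
  have hT := isTw_of hx hdisc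
  have hT' := isTw_of hx' hdisc'
  have hm := mem_of_isTw (H := H) (U := eig s'.1.1 (Complex.exp (2 * Real.pi * Complex.I / eH N H.1)))
    hT hh (uniq_of hu) (by
      rw [hx, add_sub_cancel_left]
      exact hsν)
  have hm' := mem_of_isTw (H := H) (U := eig s'.1.1 (Complex.exp (2 * Real.pi * Complex.I / eH N H.1)))
    hT' hh' (uniq_of hu') (by
      rw [hx', add_sub_cancel_left]
      exact hsν')
  obtain ⟨F, P, hP0, hP1, hP, hF⟩ := exists_sq hm hm' ((eH N H.1 : ℝ)⁻¹)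
  have hF1 : ∀ w : ℝ, F (w, 1) = s' • F (w, 0) := by
    intro w
    apply Subtype.ext
    have h1 : (P w).1 ∈ H.1 := ((lf_spec H).2 _).2 (hP w).2.1
    have h2 : s'.1.1 *ᵥ (P w).2 = Complex.exp (2 * Real.pi * Complex.I / eH N H.1) • (P w).2 :=
      (hP w).1
    rw [smul_val, hF, hF, Complex.ofReal_zero, mul_zero, zero_mul, Complex.exp_zero, one_smul,
      Matrix.mulVec_add, hs' _ h1, h2, Complex.ofReal_one, mul_one, Complex.ofReal_inv,
      Complex.ofReal_natCast, ← div_eq_mul_inv]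
  have key := chg_square F s' hF1 (rfl : s' • x = s' • x) (rfl : s' • x' = s' • x') a a' ?_ ?_
    (Path.Homotopic.Quotient.mk p) (Path.Homotopic.Quotient.mk p')
  · exact key
  · intro t
    apply Subtype.ext
    rw [ha, hF, hP0, Complex.ofReal_inv, Complex.ofReal_natCast, ← div_eq_mul_inv]
    show _ = h + _ • (x.1 - h)
    rw [hx, add_sub_cancel_left]
  · intro t
    apply Subtype.ext
    rw [ha', hF, hP1, Complex.ofReal_inv, Complex.ofReal_natCast, ← div_eq_mul_inv]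
    show _ = h' + _ • (x'.1 - h')
    rw [hx', add_sub_cancel_left]

/-- The circle through a point near a hyperplane. -/
def circ {h ν : Fin r → ℂ} (e : ℕ)
    (hd : ∀ z : ℂ, 0 < ‖z‖ → ‖z‖ ≤ 1 → ∀ g ∈ N, IsRefl g → g.1 *ᵥ (h + z • ν) ≠ h + z • ν) :
    C(ℝ, VReg N) where
  toFun θ := ⟨h + Complex.exp (2 * Real.pi * Complex.I * θ / e) • ν, by
    have h1 : ‖Complex.exp (2 * Real.pi * Complex.I * (θ : ℂ) / e)‖ = 1 := by
      have h2 : 2 * Real.pi * Complex.I * (θ : ℂ) / e = ((2 * Real.pi * θ / e : ℝ) : ℂ) *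
          Complex.I := by
        push_cast
        ring
      rw [h2, Complex.norm_exp_ofReal_mul_I]
    exact hd _ (by rw [h1]; exact one_pos) h1.le⟩
  continuous_toFun := by
    refine Continuous.subtype_mk ?_ _
    have h1 : Continuous (fun θ : ℝ => Complex.exp (2 * Real.pi * Complex.I * (θ : ℂ) / e)) :=
      Complex.continuous_exp.comp
        ((continuous_const.mul Complex.continuous_ofReal).div_const _)
    have h2 : Continuous (fun θ : ℝ =>
        Complex.exp (2 * Real.pi * Complex.I * (θ : ℂ) / e) • ν) := h1.smul continuous_const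
    exact continuous_const.add h2

/-- The distinguished reflection has order `e_H`. -/
lemma pow_eH (s : N) (hs : ∀ v ∈ H.1, s.1.1 *ᵥ v = v)
    (hd : s.1.1.det = Complex.exp (2 * Real.pi * Complex.I / eH N H.1)) :
    s ^ eH N H.1 = 1 := by
  have hpos := eH_pos N H
  have h4 : (s ^ eH N H.1).1.1 = s.1.1 ^ eH N H.1 := by simp
  refine refl_ext H (s ^ eH N H.1) 1 ?_ ?_ ?_
  · have h := (ConnX.st H).pow_mem (x := s) hs (eH N H.1)
    exact h
  · intro v _
    exact Matrix.one_mulVec v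
  · rw [h4, Matrix.det_pow, hd, (Complex.isPrimitiveRoot_exp (eH N H.1) hpos.ne').pow_eq_one]
    show 1 = (1 : Matrix (Fin r) (Fin r) ℂ).det
    rw [Matrix.det_one]

end T4X

open T4X

variable {r : ℕ} {N : SG r} [Fintype N] {v₀ : VReg N}

/-- The power `e_H` of a braid reflection is a twist around `H`. -/
theorem brefl_pow (H : Arr N) {b : Braid N v₀} (hb : IsBraidRefl H b) :
    ∃ (h : Fin r → ℂ) (x : VReg N) (p : Path v₀ x) (hT : IsTw h x), h ∈ H.1 ∧
      (∀ H' : Arr N, h ∈ H'.1 → H' = H) ∧ b ^ eH N H.1 = tw hT p := by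
  obtain ⟨s, hs, hd, h, ν, hh, hu, hsν, x, hx, hdisc, p, a, ha, rfl⟩ := hb
  have hT := isTw_of hx hdisc
  refine ⟨h, x, p, hT, hh, uniq_of hu, ?_⟩
  have hpos := eH_pos N H
  have he0 : (eH N H.1 : ℂ) ≠ 0 := by
    exact_mod_cast hpos.ne'
  let E : C(ℝ, VReg N) := circ (eH N H.1) hdisc
  have hEv : ∀ θ : ℝ, (E θ).1 = h + Complex.exp (2 * Real.pi * Complex.I * θ / eH N H.1) • ν :=
    fun θ => rfl
  have hE0 : x = E 0 := by
    apply Subtype.ext
    rw [hEv, hx, Complex.ofReal_zero, mul_zero, zero_div, Complex.exp_zero, one_smul]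
  have hEs : ∀ θ : ℝ, E (θ + 1) = s • E θ := by
    intro θ
    apply Subtype.ext
    rw [smul_val, hEv, hEv, Matrix.mulVec_add, hs _ hh, Matrix.mulVec_smul, hsν, smul_smul,
      ← Complex.exp_add]
    congr 3
    push_cast
    ring
  clear_value E
  subst hE0
  have h1 : E 1 = s • E 0 := by
    have h2 := hEs 0
    rw [zero_add] at h2
    exact h2
  have kb : (Quotient.mk _ (BPath.ofPath s ((p.trans a).trans
      ((p.symm).map (continuous_const_smul s)))) : Braid N v₀) =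
      chg (Path.Homotopic.Quotient.mk p) s h1 (arc E 0 1) := by
    refine (chg_mk p s a).symm.trans ?_
    refine chg_congr _ rfl _ _ _ _ ?_
    unfold arc
    rw [← Path.Homotopic.Quotient.mk_cast]
    congr 1
    apply Path.ext
    funext t
    apply Subtype.ext
    show (E (line 0 1 t)).1 = (a t).1
    rw [ha, hEv, line_apply]
    congr 4
    push_cast
    ring
  obtain ⟨n, hn⟩ : ∃ n, eH N H.1 = n + 1 := ⟨eH N H.1 - 1, (Nat.sub_add_cancel hpos).symm⟩
  have hsn : s ^ (n + 1) = 1 := by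
    rw [← hn]
    exact pow_eH s hs hd
  have hEn : E ((n + 1 : ℕ) : ℝ) = s ^ (n + 1) • E 0 := by
    apply Subtype.ext
    rw [hsn, one_smul, hEv, hEv, hn]
    congr 2
    have hne : ((n + 1 : ℕ) : ℂ) ≠ 0 := by
      rw [← hn]
      exact he0
    rw [Complex.ofReal_natCast, mul_div_assoc, div_self hne, mul_one, Complex.exp_two_pi_mul_I,
      Complex.ofReal_zero, mul_zero, zero_div, Complex.exp_zero]
  rw [hn, kb, pow_arc E s hEs _ h1 n hEn, tw_eq_chg]
  refine chg_congr _ hsn _ _ _ _ ?_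
  unfold arc
  rw [← Path.Homotopic.Quotient.mk_cast]
  congr 1
  apply Path.ext
  funext t
  apply Subtype.ext
  show h + Complex.exp (2 * Real.pi * Complex.I * (t : ℝ)) • ((E 0).1 - h) =
    (E (line 0 _ t)).1
  rw [hx, add_sub_cancel_left, hEv, line_apply, hn]
  congr 3
  have hne : ((n + 1 : ℕ) : ℂ) ≠ 0 := by
    rw [← hn]
    exact he0
  rw [Complex.ofReal_add, Complex.ofReal_mul, Complex.ofReal_sub, Complex.ofReal_natCast,
    Complex.ofReal_zero]
  field_simp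
  ring

/-- A conjugate of a braid reflection. -/
theorem brefl_act (H : Arr N) {b : Braid N v₀} (hb : IsBraidRefl H b) (g : N) :
    ∃ c : Braid N v₀, IsBraidRefl (DunBX.actH g H) (c * b * c⁻¹) := by
  obtain ⟨s, hs, hd, h, ν, hh, hu, hsν, x, hx, hdisc, p, a, ha, rfl⟩ := hb
  obtain ⟨γ⟩ := ConnX.path_vreg v₀ (g • v₀)
  have heH : eH N (DunBX.actH g H).1 = eH N H.1 := DunBX.eH_act g H.1
  have hgi : ∀ v : Fin r → ℂ, (g⁻¹).1.1 *ᵥ (g.1.1 *ᵥ v) = v := fun v => DunBX.inv_mulVec g.1 v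
  have hconj : ∀ v : Fin r → ℂ, (g * s * g⁻¹).1.1 *ᵥ (g.1.1 *ᵥ v) = g.1.1 *ᵥ (s.1.1 *ᵥ v) := by
    intro v
    show (g.1.1 * s.1.1 * (g⁻¹).1.1) *ᵥ (g.1.1 *ᵥ v) = _
    rw [← Matrix.mulVec_mulVec, hgi, Matrix.mulVec_mulVec]
  have hz : g • s • x = (g * s * g⁻¹) • (g • x) := by
    apply Subtype.ext
    rw [smul_val, smul_val, smul_val, smul_val, hconj]
  -- reflections conjugated back
  have hback : ∀ g' ∈ N, IsRefl g' → (g.1⁻¹ * g' * g.1⁻¹⁻¹ ∈ N ∧ IsRefl (g.1⁻¹ * g' * g.1⁻¹⁻¹) ∧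
      ∀ v : Fin r → ℂ, g'.1 *ᵥ (g.1.1 *ᵥ v) = g.1.1 *ᵥ v →
        (g.1⁻¹ * g' * g.1⁻¹⁻¹).1 *ᵥ v = v) := by
    intro g' hg' hr'
    refine ⟨N.mul_mem (N.mul_mem (N.inv_mem g.2) hg') (N.inv_mem (N.inv_mem g.2)),
      DunBX.isRefl_conj hr', ?_⟩
    intro v hv
    rw [inv_inv, Units.val_mul, Units.val_mul, ← Matrix.mulVec_mulVec, ← Matrix.mulVec_mulVec, hv]
    exact DunBX.inv_mulVec g.1 v
  refine ⟨bq g rfl (Path.Homotopic.Quotient.mk γ), ?_⟩
  rw [← chg_mk p s a, conj_chg g s _ _ _ hz]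
  refine ⟨g * s * g⁻¹, ?_, ?_, g.1.1 *ᵥ h, g.1.1 *ᵥ ν, ?_, ?_, ?_, g • x, ?_, ?_,
    γ.trans (p.map (continuous_const_smul g)),
    (a.map (continuous_const_smul g)).cast rfl hz.symm, ?_, ?_⟩
  · intro v hv
    have h1 : (g⁻¹).1.1 *ᵥ v ∈ H.1 := DunBX.mem_mapL.1 hv
    have h2 : v = g.1.1 *ᵥ ((g⁻¹).1.1 *ᵥ v) := (DunBX.mulVec_inv g.1 v).symm
    rw [h2, hconj, hs _ h1]
  · rw [heH, ← hd]
    exact DunBX.det_conj g.1 s.1
  · exact DunBX.mem_mapL.2 (by rw [DunBX.inv_mulVec]; exact hh)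
  · intro g' hg' hr' hf
    obtain ⟨h1, h2, h3⟩ := hback g' hg' hr'
    have h4 := hu _ h1 h2 (h3 h hf)
    show fixL g' = mapL g.1 H.1
    rw [← h4, ← DunBX.fixL_conj]
    congr 1
    group
  · rw [heH, hconj, hsν, Matrix.mulVec_smul]
  · rw [smul_val, hx, Matrix.mulVec_add]
  · intro z h0 h1 g' hg' hr' hf
    obtain ⟨k1, k2, k3⟩ := hback g' hg' hr'
    apply hdisc z h0 h1 _ k1 k2
    apply k3
    rw [Matrix.mulVec_add, Matrix.mulVec_smul]
    exact hf
  · intro t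
    show (g • a t).1 = _
    rw [smul_val, ha, heH, Matrix.mulVec_add, Matrix.mulVec_smul]
  · refine Eq.trans ?_ (chg_mk _ _ _)
    refine chg_congr _ rfl _ _ _ _ ?_
    rfl

/-- Braid reflections around conjugate hyperplanes are conjugate. -/
theorem brefl_conj (H : Arr N) (g : N) {b b' : Braid N v₀} (hb : IsBraidRefl H b)
    (hb' : IsBraidRefl (DunBX.actH g H) b') : ∃ c : Braid N v₀, b' = c * b * c⁻¹ := by
  obtain ⟨c, hc⟩ := brefl_act H hb g
  obtain ⟨d, hd⟩ := brefl_same hb' hc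
  refine ⟨d * c, ?_⟩
  rw [hd]
  group

/-- Homomorphisms to commutative groups do not separate braid reflections around conjugate
hyperplanes. -/
theorem brefl_comm {Γ : Type*} [CommGroup Γ] (φ : Braid N v₀ →* Γ) (H : Arr N) (g : N)
    {b b' : Braid N v₀} (hb : IsBraidRefl H b) (hb' : IsBraidRefl (DunBX.actH g H) b') :
    φ b' = φ b := by
  obtain ⟨c, rfl⟩ := brefl_conj H g hb hb'
  rw [map_mul, map_mul, map_inv, mul_inv_cancel_comm]

/-- A twist around `H` is conjugate to the power `e_H` of a braid reflection. -/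
theorem tw_brefl (H : Arr N) {b : Braid N v₀} (hb : IsBraidRefl H b) {h : Fin r → ℂ} {x : VReg N}
    (hT : IsTw h x) (hh : h ∈ H.1) (hh' : ∀ H' : Arr N, h ∈ H'.1 → H' = H) (q : Path v₀ x) :
    ∃ c : Braid N v₀, tw hT q = c * b ^ eH N H.1 * c⁻¹ := by
  obtain ⟨h₁, x₁, p₁, hT₁, hh₁, hu₁, e⟩ := brefl_pow H hb
  rw [e]
  exact tw_conj H hT hT₁ hh hh' hh₁ hu₁ q p₁

/-- The value of a homomorphism to a commutative group at a twist around `H`. -/
theorem phi_tw {Γ : Type*} [CommGroup Γ] (φ : Braid N v₀ →* Γ) (H : Arr N) {b : Braid N v₀}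
    (hb : IsBraidRefl H b) {h : Fin r → ℂ} {x : VReg N} (hT : IsTw h x) (hh : h ∈ H.1)
    (hh' : ∀ H' : Arr N, h ∈ H'.1 → H' = H) (q : Path v₀ x) :
    φ (tw hT q) = φ b ^ eH N H.1 := by
  obtain ⟨c, hc⟩ := tw_brefl H hb hT hh hh' q
  rw [hc, map_mul, map_mul, map_inv, mul_inv_cancel_comm, map_pow]

end

end Pool.Agent.CMFn
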