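import Pool.Agent.CMFn.TopE
import Pool.Agent.CMFn.T4D

/-! Project CMFn, block T, module T5: the full twist in commutative quotients of the braid group. -/

namespace Pool.Agent.CMFn

open Matrix

noncomputable section

variable {r : ℕ} {N : SG r} [Fintype N] {v₀ : VReg N}

/-- The full twist is the product of the `e_H`-th powers of braid reflections. -/
theorem phi_piB_prod {Γ : Type} [CommGroup Γ] (φ : Braid N v₀ →* Γ) (b : Arr N → Braid N v₀)
    (hb : ∀ H, IsBraidRefl H (b H)) : φ (piB v₀) = ∏ H : Arr N, φ (b H) ^ eH N H.1 := by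
  obtain ⟨p, x, h, h1, h2, h3⟩ := phi_piB_tw φ
  rw [h3 fun H => (ConnX.path_vreg v₀ (x H)).some]
  exact Finset.prod_congr rfl fun H _ => phi_tw φ H (hb H) (h H) (h1 H) (h2 H) _

/-- One orbit of hyperplanes. -/
theorem phi_piB_one {Γ : Type} [CommGroup Γ] (φ : Braid N v₀ →* Γ) (H₀ : Arr N)
    {b : Braid N v₀} (hb : IsBraidRefl H₀ b) (horb : ∀ H : Arr N, ∃ g : N, DunBX.actH g H₀ = H)
    (e : ℕ) (he : ∀ H : Arr N, eH N H.1 = e) :
    φ (piB v₀) = φ b ^ (e * Fintype.card (Arr N)) := by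
  have h1 : ∀ H : Arr N, ∃ c : Braid N v₀, IsBraidRefl H (c * b * c⁻¹) := by
    intro H
    obtain ⟨g, hg⟩ := horb H
    obtain ⟨c, hc⟩ := brefl_act H₀ hb g
    rw [hg] at hc
    exact ⟨c, hc⟩
  choose c hc using h1
  rw [phi_piB_prod φ (fun H => c H * b * (c H)⁻¹) hc]
  have h2 : ∀ H : Arr N, φ (c H * b * (c H)⁻¹) ^ eH N H.1 = φ b ^ e := by
    intro H
    rw [map_mul, map_mul, map_inv, mul_comm (φ (c H)), mul_assoc, mul_inv_cancel, mul_one, he]
  rw [Finset.prod_congr rfl fun H _ => h2 H, Finset.prod_const, Finset.card_univ, ← pow_mul]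

/-- Several orbits of hyperplanes: `o H` is the representative of the orbit of `H`. -/
theorem phi_piB_orb {Γ : Type} [CommGroup Γ] (φ : Braid N v₀ →* Γ) (o : Arr N → Arr N)
    (horb : ∀ H : Arr N, ∃ g : N, DunBX.actH g (o H) = H) (b : Arr N → Braid N v₀)
    (hb : ∀ H, IsBraidRefl (o H) (b (o H))) :
    φ (piB v₀) = ∏ H : Arr N, φ (b (o H)) ^ eH N H.1 := by
  have h1 : ∀ H : Arr N, ∃ c : Braid N v₀, IsBraidRefl H (c * b (o H) * c⁻¹) := by
    intro H
    obtain ⟨g, hg⟩ := horb H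
    obtain ⟨c, hc⟩ := brefl_act (o H) (hb H) g
    rw [hg] at hc
    exact ⟨c, hc⟩
  choose c hc using h1
  rw [phi_piB_prod φ (fun H => c H * b (o H) * (c H)⁻¹) hc]
  refine Finset.prod_congr rfl fun H _ => ?_
  rw [map_mul, map_mul, map_inv, mul_comm (φ (c H)), mul_assoc, mul_inv_cancel, mul_one]

end

end Pool.Agent.CMFn
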