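import Pool.Agent.CMFn.G3
import Pool.Agent.CMFn.T4D
import Pool.Agent.CMFn.LocMonB

/-! Project CMFn, block T, module T6A: from the pairs of the presentation to homomorphisms of the
braid group. -/

namespace Pool.Agent.CMFn

open Matrix unitInterval

noncomputable section

namespace T6X

open G1 G3

variable {r : ℕ} {G : Type} [Group G] {V : G → Matrix (Fin r) (Fin r) ℂ}

variable (hV : CMFP.IsRep V) {v₀ : Fin r → ℂ} (v : VReg (img hV)) (hv : v.1 = v₀)

include hv in
/-- Every `BPath` comes from a pair, pointwise. -/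
theorem exists_bp (b : BPath (img hV) v) : ∃ c : CMFP.BP V v₀, el hV c.g = b.g ∧
    ∀ (t : ℝ) (ht : t ∈ Set.Icc (0 : ℝ) 1), c.f t = (b.f ⟨t, ht⟩).1 := by
  obtain ⟨s, hs⟩ := el_surj hV b.g
  refine ⟨{ g := s
            f := fun t => (b.f (Set.projIcc 0 1 zero_le_one t)).1
            cont := ?_
            reg := ?_
            start := ?_
            stop := ?_ }, hs, ?_⟩
  · refine Continuous.continuousOn ?_
    exact continuous_subtype_val.comp (b.f.continuous.comp continuous_projIcc)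
  · intro t _
    exact (G3.reg_iff hV _).2 (b.f _).2
  · rw [Set.projIcc_left]
    show (b.f 0).1 = v₀
    rw [b.h0, hv]
  · rw [Set.projIcc_right]
    show (b.f 1).1 = V s *ᵥ v₀
    rw [b.h1, smul_val, ← hs, el_val, hv]
  · intro t ht
    show (b.f (Set.projIcc 0 1 zero_le_one t)).1 = (b.f ⟨t, ht⟩).1
    rw [Set.projIcc_of_mem zero_le_one ht]

/-- Pairs with the same braid are homotopic. -/
theorem homot_of_eq (hi : Function.Injective V) (a b : CMFP.BP V v₀)
    (h : br hV v hv a = br hV v hv b) : CMFP.Homot a b := by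
  obtain ⟨hg, ⟨F⟩⟩ := (Quotient.exact h : BPath.Rel (bp hV v hv a) (bp hV v hv b))
  have hg' : a.g = b.g := by
    apply hi
    have := congrArg (fun z : img hV => z.1.1) hg
    exact this
  refine ⟨hg', fun p => (F (Set.projIcc 0 1 zero_le_one p.1, Set.projIcc 0 1 zero_le_one p.2)).1,
    ?_, ?_, ?_⟩
  · refine Continuous.continuousOn ?_
    refine continuous_subtype_val.comp (F.continuous.comp ?_)
    exact (continuous_projIcc.comp continuous_fst).prodMk (continuous_projIcc.comp continuous_snd)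
  · intro p _
    exact (G3.reg_iff hV _).2 (F _).2
  · intro t ht
    refine ⟨?_, ?_, ?_, ?_⟩
    · show (F (Set.projIcc 0 1 zero_le_one 0, Set.projIcc 0 1 zero_le_one t)).1 = a.f t
      rw [Set.projIcc_left, Set.projIcc_of_mem zero_le_one ht]
      have h1 : F ((0 : I), (⟨t, ht⟩ : I)) = (bf hV a) ⟨t, ht⟩ := F.apply_zero _
      have h2 : (⟨0, Set.left_mem_Icc.mpr zero_le_one⟩ : I) = 0 := rfl
      rw [h2, h1]
      rfl
    · show (F (Set.projIcc 0 1 zero_le_one 1, Set.projIcc 0 1 zero_le_one t)).1 = b.f t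
      rw [Set.projIcc_right, Set.projIcc_of_mem zero_le_one ht]
      have h1 : F ((1 : I), (⟨t, ht⟩ : I)) = (bf hV b) ⟨t, ht⟩ := F.apply_one _
      have h2 : (⟨1, Set.right_mem_Icc.mpr zero_le_one⟩ : I) = 1 := rfl
      rw [h2, h1]
      rfl
    · show (F (Set.projIcc 0 1 zero_le_one t, Set.projIcc 0 1 zero_le_one 0)).1 = v₀
      rw [Set.projIcc_left, Set.projIcc_of_mem zero_le_one ht]
      have h1 : F ((⟨t, ht⟩ : I), (0 : I)) = (bf hV a) 0 := F.eq_fst _ (by simp)
      have h2 : (⟨0, Set.left_mem_Icc.mpr zero_le_one⟩ : I) = 0 := rfl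
      rw [h2, h1, bf_val, Set.Icc.coe_zero, a.start]
    · show (F (Set.projIcc 0 1 zero_le_one t, Set.projIcc 0 1 zero_le_one 1)).1 = V a.g *ᵥ v₀
      rw [Set.projIcc_right, Set.projIcc_of_mem zero_le_one ht]
      have h1 : F ((⟨t, ht⟩ : I), (1 : I)) = (bf hV a) 1 := F.eq_fst _ (by simp)
      have h2 : (⟨1, Set.right_mem_Icc.mpr zero_le_one⟩ : I) = 1 := rfl
      rw [h2, h1, bf_val, Set.Icc.coe_one, a.stop]

/-- A function on the pairs with the relations of the braid group is a homomorphism from the braid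
group. -/
theorem exists_lift (hi : Function.Injective V) {M : Type*} [Monoid M] (f : CMFP.BP V v₀ → M)
    (h1 : ∀ a b, CMFP.Homot a b → f a = f b)
    (h2 : ∀ a : CMFP.BP V v₀, a.g = 1 → (∀ t ∈ Set.Icc (0 : ℝ) 1, a.f t = v₀) → f a = 1)
    (h3 : ∀ a b c : CMFP.BP V v₀, c.g = a.g * b.g →
      (∀ t ∈ Set.Icc (0 : ℝ) (1 / 2), c.f t = a.f (2 * t)) →
      (∀ t ∈ Set.Icc (1 / 2 : ℝ) 1, c.f t = V a.g *ᵥ b.f (2 * t - 1)) → f c = f a * f b) :
    ∃ ψ : Braid (img hV) v →* M, ∀ b, ψ (br hV v hv b) = f b := by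
  choose s hs using br_surj hV v hv
  have key : ∀ b : CMFP.BP V v₀, f (s (br hV v hv b)) = f b := fun b =>
    h1 _ _ (homot_of_eq hV v hv hi _ _ (hs _))
  refine ⟨{ toFun := fun B => f (s B), map_one' := ?_, map_mul' := ?_ }, key⟩
  · obtain ⟨c, hc1, hc2⟩ := exists_bp hV v hv (BPath.one (img hV) v)
    have e1 : br hV v hv c = 1 := by
      refine br_eq_of hV v hv c _ hc1 fun t => ?_
      exact hc2 t.1 t.2
    have e2 : f (s 1) = f c := by rw [← e1, key]
    rw [e2]
    refine h2 c ?_ ?_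
    · apply hi
      have := congrArg (fun z : img hV => z.1.1) hc1
      rw [show V c.g = (el hV c.g).1.1 from rfl, hc1, hV.1]
      rfl
    · intro t ht
      rw [hc2 t ht, ← hv]
      rfl
  · intro A B
    obtain ⟨c, hc1, hc2⟩ := exists_bp hV v hv ((bp hV v hv (s A)).mul (bp hV v hv (s B)))
    have e1 : br hV v hv c = A * B := by
      have : br hV v hv c = Quotient.mk _ ((bp hV v hv (s A)).mul (bp hV v hv (s B))) :=
        br_eq_of hV v hv c _ hc1 fun t => hc2 t.1 t.2
      rw [this]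
      show br hV v hv (s A) * br hV v hv (s B) = A * B
      rw [hs, hs]
    rw [← e1, key]
    refine h3 (s A) (s B) c ?_ ?_ ?_
    · apply hi
      have h4 : V c.g = V ((s A).g * (s B).g) := by
        rw [show V c.g = (el hV c.g).1.1 from rfl, hc1, ← el_val hV ((s A).g * (s B).g), el_mul]
        rfl
      exact h4
    · intro t ht
      have ht' : t ∈ Set.Icc (0 : ℝ) 1 := ⟨ht.1, by linarith [ht.2]⟩
      rw [hc2 t ht', BraidX.mul_f, Path.trans_apply]
      split_ifs with h
      · rfl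
      · exact absurd ht.2 h
    · intro t ht
      have ht' : t ∈ Set.Icc (0 : ℝ) 1 := ⟨by linarith [ht.1], ht.2⟩
      rw [hc2 t ht', BraidX.mul_f, Path.trans_apply]
      split_ifs with h
      · have h5 : t = 1 / 2 := le_antisymm h ht.1
        show (s A).f (2 * t) = V (s A).g *ᵥ (s B).f (2 * t - 1)
        rw [h5, show (2 * (1 / 2) - 1 : ℝ) = 0 by norm_num, show (2 * (1 / 2) : ℝ) = 1 by norm_num,
          (s A).stop, (s B).start]
      · rfl

lemma two_le_eH {N : SG r} [Finite N] (H : Arr N) : 2 ≤ eH N H.1 := by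
  have hfin : Finite (ptStab N H.1) := by
    refine Finite.of_injective (fun g : ptStab N H.1 => (⟨g.1, g.2.1⟩ : N)) ?_
    intro a b h
    exact Subtype.ext (congrArg (fun z : N => z.1) h)
  obtain ⟨K, s, hsN, hs, hK⟩ := H
  have h1 : s ∈ ptStab N K := ⟨hsN, fun w hw => by
    have hw' : w ∈ fixL s := by rw [← hK]; exact hw
    exact (mem_fix s w).1 hw'⟩
  have h2 : (1 : GL (Fin r) ℂ) ∈ ptStab N K := ⟨N.one_mem, fun w _ => by simp⟩
  have h3 : (⟨s, h1⟩ : ptStab N K) ≠ ⟨1, h2⟩ := by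
    intro h
    have h4 : s = 1 := congrArg Subtype.val h
    unfold IsRefl at hs
    rw [h4] at hs
    simp at hs
  have h5 : Nontrivial (ptStab N K) := ⟨⟨_, _, h3⟩⟩
  have h6 : 1 < Nat.card (ptStab N K) := Finite.one_lt_card_iff_nontrivial.2 h5
  exact h6

/-- A braid reflection comes from a braid reflection of the presentation. -/
theorem exists_brefl [Fintype G] (hR : CMFP.IsReflGroup V) [Fintype (img hR.1)]
    (v : VReg (img hR.1)) (hv : v.1 = v₀)
    (s₀ : {s : G // CMFP.IsRefl V s}) {B : Braid (img hR.1) v}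
    (hB : IsBraidRefl (lineOf hR.1 s₀) B) :
    ∃ (c : CMFP.BP V v₀) (hc : CMFP.IsRefl V c.g), CMFP.IsBraidRefl c ∧ br hR.1 v hv c = B ∧
      CMFP.Fixes V s₀.1 c.g ∧ lineOf hR.1 ⟨c.g, hc⟩ = lineOf hR.1 s₀ := by
  obtain ⟨s, hs, hdet, h, ν, hh, hu, hsν, x, hx, hdisc, p, a, ha, rfl⟩ := hB
  set H := lineOf hR.1 s₀ with hHdef
  obtain ⟨c, hc1, hc2⟩ := exists_bp hR.1 v hv (BPath.ofPath s
    ((p.trans a).trans ((p.symm).map (continuous_const_smul s))))
  have hc1' : el hR.1 c.g = s := hc1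
  have hVc : V c.g = s.1.1 := congrArg (fun z : img hR.1 => z.1.1) hc1'
  have hs1 : s ≠ 1 := by
    intro h1
    have h2 := two_le_eH H
    rw [h1] at hdet
    have h3 : (1 : ℂ) = Complex.exp (2 * Real.pi * Complex.I / eH (img hR.1) H.1) := by
      rw [← hdet]
      exact Matrix.det_one.symm
    have h4 := Complex.isPrimitiveRoot_exp (eH (img hR.1) H.1) (by omega)
    rw [← h3] at h4
    have h5 := h4.eq_orderOf
    rw [orderOf_one] at h5
    omega
  have hfix : fixL s.1 = H.1 := LocMonX.fixL_eq H s hs hs1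
  have hrs : IsRefl s.1 := by
    unfold IsRefl
    rw [LocMonX.rank_eq_of_fixL_eq s.1 (toGL hR.1 s₀.1) hfix]
    exact s₀.2
  have hrc : CMFP.IsRefl V c.g := by
    unfold CMFP.IsRefl
    rw [hVc]
    exact hrs
  have hline : lineOf hR.1 ⟨c.g, hrc⟩ = H := by
    apply Subtype.ext
    show fixL (toGL hR.1 c.g) = H.1
    rw [← hfix]
    congr 1
    exact Units.ext hVc
  have hrot : ∀ t : ℝ, CMFP.rot V c.g t =
      Complex.exp (2 * Real.pi * Complex.I * (t : ℝ) / eH (img hR.1) H.1) := by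
    intro t
    rw [rot_eq hR.1 hR.2.1 c.g hrc t, hline]
  have hrot1 : CMFP.rot V c.g 1 = Complex.exp (2 * Real.pi * Complex.I / eH (img hR.1) H.1) := by
    rw [hrot, Complex.ofReal_one, mul_one]
  have hcf : ∀ (t : ℝ) (ht : t ∈ Set.Icc (0 : ℝ) 1), c.f t =
      (((p.trans a).trans ((p.symm).map (continuous_const_smul s))) ⟨t, ht⟩).1 := hc2
  refine ⟨c, hrc, ⟨?_, h, ν, ?_, ?_, ?_, ?_, ?_⟩, ?_, ?_, hline⟩
  · rw [hVc, hdet, hrot1]
  · rw [hVc]
    exact hs h hh
  · rw [hVc, hrot1]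
    exact hsν
  · intro z hz g hg hfix'
    have hgr : IsRefl (toGL hR.1 g) := (isRefl_iff hR.1 g).2 hg
    have hz0 : z = 0 := by
      by_contra hne
      exact hdisc z (norm_pos_iff.2 hne) hz (toGL hR.1 g) ⟨g, rfl⟩ hgr hfix'
    refine ⟨hz0, ?_⟩
    rw [hz0, zero_smul, add_zero] at hfix'
    have h1 := hu (toGL hR.1 g) ⟨g, rfl⟩ hgr hfix'
    intro w hw
    rw [hVc] at hw
    have h2 : w ∈ fixL s.1 := (mem_fix s.1 w).2 hw
    rw [hfix, ← h1] at h2
    exact (mem_fix _ w).1 h2
  · intro t ht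
    have ht' : t ∈ Set.Icc (0 : ℝ) 1 := ⟨by linarith [ht.1], by linarith [ht.2]⟩
    rw [hcf t ht', Path.trans_apply]
    split_ifs with h1
    · rw [Path.trans_apply]
      split_ifs with h2
      · have h3 : t = 1 / 4 := le_antisymm (by
          have h4 : 2 * t ≤ 1 / 2 := h2
          linarith) ht.1
        have h5 : (⟨2 * (2 * t), (unitInterval.mul_pos_mem_iff zero_lt_two).2
            ⟨((unitInterval.mul_pos_mem_iff zero_lt_two).2 ⟨ht'.1, h1⟩).1, h2⟩⟩ : I) = 1 := by
          apply Subtype.ext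
          show 2 * (2 * t) = 1
          rw [h3]; norm_num
        have h6 : (p (⟨2 * (2 * t), (unitInterval.mul_pos_mem_iff zero_lt_two).2
            ⟨((unitInterval.mul_pos_mem_iff zero_lt_two).2 ⟨ht'.1, h1⟩).1, h2⟩⟩ : I)) = x := by
          rw [h5, p.target]
        refine (congrArg Subtype.val h6).trans ?_
        rw [hx, hrot, h3, show (4 * (1 / 4) - 1 : ℝ) = 0 by norm_num, Complex.ofReal_zero, mul_zero,
          zero_div, Complex.exp_zero, one_smul]
      · refine (ha _).trans ?_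
        rw [hrot]
        have h3 : (2 * (2 * t) - 1 : ℝ) = 4 * t - 1 := by ring
        congr 5
        show (((2 * (2 * t) - 1 : ℝ)) : ℂ) = ((4 * t - 1 : ℝ) : ℂ)
        rw [h3]
    · have h1' : ¬ t ≤ 1 / 2 := h1
      exact absurd ht.2 h1'
  · intro t ht
    have ht' : t ∈ Set.Icc (0 : ℝ) 1 := ⟨by linarith [ht.1], ht.2⟩
    have ht'' : (1 - t) / 2 ∈ Set.Icc (0 : ℝ) 1 := ⟨by linarith [ht.2], by linarith [ht.1]⟩
    have e1 : c.f ((1 - t) / 2) = (p ⟨2 * (1 - t), ⟨by linarith [ht.2], by linarith [ht.1]⟩⟩).1 := by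
      rw [hcf _ ht'', Path.trans_apply, dif_pos (by
          show (1 - t) / 2 ≤ 1 / 2
          linarith [ht.1]), Path.trans_apply, dif_pos (by
          show 2 * ((1 - t) / 2) ≤ 1 / 2
          linarith [ht.1])]
      congr 2
      apply Subtype.ext
      show 2 * (2 * ((1 - t) / 2)) = 2 * (1 - t)
      ring
    rw [e1, hVc, hcf t ht', Path.trans_apply]
    split_ifs with h1
    · have h3 : t = 1 / 2 := le_antisymm h1 ht.1
      rw [Path.trans_apply, dif_neg (by
          show ¬ 2 * t ≤ 1 / 2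
          rw [h3]; norm_num)]
      have h5 : ∀ hh, (a (⟨2 * (2 * t) - 1, hh⟩ : I)) = s • x := by
        intro hh
        have : (⟨2 * (2 * t) - 1, hh⟩ : I) = 1 := by
          apply Subtype.ext
          show 2 * (2 * t) - 1 = 1
          rw [h3]; norm_num
        rw [this, a.target]
      have h6 : ∀ hh, (p (⟨2 * (1 - t), hh⟩ : I)) = x := by
        intro hh
        have : (⟨2 * (1 - t), hh⟩ : I) = 1 := by
          apply Subtype.ext
          show 2 * (1 - t) = 1
          rw [h3]; norm_num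
        rw [this, p.target]
      refine (congrArg Subtype.val (h5 _)).trans ?_
      exact congrArg (fun z : VReg (img hR.1) => s.1.1 *ᵥ z.1) (h6 _).symm
    · show (s • p.symm _).1 = _
      show s.1.1 *ᵥ (p.symm _).1 = _
      congr 2
      show p (unitInterval.symm _) = p _
      congr 1
      apply Subtype.ext
      show 1 - (2 * t - 1) = 2 * (1 - t)
      ring
  · exact br_eq_of hR.1 v hv c _ hc1' fun t => hc2 t.1 t.2
  · intro w hw
    rw [hVc]
    exact hs w ((mem_line hR.1 s₀ w).2 hw)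

end T6X

end

end Pool.Agent.CMFn
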