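import Pool.Agent.CMFn.TopD
import Pool.Agent.CMFn.T6A

/-! Project CMFn, block T, module T6B: existence of braid reflections; determinants of matrices
with a split equation. -/

namespace Pool.Agent.CMFn

open Matrix unitInterval

noncomputable section

section Exist

variable {r : ℕ} {N : SG r} [Fintype N]

/-- There is a braid reflection around every hyperplane. -/
theorem exists_isBraidRefl (v₀ : VReg N) (H : Arr N) : ∃ b : Braid N v₀, IsBraidRefl H b := by
  obtain ⟨p, x, h, hp1, hp2, -⟩ := rot_prod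
    ({ a := fun _ => 1, trans := fun _ _ => rfl, hom := fun _ _ _ => rfl } : Coc (VReg N) Unit) v₀
  obtain ⟨s, hs, hdet⟩ := exists_dist H
  obtain ⟨ν, hν, hdν⟩ := exists_root H s hs
  have hpos := eH_pos N H
  have h2 := T6X.two_le_eH H
  have hdet1 : s.1.1.det ≠ 1 := by
    rw [hdet]
    intro h1
    have h4 := Complex.isPrimitiveRoot_exp (eH N H.1) (by omega)
    rw [h1] at h4
    have h5 := h4.eq_orderOf
    rw [orderOf_one] at h5
    omega
  have hαν : lf H.1 ⬝ᵥ ν ≠ 0 := by
    intro h0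
    rw [h0, add_zero] at hdν
    exact hdet1 hdν
  have hsν : s.1.1 *ᵥ ν = s.1.1.det • ν := by
    rw [hν, hdν, add_smul, one_smul]
  -- the scale
  have hgen : ∀ H' : Arr N, H' ≠ H → lf H'.1 ⬝ᵥ p H ≠ 0 := by
    intro H' hne h0
    exact hne (hp2 H H' (((lf_spec H').2 _).2 h0))
  obtain ⟨δ, hδ, hδ'⟩ : ∃ δ : ℝ, 0 < δ ∧ ∀ H' : Arr N, H' ≠ H →
      δ * ‖lf H'.1 ⬝ᵥ ν‖ < ‖lf H'.1 ⬝ᵥ p H‖ := by
    classical
    let F : Arr N → ℝ := fun H' => if H' = H then 1 else
      ‖lf H'.1 ⬝ᵥ p H‖ / (1 + ‖lf H'.1 ⬝ᵥ ν‖)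
    have hF : ∀ y ∈ Finset.univ.image F, 0 < y := by
      intro y hy
      obtain ⟨H', _, rfl⟩ := Finset.mem_image.1 hy
      show 0 < if H' = H then (1 : ℝ) else _
      split_ifs with hc
      · exact one_pos
      · exact div_pos (norm_pos_iff.2 (hgen H' hc)) (by positivity)
    obtain ⟨δ, h1, h2⟩ := TopDX.exists_lt _ hF
    refine ⟨δ, h1, fun H' hne => ?_⟩
    have h3 := h2 (F H') (Finset.mem_image_of_mem _ (Finset.mem_univ H'))
    have h4 : F H' = ‖lf H'.1 ⬝ᵥ p H‖ / (1 + ‖lf H'.1 ⬝ᵥ ν‖) := if_neg hne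
    rw [h4, lt_div_iff₀ (by positivity)] at h3
    nlinarith [norm_nonneg (lf H'.1 ⬝ᵥ ν)]
  have hδ0 : (δ : ℂ) ≠ 0 := Complex.ofReal_ne_zero.2 hδ.ne'
  let μ : Fin r → ℂ := (δ : ℂ) • ν
  have hreg : ∀ z : ℂ, 0 < ‖z‖ → ‖z‖ ≤ 1 → ∀ g ∈ N, IsRefl g →
      g.1 *ᵥ (p H + z • μ) ≠ p H + z • μ := by
    intro z hz hz1
    rw [vreg_iff]
    intro H'
    have e1 : lf H'.1 ⬝ᵥ (p H + z • μ) = lf H'.1 ⬝ᵥ p H + z * (δ * (lf H'.1 ⬝ᵥ ν)) := by
      rw [dotProduct_add, dotProduct_smul, dotProduct_smul, smul_eq_mul, smul_eq_mul]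
    rw [e1]
    by_cases hc : H' = H
    · subst hc
      rw [((lf_spec H').2 _).1 (hp1 H'), zero_add]
      exact mul_ne_zero (norm_pos_iff.1 hz) (mul_ne_zero hδ0 hαν)
    · intro h0
      have h1 := hδ' H' hc
      have h3 : lf H'.1 ⬝ᵥ p H = -(z * (δ * (lf H'.1 ⬝ᵥ ν))) := eq_neg_of_add_eq_zero_left h0
      rw [h3, norm_neg, norm_mul, norm_mul, Complex.norm_real, Real.norm_eq_abs, abs_of_pos hδ] at h1
      have h4 : 0 ≤ δ * ‖lf H'.1 ⬝ᵥ ν‖ := by positivity
      nlinarith
  have hsμ : s.1.1 *ᵥ μ = Complex.exp (2 * Real.pi * Complex.I / eH N H.1) • μ := by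
    show s.1.1 *ᵥ ((δ : ℂ) • ν) = _ • ((δ : ℂ) • ν)
    rw [Matrix.mulVec_smul, hsν, hdet, smul_comm]
  have hsp : s.1.1 *ᵥ p H = p H := hs _ (hp1 H)
  have hx1 : ∀ g ∈ N, IsRefl g → g.1 *ᵥ (p H + μ) ≠ p H + μ := by
    have := hreg 1 (by simp) (by simp)
    simpa only [one_smul] using this
  let y : VReg N := ⟨p H + μ, hx1⟩
  have he : (eH N H.1 : ℂ) ≠ 0 := Nat.cast_ne_zero.2 hpos.ne'
  have hnorm : ∀ t : ℝ, ‖Complex.exp (2 * Real.pi * Complex.I * (t : ℝ) / eH N H.1)‖ = 1 := by
    intro t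
    have : (2 * Real.pi * Complex.I * (t : ℝ) / eH N H.1 : ℂ) =
        ((2 * Real.pi * t / eH N H.1 : ℝ) : ℂ) * Complex.I := by
      push_cast
      ring
    rw [this, Complex.norm_exp_ofReal_mul_I]
  let a : Path y (s • y) :=
    { toFun := fun t => ⟨p H + Complex.exp (2 * Real.pi * Complex.I * (t : ℝ) / eH N H.1) • μ,
        hreg _ (by rw [hnorm]; exact one_pos) (hnorm _).le⟩
      continuous_toFun := by
        refine Continuous.subtype_mk ?_ _
        have h1 : Continuous fun t : I =>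
            Complex.exp (2 * Real.pi * Complex.I * ((t : ℝ) : ℂ) / eH N H.1) :=
          Complex.continuous_exp.comp ((continuous_const.mul
            (Complex.continuous_ofReal.comp continuous_subtype_val)).div_const _)
        exact continuous_const.add (h1.smul continuous_const)
      source' := by
        apply Subtype.ext
        show p H + Complex.exp (2 * Real.pi * Complex.I * (((0 : I) : ℝ) : ℂ) / eH N H.1) • μ =
          p H + μ
        rw [Set.Icc.coe_zero, Complex.ofReal_zero, mul_zero, zero_div, Complex.exp_zero, one_smul]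
      target' := by
        apply Subtype.ext
        show p H + Complex.exp (2 * Real.pi * Complex.I * (((1 : I) : ℝ) : ℂ) / eH N H.1) • μ =
          s.1.1 *ᵥ (p H + μ)
        rw [Set.Icc.coe_one, Complex.ofReal_one, mul_one, Matrix.mulVec_add, hsp, hsμ] }
  refine ⟨_, s, hs, hdet, p H, μ, hp1 H, ?_, hsμ, y, rfl, hreg, (ConnX.path_vreg v₀ y).some, a,
    fun t => rfl, rfl⟩
  intro g hg hr hfix
  have h1 : p H ∈ (⟨fixL g, g, hg, hr, rfl⟩ : Arr N).1 := (G1.mem_fix g _).2 hfix
  exact congrArg Subtype.val (hp2 H _ h1)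

end Exist

namespace T6X

section Det

lemma prod_mulVec {K : Type} [Field K] {n : ℕ} (A : Matrix (Fin n) (Fin n) K) (γ : ℕ → K) (lam : K)
    (v : Fin n → K) (hv : A *ᵥ v = lam • v) (l : List ℕ) :
    (l.map fun j => A - γ j • (1 : Matrix (Fin n) (Fin n) K)).prod *ᵥ v =
      (l.map fun j => lam - γ j).prod • v := by
  induction l with
  | nil => simp
  | cons j l ih =>
    rw [List.map_cons, List.prod_cons, List.map_cons, List.prod_cons, ← Matrix.mulVec_mulVec, ih,
      Matrix.mulVec_smul, Matrix.sub_mulVec, hv, Matrix.smul_mulVec, Matrix.one_mulVec, ← sub_smul,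
      smul_smul, mul_comm]

lemma multiset_count {K : Type} [Field K] (e : ℕ) (γ : ℕ → K) (s : Multiset K)
    (h : ∀ x ∈ s, ∃ j < e, x = γ j) : ∃ a : ℕ → ℕ, ∑ j ∈ Finset.range e, a j = s.card ∧
      s.prod = ∏ j ∈ Finset.range e, γ j ^ a j := by
  induction s using Multiset.induction_on with
  | empty => exact ⟨fun _ => 0, by simp, by simp⟩
  | cons x s ih =>
    obtain ⟨a, h1, h2⟩ := ih fun y hy => h y (Multiset.mem_cons_of_mem hy)
    obtain ⟨j, hj, rfl⟩ := h x (Multiset.mem_cons_self x s)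
    have hj' : j ∈ Finset.range e := Finset.mem_range.2 hj
    refine ⟨fun i => a i + if i = j then 1 else 0, ?_, ?_⟩
    · rw [Finset.sum_add_distrib, h1, Finset.sum_ite_eq' (Finset.range e) j, if_pos hj',
        Multiset.card_cons]
    · rw [Multiset.prod_cons, h2]
      have : ∏ i ∈ Finset.range e, γ i ^ (a i + if i = j then 1 else 0) =
          (∏ i ∈ Finset.range e, γ i ^ a i) * ∏ i ∈ Finset.range e, γ i ^ (if i = j then 1 else 0) := by
        rw [← Finset.prod_mul_distrib]
        exact Finset.prod_congr rfl fun i _ => pow_add _ _ _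
      have h9 : ∏ i ∈ Finset.range e, γ i ^ (if i = j then 1 else 0) = γ j := by
        rw [Finset.prod_eq_single j, if_pos rfl, pow_one]
        · intro i _ hi
          rw [if_neg hi, pow_zero]
        · intro hn
          exact absurd hj' hn
      rw [this, h9, mul_comm]

/-- The determinant of a matrix annihilated by a product of linear factors. -/
theorem det_of_prod {k : Type} [Field k] {n : ℕ} (X : Matrix (Fin n) (Fin n) k) (e : ℕ) (γ : ℕ → k)
    (h : ((List.range e).map fun j => X - γ j • (1 : Matrix (Fin n) (Fin n) k)).prod = 0) :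
    ∃ a : ℕ → ℕ, ∑ j ∈ Finset.range e, a j = n ∧ X.det = ∏ j ∈ Finset.range e, γ j ^ a j := by
  let K := AlgebraicClosure k
  let f : k →+* K := algebraMap k K
  let A : Matrix (Fin n) (Fin n) K := X.map f
  have hA : ((List.range e).map fun j => A - f (γ j) • (1 : Matrix (Fin n) (Fin n) K)).prod = 0 := by
    have h1 := congrArg f.mapMatrix h
    rw [map_zero, map_list_prod, List.map_map] at h1
    rw [← h1]
    congr 1
    refine List.map_congr_left fun j _ => ?_
    show A - f (γ j) • 1 = f.mapMatrix (X - γ j • 1)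
    rw [map_sub]
    congr 1
    ext i l
    simp [RingHom.mapMatrix_apply, Matrix.map_apply, Matrix.smul_apply, Matrix.one_apply,
      apply_ite f]
  have hroot : ∀ x ∈ A.charpoly.roots, ∃ j < e, x = f (γ j) := by
    intro x hx
    have h1 : A.charpoly.eval x = 0 := (Polynomial.mem_roots'.1 hx).2
    rw [Matrix.eval_charpoly] at h1
    obtain ⟨v, hv0, hv⟩ := Matrix.exists_mulVec_eq_zero_iff.2 h1
    have hAv : A *ᵥ v = x • v := by
      rw [Matrix.sub_mulVec, sub_eq_zero] at hv
      rw [← hv]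
      ext i
      simp [Matrix.mulVec, Matrix.scalar_apply, dotProduct, Matrix.diagonal_apply]
    have h2 := prod_mulVec A (fun j => f (γ j)) x v hAv (List.range e)
    rw [hA, Matrix.zero_mulVec] at h2
    have h3 : ((List.range e).map fun j => x - f (γ j)).prod = 0 := by
      by_contra hne
      exact hv0 (by
        have := smul_eq_zero.1 h2.symm
        rcases this with h4 | h4
        · exact absurd h4 hne
        · exact h4)
    rw [List.prod_eq_zero_iff, List.mem_map] at h3
    obtain ⟨j, hj, hj2⟩ := h3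
    exact ⟨j, List.mem_range.1 hj, sub_eq_zero.1 hj2⟩
  obtain ⟨a, h1, h2⟩ := multiset_count e (fun j => f (γ j)) A.charpoly.roots hroot
  have hsplit : A.charpoly.Splits := IsAlgClosed.splits _
  refine ⟨a, ?_, ?_⟩
  · rw [h1]
    have h3 : A.charpoly.roots.card = A.charpoly.natDegree :=
      (Polynomial.splits_iff_card_roots.1 hsplit)
    rw [h3, Matrix.charpoly_natDegree_eq_dim, Fintype.card_fin]
  · apply f.injective
    rw [RingHom.map_det, map_prod]
    have h4 : (f.mapMatrix X) = A := rfl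
    rw [h4, Matrix.det_eq_prod_roots_charpoly, h2]
    exact Finset.prod_congr rfl fun j _ => (map_pow f _ _).symm

end Det

end T6X

end

end Pool.Agent.CMFn
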