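import Pool.Agent.CMFn.T5
import Pool.Agent.CMFn.T6B
import Pool.Agent.CMFn.G7bB
import Pool.Agent.CMF.G9

/-! Project CMFn, block T, module T6C: the dimension of a representation of a specialisation of the
generic Hecke algebra, and the exponent by which the full twist acts. -/

namespace Pool.Agent.CMFn

open Matrix unitInterval

noncomputable section

namespace T6X

open G1 G3

variable {r : ℕ} {G : Type} [Group G] [Fintype G] {V : G → Matrix (Fin r) (Fin r) ℂ}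
  {v₀ : Fin r → ℂ} {Z : Type} [CommRing Z] [Algebra Z ℂ]

theorem eH_actH {N : SG r} (g : N) (H : Arr N) : eH N (DunBX.actH g H).1 = eH N H.1 :=
  DunBX.eH_act g H.1

/-- The transitivity on the hyperplanes. -/
theorem orb_of (hV : CMFP.IsRep V) (hi : Function.Injective V) (s₀ : {s : G // CMFP.IsRefl V s})
    (horb : ∀ s, CMFP.IsRefl V s → ∃ g : G, CMFP.Fixes V s (g * s₀.1 * g⁻¹)) (H : Arr (img hV)) :
    ∃ g : img hV, DunBX.actH g (lineOf hV s₀) = H := by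
  obtain ⟨s, rfl⟩ := lineOf_surj hV H
  obtain ⟨g, hg⟩ := horb s.1 s.2
  obtain ⟨⟨g', hg', h'⟩, -⟩ := (idxRel_iff hV hi (s₀, 0) (s, 0)).1 ⟨⟨g, hg⟩, by simp⟩
  exact ⟨⟨g', hg'⟩, Subtype.ext h'.symm⟩

/-- The determinant relation. -/
theorem det_rel (hinj : Function.Injective (algebraMap Z ℂ)) (hR : CMFP.IsReflGroup V)
    (hv₀ : CMFP.Reg V v₀) (s₀ : {s : G // CMFP.IsRefl V s})
    (horb : ∀ s, CMFP.IsRefl V s → ∃ g : G, CMFP.Fixes V s (g * s₀.1 * g⁻¹))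
    (ζ : Z) (hζ : algebraMap Z ℂ ζ = CMFP.rot V s₀.1 1)
    {k : Type} [Field k] {n : ℕ} (φ : CMFP.Laur Z (CMFP.Idx V) →+* k)
    (ψ : CMFP.Hk Z V v₀ (CMFP.var Z) →+* Matrix (Fin n) (Fin n) k)
    (hψ : ∀ (a : CMFP.Laur Z (CMFP.Idx V)) h, ψ (a • h) = φ a • ψ h) (θ : k)
    (hθ : ψ (CMFP.hT Z (CMFP.var Z) (piBP hR.1.1 hv₀)) = θ • 1) :
    ∃ a : ℕ → ℕ, ∑ j ∈ Finset.range (CMFP.ordH V s₀.1), a j = n ∧
      θ ^ n = ∏ j ∈ Finset.range (CMFP.ordH V s₀.1),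
        (φ (CMFP.var Z (CMFP.idx V s₀.1 s₀.2 (j : ℤ))) ^ (CMFP.mu Z *
          (CMFP.ordH V s₀.1 * Nat.card (Arr (img hR.1))))) ^ a j := by
  classical
  let v : VReg (img hR.1) := ⟨v₀, (G3.reg_iff hR.1 v₀).1 hv₀⟩
  obtain ⟨hk1, hk2, hk3, hk4⟩ := CMF.hkRep_hT (v₀ := v₀) (Z := Z) (CMFP.var Z (ι := CMFP.Idx V))
  obtain ⟨ψB, hψB⟩ := exists_lift hR.1 v rfl hR.2.1
    (fun b => ψ (CMFP.hT Z (CMFP.var Z) b)) (fun a b h => congrArg ψ (hk1 a b h))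
    (fun a h1 h2 => (congrArg ψ (hk2 a h1 h2)).trans (map_one ψ))
    (fun a b c h1 h2 h3 => (congrArg ψ (hk3 a b c h1 h2 h3)).trans (map_mul ψ _ _))
  let φB : Braid (img hR.1) v →* kˣ := (Matrix.detMonoidHom.comp ψB).toHomUnits
  have hφB : ∀ B, (φB B : k) = (ψB B).det := fun B => rfl
  obtain ⟨B, hB⟩ := exists_isBraidRefl v (lineOf hR.1 s₀)
  obtain ⟨c, hc, hbc, hcB, -, hline⟩ := exists_brefl hR v rfl s₀ hB
  have he : ∀ s : {s : G // CMFP.IsRefl V s}, CMFP.ordH V s.1 = eH (img hR.1) (lineOf hR.1 s).1 :=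
    fun s => ordH_eq hR.1 hR.2.1 s
  have hec : CMFP.ordH V c.g = CMFP.ordH V s₀.1 := by
    rw [he ⟨c.g, hc⟩, hline, ← he s₀]
  have heH : ∀ H : Arr (img hR.1), eH (img hR.1) H.1 = CMFP.ordH V s₀.1 := by
    intro H
    obtain ⟨g, rfl⟩ := orb_of hR.1 hR.2.1 s₀ horb H
    rw [eH_actH, ← he s₀]
  have hT := phi_piB_one φB (lineOf hR.1 s₀) hB (orb_of hR.1 hR.2.1 s₀ horb) _ heH
  have hpi : br hR.1 v rfl (piBP hR.1.1 hv₀) = piB v := by
    refine br_eq_of hR.1 v rfl _ _ ?_ ?_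
    · exact el_one hR.1
    · intro t
      rfl
  have h1 : (ψB (piB v)).det = θ ^ n := by
    rw [← hpi, hψB, hθ, Matrix.det_smul, Matrix.det_one, mul_one, Fintype.card_fin]
  have h2 := congrArg (fun u : kˣ => (u : k)) hT
  simp only [Units.val_pow_eq_pow_val] at h2
  rw [hφB, hφB, h1, ← hcB, hψB] at h2
  -- the Hecke relation
  have hrot : CMFP.rot V c.g 1 = CMFP.rot V s₀.1 1 := by
    unfold CMFP.rot
    rw [hec]
  have hidx : ∀ j : ℤ, CMFP.idx V c.g hc j = CMFP.idx V s₀.1 s₀.2 j := by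
    intro j
    refine Quot.sound ((idxRel_iff hR.1 hR.2.1 _ _).2 ?_)
    show idxRel (img hR.1) (lineOf hR.1 ⟨c.g, hc⟩, j) (lineOf hR.1 s₀, j)
    rw [hline]
    exact idxRel_self _ _
  have hhk := hk4 c hc hbc ζ (by rw [hζ, hrot])
  rw [hec] at hhk
  have hhk' := congrArg ψ hhk
  rw [map_zero, map_list_prod, List.map_map] at hhk'
  set γ : ℕ → k := fun j => φ (algebraMap Z (CMFP.Laur Z (CMFP.Idx V)) ζ ^ j *
    CMFP.var Z (CMFP.idx V s₀.1 s₀.2 (j : ℤ)) ^ CMFP.mu Z) with hγ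
  have halg : ∀ x : CMFP.Laur Z (CMFP.Idx V),
      ψ (algebraMap _ (CMFP.Hk Z V v₀ (CMFP.var Z)) x) = φ x • 1 := by
    intro x
    rw [Algebra.algebraMap_eq_smul_one, hψ, map_one]
  have hX : ((List.range (CMFP.ordH V s₀.1)).map fun j =>
      ψ (CMFP.hT Z (CMFP.var Z) c) - γ j • (1 : Matrix (Fin n) (Fin n) k)).prod = 0 := by
    rw [← hhk']
    congr 1
    refine List.map_congr_left fun j _ => ?_
    simp only [Function.comp_apply]
    rw [map_sub, halg, hidx]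
  obtain ⟨a, ha1, ha2⟩ := det_of_prod _ _ γ hX
  refine ⟨a, ha1, ?_⟩
  rw [h2, ha2, ← Finset.prod_pow]
  refine Finset.prod_congr rfl fun j _ => ?_
  rw [← pow_mul, mul_comm (a j), pow_mul]
  congr 1
  -- `ζ^e = 1`
  have hpos : 0 < CMFP.ordH V s₀.1 := by
    rw [he s₀]
    exact eH_pos _ _
  have hζe : ζ ^ CMFP.ordH V s₀.1 = 1 := by
    apply hinj
    rw [map_pow, map_one, hζ]
    unfold CMFP.rot
    rw [Complex.ofReal_one, mul_one, ← Complex.exp_nat_mul, mul_div_cancel₀ _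
      (Nat.cast_ne_zero.2 hpos.ne' : (CMFP.ordH V s₀.1 : ℂ) ≠ 0), Complex.exp_two_pi_mul_I]
  have e1 : φ (algebraMap Z (CMFP.Laur Z (CMFP.Idx V)) ζ) ^ CMFP.ordH V s₀.1 = 1 := by
    rw [← map_pow, ← map_pow, hζe, map_one, map_one]
  rw [hγ, Nat.card_eq_fintype_card]
  simp only
  rw [map_mul, map_pow, map_pow, mul_pow, ← pow_mul, ← pow_mul,
    show j * (CMFP.ordH V s₀.1 * Fintype.card (Arr (img hR.1))) =
      CMFP.ordH V s₀.1 * (j * Fintype.card (Arr (img hR.1))) by ring, pow_mul, e1, one_pow, one_mul]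

lemma mono_pow {ι : Type} (a : ι →₀ ℤ) (m : ℕ) :
    (CMFP.mono Z a : CMFP.Laur Z ι) ^ m = CMFP.mono Z (m • a) := by
  unfold CMFP.mono
  have := AddMonoidAlgebra.single_pow (R := Z) a (1 : Z) m
  rw [one_pow] at this
  exact this

lemma mono_mul {ι : Type} (a b : ι →₀ ℤ) :
    (CMFP.mono Z a : CMFP.Laur Z ι) * CMFP.mono Z b = CMFP.mono Z (a + b) := by
  unfold CMFP.mono
  have := AddMonoidAlgebra.single_mul_single (R := Z) a b (1 : Z) 1
  rw [one_mul] at this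
  exact this

lemma mono_zero {ι : Type} : (CMFP.mono Z 0 : CMFP.Laur Z ι) = 1 := rfl

lemma mono_prod {ι J : Type} (s : Finset J) (a : J → (ι →₀ ℤ)) :
    ∏ j ∈ s, (CMFP.mono Z (a j) : CMFP.Laur Z ι) = CMFP.mono Z (∑ j ∈ s, a j) := by
  classical
  induction s using Finset.induction_on with
  | empty => rw [Finset.prod_empty, Finset.sum_empty, mono_zero]
  | insert j s hj ih => rw [Finset.prod_insert hj, Finset.sum_insert hj, ih, mono_mul]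

/-- The dimension relation. -/
theorem dim_rel (hinj : Function.Injective (algebraMap Z ℂ)) (hR : CMFP.IsReflGroup V)
    (hv₀ : CMFP.Reg V v₀) (s₀ : {s : G // CMFP.IsRefl V s})
    (horb : ∀ s, CMFP.IsRefl V s → ∃ g : G, CMFP.Fixes V s (g * s₀.1 * g⁻¹))
    (ζ : Z) (hζ : algebraMap Z ℂ ζ = CMFP.rot V s₀.1 1)
    {k : Type} [Field k] {n : ℕ} (φ : CMFP.Laur Z (CMFP.Idx V) →+* k)
    (hφ : ∀ a, φ (CMFP.mono Z a) = 1 → a = 0)
    (ψ : CMFP.Hk Z V v₀ (CMFP.var Z) →+* Matrix (Fin n) (Fin n) k)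
    (hψ : ∀ (a : CMFP.Laur Z (CMFP.Idx V)) h, ψ (a • h) = φ a • ψ h) (a₀ : CMFP.Idx V →₀ ℤ)
    (hθ : ψ (CMFP.hT Z (CMFP.var Z) (piBP hR.1.1 hv₀)) = φ (CMFP.mono Z a₀) • 1) :
    ∃ a : ℕ → ℕ, ∑ j ∈ Finset.range (CMFP.ordH V s₀.1), a j = n ∧
      n • a₀ = ∑ j ∈ Finset.range (CMFP.ordH V s₀.1),
        (a j * (CMFP.mu Z * (CMFP.ordH V s₀.1 * Nat.card (Arr (img hR.1))))) •
          Finsupp.single (CMFP.idx V s₀.1 s₀.2 (j : ℤ)) (1 : ℤ) := by
  obtain ⟨a, ha1, ha2⟩ := det_rel hinj hR hv₀ s₀ horb ζ hζ φ ψ hψ _ hθ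
  refine ⟨a, ha1, ?_⟩
  set m := CMFP.mu Z * (CMFP.ordH V s₀.1 * Nat.card (Arr (img hR.1))) with hm
  set S := ∑ j ∈ Finset.range (CMFP.ordH V s₀.1),
        (a j * m) • Finsupp.single (CMFP.idx V s₀.1 s₀.2 (j : ℤ)) (1 : ℤ) with hS
  have h1 : φ (CMFP.mono Z (n • a₀)) = φ (CMFP.mono Z S) := by
    rw [← mono_pow, map_pow, ha2, hS, ← mono_prod, map_prod]
    refine Finset.prod_congr rfl fun j _ => ?_
    rw [← mono_pow, map_pow, mul_comm (a j), hm, ← pow_mul]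
    rfl
  have h2 : φ (CMFP.mono Z (n • a₀ - S)) = 1 := by
    have h3 : (CMFP.mono Z (n • a₀ - S) : CMFP.Laur Z (CMFP.Idx V)) * CMFP.mono Z S =
        CMFP.mono Z (n • a₀) := by
      rw [mono_mul, sub_add_cancel]
    have h4 : (CMFP.mono Z S : CMFP.Laur Z (CMFP.Idx V)) * CMFP.mono Z (-S) = 1 := by
      rw [mono_mul, add_neg_cancel, mono_zero]
    have h5 : φ (CMFP.mono Z S) ≠ 0 := by
      intro h0
      have := congrArg φ h4
      rw [map_mul, h0, zero_mul, map_one] at this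
      exact zero_ne_one this
    have h6 := congrArg φ h3
    rw [map_mul, h1] at h6
    exact mul_right_cancel₀ h5 (h6.trans (one_mul _).symm)
  exact sub_eq_zero.1 (hφ _ h2)

end T6X

end

end Pool.Agent.CMFn
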