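import Pool.Agent.CMFn.ThmS
import Pool.Agent.CMFn.CM4

/-! Project CMFn, module TS (rank r): Theorem S at generic points of an affine family of parameters. -/

namespace Pool.Agent.CMFn

open Matrix
open Pool.Agent.CMF (LineHol)

noncomputable section

/-- For `x` outside countably many zero sets, some element of the group algebra of the braid
group acts as `1` on the monodromy representations of `l' ∈ Ft` at the parameter
`Σ_j x_j β_j + q l`, and as `0` on the others. -/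
theorem thmS_generic {r : ℕ} {N : SG r} [Fintype N] (hN : ∃ s ∈ N, IsRefl s) {v₀ : VReg N}
    (Φ : IrrFam N) (k₀ : Idx N → ℂ) (Ft : Φ.Λ → Prop) [DecidablePred Ft] (z : FA ℂ r N)
    (hz : SepWord Φ k₀ Ft z) {R : ℕ} (β : Fin R → Idx N → ℂ) (x₀ : Fin R → ℂ)
    (hk : k₀ = ∑ j, x₀ j • β j) (l : Idx N → ℂ) (q : ℂ) :
    ∃ f : ℕ → (Fin R → ℂ) → ℂ, (∀ n, LineHol (f n)) ∧ (∀ n, ∃ x, f n x ≠ 0) ∧
      ∀ x, (∀ n, f n x ≠ 0) → ∃ h : MonoidAlgebra ℂ (Braid N v₀), ∀ l' : Φ.Λ,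
        MonoidAlgebra.lift ℂ _ (Braid N v₀) (KZ hN (Φ.ρ l') ((∑ j, x j • β j) + q • l)) h =
          if Ft l' then 1 else 0 := by
  choose f hf hne hz' using fun n => deform Φ k₀ Ft z hz β x₀ hk l q n
  exact ⟨f, hf, hne, fun x hx => theoremS hN Φ _ Ft (fun n => hz' n x (hx n))⟩

end

end Pool.Agent.CMFn
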