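import Pool.Agent.CMFn.Sec
import Pool.Agent.CMFn.MG
import Pool.Agent.CMFn.CM5

/-! Project CMFn, module ThmS (rank r): Theorem S. -/

namespace Pool.Agent.CMFn

open Matrix

noncomputable section

variable {r : ℕ} {N : SG r} [Fintype N]

namespace ThmSX

open CM5X

section tot

variable (Φ : IrrFam N) {Λ' : Type} [Fintype Λ'] [DecidableEq Λ'] (j : Λ' → Φ.Λ)

/-- The projection to the `m`-th column of the `l`-block. -/
def pm (l : Λ') (m : Fin (Φ.d (j l))) : Matrix (Fin (Φ.d (j l))) (TI Φ j) ℂ :=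
  fun i y => if y = ⟨l, (i, m)⟩ then 1 else 0

lemma pm_mulVec (l : Λ') (m : Fin (Φ.d (j l))) (u : TI Φ j → ℂ) (i : Fin (Φ.d (j l))) :
    (pm Φ j l m *ᵥ u) i = u ⟨l, (i, m)⟩ := by
  show ∑ y, (if y = ⟨l, (i, m)⟩ then (1 : ℂ) else 0) * u y = _
  rw [Fintype.sum_eq_single (⟨l, (i, m)⟩ : TI Φ j)]
  · rw [if_pos rfl, one_mul]
  · intro y hy
    rw [if_neg hy, zero_mul]

lemma pm_mul {κ : Type} [Fintype κ] (l : Λ') (m : Fin (Φ.d (j l))) (M : Matrix (TI Φ j) κ ℂ)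
    (i : Fin (Φ.d (j l))) (y : κ) : (pm Φ j l m * M) i y = M ⟨l, (i, m)⟩ y := by
  rw [Matrix.mul_apply]
  exact pm_mulVec Φ j l m (fun x => M x y) i

lemma pm_comm (l : Λ') (m : Fin (Φ.d (j l))) (g : N) :
    pm Φ j l m * totRep' Φ j g = Φ.ρ (j l) g * pm Φ j l m := by
  ext i y
  rw [pm_mul, Matrix.mul_apply]
  have h := tot_sum Φ j (RingHom.id ℂ) g l i m (fun x => if x = y then 1 else 0)
  have h1 : ∑ x, (RingHom.id ℂ) (totRep' Φ j g ⟨l, (i, m)⟩ x) * (if x = y then 1 else 0) =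
      totRep' Φ j g ⟨l, (i, m)⟩ y := by
    rw [Fintype.sum_eq_single y]
    · simp
    · intro x hx
      rw [if_neg hx, mul_zero]
  rw [h1] at h
  rw [h]
  apply Finset.sum_congr rfl
  intro i' _
  show Φ.ρ (j l) g i i' * _ = Φ.ρ (j l) g i i' * (if y = ⟨l, (i', m)⟩ then 1 else 0)
  congr 1
  by_cases hy : y = ⟨l, (i', m)⟩
  · rw [if_pos hy, if_pos hy.symm]
  · rw [if_neg hy, if_neg (fun h => hy h.symm)]

/-- The unit element. -/
def one : TI Φ j → ℂ := fun x => if x.2.1 = x.2.2 then 1 else 0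

variable (hN : ∃ s ∈ N, IsRefl s) {v₀ : VReg N} (k : Idx N → ℂ)

/-- The linear extension of the monodromy representation. -/
def LK {ι : Type} [Fintype ι] [DecidableEq ι] (ρ : N →* Matrix ι ι ℂ) :
    MonoidAlgebra ℂ (Braid N v₀) →ₐ[ℂ] Matrix ι ι ℂ :=
  MonoidAlgebra.lift ℂ _ (Braid N v₀) (KZ hN ρ k)

lemma LK_intertwine {ι ι' : Type} [Fintype ι] [DecidableEq ι] [Fintype ι'] [DecidableEq ι']
    (ρ : N →* Matrix ι ι ℂ) (ρ' : N →* Matrix ι' ι' ℂ) (P : Matrix ι' ι ℂ)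
    (h : ∀ g, P * ρ g = ρ' g * P) (a : MonoidAlgebra ℂ (Braid N v₀)) :
    P * LK hN k ρ a = LK hN k ρ' a * P := by
  unfold LK
  rw [MonoidAlgebra.lift_apply, MonoidAlgebra.lift_apply, Finsupp.sum, Finsupp.sum,
    Matrix.mul_sum, Matrix.sum_mul]
  apply Finset.sum_congr rfl
  intro b _
  rw [Matrix.mul_smul, Matrix.smul_mul, KZ_intertwine hN ρ ρ' k P h b]

/-- `Γ = ℂ[B] · 1`. -/
def Gam (v₀ : VReg N) : Submodule ℂ (TI Φ j → ℂ) where
  carrier := {x | ∃ a : MonoidAlgebra ℂ (Braid N v₀), LK hN k (totRep' Φ j) a *ᵥ one Φ j = x}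
  add_mem' := by
    rintro _ _ ⟨a, rfl⟩ ⟨b, rfl⟩
    exact ⟨a + b, by rw [map_add, Matrix.add_mulVec]⟩
  zero_mem' := ⟨0, by rw [map_zero, Matrix.zero_mulVec]⟩
  smul_mem' := by
    rintro c _ ⟨a, rfl⟩
    exact ⟨c • a, by rw [map_smul, Matrix.smul_mulVec]⟩

lemma Gam_stable (b : Braid N v₀) (x : TI Φ j → ℂ) (hx : x ∈ Gam Φ j hN k v₀) :
    KZ hN (totRep' Φ j) k b *ᵥ x ∈ Gam Φ j hN k v₀ := by
  obtain ⟨a, rfl⟩ := hx
  refine ⟨MonoidAlgebra.of ℂ _ b * a, ?_⟩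
  rw [map_mul, ← Matrix.mulVec_mulVec]
  congr 1
  unfold LK
  rw [MonoidAlgebra.lift_of]

lemma one_mem : one Φ j ∈ Gam Φ j hN k v₀ :=
  ⟨1, by rw [map_one, Matrix.one_mulVec]⟩

lemma LK_entry (a : MonoidAlgebra ℂ (Braid N v₀)) (l : Λ') (i m : Fin (Φ.d (j l))) :
    (LK hN k (totRep' Φ j) a *ᵥ one Φ j) ⟨l, (i, m)⟩ =
      (LK hN k (Φ.ρ (j l)) a : Matrix (Fin (Φ.d (j l))) (Fin (Φ.d (j l))) ℂ) i m := by
  have h0 := pm_mulVec Φ j l m (LK hN k (totRep' Φ j) a *ᵥ one Φ j) i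
  rw [← h0, Matrix.mulVec_mulVec,
    LK_intertwine hN k (totRep' Φ j) (Φ.ρ (j l)) (pm Φ j l m) (pm_comm Φ j l m) a,
    ← Matrix.mulVec_mulVec]
  have h : pm Φ j l m *ᵥ one Φ j = Pi.single m 1 := by
    funext i'
    rw [pm_mulVec]
    show (if i' = m then (1 : ℂ) else 0) = _
    rw [Pi.single_apply]
  rw [h, Matrix.mulVec_single_one]
  rfl

/-- The `Ft`-projection commutes with the representation. -/
lemma qm_comm (Ft : Φ.Λ → Prop) [DecidablePred Ft] (g : N) :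
    Matrix.diagonal (fun x : TI Φ j => if Ft (j x.1) then (1 : ℂ) else 0) * totRep' Φ j g =
      totRep' Φ j g * Matrix.diagonal (fun x : TI Φ j => if Ft (j x.1) then (1 : ℂ) else 0) := by
  ext ⟨l, x⟩ ⟨l', y⟩
  rw [Matrix.diagonal_mul, Matrix.mul_diagonal, mul_comm]
  by_cases h : l = l'
  · subst h
    rfl
  · rw [tot_eq, Matrix.blockDiagonal'_apply_ne _ _ _ h, zero_mul, zero_mul]

/-- All `j l` at once. -/
lemma class_split (Ft : Φ.Λ → Prop) [DecidablePred Ft] (hs : SplitAt Φ k Ft) :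
    ∃ a : MonoidAlgebra ℂ (Braid N v₀), ∀ l : Λ',
      LK hN k (Φ.ρ (j l)) a = if Ft (j l) then 1 else 0 := by
  obtain ⟨v, p, hp⟩ := exists_section' hN (totRep' Φ j) k
    (Gam Φ j hN k v₀) (fun b x hx => Gam_stable Φ j hN k b x hx)
  obtain ⟨f, hf, hfv⟩ := hp (one Φ j) (one_mem Φ j hN k)
  have hf' := split_sub' Φ j k Ft hs (MG hN (totRep' Φ j) k v₀ (Gam Φ j hN k v₀))
    (fun a f hf => MG_x hN (totRep' Φ j) k _ a f hf)
    (fun g f hf => MG_g hN (totRep' Φ j) k _ (fun b x hx => Gam_stable Φ j hN k b x hx) g f hf)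
    (fun y f hf => MG_D hN (totRep' Φ j) k _ (fun b x hx => Gam_stable Φ j hN k b x hx) y f hf)
    f hf
  obtain ⟨x, ⟨a, ha⟩, hx⟩ := hf' v p
  set Q : Matrix (TI Φ j) (TI Φ j) ℂ :=
    Matrix.diagonal (fun x : TI Φ j => if Ft (j x.1) then (1 : ℂ) else 0) with hQ
  have h1 : evE (fun i => if Ft (j i.1) then f i else 0) v.1 = Q *ᵥ evE f v.1 := by
    funext y
    rw [hQ, Matrix.mulVec_diagonal]
    show MvPolynomial.eval v.1 (if Ft (j y.1) then f y else 0) = _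
    split_ifs
    · rw [one_mul]
      rfl
    · rw [zero_mul, map_zero]
  have h2 : PP hN (totRep' Φ j) k p.toContinuousMap *ᵥ (Q *ᵥ one Φ j) =
      PP hN (totRep' Φ j) k p.toContinuousMap *ᵥ x := by
    rw [← hx, h1, hfv, Matrix.mulVec_mulVec, Matrix.mulVec_mulVec,
      PP_intertwine hN (totRep' Φ j) (totRep' Φ j) k Q (qm_comm Φ j Ft)]
  have h3 : Q *ᵥ one Φ j = x := by
    have hu := PP_unit hN (totRep' Φ j) k p.toContinuousMap
    have hu' := (Matrix.isUnit_iff_isUnit_det _).1 hu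
    have h4 := congrArg (fun z => (PP hN (totRep' Φ j) k p.toContinuousMap)⁻¹ *ᵥ z) h2
    simp only [Matrix.mulVec_mulVec] at h4
    rw [Matrix.nonsing_inv_mul_cancel_left _ _ hu', Matrix.nonsing_inv_mul _ hu',
      Matrix.one_mulVec] at h4
    exact h4
  refine ⟨a, fun l => ?_⟩
  ext i m
  rw [← LK_entry Φ j hN k a l i m, ha, ← h3, hQ, Matrix.mulVec_diagonal]
  show (if Ft (j l) then (1 : ℂ) else 0) * (if i = m then 1 else 0) = _
  split_ifs <;> simp [Matrix.one_apply, *]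

end tot

end ThmSX

open ThmSX

variable (hN : ∃ s ∈ N, IsRefl s) {v₀ : VReg N}

theorem theoremS (Φ : IrrFam N) (k' : Idx N → ℂ) (Ft : Φ.Λ → Prop) [DecidablePred Ft]
    (hs : SplitAt Φ k' Ft) :
    ∃ h : MonoidAlgebra ℂ (Braid N v₀), ∀ l : Φ.Λ,
      MonoidAlgebra.lift ℂ _ (Braid N v₀) (KZ hN (Φ.ρ l) k') h = if Ft l then 1 else 0 := by
  obtain ⟨h, hh⟩ := class_split Φ (fun l : Φ.Λ => l) hN (v₀ := v₀) k' Ft hs
  exact ⟨h, fun l => hh l⟩

end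

end Pool.Agent.CMFn
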