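import Pool.Agent.CMFn.Conn
import Pool.Agent.CMFn.QTop

/-! Project CMFn, block T, module TopA: cocycles on the fundamental groupoid. -/

namespace Pool.Agent.CMFn

open Matrix

noncomputable section

/-- A cocycle with values in a commutative group on the fundamental groupoid of `X`. -/
structure Coc (X Γ : Type) [TopologicalSpace X] [CommGroup Γ] where
  a : ∀ {x y : X}, Path x y → Γ
  trans : ∀ {x y z : X} (p : Path x y) (q : Path y z), a (p.trans q) = a p * a q
  hom : ∀ {x y : X} (p q : Path x y), p.Homotopic q → a p = a q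

namespace Coc

variable {X Γ : Type} [TopologicalSpace X] [CommGroup Γ] (A : Coc X Γ)

lemma refl (x : X) : A.a (Path.refl x) = 1 := by
  have h := A.trans (Path.refl x) (Path.refl x)
  rw [Path.refl_trans_refl] at h
  exact mul_eq_left.mp h.symm

lemma symm {x y : X} (p : Path x y) : A.a p.symm = (A.a p)⁻¹ := by
  have h := A.hom _ _ (⟨Path.Homotopy.reflTransSymm p⟩ : (Path.refl x).Homotopic (p.trans p.symm))
  rw [A.refl, A.trans] at h
  exact eq_inv_of_mul_eq_one_right h.symm

lemma cast {x y x' y' : X} (p : Path x y) (hx : x' = x) (hy : y' = y) :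
    A.a (p.cast hx hy) = A.a p := by
  subst hx hy
  rfl

/-- Equal functions have equal values. -/
lemma congr {x y x' y' : X} (p : Path x y) (q : Path x' y') (h : ∀ t, p t = q t) :
    A.a p = A.a q := by
  have hx : x = x' := by rw [← p.source, ← q.source]; exact h 0
  have hy : y = y' := by rw [← p.target, ← q.target]; exact h 1
  subst hx hy
  congr 1
  exact Path.ext (funext h)

/-- The boundary of a square has trivial value. -/
lemma square (F : C(ℝ × ℝ, X)) {x y z w : X} (b : Path x y) (r : Path y z) (l : Path x w)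
    (t : Path w z) (hb : ∀ s : unitInterval, F ((s : ℝ), 0) = b s)
    (ht : ∀ s : unitInterval, F ((s : ℝ), 1) = t s)
    (hl : ∀ s : unitInterval, F (0, (s : ℝ)) = l s)
    (hr : ∀ s : unitInterval, F (1, (s : ℝ)) = r s) :
    A.a b * A.a r = A.a l * A.a t := by
  have hx : x = F (0, 0) := by
    have := hb 0
    rw [b.source] at this
    simpa using this.symm
  have hz : z = F (1, 1) := by
    have := ht 1
    rw [t.target] at this
    simpa using this.symm
  have e1 : b.trans r = (((QTopX.hseg 0).trans (QTopX.vseg 1)).map F.continuous).cast hx hz := by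
    ext s
    rw [Path.trans_apply]
    show _ = F (((QTopX.hseg 0).trans (QTopX.vseg 1)) s)
    rw [Path.trans_apply]
    split_ifs with h
    · exact (hb _).symm
    · exact (hr _).symm
  have e2 : l.trans t = (((QTopX.vseg 0).trans (QTopX.hseg 1)).map F.continuous).cast hx hz := by
    ext s
    rw [Path.trans_apply]
    show _ = F (((QTopX.vseg 0).trans (QTopX.hseg 1)) s)
    rw [Path.trans_apply]
    split_ifs with h
    · exact (hl _).symm
    · exact (ht _).symm
  have h3 : (b.trans r).Homotopic (l.trans t) := by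
    rw [e1, e2]
    exact ((SimplyConnectedSpace.paths_homotopic ((QTopX.hseg 0).trans (QTopX.vseg 1))
      ((QTopX.vseg 0).trans (QTopX.hseg 1))).map F).pathCast hx hz
  rw [← A.trans, ← A.trans]
  exact A.hom _ _ h3

/-- Freely homotopic loops have the same value. -/
lemma free (F : C(ℝ × ℝ, X)) {x y : X} (b : Path x x) (t : Path y y)
    (hb : ∀ s : unitInterval, F ((s : ℝ), 0) = b s)
    (ht : ∀ s : unitInterval, F ((s : ℝ), 1) = t s)
    (hs : ∀ s : unitInterval, F (0, (s : ℝ)) = F (1, (s : ℝ))) :
    A.a b = A.a t := by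
  have hx : F (0, 0) = x := by
    have := hb 0
    rw [b.source] at this
    simpa using this
  have hy : F (0, 1) = y := by
    have := ht 0
    rw [t.source] at this
    simpa using this
  let l : Path x y := ⟨⟨fun s => F (0, (s : ℝ)), F.continuous.comp (by fun_prop)⟩,
    by simpa using hx, by simpa using hy⟩
  have h := A.square F b l l t hb ht (fun s => rfl) (fun s => (hs s).symm)
  rw [mul_comm] at h
  exact mul_left_cancel h

/-- Pull back. -/
def comap {Y : Type} [TopologicalSpace Y] (f : C(Y, X)) : Coc Y Γ where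
  a p := A.a (p.map f.continuous)
  trans p q := by rw [Path.map_trans, A.trans]
  hom p q h := A.hom _ _ (h.map f)

lemma comap_a {Y : Type} [TopologicalSpace Y] (f : C(Y, X)) {x y : Y} (p : Path x y) :
    (A.comap f).a p = A.a (p.map f.continuous) := rfl

end Coc

variable {r : ℕ} {N : SG r} {v₀ : VReg N}

/-- The pure braid of a loop. -/
def lb (l : Path v₀ v₀) : Braid N v₀ :=
  Quotient.mk _ ⟨1, l.toContinuousMap, l.source, l.target.trans (one_smul N v₀).symm⟩

namespace TopAX

lemma lb_hom (l l' : Path v₀ v₀) (h : l.Homotopic l') : lb l = lb l' := by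
  refine Quotient.sound ?_
  exact BraidX.rel_of rfl l l' (fun _ => rfl) (fun _ => rfl) h

lemma lb_mul (l l' : Path v₀ v₀) : lb l * lb l' = lb (l.trans l') := by
  refine Quotient.sound ?_
  refine BraidX.rel_of (one_mul _) (l.trans l') (l.trans l') ?_ (fun _ => rfl)
    (Path.Homotopic.refl _)
  intro t
  rw [BraidX.mul_f, Path.trans_apply, Path.trans_apply]
  split_ifs with h
  · rfl
  · exact one_smul N _

/-- `lb` on homotopy classes. -/
def lq (P : Path.Homotopic.Quotient v₀ v₀) : Braid N v₀ :=
  Quotient.lift lb (fun l l' h => lb_hom l l' h) P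

lemma lq_mk (l : Path v₀ v₀) : lq (Path.Homotopic.Quotient.mk l) = lb l := rfl

lemma lq_mul (P Q : Path.Homotopic.Quotient v₀ v₀) : lq P * lq Q = lq (P.trans Q) := by
  induction P using Path.Homotopic.Quotient.ind with
  | mk l =>
    induction Q using Path.Homotopic.Quotient.ind with
    | mk l' =>
      rw [← Path.Homotopic.Quotient.mk_trans, lq_mk, lq_mk, lq_mk, lb_mul]

/-- A path from the base point to each point. -/
def pt (x : VReg N) [Fintype N] : Path v₀ x := (ConnX.path_vreg v₀ x).some

end TopAX

open TopAX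

/-- The cocycle of a homomorphism from the braid group to a commutative group. -/
theorem exists_coc [Fintype N] {Γ : Type} [CommGroup Γ] (φ : Braid N v₀ →* Γ) :
    ∃ A : Coc (VReg N) Γ, ∀ (x : VReg N) (q : Path v₀ x) (γ : Path x x),
      A.a γ = φ (lb ((q.trans γ).trans q.symm)) := by
  let cl : ∀ {x y : VReg N}, Path.Homotopic.Quotient x y → Γ := fun {x y} P =>
    φ (lq (((Path.Homotopic.Quotient.mk (pt (v₀ := v₀) x)).trans P).trans
      (Path.Homotopic.Quotient.mk (pt (v₀ := v₀) y)).symm))
  have hcl : ∀ {x y z : VReg N} (P : Path.Homotopic.Quotient x y)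
      (Q : Path.Homotopic.Quotient y z), cl (P.trans Q) = cl P * cl Q := by
    intro x y z P Q
    show φ _ = φ _ * φ _
    rw [← map_mul, lq_mul]
    congr 2
    simp only [Path.Homotopic.Quotient.trans_assoc]
    rw [← Path.Homotopic.Quotient.trans_assoc (Path.Homotopic.Quotient.mk (pt y)).symm,
      Path.Homotopic.Quotient.symm_trans, Path.Homotopic.Quotient.refl_trans]
  refine ⟨{ a := fun {x y} p => cl (Path.Homotopic.Quotient.mk p)
            trans := fun p q => by
              rw [Path.Homotopic.Quotient.mk_trans]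
              exact hcl _ _
            hom := fun p q h => by
              rw [Path.Homotopic.Quotient.eq.2 h] }, ?_⟩
  intro x q γ
  show φ _ = _
  rw [← lq_mk, Path.Homotopic.Quotient.mk_trans, Path.Homotopic.Quotient.mk_trans,
    Path.Homotopic.Quotient.mk_symm]
  let P := Path.Homotopic.Quotient.mk (pt (v₀ := v₀) x)
  let Q := Path.Homotopic.Quotient.mk q
  let G := Path.Homotopic.Quotient.mk γ
  have h1 : lq (Q.trans P.symm) * lq ((P.trans G).trans P.symm) =
      lq ((Q.trans G).trans Q.symm) * lq (Q.trans P.symm) := by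
    rw [lq_mul, lq_mul]
    congr 1
    simp only [Path.Homotopic.Quotient.trans_assoc]
    rw [← Path.Homotopic.Quotient.trans_assoc P.symm P,
      ← Path.Homotopic.Quotient.trans_assoc Q.symm Q,
      Path.Homotopic.Quotient.symm_trans, Path.Homotopic.Quotient.refl_trans,
      Path.Homotopic.Quotient.symm_trans, Path.Homotopic.Quotient.refl_trans]
  have h2 := congrArg φ h1
  rw [map_mul, map_mul, mul_comm] at h2
  exact mul_right_cancel h2

theorem coc_twLoop {Γ : Type} [CommGroup Γ] (φ : Braid N v₀ →* Γ) (A : Coc (VReg N) Γ)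
    (hA : ∀ (x : VReg N) (q : Path v₀ x) (γ : Path x x),
      A.a γ = φ (lb ((q.trans γ).trans q.symm))) {p : Fin r → ℂ} {x : VReg N} (h : IsTw p x)
    (q : Path v₀ x) : A.a (twLoop h) = φ (tw h q) := hA x q _

end

end Pool.Agent.CMFn
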