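import Mathlib

/-! Project CMFn, block T, module TopB: a planar, purely combinatorial residue theorem. -/

namespace Pool.Agent.CMFn

noncomputable section

namespace TopBX

variable {M : Type} [AddCommGroup M]

/-- `e` is additive on the convex sets disjoint from `S`. -/
def IsAdd (S : Finset ℂ) (e : ℂ → ℂ → M) : Prop :=
  ∀ K : Set ℂ, Convex ℝ K → (∀ s ∈ S, s ∉ K) → ∀ x ∈ K, ∀ y ∈ K, ∀ z ∈ K, e x y + e y z = e x z

/-- The box. -/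
def box (A B : Set ℝ) : Set ℂ := {z | z.re ∈ A ∧ z.im ∈ B}

lemma box_convex {A B : Set ℝ} (hA : Convex ℝ A) (hB : Convex ℝ B) : Convex ℝ (box A B) := by
  intro x hx y hy a b ha hb hab
  refine ⟨?_, ?_⟩
  · have := hA hx.1 hy.1 ha hb hab
    simpa using this
  · have := hB hx.2 hy.2 ha hb hab
    simpa using this

/-- The boundary of a rectangle. -/
def bd (e : ℂ → ℂ → M) (a b c d : ℝ) : M :=
  e ⟨a, c⟩ ⟨b, c⟩ + e ⟨b, c⟩ ⟨b, d⟩ + e ⟨b, d⟩ ⟨a, d⟩ + e ⟨a, d⟩ ⟨a, c⟩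

section

variable {S : Finset ℂ} {e : ℂ → ℂ → M} (he : IsAdd S e)

include he

lemma self_zero (K : Set ℂ) (hK : Convex ℝ K) (hS : ∀ s ∈ S, s ∉ K) (x : ℂ) (hx : x ∈ K) :
    e x x = 0 := by
  have := he K hK hS x hx x hx x hx
  exact add_eq_left.mp this

lemma swap (K : Set ℂ) (hK : Convex ℝ K) (hS : ∀ s ∈ S, s ∉ K) (x : ℂ) (hx : x ∈ K) (y : ℂ)
    (hy : y ∈ K) : e y x = - e x y := by
  have h := he K hK hS x hx y hy x hx
  rw [self_zero he K hK hS x hx] at h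
  exact eq_neg_of_add_eq_zero_right h

lemma bd_zero (a b c d : ℝ) (hab : a ≤ b) (hcd : c ≤ d)
    (hS : ∀ s ∈ S, s ∉ box (Set.Icc a b) (Set.Icc c d)) : bd e a b c d = 0 := by
  have hK := box_convex (convex_Icc a b) (convex_Icc c d)
  have h1 : (⟨a, c⟩ : ℂ) ∈ box (Set.Icc a b) (Set.Icc c d) := ⟨⟨le_rfl, hab⟩, ⟨le_rfl, hcd⟩⟩
  have h2 : (⟨b, c⟩ : ℂ) ∈ box (Set.Icc a b) (Set.Icc c d) := ⟨⟨hab, le_rfl⟩, ⟨le_rfl, hcd⟩⟩
  have h3 : (⟨b, d⟩ : ℂ) ∈ box (Set.Icc a b) (Set.Icc c d) := ⟨⟨hab, le_rfl⟩, ⟨hcd, le_rfl⟩⟩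
  have h4 : (⟨a, d⟩ : ℂ) ∈ box (Set.Icc a b) (Set.Icc c d) := ⟨⟨le_rfl, hab⟩, ⟨hcd, le_rfl⟩⟩
  rw [bd, he _ hK hS _ h1 _ h2 _ h3, he _ hK hS _ h1 _ h3 _ h4, he _ hK hS _ h1 _ h4 _ h1,
    self_zero he _ hK hS _ h1]

lemma bd_cut_re (a b c d m : ℝ) (ham : a ≤ m) (hmb : m ≤ b) (hcd : c ≤ d)
    (h1 : ∀ s ∈ S, s.im ≠ c) (h2 : ∀ s ∈ S, s.im ≠ d) (h3 : ∀ s ∈ S, s.re ≠ m) :
    bd e a b c d = bd e a m c d + bd e m b c d := by
  have k1 : e ⟨a, c⟩ ⟨m, c⟩ + e ⟨m, c⟩ ⟨b, c⟩ = e ⟨a, c⟩ ⟨b, c⟩ := by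
    refine he (box (Set.Icc a b) {c}) (box_convex (convex_Icc _ _) (convex_singleton c)) ?_ _ ?_ _ ?_ _ ?_
    · exact fun s hs h => h1 s hs h.2
    · exact ⟨⟨le_rfl, ham.trans hmb⟩, rfl⟩
    · exact ⟨⟨ham, hmb⟩, rfl⟩
    · exact ⟨⟨ham.trans hmb, le_rfl⟩, rfl⟩
  have k2 : e ⟨b, d⟩ ⟨m, d⟩ + e ⟨m, d⟩ ⟨a, d⟩ = e ⟨b, d⟩ ⟨a, d⟩ := by
    refine he (box (Set.Icc a b) {d}) (box_convex (convex_Icc _ _) (convex_singleton d)) ?_ _ ?_ _ ?_ _ ?_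
    · exact fun s hs h => h2 s hs h.2
    · exact ⟨⟨ham.trans hmb, le_rfl⟩, rfl⟩
    · exact ⟨⟨ham, hmb⟩, rfl⟩
    · exact ⟨⟨le_rfl, ham.trans hmb⟩, rfl⟩
  have k3 : e ⟨m, d⟩ ⟨m, c⟩ = - e ⟨m, c⟩ ⟨m, d⟩ := by
    refine swap he (box {m} (Set.Icc c d)) (box_convex (convex_singleton m) (convex_Icc _ _)) ?_ _ ?_ _ ?_
    · exact fun s hs h => h3 s hs h.1
    · exact ⟨rfl, ⟨le_rfl, hcd⟩⟩
    · exact ⟨rfl, ⟨hcd, le_rfl⟩⟩
  rw [bd, bd, bd, k3, ← k1, ← k2]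
  abel

lemma bd_cut_im (a b c d m : ℝ) (hcm : c ≤ m) (hmd : m ≤ d) (hab : a ≤ b)
    (h1 : ∀ s ∈ S, s.re ≠ a) (h2 : ∀ s ∈ S, s.re ≠ b) (h3 : ∀ s ∈ S, s.im ≠ m) :
    bd e a b c d = bd e a b c m + bd e a b m d := by
  have k1 : e ⟨a, d⟩ ⟨a, m⟩ + e ⟨a, m⟩ ⟨a, c⟩ = e ⟨a, d⟩ ⟨a, c⟩ := by
    refine he (box {a} (Set.Icc c d)) (box_convex (convex_singleton a) (convex_Icc _ _)) ?_ _ ?_ _ ?_ _ ?_
    · exact fun s hs h => h1 s hs h.1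
    · exact ⟨rfl, ⟨hcm.trans hmd, le_rfl⟩⟩
    · exact ⟨rfl, ⟨hcm, hmd⟩⟩
    · exact ⟨rfl, ⟨le_rfl, hcm.trans hmd⟩⟩
  have k2 : e ⟨b, c⟩ ⟨b, m⟩ + e ⟨b, m⟩ ⟨b, d⟩ = e ⟨b, c⟩ ⟨b, d⟩ := by
    refine he (box {b} (Set.Icc c d)) (box_convex (convex_singleton b) (convex_Icc _ _)) ?_ _ ?_ _ ?_ _ ?_
    · exact fun s hs h => h2 s hs h.1
    · exact ⟨rfl, ⟨le_rfl, hcm.trans hmd⟩⟩
    · exact ⟨rfl, ⟨hcm, hmd⟩⟩
    · exact ⟨rfl, ⟨hcm.trans hmd, le_rfl⟩⟩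
  have k3 : e ⟨b, m⟩ ⟨a, m⟩ = - e ⟨a, m⟩ ⟨b, m⟩ := by
    refine swap he (box (Set.Icc a b) {m}) (box_convex (convex_Icc _ _) (convex_singleton m)) ?_ _ ?_ _ ?_
    · exact fun s hs h => h3 s hs h.2
    · exact ⟨⟨le_rfl, hab⟩, rfl⟩
    · exact ⟨⟨hab, le_rfl⟩, rfl⟩
  rw [bd, bd, bd, k3, ← k1, ← k2]
  abel

/-- The boundary of a rectangle with one point can be shrunk. -/
lemma shrink (p : ℂ) (a b c d a' b' c' d' : ℝ) (ha : a ≤ a') (ha' : a' < p.re) (hb' : p.re < b')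
    (hb : b' ≤ b) (hc : c ≤ c') (hc' : c' < p.im) (hd' : p.im < d') (hd : d' ≤ d)
    (hS : ∀ s ∈ S, s ∈ box (Set.Icc a b) (Set.Icc c d) → s = p) :
    bd e a b c d = bd e a' b' c' d' := by
  have e0 : a ≤ b := by linarith
  have e1 : c ≤ d := by linarith
  -- bottom
  have hKb := box_convex (convex_Icc a b) (convex_Ico c p.im)
  have hSb : ∀ s ∈ S, s ∉ box (Set.Icc a b) (Set.Ico c p.im) := by
    intro s hs h
    have := hS s hs ⟨h.1, ⟨h.2.1, by linarith [h.2.2]⟩⟩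
    rw [this] at h
    exact lt_irrefl _ h.2.2
  have hKt := box_convex (convex_Icc a b) (convex_Ioc p.im d)
  have hSt : ∀ s ∈ S, s ∉ box (Set.Icc a b) (Set.Ioc p.im d) := by
    intro s hs h
    have := hS s hs ⟨h.1, ⟨by linarith [h.2.1], h.2.2⟩⟩
    rw [this] at h
    exact lt_irrefl _ h.2.1
  have hKl := box_convex (convex_Ico a p.re) (convex_Icc c d)
  have hSl : ∀ s ∈ S, s ∉ box (Set.Ico a p.re) (Set.Icc c d) := by
    intro s hs h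
    have := hS s hs ⟨⟨h.1.1, by linarith [h.1.2]⟩, h.2⟩
    rw [this] at h
    exact lt_irrefl _ h.1.2
  have hKr := box_convex (convex_Ioc p.re b) (convex_Icc c d)
  have hSr : ∀ s ∈ S, s ∉ box (Set.Ioc p.re b) (Set.Icc c d) := by
    intro s hs h
    have := hS s hs ⟨⟨by linarith [h.1.1], h.1.2⟩, h.2⟩
    rw [this] at h
    exact lt_irrefl _ h.1.1
  have b1 : (⟨a, c⟩ : ℂ) ∈ box (Set.Icc a b) (Set.Ico c p.im) :=
    ⟨⟨le_rfl, e0⟩, ⟨le_rfl, by show c < p.im; linarith⟩⟩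
  have b2 : (⟨b, c⟩ : ℂ) ∈ box (Set.Icc a b) (Set.Ico c p.im) :=
    ⟨⟨e0, le_rfl⟩, ⟨le_rfl, by show c < p.im; linarith⟩⟩
  have b3 : (⟨a', c'⟩ : ℂ) ∈ box (Set.Icc a b) (Set.Ico c p.im) :=
    ⟨⟨ha, by show a' ≤ b; linarith⟩, ⟨hc, hc'⟩⟩
  have b4 : (⟨b', c'⟩ : ℂ) ∈ box (Set.Icc a b) (Set.Ico c p.im) :=
    ⟨⟨by show a ≤ b'; linarith, hb⟩, ⟨hc, hc'⟩⟩
  have t1 : (⟨a, d⟩ : ℂ) ∈ box (Set.Icc a b) (Set.Ioc p.im d) :=
    ⟨⟨le_rfl, e0⟩, ⟨by show p.im < d; linarith, le_rfl⟩⟩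
  have t2 : (⟨b, d⟩ : ℂ) ∈ box (Set.Icc a b) (Set.Ioc p.im d) :=
    ⟨⟨e0, le_rfl⟩, ⟨by show p.im < d; linarith, le_rfl⟩⟩
  have t3 : (⟨a', d'⟩ : ℂ) ∈ box (Set.Icc a b) (Set.Ioc p.im d) :=
    ⟨⟨ha, by show a' ≤ b; linarith⟩, ⟨hd', hd⟩⟩
  have t4 : (⟨b', d'⟩ : ℂ) ∈ box (Set.Icc a b) (Set.Ioc p.im d) :=
    ⟨⟨by show a ≤ b'; linarith, hb⟩, ⟨hd', hd⟩⟩
  have l1 : (⟨a, c⟩ : ℂ) ∈ box (Set.Ico a p.re) (Set.Icc c d) :=
    ⟨⟨le_rfl, by show a < p.re; linarith⟩, ⟨le_rfl, e1⟩⟩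
  have l2 : (⟨a, d⟩ : ℂ) ∈ box (Set.Ico a p.re) (Set.Icc c d) :=
    ⟨⟨le_rfl, by show a < p.re; linarith⟩, ⟨e1, le_rfl⟩⟩
  have l3 : (⟨a', c'⟩ : ℂ) ∈ box (Set.Ico a p.re) (Set.Icc c d) :=
    ⟨⟨ha, ha'⟩, ⟨hc, by show c' ≤ d; linarith⟩⟩
  have l4 : (⟨a', d'⟩ : ℂ) ∈ box (Set.Ico a p.re) (Set.Icc c d) :=
    ⟨⟨ha, ha'⟩, ⟨by show c ≤ d'; linarith, hd⟩⟩
  have r1 : (⟨b, c⟩ : ℂ) ∈ box (Set.Ioc p.re b) (Set.Icc c d) :=
    ⟨⟨by show p.re < b; linarith, le_rfl⟩, ⟨le_rfl, e1⟩⟩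
  have r2 : (⟨b, d⟩ : ℂ) ∈ box (Set.Ioc p.re b) (Set.Icc c d) :=
    ⟨⟨by show p.re < b; linarith, le_rfl⟩, ⟨e1, le_rfl⟩⟩
  have r3 : (⟨b', c'⟩ : ℂ) ∈ box (Set.Ioc p.re b) (Set.Icc c d) :=
    ⟨⟨hb', hb⟩, ⟨hc, by show c' ≤ d; linarith⟩⟩
  have r4 : (⟨b', d'⟩ : ℂ) ∈ box (Set.Ioc p.re b) (Set.Icc c d) :=
    ⟨⟨hb', hb⟩, ⟨by show c ≤ d'; linarith, hd⟩⟩
  -- bottom: SW -> sw -> se -> SE
  have q1 : e ⟨a, c⟩ ⟨b, c⟩ = e ⟨a, c⟩ ⟨a', c'⟩ + e ⟨a', c'⟩ ⟨b', c'⟩ + e ⟨b', c'⟩ ⟨b, c⟩ := by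
    rw [he _ hKb hSb _ b1 _ b3 _ b4, he _ hKb hSb _ b1 _ b4 _ b2]
  have q2 : e ⟨b, c⟩ ⟨b, d⟩ = e ⟨b, c⟩ ⟨b', c'⟩ + e ⟨b', c'⟩ ⟨b', d'⟩ + e ⟨b', d'⟩ ⟨b, d⟩ := by
    rw [he _ hKr hSr _ r1 _ r3 _ r4, he _ hKr hSr _ r1 _ r4 _ r2]
  have q3 : e ⟨b, d⟩ ⟨a, d⟩ = e ⟨b, d⟩ ⟨b', d'⟩ + e ⟨b', d'⟩ ⟨a', d'⟩ + e ⟨a', d'⟩ ⟨a, d⟩ := by
    rw [he _ hKt hSt _ t2 _ t4 _ t3, he _ hKt hSt _ t2 _ t3 _ t1]
  have q4 : e ⟨a, d⟩ ⟨a, c⟩ = e ⟨a, d⟩ ⟨a', d'⟩ + e ⟨a', d'⟩ ⟨a', c'⟩ + e ⟨a', c'⟩ ⟨a, c⟩ := by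
    rw [he _ hKl hSl _ l2 _ l4 _ l3, he _ hKl hSl _ l2 _ l3 _ l1]
  have s1 : e ⟨b, c⟩ ⟨b', c'⟩ = - e ⟨b', c'⟩ ⟨b, c⟩ := swap he _ hKb hSb _ b4 _ b2
  have s2 : e ⟨b, d⟩ ⟨b', d'⟩ = - e ⟨b', d'⟩ ⟨b, d⟩ := swap he _ hKr hSr _ r4 _ r2
  have s3 : e ⟨a, d⟩ ⟨a', d'⟩ = - e ⟨a', d'⟩ ⟨a, d⟩ := swap he _ hKt hSt _ t3 _ t1
  have s4 : e ⟨a', c'⟩ ⟨a, c⟩ = - e ⟨a, c⟩ ⟨a', c'⟩ := swap he _ hKl hSl _ l1 _ l3
  rw [bd, bd, q1, q2, q3, q4, s1, s2, s3, s4]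
  abel

/-- One point: independence of the rectangle. -/
lemma one_pt (p : ℂ) (a b c d a' b' c' d' : ℝ) (ha : a < p.re) (ha' : a' < p.re) (hb' : p.re < b')
    (hb : p.re < b) (hc : c < p.im) (hc' : c' < p.im) (hd' : p.im < d') (hd : p.im < d)
    (hS : ∀ s ∈ S, s ∈ box (Set.Icc a b) (Set.Icc c d) → s = p)
    (hS' : ∀ s ∈ S, s ∈ box (Set.Icc a' b') (Set.Icc c' d') → s = p) :
    bd e a b c d = bd e a' b' c' d' := by
  rw [shrink he p a b c d (max a a') (min b b') (max c c') (min d d') (le_max_left _ _)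
      (max_lt ha ha') (lt_min hb hb') (min_le_left _ _) (le_max_left _ _) (max_lt hc hc')
      (lt_min hd hd') (min_le_left _ _) hS,
    shrink he p a' b' c' d' (max a a') (min b b') (max c c') (min d d') (le_max_right _ _)
      (max_lt ha ha') (lt_min hb hb') (min_le_right _ _) (le_max_right _ _) (max_lt hc hc')
      (lt_min hd hd') (min_le_right _ _) hS']

/-- The residue theorem for rectangles. -/
theorem rect (ρ : ℝ) (hρ : 0 < ρ)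
    (hsep : ∀ s ∈ S, ∀ t ∈ S, t ∈ box (Set.Icc (s.re - ρ) (s.re + ρ)) (Set.Icc (s.im - ρ) (s.im + ρ)) →
      t = s) (n : ℕ) : ∀ a b c d : ℝ, a ≤ b → c ≤ d → (∀ s ∈ S, s.re ≠ a) → (∀ s ∈ S, s.re ≠ b) →
    (∀ s ∈ S, s.im ≠ c) → (∀ s ∈ S, s.im ≠ d) →
    ∀ T : Finset ℂ, (∀ s, s ∈ T ↔ s ∈ S ∧ s ∈ box (Set.Icc a b) (Set.Icc c d)) → T.card = n →
    bd e a b c d = ∑ s ∈ T, bd e (s.re - ρ) (s.re + ρ) (s.im - ρ) (s.im + ρ) := by
  induction n using Nat.strong_induction_on with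
  | _ n ih =>
    intro a b c d hab hcd h1 h2 h3 h4 T hT hn
    rcases Nat.lt_or_ge n 2 with hn2 | hn2
    · interval_cases n
      · rw [Finset.card_eq_zero] at hn
        subst hn
        rw [Finset.sum_empty]
        refine bd_zero he a b c d hab hcd ?_
        intro s hs h
        have := (hT s).2 ⟨hs, h⟩
        simp at this
      · obtain ⟨p, rfl⟩ := Finset.card_eq_one.1 hn
        rw [Finset.sum_singleton]
        have hp := (hT p).1 (Finset.mem_singleton_self p)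
        have hp1 := h1 p hp.1
        have hp2 := h2 p hp.1
        have hp3 := h3 p hp.1
        have hp4 := h4 p hp.1
        refine one_pt he p _ _ _ _ _ _ _ _ (lt_of_le_of_ne hp.2.1.1 hp1.symm) (by linarith)
          (by linarith) (lt_of_le_of_ne hp.2.1.2 hp2) (lt_of_le_of_ne hp.2.2.1 hp3.symm)
          (by linarith) (by linarith) (lt_of_le_of_ne hp.2.2.2 hp4) ?_ ?_
        · intro s hs h
          exact Finset.mem_singleton.1 ((hT s).2 ⟨hs, h⟩)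
        · intro s hs h
          exact hsep p hp.1 s hs h
    · obtain ⟨p, hp, q, hq, hpq⟩ := Finset.one_lt_card.1 (by omega : 1 < T.card)
      have hfin : ∀ f : ℂ → ℝ, ∀ u v : ℝ, u < v → ∃ m, u < m ∧ m < v ∧ ∀ s ∈ S, f s ≠ m := by
        intro f u v huv
        obtain ⟨m, hm1, hm2⟩ := (Set.Ioo_infinite huv).exists_notMem_finset (S.image f)
        refine ⟨m, hm1.1, hm1.2, fun s hs h => hm2 ?_⟩
        rw [← h]
        exact Finset.mem_image_of_mem _ hs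
      classical
      -- vertical cut
      have vert : ∀ p q : ℂ, p ∈ T → q ∈ T → p.re < q.re →
          bd e a b c d = ∑ s ∈ T, bd e (s.re - ρ) (s.re + ρ) (s.im - ρ) (s.im + ρ) := by
        intro p q hp hq hlt
        obtain ⟨m, hm1, hm2, hm⟩ := hfin Complex.re _ _ hlt
        have bp := ((hT p).1 hp).2
        have bq := ((hT q).1 hq).2
        have ham : a ≤ m := bp.1.1.trans hm1.le
        have hmb : m ≤ b := hm2.le.trans bq.1.2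
        rw [bd_cut_re he a b c d m ham hmb hcd h3 h4 hm]
        have c1 : (T.filter (fun s => s.re < m)).card < n := by
          rw [← hn]
          refine Finset.card_lt_card ((Finset.filter_ssubset).2 ⟨q, hq, ?_⟩)
          exact not_lt.2 hm2.le
        have c2 : (T.filter (fun s => ¬ s.re < m)).card < n := by
          rw [← hn]
          refine Finset.card_lt_card ((Finset.filter_ssubset).2 ⟨p, hp, ?_⟩)
          exact not_not.2 hm1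
        rw [ih _ c1 a m c d ham hcd h1 hm h3 h4 (T.filter (fun s => s.re < m)) ?_ rfl,
          ih _ c2 m b c d hmb hcd hm h2 h3 h4 (T.filter (fun s => ¬ s.re < m)) ?_ rfl,
          Finset.sum_filter_add_sum_filter_not]
        · intro s
          rw [Finset.mem_filter, hT]
          constructor
          · rintro ⟨⟨hs, hb⟩, hlt⟩
            exact ⟨hs, ⟨(not_lt.1 hlt), hb.1.2⟩, hb.2⟩
          · rintro ⟨hs, hb⟩
            exact ⟨⟨hs, ⟨ham.trans hb.1.1, hb.1.2⟩, hb.2⟩, not_lt.2 hb.1.1⟩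
        · intro s
          rw [Finset.mem_filter, hT]
          constructor
          · rintro ⟨⟨hs, hb⟩, hlt⟩
            exact ⟨hs, ⟨hb.1.1, hlt.le⟩, hb.2⟩
          · rintro ⟨hs, hb⟩
            exact ⟨⟨hs, ⟨hb.1.1, hb.1.2.trans hmb⟩, hb.2⟩, lt_of_le_of_ne hb.1.2 (hm s hs)⟩
      have hori : ∀ p q : ℂ, p ∈ T → q ∈ T → p.im < q.im →
          bd e a b c d = ∑ s ∈ T, bd e (s.re - ρ) (s.re + ρ) (s.im - ρ) (s.im + ρ) := by
        intro p q hp hq hlt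
        obtain ⟨m, hm1, hm2, hm⟩ := hfin Complex.im _ _ hlt
        have bp := ((hT p).1 hp).2
        have bq := ((hT q).1 hq).2
        have ham : c ≤ m := bp.2.1.trans hm1.le
        have hmb : m ≤ d := hm2.le.trans bq.2.2
        rw [bd_cut_im he a b c d m ham hmb hab h1 h2 hm]
        have c1 : (T.filter (fun s => s.im < m)).card < n := by
          rw [← hn]
          refine Finset.card_lt_card ((Finset.filter_ssubset).2 ⟨q, hq, ?_⟩)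
          exact not_lt.2 hm2.le
        have c2 : (T.filter (fun s => ¬ s.im < m)).card < n := by
          rw [← hn]
          refine Finset.card_lt_card ((Finset.filter_ssubset).2 ⟨p, hp, ?_⟩)
          exact not_not.2 hm1
        rw [ih _ c1 a b c m hab ham h1 h2 h3 hm (T.filter (fun s => s.im < m)) ?_ rfl,
          ih _ c2 a b m d hab hmb h1 h2 hm h4 (T.filter (fun s => ¬ s.im < m)) ?_ rfl,
          Finset.sum_filter_add_sum_filter_not]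
        · intro s
          rw [Finset.mem_filter, hT]
          constructor
          · rintro ⟨⟨hs, hb⟩, hlt⟩
            exact ⟨hs, hb.1, ⟨(not_lt.1 hlt), hb.2.2⟩⟩
          · rintro ⟨hs, hb⟩
            exact ⟨⟨hs, hb.1, ⟨ham.trans hb.2.1, hb.2.2⟩⟩, not_lt.2 hb.2.1⟩
        · intro s
          rw [Finset.mem_filter, hT]
          constructor
          · rintro ⟨⟨hs, hb⟩, hlt⟩
            exact ⟨hs, hb.1, ⟨hb.2.1, hlt.le⟩⟩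
          · rintro ⟨hs, hb⟩
            exact ⟨⟨hs, hb.1, ⟨hb.2.1, hb.2.2.trans hmb⟩⟩, lt_of_le_of_ne hb.2.2 (hm s hs)⟩
      rcases lt_trichotomy p.re q.re with h | h | h
      · exact vert p q hp hq h
      · rcases lt_trichotomy p.im q.im with h' | h' | h'
        · exact hori p q hp hq h'
        · exact absurd (Complex.ext h h') hpq
        · exact hori q p hq hp h'
      · exact vert q p hq hp h

/-- The diamond is homologous to the square. -/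
lemma diamond (c : ℂ) (ρ : ℝ) (hρ : 0 < ρ) (hS : ∀ s ∈ S, ‖s - c‖ < ρ / 4 ∨ 2 * ρ < ‖s - c‖) :
    e (c + ρ) (c + ρ * Complex.I) + e (c + ρ * Complex.I) (c - ρ) + e (c - ρ) (c - ρ * Complex.I) +
      e (c - ρ * Complex.I) (c + ρ) = bd e (c.re - ρ) (c.re + ρ) (c.im - ρ) (c.im + ρ) := by
  -- half planes at distance
  have hK : ∀ α β : ℝ, |α| ≤ 1 → |β| ≤ 1 → ∀ s ∈ S,
      s ∉ {z : ℂ | ρ ≤ α * (z - c).re + β * (z - c).im ∧ ‖z - c‖ ≤ 2 * ρ} := by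
    intro α β hα hβ s hs h
    rcases hS s hs with h1 | h1
    · have h2 : |(s - c).re| ≤ ‖s - c‖ := Complex.abs_re_le_norm _
      have h3 : |(s - c).im| ≤ ‖s - c‖ := Complex.abs_im_le_norm _
      have h4 : α * (s - c).re ≤ |(s - c).re| := by
        calc α * (s - c).re ≤ |α * (s - c).re| := le_abs_self _
          _ = |α| * |(s - c).re| := abs_mul _ _
          _ ≤ 1 * |(s - c).re| := mul_le_mul_of_nonneg_right hα (abs_nonneg _)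
          _ = _ := one_mul _
      have h5 : β * (s - c).im ≤ |(s - c).im| := by
        calc β * (s - c).im ≤ |β * (s - c).im| := le_abs_self _
          _ = |β| * |(s - c).im| := abs_mul _ _
          _ ≤ 1 * |(s - c).im| := mul_le_mul_of_nonneg_right hβ (abs_nonneg _)
          _ = _ := one_mul _
      have := h.1
      linarith
    · exact absurd h.2 (not_le.2 h1)
  have hC : ∀ α β : ℝ, Convex ℝ {z : ℂ | ρ ≤ α * (z - c).re + β * (z - c).im ∧ ‖z - c‖ ≤ 2 * ρ} := by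
    intro α β
    have h1 : Convex ℝ {z : ℂ | ρ ≤ α * (z - c).re + β * (z - c).im} := by
      intro x hx y hy a b ha hb hab
      simp only [Set.mem_setOf_eq, Complex.sub_re, Complex.sub_im] at hx hy ⊢
      have e1 : (a • x + b • y).re = a * x.re + b * y.re := by simp
      have e2 : (a • x + b • y).im = a * x.im + b * y.im := by simp
      rw [e1, e2]
      have : b = 1 - a := by linarith
      subst this
      nlinarith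
    have h2 : Convex ℝ {z : ℂ | ‖z - c‖ ≤ 2 * ρ} := by
      have : {z : ℂ | ‖z - c‖ ≤ 2 * ρ} = Metric.closedBall c (2 * ρ) := by
        ext z; simp [dist_eq_norm]
      rw [this]
      exact convex_closedBall _ _
    exact h1.inter h2
  have hm : ∀ α β : ℝ, ∀ u v : ℝ, |u| ≤ 1 → |v| ≤ 1 → 1 ≤ α * u + β * v →
      (⟨c.re + ρ * u, c.im + ρ * v⟩ : ℂ) ∈
        {z : ℂ | ρ ≤ α * (z - c).re + β * (z - c).im ∧ ‖z - c‖ ≤ 2 * ρ} := by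
    intro α β u v hu hv huv
    refine ⟨?_, ?_⟩
    · show ρ ≤ α * (c.re + ρ * u - c.re) + β * (c.im + ρ * v - c.im)
      have : α * (c.re + ρ * u - c.re) + β * (c.im + ρ * v - c.im) = ρ * (α * u + β * v) := by ring
      rw [this]
      nlinarith
    · refine (Complex.norm_le_abs_re_add_abs_im _).trans ?_
      show |c.re + ρ * u - c.re| + |c.im + ρ * v - c.im| ≤ 2 * ρ
      rw [add_sub_cancel_left, add_sub_cancel_left, abs_mul, abs_mul, abs_of_pos hρ]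
      nlinarith
  have p0 : (c + ρ : ℂ) = ⟨c.re + ρ * 1, c.im + ρ * 0⟩ := by apply Complex.ext <;> simp
  have p1 : (c + ρ * Complex.I : ℂ) = ⟨c.re + ρ * 0, c.im + ρ * 1⟩ := by apply Complex.ext <;> simp
  have p2 : (c - ρ : ℂ) = ⟨c.re + ρ * (-1), c.im + ρ * 0⟩ := by
    apply Complex.ext <;> simp [sub_eq_add_neg]
  have p3 : (c - ρ * Complex.I : ℂ) = ⟨c.re + ρ * 0, c.im + ρ * (-1)⟩ := by
    apply Complex.ext <;> simp [sub_eq_add_neg]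
  have x1 : c.re - ρ = c.re + ρ * (-1) := by ring
  have x2 : c.re + ρ = c.re + ρ * 1 := by ring
  have x3 : c.im - ρ = c.im + ρ * (-1) := by ring
  have x4 : c.im + ρ = c.im + ρ * 1 := by ring
  have key : ∀ α β : ℝ, |α| ≤ 1 → |β| ≤ 1 → ∀ u v u' v' u'' v'' : ℝ, |u| ≤ 1 → |v| ≤ 1 →
      |u'| ≤ 1 → |v'| ≤ 1 → |u''| ≤ 1 → |v''| ≤ 1 →
      1 ≤ α * u + β * v → 1 ≤ α * u' + β * v' → 1 ≤ α * u'' + β * v'' →
      e ⟨c.re + ρ * u, c.im + ρ * v⟩ ⟨c.re + ρ * u', c.im + ρ * v'⟩ +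
        e ⟨c.re + ρ * u', c.im + ρ * v'⟩ ⟨c.re + ρ * u'', c.im + ρ * v''⟩ =
        e ⟨c.re + ρ * u, c.im + ρ * v⟩ ⟨c.re + ρ * u'', c.im + ρ * v''⟩ := by
    intro α β hα hβ u v u' v' u'' v'' h1 h2 h3 h4 h5 h6 h7 h8 h9
    exact he _ (hC α β) (hK α β hα hβ) _ (hm α β u v h1 h2 h7) _ (hm α β u' v' h3 h4 h8) _
      (hm α β u'' v'' h5 h6 h9)
  have n0 : |(0 : ℝ)| ≤ 1 := by simp
  have n1 : |(1 : ℝ)| ≤ 1 := by simp
  have n2 : |(-1 : ℝ)| ≤ 1 := by simp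
  rw [bd, x1, x2, x3, x4, p0, p1, p2, p3]
  -- sides through the mid points
  rw [← key 0 (-1) n0 n2 (-1) (-1) 0 (-1) 1 (-1) n2 n2 n0 n2 n1 n2 (by norm_num) (by norm_num) (by norm_num),
    ← key 1 0 n1 n0 1 (-1) 1 0 1 1 n1 n2 n1 n0 n1 n1 (by norm_num) (by norm_num) (by norm_num),
    ← key 0 1 n0 n1 1 1 0 1 (-1) 1 n1 n1 n0 n1 n2 n1 (by norm_num) (by norm_num) (by norm_num),
    ← key (-1) 0 n2 n0 (-1) 1 (-1) 0 (-1) (-1) n2 n1 n2 n0 n2 n2 (by norm_num) (by norm_num) (by norm_num),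
    ← key 1 1 n1 n1 1 0 1 1 0 1 n1 n0 n1 n1 n0 n1 (by norm_num) (by norm_num) (by norm_num),
    ← key (-1) 1 n2 n1 0 1 (-1) 1 (-1) 0 n0 n1 n2 n1 n2 n0 (by norm_num) (by norm_num) (by norm_num),
    ← key (-1) (-1) n2 n2 (-1) 0 (-1) (-1) 0 (-1) n2 n0 n2 n2 n0 n2 (by norm_num) (by norm_num) (by norm_num),
    ← key 1 (-1) n1 n2 0 (-1) 1 (-1) 1 0 n0 n2 n1 n2 n1 n0 (by norm_num) (by norm_num) (by norm_num)]
  abel

end

end TopBX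

end

end Pool.Agent.CMFn
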