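import Pool.Agent.CMFn.TopA
import Pool.Agent.CMFn.TopB

/-! Project CMFn, block T, module TopC: loops in the plane minus finitely many points. -/

namespace Pool.Agent.CMFn

open unitInterval

noncomputable section

/-- The plane minus a finite set. -/
abbrev Pl (S : Finset ℂ) : Type := {z : ℂ // z ∉ S}

variable {S : Finset ℂ} {Γ : Type} [CommGroup Γ] (A : Coc (Pl S) Γ)

namespace TopCX

/-- Straight homotopy. -/
def hF (p q : C(I, Pl S)) (h : ∀ s t : I, (1 - ((t : ℝ) : ℂ)) * (p s).1 + ((t : ℝ) : ℂ) * (q s).1 ∉ S) :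
    C(ℝ × ℝ, Pl S) :=
  ⟨fun z => ⟨_, h (Set.projIcc 0 1 zero_le_one z.1) (Set.projIcc 0 1 zero_le_one z.2)⟩, by
    refine Continuous.subtype_mk ?_ _
    have h1 : Continuous fun z : ℝ × ℝ => ((Set.projIcc 0 1 zero_le_one z.2 : I) : ℝ) :=
      continuous_subtype_val.comp (continuous_projIcc.comp continuous_snd)
    have h2 : Continuous fun z : ℝ × ℝ => (p (Set.projIcc 0 1 zero_le_one z.1)).1 :=
      continuous_subtype_val.comp (p.continuous.comp (continuous_projIcc.comp continuous_fst))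
    have h3 : Continuous fun z : ℝ × ℝ => (q (Set.projIcc 0 1 zero_le_one z.1)).1 :=
      continuous_subtype_val.comp (q.continuous.comp (continuous_projIcc.comp continuous_fst))
    exact (((continuous_const.sub (Complex.continuous_ofReal.comp h1)).mul h2).add
      ((Complex.continuous_ofReal.comp h1).mul h3))⟩

lemma hF_val (p q : C(I, Pl S)) (h) (s t : ℝ) : (hF p q h (s, t)).1 =
    (1 - (((Set.projIcc 0 1 zero_le_one t : I) : ℝ) : ℂ)) * (p (Set.projIcc 0 1 zero_le_one s)).1 +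
      (((Set.projIcc 0 1 zero_le_one t : I) : ℝ) : ℂ) * (q (Set.projIcc 0 1 zero_le_one s)).1 := rfl

lemma hF_bot (p q : C(I, Pl S)) (h) (s : I) : hF p q h ((s : ℝ), 0) = p s := by
  apply Subtype.ext
  rw [hF_val, Set.projIcc_left, Set.projIcc_val]
  simp

lemma hF_top (p q : C(I, Pl S)) (h) (s : I) : hF p q h ((s : ℝ), 1) = q s := by
  apply Subtype.ext
  rw [hF_val, Set.projIcc_right, Set.projIcc_val]
  simp

/-- Linearly homotopic paths. -/
lemma hom_lin {x y : Pl S} (p q : Path x y)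
    (h : ∀ s t : I, (1 - ((t : ℝ) : ℂ)) * (p s).1 + ((t : ℝ) : ℂ) * (q s).1 ∉ S) :
    A.a p = A.a q := by
  have h0 := A.square (hF p.toContinuousMap q.toContinuousMap h) p (Path.refl y) (Path.refl x) q
    (fun s => hF_bot _ _ _ s) (fun s => hF_top _ _ _ s) ?_ ?_
  · rw [A.refl, A.refl, mul_one, one_mul] at h0
    exact h0
  · intro s
    apply Subtype.ext
    rw [hF_val, Set.projIcc_left]
    show (1 - _) * (p 0).1 + _ * (q 0).1 = x.1
    rw [p.source, q.source]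
    ring
  · intro s
    apply Subtype.ext
    rw [hF_val, Set.projIcc_right]
    show (1 - _) * (p 1).1 + _ * (q 1).1 = y.1
    rw [p.target, q.target]
    ring

/-- Linearly homotopic loops. -/
lemma free_lin {x y : Pl S} (p : Path x x) (q : Path y y)
    (h : ∀ s t : I, (1 - ((t : ℝ) : ℂ)) * (p s).1 + ((t : ℝ) : ℂ) * (q s).1 ∉ S) :
    A.a p = A.a q := by
  refine A.free (hF p.toContinuousMap q.toContinuousMap h) p q
    (fun s => hF_bot _ _ _ s) (fun s => hF_top _ _ _ s) ?_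
  intro s
  apply Subtype.ext
  rw [hF_val, hF_val, Set.projIcc_left, Set.projIcc_right]
  show (1 - _) * (p 0).1 + _ * (q 0).1 = (1 - _) * (p 1).1 + _ * (q 1).1
  rw [p.source, q.source, p.target, q.target]

/-- The segment from `x` to `y`. -/
def sg (x y : ℂ) (h : ∀ t : I, x + ((t : ℝ) : ℂ) * (y - x) ∉ S) :
    Path (⟨x, by have := h 0; simpa using this⟩ : Pl S) ⟨y, by have := h 1; simpa using this⟩ where
  toFun t := ⟨x + ((t : ℝ) : ℂ) * (y - x), h t⟩
  continuous_toFun := by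
    refine Continuous.subtype_mk ?_ _
    exact continuous_const.add ((Complex.continuous_ofReal.comp continuous_subtype_val).mul
      continuous_const)
  source' := by
    apply Subtype.ext
    show x + (((0 : I) : ℝ) : ℂ) * (y - x) = x
    simp
  target' := by
    apply Subtype.ext
    show x + (((1 : I) : ℝ) : ℂ) * (y - x) = y
    simp

lemma sg_val (x y : ℂ) (h : ∀ t : I, x + ((t : ℝ) : ℂ) * (y - x) ∉ S) (t : I) :
    (sg x y h t).1 = x + ((t : ℝ) : ℂ) * (y - x) := rfl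

open Classical in
/-- The value of a segment. -/
def ev (x y : ℂ) : Additive Γ :=
  if h : ∀ t : I, x + ((t : ℝ) : ℂ) * (y - x) ∉ S then Additive.ofMul (A.a (sg x y h)) else 0

lemma ev_eq (x y : ℂ) (h : ∀ t : I, x + ((t : ℝ) : ℂ) * (y - x) ∉ S) :
    ev A x y = Additive.ofMul (A.a (sg x y h)) := by
  rw [ev, dif_pos h]

lemma comb_mem {K : Set ℂ} (hK : Convex ℝ K) {x y : ℂ} (hx : x ∈ K) (hy : y ∈ K) (t : I) :
    (1 - ((t : ℝ) : ℂ)) * x + ((t : ℝ) : ℂ) * y ∈ K := by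
  have h := hK hx hy (by linarith [t.2.2] : (0 : ℝ) ≤ 1 - t) t.2.1 (by ring)
  have e : (1 - (t : ℝ)) • x + (t : ℝ) • y =
      (1 - ((t : ℝ) : ℂ)) * x + ((t : ℝ) : ℂ) * y := by
    rw [Complex.real_smul, Complex.real_smul]
    push_cast
    ring
  rw [← e]
  exact h

lemma seg_mem {K : Set ℂ} (hK : Convex ℝ K) {x y : ℂ} (hx : x ∈ K) (hy : y ∈ K) (t : I) :
    x + ((t : ℝ) : ℂ) * (y - x) ∈ K := by
  have := comb_mem hK hx hy t
  have e : x + ((t : ℝ) : ℂ) * (y - x) = (1 - ((t : ℝ) : ℂ)) * x + ((t : ℝ) : ℂ) * y := by ring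
  rw [e]
  exact this

theorem isAdd : TopBX.IsAdd S (ev A) := by
  intro K hK hS x hx y hy z hz
  have hxy : ∀ t : I, x + ((t : ℝ) : ℂ) * (y - x) ∉ S := fun t ht => hS _ ht (seg_mem hK hx hy t)
  have hyz : ∀ t : I, y + ((t : ℝ) : ℂ) * (z - y) ∉ S := fun t ht => hS _ ht (seg_mem hK hy hz t)
  have hxz : ∀ t : I, x + ((t : ℝ) : ℂ) * (z - x) ∉ S := fun t ht => hS _ ht (seg_mem hK hx hz t)
  rw [ev_eq A x y hxy, ev_eq A y z hyz, ev_eq A x z hxz, ← ofMul_mul, ← A.trans]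
  congr 1
  refine hom_lin A _ _ ?_
  intro s t ht
  refine hS _ ht (comb_mem hK ?_ ?_ t)
  · rw [Path.trans_apply]
    split_ifs with h
    · exact seg_mem hK hx hy _
    · exact seg_mem hK hy hz _
  · exact seg_mem hK hx hz s

/-- The circle. -/
def circ (c : ℂ) (ρ : ℝ) (h : ∀ t : I, c + ρ * Complex.exp (2 * Real.pi * Complex.I * (t : ℝ)) ∉ S) :
    Path (⟨c + ρ, by have := h 0; simpa using this⟩ : Pl S)
      ⟨c + ρ, by have := h 0; simpa using this⟩ where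
  toFun t := ⟨c + ρ * Complex.exp (2 * Real.pi * Complex.I * (t : ℝ)), h t⟩
  continuous_toFun := by
    refine Continuous.subtype_mk ?_ _
    exact continuous_const.add (continuous_const.mul (Complex.continuous_exp.comp
      (continuous_const.mul (Complex.continuous_ofReal.comp continuous_subtype_val))))
  source' := by
    apply Subtype.ext
    show c + ρ * Complex.exp (2 * Real.pi * Complex.I * (((0 : I) : ℝ) : ℂ)) = c + ρ
    simp
  target' := by
    apply Subtype.ext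
    show c + ρ * Complex.exp (2 * Real.pi * Complex.I * (((1 : I) : ℝ) : ℂ)) = c + ρ
    simp [Complex.exp_two_pi_mul_I]

lemma circ_val (c : ℂ) (ρ : ℝ) (h) (t : I) : (circ (S := S) c ρ h t).1 =
    c + ρ * Complex.exp (2 * Real.pi * Complex.I * (t : ℝ)) := rfl

/-- The quadrant at distance. -/
def Q (c : ℂ) (ρ α β : ℝ) : Set ℂ :=
  {z : ℂ | ρ ≤ α * (z - c).re + β * (z - c).im ∧ ‖z - c‖ ≤ 2 * ρ}

lemma Q_convex (c : ℂ) (ρ α β : ℝ) : Convex ℝ (Q c ρ α β) := by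
  have h1 : Convex ℝ {z : ℂ | ρ ≤ α * (z - c).re + β * (z - c).im} := by
    intro x hx y hy a b ha hb hab
    simp only [Set.mem_ofPred_eq, Complex.sub_re, Complex.sub_im] at hx hy ⊢
    have e1 : (a • x + b • y).re = a * x.re + b * y.re := by simp
    have e2 : (a • x + b • y).im = a * x.im + b * y.im := by simp
    rw [e1, e2]
    have : b = 1 - a := by linarith
    subst this
    nlinarith
  have h2 : Convex ℝ {z : ℂ | ‖z - c‖ ≤ 2 * ρ} := by
    have : {z : ℂ | ‖z - c‖ ≤ 2 * ρ} = Metric.closedBall c (2 * ρ) := by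
      ext z; simp [dist_eq_norm]
    rw [this]
    exact convex_closedBall _ _
  exact h1.inter h2

lemma Q_free (c : ℂ) (ρ : ℝ) (hρ : 0 < ρ) (hS : ∀ s ∈ S, ‖s - c‖ < ρ / 4 ∨ 2 * ρ < ‖s - c‖)
    (α β : ℝ) (hα : |α| ≤ 1) (hβ : |β| ≤ 1) : ∀ s ∈ S, s ∉ Q c ρ α β := by
  intro s hs h
  rcases hS s hs with h1 | h1
  · have h2 : |(s - c).re| ≤ ‖s - c‖ := Complex.abs_re_le_norm _
    have h3 : |(s - c).im| ≤ ‖s - c‖ := Complex.abs_im_le_norm _
    have h4 : α * (s - c).re ≤ |(s - c).re| := by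
      calc α * (s - c).re ≤ |α * (s - c).re| := le_abs_self _
        _ = |α| * |(s - c).re| := abs_mul _ _
        _ ≤ 1 * |(s - c).re| := mul_le_mul_of_nonneg_right hα (abs_nonneg _)
        _ = _ := one_mul _
    have h5 : β * (s - c).im ≤ |(s - c).im| := by
      calc β * (s - c).im ≤ |β * (s - c).im| := le_abs_self _
        _ = |β| * |(s - c).im| := abs_mul _ _
        _ ≤ 1 * |(s - c).im| := mul_le_mul_of_nonneg_right hβ (abs_nonneg _)
        _ = _ := one_mul _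
    have := h.1
    linarith
  · exact absurd h.2 (not_le.2 h1)

lemma Q_mem (c : ℂ) (ρ : ℝ) (hρ : 0 < ρ) (α β u v : ℝ) (hu : |u| ≤ 1) (hv : |v| ≤ 1)
    (huv : 1 ≤ α * u + β * v) : c + ρ * (u + v * Complex.I) ∈ Q c ρ α β := by
  have h1 : (c + ρ * (u + v * Complex.I) - c : ℂ) = ⟨ρ * u, ρ * v⟩ := by
    rw [add_sub_cancel_left]
    apply Complex.ext <;> simp
  refine ⟨?_, ?_⟩
  · rw [h1]
    show ρ ≤ α * (ρ * u) + β * (ρ * v)
    have : α * (ρ * u) + β * (ρ * v) = ρ * (α * u + β * v) := by ring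
    rw [this]
    nlinarith
  · refine (Complex.norm_le_abs_re_add_abs_im _).trans ?_
    rw [h1]
    show |ρ * u| + |ρ * v| ≤ 2 * ρ
    rw [abs_mul, abs_mul, abs_of_pos hρ]
    nlinarith

/-- The circle is the diamond. -/
theorem circ_diamond (c : ℂ) (ρ : ℝ) (hρ : 0 < ρ)
    (hS : ∀ s ∈ S, ‖s - c‖ < ρ / 4 ∨ 2 * ρ < ‖s - c‖)
    (h : ∀ t : I, c + ρ * Complex.exp (2 * Real.pi * Complex.I * (t : ℝ)) ∉ S) :
    Additive.ofMul (A.a (circ c ρ h)) = ev A (c + ρ) (c + ρ * Complex.I) +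
      ev A (c + ρ * Complex.I) (c - ρ) + ev A (c - ρ) (c - ρ * Complex.I) +
      ev A (c - ρ * Complex.I) (c + ρ) := by
  have p0 : (c + ρ : ℂ) = c + ρ * (((1 : ℝ) : ℂ) + ((0 : ℝ) : ℂ) * Complex.I) := by simp
  have p1 : (c + ρ * Complex.I : ℂ) = c + ρ * (((0 : ℝ) : ℂ) + ((1 : ℝ) : ℂ) * Complex.I) := by simp
  have p2 : (c - ρ : ℂ) = c + ρ * (((-1 : ℝ) : ℂ) + ((0 : ℝ) : ℂ) * Complex.I) := by
    simp [sub_eq_add_neg]
  have p3 : (c - ρ * Complex.I : ℂ) = c + ρ * (((0 : ℝ) : ℂ) + ((-1 : ℝ) : ℂ) * Complex.I) := by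
    simp [sub_eq_add_neg]
  have n0 : |(0 : ℝ)| ≤ 1 := by simp
  have n1 : |(1 : ℝ)| ≤ 1 := by simp
  have n2 : |(-1 : ℝ)| ≤ 1 := by simp
  have m0 : (c + ρ : ℂ) ∈ Q c ρ 1 1 := by
    rw [p0]; exact Q_mem c ρ hρ 1 1 1 0 n1 n0 (by norm_num)
  have m0' : (c + ρ : ℂ) ∈ Q c ρ 1 (-1) := by
    rw [p0]; exact Q_mem c ρ hρ 1 (-1) 1 0 n1 n0 (by norm_num)
  have m1 : (c + ρ * Complex.I : ℂ) ∈ Q c ρ 1 1 := by
    rw [p1]; exact Q_mem c ρ hρ 1 1 0 1 n0 n1 (by norm_num)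
  have m1' : (c + ρ * Complex.I : ℂ) ∈ Q c ρ (-1) 1 := by
    rw [p1]; exact Q_mem c ρ hρ (-1) 1 0 1 n0 n1 (by norm_num)
  have m2 : (c - ρ : ℂ) ∈ Q c ρ (-1) 1 := by
    rw [p2]; exact Q_mem c ρ hρ (-1) 1 (-1) 0 n2 n0 (by norm_num)
  have m2' : (c - ρ : ℂ) ∈ Q c ρ (-1) (-1) := by
    rw [p2]; exact Q_mem c ρ hρ (-1) (-1) (-1) 0 n2 n0 (by norm_num)
  have m3 : (c - ρ * Complex.I : ℂ) ∈ Q c ρ (-1) (-1) := by
    rw [p3]; exact Q_mem c ρ hρ (-1) (-1) 0 (-1) n0 n2 (by norm_num)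
  have m3' : (c - ρ * Complex.I : ℂ) ∈ Q c ρ 1 (-1) := by
    rw [p3]; exact Q_mem c ρ hρ 1 (-1) 0 (-1) n0 n2 (by norm_num)
  have f : ∀ α β : ℝ, |α| ≤ 1 → |β| ≤ 1 → ∀ s ∈ S, s ∉ Q c ρ α β := Q_free c ρ hρ hS
  have g01 : ∀ t : I, (c + ρ : ℂ) + ((t : ℝ) : ℂ) * ((c + ρ * Complex.I) - (c + ρ)) ∉ S :=
    fun t ht => f 1 1 n1 n1 _ ht (seg_mem (Q_convex _ _ _ _) m0 m1 t)
  have g12 : ∀ t : I, (c + ρ * Complex.I : ℂ) + ((t : ℝ) : ℂ) * ((c - ρ) - (c + ρ * Complex.I)) ∉ S :=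
    fun t ht => f (-1) 1 n2 n1 _ ht (seg_mem (Q_convex _ _ _ _) m1' m2 t)
  have g23 : ∀ t : I, (c - ρ : ℂ) + ((t : ℝ) : ℂ) * ((c - ρ * Complex.I) - (c - ρ)) ∉ S :=
    fun t ht => f (-1) (-1) n2 n2 _ ht (seg_mem (Q_convex _ _ _ _) m2' m3 t)
  have g30 : ∀ t : I, (c - ρ * Complex.I : ℂ) + ((t : ℝ) : ℂ) * ((c + ρ) - (c - ρ * Complex.I)) ∉ S :=
    fun t ht => f 1 (-1) n1 n2 _ ht (seg_mem (Q_convex _ _ _ _) m3' m0' t)
  rw [ev_eq A _ _ g01, ev_eq A _ _ g12, ev_eq A _ _ g23, ev_eq A _ _ g30, ← ofMul_mul, ← A.trans,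
    ← ofMul_mul, ← A.trans, ← ofMul_mul, ← A.trans]
  congr 1
  have hass : A.a ((((sg _ _ g01).trans (sg _ _ g12)).trans (sg _ _ g23)).trans (sg _ _ g30)) =
      A.a (((sg _ _ g01).trans (sg _ _ g12)).trans ((sg _ _ g23).trans (sg _ _ g30))) := by
    simp only [A.trans, mul_assoc]
  rw [hass]
  refine hom_lin A _ _ ?_
  intro s t ht
  -- the circle and the diamond lie in a common quadrant
  have hC : ∀ α β : ℝ, |α| = 1 → |β| = 1 →
      0 ≤ α * Real.cos (2 * Real.pi * s) → 0 ≤ β * Real.sin (2 * Real.pi * s) →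
      (circ c ρ h s).1 ∈ Q c ρ α β := by
    intro α β hα hβ h1 h2
    have e1 : (circ c ρ h s).1 = c + ρ * (((Real.cos (2 * Real.pi * s) : ℝ) : ℂ) +
        ((Real.sin (2 * Real.pi * s) : ℝ) : ℂ) * Complex.I) := by
      rw [circ_val]
      congr 2
      have : (2 * Real.pi * Complex.I * ((s : ℝ) : ℂ) : ℂ) =
          ((2 * Real.pi * (s : ℝ) : ℝ) : ℂ) * Complex.I := by
        push_cast; ring
      rw [this, Complex.exp_mul_I, Complex.ofReal_cos, Complex.ofReal_sin]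
    rw [e1]
    refine Q_mem c ρ hρ α β _ _ (Real.abs_cos_le_one _) (Real.abs_sin_le_one _) ?_
    have h3 := Real.sin_sq_add_cos_sq (2 * Real.pi * s)
    have h4 : α ^ 2 = 1 := by rw [← sq_abs, hα]; norm_num
    have h5 : β ^ 2 = 1 := by rw [← sq_abs, hβ]; norm_num
    by_contra hlt
    rw [not_le] at hlt
    have h6 : (α * Real.cos (2 * Real.pi * s) + β * Real.sin (2 * Real.pi * s)) ^ 2 < 1 := by
      nlinarith
    have h7 : (α * Real.cos (2 * Real.pi * s) + β * Real.sin (2 * Real.pi * s)) ^ 2 =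
        α ^ 2 * Real.cos (2 * Real.pi * s) ^ 2 + β ^ 2 * Real.sin (2 * Real.pi * s) ^ 2 +
        2 * ((α * Real.cos (2 * Real.pi * s)) * (β * Real.sin (2 * Real.pi * s))) := by ring
    rw [h7, h4, h5] at h6
    nlinarith [mul_nonneg h1 h2]
  have hpi := Real.pi_pos
  have a1 : |(1 : ℝ)| = 1 := by simp
  have a2 : |(-1 : ℝ)| = 1 := by simp
  have hs0 := s.2.1
  have hs1 := s.2.2
  by_cases c1 : (s : ℝ) ≤ 1 / 2
  · by_cases c2 : (s : ℝ) ≤ 1 / 4
    · refine f 1 1 n1 n1 _ ht (comb_mem (Q_convex _ _ _ _) (hC 1 1 a1 a1 ?_ ?_) ?_ t)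
      · rw [one_mul]
        exact Real.cos_nonneg_of_mem_Icc ⟨by nlinarith, by nlinarith⟩
      · rw [one_mul]
        exact Real.sin_nonneg_of_mem_Icc ⟨by positivity, by nlinarith⟩
      · rw [Path.trans_apply, dif_pos c1, Path.trans_apply, dif_pos (by show 2 * (s : ℝ) ≤ 1 / 2; linarith)]
        exact seg_mem (Q_convex _ _ _ _) m0 m1 _
    · rw [not_le] at c2
      refine f (-1) 1 n2 n1 _ ht (comb_mem (Q_convex _ _ _ _) (hC (-1) 1 a2 a1 ?_ ?_) ?_ t)
      · have := Real.cos_nonpos_of_pi_div_two_le_of_le (x := 2 * Real.pi * s) (by nlinarith)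
          (by nlinarith)
        linarith
      · rw [one_mul]
        exact Real.sin_nonneg_of_mem_Icc ⟨by positivity, by nlinarith⟩
      · rw [Path.trans_apply, dif_pos c1, Path.trans_apply,
          dif_neg (by show ¬ 2 * (s : ℝ) ≤ 1 / 2; linarith)]
        exact seg_mem (Q_convex _ _ _ _) m1' m2 _
  · rw [not_le] at c1
    by_cases c2 : (s : ℝ) ≤ 3 / 4
    · refine f (-1) (-1) n2 n2 _ ht (comb_mem (Q_convex _ _ _ _) (hC (-1) (-1) a2 a2 ?_ ?_) ?_ t)
      · have := Real.cos_nonpos_of_pi_div_two_le_of_le (x := 2 * Real.pi * s) (by nlinarith)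
          (by nlinarith)
        linarith
      · have := Real.sin_nonpos_of_nonpos_of_neg_pi_le (x := 2 * Real.pi * s - 2 * Real.pi)
          (by nlinarith) (by nlinarith)
        rw [Real.sin_sub_two_pi] at this
        linarith
      · rw [Path.trans_apply, dif_neg (not_le.2 c1), Path.trans_apply,
          dif_pos (by show 2 * (s : ℝ) - 1 ≤ 1 / 2; linarith)]
        exact seg_mem (Q_convex _ _ _ _) m2' m3 _
    · rw [not_le] at c2
      refine f 1 (-1) n1 n2 _ ht (comb_mem (Q_convex _ _ _ _) (hC 1 (-1) a1 a2 ?_ ?_) ?_ t)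
      · rw [one_mul, ← Real.cos_sub_two_pi]
        exact Real.cos_nonneg_of_mem_Icc ⟨by nlinarith, by nlinarith⟩
      · have := Real.sin_nonpos_of_nonpos_of_neg_pi_le (x := 2 * Real.pi * s - 2 * Real.pi)
          (by nlinarith) (by nlinarith)
        rw [Real.sin_sub_two_pi] at this
        linarith
      · rw [Path.trans_apply, dif_neg (not_le.2 c1), Path.trans_apply,
          dif_neg (by show ¬ 2 * (s : ℝ) - 1 ≤ 1 / 2; linarith)]
        exact seg_mem (Q_convex _ _ _ _) m3' m0' _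

/-- The circle is the square. -/
theorem circ_bd (c : ℂ) (ρ : ℝ) (hρ : 0 < ρ)
    (hS : ∀ s ∈ S, ‖s - c‖ < ρ / 4 ∨ 2 * ρ < ‖s - c‖)
    (h : ∀ t : I, c + ρ * Complex.exp (2 * Real.pi * Complex.I * (t : ℝ)) ∉ S) :
    Additive.ofMul (A.a (circ c ρ h)) =
      TopBX.bd (ev A) (c.re - ρ) (c.re + ρ) (c.im - ρ) (c.im + ρ) := by
  rw [circ_diamond A c ρ hρ hS h, TopBX.diamond (isAdd A) c ρ hρ hS]

end TopCX

open TopCX

/-- A large circle is the product of the small circles around the points. -/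
theorem planar (R : ℝ) (hR : 0 < R) (hS : ∀ s ∈ S, ‖s‖ < R / 4) (ρ : ℝ) (hρ : 0 < ρ)
    (hsep : ∀ s ∈ S, ∀ t ∈ S, t ≠ s → 2 * ρ < ‖t - s‖)
    (h : ∀ t : I, (0 : ℂ) + R * Complex.exp (2 * Real.pi * Complex.I * (t : ℝ)) ∉ S)
    (h' : ∀ s : {s // s ∈ S}, ∀ t : I,
      s.1 + ρ * Complex.exp (2 * Real.pi * Complex.I * (t : ℝ)) ∉ S) :
    A.a (circ 0 R h) = ∏ s : {s // s ∈ S}, A.a (circ s.1 ρ (h' s)) := by
  apply Additive.ofMul.injective
  rw [ofMul_prod]
  have h1 : ∀ s : {s // s ∈ S}, Additive.ofMul (A.a (circ s.1 ρ (h' s))) =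
      TopBX.bd (ev A) (s.1.re - ρ) (s.1.re + ρ) (s.1.im - ρ) (s.1.im + ρ) := by
    intro s
    refine circ_bd A s.1 ρ hρ ?_ (h' s)
    intro t ht
    by_cases hts : t = s.1
    · left
      rw [hts, sub_self, norm_zero]
      positivity
    · right
      exact hsep s.1 s.2 t ht hts
  rw [Finset.sum_congr rfl fun s _ => h1 s, circ_bd A 0 R hR (fun s hs => by
    left
    rw [sub_zero]
    exact hS s hs) h]
  have hre : ∀ s ∈ S, |s.re| < R / 4 := fun s hs => (Complex.abs_re_le_norm s).trans_lt (hS s hs)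
  have him : ∀ s ∈ S, |s.im| < R / 4 := fun s hs => (Complex.abs_im_le_norm s).trans_lt (hS s hs)
  rw [TopBX.rect (isAdd A) ρ hρ ?_ S.card _ _ _ _ ?_ ?_ ?_ ?_ ?_ ?_ S ?_ rfl]
  · rw [← Finset.sum_coe_sort]
  · intro s hs t ht hb
    by_contra hne
    have h2 := hsep s hs t ht hne
    have h3 := Complex.norm_le_abs_re_add_abs_im (t - s)
    have h4 : |(t - s).re| ≤ ρ := by
      rw [Complex.sub_re, abs_le]
      exact ⟨by linarith [hb.1.1], by linarith [hb.1.2]⟩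
    have h5 : |(t - s).im| ≤ ρ := by
      rw [Complex.sub_im, abs_le]
      exact ⟨by linarith [hb.2.1], by linarith [hb.2.2]⟩
    linarith
  · simp; linarith
  · simp; linarith
  · intro s hs h0
    have := hre s hs
    rw [h0] at this
    simp [abs_of_pos hR] at this
    linarith
  · intro s hs h0
    have := hre s hs
    rw [h0] at this
    simp [abs_of_pos hR] at this
    linarith
  · intro s hs h0
    have := him s hs
    rw [h0] at this
    simp [abs_of_pos hR] at this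
    linarith
  · intro s hs h0
    have := him s hs
    rw [h0] at this
    simp [abs_of_pos hR] at this
    linarith
  · intro s
    constructor
    · intro hs
      have h2 := abs_lt.1 (hre s hs)
      have h3 := abs_lt.1 (him s hs)
      refine ⟨hs, ⟨?_, ?_⟩, ⟨?_, ?_⟩⟩ <;> simp <;> linarith [h2.1, h2.2, h3.1, h3.2]
    · exact fun h => h.1

end

end Pool.Agent.CMFn
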