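import Pool.Agent.CMFn.TopC

/-! Project CMFn, block T, module TopD: the full twist is the product of the twists around the
reflecting hyperplanes, up to commutators. -/

namespace Pool.Agent.CMFn

open unitInterval Matrix

noncomputable section

variable {r : ℕ} {N : SG r} [Fintype N]

namespace TopDX

/-- The parameter of the intersection point of `H` with the line `p + z v`. -/
def zH (p v : Fin r → ℂ) (H : Arr N) : ℂ := -(lf H.1 ⬝ᵥ p) / (lf H.1 ⬝ᵥ v)

lemma arr_ext (H H' : Arr N) (h : ∀ v, lf H.1 ⬝ᵥ v = 0 ↔ lf H'.1 ⬝ᵥ v = 0) : H = H' := by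
  apply Subtype.ext
  ext v
  rw [(lf_spec H).2 v, (lf_spec H').2 v]
  exact h v

lemma exists_inj (v₀ : VReg N) : ∃ p : Fin r → ℂ, Function.Injective (zH (N := N) p v₀.1) := by
  have hv : ∀ H : Arr N, lf H.1 ⬝ᵥ v₀.1 ≠ 0 := (vreg_iff v₀.1).1 v₀.2
  let ι := {q : Arr N × Arr N // q.1 ≠ q.2}
  let f : ι → Module.Dual ℂ (Fin r → ℂ) := fun q =>
    { toFun := fun v => (lf q.1.1.1 ⬝ᵥ v) / (lf q.1.1.1 ⬝ᵥ v₀.1) -
        (lf q.1.2.1 ⬝ᵥ v) / (lf q.1.2.1 ⬝ᵥ v₀.1)
      map_add' := fun v w => by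
        rw [dotProduct_add, dotProduct_add]; ring
      map_smul' := fun c v => by
        rw [dotProduct_smul, dotProduct_smul, smul_eq_mul, smul_eq_mul, RingHom.id_apply, smul_eq_mul]
        ring }
  have hf : ∀ (q : ι) (v : Fin r → ℂ), f q v = (lf q.1.1.1 ⬝ᵥ v) / (lf q.1.1.1 ⬝ᵥ v₀.1) -
        (lf q.1.2.1 ⬝ᵥ v) / (lf q.1.2.1 ⬝ᵥ v₀.1) := fun q v => rfl
  have hfin : Finite ι := inferInstance
  obtain ⟨p, hp⟩ := Module.Dual.exists_forall_ne_zero_of_forall_exists f (by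
    intro q
    by_contra hcon
    have h0 : ∀ v, f q v = 0 := fun v => by
      by_contra h
      exact hcon ⟨v, h⟩
    apply q.2
    refine arr_ext _ _ fun v => ?_
    have h1 := h0 v
    rw [hf, sub_eq_zero, div_eq_div_iff (hv _) (hv _)] at h1
    constructor
    · intro h
      rw [h, zero_mul] at h1
      rcases mul_eq_zero.1 h1.symm with h2 | h2
      · exact h2
      · exact absurd h2 (hv _)
    · intro h
      rw [h, zero_mul] at h1
      rcases mul_eq_zero.1 h1 with h2 | h2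
      · exact h2
      · exact absurd h2 (hv _))
  refine ⟨p, fun H H' h => ?_⟩
  by_contra hne
  apply hp ⟨(H, H'), hne⟩
  rw [hf]
  unfold zH at h
  rw [neg_div, neg_div, neg_inj] at h
  rw [h, sub_self]

lemma zH_smul (δ : ℂ) (p v : Fin r → ℂ) (H : Arr N) : zH (δ • p) v H = δ * zH p v H := by
  unfold zH
  rw [dotProduct_smul, smul_eq_mul]
  ring

lemma exists_base (v₀ : VReg N) (ε : ℝ) (hε : 0 < ε) : ∃ p : Fin r → ℂ,
    (∀ H : Arr N, ‖zH p v₀.1 H‖ < ε) ∧ Function.Injective (zH (N := N) p v₀.1) := by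
  obtain ⟨p, hp⟩ := exists_inj v₀
  let C : ℝ := 1 + ∑ H : Arr N, ‖zH p v₀.1 H‖
  have hC : 0 < C := by
    have : 0 ≤ ∑ H : Arr N, ‖zH p v₀.1 H‖ := Finset.sum_nonneg fun _ _ => norm_nonneg _
    show 0 < 1 + _
    linarith
  have hb : ∀ H : Arr N, ‖zH p v₀.1 H‖ < C := by
    intro H
    have := Finset.single_le_sum (f := fun H : Arr N => ‖zH p v₀.1 H‖)
      (fun _ _ => norm_nonneg _) (Finset.mem_univ H)
    show _ < 1 + _
    have h2 : ‖zH p v₀.1 H‖ ≤ ∑ H : Arr N, ‖zH p v₀.1 H‖ := this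
    linarith
  have hd : ((ε / C : ℝ) : ℂ) ≠ 0 := by
    rw [Complex.ofReal_ne_zero]
    exact (div_pos hε hC).ne'
  refine ⟨((ε / C : ℝ) : ℂ) • p, fun H => ?_, fun H H' h => ?_⟩
  · rw [zH_smul, norm_mul, Complex.norm_real, Real.norm_eq_abs, abs_of_pos (div_pos hε hC),
      div_mul_eq_mul_div, div_lt_iff₀ hC]
    exact mul_lt_mul_of_pos_left (hb H) hε
  · rw [zH_smul, zH_smul] at h
    exact hp (mul_left_cancel₀ hd h)

lemma exists_lt (T : Finset ℝ) (hT : ∀ x ∈ T, 0 < x) : ∃ δ : ℝ, 0 < δ ∧ ∀ x ∈ T, δ < x := by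
  induction T using Finset.induction_on with
  | empty => exact ⟨1, one_pos, fun x hx => by simp at hx⟩
  | insert a T ha ih =>
    obtain ⟨δ, h1, h2⟩ := ih fun x hx => hT x (Finset.mem_insert_of_mem hx)
    have h3 := hT a (Finset.mem_insert_self a T)
    refine ⟨min δ (a / 2), lt_min h1 (by linarith), fun x hx => ?_⟩
    rcases Finset.mem_insert.1 hx with rfl | hx
    · exact (min_le_right _ _).trans_lt (by linarith)
    · exact (min_le_left _ _).trans_lt (h2 x hx)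

lemma exists_sep (S : Finset ℂ) : ∃ ρ : ℝ, 0 < ρ ∧ ∀ s ∈ S, ∀ t ∈ S, t ≠ s → 2 * ρ < ‖t - s‖ := by
  classical
  let F : ℂ × ℂ → ℝ := fun q => if q.2 = q.1 then (1 : ℝ) else ‖q.2 - q.1‖
  have hF : ∀ x ∈ (S ×ˢ S).image F, 0 < x := by
    intro x hx
    obtain ⟨q, _, rfl⟩ := Finset.mem_image.1 hx
    show 0 < if q.2 = q.1 then (1 : ℝ) else ‖q.2 - q.1‖
    split_ifs with h
    · exact one_pos
    · exact norm_pos_iff.2 (sub_ne_zero.2 h)
  obtain ⟨δ, h1, h2⟩ := exists_lt _ hF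
  refine ⟨δ / 2, by linarith, fun s hs t ht hne => ?_⟩
  have := h2 ‖t - s‖ (Finset.mem_image.2 ⟨(s, t), Finset.mem_product.2 ⟨hs, ht⟩, if_neg hne⟩)
  linarith

lemma lf_line (p v : Fin r → ℂ) (z : ℂ) (H : Arr N) (hv : lf H.1 ⬝ᵥ v ≠ 0) :
    lf H.1 ⬝ᵥ (p + z • v) = (lf H.1 ⬝ᵥ v) * (z - zH p v H) := by
  unfold zH
  rw [dotProduct_add, dotProduct_smul, smul_eq_mul]
  field_simp
  ring

lemma reg_line (p : Fin r → ℂ) (v₀ : VReg N) (z : ℂ) (h : ∀ H : Arr N, z ≠ zH p v₀.1 H) :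
    ∀ g ∈ N, IsRefl g → g.1 *ᵥ (p + z • v₀.1) ≠ p + z • v₀.1 := by
  rw [vreg_iff]
  intro H
  have hv : lf H.1 ⬝ᵥ v₀.1 ≠ 0 := (vreg_iff v₀.1).1 v₀.2 H
  rw [lf_line p v₀.1 z H hv]
  exact mul_ne_zero hv (sub_ne_zero.2 (h H))

/-- The line `z ↦ p + z v₀` in `V^reg`. -/
def line (p : Fin r → ℂ) (v₀ : VReg N) (S : Finset ℂ) (hS : ∀ H : Arr N, zH p v₀.1 H ∈ S) :
    C(Pl S, VReg N) where
  toFun z := ⟨p + z.1 • v₀.1, reg_line p v₀ z.1 fun H h => z.2 (h ▸ hS H)⟩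
  continuous_toFun := by
    refine Continuous.subtype_mk ?_ _
    exact continuous_const.add (continuous_subtype_val.smul continuous_const)

lemma isTw_zero (v₀ : VReg N) : IsTw 0 v₀ := by
  intro z hz _
  have h1 : (0 : Fin r → ℂ) + z • (v₀.1 - 0) = z • v₀.1 := by rw [sub_zero, zero_add]
  rw [h1]
  intro g hg hr h
  rw [Matrix.mulVec_smul] at h
  exact v₀.2 g hg hr (smul_right_injective _ (norm_pos_iff.1 hz) h)

/-- The homotopy which moves the centre to the origin. -/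
def mv (p : Fin r → ℂ) (v₀ : VReg N) (hp : ∀ H : Arr N, ‖zH p v₀.1 H‖ < 1 / 4) :
    C(ℝ × ℝ, VReg N) where
  toFun q := ⟨((1 - ((Set.projIcc 0 1 zero_le_one q.2 : I) : ℝ) : ℝ) : ℂ) • p +
      Complex.exp (2 * Real.pi * Complex.I * (q.1 : ℝ)) • v₀.1, by
    refine reg_line _ v₀ _ fun H h => ?_
    rw [zH_smul] at h
    have h1 : ‖Complex.exp (2 * Real.pi * Complex.I * (q.1 : ℂ))‖ = 1 := QTopX.norm_e q.1
    rw [h, norm_mul, Complex.norm_real, Real.norm_eq_abs] at h1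
    have h2 := (Set.projIcc (0 : ℝ) 1 zero_le_one q.2).2.1
    have h3 := (Set.projIcc (0 : ℝ) 1 zero_le_one q.2).2.2
    have h4 : |1 - ((Set.projIcc 0 1 zero_le_one q.2 : I) : ℝ)| ≤ 1 := by
      rw [abs_le]
      constructor <;> linarith
    have h5 := hp H
    have h6 : |1 - ((Set.projIcc 0 1 zero_le_one q.2 : I) : ℝ)| * ‖zH p v₀.1 H‖ ≤
        1 * ‖zH p v₀.1 H‖ := mul_le_mul_of_nonneg_right h4 (norm_nonneg _)
    linarith⟩
  continuous_toFun := by
    refine Continuous.subtype_mk ?_ _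
    have h1 : Continuous fun q : ℝ × ℝ => ((1 - ((Set.projIcc 0 1 zero_le_one q.2 : I) : ℝ) : ℝ) : ℂ) :=
      Complex.continuous_ofReal.comp (continuous_const.sub
        (continuous_subtype_val.comp (continuous_projIcc.comp continuous_snd)))
    have h2 : Continuous fun q : ℝ × ℝ => Complex.exp (2 * Real.pi * Complex.I * (q.1 : ℂ)) :=
      Complex.continuous_exp.comp
        (continuous_const.mul (Complex.continuous_ofReal.comp continuous_fst))
    exact (h1.smul continuous_const).add (h2.smul continuous_const)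

lemma mv_val (p : Fin r → ℂ) (v₀ : VReg N) (hp : ∀ H : Arr N, ‖zH p v₀.1 H‖ < 1 / 4) (s t : ℝ) :
    (mv p v₀ hp (s, t)).1 = ((1 - ((Set.projIcc 0 1 zero_le_one t : I) : ℝ) : ℝ) : ℂ) • p +
      Complex.exp (2 * Real.pi * Complex.I * (s : ℝ)) • v₀.1 := rfl

end TopDX

open TopDX

/-- The rotation loop is, in every commutative quotient of the fundamental groupoid, the product
of the small loops around the reflecting hyperplanes. -/
theorem rot_prod {Γ : Type} [CommGroup Γ] (A : Coc (VReg N) Γ) (v₀ : VReg N) :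
    ∃ (p : Arr N → Fin r → ℂ) (x : Arr N → VReg N) (h : ∀ H, IsTw (p H) (x H)),
      (∀ H, p H ∈ H.1) ∧ (∀ H H' : Arr N, p H ∈ H'.1 → H' = H) ∧
      A.a (twLoop (isTw_zero v₀)) = ∏ H, A.a (twLoop (h H)) := by
  classical
  obtain ⟨p, hp, hinj⟩ := exists_base v₀ (1 / 4) (by norm_num)
  have hv : ∀ H : Arr N, lf H.1 ⬝ᵥ v₀.1 ≠ 0 := (vreg_iff v₀.1).1 v₀.2
  let S : Finset ℂ := Finset.univ.image (zH (N := N) p v₀.1)
  have hS : ∀ H : Arr N, zH p v₀.1 H ∈ S := fun H => Finset.mem_image_of_mem _ (Finset.mem_univ H)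
  have hS' : ∀ s ∈ S, ∃ H : Arr N, zH p v₀.1 H = s := fun s hs => by
    obtain ⟨H, _, h⟩ := Finset.mem_image.1 hs
    exact ⟨H, h⟩
  obtain ⟨ρ, hρ, hsep⟩ := exists_sep S
  have hnorm : ∀ t : I, ‖Complex.exp (2 * Real.pi * Complex.I * ((t : ℝ) : ℂ))‖ = 1 :=
    fun t => QTopX.norm_e t
  -- the discs around the points
  have hdisc : ∀ H H' : Arr N, ∀ w : ℂ, 0 < ‖w‖ → ‖w‖ ≤ ρ → zH p v₀.1 H + w ≠ zH p v₀.1 H' := by
    intro H H' w hw hw' h
    by_cases hne : zH p v₀.1 H' = zH p v₀.1 H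
    · rw [hne, add_eq_left] at h
      rw [h, norm_zero] at hw
      exact lt_irrefl _ hw
    · have h1 := hsep _ (hS H) _ (hS H') hne
      have h2 : zH p v₀.1 H' - zH p v₀.1 H = w := by rw [← h, add_sub_cancel_left]
      rw [h2] at h1
      linarith
  have hc : ∀ s : {s // s ∈ S}, ∀ t : I,
      s.1 + ρ * Complex.exp (2 * Real.pi * Complex.I * (t : ℝ)) ∉ S := by
    intro s t hmem
    obtain ⟨H, hH⟩ := hS' s.1 s.2
    obtain ⟨H', hH'⟩ := hS' _ hmem
    refine hdisc H H' (ρ * Complex.exp (2 * Real.pi * Complex.I * (t : ℝ))) ?_ ?_ ?_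
    · rw [norm_mul, hnorm, Complex.norm_real, Real.norm_eq_abs, abs_of_pos hρ, mul_one]
      exact hρ
    · rw [norm_mul, hnorm, Complex.norm_real, Real.norm_eq_abs, abs_of_pos hρ, mul_one]
    · rw [hH, hH']
  have hb : ∀ s ∈ S, ‖s‖ < 1 / 4 := by
    intro s hs
    obtain ⟨H, rfl⟩ := hS' s hs
    exact hp H
  have hc1 : ∀ t : I, (0 : ℂ) + ((1 : ℝ) : ℂ) * Complex.exp (2 * Real.pi * Complex.I * (t : ℝ)) ∉ S := by
    intro t hmem
    have h1 := hb _ hmem
    rw [zero_add, norm_mul, hnorm, Complex.norm_real, norm_one, mul_one] at h1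
    norm_num at h1
  -- the small loops
  let P : Arr N → Fin r → ℂ := fun H => p + zH p v₀.1 H • v₀.1
  have hX : ∀ H : Arr N, ∀ g ∈ N, IsRefl g → g.1 *ᵥ (P H + (ρ : ℂ) • v₀.1) ≠
      P H + (ρ : ℂ) • v₀.1 := by
    intro H
    have e1 : P H + (ρ : ℂ) • v₀.1 = p + (zH p v₀.1 H + ρ) • v₀.1 := by
      show p + zH p v₀.1 H • v₀.1 + (ρ : ℂ) • v₀.1 = _
      rw [add_smul, add_assoc]
    rw [e1]
    refine reg_line p v₀ _ fun H' => hdisc H H' ρ ?_ ?_
    · rw [Complex.norm_real, Real.norm_eq_abs, abs_of_pos hρ]; exact hρ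
    · rw [Complex.norm_real, Real.norm_eq_abs, abs_of_pos hρ]
  let X : Arr N → VReg N := fun H => ⟨P H + (ρ : ℂ) • v₀.1, hX H⟩
  have hXP : ∀ H, (X H).1 - P H = (ρ : ℂ) • v₀.1 := fun H => add_sub_cancel_left _ _
  have hT : ∀ H, IsTw (P H) (X H) := by
    intro H z hz hz1
    rw [hXP]
    have e1 : P H + z • (ρ : ℂ) • v₀.1 = p + (zH p v₀.1 H + z * ρ) • v₀.1 := by
      show p + zH p v₀.1 H • v₀.1 + z • (ρ : ℂ) • v₀.1 = _
      rw [add_smul, add_assoc, mul_smul]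
    rw [e1]
    refine reg_line p v₀ _ fun H' => hdisc H H' (z * ρ) ?_ ?_
    · rw [norm_mul, Complex.norm_real, Real.norm_eq_abs, abs_of_pos hρ]; positivity
    · rw [norm_mul, Complex.norm_real, Real.norm_eq_abs, abs_of_pos hρ]
      nlinarith
  refine ⟨P, X, hT, ?_, ?_, ?_⟩
  · intro H
    rw [(lf_spec H).2]
    show lf H.1 ⬝ᵥ (p + zH p v₀.1 H • v₀.1) = 0
    rw [lf_line p v₀.1 _ H (hv H), sub_self, mul_zero]
  · intro H H' h
    rw [(lf_spec H').2] at h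
    have h' : lf H'.1 ⬝ᵥ (p + zH p v₀.1 H • v₀.1) = 0 := h
    rw [lf_line p v₀.1 _ H' (hv H'), mul_eq_zero, sub_eq_zero] at h'
    rcases h' with h1 | h1
    · exact absurd h1 (hv H')
    · exact (hinj h1).symm
  · have h1 := planar (A.comap (line p v₀ S hS)) 1 one_pos hb ρ hρ hsep hc1 hc
    have h2 : A.a (twLoop (isTw_zero v₀)) = (A.comap (line p v₀ S hS)).a (TopCX.circ 0 1 hc1) := by
      rw [Coc.comap_a]
      symm
      refine A.free (mv p v₀ hp) _ _ ?_ ?_ ?_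
      · intro s
        apply Subtype.ext
        rw [mv_val, Set.projIcc_left]
        show _ = p + (0 + ((1 : ℝ) : ℂ) * Complex.exp (2 * Real.pi * Complex.I * (s : ℝ))) • v₀.1
        simp
      · intro s
        apply Subtype.ext
        rw [mv_val, Set.projIcc_right]
        show _ = 0 + Complex.exp (2 * Real.pi * Complex.I * (s : ℝ)) • (v₀.1 - 0)
        simp
      · intro s
        apply Subtype.ext
        rw [mv_val, mv_val]
        congr 2
        simp [Complex.exp_two_pi_mul_I]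
    rw [h2, h1]
    have hbij : Function.Bijective (fun H : Arr N => (⟨zH p v₀.1 H, hS H⟩ : {s // s ∈ S})) := by
      constructor
      · intro H H' h
        exact hinj (congrArg Subtype.val h)
      · rintro ⟨s, hs⟩
        obtain ⟨H, hH⟩ := hS' s hs
        exact ⟨H, Subtype.ext hH⟩
    rw [← Fintype.prod_bijective _ hbij (fun H => A.a (twLoop (hT H))) _ ?_]
    intro H
    rw [Coc.comap_a]
    refine A.congr _ _ fun t => ?_
    apply Subtype.ext
    show P H + Complex.exp (2 * Real.pi * Complex.I * (t : ℝ)) • ((X H).1 - P H) =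
      p + (zH p v₀.1 H + ρ * Complex.exp (2 * Real.pi * Complex.I * (t : ℝ))) • v₀.1
    rw [hXP]
    show p + zH p v₀.1 H • v₀.1 + _ = _
    rw [add_smul, add_assoc, smul_smul, mul_comm]

end

end Pool.Agent.CMFn
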