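import Pool.Agent.CMFn.CDefs

/-! Project CMFn, block C: closure properties of the virtual characters. -/

namespace Pool.Agent.CMFn

open Matrix

noncomputable section

variable {G : Type} [Group G]

theorem vc_tr {d : ℕ} (ρ : G →* Matrix (Fin d) (Fin d) ℂ) : (fun g => (ρ g).trace) ∈ VC G :=
  AddSubgroup.subset_closure ⟨d, ρ, rfl⟩

namespace VC1X

/-- Representations on any finite index type. -/
theorem vc_of {ι : Type} [Fintype ι] [DecidableEq ι] (ρ : G →* Matrix ι ι ℂ) :
    (fun g => (ρ g).trace) ∈ VC G := by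
  let e : ι ≃ Fin (Fintype.card ι) := Fintype.equivFin ι
  let θ : Matrix ι ι ℂ →* Matrix (Fin (Fintype.card ι)) (Fin (Fintype.card ι)) ℂ :=
    (Matrix.reindexAlgEquiv ℂ ℂ e : Matrix ι ι ℂ →* _)
  have h : (fun g => (ρ g).trace) = fun g => ((θ.comp ρ) g).trace := by
    funext g
    show (ρ g).trace = (Matrix.reindex e e (ρ g)).trace
    simp only [Matrix.trace, Matrix.diag_apply, Matrix.reindex_apply, Matrix.submatrix_apply]
    exact (Equiv.sum_comp e.symm (fun i => ρ g i i)).symm
  rw [h]
  exact vc_tr _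

end VC1X

theorem vc_one : (fun _ => (1 : ℂ)) ∈ VC G := by
  have h : (fun _ : G => (1 : ℂ)) =
      fun g => ((1 : G →* Matrix (Fin 1) (Fin 1) ℂ) g).trace := by
    funext g
    simp
  rw [h]
  exact vc_tr _

namespace VC1X

/-- The tensor product. -/
def tens {d e : ℕ} (ρ : G →* Matrix (Fin d) (Fin d) ℂ) (σ : G →* Matrix (Fin e) (Fin e) ℂ) :
    G →* Matrix (Fin d × Fin e) (Fin d × Fin e) ℂ where
  toFun g := Matrix.kroneckerMap (fun a b => a * b) (ρ g) (σ g)
  map_one' := by
    rw [map_one, map_one]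
    exact Matrix.one_kronecker_one
  map_mul' g h := by
    rw [map_mul, map_mul]
    exact Matrix.mul_kronecker_mul (ρ g) (ρ h) (σ g) (σ h)

theorem mul_aux {d : ℕ} (ρ : G →* Matrix (Fin d) (Fin d) ℂ) {v : G → ℂ} (hv : v ∈ VC G) :
    (fun g => (ρ g).trace * v g) ∈ VC G := by
  refine AddSubgroup.closure_induction (p := fun v _ => (fun g => (ρ g).trace * v g) ∈ VC G)
    ?_ ?_ ?_ ?_ hv
  · rintro v ⟨e, σ, rfl⟩
    have h : (fun g => (ρ g).trace * (σ g).trace) = fun g => (tens ρ σ g).trace := by
      funext g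
      exact (Matrix.trace_kronecker (ρ g) (σ g)).symm
    rw [h]
    exact vc_of _
  · have h : (fun g => (ρ g).trace * (0 : G → ℂ) g) = 0 := by
      funext g
      simp
    rw [h]
    exact (VC G).zero_mem
  · intro x y _ _ hx hy
    have h : (fun g => (ρ g).trace * (x + y) g) =
        (fun g => (ρ g).trace * x g) + fun g => (ρ g).trace * y g := by
      funext g
      simp only [Pi.add_apply]
      ring
    rw [h]
    exact (VC G).add_mem hx hy
  · intro x _ hx
    have h : (fun g => (ρ g).trace * (-x) g) = -fun g => (ρ g).trace * x g := by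
      funext g
      simp
    rw [h]
    exact (VC G).neg_mem hx

/-- The dual representation. -/
def dual {d : ℕ} (ρ : G →* Matrix (Fin d) (Fin d) ℂ) : G →* Matrix (Fin d) (Fin d) ℂ where
  toFun g := (ρ g⁻¹)ᵀ
  map_one' := by simp
  map_mul' g h := by
    rw [_root_.mul_inv_rev, map_mul, Matrix.transpose_mul]

/-- The determinant as a representation of degree one. -/
def detR {d : ℕ} (ρ : G →* Matrix (Fin d) (Fin d) ℂ) : G →* Matrix (Fin 1) (Fin 1) ℂ where
  toFun g := Matrix.of fun _ _ => (ρ g).det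
  map_one' := by
    ext i j
    have : i = j := Subsingleton.elim _ _
    subst this
    simp
  map_mul' g h := by
    ext i j
    simp [Matrix.mul_apply, Matrix.det_mul]

end VC1X

open VC1X

theorem vc_mul {u v : G → ℂ} (hu : u ∈ VC G) (hv : v ∈ VC G) : (fun g => u g * v g) ∈ VC G := by
  refine AddSubgroup.closure_induction (p := fun u _ => (fun g => u g * v g) ∈ VC G)
    ?_ ?_ ?_ ?_ hu
  · rintro u ⟨d, ρ, rfl⟩
    exact mul_aux ρ hv
  · have h : (fun g => (0 : G → ℂ) g * v g) = 0 := by
      funext g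
      simp
    rw [h]
    exact (VC G).zero_mem
  · intro x y _ _ hx hy
    have h : (fun g => (x + y) g * v g) = (fun g => x g * v g) + fun g => y g * v g := by
      funext g
      simp only [Pi.add_apply]
      ring
    rw [h]
    exact (VC G).add_mem hx hy
  · intro x _ hx
    have h : (fun g => (-x) g * v g) = -fun g => x g * v g := by
      funext g
      simp
    rw [h]
    exact (VC G).neg_mem hx

theorem vc_inv {u : G → ℂ} (hu : u ∈ VC G) : (fun g => u g⁻¹) ∈ VC G := by
  refine AddSubgroup.closure_induction (p := fun u _ => (fun g => u g⁻¹) ∈ VC G)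
    ?_ ?_ ?_ ?_ hu
  · rintro u ⟨d, ρ, rfl⟩
    have h : (fun g => (ρ g⁻¹).trace) = fun g => (dual ρ g).trace := by
      funext g
      exact (Matrix.trace_transpose (ρ g⁻¹)).symm
    show (fun g => (ρ g⁻¹).trace) ∈ VC G
    rw [h]
    exact vc_tr _
  · exact (VC G).zero_mem
  · intro x y _ _ hx hy
    exact (VC G).add_mem hx hy
  · intro x _ hx
    exact (VC G).neg_mem hx

theorem vc_det {d : ℕ} (ρ : G →* Matrix (Fin d) (Fin d) ℂ) : (fun g => (ρ g).det) ∈ VC G := by
  have h : (fun g => (ρ g).det) = fun g => (detR ρ g).trace := by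
    funext g
    simp [detR, Matrix.trace]
  rw [h]
  exact vc_tr _

theorem vc_conj {u : G → ℂ} (hu : u ∈ VC G) (g h : G) : u (h * g * h⁻¹) = u g := by
  refine AddSubgroup.closure_induction (p := fun u _ => u (h * g * h⁻¹) = u g)
    ?_ ?_ ?_ ?_ hu
  · rintro u ⟨d, ρ, rfl⟩
    show (ρ (h * g * h⁻¹)).trace = (ρ g).trace
    rw [map_mul, Matrix.trace_mul_comm, ← map_mul]
    congr 2
    group
  · rfl
  · intro x y _ _ hx hy
    show x _ + y _ = x g + y g
    rw [hx, hy]
  · intro x _ hx
    show -x _ = -x g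
    rw [hx]

end

end Pool.Agent.CMFn
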