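import Pool.Agent.CMFn.VC1

/-! Project CMFn, block C: exterior and symmetric squares of representations. -/

namespace Pool.Agent.CMFn

open Matrix

noncomputable section

variable {G : Type} [Group G]

namespace VC4X

/-- Pairs `a < b`. -/
abbrev Pr (d : ℕ) : Type := {p : Fin d × Fin d // p.1 < p.2}

/-- Sum over all pairs, the diagonal being zero. -/
lemma sum_pairs {d : ℕ} (F : Fin d → Fin d → ℂ) (h0 : ∀ a, F a a = 0) :
    ∑ a, ∑ b, F a b = ∑ q : Pr d, (F q.1.1 q.1.2 + F q.1.2 q.1.1) := by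
  classical
  have h1 : ∑ q : Pr d, (F q.1.1 q.1.2 + F q.1.2 q.1.1) =
      ∑ x : Fin d × Fin d, if x.1 < x.2 then F x.1 x.2 + F x.2 x.1 else 0 := by
    rw [← Finset.sum_filter]
    exact (Finset.sum_subtype (Finset.univ.filter fun x : Fin d × Fin d => x.1 < x.2)
      (by simp) (fun x => F x.1 x.2 + F x.2 x.1)).symm
  have h2 : ∑ x : Fin d × Fin d, (if x.1 < x.2 then F x.2 x.1 else 0) =
      ∑ x : Fin d × Fin d, (if x.2 < x.1 then F x.1 x.2 else 0) :=
    Fintype.sum_equiv (Equiv.prodComm (Fin d) (Fin d)) _ _ fun x => rfl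
  have h3 : ∑ x : Fin d × Fin d, (if x.1 < x.2 then F x.1 x.2 + F x.2 x.1 else 0) =
      ∑ x : Fin d × Fin d, (if x.1 < x.2 then F x.1 x.2 else 0) +
        ∑ x : Fin d × Fin d, (if x.1 < x.2 then F x.2 x.1 else 0) := by
    rw [← Finset.sum_add_distrib]
    refine Finset.sum_congr rfl fun x _ => ?_
    split_ifs
    · rfl
    · rw [add_zero]
  rw [h1, h3, h2, ← Finset.sum_add_distrib, ← Fintype.sum_prod_type']
  refine Finset.sum_congr rfl fun x _ => ?_
  rcases lt_trichotomy x.1 x.2 with h | h | h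
  · rw [if_pos h, if_neg (not_lt.2 h.le), add_zero]
  · rw [if_neg (not_lt.2 h.ge), if_neg (not_lt.2 h.le), add_zero, h, h0]
  · rw [if_neg (not_lt.2 h.le), if_pos h, zero_add]

/-- The exterior square. -/
def alt {d : ℕ} (ρ : G →* Matrix (Fin d) (Fin d) ℂ) : G →* Matrix (Pr d) (Pr d) ℂ where
  toFun g := Matrix.of fun p q =>
    ρ g p.1.1 q.1.1 * ρ g p.1.2 q.1.2 - ρ g p.1.1 q.1.2 * ρ g p.1.2 q.1.1
  map_one' := by
    ext p q
    rw [Matrix.of_apply, map_one]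
    have hp := p.2
    have hq := q.2
    by_cases h : p = q
    · subst h
      have hne : p.1.1 ≠ p.1.2 := ne_of_lt hp
      simp [Matrix.one_apply, hne]
    · rw [Matrix.one_apply_ne h]
      have h1 : ¬ (p.1.1 = q.1.1 ∧ p.1.2 = q.1.2) := fun h2 =>
        h (Subtype.ext (Prod.ext h2.1 h2.2))
      have h2 : ¬ (p.1.1 = q.1.2 ∧ p.1.2 = q.1.1) := by
        rintro ⟨h3, h4⟩
        rw [h3, h4] at hp
        exact lt_asymm hp hq
      simp only [Matrix.one_apply, mul_ite, mul_one, mul_zero]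
      by_cases ha : p.1.2 = q.1.2
      · have hb : p.1.1 ≠ q.1.1 := fun hb => h1 ⟨hb, ha⟩
        by_cases hc : p.1.2 = q.1.1
        · have hd : p.1.1 ≠ q.1.2 := fun hd => h2 ⟨hd, hc⟩
          simp [hb, hd]
        · simp [hb, hc]
      · by_cases hc : p.1.2 = q.1.1
        · have hd : p.1.1 ≠ q.1.2 := fun hd => h2 ⟨hd, hc⟩
          simp [ha, hd]
        · simp [ha, hc]
  map_mul' g h := by
    ext p r
    rw [Matrix.mul_apply, Matrix.of_apply, map_mul]
    set A := ρ g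
    set B := ρ h
    have h1 : ∑ q : Pr d, (Matrix.of (fun p q : Pr d => A p.1.1 q.1.1 * A p.1.2 q.1.2 -
        A p.1.1 q.1.2 * A p.1.2 q.1.1) p q) * (Matrix.of (fun p q : Pr d =>
          B p.1.1 q.1.1 * B p.1.2 q.1.2 - B p.1.1 q.1.2 * B p.1.2 q.1.1) q r) =
        ∑ a, ∑ b, (A p.1.1 a * A p.1.2 b) *
          (B a r.1.1 * B b r.1.2 - B a r.1.2 * B b r.1.1) := by
      rw [sum_pairs (fun a b => (A p.1.1 a * A p.1.2 b) *
        (B a r.1.1 * B b r.1.2 - B a r.1.2 * B b r.1.1)) (fun a => by ring)]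
      refine Finset.sum_congr rfl fun q _ => ?_
      rw [Matrix.of_apply, Matrix.of_apply]
      ring
    rw [h1, Matrix.mul_apply, Matrix.mul_apply, Matrix.mul_apply, Matrix.mul_apply,
      Finset.sum_mul_sum, Finset.sum_mul_sum, ← Finset.sum_sub_distrib]
    refine Finset.sum_congr rfl fun a _ => ?_
    rw [← Finset.sum_sub_distrib]
    refine Finset.sum_congr rfl fun b _ => ?_
    ring

lemma alt_trace {d : ℕ} (ρ : G →* Matrix (Fin d) (Fin d) ℂ) (g : G) :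
    (alt ρ g).trace = ((ρ g).trace ^ 2 - ((ρ g) ^ 2).trace) / 2 := by
  have h1 := sum_pairs (fun a b => ρ g a a * ρ g b b - ρ g a b * ρ g b a) (fun a => by ring)
  have h2 : ∑ a, ∑ b, (ρ g a a * ρ g b b - ρ g a b * ρ g b a) =
      (ρ g).trace ^ 2 - ((ρ g) ^ 2).trace := by
    rw [pow_two, pow_two, Matrix.trace, Matrix.trace, Finset.sum_mul_sum,
      ← Finset.sum_sub_distrib]
    refine Finset.sum_congr rfl fun a _ => ?_
    rw [Matrix.diag_apply, Matrix.diag_apply, Matrix.mul_apply, ← Finset.sum_sub_distrib]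
    rfl
  have h3 : ∑ q : Pr d, ((ρ g q.1.1 q.1.1 * ρ g q.1.2 q.1.2 - ρ g q.1.1 q.1.2 * ρ g q.1.2 q.1.1) +
      (ρ g q.1.2 q.1.2 * ρ g q.1.1 q.1.1 - ρ g q.1.2 q.1.1 * ρ g q.1.1 q.1.2)) =
      2 * (alt ρ g).trace := by
    rw [Matrix.trace, Finset.mul_sum]
    refine Finset.sum_congr rfl fun q _ => ?_
    show _ = 2 * (ρ g q.1.1 q.1.1 * ρ g q.1.2 q.1.2 - ρ g q.1.1 q.1.2 * ρ g q.1.2 q.1.1)
    ring
  rw [← h2, h1, h3]
  ring

end VC4X

/-- The exterior square. -/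
theorem vc_alt {d : ℕ} (ρ : G →* Matrix (Fin d) (Fin d) ℂ) :
    (fun g => ((ρ g).trace ^ 2 - ((ρ g) ^ 2).trace) / 2) ∈ VC G := by
  have h : (fun g => ((ρ g).trace ^ 2 - ((ρ g) ^ 2).trace) / 2) =
      fun g => (VC4X.alt ρ g).trace := by
    funext g
    exact (VC4X.alt_trace ρ g).symm
  rw [h]
  exact VC1X.vc_of _

/-- The symmetric square. -/
theorem vc_sym {d : ℕ} (ρ : G →* Matrix (Fin d) (Fin d) ℂ) :
    (fun g => ((ρ g).trace ^ 2 + ((ρ g) ^ 2).trace) / 2) ∈ VC G := by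
  have h : (fun g => ((ρ g).trace ^ 2 + ((ρ g) ^ 2).trace) / 2) =
      (fun g => (ρ g).trace * (ρ g).trace) -
        fun g => ((ρ g).trace ^ 2 - ((ρ g) ^ 2).trace) / 2 := by
    funext g
    simp only [Pi.sub_apply]
    ring
  rw [h]
  exact (VC G).sub_mem (vc_mul (vc_tr ρ) (vc_tr ρ)) (vc_alt ρ)

/-- The second Adams operation of a virtual character: `u(g²)`. -/
theorem vc_adams {u : G → ℂ} (hu : u ∈ VC G) : (fun g => u (g ^ 2)) ∈ VC G := by
  refine AddSubgroup.closure_induction (p := fun u _ => (fun g => u (g ^ 2)) ∈ VC G)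
    ?_ ?_ ?_ ?_ hu
  · rintro u ⟨d, ρ, rfl⟩
    have h : (fun g => (ρ (g ^ 2)).trace) =
        (fun g => ((ρ g).trace ^ 2 + ((ρ g) ^ 2).trace) / 2) -
          fun g => ((ρ g).trace ^ 2 - ((ρ g) ^ 2).trace) / 2 := by
      funext g
      simp only [Pi.sub_apply, map_pow]
      ring
    show (fun g => (ρ (g ^ 2)).trace) ∈ VC G
    rw [h]
    exact (VC G).sub_mem (vc_sym ρ) (vc_alt ρ)
  · exact (VC G).zero_mem
  · intro x y _ _ hx hy
    exact (VC G).add_mem hx hy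
  · intro x _ hx
    exact (VC G).neg_mem hx

end

end Pool.Agent.CMFn
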