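import Pool.Agent.CMFn.VDefs
import Pool.Agent.CMFn.DunA
import Pool.Agent.CMFn.DunB
import Pool.Agent.CMFn.DunC
import Pool.Agent.CMFn.DunD
import Pool.Agent.CMFn.DunE
import Pool.Agent.CMFn.DunF

/-! Project CMFn, module VermaD: the Verma modules `Δ(σ) = ℂ[V] ⊗ σ` of `H_{0,c}`, `c = cK k`, given by
the Dunkl operators at `t = 0`. -/

namespace Pool.Agent.CMFn

open Matrix

noncomputable section

variable {r : ℕ} {N : SG r} [Fintype N]

/-- `c_k` is a class function. -/
theorem cK_cls (k : Idx N → ℂ) : IsCls (cK k) := by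
  intro g s
  have hd : (g * s * g⁻¹ : N).1.1.det = s.1.1.det := DunBX.det_conj g.1 s.1
  rw [DunFX.cK_eq, DunFX.cK_eq, DunBX.cr_conj, hd]

/-- `c_k(s) det(s)/(1 - det s) = cf_k(s)` on the reflections. -/
theorem cK_mul_div (k : Idx N → ℂ) (s : N) (h : IsRefl s.1) :
    cK k s * s.1.1.det / (1 - s.1.1.det) = cr k s := by
  have h0 : s.1.1.det ≠ 0 := DunFX.det_ne_zero s.1
  have h1 : 1 - s.1.1.det ≠ 0 := sub_ne_zero.2 (Ne.symm (DunFX.det_ne_one s h))
  rw [DunFX.cK_eq]
  field_simp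

namespace VermaDX

variable {ι : Type} [Fintype ι] [DecidableEq ι] (ρ : N →* Matrix ι ι ℂ) (t : ℂ) (k : Idx N → ℂ)

lemma act_fX (i : Fin r) : act ρ t k (fX i) = xAct ι i := by
  unfold act fX
  rw [FreeAlgebra.lift_ι_apply]

lemma act_fY (i : Fin r) : act ρ t k (fY i) = dunkl ρ t k (Pi.single i 1) := by
  unfold act fY
  rw [FreeAlgebra.lift_ι_apply]

lemma act_fT (g : N) : act ρ t k (fT g) = gAct ρ g := by
  unfold act fT
  rw [FreeAlgebra.lift_ι_apply]

lemma dunkl_zero_y : dunkl ρ t k (0 : Fin r → ℂ) = 0 := by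
  have h := dunkl_liny ρ t k (-1 : ℂ) 0 0
  rw [smul_zero, add_zero] at h
  refine LinearMap.ext fun f => ?_
  have h1 := congrArg (fun D : Module.End ℂ (PolE r ι) => D f) h
  have h2 : dunkl ρ t k 0 f = (-1 : ℂ) • dunkl ρ t k 0 f + dunkl ρ t k 0 f := h1
  rw [neg_smul, one_smul, neg_add_cancel] at h2
  exact h2

/-- The Dunkl operators as a linear map in `y`. -/
def dunklL : (Fin r → ℂ) →ₗ[ℂ] Module.End ℂ (PolE r ι) where
  toFun y := dunkl ρ t k y
  map_add' y y' := by
    have h := dunkl_liny ρ t k 1 y y'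
    rw [one_smul, one_smul] at h
    exact h
  map_smul' c y := by
    have h := dunkl_liny ρ t k c y 0
    rw [add_zero, dunkl_zero_y, add_zero] at h
    exact h

lemma dunkl_expand (y : Fin r → ℂ) :
    dunkl ρ t k y = ∑ j, y j • dunkl ρ t k (Pi.single j 1) := by
  have h1 : y = ∑ j, y j • (Pi.single j (1 : ℂ) : Fin r → ℂ) := by
    funext i
    rw [Finset.sum_apply, Finset.sum_eq_single i]
    · rw [Pi.smul_apply, Pi.single_eq_same, smul_eq_mul, mul_one]
    · intro b _ hb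
      rw [Pi.smul_apply, Pi.single_eq_of_ne (Ne.symm hb), smul_zero]
    · intro h
      exact absurd (Finset.mem_univ i) h
  have h2 : dunklL ρ t k y = ∑ j, y j • dunklL ρ t k (Pi.single j 1) := by
    conv_lhs => rw [h1]
    rw [map_sum]
    exact Finset.sum_congr rfl fun j _ => map_smul _ _ _
  exact h2

omit [Fintype ι] [DecidableEq ι] in
lemma xAct_comm (i j : Fin r) : xAct ι i * xAct ι j = xAct ι j * xAct ι i := by
  refine LinearMap.ext fun f => ?_
  funext l
  show MvPolynomial.X i * (MvPolynomial.X j * f l) = MvPolynomial.X j * (MvPolynomial.X i * f l)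
  ring

open Classical in
/-- The defining relations of `H_{0,c}` hold for the Dunkl operators at `t = 0`. -/
lemma act_rel (a b : FA ℂ r N) (h : HRel N (cK k) a b) : act ρ 0 k a = act ρ 0 k b := by
  induction h with
  | one => rw [act_fT, map_one, gAct_one]
  | mul g h => rw [map_mul, act_fT, act_fT, act_fT, gAct_mul]
  | TY g i =>
    rw [map_mul, map_mul, map_sum, act_fT, act_fY, gAct_dunkl, dunkl_expand]
    congr 1
    refine Finset.sum_congr rfl fun j _ => ?_
    rw [map_mul, act_fY, AlgHom.commutes, Algebra.algebraMap_eq_smul_one, smul_mul_assoc, one_mul]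
    congr 1
    rw [Matrix.mulVec_single_one]
    rfl
  | TX g i =>
    rw [map_mul, map_mul, map_sum, act_fT, act_fX]
    refine LinearMap.ext fun f => ?_
    show gAct ρ g (xAct ι i f) = (∑ j, act ρ 0 k (algebraMap ℂ (FA ℂ r N) ((g⁻¹).1.1 i j) * fX j))
      (gAct ρ g f)
    rw [gAct_x, LinearMap.sum_apply]
    refine Finset.sum_congr rfl fun j _ => ?_
    rw [map_mul, act_fX, AlgHom.commutes, Algebra.algebraMap_eq_smul_one, smul_mul_assoc, one_mul]
    rfl
  | XX i j => rw [map_mul, map_mul, act_fX, act_fX, xAct_comm]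
  | YY i j => rw [map_mul, map_mul, act_fY, act_fY, dunkl_comm]
  | YX i j =>
    rw [map_add, map_mul, map_mul, map_sum, act_fX, act_fY]
    refine LinearMap.ext fun f => ?_
    show dunkl ρ 0 k (Pi.single i 1) (xAct ι j f) = xAct ι j (dunkl ρ 0 k (Pi.single i 1) f) +
      (∑ s : N, act ρ 0 k (algebraMap ℂ (FA ℂ r N) (if IsRefl s.1 then
        cK k s * ((1 - s.1.1) j i / (1 - s.1.1.det)) else 0) * fT s)) f
    rw [dunkl_x, zero_mul, zero_smul, add_zero, LinearMap.sum_apply]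
    congr 1
    refine Finset.sum_congr rfl fun s _ => ?_
    rw [map_mul, act_fT, AlgHom.commutes, Algebra.algebraMap_eq_smul_one, smul_mul_assoc, one_mul,
      LinearMap.smul_apply]
    congr 1
    by_cases hs : IsRefl s.1
    · rw [if_pos hs, Matrix.mulVec_single_one]
      rfl
    · rw [if_neg hs, DunFX.cK_zero k s hs, zero_mul]

end VermaDX

open VermaDX

/-- The Verma module `ℂ[V] ⊗ σ` of `H_{0,c}`, `c = c_k`: words act by `act σ 0 k`. -/
theorem exists_verma (k : Idx N → ℂ) {d' : ℕ} (σ : N →* Matrix (Fin d') (Fin d') ℂ) :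
    ∃ Φ : H0 N (cK k) →ₐ[ℂ] Module.End ℂ (PolE r (Fin d')), IsVerma (cK k) σ Φ ∧
      ∀ w : FA ℂ r N, Φ (h0 N (cK k) w) = act σ 0 k w := by
  let Φ : H0 N (cK k) →ₐ[ℂ] Module.End ℂ (PolE r (Fin d')) :=
    RingQuot.liftAlgHom ℂ ⟨act σ 0 k, fun {a b} h => act_rel σ k a b h⟩
  have hΦ : ∀ w : FA ℂ r N, Φ (h0 N (cK k) w) = act σ 0 k w := fun w =>
    RingQuot.liftAlgHom_mkAlgHom_apply ℂ (act σ 0 k) (fun {a b} h => act_rel σ k a b h) w
  refine ⟨Φ, ⟨fun j => ?_, fun g => ?_, fun i n f hf => ?_, fun i f hf => ?_⟩, hΦ⟩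
  · exact (hΦ (fX j)).trans (act_fX σ 0 k j)
  · exact (hΦ (fT g)).trans (act_fT σ 0 k g)
  · have h : Φ (rY (cK k) i) = dunkl σ 0 k (Pi.single i 1) := (hΦ (fY i)).trans (act_fY σ 0 k i)
    rw [h]
    exact dunkl_deg σ 0 k _ n f hf
  · have h : Φ (rY (cK k) i) = dunkl σ 0 k (Pi.single i 1) := (hΦ (fY i)).trans (act_fY σ 0 k i)
    rw [h]
    exact dunkl_deg0 σ 0 k _ f hf

end

end Pool.Agent.CMFn
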